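import Pool.Agent.Work.MP_3615d2_al.StarDef

/-!
MP_3615d2_al, A11 (part 1): the module of a locally compact field, scaling of Haar integrals.
-/

open MeasureTheory Measure
open scoped NNReal ENNReal Pointwise

namespace SpW

section alg

variable {F : Type} [NontriviallyNormedField F] [ProperSpace F]

theorem md_zero : md (0 : F) = 0 := by
  simp [md]

theorem md_ne (x : F) (hx : x ≠ 0) : md x = distribHaarChar F (Units.mk0 x hx) := by
  simp [md, hx]

theorem md_units (u : Fˣ) : md (u : F) = distribHaarChar F u := by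
  rw [md_ne (u : F) u.ne_zero]
  congr 1
  ext
  rfl

theorem md_one : md (1 : F) = 1 := by
  have h := md_units (1 : Fˣ)
  rw [Units.val_one] at h
  rw [h, map_one]

theorem md_mul (x y : F) : md (x * y) = md x * md y := by
  by_cases hx : x = 0
  · simp [hx, md_zero]
  by_cases hy : y = 0
  · simp [hy, md_zero]
  rw [md_ne x hx, md_ne y hy, md_ne (x * y) (mul_ne_zero hx hy), ← map_mul]
  congr 1
  ext
  rfl

theorem md_pos {x : F} (hx : x ≠ 0) : 0 < md x := by
  rw [md_ne x hx]
  exact distribHaarChar_pos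

theorem md_eq_zero {x : F} : md x = 0 ↔ x = 0 := by
  constructor
  · intro h
    by_contra hx
    exact (md_pos hx).ne' h
  · intro h
    rw [h, md_zero]

theorem md_pow (x : F) (n : ℕ) : md (x ^ n) = md x ^ n := by
  induction n with
  | zero => simp [md_one]
  | succ n ih => rw [pow_succ, pow_succ, md_mul, ih]

theorem md_inv (x : F) : md x⁻¹ = (md x)⁻¹ := by
  by_cases hx : x = 0
  · simp [hx, md_zero]
  · have h : md x * md x⁻¹ = 1 := by rw [← md_mul, mul_inv_cancel₀ hx, md_one]
    exact eq_inv_of_mul_eq_one_right h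

theorem md_div (x y : F) : md (x / y) = md x / md y := by
  rw [div_eq_mul_inv, md_mul, md_inv, div_eq_mul_inv]

end alg

section one

variable {F : Type} [NontriviallyNormedField F] [ProperSpace F] [MeasurableSpace F] [BorelSpace F]

/-- Multiplication by `x` scales the measure of sets by `md x`. -/
theorem md_image (μ : Measure F) [μ.IsAddHaarMeasure] {x : F} (hx : x ≠ 0) (s : Set F) :
    μ ((fun y => x * y) '' s) = md x * μ s := by
  rw [md_ne x hx, distribHaarChar_mul μ (Units.mk0 x hx) s]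
  rfl

theorem md_preimage (μ : Measure F) [μ.IsAddHaarMeasure] {x : F} (hx : x ≠ 0) (s : Set F) :
    μ ((fun y => x * y) ⁻¹' s) = (md x : ℝ≥0∞)⁻¹ * μ s := by
  have h1 : (fun y => x * y) ⁻¹' s = (fun y => x⁻¹ * y) '' s := by
    ext z
    constructor
    · intro hz
      exact ⟨x * z, hz, by show x⁻¹ * (x * z) = z; rw [inv_mul_cancel_left₀ hx]⟩
    · rintro ⟨y, hy, rfl⟩
      show x * (x⁻¹ * y) ∈ s
      rw [mul_inv_cancel_left₀ hx]
      exact hy
  rw [h1, md_image μ (inv_ne_zero hx), md_inv, ENNReal.coe_inv (md_pos hx).ne']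

theorem map_mul_left_haar (μ : Measure F) [μ.IsAddHaarMeasure] {x : F} (hx : x ≠ 0) :
    μ.map (fun y => x * y) = (md x)⁻¹ • μ := by
  ext s hs
  rw [Measure.map_apply (by fun_prop) hs, md_preimage μ hx, Measure.smul_apply,
    ENNReal.smul_def, ENNReal.coe_inv (md_pos hx).ne', smul_eq_mul]

omit [ProperSpace F] in
theorem measurableEmbedding_mul {x : F} (hx : x ≠ 0) :
    MeasurableEmbedding (fun y : F => x * y) :=
  (Homeomorph.mulLeft₀ x hx).measurableEmbedding

theorem lint_mul (μ : Measure F) [μ.IsAddHaarMeasure] {x : F} (hx : x ≠ 0) (f : F → ℝ≥0∞) :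
    ∫⁻ y, f (x * y) ∂μ = (md x : ℝ≥0∞)⁻¹ * ∫⁻ y, f y ∂μ := by
  have h := (measurableEmbedding_mul hx).lintegral_map (μ := μ) f
  rw [← h, map_mul_left_haar μ hx, lintegral_smul_measure, ENNReal.smul_def,
    ENNReal.coe_inv (md_pos hx).ne', smul_eq_mul]

theorem int_mul (μ : Measure F) [μ.IsAddHaarMeasure] {x : F} (hx : x ≠ 0) (f : F → ℂ) :
    ∫ y, f (x * y) ∂μ = ((md x : ℝ) : ℂ)⁻¹ * ∫ y, f y ∂μ := by
  have h := (measurableEmbedding_mul hx).integral_map (μ := μ) f
  rw [← h, map_mul_left_haar μ hx, integral_smul_nnreal_measure, NNReal.smul_def]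
  simp

/-- If `‖x‖ ≤ 1` then `md x ≤ 1`. -/
theorem md_le_one {x : F} (hx : ‖x‖ ≤ 1) : md x ≤ 1 := by
  by_cases h0 : x = 0
  · rw [h0, md_zero]
    exact zero_le_one
  set μ : Measure F := addHaar
  have h1 := md_image μ h0 (Metric.closedBall (0 : F) 1)
  have h2 : (fun y => x * y) '' Metric.closedBall (0 : F) 1 ⊆ Metric.closedBall (0 : F) 1 := by
    rintro _ ⟨y, hy, rfl⟩
    rw [mem_closedBall_zero_iff] at hy ⊢
    show ‖x * y‖ ≤ 1
    rw [norm_mul]
    exact mul_le_one₀ hx (norm_nonneg _) hy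
  have h3 := measure_mono (μ := μ) h2
  rw [h1] at h3
  have h4 : μ (Metric.closedBall (0 : F) 1) ≠ ∞ := (isCompact_closedBall 0 1).measure_lt_top.ne
  have h5 : μ (Metric.closedBall (0 : F) 1) ≠ 0 :=
    (Metric.measure_closedBall_pos μ 0 one_pos).ne'
  have h6 : (md x : ℝ≥0∞) ≤ 1 := by
    by_contra hc
    rw [not_le] at hc
    have h7 : μ (Metric.closedBall (0 : F) 1) < md x * μ (Metric.closedBall (0 : F) 1) := by
      calc μ (Metric.closedBall (0 : F) 1) = 1 * μ (Metric.closedBall (0 : F) 1) := by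
            rw [one_mul]
        _ < _ := ENNReal.mul_lt_mul_left h5 h4 hc
    exact absurd h3 (not_le.2 h7)
  exact_mod_cast h6

theorem md_mono {x y : F} (h : ‖x‖ ≤ ‖y‖) : md x ≤ md y := by
  by_cases hy : y = 0
  · rw [hy, norm_zero] at h
    have hx : x = 0 := norm_le_zero_iff.1 h
    rw [hx, hy]
  · have h1 : ‖x / y‖ ≤ 1 := by
      rw [norm_div]
      exact (div_le_one (norm_pos_iff.2 hy)).2 h
    have h2 := md_le_one h1
    rw [md_div] at h2
    exact (div_le_one (md_pos hy)).1 h2

theorem md_eq_of_norm_eq {x y : F} (h : ‖x‖ = ‖y‖) : md x = md y :=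
  le_antisymm (md_mono h.le) (md_mono h.ge)

/-- If `‖x‖ < 1` then `md x < 1`. -/
theorem md_lt_one [IsUltrametricDist F] {x : F} (hx : ‖x‖ < 1) : md x < 1 := by
  by_cases h0 : x = 0
  · rw [h0, md_zero]
    exact zero_lt_one
  set μ : Measure F := addHaar
  have h1 := md_image μ h0 (Metric.closedBall (0 : F) 1)
  have h2 : (fun y => x * y) '' Metric.closedBall (0 : F) 1 ⊆ Metric.closedBall (0 : F) ‖x‖ := by
    rintro _ ⟨y, hy, rfl⟩
    rw [mem_closedBall_zero_iff] at hy ⊢
    show ‖x * y‖ ≤ ‖x‖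
    rw [norm_mul]
    exact mul_le_of_le_one_right (norm_nonneg _) hy
  have h3 : Metric.ball (1 : F) 1 ⊆ Metric.closedBall (0 : F) 1 := by
    intro w hw
    rw [Metric.mem_ball, dist_eq_norm] at hw
    rw [mem_closedBall_zero_iff]
    have h := IsUltrametricDist.norm_add_le_max (w - 1) 1
    rw [sub_add_cancel, norm_one] at h
    exact h.trans (max_le hw.le le_rfl)
  have h4 : Disjoint ((fun y => x * y) '' Metric.closedBall (0 : F) 1) (Metric.ball (1 : F) 1) := by
    rw [Set.disjoint_left]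
    intro w hw1 hw2
    have hw3 := h2 hw1
    rw [mem_closedBall_zero_iff] at hw3
    rw [Metric.mem_ball, dist_eq_norm] at hw2
    have h := IsUltrametricDist.norm_add_le_max w (-(w - 1))
    rw [show w + -(w - 1) = 1 by ring, norm_one, norm_neg] at h
    rcases le_max_iff.1 h with h | h <;> linarith
  have h5 : (fun y => x * y) '' Metric.closedBall (0 : F) 1 ∪ Metric.ball (1 : F) 1 ⊆
      Metric.closedBall (0 : F) 1 := by
    apply Set.union_subset _ h3
    exact h2.trans (Metric.closedBall_subset_closedBall hx.le)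
  have h6 := measure_mono (μ := μ) h5
  rw [measure_union h4 measurableSet_ball, h1] at h6
  have h7 : μ (Metric.closedBall (0 : F) 1) ≠ ∞ := (isCompact_closedBall 0 1).measure_lt_top.ne
  have h8 : 0 < μ (Metric.ball (1 : F) 1) := Metric.measure_ball_pos μ 1 one_pos
  by_contra hc
  rw [not_lt] at hc
  have h9 : μ (Metric.closedBall (0 : F) 1) ≤ md x * μ (Metric.closedBall (0 : F) 1) := by
    calc μ (Metric.closedBall (0 : F) 1) = 1 * μ (Metric.closedBall (0 : F) 1) := by
          rw [one_mul]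
      _ ≤ _ := mul_le_mul_left (by exact_mod_cast hc) _
  have h10 : μ (Metric.closedBall (0 : F) 1) + μ (Metric.ball (1 : F) 1) ≤
      μ (Metric.closedBall (0 : F) 1) + 0 := by
    rw [add_zero]
    exact (add_le_add_left h9 _).trans h6
  have h11 := (ENNReal.add_le_add_iff_left h7).1 h10
  exact absurd h11 (not_le.2 h8)

theorem norm_lt_of_md_lt [IsUltrametricDist F] {x y : F} (h : md x < md y) :
    ‖x‖ < ‖y‖ := by
  by_contra hc
  rw [not_lt] at hc
  exact absurd h (not_lt.2 (md_mono hc))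

theorem md_lt [IsUltrametricDist F] {x y : F} (h : ‖x‖ < ‖y‖) : md x < md y := by
  have hy : y ≠ 0 := by
    rintro rfl
    rw [norm_zero] at h
    exact absurd h (not_lt.2 (norm_nonneg _))
  have h1 : ‖x / y‖ < 1 := by
    rw [norm_div]
    exact (div_lt_one (norm_pos_iff.2 hy)).2 h
  have h2 := md_lt_one h1
  rw [md_div] at h2
  exact (div_lt_one (md_pos hy)).1 h2

theorem norm_eq_of_md_eq [IsUltrametricDist F] {x y : F} (h : md x = md y) :
    ‖x‖ = ‖y‖ := by
  rcases lt_trichotomy ‖x‖ ‖y‖ with h1 | h1 | h1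
  · exact absurd h (md_lt h1).ne
  · exact h1
  · exact absurd h (md_lt h1).ne'

/-- `md` is continuous. -/
theorem continuous_md [IsUltrametricDist F] : Continuous (md : F → ℝ≥0) := by
  rw [continuous_iff_continuousAt]
  intro x
  by_cases hx : x = 0
  · subst hx
    rw [ContinuousAt, md_zero]
    obtain ⟨t, ht0, ht1⟩ := NormedField.exists_norm_lt_one F
    have hm : md t < 1 := md_lt_one ht1
    have ht : t ≠ 0 := norm_pos_iff.1 ht0
    rw [tendsto_order]
    refine ⟨fun a ha => absurd ha (not_lt.2 zero_le), fun a ha => ?_⟩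
    have h1 : Filter.Tendsto (fun n : ℕ => (md t) ^ n) Filter.atTop (nhds 0) :=
      tendsto_pow_atTop_nhds_zero_of_lt_one zero_le hm
    obtain ⟨n, hn⟩ := ((tendsto_order.1 h1).2 a ha).exists
    have h2 : ∀ᶠ y in nhds (0 : F), ‖y‖ < ‖t ^ n‖ := by
      have h3 : Filter.Tendsto (fun y : F => ‖y‖) (nhds 0) (nhds 0) := by
        have := (continuous_norm (E := F)).tendsto 0
        rwa [norm_zero] at this
      exact (tendsto_order.1 h3).2 _ (norm_pos_iff.2 (pow_ne_zero n ht))
    filter_upwards [h2] with y hy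
    have h4 := md_mono hy.le
    rw [md_pow] at h4
    exact h4.trans_lt hn
  · have h1 : ∀ᶠ y in nhds x, md y = md x := by
      filter_upwards [Metric.ball_mem_nhds x (norm_pos_iff.2 hx)] with y hy
      rw [Metric.mem_ball, dist_eq_norm] at hy
      apply md_eq_of_norm_eq
      have h2 := IsUltrametricDist.norm_add_eq_max_of_norm_ne_norm (x := y - x) (y := x) hy.ne
      rw [sub_add_cancel, max_eq_right hy.le] at h2
      exact h2
    exact (continuousAt_const (y := md x)).congr (h1.mono fun y hy => hy.symm)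

end one

end SpW
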