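import Pool.Agent.Work.MP_3615d2_al.DefsB
import Pool.Agent.Work.MP_3615d2_al.Mod

/-!
MP_3615d2_al, Theorem B: elementary properties of `rho π s` and of the centre.
-/

open MeasureTheory Matrix Filter Topology
open scoped NNReal TensorProduct

namespace SpW

section rhoB

variable {E : Type} [NontriviallyNormedField E] [IsUltrametricDist E] [ProperSpace E]
  [MeasurableSpace E] [BorelSpace E] {m n : ℕ} {V : Type} [AddCommGroup V] [Module ℂ V]

omit [IsUltrametricDist E] in
theorem ad_eq_md (g : GL (Fin n) E) :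
    ad g = ((md (g : Matrix (Fin n) (Fin n) E).det : ℝ≥0) : ℝ) := by
  unfold ad absE
  rw [← md_units]
  rfl

/-- `|det|` is `1` near `1`. -/
theorem ad_eventually : ∀ᶠ g in 𝓝 (1 : GL (Fin n) E), ad g = 1 := by
  have h1 : ContinuousAt (fun g : GL (Fin n) E => (g : Matrix (Fin n) (Fin n) E).det) 1 := by
    have h2 : Continuous (fun g : GL (Fin n) E => (g : Matrix (Fin n) (Fin n) E).det) :=
      Continuous.matrix_det Units.continuous_val
    exact h2.continuousAt
  have h2 : ∀ᶠ x in 𝓝 (((1 : GL (Fin n) E) : Matrix (Fin n) (Fin n) E).det), ‖x‖ = 1 := by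
    rw [Units.val_one, Matrix.det_one]
    filter_upwards [Metric.ball_mem_nhds (1 : E) one_pos] with x hx
    rw [Metric.mem_ball, dist_eq_norm] at hx
    have h3 : ‖x - 1‖ ≠ ‖(1 : E)‖ := by
      rw [norm_one]
      exact hx.ne
    have h4 := IsUltrametricDist.norm_add_eq_max_of_norm_ne_norm h3
    rw [sub_add_cancel, norm_one, max_eq_right hx.le] at h4
    exact h4
  filter_upwards [h1.eventually h2] with g hg
  rw [ad_eq_md, md_eq_of_norm_eq (hg.trans norm_one.symm), md_one, NNReal.coe_one]

/-- R4d. -/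
theorem rho_smooth {π : GL (Fin m) E →* Module.End ℂ V} (hπ : IsSmoothRep π) (s : ℝ) :
    IsSmoothRep (rho π s) := by
  intro v
  have h1 : Tendsto (Prod.fst : GL (Fin m) E × GL (Fin m) E → GL (Fin m) E) (𝓝 1) (𝓝 1) :=
    continuous_fst.tendsto' _ _ rfl
  have h2 : Tendsto (Prod.snd : GL (Fin m) E × GL (Fin m) E → GL (Fin m) E) (𝓝 1) (𝓝 1) :=
    continuous_snd.tendsto' _ _ rfl
  induction v using TensorProduct.induction_on with
  | zero => exact Eventually.of_forall fun g => map_zero _
  | tmul x y =>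
    filter_upwards [h1.eventually (hπ x), h2.eventually (hπ y), h1.eventually ad_eventually,
      h2.eventually ad_eventually] with p hx hy ha hd
    obtain ⟨a, d⟩ := p
    rw [rho_tmul, hx, hy, ha, hd, Real.one_rpow, Real.one_rpow, mul_one, Complex.ofReal_one,
      one_smul]
  | add x y hx hy =>
    filter_upwards [hx, hy] with p h3 h4
    rw [map_add, h3, h4]

omit [NontriviallyNormedField E] [IsUltrametricDist E] [ProperSpace E]
  [MeasurableSpace E] [BorelSpace E] in
theorem Nk_det {k : ℕ} {R : Type} [CommRing R] {u : GL (Fin n) R} (hu : u ∈ Nk n k R) :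
    (u : Matrix (Fin n) (Fin n) R).det = 1 := by
  have h1 : (u : Matrix (Fin n) (Fin n) R).BlockTriangular id := by
    intro i j hij
    have hij' : j < i := hij
    rw [hu i j (fun h => by
      have h2 : j.1 < i.1 := hij'
      omega)]
    exact Matrix.one_apply_ne hij'.ne'
  rw [Matrix.det_of_isUpperTriangular h1]
  apply Finset.prod_eq_one
  intro i _
  rw [hu i i (fun h => by omega), Matrix.one_apply_eq]

omit [IsUltrametricDist E] in
theorem Nk_ad {k : ℕ} {u : GL (Fin n) E} (hu : u ∈ Nk n k E) : ad u = 1 := by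
  rw [ad_eq_md, Nk_det hu, md_one, NNReal.coe_one]

omit [IsUltrametricDist E] in
/-- R4e: the two cuspidality conditions. -/
theorem rho_cusp {π : GL (Fin m) E →* Module.End ℂ V} (hc : IsCusp π) (s : ℝ) (k : ℕ)
    (hk0 : 0 < k) (hk : k < m) : cvN (rho π s) ((Nk m k E).prod ⊥) ⊤ = ⊤ ∧
      cvN (rho π s) ((⊥ : Subgroup (GL (Fin m) E)).prod (Nk m k E)) ⊤ = ⊤ := by
  have h0 := hc k hk0 hk
  constructor
  · rw [eq_top_iff]
    rintro w -
    induction w using TensorProduct.induction_on with
    | zero => exact Submodule.zero_mem _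
    | tmul x y =>
      have hx : x ∈ cvN π (Nk m k E) ⊤ := by
        rw [h0]
        trivial
      unfold cvN at hx
      induction hx using Submodule.span_induction with
      | mem x hx =>
        obtain ⟨u, hu, v, -, rfl⟩ := hx
        refine Submodule.subset_span ⟨(u, 1), ⟨hu, Subgroup.mem_bot.2 rfl⟩, v ⊗ₜ[ℂ] y, trivial, ?_⟩
        rw [rho_tmul, Nk_ad hu, ad_one, Real.one_rpow, Real.one_rpow, mul_one, Complex.ofReal_one,
          one_smul, map_one, Module.End.one_apply, TensorProduct.sub_tmul]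
      | zero =>
        rw [TensorProduct.zero_tmul]
        exact Submodule.zero_mem _
      | add a b _ _ ha hb =>
        rw [TensorProduct.add_tmul]
        exact Submodule.add_mem _ ha hb
      | smul c a _ ha =>
        rw [← TensorProduct.smul_tmul']
        exact Submodule.smul_mem _ c ha
    | add a b ha hb => exact Submodule.add_mem _ ha hb
  · rw [eq_top_iff]
    rintro w -
    induction w using TensorProduct.induction_on with
    | zero => exact Submodule.zero_mem _
    | tmul x y =>
      have hy : y ∈ cvN π (Nk m k E) ⊤ := by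
        rw [h0]
        trivial
      unfold cvN at hy
      induction hy using Submodule.span_induction with
      | mem y hy =>
        obtain ⟨u, hu, v, -, rfl⟩ := hy
        refine Submodule.subset_span ⟨(1, u), ⟨Subgroup.mem_bot.2 rfl, hu⟩, x ⊗ₜ[ℂ] v, trivial, ?_⟩
        rw [rho_tmul, Nk_ad hu, ad_one, Real.one_rpow, Real.one_rpow, mul_one, Complex.ofReal_one,
          one_smul, map_one, Module.End.one_apply, TensorProduct.tmul_sub]
      | zero =>
        rw [TensorProduct.tmul_zero]
        exact Submodule.zero_mem _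
      | add a b _ _ ha hb =>
        rw [TensorProduct.tmul_add]
        exact Submodule.add_mem _ ha hb
      | smul c a _ ha =>
        rw [TensorProduct.tmul_smul]
        exact Submodule.smul_mem _ c ha
    | add a b ha hb => exact Submodule.add_mem _ ha hb

omit [IsUltrametricDist E] [ProperSpace E] [MeasurableSpace E] [BorelSpace E] in
theorem scalar_eq_pel (z : Eˣ) : Matrix.GeneralLinearGroup.scalar (Fin (2 * m)) z =
    pel (Matrix.GeneralLinearGroup.scalar (Fin m) z) (Matrix.GeneralLinearGroup.scalar (Fin m) z)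
      0 := by
  apply Units.ext
  show Matrix.scalar (Fin (2 * m)) (z : E) =
    bm (Matrix.scalar (Fin m) (z : E)) 0 0 (Matrix.scalar (Fin m) (z : E))
  unfold bm
  rw [Matrix.scalar_apply, Matrix.scalar_apply, Matrix.fromBlocks_diagonal, Matrix.reindex_apply,
    Matrix.submatrix_diagonal_equiv]
  congr 1
  funext i
  rw [Function.comp_apply]
  rcases (sI m).symm i with j | j <;> rfl

omit [IsUltrametricDist E] [ProperSpace E] [MeasurableSpace E] [BorelSpace E] in
/-- R4f: the centre of `GL_{2m}` acts on `Ind` by a unitary character. -/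
theorem ind_unitCentral {W : Type} [AddCommGroup W] [Module ℂ W]
    (ρ : (GL (Fin m) E × GL (Fin m) E) →* Module.End ℂ W) (χ : Eˣ → ℂ)
    (hχ : ∀ z w, ρ (Matrix.GeneralLinearGroup.scalar (Fin m) z,
      Matrix.GeneralLinearGroup.scalar (Fin m) z) w = χ z • w) (z : Eˣ) (f : Ind ρ) :
    indAct ρ (Matrix.GeneralLinearGroup.scalar (Fin (2 * m)) z) f = χ z • f := by
  apply Subtype.ext
  funext x
  rw [indAct_apply, ← scalZ_central _ ⟨z, rfl⟩ x, scalar_eq_pel, f.2.1, hχ]
  rfl

omit [IsUltrametricDist E] in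
theorem rho_unitCentral {π : GL (Fin m) E →* Module.End ℂ V} (hu : UnitCentral π) (s : ℝ) :
    ∃ χ : Eˣ → ℂ, (∀ z, ‖χ z‖ = 1) ∧ ∀ z w, rho π s (Matrix.GeneralLinearGroup.scalar (Fin m) z,
      Matrix.GeneralLinearGroup.scalar (Fin m) z) w = χ z • w := by
  obtain ⟨χ, h1, h2⟩ := hu
  refine ⟨fun z => χ z * χ z, fun z => by rw [norm_mul, h1, mul_one], fun z w => ?_⟩
  induction w using TensorProduct.induction_on with
  | zero => rw [map_zero, smul_zero]
  | tmul x y =>
    rw [rho_tmul, h2, h2, ← Real.rpow_add (ad_pos _), add_neg_cancel, Real.rpow_zero,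
      Complex.ofReal_one, one_smul, TensorProduct.smul_tmul_smul]
  | add a b ha hb => rw [map_add, ha, hb, smul_add]

omit [IsUltrametricDist E] in
theorem rho_scalar_one {π : GL (Fin m) E →* Module.End ℂ V} {χ : Eˣ → ℂ}
    (h2 : ∀ z v, π (Matrix.GeneralLinearGroup.scalar (Fin m) z) v = χ z • v) (s : ℝ) (z : Eˣ)
    (w : V ⊗[ℂ] V) :
    rho π s (Matrix.GeneralLinearGroup.scalar (Fin m) z, 1) w =
      (((ad (Matrix.GeneralLinearGroup.scalar (Fin m) z) ^ s : ℝ) : ℂ) * χ z) • w := by
  induction w using TensorProduct.induction_on with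
  | zero => rw [map_zero, smul_zero]
  | tmul x y =>
    rw [rho_tmul, h2, ad_one, Real.one_rpow, mul_one, map_one, Module.End.one_apply,
      ← TensorProduct.smul_tmul', smul_smul]
  | add a b ha hb => rw [map_add, ha, hb, smul_add]

theorem exists_ad_scalar_lt (hm : 0 < m) :
    ∃ z : Eˣ, ad (Matrix.GeneralLinearGroup.scalar (R := E) (Fin m) z) < 1 := by
  obtain ⟨x, hx0, hx1⟩ := NormedField.exists_norm_lt_one E
  have hx : x ≠ 0 := norm_pos_iff.1 hx0
  refine ⟨Units.mk0 x hx, ?_⟩
  rw [ad_eq_md]
  have h1 : ((Matrix.GeneralLinearGroup.scalar (R := E) (Fin m) (Units.mk0 x hx) :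
      GL (Fin m) E) : Matrix (Fin m) (Fin m) E).det = x ^ m := by
    show (Matrix.scalar (Fin m) (x : E)).det = x ^ m
    rw [Matrix.scalar_apply, Matrix.det_diagonal, Finset.prod_const, Finset.card_univ,
      Fintype.card_fin]
  rw [h1]
  have h2 : ‖x ^ m‖ < 1 := by
    rw [norm_pow]
    exact pow_lt_one₀ (norm_nonneg _) hx1 hm.ne'
  exact_mod_cast md_lt_one h2

/-- R7c: `absE` takes a value different from `1`, hence so does the scalar by which the central
element `(z, 1)` of `M` acts on the two pieces. -/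
theorem exists_split {π : GL (Fin m) E →* Module.End ℂ V} (hm : 0 < m) (hu : UnitCentral π)
    {s : ℝ} (hs : s ≠ m / 2) : ∃ (z : Eˣ) (c c' : ℂ), c ≠ c' ∧
      (∀ w, rho π s (Matrix.GeneralLinearGroup.scalar (Fin m) z, 1) w = c • w) ∧
      ∀ w, rho π (m - s) (Matrix.GeneralLinearGroup.scalar (Fin m) z, 1) w = c' • w := by
  obtain ⟨χ, h1, h2⟩ := hu
  obtain ⟨z, hz⟩ := exists_ad_scalar_lt (E := E) hm
  refine ⟨z, _, _, ?_, rho_scalar_one h2 s z, rho_scalar_one h2 (m - s) z⟩
  intro h
  have hχ : χ z ≠ 0 := by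
    rw [← norm_pos_iff, h1]
    exact one_pos
  have h3 := mul_right_cancel₀ hχ h
  have h4 : ad (Matrix.GeneralLinearGroup.scalar (R := E) (Fin m) z) ^ s =
      ad (Matrix.GeneralLinearGroup.scalar (R := E) (Fin m) z) ^ ((m : ℝ) - s) := by
    exact_mod_cast h3
  have h5 := (Real.rpow_right_inj (ad_pos _) hz.ne).1 h4
  exact hs (by linarith)

end rhoB

end SpW
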