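import Pool.Agent.Work.MP_3615d2_al.Blk

/-!
MP_3615d2_al: quadratic extensions.  `T1` and `sig_sig`.
-/

namespace SpW

section

variable {F E : Type} [Field F] [Field E] [Algebra F E] {σ : E ≃ₐ[F] E} {δ : E} {d : F}

theorem lin_indep_one_of_notMem (hδ : ∀ a : F, algebraMap F E a ≠ δ) :
    LinearIndependent F ![(1 : E), δ] := by
  rw [LinearIndependent.pair_iff]
  intro s t hst
  by_cases ht : t = 0
  · subst ht
    simp only [zero_smul, add_zero] at hst
    refine ⟨?_, rfl⟩
    by_contra hs
    exact one_ne_zero ((smul_eq_zero.1 hst).resolve_left hs)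
  · exfalso
    apply hδ (-(s / t))
    have h1 : algebraMap F E s + algebraMap F E t * δ = 0 := by
      rw [← hst, Algebra.smul_def, Algebra.smul_def, mul_one]
    have h2 : algebraMap F E t ≠ 0 := by
      intro h
      exact ht ((map_eq_zero _).1 h)
    rw [map_neg, map_div₀]
    field_simp
    linear_combination -h1

/-- If `δ` is not in `F` and `[E : F] = 2`, then `E = F + F δ`. -/
theorem exists_coord_of_notMem (hr : Module.finrank F E = 2)
    (hδ : ∀ a : F, algebraMap F E a ≠ δ) (x : E) :
    ∃ a b : F, x = algebraMap F E a + algebraMap F E b * δ := by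
  have hfin : FiniteDimensional F E := FiniteDimensional.of_finrank_pos (by omega)
  have hli := lin_indep_one_of_notMem hδ
  have hspan : Submodule.span F (Set.range ![(1 : E), δ]) = ⊤ := by
    apply hli.span_eq_top_of_card_eq_finrank
    simp [hr]
  have hx : x ∈ Submodule.span F (Set.range ![(1 : E), δ]) := by
    rw [hspan]; trivial
  rw [Matrix.range_cons, Matrix.range_cons, Matrix.range_empty, Set.union_empty,
    Set.singleton_union, Submodule.mem_span_pair] at hx
  obtain ⟨a, b, h⟩ := hx
  refine ⟨a, b, ?_⟩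
  rw [← h, Algebra.smul_def, Algebra.smul_def, mul_one]

theorem QuadDatum.notMem (hq : QuadDatum σ δ d) (a : F) : algebraMap F E a ≠ δ := by
  intro h
  have h1 := hq.sig
  rw [← h, AlgEquiv.commutes, h] at h1
  have h2 : (2 : E) * δ = 0 := by linear_combination h1
  rcases mul_eq_zero.1 h2 with h3 | h3
  · apply hq.two
    have : algebraMap F E 2 = 0 := by rw [map_ofNat, h3]
    exact (map_eq_zero _).1 this
  · exact hq.ne h3

theorem QuadDatum.two_E (hq : QuadDatum σ δ d) : (2 : E) ≠ 0 := by
  intro h
  apply hq.two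
  have : algebraMap F E 2 = 0 := by rw [map_ofNat, h]
  exact (map_eq_zero _).1 this

/-- Coordinates of an element of `E`. -/
theorem QuadDatum.exists_coord (hq : QuadDatum σ δ d) (x : E) :
    ∃ a b : F, x = algebraMap F E a + algebraMap F E b * δ :=
  exists_coord_of_notMem hq.rank hq.notMem x

theorem sig_sig (hq : QuadDatum σ δ d) (x : E) : σ (σ x) = x := by
  obtain ⟨a, b, rfl⟩ := hq.exists_coord x
  simp [hq.sig]

theorem QuadDatum.sig_coord (hq : QuadDatum σ δ d) (a b : F) :
    σ (algebraMap F E a + algebraMap F E b * δ) = algebraMap F E a - algebraMap F E b * δ := by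
  simp [hq.sig]
  ring

theorem QuadDatum.d_ne (hq : QuadDatum σ δ d) : d ≠ 0 := by
  intro h
  have := hq.sq
  rw [h, map_zero] at this
  exact hq.ne (mul_self_eq_zero.1 this)

theorem QuadDatum.finite (hq : QuadDatum σ δ d) : FiniteDimensional F E :=
  FiniteDimensional.of_finrank_pos (by rw [hq.rank]; omega)

/-- The fixed field of `σ` is `F`. -/
theorem QuadDatum.mem_of_fix (hq : QuadDatum σ δ d) {x : E} (hx : σ x = x) :
    ∃ a : F, algebraMap F E a = x := by
  obtain ⟨a, b, rfl⟩ := hq.exists_coord x
  rw [hq.sig_coord] at hx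
  refine ⟨a, ?_⟩
  have h2 : (2 : E) * (algebraMap F E b * δ) = 0 := by linear_combination -hx
  have h3 := (mul_eq_zero.1 h2).resolve_left hq.two_E
  rw [h3, add_zero]

/-- `σ x = -x` iff `x` is in `F δ`. -/
theorem QuadDatum.mem_of_anti (hq : QuadDatum σ δ d) {x : E} (hx : σ x = -x) :
    ∃ a : F, algebraMap F E a * δ = x := by
  obtain ⟨a, b, rfl⟩ := hq.exists_coord x
  rw [hq.sig_coord] at hx
  refine ⟨b, ?_⟩
  have h2 : (2 : E) * (algebraMap F E a) = 0 := by linear_combination hx
  have h3 := (mul_eq_zero.1 h2).resolve_left hq.two_E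
  rw [h3, zero_add]

/-- The trace is `x + σ x`. -/
theorem QuadDatum.trace_eq (hq : QuadDatum σ δ d) (x : E) :
    algebraMap F E (Algebra.trace F E x) = x + σ x := by
  have hfin := hq.finite
  have hli := lin_indep_one_of_notMem hq.notMem
  obtain ⟨a, b, rfl⟩ := hq.exists_coord x
  let bs : Module.Basis (Fin 2) F E := basisOfLinearIndependentOfCardEqFinrank hli
    (by simp [hq.rank])
  have hb0 : bs 0 = 1 := by simp [bs]
  have hb1 : bs 1 = δ := by simp [bs]
  have hrep : ∀ u v : F, bs.repr (algebraMap F E u + algebraMap F E v * δ) =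
      Finsupp.single 0 u + Finsupp.single 1 v := by
    intro u v
    apply bs.repr.symm.injective
    rw [LinearEquiv.symm_apply_apply, map_add, Module.Basis.repr_symm_single,
      Module.Basis.repr_symm_single, hb0, hb1, Algebra.smul_def, Algebra.smul_def, mul_one]
  have htr : Algebra.trace F E (algebraMap F E a + algebraMap F E b * δ) = 2 * a := by
    rw [Algebra.trace_eq_matrix_trace bs, Matrix.trace_fin_two, Algebra.leftMulMatrix_eq_repr_mul,
      Algebra.leftMulMatrix_eq_repr_mul, hb0, hb1, mul_one, hrep]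
    have h2 : (algebraMap F E a + algebraMap F E b * δ) * δ =
        algebraMap F E (b * d) + algebraMap F E a * δ := by
      rw [map_mul, ← hq.sq]; ring
    rw [h2, hrep]
    simp
    ring
  rw [htr, hq.sig_coord]
  simp only [map_mul, map_ofNat]
  ring

theorem QuadDatum.norm_eq (hq : QuadDatum σ δ d) (x : E) :
    algebraMap F E (Algebra.norm F x) = x * σ x := by
  have hfin := hq.finite
  have hli := lin_indep_one_of_notMem hq.notMem
  obtain ⟨a, b, rfl⟩ := hq.exists_coord x
  let bs : Module.Basis (Fin 2) F E := basisOfLinearIndependentOfCardEqFinrank hli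
    (by simp [hq.rank])
  have hb0 : bs 0 = 1 := by simp [bs]
  have hb1 : bs 1 = δ := by simp [bs]
  have hrep : ∀ u v : F, bs.repr (algebraMap F E u + algebraMap F E v * δ) =
      Finsupp.single 0 u + Finsupp.single 1 v := by
    intro u v
    apply bs.repr.symm.injective
    rw [LinearEquiv.symm_apply_apply, map_add, Module.Basis.repr_symm_single,
      Module.Basis.repr_symm_single, hb0, hb1, Algebra.smul_def, Algebra.smul_def, mul_one]
  have htr : Algebra.norm F (algebraMap F E a + algebraMap F E b * δ) = a * a - d * (b * b) := by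
    rw [Algebra.norm_eq_matrix_det bs, Matrix.det_fin_two, Algebra.leftMulMatrix_eq_repr_mul,
      Algebra.leftMulMatrix_eq_repr_mul, Algebra.leftMulMatrix_eq_repr_mul,
      Algebra.leftMulMatrix_eq_repr_mul, hb0, hb1, mul_one, hrep]
    have h2 : (algebraMap F E a + algebraMap F E b * δ) * δ =
        algebraMap F E (b * d) + algebraMap F E a * δ := by
      rw [map_mul, ← hq.sq]; ring
    rw [h2, hrep]
    simp
    ring
  rw [htr, hq.sig_coord]
  simp only [map_sub, map_mul]
  rw [← hq.sq]
  ring

end

theorem quadDatum_exists : QuadDatumExists := by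
  classical
  intro F E _ _ _ σ h2 hr hx
  obtain ⟨x, hx⟩ := hx
  have hfin : FiniteDimensional F E := FiniteDimensional.of_finrank_pos (by omega)
  have hcard : Fintype.card (E ≃ₐ[F] E) ≤ 2 := by
    rw [← hr]; exact AlgEquiv.card_le
  have hσ1 : σ ≠ 1 := by
    rintro rfl
    exact hx rfl
  have hσσ : σ * σ = 1 := by
    by_contra hne
    have hne2 : σ * σ ≠ σ := by
      intro h
      exact hσ1 (mul_eq_left.1 h)
    have h3 : ({1, σ, σ * σ} : Finset (E ≃ₐ[F] E)).card = 3 := by
      rw [Finset.card_insert_of_notMem, Finset.card_insert_of_notMem, Finset.card_singleton]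
      · simp only [Finset.mem_singleton]
        exact fun h => hne2 h.symm
      · simp only [Finset.mem_insert, Finset.mem_singleton, not_or]
        exact ⟨fun h => hσ1 h.symm, fun h => hne h.symm⟩
    have h4 := Finset.card_le_univ ({1, σ, σ * σ} : Finset (E ≃ₐ[F] E))
    omega
  have hss : ∀ y, σ (σ y) = y := by
    intro y
    have := congrArg (fun f : E ≃ₐ[F] E => f y) hσσ
    simpa using this
  have h2E : (2 : E) ≠ 0 := by
    intro h
    apply h2
    have : algebraMap F E 2 = 0 := by rw [map_ofNat, h]
    exact (map_eq_zero _).1 this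
  have hδne : x - σ x ≠ 0 := fun h => hx (sub_eq_zero.1 h).symm
  have hδs : σ (x - σ x) = -(x - σ x) := by
    rw [map_sub, hss]; ring
  have hnot : ∀ a : F, algebraMap F E a ≠ x - σ x := by
    intro a h
    have h1 := hδs
    rw [← h, AlgEquiv.commutes, h] at h1
    have h3 : (2 : E) * (x - σ x) = 0 := by linear_combination h1
    exact hδne ((mul_eq_zero.1 h3).resolve_left h2E)
  obtain ⟨a, b, hab⟩ := exists_coord_of_notMem hr hnot ((x - σ x) * (x - σ x))
  refine ⟨x - σ x, a, ⟨h2, hr, hδs, hδne, ?_⟩⟩
  have h5 : σ ((x - σ x) * (x - σ x)) = (x - σ x) * (x - σ x) := by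
    rw [map_mul, hδs]; ring
  rw [hab] at h5
  rw [map_add, map_mul, AlgEquiv.commutes, AlgEquiv.commutes, hδs] at h5
  have h6 : (2 : E) * (algebraMap F E b * (x - σ x)) = 0 := by linear_combination -h5
  have h7 := (mul_eq_zero.1 h6).resolve_left h2E
  rw [hab, h7, add_zero]

end SpW
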