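import Pool.Agent.Work.MP_3615d2_al.ModFin
import Pool.Agent.Work.MP_3615d2_al.Quad

/-!
MP_3615d2_al, A11 (part 3): module and norm in a quadratic extension `L/K`; lower bounds for
`1 - t₀ N(b)` and `1 - d y^2`.
-/

open MeasureTheory Measure Filter Topology
open scoped NNReal ENNReal Pointwise

namespace SpW

set_option linter.unusedSectionVars false

section gen

variable {F : Type} [NontriviallyNormedField F] [ProperSpace F] [MeasurableSpace F] [BorelSpace F]

theorem md_eq_of_image (ν : Measure F) [ν.IsAddHaarMeasure] {x : F} (hx : x ≠ 0) (s : Set F)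
    (h0 : ν s ≠ 0) (ht : ν s ≠ ∞) (c : ℝ≥0) (h : ν ((fun y => x * y) '' s) = c * ν s) :
    md x = c := by
  rw [md_image ν hx] at h
  have h1 := (ENNReal.mul_left_inj h0 ht).1 h
  exact_mod_cast h1

end gen

section quad

variable {K L : Type} [NontriviallyNormedField K] [IsUltrametricDist K] [ProperSpace K]
  [NontriviallyNormedField L] [NormedAlgebra K L] [IsUltrametricDist L] [ProperSpace L]
  {sg : L ≃ₐ[K] L} {δ : L} {d t₀ : K}

theorem sg_cont (hq : QuadDatum sg δ d) : Continuous sg := by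
  have := hq.finite
  exact LinearMap.continuous_of_finiteDimensional sg.toLinearMap

theorem md_sg (hq : QuadDatum sg δ d) (x : L) : md (sg x) = md x := by
  borelize L
  by_cases hx : x = 0
  · rw [hx, map_zero]
  have hc := sg_cont hq
  have hss : ∀ y, sg (sg y) = y := sig_sig hq
  set μ : Measure L := addHaar with hμ
  let e : L ≃ₜ L := ⟨⟨sg, sg, hss, hss⟩, hc, hc⟩
  have hemb : MeasurableEmbedding (sg : L → L) := e.measurableEmbedding
  set ν : Measure L := μ.map sg with hν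
  have hν' : ν.IsAddHaarMeasure := by
    have := AddEquiv.isAddHaarMeasure_map μ (sg : L ≃+ L) hc (by
      have h1 : ((sg : L ≃+ L).symm : L → L) = sg := by
        funext y
        rw [AddEquiv.symm_apply_eq]
        exact (hss y).symm
      rw [h1]
      exact hc)
    exact this
  have hsx : sg x ≠ 0 := by
    intro h
    exact hx (by rw [← hss x, h, map_zero])
  set s := Metric.closedBall (0 : L) 1
  have h0 : ν s ≠ 0 := (Metric.measure_closedBall_pos ν 0 one_pos).ne'
  have ht : ν s ≠ ∞ := (isCompact_closedBall 0 1).measure_lt_top.ne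
  apply md_eq_of_image ν hsx s h0 ht
  rw [hν, hemb.map_apply, hemb.map_apply]
  have h1 : (sg : L → L) ⁻¹' ((fun y => sg x * y) '' s) =
      (fun y => x * y) '' ((sg : L → L) ⁻¹' s) := by
    ext z
    constructor
    · rintro ⟨y, hy, hyz⟩
      refine ⟨sg y, ?_, ?_⟩
      · show sg (sg y) ∈ s
        rw [hss]
        exact hy
      · show x * sg y = z
        have h2 : sg (sg x * y) = sg (sg z) := congrArg sg hyz
        rw [map_mul, hss, hss] at h2
        exact h2
    · rintro ⟨y, hy, rfl⟩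
      exact ⟨sg y, hy, (map_mul sg x y).symm⟩
  rw [h1, md_image μ hx]

theorem sg_norm (hq : QuadDatum sg δ d) (x : L) : ‖sg x‖ = ‖x‖ := by
  borelize L
  exact norm_eq_of_md_eq (md_sg hq x)

theorem norm_nm (hq : QuadDatum sg δ d) (x : L) : ‖Algebra.norm K x‖ = ‖x‖ ^ 2 := by
  have h := congrArg norm (hq.norm_eq x)
  rw [norm_algebraMap', norm_mul, sg_norm hq] at h
  rw [h, sq]

theorem md_alg (hq : QuadDatum sg δ d) (r : K) : md (algebraMap K L r) = md r ^ 2 := by
  borelize K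
  borelize L
  by_cases hr : r = 0
  · rw [hr, map_zero, md_zero, md_zero]
    simp
  have hr' : algebraMap K L r ≠ 0 := by
    intro h
    exact hr ((map_eq_zero _).1 h)
  have hfin := hq.finite
  let f : K × K →ₗ[K] L :=
    (Algebra.linearMap K L).comp (LinearMap.fst K K K) +
      (LinearMap.mulRight K δ).comp ((Algebra.linearMap K L).comp (LinearMap.snd K K K))
  have hf : ∀ u : K × K, f u = algebraMap K L u.1 + algebraMap K L u.2 * δ := fun u => rfl
  have hsurj : Function.Surjective f := by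
    intro x
    obtain ⟨a, b, h⟩ := hq.exists_coord x
    exact ⟨(a, b), by rw [hf, h]⟩
  have hinj : Function.Injective f := by
    have h2 : Module.finrank K (K × K) = Module.finrank K L := by
      rw [hq.rank]
      simp
    exact (LinearMap.injective_iff_surjective_of_finrank_eq_finrank h2).2 hsurj
  let e : (K × K) ≃L[K] L := (LinearEquiv.ofBijective f ⟨hinj, hsurj⟩).toContinuousLinearEquiv
  have he : ∀ u : K × K, e u = algebraMap K L u.1 + algebraMap K L u.2 * δ := fun u => hf u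
  set μ : Measure K := addHaar with hμ
  set ν : Measure L := (μ.prod μ).map e with hν
  have hemb : MeasurableEmbedding (e : K × K → L) := e.toHomeomorph.measurableEmbedding
  have hν' : ν.IsAddHaarMeasure := by
    exact ContinuousLinearEquiv.isAddHaarMeasure_map e (μ.prod μ)
  set B := Metric.closedBall (0 : K) 1 with hB
  set s : Set L := e '' (B ×ˢ B) with hs
  have hmeas : ∀ t : Set (K × K), ν (e '' t) = (μ.prod μ) t := by
    intro t
    rw [hν, hemb.map_apply, Set.preimage_image_eq _ e.injective]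
  have hB0 : μ B ≠ 0 := (Metric.measure_closedBall_pos μ 0 one_pos).ne'
  have hBt : μ B ≠ ∞ := (isCompact_closedBall 0 1).measure_lt_top.ne
  have h0 : ν s ≠ 0 := by
    rw [hs, hmeas, Measure.prod_prod]
    exact mul_ne_zero hB0 hB0
  have ht : ν s ≠ ∞ := by
    rw [hs, hmeas, Measure.prod_prod]
    exact ENNReal.mul_ne_top hBt hBt
  apply md_eq_of_image ν hr' s h0 ht
  have h1 : (fun y => algebraMap K L r * y) '' s =
      e '' (((fun y => r * y) '' B) ×ˢ ((fun y => r * y) '' B)) := by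
    rw [hs, Set.image_image]
    ext z
    constructor
    · rintro ⟨⟨u, v⟩, ⟨hu, hv⟩, rfl⟩
      refine ⟨(r * u, r * v), ⟨⟨u, hu, rfl⟩, ⟨v, hv, rfl⟩⟩, ?_⟩
      show e (r * u, r * v) = algebraMap K L r * e (u, v)
      rw [he, he]
      simp only [map_mul]
      ring
    · rintro ⟨⟨u', v'⟩, ⟨⟨u, hu, rfl⟩, ⟨v, hv, rfl⟩⟩, rfl⟩
      refine ⟨(u, v), ⟨hu, hv⟩, ?_⟩
      show algebraMap K L r * e (u, v) = e (r * u, r * v)
      rw [he, he]
      simp only [map_mul]
      ring
  rw [h1, hmeas, hs, hmeas, Measure.prod_prod, Measure.prod_prod, md_image μ hr]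
  push_cast
  ring

/-- `|x|_L = |N x|_K`. -/
theorem md_nm (hq : QuadDatum sg δ d) (x : L) : md (Algebra.norm K x) = md x := by
  have h1 : md x ^ 2 = md (Algebra.norm K x) ^ 2 := by
    rw [← md_alg hq, hq.norm_eq, md_mul, md_sg hq, sq]
  exact ((pow_left_inj₀ zero_le zero_le two_ne_zero).1 h1).symm

theorem nm_cont (hq : QuadDatum sg δ d) : Continuous (fun x : L => Algebra.norm K x) := by
  have h1 : Continuous (fun x : L => algebraMap K L (Algebra.norm K x)) := by
    have h2 : (fun x : L => algebraMap K L (Algebra.norm K x)) = fun x => x * sg x := by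
      funext x
      exact hq.norm_eq x
    rw [h2]
    exact continuous_id.mul (sg_cont hq)
  exact (algebraMap_isometry K L).isEmbedding.continuous_iff.2 h1

/-- A map with `‖f z‖ = ‖z‖^2` has closed range; points outside have positive distance. -/
theorem dist_range {X : Type} [NontriviallyNormedField X] [ProperSpace X] (f : X → K)
    (hf : Continuous f) (hn : ∀ z, ‖f z‖ = ‖z‖ ^ 2) : IsClosed (Set.range f) := by
  have h1 : Tendsto f (cocompact X) (cocompact K) := by
    rw [← Metric.cobounded_eq_cocompact, ← Metric.cobounded_eq_cocompact,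
      ← tendsto_norm_atTop_iff_cobounded]
    have h2 : (fun z => ‖f z‖) = fun z => ‖z‖ ^ 2 := funext hn
    rw [h2]
    exact (tendsto_pow_atTop two_ne_zero).comp tendsto_norm_cobounded_atTop
  have h3 : IsProperMap f := isProperMap_iff_tendsto_cocompact.2 ⟨hf, h1⟩
  exact h3.isClosedMap.isClosed_range

theorem exists_dist {X : Type} [NontriviallyNormedField X] [ProperSpace X] (f : X → K)
    (hf : Continuous f) (hn : ∀ z, ‖f z‖ = ‖z‖ ^ 2) {r : K} (hr : ¬ ∃ z, f z = r) :
    ∃ e : K, e ≠ 0 ∧ ∀ z, ‖e‖ ≤ ‖r - f z‖ := by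
  have h1 := (dist_range f hf hn).isOpen_compl
  obtain ⟨ε, hε, h2⟩ := Metric.isOpen_iff.1 h1 r (by
    rintro ⟨z, hz⟩
    exact hr ⟨z, hz⟩)
  obtain ⟨e, he0, he⟩ := NormedField.exists_norm_lt K hε
  refine ⟨e, norm_pos_iff.1 he0, fun z => ?_⟩
  by_contra hc
  rw [not_le] at hc
  have h3 : f z ∈ Metric.ball r ε := by
    rw [Metric.mem_ball, dist_comm, dist_eq_norm]
    linarith
  exact h2 h3 ⟨z, rfl⟩

theorem nm_zero (hq : QuadDatum sg δ d) : Algebra.norm K (0 : L) = 0 := by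
  have h := norm_nm hq (0 : L)
  rw [norm_zero, zero_pow two_ne_zero] at h
  exact norm_eq_zero.1 h

omit [IsUltrametricDist K] [ProperSpace K] [IsUltrametricDist L] [ProperSpace L] in
theorem nm_inv {b : L} (hb : b ≠ 0) : Algebra.norm K b * Algebra.norm K b⁻¹ = 1 := by
  rw [← map_mul, mul_inv_cancel₀ hb, map_one]

omit [IsUltrametricDist K] [ProperSpace K] [IsUltrametricDist L] [ProperSpace L] in
theorem nm_ne {b : L} (hb : b ≠ 0) : Algebra.norm K b ≠ 0 := by
  intro h
  have := nm_inv (K := K) hb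
  rw [h, zero_mul] at this
  exact zero_ne_one this

/-- Lower bounds for `1 - t₀ N(b)`. -/
theorem lower_L (hq : QuadDatum sg δ d) (ht0 : t₀ ≠ 0)
    (hnt : ¬ ∃ y : L, Algebra.norm K y = t₀) :
    ∃ c : ℝ≥0, 0 < c ∧ ∀ b : L, c ≤ md (1 - t₀ * Algebra.norm K b) ∧
      c * md b ≤ md (1 - t₀ * Algebra.norm K b) := by
  have hnt' : ¬ ∃ y : L, Algebra.norm K y = t₀⁻¹ := by
    rintro ⟨y, hy⟩
    have hy0 : y ≠ 0 := by
      rintro rfl
      rw [nm_zero hq] at hy
      exact inv_ne_zero ht0 hy.symm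
    apply hnt
    refine ⟨y⁻¹, ?_⟩
    have h1 := nm_inv (K := K) hy0
    rw [hy] at h1
    calc Algebra.norm K y⁻¹ = t₀ * (t₀⁻¹ * Algebra.norm K y⁻¹) := by
          rw [mul_inv_cancel_left₀ ht0]
      _ = t₀ := by rw [h1, mul_one]
  obtain ⟨e1, he1, h1⟩ := exists_dist (fun x : L => Algebra.norm K x) (nm_cont hq) (norm_nm hq) hnt'
  obtain ⟨e2, he2, h2⟩ := exists_dist (fun x : L => Algebra.norm K x) (nm_cont hq) (norm_nm hq) hnt
  refine ⟨min (md t₀ * md e1) (md e2), lt_min (mul_pos (md_pos ht0) (md_pos he1)) (md_pos he2),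
    fun b => ⟨?_, ?_⟩⟩
  · have h3 : 1 - t₀ * Algebra.norm K b = t₀ * (t₀⁻¹ - Algebra.norm K b) := by
      rw [mul_sub, mul_inv_cancel₀ ht0]
    rw [h3, md_mul]
    borelize K
    exact (min_le_left _ _).trans (mul_le_mul_right (md_mono (h1 b)) _)
  · by_cases hb : b = 0
    · rw [hb, md_zero, mul_zero]
      exact zero_le
    have h3 : 1 - t₀ * Algebra.norm K b = -(Algebra.norm K b * (t₀ - Algebra.norm K b⁻¹)) := by
      rw [mul_sub, nm_inv hb]
      ring
    have h4 : md (1 - t₀ * Algebra.norm K b) = md b * md (t₀ - Algebra.norm K b⁻¹) := by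
      borelize K
      rw [h3, md_eq_of_norm_eq (norm_neg _), md_mul, md_nm hq]
    rw [h4, mul_comm]
    borelize K
    exact mul_le_mul_right ((min_le_right _ _).trans (md_mono (h2 b⁻¹))) _

/-- Lower bounds for `1 - d y^2`. -/
theorem lower_K (hq : QuadDatum sg δ d) :
    ∃ c : ℝ≥0, 0 < c ∧ ∀ y : K, c ≤ md (1 - d * y ^ 2) ∧
      c * md y ^ 2 ≤ md (1 - d * y ^ 2) := by
  have hd := hq.d_ne
  have hsq : ∀ z : K, z ^ 2 ≠ d := by
    intro z hz
    have h1 : (algebraMap K L z - δ) * (algebraMap K L z + δ) = 0 := by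
      have h2 : algebraMap K L z ^ 2 = δ ^ 2 := by rw [← map_pow, hz, ← hq.sq, sq]
      linear_combination h2
    rcases mul_eq_zero.1 h1 with h | h
    · exact hq.notMem z (sub_eq_zero.1 h)
    · apply hq.notMem (-z)
      rw [map_neg]
      linear_combination -h
  have hn : ∀ z : K, ‖z ^ 2‖ = ‖z‖ ^ 2 := fun z => norm_pow z 2
  have hc : Continuous (fun z : K => z ^ 2) := by fun_prop
  obtain ⟨e1, he1, h1⟩ := exists_dist (fun x : K => x ^ 2) hc hn (r := d⁻¹) (by
    rintro ⟨z, hz⟩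
    apply hsq z⁻¹
    have hz' : z ^ 2 = d⁻¹ := hz
    rw [inv_pow, hz', inv_inv])
  obtain ⟨e2, he2, h2⟩ := exists_dist (fun x : K => x ^ 2) hc hn (r := d) (by
    rintro ⟨z, hz⟩
    exact hsq z hz)
  borelize K
  refine ⟨min (md d * md e1) (md e2), lt_min (mul_pos (md_pos hd) (md_pos he1)) (md_pos he2),
    fun y => ⟨?_, ?_⟩⟩
  · have h3 : 1 - d * y ^ 2 = d * (d⁻¹ - y ^ 2) := by
      rw [mul_sub, mul_inv_cancel₀ hd]
    rw [h3, md_mul]
    exact (min_le_left _ _).trans (mul_le_mul_right (md_mono (h1 y)) _)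
  · by_cases hy : y = 0
    · rw [hy, md_zero]
      simp
    have h3 : 1 - d * y ^ 2 = -(y ^ 2 * (d - y⁻¹ ^ 2)) := by
      field_simp
      ring
    have h4 : md (1 - d * y ^ 2) = md y ^ 2 * md (d - y⁻¹ ^ 2) := by
      rw [h3, md_eq_of_norm_eq (norm_neg _), md_mul, md_pow]
    rw [h4, mul_comm]
    exact mul_le_mul_right ((min_le_right _ _).trans (md_mono (h2 y⁻¹))) _

theorem fin_L (hq : QuadDatum sg δ d) (ht0 : t₀ ≠ 0) (hnt : ¬ ∃ y : L, Algebra.norm K y = t₀)
    [MeasurableSpace L] [BorelSpace L] (μ : Measure L) [μ.IsAddHaarMeasure] :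
    ∫⁻ b : L, ((md (1 - t₀ * Algebra.norm K b) : ℝ≥0∞)⁻¹) ^ 2 ∂μ < ∞ := by
  obtain ⟨c, hc, h⟩ := lower_L hq ht0 hnt
  refine lint_fin_of_le μ _ ((c⁻¹) ^ 2) (fun b => ?_) (fun b => ?_)
  · have h1 : (md (1 - t₀ * Algebra.norm K b) : ℝ≥0∞)⁻¹ ≤ ((c⁻¹ : ℝ≥0) : ℝ≥0∞) := by
      rw [ENNReal.coe_inv hc.ne']
      exact ENNReal.inv_le_inv.2 (by exact_mod_cast (h b).1)
    calc _ ≤ (((c⁻¹ : ℝ≥0) : ℝ≥0∞)) ^ 2 := pow_le_pow_left' h1 2
      _ = _ := by push_cast; rfl
  · have h1 : (md (1 - t₀ * Algebra.norm K b) : ℝ≥0∞)⁻¹ ≤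
        ((c⁻¹ : ℝ≥0) : ℝ≥0∞) * (md b : ℝ≥0∞)⁻¹ := by
      rw [ENNReal.coe_inv hc.ne', ← ENNReal.mul_inv (Or.inl (by exact_mod_cast hc.ne'))
        (Or.inl ENNReal.coe_ne_top)]
      exact ENNReal.inv_le_inv.2 (by exact_mod_cast (h b).2)
    calc _ ≤ (((c⁻¹ : ℝ≥0) : ℝ≥0∞) * (md b : ℝ≥0∞)⁻¹) ^ 2 := pow_le_pow_left' h1 2
      _ = _ := by rw [mul_pow]; push_cast; rfl

theorem fin_K (hq : QuadDatum sg δ d) [MeasurableSpace K] [BorelSpace K] (μ : Measure K)
    [μ.IsAddHaarMeasure] :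
    ∫⁻ y : K, (md (1 - d * y ^ 2) : ℝ≥0∞)⁻¹ ∂μ < ∞ := by
  obtain ⟨c, hc, h⟩ := lower_K hq
  refine lint_fin_of_le μ _ (c⁻¹) (fun y => ?_) (fun y => ?_)
  · rw [ENNReal.coe_inv hc.ne']
    exact ENNReal.inv_le_inv.2 (by exact_mod_cast (h y).1)
  · rw [ENNReal.coe_inv hc.ne', ← ENNReal.inv_pow, ← ENNReal.mul_inv
      (Or.inl (by exact_mod_cast hc.ne')) (Or.inl ENNReal.coe_ne_top)]
    exact ENNReal.inv_le_inv.2 (by exact_mod_cast (h y).2)

end quad

end SpW
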