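import Mathlib

/-!
# Counting in a finite commutative group with an involution
-/

namespace Pool.Agent.LocNorm

section count

variable {A : Type*} [CommGroup A]

/-- `a ↦ a * σ a` -/
def nm (σ : A →* A) : A →* A := MonoidHom.id A * σ

/-- `a ↦ σ a / a` -/
def df (σ : A →* A) : A →* A := σ / MonoidHom.id A

@[simp] lemma nm_apply (σ : A →* A) (a : A) : nm σ a = a * σ a := rfl

@[simp] lemma df_apply (σ : A →* A) (a : A) : df σ a = σ a / a := rfl

lemma card_eq_mul_index [Finite A] {H H' : Subgroup A} (h : H ≤ H') :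
    Nat.card H' = Nat.card H * (H.subgroupOf H').index := by
  rw [← Subgroup.card_mul_index (H.subgroupOf H'),
    Nat.card_congr (Subgroup.subgroupOfEquivOfLe h).toEquiv]

lemma card_ker_range [Finite A] (f : A →* A) :
    Nat.card f.ker * Nat.card f.range = Nat.card A := by
  rw [← Subgroup.index_ker, Subgroup.card_mul_index]

variable (σ : A →* A) (hσ : ∀ a, σ (σ a) = a)

include hσ

lemma range_nm_le : (nm σ).range ≤ (df σ).ker := by
  rintro _ ⟨a, rfl⟩
  rw [MonoidHom.mem_ker]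
  simp [hσ, mul_comm]

lemma range_df_le : (df σ).range ≤ (nm σ).ker := by
  rintro _ ⟨a, rfl⟩
  rw [MonoidHom.mem_ker]
  simp [hσ, mul_comm]

variable [Finite A]

lemma index_eq : ((nm σ).range.subgroupOf (df σ).ker).index =
    ((df σ).range.subgroupOf (nm σ).ker).index := by
  have h1 := card_eq_mul_index (range_nm_le σ hσ)
  have h2 := card_eq_mul_index (range_df_le σ hσ)
  have h3 := card_ker_range (nm σ)
  have h4 := card_ker_range (df σ)
  rw [h2] at h3
  rw [h1] at h4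
  have p1 : 0 < Nat.card (nm σ).range := Nat.card_pos
  have p2 : 0 < Nat.card (df σ).range := Nat.card_pos
  have h5 : Nat.card (nm σ).range * Nat.card (df σ).range *
      ((nm σ).range.subgroupOf (df σ).ker).index = Nat.card (nm σ).range *
      Nat.card (df σ).range * ((df σ).range.subgroupOf (nm σ).ker).index := by
    rw [← h3] at h4
    linarith
  exact Nat.eq_of_mul_eq_mul_left (Nat.mul_pos p1 p2) h5

theorem count_one (h : ∀ x, x * σ x = 1 → ∃ y, σ y / y = x) (u : A) (hu : σ u = u) :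
    ∃ w, w * σ w = u := by
  have h1 : ((df σ).range.subgroupOf (nm σ).ker) = ⊤ := by
    rw [Subgroup.subgroupOf_eq_top]
    intro x hx
    exact h x hx
  have h2 := index_eq σ hσ
  rw [h1, Subgroup.index_top, Subgroup.index_eq_one, Subgroup.subgroupOf_eq_top] at h2
  exact h2 (show u ∈ (df σ).ker by rw [MonoidHom.mem_ker]; simp [hu])

theorem count_two (h : ∀ x y, x * σ x = 1 → y * σ y = 1 → (¬ ∃ z, σ z / z = x) →
    (¬ ∃ z, σ z / z = y) → ∃ z, σ z / z = x * y) (u u' : A) (hu : σ u = u) (hu' : σ u' = u')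
    (h1 : ¬ ∃ w, w * σ w = u) (h2 : ¬ ∃ w, w * σ w = u') : ∃ w, w * σ w = u * u' := by
  have e1 := index_eq σ hσ
  have hk : u ∈ (df σ).ker := by rw [MonoidHom.mem_ker]; simp [hu]
  have hk' : u' ∈ (df σ).ker := by rw [MonoidHom.mem_ker]; simp [hu']
  by_cases h3 : ∀ x, x * σ x = 1 → ∃ y, σ y / y = x
  · exact absurd (count_one σ hσ h3 u hu) h1
  · push Not at h3
    obtain ⟨a, ha, ha'⟩ := h3
    have ha2 : ¬ ∃ z, σ z / z = a := by
      rintro ⟨z, hz⟩
      exact ha' z hz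
    have h4 : ((df σ).range.subgroupOf (nm σ).ker).index = 2 := by
      rw [Subgroup.index_eq_two_iff]
      refine ⟨⟨a, ha⟩, fun b => ?_⟩
      rw [Subgroup.mem_subgroupOf, Subgroup.mem_subgroupOf]
      by_cases hb : (b : A) ∈ (df σ).range
      · refine Or.inr ⟨hb, fun h5 => ha2 ?_⟩
        have h6 := (df σ).range.mul_mem ((df σ).range.inv_mem hb) h5
        simp only [Subgroup.coe_mul, inv_mul_cancel_left] at h6
        exact h6
      · refine Or.inl ⟨?_, hb⟩
        exact h b a b.2 ha hb ha2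
    rw [h4] at e1
    have h5 := (Subgroup.mul_mem_iff_of_index_two e1 (a := ⟨u, hk⟩) (b := ⟨u', hk'⟩))
    rw [Subgroup.mem_subgroupOf, Subgroup.mem_subgroupOf, Subgroup.mem_subgroupOf] at h5
    exact h5.2 ⟨fun h => absurd h h1, fun h => absurd h h2⟩

end count

section lift

variable {G : Type*} [CommGroup G] (σ : G →* G) (hσ : ∀ a, σ (σ a) = a) (V : Subgroup G)
  [V.FiniteIndex] (hV : ∀ v ∈ V, σ v ∈ V) (h0 : ∀ v ∈ V, σ v = v → ∃ w ∈ V, w * σ w = v)

/-- The endomorphism of the quotient. -/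
def qs : G ⧸ V →* G ⧸ V := QuotientGroup.map V V σ hV

omit [V.FiniteIndex] in
lemma qs_mk (x : G) : qs σ V hV (x : G ⧸ V) = (σ x : G) := rfl

include hσ h0

omit [V.FiniteIndex] in
/-- An element of norm one of the quotient lifts. -/
lemma lift_ker {x : G ⧸ V} (hx : x * qs σ V hV x = 1) : ∃ y : G, (y : G ⧸ V) = x ∧ y * σ y = 1 := by
  obtain ⟨x, rfl⟩ := QuotientGroup.mk_surjective x
  rw [qs_mk, ← QuotientGroup.mk_mul, QuotientGroup.eq_one_iff] at hx
  obtain ⟨w, hw, hw2⟩ := h0 _ hx (by rw [map_mul, hσ, mul_comm])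
  refine ⟨x / w, ?_, ?_⟩
  · rw [QuotientGroup.mk_div, (QuotientGroup.eq_one_iff w).2 hw, div_one]
  · rw [map_div, div_mul_div_comm, hw2, div_self']

omit [V.FiniteIndex] in
/-- A norm of the quotient is a norm. -/
lemma lift_nm {u : G} (hu : σ u = u) (h : ∃ w, w * qs σ V hV w = (u : G ⧸ V)) :
    ∃ w, w * σ w = u := by
  obtain ⟨w, hw⟩ := h
  obtain ⟨w, rfl⟩ := QuotientGroup.mk_surjective w
  rw [qs_mk, ← QuotientGroup.mk_mul, QuotientGroup.eq] at hw
  obtain ⟨w', -, h2⟩ := h0 _ hw (by rw [map_mul, map_inv, map_mul, hσ, hu, mul_comm (σ w)])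
  refine ⟨w * w', ?_⟩
  rw [map_mul]
  calc w * w' * (σ w * σ w') = (w * σ w) * (w' * σ w') := by
        rw [mul_mul_mul_comm]
    _ = u := by rw [h2, mul_inv_cancel_left]

include hV in
theorem lift_one (h : ∀ x : G, x * σ x = 1 → ∃ y, σ y / y = x) (u : G) (hu : σ u = u) :
    ∃ w, w * σ w = u := by
  have : Finite (G ⧸ V) := Subgroup.finite_quotient_of_finiteIndex
  have hq : ∀ a, qs σ V hV (qs σ V hV a) = a := by
    intro a
    obtain ⟨a, rfl⟩ := QuotientGroup.mk_surjective a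
    rw [qs_mk, qs_mk, hσ]
  refine lift_nm σ hσ V hV h0 hu (count_one (qs σ V hV) hq ?_ _ (by rw [qs_mk, hu]))
  intro x hx
  obtain ⟨y, rfl, hy⟩ := lift_ker σ hσ V hV h0 hx
  obtain ⟨z, hz⟩ := h y hy
  exact ⟨z, by rw [qs_mk, ← QuotientGroup.mk_div, hz]⟩

include hV in
theorem lift_two (h : ∀ x y : G, x * σ x = 1 → y * σ y = 1 → (¬ ∃ z, σ z / z = x) →
    (¬ ∃ z, σ z / z = y) → ∃ z, σ z / z = x * y) (u u' : G) (hu : σ u = u) (hu' : σ u' = u')
    (h1 : ¬ ∃ w, w * σ w = u) (h2 : ¬ ∃ w, w * σ w = u') : ∃ w, w * σ w = u * u' := by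
  have : Finite (G ⧸ V) := Subgroup.finite_quotient_of_finiteIndex
  have hq : ∀ a, qs σ V hV (qs σ V hV a) = a := by
    intro a
    obtain ⟨a, rfl⟩ := QuotientGroup.mk_surjective a
    rw [qs_mk, qs_mk, hσ]
  refine lift_nm σ hσ V hV h0 (by rw [map_mul, hu, hu']) ?_
  rw [QuotientGroup.mk_mul]
  refine count_two (qs σ V hV) hq ?_ _ _ (by rw [qs_mk, hu]) (by rw [qs_mk, hu'])
    (fun h3 => h1 (lift_nm σ hσ V hV h0 hu h3)) (fun h3 => h2 (lift_nm σ hσ V hV h0 hu' h3))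
  intro x y hx hy hx' hy'
  obtain ⟨x, rfl, hx2⟩ := lift_ker σ hσ V hV h0 hx
  obtain ⟨y, rfl, hy2⟩ := lift_ker σ hσ V hV h0 hy
  obtain ⟨z, hz⟩ := h x y hx2 hy2
    (by rintro ⟨z, rfl⟩; exact hx' ⟨z, by rw [qs_mk, ← QuotientGroup.mk_div]⟩)
    (by rintro ⟨z, rfl⟩; exact hy' ⟨z, by rw [qs_mk, ← QuotientGroup.mk_div]⟩)
  exact ⟨z, by rw [qs_mk, ← QuotientGroup.mk_div, hz, QuotientGroup.mk_mul]⟩

end lift

end Pool.Agent.LocNorm
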