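import Mathlib

/-!
# The value group of a locally compact ultrametric field
-/

namespace Pool.Agent.LocNorm

open Metric

variable {K : Type*} [NontriviallyNormedField K] [IsUltrametricDist K] [ProperSpace K]

omit [ProperSpace K] in
lemma norm_eq_of_sub_lt {x y : K} (h : ‖x - y‖ < ‖x‖) : ‖x‖ = ‖y‖ := by
  have h1 := IsUltrametricDist.norm_add_eq_max_of_norm_ne_norm (x := x) (y := y - x) (by
    rw [norm_sub_rev]
    exact h.ne')
  rw [add_sub_cancel, norm_sub_rev y x, max_eq_left h.le] at h1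
  exact h1.symm

variable (K) in
/-- The value group is cyclic. -/
theorem exists_unif : ∃ π : K, 1 < ‖π‖ ∧ ∀ x : K, x ≠ 0 → ∃ n : ℤ, ‖x‖ = ‖π‖ ^ n := by
  obtain ⟨c, hc⟩ := NormedField.exists_one_lt_norm K
  obtain ⟨t, -, ht, hcov⟩ := (isCompact_closedBall (0 : K) ‖c‖).finite_cover_balls (e := 1) one_pos
  have hval : ∀ y : K, 1 ≤ ‖y‖ → ‖y‖ ≤ ‖c‖ → ∃ x ∈ t, ‖x‖ = ‖y‖ := by
    intro y h1 h2
    have h3 := hcov (mem_closedBall_zero_iff.2 h2)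
    simp only [Set.mem_iUnion, exists_prop] at h3
    obtain ⟨x, hx, hxy⟩ := h3
    rw [mem_ball, dist_eq_norm] at hxy
    exact ⟨x, hx, (norm_eq_of_sub_lt (hxy.trans_le h1)).symm⟩
  obtain ⟨x₁, hx₁, hx₁c⟩ := hval c hc.le le_rfl
  obtain ⟨π, ⟨hπ, hπ1⟩, hmin⟩ := Set.exists_min_image {x | x ∈ t ∧ 1 < ‖x‖} (fun x => ‖x‖)
    (ht.subset fun x hx => hx.1) ⟨x₁, hx₁, by rw [hx₁c]; exact hc⟩
  have hgap : ∀ y : K, 1 < ‖y‖ → ‖π‖ ≤ ‖y‖ := by
    intro y hy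
    rcases le_or_gt ‖y‖ ‖c‖ with h | h
    · obtain ⟨x, hx, hxy⟩ := hval y hy.le h
      rw [← hxy]
      exact hmin x ⟨hx, by rw [hxy]; exact hy⟩
    · have h1 := hmin x₁ ⟨hx₁, by rw [hx₁c]; exact hc⟩
      simp only [hx₁c] at h1
      exact h1.trans h.le
  refine ⟨π, hπ1, fun x hx => ?_⟩
  have hπ0 : π ≠ 0 := by
    rintro rfl
    rw [norm_zero] at hπ1
    linarith
  obtain ⟨n, hn1, hn2⟩ := exists_mem_Ico_zpow (norm_pos_iff.2 hx) hπ1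
  refine ⟨n, ?_⟩
  have hp : 0 < ‖π‖ ^ n := zpow_pos (by linarith) n
  by_contra hne
  have h1 : 1 < ‖x / π ^ n‖ := by
    rw [norm_div, norm_zpow, one_lt_div hp]
    exact lt_of_le_of_ne hn1 (Ne.symm hne)
  have h2 := hgap _ h1
  rw [norm_div, norm_zpow, le_div_iff₀ hp, ← zpow_one_add₀ (by linarith : ‖π‖ ≠ 0), add_comm] at h2
  linarith

/-- The product of two elements whose absolute values are not squares. -/
theorem sq_or (a b : K) (ha : a ≠ 0) (hb : b ≠ 0) (ha' : ¬ ∃ c : K, ‖a‖ = ‖c‖ ^ 2)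
    (hb' : ¬ ∃ c : K, ‖b‖ = ‖c‖ ^ 2) : ∃ c : K, ‖a * b‖ = ‖c‖ ^ 2 := by
  obtain ⟨π, hπ, h⟩ := exists_unif K
  have hπ0 : ‖π‖ ≠ 0 := by linarith
  have key : ∀ x : K, ∀ n : ℤ, ‖x‖ = ‖π‖ ^ n → Even n → ∃ c : K, ‖x‖ = ‖c‖ ^ 2 := by
    rintro x n hn ⟨k, rfl⟩
    refine ⟨π ^ k, ?_⟩
    rw [hn, norm_zpow, zpow_add₀ hπ0, sq]
  obtain ⟨n, hn⟩ := h a ha
  obtain ⟨m, hm⟩ := h b hb
  have hn' : ¬ Even n := fun h => ha' (key a n hn h)
  have hm' : ¬ Even m := fun h => hb' (key b m hm h)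
  refine key (a * b) (n + m) (by rw [norm_mul, hn, hm, zpow_add₀ hπ0]) ?_
  rw [Int.not_even_iff_odd] at hn' hm'
  exact hn'.add_odd hm'

/-- The polynomial `X² - d` is bounded away from zero if `d` is not a square. -/
theorem exists_bound {d : K} (hd : ∀ r : K, r ^ 2 ≠ d) : ∃ c : ℝ, 0 < c ∧ ∀ a b : K,
    c * ‖b‖ ^ 2 ≤ ‖a ^ 2 - d * b ^ 2‖ := by
  have hd0 : d ≠ 0 := fun h => hd 0 (by rw [h]; simp)
  have hd0' : 0 < ‖d‖ := norm_pos_iff.2 hd0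
  obtain ⟨x, -, hx⟩ := (isCompact_closedBall (0 : K) (1 + ‖d‖)).exists_isMinOn
    ⟨0, by simp; linarith⟩ (f := fun a : K => ‖a ^ 2 - d‖) (by fun_prop)
  have hx0 : 0 < ‖x ^ 2 - d‖ := norm_pos_iff.2 (sub_ne_zero.2 (hd x))
  have h1 : ∀ a : K, min ‖x ^ 2 - d‖ ‖d‖ ≤ ‖a ^ 2 - d‖ := by
    intro a
    rcases le_or_gt ‖a‖ (1 + ‖d‖) with h | h
    · exact (min_le_left _ _).trans (hx (mem_closedBall_zero_iff.2 h))
    · refine (min_le_right _ _).trans ?_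
      have h2 : ‖d‖ < ‖a ^ 2‖ := by
        rw [norm_pow]
        nlinarith
      have h3 := IsUltrametricDist.norm_add_eq_max_of_norm_ne_norm (x := a ^ 2) (y := -d) (by
        rw [norm_neg]; exact h2.ne')
      rw [← sub_eq_add_neg] at h3
      rw [h3, norm_neg]
      exact le_max_right _ _
  refine ⟨min ‖x ^ 2 - d‖ ‖d‖, lt_min hx0 hd0', fun a b => ?_⟩
  by_cases hb : b = 0
  · rw [hb, norm_zero]
    simp
  · have h2 : a ^ 2 - d * b ^ 2 = ((a / b) ^ 2 - d) * b ^ 2 := by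
      field_simp
    rw [h2, norm_mul, norm_pow]
    exact mul_le_mul_of_nonneg_right (h1 _) (by positivity)

end Pool.Agent.LocNorm
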