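import Mathlib
import Pool.Agent.Work.MP_3615d2_al.LocVal
import Pool.Agent.Work.MP_3615d2_al.LocCount

/-!
# The norm index of a quadratic extension of a locally compact ultrametric field
-/

namespace Pool.Agent.LocNorm

set_option linter.unusedSectionVars false

open Metric

section local_units

variable {K : Type*} [NontriviallyNormedField K] [IsUltrametricDist K] {d : K}

lemma qnorm (z : (QuadraticAlgebra K d 0)) : QuadraticAlgebra.norm z = z.re ^ 2 - d * z.im ^ 2 := by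
  rw [QuadraticAlgebra.norm_def]; ring

variable (K d) in
/-- The elements whose norm is a unit. -/
def UG : Subgroup (QuadraticAlgebra K d 0)ˣ where
  carrier := {u | ‖QuadraticAlgebra.norm (u : (QuadraticAlgebra K d 0))‖ = 1}
  mul_mem' {u v} hu hv := by
    simp only [Set.mem_ofPred_eq] at hu hv ⊢
    rw [Units.val_mul, map_mul, norm_mul, hu, hv, one_mul]
  one_mem' := by simp
  inv_mem' {u} hu := by
    simp only [Set.mem_ofPred_eq] at hu ⊢
    have h : QuadraticAlgebra.norm (u : (QuadraticAlgebra K d 0)) * QuadraticAlgebra.norm ((u⁻¹ : (QuadraticAlgebra K d 0)ˣ) : (QuadraticAlgebra K d 0)) = 1 := by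
      rw [← map_mul, Units.mul_inv, map_one]
    have h2 := congrArg norm h
    rw [norm_mul, hu, one_mul, norm_one] at h2
    exact h2

variable (d) in
/-- The conjugation on the units. -/
def cj : (QuadraticAlgebra K d 0)ˣ →* (QuadraticAlgebra K d 0)ˣ :=
  Units.map (starRingEnd (QuadraticAlgebra K d 0) : QuadraticAlgebra K d 0 →* QuadraticAlgebra K d 0)

lemma cj_val (u : (QuadraticAlgebra K d 0)ˣ) : ((cj d u : (QuadraticAlgebra K d 0)ˣ) : (QuadraticAlgebra K d 0)) = star (u : (QuadraticAlgebra K d 0)) := rfl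

lemma cj_cj (u : (QuadraticAlgebra K d 0)ˣ) : cj d (cj d u) = u := by
  ext1
  rw [cj_val, cj_val, star_star]

lemma mul_cj (u : (QuadraticAlgebra K d 0)ˣ) : ((u * cj d u : (QuadraticAlgebra K d 0)ˣ) : (QuadraticAlgebra K d 0)) = algebraMap K (QuadraticAlgebra K d 0) (QuadraticAlgebra.norm (u : (QuadraticAlgebra K d 0))) := by
  rw [Units.val_mul, cj_val, QuadraticAlgebra.algebraMap_norm_eq_mul_star]

variable (K d) in
/-- the bound of the differences -/
def Vset (r : ℝ) : Set (QuadraticAlgebra K d 0) :=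
  {z | ‖z.re - 1 + z.im‖ ≤ ‖(2 : K)‖ * r ∧ ‖z.re - 1 - z.im‖ ≤ ‖(2 : K)‖ * r}

lemma norm_two_le : ‖(2 : K)‖ ≤ 1 := by
  have := IsUltrametricDist.norm_natCast_le_one K 2
  exact_mod_cast this

lemma max3 {x y z : K} {s : ℝ} (hx : ‖x‖ ≤ s) (hy : ‖y‖ ≤ s) (hz : ‖z‖ ≤ s) : ‖x + y + z‖ ≤ s :=
  (IsUltrametricDist.norm_add_le_max _ _).trans
    (max_le ((IsUltrametricDist.norm_add_le_max _ _).trans (max_le hx hy)) hz)

variable {r : ℝ}

lemma im_le (h2 : (2 : K) ≠ 0) {z : (QuadraticAlgebra K d 0)} (hz : z ∈ Vset K d r) : ‖z.im‖ ≤ r := by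
  have h : (2 : K) * z.im = (z.re - 1 + z.im) + -(z.re - 1 - z.im) := by ring
  have h3 : ‖(2 : K) * z.im‖ ≤ ‖(2 : K)‖ * r := by
    rw [h]
    refine (IsUltrametricDist.norm_add_le_max _ _).trans (max_le hz.1 ?_)
    rw [norm_neg]; exact hz.2
  rw [norm_mul] at h3
  exact le_of_mul_le_mul_left h3 (norm_pos_iff.2 h2)

variable (h2 : (2 : K) ≠ 0) (hr0 : 0 < r) (hr1 : r < 1) (hrd : ‖1 - d‖ * r < ‖(2 : K)‖)

include h2 hr0 hr1 hrd

/-- the product of two small numbers with the factor `1 - d` -/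
lemma small1 {x y : K} (hx : ‖x‖ ≤ r) (hy : ‖y‖ ≤ r) : ‖(1 - d) * x * y‖ ≤ ‖(2 : K)‖ * r := by
  rw [norm_mul, norm_mul]
  calc ‖1 - d‖ * ‖x‖ * ‖y‖ ≤ ‖1 - d‖ * r * r := by gcongr
    _ ≤ ‖(2 : K)‖ * r := mul_le_mul_of_nonneg_right hrd.le hr0.le

lemma small2 {x y : K} (hx : ‖x‖ ≤ ‖(2 : K)‖ * r) (hy : ‖y‖ ≤ ‖(2 : K)‖ * r) :
    ‖x * y‖ ≤ ‖(2 : K)‖ * r := by
  rw [norm_mul]
  have h3 : ‖(2 : K)‖ * r ≤ 1 := by
    have := norm_two_le (K := K)
    nlinarith
  calc ‖x‖ * ‖y‖ ≤ (‖(2 : K)‖ * r) * 1 := by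
        refine mul_le_mul hx (hy.trans h3) (norm_nonneg _) (by positivity)
    _ = _ := mul_one _

/-- the norm is a one-unit -/
lemma norm_V {z : (QuadraticAlgebra K d 0)} (hz : z ∈ Vset K d r) : ‖z.re ^ 2 - d * z.im ^ 2 - 1‖ ≤ r := by
  have h3 := im_le h2 hz
  have hr : ‖(2 : K)‖ * r ≤ r := by
    have := norm_two_le (K := K)
    nlinarith
  have e1 : z.re ^ 2 - d * z.im ^ 2 - 1 = ((z.re - 1 + z.im) + (z.re - 1 - z.im)) +
      (z.re - 1 + z.im) * (z.re - 1 - z.im) + (1 - d) * z.im * z.im := by ring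
  rw [e1]
  refine max3 ?_ ?_ ?_
  · exact (IsUltrametricDist.norm_add_le_max _ _).trans (max_le (hz.1.trans hr) (hz.2.trans hr))
  · exact (small2 h2 hr0 hr1 hrd hz.1 hz.2).trans hr
  · exact (small1 h2 hr0 hr1 hrd h3 h3).trans hr

lemma norm_V_one {z : (QuadraticAlgebra K d 0)} (hz : z ∈ Vset K d r) : ‖QuadraticAlgebra.norm z‖ = 1 := by
  have h3 := norm_V h2 hr0 hr1 hrd hz
  rw [qnorm]
  have h4 := norm_eq_of_sub_lt (x := (1 : K)) (y := z.re ^ 2 - d * z.im ^ 2) (by
    rw [norm_sub_rev, norm_one]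
    exact h3.trans_lt hr1)
  rw [← h4, norm_one]

lemma mul_V {z w : (QuadraticAlgebra K d 0)} (hz : z ∈ Vset K d r) (hw : w ∈ Vset K d r) : z * w ∈ Vset K d r := by
  have hz3 := im_le h2 hz
  have hw3 := im_le h2 hw
  constructor
  · have e1 : (z * w).re - 1 + (z * w).im = ((z.re - 1 + z.im) + (w.re - 1 + w.im)) +
        (z.re - 1 + z.im) * (w.re - 1 + w.im) + -((1 - d) * z.im * w.im) := by
      simp only [QuadraticAlgebra.re_mul, QuadraticAlgebra.im_mul]
      ring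
    rw [e1]
    refine max3 ?_ ?_ ?_
    · exact (IsUltrametricDist.norm_add_le_max _ _).trans (max_le hz.1 hw.1)
    · exact small2 h2 hr0 hr1 hrd hz.1 hw.1
    · rw [norm_neg]; exact small1 h2 hr0 hr1 hrd hz3 hw3
  · have e1 : (z * w).re - 1 - (z * w).im = ((z.re - 1 - z.im) + (w.re - 1 - w.im)) +
        (z.re - 1 - z.im) * (w.re - 1 - w.im) + -((1 - d) * z.im * w.im) := by
      simp only [QuadraticAlgebra.re_mul, QuadraticAlgebra.im_mul]
      ring
    rw [e1]
    refine max3 ?_ ?_ ?_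
    · exact (IsUltrametricDist.norm_add_le_max _ _).trans (max_le hz.2 hw.2)
    · exact small2 h2 hr0 hr1 hrd hz.2 hw.2
    · rw [norm_neg]; exact small1 h2 hr0 hr1 hrd hz3 hw3

/-- The inverse. -/
lemma inv_V {z w : (QuadraticAlgebra K d 0)} (hz : z ∈ Vset K d r) (hw : z * w = 1) : w ∈ Vset K d r := by
  have hz3 := im_le h2 hz
  have hn : ‖QuadraticAlgebra.norm z‖ = 1 := norm_V_one h2 hr0 hr1 hrd hz
  set n := QuadraticAlgebra.norm z with hndef
  have hn0 : n ≠ 0 := by rw [← norm_pos_iff, hn]; exact one_pos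
  have hw' : (n : K) • w = star z := by
    rw [← QuadraticAlgebra.C_mul_eq_smul, QuadraticAlgebra.C_eq_algebraMap, hndef,
      QuadraticAlgebra.algebraMap_norm_eq_mul_star, mul_comm z, mul_assoc, hw, mul_one]
  have hre : n * w.re = z.re := by
    have := congrArg QuadraticAlgebra.re hw'
    simpa using this
  have him : n * w.im = -z.im := by
    have := congrArg QuadraticAlgebra.im hw'
    simpa using this
  have hnn : n = z.re ^ 2 - d * z.im ^ 2 := qnorm z
  constructor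
  · have e1 : n * (w.re - 1 + w.im) = -(z.re - 1 + z.im) + -((z.re - 1 + z.im) * (z.re - 1 - z.im)) +
        -((1 - d) * z.im * z.im) := by
      have : n * (w.re - 1 + w.im) = n * w.re - n + n * w.im := by ring
      rw [this, hre, him, hnn]
      ring
    have e2 : ‖n * (w.re - 1 + w.im)‖ = ‖w.re - 1 + w.im‖ := by rw [norm_mul, hn, one_mul]
    rw [← e2, e1]
    refine max3 ?_ ?_ ?_
    · rw [norm_neg]; exact hz.1
    · rw [norm_neg]; exact small2 h2 hr0 hr1 hrd hz.1 hz.2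
    · rw [norm_neg]; exact small1 h2 hr0 hr1 hrd hz3 hz3
  · have e1 : n * (w.re - 1 - w.im) = -(z.re - 1 - z.im) + -((z.re - 1 + z.im) * (z.re - 1 - z.im)) +
        -((1 - d) * z.im * z.im) := by
      have : n * (w.re - 1 - w.im) = n * w.re - n - n * w.im := by ring
      rw [this, hre, him, hnn]
      ring
    have e2 : ‖n * (w.re - 1 - w.im)‖ = ‖w.re - 1 - w.im‖ := by rw [norm_mul, hn, one_mul]
    rw [← e2, e1]
    refine max3 ?_ ?_ ?_
    · rw [norm_neg]; exact hz.2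
    · rw [norm_neg]; exact small2 h2 hr0 hr1 hrd hz.1 hz.2
    · rw [norm_neg]; exact small1 h2 hr0 hr1 hrd hz3 hz3

/-- The open subgroup. -/
def VG : Subgroup (QuadraticAlgebra K d 0)ˣ where
  carrier := {u | (u : (QuadraticAlgebra K d 0)) ∈ Vset K d r}
  mul_mem' {u v} hu hv := mul_V h2 hr0 hr1 hrd hu hv
  one_mem' := by
    have h : 0 ≤ ‖(2 : K)‖ * r := by positivity
    show (1 : (QuadraticAlgebra K d 0)) ∈ Vset K d r
    constructor
    · show ‖(1 : K) - 1 + 0‖ ≤ _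
      simpa using h
    · show ‖(1 : K) - 1 - 0‖ ≤ _
      simpa using h
  inv_mem' {u} hu := inv_V h2 hr0 hr1 hrd hu (Units.mul_inv u)

include h2 hr0 hr1 hrd

/-- The elements of `K` in the subgroup are norms from the subgroup. -/
lemma exists_norm_eq [CompleteSpace K] {c : K} (hc : ‖c - 1‖ ≤ ‖(2 : K)‖ * r) :
    ∃ z : (QuadraticAlgebra K d 0), z ∈ Vset K d r ∧ z.re ^ 2 - d * z.im ^ 2 = c := by
  have h2' : 0 < ‖(2 : K)‖ := norm_pos_iff.2 h2
  -- the contraction
  let f : K → K := fun x => (c - 1 - (1 - d) * x * x) / 2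
  have hf : Set.MapsTo f (closedBall 0 r) (closedBall 0 r) := by
    intro x hx
    rw [mem_closedBall_zero_iff] at hx ⊢
    show ‖(c - 1 - (1 - d) * x * x) / 2‖ ≤ r
    rw [norm_div, div_le_iff₀ h2', mul_comm r, sub_eq_add_neg (c - 1)]
    refine (IsUltrametricDist.norm_add_le_max _ _).trans (max_le hc ?_)
    rw [norm_neg]
    exact small1 h2 hr0 hr1 hrd hx hx
  have hLip : ∀ x ∈ closedBall (0 : K) r, ∀ y ∈ closedBall (0 : K) r,
      dist (f x) (f y) ≤ (‖1 - d‖ * r / ‖(2 : K)‖) * dist x y := by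
    intro x hx y hy
    rw [mem_closedBall_zero_iff] at hx hy
    rw [dist_eq_norm, dist_eq_norm]
    have e1 : f x - f y = -((1 - d) * (x + y) * (x - y)) / 2 := by
      show (c - 1 - (1 - d) * x * x) / 2 - (c - 1 - (1 - d) * y * y) / 2 = _
      ring
    rw [e1, norm_div, norm_neg, norm_mul, norm_mul]
    have h3 : ‖x + y‖ ≤ r := (IsUltrametricDist.norm_add_le_max _ _).trans (max_le hx hy)
    calc ‖1 - d‖ * ‖x + y‖ * ‖x - y‖ / ‖(2 : K)‖ ≤ ‖1 - d‖ * r * ‖x - y‖ / ‖(2 : K)‖ := by gcongr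
      _ = _ := by ring
  have hK : ContractingWith ⟨‖1 - d‖ * r / ‖(2 : K)‖, by positivity⟩
      (hf.restrict f (closedBall 0 r) (closedBall 0 r)) := by
    refine ⟨?_, LipschitzWith.of_dist_le_mul fun x y => hLip x x.2 y y.2⟩
    refine NNReal.coe_lt_coe.1 ?_
    show ‖1 - d‖ * r / ‖(2 : K)‖ < ((1 : NNReal) : ℝ)
    rw [NNReal.coe_one]
    rw [div_lt_one h2']
    exact hrd
  obtain ⟨x, hx, hfx, -⟩ := hK.exists_fixedPoint' (isClosed_closedBall.isComplete) hf
    (x := (0 : K)) (by simp [hr0.le]) (edist_ne_top _ _)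
  rw [mem_closedBall_zero_iff] at hx
  have hfx' : (c - 1 - (1 - d) * x * x) / 2 = x := hfx
  rw [div_eq_iff h2] at hfx'
  refine ⟨⟨1 + x, x⟩, ⟨?_, ?_⟩, ?_⟩
  · show ‖1 + x - 1 + x‖ ≤ _
    have : 1 + x - 1 + x = 2 * x := by ring
    rw [this, norm_mul]
    exact mul_le_mul_of_nonneg_left hx h2'.le
  · show ‖1 + x - 1 - x‖ ≤ _
    have : 1 + x - 1 - x = 0 := by ring
    rw [this, norm_zero]
    positivity
  · show (1 + x) ^ 2 - d * x ^ 2 = c
    linear_combination -hfx'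

end local_units

section main

variable {K : Type*} [NontriviallyNormedField K] [IsUltrametricDist K] [ProperSpace K] {d : K}

/-- The elements with norm of absolute value one are bounded. -/
lemma bounded_UG (hd : ∀ r : K, r ^ 2 ≠ d) : ∃ C : ℝ, 1 ≤ C ∧ ∀ u ∈ UG K d,
    ‖(u : (QuadraticAlgebra K d 0)).re‖ ≤ C ∧ ‖(u : (QuadraticAlgebra K d 0)).im‖ ≤ C := by
  obtain ⟨c, hc, h⟩ := exists_bound hd
  refine ⟨1 + 1 / c + ‖d‖ / c, by
    have : 0 ≤ 1 / c := by positivity
    have : 0 ≤ ‖d‖ / c := by positivity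
    linarith, fun u hu => ?_⟩
  have hu' : ‖QuadraticAlgebra.norm (u : (QuadraticAlgebra K d 0))‖ = 1 := hu
  rw [qnorm] at hu'
  have h1 := h (u : (QuadraticAlgebra K d 0)).re (u : (QuadraticAlgebra K d 0)).im
  rw [hu'] at h1
  have h3 : ‖(u : (QuadraticAlgebra K d 0)).im‖ ^ 2 ≤ 1 / c := by
    rw [le_div_iff₀ hc, mul_comm]; exact h1
  have hc1 : 0 ≤ 1 / c := by positivity
  have hc2 : 0 ≤ ‖d‖ / c := by positivity
  have h4 : ‖(u : (QuadraticAlgebra K d 0)).re‖ ^ 2 ≤ 1 + ‖d‖ / c := by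
    have e1 : (u : (QuadraticAlgebra K d 0)).re ^ 2 = ((u : (QuadraticAlgebra K d 0)).re ^ 2 - d * (u : (QuadraticAlgebra K d 0)).im ^ 2) + d * (u : (QuadraticAlgebra K d 0)).im ^ 2 := by ring
    rw [← norm_pow, e1]
    refine (norm_add_le _ _).trans (add_le_add hu'.le ?_)
    rw [norm_mul, norm_pow]
    calc ‖d‖ * ‖(u : (QuadraticAlgebra K d 0)).im‖ ^ 2 ≤ ‖d‖ * (1 / c) := by gcongr
      _ = _ := by ring
  constructor
  · have h5 := norm_nonneg (u : (QuadraticAlgebra K d 0)).re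
    nlinarith
  · have h5 := norm_nonneg (u : (QuadraticAlgebra K d 0)).im
    nlinarith

/-- The open subgroup has finite index. -/
lemma finite_index (hd : ∀ r : K, r ^ 2 ≠ d) {r : ℝ} (h2 : (2 : K) ≠ 0) (hr0 : 0 < r) (hr1 : r < 1)
    (hrd : ‖1 - d‖ * r < ‖(2 : K)‖) : ((VG (d := d) h2 hr0 hr1 hrd).subgroupOf (UG K d)).FiniteIndex := by
  classical
  obtain ⟨C, hC1, hC⟩ := bounded_UG (d := d) hd
  have h2' : 0 < ‖(2 : K)‖ := norm_pos_iff.2 h2
  set ρ := ‖(2 : K)‖ * r / (C * (1 + ‖d‖)) with hρ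
  have hρ0 : 0 < ρ := by positivity
  obtain ⟨t, -, ht, hcov⟩ := (isCompact_closedBall (0 : K) C).finite_cover_balls (e := ρ) hρ0
  have hex : ∀ x : K, ‖x‖ ≤ C → ∃ y : t, ‖x - y‖ < ρ := by
    intro x hx
    have h3 := hcov (mem_closedBall_zero_iff.2 hx)
    simp only [Set.mem_iUnion, exists_prop] at h3
    obtain ⟨y, hy, hxy⟩ := h3
    rw [mem_ball, dist_eq_norm] at hxy
    exact ⟨⟨y, hy⟩, hxy⟩
  have : Finite t := ht
  choose f hf using hex
  let g : UG K d → t × t := fun u => (f ((u : (QuadraticAlgebra K d 0)ˣ) : (QuadraticAlgebra K d 0)).re (hC u u.2).1, f ((u : (QuadraticAlgebra K d 0)ˣ) : (QuadraticAlgebra K d 0)).im (hC u u.2).2)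
  have hg : ∀ u v : UG K d, g u = g v → u⁻¹ * v ∈ (VG (d := d) h2 hr0 hr1 hrd).subgroupOf (UG K d) := by
    intro u v huv
    have e1 := congrArg Prod.fst huv
    have e2 := congrArg Prod.snd huv
    have a1 := hf _ (hC u u.2).1
    have a2 := hf _ (hC v v.2).1
    have b1 := hf _ (hC u u.2).2
    have b2 := hf _ (hC v v.2).2
    have e1' : f ((u : (QuadraticAlgebra K d 0)ˣ) : (QuadraticAlgebra K d 0)).re (hC u u.2).1 = f ((v : (QuadraticAlgebra K d 0)ˣ) : (QuadraticAlgebra K d 0)).re (hC v v.2).1 := e1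
    have e2' : f ((u : (QuadraticAlgebra K d 0)ˣ) : (QuadraticAlgebra K d 0)).im (hC u u.2).2 = f ((v : (QuadraticAlgebra K d 0)ˣ) : (QuadraticAlgebra K d 0)).im (hC v v.2).2 := e2
    rw [e1'] at a1
    rw [e2'] at b1
    -- the differences are small
    have hA : ‖((v : (QuadraticAlgebra K d 0)ˣ) : (QuadraticAlgebra K d 0)).re - ((u : (QuadraticAlgebra K d 0)ˣ) : (QuadraticAlgebra K d 0)).re‖ ≤ ρ := by
      have e3 : ((v : (QuadraticAlgebra K d 0)ˣ) : (QuadraticAlgebra K d 0)).re - ((u : (QuadraticAlgebra K d 0)ˣ) : (QuadraticAlgebra K d 0)).re = (((v : (QuadraticAlgebra K d 0)ˣ) : (QuadraticAlgebra K d 0)).re - (f ((v : (QuadraticAlgebra K d 0)ˣ) : (QuadraticAlgebra K d 0)).re (hC v v.2).1 : K)) +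
          -(((u : (QuadraticAlgebra K d 0)ˣ) : (QuadraticAlgebra K d 0)).re - (f ((v : (QuadraticAlgebra K d 0)ˣ) : (QuadraticAlgebra K d 0)).re (hC v v.2).1 : K)) := by ring
      rw [e3]
      refine (IsUltrametricDist.norm_add_le_max _ _).trans (max_le a2.le ?_)
      rw [norm_neg]; exact a1.le
    have hB : ‖((v : (QuadraticAlgebra K d 0)ˣ) : (QuadraticAlgebra K d 0)).im - ((u : (QuadraticAlgebra K d 0)ˣ) : (QuadraticAlgebra K d 0)).im‖ ≤ ρ := by
      have e3 : ((v : (QuadraticAlgebra K d 0)ˣ) : (QuadraticAlgebra K d 0)).im - ((u : (QuadraticAlgebra K d 0)ˣ) : (QuadraticAlgebra K d 0)).im = (((v : (QuadraticAlgebra K d 0)ˣ) : (QuadraticAlgebra K d 0)).im - (f ((v : (QuadraticAlgebra K d 0)ˣ) : (QuadraticAlgebra K d 0)).im (hC v v.2).2 : K)) +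
          -(((u : (QuadraticAlgebra K d 0)ˣ) : (QuadraticAlgebra K d 0)).im - (f ((v : (QuadraticAlgebra K d 0)ˣ) : (QuadraticAlgebra K d 0)).im (hC v v.2).2 : K)) := by ring
      rw [e3]
      refine (IsUltrametricDist.norm_add_le_max _ _).trans (max_le b2.le ?_)
      rw [norm_neg]; exact b1.le
    obtain ⟨hu1, hu2⟩ := hC u u.2
    set n := QuadraticAlgebra.norm ((u : (QuadraticAlgebra K d 0)ˣ) : (QuadraticAlgebra K d 0)) with hn
    have hn1 : ‖n‖ = 1 := u.2
    set w : (QuadraticAlgebra K d 0) := (((u⁻¹ * v : UG K d) : (QuadraticAlgebra K d 0)ˣ) : (QuadraticAlgebra K d 0)) with hw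
    have huw : ((u : (QuadraticAlgebra K d 0)ˣ) : (QuadraticAlgebra K d 0)) * w = ((v : (QuadraticAlgebra K d 0)ˣ) : (QuadraticAlgebra K d 0)) := by
      rw [hw]
      rw [← Units.val_mul]
      congr 1
      rw [Subgroup.coe_mul, Subgroup.coe_inv, mul_inv_cancel_left]
    have hnw : n • w = star ((u : (QuadraticAlgebra K d 0)ˣ) : (QuadraticAlgebra K d 0)) * ((v : (QuadraticAlgebra K d 0)ˣ) : (QuadraticAlgebra K d 0)) := by
      rw [← huw, ← mul_assoc, mul_comm (star ((u : (QuadraticAlgebra K d 0)ˣ) : (QuadraticAlgebra K d 0))), ← QuadraticAlgebra.algebraMap_norm_eq_mul_star,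
        ← QuadraticAlgebra.C_mul_eq_smul, QuadraticAlgebra.C_eq_algebraMap]
    have hre : n * w.re = ((u : (QuadraticAlgebra K d 0)ˣ) : (QuadraticAlgebra K d 0)).re * ((v : (QuadraticAlgebra K d 0)ˣ) : (QuadraticAlgebra K d 0)).re - d * (((u : (QuadraticAlgebra K d 0)ˣ) : (QuadraticAlgebra K d 0)).im * ((v : (QuadraticAlgebra K d 0)ˣ) : (QuadraticAlgebra K d 0)).im) := by
      have := congrArg QuadraticAlgebra.re hnw
      simp only [QuadraticAlgebra.re_smul, smul_eq_mul, QuadraticAlgebra.re_mul,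
        QuadraticAlgebra.re_star, QuadraticAlgebra.im_star] at this
      rw [this]; ring
    have him : n * w.im = ((u : (QuadraticAlgebra K d 0)ˣ) : (QuadraticAlgebra K d 0)).re * ((v : (QuadraticAlgebra K d 0)ˣ) : (QuadraticAlgebra K d 0)).im - ((u : (QuadraticAlgebra K d 0)ˣ) : (QuadraticAlgebra K d 0)).im * ((v : (QuadraticAlgebra K d 0)ˣ) : (QuadraticAlgebra K d 0)).re := by
      have := congrArg QuadraticAlgebra.im hnw
      simp only [QuadraticAlgebra.im_smul, smul_eq_mul, QuadraticAlgebra.im_mul,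
        QuadraticAlgebra.re_star, QuadraticAlgebra.im_star] at this
      rw [this]; ring
    have hnn : n = ((u : (QuadraticAlgebra K d 0)ˣ) : (QuadraticAlgebra K d 0)).re ^ 2 - d * ((u : (QuadraticAlgebra K d 0)ˣ) : (QuadraticAlgebra K d 0)).im ^ 2 := qnorm _
    have hC0 : 0 ≤ C := by linarith
    have hd0 := norm_nonneg d
    have hkey : C * ρ ≤ ‖(2 : K)‖ * r ∧ ‖d‖ * (C * ρ) ≤ ‖(2 : K)‖ * r := by
      have e4 : C * (1 + ‖d‖) * ρ = ‖(2 : K)‖ * r := by
        rw [hρ]; field_simp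
      have e5 : 0 ≤ C * ρ := by positivity
      constructor
      · nlinarith
      · nlinarith
    have r1 : ‖w.re - 1‖ ≤ ‖(2 : K)‖ * r := by
      have e4 : ‖w.re - 1‖ = ‖n * (w.re - 1)‖ := by rw [norm_mul, hn1, one_mul]
      have e5 : n * (w.re - 1) = ((u : (QuadraticAlgebra K d 0)ˣ) : (QuadraticAlgebra K d 0)).re * (((v : (QuadraticAlgebra K d 0)ˣ) : (QuadraticAlgebra K d 0)).re - ((u : (QuadraticAlgebra K d 0)ˣ) : (QuadraticAlgebra K d 0)).re) +
          -(d * (((u : (QuadraticAlgebra K d 0)ˣ) : (QuadraticAlgebra K d 0)).im * (((v : (QuadraticAlgebra K d 0)ˣ) : (QuadraticAlgebra K d 0)).im - ((u : (QuadraticAlgebra K d 0)ˣ) : (QuadraticAlgebra K d 0)).im))) := by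
        rw [mul_sub, hre, mul_one, hnn]; ring
      rw [e4, e5]
      refine (IsUltrametricDist.norm_add_le_max _ _).trans (max_le ?_ ?_)
      · rw [norm_mul]
        exact (mul_le_mul hu1 hA (norm_nonneg _) hC0).trans hkey.1
      · rw [norm_neg, norm_mul, norm_mul]
        exact (mul_le_mul_of_nonneg_left (mul_le_mul hu2 hB (norm_nonneg _) hC0) hd0).trans hkey.2
    have i1 : ‖w.im‖ ≤ ‖(2 : K)‖ * r := by
      have e4 : ‖w.im‖ = ‖n * w.im‖ := by rw [norm_mul, hn1, one_mul]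
      have e5 : n * w.im = ((u : (QuadraticAlgebra K d 0)ˣ) : (QuadraticAlgebra K d 0)).re * (((v : (QuadraticAlgebra K d 0)ˣ) : (QuadraticAlgebra K d 0)).im - ((u : (QuadraticAlgebra K d 0)ˣ) : (QuadraticAlgebra K d 0)).im) +
          -(((u : (QuadraticAlgebra K d 0)ˣ) : (QuadraticAlgebra K d 0)).im * (((v : (QuadraticAlgebra K d 0)ˣ) : (QuadraticAlgebra K d 0)).re - ((u : (QuadraticAlgebra K d 0)ˣ) : (QuadraticAlgebra K d 0)).re)) := by
        rw [him]; ring
      rw [e4, e5]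
      refine (IsUltrametricDist.norm_add_le_max _ _).trans (max_le ?_ ?_)
      · rw [norm_mul]
        exact (mul_le_mul hu1 hB (norm_nonneg _) hC0).trans hkey.1
      · rw [norm_neg, norm_mul]
        exact (mul_le_mul hu2 hA (norm_nonneg _) hC0).trans hkey.1
    rw [Subgroup.mem_subgroupOf]
    show w ∈ Vset K d r
    constructor
    · exact (IsUltrametricDist.norm_add_le_max _ _).trans (max_le r1 i1)
    · rw [sub_eq_add_neg (w.re - 1)]
      refine (IsUltrametricDist.norm_add_le_max _ _).trans (max_le r1 ?_)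
      rw [norm_neg]; exact i1
  have hfin : Finite (UG K d ⧸ (VG (d := d) h2 hr0 hr1 hrd).subgroupOf (UG K d)) := by
    refine Finite.of_injective (fun q => g q.out) fun q q' hqq => ?_
    have := hg _ _ hqq
    rw [← QuotientGroup.eq] at this
    rwa [QuotientGroup.out_eq', QuotientGroup.out_eq'] at this
  exact Subgroup.finiteIndex_of_finite_quotient

/-- The conjugation on the elements with norm of absolute value one. -/
def cu (K : Type*) [NontriviallyNormedField K] [IsUltrametricDist K] (d : K) : UG K d →* UG K d where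
  toFun u := ⟨cj d (u : (QuadraticAlgebra K d 0)ˣ), by
    show ‖QuadraticAlgebra.norm (star ((u : (QuadraticAlgebra K d 0)ˣ) : QuadraticAlgebra K d 0))‖ = 1
    rw [QuadraticAlgebra.norm_star]
    exact u.2⟩
  map_one' := by
    ext1
    exact map_one (cj d)
  map_mul' u v := by
    ext1
    exact map_mul (cj d) _ _

lemma cu_val (u : UG K d) : (((cu K d u : UG K d) : (QuadraticAlgebra K d 0)ˣ) : (QuadraticAlgebra K d 0)) = star ((u : (QuadraticAlgebra K d 0)ˣ) : (QuadraticAlgebra K d 0)) := rfl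

lemma ug_ext {u v : UG K d} (h : ((u : (QuadraticAlgebra K d 0)ˣ) : (QuadraticAlgebra K d 0)) = ((v : (QuadraticAlgebra K d 0)ˣ) : (QuadraticAlgebra K d 0))) : u = v := by
  ext1; ext1; exact h

lemma exists_r (h2 : (2 : K) ≠ 0) (d : K) : ∃ r : ℝ, 0 < r ∧ r < 1 ∧ ‖1 - d‖ * r < ‖(2 : K)‖ := by
  have h2' : 0 < ‖(2 : K)‖ := norm_pos_iff.2 h2
  have h3 : ‖(2 : K)‖ ≤ 1 := norm_two_le
  have h4 := norm_nonneg (1 - d)
  refine ⟨‖(2 : K)‖ / (2 * (1 + ‖1 - d‖)), by positivity, ?_, ?_⟩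
  · rw [div_lt_one (by positivity)]
    linarith
  · rw [mul_div_assoc', div_lt_iff₀ (by positivity)]
    nlinarith

variable (hd : ∀ r : K, r ^ 2 ≠ d) (h2 : (2 : K) ≠ 0)

/-- An element of `K` which is a norm. -/
def IsNm (d c : K) : Prop := ∃ x y : K, x ^ 2 - d * y ^ 2 = c

lemma isNm_iff {c : K} : IsNm d c ↔ ∃ z : (QuadraticAlgebra K d 0), QuadraticAlgebra.norm z = c := by
  constructor
  · rintro ⟨x, y, h⟩
    exact ⟨⟨x, y⟩, by rw [qnorm]; exact h⟩
  · rintro ⟨z, h⟩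
    exact ⟨z.re, z.im, by rw [← qnorm]; exact h⟩

lemma IsNm.mul {a b : K} (ha : IsNm d a) (hb : IsNm d b) : IsNm d (a * b) := by
  rw [isNm_iff] at *
  obtain ⟨x, rfl⟩ := ha
  obtain ⟨y, rfl⟩ := hb
  exact ⟨x * y, by rw [map_mul]⟩

lemma IsNm.sq (c : K) : IsNm d (c ^ 2) := ⟨c, 0, by ring⟩

lemma IsNm.inv {a : K} (ha : IsNm d a) : IsNm d a⁻¹ := by
  by_cases h : a = 0
  · rw [h, inv_zero]
    exact ⟨0, 0, by ring⟩
  · have h1 : a⁻¹ = a * (a⁻¹) ^ 2 := by field_simp
    rw [h1]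
    exact ha.mul (IsNm.sq _)

lemma IsNm.of_mul {a b : K} (h : IsNm d (a * b)) (hb : IsNm d b) (hb0 : b ≠ 0) : IsNm d a := by
  have h1 : a = a * b * b⁻¹ := by field_simp
  rw [h1]
  exact h.mul hb.inv

include hd h2

/-- The unit part. -/
lemma units_two :
    ((∀ z : (QuadraticAlgebra K d 0), z ≠ 0 → ∃ c : K, ‖QuadraticAlgebra.norm z‖ = ‖c‖ ^ 2) →
      ∀ u : K, ‖u‖ = 1 → IsNm d u) ∧
    ∀ u v : K, ‖u‖ = 1 → ‖v‖ = 1 → ¬ IsNm d u → ¬ IsNm d v → IsNm d (u * v) := by
  have hfact : Fact (∀ r : K, r ^ 2 ≠ d + 0 * r) := ⟨fun r => by rw [zero_mul, add_zero]; exact hd r⟩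
  obtain ⟨r, hr0, hr1, hrd⟩ := exists_r h2 d
  have hfi := finite_index (d := d) hd h2 hr0 hr1 hrd
  -- Hilbert 90
  have h90 : ∀ x : UG K d, x * cu K d x = 1 → ∃ y : (QuadraticAlgebra K d 0), y ≠ 0 ∧
      ((x : (QuadraticAlgebra K d 0)ˣ) : (QuadraticAlgebra K d 0)) * y = star y := by
    intro x hx
    have hx' : ((x : (QuadraticAlgebra K d 0)ˣ) : (QuadraticAlgebra K d 0)) * star ((x : (QuadraticAlgebra K d 0)ˣ) : (QuadraticAlgebra K d 0)) = 1 :=
      congrArg (fun u : UG K d => ((u : (QuadraticAlgebra K d 0)ˣ) : (QuadraticAlgebra K d 0))) hx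
    by_cases h1 : (1 : (QuadraticAlgebra K d 0)) + star ((x : (QuadraticAlgebra K d 0)ˣ) : (QuadraticAlgebra K d 0)) = 0
    · refine ⟨⟨0, 1⟩, ?_, ?_⟩
      · intro h
        have := congrArg QuadraticAlgebra.im h
        simp at this
      · have h3 : ((x : (QuadraticAlgebra K d 0)ˣ) : (QuadraticAlgebra K d 0)) = -1 := by
          have h4 : star ((x : (QuadraticAlgebra K d 0)ˣ) : (QuadraticAlgebra K d 0)) = -1 := by
            linear_combination h1
          rw [h4] at hx'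
          linear_combination -hx'
        rw [h3]
        ext <;> simp
    · refine ⟨1 + star ((x : (QuadraticAlgebra K d 0)ˣ) : (QuadraticAlgebra K d 0)), h1, ?_⟩
      rw [mul_add, hx', mul_one, star_add, star_one, star_star, add_comm]
  -- the image of the difference map
  have hD : ∀ (x : UG K d) (y : (QuadraticAlgebra K d 0)), y ≠ 0 → ((x : (QuadraticAlgebra K d 0)ˣ) : (QuadraticAlgebra K d 0)) * y = star y →
      (∃ c : K, ‖QuadraticAlgebra.norm y‖ = ‖c‖ ^ 2) → ∃ z, cu K d z / z = x := by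
    rintro x y hy hxy ⟨c, hc⟩
    have hny : QuadraticAlgebra.norm y ≠ 0 := by
      rw [Ne, QuadraticAlgebra.norm_eq_zero_iff_eq_zero]; exact hy
    have hc0 : c ≠ 0 := by
      rintro rfl
      rw [norm_zero, zero_pow two_ne_zero, norm_eq_zero] at hc
      exact hny hc
    have hz0 : (c⁻¹ • y : (QuadraticAlgebra K d 0)) ≠ 0 := smul_ne_zero (inv_ne_zero hc0) hy
    let z : (QuadraticAlgebra K d 0)ˣ := Units.mk0 (c⁻¹ • y) hz0
    have hz : z ∈ UG K d := by
      show ‖QuadraticAlgebra.norm (c⁻¹ • y : (QuadraticAlgebra K d 0))‖ = 1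
      have e1 : QuadraticAlgebra.norm (c⁻¹ • y : (QuadraticAlgebra K d 0)) = (c⁻¹) ^ 2 * QuadraticAlgebra.norm y := by
        rw [qnorm, qnorm]
        simp only [QuadraticAlgebra.re_smul, QuadraticAlgebra.im_smul, smul_eq_mul]
        ring
      have hc1 : ‖c‖ ≠ 0 := norm_ne_zero_iff.2 hc0
      rw [e1, norm_mul, hc, norm_pow, norm_inv]
      field_simp
    refine ⟨⟨z, hz⟩, ?_⟩
    rw [div_eq_iff_eq_mul]
    refine ug_ext ?_
    show star (c⁻¹ • y : (QuadraticAlgebra K d 0)) = ((x : (QuadraticAlgebra K d 0)ˣ) : (QuadraticAlgebra K d 0)) * (c⁻¹ • y)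
    rw [mul_smul_comm, hxy]
    ext <;> simp
  have hσ : ∀ a, cu K d (cu K d a) = a := fun a => ug_ext (by rw [cu_val, cu_val, star_star])
  have hV : ∀ v ∈ (VG (d := d) h2 hr0 hr1 hrd).subgroupOf (UG K d),
      cu K d v ∈ (VG (d := d) h2 hr0 hr1 hrd).subgroupOf (UG K d) := by
    intro v hv
    rw [Subgroup.mem_subgroupOf] at hv ⊢
    have hv' : ((v : (QuadraticAlgebra K d 0)ˣ) : (QuadraticAlgebra K d 0)) ∈ Vset K d r := hv
    show star ((v : (QuadraticAlgebra K d 0)ˣ) : (QuadraticAlgebra K d 0)) ∈ Vset K d r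
    constructor
    · have := hv'.2
      simpa [sub_eq_add_neg] using this
    · have := hv'.1
      simpa [sub_eq_add_neg] using this
  -- the elements of `K`
  have hK : ∀ u : K, ‖u‖ = 1 → ∃ v : UG K d, ((v : (QuadraticAlgebra K d 0)ˣ) : (QuadraticAlgebra K d 0)) = algebraMap K (QuadraticAlgebra K d 0) u := by
    intro u hu
    have h3 : (algebraMap K (QuadraticAlgebra K d 0) u) ≠ 0 := by
      intro h
      have := congrArg QuadraticAlgebra.re h
      have h4 : u = 0 := by simpa using this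
      rw [h4, norm_zero] at hu
      exact zero_ne_one hu
    refine ⟨⟨Units.mk0 _ h3, ?_⟩, rfl⟩
    show ‖QuadraticAlgebra.norm (algebraMap K (QuadraticAlgebra K d 0) u)‖ = 1
    rw [QuadraticAlgebra.norm_algebraMap, norm_pow, hu, one_pow]
  have hKf : ∀ (u : K) (v : UG K d), ((v : (QuadraticAlgebra K d 0)ˣ) : (QuadraticAlgebra K d 0)) = algebraMap K (QuadraticAlgebra K d 0) u → cu K d v = v := by
    intro u v hv
    refine ug_ext ?_
    rw [cu_val, hv]
    ext <;> simp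
  have hKn : ∀ (u : K) (v : UG K d), ((v : (QuadraticAlgebra K d 0)ˣ) : (QuadraticAlgebra K d 0)) = algebraMap K (QuadraticAlgebra K d 0) u →
      ((∃ w, w * cu K d w = v) ↔ IsNm d u) := by
    intro u v hv
    rw [isNm_iff]
    have hinj : Function.Injective (algebraMap K (QuadraticAlgebra K d 0)) := (algebraMap K (QuadraticAlgebra K d 0)).injective
    constructor
    · rintro ⟨w, hw⟩
      refine ⟨((w : (QuadraticAlgebra K d 0)ˣ) : (QuadraticAlgebra K d 0)), hinj ?_⟩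
      rw [QuadraticAlgebra.algebraMap_norm_eq_mul_star, ← hv, ← hw]
      rfl
    · rintro ⟨z, hz⟩
      have hu : ‖u‖ = 1 := by
        have h3 : ‖QuadraticAlgebra.norm ((v : (QuadraticAlgebra K d 0)ˣ) : (QuadraticAlgebra K d 0))‖ = 1 := v.2
        rw [hv, QuadraticAlgebra.norm_algebraMap, norm_pow] at h3
        exact (pow_eq_one_iff_of_nonneg (norm_nonneg _) two_ne_zero).1 h3
      have hz0 : z ≠ 0 := by
        rintro rfl
        rw [QuadraticAlgebra.norm_zero] at hz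
        rw [← hz, norm_zero] at hu
        exact zero_ne_one hu
      refine ⟨⟨Units.mk0 z hz0, ?_⟩, ?_⟩
      · show ‖QuadraticAlgebra.norm z‖ = 1
        rw [hz]; exact hu
      · refine ug_ext ?_
        show z * star z = ((v : (QuadraticAlgebra K d 0)ˣ) : (QuadraticAlgebra K d 0))
        rw [← QuadraticAlgebra.algebraMap_norm_eq_mul_star, hz, hv]
  have h0 : ∀ v ∈ (VG (d := d) h2 hr0 hr1 hrd).subgroupOf (UG K d), cu K d v = v →
      ∃ w ∈ (VG (d := d) h2 hr0 hr1 hrd).subgroupOf (UG K d), w * cu K d w = v := by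
    intro v hv hvs
    rw [Subgroup.mem_subgroupOf] at hv
    have hv' : ((v : (QuadraticAlgebra K d 0)ˣ) : (QuadraticAlgebra K d 0)) ∈ Vset K d r := hv
    have him : ((v : (QuadraticAlgebra K d 0)ˣ) : (QuadraticAlgebra K d 0)).im = 0 := by
      have h3 := congrArg (fun u : UG K d => (((u : (QuadraticAlgebra K d 0)ˣ) : (QuadraticAlgebra K d 0))).im) hvs
      simp only [cu_val, QuadraticAlgebra.im_star] at h3
      have h4 : (2 : K) * ((v : (QuadraticAlgebra K d 0)ˣ) : (QuadraticAlgebra K d 0)).im = 0 := by linear_combination -h3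
      exact (mul_eq_zero.1 h4).resolve_left h2
    have hva : ((v : (QuadraticAlgebra K d 0)ˣ) : (QuadraticAlgebra K d 0)) = algebraMap K (QuadraticAlgebra K d 0) ((v : (QuadraticAlgebra K d 0)ˣ) : (QuadraticAlgebra K d 0)).re := by
      ext
      · simp
      · simpa using him
    have hc : ‖((v : (QuadraticAlgebra K d 0)ˣ) : (QuadraticAlgebra K d 0)).re - 1‖ ≤ ‖(2 : K)‖ * r := by
      have := hv'.1
      rwa [him, add_zero] at this
    obtain ⟨z, hz, hzn⟩ := exists_norm_eq h2 hr0 hr1 hrd (d := d) hc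
    rw [← qnorm] at hzn
    have hz1 := norm_V_one h2 hr0 hr1 hrd hz
    have hz0 : z ≠ 0 := by
      rintro rfl
      rw [QuadraticAlgebra.norm_zero, norm_zero] at hz1
      exact zero_ne_one hz1
    refine ⟨⟨Units.mk0 z hz0, hz1⟩, ?_, ?_⟩
    · rw [Subgroup.mem_subgroupOf]
      exact hz
    · refine ug_ext ?_
      show z * star z = ((v : (QuadraticAlgebra K d 0)ˣ) : (QuadraticAlgebra K d 0))
      rw [← QuadraticAlgebra.algebraMap_norm_eq_mul_star, hzn, ← hva]
  constructor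
  · intro hall u hu
    obtain ⟨v, hv⟩ := hK u hu
    rw [← hKn u v hv]
    refine lift_one (cu K d) hσ _ hV h0 ?_ v (hKf u v hv)
    intro x hx
    obtain ⟨y, hy, hxy⟩ := h90 x hx
    exact hD x y hy hxy (hall y hy)
  · intro u v hu hv hun hvn
    obtain ⟨u', hu'⟩ := hK u hu
    obtain ⟨v', hv'⟩ := hK v hv
    rw [← hKn u u' hu'] at hun
    rw [← hKn v v' hv'] at hvn
    rw [← hKn (u * v) (u' * v') (by rw [map_mul, ← hu', ← hv']; rfl)]
    refine lift_two (cu K d) hσ _ hV h0 ?_ u' v' (hKf u u' hu') (hKf v v' hv') hun hvn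
    intro x x' hx hx' hxn hxn'
    obtain ⟨y, hy, hxy⟩ := h90 x hx
    obtain ⟨y', hy', hxy'⟩ := h90 x' hx'
    refine hD (x * x') (y * y') (mul_ne_zero hy hy') ?_ ?_
    · show (((x : (QuadraticAlgebra K d 0)ˣ) : (QuadraticAlgebra K d 0)) * ((x' : (QuadraticAlgebra K d 0)ˣ) : (QuadraticAlgebra K d 0))) * (y * y') = star (y * y')
      rw [mul_mul_mul_comm, hxy, hxy', star_mul']
    · rw [map_mul]
      refine sq_or _ _ ?_ ?_ (fun h => hxn (hD x y hy hxy h)) (fun h => hxn' (hD x' y' hy' hxy' h))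
      · rw [Ne, QuadraticAlgebra.norm_eq_zero_iff_eq_zero]; exact hy
      · rw [Ne, QuadraticAlgebra.norm_eq_zero_iff_eq_zero]; exact hy'

/-- **The norm index is at most two.** -/
theorem isNm_mul (a b : K) (ha : a ≠ 0) (hb : b ≠ 0) (ha' : ¬ IsNm d a) (hb' : ¬ IsNm d b) :
    IsNm d (a * b) := by
  have hfact : Fact (∀ r : K, r ^ 2 ≠ d + 0 * r) := ⟨fun r => by rw [zero_mul, add_zero]; exact hd r⟩
  obtain ⟨hu1, hu2⟩ := units_two hd h2
  -- an element whose absolute value is a square is a unit times a norm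
  have hsq : ∀ x : K, x ≠ 0 → (∃ c : K, ‖x‖ = ‖c‖ ^ 2) → ∃ u n : K, ‖u‖ = 1 ∧ IsNm d n ∧ n ≠ 0 ∧
      x = u * n := by
    rintro x hx ⟨c, hc⟩
    have hc0 : c ≠ 0 := by
      rintro rfl
      rw [norm_zero, zero_pow two_ne_zero, norm_eq_zero] at hc
      exact hx hc
    have hc1 : ‖c‖ ≠ 0 := norm_ne_zero_iff.2 hc0
    refine ⟨x / c ^ 2, c ^ 2, ?_, IsNm.sq c, pow_ne_zero 2 hc0, by field_simp⟩
    rw [norm_div, hc, norm_pow]
    field_simp
  by_cases hall : ∀ z : (QuadraticAlgebra K d 0), z ≠ 0 → ∃ c : K, ‖QuadraticAlgebra.norm z‖ = ‖c‖ ^ 2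
  · have hnsq : ∀ x : K, x ≠ 0 → (∃ c : K, ‖x‖ = ‖c‖ ^ 2) → IsNm d x := by
      intro x hx hc
      obtain ⟨u, n, h3, h4, -, rfl⟩ := hsq x hx hc
      exact (hu1 hall u h3).mul h4
    exact hnsq _ (mul_ne_zero ha hb)
      (sq_or a b ha hb (fun h => ha' (hnsq a ha h)) (fun h => hb' (hnsq b hb h)))
  · push Not at hall
    obtain ⟨z, hz, hzc⟩ := hall
    set n₀ := QuadraticAlgebra.norm z with hn₀
    have hn0 : n₀ ≠ 0 := by
      rw [hn₀, Ne, QuadraticAlgebra.norm_eq_zero_iff_eq_zero]; exact hz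
    have hn1 : IsNm d n₀ := isNm_iff.2 ⟨z, rfl⟩
    have hdec : ∀ x : K, x ≠ 0 → ∃ u n : K, ‖u‖ = 1 ∧ IsNm d n ∧ n ≠ 0 ∧ x = u * n := by
      intro x hx
      by_cases h3 : ∃ c : K, ‖x‖ = ‖c‖ ^ 2
      · exact hsq x hx h3
      · obtain ⟨u, n, h4, h5, h6, h7⟩ := hsq (x * n₀) (mul_ne_zero hx hn0)
          (sq_or x n₀ hx hn0 h3 (by rintro ⟨c, hc⟩; exact hzc c hc))
        refine ⟨u, n * n₀⁻¹, h4, h5.mul hn1.inv, mul_ne_zero h6 (inv_ne_zero hn0), ?_⟩
        rw [← mul_assoc, ← h7]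
        field_simp
    obtain ⟨u, n, p1, p2, p3, rfl⟩ := hdec a ha
    obtain ⟨v, m, q1, q2, q3, rfl⟩ := hdec b hb
    have e1 : u * n * (v * m) = (u * v) * (n * m) := by ring
    rw [e1]
    refine (hu2 u v p1 q1 (fun h => ha' (h.mul p2)) (fun h => hb' (h.mul q2))).mul (p2.mul q2)

end main

section transport

/-- A quadratic extension in which two is invertible is obtained by a square root. -/
lemma exists_equiv {K L : Type*} [Field K] [Field L] [Algebra K L] (h2 : (2 : K) ≠ 0)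
    (hL : Module.finrank K L = 2) :
    ∃ d : K, (∀ r : K, r ^ 2 ≠ d) ∧ Nonempty (QuadraticAlgebra K d 0 ≃ₐ[K] L) := by
  classical
  have hfd : FiniteDimensional K L := FiniteDimensional.of_finrank_pos (by omega)
  -- an element outside `K`
  obtain ⟨x, hx⟩ : ∃ x : L, ∀ c : K, algebraMap K L c ≠ x := by
    by_contra hcon
    push Not at hcon
    have hbot : (⊥ : Subalgebra K L) = ⊤ := by
      rw [eq_top_iff]
      intro x _
      obtain ⟨c, hc⟩ := hcon x
      exact ⟨c, hc⟩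
    have := (Subalgebra.bot_eq_top_iff_finrank_eq_one).1 hbot
    omega
  -- the quadratic equation
  have hli : LinearIndependent K ![(1 : L), x] := by
    rw [LinearIndependent.pair_iff]
    intro s t hst
    have ht : t = 0 := by
      by_contra ht
      apply hx (-(s / t))
      have h3 : algebraMap K L t ≠ 0 := by
        rw [Ne, map_eq_zero]; exact ht
      rw [map_neg, map_div₀]
      rw [Algebra.smul_def, Algebra.smul_def, mul_one] at hst
      field_simp
      linear_combination -hst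
    rw [ht, zero_smul, add_zero, Algebra.smul_def, mul_one, map_eq_zero] at hst
    exact ⟨hst, ht⟩
  have hspan : Submodule.span K (Set.range ![(1 : L), x]) = ⊤ :=
    hli.span_eq_top_of_card_eq_finrank' (by rw [hL]; rfl)
  have hx2 : x ^ 2 ∈ Submodule.span K (Set.range ![(1 : L), x]) := by
    rw [hspan]; exact Submodule.mem_top
  rw [Matrix.range_cons, Matrix.range_cons, Matrix.range_empty, Set.union_empty,
    Set.singleton_union, Submodule.mem_span_pair] at hx2
  obtain ⟨p, q, hpq⟩ := hx2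
  rw [Algebra.smul_def, Algebra.smul_def, mul_one] at hpq
  have h2L : (2 : L) ≠ 0 := by
    have : algebraMap K L 2 ≠ 0 := by rw [Ne, map_eq_zero]; exact h2
    rwa [map_ofNat] at this
  set δ : L := 2 * x - algebraMap K L q with hδ
  have hδ2 : δ * δ = algebraMap K L (4 * p + q ^ 2) := by
    rw [map_add, map_mul, map_pow, map_ofNat, hδ]
    linear_combination -4 * hpq
  have hd : ∀ r : K, r ^ 2 ≠ 4 * p + q ^ 2 := by
    intro r hr
    rw [← hr, map_pow] at hδ2
    have h3 : (δ - algebraMap K L r) * (δ + algebraMap K L r) = 0 := by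
      linear_combination hδ2
    rcases mul_eq_zero.1 h3 with h4 | h4
    · apply hx ((q + r) / 2)
      rw [map_div₀, map_add, map_ofNat, div_eq_iff h2L]
      linear_combination -h4 + hδ
    · apply hx ((q - r) / 2)
      rw [map_div₀, map_sub, map_ofNat, div_eq_iff h2L]
      linear_combination -h4 + hδ
  refine ⟨4 * p + q ^ 2, hd, ?_⟩
  have hfact : Fact (∀ r : K, r ^ 2 ≠ (4 * p + q ^ 2) + 0 * r) :=
    ⟨fun r => by rw [zero_mul, add_zero]; exact hd r⟩
  let f : QuadraticAlgebra K (4 * p + q ^ 2) 0 →ₐ[K] L :=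
    QuadraticAlgebra.lift ⟨δ, by rw [hδ2, zero_smul, add_zero, Algebra.smul_def, mul_one]⟩
  have hinj : Function.Injective f := f.toRingHom.injective
  have hfr : Module.finrank K (QuadraticAlgebra K (4 * p + q ^ 2) 0) = Module.finrank K L := by
    rw [hL, QuadraticAlgebra.finrank_eq_two]
  have hbij : Function.Bijective f :=
    ⟨hinj, (LinearMap.injective_iff_surjective_of_finrank_eq_finrank (f := f.toLinearMap) hfr).1 hinj⟩
  exact ⟨AlgEquiv.ofBijective f hbij⟩

lemma norm_quad {K : Type*} [Field K] {d : K} (z : QuadraticAlgebra K d 0) :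
    Algebra.norm K z = QuadraticAlgebra.norm z := by
  rw [← QuadraticAlgebra.det_toLinearMap_eq_norm, Algebra.norm_apply]
  congr 1

variable {K : Type*} [NontriviallyNormedField K] [IsUltrametricDist K] [ProperSpace K]

/-- **The norm index of a quadratic extension is at most two**: over a locally compact ultrametric
field in which two is invertible, the product of two non-zero elements which are not norms from a
quadratic extension is a norm. -/
theorem norm_mul_of_not_norm (h2 : (2 : K) ≠ 0) {L : Type*} [Field L] [Algebra K L]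
    (hL : Module.finrank K L = 2) (a b : K) (ha : a ≠ 0) (hb : b ≠ 0)
    (ha' : ¬ ∃ y : L, Algebra.norm K y = a) (hb' : ¬ ∃ y : L, Algebra.norm K y = b) :
    ∃ y : L, Algebra.norm K y = a * b := by
  obtain ⟨d, hd, ⟨e⟩⟩ := exists_equiv (K := K) (L := L) h2 hL
  have key : ∀ c : K, (∃ y : L, Algebra.norm K y = c) ↔ IsNm d c := by
    intro c
    rw [isNm_iff]
    constructor
    · rintro ⟨y, rfl⟩
      refine ⟨e.symm y, ?_⟩
      rw [← norm_quad, Algebra.norm_eq_of_algEquiv]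
    · rintro ⟨z, rfl⟩
      refine ⟨e z, ?_⟩
      rw [Algebra.norm_eq_of_algEquiv, norm_quad]
  rw [key] at ha' hb' ⊢
  exact isNm_mul hd h2 a b ha hb ha' hb'

end transport

end Pool.Agent.LocNorm
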