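import Mathlib
import Pool.Agent.Work.MP_3615d2_al.LocNorm

/-!
# The norm residue symbol of a quadratic extension and the norm of a finite extension

Purely algebraic: for a field `F` such that every quadratic extension of every finite extension of
`F` has norm index two, the composition of the quadratic character attached to `F(√d)` with the norm
of a finite extension `K` is the quadratic character attached to `K(√d)`.
-/

open Polynomial

universe u

namespace Pool.Agent.LocCF

section basic

variable {K : Type*} [Field K]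

/-- `c` is a norm from `K(√d)`. -/
def IsN (d c : K) : Prop := ∃ x y : K, x ^ 2 - d * y ^ 2 = c

lemma IsN.mul {d a b : K} (ha : IsN d a) (hb : IsN d b) : IsN d (a * b) := by
  obtain ⟨x, y, rfl⟩ := ha
  obtain ⟨u, v, rfl⟩ := hb
  exact ⟨x * u + d * y * v, x * v + y * u, by ring⟩

lemma IsN.sq (d c : K) : IsN d (c ^ 2) := ⟨c, 0, by ring⟩

lemma IsN.one (d : K) : IsN d 1 := ⟨1, 0, by ring⟩

lemma IsN.inv {d a : K} (ha : IsN d a) : IsN d a⁻¹ := by
  by_cases h : a = 0
  · rw [h, inv_zero]
    exact ⟨0, 0, by ring⟩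
  · have h1 : a⁻¹ = a * (a⁻¹) ^ 2 := by field_simp
    rw [h1]
    exact ha.mul (IsN.sq _ _)

lemma IsN.of_mul {d a b : K} (h : IsN d (a * b)) (hb : IsN d b) (hb0 : b ≠ 0) : IsN d a := by
  have h1 : a = a * b * b⁻¹ := by field_simp
  rw [h1]
  exact h.mul hb.inv

lemma IsN.pow {d a : K} (ha : IsN d a) (n : ℕ) : IsN d (a ^ n) := by
  induction n with
  | zero => rw [pow_zero]; exact IsN.one d
  | succ n ih => rw [pow_succ]; exact ih.mul ha

lemma IsN.of_pow {d a : K} {n : ℕ} (hn : Odd n) (ha : IsN d (a ^ n)) : IsN d a := by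
  by_cases h0 : a = 0
  · subst h0
    exact ⟨0, 0, by ring⟩
  obtain ⟨k, rfl⟩ := hn
  have h1 : a ^ (2 * k + 1) = a * (a ^ k) ^ 2 := by ring
  rw [h1] at ha
  exact ha.of_mul (IsN.sq _ _) (pow_ne_zero _ (pow_ne_zero _ h0))

lemma isN_of_sq (h2 : (2 : K) ≠ 0) {r : K} (hr : r ≠ 0) (c : K) : IsN (r ^ 2) c := by
  refine ⟨(c + 1) / 2, (c - 1) / (2 * r), ?_⟩
  field_simp
  ring

lemma IsN.symm (h2 : (2 : K) ≠ 0) {d a : K} (ha : a ≠ 0) (h : IsN d a) : IsN a d := by
  obtain ⟨x, y, h⟩ := h
  by_cases hy : y = 0
  · rw [hy] at h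
    have h1 : a = x ^ 2 := by rw [← h]; ring
    have hx : x ≠ 0 := by
      rintro rfl
      apply ha
      rw [h1]; ring
    rw [h1]
    exact isN_of_sq h2 hx d
  · refine ⟨x / y, 1 / y, ?_⟩
    field_simp
    linear_combination h

variable (K) in
/-- Every quadratic extension of `K` has norm index two. -/
structure HasIdx : Prop where
  two : (2 : K) ≠ 0
  nonnorm : ∀ d : K, (∀ r : K, r ^ 2 ≠ d) → ∃ c : K, c ≠ 0 ∧ ¬ IsN d c
  index : ∀ d : K, (∀ r : K, r ^ 2 ≠ d) → ∀ a b : K, a ≠ 0 → b ≠ 0 → ¬ IsN d a → ¬ IsN d b →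
    IsN d (a * b)

lemma HasIdx.index' (hK : HasIdx K) {d : K} (hd : d ≠ 0) {a b : K} (ha : a ≠ 0) (hb : b ≠ 0)
    (h1 : ¬ IsN d a) (h2 : ¬ IsN d b) : IsN d (a * b) := by
  by_cases h : ∀ r : K, r ^ 2 ≠ d
  · exact hK.index d h a b ha hb h1 h2
  · push Not at h
    obtain ⟨r, rfl⟩ := h
    exact isN_of_sq hK.two (by rintro rfl; exact hd (by ring)) _

/-- Nondegeneracy of the symbol. -/
lemma exists_isN_not_isN (hK : HasIdx K) {c d : K} (hd0 : d ≠ 0) (hc : ∀ r : K, r ^ 2 ≠ c)
    (hd : ∀ r : K, r ^ 2 ≠ d) (hcd : ∀ r : K, r ^ 2 ≠ c * d) :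
    ∃ a : K, a ≠ 0 ∧ IsN c a ∧ ¬ IsN d a := by
  by_contra hcon
  push Not at hcon
  have hc0 : c ≠ 0 := by
    rintro rfl
    exact hc 0 (by ring)
  -- the two norm groups coincide
  have heq : ∀ a : K, a ≠ 0 → IsN d a → IsN c a := by
    intro a ha hda
    by_contra hca
    obtain ⟨a', ha', hda'⟩ := hK.nonnorm d hd
    have hca' : ¬ IsN c a' := fun h => hda' (hcon a' ha' h)
    have h1 := hK.index c hc a' a ha' ha hca' hca
    exact hda' ((hcon _ (mul_ne_zero ha' ha) h1).of_mul hda ha)
  obtain ⟨a, ha, hna⟩ := hK.nonnorm (c * d) hcd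
  apply hna
  refine IsN.symm hK.two (mul_ne_zero hc0 hd0) ?_
  by_cases h1 : IsN c a
  · exact (h1.symm hK.two ha).mul ((hcon a ha h1).symm hK.two ha)
  · have h2 : ¬ IsN d a := fun h => h1 (heq a ha h)
    exact hK.index' ha hc0 hd0 (fun h => h1 (h.symm hK.two hc0)) (fun h => h2 (h.symm hK.two hd0))

end basic

section norm

variable {F K : Type*} [Field F] [Field K] [Algebra F K]

lemma qnorm {d : F} (z : QuadraticAlgebra F d 0) :
    QuadraticAlgebra.norm z = z.re ^ 2 - d * z.im ^ 2 := by
  rw [QuadraticAlgebra.norm_def]; ring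

/-- The norm of a finite extension maps norms to norms. -/
lemma isN_norm [FiniteDimensional F K] (d : F) (x : K) (h : IsN (algebraMap F K d) x) :
    IsN d (Algebra.norm F x) := by
  classical
  obtain ⟨u, v, rfl⟩ := h
  let b := Module.finBasis F K
  let φ : F →+* QuadraticAlgebra F d 0 := algebraMap F (QuadraticAlgebra F d 0)
  let ψ : K →+* Matrix (Fin (Module.finrank F K)) (Fin (Module.finrank F K)) (QuadraticAlgebra F d 0) :=
    φ.mapMatrix.comp (Algebra.leftMulMatrix b : K →ₐ[F] _).toRingHom
  let w : QuadraticAlgebra F d 0 := ⟨0, 1⟩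
  have hw : w * w = φ d := by
    ext <;> simp [w, φ]
  have hψd : ψ (algebraMap F K d) = φ d • (1 : Matrix _ _ (QuadraticAlgebra F d 0)) := by
    show φ.mapMatrix (Algebra.leftMulMatrix b (algebraMap F K d)) = _
    rw [AlgHom.commutes]
    refine Matrix.ext fun i j => ?_
    rw [RingHom.mapMatrix_apply, Matrix.map_apply, Matrix.algebraMap_matrix_apply,
      Matrix.smul_apply, Matrix.one_apply, smul_eq_mul]
    split_ifs
    · rw [mul_one]; rfl
    · rw [map_zero, mul_zero]
  let M := ψ u + w • ψ v
  let M' := ψ u - w • ψ v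
  have hMM : M * M' = ψ (u ^ 2 - algebraMap F K d * v ^ 2) := by
    have hc : ψ u * ψ v = ψ v * ψ u := by rw [← map_mul, ← map_mul, mul_comm]
    show (ψ u + w • ψ v) * (ψ u - w • ψ v) = _
    rw [map_sub, map_mul, hψd, map_pow, map_pow, ← hw]
    rw [add_mul, mul_sub, mul_sub, smul_mul_assoc, smul_mul_assoc, mul_smul_comm, mul_smul_comm,
      smul_smul, smul_mul_assoc, one_mul, hc, pow_two, pow_two]
    abel
  have hstar : (starRingEnd (QuadraticAlgebra F d 0)).mapMatrix M = M' := by
    refine Matrix.ext fun i j => ?_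
    show star (φ (Algebra.leftMulMatrix b u i j) + w * φ (Algebra.leftMulMatrix b v i j)) =
      φ (Algebra.leftMulMatrix b u i j) - w * φ (Algebra.leftMulMatrix b v i j)
    ext <;> simp [w, φ]
  have hdet : M'.det = star M.det := by
    rw [← hstar, ← RingHom.map_det]
    rfl
  have hnorm : φ (Algebra.norm F (u ^ 2 - algebraMap F K d * v ^ 2)) = M.det * star M.det := by
    rw [← hdet, ← Matrix.det_mul, hMM, Algebra.norm_eq_matrix_det b, RingHom.map_det]
    rfl
  rw [← QuadraticAlgebra.algebraMap_norm_eq_mul_star] at hnorm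
  have hinj : Function.Injective φ := φ.injective
  rw [hinj hnorm, qnorm]
  exact ⟨_, _, rfl⟩

/-- The reciprocity property of an extension. -/
def Rec (F K : Type*) [Field F] [Field K] [Algebra F K] : Prop :=
  ∀ (d : F) (x : K), d ≠ 0 → IsN d (Algebra.norm F x) → IsN (algebraMap F K d) x

/-- It is enough to have a single element. -/
lemma rec_of_exists [FiniteDimensional F K] (hK : HasIdx K)
    (h : ∀ d : F, (∀ r : K, r ^ 2 ≠ algebraMap F K d) → ∃ x : K, x ≠ 0 ∧ ¬ IsN d (Algebra.norm F x)) :
    Rec F K := by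
  intro d x hd hx
  by_cases hsq : ∀ r : K, r ^ 2 ≠ algebraMap F K d
  · obtain ⟨y, hy, hny⟩ := h d hsq
    by_contra hcon
    have hx0 : x ≠ 0 := by
      rintro rfl
      exact hcon ⟨0, 0, by ring⟩
    have h1 : ¬ IsN (algebraMap F K d) y := fun h1 => hny (isN_norm d y h1)
    have h2 := isN_norm d _ (hK.index _ hsq y x hy hx0 h1 hcon)
    rw [map_mul] at h2
    exact hny (h2.of_mul hx (by rw [Ne, Algebra.norm_eq_zero_iff]; exact hx0))
  · push Not at hsq
    obtain ⟨r, hr⟩ := hsq
    rw [← hr]
    refine isN_of_sq hK.two ?_ _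
    rintro rfl
    rw [zero_pow two_ne_zero, eq_comm, map_eq_zero] at hr
    exact hd hr

lemma Rec.trans {L : Type*} [Field L] [Algebra F L] [Algebra K L] [IsScalarTower F K L]
    (h1 : Rec F K) (h2 : Rec K L) : Rec F L := by
  intro d x hd hx
  rw [← Algebra.norm_norm (S := K)] at hx
  have h3 := h1 d _ hd hx
  have h4 := h2 (algebraMap F K d) x (by rw [Ne, map_eq_zero]; exact hd) h3
  rwa [← IsScalarTower.algebraMap_apply] at h4

/-- Going down an extension of odd degree. -/
lemma Rec.of_odd {L : Type*} [Field L] [Algebra F L] [Algebra K L] [IsScalarTower F K L]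
    [FiniteDimensional K L] (h : Rec F L) (hodd : Odd (Module.finrank K L)) : Rec F K := by
  intro d x hd hx
  have h1 : IsN d (Algebra.norm F (algebraMap K L x)) := by
    rw [← Algebra.norm_norm (S := K), Algebra.norm_algebraMap, map_pow]
    exact hx.pow _
  have h2 := h d _ hd h1
  rw [IsScalarTower.algebraMap_apply F K L] at h2
  have h3 := isN_norm (algebraMap F K d) _ h2
  rw [Algebra.norm_algebraMap] at h3
  exact h3.of_pow hodd

/-- Extensions of odd degree. -/
lemma rec_odd [FiniteDimensional F K] (hF : HasIdx F) (hK : HasIdx K)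
    (hodd : Odd (Module.finrank F K)) : Rec F K := by
  refine rec_of_exists hK fun d hd => ?_
  have hd' : ∀ r : F, r ^ 2 ≠ d := by
    intro r hr
    apply hd (algebraMap F K r)
    rw [← map_pow, hr]
  obtain ⟨a, ha, hna⟩ := hF.nonnorm d hd'
  refine ⟨algebraMap F K a, by rw [Ne, map_eq_zero]; exact ha, ?_⟩
  rw [Algebra.norm_algebraMap]
  exact fun h => hna (h.of_pow hodd)

lemma IsN.map {K' : Type*} [Field K'] (f : K →+* K') {d a : K} (h : IsN d a) :
    IsN (f d) (f a) := by
  obtain ⟨x, y, rfl⟩ := h
  exact ⟨f x, f y, by simp⟩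

lemma Rec.congr {K' : Type*} [Field K'] [Algebra F K'] (h : Rec F K) (e : K ≃ₐ[F] K') :
    Rec F K' := by
  intro d x hd hx
  have h1 : IsN d (Algebra.norm F (e.symm x)) := by
    rwa [Algebra.norm_eq_of_algEquiv]
  have h2 := (h d _ hd h1).map (e : K →+* K')
  simpa using h2

/-- Quadratic extensions. -/
lemma rec_two [FiniteDimensional F K] (hF : HasIdx F) (hK : HasIdx K)
    (h2 : Module.finrank F K = 2) : Rec F K := by
  refine rec_of_exists hK fun d hd => ?_
  obtain ⟨c, hc, ⟨e⟩⟩ := Pool.Agent.LocNorm.exists_equiv (K := F) (L := K) hF.two h2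
  have hd' : ∀ r : F, r ^ 2 ≠ d := by
    intro r hr
    apply hd (algebraMap F K r)
    rw [← map_pow, hr]
  have hd0 : d ≠ 0 := by
    rintro rfl
    exact hd' 0 (by ring)
  have hc0 : c ≠ 0 := by
    rintro rfl
    exact hc 0 (by ring)
  -- the square root of `c`
  have hw : (e ⟨0, 1⟩) ^ 2 = algebraMap F K c := by
    rw [← map_pow, ← AlgEquiv.commutes e c]
    congr 1
    rw [pow_two]
    ext <;> simp
  have hw0 : e ⟨0, 1⟩ ≠ 0 := by
    intro h0
    rw [h0, zero_pow two_ne_zero, eq_comm, map_eq_zero] at hw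
    exact hc0 hw
  have hcd : ∀ r : F, r ^ 2 ≠ c * d := by
    intro r hr
    apply hd (algebraMap F K r / e ⟨0, 1⟩)
    rw [div_pow, ← map_pow, hr, map_mul, hw]
    have : algebraMap F K c ≠ 0 := by rw [Ne, map_eq_zero]; exact hc0
    field_simp
  obtain ⟨a, ha, hca, hda⟩ := exists_isN_not_isN hF hd0 hc hd' hcd
  obtain ⟨x, y, hxy⟩ := hca
  have hN : Algebra.norm F (e ⟨x, y⟩) = a := by
    rw [Algebra.norm_eq_of_algEquiv, Pool.Agent.LocNorm.norm_quad, qnorm]
    exact hxy
  refine ⟨e ⟨x, y⟩, ?_, by rwa [hN]⟩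
  intro h0
  rw [h0, Algebra.norm_zero] at hN
  exact ha hN.symm

end norm

section tower

/-- Every quadratic extension of every finite extension of `F` has norm index two. -/
def FinIdx (F : Type u) [Field F] : Prop :=
  ∀ (L : Type u) [Field L] [Algebra F L] [FiniteDimensional F L], HasIdx L

lemma FinIdx.self {F : Type u} [Field F] (h : FinIdx F) : HasIdx F := h F

lemma FinIdx.up {F L : Type u} [Field F] [Field L] [Algebra F L] [FiniteDimensional F L]
    (h : FinIdx F) : FinIdx L := by
  intro L' _ _ _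
  let _ : Algebra F L' := ((algebraMap L L').comp (algebraMap F L)).toAlgebra
  have : IsScalarTower F L L' := .of_algebraMap_eq fun _ => rfl
  have := FiniteDimensional.trans F L L'
  exact h L'

/-- The identity of an intermediate field, with extended scalars. -/
def exEquiv {F M : Type*} [Field F] [Field M] [Algebra F M] {F₁ K : IntermediateField F M}
    (h : F₁ ≤ K) : IntermediateField.extendScalars h ≃ₐ[F] K :=
  { toFun := fun x => ⟨x.1, x.2⟩
    invFun := fun x => ⟨x.1, x.2⟩
    left_inv := fun _ => rfl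
    right_inv := fun _ => rfl
    map_mul' := fun _ _ => rfl
    map_add' := fun _ _ => rfl
    commutes' := fun _ => rfl }

/-- Galois extensions of degree a power of two. -/
theorem rec_two_power (n : ℕ) : ∀ (F M : Type u) [Field F] [Field M] [Algebra F M]
    [FiniteDimensional F M] [IsGalois F M], FinIdx F → Module.finrank F M = 2 ^ n →
    ∀ K : IntermediateField F M, Rec F K := by
  induction n with
  | zero =>
    intro F M _ _ _ _ _ hF hn K
    refine rec_odd hF.self (hF K) ?_
    have h1 := Module.finrank_mul_finrank F K M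
    rw [hn, pow_zero] at h1
    rw [Nat.eq_one_of_mul_eq_one_right h1]
    exact odd_one
  | succ n ih =>
    intro F M _ _ _ _ _ hF hn K
    classical
    have : Fact (Nat.Prime 2) := ⟨Nat.prime_two⟩
    have hG : Nat.card Gal(M/F) = 2 ^ (n + 1) := by
      rw [IsGalois.card_aut_eq_finrank, hn]
    have h1 := Module.finrank_mul_finrank F K M
    have hQ : Nat.card K.fixingSubgroup = Module.finrank K M :=
      IsGalois.card_fixingSubgroup_eq_finrank K
    obtain ⟨a, ha, hQa⟩ : ∃ a ≤ n + 1, Nat.card K.fixingSubgroup = 2 ^ a :=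
      (Nat.dvd_prime_pow Nat.prime_two).1 (by rw [hQ, ← hn, ← h1]; exact dvd_mul_left _ _)
    rcases Nat.lt_or_ge n a with han | han
    · have ha' : a = n + 1 := by omega
      refine rec_odd hF.self (hF K) ?_
      rw [hn, ← hQ, hQa, ha'] at h1
      have : Module.finrank F K = 1 := by
        have h2 : 0 < 2 ^ (n + 1) := by positivity
        exact Nat.eq_of_mul_eq_mul_right h2 (by rw [h1, one_mul])
      rw [this]
      exact odd_one
    · obtain ⟨R, hR, hQR⟩ := Sylow.exists_subgroup_card_pow_prime_le 2 (G := Gal(M/F)) (m := n)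
        (by rw [hG]; exact pow_dvd_pow 2 (Nat.le_succ n)) K.fixingSubgroup hQa han
      have hle : IntermediateField.fixedField R ≤ K := by
        conv_rhs => rw [← IsGalois.fixedField_fixingSubgroup K]
        exact IntermediateField.fixedField_antitone hQR
      have hrM : Module.finrank (IntermediateField.fixedField R) M = 2 ^ n := by
        rw [IntermediateField.finrank_fixedField_eq_card, hR]
      have hr2 : Module.finrank F (IntermediateField.fixedField R) = 2 := by
        have h3 := Module.finrank_mul_finrank F (IntermediateField.fixedField R) M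
        rw [hrM, hn, pow_succ, mul_comm (2 ^ n)] at h3
        exact Nat.eq_of_mul_eq_mul_right (by positivity) h3
      have hF1 : FinIdx (IntermediateField.fixedField R) := hF.up
      have h4 := ih (IntermediateField.fixedField R) M hF1 hrM (IntermediateField.extendScalars hle)
      have h5 : Rec F (IntermediateField.fixedField R) := rec_two hF.self hF1.self hr2
      exact (h5.trans h4).congr (exEquiv hle)

/-- Intermediate fields of Galois extensions. -/
theorem rec_galois (F M : Type u) [Field F] [Field M] [Algebra F M]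
    [FiniteDimensional F M] [IsGalois F M] (hF : FinIdx F) (K : IntermediateField F M) :
    Rec F K := by
  classical
  have : Fact (Nat.Prime 2) := ⟨Nat.prime_two⟩
  have hQ : Nat.card K.fixingSubgroup = Module.finrank K M :=
    IsGalois.card_fixingSubgroup_eq_finrank K
  have hG : Nat.card Gal(M/F) = Module.finrank F M := IsGalois.card_aut_eq_finrank F M
  obtain ⟨a, m, hm, ham⟩ := Nat.exists_eq_two_pow_mul_odd (n := Nat.card K.fixingSubgroup)
    Nat.card_pos.ne'
  obtain ⟨b, m', hm', hbm⟩ := Nat.exists_eq_two_pow_mul_odd (n := Nat.card Gal(M/F))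
    Nat.card_pos.ne'
  obtain ⟨S, hS⟩ := Sylow.exists_subgroup_card_pow_prime 2 (G := K.fixingSubgroup) (n := a)
    (by rw [ham]; exact dvd_mul_right _ _)
  set Q : Subgroup Gal(M/F) := S.map K.fixingSubgroup.subtype with hQdef
  have hQc : Nat.card Q = 2 ^ a := by
    rw [hQdef, Subgroup.card_map_of_injective (Subgroup.subtype_injective _), hS]
  have hQle : Q ≤ K.fixingSubgroup := Subgroup.map_subtype_le S
  have hab : a ≤ b := by
    have h1 : 2 ^ a ∣ 2 ^ b * m' := by
      rw [← hbm, ← hQc]
      exact Subgroup.card_subgroup_dvd_card Q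
    have h2 : Nat.Coprime (2 ^ a) m' := Nat.Coprime.pow_left a hm'.coprime_two_left
    exact (Nat.pow_dvd_pow_iff_le_right (by norm_num)).1 (h2.dvd_of_dvd_mul_right h1)
  obtain ⟨P, hP, hQP⟩ := Sylow.exists_subgroup_card_pow_prime_le 2 (G := Gal(M/F)) (m := b)
    (by rw [hbm]; exact dvd_mul_right _ _) Q hQc hab
  have hPQ : IntermediateField.fixedField P ≤ IntermediateField.fixedField Q :=
    IntermediateField.fixedField_antitone hQP
  have hKQ : K ≤ IntermediateField.fixedField Q := by
    conv_lhs => rw [← IsGalois.fixedField_fixingSubgroup K]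
    exact IntermediateField.fixedField_antitone hQle
  have hrP : Module.finrank (IntermediateField.fixedField P) M = 2 ^ b := by
    rw [IntermediateField.finrank_fixedField_eq_card, hP]
  have hrQ : Module.finrank (IntermediateField.fixedField Q) M = 2 ^ a := by
    rw [IntermediateField.finrank_fixedField_eq_card, hQc]
  have hFP : Module.finrank F (IntermediateField.fixedField P) = m' := by
    have h3 := Module.finrank_mul_finrank F (IntermediateField.fixedField P) M
    rw [hrP, ← hG, hbm, mul_comm (2 ^ b)] at h3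
    exact Nat.eq_of_mul_eq_mul_right (by positivity) h3
  have hKQr : Module.finrank K (IntermediateField.extendScalars hKQ) = m := by
    have h3 := Module.finrank_mul_finrank K (IntermediateField.extendScalars hKQ) M
    have h4 : Module.finrank (IntermediateField.extendScalars hKQ) M =
        Module.finrank (IntermediateField.fixedField Q) M := rfl
    rw [h4, hrQ, ← hQ, ham, mul_comm (2 ^ a)] at h3
    exact Nat.eq_of_mul_eq_mul_right (by positivity) h3
  have hF1 : FinIdx (IntermediateField.fixedField P) := hF.up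
  have r1 : Rec F (IntermediateField.fixedField P) :=
    rec_odd hF.self hF1.self (by rw [hFP]; exact hm')
  have r2 := rec_two_power b (IntermediateField.fixedField P) M hF1 hrP
    (IntermediateField.extendScalars hPQ)
  have r3 : Rec F (IntermediateField.fixedField Q) := (r1.trans r2).congr (exEquiv hPQ)
  have r4 : Rec F (IntermediateField.extendScalars hKQ) := r3.congr (exEquiv hKQ).symm
  exact r4.of_odd (K := K) (by rw [hKQr]; exact hm)

/-- Separable extensions. -/
theorem rec_separable (F K : Type u) [Field F] [Field K] [Algebra F K]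
    [FiniteDimensional F K] [Algebra.IsSeparable F K] (hF : FinIdx F) : Rec F K := by
  have hsep : Algebra.IsSeparable F (IntermediateField.normalClosure F K (AlgebraicClosure K)) := by
    rw [← le_separableClosure_iff]
    refine iSup_le fun f => ?_
    rw [le_separableClosure_iff]
    exact AlgEquiv.Algebra.isSeparable (AlgEquiv.ofInjectiveField f)
  have hgal : IsGalois F (IntermediateField.normalClosure F K (AlgebraicClosure K)) := ⟨⟩
  have h1 := rec_galois F (IntermediateField.normalClosure F K (AlgebraicClosure K)) hF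
    (IsScalarTower.toAlgHom F K (IntermediateField.normalClosure F K (AlgebraicClosure K))).fieldRange
  exact h1.congr (AlgEquiv.ofInjectiveField _).symm

/-- **All finite extensions.** -/
theorem rec_finite (F K : Type u) [Field F] [Field K] [Algebra F K]
    [FiniteDimensional F K] (hF : FinIdx F) : Rec F K := by
  have r1 : Rec F (separableClosure F K) := rec_separable F _ hF
  have r2 : Rec (separableClosure F K) K := by
    refine rec_odd (hF _) (hF K) ?_
    obtain ⟨q, hq⟩ := ExpChar.exists F
    obtain ⟨n, hn⟩ := finInsepDegree_eq_pow (F := F) (E := K) q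
    have : Module.finrank (separableClosure F K) K = q ^ n := hn
    rw [this]
    refine Odd.pow ?_
    cases hq with
    | zero => exact odd_one
    | prime hp =>
      rcases hp.eq_two_or_odd' with h2 | h2
      · exfalso
        subst h2
        exact hF.self.two (by exact_mod_cast CharP.cast_eq_zero F 2)
      · exact h2
  exact r1.trans r2

/-- **(h3)**: an element whose norm is not a norm from `F(√d)`. -/
theorem exists_norm_not_isN {F K : Type u} [Field F] [Field K] [Algebra F K]
    [FiniteDimensional F K] (hF : FinIdx F) (d : F) (hd : ∀ r : K, r ^ 2 ≠ algebraMap F K d) :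
    ∃ x : K, x ≠ 0 ∧ ¬ IsN d (Algebra.norm F x) := by
  obtain ⟨c, hc, hnc⟩ := (hF K).nonnorm _ hd
  refine ⟨c, hc, fun h => hnc (rec_finite F K hF d c ?_ h)⟩
  rintro rfl
  exact hd 0 (by rw [map_zero]; ring)

end tower

end Pool.Agent.LocCF
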