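import Pool.Agent.Work.MP_3615d2_al.LocNormTwo

/-!
The norm index theorem for every finite extension of a local field, in algebraic form.
-/

namespace Pool.Agent.MP_3615d2_al.LocRep

open Pool.Agent.LocNorm

variable {F : Type*} [NontriviallyNormedField F] [IsUltrametricDist F] [ProperSpace F]

/-- Every finite extension `L` of a locally compact ultrametric field `F` carries the structure of a
locally compact ultrametric field. -/
theorem exists_model (F : Type*) [NontriviallyNormedField F] [IsUltrametricDist F] [ProperSpace F]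
    (L : Type*) [Field L] [Algebra F L] [FiniteDimensional F L] :
    ∃ i : NontriviallyNormedField L, i.toField = ‹Field L› ∧
      @IsUltrametricDist L i.toMetricSpace.toPseudoMetricSpace.toDist ∧
      @ProperSpace L i.toMetricSpace.toPseudoMetricSpace := by
  let i : NontriviallyNormedField L := spectralNorm.nontriviallyNormedField F L
  refine ⟨i, rfl, ?_, ?_⟩
  · have h : IsNonarchimedean (norm : L → ℝ) := isNonarchimedean_spectralNorm (K := F) (L := L)
    exact IsUltrametricDist.isUltrametricDist_of_isNonarchimedean_norm h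
  · let : NormedAlgebra F L := spectralNorm.normedAlgebra F L
    exact FiniteDimensional.proper F L

/-- **The norm index theorem for finite extensions of a local field**, in algebraic form. -/
theorem finIdx (h2 : (2 : F) ≠ 0) (L : Type*) [Field L] [Algebra F L] [FiniteDimensional F L]
    (d : L) (hd : ∀ r : L, r ^ 2 ≠ d) :
    (∃ c : L, c ≠ 0 ∧ ¬ ∃ x y : L, x ^ 2 - d * y ^ 2 = c) ∧
    ∀ a b : L, a ≠ 0 → b ≠ 0 → (¬ ∃ x y : L, x ^ 2 - d * y ^ 2 = a) →
      (¬ ∃ x y : L, x ^ 2 - d * y ^ 2 = b) → ∃ x y : L, x ^ 2 - d * y ^ 2 = a * b := by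
  have h2L : (2 : L) ≠ 0 := by
    have h : algebraMap F L 2 ≠ 0 := by rw [Ne, map_eq_zero]; exact h2
    rwa [map_ofNat] at h
  obtain ⟨i, hi, hu, hp⟩ := exists_model F L
  subst hi
  exact ⟨LocNormTwo.exists_not_isNm h2L hd, fun a b ha hb ha' hb' => isNm_mul hd h2L a b ha hb ha' hb'⟩

omit [IsUltrametricDist F] [ProperSpace F] in
theorem two_ne_zero_ext (h2 : (2 : F) ≠ 0) (L : Type*) [Field L] [Algebra F L] :
    (2 : L) ≠ 0 := by
  have h : algebraMap F L 2 ≠ 0 := by rw [Ne, map_eq_zero]; exact h2
  rwa [map_ofNat] at h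

end Pool.Agent.MP_3615d2_al.LocRep
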