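import Mathlib
import Pool.Agent.Work.MP_3615d2_al.LocCF
import Pool.Agent.Work.MP_3615d2_al.LocRep
import Pool.Agent.Work.MP_3615d2_al.Quad

/-!
# The hypothesis (h3) of `block_kill`

`F` local field, `E / F` quadratic with `E = F(√d)`, `K / F` finite.  If `d` is not a square in `K`
then `ω_{E/F} ∘ N_{K/F}` is not trivial; more precisely, for `x` in `K`, the norm of `x` is a norm
from `E` if and only if `x` is a norm from `K(√d)`.
-/

open Polynomial

namespace SpW

open Pool.Agent.LocCF

section algebraic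

variable {F E : Type} [Field F] [Field E] [Algebra F E] {σ : E ≃ₐ[F] E} {δ : E} {d : F}

theorem QuadDatum.nonsq (hq : QuadDatum σ δ d) (r : F) : r ^ 2 ≠ d := by
  intro hr
  have h1 : (δ - algebraMap F E r) * (δ + algebraMap F E r) = 0 := by
    have := hq.sq
    rw [← hr, map_pow] at this
    linear_combination this
  rcases mul_eq_zero.1 h1 with h | h
  · exact hq.notMem r (sub_eq_zero.1 h).symm
  · refine hq.notMem (-r) ?_
    rw [map_neg]
    exact (eq_neg_of_add_eq_zero_left h).symm

/-- The norms from `E` are the values `x² - d y²`. -/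
theorem QuadDatum.isN_iff (hq : QuadDatum σ δ d) (c : F) :
    (∃ y : E, Algebra.norm F y = c) ↔ IsN d c := by
  have hfact : Fact (∀ r : F, r ^ 2 ≠ d + 0 * r) :=
    ⟨fun r => by rw [zero_mul, add_zero]; exact hq.nonsq r⟩
  have hfin := hq.finite
  let f : QuadraticAlgebra F d 0 →ₐ[F] E :=
    QuadraticAlgebra.lift ⟨δ, by rw [hq.sq, zero_smul, add_zero, Algebra.smul_def, mul_one]⟩
  have hinj : Function.Injective f := f.toRingHom.injective
  have hfr : Module.finrank F (QuadraticAlgebra F d 0) = Module.finrank F E := by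
    rw [hq.rank, QuadraticAlgebra.finrank_eq_two]
  have hbij : Function.Bijective f :=
    ⟨hinj, (LinearMap.injective_iff_surjective_of_finrank_eq_finrank (f := f.toLinearMap) hfr).1 hinj⟩
  let e := AlgEquiv.ofBijective f hbij
  constructor
  · rintro ⟨y, rfl⟩
    refine ⟨(e.symm y).re, (e.symm y).im, ?_⟩
    rw [← qnorm, ← Pool.Agent.LocNorm.norm_quad, Algebra.norm_eq_of_algEquiv]
  · rintro ⟨x, y, rfl⟩
    refine ⟨e ⟨x, y⟩, ?_⟩
    rw [Algebra.norm_eq_of_algEquiv, Pool.Agent.LocNorm.norm_quad, qnorm]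

end algebraic

section top

universe u

/-- Local fields have the norm index property. -/
theorem finIdx_local (F : Type u) [NontriviallyNormedField F] [IsUltrametricDist F] [ProperSpace F]
    (h2 : (2 : F) ≠ 0) : FinIdx F := by
  intro L _ _ _
  refine ⟨Pool.Agent.MP_3615d2_al.LocRep.two_ne_zero_ext h2 L, fun d hd => ?_, fun d hd => ?_⟩
  · exact (Pool.Agent.MP_3615d2_al.LocRep.finIdx h2 L d hd).1
  · exact (Pool.Agent.MP_3615d2_al.LocRep.finIdx h2 L d hd).2

variable {F E : Type} [NontriviallyNormedField F] [IsUltrametricDist F] [ProperSpace F]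
  [Field E] [Algebra F E] {σ : E ≃ₐ[F] E} {δ : E} {d : F}

/-- **Reciprocity**: for a finite extension `K / F` and `x` in `K`, the norm of `x` is a norm from
`E = F(√d)` if and only if `x = a² - d b²` for some `a`, `b` in `K`. -/
theorem norm_isNorm_iff (hq : QuadDatum σ δ d) {K : Type} [Field K] [Algebra F K]
    [FiniteDimensional F K] (x : K) :
    (∃ y : E, Algebra.norm F y = Algebra.norm F x) ↔ IsN (algebraMap F K d) x := by
  rw [hq.isN_iff]
  exact ⟨fun h => rec_finite F K (finIdx_local F hq.two) d x hq.d_ne h, fun h => isN_norm d x h⟩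

/-- **(h3) from (h2)**: if `K` does not contain a square root of `d` then there is `z ≠ 0` in `K`
whose norm is not a norm from `E`. -/
theorem exists_norm_not_norm (hq : QuadDatum σ δ d) {K : Type} [Field K] [Algebra F K]
    [FiniteDimensional F K] (hK : ¬ ∃ z : K, z * z = algebraMap F K d) :
    ∃ z : K, z ≠ 0 ∧ ¬ ∃ y : E, Algebra.norm F y = Algebra.norm F z := by
  obtain ⟨z, hz, hn⟩ := exists_norm_not_isN (K := K) (finIdx_local F hq.two) d
    (fun r hr => hK ⟨r, by rw [← pow_two]; exact hr⟩)
  exact ⟨z, hz, by rwa [hq.isN_iff]⟩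

/-- The norm index in `K`: two elements whose norms are not norms from `E` multiply to a value
`a² - d b²`. -/
theorem mul_isN_of_not_norm (hq : QuadDatum σ δ d) {K : Type} [Field K] [Algebra F K]
    [FiniteDimensional F K] {x y : K} (hx : x ≠ 0) (hy : y ≠ 0)
    (hx' : ¬ ∃ z : E, Algebra.norm F z = Algebra.norm F x)
    (hy' : ¬ ∃ z : E, Algebra.norm F z = Algebra.norm F y) : IsN (algebraMap F K d) (x * y) := by
  rw [norm_isNorm_iff hq] at hx' hy'
  exact (finIdx_local F hq.two K).index' (by rw [Ne, map_eq_zero]; exact hq.d_ne) hx hy hx' hy'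

/-- (h3) in the form of `block_kill`. -/
theorem exists_root_norm_not_norm (hq : QuadDatum σ δ d) (p : F[X]) (hp : Irreducible p)
    (hK : ¬ ∃ z : AdjoinRoot p, z * z = algebraMap F (AdjoinRoot p) d) :
    ∃ z : AdjoinRoot p, z ≠ 0 ∧ ¬ ∃ y : E, Algebra.norm F y = Algebra.norm F z := by
  have : Fact (Irreducible p) := ⟨hp⟩
  have : FiniteDimensional F (AdjoinRoot p) := (AdjoinRoot.powerBasis hp.ne_zero).finite
  exact exists_norm_not_norm hq hK

end top

end SpW
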