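import Pool.Agent.Work.MP_3615d2_al.DefsB
import Pool.Agent.Work.MP_3615d2_al.Quad
import Pool.Agent.Work.MP_3615d2_al.Integ1
import Pool.Agent.Work.MP_3615d2_al.LocH3

/-!
# Classification of skew-Hermitian forms over `E / F`

Two isometry classes in each dimension; if `H1 + H2` has an isotropic subspace of half
dimension and the dimension of `H1` is even then `H1` and `H2` are isometric.
-/

set_option linter.unusedSectionVars false

open Filter Topology Matrix

namespace SpW

/-- The skew-Hermitian forms with the Gram matrices `H1`, `H2` are isometric. -/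
def Isom {E : Type} [Field E] (σ : E → E) {m : ℕ} (H1 H2 : Matrix (Fin m) (Fin m) E) : Prop :=
  ∃ g : GL (Fin m) E, ∀ x y : Fin m → E,
    sk σ H2 ((g : Matrix (Fin m) (Fin m) E).mulVec x) ((g : Matrix (Fin m) (Fin m) E).mulVec y)
      = sk σ H1 x y

namespace HermC

section rep

variable {F E : Type} [NontriviallyNormedField F] [IsUltrametricDist F] [ProperSpace F]
  [NontriviallyNormedField E] [NormedAlgebra F E] [IsUltrametricDist E] [ProperSpace E]
  {σ : E ≃ₐ[F] E} {δ : E} {d : F}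

theorem exists_nat_small (K : Type) [NontriviallyNormedField K] [IsUltrametricDist K]
    [ProperSpace K] : ∃ n : ℕ, 1 ≤ n ∧ ‖(n : K)‖ < 1 := by
  have hmem : ∀ n : ℕ, (n : K) ∈ Metric.closedBall (0 : K) 1 := by
    intro n
    rw [mem_closedBall_zero_iff]
    exact IsUltrametricDist.norm_natCast_le_one K n
  obtain ⟨a, -, φ, hφ, ha⟩ := (isCompact_closedBall (0 : K) 1).tendsto_subseq hmem
  have hc := ha.cauchySeq
  rw [Metric.cauchySeq_iff'] at hc
  obtain ⟨N, hN⟩ := hc 1 one_pos
  have h1 := hN (N + 1) (Nat.le_succ N)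
  have h2 : φ N < φ (N + 1) := hφ (Nat.lt_succ_self N)
  refine ⟨φ (N + 1) - φ N, by omega, ?_⟩
  rw [Nat.cast_sub h2.le]
  rw [dist_eq_norm] at h1
  exact h1

theorem norm_self (z : F) : Algebra.norm F z = z := by
  rw [Algebra.norm_self]
  rfl

theorem exists_nonnorm (hq : QuadDatum σ δ d) :
    ∃ z : F, z ≠ 0 ∧ ¬ ∃ y : E, Algebra.norm F y = z := by
  obtain ⟨z, hz, h⟩ := exists_norm_not_norm hq (K := F) (by
    rintro ⟨z, hz⟩
    exact hq.nonsq z (by rw [pow_two]; exact hz))
  refine ⟨z, hz, ?_⟩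
  rintro ⟨y, hy⟩
  exact h ⟨y, by rw [hy, norm_self]⟩

theorem mul_nonnorm (hq : QuadDatum σ δ d) {a b : F} (ha : a ≠ 0) (hb : b ≠ 0)
    (ha' : ¬ ∃ y : E, Algebra.norm F y = a) (hb' : ¬ ∃ y : E, Algebra.norm F y = b) :
    ∃ y : E, Algebra.norm F y = a * b :=
  Pool.Agent.LocNorm.norm_mul_of_not_norm hq.two hq.rank a b ha hb ha' hb'

theorem norm_div (hq : QuadDatum σ δ d) (x y : E) :
    Algebra.norm F (x / y) = Algebra.norm F x / Algebra.norm F y := by
  by_cases hy : y = 0
  · rw [hy, div_zero, nm_zero hq, div_zero]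
  · rw [eq_div_iff (nm_ne (K := F) hy), ← map_mul, div_mul_cancel₀ _ hy]

theorem exists_one_add (hq : QuadDatum σ δ d) :
    ∃ z : E, 1 + Algebra.norm F z ≠ 0 ∧ ¬ ∃ y : E, Algebra.norm F y = 1 + Algebra.norm F z := by
  by_contra hcon
  push Not at hcon
  have hfin := hq.finite
  have hclosed := dist_range (fun x : E => Algebra.norm F x) (nm_cont hq) (norm_nm hq)
  have h1N : ∀ z : E, ∃ y : E, Algebra.norm F y = 1 + Algebra.norm F z := by
    intro z
    by_cases h : 1 + Algebra.norm F z = 0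
    · exact ⟨0, by rw [nm_zero hq, h]⟩
    · exact hcon z h
  have hadd : ∀ a b : F, (∃ y : E, Algebra.norm F y = a) → (∃ y : E, Algebra.norm F y = b) →
      ∃ y : E, Algebra.norm F y = a + b := by
    rintro _ _ ⟨x, rfl⟩ ⟨y, rfl⟩
    by_cases hx : x = 0
    · exact ⟨y, by rw [hx, nm_zero hq, zero_add]⟩
    · obtain ⟨w, hw⟩ := h1N (y / x)
      refine ⟨x * w, ?_⟩
      have := nm_ne (K := F) hx
      rw [map_mul, hw, norm_div hq, mul_add, mul_one, mul_div_cancel₀ _ this]
  have hnat : ∀ n : ℕ, ∃ y : E, Algebra.norm F y = (n : F) := by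
    intro n
    induction n with
    | zero => exact ⟨0, by rw [nm_zero hq, Nat.cast_zero]⟩
    | succ n ih =>
      rw [Nat.cast_succ]
      exact hadd _ _ ih ⟨1, map_one _⟩
  obtain ⟨n, hn1, hn⟩ := exists_nat_small F
  have hm1 : ∃ y : E, Algebra.norm F y = -1 := by
    have h1 : Tendsto (fun m : ℕ => (n : F) ^ m - 1) atTop (𝓝 (-1)) := by
      have h2 := (tendsto_pow_atTop_nhds_zero_of_norm_lt_one hn).sub_const 1
      rwa [zero_sub] at h2
    have h3 : ∀ᶠ m : ℕ in atTop, (n : F) ^ m - 1 ∈ Set.range (fun x : E => Algebra.norm F x) := by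
      refine Eventually.of_forall fun m => ?_
      obtain ⟨y, hy⟩ := hnat (n ^ m - 1)
      refine ⟨y, ?_⟩
      show Algebra.norm F y = _
      rw [hy, Nat.cast_sub (Nat.one_le_pow _ _ hn1)]
      push_cast
      ring
    exact hclosed.mem_of_tendsto h1 h3
  obtain ⟨u, hu⟩ := hm1
  obtain ⟨c, _, hc⟩ := exists_nonnorm hq
  apply hc
  have hsq : ∀ x : F, ∃ y : E, Algebra.norm F y = x ^ 2 := by
    intro x
    exact ⟨algebraMap F E x, by rw [Algebra.norm_algebraMap, hq.rank]⟩
  have h4 : ∃ y : E, Algebra.norm F y = (c + 1) ^ 2 + -1 * (c - 1) ^ 2 := by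
    apply hadd _ _ (hsq _)
    obtain ⟨y, hy⟩ := hsq (c - 1)
    exact ⟨u * y, by rw [map_mul, hu, hy]⟩
  obtain ⟨y, hy⟩ := h4
  obtain ⟨t, ht⟩ := hsq 2
  refine ⟨y / t, ?_⟩
  rw [norm_div hq, hy, ht]
  have := hq.two
  field_simp
  ring

/-- A binary Hermitian form represents everything. -/
theorem exists_rep (hq : QuadDatum σ δ d) {a b c : F} (ha : a ≠ 0) (hb : b ≠ 0) (hc : c ≠ 0) :
    ∃ x y : E, a * Algebra.norm F x + b * Algebra.norm F y = c := by
  have hfin := hq.finite
  by_cases h1 : ∃ x : E, Algebra.norm F x = c / a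
  · obtain ⟨x, hx⟩ := h1
    refine ⟨x, 0, ?_⟩
    rw [hx, nm_zero hq]
    field_simp
    ring
  by_cases h2 : ∃ x : E, Algebra.norm F x = c / b
  · obtain ⟨x, hx⟩ := h2
    refine ⟨0, x, ?_⟩
    rw [hx, nm_zero hq]
    field_simp
    ring
  obtain ⟨z, hz0, hz⟩ := exists_one_add hq
  obtain ⟨β, hβ⟩ := mul_nonnorm hq (div_ne_zero hc ha) (div_ne_zero hc hb) h1 h2
  obtain ⟨γ, hγ⟩ := mul_nonnorm hq (div_ne_zero hc ha) hz0 h1 hz
  -- `c / a = (1 + N z) N w`, `w = γ / (1 + N z)`
  have hw : Algebra.norm F (γ / algebraMap F E (1 + Algebra.norm F z)) * (1 + Algebra.norm F z) =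
      c / a := by
    rw [norm_div hq, hγ, Algebra.norm_algebraMap, hq.rank]
    field_simp
  -- `b = a N (c / (a β))` up to squares
  set w := γ / algebraMap F E (1 + Algebra.norm F z) with hwd
  have hβ0 : Algebra.norm F β ≠ 0 := by
    rw [hβ]
    exact mul_ne_zero (div_ne_zero hc ha) (div_ne_zero hc hb)
  -- `N β = c² / (a b)`; `b N y = a N (z w)` with `y = z w β a / c`
  refine ⟨w, z * w * β * algebraMap F E (a / c), ?_⟩
  rw [map_mul, map_mul, map_mul, hβ, Algebra.norm_algebraMap, hq.rank]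
  have h3 : a * Algebra.norm F w * (1 + Algebra.norm F z) = c := by
    rw [mul_assoc, hw]
    field_simp
  have h4 : b * (Algebra.norm F z * Algebra.norm F w * (c / a * (c / b)) * (a / c) ^ 2) =
      a * Algebra.norm F w * Algebra.norm F z := by
    field_simp
  rw [h4, ← h3]
  ring

end rep

section abs

variable {F E : Type} [Field F] [Field E] [Algebra F E] {σ : E ≃ₐ[F] E} {δ : E} {d : F}
  {V : Type} [AddCommGroup V] [Module E V] {h : V → V → E}

/-- A nondegenerate skew-Hermitian form. -/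
structure SF (σ : E ≃ₐ[F] E) (h : V → V → E) : Prop where
  add : ∀ x x' y, h (x + x') y = h x y + h x' y
  smul : ∀ (c : E) x y, h (c • x) y = c * h x y
  skew : ∀ x y, h y x = - σ (h x y)
  nd : ∀ x, (∀ y, h x y = 0) → x = 0

theorem SF.add' (hs : SF σ h) (x y y' : V) : h x (y + y') = h x y + h x y' := by
  rw [hs.skew (y + y') x, hs.add, hs.skew y x, hs.skew y' x, map_add, neg_add]

theorem SF.smul' (hs : SF σ h) (c : E) (x y : V) : h x (c • y) = σ c * h x y := by
  rw [hs.skew (c • y) x, hs.smul, hs.skew y x, map_mul]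
  ring

theorem SF.zero_swap (hs : SF σ h) {x y : V} (h0 : h x y = 0) : h y x = 0 := by
  rw [hs.skew, h0, map_zero, neg_zero]

theorem SF.diag_val (hs : SF σ h) (hq : QuadDatum σ δ d) (x : V) :
    ∃ a : F, h x x = algebraMap F E a * δ := by
  have h1 : σ (h x x) = - h x x := by
    conv_rhs => rw [hs.skew x x]
    rw [neg_neg]
  obtain ⟨a, ha⟩ := hq.mem_of_anti h1
  exact ⟨a, ha.symm⟩

theorem SF.exists_aniso (hs : SF σ h) (hq : QuadDatum σ δ d) [Nontrivial V] :
    ∃ x, h x x ≠ 0 := by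
  by_contra hcon
  push Not at hcon
  have key : ∀ x y, h x y = σ (h x y) := by
    intro x y
    have h1 := hcon (x + y)
    rw [hs.add, hs.add', hs.add', hcon x, hcon y, zero_add, add_zero, hs.skew x y] at h1
    linear_combination h1
  obtain ⟨x, hx⟩ := exists_ne (0 : V)
  apply hx
  apply hs.nd
  intro y
  have h1 := key x y
  have h2 := key (δ • x) y
  rw [hs.smul, map_mul, hq.sig, ← h1] at h2
  have h3 : (2 : E) * (δ * h x y) = 0 := by linear_combination h2
  rcases mul_eq_zero.1 h3 with h4 | h4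
  · exact absurd h4 hq.two_E
  · exact (mul_eq_zero.1 h4).resolve_left hq.ne

/-- `y ↦ h y x`. -/
def SF.func (hs : SF σ h) (x : V) : V →ₗ[E] E where
  toFun y := h y x
  map_add' y y' := hs.add y y' x
  map_smul' c y := hs.smul c y x

theorem SF.compl (hs : SF σ h) {x : V} (hx : h x x ≠ 0) :
    SF σ (fun y z : LinearMap.ker (hs.func x) => h y z) where
  add _ _ _ := hs.add _ _ _
  smul _ _ _ := hs.smul _ _ _
  skew _ _ := hs.skew _ _
  nd := by
    rintro ⟨w, hw⟩ h0
    have hw' : h w x = 0 := hw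
    apply Subtype.ext
    apply hs.nd
    intro v
    have hk : v - (h v x / h x x) • x ∈ LinearMap.ker (hs.func x) := by
      rw [LinearMap.mem_ker, map_sub, map_smul]
      show h v x - (h v x / h x x) * h x x = 0
      rw [div_mul_cancel₀ _ hx, sub_self]
    have h1 := h0 ⟨_, hk⟩
    have h2 : v = (h v x / h x x) • x + (v - (h v x / h x x) • x) := by abel
    show h w v = 0
    rw [h2, hs.add', hs.smul', hw', mul_zero, zero_add]
    exact h1

theorem SF.finrank_compl [FiniteDimensional E V] (hs : SF σ h) {x : V} (hx : h x x ≠ 0) :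
    Module.finrank E (LinearMap.ker (hs.func x)) + 1 = Module.finrank E V := by
  have h1 := LinearMap.finrank_range_add_finrank_ker (hs.func x)
  have h2 : LinearMap.range (hs.func x) = ⊤ := by
    rw [LinearMap.range_eq_top]
    intro c
    refine ⟨(c / h x x) • x, ?_⟩
    show h _ x = c
    rw [hs.smul, div_mul_cancel₀ _ hx]
  rw [h2, finrank_top, Module.finrank_self] at h1
  omega

/-- An orthogonal basis with the values `δ, ..., δ, a δ`. -/
theorem exists_diag (hq : QuadDatum σ δ d)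
    (hrep : ∀ a b c : F, a ≠ 0 → b ≠ 0 → c ≠ 0 →
      ∃ x y : E, a * Algebra.norm F x + b * Algebra.norm F y = c) :
    ∀ (n : ℕ) (V : Type) [AddCommGroup V] [Module E V] [FiniteDimensional E V] (h : V → V → E),
      SF σ h → Module.finrank E V = n + 1 → ∃ (a : F) (b : Fin (n + 1) → V), a ≠ 0 ∧
        (∀ i j, i ≠ j → h (b i) (b j) = 0) ∧
        ∀ i, h (b i) (b i) = algebraMap F E (if i = Fin.last n then a else 1) * δ := by
  intro n
  induction n with
  | zero =>
    intro V _ _ _ h hs hV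
    have : Nontrivial V := Module.nontrivial_of_finrank_pos (R := E) (by omega)
    obtain ⟨x, hx⟩ := hs.exists_aniso hq
    obtain ⟨a, ha⟩ := hs.diag_val hq x
    refine ⟨a, fun _ => x, ?_, ?_, ?_⟩
    · rintro rfl
      rw [map_zero, zero_mul] at ha
      exact hx ha
    · intro i j hij
      exact absurd (Subsingleton.elim (α := Fin 1) i j) hij
    · intro i
      rw [if_pos (Subsingleton.elim (α := Fin 1) _ _), ha]
  | succ n ih =>
    intro V _ _ _ h hs hV
    have : Nontrivial V := Module.nontrivial_of_finrank_pos (R := E) (by omega)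
    obtain ⟨u, hu⟩ := hs.exists_aniso hq
    obtain ⟨a, ha⟩ := hs.diag_val hq u
    have hfr := hs.finrank_compl hu
    have hs' := hs.compl hu
    have : Nontrivial (LinearMap.ker (hs.func u)) :=
      Module.nontrivial_of_finrank_pos (R := E) (by omega)
    obtain ⟨⟨v, hv⟩, hvv⟩ := hs'.exists_aniso hq
    have hvv' : h v v ≠ 0 := hvv
    have hvu : h v u = 0 := hv
    have huv : h u v = 0 := hs.zero_swap hvu
    obtain ⟨b, hb⟩ := hs.diag_val hq v
    have ha0 : a ≠ 0 := by
      rintro rfl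
      rw [map_zero, zero_mul] at ha
      exact hu ha
    have hb0 : b ≠ 0 := by
      rintro rfl
      rw [map_zero, zero_mul] at hb
      exact hvv' hb
    obtain ⟨s, t, hst⟩ := hrep a b 1 ha0 hb0 one_ne_zero
    let x : V := s • u + t • v
    have hx : h x x = δ := by
      show h (s • u + t • v) (s • u + t • v) = δ
      rw [hs.add, hs.add', hs.add', hs.smul, hs.smul, hs.smul, hs.smul, hs.smul', hs.smul',
        hs.smul', hs.smul', huv, hvu, ha, hb]
      have h1 := congrArg (algebraMap F E) hst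
      rw [map_add, map_mul, map_mul, hq.norm_eq, hq.norm_eq, map_one] at h1
      linear_combination δ * h1
    have hx0 : h x x ≠ 0 := by
      rw [hx]
      exact hq.ne
    have hfr' := hs.finrank_compl hx0
    obtain ⟨c, b', hc, hb1, hb2⟩ := ih (LinearMap.ker (hs.func x)) _ (hs.compl hx0) (by omega)
    refine ⟨c, Fin.cons x (fun i => (b' i : V)), hc, ?_, ?_⟩
    · intro i j
      refine Fin.cases ?_ (fun i => ?_) i <;> refine Fin.cases ?_ (fun j => ?_) j
      · intro hij
        exact absurd rfl hij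
      · intro _
        rw [Fin.cons_zero, Fin.cons_succ]
        exact hs.zero_swap (b' j).2
      · intro _
        rw [Fin.cons_zero, Fin.cons_succ]
        exact (b' i).2
      · intro hij
        rw [Fin.cons_succ, Fin.cons_succ]
        exact hb1 i j (fun h => hij (by rw [h]))
    · intro i
      refine Fin.cases ?_ (fun i => ?_) i
      · rw [Fin.cons_zero, if_neg, hx, map_one, one_mul]
        intro h
        have := congrArg Fin.val h
        simp at this
      · rw [Fin.cons_succ, ← Fin.succ_last]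
        have := hb2 i
        simp only [Fin.succ_inj]
        exact this

end abs

section mat

variable {F E : Type} [Field F] [Field E] [Algebra F E] {σ : E ≃ₐ[F] E} {δ : E} {d : F} {m : ℕ}

theorem sk_dot (H : Matrix (Fin m) (Fin m) E) (x y : Fin m → E) :
    sk σ H x y = x ⬝ᵥ (H *ᵥ (fun i => σ (y i))) := by
  simp only [sk, dotProduct, mulVec, Finset.mul_sum, mul_assoc]

theorem sk_gram (H P : Matrix (Fin m) (Fin m) E) (x y : Fin m → E) :
    sk σ H (P.mulVec x) (P.mulVec y) = sk σ (Pᵀ * H * P.map σ) x y := by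
  rw [sk_dot, sk_dot]
  have h1 : (fun i => σ ((P.mulVec y) i)) = (P.map σ).mulVec (fun i => σ (y i)) := by
    funext i
    simp [mulVec, dotProduct]
  rw [h1, ← Matrix.mulVec_mulVec, ← Matrix.mulVec_mulVec, Matrix.dotProduct_mulVec (P.mulVec x),
    Matrix.dotProduct_mulVec x, Matrix.vecMul_transpose, ← Matrix.dotProduct_mulVec]

theorem sk_single (H : Matrix (Fin m) (Fin m) E) (i j : Fin m) :
    sk σ H (Pi.single i 1) (Pi.single j 1) = H i j := by
  rw [sk_dot, single_one_dotProduct]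
  have h1 : (fun k => σ ((Pi.single j (1 : E) : Fin m → E) k)) = Pi.single j 1 := by
    funext k
    by_cases hk : k = j
    · subst hk
      simp
    · simp [hk]
  rw [h1, mulVec_single_one]
  rfl

theorem ext_sk {H H' : Matrix (Fin m) (Fin m) E} (h : ∀ x y, sk σ H x y = sk σ H' x y) :
    H = H' := by
  ext i j
  rw [← sk_single (σ := σ) H, ← sk_single (σ := σ) H', h]

theorem det_map (P : Matrix (Fin m) (Fin m) E) : (P.map σ).det = σ P.det := by
  have := (σ : E →+* E).map_det P
  exact this.symm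

theorem det_gram (hq : QuadDatum σ δ d) (H P : Matrix (Fin m) (Fin m) E) :
    (Pᵀ * H * P.map σ).det = algebraMap F E (Algebra.norm F P.det) * H.det := by
  rw [det_mul, det_mul, det_transpose, det_map, hq.norm_eq]
  ring

theorem isom_iff (H1 H2 : Matrix (Fin m) (Fin m) E) :
    Isom σ H1 H2 ↔ ∃ g : GL (Fin m) E,
      H1 = (g : Matrix (Fin m) (Fin m) E)ᵀ * H2 * (g : Matrix (Fin m) (Fin m) E).map σ := by
  constructor
  · rintro ⟨g, hg⟩
    refine ⟨g, ext_sk (σ := σ) fun x y => ?_⟩
    rw [← sk_gram, hg]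
  · rintro ⟨g, hg⟩
    refine ⟨g, fun x y => ?_⟩
    rw [sk_gram, hg]

end mat

end HermC

theorem Isom.symm {F E : Type} [Field F] [Field E] [Algebra F E] {σ : E ≃ₐ[F] E} {m : ℕ}
    {H1 H2 : Matrix (Fin m) (Fin m) E} (h : Isom σ H1 H2) : Isom σ H2 H1 := by
  obtain ⟨g, hg⟩ := h
  refine ⟨g⁻¹, fun x y => ?_⟩
  rw [← hg, Matrix.mulVec_mulVec, Matrix.mulVec_mulVec, ← Units.val_mul, mul_inv_cancel,
    Units.val_one, Matrix.one_mulVec, Matrix.one_mulVec]

theorem Isom.trans {F E : Type} [Field F] [Field E] [Algebra F E] {σ : E ≃ₐ[F] E} {m : ℕ}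
    {H1 H2 H3 : Matrix (Fin m) (Fin m) E} (h : Isom σ H1 H2) (h' : Isom σ H2 H3) :
    Isom σ H1 H3 := by
  obtain ⟨g, hg⟩ := h
  obtain ⟨g', hg'⟩ := h'
  refine ⟨g' * g, fun x y => ?_⟩
  rw [Units.val_mul, ← Matrix.mulVec_mulVec, ← Matrix.mulVec_mulVec, hg', hg]

/-- The orthogonal sum of two forms. -/
theorem isSkew_bm {F E : Type} [Field F] [Field E] [Algebra F E] {σ : E ≃ₐ[F] E} {m : ℕ}
    {H1 H2 : Matrix (Fin m) (Fin m) E} (h1 : IsSkew σ H1) (h2 : IsSkew σ H2) :
    IsSkew σ (bm H1 0 0 H2) where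
  skew i j := by
    obtain ⟨i, rfl⟩ := (sI m).surjective i
    obtain ⟨j, rfl⟩ := (sI m).surjective j
    simp only [bm, reindex_apply, submatrix_apply, Equiv.symm_apply_apply]
    rcases i with i | i <;> rcases j with j | j
    · exact h1.skew i j
    · simp
    · simp
    · exact h2.skew i j
  det_ne := by
    rw [bm, det_reindex_self, det_fromBlocks_zero₂₁]
    exact mul_ne_zero h1.det_ne h2.det_ne

namespace HermC

section diag

variable {F E : Type} [Field F] [Field E] [Algebra F E] {σ : E ≃ₐ[F] E} {δ : E} {d : F} {n : ℕ}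

/-- The form `δ <1, ..., 1, a>`. -/
def dg (δ : E) (n : ℕ) (a : F) : Matrix (Fin (n + 1)) (Fin (n + 1)) E :=
  diagonal fun i => algebraMap F E (if i = Fin.last n then a else 1) * δ

theorem det_dg (a : F) : (dg δ n a).det = algebraMap F E a * δ ^ (n + 1) := by
  rw [dg, det_diagonal, Finset.prod_mul_distrib, Finset.prod_const, Finset.card_univ,
    Fintype.card_fin, ← map_prod]
  congr 2
  rw [Finset.prod_ite_eq' Finset.univ (Fin.last n) (fun _ => a)]
  simp

theorem isSkew_dg (hq : QuadDatum σ δ d) {a : F} (ha : a ≠ 0) : IsSkew σ (dg δ n a) where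
  skew i j := by
    by_cases hij : i = j
    · subst hij
      rw [dg, diagonal_apply_eq, map_mul, AlgEquiv.commutes, hq.sig]
      ring
    · rw [dg, diagonal_apply_ne _ hij, diagonal_apply_ne _ (Ne.symm hij), map_zero, neg_zero]
  det_ne := by
    rw [det_dg]
    exact mul_ne_zero ((_root_.map_ne_zero _).2 ha) (pow_ne_zero _ hq.ne)

theorem sf_of_isSkew (hq : QuadDatum σ δ d) {H : Matrix (Fin n) (Fin n) E} (hH : IsSkew σ H) :
    SF σ (sk σ H) where
  add x x' y := by
    simp only [sk, Pi.add_apply, add_mul, Finset.sum_add_distrib]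
  smul c x y := by
    simp only [sk, Pi.smul_apply, smul_eq_mul, Finset.mul_sum, mul_assoc]
  skew x y := by
    simp only [sk, map_sum, map_mul]
    rw [Finset.sum_comm, ← Finset.sum_neg_distrib]
    refine Finset.sum_congr rfl fun i _ => ?_
    rw [← Finset.sum_neg_distrib]
    refine Finset.sum_congr rfl fun j _ => ?_
    rw [hH.skew i j, sig_sig hq]
    ring
  nd x h := by
    have h1 : Matrix.vecMul x H = 0 := by
      funext j
      have h2 := h (Pi.single j 1)
      rw [sk_dot, Matrix.dotProduct_mulVec] at h2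
      have h3 : (fun k => σ ((Pi.single j (1 : E) : Fin n → E) k)) = Pi.single j 1 := by
        funext k
        by_cases hk : k = j
        · subst hk
          simp
        · simp [hk]
      rw [h3, dotProduct_single_one] at h2
      exact h2
    have h4 : IsUnit H := (Matrix.isUnit_iff_isUnit_det _).2 (IsUnit.mk0 _ hH.det_ne)
    have h5 := congrArg (fun z => Matrix.vecMul z H⁻¹) h1
    simp only [Matrix.vecMul_vecMul, Matrix.zero_vecMul] at h5
    rwa [Matrix.mul_nonsing_inv _ ((Matrix.isUnit_iff_isUnit_det _).1 h4), Matrix.vecMul_one] at h5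

/-- Every form is isometric to one of the `dg δ n a`. -/
theorem exists_dg (hq : QuadDatum σ δ d)
    (hrep : ∀ a b c : F, a ≠ 0 → b ≠ 0 → c ≠ 0 →
      ∃ x y : E, a * Algebra.norm F x + b * Algebra.norm F y = c)
    {H : Matrix (Fin (n + 1)) (Fin (n + 1)) E} (hH : IsSkew σ H) :
    ∃ a : F, a ≠ 0 ∧ Isom σ (dg δ n a) H := by
  obtain ⟨a, b, ha, hb1, hb2⟩ := exists_diag hq hrep n (Fin (n + 1) → E) (sk σ H)
    (sf_of_isSkew hq hH) (Module.finrank_fin_fun E)
  refine ⟨a, ha, ?_⟩
  let P : Matrix (Fin (n + 1)) (Fin (n + 1)) E := Matrix.of fun i j => b j i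
  have hP : ∀ j, P.mulVec (Pi.single j 1) = b j := by
    intro j
    rw [mulVec_single_one]
    rfl
  have hG : Pᵀ * H * P.map σ = dg δ n a := by
    ext i j
    rw [← sk_single (σ := σ) (Pᵀ * H * P.map σ) i j, ← sk_gram, hP, hP]
    by_cases hij : i = j
    · subst hij
      rw [hb2, dg, diagonal_apply_eq]
    · rw [hb1 i j hij, dg, diagonal_apply_ne _ hij]
  have hdet : P.det ≠ 0 := by
    intro h0
    have h1 := congrArg Matrix.det hG
    rw [det_mul, det_mul, det_transpose, h0, zero_mul, zero_mul] at h1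
    exact (isSkew_dg (n := n) hq ha).det_ne h1.symm
  rw [isom_iff]
  exact ⟨GeneralLinearGroup.mkOfDetNeZero P hdet, hG.symm⟩

theorem dg_isom (hq : QuadDatum σ δ d) {a b : F} {z : E} (hz : z ≠ 0)
    (h : a = b * Algebra.norm F z) : Isom σ (dg δ n a) (dg δ n b) := by
  rw [isom_iff]
  let P : Matrix (Fin (n + 1)) (Fin (n + 1)) E :=
    diagonal fun i => if i = Fin.last n then z else 1
  have hdet : P.det ≠ 0 := by
    rw [det_diagonal, Finset.prod_ne_zero_iff]
    intro i _
    split_ifs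
    · exact hz
    · exact one_ne_zero
  refine ⟨GeneralLinearGroup.mkOfDetNeZero P hdet, ?_⟩
  show dg δ n a = Pᵀ * dg δ n b * P.map σ
  rw [diagonal_transpose, diagonal_map (map_zero _), dg, dg, diagonal_mul_diagonal,
    diagonal_mul_diagonal]
  congr 1
  funext i
  by_cases hi : i = Fin.last n
  · simp only [if_pos hi]
    rw [h, map_mul, hq.norm_eq]
    ring
  · simp only [if_neg hi]
    simp

/-- The determinants of isometric forms. -/
theorem det_of_isom (hq : QuadDatum σ δ d) {H1 H2 : Matrix (Fin n) (Fin n) E}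
    (h : Isom σ H1 H2) :
    ∃ z : E, z ≠ 0 ∧ H1.det = algebraMap F E (Algebra.norm F z) * H2.det := by
  rw [isom_iff] at h
  obtain ⟨g, hg⟩ := h
  refine ⟨(g : Matrix (Fin n) (Fin n) E).det, ?_, ?_⟩
  · exact ((Matrix.isUnit_iff_isUnit_det _).1 g.isUnit).ne_zero
  · rw [hg, det_gram hq]

end diag

section split

variable {F E : Type} [Field F] [Field E] [Algebra F E] {σ : E ≃ₐ[F] E} {δ : E} {d : F} {m : ℕ}

theorem det_swap (m : ℕ) :
    (fromBlocks (0 : Matrix (Fin m) (Fin m) E) (1 : Matrix (Fin m) (Fin m) E)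
      (1 : Matrix (Fin m) (Fin m) E) (0 : Matrix (Fin m) (Fin m) E)).det = (-1) ^ m := by
  have h1 : fromBlocks (0 : Matrix (Fin m) (Fin m) E) (1 : Matrix (Fin m) (Fin m) E)
      (1 : Matrix (Fin m) (Fin m) E) (0 : Matrix (Fin m) (Fin m) E) *
      fromBlocks (1 : Matrix (Fin m) (Fin m) E) 0 1 (1 : Matrix (Fin m) (Fin m) E) =
      fromBlocks 1 1 1 0 := by
    rw [fromBlocks_multiply]
    simp
  have h2 := congrArg Matrix.det h1
  rw [det_mul, det_fromBlocks_zero₁₂, det_one, one_mul, mul_one, det_fromBlocks_one₁₁, one_mul,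
    zero_sub, det_neg, det_one, mul_one, Fintype.card_fin] at h2
  exact h2

theorem det_bm_zero (C C' D : Matrix (Fin m) (Fin m) E) :
    (bm 0 C C' D).det = C.det * C'.det * (-1) ^ m := by
  have h1 : fromBlocks (0 : Matrix (Fin m) (Fin m) E) C C' D =
      fromBlocks C 0 D C' * fromBlocks 0 1 1 0 := by
    rw [fromBlocks_multiply]
    simp
  rw [bm, det_reindex_self, h1, det_mul, det_fromBlocks_zero₁₂, det_swap]

theorem isSkew_gram (hq : QuadDatum σ δ d) {N : ℕ} {H : Matrix (Fin N) (Fin N) E}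
    (hH : IsSkew σ H) (P : Matrix (Fin N) (Fin N) E) (i j : Fin N) :
    (Pᵀ * H * P.map σ) j i = - σ ((Pᵀ * H * P.map σ) i j) := by
  rw [← sk_single (σ := σ) (Pᵀ * H * P.map σ) i j, ← sk_single (σ := σ) (Pᵀ * H * P.map σ) j i,
    ← sk_gram, ← sk_gram]
  exact (sf_of_isSkew hq hH).skew _ _

/-- The determinant of a form with an isotropic subspace of half dimension. -/
theorem det_split (hq : QuadDatum σ δ d) {H : Matrix (Fin (2 * m)) (Fin (2 * m)) E}
    (hH : IsSkew σ H) {Y : Submodule E (Fin (2 * m) → E)} (hY : Module.finrank E Y = m)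
    (h0 : ∀ y ∈ Y, ∀ z ∈ Y, sk σ H y z = 0) :
    ∃ p c : E, p ≠ 0 ∧ c ≠ 0 ∧
      algebraMap F E (Algebra.norm F p) * H.det = algebraMap F E (Algebra.norm F c) := by
  obtain ⟨Y', hc⟩ := Submodule.exists_isCompl Y
  have hY' : Module.finrank E Y' = m := by
    have h1 := Submodule.finrank_add_eq_of_isCompl hc
    rw [hY, Module.finrank_fin_fun] at h1
    omega
  let b₁ := Module.finBasisOfFinrankEq E Y hY
  let b₂ := Module.finBasisOfFinrankEq E Y' hY'
  let b := (b₁.prod b₂).map (Submodule.prodEquivOfIsCompl Y Y' hc)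
  have hb1 : ∀ i, b (Sum.inl i) = (b₁ i : Fin (2 * m) → E) := by
    intro i
    simp [b]
  have hb2 : ∀ i, b (Sum.inr i) = (b₂ i : Fin (2 * m) → E) := by
    intro i
    simp [b]
  let P : Matrix (Fin (2 * m)) (Fin (2 * m)) E := Matrix.of fun i j => b ((sI m).symm j) i
  have hP : ∀ j, P.mulVec (Pi.single j 1) = b ((sI m).symm j) := by
    intro j
    rw [mulVec_single_one]
    rfl
  have hPdet : P.det ≠ 0 := by
    have h1 : LinearIndependent E P.col :=
      b.linearIndependent.comp (sI m).symm (sI m).symm.injective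
    rw [Matrix.linearIndependent_cols_iff_isUnit] at h1
    exact ((Matrix.isUnit_iff_isUnit_det _).1 h1).ne_zero
  set G := Pᵀ * H * P.map σ with hG
  have hGs : ∀ i j, G (sI m i) (sI m j) = sk σ H (b i) (b j) := by
    intro i j
    rw [hG, ← sk_single (σ := σ) (Pᵀ * H * P.map σ), ← sk_gram, hP, hP, Equiv.symm_apply_apply,
      Equiv.symm_apply_apply]
  let C : Matrix (Fin m) (Fin m) E := Matrix.of fun i j => G (sI m (Sum.inl i)) (sI m (Sum.inr j))
  let D : Matrix (Fin m) (Fin m) E := Matrix.of fun i j => G (sI m (Sum.inr i)) (sI m (Sum.inr j))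
  have hGb : G = bm 0 C (-(C.map σ)ᵀ) D := by
    ext i j
    obtain ⟨i, rfl⟩ := (sI m).surjective i
    obtain ⟨j, rfl⟩ := (sI m).surjective j
    simp only [bm, reindex_apply, submatrix_apply, Equiv.symm_apply_apply]
    rcases i with i | i <;> rcases j with j | j
    · rw [hGs, hb1, hb1, fromBlocks_apply₁₁, Matrix.zero_apply]
      exact h0 _ (b₁ i).2 _ (b₁ j).2
    · rfl
    · rw [fromBlocks_apply₂₁]
      exact isSkew_gram hq hH P _ _
    · rfl
  have hdG : G.det = algebraMap F E (Algebra.norm F C.det) := by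
    rw [hGb, det_bm_zero, det_neg, det_transpose, det_map, Fintype.card_fin, hq.norm_eq]
    have h1 : ((-1 : E) ^ m) * (-1) ^ m = 1 := by
      rw [← mul_pow]
      simp
    linear_combination (C.det * σ C.det) * h1
  have hdG' : G.det = algebraMap F E (Algebra.norm F P.det) * H.det := by
    rw [hG, det_gram hq]
  refine ⟨P.det, C.det, hPdet, ?_, by rw [← hdG', hdG]⟩
  intro hC
  have h1 : G.det = 0 := by
    rw [hdG, hq.norm_eq, hC, zero_mul]
  rw [hdG', hq.norm_eq] at h1
  rcases mul_eq_zero.1 h1 with h2 | h2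
  · rcases mul_eq_zero.1 h2 with h3 | h3
    · exact hPdet h3
    · exact hPdet ((map_eq_zero_iff σ σ.injective).1 h3)
  · exact hH.det_ne h2

end split

end HermC

section main

variable {F E : Type} [NontriviallyNormedField F] [IsUltrametricDist F] [ProperSpace F]
  [NontriviallyNormedField E] [NormedAlgebra F E] [IsUltrametricDist E] [ProperSpace E]
  {σ : E ≃ₐ[F] E} {δ : E} {d : F} {m : ℕ}

open HermC

/-- If `H1 + H2` has an isotropic subspace of half dimension and `m` is even then `H1` and `H2` are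
isometric. -/
theorem isom_of_split (hq : QuadDatum σ δ d) (hm : Even m) {H1 H2 : Matrix (Fin m) (Fin m) E}
    (h1 : IsSkew σ H1) (h2 : IsSkew σ H2)
    (hY : ∃ Y : Submodule E (Fin (2 * m) → E), Module.finrank E Y = m ∧
      ∀ y ∈ Y, ∀ z ∈ Y, sk σ (bm H1 0 0 H2) y z = 0) : Isom σ H1 H2 := by
  obtain ⟨Y, hY, h0⟩ := hY
  have hrep : ∀ a b c : F, a ≠ 0 → b ≠ 0 → c ≠ 0 →
      ∃ x y : E, a * Algebra.norm F x + b * Algebra.norm F y = c :=
    fun a b c ha hb hc => exists_rep hq ha hb hc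
  obtain ⟨p, c, hp, hc, hpc⟩ := det_split hq (isSkew_bm h1 h2) hY h0
  rw [bm, det_reindex_self, det_fromBlocks_zero₂₁] at hpc
  rcases m with _ | n
  · exact ⟨1, fun x y => by simp [sk]⟩
  obtain ⟨a₁, ha₁, i₁⟩ := exists_dg hq hrep h1
  obtain ⟨a₂, ha₂, i₂⟩ := exists_dg hq hrep h2
  obtain ⟨z₁, hz₁, e₁⟩ := det_of_isom hq i₁
  obtain ⟨z₂, hz₂, e₂⟩ := det_of_isom hq i₂
  rw [det_dg] at e₁ e₂
  obtain ⟨k, hk⟩ := hm
  have hδ : δ ^ (n + 1) = algebraMap F E (d ^ k) := by
    rw [hk, pow_add, ← mul_pow, hq.sq, map_pow]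
  rw [hδ] at e₁ e₂
  have key : a₁ * a₂ * (d ^ k) ^ 2 * Algebra.norm F p =
      Algebra.norm F z₁ * Algebra.norm F z₂ * Algebra.norm F c := by
    apply (algebraMap F E).injective
    simp only [map_mul, map_pow] at *
    linear_combination (algebraMap F E (Algebra.norm F p)) * algebraMap F E a₂ *
      (algebraMap F E d) ^ k * e₁ + (algebraMap F E (Algebra.norm F p)) *
      (algebraMap F E (Algebra.norm F z₁) * H1.det) * e₂ +
      algebraMap F E (Algebra.norm F z₁) * algebraMap F E (Algebra.norm F z₂) * hpc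
  have hd0 : d ^ k ≠ 0 := pow_ne_zero _ hq.d_ne
  have hp0 := nm_ne (K := F) hp
  have hz : z₁ * z₂ * c / (p * algebraMap F E (d ^ k * a₂)) ≠ 0 := by
    refine div_ne_zero (mul_ne_zero (mul_ne_zero hz₁ hz₂) hc) (mul_ne_zero hp ?_)
    exact (_root_.map_ne_zero _).2 (mul_ne_zero hd0 ha₂)
  refine (i₁.symm.trans (dg_isom hq hz ?_)).trans i₂
  rw [norm_div hq, map_mul, map_mul, map_mul, Algebra.norm_algebraMap, hq.rank, ← key]
  field_simp

/-- There are exactly two classes in each dimension. -/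
theorem two_classes (hq : QuadDatum σ δ d) (hm : 0 < m) :
    ∃ H1 H2 : Matrix (Fin m) (Fin m) E, IsSkew σ H1 ∧ IsSkew σ H2 ∧ ¬ Isom σ H1 H2 ∧
      ∀ H, IsSkew σ H → Isom σ H H1 ∨ Isom σ H H2 := by
  have hrep : ∀ a b c : F, a ≠ 0 → b ≠ 0 → c ≠ 0 →
      ∃ x y : E, a * Algebra.norm F x + b * Algebra.norm F y = c :=
    fun a b c ha hb hc => exists_rep hq ha hb hc
  obtain ⟨c, hc0, hc⟩ := exists_nonnorm hq
  obtain ⟨n, rfl⟩ : ∃ n, m = n + 1 := ⟨m - 1, by omega⟩
  refine ⟨dg δ n (1 : F), dg δ n c, isSkew_dg hq one_ne_zero, isSkew_dg hq hc0, ?_, ?_⟩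
  · intro h
    obtain ⟨z, hz, e⟩ := det_of_isom hq h.symm
    rw [det_dg, det_dg, ← mul_assoc, ← map_mul, mul_one] at e
    have h1 := mul_right_cancel₀ (pow_ne_zero _ hq.ne) e
    exact hc ⟨z, ((algebraMap F E).injective h1).symm⟩
  · intro H hH
    obtain ⟨a, ha, i⟩ := exists_dg hq hrep hH
    by_cases h : ∃ y : E, Algebra.norm F y = a
    · obtain ⟨y, hy⟩ := h
      left
      have hy0 : y ≠ 0 := by
        rintro rfl
        rw [nm_zero hq] at hy
        exact ha hy.symm
      exact i.symm.trans (dg_isom hq hy0 (by rw [hy, one_mul]))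
    · right
      obtain ⟨y, hy⟩ := mul_nonnorm hq ha hc0 h hc
      have hz : y / algebraMap F E c ≠ 0 := by
        refine div_ne_zero ?_ ((_root_.map_ne_zero _).2 hc0)
        rintro rfl
        rw [nm_zero hq] at hy
        exact mul_ne_zero ha hc0 hy.symm
      refine i.symm.trans (dg_isom hq hz ?_)
      rw [norm_div hq, hy, Algebra.norm_algebraMap, hq.rank]
      field_simp

end main

end SpW
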