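import Pool.Agent.Work.MP_3615d2_al.Mod

/-!
MP_3615d2_al: the module of a linear automorphism is the module of its determinant.
-/

open MeasureTheory Measure
open scoped NNReal ENNReal Pointwise

namespace SpW

section

variable {F : Type} [NontriviallyNormedField F] [ProperSpace F]

theorem contSMulLE (F : Type) [NontriviallyNormedField F] [ProperSpace F] (V : Type)
    [NormedAddCommGroup V] [NormedSpace F V] [FiniteDimensional F V] :
    ContinuousConstSMul (V ≃ₗ[F] V) V :=
  ⟨fun T => T.toLinearMap.continuous_of_finiteDimensional⟩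

/-- The action of `GL_n(F)` on `F^n`. -/
noncomputable def glv (n : ℕ) (F : Type) [Field F] :
    GL (Fin n) F →* ((Fin n → F) ≃ₗ[F] (Fin n → F)) :=
  (LinearMap.GeneralLinearGroup.generalLinearEquiv F (Fin n → F)).toMonoidHom.comp
    (Matrix.GeneralLinearGroup.toLin (n := Fin n) (R := F)).toMonoidHom

theorem glv_apply {n : ℕ} {F : Type} [Field F] (g : GL (Fin n) F) (x : Fin n → F) :
    glv n F g x = (g : Matrix (Fin n) (Fin n) F).mulVec x := rfl

/-- The module of an element of `GL_n(F)`. -/
noncomputable def chi (n : ℕ) (F : Type) [NontriviallyNormedField F] [ProperSpace F] :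
    GL (Fin n) F →* ℝ≥0 :=
  have := contSMulLE F (Fin n → F)
  (distribHaarChar (Fin n → F)).comp (glv n F)

theorem chi_ne (n : ℕ) (g : GL (Fin n) F) : chi n F g ≠ 0 :=
  ((Group.isUnit g).map (chi n F)).ne_zero

theorem chi_transvection {n : ℕ} (i j : Fin n) (hij : i ≠ j) (c : F)
    (h : (Matrix.transvection i j c).det ≠ 0) :
    chi n F (Matrix.GeneralLinearGroup.mkOfDetNeZero _ h) = 1 := by
  have hd : ∀ c : F, (Matrix.transvection i j c).det ≠ 0 := by
    intro c
    rw [Matrix.det_transvection_of_ne i j hij]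
    exact one_ne_zero
  obtain ⟨a, ha⟩ := NormedField.exists_one_lt_norm F
  have ha0 : a ≠ 0 := by
    rintro rfl
    rw [norm_zero] at ha
    linarith
  have ha1 : a - 1 ≠ 0 := by
    intro h1
    rw [sub_eq_zero.1 h1, norm_one] at ha
    exact lt_irrefl _ ha
  have hD : (Matrix.diagonal (Function.update (1 : Fin n → F) i a)).det ≠ 0 := by
    rw [Matrix.det_diagonal, Finset.prod_ne_zero_iff]
    intro k _
    by_cases hk : k = i
    · rw [hk, Function.update_self]
      exact ha0
    · rw [Function.update_of_ne hk]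
      exact one_ne_zero
  have key : ∀ c : F, chi n F (Matrix.GeneralLinearGroup.mkOfDetNeZero _ (hd ((a - 1) * c))) = 1 := by
    intro c
    have e1 : Matrix.GeneralLinearGroup.mkOfDetNeZero _ hD *
        Matrix.GeneralLinearGroup.mkOfDetNeZero _ (hd c) =
        (Matrix.GeneralLinearGroup.mkOfDetNeZero _ (hd c) *
          Matrix.GeneralLinearGroup.mkOfDetNeZero _ (hd ((a - 1) * c))) *
        Matrix.GeneralLinearGroup.mkOfDetNeZero _ hD := by
      apply Units.ext
      show Matrix.diagonal (Function.update (1 : Fin n → F) i a) * Matrix.transvection i j c =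
        (Matrix.transvection i j c * Matrix.transvection i j ((a - 1) * c)) *
          Matrix.diagonal (Function.update (1 : Fin n → F) i a)
      rw [Matrix.transvection_mul_transvection_same (i := i) (j := j) hij]
      have e2 : c + (a - 1) * c = a * c := by ring
      rw [e2, Matrix.transvection, Matrix.transvection, mul_add, add_mul, mul_one, one_mul]
      congr 1
      ext k l
      rw [Matrix.diagonal_mul, Matrix.mul_diagonal]
      by_cases hk : k = i
      · by_cases hl : l = j
        · rw [hk, hl, Function.update_self, Function.update_of_ne (Ne.symm hij)]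
          simp
        · simp [Ne.symm hl]
      · simp [Ne.symm hk]
    have e3 := congrArg (chi n F) e1
    rw [map_mul, map_mul, map_mul, mul_comm] at e3
    have e4 := mul_right_cancel₀ (chi_ne n _) e3
    exact mul_left_cancel₀ (chi_ne n _) (by rw [mul_one]; exact e4.symm)
  have e5 : c = (a - 1) * (c / (a - 1)) := by field_simp
  have e6 : Matrix.GeneralLinearGroup.mkOfDetNeZero _ h =
      Matrix.GeneralLinearGroup.mkOfDetNeZero _ (hd ((a - 1) * (c / (a - 1)))) := by
    apply Units.ext
    show Matrix.transvection i j c = Matrix.transvection i j _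
    rw [← e5]
  rw [e6]
  exact key _

theorem chi_diagonal {n : ℕ} (D : Fin n → F) (h : (Matrix.diagonal D).det ≠ 0) :
    chi n F (Matrix.GeneralLinearGroup.mkOfDetNeZero _ h) = md (Matrix.diagonal D).det := by
  have hD : ∀ i, D i ≠ 0 := by
    rw [Matrix.det_diagonal, Finset.prod_ne_zero_iff] at h
    exact fun i => h i (Finset.mem_univ i)
  have i1 := contSMulLE F (Fin n → F)
  let _ : MeasurableSpace F := borel F
  have i2 : BorelSpace F := ⟨rfl⟩
  let μ : Measure F := addHaar
  let s : Set F := Metric.closedBall (0 : F) 1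
  have hs1 : μ s ≠ ∞ := (isCompact_closedBall 0 1).measure_lt_top.ne
  have hs0 : μ s ≠ 0 := (Metric.measure_closedBall_pos μ 0 one_pos).ne'
  let ν : Measure (Fin n → F) := Measure.pi (fun _ => μ)
  have e1 : ν (Set.pi Set.univ fun _ => s) = (μ s) ^ n := by
    simp [ν, Measure.pi_pi]
  have e2 : (glv n F (Matrix.GeneralLinearGroup.mkOfDetNeZero _ h)) •
      (Set.pi Set.univ fun _ : Fin n => s) = Set.pi Set.univ fun i => (fun y => D i * y) '' s := by
    ext x
    constructor
    · rintro ⟨y, hy, rfl⟩ i _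
      refine ⟨y i, hy i (Set.mem_univ i), ?_⟩
      show D i * y i = (Matrix.diagonal D).mulVec y i
      rw [Matrix.mulVec_diagonal]
    · intro hx
      choose y hy hxy using fun i => hx i (Set.mem_univ i)
      refine ⟨y, fun i _ => hy i, ?_⟩
      funext i
      show (Matrix.diagonal D).mulVec y i = x i
      rw [Matrix.mulVec_diagonal, ← hxy i]
  have e3 : ν (Set.pi Set.univ fun i => (fun y => D i * y) '' s) =
      ((∏ i, md (D i) : ℝ≥0) : ℝ≥0∞) * (μ s) ^ n := by
    rw [Measure.pi_pi]
    simp_rw [md_image μ (hD _)]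
    rw [Finset.prod_mul_distrib, Finset.prod_const, Finset.card_univ, Fintype.card_fin]
    push_cast
    rfl
  have e4 : chi n F (Matrix.GeneralLinearGroup.mkOfDetNeZero _ h) = ∏ i, md (D i) := by
    show distribHaarChar (Fin n → F) (glv n F (Matrix.GeneralLinearGroup.mkOfDetNeZero _ h)) = _
    apply distribHaarChar_eq_of_measure_smul_eq_mul (μ := ν) (s := Set.pi Set.univ fun _ => s)
    · rw [e1]
      exact pow_ne_zero _ hs0
    · rw [e1]
      exact ENNReal.pow_ne_top hs1
    · rw [e2, e3, e1]
  have e5 : ∀ t : Finset (Fin n), md (∏ i ∈ t, D i) = ∏ i ∈ t, md (D i) := by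
    classical
    intro t
    induction t using Finset.induction_on with
    | empty => simp [md_one]
    | insert a t ha ih => rw [Finset.prod_insert ha, Finset.prod_insert ha, md_mul, ih]
  rw [e4, Matrix.det_diagonal, e5]

theorem chi_eq {n : ℕ} (M : Matrix (Fin n) (Fin n) F) (h : M.det ≠ 0) :
    chi n F (Matrix.GeneralLinearGroup.mkOfDetNeZero M h) = md M.det := by
  have key : ∀ h : M.det ≠ 0,
      chi n F (Matrix.GeneralLinearGroup.mkOfDetNeZero M h) = md M.det := by
    refine Matrix.diagonal_transvection_induction_of_det_ne_zero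
      (fun M => ∀ h : M.det ≠ 0,
        chi n F (Matrix.GeneralLinearGroup.mkOfDetNeZero M h) = md M.det) M h ?_ ?_ ?_
    · intro D _ h
      exact chi_diagonal D h
    · intro t h
      have h1 : t.toMatrix.det = 1 := by simp
      rw [h1, md_one]
      exact chi_transvection t.i t.j t.hij t.c h
    · intro A B hA hB h1 h2 h
      have e1 : Matrix.GeneralLinearGroup.mkOfDetNeZero (A * B) h =
          Matrix.GeneralLinearGroup.mkOfDetNeZero A hA *
            Matrix.GeneralLinearGroup.mkOfDetNeZero B hB := by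
        apply Units.ext
        rfl
      rw [e1, map_mul, h1 hA, h2 hB, Matrix.det_mul, md_mul]
  exact key h

end

section

variable {F : Type} [NontriviallyNormedField F] [ProperSpace F] {V : Type} [NormedAddCommGroup V]
  [NormedSpace F V] [FiniteDimensional F V] [MeasurableSpace V] [BorelSpace V]

/-- A linear automorphism `T` scales Haar measure by the module of `det T`. -/
theorem image_linearEquiv (μ : Measure V) [μ.IsAddHaarMeasure] (T : V ≃ₗ[F] V) (s : Set V) :
    μ (T '' s) = md (LinearMap.det (T : V →ₗ[F] V)) * μ s := by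
  have i0 : ProperSpace V := FiniteDimensional.proper F V
  have i1 := contSMulLE F (Fin (Module.finrank F V) → F)
  let e : V ≃L[F] (Fin (Module.finrank F V) → F) :=
    (Module.finBasis F V).equivFun.toContinuousLinearEquiv
  let _ : MeasurableSpace F := borel F
  have i2 : BorelSpace F := ⟨rfl⟩
  let ν : Measure (Fin (Module.finrank F V) → F) := μ.map e
  have i3 : ν.IsAddHaarMeasure := e.isAddHaarMeasure_map μ
  have hν : ∀ A : Set V, ν (e '' A) = μ A := by
    intro A
    have h1 : ν (e '' A) = μ (e ⁻¹' (e '' A)) :=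
      e.toHomeomorph.toMeasurableEquiv.map_apply _
    rw [h1, Set.preimage_image_eq _ e.injective]
  let T' : (Fin (Module.finrank F V) → F) ≃ₗ[F] (Fin (Module.finrank F V) → F) :=
    e.symm.toLinearEquiv.trans (T.trans e.toLinearEquiv)
  let M := LinearMap.toMatrix' (T'.toLinearMap)
  have hM : M.det = LinearMap.det (T : V →ₗ[F] V) := by
    simp only [M, LinearMap.det_toMatrix']
    have := LinearMap.det_conj (T : V →ₗ[F] V) e.toLinearEquiv
    rw [← this]
    congr 1
  have hM0 : M.det ≠ 0 := by
    rw [hM]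
    exact (LinearEquiv.isUnit_det' T).ne_zero
  have hT' : glv _ F (Matrix.GeneralLinearGroup.mkOfDetNeZero M hM0) = T' := by
    apply LinearEquiv.ext
    intro x
    rw [glv_apply]
    show M.mulVec x = T' x
    simp only [M]
    rw [← Matrix.toLin'_apply, Matrix.toLin'_toMatrix']
    rfl
  have h1 : e '' (T '' s) = T' • (e '' s) := by
    ext x
    constructor
    · rintro ⟨_, ⟨y, hy, rfl⟩, rfl⟩
      exact ⟨e y, ⟨y, hy, rfl⟩, by show e (T (e.symm (e y))) = _; rw [e.symm_apply_apply]⟩
    · rintro ⟨_, ⟨y, hy, rfl⟩, rfl⟩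
      exact ⟨T y, ⟨y, hy, rfl⟩, by show _ = e (T (e.symm (e y))); rw [e.symm_apply_apply]⟩
  rw [← hν, h1, ← distribHaarChar_mul ν T', hν, ← hM, ← chi_eq M hM0, ← hT']
  rfl

theorem preimage_linearEquiv (μ : Measure V) [μ.IsAddHaarMeasure] (T : V ≃ₗ[F] V) (s : Set V) :
    μ (T ⁻¹' s) = (md (LinearMap.det (T : V →ₗ[F] V)) : ℝ≥0∞)⁻¹ * μ s := by
  have h1 : md (LinearMap.det (T : V →ₗ[F] V)) ≠ 0 :=
    (md_pos (LinearEquiv.isUnit_det' T).ne_zero).ne'
  have h2 := image_linearEquiv μ T (T ⁻¹' s)
  rw [Set.image_preimage_eq _ T.surjective] at h2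
  rw [h2, ← mul_assoc, ENNReal.inv_mul_cancel (by exact_mod_cast h1) ENNReal.coe_ne_top, one_mul]

theorem map_linearEquiv (μ : Measure V) [μ.IsAddHaarMeasure] (T : V ≃ₗ[F] V) :
    μ.map T = (md (LinearMap.det (T : V →ₗ[F] V)))⁻¹ • μ := by
  have h1 : md (LinearMap.det (T : V →ₗ[F] V)) ≠ 0 :=
    (md_pos (LinearEquiv.isUnit_det' T).ne_zero).ne'
  have hT : Continuous T := T.toLinearMap.continuous_of_finiteDimensional
  ext s hs
  rw [Measure.map_apply hT.measurable hs, preimage_linearEquiv μ T, Measure.smul_apply,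
    ENNReal.smul_def, ENNReal.coe_inv h1, smul_eq_mul]

theorem integral_linearEquiv (μ : Measure V) [μ.IsAddHaarMeasure] (T : V ≃ₗ[F] V) (f : V → ℂ) :
    ∫ x, f (T x) ∂μ = (((md (LinearMap.det (T : V →ₗ[F] V)) : ℝ≥0) : ℝ) : ℂ)⁻¹ * ∫ x, f x ∂μ := by
  have hT := T.toContinuousLinearEquiv.toHomeomorph.measurableEmbedding
  have h := hT.integral_map (μ := μ) f
  have h2 : μ.map (T.toContinuousLinearEquiv.toHomeomorph) = μ.map T := rfl
  rw [h2, map_linearEquiv μ T, integral_smul_nnreal_measure, NNReal.smul_def] at h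
  have h3 : ∫ x, f (T x) ∂μ = ∫ x, f (T.toContinuousLinearEquiv.toHomeomorph x) ∂μ := rfl
  rw [h3, ← h]
  simp

/-- `addEquivAddHaarChar` of a linear automorphism. -/
theorem addEquivAddHaarChar_linearEquiv [LocallyCompactSpace V] (T : V ≃L[F] V) :
    addEquivAddHaarChar T.toContinuousAddEquiv =
      md (LinearMap.det (T.toLinearEquiv : V →ₗ[F] V)) := by
  have i0 : ProperSpace V := FiniteDimensional.proper F V
  let μ : Measure V := addHaar
  let s : Set V := Metric.closedBall (0 : V) 1
  have hs1 : μ s ≠ ∞ := (isCompact_closedBall 0 1).measure_lt_top.ne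
  have hs0 : μ s ≠ 0 := (Metric.measure_closedBall_pos μ 0 one_pos).ne'
  have h1 := addEquivAddHaarChar_smul_preimage μ (X := s) T.toContinuousAddEquiv
  have h2 := preimage_linearEquiv μ T.toLinearEquiv s
  have h3 : (T.toContinuousAddEquiv) ⁻¹' s = T.toLinearEquiv ⁻¹' s := rfl
  have h4 : md (LinearMap.det (T.toLinearEquiv : V →ₗ[F] V)) ≠ 0 :=
    (md_pos (LinearEquiv.isUnit_det' T.toLinearEquiv).ne_zero).ne'
  rw [h3, h2, ENNReal.smul_def, smul_eq_mul, ← mul_assoc] at h1
  have h5 : (addEquivAddHaarChar T.toContinuousAddEquiv : ℝ≥0∞) *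
      (md (LinearMap.det (T.toLinearEquiv : V →ₗ[F] V)) : ℝ≥0∞)⁻¹ = 1 := by
    exact (ENNReal.mul_left_inj hs0 hs1).1 (by rw [one_mul]; exact h1)
  rw [← ENNReal.coe_inv h4, ← ENNReal.coe_mul] at h5
  have h6 : addEquivAddHaarChar T.toContinuousAddEquiv *
      (md (LinearMap.det (T.toLinearEquiv : V →ₗ[F] V)))⁻¹ = 1 := by exact_mod_cast h5
  exact (mul_inv_eq_one₀ h4).1 h6

end

section ext

variable {F K : Type} [NontriviallyNormedField F] [ProperSpace F] [NontriviallyNormedField K]
  [NormedAlgebra F K] [FiniteDimensional F K] [ProperSpace K]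

/-- The module of a finite extension `K / F` is the module of the norm. -/
theorem md_norm (x : K) : md x = md (Algebra.norm F x) := by
  by_cases hx : x = 0
  · rw [hx, md_zero, Algebra.norm_zero, md_zero]
  let _ : MeasurableSpace K := borel K
  have i1 : BorelSpace K := ⟨rfl⟩
  let μ : Measure K := addHaar
  let s : Set K := Metric.closedBall (0 : K) 1
  have hs1 : μ s ≠ ∞ := (isCompact_closedBall 0 1).measure_lt_top.ne
  have hs0 : μ s ≠ 0 := (Metric.measure_closedBall_pos μ 0 one_pos).ne'
  have h1 := md_image μ hx s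
  let T : K ≃ₗ[F] K := LinearEquiv.ofBijective (LinearMap.mulLeft F x)
    ⟨mul_right_injective₀ hx, fun y => ⟨x⁻¹ * y, mul_inv_cancel_left₀ hx y⟩⟩
  have h2 := image_linearEquiv μ T s
  have h3 : LinearMap.det (T : K →ₗ[F] K) = Algebra.norm F x := by
    rw [Algebra.norm_apply]
    rfl
  have h4 : T '' s = (fun y => x * y) '' s := rfl
  rw [h4, h1, h3] at h2
  have h5 := (ENNReal.mul_left_inj hs0 hs1).1 h2
  exact_mod_cast h5

end ext

end SpW
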