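import Pool.Agent.Work.MP_3615d2_al.GK

/-!
# `GL_n(K)` is unimodular
-/

open MeasureTheory MeasureTheory.Measure Filter Topology
open scoped NNReal

namespace SpW.Hk

section

variable {K : Type} [NontriviallyNormedField K] [IsUltrametricDist K] [ProperSpace K]
  {n : Type} [Fintype n] [DecidableEq n]

instance instLCMat : LocallyCompactSpace (Matrix n n K) :=
  (inferInstance : LocallyCompactSpace (n → n → K))

/-- `g ↦ g^{-t}` -/
def thGL : GL n K ≃ₜ* GL n K where
  toFun g := trGL g⁻¹
  invFun g := trGL g⁻¹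
  left_inv g := by
    change trGL (trGL g⁻¹)⁻¹ = g
    rw [← trGL_inv, trGL_trGL, inv_inv]
  right_inv g := by
    change trGL (trGL g⁻¹)⁻¹ = g
    rw [← trGL_inv, trGL_trGL, inv_inv]
  map_mul' g h := by rw [_root_.mul_inv_rev, trGL_mul]
  continuous_toFun := continuous_trGL.comp continuous_inv
  continuous_invFun := continuous_trGL.comp continuous_inv

omit [IsUltrametricDist K] [ProperSpace K] in
theorem thGL_apply (g : GL n K) : thGL g = trGL g⁻¹ := rfl

theorem modular_symm {g : GL n K} (hg : trGL g = g) : modularCharacterFun g = 1 := by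
  borelize (GL n K)
  let μ : Measure (GL n K) := Measure.haar
  set K₀ : Set (GL n K) := (intGL K n : Set (GL n K)) with hK₀
  have hKo : IsOpen K₀ := intGL_isOpen
  have hKc : IsCompact K₀ := intGL_isCompact
  have hpos : μ K₀ ≠ 0 := (hKo.measure_pos μ ⟨1, one_mem (intGL K n)⟩).ne'
  have hfin : μ K₀ ≠ ⊤ := hKc.measure_lt_top.ne
  -- right translations
  have h1 : ∀ (h : GL n K) (U : Set (GL n K)), IsOpen U →
      μ ((fun x => x * h) ⁻¹' U) = modularCharacterFun h • μ U := by
    intro h U hU
    have h2 := measure_isHaarMeasure_eq_smul_of_isOpen (map (· * h) μ) μ hU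
    rw [← modularCharacterFun_eq_haarScalarFactor μ h,
      Measure.map_apply (measurable_mul_const h) hU.measurableSet] at h2
    exact h2
  -- the automorphism
  have hth : ∀ x, thGL x ∈ K₀ ↔ x ∈ K₀ := by
    intro x
    have h3 : ∀ x : GL n K, x ∈ K₀ → thGL x ∈ K₀ := by
      rintro x ⟨ha, hb⟩
      exact ⟨fun i j => hb j i, fun i j => ha j i⟩
    constructor
    · intro h
      have h4 := h3 _ h
      have h5 : thGL (thGL x) = x := (thGL (K := K) (n := n)).left_inv x
      rwa [h5] at h4
    · exact h3 x
  have h6 : ∀ U : Set (GL n K), IsOpen U → μ (thGL ⁻¹' U) = μ U := by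
    have hm : IsHaarMeasure (map (thGL (K := K) (n := n)) μ) :=
      (thGL (K := K) (n := n)).isHaarMeasure_map μ
    have h7 : ∀ U : Set (GL n K), IsOpen U → μ (thGL ⁻¹' U) =
        haarScalarFactor (map (thGL (K := K) (n := n)) μ) μ • μ U := by
      intro U hU
      have h2 := measure_isHaarMeasure_eq_smul_of_isOpen (map (thGL (K := K) (n := n)) μ) μ hU
      have hmeas : Measurable (thGL : GL n K → GL n K) :=
        (thGL (K := K) (n := n)).continuous.measurable
      rw [Measure.map_apply hmeas hU.measurableSet] at h2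
      exact h2
    have h8 : haarScalarFactor (map (thGL (K := K) (n := n)) μ) μ = 1 := by
      have h9 := h7 K₀ hKo
      have h10 : (thGL ⁻¹' K₀ : Set (GL n K)) = K₀ := Set.ext hth
      rw [h10, ENNReal.smul_def, smul_eq_mul] at h9
      have h11 : ((haarScalarFactor (map (thGL (K := K) (n := n)) μ) μ : ℝ≥0) : ENNReal) * μ K₀ =
          1 * μ K₀ := by rw [← h9, one_mul]
      have h12 := (ENNReal.mul_left_inj hpos hfin).1 h11
      exact_mod_cast h12
    intro U hU
    rw [h7 U hU, h8, one_smul]
  -- symmetric elements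
  have hU : IsOpen ((fun x : GL n K => x * g) ⁻¹' K₀) :=
    hKo.preimage (continuous_id.mul continuous_const)
  have h13 := h6 _ hU
  have h14 : (thGL ⁻¹' ((fun x : GL n K => x * g) ⁻¹' K₀) : Set (GL n K)) =
      (fun x : GL n K => x * g⁻¹) ⁻¹' K₀ := by
    ext x
    simp only [Set.mem_preimage]
    rw [← hth (x * g⁻¹), map_mul]
    have : thGL g⁻¹ = g := by rw [thGL_apply, inv_inv, hg]
    rw [this]
  rw [h14, h1 g⁻¹ K₀ hKo, h1 g K₀ hKo, ENNReal.smul_def, ENNReal.smul_def, smul_eq_mul,
    smul_eq_mul] at h13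
  have h15 := (ENNReal.mul_left_inj hpos hfin).1 h13
  have h16 : modularCharacterFun g⁻¹ = modularCharacterFun g := by exact_mod_cast h15
  have h17 : modularCharacterFun g * modularCharacterFun g⁻¹ = 1 := by
    rw [← modularCharacterFun_map_mul, mul_inv_cancel, modularCharacterFun_map_one]
  rw [h16, ← sq] at h17
  exact (pow_eq_one_iff_of_nonneg zero_le two_ne_zero).1 h17

theorem modular_eq_one (g : GL n K) : modularCharacterFun g = 1 := by
  obtain ⟨s, hs, hsu, hsx⟩ := exists_symm (g : Matrix n n K)
  set S : GL n K := Matrix.nonsingInvUnit s hsu with hS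
  have hSv : ((S : GL n K) : Matrix n n K) = s := rfl
  have h1 : trGL S = S := by
    apply Units.ext
    exact hs
  have h2 : trGL (g * S) = g * S := by
    apply Units.ext
    change ((g : Matrix n n K) * s).transpose = (g : Matrix n n K) * s
    rw [Matrix.transpose_mul, hs]
    exact hsx.symm
  have h3 : trGL S⁻¹ = S⁻¹ := by rw [trGL_inv, h1]
  have h4 : g = (g * S) * S⁻¹ := by rw [mul_inv_cancel_right]
  rw [h4, modularCharacterFun_map_mul, modular_symm h2, modular_symm h3, one_mul]

/-- Haar measure of `GL_n(K)` is right invariant. -/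
theorem haar_right [MeasurableSpace (GL n K)] [BorelSpace (GL n K)] (μ : Measure (GL n K))
    [μ.IsHaarMeasure] [μ.Regular] : μ.IsMulRightInvariant := by
  refine ⟨fun g => ?_⟩
  have h1 : Regular (map (· * g) μ) := Regular.map (Homeomorph.mulRight g)
  have h2 := isMulLeftInvariant_eq_smul_of_regular (map (· * g) μ) μ
  rw [← modularCharacterFun_eq_haarScalarFactor μ g, modular_eq_one, one_smul] at h2
  exact h2

end

end SpW.Hk
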