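import Pool.Agent.Work.MP_3615d2_al.HeisCond

/-!
MP_3615d2_al, A9: integrals of functions which transform by characters.
-/

open MeasureTheory Metric Set
open scoped NNReal ENNReal

namespace SpW.LemI

section A

variable {F : Type} [NontriviallyNormedField F]
variable {V : Type} [NormedAddCommGroup V] [NormedSpace F V]

theorem ball_add [IsUltrametricDist V] {ε : ℝ} {x y : V} (hx : ‖x‖ ≤ ε) (hy : ‖y‖ ≤ ε) :
    ‖x + y‖ ≤ ε :=
  (IsUltrametricDist.norm_add_le_max x y).trans (max_le hx hy)

theorem ball_sub [IsUltrametricDist V] {ε : ℝ} {x y : V} (hx : ‖x‖ ≤ ε) (hy : ‖y‖ ≤ ε) :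
    ‖x - y‖ ≤ ε := by
  rw [sub_eq_add_neg]
  exact ball_add hx (by rwa [norm_neg])

/-- Stability of a ball under translation. -/
theorem ball_add_iff [IsUltrametricDist V] {ε r : ℝ} (hr : ε ≤ r) {x y : V} (hy : ‖y‖ ≤ ε) :
    ‖x + y‖ ≤ r ↔ ‖x‖ ≤ r := by
  constructor
  · intro h
    have : x = (x + y) - y := by abel
    rw [this]
    exact ball_sub h (hy.trans hr)
  · intro h
    exact ball_add h (hy.trans hr)

variable [MeasurableSpace V] [BorelSpace V]

/-- A nontrivial character has integral zero over a ball. -/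
theorem char_int [IsUltrametricDist V] (μ : Measure V) [μ.IsAddRightInvariant] {ε : ℝ}
    (χ : V → Circle)
    (hχ : ∀ x y, ‖x‖ ≤ ε → ‖y‖ ≤ ε → χ (x + y) = χ x * χ y) (l0 : V) (h0 : ‖l0‖ ≤ ε)
    (h1 : χ l0 ≠ 1) : ∫ x in closedBall (0 : V) ε, ((χ x : Circle) : ℂ) ∂μ = 0 := by
  rw [← integral_indicator isClosed_closedBall.measurableSet]
  set g : V → ℂ := (closedBall (0 : V) ε).indicator (fun x => ((χ x : Circle) : ℂ)) with hg
  have key : ∀ x, g (x + l0) = ((χ l0 : Circle) : ℂ) * g x := by
    intro x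
    by_cases hx : x ∈ closedBall (0 : V) ε
    · have hx' : x + l0 ∈ closedBall (0 : V) ε := by
        rw [mem_closedBall_zero_iff] at hx ⊢
        exact ball_add hx h0
      rw [hg, indicator_of_mem hx', indicator_of_mem hx]
      rw [mem_closedBall_zero_iff] at hx
      rw [hχ x l0 hx h0, Circle.coe_mul, mul_comm]
    · have hx' : x + l0 ∉ closedBall (0 : V) ε := by
        rw [mem_closedBall_zero_iff] at hx ⊢
        intro h
        exact hx ((ball_add_iff le_rfl h0).1 h)
      rw [hg, indicator_of_notMem hx', indicator_of_notMem hx, mul_zero]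
  have h2 : ∫ x, g x ∂μ = ((χ l0 : Circle) : ℂ) * ∫ x, g x ∂μ := by
    conv_lhs => rw [← integral_add_right_eq_self g l0]
    simp_rw [key]
    rw [integral_const_mul]
  have h3 : (1 - ((χ l0 : Circle) : ℂ)) * ∫ x, g x ∂μ = 0 := by
    rw [sub_mul, one_mul, ← h2, sub_self]
  rcases mul_eq_zero.1 h3 with h4 | h4
  · exfalso
    apply h1
    apply Circle.ext
    rw [sub_eq_zero] at h4
    simpa using h4.symm
  · exact h4

/-- Continuity of a bilinear map. -/
theorem bil_cont {U W : Type} [NormedAddCommGroup U] [NormedSpace F U] [NormedAddCommGroup W]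
    [NormedSpace F W] [CompleteSpace F] [FiniteDimensional F U] [FiniteDimensional F W]
    (θ : U →ₗ[F] W →ₗ[F] F) : Continuous (fun p : U × W => θ p.1 p.2) := by
  set T : U →ₗ[F] (W →L[F] F) :=
    (LinearMap.toContinuousLinearMap (𝕜 := F) (E := W) (F' := F)).toLinearMap ∘ₗ θ with hT
  have hc : Continuous T := T.continuous_of_finiteDimensional
  have h2 : Continuous (fun p : U × W => T p.1 p.2) :=
    (hc.comp continuous_fst).clm_apply continuous_snd
  exact h2

/-- Stability: the integral over a bounded set on which all characters are nontrivial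
vanishes. -/
theorem stab [ProperSpace F] [FiniteDimensional F V] [IsUltrametricDist V] (μ : Measure V)
    [μ.IsAddHaarMeasure] {ψ : AddChar F Circle} (hψ : Continuous ψ) {ε : ℝ} (hε : 0 < ε)
    {A : Set V} (hAm : MeasurableSet A) (hAb : Bornology.IsBounded A)
    (hAs : ∀ w x, ‖x‖ ≤ ε → (w + x ∈ A ↔ w ∈ A)) {f : V → ℂ} (hf : Continuous f)
    (θ : V →ₗ[F] V →ₗ[F] F)
    (hfχ : ∀ w x, ‖x‖ ≤ ε → f (w + x) = ((ψ (θ w x) : Circle) : ℂ) * f w)
    (hnt : ∀ w ∈ A, ∃ x, ‖x‖ ≤ ε ∧ ψ (θ w x) ≠ 1) : ∫ w in A, f w ∂μ = 0 := by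
  have : ProperSpace V := FiniteDimensional.proper F V
  rw [← integral_indicator hAm]
  set g : V → ℂ := A.indicator f with hg
  have hfi : IntegrableOn f (closure A) μ :=
    hf.continuousOn.integrableOn_compact (hAb.isCompact_closure)
  have hgi : Integrable g μ := by
    rw [hg, integrable_indicator_iff hAm]
    exact hfi.mono_set subset_closure
  have key : ∀ x, ‖x‖ ≤ ε → ∀ w, g (w + x) = ((ψ (θ w x) : Circle) : ℂ) * g w := by
    intro x hx w
    by_cases hw : w ∈ A
    · rw [hg, indicator_of_mem ((hAs w x hx).2 hw), indicator_of_mem hw, hfχ w x hx]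
    · rw [hg, indicator_of_notMem (fun h => hw ((hAs w x hx).1 h)), indicator_of_notMem hw,
        mul_zero]
  have h1 : ∀ x ∈ closedBall (0 : V) ε,
      ∫ w, ((ψ (θ w x) : Circle) : ℂ) * g w ∂μ = ∫ w, g w ∂μ := by
    intro x hx
    rw [mem_closedBall_zero_iff] at hx
    rw [← integral_add_right_eq_self g x]
    exact integral_congr_ae (Filter.Eventually.of_forall fun w => (key x hx w).symm)
  have h2 : ∫ x in closedBall (0 : V) ε, (∫ w, ((ψ (θ w x) : Circle) : ℂ) * g w ∂μ) ∂μ =
      (μ.real (closedBall (0 : V) ε) : ℂ) * ∫ w, g w ∂μ := by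
    rw [setIntegral_congr_fun isClosed_closedBall.measurableSet h1, setIntegral_const]
    simp [Complex.real_smul]
  have hmeas : Continuous (fun p : V × V => ((ψ (θ p.2 p.1) : Circle) : ℂ)) := by
    have := bil_cont θ
    exact continuous_subtype_val.comp (hψ.comp (this.comp continuous_swap))
  have : IsFiniteMeasure (μ.restrict (closedBall (0 : V) ε)) :=
    ⟨by rw [Measure.restrict_apply_univ]; exact (isCompact_closedBall (0 : V) ε).measure_lt_top⟩
  have hint : Integrable (Function.uncurry fun (x w : V) => ((ψ (θ w x) : Circle) : ℂ) * g w)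
      ((μ.restrict (closedBall (0 : V) ε)).prod μ) := by
    have hg2 : Integrable (fun p : V × V => g p.2)
        ((μ.restrict (closedBall (0 : V) ε)).prod μ) := by
      have := (integrable_const (μ := μ.restrict (closedBall (0 : V) ε)) (1 : ℂ)).mul_prod hgi
      simpa using this
    refine Integrable.mono hg2 ?_ ?_
    · exact (hmeas.aestronglyMeasurable.mul hg2.aestronglyMeasurable)
    · refine Filter.Eventually.of_forall fun p => ?_
      simp only [Function.uncurry, norm_mul, Circle.norm_coe, one_mul]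
      exact le_rfl
  have h3 := integral_integral_swap hint
  rw [h2] at h3
  have h4 : ∀ w, ∫ x in closedBall (0 : V) ε, ((ψ (θ w x) : Circle) : ℂ) * g w ∂μ = 0 := by
    intro w
    rw [integral_mul_const]
    by_cases hw : w ∈ A
    · obtain ⟨x0, hx0, hx1⟩ := hnt w hw
      rw [char_int μ (fun x => ψ (θ w x)) ?_ x0 hx0 hx1, zero_mul]
      intro x y _ _
      rw [map_add, AddChar.map_add_eq_mul]
    · rw [hg, indicator_of_notMem hw, mul_zero]
  simp_rw [h4] at h3
  rw [integral_zero] at h3
  rcases mul_eq_zero.1 h3 with h5 | h5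
  · exfalso
    have : 0 < μ.real (closedBall (0 : V) ε) := by
      rw [Measure.real, ENNReal.toReal_pos_iff]
      exact ⟨measure_closedBall_pos μ 0 hε, (isCompact_closedBall (0 : V) ε).measure_lt_top⟩
    have h6 : μ.real (closedBall (0 : V) ε) = 0 := by exact_mod_cast h5
    linarith
  · exact h5

end A

end SpW.LemI
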