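import Pool.Agent.Work.MP_3615d2_al.DualA
import Pool.Agent.Work.MP_3615d2_al.LemA
import Pool.Agent.Work.MP_3615d2_al.ModDet

/-!
MP_3615d2_al: the normalisation of the smooth dual of a Weil representation.
-/

open MeasureTheory Metric Set
open scoped NNReal

namespace SpW

section vec

variable {X : Type} [TopologicalSpace X] [MeasurableSpace X] [BorelSpace X]
  {W : Type} [AddCommGroup W] [Module ℂ W]

/-- The integral over a compact set of a locally constant function with values in a complex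
vector space without topology. -/
theorem exists_vec (μ : Measure X) [IsFiniteMeasureOnCompacts μ] (f : X → W)
    (hf : IsLocallyConstant f) {K : Set X} (hK : IsCompact K) (hKm : MeasurableSet K) :
    ∃ v₀ : W, ∀ Ξ : W →ₗ[ℂ] ℂ, ∫ w in K, Ξ (f w) ∂μ = Ξ v₀ := by
  classical
  have hfin : (f '' K).Finite := by
    let _ : TopologicalSpace W := ⊥
    have : DiscreteTopology W := ⟨rfl⟩
    exact (hK.image hf.continuous).finite_of_discrete
  refine ⟨∑ x ∈ hfin.toFinset, ((μ (K ∩ f ⁻¹' {x})).toReal : ℂ) • x, fun Ξ => ?_⟩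
  have h1 : ∀ w ∈ K, Ξ (f w) =
      ∑ x ∈ hfin.toFinset, (f ⁻¹' {x}).indicator (fun _ => Ξ x) w := by
    intro w hw
    rw [Finset.sum_eq_single (f w)]
    · rw [indicator_of_mem (by simp)]
    · intro b _ hb
      rw [indicator_of_notMem]
      intro h
      exact hb h.symm
    · intro h
      exact absurd (hfin.mem_toFinset.2 ⟨w, hw, rfl⟩) h
  have hm : ∀ x, MeasurableSet (f ⁻¹' {x}) := fun x => (hf.isOpen_fiber x).measurableSet
  haveI : IsFiniteMeasure (μ.restrict K) := ⟨by
    rw [Measure.restrict_apply_univ]; exact hK.measure_lt_top⟩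
  rw [setIntegral_congr_fun hKm h1, integral_finset_sum]
  · rw [map_sum]
    refine Finset.sum_congr rfl fun x _ => ?_
    rw [integral_indicator (hm x), setIntegral_const, map_smul]
    simp only [Measure.real, Measure.restrict_apply (hm x), smul_eq_mul, Complex.real_smul]
    rw [inter_comm]
  · intro x _
    exact (integrable_const (Ξ x)).indicator (hm x)

end vec

section nontriv

variable {F : Type} [NontriviallyNormedField F] [ProperSpace F]
variable {V : Type} [NormedAddCommGroup V] [NormedSpace F V] [FiniteDimensional F V]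

/-- For a nondegenerate bilinear form, far away vectors give characters that are nontrivial on a
given ball. -/
theorem exists_far {ψ : AddChar F Circle} (h1 : ψ ≠ 1) (θ : V →ₗ[F] V →ₗ[F] F)
    (hθ : ∀ w, (∀ x, θ w x = 0) → w = 0) {ε : ℝ} (hε : 0 < ε) :
    ∃ r₀ : ℝ, ∀ w, r₀ < ‖w‖ → ∃ x, ‖x‖ ≤ ε ∧ ψ (θ w x) ≠ 1 := by
  obtain ⟨a₀, ha₀⟩ : ∃ a, ψ a ≠ 1 := by
    by_contra h
    push Not at h
    exact h1 (DFunLike.ext _ _ h)
  have ha0 : a₀ ≠ 0 := by
    rintro rfl
    exact ha₀ (AddChar.map_zero_eq_one ψ)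
  let b := Module.finBasis F V
  let T : V →ₗ[F] (Fin (Module.finrank F V) → F) := LinearMap.pi fun j => θ.flip (b j)
  have hT : ∀ w j, T w j = θ w (b j) := fun w j => rfl
  have hinj : T.ker = ⊥ := by
    rw [LinearMap.ker_eq_bot']
    intro w hw
    apply hθ
    intro x
    rw [← b.sum_repr x, map_sum]
    refine Finset.sum_eq_zero fun j _ => ?_
    rw [map_smul, ← hT w j, hw, Pi.zero_apply, smul_zero]
  obtain ⟨K, hK, hanti⟩ := T.exists_antilipschitzWith hinj
  set M : ℝ := ∑ j, ‖a₀‖ * ‖b j‖ / ε with hM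
  refine ⟨K * M, fun w hw => ?_⟩
  have h2 : ‖w‖ ≤ K * ‖T w‖ := by
    have := hanti.le_mul_dist w 0
    simpa [dist_eq_norm] using this
  have hMT : M < ‖T w‖ := by
    have : (K : ℝ) * M < K * ‖T w‖ := lt_of_lt_of_le hw h2
    exact lt_of_mul_lt_mul_left this K.2
  have hM0 : 0 ≤ M := Finset.sum_nonneg fun j _ => by positivity
  obtain ⟨j, hj⟩ : ∃ j, M < ‖T w j‖ := by
    by_contra h
    push Not at h
    have := (pi_norm_le_iff_of_nonneg hM0).2 h
    linarith
  have hb : T w j ≠ 0 := by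
    intro h
    rw [h, norm_zero] at hj
    linarith
  have hMj : ‖a₀‖ * ‖b j‖ / ε ≤ M :=
    Finset.single_le_sum (f := fun j => ‖a₀‖ * ‖b j‖ / ε) (fun i _ => by positivity)
      (Finset.mem_univ j)
  refine ⟨(a₀ / T w j) • b j, ?_, ?_⟩
  · rw [norm_smul, norm_div, div_mul_eq_mul_div, div_le_iff₀ (norm_pos_iff.2 hb)]
    have h3 : ‖a₀‖ * ‖b j‖ ≤ ‖T w j‖ * ε := by
      rw [← div_le_iff₀ hε]
      linarith
    linarith
  · rw [map_smul, ← hT w j, smul_eq_mul, div_mul_cancel₀ _ hb]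
    exact ha₀

end nontriv

section cay

variable {F E : Type} [Field F] [Field E] [Algebra F E] {σ : E ≃ₐ[F] E} {δ : E} {d : F} {N : ℕ}
  {H : Matrix (Fin N) (Fin N) E}

theorem unitary_matrix (g : unitary σ H) :
    (umat g).transpose * H * (umat g).map σ = H := by
  ext i j
  have h := sk_unitary g (Pi.single i 1) (Pi.single j 1)
  have e1 : ∀ x y : Fin N → E, sk σ H ((umat g).mulVec x) ((umat g).mulVec y) =
      sk σ ((umat g).transpose * H * (umat g).map σ) x y := by
    intro x y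
    have hm : (fun k => σ ((umat g).mulVec y k)) = ((umat g).map σ).mulVec (fun k => σ (y k)) := by
      funext k
      simp [Matrix.mulVec, dotProduct, map_sum]
    rw [sk_eq_dot, sk_eq_dot, hm, Matrix.dotProduct_mulVec, Matrix.vecMul_vecMul]
    congr 1
    rw [← Matrix.vecMul_transpose, Matrix.vecMul_vecMul]
    simp [Matrix.mul_assoc]
  have e2 : ∀ M : Matrix (Fin N) (Fin N) E, sk σ M (Pi.single i 1) (Pi.single j 1) = M i j := by
    intro M
    have h3 : (fun k => σ ((Pi.single j (1 : E) : Fin N → E) k)) = Pi.single j 1 := by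
      funext k
      by_cases hk : k = j
      · subst hk; simp
      · simp [Pi.single_eq_of_ne hk]
    rw [sk_eq_dot, h3, dotProduct_single, mul_one, Matrix.single_one_vecMul, Matrix.row_apply]
  rw [e1, e2, e2] at h
  exact h

/-- `det (g⁻¹ - 1) = σ (det (g - 1))` for `g` unitary. -/
theorem det_inv_sub_one (hH : IsSkew σ H) (g : unitary σ H) :
    (umat g⁻¹ - 1).det = σ (umat g - 1).det := by
  have h1 := unitary_matrix g⁻¹
  have h2 : σ (umat g - 1).det = ((umat g).map σ - 1).det := by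
    have := RingHom.map_det (σ : E →+* E) (umat g - 1)
    have h3 : (σ : E →+* E).mapMatrix (umat g - 1) = (umat g).map σ - 1 := by
      ext i j
      simp [Matrix.one_apply]
    rw [h3] at this
    exact this
  have hgg : (umat g⁻¹).map σ * (umat g).map σ = 1 := by
    rw [← Matrix.map_mul, ← umat_mul, inv_mul_cancel, umat_one]
    ext i j
    simp [Matrix.one_apply]
  -- `g⁻ᵀ H = H σ(g)`
  have h4 : (umat g⁻¹).transpose * H = H * (umat g).map σ := by
    calc (umat g⁻¹).transpose * H = (umat g⁻¹).transpose * H *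
        ((umat g⁻¹).map σ * (umat g).map σ) := by rw [hgg, mul_one]
      _ = ((umat g⁻¹).transpose * H * (umat g⁻¹).map σ) * (umat g).map σ := by
        simp only [Matrix.mul_assoc]
      _ = H * (umat g).map σ := by rw [h1]
  have h5 : ((umat g⁻¹).transpose - 1) * H = H * ((umat g).map σ - 1) := by
    rw [Matrix.sub_mul, Matrix.mul_sub, h4, one_mul, mul_one]
  have h6 := congrArg Matrix.det h5
  rw [Matrix.det_mul, Matrix.det_mul, mul_comm] at h6
  have h7 := mul_left_cancel₀ hH.det_ne h6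
  rw [h2, ← h7, ← Matrix.det_transpose, Matrix.transpose_sub, Matrix.transpose_one]

theorem isUnit_sub_one {g : unitary σ H} {d' : Eˣ} (hd : (d' : E) = (umat g - 1).det) :
    IsUnit (umat g - 1) := by
  rw [Matrix.isUnit_iff_isUnit_det, ← hd]
  exact d'.isUnit

theorem umat_mul_inv (g : unitary σ H) : umat g * umat g⁻¹ = 1 := by
  rw [← umat_mul, mul_inv_cancel, umat_one]

theorem umat_inv_mul (g : unitary σ H) : umat g⁻¹ * umat g = 1 := by
  rw [← umat_mul, inv_mul_cancel, umat_one]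

end cay

section cay2

variable {F E : Type} [NontriviallyNormedField F] [NontriviallyNormedField E] [NormedAlgebra F E]
  {σ : E ≃ₐ[F] E} {δ : E} {d : F} {N : ℕ} {H : Matrix (Fin N) (Fin N) E}

theorem cayley_mul {g : unitary σ H} (hu : IsUnit (umat g - 1)) :
    cayley (umat g) * (umat g - 1) = umat g + 1 := by
  unfold cayley
  rw [Matrix.mul_assoc, Matrix.nonsing_inv_mul _ ((Matrix.isUnit_iff_isUnit_det _).1 hu), mul_one]

theorem cayley_inv {g : unitary σ H} (hu : IsUnit (umat g - 1)) (hu' : IsUnit (umat g⁻¹ - 1)) :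
    cayley (umat g⁻¹) = - cayley (umat g) := by
  have h1 := cayley_mul hu
  have h2 := cayley_mul hu'
  -- `(g⁻¹ - 1) g = -(g - 1)`
  have h3 : (umat g⁻¹ - 1) * umat g = -(umat g - 1) := by
    rw [Matrix.sub_mul, umat_inv_mul, one_mul, neg_sub]
  have h4 : (umat g⁻¹ + 1) * umat g = umat g + 1 := by
    rw [Matrix.add_mul, umat_inv_mul, one_mul, add_comm]
  have h5 : cayley (umat g⁻¹) * (umat g - 1) = -cayley (umat g) * (umat g - 1) := by
    have h6 : cayley (umat g⁻¹) * ((umat g⁻¹ - 1) * umat g) = umat g + 1 := by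
      rw [← Matrix.mul_assoc, h2, h4]
    rw [h3, Matrix.mul_neg] at h6
    rw [Matrix.neg_mul, h1, ← h6, neg_neg]
  exact hu.mul_right_cancel h5

theorem cayley_adj {g : unitary σ H}
    (hu : IsUnit (umat g - 1)) (x y : Fin N → E) :
    sk σ H ((cayley (umat g)).mulVec x) y = - sk σ H x ((cayley (umat g)).mulVec y) := by
  have hs : ∀ z : Fin N → E, ∃ z', z = (umat g - 1).mulVec z' := by
    intro z
    refine ⟨(umat g - 1)⁻¹.mulVec z, ?_⟩
    rw [Matrix.mulVec_mulVec, Matrix.mul_nonsing_inv _ ((Matrix.isUnit_iff_isUnit_det _).1 hu),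
      Matrix.one_mulVec]
  obtain ⟨x', rfl⟩ := hs x
  obtain ⟨y', rfl⟩ := hs y
  rw [Matrix.mulVec_mulVec, Matrix.mulVec_mulVec, cayley_mul hu, Matrix.add_mulVec,
    Matrix.add_mulVec, Matrix.sub_mulVec, Matrix.sub_mulVec, Matrix.one_mulVec, Matrix.one_mulVec]
  simp only [sk_add_left, sk_add_right, sk_sub_left, sk_sub_right]
  rw [sk_unitary]
  ring

end cay2

section main

variable {F E : Type} [NontriviallyNormedField F] [IsUltrametricDist F] [ProperSpace F]
  [NontriviallyNormedField E] [NormedAlgebra F E] [IsUltrametricDist E]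
  [ProperSpace E] [MeasurableSpace E] [BorelSpace E]
  {σ : E ≃ₐ[F] E} {δ : E} {d : F} {N : ℕ} {H : Matrix (Fin N) (Fin N) E}
  {ψ : AddChar F Circle} {μ : Eˣ →* ℂˣ} {S : Type} [AddCommGroup S] [Module ℂ S]
  {ρ : (Fin N → E) → Module.End ℂ S} {ω : unitary σ H →* Module.End ℂ S}

omit [IsUltrametricDist F] [IsUltrametricDist E] in
theorem absE_sig (hq : QuadDatum σ δ d) (d' d'' : Eˣ) (h : (d'' : E) = σ d') :
    absE d'' = absE d' := by
  have := hq.finite
  have h1 : Algebra.norm F (d'' : E) = Algebra.norm F (d' : E) := by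
    apply (algebraMap F E).injective
    rw [hq.norm_eq, hq.norm_eq, h, sig_sig hq, mul_comm]
  unfold absE
  rw [← md_units, ← md_units, md_norm (F := F), md_norm (F := F) (d' : E), h1]

omit [IsUltrametricDist F] [ProperSpace F] [IsUltrametricDist E] [ProperSpace E]
  [MeasurableSpace E] [BorelSpace E] in
theorem mu_sig (hq : QuadDatum σ δ d) (hμ : ConjSymplectic F μ) (d' d'' : Eˣ)
    (h : (d'' : E) = σ d') : μ d'' = μ⁻¹ d' := by
  have hn : Algebra.norm F (d' : E) ≠ 0 := by
    intro h0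
    have := hq.norm_eq (d' : E)
    rw [h0, map_zero] at this
    rcases mul_eq_zero.1 this.symm with h1 | h1
    · exact d'.ne_zero h1
    · exact d'.ne_zero ((map_eq_zero σ).1 h1)
  have h2 := hμ.norm (Units.mk0 _ hn) ⟨(d' : E), rfl⟩
  have h3 : Units.map (algebraMap F E).toMonoidHom (Units.mk0 _ hn) = d' * d'' := by
    apply Units.ext
    rw [Units.val_mul, h, ← hq.norm_eq]
    rfl
  rw [h3, map_mul] at h2
  rw [MonoidHom.inv_apply]
  exact (inv_eq_of_mul_eq_one_right h2).symm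

theorem psi_locConst (hψ : Continuous ψ) {X : Type} [TopologicalSpace X] {f : X → F}
    (hf : Continuous f) : IsLocallyConstant (fun x => ψ (f x)) := by
  rw [IsLocallyConstant.iff_eventually_eq]
  intro x
  have h1 : Filter.Tendsto (fun y => f y - f x) (nhds x) (nhds 0) := by
    have h0 : Continuous fun y => f y - f x := hf.sub continuous_const
    have := h0.tendsto x
    simpa using this
  filter_upwards [h1.eventually (psi_eventually hψ)] with y hy
  have : f y = f x + (f y - f x) := by ring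
  rw [this, AddChar.map_add_eq_mul, hy, mul_one]

theorem rhoD_locConst (hW : IsWeil σ H ψ μ ρ ω) (hq : QuadDatum σ δ d) (hH : IsSkew σ H)
    (hψ : Continuous ψ) (ξ : hDual ρ) :
    IsLocallyConstant (fun w : Fin N → E => rhoD hW hq hH hψ w ξ) := by
  rw [IsLocallyConstant.iff_eventually_eq]
  intro w
  have h1 : Filter.Tendsto (fun y : Fin N → E => y - w) (nhds w) (nhds 0) := by
    have h0 : Continuous fun y : Fin N → E => y - w := continuous_id.sub continuous_const
    have := h0.tendsto w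
    simpa using this
  filter_upwards [h1.eventually (rhoD_smooth hW hq hH hψ ξ),
    h1.eventually (psi_sympl_eventually (H := H) hq hψ w (2 : F)⁻¹)] with y hy hy2
  have h3 := congrArg (fun f => f ξ) (rhoD_mul hW hq hH hψ w (y - w))
  simp only [Module.End.mul_apply, LinearMap.smul_apply, add_sub_cancel] at h3
  rw [hy, AddChar.inv_apply', hy2, inv_one] at h3
  simpa using h3.symm

theorem sympl_cay_continuous (hq : QuadDatum σ δ d) (c : Matrix (Fin N) (Fin N) E) :
    Continuous fun w : Fin N → E => sympl F σ H (c.mulVec w) w := by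
  have h1 : Continuous fun w : Fin N → E => c.mulVec w :=
    Continuous.matrix_mulVec continuous_const continuous_id
  have h2 : Continuous fun w : Fin N → E => (c.mulVec w, w) := h1.prodMk continuous_id
  have h3 := (sympl_continuous (H := H) hq).comp h2
  exact h3

/-- The vector valued integrand. -/
noncomputable def fD (hW : IsWeil σ H ψ μ ρ ω) (hq : QuadDatum σ δ d) (hH : IsSkew σ H)
    (hψ : Continuous ψ) (c : Matrix (Fin N) (Fin N) E) (ξ : hDual ρ) (w : Fin N → E) : hDual ρ :=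
  (((ψ⁻¹) ((4 : F)⁻¹ * sympl F σ H (c.mulVec w) w) : Circle) : ℂ) • rhoD hW hq hH hψ w ξ

theorem fD_locConst (hW : IsWeil σ H ψ μ ρ ω) (hq : QuadDatum σ δ d) (hH : IsSkew σ H)
    (hψ : Continuous ψ) (c : Matrix (Fin N) (Fin N) E) (ξ : hDual ρ) :
    IsLocallyConstant (fD hW hq hH hψ c ξ) := by
  have h1 : IsLocallyConstant fun w : Fin N → E =>
      ψ (-((4 : F)⁻¹ * sympl F σ H (c.mulVec w) w)) :=
    psi_locConst hψ (continuous_const.mul (sympl_cay_continuous hq c)).neg
  exact h1.comp₂ (rhoD_locConst hW hq hH hψ ξ) (fun (z : Circle) (x : hDual ρ) => (z : ℂ) • x)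

/-- The bilinear form `θ(w,x) = -⟨(c-1)w,x⟩/2`. -/
noncomputable def thB (F : Type) {E : Type} [Field F] [Field E] [Algebra F E] (σ : E ≃ₐ[F] E)
    {N : ℕ} (H : Matrix (Fin N) (Fin N) E) (c : Matrix (Fin N) (Fin N) E) :
    (Fin N → E) →ₗ[F] (Fin N → E) →ₗ[F] F :=
  (-(2 : F)⁻¹) • (symplB F σ H) ∘ₗ
    ({ toFun := fun x => (c - 1).mulVec x
       map_add' := fun x y => Matrix.mulVec_add _ _ _
       map_smul' := fun a x => mulVec_fsmul _ _ _ } : (Fin N → E) →ₗ[F] (Fin N → E))

omit [IsUltrametricDist F] [ProperSpace F] [IsUltrametricDist E] [ProperSpace E]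
  [MeasurableSpace E] [BorelSpace E] in
theorem thB_apply (c : Matrix (Fin N) (Fin N) E) (w x : Fin N → E) :
    thB F σ H c w x = -(2 : F)⁻¹ * sympl F σ H ((c - 1).mulVec w) x := rfl

omit [IsUltrametricDist F] [ProperSpace F] [IsUltrametricDist E] [ProperSpace E]
  [MeasurableSpace E] [BorelSpace E] in
theorem thB_nondeg (hq : QuadDatum σ δ d) (hH : IsSkew σ H) {g : unitary σ H}
    (hu : IsUnit (umat g - 1)) (w : Fin N → E)
    (hw : ∀ x, thB F σ H (cayley (umat g)) w x = 0) : w = 0 := by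
  have h4 : (cayley (umat g) - 1).mulVec w = 0 := by
    apply sympl_nondeg hq hH
    intro y
    have h5 := hw y
    rw [thB_apply] at h5
    rcases mul_eq_zero.1 h5 with h6 | h6
    · exact absurd (neg_eq_zero.1 h6) (inv_ne_zero hq.two)
    · exact h6
  have h5 : (cayley (umat g) - 1) * (umat g - 1) = (2 : E) • (1 : Matrix (Fin N) (Fin N) E) := by
    rw [Matrix.sub_mul, cayley_mul hu, one_mul, two_smul]
    abel
  have h6 : (umat g - 1) * (cayley (umat g) - 1) = (2 : E) • (1 : Matrix (Fin N) (Fin N) E) := by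
    have h7 : (cayley (umat g) - 1) * ((2 : E)⁻¹ • (umat g - 1)) = 1 := by
      rw [Matrix.mul_smul, h5, smul_smul, inv_mul_cancel₀ hq.two_E, one_smul]
    have h8 := mul_eq_one_comm.1 h7
    rw [Matrix.smul_mul] at h8
    have h8' := congrArg (fun M => (2 : E) • M) h8
    simp only [smul_smul, mul_inv_cancel₀ hq.two_E, one_smul] at h8'
    exact h8'
  have h9 : ((umat g - 1) * (cayley (umat g) - 1)).mulVec w =
      ((2 : E) • (1 : Matrix (Fin N) (Fin N) E)).mulVec w := by rw [h6]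
  rw [← Matrix.mulVec_mulVec, h4, Matrix.mulVec_zero, Matrix.smul_mulVec,
    Matrix.one_mulVec] at h9
  exact (smul_eq_zero.1 h9.symm).resolve_left hq.two_E

omit [IsUltrametricDist F] [ProperSpace F] [IsUltrametricDist E] [ProperSpace E]
  [MeasurableSpace E] [BorelSpace E] in
theorem phase_eq (hq : QuadDatum σ δ d) (hH : IsSkew σ H) {g : unitary σ H}
    (hu : IsUnit (umat g - 1)) (w x : Fin N → E) :
    -((4 : F)⁻¹ * sympl F σ H ((cayley (umat g)).mulVec (w + x)) (w + x)) +
      (2 : F)⁻¹ * sympl F σ H w x =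
      (thB F σ H (cayley (umat g)) w x +
        -((4 : F)⁻¹ * sympl F σ H ((cayley (umat g)).mulVec w) w)) +
        -((4 : F)⁻¹ * sympl F σ H ((cayley (umat g)).mulVec x) x) := by
  set c := cayley (umat g) with hc
  have h2F := hq.two
  have k9 : sympl F σ H (c.mulVec x) w = sympl F σ H (c.mulVec w) x := by
    rw [sympl_eq, hc, cayley_adj hu, map_neg, ← sympl_eq, sympl_swap hq hH _ x, neg_neg]
  have k8 : sympl F σ H (c.mulVec (w + x)) (w + x) = sympl F σ H (c.mulVec w) w +
      2 * sympl F σ H (c.mulVec w) x + sympl F σ H (c.mulVec x) x := by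
    rw [Matrix.mulVec_add]
    simp only [sympl_eq, sk_add_left, sk_add_right, map_add]
    simp only [← sympl_eq]
    rw [k9]
    ring
  have k10 : sympl F σ H ((c - 1).mulVec w) x = sympl F σ H (c.mulVec w) x -
      sympl F σ H w x := by
    rw [Matrix.sub_mulVec, Matrix.one_mulVec]
    simp only [sympl_eq, sk_sub_left, map_sub]
  rw [thB_apply, k8, k10]
  have : (4 : F) = 2 * 2 := by norm_num
  rw [this]
  field_simp
  ring

/-- The scalar integrand at a vector `v`. -/
noncomputable def fS (ψ : AddChar F Circle) (σ : E ≃ₐ[F] E) {N : ℕ}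
    (H c : Matrix (Fin N) (Fin N) E) (ρ : (Fin N → E) → Module.End ℂ S) (ξ : S →ₗ[ℂ] ℂ) (v : S)
    (w : Fin N → E) : ℂ :=
  (((ψ⁻¹) ((4 : F)⁻¹ * sympl F σ H (c.mulVec w) w) : Circle) : ℂ) * ξ (ρ (-w) v)

theorem fS_shift (hW : IsWeil σ H ψ μ ρ ω) (hq : QuadDatum σ δ d) (hH : IsSkew σ H)
    {g : unitary σ H} (hu : IsUnit (umat g - 1)) (ξ : S →ₗ[ℂ] ℂ) (v : S) (w x : Fin N → E)
    (k1 : ∀ v, ξ (ρ (-x) v) = ξ v)
    (k2 : ψ ((4 : F)⁻¹ * sympl F σ H ((cayley (umat g)).mulVec x) x) = 1) :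
    fS ψ σ H (cayley (umat g)) ρ ξ v (w + x) =
      ((ψ (thB F σ H (cayley (umat g)) w x) : Circle) : ℂ) *
        fS ψ σ H (cayley (umat g)) ρ ξ v w := by
  unfold fS
  have k3 : ξ (ρ (-(w + x)) v) =
      ((ψ ((2 : F)⁻¹ * sympl F σ H w x) : Circle) : ℂ) * ξ (ρ (-w) v) := by
    have k4 := congrArg (fun f => f v) (hW.rho_mul (-x) (-w))
    simp only [Module.End.mul_apply, LinearMap.smul_apply] at k4
    have k5 := congrArg ξ k4
    rw [k1, map_smul, smul_eq_mul] at k5
    have k6 : -x + -w = -(w + x) := by abel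
    rw [k6] at k5
    rw [k5, ← mul_assoc, ← Circle.coe_mul, ← AddChar.map_add_eq_mul]
    have k7 : (2 : F)⁻¹ * sympl F σ H w x + (2 : F)⁻¹ * sympl F σ H (-x) (-w) = 0 := by
      have : sympl F σ H (-x) (-w) = sympl F σ H x w := by
        rw [sympl_eq, sk_neg_left, sk_neg_right, neg_neg, ← sympl_eq]
      rw [this, sympl_swap hq hH w x]
      ring
    rw [k7, AddChar.map_zero_eq_one, Circle.coe_one, one_mul]
  rw [k3, ← mul_assoc, ← mul_assoc]
  congr 1
  rw [← Circle.coe_mul, ← Circle.coe_mul]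
  congr 1
  rw [AddChar.inv_apply, AddChar.inv_apply, ← AddChar.map_add_eq_mul,
    ← AddChar.map_add_eq_mul, phase_eq hq hH hu, AddChar.map_add_eq_mul _ _ (-_),
    AddChar.map_neg_eq_inv, k2, inv_one, mul_one]

theorem fS_stab (hW : IsWeil σ H ψ μ ρ ω) (hq : QuadDatum σ δ d) (hH : IsSkew σ H)
    (hψ : Continuous ψ) (hψ1 : ψ ≠ 1) {g : unitary σ H} (hu : IsUnit (umat g - 1))
    (ξ : hDual ρ) : ∃ r₀ : ℝ, ∀ r, r₀ ≤ r → ∀ v,
      ∫ w in closedBall (0 : Fin N → E) r, fS ψ σ H (cayley (umat g)) ρ ξ.1 v w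
        ∂(Measure.addHaar) =
      ∫ w in closedBall (0 : Fin N → E) r₀, fS ψ σ H (cayley (umat g)) ρ ξ.1 v w
        ∂(Measure.addHaar) := by
  have hfd := hq.finite
  have h1 : ∀ᶠ x in nhds (0 : Fin N → E), ∀ v, ξ.1 (ρ x v) = ξ.1 v := ξ.2
  have h1' : ∀ᶠ x in nhds (0 : Fin N → E), ∀ v, ξ.1 (ρ (-x) v) = ξ.1 v := by
    have h2 : Filter.Tendsto (fun x : Fin N → E => -x) (nhds 0) (nhds 0) := by
      have := (continuous_neg (G := Fin N → E)).tendsto 0
      rwa [neg_zero] at this
    exact h2.eventually h1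
  have h2 : ∀ᶠ x in nhds (0 : Fin N → E),
      ψ ((4 : F)⁻¹ * sympl F σ H ((cayley (umat g)).mulVec x) x) = 1 := by
    have h0 : Continuous fun x : Fin N → E =>
      (4 : F)⁻¹ * sympl F σ H ((cayley (umat g)).mulVec x) x :=
      continuous_const.mul (sympl_cay_continuous hq _)
    have h3 := h0.tendsto 0
    rw [Matrix.mulVec_zero, sympl_eq, sk_zero_left, map_zero, mul_zero] at h3
    exact h3.eventually (psi_eventually hψ)
  obtain ⟨ε', hε', hball⟩ := Metric.eventually_nhds_iff.1 (h1'.and h2)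
  set ε := ε' / 2 with hε
  have hε0 : 0 < ε := by positivity
  have hx : ∀ x : Fin N → E, ‖x‖ ≤ ε → (∀ v, ξ.1 (ρ (-x) v) = ξ.1 v) ∧
      ψ ((4 : F)⁻¹ * sympl F σ H ((cayley (umat g)).mulVec x) x) = 1 := by
    intro x hx
    apply hball
    rw [dist_zero_right]
    linarith
  obtain ⟨r₁, hr₁⟩ := exists_far hψ1 (thB F σ H (cayley (umat g))) (thB_nondeg hq hH hu) hε0
  refine ⟨max r₁ ε, fun r hr v => ?_⟩
  have hfvc : Continuous (fS ψ σ H (cayley (umat g)) ρ ξ.1 v) :=
    ((fD_locConst hW hq hH hψ (cayley (umat g)) ξ).comp (fun η : hDual ρ => η.1 v)).continuous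
  have hdiff : ∫ w in closedBall (0 : Fin N → E) r \ closedBall 0 (max r₁ ε),
      fS ψ σ H (cayley (umat g)) ρ ξ.1 v w ∂(Measure.addHaar) = 0 := by
    refine LemI.stab Measure.addHaar hψ hε0
      (isClosed_closedBall.measurableSet.diff isClosed_closedBall.measurableSet)
      (isBounded_closedBall.subset sdiff_subset) ?_ hfvc (thB F σ H (cayley (umat g))) ?_ ?_
    · intro w x hx1
      simp only [mem_sdiff, mem_closedBall_zero_iff]
      rw [LemI.ball_add_iff ((le_max_right r₁ ε).trans hr) hx1,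
        LemI.ball_add_iff (le_max_right r₁ ε) hx1]
    · intro w x hx1
      exact fS_shift hW hq hH hu ξ.1 v w x (hx x hx1).1 (hx x hx1).2
    · intro w hw
      rw [mem_sdiff, mem_closedBall_zero_iff, mem_closedBall_zero_iff, not_le] at hw
      exact hr₁ w ((le_max_left _ _).trans_lt hw.2)
  have hsub : closedBall (0 : Fin N → E) (max r₁ ε) ⊆ closedBall 0 r :=
    closedBall_subset_closedBall hr
  have hint : IntegrableOn (fS ψ σ H (cayley (umat g)) ρ ξ.1 v)
      (closedBall (0 : Fin N → E) r) Measure.addHaar :=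
    hfvc.continuousOn.integrableOn_compact (isCompact_closedBall 0 r)
  have hsplit := setIntegral_sdiff isClosed_closedBall.measurableSet hint hsub
  rw [hdiff] at hsplit
  exact sub_eq_zero.1 hsplit.symm

theorem integral_inv_eq (hq : QuadDatum σ δ d) {g : unitary σ H}
    (hu : IsUnit (umat g - 1)) (hu' : IsUnit (umat g⁻¹ - 1)) (ξ : S →ₗ[ℂ] ℂ) (v : S) (r : ℝ) :
    ∫ w in closedBall (0 : Fin N → E) r,
        ((ψ ((4 : F)⁻¹ * sympl F σ H ((cayley (umat g⁻¹)).mulVec w) w) : Circle) : ℂ)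
            * ξ (ρ w v) ∂(Measure.addHaar) =
      ∫ w in closedBall (0 : Fin N → E) r, fS ψ σ H (cayley (umat g)) ρ ξ v w
        ∂(Measure.addHaar) := by
  rw [← integral_indicator isClosed_closedBall.measurableSet,
    ← integral_indicator isClosed_closedBall.measurableSet, ← integral_neg_eq_self]
  refine integral_congr_ae (Filter.Eventually.of_forall fun w => ?_)
  by_cases hw : w ∈ closedBall (0 : Fin N → E) r
  · have hw' : -w ∈ closedBall (0 : Fin N → E) r := by
      rw [mem_closedBall_zero_iff, norm_neg]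
      exact mem_closedBall_zero_iff.1 hw
    simp only
    rw [indicator_of_mem hw, indicator_of_mem hw', cayley_inv hu hu']
    unfold fS
    congr 2
    rw [AddChar.inv_apply, Matrix.neg_mulVec, Matrix.mulVec_neg, neg_neg]
    simp only [sympl_eq, sk_neg_right, map_neg, mul_neg]
  · have hw' : -w ∉ closedBall (0 : Fin N → E) r := by
      rw [mem_closedBall_zero_iff, norm_neg]
      exact fun h => hw (mem_closedBall_zero_iff.2 h)
    simp only
    rw [indicator_of_notMem hw, indicator_of_notMem hw']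

/-- Evaluation at a vector. -/
def evD (ρ : (Fin N → E) → Module.End ℂ S) (v : S) : hDual ρ →ₗ[ℂ] ℂ where
  toFun η := η.1 v
  map_add' _ _ := rfl
  map_smul' _ _ := rfl

/-- The normalisation axiom for the smooth dual. -/
theorem omD_normalised (hW : IsWeil σ H ψ μ ρ ω) (hq : QuadDatum σ δ d) (hH : IsSkew σ H)
    (hψ : Continuous ψ) (hψ1 : ψ ≠ 1) (hμ : ConjSymplectic F μ) :
    ∃ κ : ℂ, ∀ (g : unitary σ H) (d' : Eˣ), (d' : E) = (umat g - 1).det →
      ∀ (ξ : hDual ρ) (Ξ : hDual ρ →ₗ[ℂ] ℂ), ∀ᶠ r : ℝ in Filter.atTop,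
      Ξ (omD hW g ξ) = κ * (((μ⁻¹) d' : ℂˣ) : ℂ) * (((absE d') ^ (-(1 / 2) : ℝ) : ℝ) : ℂ) *
        ∫ w in closedBall (0 : Fin N → E) r,
          (((ψ⁻¹) ((4 : F)⁻¹ * sympl F σ H ((cayley (umat g)).mulVec w) w) : Circle) : ℂ)
            * Ξ (rhoD hW hq hH hψ w ξ) ∂(Measure.addHaar) := by
  obtain ⟨κ, hκ⟩ := hW.normalised
  refine ⟨κ, fun g d' hd ξ Ξ => ?_⟩
  have hu : IsUnit (umat g - 1) := isUnit_sub_one hd
  have hvec : ∀ r : ℝ, ∃ v₀ : hDual ρ, ∀ Θ : hDual ρ →ₗ[ℂ] ℂ,
      ∫ w in closedBall (0 : Fin N → E) r, Θ (fD hW hq hH hψ (cayley (umat g)) ξ w)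
        ∂(Measure.addHaar) = Θ v₀ := fun r =>
    exists_vec Measure.addHaar _ (fD_locConst hW hq hH hψ (cayley (umat g)) ξ)
      (isCompact_closedBall 0 r) isClosed_closedBall.measurableSet
  choose vr hvr using hvec
  have hev : ∀ r v, ∫ w in closedBall (0 : Fin N → E) r, fS ψ σ H (cayley (umat g)) ρ ξ.1 v w
        ∂(Measure.addHaar) = (vr r).1 v := fun r v => hvr r (evD ρ v)
  obtain ⟨r₀, hr₀⟩ := fS_stab hW hq hH hψ hψ1 hu ξ
  have hst : ∀ r, r₀ ≤ r → vr r = vr r₀ := fun r hr => hDual_ext fun v => by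
    rw [← hev, ← hev, hr₀ r hr v]
  -- the formula for `omD g ξ`
  have hd2 : (umat g⁻¹ - 1).det = σ d' := by rw [det_inv_sub_one hH, hd]
  have hdne : σ (d' : E) ≠ 0 := fun h => d'.ne_zero ((map_eq_zero σ).1 h)
  have hu' : IsUnit (umat g⁻¹ - 1) := by
    rw [Matrix.isUnit_iff_isUnit_det, hd2]
    exact isUnit_iff_ne_zero.2 hdne
  have key : omD hW g ξ =
      (κ * (((μ⁻¹) d' : ℂˣ) : ℂ) * (((absE d') ^ (-(1 / 2) : ℝ) : ℝ) : ℂ)) • vr r₀ := by
    refine hDual_ext fun v => ?_
    have h1 := hκ g⁻¹ (Units.mk0 _ hdne) (by rw [Units.val_mk0, hd2]) v ξ.1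
    obtain ⟨r, h2, h3⟩ := (h1.and (Filter.eventually_ge_atTop r₀)).exists
    rw [omD_apply, h2, mu_sig hq hμ d' (Units.mk0 _ hdne) rfl,
      absE_sig hq d' (Units.mk0 _ hdne) rfl, integral_inv_eq hq hu hu', hev, hst r h3]
    rfl
  filter_upwards [Filter.eventually_ge_atTop r₀] with r hr
  rw [key, map_smul, smul_eq_mul, ← hst r hr, ← hvr r Ξ]
  congr 1
  refine integral_congr_ae (Filter.Eventually.of_forall fun w => ?_)
  simp only [fD, map_smul, smul_eq_mul]

end main

end SpW
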