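import Mathlib

/-!
# The trace of an endomorphism of finite rank
-/

namespace SpW.Hk

section

variable {V U : Type*} [AddCommGroup V] [Module ℂ V] [AddCommGroup U] [Module ℂ U]

/-- the trace of an endomorphism of finite rank (zero if the rank is infinite) -/
noncomputable def ftr (A : Module.End ℂ V) : ℂ :=
  LinearMap.trace ℂ (LinearMap.range A) (A.rangeRestrict ∘ₗ (LinearMap.range A).subtype)

theorem ftr_comp [FiniteDimensional ℂ U] (A : V →ₗ[ℂ] U) (B : U →ₗ[ℂ] V) :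
    ftr (B ∘ₗ A) = LinearMap.trace ℂ U (A ∘ₗ B) := by
  set M : Module.End ℂ V := B ∘ₗ A with hM
  set W := LinearMap.range B with hW
  have hW2 : FiniteDimensional ℂ W := inferInstance
  have hle : LinearMap.range M ≤ W := by
    rintro _ ⟨v, rfl⟩
    exact ⟨A v, rfl⟩
  have hfd : FiniteDimensional ℂ (LinearMap.range M) := Submodule.finiteDimensional_of_le hle
  have h1 : LinearMap.trace ℂ U (A ∘ₗ B) =
      LinearMap.trace ℂ W (B.rangeRestrict ∘ₗ (A ∘ₗ W.subtype)) :=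
    (LinearMap.trace_comp_comm' (A ∘ₗ W.subtype) B.rangeRestrict).symm
  have h2 : ftr M = LinearMap.trace ℂ W (Submodule.inclusion hle ∘ₗ
      (M.rangeRestrict ∘ₗ W.subtype)) :=
    (LinearMap.trace_comp_comm' (M.rangeRestrict ∘ₗ W.subtype) (Submodule.inclusion hle)).symm
  rw [h1, h2]
  rfl

theorem ftr_eq {A : Module.End ℂ V} (W : Submodule ℂ V) [FiniteDimensional ℂ W]
    (h : LinearMap.range A ≤ W) :
    ftr A = LinearMap.trace ℂ W ((A.codRestrict W fun v => h ⟨v, rfl⟩) ∘ₗ W.subtype) := by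
  have h1 := ftr_comp (A.codRestrict W fun v => h ⟨v, rfl⟩) W.subtype
  have h2 : W.subtype ∘ₗ (A.codRestrict W fun v => h ⟨v, rfl⟩) = A := by
    ext v
    rfl
  rw [h2] at h1
  exact h1

theorem ftr_add {A B : Module.End ℂ V} (hA : FiniteDimensional ℂ (LinearMap.range A))
    (hB : FiniteDimensional ℂ (LinearMap.range B)) : ftr (A + B) = ftr A + ftr B := by
  have h1 : LinearMap.range A ≤ LinearMap.range A ⊔ LinearMap.range B := le_sup_left
  have h2 : LinearMap.range B ≤ LinearMap.range A ⊔ LinearMap.range B := le_sup_right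
  have h3 : LinearMap.range (A + B) ≤ LinearMap.range A ⊔ LinearMap.range B := by
    rintro _ ⟨v, rfl⟩
    exact add_mem (h1 ⟨v, rfl⟩) (h2 ⟨v, rfl⟩)
  rw [ftr_eq _ h1, ftr_eq _ h2, ftr_eq _ h3, ← map_add]
  rfl

theorem ftr_smul {A : Module.End ℂ V} (c : ℂ) (hA : FiniteDimensional ℂ (LinearMap.range A)) :
    ftr (c • A) = c * ftr A := by
  have h3 : LinearMap.range (c • A) ≤ LinearMap.range A := by
    rintro _ ⟨v, rfl⟩
    exact Submodule.smul_mem _ c ⟨v, rfl⟩
  rw [ftr_eq _ h3, ftr_eq _ le_rfl, ← smul_eq_mul, ← map_smul]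
  rfl

theorem ftr_mul_comm {A : Module.End ℂ V} (B : Module.End ℂ V)
    (hA : FiniteDimensional ℂ (LinearMap.range A)) : ftr (A * B) = ftr (B * A) := by
  have h1 := ftr_comp (A.rangeRestrict ∘ₗ B) (LinearMap.range A).subtype
  have h2 := ftr_comp A.rangeRestrict (B ∘ₗ (LinearMap.range A).subtype)
  have h3 : (LinearMap.range A).subtype ∘ₗ (A.rangeRestrict ∘ₗ B) = A * B := rfl
  have h4 : (B ∘ₗ (LinearMap.range A).subtype) ∘ₗ A.rangeRestrict = B * A := rfl
  rw [h3] at h1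
  rw [h4] at h2
  rw [h1, h2]
  rfl

theorem ftr_rank_one (ξ : V →ₗ[ℂ] ℂ) (u : V) : ftr (ξ.smulRight u) = ξ u := by
  have h1 := ftr_comp ξ (LinearMap.toSpanSingleton ℂ V u)
  have h2 : (LinearMap.toSpanSingleton ℂ V u) ∘ₗ ξ = ξ.smulRight u := by
    ext v
    rfl
  rw [h2] at h1
  rw [h1]
  have h3 : ξ ∘ₗ (LinearMap.toSpanSingleton ℂ V u) = (ξ u) • LinearMap.id := by
    ext
    simp
  rw [h3, map_smul, LinearMap.trace_id]
  simp

end

end SpW.Hk
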