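import Pool.Agent.Work.MP_3615d2_al.Hecke
import Pool.Agent.Work.MP_3615d2_al.FTrace

/-!
# Density: the image of the Hecke algebra
-/

open MeasureTheory Filter Topology

namespace SpW.Hk

section

variable {G : Type} [Group G] {V : Type} [AddCommGroup V] [Module ℂ V] {π : G →* Module.End ℂ V}

/-- density theorem for irreducible representations with scalar endomorphisms -/
theorem density (hnt : Nontrivial V)
    (hirr : ∀ T : Submodule ℂ V, (∀ g, ∀ v ∈ T, π g v ∈ T) → T = ⊥ ∨ T = ⊤)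
    (hsch : ∀ T : Module.End ℂ V, (∀ g v, T (π g v) = π g (T v)) → ∃ c : ℂ, ∀ v, T v = c • v)
    (A : Module.End ℂ V) (s : Finset V) :
    ∃ r ∈ Algebra.adjoin ℂ (Set.range π), ∀ m ∈ s, A m = r m := by
  set R := Algebra.adjoin ℂ (Set.range π) with hR
  have hπR : ∀ g, π g ∈ R := fun g => Algebra.subset_adjoin ⟨g, rfl⟩
  have hsimple : IsSimpleModule R V := by
    rw [isSimpleModule_iff]
    refine { exists_pair_ne := ⟨⊥, ⊤, ?_⟩, eq_bot_or_eq_top := ?_ }
    · intro h
      obtain ⟨v, hv⟩ := exists_ne (0 : V)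
      have h1 : v ∈ (⊤ : Submodule R V) := trivial
      rw [← h] at h1
      exact hv ((Submodule.mem_bot R).1 h1)
    · intro W
      let W' : Submodule ℂ V := {
        carrier := W
        add_mem' := fun ha hb => W.add_mem ha hb
        zero_mem' := W.zero_mem
        smul_mem' := fun c v hv => by
          have h1 := W.smul_mem (algebraMap ℂ R c) hv
          have h2 : (algebraMap ℂ R c) • v = c • v := rfl
          rw [h2] at h1
          exact h1 }
      have hW' : ∀ v, v ∈ W' ↔ v ∈ W := fun v => Iff.rfl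
      rcases hirr W' (fun g v hv => W.smul_mem (⟨π g, hπR g⟩ : R) hv) with h | h
      · left
        rw [eq_bot_iff]
        intro v hv
        rw [← hW', h] at hv
        exact (Submodule.mem_bot R).2 ((Submodule.mem_bot ℂ).1 hv)
      · right
        rw [eq_top_iff]
        intro v _
        rw [← hW', h]
        trivial
  let f : Module.End (Module.End R V) V := {
    toFun := A
    map_add' := map_add A
    map_smul' := by
      intro T v
      obtain ⟨c, hc⟩ := hsch ({
        toFun := T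
        map_add' := map_add T
        map_smul' := fun c v => by
          have h1 := T.map_smul (algebraMap ℂ R c) v
          exact h1 } : Module.End ℂ V) (fun g v => T.map_smul (⟨π g, hπR g⟩ : R) v)
      have hc' : ∀ v, T v = c • v := hc
      change A (T v) = T (A v)
      rw [hc', hc', map_smul] }
  obtain ⟨r, hr⟩ := jacobson_density f s
  exact ⟨r.1, r.2, hr⟩

end

section

variable {G : Type} [Group G] [TopologicalSpace G] [IsTopologicalGroup G]
  {V : Type} [AddCommGroup V] [Module ℂ V] {π : G →* Module.End ℂ V}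
  [MeasurableSpace G] [BorelSpace G] (μ : Measure G) [IsFiniteMeasureOnCompacts μ]

theorem adjoin_hk [μ.IsMulLeftInvariant] (hπ : IsSmoothRep π) {r : Module.End ℂ V}
    (hr : r ∈ Algebra.adjoin ℂ (Set.range π)) (ψ : Sch G ℂ) :
    ∃ ψ' : Sch G ℂ, hk μ hπ ψ' = r * hk μ hπ ψ := by
  induction hr using Algebra.adjoin_induction generalizing ψ with
  | mem x hx =>
    obtain ⟨g, rfl⟩ := hx
    exact ⟨lTr g ψ, hk_lTr μ hπ g ψ⟩
  | algebraMap c =>
    refine ⟨c • ψ, ?_⟩
    rw [map_smul, Algebra.algebraMap_eq_smul_one, smul_mul_assoc, one_mul]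
  | add x y _ _ hx hy =>
    obtain ⟨a, ha⟩ := hx ψ
    obtain ⟨b, hb⟩ := hy ψ
    exact ⟨a + b, by rw [map_add, ha, hb, add_mul]⟩
  | mul x y _ _ hx hy =>
    obtain ⟨b, hb⟩ := hy ψ
    obtain ⟨a, ha⟩ := hx b
    exact ⟨a, by rw [ha, hb, mul_assoc]⟩

theorem exists_hk_eq [μ.IsMulLeftInvariant] (hπ : IsSmoothRep π) (hnt : Nontrivial V)
    (hirr : ∀ T : Submodule ℂ V, (∀ g, ∀ v ∈ T, π g v ∈ T) → T = ⊥ ∨ T = ⊤)
    (hsch : ∀ T : Module.End ℂ V, (∀ g v, T (π g v) = π g (T v)) → ∃ c : ℂ, ∀ v, T v = c • v)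
    {K : Subgroup G} (h1 : IsOpen (K : Set G)) (h2 : IsCompact (K : Set G))
    (hadm : ∃ S : Finset V, ∀ v, (∀ k ∈ K, π k v = v) → v ∈ Submodule.span ℂ (S : Set V))
    (A : Module.End ℂ V) : ∃ ψ : Sch G ℂ, hk μ hπ ψ = A * eK μ hπ K h1 h2 := by
  obtain ⟨S, hS⟩ := hadm
  obtain ⟨r, hr, hrS⟩ := density hnt hirr hsch A S
  obtain ⟨ψ, hψ⟩ := adjoin_hk μ hπ hr (((μ.real (K : Set G) : ℝ) : ℂ)⁻¹ • indK K h1 h2)
  refine ⟨ψ, ?_⟩
  rw [hψ, map_smul]
  apply LinearMap.ext
  intro v
  change r (eK μ hπ K h1 h2 v) = A (eK μ hπ K h1 h2 v)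
  have h3 := hS _ (eK_mem μ hπ h1 h2 v)
  have h4 : Set.EqOn r A (S : Set V) := fun m hm => (hrS m hm).symm
  exact LinearMap.eqOn_span h4 h3

end

end SpW.Hk
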