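import Mathlib

/-!
MP_3615d2_al, Theorem B, module B4: the groups `glK ε` (congruence subgroups of `GL_n`),
compactness in `GL_n(E)` and the Cartan decomposition over an ultrametric field.
-/

open Filter Topology

set_option linter.unusedSectionVars false

namespace SpW

section ent

variable {E : Type} [NontriviallyNormedField E] [IsUltrametricDist E]
  {ι κ l : Type} [Fintype ι] [Fintype κ] [Fintype l]

theorem mul_entry_le (M : Matrix ι κ E) (N : Matrix κ l E) {a b : ℝ} (ha : 0 ≤ a) (hb : 0 ≤ b)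
    (hM : ∀ i j, ‖M i j‖ ≤ a) (hN : ∀ i j, ‖N i j‖ ≤ b) (i : ι) (k : l) : ‖(M * N) i k‖ ≤ a * b := by
  rw [Matrix.mul_apply]
  refine IsUltrametricDist.norm_sum_le_of_forall_le_of_nonneg (mul_nonneg ha hb) fun j _ => ?_
  rw [norm_mul]
  exact mul_le_mul (hM i j) (hN j k) (norm_nonneg _) ha

theorem norm_one_entry_le [DecidableEq ι] (i j : ι) : ‖(1 : Matrix ι ι E) i j‖ ≤ 1 := by
  rw [Matrix.one_apply]
  split_ifs <;> simp

theorem norm_entry_le_one_of_sub [DecidableEq ι] {M : Matrix ι ι E} {ε : ℝ} (hε : ε ≤ 1)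
    (h : ∀ i j, ‖(M - 1) i j‖ ≤ ε) (i j : ι) : ‖M i j‖ ≤ 1 := by
  have h1 : M i j = (M - 1) i j + (1 : Matrix ι ι E) i j := by simp
  rw [h1]
  exact (IsUltrametricDist.norm_add_le_max _ _).trans
    (max_le ((h i j).trans hε) (norm_one_entry_le i j))

variable [DecidableEq ι]

/-- The congruence subgroup of level `ε ≤ 1` of `GL_n(E)`; `ε = 1` gives `GL_n(O)`. -/
def glK (ι : Type) [Fintype ι] [DecidableEq ι] (E : Type) [NontriviallyNormedField E]
    [IsUltrametricDist E] (ε : ℝ) (h0 : 0 ≤ ε) (h1 : ε ≤ 1) : Subgroup (GL ι E) where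
  carrier := {g | (∀ i j, ‖((g : Matrix ι ι E) - 1) i j‖ ≤ ε) ∧
    ∀ i j, ‖(((g⁻¹ : GL ι E) : Matrix ι ι E) - 1) i j‖ ≤ ε}
  mul_mem' := by
    have key : ∀ M N : Matrix ι ι E, (∀ i j, ‖(M - 1) i j‖ ≤ ε) → (∀ i j, ‖(N - 1) i j‖ ≤ ε) →
        ∀ i j, ‖(M * N - 1) i j‖ ≤ ε := by
      intro M N hM hN i j
      have h2 : M * N - 1 = M * (N - 1) + (M - 1) := by noncomm_ring
      rw [h2, Matrix.add_apply]
      refine (IsUltrametricDist.norm_add_le_max _ _).trans (max_le ?_ (hM i j))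
      have h3 := mul_entry_le M (N - 1) zero_le_one h0 (norm_entry_le_one_of_sub h1 hM) hN i j
      rwa [one_mul] at h3
    rintro a b ⟨ha, ha'⟩ ⟨hb, hb'⟩
    refine ⟨?_, ?_⟩
    · rw [Units.val_mul]
      exact key _ _ ha hb
    · rw [mul_inv_rev, Units.val_mul]
      exact key _ _ hb' ha'
  one_mem' := by
    refine ⟨fun i j => ?_, fun i j => ?_⟩
    · simpa using h0
    · simpa using h0
  inv_mem' := by
    rintro a ⟨ha, ha'⟩
    exact ⟨ha', by rwa [inv_inv]⟩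

theorem mem_glK {ε : ℝ} {h0 : 0 ≤ ε} {h1 : ε ≤ 1} {g : GL ι E} : g ∈ glK ι E ε h0 h1 ↔
    (∀ i j, ‖((g : Matrix ι ι E) - 1) i j‖ ≤ ε) ∧
      ∀ i j, ‖(((g⁻¹ : GL ι E) : Matrix ι ι E) - 1) i j‖ ≤ ε := Iff.rfl

theorem glK_entry {ε : ℝ} {h0 : 0 ≤ ε} {h1 : ε ≤ 1} {g : GL ι E} (hg : g ∈ glK ι E ε h0 h1)
    (i j : ι) : ‖(g : Matrix ι ι E) i j‖ ≤ 1 := norm_entry_le_one_of_sub h1 hg.1 i j

theorem glK_entry_inv {ε : ℝ} {h0 : 0 ≤ ε} {h1 : ε ≤ 1} {g : GL ι E} (hg : g ∈ glK ι E ε h0 h1)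
    (i j : ι) : ‖((g⁻¹ : GL ι E) : Matrix ι ι E) i j‖ ≤ 1 := norm_entry_le_one_of_sub h1 hg.2 i j

theorem mem_glK_one {g : GL ι E} (h : ∀ i j, ‖(g : Matrix ι ι E) i j‖ ≤ 1)
    (h' : ∀ i j, ‖((g⁻¹ : GL ι E) : Matrix ι ι E) i j‖ ≤ 1) :
    g ∈ glK ι E 1 zero_le_one le_rfl := by
  have key : ∀ M : Matrix ι ι E, (∀ i j, ‖M i j‖ ≤ 1) → ∀ i j, ‖(M - 1) i j‖ ≤ 1 := by
    intro M hM i j
    rw [Matrix.sub_apply, sub_eq_add_neg]
    refine (IsUltrametricDist.norm_add_le_max _ _).trans (max_le (hM i j) ?_)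
    rw [norm_neg]
    exact norm_one_entry_le i j
  exact ⟨key _ h, key _ h'⟩

end ent

section top

variable {E : Type} [NontriviallyNormedField E] {ι : Type} [Fintype ι] [DecidableEq ι]

theorem continuous_gl_entry (i j : ι) : Continuous fun g : GL ι E => (g : Matrix ι ι E) i j :=
  Units.continuous_val.matrix_elem i j

theorem continuous_gl_inv_entry (i j : ι) :
    Continuous fun g : GL ι E => ((g⁻¹ : GL ι E) : Matrix ι ι E) i j :=
  (continuous_gl_entry i j).comp continuous_inv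

/-- A set of elements of `GL_n(E)` given by bounds on the entries of `g` and `g⁻¹` is compact. -/
theorem isCompact_gl_bdd [ProperSpace E] (R : ℝ) : IsCompact {g : GL ι E |
    ∀ i j, ‖(g : Matrix ι ι E) i j‖ ≤ R ∧ ‖((g⁻¹ : GL ι E) : Matrix ι ι E) i j‖ ≤ R} := by
  set B : Set (Matrix ι ι E) := {M | ∀ i j, ‖M i j‖ ≤ R} with hB
  have hBc : IsCompact B := by
    have h1 : IsCompact (Set.pi Set.univ fun _ : ι =>
        Set.pi Set.univ fun _ : ι => Metric.closedBall (0 : E) R) :=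
      isCompact_univ_pi fun _ => isCompact_univ_pi fun _ => isCompact_closedBall _ _
    refine h1.of_isClosed_subset ?_ ?_
    · have h2 : B = ⋂ i, ⋂ j, {M : Matrix ι ι E | ‖M i j‖ ≤ R} := by
        ext M
        simp [hB]
      rw [h2]
      refine isClosed_iInter fun i => isClosed_iInter fun j => ?_
      exact isClosed_le (continuous_norm.comp
        ((continuous_apply j).comp (continuous_apply i))) continuous_const
    · intro M hM i _ j _
      simpa using hM i j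
  have h2 : IsCompact (B ×ˢ (MulOpposite.op '' B)) :=
    hBc.prod (hBc.image MulOpposite.continuous_op)
  have h3 := (Units.isClosedEmbedding_embedProduct (α := Matrix ι ι E)).isCompact_preimage h2
  convert h3 using 1
  ext g
  simp only [Set.mem_ofPred_eq, Set.mem_preimage, Units.embedProduct_apply, Set.mem_prod, hB]
  constructor
  · intro h
    exact ⟨fun i j => (h i j).1, ⟨_, fun i j => (h i j).2, rfl⟩⟩
  · rintro ⟨h1, ⟨M, hM, hM'⟩⟩ i j
    have h4 : M = ((g⁻¹ : GL ι E) : Matrix ι ι E) := MulOpposite.op_injective hM'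
    rw [h4] at hM
    exact ⟨h1 i j, hM i j⟩

theorem exists_ball_gl {U : Set (GL ι E)} (hU : U ∈ 𝓝 (1 : GL ι E)) :
    ∃ ε : ℝ, 0 < ε ∧ ε ≤ 1 ∧ ∀ g : GL ι E, (∀ i j, ‖((g : Matrix ι ι E) - 1) i j‖ ≤ ε) →
      (∀ i j, ‖(((g⁻¹ : GL ι E) : Matrix ι ι E) - 1) i j‖ ≤ ε) → g ∈ U := by
  rw [Units.isEmbedding_embedProduct.isInducing.nhds_eq_comap, Filter.mem_comap] at hU
  obtain ⟨W, hW, hWU⟩ := hU
  have h1 : Units.embedProduct (Matrix ι ι E) (1 : GL ι E) = (1, MulOpposite.op 1) := rfl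
  rw [h1, nhds_prod_eq, Filter.mem_prod_iff] at hW
  obtain ⟨W₁, hW₁, W₂, hW₂, hW⟩ := hW
  have h2 : MulOpposite.op ⁻¹' W₂ ∈ 𝓝 (1 : Matrix ι ι E) :=
    MulOpposite.continuous_op.continuousAt hW₂
  have key : ∀ T : Set (ι → ι → E), T ∈ 𝓝 (fun i j => (1 : Matrix ι ι E) i j) →
      ∀ᶠ ε in 𝓝[>] (0 : ℝ), ∀ M : ι → ι → E,
        (∀ i j, ‖M i j - (1 : Matrix ι ι E) i j‖ ≤ ε) → M ∈ T := by
    intro T hT
    rw [nhds_pi, Filter.mem_pi'] at hT
    obtain ⟨I, t, ht, hI⟩ := hT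
    have h3 : ∀ i : ι, ∀ᶠ ε in 𝓝[>] (0 : ℝ), ∀ M : ι → ι → E,
        (∀ i j, ‖M i j - (1 : Matrix ι ι E) i j‖ ≤ ε) → M i ∈ t i := by
      intro i
      have h4 := ht i
      rw [nhds_pi, Filter.mem_pi'] at h4
      obtain ⟨J, s, hs, hJ⟩ := h4
      have h5 : ∀ j : ι, ∀ᶠ ε in 𝓝[>] (0 : ℝ), ∀ M : ι → ι → E,
          (∀ i j, ‖M i j - (1 : Matrix ι ι E) i j‖ ≤ ε) → M i j ∈ s j := by
        intro j
        obtain ⟨δ, hδ, h6⟩ := Metric.mem_nhds_iff.1 (hs j)
        filter_upwards [Ioo_mem_nhdsGT hδ] with ε hε M hM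
        apply h6
        rw [Metric.mem_ball, dist_eq_norm]
        exact lt_of_le_of_lt (hM i j) hε.2
      filter_upwards [Filter.eventually_all.2 h5] with ε hε M hM
      exact hJ fun j _ => hε j M hM
    filter_upwards [Filter.eventually_all.2 h3] with ε hε M hM
    exact hI fun i _ => hε i M hM
  have h3 : ∀ᶠ ε in 𝓝[>] (0 : ℝ), 0 < ε ∧ ε ≤ 1 := by
    filter_upwards [Ioo_mem_nhdsGT (zero_lt_one (α := ℝ))] with ε hε
    exact ⟨hε.1, hε.2.le⟩
  obtain ⟨ε, hε, h4, h5⟩ := (h3.and ((key _ hW₁).and (key _ h2))).exists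
  refine ⟨ε, hε.1, hε.2, fun g hg hg' => hWU ?_⟩
  exact hW ⟨h4 _ hg, h5 _ hg'⟩

variable [IsUltrametricDist E]

theorem glK_isOpen {ε : ℝ} (h0 : 0 < ε) (h1 : ε ≤ 1) :
    IsOpen (glK ι E ε h0.le h1 : Set (GL ι E)) := by
  refine (glK ι E ε h0.le h1).isOpen_of_mem_nhds (g := 1) ?_
  have key : ∀ i j, ∀ᶠ g : GL ι E in 𝓝 1, ‖((g : Matrix ι ι E) - 1) i j‖ ≤ ε := by
    intro i j
    have h2 : Continuous fun g : GL ι E => ‖((g : Matrix ι ι E) - 1) i j‖ := by
      have := (continuous_gl_entry (E := E) i j).sub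
        (continuous_const (y := (1 : Matrix ι ι E) i j))
      exact this.norm
    have h3 : ‖(((1 : GL ι E) : Matrix ι ι E) - 1) i j‖ < ε := by simpa using h0
    filter_upwards [h2.continuousAt.eventually_lt continuousAt_const h3] with g hg
    exact hg.le
  have h4 : Tendsto (fun u : GL ι E => u⁻¹) (𝓝 1) (𝓝 1) := by
    have := (continuous_inv (G := GL ι E)).tendsto 1
    rwa [inv_one] at this
  have h5 : ∀ᶠ g : GL ι E in 𝓝 1, ∀ i j, ‖((g : Matrix ι ι E) - 1) i j‖ ≤ ε :=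
    Filter.eventually_all.2 fun i => Filter.eventually_all.2 fun j => key i j
  filter_upwards [h5, h4.eventually h5] with g hg hg'
  exact ⟨hg, hg'⟩

theorem glK_isCompact [ProperSpace E] {ε : ℝ} (h0 : 0 < ε) (h1 : ε ≤ 1) :
    IsCompact (glK ι E ε h0.le h1 : Set (GL ι E)) := by
  refine (isCompact_gl_bdd (E := E) (ι := ι) 1).of_isClosed_subset
    ((glK ι E ε h0.le h1).isClosed_of_isOpen (glK_isOpen h0 h1)) ?_
  intro g hg i j
  exact ⟨glK_entry hg i j, glK_entry_inv hg i j⟩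

/-- `GL_n(E)` has small compact open subgroups. -/
theorem gl_basis [ProperSpace E] : ∀ U ∈ 𝓝 (1 : GL ι E), ∃ K : Subgroup (GL ι E),
    IsOpen (K : Set (GL ι E)) ∧ IsCompact (K : Set (GL ι E)) ∧ (K : Set (GL ι E)) ⊆ U := by
  intro U hU
  obtain ⟨ε, h0, h1, h⟩ := exists_ball_gl hU
  exact ⟨glK ι E ε h0.le h1, glK_isOpen h0 h1, glK_isCompact h0 h1, fun g hg => h g hg.1 hg.2⟩

end top

/-! ## Cartan decomposition -/

section cartan

variable {E : Type} [NontriviallyNormedField E] [IsUltrametricDist E]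

/-- integral matrices with integral inverse (rectangular index types of the same size) -/
def IsKM {ι κ : Type} [Fintype ι] [Fintype κ] [DecidableEq ι] [DecidableEq κ]
    (P : Matrix ι κ E) : Prop :=
  ∃ P' : Matrix κ ι E, (∀ i j, ‖P i j‖ ≤ 1) ∧ (∀ i j, ‖P' i j‖ ≤ 1) ∧ P * P' = 1 ∧ P' * P = 1

variable {ι κ l ι' κ' : Type} [Fintype ι] [Fintype κ] [Fintype l] [Fintype ι'] [Fintype κ']
  [DecidableEq ι] [DecidableEq κ] [DecidableEq l] [DecidableEq ι'] [DecidableEq κ']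

theorem IsKM.one : IsKM (1 : Matrix ι ι E) :=
  ⟨1, norm_one_entry_le, norm_one_entry_le, by simp, by simp⟩

theorem IsKM.mul {P : Matrix ι κ E} {Q : Matrix κ l E} (hP : IsKM P) (hQ : IsKM Q) :
    IsKM (P * Q) := by
  obtain ⟨P', h1, h2, h3, h4⟩ := hP
  obtain ⟨Q', k1, k2, k3, k4⟩ := hQ
  refine ⟨Q' * P', fun i j => ?_, fun i j => ?_, ?_, ?_⟩
  · have := mul_entry_le P Q zero_le_one zero_le_one h1 k1 i j
    rwa [one_mul] at this
  · have := mul_entry_le Q' P' zero_le_one zero_le_one k2 h2 i j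
    rwa [one_mul] at this
  · rw [Matrix.mul_assoc, ← Matrix.mul_assoc Q, k3, Matrix.one_mul, h3]
  · rw [Matrix.mul_assoc, ← Matrix.mul_assoc P', h4, Matrix.one_mul, k4]

theorem IsKM.submatrix {P : Matrix ι κ E} (hP : IsKM P) (e : ι' ≃ ι) (f : κ' ≃ κ) :
    IsKM (P.submatrix e f) := by
  obtain ⟨P', h1, h2, h3, h4⟩ := hP
  refine ⟨P'.submatrix f e, fun i j => h1 _ _, fun i j => h2 _ _, ?_, ?_⟩
  · rw [Matrix.submatrix_mul_equiv, h3, Matrix.submatrix_one_equiv]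
  · rw [Matrix.submatrix_mul_equiv, h4, Matrix.submatrix_one_equiv]

theorem IsKM.lower (C : Matrix κ ι E) (hC : ∀ i j, ‖C i j‖ ≤ 1) :
    IsKM (Matrix.fromBlocks (1 : Matrix ι ι E) 0 C (1 : Matrix κ κ E)) := by
  refine ⟨Matrix.fromBlocks 1 0 (-C) 1, ?_, ?_, ?_, ?_⟩
  · rintro (i | i) (j | j)
    · exact norm_one_entry_le i j
    · simp
    · exact hC i j
    · exact norm_one_entry_le i j
  · rintro (i | i) (j | j)
    · exact norm_one_entry_le i j
    · simp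
    · simpa using hC i j
    · exact norm_one_entry_le i j
  · rw [Matrix.fromBlocks_multiply]
    simp
  · rw [Matrix.fromBlocks_multiply]
    simp

theorem IsKM.upper (C : Matrix ι κ E) (hC : ∀ i j, ‖C i j‖ ≤ 1) :
    IsKM (Matrix.fromBlocks (1 : Matrix ι ι E) C 0 (1 : Matrix κ κ E)) := by
  refine ⟨Matrix.fromBlocks 1 (-C) 0 1, ?_, ?_, ?_, ?_⟩
  · rintro (i | i) (j | j)
    · exact norm_one_entry_le i j
    · exact hC i j
    · simp
    · exact norm_one_entry_le i j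
  · rintro (i | i) (j | j)
    · exact norm_one_entry_le i j
    · simpa using hC i j
    · simp
    · exact norm_one_entry_le i j
  · rw [Matrix.fromBlocks_multiply]
    simp
  · rw [Matrix.fromBlocks_multiply]
    simp

theorem IsKM.block {P : Matrix ι κ E} (hP : IsKM P) :
    IsKM (Matrix.fromBlocks (1 : Matrix l l E) 0 0 P) := by
  obtain ⟨P', h1, h2, h3, h4⟩ := hP
  refine ⟨Matrix.fromBlocks 1 0 0 P', ?_, ?_, ?_, ?_⟩
  · rintro (i | i) (j | j)
    · exact norm_one_entry_le i j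
    · simp
    · simp
    · exact h1 i j
  · rintro (i | i) (j | j)
    · exact norm_one_entry_le i j
    · simp
    · simp
    · exact h2 i j
  · rw [Matrix.fromBlocks_multiply, h3]
    simp
  · rw [Matrix.fromBlocks_multiply, h4]
    simp

theorem cartan_aux (r : ℕ) : ∀ A : Matrix (Fin r) (Fin r) E,
    ∃ (P Q : Matrix (Fin r) (Fin r) E) (d : Fin r → E), IsKM P ∧ IsKM Q ∧
      A = P * Matrix.diagonal d * Q := by
  induction r with
  | zero =>
    intro A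
    exact ⟨1, 1, fun _ => 0, IsKM.one, IsKM.one, Subsingleton.elim _ _⟩
  | succ r ih =>
    intro A
    by_cases hA : A = 0
    · refine ⟨1, 1, fun _ => 0, IsKM.one, IsKM.one, ?_⟩
      rw [hA]
      simp
    obtain ⟨⟨i₀, j₀⟩, hmax⟩ := Finite.exists_max (fun p : Fin (r + 1) × Fin (r + 1) =>
      ‖A p.1 p.2‖)
    have hmax' : ∀ i j, ‖A i j‖ ≤ ‖A i₀ j₀‖ := fun i j => hmax (i, j)
    have ha : A i₀ j₀ ≠ 0 := by
      intro h
      apply hA
      ext i j
      have := hmax' i j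
      rw [h, norm_zero] at this
      simpa using this
    let e : Fin (r + 1) ≃ Unit ⊕ Fin r :=
      Fintype.equivOfCardEq (by simp [add_comm])
    let e₁ : Fin (r + 1) ≃ Unit ⊕ Fin r := (Equiv.swap i₀ (e.symm (Sum.inl ()))).trans e
    let e₂ : Fin (r + 1) ≃ Unit ⊕ Fin r := (Equiv.swap j₀ (e.symm (Sum.inl ()))).trans e
    have he₁ : e₁.symm (Sum.inl ()) = i₀ := by
      rw [Equiv.symm_apply_eq]
      simp [e₁]
    have he₂ : e₂.symm (Sum.inl ()) = j₀ := by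
      rw [Equiv.symm_apply_eq]
      simp [e₂]
    set A' : Matrix (Unit ⊕ Fin r) (Unit ⊕ Fin r) E := A.submatrix e₁.symm e₂.symm with hA'
    set a : E := A i₀ j₀ with ha'
    have hbd : ∀ i j, ‖A' i j‖ ≤ ‖a‖ := fun i j => hmax' _ _
    set X : Matrix Unit Unit E := A'.toBlocks₁₁ with hX
    have hXa : X = Matrix.diagonal (fun _ => a) := by
      ext i j
      obtain rfl : i = () := rfl
      obtain rfl : j = () := rfl
      rw [Matrix.diagonal_apply_eq]
      show A (e₁.symm (Sum.inl ())) (e₂.symm (Sum.inl ())) = a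
      rw [he₁, he₂]
    let Xi : Matrix Unit Unit E := Matrix.diagonal (fun _ => a⁻¹)
    have hXX : Xi * X = 1 := by
      rw [hXa, Matrix.diagonal_mul_diagonal]
      simp [ha]
    have hXX' : X * Xi = 1 := by
      rw [hXa, Matrix.diagonal_mul_diagonal]
      simp [ha]
    let _ : Invertible X := ⟨Xi, hXX, hXX'⟩
    have hinv : ⅟X = Xi := rfl
    have h1 : A' = Matrix.fromBlocks 1 0 (A'.toBlocks₂₁ * Xi) 1 *
        Matrix.fromBlocks X 0 0 (A'.toBlocks₂₂ - A'.toBlocks₂₁ * Xi * A'.toBlocks₁₂) *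
        Matrix.fromBlocks 1 (Xi * A'.toBlocks₁₂) 0 1 :=
      (Matrix.fromBlocks_toBlocks A').symm.trans
        (Matrix.fromBlocks_eq_of_invertible₁₁ X A'.toBlocks₁₂ A'.toBlocks₂₁ A'.toBlocks₂₂)
    obtain ⟨P, Q, d, hP, hQ, hS⟩ := ih (A'.toBlocks₂₂ - A'.toBlocks₂₁ * Xi * A'.toBlocks₁₂)
    have hXi : ∀ i j, ‖Xi i j‖ ≤ ‖a‖⁻¹ := by
      intro i j
      obtain rfl : i = () := rfl
      obtain rfl : j = () := rfl
      simp [Xi]
    have hc : ‖a‖ * ‖a‖⁻¹ = 1 := mul_inv_cancel₀ (norm_ne_zero_iff.2 ha)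
    have hL : IsKM (Matrix.fromBlocks (1 : Matrix Unit Unit E) 0 (A'.toBlocks₂₁ * Xi)
        (1 : Matrix (Fin r) (Fin r) E)) := by
      apply IsKM.lower
      intro i j
      have := mul_entry_le A'.toBlocks₂₁ Xi (norm_nonneg a) (inv_nonneg.2 (norm_nonneg a))
        (fun i j => hbd _ _) hXi i j
      rwa [hc] at this
    have hR : IsKM (Matrix.fromBlocks (1 : Matrix Unit Unit E) (Xi * A'.toBlocks₁₂) 0
        (1 : Matrix (Fin r) (Fin r) E)) := by
      apply IsKM.upper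
      intro i j
      have := mul_entry_le Xi A'.toBlocks₁₂ (inv_nonneg.2 (norm_nonneg a)) (norm_nonneg a)
        hXi (fun i j => hbd _ _) i j
      rwa [mul_comm, hc] at this
    have h2 : Matrix.fromBlocks X 0 0 (A'.toBlocks₂₂ - A'.toBlocks₂₁ * Xi * A'.toBlocks₁₂) =
        Matrix.fromBlocks 1 0 0 P * Matrix.diagonal (Sum.elim (fun _ => a) d) *
          Matrix.fromBlocks 1 0 0 Q := by
      rw [← Matrix.fromBlocks_diagonal, Matrix.fromBlocks_multiply, Matrix.fromBlocks_multiply,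
        ← hXa, hS]
      simp
    rw [h2] at h1
    set P₁ : Matrix (Unit ⊕ Fin r) (Unit ⊕ Fin r) E :=
      Matrix.fromBlocks (1 : Matrix Unit Unit E) 0 (A'.toBlocks₂₁ * Xi) 1 *
        Matrix.fromBlocks 1 0 0 P with hP₁
    set Q₁ : Matrix (Unit ⊕ Fin r) (Unit ⊕ Fin r) E :=
      Matrix.fromBlocks 1 0 0 Q * Matrix.fromBlocks (1 : Matrix Unit Unit E)
        (Xi * A'.toBlocks₁₂) 0 1 with hQ₁
    have hP₁K : IsKM P₁ := hL.mul hP.block
    have hQ₁K : IsKM Q₁ := hQ.block.mul hR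
    have h3 : A' = P₁ * Matrix.diagonal (Sum.elim (fun _ => a) d) * Q₁ := by
      rw [h1, hP₁, hQ₁]
      simp only [Matrix.mul_assoc]
    refine ⟨P₁.submatrix e₁ e, Q₁.submatrix e e₂, Sum.elim (fun _ => a) d ∘ e,
      hP₁K.submatrix _ _, hQ₁K.submatrix _ _, ?_⟩
    have h4 : A = A'.submatrix e₁ e₂ := by
      rw [hA', Matrix.submatrix_submatrix]
      simp
    rw [h4, h3, ← Matrix.submatrix_mul_equiv _ _ e₁ e e₂, ← Matrix.submatrix_mul_equiv _ _ e₁ e e,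
      Matrix.submatrix_diagonal_equiv]

/-- **Cartan decomposition**, ordered. -/
theorem cartan_matrix (r : ℕ) (A : Matrix (Fin r) (Fin r) E) :
    ∃ (P Q : Matrix (Fin r) (Fin r) E) (d : Fin r → E), IsKM P ∧ IsKM Q ∧
      Monotone (fun i => ‖d i‖) ∧ A = P * Matrix.diagonal d * Q := by
  obtain ⟨P, Q, d, hP, hQ, h⟩ := cartan_aux r A
  let s := Tuple.sort (fun i => ‖d i‖)
  refine ⟨P.submatrix (Equiv.refl _) s, Q.submatrix s (Equiv.refl _), d ∘ s,
    hP.submatrix _ _, hQ.submatrix _ _, Tuple.monotone_sort (fun i => ‖d i‖), ?_⟩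
  rw [← Matrix.submatrix_diagonal_equiv, Matrix.submatrix_mul_equiv, Matrix.submatrix_mul_equiv,
    ← h]
  rfl

/-- diagonal elements of `GL_n` -/
def dgl {R : Type} [CommRing R] {ι : Type} [Fintype ι] [DecidableEq ι] : (ι → Rˣ) →* GL ι R where
  toFun t := ⟨Matrix.diagonal fun i => (t i : R), Matrix.diagonal fun i => (((t i)⁻¹ : Rˣ) : R), by
    rw [Matrix.diagonal_mul_diagonal]
    simp, by
    rw [Matrix.diagonal_mul_diagonal]
    simp⟩
  map_one' := by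
    apply Units.ext
    simp
  map_mul' a b := by
    apply Units.ext
    simp [Matrix.diagonal_mul_diagonal]

theorem dgl_val {R : Type} [CommRing R] {ι : Type} [Fintype ι] [DecidableEq ι] (t : ι → Rˣ) :
    ((dgl t : GL ι R) : Matrix ι ι R) = Matrix.diagonal fun i => (t i : R) := rfl

theorem dgl_inv_val {R : Type} [CommRing R] {ι : Type} [Fintype ι] [DecidableEq ι] (t : ι → Rˣ) :
    (((dgl t)⁻¹ : GL ι R) : Matrix ι ι R) = Matrix.diagonal fun i => (((t i)⁻¹ : Rˣ) : R) := rfl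

theorem IsKM.exists_gl {P : Matrix ι ι E} (hP : IsKM P) :
    ∃ g ∈ glK ι E 1 zero_le_one le_rfl, (g : Matrix ι ι E) = P := by
  obtain ⟨P', h1, h2, h3, h4⟩ := hP
  exact ⟨⟨P, P', h3, h4⟩, mem_glK_one h1 h2, rfl⟩

/-- **Cartan decomposition of `GL_n(E)`**: `g = k₁ t k₂` with `k₁, k₂` in `GL_n(O)` and `t`
diagonal with increasing norms. -/
theorem cartan {n : ℕ} (g : GL (Fin n) E) :
    ∃ k₁ ∈ glK (Fin n) E 1 zero_le_one le_rfl, ∃ k₂ ∈ glK (Fin n) E 1 zero_le_one le_rfl,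
      ∃ t : Fin n → Eˣ, Monotone (fun i => ‖(t i : E)‖) ∧ g = k₁ * dgl t * k₂ := by
  obtain ⟨P, Q, d, hP, hQ, hd, h⟩ := cartan_matrix n (g : Matrix (Fin n) (Fin n) E)
  obtain ⟨k₁, hk₁, rfl⟩ := hP.exists_gl
  obtain ⟨k₂, hk₂, rfl⟩ := hQ.exists_gl
  have h1 : IsUnit (Matrix.diagonal d) := by
    have h2 : Matrix.diagonal d = ((k₁⁻¹ * g * k₂⁻¹ : GL (Fin n) E) : Matrix (Fin n) (Fin n) E) := by
      rw [Units.val_mul, Units.val_mul, h]
      simp only [Matrix.mul_assoc]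
      rw [Units.mul_inv, Matrix.mul_one, ← Matrix.mul_assoc, Units.inv_mul, Matrix.one_mul]
    rw [h2]
    exact Units.isUnit _
  have h2 : ∀ i, d i ≠ 0 := by
    rw [Matrix.isUnit_iff_isUnit_det, Matrix.det_diagonal, isUnit_iff_ne_zero,
      Finset.prod_ne_zero_iff] at h1
    exact fun i => h1 i (Finset.mem_univ i)
  refine ⟨k₁, hk₁, k₂, hk₂, fun i => Units.mk0 (d i) (h2 i), hd, ?_⟩
  apply Units.ext
  rw [Units.val_mul, Units.val_mul, dgl_val]
  exact h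

end cartan

end SpW
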