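import Pool.Agent.Work.MP_3615d2_al.SchInt

/-!
# The action of the Hecke algebra on a smooth representation
-/

open MeasureTheory Filter Topology

namespace SpW.Hk

section

variable {G : Type} [Group G] [TopologicalSpace G] [IsTopologicalGroup G]
  {V : Type} [AddCommGroup V] [Module ℂ V] {π : G →* Module.End ℂ V}

theorem orbit_lc (hπ : IsSmoothRep π) (v : V) : IsLocallyConstant (fun g => π g v) := by
  rw [IsLocallyConstant.iff_eventually_eq]
  intro g
  have h1 : Tendsto (fun x : G => g⁻¹ * x) (𝓝 g) (𝓝 1) := by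
    have h2 : Continuous fun x : G => g⁻¹ * x := continuous_const.mul continuous_id
    have h3 := h2.tendsto g
    simpa using h3
  filter_upwards [h1.eventually (hπ v)] with x hx
  have h4 : π x v = π g (π (g⁻¹ * x) v) := by
    rw [← Module.End.mul_apply, ← map_mul, mul_inv_cancel_left]
  rw [h4, hx]

/-- the function `g ↦ φ(g) π(g) v` -/
def hkf (hπ : IsSmoothRep π) (φ : Sch G ℂ) (v : V) : Sch G V :=
  ⟨fun g => φ.1 g • π g v, by
    obtain ⟨h1, K, hK, h2⟩ := φ.2
    refine ⟨?_, K, hK, fun x hx => ?_⟩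
    · rw [IsLocallyConstant.iff_eventually_eq] at h1 ⊢
      intro x
      filter_upwards [h1 x, (IsLocallyConstant.iff_eventually_eq _).1 (orbit_lc hπ v) x]
        with y hy1 hy2
      rw [hy1, hy2]
    · change φ.1 x • π x v = 0
      rw [h2 x hx, zero_smul]⟩

/-- left translation -/
def lTr (h : G) : Sch G ℂ →ₗ[ℂ] Sch G ℂ where
  toFun φ := ⟨fun x => φ.1 (h⁻¹ * x), by
    obtain ⟨h1, K, hK, h2⟩ := φ.2
    refine ⟨h1.comp_continuous (continuous_const.mul continuous_id), (fun x => h * x) '' K,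
      hK.image (continuous_const.mul continuous_id), fun x hx => h2 _ fun hxK => ?_⟩
    exact hx ⟨h⁻¹ * x, hxK, mul_inv_cancel_left h x⟩⟩
  map_add' _ _ := rfl
  map_smul' _ _ := rfl

/-- right translation -/
def rTr (h : G) : Sch G ℂ →ₗ[ℂ] Sch G ℂ where
  toFun φ := ⟨fun x => φ.1 (x * h⁻¹), by
    obtain ⟨h1, K, hK, h2⟩ := φ.2
    refine ⟨h1.comp_continuous (continuous_id.mul continuous_const), (fun x => x * h) '' K,
      hK.image (continuous_id.mul continuous_const), fun x hx => h2 _ fun hxK => ?_⟩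
    exact hx ⟨x * h⁻¹, hxK, inv_mul_cancel_right x h⟩⟩
  map_add' _ _ := rfl
  map_smul' _ _ := rfl

theorem lTr_apply (h : G) (φ : Sch G ℂ) (x : G) : (lTr h φ).1 x = φ.1 (h⁻¹ * x) := rfl

theorem rTr_apply (h : G) (φ : Sch G ℂ) (x : G) : (rTr h φ).1 x = φ.1 (x * h⁻¹) := rfl

omit [IsTopologicalGroup G] in
/-- uniform local constancy for a continuous family of maps -/
theorem unif_lc {φ : G → ℂ} (hφ : IsLocallyConstant φ) {K : Set G} (hK : IsCompact K)
    (F : G → G → G) (hF : Continuous fun p : G × G => F p.1 p.2) (hF1 : ∀ x, F 1 x = x) :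
    ∀ᶠ g in 𝓝 (1 : G), ∀ x ∈ K, φ (F g x) = φ x := by
  refine hK.eventually_forall_of_forall_eventually fun x _ => ?_
  have h1 : ∀ᶠ p : G × G in 𝓝 (1, x), φ (F p.1 p.2) = φ (F 1 x) :=
    (IsLocallyConstant.iff_eventually_eq _).1 (hφ.comp_continuous hF) (1, x)
  have h2 : ∀ᶠ p : G × G in 𝓝 (1, x), φ p.2 = φ x :=
    (IsLocallyConstant.iff_eventually_eq _).1 (hφ.comp_continuous continuous_snd) (1, x)
  filter_upwards [h1, h2] with p hp1 hp2
  rw [hp1, hp2, hF1]

theorem lTr_smooth (φ : Sch G ℂ) : ∀ᶠ g in 𝓝 (1 : G), lTr g φ = φ := by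
  obtain ⟨h1, K, hK, h2⟩ := φ.2
  have h3 := unif_lc h1 hK (fun g x => g⁻¹ * x) (continuous_fst.inv.mul continuous_snd)
    (fun x => by simp)
  have h4 := unif_lc h1 hK (fun g x => g * x) (continuous_fst.mul continuous_snd)
    (fun x => by simp)
  filter_upwards [h3, h4] with g hg3 hg4
  apply Subtype.ext
  funext x
  rw [lTr_apply]
  by_cases hx : x ∈ K
  · exact hg3 x hx
  · rw [h2 x hx]
    by_cases hy : g⁻¹ * x ∈ K
    · have h5 := hg4 _ hy
      rw [mul_inv_cancel_left, h2 x hx] at h5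
      exact h5.symm
    · exact h2 _ hy

theorem rTr_smooth (φ : Sch G ℂ) : ∀ᶠ g in 𝓝 (1 : G), rTr g φ = φ := by
  obtain ⟨h1, K, hK, h2⟩ := φ.2
  have h3 := unif_lc h1 hK (fun g x => x * g⁻¹) (continuous_snd.mul continuous_fst.inv)
    (fun x => by simp)
  have h4 := unif_lc h1 hK (fun g x => x * g) (continuous_snd.mul continuous_fst)
    (fun x => by simp)
  filter_upwards [h3, h4] with g hg3 hg4
  apply Subtype.ext
  funext x
  rw [rTr_apply]
  by_cases hx : x ∈ K
  · exact hg3 x hx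
  · rw [h2 x hx]
    by_cases hy : x * g⁻¹ ∈ K
    · have h5 := hg4 _ hy
      rw [inv_mul_cancel_right, h2 x hx] at h5
      exact h5.symm
    · exact h2 _ hy

/-- the function `g ↦ ψ(g) R_g φ` -/
def rtf (φ ψ : Sch G ℂ) : Sch G (Sch G ℂ) :=
  ⟨fun g => ψ.1 g • rTr g φ, by
    obtain ⟨h1, K, hK, h2⟩ := ψ.2
    refine ⟨?_, K, hK, fun x hx => ?_⟩
    · rw [IsLocallyConstant.iff_eventually_eq] at h1 ⊢
      intro x
      have h3 : Tendsto (fun y : G => y * x⁻¹) (𝓝 x) (𝓝 1) := by
        have h4 : Continuous fun y : G => y * x⁻¹ := continuous_id.mul continuous_const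
        simpa using h4.tendsto x
      have h3' : Tendsto (fun y : G => x⁻¹ * y) (𝓝 x) (𝓝 1) := by
        have h4 : Continuous fun y : G => x⁻¹ * y := continuous_const.mul continuous_id
        simpa using h4.tendsto x
      filter_upwards [h1 x, h3'.eventually (rTr_smooth (rTr x φ))] with y hy1 hy2
      rw [hy1]
      congr 1
      rw [← hy2]
      apply Subtype.ext
      funext z
      rw [rTr_apply, rTr_apply, rTr_apply]
      group
    · change ψ.1 x • rTr x φ = 0
      rw [h2 x hx, zero_smul]⟩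

variable [MeasurableSpace G] [BorelSpace G] (μ : Measure G) [IsFiniteMeasureOnCompacts μ]

/-- the operator `π(φ)` -/
noncomputable def hk (hπ : IsSmoothRep π) : Sch G ℂ →ₗ[ℂ] Module.End ℂ V :=
  LinearMap.mk₂ ℂ (fun φ v => schIL G V μ (hkf hπ φ v))
    (fun φ ψ v => by
      rw [← map_add]
      congr 1
      apply Subtype.ext
      funext x
      exact add_smul _ _ _)
    (fun c φ v => by
      rw [← map_smul]
      congr 1
      apply Subtype.ext
      funext x
      exact mul_smul _ _ _)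
    (fun φ v w => by
      rw [← map_add]
      congr 1
      apply Subtype.ext
      funext x
      change φ.1 x • π x (v + w) = φ.1 x • π x v + φ.1 x • π x w
      rw [map_add, smul_add])
    (fun c φ v => by
      rw [← map_smul]
      congr 1
      apply Subtype.ext
      funext x
      change φ.1 x • π x (c • v) = c • (φ.1 x • π x v)
      rw [map_smul, smul_comm])

theorem hk_apply (hπ : IsSmoothRep π) (φ : Sch G ℂ) (v : V) :
    hk μ hπ φ v = schI μ (hkf hπ φ v) := rfl

theorem hk_lTr [μ.IsMulLeftInvariant] (hπ : IsSmoothRep π) (h : G) (φ : Sch G ℂ) :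
    hk μ hπ (lTr h φ) = π h * hk μ hπ φ := by
  apply LinearMap.ext
  intro v
  rw [Module.End.mul_apply, hk_apply, hk_apply, schI_map]
  refine (schI_congr_map μ _ _ (fun x => h * x) (measurePreserving_mul_left μ h) fun x => ?_).symm
  change π h (φ.1 x • π x v) = φ.1 (h⁻¹ * (h * x)) • π (h * x) v
  rw [inv_mul_cancel_left, map_smul, map_mul, Module.End.mul_apply]

theorem hk_rTr [μ.IsMulRightInvariant] (hπ : IsSmoothRep π) (h : G) (φ : Sch G ℂ) :
    hk μ hπ (rTr h φ) = hk μ hπ φ * π h := by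
  apply LinearMap.ext
  intro v
  rw [Module.End.mul_apply, hk_apply, hk_apply]
  refine (schI_congr_map μ _ _ (fun x => x * h) (measurePreserving_mul_right μ h) fun x => ?_).symm
  change φ.1 x • π x (π h v) = φ.1 (x * h * h⁻¹) • π (x * h) v
  rw [mul_inv_cancel_right, map_mul, Module.End.mul_apply]

/-- convolution -/
noncomputable def conv (φ ψ : Sch G ℂ) : Sch G ℂ := schI μ (rtf φ ψ)

theorem conv_map {W : Type} [AddCommGroup W] [Module ℂ W] (A : Sch G ℂ →ₗ[ℂ] W) (φ ψ : Sch G ℂ)
    (h : ∀ g, A (rTr g φ) = 0) : A (conv μ φ ψ) = 0 := by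
  rw [conv, schI_map]
  have h1 : schMap A (rtf φ ψ) = 0 := by
    apply Subtype.ext
    funext g
    change A (ψ.1 g • rTr g φ) = 0
    rw [map_smul, h, smul_zero]
  rw [h1]
  exact map_zero (schIL G W μ)

theorem hk_conv [μ.IsMulRightInvariant] (hπ : IsSmoothRep π) (φ ψ : Sch G ℂ) :
    hk μ hπ (conv μ φ ψ) = hk μ hπ φ * hk μ hπ ψ := by
  apply LinearMap.ext
  intro v
  have h1 := schI_map μ ((LinearMap.applyₗ v).comp (hk μ hπ)) (rtf φ ψ)
  rw [Module.End.mul_apply, hk_apply μ hπ ψ, schI_map]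
  change ((LinearMap.applyₗ v).comp (hk μ hπ)) (schI μ (rtf φ ψ)) = _
  rw [h1]
  congr 1
  apply Subtype.ext
  funext g
  change (hk μ hπ (ψ.1 g • rTr g φ)) v = hk μ hπ φ (ψ.1 g • π g v)
  rw [map_smul, map_smul, hk_rTr]
  rfl

/-- fixed vectors -/
def fixV (π : G →* Module.End ℂ V) (K : Subgroup G) : Submodule ℂ V where
  carrier := {v | ∀ k ∈ K, π k v = v}
  add_mem' := by
    intro v w hv hw k hk
    rw [map_add, hv k hk, hw k hk]
  zero_mem' := by
    intro k _
    exact map_zero _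
  smul_mem' := by
    intro c v hv k hk
    rw [map_smul, hv k hk]

/-- the indicator function of a compact open subgroup -/
noncomputable def indK (K : Subgroup G) (h1 : IsOpen (K : Set G)) (h2 : IsCompact (K : Set G)) :
    Sch G ℂ :=
  ⟨(K : Set G).indicator 1, by
    refine ⟨?_, K, h2, fun x hx => Set.indicator_of_notMem hx _⟩
    have hcl : IsClosed (K : Set G) := Subgroup.isClosed_of_isOpen K h1
    rw [IsLocallyConstant.iff_eventually_eq]
    intro x
    by_cases hx : x ∈ (K : Set G)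
    · filter_upwards [h1.mem_nhds hx] with y hy
      rw [Set.indicator_of_mem hy, Set.indicator_of_mem hx]
      rfl
    · filter_upwards [hcl.isOpen_compl.mem_nhds hx] with y hy
      rw [Set.indicator_of_notMem hy, Set.indicator_of_notMem hx]⟩

/-- the projection to the fixed vectors -/
noncomputable def eK (hπ : IsSmoothRep π) (K : Subgroup G) (h1 : IsOpen (K : Set G))
    (h2 : IsCompact (K : Set G)) : Module.End ℂ V :=
  ((μ.real (K : Set G) : ℝ) : ℂ)⁻¹ • hk μ hπ (indK K h1 h2)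

theorem eK_of_fix [μ.IsOpenPosMeasure] (hπ : IsSmoothRep π) {K : Subgroup G}
    (h1 : IsOpen (K : Set G)) (h2 : IsCompact (K : Set G)) {v : V} (hv : v ∈ fixV π K) :
    eK μ hπ K h1 h2 v = v := by
  have h3 : hk μ hπ (indK K h1 h2) v = ((μ.real (K : Set G) : ℝ) : ℂ) • v := by
    rw [hk_apply]
    refine schI_indicator_const μ _ h1 (fun x hx => ?_) (fun x hx => ?_)
    · change (K : Set G).indicator 1 x • π x v = v
      rw [Set.indicator_of_mem hx, Pi.one_apply, one_smul, hv x hx]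
    · change (K : Set G).indicator 1 x • π x v = 0
      rw [Set.indicator_of_notMem hx, zero_smul]
  rw [eK, LinearMap.smul_apply, h3, smul_smul, inv_mul_cancel₀, one_smul]
  have h4 : 0 < μ (K : Set G) := h1.measure_pos μ ⟨1, one_mem K⟩
  have h5 : μ (K : Set G) < ⊤ := h2.measure_lt_top
  have h6 : 0 < μ.real (K : Set G) := ENNReal.toReal_pos h4.ne' h5.ne
  exact_mod_cast h6.ne'

theorem eK_mem [μ.IsMulLeftInvariant] (hπ : IsSmoothRep π) {K : Subgroup G}
    (h1 : IsOpen (K : Set G)) (h2 : IsCompact (K : Set G)) (v : V) :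
    eK μ hπ K h1 h2 v ∈ fixV π K := by
  intro k hk'
  have h3 : lTr k (indK K h1 h2) = indK K h1 h2 := by
    apply Subtype.ext
    funext x
    change (K : Set G).indicator 1 (k⁻¹ * x) = (K : Set G).indicator 1 x
    by_cases hx : x ∈ (K : Set G)
    · rw [Set.indicator_of_mem hx, Set.indicator_of_mem (mul_mem (inv_mem hk') hx)]
      rfl
    · rw [Set.indicator_of_notMem hx, Set.indicator_of_notMem]
      intro h
      exact hx ((Subgroup.mul_mem_cancel_left K (inv_mem hk')).1 h)
  rw [eK, LinearMap.smul_apply, map_smul]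
  congr 1
  have h4 := hk_lTr μ hπ k (indK K h1 h2)
  rw [h3] at h4
  exact (LinearMap.congr_fun h4 v).symm

theorem hk_range_fix [μ.IsMulLeftInvariant] (hπ : IsSmoothRep π) {K : Subgroup G} {φ : Sch G ℂ}
    (h : ∀ k ∈ K, lTr k φ = φ) : LinearMap.range (hk μ hπ φ) ≤ fixV π K := by
  rintro _ ⟨v, rfl⟩ k hk'
  have h4 := hk_lTr μ hπ k φ
  rw [h k hk'] at h4
  exact (LinearMap.congr_fun h4 v).symm

theorem hk_eK [μ.IsMulRightInvariant] [μ.IsOpenPosMeasure] (hπ : IsSmoothRep π) {K : Subgroup G}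
    (h1 : IsOpen (K : Set G)) (h2 : IsCompact (K : Set G)) {φ : Sch G ℂ}
    (h : ∀ k ∈ K, rTr k φ = φ) (v : V) : hk μ hπ φ (eK μ hπ K h1 h2 v) = hk μ hπ φ v := by
  have h3 : hk μ hπ φ (hk μ hπ (indK K h1 h2) v) =
      ((μ.real (K : Set G) : ℝ) : ℂ) • hk μ hπ φ v := by
    rw [hk_apply μ hπ (indK K h1 h2), schI_map]
    refine schI_indicator_const μ _ h1 (fun x hx => ?_) (fun x hx => ?_)
    · change hk μ hπ φ ((K : Set G).indicator 1 x • π x v) = _
      rw [Set.indicator_of_mem hx, Pi.one_apply, one_smul]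
      have h4 := hk_rTr μ hπ x φ
      rw [h x hx] at h4
      exact (LinearMap.congr_fun h4 v).symm
    · change hk μ hπ φ ((K : Set G).indicator 1 x • π x v) = _
      rw [Set.indicator_of_notMem hx, zero_smul, map_zero]
  rw [eK, LinearMap.smul_apply, map_smul, h3, smul_smul, inv_mul_cancel₀, one_smul]
  have h4 : 0 < μ (K : Set G) := h1.measure_pos μ ⟨1, one_mem K⟩
  have h5 : μ (K : Set G) < ⊤ := h2.measure_lt_top
  have h6 : 0 < μ.real (K : Set G) := ENNReal.toReal_pos h4.ne' h5.ne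
  exact_mod_cast h6.ne'

end

end SpW.Hk
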