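import Pool.Agent.Work.MP_3615d2_al.DualIrr
import Pool.Agent.Work.MP_3615d2_al.DualNorm

/-!
MP_3615d2_al: the smooth dual of the Weil representation `ω_{X,ψ,μ}` is the Weil representation
`ω_{X,ψ⁻¹,μ⁻¹}`.
-/

namespace SpW

section main

variable {F E : Type} [NontriviallyNormedField F] [IsUltrametricDist F] [ProperSpace F]
  [NontriviallyNormedField E] [NormedAlgebra F E] [IsUltrametricDist E]
  [ProperSpace E] [MeasurableSpace E] [BorelSpace E]
  {σ : E ≃ₐ[F] E} {δ : E} {d : F} {N : ℕ} {H : Matrix (Fin N) (Fin N) E}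
  {ψ : AddChar F Circle} {μ : Eˣ →* ℂˣ} {S : Type} [AddCommGroup S] [Module ℂ S]
  {ρ : (Fin N → E) → Module.End ℂ S} {ω : unitary σ H →* Module.End ℂ S}

theorem weil_dual (hW : IsWeil σ H ψ μ ρ ω) (hq : QuadDatum σ δ d) (hH : IsSkew σ H)
    (hψ : Continuous ψ) (hψ1 : ψ ≠ 1) (hμ : ConjSymplectic F μ) :
    IsWeil σ H (ψ⁻¹) (μ⁻¹) (rhoD hW hq hH hψ) (omD hW) where
  nontrivial := hDual_nontrivial hW hq hH hψ hψ1
  rho_mul := rhoD_mul hW hq hH hψ
  rho_smooth := rhoD_smooth hW hq hH hψ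
  rho_irr := rhoD_irr hW hq hH hψ hψ1
  om_smooth := omD_smooth hW hq hH hψ hψ1
  om_rho := omD_rhoD hW hq hH hψ
  normalised := omD_normalised hW hq hH hψ hψ1 hμ

omit [IsUltrametricDist F] [ProperSpace F] [IsUltrametricDist E] [ProperSpace E]
  [MeasurableSpace E] [BorelSpace E] in
theorem conjSymplectic_inv (hμ : ConjSymplectic F μ) : ConjSymplectic F (μ⁻¹) where
  cont := by
    have h : ((μ⁻¹ : Eˣ →* ℂˣ) : Eˣ → ℂˣ) = fun x => (μ x)⁻¹ := rfl
    rw [h]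
    exact hμ.cont.inv
  norm x hx := by
    rw [MonoidHom.inv_apply, hμ.norm x hx, inv_one]
  nonnorm x hx := by
    rw [MonoidHom.inv_apply, hμ.nonnorm x hx]
    rw [inv_neg, inv_one]

theorem inv_char_ne {F : Type} [Field F] {ψ : AddChar F Circle} (h : ψ ≠ 1) : ψ⁻¹ ≠ 1 := by
  intro h1
  exact h (inv_eq_one.1 h1)

end main

end SpW
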