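import Pool.Agent.Work.MP_3615d2_al.BlkFind

/-!
MP_3615d2_al: the algebra of a block (module T3): the action of `R`, the orbit map `blk` is
`F`-linear, injective, compatible with `δ` and `J`; the form on a block; orthogonal decomposition;
existence and uniqueness of the element of `U(X)` attached to `u` with `u ū = 1`; it fixes `B`.
-/

open Polynomial
open scoped Quaternion

namespace SpW

section linalg

variable {F E : Type} [Field F] [Field E] [Algebra F E] {σ : E ≃ₐ[F] E} {δ : E} {d : F} {N : ℕ}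
  {H B : Matrix (Fin N) (Fin N) E}

/-! ### The form -/

theorem bsk_add_left (x x' y : Fin N → E) : sk σ H (x + x') y = sk σ H x y + sk σ H x' y := by
  simp only [sk, Pi.add_apply, add_mul, Finset.sum_add_distrib]

theorem bsk_smul_left (c : E) (x y : Fin N → E) : sk σ H (c • x) y = c * sk σ H x y := by
  simp only [sk, Pi.smul_apply, smul_eq_mul, Finset.mul_sum, mul_assoc]

theorem bsk_add_right (x y y' : Fin N → E) : sk σ H x (y + y') = sk σ H x y + sk σ H x y' := by
  simp only [sk, Pi.add_apply, map_add, mul_add, Finset.sum_add_distrib]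

theorem bsk_smul_right (c : E) (x y : Fin N → E) : sk σ H x (c • y) = σ c * sk σ H x y := by
  simp only [sk, Pi.smul_apply, smul_eq_mul, map_mul, Finset.mul_sum]
  refine Finset.sum_congr rfl fun i _ => Finset.sum_congr rfl fun j _ => ?_
  ring

theorem bfsmul (c : F) (x : Fin N → E) : c • x = (algebraMap F E c) • x := by
  funext i
  simp [Algebra.smul_def]

theorem bsk_fsmul_left (c : F) (x y : Fin N → E) :
    sk σ H (c • x) y = algebraMap F E c * sk σ H x y := by
  rw [bfsmul, bsk_smul_left]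

theorem bsk_fsmul_right (c : F) (x y : Fin N → E) :
    sk σ H x (c • y) = algebraMap F E c * sk σ H x y := by
  rw [bfsmul, bsk_smul_right, AlgEquiv.commutes]

theorem bsk_zero_left (y : Fin N → E) : sk σ H 0 y = 0 := by
  simp [sk]

theorem bsk_zero_right (y : Fin N → E) : sk σ H y 0 = 0 := by
  simp [sk]

theorem bsk_neg_left (x y : Fin N → E) : sk σ H (-x) y = - sk σ H x y := by
  have := bsk_smul_left (σ := σ) (H := H) (-1 : E) x y
  simpa using this

theorem bsk_neg_right (x y : Fin N → E) : sk σ H x (-y) = - sk σ H x y := by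
  have := bsk_smul_right (σ := σ) (H := H) (-1 : E) x y
  simpa using this

theorem bsk_sub_left (x x' y : Fin N → E) : sk σ H (x - x') y = sk σ H x y - sk σ H x' y := by
  rw [sub_eq_add_neg, bsk_add_left, bsk_neg_left, ← sub_eq_add_neg]

theorem bsk_sub_right (x y y' : Fin N → E) : sk σ H x (y - y') = sk σ H x y - sk σ H x y' := by
  rw [sub_eq_add_neg, bsk_add_right, bsk_neg_right, ← sub_eq_add_neg]

theorem bsk_skew (hq : QuadDatum σ δ d) (hH : IsSkew σ H) (x y : Fin N → E) :
    sk σ H y x = - σ (sk σ H x y) := by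
  simp only [sk, map_sum, map_mul]
  rw [Finset.sum_comm, ← Finset.sum_neg_distrib]
  refine Finset.sum_congr rfl fun i _ => ?_
  rw [← Finset.sum_neg_distrib]
  refine Finset.sum_congr rfl fun j _ => ?_
  rw [hH.skew i j, sig_sig hq]
  ring

theorem bsk_eq_dot (x y : Fin N → E) : sk σ H x y = x ⬝ᵥ H.mulVec (fun j => σ (y j)) := by
  simp only [sk, dotProduct, Matrix.mulVec, Finset.mul_sum, mul_assoc]

theorem bsk_nondeg_right (hH : IsSkew σ H) {y : Fin N → E} (h : ∀ x, sk σ H x y = 0) : y = 0 := by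
  have h1 : H.mulVec (fun j => σ (y j)) = 0 := by
    apply dotProduct_eq_zero
    intro w
    rw [dotProduct_comm, ← bsk_eq_dot, h]
  have h2 : (fun j => σ (y j)) = 0 := by
    by_contra h3
    exact hH.det_ne ((Matrix.exists_mulVec_eq_zero_iff).1 ⟨_, h3, h1⟩)
  funext j
  have h4 := congrFun h2 j
  simpa using h4

/-! ### The symplectic form -/

theorem bsy_eq (hq : QuadDatum σ δ d) (x y : Fin N → E) :
    algebraMap F E (sympl F σ H x y) = sk σ H x y + σ (sk σ H x y) :=
  hq.trace_eq _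

theorem bsy_add_left (x x' y : Fin N → E) :
    sympl F σ H (x + x') y = sympl F σ H x y + sympl F σ H x' y := by
  simp only [sympl, bsk_add_left, map_add]

theorem bsy_add_right (x y y' : Fin N → E) :
    sympl F σ H x (y + y') = sympl F σ H x y + sympl F σ H x y' := by
  simp only [sympl, bsk_add_right, map_add]

theorem bsy_smul_left (c : F) (x y : Fin N → E) :
    sympl F σ H (c • x) y = c * sympl F σ H x y := by
  simp only [sympl, bsk_fsmul_left, ← Algebra.smul_def, map_smul, smul_eq_mul]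

theorem bsy_smul_right (c : F) (x y : Fin N → E) :
    sympl F σ H x (c • y) = c * sympl F σ H x y := by
  simp only [sympl, bsk_fsmul_right, ← Algebra.smul_def, map_smul, smul_eq_mul]

/-- If `Tr e = 0` and `Tr (δ e) = 0` then `e = 0`. -/
theorem QuadDatum.eq_zero_of_trace (hq : QuadDatum σ δ d) {e : E}
    (h1 : Algebra.trace F E e = 0) (h2 : Algebra.trace F E (δ * e) = 0) : e = 0 := by
  have h3 := hq.trace_eq e
  have h4 := hq.trace_eq (δ * e)
  rw [h1, map_zero] at h3
  rw [h2, map_zero, map_mul, hq.sig] at h4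
  have h5 : 2 * δ * e = 0 := by linear_combination -h4 - δ * h3
  have h6 : (2 * δ : E) ≠ 0 := mul_ne_zero hq.two_E hq.ne
  exact (mul_eq_zero.1 h5).resolve_left h6

/-- `⟨x,y⟩ = 0` for all `x` in an `E`-stable set implies `h(x,y) = 0` there. -/
theorem bsk_zero_of_sympl (hq : QuadDatum σ δ d) {x y : Fin N → E}
    (h1 : sympl F σ H x y = 0) (h2 : sympl F σ H (δ • x) y = 0) : sk σ H x y = 0 := by
  apply hq.eq_zero_of_trace h1
  rw [← bsk_smul_left]
  exact h2

/-! ### `J` and `A` -/

theorem bJ_A_comm : Commute (Jlin σ H B) (Alin σ H B) := by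
  unfold Alin
  exact (Commute.refl _).mul_right (Commute.refl _)

theorem bJ_aeval_comm (f : F[X]) : Commute (Jlin σ H B) (aeval (Alin σ H B) f) := by
  rw [aeval_eq_sum_range]
  refine Commute.sum_right _ _ _ fun i _ => ?_
  exact (bJ_A_comm.pow_right i).smul_right _

theorem bJ_aeval (f : F[X]) (x : Fin N → E) :
    Jlin σ H B (aeval (Alin σ H B) f x) = aeval (Alin σ H B) f (Jlin σ H B x) := by
  have := bJ_aeval_comm (σ := σ) (H := H) (B := B) f
  exact congrArg (fun g : Module.End F (Fin N → E) => g x) this.eq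

theorem bA_smul (hq : QuadDatum σ δ d) (c : E) (x : Fin N → E) :
    Alin σ H B (c • x) = c • Alin σ H B x := by
  show Jlin σ H B (Jlin σ H B (c • x)) = c • Jlin σ H B (Jlin σ H B x)
  rw [BX.J_smul, BX.J_smul, sig_sig hq]

theorem bApow_smul (hq : QuadDatum σ δ d) (c : E) (k : ℕ) (x : Fin N → E) :
    (Alin σ H B ^ k) (c • x) = c • (Alin σ H B ^ k) x := by
  induction k generalizing x with
  | zero => simp
  | succ k ih =>
    rw [pow_succ, Module.End.mul_apply, Module.End.mul_apply, bA_smul hq, ih]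

theorem baeval_smul (hq : QuadDatum σ δ d) (f : F[X]) (c : E) (x : Fin N → E) :
    aeval (Alin σ H B) f (c • x) = c • aeval (Alin σ H B) f x := by
  rw [aeval_eq_sum_range]
  simp only [LinearMap.sum_apply, LinearMap.smul_apply, Finset.smul_sum]
  refine Finset.sum_congr rfl fun i _ => ?_
  rw [bApow_smul hq, smul_comm]

theorem bApow_adj (hq : QuadDatum σ δ d) (hH : IsSkew σ H) (hB : B.transpose = -B) (k : ℕ)
    (x y : Fin N → E) :
    sk σ H ((Alin σ H B ^ k) x) y = sk σ H x ((Alin σ H B ^ k) y) := by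
  induction k generalizing x y with
  | zero => simp
  | succ k ih =>
    rw [pow_succ, Module.End.mul_apply, ih, BX.A_adj hq hH hB, ← Module.End.mul_apply, ← pow_succ',
      ← pow_succ]

theorem baeval_adj (hq : QuadDatum σ δ d) (hH : IsSkew σ H) (hB : B.transpose = -B) (f : F[X])
    (x y : Fin N → E) :
    sk σ H (aeval (Alin σ H B) f x) y = sk σ H x (aeval (Alin σ H B) f y) := by
  induction f using Polynomial.induction_on' with
  | add f g hf hg =>
    simp only [map_add, LinearMap.add_apply, bsk_add_left, bsk_add_right, hf, hg]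
  | monomial k c =>
    rw [aeval_monomial]
    simp only [Module.End.mul_apply, Module.algebraMap_end_apply, bsk_fsmul_left, bsk_fsmul_right,
      bApow_adj hq hH hB]

theorem bJ_poly_self (hq : QuadDatum σ δ d) (hH : IsSkew σ H) (hB : B.transpose = -B) (f : F[X])
    (x : Fin N → E) : sk σ H x (Jlin σ H B (aeval (Alin σ H B) f x)) = 0 := by
  have hanti : ∀ y z : Fin N → E, y ⬝ᵥ B.mulVec z = - (z ⬝ᵥ B.mulVec y) := by
    intro y z
    rw [Matrix.dotProduct_mulVec, ← Matrix.mulVec_transpose, hB, dotProduct_comm,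
      Matrix.neg_mulVec, dotProduct_neg]
  have h1 : sk σ H x (Jlin σ H B (aeval (Alin σ H B) f x)) =
      - sk σ H x (Jlin σ H B (aeval (Alin σ H B) f x)) := by
    conv_lhs => rw [bJ_aeval, ← baeval_adj hq hH hB, BX.J_form hq hH, hanti, ← BX.J_form hq hH]
  have h2 : (2 : E) * sk σ H x (Jlin σ H B (aeval (Alin σ H B) f x)) = 0 := by
    linear_combination h1
  exact (mul_eq_zero.1 h2).resolve_left hq.two_E

theorem bfix_of_comm (hq : QuadDatum σ δ d) (hH : IsSkew σ H) (g : unitary σ H) (B : Alt N E)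
    (h : ∀ x, Jlin σ H B.1 ((umat g).mulVec x) = (umat g).mulVec (Jlin σ H B.1 x)) :
    (g : GL (Fin N) E) • B = B := by
  have h1 : ∀ y z : Fin N → E, (umat g).mulVec y ⬝ᵥ B.1.mulVec ((umat g).mulVec z) =
      y ⬝ᵥ B.1.mulVec z := by
    intro y z
    rw [← BX.J_form hq hH, h, g.2, BX.J_form hq hH]
  have h2 : (umat g).transpose * B.1 * umat g = B.1 := by
    ext i j
    have h3 := h1 (Pi.single i 1) (Pi.single j 1)
    rw [Matrix.mulVec_mulVec, Matrix.mulVec_single_one, Matrix.mulVec_single_one,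
      Matrix.mulVec_single_one, single_one_dotProduct] at h3
    rw [Matrix.mul_assoc]
    exact h3
  apply Subtype.ext
  show (((g : GL (Fin N) E)⁻¹ : GL (Fin N) E) : Matrix (Fin N) (Fin N) E).transpose * B.1 *
      (((g : GL (Fin N) E)⁻¹ : GL (Fin N) E) : Matrix (Fin N) (Fin N) E) = B.1
  have h4 : umat g * (((g : GL (Fin N) E)⁻¹ : GL (Fin N) E) : Matrix (Fin N) (Fin N) E) = 1 := by
    rw [← Units.val_mul, mul_inv_cancel, Units.val_one]
  have h5 : (((g : GL (Fin N) E)⁻¹ : GL (Fin N) E) : Matrix (Fin N) (Fin N) E).transpose *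
      (umat g).transpose = 1 := by
    rw [← Matrix.transpose_mul, h4, Matrix.transpose_one]
  conv_lhs => rw [← h2]
  rw [← Matrix.mul_assoc, ← Matrix.mul_assoc, h5, Matrix.one_mul, Matrix.mul_assoc, h4,
    Matrix.mul_one]

/-! ### The action of `R` -/

variable {p : F[X]} {n : ℕ} {x : Fin N → E}

theorem ract_mk (hx : aeval (Alin σ H B) (p ^ n) x = 0) (f : F[X]) :
    ract σ H B p n x (AdjoinRoot.mk (p ^ n) f) = aeval (Alin σ H B) f x := by
  unfold ract
  set g : F[X] := (Quotient.out (s := Submodule.quotientRel (Ideal.span {p ^ n}))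
    (AdjoinRoot.mk (p ^ n) f) : F[X]) with hg
  have h1 : AdjoinRoot.mk (p ^ n) g = AdjoinRoot.mk (p ^ n) f :=
    Quotient.out_eq (s := Submodule.quotientRel (Ideal.span {p ^ n})) (AdjoinRoot.mk (p ^ n) f)
  rw [AdjoinRoot.mk_eq_mk] at h1
  obtain ⟨q, hq⟩ := h1
  have h2 : g = f + q * p ^ n := by rw [← sub_eq_iff_eq_add', hq, mul_comm]
  rw [h2, map_add, LinearMap.add_apply, map_mul, Module.End.mul_apply, hx, map_zero, add_zero]

theorem bJ_kill (hx : aeval (Alin σ H B) (p ^ n) x = 0) :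
    aeval (Alin σ H B) (p ^ n) (Jlin σ H B x) = 0 := by
  rw [← bJ_aeval, hx, map_zero]

theorem ract_add (hx : aeval (Alin σ H B) (p ^ n) x = 0) (r r' : RR p n) :
    ract σ H B p n x (r + r') = ract σ H B p n x r + ract σ H B p n x r' := by
  obtain ⟨f, rfl⟩ := AdjoinRoot.mk_surjective r
  obtain ⟨f', rfl⟩ := AdjoinRoot.mk_surjective r'
  rw [← map_add, ract_mk hx, ract_mk hx, ract_mk hx, map_add, LinearMap.add_apply]

theorem ract_mk_mul (hx : aeval (Alin σ H B) (p ^ n) x = 0) (f : F[X]) (r : RR p n) :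
    ract σ H B p n x (AdjoinRoot.mk (p ^ n) f * r) =
      aeval (Alin σ H B) f (ract σ H B p n x r) := by
  obtain ⟨g, rfl⟩ := AdjoinRoot.mk_surjective r
  rw [← map_mul, ract_mk hx, ract_mk hx, map_mul, Module.End.mul_apply]

theorem ract_smul (hx : aeval (Alin σ H B) (p ^ n) x = 0) (c : F) (r : RR p n) :
    ract σ H B p n x (c • r) = c • ract σ H B p n x r := by
  have h1 : c • r = AdjoinRoot.mk (p ^ n) (C c) * r := by
    rw [Algebra.smul_def]; rfl
  rw [h1, ract_mk_mul hx, aeval_C, Module.algebraMap_end_apply]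

theorem ract_algebraMap_mul (hx : aeval (Alin σ H B) (p ^ n) x = 0) (c : F) (r : RR p n) :
    ract σ H B p n x (algebraMap F (RR p n) c * r) = c • ract σ H B p n x r := by
  rw [← Algebra.smul_def, ract_smul hx]

theorem ract_root_mul (hx : aeval (Alin σ H B) (p ^ n) x = 0) (r : RR p n) :
    ract σ H B p n x (AdjoinRoot.root (p ^ n) * r) = Alin σ H B (ract σ H B p n x r) := by
  rw [← AdjoinRoot.mk_X, ract_mk_mul hx, aeval_X]

theorem ract_J (hx : aeval (Alin σ H B) (p ^ n) x = 0) (r : RR p n) :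
    ract σ H B p n (Jlin σ H B x) r = Jlin σ H B (ract σ H B p n x r) := by
  obtain ⟨f, rfl⟩ := AdjoinRoot.mk_surjective r
  rw [ract_mk hx, ract_mk (bJ_kill hx), bJ_aeval]

theorem ract_neg (hx : aeval (Alin σ H B) (p ^ n) x = 0) (r : RR p n) :
    ract σ H B p n x (-r) = - ract σ H B p n x r := by
  have := ract_smul hx (-1) r
  simpa using this

/-- `ract` as a linear map. -/
noncomputable def ractL (hx : aeval (Alin σ H B) (p ^ n) x = 0) : RR p n →ₗ[F] (Fin N → E) where
  toFun := ract σ H B p n x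
  map_add' := ract_add hx
  map_smul' := ract_smul hx

theorem blk_eq (hx : aeval (Alin σ H B) (p ^ n) x = 0) (a : DD d p n) :
    blk σ H B δ p n x a = ract σ H B p n x a.re + δ • ract σ H B p n x a.imI
      + Jlin σ H B (ract σ H B p n x a.imJ) + δ • Jlin σ H B (ract σ H B p n x a.imK) := by
  unfold blk
  rw [ract_J hx, ract_J hx]

theorem blk_add (hx : aeval (Alin σ H B) (p ^ n) x = 0) (a b : DD d p n) :
    blk σ H B δ p n x (a + b) = blk σ H B δ p n x a + blk σ H B δ p n x b := by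
  rw [blk_eq hx, blk_eq hx, blk_eq hx]
  simp only [QuaternionAlgebra.re_add, QuaternionAlgebra.imI_add, QuaternionAlgebra.imJ_add,
    QuaternionAlgebra.imK_add, ract_add hx, map_add, smul_add]
  abel

theorem blk_smul (hx : aeval (Alin σ H B) (p ^ n) x = 0) (c : F) (a : DD d p n) :
    blk σ H B δ p n x (c • a) = c • blk σ H B δ p n x a := by
  rw [blk_eq hx, blk_eq hx]
  simp only [QuaternionAlgebra.re_smul, QuaternionAlgebra.imI_smul, QuaternionAlgebra.imJ_smul,
    QuaternionAlgebra.imK_smul, ract_smul hx, map_smul, smul_add, smul_comm δ c]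

/-- `blk` is `F`-linear (as a linear map), when `p(A)^n x = 0`. -/
noncomputable def blkL (δ : E) (d : F) (hx : aeval (Alin σ H B) (p ^ n) x = 0) :
    DD d p n →ₗ[F] (Fin N → E) where
  toFun := blk σ H B δ p n x
  map_add' := blk_add hx
  map_smul' := blk_smul hx

theorem blk_lin (hq : QuadDatum σ δ d) (hx : aeval (Alin σ H B) (p ^ n) x = 0) :
    ∃ f : DD d p n →ₗ[F] (Fin N → E), ∀ a, f a = blk σ H B δ p n x a :=
  ⟨blkL δ d hx, fun _ => rfl⟩

theorem blk_zero (hx : aeval (Alin σ H B) (p ^ n) x = 0) :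
    blk σ H B δ p n x (0 : DD d p n) = 0 := (blkL δ d hx).map_zero

theorem blk_neg (hx : aeval (Alin σ H B) (p ^ n) x = 0) (a : DD d p n) :
    blk σ H B δ p n x (-a) = - blk σ H B δ p n x a := (blkL δ d hx).map_neg a

theorem blk_sub (hx : aeval (Alin σ H B) (p ^ n) x = 0) (a b : DD d p n) :
    blk σ H B δ p n x (a - b) = blk σ H B δ p n x a - blk σ H B δ p n x b :=
  (blkL δ d hx).map_sub a b

theorem blk_E (hq : QuadDatum σ δ d) (hx : aeval (Alin σ H B) (p ^ n) x = 0) (a : DD d p n) :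
    δ • blk σ H B δ p n x a = blk σ H B δ p n x (⟨0, 1, 0, 0⟩ * a) := by
  rw [blk_eq hx, blk_eq hx]
  simp only [QuaternionAlgebra.re_mul, QuaternionAlgebra.imI_mul, QuaternionAlgebra.imJ_mul,
    QuaternionAlgebra.imK_mul, zero_mul, one_mul, zero_add, add_zero, mul_zero, sub_zero, zero_sub,
    mul_one]
  have hδ : ∀ y : Fin N → E, δ • δ • y = d • y := by
    intro y
    rw [smul_smul, hq.sq, ← bfsmul]
  simp only [smul_add, hδ, ract_algebraMap_mul hx, map_smul]
  abel

theorem blk_J (hq : QuadDatum σ δ d) (hx : aeval (Alin σ H B) (p ^ n) x = 0) (a : DD d p n) :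
    Jlin σ H B (blk σ H B δ p n x a) = blk σ H B δ p n x (⟨0, 0, 1, 0⟩ * a) := by
  rw [blk_eq hx, blk_eq hx]
  simp only [QuaternionAlgebra.re_mul, QuaternionAlgebra.imI_mul, QuaternionAlgebra.imJ_mul,
    QuaternionAlgebra.imK_mul, zero_mul, one_mul, zero_add, add_zero, mul_zero, sub_zero, zero_sub,
    mul_one]
  have hJJ : ∀ y : Fin N → E, Jlin σ H B (Jlin σ H B y) = Alin σ H B y := fun _ => rfl
  simp only [map_add, BX.J_smul, hq.sig, hJJ, ract_neg hx, ract_root_mul hx, smul_neg, neg_smul,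
    map_neg]
  abel

/-! ### The form on a block -/

theorem ract_self_adj (hq : QuadDatum σ δ d) (hH : IsSkew σ H) (hB : B.transpose = -B)
    (hx : aeval (Alin σ H B) (p ^ n) x = 0) (r : RR p n) :
    sk σ H (ract σ H B p n x r) x = sk σ H x (ract σ H B p n x r) := by
  obtain ⟨f, rfl⟩ := AdjoinRoot.mk_surjective r
  rw [ract_mk hx, baeval_adj hq hH hB]

theorem exists_s (hq : QuadDatum σ δ d) (hH : IsSkew σ H) (hB : B.transpose = -B)
    (hx : aeval (Alin σ H B) (p ^ n) x = 0) :
    ∃ s : RR p n →ₗ[F] F,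
      ∀ r, algebraMap F E (s r) * δ = sk σ H (ract σ H B p n x r) x := by
  have h1 : ∀ r : RR p n, ∃ a : F, algebraMap F E a * δ = sk σ H (ract σ H B p n x r) x := by
    intro r
    apply hq.mem_of_anti
    have h2 := bsk_skew hq hH (ract σ H B p n x r) x
    rw [← ract_self_adj hq hH hB hx] at h2
    linear_combination h2
  choose s hs using h1
  have hinj : ∀ a b : F, algebraMap F E a * δ = algebraMap F E b * δ → a = b := by
    intro a b h
    exact (algebraMap F E).injective (mul_right_cancel₀ hq.ne h)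
  refine ⟨{ toFun := s, map_add' := ?_, map_smul' := ?_ }, hs⟩
  · intro r r'
    apply hinj
    rw [hs, map_add, add_mul, hs, hs, ract_add hx, bsk_add_left]
  · intro c r
    apply hinj
    rw [hs, RingHom.id_apply, smul_eq_mul, map_mul, mul_assoc, hs, ract_smul hx, bsk_fsmul_left]

/-- The pairing `s(r r')` on `R` is perfect as soon as `s` does not kill the socle. -/
theorem s_perfect (hp : Irreducible p) (s : RR p n →ₗ[F] F)
    (hs : ∃ r, s (r * AdjoinRoot.mk (p ^ n) p ^ (n - 1)) ≠ 0) (r : RR p n)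
    (h : ∀ r', s (r * r') = 0) : r = 0 := by
  obtain ⟨f, rfl⟩ := AdjoinRoot.mk_surjective r
  by_contra hr
  have hf0 : f ≠ 0 := by
    rintro rfl
    exact hr (map_zero _)
  obtain ⟨k, g, hg, hfg⟩ := WfDvdMonoid.max_power_factor hf0 hp
  have hk : k < n := by
    by_contra hk
    push Not at hk
    apply hr
    rw [AdjoinRoot.mk_eq_zero, hfg]
    exact (pow_dvd_pow p hk).mul_right g
  have hcop : IsCoprime p g := (Irreducible.coprime_iff_not_dvd hp).2 hg
  obtain ⟨a, b, hab⟩ := hcop
  obtain ⟨r0, hr0⟩ := hs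
  apply hr0
  have h1 := h (AdjoinRoot.mk (p ^ n) (p ^ (n - 1 - k) * b) * r0)
  have h2 : AdjoinRoot.mk (p ^ n) f * (AdjoinRoot.mk (p ^ n) (p ^ (n - 1 - k) * b) * r0) =
      r0 * AdjoinRoot.mk (p ^ n) p ^ (n - 1) := by
    rw [← mul_assoc, ← map_mul, ← map_pow, mul_comm r0]
    congr 1
    rw [AdjoinRoot.mk_eq_mk, hfg]
    have h3 : p ^ k * g * (p ^ (n - 1 - k) * b) = p ^ (n - 1) * (b * g) := by
      have : p ^ (n - 1) = p ^ k * p ^ (n - 1 - k) := by
        rw [← pow_add]; congr 1; omega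
      rw [this]; ring
    rw [h3]
    have h4 : b * g = 1 - a * p := by linear_combination hab
    rw [h4]
    refine ⟨-a, ?_⟩
    have h5 : p ^ n = p ^ (n - 1) * p := by
      rw [← pow_succ]; congr 1; omega
    rw [h5]; ring
  rw [h2] at h1
  exact h1

theorem blk_form (hq : QuadDatum σ δ d) (hH : IsSkew σ H) (hB : B.transpose = -B)
    (hx : IsBlock σ H B p n x) :
    ∃ s : RR p n →ₗ[F] F, (∀ r, (∀ r', s (r * r') = 0) → r = 0) ∧
      (∃ r, s (r * AdjoinRoot.mk (p ^ n) p ^ (n - 1)) ≠ 0) ∧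
      (∀ r, algebraMap F E (s r) * δ = sk σ H (ract σ H B p n x r) x) ∧
      ∀ a b : DD d p n, sympl F σ H (blk σ H B δ p n x a) (blk σ H B δ p n x b) =
        s (2 * ((⟨0, 1, 0, 0⟩ : DD d p n) * a * star b).re) := by
  have hx0 := hx.kill
  obtain ⟨s, hs⟩ := exists_s hq hH hB hx0
  have htop : ∃ r, s (r * AdjoinRoot.mk (p ^ n) p ^ (n - 1)) ≠ 0 := by
    obtain ⟨r, hr⟩ := hx.top
    refine ⟨AdjoinRoot.mk (p ^ n) r, ?_⟩
    intro h
    apply hr
    have h1 := hs (AdjoinRoot.mk (p ^ n) r * AdjoinRoot.mk (p ^ n) p ^ (n - 1))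
    rw [h, map_zero, zero_mul, ← map_pow, ← map_mul, ract_mk hx0] at h1
    exact h1.symm
  refine ⟨s, s_perfect hx.irr s htop, htop, hs, ?_⟩
  -- the basic values of the form
  have v1 : ∀ r r' : RR p n, sk σ H (ract σ H B p n x r) (ract σ H B p n x r') =
      algebraMap F E (s (r * r')) * δ := by
    intro r r'
    obtain ⟨f, rfl⟩ := AdjoinRoot.mk_surjective r
    obtain ⟨f', rfl⟩ := AdjoinRoot.mk_surjective r'
    rw [hs, ← map_mul, ract_mk hx0, ract_mk hx0, ract_mk hx0, ← baeval_adj hq hH hB,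
      ← Module.End.mul_apply, ← map_mul, mul_comm]
  have v2 : ∀ r r' : RR p n,
      sk σ H (ract σ H B p n x r) (Jlin σ H B (ract σ H B p n x r')) = 0 := by
    intro r r'
    obtain ⟨f, rfl⟩ := AdjoinRoot.mk_surjective r
    obtain ⟨f', rfl⟩ := AdjoinRoot.mk_surjective r'
    have h1 : aeval (Alin σ H B) f (aeval (Alin σ H B) f' x) =
        aeval (Alin σ H B) (f * f') x := by rw [map_mul]; rfl
    rw [ract_mk hx0, ract_mk hx0, baeval_adj hq hH hB, ← bJ_aeval, h1, bJ_poly_self hq hH hB]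
  have v3 : ∀ r r' : RR p n,
      sk σ H (Jlin σ H B (ract σ H B p n x r)) (ract σ H B p n x r') = 0 := by
    intro r r'
    rw [bsk_skew hq hH (ract σ H B p n x r') (Jlin σ H B (ract σ H B p n x r)), v2, map_zero,
      neg_zero]
  have v4 : ∀ r r' : RR p n,
      sk σ H (Jlin σ H B (ract σ H B p n x r)) (Jlin σ H B (ract σ H B p n x r')) =
        - (algebraMap F E (s (AdjoinRoot.root (p ^ n) * (r * r'))) * δ) := by
    intro r r'
    rw [BX.J_adj hq hH hB]
    have h1 : Jlin σ H B (Jlin σ H B (ract σ H B p n x r)) =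
        ract σ H B p n x (AdjoinRoot.root (p ^ n) * r) := by
      rw [ract_root_mul hx0]; rfl
    rw [h1, v1, map_mul, AlgEquiv.commutes, hq.sig, mul_assoc]
    ring
  intro a b
  apply (algebraMap F E).injective
  rw [bsy_eq hq, blk_eq hx0, blk_eq hx0]
  simp only [bsk_add_left, bsk_add_right, bsk_smul_left, bsk_smul_right, v1, v2, v3, v4, hq.sig,
    mul_zero, add_zero, zero_add, map_add, map_mul, map_neg, AlgEquiv.commutes]
  have hre : ((⟨0, 1, 0, 0⟩ : DD d p n) * a * star b).re =
      algebraMap F (RR p n) d * (a.imI * b.re) - algebraMap F (RR p n) d * (a.re * b.imI)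
      - algebraMap F (RR p n) d * (AdjoinRoot.root (p ^ n) * (a.imK * b.imJ))
      + algebraMap F (RR p n) d * (AdjoinRoot.root (p ^ n) * (a.imJ * b.imK)) := by
    simp only [QuaternionAlgebra.re_mul, QuaternionAlgebra.imI_mul, QuaternionAlgebra.imJ_mul,
      QuaternionAlgebra.imK_mul, QuaternionAlgebra.re_star, QuaternionAlgebra.imI_star,
      QuaternionAlgebra.imJ_star, QuaternionAlgebra.imK_star]
    ring
  have h2 : ∀ r : RR p n, (2 : RR p n) * (algebraMap F (RR p n) d * r) = (2 * d) • r := by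
    intro r
    rw [Algebra.smul_def, map_mul, map_ofNat, mul_assoc]
  have hre2 : s (2 * ((⟨0, 1, 0, 0⟩ : DD d p n) * a * star b).re) =
      2 * d * (s (a.imI * b.re) - s (a.re * b.imI)
        - s (AdjoinRoot.root (p ^ n) * (a.imK * b.imJ))
        + s (AdjoinRoot.root (p ^ n) * (a.imJ * b.imK))) := by
    rw [hre, mul_add, mul_sub, mul_sub, h2, h2, h2, h2]
    simp only [map_add, map_sub, map_smul, smul_eq_mul]
    ring
  rw [hre2]
  simp only [map_add, map_sub, map_mul, map_ofNat]
  rw [← hq.sq]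
  ring

/-! ### Nondegeneracy -/

theorem J_inj (hq : QuadDatum σ δ d) (hH : IsSkew σ H) (hB : IsUnit B.det) {y : Fin N → E}
    (h : Jlin σ H B y = 0) : y = 0 := by
  have h1 : B.mulVec y = 0 := by
    apply dotProduct_eq_zero
    intro w
    rw [dotProduct_comm, ← BX.J_form hq hH, h, bsk_zero_right]
  by_contra h2
  exact hB.ne_zero ((Matrix.exists_mulVec_eq_zero_iff).1 ⟨_, h2, h1⟩)

theorem A_inj (hq : QuadDatum σ δ d) (hH : IsSkew σ H) (hB : IsUnit B.det) {y : Fin N → E}
    (h : Alin σ H B y = 0) : y = 0 :=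
  J_inj hq hH hB (J_inj hq hH hB h)

/-- `t` is a unit of `R`. -/
theorem isUnit_root (hq : QuadDatum σ δ d) (hH : IsSkew σ H) (hB : IsUnit B.det)
    (hx : IsBlock σ H B p n x) : IsUnit (AdjoinRoot.root (p ^ n)) := by
  have hpX : ¬ p ∣ X := by
    intro hdvd
    have hass : Associated p X := hx.irr.associated_of_dvd Polynomial.irreducible_X hdvd
    obtain ⟨q, hq'⟩ := (hass.pow_pow (n := n)).dvd
    have h1 : (Alin σ H B ^ n) x = 0 := by
      have h2 : aeval (Alin σ H B) ((X : F[X]) ^ n) x = 0 := by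
        rw [hq', mul_comm, map_mul, Module.End.mul_apply, hx.kill, map_zero]
      simpa using h2
    have h3 : ∀ k : ℕ, ∀ y, (Alin σ H B ^ k) y = 0 → y = 0 := by
      intro k
      induction k with
      | zero => intro y hy; simpa using hy
      | succ k ih =>
        intro y hy
        rw [pow_succ', Module.End.mul_apply] at hy
        exact ih y (A_inj hq hH hB hy)
    have h4 : x = 0 := h3 n x h1
    obtain ⟨r, hr⟩ := hx.top
    apply hr
    rw [h4, map_zero, bsk_zero_left]
  have hcop : IsCoprime p X := (Irreducible.coprime_iff_not_dvd hx.irr).2 hpX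
  obtain ⟨a, b, hab⟩ := hcop.pow_left (m := n)
  rw [isUnit_iff_exists_inv]
  refine ⟨AdjoinRoot.mk (p ^ n) b, ?_⟩
  rw [← AdjoinRoot.mk_X, ← map_mul, ← map_one (AdjoinRoot.mk (p ^ n)), AdjoinRoot.mk_eq_mk]
  exact ⟨-a, by linear_combination hab⟩

/-- Nondegeneracy of the form on `D_R`. -/
theorem quat_nondeg (hq : QuadDatum σ δ d) (s : RR p n →ₗ[F] F)
    (hs : ∀ r, (∀ r', s (r * r') = 0) → r = 0) (ht : IsUnit (AdjoinRoot.root (p ^ n)))
    (a : DD d p n)
    (h : ∀ b : DD d p n, s (2 * ((⟨0, 1, 0, 0⟩ : DD d p n) * a * star b).re) = 0) : a = 0 := by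
  have hd : IsUnit (algebraMap F (RR p n) d) := (isUnit_iff_ne_zero.2 hq.d_ne).map _
  have h2 : IsUnit (2 : RR p n) := by
    have := (isUnit_iff_ne_zero.2 hq.two).map (algebraMap F (RR p n))
    rwa [map_ofNat] at this
  have hre : ∀ b : DD d p n, ((⟨0, 1, 0, 0⟩ : DD d p n) * a * star b).re =
      algebraMap F (RR p n) d * (a.imI * b.re) - algebraMap F (RR p n) d * (a.re * b.imI)
      - algebraMap F (RR p n) d * (AdjoinRoot.root (p ^ n) * (a.imK * b.imJ))
      + algebraMap F (RR p n) d * (AdjoinRoot.root (p ^ n) * (a.imJ * b.imK)) := by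
    intro b
    simp only [QuaternionAlgebra.re_mul, QuaternionAlgebra.imI_mul, QuaternionAlgebra.imJ_mul,
      QuaternionAlgebra.imK_mul, QuaternionAlgebra.re_star, QuaternionAlgebra.imI_star,
      QuaternionAlgebra.imJ_star, QuaternionAlgebra.imK_star]
    ring
  have k1 : a.imI = 0 := by
    have h3 : 2 * algebraMap F (RR p n) d * a.imI = 0 := by
      apply hs
      intro r'
      rw [← h ⟨r', 0, 0, 0⟩, hre]
      congr 1
      ring
    exact (h2.mul hd).mul_right_eq_zero.1 h3
  have k0 : a.re = 0 := by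
    have h3 : 2 * algebraMap F (RR p n) d * a.re = 0 := by
      apply hs
      intro r'
      rw [← neg_eq_zero, ← map_neg, ← h ⟨0, r', 0, 0⟩, hre]
      congr 1
      ring
    exact (h2.mul hd).mul_right_eq_zero.1 h3
  have k3 : a.imK = 0 := by
    have h3 : 2 * algebraMap F (RR p n) d * AdjoinRoot.root (p ^ n) * a.imK = 0 := by
      apply hs
      intro r'
      rw [← neg_eq_zero, ← map_neg, ← h ⟨0, 0, r', 0⟩, hre]
      congr 1
      ring
    exact ((h2.mul hd).mul ht).mul_right_eq_zero.1 h3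
  have k2 : a.imJ = 0 := by
    have h3 : 2 * algebraMap F (RR p n) d * AdjoinRoot.root (p ^ n) * a.imJ = 0 := by
      apply hs
      intro r'
      rw [← h ⟨0, 0, 0, r'⟩, hre]
      congr 1
      ring
    exact ((h2.mul hd).mul ht).mul_right_eq_zero.1 h3
  exact QuaternionAlgebra.ext k0 k1 k2 k3

/-- `⟨blk a, blk b⟩ = 0` for all `b` implies `a = 0`. -/
theorem blk_nondeg (hq : QuadDatum σ δ d) (hH : IsSkew σ H) (hB : B.transpose = -B)
    (hdet : IsUnit B.det) (hx : IsBlock σ H B p n x) (a : DD d p n)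
    (h : ∀ b : DD d p n, sympl F σ H (blk σ H B δ p n x a) (blk σ H B δ p n x b) = 0) :
    a = 0 := by
  obtain ⟨s, hs1, -, -, hs4⟩ := blk_form hq hH hB hx
  apply quat_nondeg hq s hs1 (isUnit_root hq hH hdet hx) a
  intro b
  rw [← hs4, h]

theorem blk_inj (hq : QuadDatum σ δ d) (hH : IsSkew σ H) (hB : B.transpose = -B)
    (hdet : IsUnit B.det) (hx : IsBlock σ H B p n x) :
    Function.Injective (blk σ H B δ (d := d) p n x) := by
  intro a b hab
  have h1 : a - b = 0 := by
    apply blk_nondeg hq hH hB hdet hx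
    intro c
    rw [blk_sub hx.kill, hab, sub_self, sympl, bsk_zero_left, map_zero]
  exact sub_eq_zero.1 h1

theorem finite_DD (hp : p ≠ 0) : Module.Finite F (DD d p n) := by
  have h1 : Module.Finite F (RR p n) :=
    (AdjoinRoot.powerBasis (pow_ne_zero n hp)).finite
  have h2 : Module.Finite (RR p n) (DD d p n) :=
    Module.Finite.of_basis (QuaternionAlgebra.basisOneIJK _ _ _)
  exact Module.Finite.trans (RR p n) (DD d p n)

theorem bsy_skew (hq : QuadDatum σ δ d) (hH : IsSkew σ H) (x y : Fin N → E) :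
    sympl F σ H y x = - sympl F σ H x y := by
  apply (algebraMap F E).injective
  rw [map_neg, bsy_eq hq, bsy_eq hq, bsk_skew hq hH x y, map_neg, sig_sig hq]
  ring

/-- Every vector is represented on the block. -/
theorem blk_rep (hq : QuadDatum σ δ d) (hH : IsSkew σ H) (hB : B.transpose = -B)
    (hdet : IsUnit B.det) (hx : IsBlock σ H B p n x) (y : Fin N → E) :
    ∃ a : DD d p n, ∀ b : DD d p n,
      sympl F σ H (blk σ H B δ p n x a) (blk σ H B δ p n x b) =
        sympl F σ H y (blk σ H B δ p n x b) := by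
  have hfin : Module.Finite F (DD d p n) := finite_DD hx.irr.ne_zero
  let f : DD d p n →ₗ[F] Module.Dual F (DD d p n) :=
    { toFun := fun a =>
        { toFun := fun b => sympl F σ H (blk σ H B δ p n x a) (blk σ H B δ p n x b)
          map_add' := fun b b' => by rw [blk_add hx.kill, bsy_add_right]
          map_smul' := fun c b => by rw [blk_smul hx.kill, bsy_smul_right]; rfl }
      map_add' := fun a a' => by
        ext b
        show sympl F σ H (blk σ H B δ p n x (a + a')) (blk σ H B δ p n x b) = _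
        rw [blk_add hx.kill, bsy_add_left]; rfl
      map_smul' := fun c a => by
        ext b
        show sympl F σ H (blk σ H B δ p n x (c • a)) (blk σ H B δ p n x b) = _
        rw [blk_smul hx.kill, bsy_smul_left]; rfl }
  have hinj : Function.Injective f := by
    rw [injective_iff_map_eq_zero]
    intro a ha
    apply blk_nondeg hq hH hB hdet hx
    intro b
    exact congrArg (fun g : Module.Dual F (DD d p n) => g b) ha
  have hsurj : Function.Surjective f :=
    (LinearMap.injective_iff_surjective_of_finrank_eq_finrank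
      (Subspace.dual_finrank_eq (K := F) (V := DD d p n)).symm).1 hinj
  obtain ⟨a, ha⟩ := hsurj
    { toFun := fun b => sympl F σ H y (blk σ H B δ p n x b)
      map_add' := fun b b' => by rw [blk_add hx.kill, bsy_add_right]
      map_smul' := fun c b => by rw [blk_smul hx.kill, bsy_smul_right]; rfl }
  refine ⟨a, fun b => ?_⟩
  exact congrArg (fun g : Module.Dual F (DD d p n) => g b) ha

theorem sk_zero_of_blk (hq : QuadDatum σ δ d) (hH : IsSkew σ H)
    (hx : aeval (Alin σ H B) (p ^ n) x = 0) {z : Fin N → E}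
    (h : ∀ b : DD d p n, sympl F σ H z (blk σ H B δ p n x b) = 0) (b : DD d p n) :
    sk σ H (blk σ H B δ p n x b) z = 0 := by
  apply bsk_zero_of_sympl hq
  · rw [bsy_skew hq hH, h, neg_zero]
  · rw [blk_E hq hx, bsy_skew hq hH, h, neg_zero]

theorem blk_decomp (hq : QuadDatum σ δ d) (hH : IsSkew σ H) (hB : B.transpose = -B)
    (hdet : IsUnit B.det) (hx : IsBlock σ H B p n x) (y : Fin N → E) :
    ∃ (a : DD d p n) (z : Fin N → E), y = blk σ H B δ p n x a + z ∧
      ∀ b : DD d p n, sk σ H (blk σ H B δ p n x b) z = 0 := by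
  obtain ⟨a, ha⟩ := blk_rep hq hH hB hdet hx y
  refine ⟨a, y - blk σ H B δ p n x a, by abel, ?_⟩
  apply sk_zero_of_blk hq hH hx.kill
  intro b
  have h1 : sympl F σ H y (blk σ H B δ p n x b) =
      sympl F σ H (y - blk σ H B δ p n x a) (blk σ H B δ p n x b) +
        sympl F σ H (blk σ H B δ p n x a) (blk σ H B δ p n x b) := by
    rw [← bsy_add_left]; congr 1; abel
  rw [ha] at h1
  linear_combination -h1

/-! ### The element of `U(X)` attached to `u` -/

theorem blk_form_mul (hq : QuadDatum σ δ d) (hH : IsSkew σ H) (hB : B.transpose = -B)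
    (hx : IsBlock σ H B p n x) (u : DD d p n) (hu : u * star u = 1) (a b : DD d p n) :
    sympl F σ H (blk σ H B δ p n x (a * u)) (blk σ H B δ p n x (b * u)) =
      sympl F σ H (blk σ H B δ p n x a) (blk σ H B δ p n x b) := by
  obtain ⟨s, -, -, -, hs4⟩ := blk_form hq hH hB hx
  rw [hs4, hs4]
  congr 3
  rw [star_mul, mul_assoc, mul_assoc a u, ← mul_assoc u, hu, one_mul, mul_assoc]

/-- The coordinate of `y` along the block. -/
noncomputable def bP (hq : QuadDatum σ δ d) (hH : IsSkew σ H) (hB : B.transpose = -B)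
    (hdet : IsUnit B.det) (hx : IsBlock σ H B p n x) (y : Fin N → E) : DD d p n :=
  (blk_rep hq hH hB hdet hx y).choose

theorem bP_spec (hq : QuadDatum σ δ d) (hH : IsSkew σ H) (hB : B.transpose = -B)
    (hdet : IsUnit B.det) (hx : IsBlock σ H B p n x) (y : Fin N → E) (b : DD d p n) :
    sympl F σ H (blk σ H B δ p n x (bP hq hH hB hdet hx y)) (blk σ H B δ p n x b) =
      sympl F σ H y (blk σ H B δ p n x b) :=
  (blk_rep hq hH hB hdet hx y).choose_spec b

theorem bP_unique (hq : QuadDatum σ δ d) (hH : IsSkew σ H) (hB : B.transpose = -B)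
    (hdet : IsUnit B.det) (hx : IsBlock σ H B p n x) (y : Fin N → E) (a : DD d p n)
    (h : ∀ b : DD d p n, sympl F σ H (blk σ H B δ p n x a) (blk σ H B δ p n x b) =
      sympl F σ H y (blk σ H B δ p n x b)) : bP hq hH hB hdet hx y = a := by
  rw [← sub_eq_zero]
  apply blk_nondeg hq hH hB hdet hx
  intro b
  have h1 : sympl F σ H (blk σ H B δ p n x (bP hq hH hB hdet hx y)) (blk σ H B δ p n x b) =
      sympl F σ H (blk σ H B δ p n x (bP hq hH hB hdet hx y - a)) (blk σ H B δ p n x b) +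
        sympl F σ H (blk σ H B δ p n x a) (blk σ H B δ p n x b) := by
    rw [← bsy_add_left, ← blk_add hx.kill, sub_add_cancel]
  rw [bP_spec, h b] at h1
  linear_combination -h1

theorem bP_blk (hq : QuadDatum σ δ d) (hH : IsSkew σ H) (hB : B.transpose = -B)
    (hdet : IsUnit B.det) (hx : IsBlock σ H B p n x) (a : DD d p n) :
    bP hq hH hB hdet hx (blk σ H B δ p n x a) = a :=
  bP_unique hq hH hB hdet hx _ a fun _ => rfl

theorem bP_add (hq : QuadDatum σ δ d) (hH : IsSkew σ H) (hB : B.transpose = -B)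
    (hdet : IsUnit B.det) (hx : IsBlock σ H B p n x) (y y' : Fin N → E) :
    bP hq hH hB hdet hx (y + y') = bP hq hH hB hdet hx y + bP hq hH hB hdet hx y' := by
  apply bP_unique
  intro b
  rw [blk_add hx.kill, bsy_add_left, bsy_add_left, bP_spec, bP_spec]

theorem bP_smul (hq : QuadDatum σ δ d) (hH : IsSkew σ H) (hB : B.transpose = -B)
    (hdet : IsUnit B.det) (hx : IsBlock σ H B p n x) (c : F) (y : Fin N → E) :
    bP hq hH hB hdet hx (c • y) = c • bP hq hH hB hdet hx y := by
  apply bP_unique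
  intro b
  rw [blk_smul hx.kill, bsy_smul_left, bsy_smul_left, bP_spec]

theorem bsy_delta (hq : QuadDatum σ δ d) (y z : Fin N → E) :
    sympl F σ H (δ • y) z = - sympl F σ H y (δ • z) := by
  simp only [sympl, bsk_smul_left, bsk_smul_right, hq.sig]
  rw [← map_neg]
  congr 1
  ring

theorem bP_delta (hq : QuadDatum σ δ d) (hH : IsSkew σ H) (hB : B.transpose = -B)
    (hdet : IsUnit B.det) (hx : IsBlock σ H B p n x) (y : Fin N → E) :
    bP hq hH hB hdet hx (δ • y) = ⟨0, 1, 0, 0⟩ * bP hq hH hB hdet hx y := by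
  apply bP_unique
  intro b
  rw [← blk_E hq hx.kill, bsy_delta hq, bsy_delta hq, blk_E hq hx.kill, bP_spec]

/-- `⟨J y, z⟩ = ⟨y, J z⟩` up to sign. -/
theorem bsy_J (hq : QuadDatum σ δ d) (hH : IsSkew σ H) (hB : B.transpose = -B)
    (y z : Fin N → E) :
    sympl F σ H (Jlin σ H B y) z = sympl F σ H y (Jlin σ H B z) := by
  apply (algebraMap F E).injective
  rw [bsy_eq hq, bsy_eq hq, BX.J_adj hq hH hB y z, sig_sig hq, add_comm]

theorem bP_J (hq : QuadDatum σ δ d) (hH : IsSkew σ H) (hB : B.transpose = -B)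
    (hdet : IsUnit B.det) (hx : IsBlock σ H B p n x) (y : Fin N → E) :
    bP hq hH hB hdet hx (Jlin σ H B y) = ⟨0, 0, 1, 0⟩ * bP hq hH hB hdet hx y := by
  apply bP_unique
  intro b
  rw [← blk_J hq hx.kill, bsy_J hq hH hB, bsy_J hq hH hB, blk_J hq hx.kill, bP_spec]

theorem bP_of_perp (hq : QuadDatum σ δ d) (hH : IsSkew σ H) (hB : B.transpose = -B)
    (hdet : IsUnit B.det) (hx : IsBlock σ H B p n x) (z : Fin N → E)
    (h : ∀ b : DD d p n, sk σ H (blk σ H B δ p n x b) z = 0) :
    bP hq hH hB hdet hx z = 0 := by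
  apply bP_unique
  intro b
  rw [blk_zero hx.kill, bsy_skew hq hH (blk σ H B δ p n x b) z, sympl, sympl, h b,
    bsk_zero_left, map_zero, neg_zero]

/-- The map `y ↦ y + blk (P y (u - 1))`. -/
noncomputable def bG (hq : QuadDatum σ δ d) (hH : IsSkew σ H) (hB : B.transpose = -B)
    (hdet : IsUnit B.det) (hx : IsBlock σ H B p n x) (u : DD d p n) (y : Fin N → E) :
    Fin N → E :=
  y + blk σ H B δ p n x (bP hq hH hB hdet hx y * u - bP hq hH hB hdet hx y)

theorem bG_add (hq : QuadDatum σ δ d) (hH : IsSkew σ H) (hB : B.transpose = -B)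
    (hdet : IsUnit B.det) (hx : IsBlock σ H B p n x) (u : DD d p n) (y y' : Fin N → E) :
    bG hq hH hB hdet hx u (y + y') = bG hq hH hB hdet hx u y + bG hq hH hB hdet hx u y' := by
  unfold bG
  rw [bP_add, add_mul, add_sub_add_comm, blk_add hx.kill]
  abel

theorem bG_fsmul (hq : QuadDatum σ δ d) (hH : IsSkew σ H) (hB : B.transpose = -B)
    (hdet : IsUnit B.det) (hx : IsBlock σ H B p n x) (u : DD d p n) (c : F) (y : Fin N → E) :
    bG hq hH hB hdet hx u (c • y) = c • bG hq hH hB hdet hx u y := by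
  unfold bG
  rw [bP_smul, smul_mul_assoc, ← smul_sub, blk_smul hx.kill, smul_add]

theorem bG_delta (hq : QuadDatum σ δ d) (hH : IsSkew σ H) (hB : B.transpose = -B)
    (hdet : IsUnit B.det) (hx : IsBlock σ H B p n x) (u : DD d p n) (y : Fin N → E) :
    bG hq hH hB hdet hx u (δ • y) = δ • bG hq hH hB hdet hx u y := by
  unfold bG
  rw [bP_delta, mul_assoc, ← mul_sub, ← blk_E hq hx.kill, smul_add]

theorem bG_smul (hq : QuadDatum σ δ d) (hH : IsSkew σ H) (hB : B.transpose = -B)
    (hdet : IsUnit B.det) (hx : IsBlock σ H B p n x) (u : DD d p n) (c : E) (y : Fin N → E) :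
    bG hq hH hB hdet hx u (c • y) = c • bG hq hH hB hdet hx u y := by
  obtain ⟨a, b, rfl⟩ := hq.exists_coord c
  rw [add_smul, mul_smul, bG_add, ← bfsmul, ← bfsmul, bG_fsmul, bG_fsmul, bG_delta, add_smul,
    mul_smul, ← bfsmul, ← bfsmul]

theorem bP_bG (hq : QuadDatum σ δ d) (hH : IsSkew σ H) (hB : B.transpose = -B)
    (hdet : IsUnit B.det) (hx : IsBlock σ H B p n x) (u : DD d p n) (y : Fin N → E) :
    bP hq hH hB hdet hx (bG hq hH hB hdet hx u y) = bP hq hH hB hdet hx y * u := by
  unfold bG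
  rw [bP_add, bP_blk]
  abel

theorem bG_bG (hq : QuadDatum σ δ d) (hH : IsSkew σ H) (hB : B.transpose = -B)
    (hdet : IsUnit B.det) (hx : IsBlock σ H B p n x) (u v : DD d p n) (h : v * u = 1)
    (y : Fin N → E) :
    bG hq hH hB hdet hx u (bG hq hH hB hdet hx v y) = y := by
  have h1 : bG hq hH hB hdet hx u (bG hq hH hB hdet hx v y) =
      bG hq hH hB hdet hx v y + blk σ H B δ p n x
        (bP hq hH hB hdet hx (bG hq hH hB hdet hx v y) * u -
          bP hq hH hB hdet hx (bG hq hH hB hdet hx v y)) := rfl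
  rw [h1, bP_bG, mul_assoc, h, mul_one, bG, add_assoc, ← blk_add hx.kill]
  have h2 : bP hq hH hB hdet hx y * v - bP hq hH hB hdet hx y +
      (bP hq hH hB hdet hx y - bP hq hH hB hdet hx y * v) = 0 := by abel
  rw [h2, blk_zero hx.kill, add_zero]

theorem bG_sympl (hq : QuadDatum σ δ d) (hH : IsSkew σ H) (hB : B.transpose = -B)
    (hdet : IsUnit B.det) (hx : IsBlock σ H B p n x) (u : DD d p n) (hu : u * star u = 1)
    (y y' : Fin N → E) :
    sympl F σ H (bG hq hH hB hdet hx u y) (bG hq hH hB hdet hx u y') = sympl F σ H y y' := by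
  set a := bP hq hH hB hdet hx y with ha
  set a' := bP hq hH hB hdet hx y' with ha'
  have e1 : bG hq hH hB hdet hx u y = y + blk σ H B δ p n x (a * u - a) := rfl
  have e2 : bG hq hH hB hdet hx u y' = y' + blk σ H B δ p n x (a' * u - a') := rfl
  have k1 := blk_form_mul hq hH hB hx u hu a a'
  have k2 : sympl F σ H y (blk σ H B δ p n x (a' * u - a')) =
      sympl F σ H (blk σ H B δ p n x a) (blk σ H B δ p n x (a' * u - a')) :=
    (bP_spec hq hH hB hdet hx y _).symm
  have k3 : sympl F σ H (blk σ H B δ p n x (a * u - a)) y' =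
      sympl F σ H (blk σ H B δ p n x (a * u - a)) (blk σ H B δ p n x a') := by
    rw [bsy_skew hq hH y', bsy_skew hq hH (blk σ H B δ p n x a'), bP_spec hq hH hB hdet hx y' _]
  have k4 : blk σ H B δ p n x (a * u) = blk σ H B δ p n x (a * u - a) + blk σ H B δ p n x a := by
    rw [← blk_add hx.kill, sub_add_cancel]
  have k5 : blk σ H B δ p n x (a' * u) =
      blk σ H B δ p n x (a' * u - a') + blk σ H B δ p n x a' := by
    rw [← blk_add hx.kill, sub_add_cancel]
  rw [k4, k5] at k1
  simp only [bsy_add_left, bsy_add_right] at k1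
  rw [e1, e2]
  simp only [bsy_add_left, bsy_add_right]
  rw [k2, k3]
  linear_combination k1

theorem bG_sk (hq : QuadDatum σ δ d) (hH : IsSkew σ H) (hB : B.transpose = -B)
    (hdet : IsUnit B.det) (hx : IsBlock σ H B p n x) (u : DD d p n) (hu : u * star u = 1)
    (y y' : Fin N → E) :
    sk σ H (bG hq hH hB hdet hx u y) (bG hq hH hB hdet hx u y') = sk σ H y y' := by
  rw [← sub_eq_zero]
  apply hq.eq_zero_of_trace
  · have h1 := bG_sympl hq hH hB hdet hx u hu y y'
    unfold sympl at h1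
    rw [map_sub, h1, sub_self]
  · have h1 := bG_sympl hq hH hB hdet hx u hu (δ • y) y'
    rw [bG_delta] at h1
    unfold sympl at h1
    rw [bsk_smul_left, bsk_smul_left] at h1
    rw [mul_sub, map_sub, h1, sub_self]

/-- `bG` as a matrix. -/
noncomputable def bM (hq : QuadDatum σ δ d) (hH : IsSkew σ H) (hB : B.transpose = -B)
    (hdet : IsUnit B.det) (hx : IsBlock σ H B p n x) (u : DD d p n) :
    Matrix (Fin N) (Fin N) E :=
  LinearMap.toMatrix' (R := E)
    { toFun := bG hq hH hB hdet hx u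
      map_add' := bG_add hq hH hB hdet hx u
      map_smul' := bG_smul hq hH hB hdet hx u }

theorem bM_mulVec (hq : QuadDatum σ δ d) (hH : IsSkew σ H) (hB : B.transpose = -B)
    (hdet : IsUnit B.det) (hx : IsBlock σ H B p n x) (u : DD d p n) (y : Fin N → E) :
    (bM hq hH hB hdet hx u).mulVec y = bG hq hH hB hdet hx u y := by
  unfold bM
  rw [LinearMap.toMatrix'_mulVec]
  rfl

theorem bM_mul (hq : QuadDatum σ δ d) (hH : IsSkew σ H) (hB : B.transpose = -B)
    (hdet : IsUnit B.det) (hx : IsBlock σ H B p n x) (u v : DD d p n) (h : v * u = 1) :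
    bM hq hH hB hdet hx u * bM hq hH hB hdet hx v = 1 := by
  apply Matrix.ext_of_mulVec_single
  intro i
  rw [← Matrix.mulVec_mulVec, bM_mulVec, bM_mulVec, bG_bG _ _ _ _ _ _ _ h, Matrix.one_mulVec]

theorem star_mul_of_mul_star (u : DD d p n) (hu : u * star u = 1) : star u * u = 1 := by
  rw [← hu]
  exact star_comm_self' u

theorem blkElt_exists (hq : QuadDatum σ δ d) (hH : IsSkew σ H) (B : Alt N E)
    (hx : IsBlock σ H B.1 p n x) (u : DD d p n) (hu : u * star u = 1) :
    ∃ g : unitary σ H, IsBlkElt σ H B.1 δ p n x u g := by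
  have hB := B.2.1
  have hdet := B.2.2
  let g : GL (Fin N) E := ⟨bM hq hH hB hdet hx u, bM hq hH hB hdet hx (star u),
    bM_mul hq hH hB hdet hx u (star u) (star_mul_of_mul_star u hu),
    bM_mul hq hH hB hdet hx (star u) u hu⟩
  have hg : ∀ y : Fin N → E,
      (g : Matrix (Fin N) (Fin N) E).mulVec y = bG hq hH hB hdet hx u y :=
    bM_mulVec hq hH hB hdet hx u
  have hgU : g ∈ unitary σ H := by
    intro y y'
    rw [hg, hg, bG_sk hq hH hB hdet hx u hu]
  refine ⟨⟨g, hgU⟩, ?_, ?_⟩
  · intro a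
    show (g : Matrix (Fin N) (Fin N) E).mulVec _ = _
    rw [hg]
    unfold bG
    rw [bP_blk, ← blk_add hx.kill]
    congr 1
    abel
  · intro y hy
    show (g : Matrix (Fin N) (Fin N) E).mulVec _ = _
    rw [hg]
    unfold bG
    rw [bP_of_perp hq hH hB hdet hx y hy, zero_mul, sub_zero, blk_zero hx.kill, add_zero]

theorem blkElt_unique (hq : QuadDatum σ δ d) (hH : IsSkew σ H) (B : Alt N E)
    (hx : IsBlock σ H B.1 p n x) (u : DD d p n) (g g' : unitary σ H)
    (h : IsBlkElt σ H B.1 δ p n x u g) (h' : IsBlkElt σ H B.1 δ p n x u g') : g = g' := by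
  apply Subtype.ext
  apply Units.ext
  apply Matrix.ext_of_mulVec_single
  intro i
  obtain ⟨a, z, hy, hz⟩ := blk_decomp hq hH B.2.1 B.2.2 hx (Pi.single i (1 : E))
  rw [hy, Matrix.mulVec_add, Matrix.mulVec_add]
  congr 1
  · exact (h.1 a).trans (h'.1 a).symm
  · exact (h.2 z hz).trans (h'.2 z hz).symm

theorem blkElt_fix (hq : QuadDatum σ δ d) (hH : IsSkew σ H) (B : Alt N E)
    (hx : IsBlock σ H B.1 p n x) (u : DD d p n) (g : unitary σ H)
    (h : IsBlkElt σ H B.1 δ p n x u g) : (g : GL (Fin N) E) • B = B := by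
  apply bfix_of_comm hq hH
  intro y
  obtain ⟨a, z, rfl, hz⟩ := blk_decomp hq hH B.2.1 B.2.2 hx y
  have hJz : ∀ b : DD d p n, sk σ H (blk σ H B.1 δ p n x b) (Jlin σ H B.1 z) = 0 := by
    intro b
    rw [BX.J_adj hq hH B.2.1, blk_J hq hx.kill, hz, map_zero]
  rw [Matrix.mulVec_add, h.1, h.2 z hz, map_add, map_add, Matrix.mulVec_add, h.2 _ hJz,
    blk_J hq hx.kill, blk_J hq hx.kill, h.1, mul_assoc]

end linalg

end SpW
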