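import Mathlib

/-!
# Smooth representations of Heisenberg groups: definitions
-/

open scoped Matrix

namespace Pool.Agent.SpehH

section

variable {F : Type*} [NontriviallyNormedField F] {W : Type*} [AddCommGroup W] [Module F W]
  {S : Type*} [AddCommGroup S] [Module ℂ S]

/-- `ρ` is a smooth representation of the Heisenberg group of `(W, B)` with the central
character `ψ`. -/
structure IsHeis (ψ : AddChar F Circle) (B : LinearMap.BilinForm F W) (ρ : W → Module.End ℂ S) :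
    Prop where
  zero : ρ 0 = 1
  mul : ∀ w w', ρ w * ρ w' = ((ψ (B w w' / 2) : Circle) : ℂ) • ρ (w + w')
  smooth : ∀ v w, ∃ ε > 0, ∀ a : F, ‖a‖ ≤ ε → ρ (a • w) v = v

/-- The family of operators `ρ w` is irreducible. -/
def IsIrr (ρ : W → Module.End ℂ S) : Prop :=
  Nontrivial S ∧ ∀ V : Submodule ℂ S, (∀ w, ∀ v ∈ V, ρ w v ∈ V) → V = ⊥ ∨ V = ⊤

/-- `ψ (b O) = 1` if and only if `|b| ≤ |c|` -/
def IsCond (ψ : AddChar F Circle) (c : F) : Prop :=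
  c ≠ 0 ∧ ∀ b : F, (∀ a : F, ‖a‖ ≤ 1 → ψ (b * a) = 1) ↔ ‖b‖ ≤ ‖c‖

/-- `e`, `f` is a symplectic basis of `W`, the `e i`, `i ∈ I₁`, span `Y₁` and the `e i`, `i ∈ I`,
span `Y`. -/
structure IsSB (B : LinearMap.BilinForm F W) (Y₁ Y : Submodule F W) {n : ℕ} (e f : Fin n → W)
    (I₁ I : Set (Fin n)) : Prop where
  sub : I₁ ⊆ I
  ee : ∀ i j, B (e i) (e j) = 0
  ff : ∀ i j, B (f i) (f j) = 0
  ef : ∀ i j, B (e i) (f j) = if i = j then 1 else 0
  expand : ∀ w, w = ∑ i, B w (f i) • e i - ∑ i, B w (e i) • f i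
  Y₁ : Y₁ = Submodule.span F (e '' I₁)
  Y : Y = Submodule.span F (e '' I)

/-- the span of the vectors `ρ y s - s`, `y ∈ Y₁` -/
def coK (ρ : W → Module.End ℂ S) (Y₁ : Submodule F W) : Submodule ℂ S :=
  Submodule.span ℂ {x | ∃ y ∈ Y₁, ∃ s, x = ρ y s - s}

/-- `∑ a_i e_i` -/
def lc {κ : Type*} [Fintype κ] (e : κ → W) (a : κ → F) : W := ∑ i, a i • e i

/-- `v` is fixed by the lattices `|a| ≤ |t|` of the `∑ a_i e_i` and `|b| |t| ≤ |c|` of the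
`∑ b_i f_i`. -/
def IsFix (ρ : W → Module.End ℂ S) {n : ℕ} (e f : Fin n → W) (c t : F) (v : S) : Prop :=
  (∀ a : Fin n → F, ‖a‖ ≤ ‖t‖ → ρ (lc e a) v = v) ∧
    ∀ b : Fin n → F, ‖b‖ * ‖t‖ ≤ ‖c‖ → ρ (lc f b) v = v

/-- `v` is an eigenvector with the character `ψ (B ξ y)` of the lattice `|a| ≤ |t|` of the
`y = ∑ a_i e_i`, `a_i = 0` for `i ∉ I` -/
def IsEig (ψ : AddChar F Circle) (B : LinearMap.BilinForm F W) (ρ : W → Module.End ℂ S) {n : ℕ}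
    (e : Fin n → W) (I : Set (Fin n)) (t : F) (ξ : W) (v : S) : Prop :=
  ∀ a : Fin n → F, ‖a‖ ≤ ‖t‖ → (∀ i, i ∉ I → a i = 0) →
    ρ (lc e a) v = ((ψ (B ξ (lc e a)) : Circle) : ℂ) • v

/-- `Om` is a lift of the symplectic map `u` -/
structure IsLift (B : LinearMap.BilinForm F W) (ρ : W → Module.End ℂ S) (u : W ≃ₗ[F] W)
    (Om : S ≃ₗ[ℂ] S) : Prop where
  symp : ∀ w w', B (u w) (u w') = B w w'
  lift : ∀ w v, Om (ρ w v) = ρ (u w) (Om v)

end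

end Pool.Agent.SpehH
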