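import Pool.Agent.Work.MP_3615d2_al.Quad
import Pool.Agent.Work.MP_3615d2_al.HeisDefs

/-!
MP_3615d2_al: from the skew-Hermitian space to the abstract Heisenberg set-up.
-/

open MeasureTheory
open scoped NNReal

namespace SpW

section alg

variable {F E : Type} [Field F] [Field E] [Algebra F E] {σ : E ≃ₐ[F] E} {δ : E} {d : F} {N : ℕ}
  {H : Matrix (Fin N) (Fin N) E}

theorem sk_add_left (x x' y : Fin N → E) : sk σ H (x + x') y = sk σ H x y + sk σ H x' y := by
  simp only [sk, Pi.add_apply, add_mul, Finset.sum_add_distrib]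

theorem sk_add_right (x y y' : Fin N → E) : sk σ H x (y + y') = sk σ H x y + sk σ H x y' := by
  simp only [sk, Pi.add_apply, map_add, mul_add, Finset.sum_add_distrib]

theorem sk_smul_left (c : E) (x y : Fin N → E) : sk σ H (c • x) y = c * sk σ H x y := by
  simp only [sk, Pi.smul_apply, smul_eq_mul, Finset.mul_sum]
  exact Finset.sum_congr rfl fun i _ => Finset.sum_congr rfl fun j _ => by ring

theorem sk_smul_right (c : E) (x y : Fin N → E) : sk σ H x (c • y) = σ c * sk σ H x y := by
  simp only [sk, Pi.smul_apply, smul_eq_mul, Finset.mul_sum, map_mul]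
  exact Finset.sum_congr rfl fun i _ => Finset.sum_congr rfl fun j _ => by ring

theorem sk_neg_left (x y : Fin N → E) : sk σ H (-x) y = -sk σ H x y := by
  have := sk_smul_left (σ := σ) (H := H) (-1) x y
  simpa using this

theorem sk_neg_right (x y : Fin N → E) : sk σ H x (-y) = -sk σ H x y := by
  have := sk_smul_right (σ := σ) (H := H) (-1) x y
  simpa using this

theorem sk_zero_left (y : Fin N → E) : sk σ H 0 y = 0 := by
  simp [sk]

theorem sk_zero_right (x : Fin N → E) : sk σ H x 0 = 0 := by
  simp [sk]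

theorem sk_sub_left (x x' y : Fin N → E) : sk σ H (x - x') y = sk σ H x y - sk σ H x' y := by
  rw [sub_eq_add_neg, sk_add_left, sk_neg_left, sub_eq_add_neg]

theorem sk_sub_right (x y y' : Fin N → E) : sk σ H x (y - y') = sk σ H x y - sk σ H x y' := by
  rw [sub_eq_add_neg, sk_add_right, sk_neg_right, sub_eq_add_neg]

theorem sk_algebraMap_smul (c : F) (x : Fin N → E) : (c • x : Fin N → E) = algebraMap F E c • x := by
  funext i
  simp [Algebra.smul_def]

theorem sk_fsmul_left (c : F) (x y : Fin N → E) : sk σ H (c • x) y = algebraMap F E c * sk σ H x y := by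
  rw [sk_algebraMap_smul, sk_smul_left]

theorem sk_fsmul_right (c : F) (x y : Fin N → E) :
    sk σ H x (c • y) = algebraMap F E c * sk σ H x y := by
  rw [sk_algebraMap_smul, sk_smul_right, AlgEquiv.commutes]

/-- `h(y,x) = - σ h(x,y)`. -/
theorem sk_swap (hq : QuadDatum σ δ d) (hH : IsSkew σ H) (x y : Fin N → E) :
    sk σ H y x = - σ (sk σ H x y) := by
  simp only [sk, map_sum, map_mul, sig_sig hq]
  rw [Finset.sum_comm, ← Finset.sum_neg_distrib]
  refine Finset.sum_congr rfl fun i _ => ?_
  rw [← Finset.sum_neg_distrib]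
  refine Finset.sum_congr rfl fun j _ => ?_
  rw [hH.skew i j]
  ring

theorem sk_eq_dot (x y : Fin N → E) :
    sk σ H x y = (Matrix.vecMul x H) ⬝ᵥ (fun j => σ (y j)) := by
  simp only [sk, dotProduct, Matrix.vecMul, Finset.sum_mul]
  rw [Finset.sum_comm]

theorem sk_nondeg (hH : IsSkew σ H) {x : Fin N → E} (h : ∀ y, sk σ H x y = 0) : x = 0 := by
  have h1 : Matrix.vecMul x H = 0 := by
    funext j
    have h2 := h (Pi.single j 1)
    rw [sk_eq_dot] at h2
    have h3 : (fun k => σ ((Pi.single j (1 : E) : Fin N → E) k)) = Pi.single j 1 := by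
      funext k
      by_cases hk : k = j
      · subst hk; simp
      · simp [Pi.single_eq_of_ne hk]
    rw [h3, dotProduct_single, mul_one] at h2
    exact h2
  have hu : IsUnit H := (Matrix.isUnit_iff_isUnit_det _).2 (isUnit_iff_ne_zero.2 hH.det_ne)
  exact (Matrix.vecMul_injective_iff_isUnit.2 hu) (by
    show Matrix.vecMul x H = Matrix.vecMul 0 H
    rw [h1, Matrix.zero_vecMul])

theorem sympl_eq (x y : Fin N → E) : sympl F σ H x y = Algebra.trace F E (sk σ H x y) := rfl

theorem trace_sig (hq : QuadDatum σ δ d) (x : E) : Algebra.trace F E (σ x) = Algebra.trace F E x := by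
  apply (algebraMap F E).injective
  rw [hq.trace_eq, hq.trace_eq, sig_sig hq, add_comm]

/-- The symplectic form as a bilinear form. -/
noncomputable def symplB (F : Type) {E : Type} [Field F] [Field E] [Algebra F E] (σ : E ≃ₐ[F] E)
    {N : ℕ} (H : Matrix (Fin N) (Fin N) E) : LinearMap.BilinForm F (Fin N → E) :=
  LinearMap.mk₂ F (fun x y => sympl F σ H x y)
    (fun x x' y => by simp only [sympl_eq, sk_add_left, map_add])
    (fun c x y => by
      simp only [sympl_eq, sk_fsmul_left, ← Algebra.smul_def, map_smul])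
    (fun x y y' => by simp only [sympl_eq, sk_add_right, map_add])
    (fun c x y => by
      simp only [sympl_eq, sk_fsmul_right, ← Algebra.smul_def, map_smul])

@[simp] theorem symplB_apply (x y : Fin N → E) : symplB F σ H x y = sympl F σ H x y := rfl

theorem sympl_swap (hq : QuadDatum σ δ d) (hH : IsSkew σ H) (x y : Fin N → E) :
    sympl F σ H y x = - sympl F σ H x y := by
  rw [sympl_eq, sk_swap hq hH, map_neg, trace_sig hq, sympl_eq]

theorem sympl_self (hq : QuadDatum σ δ d) (hH : IsSkew σ H) (x : Fin N → E) :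
    sympl F σ H x x = 0 := by
  have h1 := sympl_swap hq hH x x
  have h2 : (2 : F) * sympl F σ H x x = 0 := by linear_combination h1
  exact (mul_eq_zero.1 h2).resolve_left hq.two

theorem symplB_alt (hq : QuadDatum σ δ d) (hH : IsSkew σ H) : (symplB F σ H).IsAlt :=
  fun x => sympl_self hq hH x

theorem sympl_nondeg (hq : QuadDatum σ δ d) (hH : IsSkew σ H) {x : Fin N → E}
    (h : ∀ y, sympl F σ H x y = 0) : x = 0 := by
  apply sk_nondeg hH
  intro y
  have h1 := h y
  have h2 := h (δ • y)
  rw [sympl_eq] at h1 h2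
  rw [sk_smul_right, hq.sig] at h2
  have h3 := hq.trace_eq (sk σ H x y)
  have h4 := hq.trace_eq (-δ * sk σ H x y)
  rw [h1, map_zero] at h3
  rw [h2, map_zero, map_mul, map_neg, hq.sig, neg_neg] at h4
  have h5 : (2 : E) * δ * sk σ H x y = 0 := by linear_combination δ * (-h3) + h4
  exact (mul_eq_zero.1 h5).resolve_left (mul_ne_zero hq.two_E hq.ne)

theorem symplB_nondeg (hq : QuadDatum σ δ d) (hH : IsSkew σ H) : (symplB F σ H).Nondegenerate := by
  refine ⟨?_, ?_⟩
  · intro x h
    exact sympl_nondeg hq hH h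
  · intro x h
    apply sympl_nondeg hq hH
    intro y
    have h1 := h y
    simp only [symplB_apply] at h1
    rw [sympl_swap hq hH y x, h1, neg_zero]

theorem sk_unitary (g : unitary σ H) (x y : Fin N → E) :
    sk σ H ((umat g).mulVec x) ((umat g).mulVec y) = sk σ H x y := g.2 x y

theorem sympl_unitary (g : unitary σ H) (x y : Fin N → E) :
    sympl F σ H ((umat g).mulVec x) ((umat g).mulVec y) = sympl F σ H x y := by
  rw [sympl_eq, sk_unitary, sympl_eq]

theorem umat_mul (g g' : unitary σ H) : umat (g * g') = umat g * umat g' := rfl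

theorem umat_one : umat (1 : unitary σ H) = 1 := rfl

theorem umat_inv_mulVec (g : unitary σ H) (x : Fin N → E) :
    (umat g⁻¹).mulVec ((umat g).mulVec x) = x := by
  rw [Matrix.mulVec_mulVec, ← umat_mul, inv_mul_cancel, umat_one, Matrix.one_mulVec]

theorem umat_mulVec_inv (g : unitary σ H) (x : Fin N → E) :
    (umat g).mulVec ((umat g⁻¹).mulVec x) = x := by
  rw [Matrix.mulVec_mulVec, ← umat_mul, mul_inv_cancel, umat_one, Matrix.one_mulVec]

theorem mulVec_fsmul (M : Matrix (Fin N) (Fin N) E) (c : F) (x : Fin N → E) :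
    M.mulVec (c • x) = c • M.mulVec x := by
  rw [sk_algebraMap_smul c x, Matrix.mulVec_smul, sk_algebraMap_smul c (M.mulVec x)]

/-- `g` as an `F`-linear equivalence of `X`. -/
noncomputable def umatE (F : Type) {E : Type} [Field F] [Field E] [Algebra F E] {σ : E ≃ₐ[F] E}
    {N : ℕ} {H : Matrix (Fin N) (Fin N) E} (g : unitary σ H) : (Fin N → E) ≃ₗ[F] (Fin N → E) where
  toFun x := (umat g).mulVec x
  map_add' x y := Matrix.mulVec_add _ _ _
  map_smul' c x := mulVec_fsmul _ _ _
  invFun x := (umat g⁻¹).mulVec x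
  left_inv x := umat_inv_mulVec g x
  right_inv x := umat_mulVec_inv g x

@[simp] theorem umatE_apply (g : unitary σ H) (x : Fin N → E) :
    umatE F g x = (umat g).mulVec x := rfl

/-- `ω g` as a linear equivalence. -/
noncomputable def omE {S : Type} [AddCommGroup S] [Module ℂ S]
    (ω : unitary σ H →* Module.End ℂ S) (g : unitary σ H) : S ≃ₗ[ℂ] S where
  toFun v := ω g v
  map_add' x y := map_add _ _ _
  map_smul' c x := map_smul _ _ _
  invFun v := ω g⁻¹ v
  left_inv v := by
    show ω g⁻¹ (ω g v) = v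
    rw [← Module.End.mul_apply, ← map_mul, inv_mul_cancel, map_one, Module.End.one_apply]
  right_inv v := by
    show ω g (ω g⁻¹ v) = v
    rw [← Module.End.mul_apply, ← map_mul, mul_inv_cancel, map_one, Module.End.one_apply]

@[simp] theorem omE_apply {S : Type} [AddCommGroup S] [Module ℂ S]
    (ω : unitary σ H →* Module.End ℂ S) (g : unitary σ H) (v : S) : omE ω g v = ω g v := rfl

end alg

section top

variable {F E : Type} [NontriviallyNormedField F] [ProperSpace F]
  [NontriviallyNormedField E] [NormedAlgebra F E] [ProperSpace E]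
  {σ : E ≃ₐ[F] E} {δ : E} {d : F} {N : ℕ} {H : Matrix (Fin N) (Fin N) E}

theorem sig_continuous (hq : QuadDatum σ δ d) : Continuous σ := by
  have := hq.finite
  exact (σ.toLinearMap).continuous_of_finiteDimensional

theorem trace_continuous (hq : QuadDatum σ δ d) : Continuous (Algebra.trace F E) := by
  have := hq.finite
  exact (Algebra.trace F E).continuous_of_finiteDimensional

theorem sk_continuous (hq : QuadDatum σ δ d) :
    Continuous (fun p : (Fin N → E) × (Fin N → E) => sk σ H p.1 p.2) := by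
  have h := sig_continuous hq
  unfold sk
  fun_prop

theorem sympl_continuous (hq : QuadDatum σ δ d) :
    Continuous (fun p : (Fin N → E) × (Fin N → E) => sympl F σ H p.1 p.2) :=
  (trace_continuous hq).comp (sk_continuous hq)

end top

section weil

variable {F E : Type} [NontriviallyNormedField F] [NontriviallyNormedField E] [NormedAlgebra F E]
  [ProperSpace E] [MeasurableSpace E] [BorelSpace E]
  {σ : E ≃ₐ[F] E} {δ : E} {d : F} {N : ℕ} {H : Matrix (Fin N) (Fin N) E}
  {ψ : AddChar F Circle} {μ : Eˣ →* ℂˣ} {S : Type} [AddCommGroup S] [Module ℂ S]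
  {ρ : (Fin N → E) → Module.End ℂ S} {ω : unitary σ H →* Module.End ℂ S}

theorem IsWeil.rho_zero (hW : IsWeil σ H ψ μ ρ ω) : ρ 0 = 1 := by
  ext v
  exact (hW.rho_smooth v).self_of_nhds

theorem IsWeil.isHeis (hW : IsWeil σ H ψ μ ρ ω) :
    Pool.Agent.SpehH.IsHeis ψ (symplB F σ H) ρ where
  zero := hW.rho_zero
  mul w w' := by
    rw [hW.rho_mul, symplB_apply, div_eq_inv_mul]
  smooth v w := by
    have h1 : Filter.Tendsto (fun a : F => a • w) (nhds 0) (nhds (0 : Fin N → E)) := by
      have : ContinuousAt (fun a : F => a • w) 0 := by fun_prop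
      simpa [ContinuousAt] using this
    have h2 := h1.eventually (hW.rho_smooth v)
    obtain ⟨ε, hε, h3⟩ := Metric.eventually_nhds_iff.1 h2
    refine ⟨ε / 2, by positivity, fun a ha => h3 ?_⟩
    rw [dist_zero_right]
    linarith

theorem IsWeil.isIrr (hW : IsWeil σ H ψ μ ρ ω) : Pool.Agent.SpehH.IsIrr ρ :=
  ⟨hW.nontrivial, fun V h => hW.rho_irr V h⟩

theorem IsWeil.isLift (hW : IsWeil σ H ψ μ ρ ω) (g : unitary σ H) :
    Pool.Agent.SpehH.IsLift (symplB F σ H) ρ (umatE F g) (omE ω g) where
  symp w w' := by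
    simp only [symplB_apply, umatE_apply, sympl_unitary]
  lift w v := by
    have := congrArg (fun f => f v) (hW.om_rho g w)
    simpa using this

/-- `ρ(w) ρ(w') = ψ(⟨w,w'⟩) ρ(w') ρ(w)`. -/
theorem IsWeil.rho_comm (hW : IsWeil σ H ψ μ ρ ω) (hq : QuadDatum σ δ d) (hH : IsSkew σ H)
    (w w' : Fin N → E) (v : S) :
    ρ w (ρ w' v) = ((ψ (sympl F σ H w w') : Circle) : ℂ) • ρ w' (ρ w v) := by
  have h1 := congrArg (fun f => f v) (hW.rho_mul w w')
  have h2 := congrArg (fun f => f v) (hW.rho_mul w' w)
  simp only [Module.End.mul_apply, LinearMap.smul_apply] at h1 h2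
  rw [h1, h2, smul_smul, add_comm w' w, sympl_swap hq hH w w']
  congr 1
  rw [← Circle.coe_mul, ← AddChar.map_add_eq_mul]
  congr 2
  have := hq.two
  field_simp
  ring

end weil

end SpW
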