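import Pool.Agent.Work.MP_3615d2_al.HeisDefs

/-!
# A symplectic basis adapted to an isotropic flag
-/

open scoped Matrix

namespace Pool.Agent.SpehH

section

variable {F : Type*} [NontriviallyNormedField F] {W : Type*} [AddCommGroup W] [Module F W]

/-- a maximal isotropic subspace -/
theorem exists_lagrangian [FiniteDimensional F W] {B : LinearMap.BilinForm F W} (hB : B.IsAlt)
    {Y : Submodule F W} (hY : ∀ y ∈ Y, ∀ y' ∈ Y, B y y' = 0) :
    ∃ L : Submodule F W, Y ≤ L ∧ (∀ y ∈ L, ∀ y' ∈ L, B y y' = 0) ∧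
      ∀ w, (∀ y ∈ L, B w y = 0) → w ∈ L := by
  classical
  set P : ℕ → Prop := fun k => ∃ L : Submodule F W, Y ≤ L ∧ (∀ y ∈ L, ∀ y' ∈ L, B y y' = 0) ∧
    Module.finrank F L = k with hP
  have hb : ∀ k, P k → k ≤ Module.finrank F W := by
    rintro k ⟨L, -, -, rfl⟩
    exact Submodule.finrank_le L
  have h0 : P (Module.finrank F Y) := ⟨Y, le_rfl, hY, rfl⟩
  obtain ⟨L, hYL, hL, hk⟩ := Nat.findGreatest_spec (P := P) (hb _ h0) h0
  refine ⟨L, hYL, hL, fun w hw => ?_⟩
  by_contra hwL
  have hlt : L < L ⊔ F ∙ w := by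
    refine lt_of_le_of_ne le_sup_left fun h => hwL ?_
    rw [h]
    exact Submodule.mem_sup_right (Submodule.mem_span_singleton_self w)
  have hanti : ∀ x y, B x y = 0 → B y x = 0 := fun x y h => by
    rw [← hB.neg_eq x y, h, neg_zero]
  have hiso : ∀ y ∈ L ⊔ F ∙ w, ∀ y' ∈ L ⊔ F ∙ w, B y y' = 0 := by
    intro y hy y' hy'
    obtain ⟨l, hl, x, hx, rfl⟩ := Submodule.mem_sup.1 hy
    obtain ⟨l', hl', x', hx', rfl⟩ := Submodule.mem_sup.1 hy'
    obtain ⟨a, rfl⟩ := Submodule.mem_span_singleton.1 hx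
    obtain ⟨a', rfl⟩ := Submodule.mem_span_singleton.1 hx'
    simp [hL l hl l' hl', hw l' hl', hanti _ _ (hw l hl), hB w]
  have h1 : P (Module.finrank F ↥(L ⊔ F ∙ w)) := ⟨_, hYL.trans le_sup_left, hiso, rfl⟩
  have h2 := Nat.le_findGreatest (hb _ h1) h1
  have h3 := Submodule.finrank_lt_finrank_of_lt hlt
  omega

theorem exists_dual [FiniteDimensional F W] {B : LinearMap.BilinForm F W} (hn : B.Nondegenerate)
    {n : ℕ} {e : Fin n → W} (he : LinearIndependent F e) :
    ∃ f : Fin n → W, ∀ i j, B (e i) (f j) = if i = j then 1 else 0 := by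
  classical
  have hsurj : Function.Surjective (LinearMap.pi fun i => B (e i) : W →ₗ[F] (Fin n → F)) := by
    rw [← LinearMap.range_eq_top]
    by_contra hne
    obtain ⟨φ, hφ0, hφ⟩ := Submodule.exists_dual_map_eq_bot_of_lt_top (lt_top_iff_ne_top.2 hne)
      inferInstance
    have hsi : ∀ i : Fin n, (Pi.single i 1 : Fin n → F) = fun j => if i = j then 1 else 0 := by
      intro i
      ext j
      simp [Pi.single_apply, eq_comm]
    set a : Fin n → F := fun i => φ (Pi.single i 1) with ha
    have h1 : ∀ w, B (∑ i, a i • e i) w = 0 := by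
      intro w
      have h2 : φ (LinearMap.pi (fun i => B (e i)) w) = 0 := by
        have : φ (LinearMap.pi (fun i => B (e i)) w) ∈ (LinearMap.range (LinearMap.pi fun i =>
          B (e i) : W →ₗ[F] (Fin n → F))).map φ := Submodule.mem_map_of_mem ⟨w, rfl⟩
        rw [hφ] at this
        exact (Submodule.mem_bot F).1 this
      rw [LinearMap.pi_apply_eq_sum_univ] at h2
      simp only [LinearMap.pi_apply, smul_eq_mul] at h2
      rw [map_sum, LinearMap.sum_apply, ← h2]
      refine Finset.sum_congr rfl fun i _ => ?_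
      rw [map_smul, LinearMap.smul_apply, smul_eq_mul, mul_comm, ha, ← hsi i]
    have h3 : ∑ i, a i • e i = 0 := hn.1 _ h1
    have h4 := Fintype.linearIndependent_iff.1 he a h3
    refine hφ0 ?_
    refine LinearMap.pi_ext' fun i => ?_
    ext
    simpa using h4 i
  choose f hf using fun j => hsurj (Pi.single j (1 : F))
  refine ⟨f, fun i j => ?_⟩
  have := congrFun (hf j) i
  rw [LinearMap.pi_apply, Pi.single_apply] at this
  exact this

theorem exists_flag [FiniteDimensional F W] {Y₁ Y L : Submodule F W} (h1 : Y₁ ≤ Y) (h2 : Y ≤ L) :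
    ∃ (n : ℕ) (e : Fin n → W) (I₁ I : Set (Fin n)), I₁ ⊆ I ∧ LinearIndependent F e ∧
      Y₁ = Submodule.span F (e '' I₁) ∧ Y = Submodule.span F (e '' I) ∧
      L = Submodule.span F (Set.range e) := by
  classical
  obtain ⟨b₁, hb₁, -, hs₁, hl₁⟩ := exists_linearIndepOn_id_extension (K := F)
    (linearIndepOn_empty F (id : W → W)) (Set.empty_subset (Y₁ : Set W))
  obtain ⟨b, hb, hbb, hs, hl⟩ := exists_linearIndepOn_id_extension hl₁
    (hb₁.trans (show (Y₁ : Set W) ⊆ Y from h1))
  obtain ⟨b', hb', hbb', hs', hl'⟩ := exists_linearIndepOn_id_extension hl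
    (hb.trans (show (Y : Set W) ⊆ L from h2))
  have hfin : b'.Finite := by
    have : LinearIndependent F (fun x : b' => (x : W)) := hl'
    exact this.setFinite
  haveI := hfin.fintype
  set eqv := (Fintype.equivFin b').symm with heqv
  set e : Fin (Fintype.card b') → W := fun i => (eqv i : W) with he
  have himg : ∀ s ⊆ b', e '' {i | e i ∈ s} = s := by
    intro s hs
    ext x
    constructor
    · rintro ⟨i, hi, rfl⟩
      exact hi
    · intro hx
      refine ⟨eqv.symm ⟨x, hs hx⟩, ?_, ?_⟩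
      · simpa [he] using hx
      · simp [he]
  refine ⟨_, e, {i | e i ∈ b₁}, {i | e i ∈ b}, fun i hi => hbb hi, ?_, ?_, ?_, ?_⟩
  · exact (linearIndependent_equiv eqv).2 hl'
  · rw [himg _ (hbb.trans hbb')]
    exact le_antisymm hs₁ (Submodule.span_le.2 hb₁)
  · rw [himg _ hbb']
    exact le_antisymm hs (Submodule.span_le.2 hb)
  · have : Set.range e = b' := by
      rw [he]
      ext x
      constructor
      · rintro ⟨i, rfl⟩
        exact (eqv i).2
      · intro hx
        exact ⟨eqv.symm ⟨x, hx⟩, by simp⟩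
    rw [this]
    exact le_antisymm hs' (Submodule.span_le.2 hb')

theorem exists_sb [FiniteDimensional F W] {B : LinearMap.BilinForm F W} (hB : B.IsAlt)
    (hn : B.Nondegenerate) (h2 : (2 : F) ≠ 0) {Y₁ Y : Submodule F W} (hY₁ : Y₁ ≤ Y)
    (hY : ∀ y ∈ Y, ∀ y' ∈ Y, B y y' = 0) :
    ∃ (n : ℕ) (e f : Fin n → W) (I₁ I : Set (Fin n)), IsSB B Y₁ Y e f I₁ I := by
  classical
  obtain ⟨L, hYL, hL, hL'⟩ := exists_lagrangian hB hY
  obtain ⟨n, e, I₁, I, hI, he, e1, e2, e3⟩ := exists_flag hY₁ hYL
  obtain ⟨f', hf'⟩ := exists_dual hn he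
  have hmem : ∀ i, e i ∈ L := fun i => by rw [e3]; exact Submodule.subset_span ⟨i, rfl⟩
  have ee : ∀ i j, B (e i) (e j) = 0 := fun i j => hL _ (hmem i) _ (hmem j)
  have hneg : ∀ x y, B x y = - B y x := fun x y => (hB.neg_eq y x).symm
  set f : Fin n → W := fun j => f' j - (1 / 2 : F) • ∑ k, B (f' j) (f' k) • e k with hf
  have ef : ∀ i j, B (e i) (f j) = if i = j then 1 else 0 := by
    intro i j
    rw [hf]
    simp only [map_sub, map_smul, map_sum, ee, smul_zero, Finset.sum_const_zero, sub_zero]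
    exact hf' i j
  have ef' : ∀ i j, B (f' i) (e j) = if i = j then -1 else 0 := by
    intro i j
    rw [hneg, hf' j i]
    by_cases h : i = j
    · simp [h]
    · rw [if_neg h, if_neg fun h' : j = i => h h'.symm, neg_zero]
  have ff : ∀ i j, B (f i) (f j) = 0 := by
    intro i j
    rw [hf]
    simp only [map_sub, map_smul, map_sum, LinearMap.sub_apply, LinearMap.smul_apply,
      LinearMap.sum_apply, smul_eq_mul, ee, hf', ef', mul_ite, mul_one, mul_zero,
      Finset.sum_ite_eq, Finset.sum_ite_eq', Finset.mem_univ, if_true, mul_neg,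
      Finset.sum_const_zero, sub_zero]
    rw [hneg (f' j) (f' i)]
    field_simp
    ring
  refine ⟨n, e, f, I₁, I, hI, ee, ff, ef, fun w => ?_, e1, e2⟩
  set r := w - (∑ i, B w (f i) • e i - ∑ i, B w (e i) • f i) with hr
  have fe : ∀ i j, B (f i) (e j) = if i = j then -1 else 0 := by
    intro i j
    rw [hneg, ef j i]
    by_cases h : i = j
    · simp [h]
    · rw [if_neg h, if_neg fun h' : j = i => h h'.symm, neg_zero]
  have r1 : ∀ j, B r (e j) = 0 := by
    intro j
    rw [hr]
    simp only [map_sub, map_smul, map_sum, LinearMap.sub_apply, LinearMap.smul_apply,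
      LinearMap.sum_apply, smul_eq_mul, ee, fe, mul_ite, mul_one, mul_zero,
      Finset.sum_ite_eq, Finset.sum_ite_eq', Finset.mem_univ, if_true, mul_neg,
      Finset.sum_const_zero]
    ring
  have r2 : ∀ j, B r (f j) = 0 := by
    intro j
    rw [hr]
    simp only [map_sub, map_smul, map_sum, LinearMap.sub_apply, LinearMap.smul_apply,
      LinearMap.sum_apply, smul_eq_mul, ef, ff, mul_ite, mul_one, mul_zero,
      Finset.sum_ite_eq, Finset.sum_ite_eq', Finset.mem_univ, if_true,
      Finset.sum_const_zero]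
    ring
  have r3 : r ∈ L := by
    refine hL' r fun y hy => ?_
    rw [e3] at hy
    induction hy using Submodule.span_induction with
    | mem x hx => obtain ⟨i, rfl⟩ := hx; exact r1 i
    | zero => simp
    | add x y _ _ hx hy => rw [map_add, hx, hy, add_zero]
    | smul a x _ hx => rw [map_smul, hx, smul_zero]
  rw [e3] at r3
  obtain ⟨c, hc⟩ := (Submodule.mem_span_range_iff_exists_fun F).1 r3
  have r4 : r = 0 := by
    rw [← hc]
    refine Finset.sum_eq_zero fun j _ => ?_
    have := r2 j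
    rw [← hc] at this
    simp only [map_smul, map_sum, LinearMap.smul_apply, LinearMap.sum_apply, smul_eq_mul, ef,
      mul_ite, mul_one, mul_zero, Finset.sum_ite_eq', Finset.mem_univ, if_true] at this
    rw [this, zero_smul]
  rw [hr, sub_eq_zero] at r4
  exact r4

end

end Pool.Agent.SpehH
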