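import Pool.Agent.Work.MP_3615d2_al.HeisCond

/-!
# Decomposition into eigenvectors of a lattice
-/

open scoped Matrix

namespace Pool.Agent.SpehH

section

variable {A : Type*} [AddCommGroup A] (N : AddSubgroup A) [Fintype (A ⧸ N)]

/-- the sum of the function `f` over `A / N` -/
noncomputable def sumQ {X : Type*} [AddCommMonoid X] (f : A → X) : X := ∑ q : A ⧸ N, f q.out

variable {X : Type*} [AddCommMonoid X]

theorem sumQ_shift {f : A → X} (hf : ∀ a, ∀ n ∈ N, f (a + n) = f a) (a₀ : A) :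
    sumQ N (fun a => f (a₀ + a)) = sumQ N f := by
  rw [sumQ, sumQ]
  refine Fintype.sum_equiv (Equiv.addLeft (QuotientAddGroup.mk a₀ : A ⧸ N)) _ _ fun q => ?_
  have h : -((QuotientAddGroup.mk a₀ + q : A ⧸ N).out) + (a₀ + q.out) ∈ N := by
    rw [← QuotientAddGroup.eq, QuotientAddGroup.out_eq', QuotientAddGroup.mk_add,
      QuotientAddGroup.out_eq']
  have h2 := hf ((QuotientAddGroup.mk a₀ + q : A ⧸ N).out) _ h
  rw [add_neg_cancel_left] at h2
  exact h2

theorem sumQ_char {θ : A → ℂ} (hadd : ∀ a b, θ (a + b) = θ a * θ b) (hN : ∀ n ∈ N, θ n = 1)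
    {a₀ : A} (h0 : θ a₀ ≠ 1) : sumQ N θ = 0 := by
  have h1 : sumQ N (fun a => θ (a₀ + a)) = sumQ N θ :=
    sumQ_shift N (fun a n hn => by rw [hadd, hN n hn, mul_one]) a₀
  have h2 : sumQ N (fun a => θ (a₀ + a)) = θ a₀ * sumQ N θ := by
    rw [sumQ, sumQ, Finset.mul_sum]
    exact Finset.sum_congr rfl fun q _ => hadd _ _
  have h3 : (θ a₀ - 1) * sumQ N θ = 0 := by rw [sub_mul, one_mul, ← h2, h1, sub_self]
  exact (mul_eq_zero.1 h3).resolve_left (sub_ne_zero.2 h0)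

end

section

variable {F : Type*} [NontriviallyNormedField F] {S : Type*} [AddCommGroup S] [Module ℂ S]
  [IsUltrametricDist F] [ProperSpace F] {κ : Type*} [Fintype κ]

/-- the ball of radius `r` -/
def bal (F : Type*) [NontriviallyNormedField F] [IsUltrametricDist F] (κ : Type*) [Fintype κ]
    (r : ℝ) (hr : 0 ≤ r) : AddSubgroup (κ → F) where
  carrier := {a | ‖a‖ ≤ r}
  add_mem' {a b} ha hb := (IsUltrametricDist.norm_add_le_max a b).trans (max_le ha hb)
  zero_mem' := by simpa using hr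
  neg_mem' {a} ha := by simpa using ha

theorem mem_bal {r : ℝ} {hr : 0 ≤ r} {a : κ → F} : a ∈ bal F κ r hr ↔ ‖a‖ ≤ r := Iff.rfl

theorem finite_bal {r : ℝ} (hr : 0 ≤ r) (N : AddSubgroup (bal F κ r hr)) {δ : ℝ} (hδ : 0 < δ)
    (hN : ∀ a : bal F κ r hr, ‖(a : κ → F)‖ ≤ δ → a ∈ N) : Finite (bal F κ r hr ⧸ N) := by
  have hcp : IsCompact ((bal F κ r hr : AddSubgroup (κ → F)) : Set (κ → F)) := by
    have : ((bal F κ r hr : AddSubgroup (κ → F)) : Set (κ → F)) = Metric.closedBall 0 r := by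
      ext a; simp [mem_bal]
    rw [this]
    exact isCompact_closedBall _ _
  haveI : CompactSpace (bal F κ r hr) := isCompact_iff_compactSpace.1 hcp
  refine AddSubgroup.quotient_finite_of_isOpen N ?_
  refine N.isOpen_of_mem_nhds (g := 0) ?_
  rw [Metric.mem_nhds_iff]
  refine ⟨δ, hδ, fun a ha => hN a ?_⟩
  rw [Metric.mem_ball, Subtype.dist_eq, dist_eq_norm] at ha
  simpa using ha.le

/-- Decomposition of a vector fixed by the ball of radius `|s|` into eigenvectors of the ball of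
radius `|t|`. -/
theorem exists_eigen {ψ : AddChar F Circle}
    (hψ : Continuous ψ) {c : F} (hc : IsCond ψ c)
    {π : (κ → F) → Module.End ℂ S} (h0 : π 0 = 1) (hadd : ∀ a a', π (a + a') = π a * π a')
    {v : S} {s t : F} (hs : s ≠ 0) (ht : t ≠ 0) (hv : ∀ a, ‖a‖ ≤ ‖s‖ → π a v = v) :
    v ∈ Submodule.span ℂ {x | x ∈ Submodule.span ℂ {z | ∃ a, ‖a‖ ≤ ‖t‖ ∧ z = π a v} ∧
      ∃ l : κ → F, ‖l‖ * ‖s‖ ≤ ‖c‖ ∧ ∀ a, ‖a‖ ≤ ‖t‖ →
        π a x = ((ψ (l ⬝ᵥ a) : Circle) : ℂ) • x} := by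
  classical
  have hs' := norm_pos_iff.2 hs
  have ht' := norm_pos_iff.2 ht
  have hc' := norm_pos_iff.2 hc.1
  set M := bal F κ ‖t‖ ht'.le with hM
  have hR : 0 ≤ ‖c‖ / ‖s‖ := by positivity
  set D := bal F κ (‖c‖ / ‖s‖) hR with hD
  set M' : AddSubgroup M := (bal F κ ‖s‖ hs'.le).addSubgroupOf M with hM'
  set D' : AddSubgroup D := (bal F κ (‖c‖ / ‖t‖) (by positivity)).addSubgroupOf D with hD'
  haveI : Finite (M ⧸ M') := finite_bal _ M' hs' fun a ha => by
    rw [hM', AddSubgroup.mem_addSubgroupOf]; exact ha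
  haveI : Finite (D ⧸ D') := finite_bal _ D' (δ := ‖c‖ / ‖t‖) (by positivity) fun a ha => by
    rw [hD', AddSubgroup.mem_addSubgroupOf]; exact ha
  haveI := Fintype.ofFinite (M ⧸ M')
  haveI := Fintype.ofFinite (D ⧸ D')
  -- the pairing
  have p1 : ∀ l a : κ → F, ‖l‖ ≤ ‖c‖ / ‖s‖ → ‖a‖ ≤ ‖s‖ → ψ (l ⬝ᵥ a) = 1 := fun l a hl ha =>
    (cond_iff_pi hc hs l).2 (by rwa [le_div_iff₀ hs'] at hl) a ha
  have p2 : ∀ l a : κ → F, ‖l‖ ≤ ‖c‖ / ‖t‖ → ‖a‖ ≤ ‖t‖ → ψ (l ⬝ᵥ a) = 1 := fun l a hl ha =>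
    (cond_iff_pi hc ht l).2 (by rwa [le_div_iff₀ ht'] at hl) a ha
  -- the eigenvectors
  set E : D → S := fun l => sumQ M' fun a : M => ((ψ (-((l : κ → F) ⬝ᵥ a)) : Circle) : ℂ) •
    π a v with hE
  have hinv : ∀ l : D, ∀ a : M, ∀ n ∈ M',
      ((ψ (-((l : κ → F) ⬝ᵥ (a + n : M))) : Circle) : ℂ) • π (a + n : M) v =
        ((ψ (-((l : κ → F) ⬝ᵥ a)) : Circle) : ℂ) • π a v := by
    intro l a n hn
    rw [hM', AddSubgroup.mem_addSubgroupOf] at hn
    rw [AddSubgroup.coe_add, dotProduct_add, hadd, Module.End.mul_apply, hv _ hn, neg_add,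
      AddChar.map_add_eq_mul, AddChar.map_neg_eq_inv ψ ((l : κ → F) ⬝ᵥ (n : κ → F)),
      p1 _ _ l.2 hn, inv_one, mul_one]
  have hEeig : ∀ l : D, ∀ a : κ → F, ‖a‖ ≤ ‖t‖ →
      π a (E l) = ((ψ ((l : κ → F) ⬝ᵥ a) : Circle) : ℂ) • E l := by
    intro l a ha
    have h1 := sumQ_shift M' (f := fun a : M => ((ψ (-((l : κ → F) ⬝ᵥ a)) : Circle) : ℂ) •
      π a v) (hinv l) ⟨a, ha⟩
    calc π a (E l) = ∑ q : M ⧸ M', ((ψ (-((l : κ → F) ⬝ᵥ (q.out : M))) : Circle) : ℂ) •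
          π a (π (q.out : M) v) := by simp only [hE, sumQ, map_sum, map_smul]
      _ = ∑ q : M ⧸ M', ((ψ ((l : κ → F) ⬝ᵥ a) : Circle) : ℂ) •
          (((ψ (-((l : κ → F) ⬝ᵥ ((⟨a, ha⟩ + q.out : M) : κ → F))) : Circle) : ℂ) •
            π ((⟨a, ha⟩ + q.out : M) : κ → F) v) := by
        refine Finset.sum_congr rfl fun q _ => ?_
        rw [AddSubgroup.coe_add, hadd, Module.End.mul_apply, dotProduct_add, neg_add,
          AddChar.map_add_eq_mul, smul_smul]
        congr 1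
        rw [AddChar.map_neg_eq_inv ψ ((l : κ → F) ⬝ᵥ a)]
        push_cast
        rw [mul_inv_cancel_left₀]
        exact Circle.coe_ne_zero _
      _ = ((ψ ((l : κ → F) ⬝ᵥ a) : Circle) : ℂ) • E l := by
        rw [← Finset.smul_sum]
        congr 1
  have hEspan : ∀ l : D, E l ∈ Submodule.span ℂ {z | ∃ a, ‖a‖ ≤ ‖t‖ ∧ z = π a v} := by
    intro l
    rw [hE]
    exact Submodule.sum_mem _ fun q _ => Submodule.smul_mem _ _
      (Submodule.subset_span ⟨_, q.out.2, rfl⟩)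
  -- the sum of the eigenvectors
  have hsum : sumQ D' E = (Fintype.card (D ⧸ D') : ℂ) • v := by
    have e1 : sumQ D' E = sumQ M' fun a : M =>
        (sumQ D' fun l : D => ((ψ (-((l : κ → F) ⬝ᵥ a)) : Circle) : ℂ)) • π a v := by
      rw [hE, sumQ]
      simp only [sumQ]
      rw [Finset.sum_comm]
      refine Finset.sum_congr rfl fun q _ => ?_
      rw [Finset.sum_smul]
    rw [e1, sumQ, Finset.sum_eq_single (0 : M ⧸ M')]
    · have h2 : ((0 : M ⧸ M').out : M) ∈ M' := by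
        rw [← QuotientAddGroup.eq_zero_iff, QuotientAddGroup.out_eq']
      rw [hM', AddSubgroup.mem_addSubgroupOf] at h2
      rw [hv _ h2, sumQ]
      congr 1
      rw [Finset.sum_eq_card_nsmul (b := (1 : ℂ)), Finset.card_univ, nsmul_eq_mul, mul_one]
      intro q _
      rw [AddChar.map_neg_eq_inv, p1 _ _ q.out.2 h2, inv_one, Circle.coe_one]
    · intro q _ hq
      have h2 : q.out ∉ M' := by
        rw [← QuotientAddGroup.eq_zero_iff, QuotientAddGroup.out_eq']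
        exact hq
      have h3 : ¬ ‖((q.out : M) : κ → F)‖ ≤ ‖s‖ := fun h =>
        h2 (AddSubgroup.mem_addSubgroupOf.2 h)
      have h4 : ∃ l : κ → F, ‖l‖ ≤ ‖c / s‖ ∧ ψ (((q.out : M) : κ → F) ⬝ᵥ l) ≠ 1 := by
        by_contra! h
        refine h3 ?_
        have := (cond_iff_pi hc (div_ne_zero hc.1 hs) ((q.out : M) : κ → F)).1 h
        rw [norm_div, ← mul_div_assoc, div_le_iff₀ hs', mul_comm] at this
        exact le_of_mul_le_mul_left this hc'
      obtain ⟨l, hl, hl'⟩ := h4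
      have hlD : l ∈ D := by
        rw [norm_div] at hl
        exact hl
      rw [sumQ_char D' (θ := fun l : D => ((ψ (-((l : κ → F) ⬝ᵥ ((q.out : M) : κ → F))) :
        Circle) : ℂ)) ?_ ?_ (a₀ := ⟨l, hlD⟩) ?_, zero_smul]
      · intro a b
        rw [AddSubgroup.coe_add, add_dotProduct, neg_add, AddChar.map_add_eq_mul]
        push_cast
        rfl
      · intro n hn
        rw [hD', AddSubgroup.mem_addSubgroupOf] at hn
        rw [AddChar.map_neg_eq_inv, p2 _ _ hn q.out.2, inv_one, Circle.coe_one]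
      · intro h
        refine hl' ?_
        rw [dotProduct_comm]
        have h5 : ψ (-(l ⬝ᵥ ((q.out : M) : κ → F))) = 1 := Circle.ext (by simpa using h)
        rw [AddChar.map_neg_eq_inv, inv_eq_one] at h5
        exact h5
    · intro h
      exact absurd (Finset.mem_univ _) h
  have hcard : (Fintype.card (D ⧸ D') : ℂ) ≠ 0 := by
    exact_mod_cast Fintype.card_ne_zero
  have hfin : v = ((Fintype.card (D ⧸ D') : ℂ))⁻¹ • sumQ D' E := by
    rw [hsum, smul_smul, inv_mul_cancel₀ hcard, one_smul]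
  rw [hfin]
  refine Submodule.smul_mem _ _ (Submodule.sum_mem _ fun q _ => Submodule.subset_span ?_)
  refine ⟨?_, q.out, ?_, hEeig q.out⟩
  · rw [← hfin]
    exact hEspan _
  · have : ‖((q.out : D) : κ → F)‖ ≤ ‖c‖ / ‖s‖ := q.out.2
    rwa [le_div_iff₀ hs'] at this

end

end Pool.Agent.SpehH
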