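import Pool.Agent.Work.MP_3615d2_al.HeisKey

/-!
# The points of `Y₁^⊥ ∖ Z` are not in the support
-/

open scoped Matrix

namespace Pool.Agent.SpehH

section

variable {F : Type*} [NontriviallyNormedField F] {W : Type*} [AddCommGroup W] [Module F W]
  {S : Type*} [AddCommGroup S] [Module ℂ S]
  {ψ : AddChar F Circle} {B : LinearMap.BilinForm F W} {ρ : W → Module.End ℂ S}
  {Y₁ Y : Submodule F W} {n : ℕ} {e f : Fin n → W} {I₁ I : Set (Fin n)} {c t : F}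

/-- transport of eigenvectors by a lift -/
theorem eig_map [IsUltrametricDist F] (sb : IsSB B Y₁ Y e f I₁ I) {k : W ≃ₗ[F] W}
    {Om' : S ≃ₗ[ℂ] S} (hk : IsLift B ρ k Om') (hkY : ∀ y ∈ Y, k.symm y ∈ Y) {C : ℝ}
    (hC0 : 0 ≤ C) (hC : ∀ i j, ‖B (k.symm (e i)) (f j)‖ ≤ C) {t₀ : F}
    (ht : C * ‖t₀‖ ≤ ‖t‖) {ξ : W} {v : S} (hv : IsEig ψ B ρ e I t ξ v) :
    IsEig ψ B ρ e I t₀ (k ξ) (Om' v) := by
  intro a ha haI
  have h1 : k.symm (lc e a) ∈ Y := hkY _ (sb.lc_mem haI)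
  obtain ⟨h2, h3⟩ := sb.coord h1
  have h4 := sb.eq_lc h2
  set a' : Fin n → F := fun i => B (k.symm (lc e a)) (f i) with ha'
  have h5 : ‖a'‖ ≤ ‖t‖ := by
    refine (pi_norm_le_iff_of_nonneg (norm_nonneg t)).2 fun j => ?_
    have h6 : k.symm (lc e a) = lc (fun i => k.symm (e i)) a := by
      rw [lc, lc, map_sum]
      exact Finset.sum_congr rfl fun i _ => by rw [map_smul]
    rw [ha']
    show ‖B (k.symm (lc e a)) (f j)‖ ≤ ‖t‖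
    rw [h6, bil_lc_left]
    refine (IsUltrametricDist.norm_sum_le_of_forall_le_of_nonneg (C := C * ‖t₀‖)
      (by positivity) fun i _ => ?_).trans ht
    rw [norm_mul, mul_comm]
    exact mul_le_mul (hC i j) ((norm_le_pi_norm a i).trans ha) (norm_nonneg _) hC0
  have h7 : ρ (lc e a) (Om' v) = Om' (ρ (lc e a') v) := by
    rw [hk.lift, ← h4, LinearEquiv.apply_symm_apply]
  have h8 : B (k ξ) (lc e a) = B ξ (lc e a') := by
    rw [← h4, ← hk.symp ξ, LinearEquiv.apply_symm_apply]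
  rw [h7, hv a' h5 h3, map_smul, h8]

/-- the points `ξ` in `Y₁^⊥ ∖ Z` are not in the support of `μ` -/
theorem regular [IsUltrametricDist F] (hψ : Continuous ψ) (hc : IsCond ψ c) (hB : B.IsAlt)
    (h2 : (2 : F) ≠ 0) (h : IsHeis ψ B ρ) (hi : IsIrr ρ) (sb : IsSB B Y₁ Y e f I₁ I)
    (hfix : ∀ t : F, t ≠ 0 → ∃ v ≠ 0, IsFix ρ e f c t v) {μ : S →ₗ[ℂ] ℂ}
    (hμ : ∀ y ∈ Y₁, ∀ v, μ (ρ y v) = μ v) {ξ : W} (hξ : ∀ y ∈ Y₁, B ξ y = 0)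
    {u k : W ≃ₗ[F] W} {Om Om' : S ≃ₗ[ℂ] S} (hu : IsLift B ρ u Om) (hk : IsLift B ρ k Om')
    (hμu : ∀ v, μ (Om v) = μ v) (hμk : ∀ v, μ (Om' v) = μ v) (hu₁ : ∀ y ∈ Y₁, u y ∈ Y₁)
    (hu₂ : ∀ w, (∀ y ∈ Y₁, B w y = 0) → u w - w ∈ Y)
    (hu₃ : ∀ w, (∀ y ∈ Y, B w y = 0) → u w - w ∈ Y₁)
    (hkY : Y.map (k : W →ₗ[F] W) = Y) (hkY₁ : Y₁.map (k : W →ₗ[F] W) = Y₁)
    (hne : ψ (B (u (k ξ) - k ξ) (k ξ) / 2) ≠ ψ (B (u ξ - ξ) ξ / 2)) :
    ∃ t : F, t ≠ 0 ∧ ∀ v, IsEig ψ B ρ e I t ξ v → μ v = 0 := by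
  classical
  have hsymm : ∀ {V : Submodule F W}, V.map (k : W →ₗ[F] W) = V → ∀ y ∈ V, k.symm y ∈ V := by
    intro V hV y hy
    rw [← hV] at hy
    obtain ⟨y', hy', rfl⟩ := Submodule.mem_map.1 hy
    have : k.symm ((k : W →ₗ[F] W) y') = y' := k.symm_apply_apply y'
    rwa [this]
  have hξ' : ∀ y ∈ Y₁, B (k ξ) y = 0 := by
    intro y hy
    have h3 := hξ _ (hsymm hkY₁ y hy)
    rwa [← hk.symp, LinearEquiv.apply_symm_apply] at h3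
  obtain ⟨t₀, ht₀, hkey⟩ := key hψ hc hB h2 h hi sb hfix hu hu₁ hu₂ hu₃ {ξ, k ξ} (by
    intro x hx
    rw [Finset.mem_insert, Finset.mem_singleton] at hx
    rcases hx with rfl | rfl
    · exact hξ
    · exact hξ')
  obtain ⟨χ, hχ⟩ := hkey t₀ le_rfl
  obtain ⟨C, hC0, hC⟩ := exists_bound (Finset.univ : Finset (Fin n × Fin n))
    fun p => ‖B (k.symm (e p.1)) (f p.2)‖
  obtain ⟨t, ht, ht'⟩ := exists_norm_ge F (max ‖t₀‖ (C * ‖t₀‖))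
  refine ⟨t, ht, fun v hv => ?_⟩
  have e1 : IsEig ψ B ρ e I t₀ ξ v := fun a ha ha' =>
    hv a (ha.trans ((le_max_left _ _).trans ht')) ha'
  have e2 : IsEig ψ B ρ e I t₀ (k ξ) (Om' v) :=
    eig_map sb hk (hsymm hkY) hC0 (fun i j => hC (i, j) (by simp))
      ((le_max_right _ _).trans ht') hv
  have e3 := map_eq_zero_of_mem_coK hμ (hχ ξ (by simp) v e1)
  have e4 := map_eq_zero_of_mem_coK hμ (hχ (k ξ) (by simp) _ e2)
  rw [map_sub, map_smul, hμu, smul_eq_mul, sub_eq_zero] at e3 e4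
  rw [hμk] at e4
  by_contra h0
  have e5 : χ * ((ψ (B (u ξ - ξ) ξ / 2) : Circle) : ℂ) = 1 := by
    have := e3.symm
    rwa [mul_eq_right₀ h0] at this
  have e6 : χ * ((ψ (B (u (k ξ) - k ξ) (k ξ) / 2) : Circle) : ℂ) = 1 := by
    have := e4.symm
    rwa [mul_eq_right₀ h0] at this
  apply hne
  have hχ0 : χ ≠ 0 := by
    rintro rfl
    rw [zero_mul] at e5
    exact zero_ne_one e5
  rw [← Circle.coe_inj]
  exact mul_left_cancel₀ hχ0 (e6.trans e5.symm)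

end

end Pool.Agent.SpehH
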