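import Pool.Agent.Work.MP_3615d2_al.PowBddDiv
import Pool.Agent.Work.MP_3615d2_al.BlkAlg
import Pool.Agent.Work.MP_3615d2_al.Bridge
import Pool.Agent.Work.MP_3615d2_al.HeisV

/-!
# The functionals on a Weil representation which are invariant under a block

LEMMA V for the elements of `U(X)` which act on a block; the split case; in the division case the
invariance under `ρ(π^(l+1) D x)`.
-/

set_option linter.unusedSectionVars false

open scoped Quaternion
open QuaternionAlgebra Polynomial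

namespace SpW

section

variable {F E : Type} [NontriviallyNormedField F] [IsUltrametricDist F] [ProperSpace F]
  [NontriviallyNormedField E] [NormedAlgebra F E] [IsUltrametricDist E] [ProperSpace E]
  [MeasurableSpace E] [BorelSpace E]
  {σ : E ≃ₐ[F] E} {δ : E} {d : F} {N : ℕ} {H : Matrix (Fin N) (Fin N) E}
  {S : Type} [AddCommGroup S] [Module ℂ S]
  {ψ : AddChar F Circle} {μ : Eˣ →* ℂˣ}
  {ρ : (Fin N → E) → Module.End ℂ S} {ω : unitary σ H →* Module.End ℂ S}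

/-- The pairs `(u, Om)` of the elements of `U(X)` acting on the block. -/
def blkUU (δ : E) (d : F) (B : Matrix (Fin N) (Fin N) E) (p : F[X]) (n : ℕ) (x : Fin N → E)
    (ω : unitary σ H →* Module.End ℂ S) :
    Set (((Fin N → E) ≃ₗ[F] (Fin N → E)) × (S ≃ₗ[ℂ] S)) :=
  {q | ∃ (u : DD d p n) (g : unitary σ H), u * star u = 1 ∧ PowBdd F u ∧
    IsBlkElt σ H B δ p n x u g ∧ q = (umatE F g, omE ω g)}

/-- LEMMA V for `blkUU`. -/
theorem blk_LV (hq : QuadDatum σ δ d) (hH : IsSkew σ H) (hψ : Continuous ψ) (hψ1 : ψ ≠ 1)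
    (hW : IsWeil σ H ψ μ ρ ω) (B : Alt N E) {p : F[X]} {n : ℕ} {x : Fin N → E}
    {m' : S →ₗ[ℂ] ℂ}
    (hm : ∀ (u : DD d p n) (g : unitary σ H), u * star u = 1 → PowBdd F u →
      IsBlkElt σ H B.1 δ p n x u g → ∀ v, m' (ω g v) = m' v) :
    Blk.LV (symplB F σ H) ψ ρ m' (blkUU δ d B.1 p n x ω) := by
  intro Y₁ Y Z h1 h2 h3 h4 h5
  have := hq.finite
  refine Pool.Agent.SpehH.lemmaV hψ hψ1 (symplB_alt hq hH) (symplB_nondeg hq hH) hq.two
    hW.isHeis hW.isIrr h1 h2 h3 h4 (blkUU δ d B.1 p n x ω) ?_ ?_ h5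
  · rintro _ ⟨u, g, _, _, _, rfl⟩
    exact hW.isLift g
  · rintro _ ⟨u, g, hu, hb, hg, rfl⟩ v
    exact hm u g hu hb hg v

/-- Symplectic orthogonality to a block is orthogonality. -/
theorem blk_perp (hq : QuadDatum σ δ d) {B : Matrix (Fin N) (Fin N) E}
    {p : F[X]} {n : ℕ} {x : Fin N → E} (hx : aeval (Alin σ H B) (p ^ n) x = 0) {w : Fin N → E}
    (hw : ∀ a : DD d p n, sympl F σ H (blk σ H B δ p n x a) w = 0) (a : DD d p n) :
    sk σ H (blk σ H B δ p n x a) w = 0 := by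
  apply hq.eq_zero_of_trace (hw a)
  rw [← sk_smul_left, blk_E hq hx]
  exact hw _

/-- The elements of `U(X)` act on the block as required. -/
theorem blk_act (hq : QuadDatum σ δ d) (hH : IsSkew σ H) (B : Alt N E) {p : F[X]} {n : ℕ}
    {x : Fin N → E} (hx : IsBlock σ H B.1 p n x) (u : DD d p n) (hu : u * star u = 1)
    (hb : PowBdd F u) (ω : unitary σ H →* Module.End ℂ S) :
    ∃ q ∈ blkUU δ d B.1 p n x ω, Blk.IsAct (symplB F σ H) (blkL δ d hx.kill) u q.1 := by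
  obtain ⟨g, hg⟩ := blkElt_exists hq hH B hx u hu
  refine ⟨_, ⟨u, g, hu, hb, hg, rfl⟩, fun a => hg.1 a, fun w hw => ?_⟩
  exact hg.2 w (fun a => blk_perp hq hx.kill hw a)

theorem not_dvd_X_of_isUnit_root {p : F[X]} (hp : Irreducible p) {n : ℕ} (hn : 0 < n)
    (hu : IsUnit (AdjoinRoot.root (p ^ n))) : ¬ p ∣ X := by
  intro h
  rw [Blk.isUnit_iff_red hp hn, Blk.red_root] at hu
  apply hu
  rw [← AdjoinRoot.mk_X, AdjoinRoot.mk_eq_zero]
  exact h

/-- **Split case.** -/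
theorem blk_split_kill (hq : QuadDatum σ δ d) (hH : IsSkew σ H) (hψ : Continuous ψ) (hψ1 : ψ ≠ 1)
    (hW : IsWeil σ H ψ μ ρ ω) (B : Alt N E) {p : F[X]} {n : ℕ} {x : Fin N → E}
    (hx : IsBlock σ H B.1 p n x) (hn : Odd n)
    (hK : ¬ ∃ z : AdjoinRoot p, z * z = algebraMap F (AdjoinRoot p) d)
    {b₀ b₁ : RR p n} (hb : AdjoinRoot.root (p ^ n) = b₀ ^ 2 - algebraMap F (RR p n) d * b₁ ^ 2)
    {m' : S →ₗ[ℂ] ℂ}
    (hm : ∀ (u : DD d p n) (g : unitary σ H), u * star u = 1 → PowBdd F u →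
      IsBlkElt σ H B.1 δ p n x u g → ∀ v, m' (ω g v) = m' v) : m' = 0 := by
  obtain ⟨s, hs1, _, _, hs2⟩ := blk_form hq hH B.2.1 hx (δ := δ) (d := d)
  obtain ⟨l, hl⟩ := hn
  have := Blk.finite_RR (n := n) hx.irr
  have hd : d ≠ 0 := by
    rintro rfl
    have := hq.sq
    rw [map_zero] at this
    exact hq.ne (mul_self_eq_zero.1 this)
  have hroot := isUnit_root hq hH B.2.2 hx
  have hskew : ∀ w w', symplB F σ H w w' = - symplB F σ H w' w := by
    intro w w'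
    rw [symplB_apply, symplB_apply, sympl_swap hq hH]
  exact (Blk.chain_RR hx.irr hx.pos hs1).split_kill hq.two ((IsUnit.mk0 _ hd).map _) hroot
    (Blk.hE_of_hK hx.irr hx.pos hK) hb hskew hψ1 hW.rho_zero hW.isHeis.mul
    (blk_LV hq hH hψ hψ1 hW B hm) (ι := blkL δ d hx.kill) hs2
    (fun u hu hbu => blk_act hq hH B hx u hu hbu ω) hl

/-- **Division case**: invariance under `ρ(π^(l+1) D x)`. -/
theorem blk_div_inv (hq : QuadDatum σ δ d) (hH : IsSkew σ H) (hψ : Continuous ψ) (hψ1 : ψ ≠ 1)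
    (hW : IsWeil σ H ψ μ ρ ω) (B : Alt N E) {p : F[X]} {n : ℕ} {x : Fin N → E}
    (hx : IsBlock σ H B.1 p n x) {l : ℕ} (hn : n = 2 * l + 1)
    (hK : ¬ ∃ z : AdjoinRoot p, z * z = algebraMap F (AdjoinRoot p) d)
    (ht : ∀ z₀ z₁ : AdjoinRoot p,
        AdjoinRoot.root p ≠ z₀ ^ 2 - algebraMap F (AdjoinRoot p) d * z₁ ^ 2)
    {m' : S →ₗ[ℂ] ℂ}
    (hm : ∀ (u : DD d p n) (g : unitary σ H), u * star u = 1 → PowBdd F u →
      IsBlkElt σ H B.1 δ p n x u g → ∀ v, m' (ω g v) = m' v) (a : DD d p n) (v : S) :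
    m' (ρ (blk σ H B.1 δ p n x (AdjoinRoot.mk (p ^ n) p ^ (l + 1) • a)) v) = m' v := by
  obtain ⟨s, hs1, _, _, hs2⟩ := blk_form hq hH B.2.1 hx (δ := δ) (d := d)
  have := Blk.finite_RR (n := n) hx.irr
  have hd : d ≠ 0 := by
    rintro rfl
    have := hq.sq
    rw [map_zero] at this
    exact hq.ne (mul_self_eq_zero.1 this)
  have hroot := isUnit_root hq hH B.2.2 hx
  have hskew : ∀ w w', symplB F σ H w w' = - symplB F σ H w' w := by
    intro w w'
    rw [symplB_apply, symplB_apply, sympl_swap hq hH]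
  have h2 : IsUnit (2 : RR p n) := by
    have : (2 : RR p n) = algebraMap F (RR p n) 2 := (map_ofNat (algebraMap F (RR p n)) 2).symm
    rw [this]
    exact (IsUnit.mk0 _ hq.two).map _
  exact (Blk.chain_RR hx.irr hx.pos hs1).div_red hq.two h2 ((IsUnit.mk0 _ hd).map _) hroot
    (Blk.hdiv_of hx.irr hx.pos hK ht) hskew hψ1 hW.rho_zero
    (blk_LV hq hH hψ hψ1 hW B hm) (ι := blkL δ d hx.kill) hs2
    (fun u hu => blk_act hq hH B hx u hu (Blk.powBdd_div hx.irr hx.pos hK ht hu) ω) hn a v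

/-- In the division case the functional is invariant under all elements of norm one. -/
theorem blk_div_all (B : Alt N E) {p : F[X]} {n : ℕ}
    {x : Fin N → E} (hx : IsBlock σ H B.1 p n x)
    (hK : ¬ ∃ z : AdjoinRoot p, z * z = algebraMap F (AdjoinRoot p) d)
    (ht : ∀ z₀ z₁ : AdjoinRoot p,
        AdjoinRoot.root p ≠ z₀ ^ 2 - algebraMap F (AdjoinRoot p) d * z₁ ^ 2)
    {m' : S →ₗ[ℂ] ℂ}
    (hm : ∀ (u : DD d p n) (g : unitary σ H), u * star u = 1 → PowBdd F u →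
      IsBlkElt σ H B.1 δ p n x u g → ∀ v, m' (ω g v) = m' v) (u : DD d p n) (g : unitary σ H)
    (hu : u * star u = 1) (hg : IsBlkElt σ H B.1 δ p n x u g) (v : S) : m' (ω g v) = m' v :=
  hm u g hu (Blk.powBdd_div hx.irr hx.pos hK ht hu) hg v

end

end SpW
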