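import Pool.Agent.Work.MP_3615d2_al.LocNorm
import Pool.Agent.Work.MP_3615d2_al.ModDet
import Pool.Agent.Work.MP_3615d2_al.Quad

/-!
MP_3615d2_al: finite extensions as normed fields (spectral norm); the quadratic character
`om = μ ∘ N_{K/F}`.
-/

open Polynomial MeasureTheory Measure
open scoped NNReal

namespace SpW

section NX

/-- The finite extension `K` of `F` as a normed field (spectral norm). -/
def NX (F : Type) [NontriviallyNormedField F] [IsUltrametricDist F] [ProperSpace F]
  (K : Type) [Field K] [Algebra F K] [FiniteDimensional F K] : Type := K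

variable (F : Type) [NontriviallyNormedField F] [IsUltrametricDist F] [ProperSpace F]
  (K : Type) [Field K] [Algebra F K] [FiniteDimensional F K]

@[reducible] noncomputable def NX.instNNF : NontriviallyNormedField (NX F K) :=
  spectralNorm.nontriviallyNormedField F K

attribute [local instance] NX.instNNF

@[reducible] noncomputable def NX.instNA : NormedAlgebra F (NX F K) :=
  spectralNorm.normedAlgebra F K

attribute [local instance] NX.instNA

/-- The identity. -/
noncomputable def NX.equiv : K ≃ₐ[F] NX F K where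
  toFun x := x
  invFun x := x
  left_inv _ := rfl
  right_inv _ := rfl
  map_mul' _ _ := rfl
  map_add' _ _ := rfl
  commutes' _ := rfl

theorem NX.instFD : FiniteDimensional F (NX F K) :=
  (NX.equiv F K).toLinearEquiv.finiteDimensional

attribute [local instance] NX.instFD

theorem NX.instPS : ProperSpace (NX F K) := FiniteDimensional.proper F (NX F K)

theorem NX.instUM : IsUltrametricDist (NX F K) :=
  IsUltrametricDist.isUltrametricDist_of_forall_norm_add_le_max_norm
    (fun x y => isNonarchimedean_spectralNorm (K := F) (L := K) x y)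

end NX

section quad

variable {K : Type} [Field K] {d : K}

/-- Conjugation of `K(√d)`. -/
def qconj (d : K) : QuadraticAlgebra K d 0 ≃ₐ[K] QuadraticAlgebra K d 0 where
  toFun z := ⟨z.re, -z.im⟩
  invFun z := ⟨z.re, -z.im⟩
  left_inv z := by ext <;> simp
  right_inv z := by ext <;> simp
  map_mul' x y := by
    ext
    · simp
    · simp
      ring
  map_add' x y := by ext <;> simp [add_comm]
  commutes' r := by ext <;> simp

theorem fact_of_not_sq (h : ¬ ∃ z : K, z * z = d) : Fact (∀ r : K, r ^ 2 ≠ d + 0 * r) :=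
  ⟨fun r hr => h ⟨r, by rw [zero_mul, add_zero] at hr; rw [← hr]; ring⟩⟩

variable [Fact (∀ r : K, r ^ 2 ≠ d + 0 * r)] {L : Type} [Field L] [Algebra K L]

/-- The conjugation of `L ≅ K(√d)`. -/
noncomputable def sgL (e : QuadraticAlgebra K d 0 ≃ₐ[K] L) : L ≃ₐ[K] L :=
  e.symm.trans ((qconj d).trans e)

/-- The square root of `d` in `L`. -/
noncomputable def delL (e : QuadraticAlgebra K d 0 ≃ₐ[K] L) : L := e ⟨0, 1⟩

theorem quadDatum_L (h2 : (2 : K) ≠ 0) (e : QuadraticAlgebra K d 0 ≃ₐ[K] L) :
    QuadDatum (sgL e) (delL e) d where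
  two := h2
  rank := by
    rw [← e.toLinearEquiv.finrank_eq, QuadraticAlgebra.finrank_eq_two]
  sig := by
    simp only [sgL, delL, AlgEquiv.trans_apply, AlgEquiv.symm_apply_apply]
    rw [← map_neg]
    congr 1
    ext <;> simp [qconj]
  ne := by
    simp only [delL, ne_eq, EmbeddingLike.map_eq_zero_iff]
    intro h
    have := congrArg QuadraticAlgebra.im h
    simp at this
  sq := by
    simp only [delL]
    rw [← map_mul, ← e.commutes]
    congr 1
    ext <;> simp

theorem norm_L (e : QuadraticAlgebra K d 0 ≃ₐ[K] L) (z : QuadraticAlgebra K d 0) :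
    Algebra.norm K (e z) = z.re * z.re - d * (z.im * z.im) := by
  rw [Algebra.norm_eq_of_algEquiv, Pool.Agent.LocNorm.norm_quad, QuadraticAlgebra.norm_def]
  ring

theorem trace_L (h2 : (2 : K) ≠ 0) (e : QuadraticAlgebra K d 0 ≃ₐ[K] L)
    (z : QuadraticAlgebra K d 0) : Algebra.trace K L (e z) = 2 * z.re := by
  have h := (quadDatum_L h2 e).trace_eq (e z)
  apply (algebraMap K L).injective
  rw [h]
  simp only [sgL, AlgEquiv.trans_apply, AlgEquiv.symm_apply_apply]
  rw [← map_add, ← e.commutes]
  congr 1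
  ext
  · simp [qconj]
    ring
  · simp [qconj]

end quad

section om

variable {F E : Type} [NontriviallyNormedField F] [NontriviallyNormedField E] [NormedAlgebra F E]

open scoped Classical in
/-- `μ` restricted to `F`, extended by `0`. -/
noncomputable def omF (F : Type) {E : Type} [NontriviallyNormedField F] [NontriviallyNormedField E]
    [NormedAlgebra F E] (μ : Eˣ →* ℂˣ) (x : F) : ℂ :=
  if h : x = 0 then 0 else
    ((μ (Units.map (algebraMap F E).toMonoidHom (Units.mk0 x h)) : ℂˣ) : ℂ)

theorem omF_ne (μ : Eˣ →* ℂˣ) {x : F} (h : x ≠ 0) :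
    omF F μ x = ((μ (Units.map (algebraMap F E).toMonoidHom (Units.mk0 x h)) : ℂˣ) : ℂ) := by
  simp [omF, h]

theorem omF_eq (μ : Eˣ →* ℂˣ) {x : F} (u : Eˣ) (h : (u : E) = algebraMap F E x) :
    omF F μ x = ((μ u : ℂˣ) : ℂ) := by
  have hx : x ≠ 0 := by
    rintro rfl
    rw [map_zero] at h
    exact u.ne_zero h
  rw [omF_ne μ hx]
  congr 2
  ext
  rw [h]
  rfl

theorem omF_mul (μ : Eˣ →* ℂˣ) {x y : F} (hx : x ≠ 0) (hy : y ≠ 0) :
    omF F μ (x * y) = omF F μ x * omF F μ y := by
  rw [omF_ne μ hx, omF_ne μ hy, omF_ne μ (mul_ne_zero hx hy), ← Units.val_mul, ← map_mul]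
  congr 2
  ext
  simp

theorem omF_norm {μ : Eˣ →* ℂˣ} (hμ : ConjSymplectic F μ) {x : F} (hx : x ≠ 0)
    (h : ∃ y : E, Algebra.norm F y = x) : omF F μ x = 1 := by
  rw [omF_ne μ hx, hμ.norm (Units.mk0 x hx) h, Units.val_one]

theorem omF_nonnorm {μ : Eˣ →* ℂˣ} (hμ : ConjSymplectic F μ) {x : F} (hx : x ≠ 0)
    (h : ¬ ∃ y : E, Algebra.norm F y = x) : omF F μ x = -1 := by
  rw [omF_ne μ hx, hμ.nonnorm (Units.mk0 x hx) h]
  simp

theorem omF_cont {μ : Eˣ →* ℂˣ} (hμ : ConjSymplectic F μ) : ContinuousOn (omF F μ) {0}ᶜ := by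
  rw [continuousOn_iff_continuous_domRestrict]
  have h1 : Continuous (fun x : {x : F // x ≠ 0} => (unitsHomeomorphNeZero (G₀ := F)).symm x) :=
    (unitsHomeomorphNeZero (G₀ := F)).symm.continuous
  have h2 : Continuous (Units.map (algebraMap F E).toMonoidHom) :=
    Continuous.units_map (algebraMap F E).toMonoidHom (continuous_algebraMap F E)
  have h3 := Units.continuous_val.comp (hμ.cont.comp (h2.comp h1))
  refine h3.congr ?_
  intro x
  simp only [Function.comp_apply, Set.domRestrict_apply]
  rw [omF_ne μ x.2]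
  congr 3
  ext
  exact congrArg Subtype.val ((unitsHomeomorphNeZero (G₀ := F)).apply_symm_apply x)

variable [IsUltrametricDist F] [ProperSpace F] {σ : E ≃ₐ[F] E} {δ : E} {d : F}
  {K : Type} [NontriviallyNormedField K] [IsUltrametricDist K] [ProperSpace K] [NormedAlgebra F K]
  [FiniteDimensional F K] {L : Type} [NontriviallyNormedField L] [NormedAlgebra K L]

/-- A norm from `L` to `K` has norm to `F` a norm from `E`. -/
theorem norm_norm_mem (hq : QuadDatum σ δ d) [Fact (∀ r : K, r ^ 2 ≠ algebraMap F K d + 0 * r)]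
    (z : QuadraticAlgebra K (algebraMap F K d) 0) :
    ∃ y : E, Algebra.norm F y = Algebra.norm F (Algebra.norm K z) := by
  let f₁ : QuadraticAlgebra F d 0 →ₐ[F] E :=
    QuadraticAlgebra.lift ⟨δ, by rw [hq.sq, zero_smul, add_zero, Algebra.smul_def, mul_one]⟩
  have hs : Function.Surjective f₁ := by
    intro x
    obtain ⟨a, b, rfl⟩ := hq.exists_coord x
    refine ⟨⟨a, b⟩, ?_⟩
    simp only [f₁, QuadraticAlgebra.lift_apply_apply]
    rw [Algebra.smul_def, Algebra.smul_def, mul_one]
  have hE := hq.finite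
  have hfr : Module.finrank F (QuadraticAlgebra F d 0) = Module.finrank F E := by
    rw [hq.rank, QuadraticAlgebra.finrank_eq_two]
  have hbij : Function.Bijective f₁ :=
    ⟨(LinearMap.injective_iff_surjective_of_finrank_eq_finrank
      (f := f₁.toLinearMap) hfr).2 hs, hs⟩
  let f₂ : QuadraticAlgebra F d 0 →ₐ[F] QuadraticAlgebra K (algebraMap F K d) 0 :=
    QuadraticAlgebra.lift ⟨⟨0, 1⟩, by
      rw [zero_smul, add_zero, Algebra.smul_def, mul_one,
        IsScalarTower.algebraMap_apply F K (QuadraticAlgebra K (algebraMap F K d) 0)]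
      ext <;> simp⟩
  let f : E →ₐ[F] QuadraticAlgebra K (algebraMap F K d) 0 :=
    f₂.comp (AlgEquiv.ofBijective f₁ hbij).symm.toAlgHom
  let _ : Algebra E (QuadraticAlgebra K (algebraMap F K d) 0) := f.toRingHom.toAlgebra
  have : IsScalarTower F E (QuadraticAlgebra K (algebraMap F K d) 0) :=
    IsScalarTower.of_algebraMap_eq (fun x => (f.commutes x).symm)
  refine ⟨Algebra.norm E z, ?_⟩
  rw [Algebra.norm_norm, Algebra.norm_norm]

omit [IsUltrametricDist F] [IsUltrametricDist K] in
theorem continuous_norm_K : Continuous (fun z : K => Algebra.norm F z) := by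
  classical
  let b := Module.finBasis F K
  have h1 : (fun z : K => Algebra.norm F z) =
      fun z => (Algebra.leftMulMatrix b z).det := by
    funext z
    exact Algebra.norm_eq_matrix_det b z
  rw [h1]
  have h2 : Continuous (fun z : K => Algebra.leftMulMatrix b z) :=
    (Algebra.leftMulMatrix b).toLinearMap.continuous_of_finiteDimensional
  exact h2.matrix_det

theorem omChar (hq : QuadDatum σ δ d) {μ : Eˣ →* ℂˣ} (hμ : ConjSymplectic F μ)
    [Fact (∀ r : K, r ^ 2 ≠ algebraMap F K d + 0 * r)]
    (e : QuadraticAlgebra K (algebraMap F K d) 0 ≃ₐ[K] L)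
    (hN : ∃ z : K, z ≠ 0 ∧ ¬ ∃ y : E, Algebra.norm F y = Algebra.norm F z) :
    OmChar K L (fun z => omF F μ (Algebra.norm F z)) := by
  have h2K : (2 : K) ≠ 0 := by
    intro h
    apply hq.two
    have : algebraMap F K 2 = 0 := by rw [map_ofNat, h]
    exact (map_eq_zero _).1 this
  have hne : ∀ z : K, z ≠ 0 → Algebra.norm F z ≠ 0 := fun z hz => Algebra.norm_ne_zero_iff.2 hz
  have hL := quadDatum_L h2K e
  have hfd := hL.finite
  have hnorm : ∀ y : L, y ≠ 0 → omF F μ (Algebra.norm F (Algebra.norm K y)) = 1 := by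
    intro y hy
    obtain ⟨y', hy'⟩ := norm_norm_mem hq (e.symm y)
    have h1 : Algebra.norm K y = Algebra.norm K (e.symm y) := by
      rw [← Algebra.norm_eq_of_algEquiv e, e.apply_symm_apply]
    refine omF_norm hμ (hne _ (Algebra.norm_ne_zero_iff.2 hy)) ⟨y', ?_⟩
    rw [hy', h1]
  have hmul : ∀ x y : K, x ≠ 0 → y ≠ 0 → omF F μ (Algebra.norm F (x * y)) =
      omF F μ (Algebra.norm F x) * omF F μ (Algebra.norm F y) := by
    intro x y hx hy
    rw [map_mul, omF_mul μ (hne x hx) (hne y hy)]
  refine ⟨hnorm, ?_, hmul, ?_⟩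
  · intro x hx hxn
    by_contra hcon
    have h1 : omF F μ (Algebra.norm F x) = 1 := by
      by_cases h : ∃ y : E, Algebra.norm F y = Algebra.norm F x
      · exact omF_norm hμ (hne x hx) h
      · exact absurd (omF_nonnorm hμ (hne x hx) h) hcon
    obtain ⟨z, hz, hzn⟩ := hN
    have h3 : omF F μ (Algebra.norm F z) = -1 := omF_nonnorm hμ (hne z hz) hzn
    have h4 : ¬ ∃ y : L, Algebra.norm K y = z := by
      rintro ⟨y, rfl⟩
      have hy : y ≠ 0 := by
        rintro rfl
        exact hz Algebra.norm_zero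
      rw [hnorm y hy] at h3
      norm_num at h3
    obtain ⟨y, hy⟩ := Pool.Agent.LocNorm.norm_mul_of_not_norm h2K hL.rank x z hx hz hxn h4
    have hy0 : y ≠ 0 := by
      rintro rfl
      rw [Algebra.norm_zero] at hy
      exact mul_ne_zero hx hz hy.symm
    have h5 := hnorm y hy0
    rw [hy, hmul x z hx hz, h1, h3] at h5
    norm_num at h5
  · have h1 : Continuous (fun z : K => Algebra.norm F z) := continuous_norm_K
    refine (omF_cont hμ).comp h1.continuousOn ?_
    intro z hz
    exact hne z hz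

end om

end SpW
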