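import Pool.Agent.Work.MP_3615d2_al.Dets
import Pool.Agent.Work.MP_3615d2_al.Carr
import Pool.Agent.Work.MP_3615d2_al.Integ1
import Pool.Agent.Work.MP_3615d2_al.BlkInv

/-!
MP_3615d2_al, A9: the elements of `U(X)` with a given Cayley transform on a division block, the
determinant factor; the constant of the normalisation is not zero.
-/

set_option linter.unusedSectionVars false

open scoped Quaternion NNReal
open QuaternionAlgebra Polynomial MeasureTheory Measure

namespace SpW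

section neg

variable {F E : Type} [Field F] [Field E] [Algebra F E] {σ : E ≃ₐ[F] E} {N : ℕ}
  {H : Matrix (Fin N) (Fin N) E}

/-- `-g`. -/
def negU (g : unitary σ H) : unitary σ H :=
  ⟨-(g : GL (Fin N) E), by
    intro x y
    rw [Units.val_neg, Matrix.neg_mulVec, Matrix.neg_mulVec, sk_neg_left, sk_neg_right, neg_neg]
    exact g.2 x y⟩

theorem umat_negU (g : unitary σ H) : umat (negU g) = - umat g := Units.val_neg _

theorem negU_mul_negU_one : (negU (1 : unitary σ H)) * negU 1 = 1 := by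
  apply Subtype.ext
  show (-(1 : GL (Fin N) E)) * (-(1 : GL (Fin N) E)) = 1
  rw [neg_mul_neg, one_mul]

end neg

section cayley

variable {F E : Type} [NontriviallyNormedField F] [IsUltrametricDist F] [ProperSpace F]
  [NontriviallyNormedField E] [NormedAlgebra F E] [IsUltrametricDist E] [ProperSpace E]
  [MeasurableSpace E] [BorelSpace E]
  {σ : E ≃ₐ[F] E} {δ : E} {d : F} {N : ℕ} {H : Matrix (Fin N) (Fin N) E}
  {μ : Eˣ →* ℂˣ}

theorem omF_inv_pow (hμ : ConjSymplectic F μ) {x : F} (hx : x ≠ 0) {n : ℕ} (hn : Odd n) (u : Eˣ)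
    (hu : (u : E) = algebraMap F E x) :
    ((μ (u ^ n)⁻¹ : ℂˣ) : ℂ) = omF F μ x := by
  rw [omF_eq μ u hu]
  have h1 : μ u = 1 ∨ μ u = -1 := by
    have h2 : u = Units.map (algebraMap F E).toMonoidHom (Units.mk0 x hx) := by
      ext
      rw [hu]
      rfl
    by_cases h : ∃ y : E, Algebra.norm F y = x
    · left
      rw [h2]
      exact hμ.norm (Units.mk0 x hx) h
    · right
      rw [h2]
      exact hμ.nonnorm (Units.mk0 x hx) h
  rw [map_inv, map_pow]
  rcases h1 with h1 | h1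
  · rw [h1]
    simp
  · rw [h1, hn.neg_one_pow]
    simp

/-- The module factor. -/
theorem absE_inv_pow (hq : QuadDatum σ δ d) {x : F} {n : ℕ} (u : Eˣ)
    (hu : (u : E) = algebraMap F E x) :
    absE (u ^ n)⁻¹ ^ (-(1 / 2) : ℝ) = ((md x : ℝ≥0) : ℝ) ^ n := by
  have h1 : absE u = ((md x : ℝ≥0) : ℝ) ^ 2 := by
    unfold absE
    rw [← md_units, hu, md_alg hq, NNReal.coe_pow]
  have h2 : absE (u ^ n)⁻¹ = (absE u ^ n)⁻¹ := by
    unfold absE
    rw [map_inv, map_pow, NNReal.coe_inv, NNReal.coe_pow]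
  have h3 : (0 : ℝ) ≤ ((md x : ℝ≥0) : ℝ) := NNReal.coe_nonneg _
  rw [h2, h1, Real.inv_rpow (by positivity), ← Real.rpow_neg (by positivity), neg_neg, ← pow_mul,
    ← Real.rpow_natCast, ← Real.rpow_mul h3, ← Real.rpow_natCast]
  congr 1
  push_cast
  ring

/-- **The Cayley elements of a division block.** -/
theorem exists_cayley (hq : QuadDatum σ δ d) (hH : IsSkew σ H) (hμ : ConjSymplectic F μ)
    (B : Alt N E) {p : F[X]} {n : ℕ} {x : Fin N → E} (hx : IsBlock σ H B.1 p n x) {l : ℕ}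
    (hn : n = 2 * l + 1) (hK : ¬ ∃ z : AdjoinRoot p, z * z = algebraMap F (AdjoinRoot p) d)
    (ht : ∀ z₀ z₁ : AdjoinRoot p,
        AdjoinRoot.root p ≠ z₀ ^ 2 - algebraMap F (AdjoinRoot p) d * z₁ ^ 2) :
    ∃ (h : unitary σ H) (K₂ : ℂ), K₂ ≠ 0 ∧ ∀ c : DD d p n, c.re = 0 →
      ∃ (u : DD d p n) (g : unitary σ H) (dd : Eˣ), u * star u = 1 ∧
        IsBlkElt σ H B.1 δ p n x u g ∧ (dd : E) = (umat (g * h) - 1).det ∧
        (∀ a : DD d p n, (cayley (umat (g * h))).mulVec (blk σ H B.1 δ p n x a) =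
          blk σ H B.1 δ p n x (a * c)) ∧
        (∀ y, (∀ a : DD d p n, sk σ H (blk σ H B.1 δ p n x a) y = 0) →
          (cayley (umat (g * h))).mulVec y = 0) ∧
        ((μ dd : ℂˣ) : ℂ) * (((absE dd) ^ (-(1 / 2) : ℝ) : ℝ) : ℂ) =
          K₂ * omF F μ (Algebra.norm F (Blk.red p hx.pos (1 - (c * c).re))) *
            (((md (Algebra.norm F (Blk.red p hx.pos (1 - (c * c).re))) : ℝ≥0) : ℝ) : ℂ) ^ n := by
  have hfin := hq.finite
  have hp0 := hx.irr.ne_zero
  have : Fact (Irreducible p) := ⟨hx.irr⟩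
  have hfinK : FiniteDimensional F (AdjoinRoot p) := (AdjoinRoot.powerBasis hp0).finite
  have hchain : ∃ s : RR p n →ₗ[F] F, Blk.Chain F (RR p n) s (AdjoinRoot.mk (p ^ n) p) n := by
    obtain ⟨s, hs1, _, _, _⟩ := blk_form hq hH B.2.1 hx (δ := δ) (d := d)
    exact ⟨s, Blk.chain_RR hx.irr hx.pos hs1⟩
  obtain ⟨s, hchain⟩ := hchain
  have h2E : (2 : E) ≠ 0 := hq.two_E
  -- the element `h`
  obtain ⟨g₁, hg₁⟩ := blkElt_exists hq hH B hx (-1 : DD d p n) (by simp)
  let h : unitary σ H := negU g₁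
  have hhb : ∀ a : DD d p n, (umat h).mulVec (blk σ H B.1 δ p n x a) = blk σ H B.1 δ p n x a := by
    intro a
    show (umat (negU g₁)).mulVec _ = _
    rw [umat_negU, Matrix.neg_mulVec, hg₁.1, mul_neg, mul_one, blk_neg hx.kill, neg_neg]
  have hhp : ∀ y : Fin N → E, (∀ a : DD d p n, sk σ H (blk σ H B.1 δ p n x a) y = 0) →
      (umat h).mulVec y = -y := by
    intro y hy
    show (umat (negU g₁)).mulVec _ = _
    rw [umat_negU, Matrix.neg_mulVec, hg₁.2 y hy]
  -- the constant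
  set e := N - 2 * (n * p.natDegree) with he
  have h4 : Algebra.norm F (4 : AdjoinRoot p) ≠ 0 := by
    refine Algebra.norm_ne_zero_iff.2 ?_
    have h40 : (4 : AdjoinRoot p) = algebraMap F (AdjoinRoot p) 4 := (map_ofNat _ 4).symm
    have h22 : (4 : F) = 2 * 2 := by norm_num
    rw [h40, _root_.map_ne_zero, h22]
    exact mul_ne_zero hq.two hq.two
  have hd₀ : (-2 : E) ^ e * algebraMap F E (Algebra.norm F (4 : AdjoinRoot p) ^ n) ≠ 0 := by
    refine mul_ne_zero (pow_ne_zero _ (neg_ne_zero.2 h2E)) ?_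
    rw [_root_.map_ne_zero]
    exact pow_ne_zero _ h4
  let d₀ : Eˣ := Units.mk0 _ hd₀
  refine ⟨h, ((μ d₀ : ℂˣ) : ℂ) * (((absE d₀) ^ (-(1 / 2) : ℝ) : ℝ) : ℂ), ?_, ?_⟩
  · refine mul_ne_zero (Units.ne_zero _) ?_
    rw [Complex.ofReal_ne_zero]
    have hpos : 0 < absE d₀ := by
      unfold absE
      exact NNReal.coe_pos.2 (distribHaarChar_pos (A := E) (g := d₀))
    exact (Real.rpow_pos_of_pos hpos _).ne'
  intro c hc
  -- the unit `ν = 1 - c ^ 2`
  have hcc : (c * c).re = - Blk.nm c := by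
    have := congrArg QuaternionAlgebra.re (Blk.mul_star_smul c)
    rw [Blk.star_of_pure hc, mul_neg, QuaternionAlgebra.re_neg, QuaternionAlgebra.re_smul,
      QuaternionAlgebra.re_one, smul_eq_mul, mul_one] at this
    rw [← this, neg_neg]
  have hnm : Blk.nm (1 + c) = 1 - (c * c).re := by
    rw [Blk.nm_one_add_pure hc, hcc, sub_neg_eq_add]
  have hνu : IsUnit (Blk.nm (1 + c)) := by
    by_contra hcon
    obtain ⟨y, hy⟩ := Blk.hdiv_of hx.irr hx.pos hK ht _ hcon
    have := congrArg QuaternionAlgebra.re hy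
    rw [QuaternionAlgebra.re_add, QuaternionAlgebra.re_one, hc, add_zero,
      QuaternionAlgebra.re_smul, smul_eq_mul] at this
    exact hchain.not_unit_mul y.re (by rw [← this]; exact isUnit_one)
  obtain ⟨ν, hν⟩ := hνu
  set νi : RR p n := ((ν⁻¹ : (RR p n)ˣ) : RR p n) with hνi
  have hνν : (ν : RR p n) * νi = 1 := by simp [hνi]
  let u : DD d p n := - Blk.cay ν (1 + c)
  have hu : u * star u = 1 := by
    show - Blk.cay ν (1 + c) * star (- Blk.cay ν (1 + c)) = 1
    rw [star_neg, neg_mul_neg, Blk.cay_mul_star hν]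
  have hstar : star (1 + c) = 1 - c := by
    rw [star_add, star_one, Blk.star_of_pure hc]
    abel
  have hone : (1 : DD d p n) = νi • ((1 + c) * (1 - c)) := by
    rw [← hstar, Blk.mul_star_smul, smul_smul, ← hν, mul_comm, hνν, one_smul]
  have huv : u = - (νi • ((1 + c) * (1 + c))) := rfl
  have hu1 : u - 1 = -((2 : RR p n) • (νi • (1 + c))) := by
    have h1 : u - 1 = - (νi • ((1 + c) * (1 + c))) - νi • ((1 + c) * (1 - c)) := by
      rw [← hone, huv]
    rw [h1, two_smul, ← smul_add, ← neg_add', ← smul_add, ← mul_add]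
    congr 2
    rw [show (1 : DD d p n) + c + (1 - c) = 1 + 1 by abel, mul_add, mul_one]
  have hu2 : u + 1 = (u - 1) * c := by
    have h1 : u + 1 = - (νi • ((1 + c) * (1 + c))) + νi • ((1 + c) * (1 - c)) := by
      rw [← hone, huv]
    rw [hu1, h1, neg_mul, smul_mul_assoc, smul_mul_assoc, two_smul, ← smul_neg, ← smul_add,
      ← smul_add, ← smul_neg]
    congr 1
    noncomm_ring
  obtain ⟨g, hg⟩ := blkElt_exists hq hH B hx u hu
  have hgb : ∀ a : DD d p n, (umat (g * h)).mulVec (blk σ H B.1 δ p n x a) =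
      blk σ H B.1 δ p n x (a * u) := by
    intro a
    rw [umat_mul, ← Matrix.mulVec_mulVec, hhb, hg.1]
  have hgp : ∀ y : Fin N → E, (∀ a : DD d p n, sk σ H (blk σ H B.1 δ p n x a) y = 0) →
      (umat (g * h)).mulVec y = -y := by
    intro y hy
    rw [umat_mul, ← Matrix.mulVec_mulVec, hhp y hy]
    apply hg.2
    intro a
    rw [sk_neg_right, hy a, neg_zero]
  obtain ⟨_, hdet⟩ := Dets.det_blkElt hq hH B.2.1 B.2.2 hx u (g * h) hgb hgp
  -- the norm of `u - 1`
  have hnmu : Blk.nm (u - 1) = 4 * νi := by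
    have h1 : u - 1 = (-(2 * νi)) • (1 + c) := by
      rw [hu1, smul_smul, neg_smul]
    rw [h1, Blk.nm_smul, ← hν]
    linear_combination (4 * νi) * hνν
  have hred4 : Blk.red p hx.pos (Blk.nm (u - 1)) = 4 * Blk.red p hx.pos νi := by
    rw [hnmu, map_mul, map_ofNat]
  set X : F := Algebra.norm F (Blk.red p hx.pos (1 - (c * c).re)) with hX
  have hXν : Algebra.norm F (Blk.red p hx.pos (ν : RR p n)) = X := by
    rw [hX, hν, hnm]
  have hXi : X * Algebra.norm F (Blk.red p hx.pos νi) = 1 := by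
    rw [← hXν, ← map_mul, ← map_mul, hνν, map_one, map_one]
  have hX0 : X ≠ 0 := left_ne_zero_of_mul_eq_one hXi
  have hXi' : Algebra.norm F (Blk.red p hx.pos νi) = X⁻¹ := by
    exact eq_inv_of_mul_eq_one_right hXi
  have hXE : algebraMap F E X ≠ 0 := by
    rw [_root_.map_ne_zero]
    exact hX0
  let v : Eˣ := Units.mk0 _ hXE
  have hdd : ((d₀ * (v ^ n)⁻¹ : Eˣ) : E) = (umat (g * h) - 1).det := by
    rw [hdet, hred4, map_mul, hXi', mul_pow, map_mul]
    rw [Units.val_mul, Units.val_inv_eq_inv_val, Units.val_pow_eq_pow_val]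
    show (-2 : E) ^ e * algebraMap F E (Algebra.norm F (4 : AdjoinRoot p) ^ n) *
      ((algebraMap F E X) ^ n)⁻¹ = _
    rw [inv_pow, map_inv₀, map_pow (algebraMap F E) X, mul_assoc]
  have hNu : IsUnit (Blk.nm (u - 1)) := by
    rw [hnmu]
    refine IsUnit.mul ?_ (Units.isUnit _)
    have : (4 : RR p n) = algebraMap F (RR p n) 4 := (map_ofNat _ 4).symm
    rw [this]
    refine (IsUnit.mk0 (4 : F) ?_).map _
    have h22 : (4 : F) = 2 * 2 := by norm_num
    rw [h22]
    exact mul_ne_zero hq.two hq.two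
  have hdetu : IsUnit (umat (g * h) - 1).det := by
    rw [← hdd]
    exact Units.isUnit _
  -- the Cayley transform
  have hcay : ∀ y z : Fin N → E, (umat (g * h) - 1).mulVec y = z →
      (cayley (umat (g * h))).mulVec z = (umat (g * h) + 1).mulVec y := by
    intro y z hyz
    rw [cayley, ← hyz, Matrix.mulVec_mulVec, Matrix.mul_assoc, Matrix.nonsing_inv_mul _ hdetu,
      Matrix.mul_one]
  refine ⟨u, g, d₀ * (v ^ n)⁻¹, hu, hg, hdd, ?_, ?_, ?_⟩
  · intro a
    -- `a = a' (u - 1)`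
    obtain ⟨τ, hτ⟩ := hNu
    let a' : DD d p n := a * (((τ⁻¹ : (RR p n)ˣ) : RR p n) • star (u - 1))
    have ha' : a' * (u - 1) = a := by
      show a * (((τ⁻¹ : (RR p n)ˣ) : RR p n) • star (u - 1)) * (u - 1) = a
      rw [mul_assoc, smul_mul_assoc, Blk.star_mul_smul, smul_smul, ← hτ]
      simp
    have h1 : (umat (g * h) - 1).mulVec (blk σ H B.1 δ p n x a') = blk σ H B.1 δ p n x a := by
      rw [Matrix.sub_mulVec, hgb, Matrix.one_mulVec, ← blk_sub hx.kill, ← ha', mul_sub, mul_one]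
    rw [hcay _ _ h1, Matrix.add_mulVec, hgb, Matrix.one_mulVec, ← blk_add hx.kill]
    congr 1
    conv_rhs => rw [← ha', mul_assoc, ← hu2, mul_add, mul_one]
  · intro y hy
    have h1 : (umat (g * h) - 1).mulVec ((-(2 : E)⁻¹) • y) = y := by
      rw [Matrix.mulVec_smul, Matrix.sub_mulVec, hgp y hy, Matrix.one_mulVec, ← neg_add', neg_smul,
        smul_neg, neg_neg, ← two_smul E y, smul_smul, inv_mul_cancel₀ h2E, one_smul]
    rw [hcay _ _ h1, Matrix.mulVec_smul, Matrix.add_mulVec, hgp y hy, Matrix.one_mulVec,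
      neg_add_cancel, smul_zero]
  · have hnodd : Odd n := ⟨l, hn⟩
    rw [map_mul, Units.val_mul, omF_inv_pow hμ hX0 hnodd v rfl]
    have h1 : absE (d₀ * (v ^ n)⁻¹) = absE d₀ * absE (v ^ n)⁻¹ := by
      unfold absE
      rw [map_mul, NNReal.coe_mul]
    have hpos : ∀ y : Eˣ, 0 ≤ absE y := fun y => NNReal.coe_nonneg _
    rw [h1, Real.mul_rpow (hpos _) (hpos _), absE_inv_pow hq v rfl]
    push_cast
    ring

end cayley

section kappa

variable {F E : Type} [NontriviallyNormedField F] [NontriviallyNormedField E] [NormedAlgebra F E]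
  [ProperSpace E] [MeasurableSpace E] [BorelSpace E]
  {σ : E ≃ₐ[F] E} {δ : E} {d : F} {N : ℕ} {H : Matrix (Fin N) (Fin N) E}
  {ψ : AddChar F Circle} {μ : Eˣ →* ℂˣ} {S : Type} [AddCommGroup S] [Module ℂ S]
  {ρ : (Fin N → E) → Module.End ℂ S} {ω : unitary σ H →* Module.End ℂ S}

/-- The constant of the normalisation is not zero. -/
theorem kappa_ne (hq : QuadDatum σ δ d) (hW : IsWeil σ H ψ μ ρ ω) (κ : ℂ)
    (hκ : ∀ (g : unitary σ H) (d : Eˣ), (d : E) = (umat g - 1).det →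
      ∀ (v : S) (ξ : S →ₗ[ℂ] ℂ), ∀ᶠ r : ℝ in Filter.atTop,
        ξ (ω g v) = κ * ((μ d : ℂˣ) : ℂ) * (((absE d) ^ (-(1 / 2) : ℝ) : ℝ) : ℂ) *
          ∫ w in Metric.closedBall (0 : Fin N → E) r,
            ((ψ ((4 : F)⁻¹ * sympl F σ H ((cayley (umat g)).mulVec w) w) : Circle) : ℂ)
              * ξ (ρ w v) ∂(Measure.addHaar)) : κ ≠ 0 := by
  rintro rfl
  have h2E : (2 : E) ≠ 0 := hq.two_E
  let g : unitary σ H := negU 1
  have hdet : (umat g - 1).det ≠ 0 := by
    have h1 : umat g - 1 = (-(2 : E)) • (1 : Matrix (Fin N) (Fin N) E) := by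
      show umat (negU 1) - 1 = _
      rw [umat_negU, umat_one, neg_smul, two_smul]
      abel
    rw [h1, Matrix.det_smul, Matrix.det_one, mul_one]
    exact pow_ne_zero _ (neg_ne_zero.2 h2E)
  have h0 : ∀ v, ω g v = 0 := by
    intro v
    rw [← Module.forall_dual_apply_eq_zero_iff ℂ (ω g v)]
    intro ξ
    obtain ⟨r, hr⟩ := (hκ g (Units.mk0 _ hdet) rfl v ξ).exists
    rw [hr]
    simp
  obtain ⟨v, hv⟩ := @exists_ne S hW.nontrivial 0
  apply hv
  have h1 : ω g (ω g v) = v := by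
    rw [← Module.End.mul_apply, ← map_mul, negU_mul_negU_one, map_one, Module.End.one_apply]
  rw [← h1, h0]

end kappa

end SpW
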