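import Pool.Agent.Work.MP_3615d2_al.LemI

/-!
MP_3615d2_al, A9: the stable integral `∫ ρ(z) v dz` as a vector.
-/

open MeasureTheory Metric Set
open scoped NNReal ENNReal

namespace SpW.LemI

/-- The integral of a locally constant vector valued function over a compact set as a vector. -/
theorem exists_int_vec {Wp : Type} [TopologicalSpace Wp] [T2Space Wp]
    [MeasurableSpace Wp] [BorelSpace Wp]
    (ν : Measure Wp) [IsFiniteMeasureOnCompacts ν] {S : Type} [AddCommGroup S] [Module ℂ S]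
    {g : Wp → S} (hg : IsLocallyConstant g) {K : Set Wp} (hK : IsCompact K) :
    ∃ v1 : S, ∀ ξ : S →ₗ[ℂ] ℂ, ∫ z in K, ξ (g z) ∂ν = ξ v1 := by
  classical
  have hfin : (g '' K).Finite := by
    have : CompactSpace K := isCompact_iff_compactSpace.1 hK
    have h1 : IsLocallyConstant (fun z : K => g z) := hg.comp_continuous continuous_subtype_val
    have h2 := h1.range_finite
    rwa [← image_eq_range] at h2
  have hfm : IsFiniteMeasure (ν.restrict K) :=
    ⟨by rw [Measure.restrict_apply_univ]; exact hK.measure_lt_top⟩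
  have hmeas : ∀ s : S, MeasurableSet (g ⁻¹' {s}) := fun s => (hg.isOpen_fiber s).measurableSet
  refine ⟨∑ s ∈ hfin.toFinset, (((ν.restrict K).real (g ⁻¹' {s}) : ℝ) : ℂ) • s, fun ξ => ?_⟩
  have h1 : ∀ z ∈ K, ξ (g z) = ∑ s ∈ hfin.toFinset, (g ⁻¹' {s}).indicator (fun _ => ξ s) z := by
    intro z hz
    rw [Finset.sum_eq_single (g z)]
    · rw [indicator_of_mem (by simp)]
    · intro s _ hs
      rw [indicator_of_notMem]
      simpa using hs.symm
    · intro h
      exact absurd (hfin.mem_toFinset.2 ⟨z, hz, rfl⟩) h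
  rw [setIntegral_congr_fun hK.measurableSet h1, integral_finsetSum, map_sum]
  · refine Finset.sum_congr rfl fun s _ => ?_
    rw [integral_indicator_const _ (hmeas s), map_smul, Complex.real_smul, smul_eq_mul]
  · intro s _
    exact (integrable_const _).indicator (hmeas s)

theorem exists_v1 {F : Type} [NontriviallyNormedField F] [ProperSpace F] [IsUltrametricDist F]
    {Wp : Type} [NormedAddCommGroup Wp] [NormedSpace F Wp] [FiniteDimensional F Wp]
    [IsUltrametricDist Wp] [MeasurableSpace Wp] [BorelSpace Wp] (ν : Measure Wp)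
    [ν.IsAddHaarMeasure] {S : Type} [AddCommGroup S] [Module ℂ S] {ψ : AddChar F Circle}
    (hψ : Continuous ψ) (hψ1 : ψ ≠ 1) (h2 : (2 : F) ≠ 0) (B : Wp →ₗ[F] Wp →ₗ[F] F)
    (hnd : ∀ w, (∀ x, B w x = 0) → w = 0) (ρ : Wp → Module.End ℂ S)
    (hρ : ∀ w w', ρ w * ρ w' = ((ψ ((2 : F)⁻¹ * B w w') : Circle) : ℂ) • ρ (w + w')) (v : S)
    (hv : ∀ᶠ w in nhds (0 : Wp), ρ w v = v) :
    ∃ (v1 : S) (R₁ : ℝ), ∀ (ξ : S →ₗ[ℂ] ℂ) (R : ℝ), R₁ ≤ R →
      ∫ z in Metric.closedBall (0 : Wp) R, ξ (ρ z v) ∂ν = ξ v1 := by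
  have : ProperSpace Wp := FiniteDimensional.proper F Wp
  obtain ⟨ε, hε, hε1⟩ : ∃ ε > 0, ∀ x : Wp, ‖x‖ ≤ ε → ρ x v = v := by
    obtain ⟨ε, hε, h⟩ := Metric.eventually_nhds_iff.1 hv
    refine ⟨ε / 2, by positivity, fun x hx => h ?_⟩
    rw [dist_zero_right]
    linarith
  let θ : Wp →ₗ[F] Wp →ₗ[F] F := (-(2 : F)⁻¹) • B
  have hθ : ∀ z x, θ z x = -((2 : F)⁻¹ * B z x) := by
    intro z x
    simp [θ]
  -- the transformation rule
  have hvec : ∀ z x, ‖x‖ ≤ ε → ρ (z + x) v = ((ψ (θ z x) : Circle) : ℂ) • ρ z v := by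
    intro z x hx
    have h1 := LinearMap.congr_fun (hρ z x) v
    rw [Module.End.mul_apply, hε1 x hx, LinearMap.smul_apply] at h1
    rw [h1, smul_smul, ← Circle.coe_mul, ← AddChar.map_add_eq_mul, hθ, neg_add_cancel,
      AddChar.map_zero_eq_one, Circle.coe_one, one_smul]
  have hfχ : ∀ (ξ : S →ₗ[ℂ] ℂ) (z x : Wp), ‖x‖ ≤ ε →
      ξ (ρ (z + x) v) = ((ψ (θ z x) : Circle) : ℂ) * ξ (ρ z v) := by
    intro ξ z x hx
    rw [hvec z x hx, map_smul, smul_eq_mul]
  -- local constancy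
  have hlc : IsLocallyConstant (fun z => ρ z v) := by
    rw [IsLocallyConstant.iff_eventually_eq]
    intro z
    have h1 : ContinuousAt (fun x : Wp => θ z (x - z)) z :=
      ((θ z).continuous_of_finiteDimensional.comp (continuous_sub_right z)).continuousAt
    have h3 := addChar_small hψ h1 (by simp)
    have h4 : ∀ᶠ x in nhds z, ‖x - z‖ ≤ ε := by
      have : ContinuousAt (fun x : Wp => ‖x - z‖) z :=
        ((continuous_sub_right z).norm).continuousAt
      exact (this.eventually_lt continuousAt_const (by simpa using hε)).mono fun _ h => h.le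
    filter_upwards [h3, h4] with x hx1 hx2
    have h5 := hvec z (x - z) hx2
    rw [add_sub_cancel, hx1, Circle.coe_one, one_smul] at h5
    exact h5
  obtain ⟨R₀, hR₀⟩ := detect hψ hψ1 θ (fun w hw => hnd w fun x => by
    have h1 := hw x
    rw [hθ, neg_eq_zero, mul_eq_zero] at h1
    exact h1.resolve_left (inv_ne_zero h2)) hε
  obtain ⟨v1, hv1⟩ := exists_int_vec ν hlc (isCompact_closedBall (0 : Wp) (max R₀ ε))
  refine ⟨v1, max R₀ ε, fun ξ R hR => ?_⟩
  rw [← hv1 ξ]
  refine stab_eq ν hψ hε (cont_of_char hψ hε θ (hfχ ξ)) θ (hfχ ξ) (le_max_right _ _)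
    (fun w hw => hR₀ w ((le_max_left _ _).trans_lt hw)) isClosed_closedBall.measurableSet
    isBounded_closedBall (fun w x hx => ?_) (closedBall_subset_closedBall hR)
  rw [mem_closedBall_zero_iff, mem_closedBall_zero_iff]
  exact ball_add_iff ((le_max_right _ _).trans hR) hx

end SpW.LemI
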