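import Pool.Agent.Work.MP_3615d2_al.Blk

/-!
MP_3615d2_al, A10 (note 6449, (5.3)): the function `φ` on `D_K` has compact support.
-/

open Filter Topology
open scoped Quaternion

namespace SpW

section char

variable {F : Type} [NontriviallyNormedField F] [IsUltrametricDist F]

theorem norm_two_pow_nsmul_le (n : ℕ) (x : F) : ‖(2 ^ n : ℕ) • x‖ ≤ ‖x‖ := by
  induction n with
  | zero => simp
  | succ n ih =>
    have h : (2 ^ (n + 1) : ℕ) • x = (2 ^ n : ℕ) • x + (2 ^ n : ℕ) • x := by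
      rw [pow_succ, mul_two, add_smul]
    rw [h]
    exact (IsUltrametricDist.norm_add_le_max _ _).trans (max_le ih ih)

/-- A continuous additive character of a nonarchimedean field is trivial near `0`. -/
theorem addChar_eventually_one (ψ : AddChar F Circle) (hψ : Continuous ψ) :
    ∀ᶠ x in 𝓝 (0 : F), ψ x = 1 := by
  have h1 : ∀ᶠ x in 𝓝 (0 : F), ‖((ψ x : Circle) : ℂ) - 1‖ < 1 / 2 := by
    have hc : Continuous (fun x => ‖((ψ x : Circle) : ℂ) - 1‖) := by fun_prop
    have h0 := hc.tendsto 0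
    simp only [AddChar.map_zero_eq_one, Circle.coe_one, sub_self, norm_zero] at h0
    exact h0.eventually_lt_const (by norm_num)
  obtain ⟨ε, hε, h2⟩ := Metric.eventually_nhds_iff.1 h1
  refine Metric.eventually_nhds_iff.2 ⟨ε, hε, fun x hx => ?_⟩
  have h3 : ∀ n : ℕ, ‖((ψ ((2 ^ n : ℕ) • x) : Circle) : ℂ) - 1‖ < 1 / 2 := by
    intro n
    apply h2
    rw [dist_zero_right] at hx ⊢
    exact (norm_two_pow_nsmul_le n x).trans_lt hx
  have h4 : ∀ n : ℕ, (3 / 2 : ℝ) ^ n * ‖((ψ x : Circle) : ℂ) - 1‖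
      ≤ ‖((ψ ((2 ^ n : ℕ) • x) : Circle) : ℂ) - 1‖ := by
    intro n
    induction n with
    | zero => simp
    | succ n ih =>
      have e1 : (2 ^ (n + 1) : ℕ) • x = (2 ^ n : ℕ) • x + (2 ^ n : ℕ) • x := by
        rw [pow_succ, mul_two, add_smul]
      rw [e1, AddChar.map_add_eq_mul, Circle.coe_mul]
      set z : ℂ := ((ψ ((2 ^ n : ℕ) • x) : Circle) : ℂ) with hz
      have e2 : z * z - 1 = (2 + (z - 1)) * (z - 1) := by ring
      have e3 : (3 / 2 : ℝ) ≤ ‖2 + (z - 1)‖ := by
        have := norm_sub_le_norm_add (2 : ℂ) (z - 1)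
        have h5 := h3 n
        rw [← hz] at h5
        have h6 : ‖(2 : ℂ)‖ = 2 := by simp
        linarith
      rw [e2, norm_mul, pow_succ]
      calc (3 / 2 : ℝ) ^ n * (3 / 2) * ‖((ψ x : Circle) : ℂ) - 1‖
          = (3 / 2) * ((3 / 2 : ℝ) ^ n * ‖((ψ x : Circle) : ℂ) - 1‖) := by ring
        _ ≤ (3 / 2) * ‖z - 1‖ := by gcongr
        _ ≤ _ := by gcongr
  by_contra hne
  have hpos : 0 < ‖((ψ x : Circle) : ℂ) - 1‖ := by
    rw [norm_pos_iff, sub_ne_zero]
    intro h
    apply hne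
    exact Circle.coe_injective (by simpa using h)
  obtain ⟨n, hn⟩ := pow_unbounded_of_one_lt (1 / ‖((ψ x : Circle) : ℂ) - 1‖)
    (by norm_num : (1 : ℝ) < 3 / 2)
  have := h4 n
  have h5 := h3 n
  rw [div_lt_iff₀ hpos] at hn
  linarith

end char

section inv

variable {F : Type} [NontriviallyNormedField F] {R : Type} [CommRing R] [Algebra F R]
  [Module.Finite F R] [TopologicalSpace R] [IsModuleTopology F R]

/-- `1 - a² q` is invertible for small `a`, and the inverse tends to `1`. -/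
theorem exists_inv (q : R) : ∃ G : F → R, Tendsto G (𝓝 0) (𝓝 1) ∧
    ∀ᶠ a in 𝓝 (0 : F), G a * (1 - (a * a) • q) = 1 := by
  classical
  let b := Module.finBasis F R
  let M : F → Matrix _ _ F := fun a => 1 - (a * a) • LinearMap.toMatrix b b (LinearMap.mulLeft F q)
  have hM : ∀ a, M a = LinearMap.toMatrix b b (LinearMap.mulLeft F (1 - (a * a) • q)) := by
    intro a
    have : LinearMap.mulLeft F (1 - (a * a) • q) =
        LinearMap.id - (a * a) • LinearMap.mulLeft F q := by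
      ext x
      simp [sub_mul]
    rw [this, map_sub, LinearMap.toMatrix_id, map_smul]
  have hMc : Continuous M := by
    unfold M
    fun_prop
  have hM0 : M 0 = 1 := by simp [M]
  let G : F → R := fun a => b.equivFun.symm ((M a)⁻¹.mulVec (b.equivFun 1))
  refine ⟨G, ?_, ?_⟩
  · have h1 : ContinuousAt (fun a => (M a)⁻¹) 0 := by
      have h2 : ContinuousAt (Inv.inv : Matrix _ _ F → Matrix _ _ F) (M 0) := by
        apply continuousAt_matrix_inv
        rw [hM0, Matrix.det_one]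
        have : (Ring.inverse : F → F) = Inv.inv := by
          funext x
          exact Ring.inverse_eq_inv x
        rw [this]
        exact continuousAt_inv₀ one_ne_zero
      exact ContinuousAt.comp (f := M) (g := Inv.inv) h2 hMc.continuousAt
    have h3 : ContinuousAt (fun a => (M a)⁻¹.mulVec (b.equivFun 1)) 0 := by
      have : Continuous (fun N : Matrix (Fin (Module.finrank F R)) (Fin (Module.finrank F R)) F =>
        N.mulVec (b.equivFun 1)) := by fun_prop
      exact this.continuousAt.comp h1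
    have : ContinuousAdd R := IsModuleTopology.toContinuousAdd F R
    have h4 : Continuous (b.equivFun.symm : (Fin (Module.finrank F R) → F) → R) :=
      IsModuleTopology.continuous_of_linearMap b.equivFun.symm.toLinearMap
    have h5 : ContinuousAt G 0 := h4.continuousAt.comp h3
    have h6 : G 0 = 1 := by
      simp [G, hM0]
    rw [← h6]
    exact h5
  · have h1 : ∀ᶠ a in 𝓝 (0 : F), (M a).det ≠ 0 := by
      have : Continuous (fun a => (M a).det) := hMc.matrix_det
      have h2 := this.tendsto 0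
      rw [hM0, Matrix.det_one] at h2
      exact h2.eventually_ne one_ne_zero
    filter_upwards [h1] with a ha
    have h2 : b.equivFun (LinearMap.mulLeft F (1 - (a * a) • q) (G a)) = b.equivFun 1 := by
      have h3 := LinearMap.toMatrix_mulVec_repr b b (LinearMap.mulLeft F (1 - (a * a) • q)) (G a)
      have h4 : (b.repr (G a) : _ → F) = (M a)⁻¹.mulVec (b.equivFun 1) := by
        have : b.equivFun (G a) = (M a)⁻¹.mulVec (b.equivFun 1) :=
          LinearEquiv.apply_symm_apply b.equivFun _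
        exact this
      rw [← hM a, h4, Matrix.mulVec_mulVec, Matrix.mul_nonsing_inv _ (Ne.isUnit ha),
        Matrix.one_mulVec] at h3
      exact h3.symm
    have h3 := b.equivFun.injective h2
    rw [LinearMap.mulLeft_apply] at h3
    rw [mul_comm]
    exact h3

end inv

section bound

variable {F : Type} [NontriviallyNormedField F]
  {R : Type} [CommRing R] [Algebra F R] {c₁ c₂ : R}

/-- the element `i` -/
abbrev qi {R : Type} [CommRing R] (c₁ c₂ : R) : ℍ[R,c₁,0,c₂] := ⟨0, 1, 0, 0⟩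

theorem re_mul_comm (x y : ℍ[R,c₁,0,c₂]) : (x * y).re = (y * x).re := by
  simp only [QuaternionAlgebra.re_mul]
  ring

theorem re_star_i (w : ℍ[R,c₁,0,c₂]) : (star w * qi c₁ c₂ * w).re = 0 := by
  simp only [QuaternionAlgebra.re_mul, QuaternionAlgebra.imI_mul, QuaternionAlgebra.imJ_mul,
    QuaternionAlgebra.imK_mul, QuaternionAlgebra.re_star, QuaternionAlgebra.imI_star,
    QuaternionAlgebra.imJ_star, QuaternionAlgebra.imK_star]
  ring

/-- `c² = - c c̄` is central for `c` of trace zero. -/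
theorem sq_of_re (c : ℍ[R,c₁,0,c₂]) (hc : c.re = 0) : c * c = ((c * c).re : R) := by
  ext
  · simp
  · simp [hc]; ring
  · simp [hc]; ring
  · simp [hc]; ring

theorem phase_alg (P : R) (w u : ℍ[R,c₁,0,c₂]) :
    (qi c₁ c₂ * (P • w) * star (P • (w * u))).re =
      P * P * (star u * (star w * qi c₁ c₂ * w)).re := by
  have h1 : (qi c₁ c₂ * (P • w) * star (P • (w * u))) =
      (P * P) • (qi c₁ c₂ * w * (star u * star w)) := by
    rw [QuaternionAlgebra.star_smul, star_mul]
    simp only [mul_smul_comm, smul_mul_assoc, smul_smul]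
  have h2 : (qi c₁ c₂ * w * (star u * star w)).re = (star u * (star w * qi c₁ c₂ * w)).re := by
    rw [← mul_assoc, re_mul_comm, ← mul_assoc, ← mul_assoc, re_mul_comm]
  rw [h1, QuaternionAlgebra.re_smul, smul_eq_mul, h2]

theorem quad_smul (a : F) (c w : ℍ[R,c₁,0,c₂]) :
    (c * (star (a • w) * qi c₁ c₂ * (a • w))).re =
      (a * a) • (c * (star w * qi c₁ c₂ * w)).re := by
  have h1 : c * (star (a • w) * qi c₁ c₂ * (a • w)) =
      (a * a) • (c * (star w * qi c₁ c₂ * w)) := by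
    rw [QuaternionAlgebra.star_smul]
    simp only [mul_smul_comm, smul_mul_assoc, smul_smul]
  rw [h1, QuaternionAlgebra.re_smul]

theorem cayley_one (c : ℍ[R,c₁,0,c₂]) (hc : c.re = 0) (a : F) (g : R)
    (hg : g * (1 - (a * a) • (c * c).re) = 1) :
    ((g : ℍ[R,c₁,0,c₂]) * ((1 + a • c) * (1 + a • c))) * (1 - a • c) = 1 + a • c := by
  have h1 : (1 + a • c) * (1 - a • c) = (((1 - (a * a) • (c * c).re : R)) : ℍ[R,c₁,0,c₂]) := by
    have e1 : (1 + a • c) * (1 - a • c) = 1 - (a * a) • (c * c) := by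
      simp only [mul_sub, add_mul, mul_one, one_mul, smul_mul_smul_comm]
      abel
    have e2 : (((1 - (a * a) • (c * c).re : R)) : ℍ[R,c₁,0,c₂]) =
        1 - (a * a) • (((c * c).re : R) : ℍ[R,c₁,0,c₂]) := by
      ext <;> simp
    rw [e1, e2, ← sq_of_re c hc]
  rw [mul_assoc, mul_assoc (1 + a • c), h1, ← QuaternionAlgebra.coe_commutes, ← mul_assoc,
    ← QuaternionAlgebra.coe_mul, hg, QuaternionAlgebra.coe_one, one_mul]

theorem cayley_sub (c : ℍ[R,c₁,0,c₂]) (hc : c.re = 0) (a : F) (g : R)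
    (hg : g * (1 - (a * a) • (c * c).re) = 1) :
    ((g : ℍ[R,c₁,0,c₂]) * ((1 + a • c) * (1 + a • c))) - 1 =
      (g : ℍ[R,c₁,0,c₂]) * ((2 * a) • c + (2 * (a * a)) • (((c * c).re : R) : ℍ[R,c₁,0,c₂])) := by
  have h1 : (1 : ℍ[R,c₁,0,c₂]) = (g : ℍ[R,c₁,0,c₂]) *
      (((1 - (a * a) • (c * c).re : R)) : ℍ[R,c₁,0,c₂]) := by
    rw [← QuaternionAlgebra.coe_mul, hg, QuaternionAlgebra.coe_one]
  have h2 : (1 + a • c) * (1 + a • c) = 1 + (2 * a) • c + (a * a) • (c * c) := by
    simp only [mul_add, add_mul, mul_one, one_mul, smul_mul_smul_comm]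
    rw [mul_smul (2 : F) a c, two_smul]
    abel
  have h3 : (((1 - (a * a) • (c * c).re : R)) : ℍ[R,c₁,0,c₂]) =
      1 - (a * a) • (((c * c).re : R) : ℍ[R,c₁,0,c₂]) := by
    ext <;> simp
  have h4 : (g : ℍ[R,c₁,0,c₂]) * ((1 + a • c) * (1 + a • c)) - 1 =
      (g : ℍ[R,c₁,0,c₂]) * (((1 + a • c) * (1 + a • c)) - (1 - (a * a) • (c * c))) := by
    rw [mul_sub, sq_of_re c hc, ← h3, ← h1]
  rw [h4, h2, ← sq_of_re c hc]
  congr 1
  rw [mul_smul (2 : F) (a * a), two_smul]
  abel

theorem cayley_star (c : ℍ[R,c₁,0,c₂]) (hc : c.re = 0) (a : F) (g : R)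
    (hg : g * (1 - (a * a) • (c * c).re) = 1) (z : ℍ[R,c₁,0,c₂]) (hz : z.re = 0) :
    (star (((g : ℍ[R,c₁,0,c₂]) * ((1 + a • c) * (1 + a • c))) - 1) * z).re =
      - ((2 * a) • (g * (c * z).re)) := by
  rw [cayley_sub c hc a g hg]
  have h1 : star ((g : ℍ[R,c₁,0,c₂]) * ((2 * a) • c +
      (2 * (a * a)) • (((c * c).re : R) : ℍ[R,c₁,0,c₂]))) = (g : ℍ[R,c₁,0,c₂]) * (- ((2 * a) • c) +
      (2 * (a * a)) • (((c * c).re : R) : ℍ[R,c₁,0,c₂])) := by
    generalize (c * c).re = q
    ext <;> simp [hc, mul_comm]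
  rw [h1, mul_assoc, QuaternionAlgebra.coe_mul_eq_smul, QuaternionAlgebra.re_smul, add_mul,
    QuaternionAlgebra.re_add, neg_mul, QuaternionAlgebra.re_neg, smul_mul_assoc,
    QuaternionAlgebra.re_smul, smul_mul_assoc, QuaternionAlgebra.re_smul,
    QuaternionAlgebra.coe_mul_eq_smul, QuaternionAlgebra.re_smul, hz]
  simp

variable [IsUltrametricDist F] [ProperSpace F] [Module.Finite F R] {X : Type}
  [NormedAddCommGroup X] [NormedSpace F X] {S : Type} [AddCommGroup S] [Module ℂ S] {V : Type} [NormedAddCommGroup V] [NormedSpace F V] [FiniteDimensional F V]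

/-- A10, abstract form: the support of `φ` is bounded. -/
theorem exists_bound (h2 : (2 : F) ≠ 0) (s : R →ₗ[F] F) (P : R) (ψ : AddChar F Circle)
    (hψ : Continuous ψ) (hψ1 : ψ ≠ 1) (Bf : X → X → F) (ρ : X → Module.End ℂ S)
    (hρ : ∀ w w', ρ w * ρ w' = ((ψ ((2 : F)⁻¹ * Bf w w') : Circle) : ℂ) • ρ (w + w'))
    (ι : ℍ[R,c₁,0,c₂] →ₗ[F] X)
    (hι : ∀ a b, Bf (ι a) (ι b) = s (2 * (qi c₁ c₂ * a * star b).re))
    (m : S →ₗ[ℂ] ℂ) (v : S) (hv : ∀ᶠ w in 𝓝 (0 : X), ρ w v = v)
    (hinv : ∀ c : ℍ[R,c₁,0,c₂], c.re = 0 → ∀ᶠ a in 𝓝 (0 : F), ∀ u : ℍ[R,c₁,0,c₂],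
      u * (1 - a • c) = 1 + a • c → ∀ w, m (ρ (ι (w * u)) v) = m (ρ (ι w) v))
    (j : V →ₗ[F] ℍ[R,c₁,0,c₂])
    (hj : ∀ x, x ≠ 0 → ∃ c : ℍ[R,c₁,0,c₂], c.re = 0 ∧
      s (P * P * (c * (star (j x) * qi c₁ c₂ * j x)).re) ≠ 0) :
    ∃ r : ℝ, ∀ x : V, m (ρ (ι (P • j x)) v) ≠ 0 → ‖x‖ ≤ r := by
  by_contra hcon
  push Not at hcon
  choose x hx hxn using fun k : ℕ => hcon (k : ℝ)
  obtain ⟨α, hα⟩ := NormedField.exists_one_lt_norm F
  have hx0 : ∀ k, x k ≠ 0 := by
    intro k h0
    have h1 := hxn k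
    rw [h0, norm_zero] at h1
    exact absurd h1 (not_lt.2 (Nat.cast_nonneg k))
  choose d hd hd1 hd2 hd3 using fun k => rescale_to_shell (F := V) hα one_pos (hx0 k)
  have : ProperSpace V := FiniteDimensional.proper F V
  -- a convergent subsequence
  obtain ⟨y, hy, κ, hκ, hlim⟩ := (isCompact_closedBall (0 : V) 1).tendsto_subseq
    (x := fun k => d k • x k) (fun k => by simpa using (hd1 k).le)
  have hy0 : y ≠ 0 := by
    have h1 : 1 / ‖α‖ ≤ ‖y‖ := ge_of_tendsto hlim.norm (Eventually.of_forall fun k => hd2 (κ k))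
    intro h0
    rw [h0, norm_zero] at h1
    have : 0 < 1 / ‖α‖ := by positivity
    linarith
  obtain ⟨c, hc, hT⟩ := hj y hy0
  have hd0 : Tendsto (fun k => d (κ k)) atTop (𝓝 0) := by
    have h1 : Tendsto (fun k : ℕ => d k) atTop (𝓝 0) := by
      rw [tendsto_zero_iff_norm_tendsto_zero]
      have h3 : ∀ᶠ k : ℕ in atTop, ‖d k‖ ≤ 1 / (k : ℝ) := by
        filter_upwards [eventually_gt_atTop 0] with k hk
        have hk' : (0 : ℝ) < k := by exact_mod_cast hk
        have e1 := (hd1 k)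
        rw [norm_smul] at e1
        rw [le_div_iff₀ hk']
        nlinarith [hxn k, norm_nonneg (d k)]
      exact squeeze_zero' (Eventually.of_forall fun k => norm_nonneg _) h3
        tendsto_one_div_atTop_nhds_zero_nat
    exact h1.comp hκ.tendsto_atTop
  -- the character
  obtain ⟨c₀, hc₀⟩ : ∃ c₀, ψ c₀ ≠ 1 := by
    by_contra h
    push Not at h
    apply hψ1
    ext z
    simp [h z]
  let _ : TopologicalSpace R := moduleTopology F R
  let _ : TopologicalSpace ℍ[R,c₁,0,c₂] := moduleTopology F ℍ[R,c₁,0,c₂]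
  have i1 : Module.Finite F ℍ[R,c₁,0,c₂] := Module.Finite.trans R _
  have i2 : IsTopologicalRing R := IsModuleTopology.isTopologicalRing F R
  have i3 : IsTopologicalRing ℍ[R,c₁,0,c₂] := IsModuleTopology.isTopologicalRing F _
  obtain ⟨G, hG, hG1⟩ := exists_inv (F := F) ((c * c).re : R)
  have cre : Continuous (fun z : ℍ[R,c₁,0,c₂] => z.re) :=
    IsModuleTopology.continuous_of_linearMap ((QuaternionAlgebra.reₗ (R := R) c₁ 0 c₂).restrictScalars F)
  have ccoe : Continuous (fun r : R => (r : ℍ[R,c₁,0,c₂])) :=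
    IsModuleTopology.continuous_of_linearMap ((Algebra.linearMap R ℍ[R,c₁,0,c₂]).restrictScalars F)
  have cstar : Continuous (fun z : ℍ[R,c₁,0,c₂] => star z) := by
    have : (fun z : ℍ[R,c₁,0,c₂] => star z) =
        fun z => (((2 * z.re + 0 * z.imI : R)) : ℍ[R,c₁,0,c₂]) - z := by
      funext z
      exact QuaternionAlgebra.star_eq_two_re_sub z
    rw [this]
    simp only [zero_mul, add_zero]
    exact (ccoe.comp (continuous_const.mul cre)).sub continuous_id
  have cj : Continuous j := j.continuous_of_finiteDimensional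
  have cι : Continuous ι := IsModuleTopology.continuous_of_linearMap ι
  have cs : Continuous s := IsModuleTopology.continuous_of_linearMap s
  set T₀ : F := s (P * P * (c * (star (j y) * qi c₁ c₂ * j y)).re) with hT₀
  let b : ℕ → F := fun k => (-c₀) * d (κ k) / (2 * T₀)
  let a : ℕ → F := fun k => b k * d (κ k)
  have hb : Tendsto b atTop (𝓝 0) := by
    have := (hd0.const_mul (-c₀)).div_const (2 * T₀)
    rwa [mul_zero, zero_div] at this
  have ha : Tendsto a atTop (𝓝 0) := by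
    have := hb.mul hd0
    simpa using this
  have hg : Tendsto (fun k => G (a k)) atTop (𝓝 1) := hG.comp ha
  have hB := ha.eventually hG1
  have hC := ha.eventually (hinv c hc)
  -- the small vector
  let w' : ℕ → ℍ[R,c₁,0,c₂] := fun k => P • (j (x (κ k)) *
    ((((G (a k)) : ℍ[R,c₁,0,c₂]) * ((1 + a k • c) * (1 + a k • c))) - 1))
  have hw' : ∀ᶠ k in atTop, w' k = (P : ℍ[R,c₁,0,c₂]) * (j (d (κ k) • x (κ k)) *
      ((G (a k) : ℍ[R,c₁,0,c₂]) * ((2 * b k) • c +
        (2 * (b k * b k * d (κ k))) • (((c * c).re : R) : ℍ[R,c₁,0,c₂])))) := by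
    filter_upwards [hB] with k hk
    have hdk := hd (κ k)
    have e2 : ∀ z : ℍ[R,c₁,0,c₂], (P : ℍ[R,c₁,0,c₂]) * z = P • z :=
      fun z => QuaternionAlgebra.coe_mul_eq_smul _ _
    simp only [w']
    rw [cayley_sub c hc _ _ hk, e2, map_smul]
    congr 1
    simp only [a]
    have e1 : (2 * (b k * d (κ k))) • c + (2 * (b k * d (κ k) * (b k * d (κ k)))) •
        (((c * c).re : R) : ℍ[R,c₁,0,c₂]) = d (κ k) • ((2 * b k) • c +
        (2 * (b k * b k * d (κ k))) • (((c * c).re : R) : ℍ[R,c₁,0,c₂])) := by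
      rw [smul_add, smul_smul, smul_smul]
      congr 2 <;> ring
    rw [e1, mul_smul_comm, mul_smul_comm, smul_mul_assoc]
  have hw0 : Tendsto (fun k => ι (w' k)) atTop (𝓝 0) := by
    have h1 : Tendsto (fun k => (P : ℍ[R,c₁,0,c₂]) * (j (d (κ k) • x (κ k)) *
      ((G (a k) : ℍ[R,c₁,0,c₂]) * ((2 * b k) • c +
        (2 * (b k * b k * d (κ k))) • (((c * c).re : R) : ℍ[R,c₁,0,c₂]))))) atTop
        (𝓝 ((P : ℍ[R,c₁,0,c₂]) * (j y *
      (((1 : R) : ℍ[R,c₁,0,c₂]) * ((2 * (0 : F)) • c +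
        (2 * ((0 : F) * 0 * 0)) • (((c * c).re : R) : ℍ[R,c₁,0,c₂])))))) := by
      refine tendsto_const_nhds.mul ((cj.tendsto y |>.comp hlim).mul
        ((ccoe.tendsto 1 |>.comp hg).mul (Tendsto.add ?_ ?_)))
      · exact (hb.const_mul 2).smul_const c
      · exact (((hb.mul hb).mul hd0).const_mul 2).smul_const _
    have h3 := cι.tendsto _ |>.comp h1
    simp only [mul_zero, zero_smul, add_zero, map_zero] at h3
    refine h3.congr' ?_
    filter_upwards [hw'] with k hk
    simp only [Function.comp_apply]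
    rw [hk]
  have hD := hw0.eventually hv
  -- the phase
  have hph : ∀ᶠ k in atTop, (2 : F)⁻¹ * Bf (ι (P • j (x (κ k)))) (ι (w' k)) =
      c₀ / T₀ * s (P * P * (G (a k) * (c * (star (j (d (κ k) • x (κ k))) * qi c₁ c₂ *
        j (d (κ k) • x (κ k)))).re)) := by
    filter_upwards [hB] with k hk
    have hdk := hd (κ k)
    have e1 : (qi c₁ c₂ * (P • j (x (κ k))) * star (w' k)).re = P * P *
        - ((2 * a k) • (G (a k) * (c * (star (j (x (κ k))) * qi c₁ c₂ * j (x (κ k)))).re)) := by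
      rw [← cayley_star c hc (a k) _ hk _ (re_star_i _)]
      exact phase_alg P _ _
    have e2 : (c * (star (j (d (κ k) • x (κ k))) * qi c₁ c₂ * j (d (κ k) • x (κ k)))).re =
        (d (κ k) * d (κ k)) • (c * (star (j (x (κ k))) * qi c₁ c₂ * j (x (κ k)))).re := by
      rw [LinearMap.map_smul, quad_smul]
    rw [hι, e1, e2]
    generalize (c * (star (j (x (κ k))) * qi c₁ c₂ * j (x (κ k)))).re = r
    have e3 : (2 : R) * (P * P * - ((2 * a k) • (G (a k) * r))) =
        (- (2 * (2 * a k))) • (P * P * (G (a k) * r)) := by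
      have : (2 : R) = algebraMap F R 2 := (map_ofNat (algebraMap F R) 2).symm
      rw [this, Algebra.smul_def, Algebra.smul_def]
      simp only [map_neg, map_mul]
      ring
    have e4 : P * P * (G (a k) * (d (κ k) * d (κ k)) • r) =
        (d (κ k) * d (κ k)) • (P * P * (G (a k) * r)) := by
      rw [mul_smul_comm, mul_smul_comm]
    rw [e3, e4, LinearMap.map_smul, LinearMap.map_smul, smul_eq_mul, smul_eq_mul]
    simp only [a, b]
    field_simp
  have hE : Tendsto (fun k => c₀ / T₀ * s (P * P * (G (a k) * (c * (star (j (d (κ k) • x (κ k))) *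
      qi c₁ c₂ * j (d (κ k) • x (κ k)))).re))) atTop (𝓝 c₀) := by
    have h1 : Tendsto (fun k => j (d (κ k) • x (κ k))) atTop (𝓝 (j y)) :=
      cj.tendsto y |>.comp hlim
    have h3 : Tendsto (fun k => c₀ / T₀ * s (P * P * (G (a k) * (c * (star (j (d (κ k) • x (κ k))) *
      qi c₁ c₂ * j (d (κ k) • x (κ k)))).re))) atTop (𝓝 (c₀ / T₀ * s (P * P * (1 *
        (c * (star (j y) * qi c₁ c₂ * j y)).re)))) := by
      refine (cs.tendsto _ |>.comp (tendsto_const_nhds.mul (hg.mul
        (cre.tendsto _ |>.comp (tendsto_const_nhds.mul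
          (((cstar.tendsto _ |>.comp h1).mul tendsto_const_nhds).mul h1)))))).const_mul _
    rw [one_mul, ← hT₀, div_mul_cancel₀ _ hT] at h3
    exact h3
  have hF : ∀ᶠ k in atTop, ψ (c₀ / T₀ * s (P * P * (G (a k) * (c * (star (j (d (κ k) • x (κ k))) *
      qi c₁ c₂ * j (d (κ k) • x (κ k)))).re))) ≠ 1 :=
    (hψ.tendsto c₀ |>.comp hE).eventually_ne hc₀
  obtain ⟨k, kC, kD, kB, kP, kF⟩ := (hC.and (hD.and (hB.and (hph.and hF)))).exists
  rw [← kP] at kF
  have e1 := kC _ (cayley_one c hc _ _ kB) (P • j (x (κ k)))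
  have e2 : P • j (x (κ k)) * ((G (a k) : ℍ[R,c₁,0,c₂]) * ((1 + a k • c) * (1 + a k • c))) =
      P • j (x (κ k)) + w' k := by
    simp only [w']
    rw [mul_sub, mul_one, smul_sub, smul_mul_assoc]
    abel
  rw [e2, map_add] at e1
  have e3 := LinearMap.congr_fun (hρ (ι (P • j (x (κ k)))) (ι (w' k))) v
  rw [Module.End.mul_apply, kD, LinearMap.smul_apply] at e3
  have e4 := congrArg m e3
  rw [LinearMap.map_smul, e1, smul_eq_mul] at e4
  have e5 : ((ψ ((2 : F)⁻¹ * Bf (ι (P • j (x (κ k)))) (ι (w' k))) : Circle) : ℂ) = 1 := by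
    exact mul_right_cancel₀ (hx (κ k)) (by rw [one_mul]; exact e4.symm)
  exact kF (Circle.coe_injective (by simpa using e5))

omit [ProperSpace F] in
/-- A10, abstract form: `φ` is locally constant. -/
theorem isLocallyConstant_phi [CompleteSpace F] (s : R →ₗ[F] F) (P : R) (ψ : AddChar F Circle)
    (hψ : Continuous ψ) (Bf : X → X → F) (ρ : X → Module.End ℂ S)
    (hρ : ∀ w w', ρ w * ρ w' = ((ψ ((2 : F)⁻¹ * Bf w w') : Circle) : ℂ) • ρ (w + w'))
    (ι : ℍ[R,c₁,0,c₂] →ₗ[F] X)
    (hι : ∀ a b, Bf (ι a) (ι b) = s (2 * (qi c₁ c₂ * a * star b).re))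
    (m : S →ₗ[ℂ] ℂ) (v : S) (hv : ∀ᶠ w in 𝓝 (0 : X), ρ w v = v)
    (j : V →ₗ[F] ℍ[R,c₁,0,c₂]) :
    IsLocallyConstant (fun x : V => m (ρ (ι (P • j x)) v)) := by
  rw [IsLocallyConstant.iff_eventually_eq]
  intro x
  -- the increment
  let f : V →ₗ[F] X :=
    { toFun := fun y => ι (P • j y)
      map_add' := fun y z => by simp
      map_smul' := fun a y => by
        rw [LinearMap.map_smul, smul_comm, LinearMap.map_smul, RingHom.id_apply] }
  let g : V →ₗ[F] F :=
    { toFun := fun y => (2 : F)⁻¹ * s (2 * (qi c₁ c₂ * (P • j x) * star (P • j y)).re)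
      map_add' := fun y z => by
        simp only [map_add, smul_add, star_add, mul_add, QuaternionAlgebra.re_add]
      map_smul' := fun a y => by
        rw [LinearMap.map_smul, smul_comm P a, QuaternionAlgebra.star_smul, mul_smul_comm,
          QuaternionAlgebra.re_smul, mul_smul_comm, LinearMap.map_smul, RingHom.id_apply,
          mul_smul_comm] }
  have cf : Continuous f := f.continuous_of_finiteDimensional
  have cg : Continuous g := g.continuous_of_finiteDimensional
  have h1 : ∀ᶠ y in 𝓝 (0 : V), ρ (f y) v = v := by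
    have := cf.tendsto 0
    rw [map_zero] at this
    exact this.eventually hv
  have h2 : ∀ᶠ y in 𝓝 (0 : V), ψ (g y) = 1 := by
    have := cg.tendsto 0
    rw [map_zero] at this
    exact this.eventually (addChar_eventually_one ψ hψ)
  have h3 : ∀ᶠ y in 𝓝 (0 : V), m (ρ (ι (P • j (x + y))) v) = m (ρ (ι (P • j x)) v) := by
    filter_upwards [h1, h2] with y hy1 hy2
    have e3 := LinearMap.congr_fun (hρ (ι (P • j x)) (ι (P • j y))) v
    have e5 : ((2 : F)⁻¹ * Bf (ι (P • j x)) (ι (P • j y))) = g y := by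
      rw [hι]
      rfl
    have e6 : ρ (ι (P • j y)) v = v := hy1
    rw [Module.End.mul_apply, e6, LinearMap.smul_apply, e5, hy2, Circle.coe_one, one_smul] at e3
    rw [map_add, smul_add, map_add, ← e3]
  have h4 : Tendsto (fun x' : V => x' - x) (𝓝 x) (𝓝 0) := by
    have : Continuous (fun x' : V => x' - x) := by fun_prop
    have h5 := this.tendsto x
    rwa [sub_self] at h5
  filter_upwards [h4.eventually h3] with x' hx'
  rwa [add_sub_cancel] at hx'

end bound

end SpW
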