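import Pool.Agent.Work.MP_3615d2_al.BlkAlg
import Pool.Agent.Work.MP_3615d2_al.Cpt
import Pool.Agent.Work.MP_3615d2_al.Bridge

/-!
MP_3615d2_al, A10: invariance of `m'` under small elements of `SL_1(D_R)` (note 6449, (5.3)).
-/

open Filter Topology Polynomial
open scoped Quaternion

namespace SpW

section gen

variable {F : Type} [NontriviallyNormedField F] {R : Type} [CommRing R] [Algebra F R] {c₁ c₂ : R}

theorem star_of_re_zero (c : ℍ[R,c₁,0,c₂]) (hc : c.re = 0) : star c = - c := by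
  ext <;> simp [hc]

theorem star_fsmul' (a : F) (c : ℍ[R,c₁,0,c₂]) : star (a • c) = a • star c := by
  ext <;> simp

theorem coe_central (g : R) (z : ℍ[R,c₁,0,c₂]) :
    z * (g : ℍ[R,c₁,0,c₂]) = (g : ℍ[R,c₁,0,c₂]) * z :=
  (QuaternionAlgebra.coe_commutes g z).symm

/-- The Cayley element. -/
def cU (c : ℍ[R,c₁,0,c₂]) (a : F) (g : R) : ℍ[R,c₁,0,c₂] :=
  (g : ℍ[R,c₁,0,c₂]) * ((1 + a • c) * (1 + a • c))

/-- Its conjugate. -/
def cU' (c : ℍ[R,c₁,0,c₂]) (a : F) (g : R) : ℍ[R,c₁,0,c₂] :=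
  (g : ℍ[R,c₁,0,c₂]) * ((1 - a • c) * (1 - a • c))

theorem star_cU (c : ℍ[R,c₁,0,c₂]) (hc : c.re = 0) (a : F) (g : R) :
    star (cU c a g) = cU' c a g := by
  have e1 : star (1 + a • c) = 1 - a • c := by
    rw [star_add, star_one, star_fsmul', star_of_re_zero c hc, smul_neg, sub_eq_add_neg]
  have e2 : star (g : ℍ[R,c₁,0,c₂]) = (g : ℍ[R,c₁,0,c₂]) := QuaternionAlgebra.star_coe g
  unfold cU cU'
  rw [star_mul, star_mul, e1, e2, coe_central]

theorem one_sub_mul (c : ℍ[R,c₁,0,c₂]) (hc : c.re = 0) (a : F) :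
    (1 - a • c) * (1 + a • c) = (((1 - (a * a) • (c * c).re : R)) : ℍ[R,c₁,0,c₂]) := by
  have e1 : (1 - a • c) * (1 + a • c) = 1 - (a * a) • (c * c) := by
    simp only [mul_add, sub_mul, mul_one, one_mul, smul_mul_smul_comm]
    abel
  have e2 : (((1 - (a * a) • (c * c).re : R)) : ℍ[R,c₁,0,c₂]) =
      1 - (a * a) • (((c * c).re : R) : ℍ[R,c₁,0,c₂]) := by
    ext <;> simp
  rw [e1, e2, ← sq_of_re c hc]

theorem cU_eq (c : ℍ[R,c₁,0,c₂]) (hc : c.re = 0) (a : F) (g : R)
    (hg : g * (1 - (a * a) • (c * c).re) = 1) (u : ℍ[R,c₁,0,c₂])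
    (hu : u * (1 - a • c) = 1 + a • c) : u = cU c a g := by
  have hinv : (1 - a • c) * ((g : ℍ[R,c₁,0,c₂]) * (1 + a • c)) = 1 := by
    rw [← mul_assoc, coe_central, mul_assoc, one_sub_mul c hc, ← QuaternionAlgebra.coe_mul,
      hg, QuaternionAlgebra.coe_one]
  have h1 : u = (1 + a • c) * ((g : ℍ[R,c₁,0,c₂]) * (1 + a • c)) := by
    calc u = u * ((1 - a • c) * ((g : ℍ[R,c₁,0,c₂]) * (1 + a • c))) := by rw [hinv, mul_one]
      _ = (u * (1 - a • c)) * ((g : ℍ[R,c₁,0,c₂]) * (1 + a • c)) := (mul_assoc _ _ _).symm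
      _ = _ := by rw [hu]
  rw [h1]
  unfold cU
  rw [← mul_assoc, coe_central, mul_assoc]

theorem cU_mul_star (c : ℍ[R,c₁,0,c₂]) (hc : c.re = 0) (a : F) (g : R)
    (hg : g * (1 - (a * a) • (c * c).re) = 1) : cU c a g * star (cU c a g) = 1 := by
  have h1 : cU c a g * (1 - a • c) = 1 + a • c := cayley_one c hc a g hg
  have h2 : (1 + a • c) * ((g : ℍ[R,c₁,0,c₂]) * (1 - a • c)) = 1 := by
    have h3 := one_sub_mul c hc (-a)
    rw [neg_smul, sub_neg_eq_add, ← sub_eq_add_neg, neg_mul_neg] at h3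
    rw [← mul_assoc, coe_central, mul_assoc, h3, ← QuaternionAlgebra.coe_mul,
      hg, QuaternionAlgebra.coe_one]
  rw [star_cU c hc]
  have h4 : cU' c a g = (1 - a • c) * ((g : ℍ[R,c₁,0,c₂]) * (1 - a • c)) := by
    unfold cU'
    rw [← mul_assoc (1 - a • c), coe_central, mul_assoc]
  rw [h4, ← mul_assoc, h1, h2]

variable [TopologicalSpace R] [IsModuleTopology F R] [TopologicalSpace ℍ[R,c₁,0,c₂]]
  [IsModuleTopology F ℍ[R,c₁,0,c₂]] [IsTopologicalRing ℍ[R,c₁,0,c₂]]

theorem tendsto_cU (c : ℍ[R,c₁,0,c₂]) (G : F → R) (hG : Tendsto G (𝓝 0) (𝓝 1)) :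
    Tendsto (fun a => cU c a (G a)) (𝓝 0) (𝓝 1) ∧
      Tendsto (fun a => cU' c a (G a)) (𝓝 0) (𝓝 1) := by
  have ccoe : Continuous (fun r : R => (r : ℍ[R,c₁,0,c₂])) :=
    IsModuleTopology.continuous_of_linearMap ((Algebra.linearMap R ℍ[R,c₁,0,c₂]).restrictScalars F)
  have hlim : Tendsto (fun a : F => a • c) (𝓝 0) (𝓝 0) := by
    have hcs : Continuous fun a : F => a • c :=
      IsModuleTopology.continuous_of_linearMap (LinearMap.toSpanSingleton F ℍ[R,c₁,0,c₂] c)
    have := hcs.tendsto 0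
    rwa [zero_smul] at this
  have hGc : Tendsto (fun a => (G a : ℍ[R,c₁,0,c₂])) (𝓝 0) (𝓝 1) := by
    have h1 := (ccoe.tendsto 1).comp hG
    rw [QuaternionAlgebra.coe_one] at h1
    exact h1
  constructor
  · have h1 := hGc.mul (((tendsto_const_nhds (x := (1 : ℍ[R,c₁,0,c₂]))).add hlim).mul
      ((tendsto_const_nhds (x := (1 : ℍ[R,c₁,0,c₂]))).add hlim))
    rw [add_zero, mul_one, mul_one] at h1
    exact h1
  · have h1 := hGc.mul (((tendsto_const_nhds (x := (1 : ℍ[R,c₁,0,c₂]))).sub hlim).mul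
      ((tendsto_const_nhds (x := (1 : ℍ[R,c₁,0,c₂]))).sub hlim))
    rw [sub_zero, mul_one, mul_one] at h1
    exact h1

end gen

section h1

variable {F E : Type} [NontriviallyNormedField F] [IsUltrametricDist F] [ProperSpace F]
  [NontriviallyNormedField E] [NormedAlgebra F E] [IsUltrametricDist E] [ProperSpace E]
  {σ : E ≃ₐ[F] E} {δ : E} {d : F} {N : ℕ} {H : Matrix (Fin N) (Fin N) E}
  {p : F[X]} {n : ℕ} {x : Fin N → E}

omit [IsUltrametricDist F] [ProperSpace F] [IsUltrametricDist E] [ProperSpace E] in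
theorem blkElt_umat (hq : QuadDatum σ δ d) (hH : IsSkew σ H) (B : Alt N E)
    (hx : IsBlock σ H B.1 p n x) (u : DD d p n) (g : unitary σ H)
    (h : IsBlkElt σ H B.1 δ p n x u g) : umat g = bM hq hH B.2.1 B.2.2 hx u := by
  apply Matrix.ext_of_mulVec_single
  intro i
  rw [bM_mulVec]
  obtain ⟨a, z, hy, hz⟩ := blk_decomp hq hH B.2.1 B.2.2 hx (Pi.single i (1 : E))
  rw [hy, Matrix.mulVec_add, bG_add]
  congr 1
  · refine (h.1 a).trans ?_
    unfold bG
    rw [bP_blk, ← blk_add hx.kill]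
    congr 1
    abel
  · refine (h.2 z hz).trans ?_
    unfold bG
    rw [bP_of_perp hq hH B.2.1 B.2.2 hx z hz, zero_mul, sub_zero, blk_zero hx.kill, add_zero]

omit [IsUltrametricDist F] [ProperSpace F] [IsUltrametricDist E] [ProperSpace E] in
theorem blkElt_inv (hq : QuadDatum σ δ d) (hH : IsSkew σ H) (B : Alt N E)
    (hx : IsBlock σ H B.1 p n x) (u : DD d p n) (hu : u * star u = 1) (g : unitary σ H)
    (h : IsBlkElt σ H B.1 δ p n x u g) : IsBlkElt σ H B.1 δ p n x (star u) g⁻¹ := by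
  constructor
  · intro a
    have h1 := h.1 (a * star u)
    rw [mul_assoc, star_mul_of_mul_star u hu, mul_one] at h1
    rw [← h1, umat_inv_mulVec]
  · intro y hy
    have h1 := h.2 y hy
    conv_lhs => rw [← h1]
    rw [umat_inv_mulVec]

omit [IsUltrametricDist F] [IsUltrametricDist E] in
/-- `bM u` depends continuously on `u`. -/
theorem bM_continuous [TopologicalSpace (DD d p n)] [IsModuleTopology F (DD d p n)]
    [IsTopologicalRing (DD d p n)] (hq : QuadDatum σ δ d) (hH : IsSkew σ H)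
    {B : Matrix (Fin N) (Fin N) E} (hB : B.transpose = -B)
    (hdet : IsUnit B.det) (hx : IsBlock σ H B p n x) :
    Continuous fun u : DD d p n => bM hq hH hB hdet hx u := by
  refine continuous_matrix fun i j => ?_
  have h1 : ∀ u : DD d p n, bM hq hH hB hdet hx u i j =
      (Pi.single j (1 : E) : Fin N → E) i +
        blkL δ d hx.kill (bP hq hH hB hdet hx (Pi.single j (1 : E)) * u -
          bP hq hH hB hdet hx (Pi.single j (1 : E))) i := by
    intro u
    have h2 : (bM hq hH hB hdet hx u).mulVec (Pi.single j 1) i = bM hq hH hB hdet hx u i j := by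
      simp
    rw [← h2, bM_mulVec]
    rfl
  simp_rw [h1]
  have hc : Continuous (blkL δ d hx.kill : DD d p n → (Fin N → E)) :=
    IsModuleTopology.continuous_of_linearMap _
  exact continuous_const.add ((continuous_apply i).comp
    (hc.comp ((continuous_const.mul continuous_id).sub continuous_const)))

omit [IsUltrametricDist F] [ProperSpace F] [IsUltrametricDist E] [ProperSpace E] in
theorem bM_one (hq : QuadDatum σ δ d) (hH : IsSkew σ H)
    {B : Matrix (Fin N) (Fin N) E} (hB : B.transpose = -B)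
    (hdet : IsUnit B.det) (hx : IsBlock σ H B p n x) :
    bM hq hH hB hdet hx (1 : DD d p n) = 1 := by
  apply Matrix.ext_of_mulVec_single
  intro i
  rw [bM_mulVec, Matrix.one_mulVec]
  unfold bG
  rw [mul_one, sub_self, blk_zero hx.kill, add_zero]

omit [IsUltrametricDist F] [IsUltrametricDist E] in
/-- Small `u` give small elements of the unitary group. -/
theorem blkElt_small [TopologicalSpace (DD d p n)] [IsModuleTopology F (DD d p n)]
    [IsTopologicalRing (DD d p n)] (hq : QuadDatum σ δ d) (hH : IsSkew σ H) (B : Alt N E)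
    (hx : IsBlock σ H B.1 p n x) {ι : Type} (l : Filter ι) (u : ι → DD d p n)
    (hu : Tendsto u l (𝓝 1)) (hu' : Tendsto (fun a => star (u a)) l (𝓝 1))
    (W : Set (unitary σ H)) (hW : W ∈ 𝓝 (1 : unitary σ H)) :
    ∀ᶠ a in l, u a * star (u a) = 1 → ∀ g : unitary σ H, IsBlkElt σ H B.1 δ p n x (u a) g →
      g ∈ W := by
  have hemb : Topology.IsInducing
      (fun g : unitary σ H => Units.embedProduct _ (g : GL (Fin N) E)) :=
    Units.isInducing_embedProduct.comp Topology.IsInducing.subtypeVal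
  rw [hemb.nhds_eq_comap, mem_comap] at hW
  obtain ⟨W', hW', hs⟩ := hW
  have hc := bM_continuous hq hH B.2.1 B.2.2 hx
  have h1 : Tendsto (fun a => (bM hq hH B.2.1 B.2.2 hx (u a),
      MulOpposite.op (bM hq hH B.2.1 B.2.2 hx (star (u a))))) l
      (𝓝 (Units.embedProduct _ ((1 : unitary σ H) : GL (Fin N) E))) := by
    have e1 : Units.embedProduct _ ((1 : unitary σ H) : GL (Fin N) E) =
        (bM hq hH B.2.1 B.2.2 hx (1 : DD d p n),
          MulOpposite.op (bM hq hH B.2.1 B.2.2 hx (1 : DD d p n))) := by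
      rw [bM_one]
      rfl
    rw [e1]
    exact ((hc.tendsto 1).comp hu).prodMk_nhds
      ((MulOpposite.continuous_op.tendsto _).comp ((hc.tendsto 1).comp hu'))
  filter_upwards [h1.eventually hW'] with a ha hua g hg
  apply hs
  show Units.embedProduct _ (g : GL (Fin N) E) ∈ W'
  have e1 := blkElt_umat hq hH B hx (u a) g hg
  have e2 := blkElt_umat hq hH B hx (star (u a)) g⁻¹ (blkElt_inv hq hH B hx (u a) hua g hg)
  have e3 : Units.embedProduct _ (g : GL (Fin N) E) = (umat g, MulOpposite.op (umat g⁻¹)) := rfl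
  rw [e3, e1, e2]
  exact ha

/-- (H1): invariance under small Cayley elements. -/
theorem blk_hinv (hq : QuadDatum σ δ d) (hH : IsSkew σ H) (B : Alt N E)
    (hx : IsBlock σ H B.1 p n x) {S : Type} [AddCommGroup S] [Module ℂ S]
    (ρ : (Fin N → E) → Module.End ℂ S) (ω : unitary σ H →* Module.End ℂ S)
    (hom : ∀ v, ∀ᶠ g in 𝓝 (1 : unitary σ H), ω g v = v)
    (hrho : ∀ (g : unitary σ H) w, ω g * ρ w = ρ ((umat g).mulVec w) * ω g)
    (m' : S →ₗ[ℂ] ℂ)
    (hm : ∀ (u : DD d p n) (g : unitary σ H), u * star u = 1 →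
      IsBlkElt σ H B.1 δ p n x u g → ∀ v, m' (ω g v) = m' v)
    (c : DD d p n) (hc : c.re = 0) (v : S) :
    ∀ᶠ a in 𝓝 (0 : F), ∀ u : DD d p n, u * (1 - a • c) = 1 + a • c →
      ∀ w : DD d p n, m' (ρ (blk σ H B.1 δ p n x (w * u)) v) =
        m' (ρ (blk σ H B.1 δ p n x w) v) := by
  have i0 : Module.Finite F (RR p n) :=
    (AdjoinRoot.powerBasis (pow_ne_zero n hx.irr.ne_zero)).finite
  let _ : TopologicalSpace (RR p n) := moduleTopology F (RR p n)
  have j0 : IsModuleTopology F (RR p n) := ⟨rfl⟩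
  let _ : TopologicalSpace (DD d p n) := moduleTopology F (DD d p n)
  have j1 : IsModuleTopology F (DD d p n) := ⟨rfl⟩
  have i1 : Module.Finite F (DD d p n) := finite_DD hx.irr.ne_zero
  have i2 : IsTopologicalRing (RR p n) := IsModuleTopology.isTopologicalRing F _
  have i3 : IsTopologicalRing (DD d p n) := IsModuleTopology.isTopologicalRing F _
  obtain ⟨G, hG, hG1⟩ := exists_inv (F := F) ((c * c).re : RR p n)
  obtain ⟨hU, hU'⟩ := tendsto_cU c G hG
  have hsmall := blkElt_small hq hH B hx (𝓝 (0 : F)) (fun a => cU c a (G a)) hU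
    (by simp_rw [star_cU c hc]; exact hU') _ (hom v)
  filter_upwards [hG1, hsmall] with a ha hsm u hu w
  have huU : u = cU c a (G a) := cU_eq c hc a (G a) ha u hu
  have hUU : cU c a (G a) * star (cU c a (G a)) = 1 := cU_mul_star c hc a (G a) ha
  obtain ⟨g, hg⟩ := blkElt_exists hq hH B hx (cU c a (G a)) hUU
  have hgv : ω g v = v := hsm hUU g hg
  rw [huU, ← hg.1 w]
  have h1 : ρ ((umat g).mulVec (blk σ H B.1 δ p n x w)) v =
      ω g (ρ (blk σ H B.1 δ p n x w) v) := by
    have h2 := congrArg (fun f : Module.End ℂ S => f v) (hrho g (blk σ H B.1 δ p n x w))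
    simp only [Module.End.mul_apply] at h2
    rw [h2, hgv]
  rw [h1]
  exact hm (cU c a (G a)) g hUU hg _

end h1

end SpW
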