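import Pool.Agent.Work.MP_3615d2_al.Split

/-!
# The ring `R = F[t] / (p ^ n)`; split or division
-/

set_option linter.unusedSectionVars false

open scoped Quaternion
open QuaternionAlgebra Polynomial

namespace SpW.Blk

section

variable {F : Type} [Field F] {p : F[X]} {n : ℕ}

theorem mk_pow_eq_zero (p : F[X]) (n : ℕ) :
    (AdjoinRoot.mk (p ^ n) p : RR p n) ^ n = 0 := by
  rw [← map_pow, AdjoinRoot.mk_self]

theorem isUnit_mk (hp : Irreducible p) {f : F[X]} (hf : ¬ p ∣ f) :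
    IsUnit (AdjoinRoot.mk (p ^ n) f : RR p n) := by
  obtain ⟨u, v, huv⟩ := ((hp.coprime_iff_not_dvd).2 hf).pow_left (m := n)
  have := congrArg (AdjoinRoot.mk (p ^ n)) huv
  rw [map_add, map_mul, AdjoinRoot.mk_self, mul_zero, zero_add, map_mul, map_one] at this
  exact IsUnit.of_mul_eq_one_right _ this

theorem isUnit_root (hp : Irreducible p) (hX : ¬ p ∣ X) :
    IsUnit (AdjoinRoot.root (p ^ n) : RR p n) := isUnit_mk hp hX

/-- `F[t] / (p ^ n)` is a block ring. -/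
theorem chain_RR (hp : Irreducible p) (hn : 0 < n) {s : RR p n →ₗ[F] F}
    (hs : ∀ r, (∀ r', s (r * r') = 0) → r = 0) :
    Chain F (RR p n) s (AdjoinRoot.mk (p ^ n) p) n where
  loc a ha := by
    obtain ⟨f, rfl⟩ := AdjoinRoot.mk_surjective a
    by_cases hf : p ∣ f
    · obtain ⟨g, rfl⟩ := hf
      exact ⟨AdjoinRoot.mk _ g, map_mul _ _ _⟩
    · exact absurd (isUnit_mk hp hf) ha
  nil := mk_pow_eq_zero p n
  nz := by
    rw [← map_pow]
    intro h
    rw [AdjoinRoot.mk_eq_zero, pow_dvd_pow_iff hp.ne_zero hp.not_isUnit] at h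
    omega
  pos := hn
  nondeg := hs

theorem finite_RR (hp : Irreducible p) : FiniteDimensional F (RR p n) :=
  (AdjoinRoot.powerBasis (pow_ne_zero n hp.ne_zero)).finite

/-- Reduction `R → K = F[t] / (p)`. -/
noncomputable def red (p : F[X]) {n : ℕ} (hn : 0 < n) : RR p n →ₐ[F] AdjoinRoot p :=
  AdjoinRoot.algHomOfDvd F (p ^ n) p (dvd_pow_self p hn.ne')

theorem red_mk (hn : 0 < n) (f : F[X]) :
    red p hn (AdjoinRoot.mk (p ^ n) f) = AdjoinRoot.mk p f := by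
  have h2 : ∀ g : F[X], red p hn (AdjoinRoot.mk (p ^ n) g) = AdjoinRoot.mk p g := by
    intro g
    have h3 : AdjoinRoot.mk (p ^ n) g = aeval (AdjoinRoot.root (p ^ n)) g :=
      (AdjoinRoot.aeval_eq g).symm
    rw [h3, ← Polynomial.aeval_algHom_apply]
    simp only [red, AdjoinRoot.algHomOfDvd_root]
    exact AdjoinRoot.aeval_eq g
  exact h2 f

theorem red_root (hn : 0 < n) : red p hn (AdjoinRoot.root (p ^ n)) = AdjoinRoot.root p := by
  simp [red]

theorem red_surjective (hn : 0 < n) : Function.Surjective (red p hn) := by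
  intro a
  obtain ⟨f, rfl⟩ := AdjoinRoot.mk_surjective a
  exact ⟨_, red_mk hn f⟩

theorem red_eq_zero (hn : 0 < n) {a : RR p n} :
    red p hn a = 0 ↔ ∃ b, a = AdjoinRoot.mk (p ^ n) p * b := by
  constructor
  · intro h
    obtain ⟨f, rfl⟩ := AdjoinRoot.mk_surjective a
    rw [red_mk, AdjoinRoot.mk_eq_zero] at h
    obtain ⟨g, rfl⟩ := h
    exact ⟨AdjoinRoot.mk _ g, map_mul _ _ _⟩
  · rintro ⟨b, rfl⟩
    rw [map_mul, red_mk, AdjoinRoot.mk_self, zero_mul]

theorem isUnit_iff_red (hp : Irreducible p) (hn : 0 < n) {a : RR p n} :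
    IsUnit a ↔ red p hn a ≠ 0 := by
  have : Fact (Irreducible p) := ⟨hp⟩
  constructor
  · intro h
    exact (h.map (red p hn)).ne_zero
  · intro h
    obtain ⟨f, rfl⟩ := AdjoinRoot.mk_surjective a
    apply isUnit_mk hp
    intro hf
    apply h
    rw [red_mk, AdjoinRoot.mk_eq_zero]
    exact hf

/-- In `K`, the norm form of `K(√d)` is anisotropic. -/
theorem norm_K {K : Type} [Field K] {d : K} (hK : ¬ ∃ z : K, z * z = d) {x y : K}
    (h : x ^ 2 - d * y ^ 2 = 0) : x = 0 ∧ y = 0 := by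
  have hy : y = 0 := by
    by_contra hy
    apply hK
    refine ⟨x / y, ?_⟩
    field_simp
    linear_combination h
  subst hy
  refine ⟨?_, rfl⟩
  have : x ^ 2 = 0 := by linear_combination h
  exact pow_eq_zero_iff (two_ne_zero) |>.1 this

theorem hE_of_hK (hp : Irreducible p) (hn : 0 < n) {d : F}
    (hK : ¬ ∃ z : AdjoinRoot p, z * z = algebraMap F (AdjoinRoot p) d) (x : RR p n × RR p n)
    (hx : ¬ IsUnit (x.1 ^ 2 - algebraMap F (RR p n) d * x.2 ^ 2)) :
    ∃ y : RR p n × RR p n, x = AdjoinRoot.mk (p ^ n) p • y := by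
  have : Fact (Irreducible p) := ⟨hp⟩
  rw [isUnit_iff_red hp hn, not_not, map_sub, map_mul, map_pow, map_pow, AlgHom.commutes] at hx
  obtain ⟨h1, h2⟩ := norm_K hK hx
  obtain ⟨b1, hb1⟩ := (red_eq_zero hn).1 h1
  obtain ⟨b2, hb2⟩ := (red_eq_zero hn).1 h2
  exact ⟨(b1, b2), Prod.ext hb1 hb2⟩

/-- Square roots of `1 + nilpotent`. -/
theorem exists_sqrt {R : Type} [CommRing R] (h2 : IsUnit (2 : R)) {x : R} (hx : IsNilpotent x) :
    ∃ w, w ^ 2 = 1 + x := by
  have h1 : IsNilpotent (aeval (1 : R) (X ^ 2 - C (1 + x) : R[X])) := by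
    have : aeval (1 : R) (X ^ 2 - C (1 + x) : R[X]) = -x := by simp
    rw [this]
    exact hx.neg
  have h3 : IsUnit (aeval (1 : R) (derivative (X ^ 2 - C (1 + x) : R[X]))) := by
    have : aeval (1 : R) (derivative (X ^ 2 - C (1 + x) : R[X])) = 2 := by
      simp [one_add_one_eq_two]
    rw [this]
    exact h2
  obtain ⟨r, ⟨_, hr⟩, _⟩ := existsUnique_nilpotent_sub_and_aeval_eq_zero h1 h3
  refine ⟨r, ?_⟩
  simp only [map_sub, map_pow, aeval_X, aeval_C, Algebra.algebraMap_self, RingHom.id_apply] at hr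
  linear_combination hr

/-- The alternative split / division. -/
theorem split_or_div (hF2 : (2 : F) ≠ 0) (hp : Irreducible p) (hn : 0 < n) (hX : ¬ p ∣ X) (d : F) :
    (∃ b₀ b₁ : RR p n, AdjoinRoot.root (p ^ n) = b₀ ^ 2 - algebraMap F (RR p n) d * b₁ ^ 2) ∨
      (∀ z₀ z₁ : AdjoinRoot p,
        AdjoinRoot.root p ≠ z₀ ^ 2 - algebraMap F (AdjoinRoot p) d * z₁ ^ 2) := by
  have : Fact (Irreducible p) := ⟨hp⟩
  by_cases hs : ∃ z₀ z₁ : AdjoinRoot p,
      AdjoinRoot.root p = z₀ ^ 2 - algebraMap F (AdjoinRoot p) d * z₁ ^ 2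
  · left
    obtain ⟨z₀, z₁, hz⟩ := hs
    obtain ⟨c₀, rfl⟩ := red_surjective hn z₀
    obtain ⟨c₁, rfl⟩ := red_surjective hn z₁
    have h1 : red p hn (AdjoinRoot.root (p ^ n) -
        (c₀ ^ 2 - algebraMap F (RR p n) d * c₁ ^ 2)) = 0 := by
      rw [map_sub, red_root, hz, map_sub, map_mul, map_pow, map_pow, AlgHom.commutes, sub_self]
    obtain ⟨y, hy⟩ := (red_eq_zero hn).1 h1
    have hcu : IsUnit (c₀ ^ 2 - algebraMap F (RR p n) d * c₁ ^ 2) := by
      rw [isUnit_iff_red hp hn, map_sub, map_mul, map_pow, map_pow, AlgHom.commutes, ← hz,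
        ← red_root hn, ← isUnit_iff_red hp hn]
      exact isUnit_root hp hX
    obtain ⟨ν, hν⟩ := hcu
    have h2 : IsUnit (2 : RR p n) := by
      have : (2 : RR p n) = algebraMap F (RR p n) 2 := (map_ofNat (algebraMap F (RR p n)) 2).symm
      rw [this]
      exact (IsUnit.mk0 _ hF2).map _
    have hnil : IsNilpotent (AdjoinRoot.mk (p ^ n) p * (((ν⁻¹ : (RR p n)ˣ) : RR p n) * y)) :=
      (Commute.all _ _).isNilpotent_mul_right ⟨n, mk_pow_eq_zero p n⟩
    obtain ⟨w, hw⟩ := exists_sqrt h2 hnil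
    refine ⟨c₀ * w, c₁ * w, ?_⟩
    have h3 : (ν : RR p n) * ((ν⁻¹ : (RR p n)ˣ) : RR p n) = 1 := by simp
    have h4 : (c₀ * w) ^ 2 - algebraMap F (RR p n) d * (c₁ * w) ^ 2 =
        (c₀ ^ 2 - algebraMap F (RR p n) d * c₁ ^ 2) * w ^ 2 := by ring
    rw [h4, hw, ← hν]
    rw [← hν] at hy
    linear_combination hy - AdjoinRoot.mk (p ^ n) p * y * h3
  · right
    push Not at hs
    exact hs

/-- The division algebra `D_K`. -/
theorem div_K {K : Type} [Field K] {d t : K} (hK : ¬ ∃ z : K, z * z = d)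
    (ht : ∀ z₀ z₁ : K, t ≠ z₀ ^ 2 - d * z₁ ^ 2) {x : ℍ[K, d, t]} (hx : nm x = 0) : x = 0 := by
  rw [nm_apply] at hx
  have h1 : x.imJ ^ 2 - d * x.imK ^ 2 = 0 := by
    by_contra h1
    apply ht ((x.re * x.imJ - d * x.imI * x.imK) / (x.imJ ^ 2 - d * x.imK ^ 2))
      ((x.imI * x.imJ - x.re * x.imK) / (x.imJ ^ 2 - d * x.imK ^ 2))
    rw [div_pow, div_pow, mul_div_assoc', ← sub_div, eq_div_iff (pow_ne_zero 2 h1)]
    linear_combination (-(x.imJ ^ 2 - d * x.imK ^ 2)) * hx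
  obtain ⟨h2, h3⟩ := norm_K hK h1
  have h4 : x.re ^ 2 - d * x.imI ^ 2 = 0 := by
    rw [h2, h3] at hx
    linear_combination hx
  obtain ⟨h5, h6⟩ := norm_K hK h4
  ext <;> simp [h2, h3, h5, h6]

/-- Reduction `D_R → D_K`. -/
noncomputable def redD {p : F[X]} {n : ℕ} (hn : 0 < n) (d : F) (x : DD d p n) :
    ℍ[AdjoinRoot p, algebraMap F (AdjoinRoot p) d, AdjoinRoot.root p] :=
  ⟨red p hn x.re, red p hn x.imI, red p hn x.imJ, red p hn x.imK⟩

theorem nm_redD (hn : 0 < n) {d : F} (x : DD d p n) :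
    nm (redD hn d x) = red p hn (nm x) := by
  rw [nm_apply, nm_apply]
  simp only [redD, map_add, map_sub, map_mul, map_pow, AlgHom.commutes, red_root]

theorem redD_eq_zero (hn : 0 < n) {d : F} {x : DD d p n} (hx : redD hn d x = 0) :
    ∃ y : DD d p n, x = AdjoinRoot.mk (p ^ n) p • y := by
  have e1 := congrArg QuaternionAlgebra.re hx
  have e2 := congrArg QuaternionAlgebra.imI hx
  have e3 := congrArg QuaternionAlgebra.imJ hx
  have e4 := congrArg QuaternionAlgebra.imK hx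
  simp only [redD, re_zero, imI_zero, imJ_zero, imK_zero] at e1 e2 e3 e4
  obtain ⟨b1, hb1⟩ := (red_eq_zero hn).1 e1
  obtain ⟨b2, hb2⟩ := (red_eq_zero hn).1 e2
  obtain ⟨b3, hb3⟩ := (red_eq_zero hn).1 e3
  obtain ⟨b4, hb4⟩ := (red_eq_zero hn).1 e4
  exact ⟨⟨b1, b2, b3, b4⟩, QuaternionAlgebra.ext hb1 hb2 hb3 hb4⟩

theorem hdiv_of (hp : Irreducible p) (hn : 0 < n) {d : F}
    (hK : ¬ ∃ z : AdjoinRoot p, z * z = algebraMap F (AdjoinRoot p) d)
    (ht : ∀ z₀ z₁ : AdjoinRoot p,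
        AdjoinRoot.root p ≠ z₀ ^ 2 - algebraMap F (AdjoinRoot p) d * z₁ ^ 2)
    (x : DD d p n) (hx : ¬ IsUnit (nm x)) : ∃ y : DD d p n, x = AdjoinRoot.mk (p ^ n) p • y := by
  have : Fact (Irreducible p) := ⟨hp⟩
  apply redD_eq_zero hn
  apply div_K hK ht
  rw [nm_redD]
  rwa [isUnit_iff_red hp hn, not_not] at hx

end

end SpW.Blk
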