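import Mathlib

/-!
# Blocks: the chain ring `R` and the quaternion algebra `D` over it

`R` is a local principal ring with maximal ideal `(π)`, `π ^ n = 0 ≠ π ^ (n - 1)`, finite
dimensional over the field `F`, with a linear form `s` such that `s (a b)` is nondegenerate.
`D = R ⊕ R i ⊕ R j ⊕ R k`, `i ^ 2 = d`, `j ^ 2 = t`.
-/

set_option linter.unusedSectionVars false

open scoped Quaternion
open QuaternionAlgebra

namespace SpW.Blk

/-- `R` is a local principal ring of length `n` with maximal ideal `(π)` and `s` is nondegenerate. -/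
structure Chain (F R : Type) [Field F] [CommRing R] [Algebra F R] (s : R →ₗ[F] F) (π : R) (n : ℕ) :
    Prop where
  loc : ∀ a : R, ¬ IsUnit a → ∃ b, a = π * b
  nil : π ^ n = 0
  nz : π ^ (n - 1) ≠ 0
  pos : 0 < n
  nondeg : ∀ a : R, (∀ b, s (a * b) = 0) → a = 0

section ring

variable {F R : Type} [Field F] [CommRing R] [Algebra F R] {s : R →ₗ[F] F} {π : R} {n : ℕ}

theorem Chain.pow_eq_zero (h : Chain F R s π n) {k : ℕ} : π ^ k = 0 ↔ n ≤ k := by
  constructor
  · intro hk
    by_contra hlt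
    push Not at hlt
    apply h.nz
    rw [show n - 1 = k + (n - 1 - k) by omega, pow_add, hk, zero_mul]
  · intro hk
    rw [show k = n + (k - n) by omega, pow_add, h.nil, zero_mul]

theorem Chain.not_unit (h : Chain F R s π n) : ¬ IsUnit π := by
  intro hu
  apply h.nz
  have h1 : π ^ (n - 1) * π = 0 := by
    rw [← pow_succ, show n - 1 + 1 = n by have := h.pos; omega, h.nil]
  exact (hu.mul_left_eq_zero).1 h1

theorem Chain.not_unit_mul (h : Chain F R s π n) (b : R) : ¬ IsUnit (π * b) := fun hu =>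
  h.not_unit (isUnit_of_mul_isUnit_left hu)

theorem Chain.unit_add (h : Chain F R s π n) {u : R} (hu : IsUnit u) (b : R) :
    IsUnit (u + π * b) := by
  by_contra hc
  obtain ⟨c, hc⟩ := h.loc _ hc
  apply h.not_unit_mul (c - b)
  rwa [show π * (c - b) = u by rw [mul_sub, ← hc]; ring]

theorem Chain.unit_or (h : Chain F R s π n) (a : R) : IsUnit a ∨ ∃ b, a = π * b := by
  by_cases ha : IsUnit a
  · exact Or.inl ha
  · exact Or.inr (h.loc a ha)

/-- Division by the largest possible power of `π`. -/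
theorem Chain.exists_pow_smul (h : Chain F R s π n) {M : Type} [AddCommGroup M] [Module R M]
    {a : M} (ha : a ≠ 0) : ∃ (m : ℕ) (a' : M), a = π ^ m • a' ∧ ∀ b, a' ≠ π • b := by
  classical
  by_contra hc
  push Not at hc
  have key : ∀ m, ∃ a', a = π ^ m • a' := by
    intro m
    induction m with
    | zero => exact ⟨a, by simp⟩
    | succ m ih =>
      obtain ⟨a', ha'⟩ := ih
      obtain ⟨b, hb⟩ := hc m a' ha'
      exact ⟨b, by rw [ha', hb, smul_smul, pow_succ]⟩
  obtain ⟨a', ha'⟩ := key n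
  rw [h.nil, zero_smul] at ha'
  exact ha ha'

theorem Chain.exists_s_ne (h : Chain F R s π n) {a : R} (ha : a ≠ 0) : ∃ b, s (a * b) ≠ 0 := by
  by_contra hc
  push Not at hc
  exact ha (h.nondeg a hc)

theorem Chain.unit_smul_ne (h : Chain F R s π n) {u : R} (hu : IsUnit u) {k : ℕ} (hk : k < n) :
    π ^ k * u ≠ 0 := by
  intro h0
  have := (hu.mul_left_eq_zero).1 h0
  rw [h.pow_eq_zero] at this
  omega

end ring

section quat

variable {F R : Type} [Field F] [CommRing R] [Algebra F R] {s : R →ₗ[F] F} {π : R} {n : ℕ}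
  {d t : R}

/-- The norm of a quaternion. -/
def nm (x : ℍ[R, d, t]) : R := (x * star x).re

theorem mul_star_eq (x : ℍ[R, d, t]) : x * star x = ((nm x : R) : ℍ[R, d, t]) :=
  mul_star_eq_coe x

theorem star_mul_eq (x : ℍ[R, d, t]) : star x * x = ((nm x : R) : ℍ[R, d, t]) := by
  rw [← mul_star_eq]
  ext <;> simp <;> ring

theorem nm_apply (x : ℍ[R, d, t]) :
    nm x = x.re ^ 2 - d * x.imI ^ 2 - t * x.imJ ^ 2 + d * t * x.imK ^ 2 := by
  simp only [nm, re_mul, re_star, imI_star, imJ_star, imK_star]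
  ring

theorem nm_mul (x y : ℍ[R, d, t]) : nm (x * y) = nm x * nm y := by
  simp only [nm_apply, re_mul, imI_mul, imJ_mul, imK_mul]
  ring

theorem nm_star (x : ℍ[R, d, t]) : nm (star x) = nm x := by
  simp only [nm_apply, re_star, imI_star, imJ_star, imK_star]
  ring

theorem nm_one : nm (1 : ℍ[R, d, t]) = 1 := by
  simp [nm_apply]

theorem nm_smul (r : R) (x : ℍ[R, d, t]) : nm (r • x) = r ^ 2 * nm x := by
  simp only [nm_apply, re_smul, imI_smul, imJ_smul, imK_smul, smul_eq_mul]
  ring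

/-- The element `i`. -/
def qi : ℍ[R, d, t] := ⟨0, 1, 0, 0⟩

/-- The element `j`. -/
def qj : ℍ[R, d, t] := ⟨0, 0, 1, 0⟩

theorem nm_qi : nm (qi : ℍ[R, d, t]) = - d := by
  simp [nm_apply, qi]

theorem nm_qj : nm (qj : ℍ[R, d, t]) = - t := by
  simp [nm_apply, qj]

/-- A quaternion not divisible by `π` has a coordinate which is a unit. -/
theorem Chain.exists_unit_coord (h : Chain F R s π n) {x : ℍ[R, d, t]} (hx : ∀ y, x ≠ π • y) :
    IsUnit x.re ∨ IsUnit x.imI ∨ IsUnit x.imJ ∨ IsUnit x.imK := by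
  rcases h.unit_or x.re with h1 | ⟨b1, h1⟩
  · exact Or.inl h1
  rcases h.unit_or x.imI with h2 | ⟨b2, h2⟩
  · exact Or.inr (Or.inl h2)
  rcases h.unit_or x.imJ with h3 | ⟨b3, h3⟩
  · exact Or.inr (Or.inr (Or.inl h3))
  rcases h.unit_or x.imK with h4 | ⟨b4, h4⟩
  · exact Or.inr (Or.inr (Or.inr h4))
  exfalso
  exact hx ⟨b1, b2, b3, b4⟩ (by ext <;> simp [h1, h2, h3, h4])

theorem Chain.pow_smul_ne (h : Chain F R s π n) {x : ℍ[R, d, t]} (hx : ∀ y, x ≠ π • y) {k : ℕ}
    (hk : k < n) : π ^ k • x ≠ 0 := by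
  intro h0
  have e1 := congrArg QuaternionAlgebra.re h0
  have e2 := congrArg QuaternionAlgebra.imI h0
  have e3 := congrArg QuaternionAlgebra.imJ h0
  have e4 := congrArg QuaternionAlgebra.imK h0
  simp only [re_smul, imI_smul, imJ_smul, imK_smul, smul_eq_mul, re_zero, imI_zero, imJ_zero,
    imK_zero] at e1 e2 e3 e4
  rcases h.exists_unit_coord hx with h1 | h1 | h1 | h1
  · exact h.unit_smul_ne h1 hk e1
  · exact h.unit_smul_ne h1 hk e2
  · exact h.unit_smul_ne h1 hk e3
  · exact h.unit_smul_ne h1 hk e4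

theorem smul_pow_eq_zero (h : Chain F R s π n) {M : Type} [AddCommGroup M] [Module R M] (x : M)
    {k : ℕ} (hk : n ≤ k) : π ^ k • x = 0 := by
  rw [h.pow_eq_zero.2 hk, zero_smul]

/-- The trace form `s (Trd (δ x ȳ))`. -/
def frm (s : R →ₗ[F] F) (x y : ℍ[R, d, t]) : F := s (2 * (qi * x * star y).re)

theorem frm_apply (x y : ℍ[R, d, t]) :
    frm s x y = s (2 * (d * (x.imI * y.re - x.re * y.imI) +
      d * t * (x.imJ * y.imK - x.imK * y.imJ))) := by
  unfold frm
  congr 1
  simp only [qi, re_mul, imI_mul, imJ_mul, imK_mul, re_star, imI_star, imJ_star, imK_star]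
  ring

theorem frm_smul (r : R) (x y : ℍ[R, d, t]) : frm s (r • x) y = frm s x (r • y) := by
  rw [frm_apply, frm_apply]
  congr 1
  simp only [re_smul, imI_smul, imJ_smul, imK_smul, smul_eq_mul]
  ring

theorem frm_self (x : ℍ[R, d, t]) : frm s x x = 0 := by
  rw [frm_apply, show (2 * (d * (x.imI * x.re - x.re * x.imI) +
      d * t * (x.imJ * x.imK - x.imK * x.imJ)) : R) = 0 by ring, map_zero]

theorem Chain.frm_nondeg (h : Chain F R s π n) (h2 : IsUnit (2 : R)) (hd : IsUnit d)
    (ht : IsUnit t) {x : ℍ[R, d, t]} (hx : ∀ y, frm s y x = 0) : x = 0 := by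
  have k1 : x.re = 0 := by
    have : 2 * d * x.re = 0 := h.nondeg _ fun b => by
      have := hx ⟨0, b, 0, 0⟩
      rw [frm_apply] at this
      rw [← this]
      congr 1
      ring
    exact ((h2.mul hd).mul_right_eq_zero).1 this
  have k2 : x.imI = 0 := by
    have : 2 * d * x.imI = 0 := h.nondeg _ fun b => by
      have := hx ⟨-b, 0, 0, 0⟩
      rw [frm_apply] at this
      rw [← this]
      congr 1
      ring
    exact ((h2.mul hd).mul_right_eq_zero).1 this
  have k3 : x.imJ = 0 := by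
    have : 2 * (d * t) * x.imJ = 0 := h.nondeg _ fun b => by
      have := hx ⟨0, 0, 0, -b⟩
      rw [frm_apply] at this
      rw [← this]
      congr 1
      ring
    exact ((h2.mul (hd.mul ht)).mul_right_eq_zero).1 this
  have k4 : x.imK = 0 := by
    have : 2 * (d * t) * x.imK = 0 := h.nondeg _ fun b => by
      have := hx ⟨0, 0, b, 0⟩
      rw [frm_apply] at this
      rw [← this]
      congr 1
      ring
    exact ((h2.mul (hd.mul ht)).mul_right_eq_zero).1 this
  ext <;> simp [k1, k2, k3, k4]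

end quat

end SpW.Blk
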