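import Pool.Agent.Work.MP_3615d2_al.StarForm
import Pool.Agent.Work.MP_3615d2_al.BlkRing

/-!
MP_3615d2_al, A10: `φ` has compact support and is locally constant, for a division block.
-/

open Filter Topology
open scoped Quaternion

namespace SpW

section

variable {F R : Type} [Field F] [CommRing R] [Algebra F R] {s : R →ₗ[F] F} {π : R} {n : ℕ}
  {c₁ t : R}

open Blk in
/-- For `w` not divisible by `π` there is `c` of trace zero with
`s(π^(2l) Trd(c w̄ i w)) ≠ 0`. -/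
theorem exists_trace (h : Chain F R s π n) {l : ℕ} (hn : n = 2 * l + 1) (hd : IsUnit c₁)
    (ht : IsUnit t) (hdiv : ∀ x : ℍ[R,c₁,0,t], ¬ IsUnit (nm x) → ∃ y, x = π • y)
    {w : ℍ[R,c₁,0,t]} (hw : ∀ y, w ≠ π • y) :
    ∃ c : ℍ[R,c₁,0,t], c.re = 0 ∧ s (π ^ l * π ^ l * (c * (star w * SpW.qi c₁ t * w)).re) ≠ 0 := by
  set z : ℍ[R,c₁,0,t] := star w * SpW.qi c₁ t * w with hz
  have hz0 : z.re = 0 := re_star_i w
  have hwu : IsUnit (nm w) := by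
    by_contra hc
    obtain ⟨y, hy⟩ := hdiv w hc
    exact hw y hy
  have hzu : IsUnit (nm z) := by
    have h1 : nm z = nm w * (-c₁) * nm w := by
      rw [hz, nm_mul, nm_mul, nm_star]
      congr 2
      exact nm_qi
    rw [h1]
    exact (hwu.mul hd.neg).mul hwu
  have hzn : ∀ y, z ≠ π • y := by
    intro y hy
    rw [hy, nm_smul, pow_two, mul_assoc] at hzu
    exact h.not_unit (isUnit_of_mul_isUnit_left hzu)
  -- the functional
  have hpl : π ^ l * π ^ l ≠ 0 := by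
    rw [← pow_add]
    intro h0
    rw [h.pow_eq_zero] at h0
    omega
  obtain ⟨b, hb⟩ := h.exists_s_ne hpl
  have hre : ∀ c : ℍ[R,c₁,0,t], (c * z).re =
      c.re * z.re + c₁ * c.imI * z.imI + t * c.imJ * z.imJ - c₁ * t * c.imK * z.imK := by
    intro c
    simp only [QuaternionAlgebra.re_mul]
    ring
  rcases h.exists_unit_coord hzn with h1 | h1 | h1 | h1
  · rw [hz0] at h1
    have : (1 : R) = 0 := by
      have := isUnit_zero_iff.1 h1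
      exact this.symm
    exact absurd (by rw [← mul_one (π ^ l * π ^ l), this, mul_zero]) hpl
  · obtain ⟨u, hu⟩ := (hd.mul h1)
    refine ⟨⟨0, b * ((u⁻¹ : Rˣ) : R), 0, 0⟩, rfl, ?_⟩
    rw [hre]
    have : c₁ * (b * ((u⁻¹ : Rˣ) : R)) * z.imI = b * (((u⁻¹ : Rˣ) : R) * (c₁ * z.imI)) := by ring
    simp only [zero_mul, mul_zero, add_zero, sub_zero, zero_add]
    rw [this, ← hu, Units.inv_mul, mul_one]
    exact hb
  · obtain ⟨u, hu⟩ := (ht.mul h1)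
    refine ⟨⟨0, 0, b * ((u⁻¹ : Rˣ) : R), 0⟩, rfl, ?_⟩
    rw [hre]
    have : t * (b * ((u⁻¹ : Rˣ) : R)) * z.imJ = b * (((u⁻¹ : Rˣ) : R) * (t * z.imJ)) := by ring
    simp only [zero_mul, mul_zero, add_zero, sub_zero, zero_add]
    rw [this, ← hu, Units.inv_mul, mul_one]
    exact hb
  · obtain ⟨u, hu⟩ := ((hd.mul ht).mul h1)
    refine ⟨⟨0, 0, 0, -(b * ((u⁻¹ : Rˣ) : R))⟩, rfl, ?_⟩
    rw [hre]
    have : 0 * z.re + c₁ * 0 * z.imI + t * 0 * z.imJ - c₁ * t * (-(b * ((u⁻¹ : Rˣ) : R))) * z.imK =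
        b * (((u⁻¹ : Rˣ) : R) * (c₁ * t * z.imK)) := by ring
    show s (π ^ l * π ^ l * (0 * z.re + c₁ * 0 * z.imI + t * 0 * z.imJ -
      c₁ * t * (-(b * ((u⁻¹ : Rˣ) : R))) * z.imK)) ≠ 0
    rw [this, ← hu, Units.inv_mul, mul_one]
    exact hb

end

section

variable {F : Type} [NontriviallyNormedField F] [IsUltrametricDist F] [ProperSpace F]
  {R : Type} [CommRing R] [Algebra F R] [Module.Finite F R] {c₁ t : R}
  {s : R →ₗ[F] F} {π : R} {n : ℕ} {X : Type} [NormedAddCommGroup X] [NormedSpace F X]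
  {S : Type} [AddCommGroup S] [Module ℂ S]

open Blk in
/-- A10 for a division block. -/
theorem phi_bounded (h : Chain F R s π n) {l : ℕ} (hn : n = 2 * l + 1) (hd : IsUnit c₁)
    (ht : IsUnit t) (hdiv : ∀ x : ℍ[R,c₁,0,t], ¬ IsUnit (nm x) → ∃ y, x = π • y)
    (h2 : (2 : F) ≠ 0) (ψ : AddChar F Circle) (hψ : Continuous ψ) (hψ1 : ψ ≠ 1) (Bf : X → X → F)
    (ρ : X → Module.End ℂ S)
    (hρ : ∀ w w', ρ w * ρ w' = ((ψ ((2 : F)⁻¹ * Bf w w') : Circle) : ℂ) • ρ (w + w'))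
    (ι : ℍ[R,c₁,0,t] →ₗ[F] X)
    (hι : ∀ a b, Bf (ι a) (ι b) = s (2 * (SpW.qi c₁ t * a * star b).re))
    (m : S →ₗ[ℂ] ℂ) (v : S) (hv : ∀ᶠ w in 𝓝 (0 : X), ρ w v = v)
    (hinv : ∀ c : ℍ[R,c₁,0,t], c.re = 0 → ∀ᶠ a in 𝓝 (0 : F), ∀ u : ℍ[R,c₁,0,t],
      u * (1 - a • c) = 1 + a • c → ∀ w, m (ρ (ι (w * u)) v) = m (ρ (ι w) v))
    {V : Type} [NormedAddCommGroup V] [NormedSpace F V] [FiniteDimensional F V]
    (j : V →ₗ[F] ℍ[R,c₁,0,t]) (hj : IsCoord π j) :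
    IsLocallyConstant (fun x : V => m (ρ (ι (π ^ l • j x)) v)) ∧
      ∃ r : ℝ, ∀ x : V, m (ρ (ι (π ^ l • j x)) v) ≠ 0 → ‖x‖ ≤ r := by
  refine ⟨isLocallyConstant_phi s (π ^ l) ψ hψ Bf ρ hρ ι hι m v hv j,
    exists_bound h2 s (π ^ l) ψ hψ hψ1 Bf ρ hρ ι hι m v hv hinv j ?_⟩
  intro x hx
  exact exists_trace h hn hd ht hdiv (fun y hy => hx (hj.inj x y hy))

end

end SpW
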