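import Pool.Agent.Work.MP_3615d2_al.StarKill
import Pool.Agent.Work.MP_3615d2_al.Cpt2
import Pool.Agent.Work.MP_3615d2_al.BlkRR

/-!
MP_3615d2_al: A10 + carriers + A11: the identity (5.2) kills the constant.
-/

open Filter Topology Polynomial
open scoped Quaternion

namespace SpW

attribute [local instance] NX.instNNF NX.instNA NX.instFD NX.instPS NX.instUM

theorem tower_restrict (F K L : Type) [NontriviallyNormedField F] [NontriviallyNormedField K]
    [NontriviallyNormedField L] [NormedAlgebra F K] [NormedAlgebra K L] :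
    let _ : NormedSpace F L := NormedSpace.restrictScalars F K L
    IsScalarTower F K L := by
  intro _
  exact ⟨fun a k l => by
    have h : a • k = algebraMap F K a * k := Algebra.smul_def a k
    show (a • k) • l = algebraMap F K a • k • l
    rw [h, mul_smul]⟩

variable {F : Type} [NontriviallyNormedField F] [IsUltrametricDist F] [ProperSpace F]
  {E : Type} [NontriviallyNormedField E] [NormedAlgebra F E] {σ : E ≃ₐ[F] E} {δ : E} {d : F}
  {X : Type} [NormedAddCommGroup X] [NormedSpace F X]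
  {S : Type} [AddCommGroup S] [Module ℂ S]

theorem not_dvd_X_of {p : F[X]} {d : F}
    (ht : ∀ z₀ z₁ : AdjoinRoot p,
      AdjoinRoot.root p ≠ z₀ ^ 2 - algebraMap F (AdjoinRoot p) d * z₁ ^ 2) : ¬ p ∣ Polynomial.X := by
  intro h
  apply ht 0 0
  have : AdjoinRoot.root p = AdjoinRoot.mk p Polynomial.X := rfl
  rw [this, AdjoinRoot.mk_eq_zero.2 h]
  ring

/-- The identity (5.2) of a division block forces the constant to be `0`. -/
theorem star_end (hq : QuadDatum σ δ d) {μ : Eˣ →* ℂˣ} (hμ : ConjSymplectic F μ)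
    (ψ : AddChar F Circle) (hψ : Continuous ψ) (hψ1 : ψ ≠ 1)
    {p : F[X]} (hp : Irreducible p) {n l : ℕ} (hn0 : 0 < n) (hn : n = 2 * l + 1)
    (hK : ¬ ∃ z : AdjoinRoot p, z * z = algebraMap F (AdjoinRoot p) d)
    (hN : ∃ z : AdjoinRoot p, z ≠ 0 ∧ ¬ ∃ y : E, Algebra.norm F y = Algebra.norm F z)
    (ht : ∀ z₀ z₁ : AdjoinRoot p,
      AdjoinRoot.root p ≠ z₀ ^ 2 - algebraMap F (AdjoinRoot p) d * z₁ ^ 2)
    {s : RR p n →ₗ[F] F} (hs : ∀ r, (∀ r', s (r * r') = 0) → r = 0)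
    (Bf : X → X → F) (ρ : X → Module.End ℂ S)
    (hρ : ∀ w w', ρ w * ρ w' = ((ψ ((2 : F)⁻¹ * Bf w w') : Circle) : ℂ) • ρ (w + w'))
    (ι : DD d p n →ₗ[F] X)
    (hι : ∀ a b, Bf (ι a) (ι b) =
      s (2 * (qi (algebraMap F (RR p n) d) (AdjoinRoot.root (p ^ n)) * a * star b).re))
    (m : S →ₗ[ℂ] ℂ) (v : S) (hv : ∀ᶠ w in 𝓝 (0 : X), ρ w v = v)
    (hinv : ∀ c : DD d p n, c.re = 0 → ∀ᶠ a in 𝓝 (0 : F), ∀ u : DD d p n,
      u * (1 - a • c) = 1 + a • c → ∀ w, m (ρ (ι (w * u)) v) = m (ρ (ι w) v))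
    (k : ℂ)
    (hform : StarForm s (AdjoinRoot.mk (p ^ n) p) l (Blk.red p hn0) ψ (omF F μ)
      (fun w : DD d p n => m (ρ (ι (AdjoinRoot.mk (p ^ n) p ^ l • w)) v)) k) : k = 0 := by
  have : Fact (Irreducible p) := ⟨hp⟩
  have hX : ¬ p ∣ Polynomial.X := not_dvd_X_of ht
  have : FiniteDimensional F (AdjoinRoot p) := (AdjoinRoot.powerBasis hp.ne_zero).finite
  have : FiniteDimensional F (RR p n) := Blk.finite_RR hp
  let K := NX F (AdjoinRoot p)
  let eK : AdjoinRoot p ≃ₐ[F] K := NX.equiv F (AdjoinRoot p)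
  have hdK : ∀ x : F, eK (algebraMap F (AdjoinRoot p) x) = algebraMap F K x := fun x => eK.commutes x
  have hf : Fact (∀ r : K, r ^ 2 ≠ algebraMap F K d + 0 * r) := by
    apply fact_of_not_sq
    rintro ⟨z, hz⟩
    apply hK
    refine ⟨eK.symm z, eK.injective ?_⟩
    rw [map_mul, eK.apply_symm_apply, hdK, hz]
  let L := NX K (QuadraticAlgebra K (algebraMap F K d) 0)
  let e : QuadraticAlgebra K (algebraMap F K d) 0 ≃ₐ[K] L := NX.equiv K _
  let _ : NormedSpace F L := NormedSpace.restrictScalars F K L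
  have : IsScalarTower F K L := tower_restrict F K L
  have : FiniteDimensional F L := FiniteDimensional.trans F K L
  let _ : MeasurableSpace K := borel K
  have : BorelSpace K := ⟨rfl⟩
  let _ : MeasurableSpace L := borel L
  have : BorelSpace L := ⟨rfl⟩
  let red' : RR p n →ₐ[F] K := eK.toAlgHom.comp (Blk.red p hn0)
  have hnorm : ∀ x : AdjoinRoot p, Algebra.norm F (eK x) = Algebra.norm F x := fun x =>
    Algebra.norm_eq_of_algEquiv eK x
  have hform' : StarForm s (AdjoinRoot.mk (p ^ n) p) l red' ψ (omF F μ)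
      (fun w : DD d p n => m (ρ (ι (AdjoinRoot.mk (p ^ n) p ^ l • w)) v)) k := by
    intro V _ _ _ _ _ _ ν _ j hj
    obtain ⟨C, hC, h⟩ := hform V ν j hj
    refine ⟨C, hC, fun c hc => ?_⟩
    filter_upwards [h c hc] with r hr
    rw [hr, ← hnorm]
    rfl
  refine star_kill (K := K) (L := L) hq hμ e ?_ ψ hψ s (AdjoinRoot.mk (p ^ n) p) l ?_ red' ?_ ?_ ?_
    ?_ _ k ?_ hform'
  · obtain ⟨z, hz, hzn⟩ := hN
    refine ⟨eK z, ?_, ?_⟩
    · intro h
      exact hz ((map_eq_zero_iff eK eK.injective).1 h)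
    · rwa [hnorm]
  · rw [← hn]
    exact Blk.mk_pow_eq_zero p n
  · intro x
    obtain ⟨y, hy⟩ := Blk.red_surjective (p := p) hn0 (eK.symm x)
    refine ⟨y, ?_⟩
    show eK (Blk.red p hn0 y) = x
    rw [hy, eK.apply_symm_apply]
  · intro x hx
    have h1 : Blk.red p hn0 x = 0 := (map_eq_zero_iff eK eK.injective).1 hx
    exact (Blk.red_eq_zero hn0).1 h1
  · show eK (Blk.red p hn0 _) = 0
    rw [Blk.red_mk, AdjoinRoot.mk_self, map_zero]
  · rintro ⟨y, hy⟩
    have h1 := norm_L e (e.symm y)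
    rw [e.apply_symm_apply, hy] at h1
    have h2 : red' (AdjoinRoot.root (p ^ n)) = eK (AdjoinRoot.root p) := by
      show eK (Blk.red p hn0 _) = _
      rw [Blk.red_root]
    rw [h2] at h1
    apply ht (eK.symm (e.symm y).re) (eK.symm (e.symm y).im)
    apply eK.injective
    rw [h1, map_sub, map_mul, map_pow, map_pow, eK.apply_symm_apply, eK.apply_symm_apply, hdK]
    ring
  · intro j hj
    exact phi_bounded (Blk.chain_RR hp hn0 hs) hn ((IsUnit.mk0 d hq.d_ne).map _)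
      (Blk.isUnit_root hp hX) (Blk.hdiv_of hp hn0 hK ht) hq.two ψ hψ hψ1 Bf ρ hρ ι hι m v hv hinv
      j hj

end SpW
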