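import Pool.Agent.Work.MP_3615d2_al.BlkInv
import Pool.Agent.Work.MP_3615d2_al.H1
import Pool.Agent.Work.MP_3615d2_al.StarEnd
import Pool.Agent.Work.MP_3615d2_al.LocH3

/-!
MP_3615d2_al: a functional on the Weil representation which is invariant under the block is zero.
-/

set_option linter.unusedSectionVars false

open scoped Quaternion
open QuaternionAlgebra Polynomial

namespace SpW

section

variable {F E : Type} [NontriviallyNormedField F] [IsUltrametricDist F] [ProperSpace F]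
  [NontriviallyNormedField E] [NormedAlgebra F E] [IsUltrametricDist E] [ProperSpace E]
  [MeasurableSpace E] [BorelSpace E]
  {σ : E ≃ₐ[F] E} {δ : E} {d : F} {N : ℕ} {H : Matrix (Fin N) (Fin N) E}
  {S : Type} [AddCommGroup S] [Module ℂ S]
  {ψ : AddChar F Circle} {μ : Eˣ →* ℂˣ}
  {ρ : (Fin N → E) → Module.End ℂ S} {ω : unitary σ H →* Module.End ℂ S}

theorem om_inv_apply (ω : unitary σ H →* Module.End ℂ S) (h : unitary σ H) (v : S) :
    ω h (ω h⁻¹ v) = v := by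
  rw [← Module.End.mul_apply, ← map_mul, mul_inv_cancel, map_one, Module.End.one_apply]

/-- **Division case**, from the identity (5.2). -/
theorem div_kill_of (hq : QuadDatum σ δ d) (hH : IsSkew σ H) (hμ : ConjSymplectic F μ)
    (hψ : Continuous ψ) (hψ1 : ψ ≠ 1)
    (hW : IsWeil σ H ψ μ ρ ω) (B : Alt N E) {p : F[X]} {n : ℕ} {x : Fin N → E}
    (hx : IsBlock σ H B.1 p n x) {l : ℕ} (hn : n = 2 * l + 1)
    (hK : ¬ ∃ z : AdjoinRoot p, z * z = algebraMap F (AdjoinRoot p) d)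
    (ht : ∀ z₀ z₁ : AdjoinRoot p,
        AdjoinRoot.root p ≠ z₀ ^ 2 - algebraMap F (AdjoinRoot p) d * z₁ ^ 2)
    {m' : S →ₗ[ℂ] ℂ}
    (hm : ∀ (u : DD d p n) (g : unitary σ H), u * star u = 1 → PowBdd F u →
      IsBlkElt σ H B.1 δ p n x u g → ∀ v, m' (ω g v) = m' v)
    {s : RR p n →ₗ[F] F} (hs1 : ∀ r, (∀ r', s (r * r') = 0) → r = 0)
    (hs2 : ∀ a b, sympl F σ H (blk σ H B.1 δ p n x a) (blk σ H B.1 δ p n x b) =
      s (2 * (qi (algebraMap F (RR p n) d) (AdjoinRoot.root (p ^ n)) * a * star b).re))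
    (hA9 : ∃ h : unitary σ H, ∀ v : S, ∃ v1 : S,
      StarForm s (AdjoinRoot.mk (p ^ n) p) l (Blk.red p hx.pos) ψ (omF F μ)
      (fun w : DD d p n => m' (ρ (blk σ H B.1 δ p n x (AdjoinRoot.mk (p ^ n) p ^ l • w)) v1))
      (m' (ω h v))) : m' = 0 := by
  obtain ⟨h, hh⟩ := hA9
  apply LinearMap.ext
  intro v
  rw [LinearMap.zero_apply, ← om_inv_apply ω h v]
  obtain ⟨v1, hv1⟩ := hh (ω h⁻¹ v)
  exact star_end hq hμ ψ hψ hψ1 hx.irr hx.pos hn hK
    (exists_root_norm_not_norm hq p hx.irr hK) ht hs1 (fun w w' => sympl F σ H w w') ρ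
    hW.rho_mul (blkL δ d hx.kill) hs2 m' v1 (hW.rho_smooth v1)
    (fun c hc => blk_hinv hq hH B hx ρ ω hW.om_smooth hW.om_rho m'
      (blk_div_all B hx hK ht hm) c hc v1) _ hv1

/-- The statement of A9 for one block: the identity (5.2). -/
def A9 (δ : E) (d : F) (B : Alt N E) (ψ : AddChar F Circle) (μ : Eˣ →* ℂˣ)
    (ρ : (Fin N → E) → Module.End ℂ S) (ω : unitary σ H →* Module.End ℂ S) {p : F[X]} {n : ℕ}
    {x : Fin N → E} (hx : IsBlock σ H B.1 p n x) (m' : S →ₗ[ℂ] ℂ) : Prop :=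
  ∀ l : ℕ, n = 2 * l + 1 →
    (∀ z₀ z₁ : AdjoinRoot p,
      AdjoinRoot.root p ≠ z₀ ^ 2 - algebraMap F (AdjoinRoot p) d * z₁ ^ 2) →
    ∀ s : RR p n →ₗ[F] F, (∀ r, (∀ r', s (r * r') = 0) → r = 0) →
    (∀ a b, sympl F σ H (blk σ H B.1 δ p n x a) (blk σ H B.1 δ p n x b) =
      s (2 * (qi (algebraMap F (RR p n) d) (AdjoinRoot.root (p ^ n)) * a * star b).re)) →
    ∃ h : unitary σ H, ∀ v : S, ∃ v1 : S,
      StarForm s (AdjoinRoot.mk (p ^ n) p) l (Blk.red p hx.pos) ψ (omF F μ)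
      (fun w : DD d p n => m' (ρ (blk σ H B.1 δ p n x (AdjoinRoot.mk (p ^ n) p ^ l • w)) v1))
      (m' (ω h v))

/-- A functional which is invariant under the block is zero, from A9. -/
theorem block_kill_of (hq : QuadDatum σ δ d) (hH : IsSkew σ H) (hμ : ConjSymplectic F μ)
    (hψ : Continuous ψ) (hψ1 : ψ ≠ 1)
    (hW : IsWeil σ H ψ μ ρ ω) (B : Alt N E) {p : F[X]} {n : ℕ} {x : Fin N → E}
    (hx : IsBlock σ H B.1 p n x) (hn : Odd n)
    (hK : ¬ ∃ z : AdjoinRoot p, z * z = algebraMap F (AdjoinRoot p) d)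
    {m' : S →ₗ[ℂ] ℂ}
    (hm : ∀ (u : DD d p n) (g : unitary σ H), u * star u = 1 → PowBdd F u →
      IsBlkElt σ H B.1 δ p n x u g → ∀ v, m' (ω g v) = m' v)
    (hA9 : A9 δ d B ψ μ ρ ω hx m') : m' = 0 := by
  have hX := not_dvd_X_of_isUnit_root hx.irr hx.pos (isUnit_root hq hH B.2.2 hx)
  rcases Blk.split_or_div hq.two hx.irr hx.pos hX d with ⟨b₀, b₁, hb⟩ | ht
  · exact blk_split_kill hq hH hψ hψ1 hW B hx hn hK hb hm
  · obtain ⟨l, hl⟩ := hn
    obtain ⟨s, hs1, _, _, hs2⟩ := blk_form hq hH B.2.1 hx (δ := δ) (d := d)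
    exact div_kill_of hq hH hμ hψ hψ1 hW B hx hl hK ht hm hs1 hs2 (hA9 l hl ht s hs1 hs2)

/-- In an extension of odd degree `d` is not a square. -/
theorem hK_of_odd (hq : QuadDatum σ δ d) {p : F[X]} (hp : Irreducible p) {n : ℕ}
    (hodd : Odd (n * p.natDegree)) :
    ¬ ∃ z : AdjoinRoot p, z * z = algebraMap F (AdjoinRoot p) d := by
  rintro ⟨z, hz⟩
  have : Fact (Irreducible p) := ⟨hp⟩
  have hfin : FiniteDimensional F (AdjoinRoot p) := (AdjoinRoot.powerBasis hp.ne_zero).finite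
  have hdeg : Module.finrank F (AdjoinRoot p) = p.natDegree := by
    rw [(AdjoinRoot.powerBasis hp.ne_zero).finrank, AdjoinRoot.powerBasis_dim]
  have h1 : Algebra.norm F z ^ 2 = d ^ p.natDegree := by
    rw [pow_two, ← map_mul, hz, Algebra.norm_algebraMap, hdeg]
  obtain ⟨k, hk⟩ := (Nat.odd_mul.1 hodd).2
  have hd0 : d ≠ 0 := hq.d_ne
  have h2 : (Algebra.norm F z / d ^ k) ^ 2 = d := by
    rw [div_pow, h1, hk, pow_succ, ← pow_mul, mul_comm 2 k]
    field_simp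
  exact hq.nonsq _ h2

end

end SpW
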