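import Pool.Agent.Work.MP_3615d2_al.A9P
import Pool.Agent.Work.MP_3615d2_al.A9V
import Pool.Agent.Work.MP_3615d2_al.A9C
import Pool.Agent.Work.MP_3615d2_al.BlockKill

/-!
MP_3615d2_al, A9: the identity (5.2) of note 6449.
-/

set_option linter.unusedSectionVars false

open MeasureTheory Metric Set
open scoped NNReal Quaternion
open QuaternionAlgebra Polynomial

namespace SpW

section

variable {F E : Type} [NontriviallyNormedField F] [IsUltrametricDist F] [ProperSpace F]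
  [NontriviallyNormedField E] [NormedAlgebra F E] [IsUltrametricDist E] [ProperSpace E]
  [MeasurableSpace E] [BorelSpace E]
  {σ : E ≃ₐ[F] E} {δ : E} {d : F} {N : ℕ} {H : Matrix (Fin N) (Fin N) E}
  {S : Type} [AddCommGroup S] [Module ℂ S]
  {ψ : AddChar F Circle} {μ : Eˣ →* ℂˣ}
  {ρ : (Fin N → E) → Module.End ℂ S} {ω : unitary σ H →* Module.End ℂ S}

open LemI Blk in
/-- **A9**: the identity (5.2) of note 6449. -/
theorem starForm (hq : QuadDatum σ δ d) (hH : IsSkew σ H) (hψ : Continuous ψ) (hψ1 : ψ ≠ 1)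
    (hμ : ConjSymplectic F μ) (hW : IsWeil σ H ψ μ ρ ω) (B : Alt N E) {p : F[X]} {n : ℕ}
    {x : Fin N → E} (hx : IsBlock σ H B.1 p n x) {l : ℕ} (hn : n = 2 * l + 1)
    (hK : ¬ ∃ z : AdjoinRoot p, z * z = algebraMap F (AdjoinRoot p) d)
    (ht : ∀ z₀ z₁ : AdjoinRoot p,
        AdjoinRoot.root p ≠ z₀ ^ 2 - algebraMap F (AdjoinRoot p) d * z₁ ^ 2)
    {s : RR p n →ₗ[F] F} (hs1 : ∀ r, (∀ r', s (r * r') = 0) → r = 0)
    (hs2 : ∀ a b : DD d p n, sympl F σ H (blk σ H B.1 δ p n x a) (blk σ H B.1 δ p n x b) =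
      s (2 * ((⟨0, 1, 0, 0⟩ : DD d p n) * a * star b).re))
    {m' : S →ₗ[ℂ] ℂ}
    (hall : ∀ (u : DD d p n) (g : unitary σ H), u * star u = 1 →
      IsBlkElt σ H B.1 δ p n x u g → ∀ v, m' (ω g v) = m' v)
    (hinv : ∀ (a : DD d p n) (v : S),
      m' (ρ (blk σ H B.1 δ p n x (AdjoinRoot.mk (p ^ n) p ^ (l + 1) • a)) v) = m' v) :
    ∃ h : unitary σ H, ∀ v : S, ∃ v1 : S,
      StarForm s (AdjoinRoot.mk (p ^ n) p) l (Blk.red p hx.pos) ψ (omF F μ)
        (fun w : DD d p n =>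
          m' (ρ (blk σ H B.1 δ p n x (AdjoinRoot.mk (p ^ n) p ^ l • w)) v1)) (m' (ω h v)) := by
  have iE : FiniteDimensional F E := hq.finite
  have iX : FiniteDimensional F (Fin N → E) := inferInstance
  have iP : ProperSpace (Fin N → E) := inferInstance
  have iRR : FiniteDimensional F (RR p n) := Blk.finite_RR hx.irr
  obtain ⟨h, K₂, hK₂, hcay⟩ := exists_cayley hq hH hμ B hx hn hK ht
  obtain ⟨κ, hκ⟩ := hW.normalised
  have hκ0 : κ ≠ 0 := kappa_ne hq hW κ hκ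
  -- the block
  have hd0 : d ≠ 0 := hq.d_ne
  have hd : IsUnit (algebraMap F (RR p n) d) := (IsUnit.mk0 _ hd0).map _
  have hroot := isUnit_root hq hH B.2.2 hx
  have h2 : IsUnit (2 : RR p n) := by
    have : (2 : RR p n) = algebraMap F (RR p n) 2 := (map_ofNat (algebraMap F (RR p n)) 2).symm
    rw [this]
    exact (IsUnit.mk0 _ hq.two).map _
  have hch := Blk.chain_RR hx.irr hx.pos hs1
  set π : RR p n := AdjoinRoot.mk (p ^ n) p with hπ
  let B₀ : (Fin N → E) →ₗ[F] (Fin N → E) →ₗ[F] F := symplB F σ H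
  have hB₀ : ∀ w w', B₀ w w' = sympl F σ H w w' := fun w w' => rfl
  let ι : DD d p n →ₗ[F] (Fin N → E) := blkL δ d hx.kill
  have hι0 : ∀ a, ι a = blk σ H B.1 δ p n x a := fun a => rfl
  have hι : ∀ a b, B₀ (ι a) (ι b) = frm s a b := hs2
  have hswap : ∀ w w', B₀ w w' = - B₀ w' w := fun w w' => sympl_swap hq hH w' w
  have halt : ∀ w, B₀ w w = 0 := fun w => sympl_self hq hH w
  have hBnd : ∀ w, (∀ x, B₀ w x = 0) → w = 0 := fun w hw => sympl_nondeg hq hH hw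
  have hdiv := Blk.hdiv_of hx.irr hx.pos hK ht
  let Wp := perpW B₀ ι
  have iWP : ProperSpace Wp := FiniteDimensional.proper F Wp
  let νp : Measure Wp := Measure.addHaar
  refine ⟨h, fun v => ?_⟩
  have hdec : ∀ w, ∃ a z, z ∈ perpW B₀ ι ∧ w = ι a + z := by
    intro w
    obtain ⟨a, ha⟩ := exists_dec hch h2 hd hroot hι w
    exact ⟨a, w - ι a, ha, by abel⟩
  have hp1 : ∀ a z, z ∈ perpW B₀ ι → B₀ (ι a) z = 0 := fun a z hz => hz a
  have hp2 : ∀ a z, z ∈ perpW B₀ ι → B₀ z (ι a) = 0 := fun a z hz => by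
    rw [hswap, hz a, neg_zero]
  -- the vector `v1`
  let Bp : Wp →ₗ[F] Wp →ₗ[F] F := (B₀.comp Wp.subtype).compl₂ Wp.subtype
  have hBp : ∀ z z' : Wp, Bp z z' = B₀ z z' := fun z z' => rfl
  have hnd : ∀ w : Wp, (∀ x, Bp w x = 0) → w = 0 := by
    intro w hw
    apply Subtype.ext
    refine hBnd _ fun w' => ?_
    obtain ⟨a, z, hz, rfl⟩ := hdec w'
    rw [map_add, hp2 _ _ w.2, zero_add]
    exact hw ⟨z, hz⟩
  obtain ⟨v1, R₁, hv1⟩ := exists_v1 νp hψ hψ1 hq.two Bp hnd (fun z => ρ (z : Fin N → E))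
    (fun z z' => hW.rho_mul _ _) v (by
      have h3 : Filter.Tendsto (fun z : Wp => (z : Fin N → E)) (nhds 0) (nhds 0) :=
        continuous_subtype_val.tendsto 0
      exact h3.eventually (hW.rho_smooth v))
  refine ⟨v1, ?_⟩
  intro V _ _ _ _ _ _ ν _ j hj
  have iV : ProperSpace V := FiniteDimensional.proper F V
  obtain ⟨k, y, s', hli, hsp, hs'⟩ := exists_basis (B := B₀) hBnd ι (l + 1) (π := π)
  have hID := block_idat hch h2 hd hroot halt hswap hBnd hι hn hli hsp hs' hj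
  have iνν : (ν.prod νp).IsAddHaarMeasure := inferInstance
  have iVW : IsUltrametricDist (V × Wp) := ultra_prod V Wp
  obtain ⟨C, hC, hI⟩ := lemI (ν.prod νp) (Measure.addHaar : Measure (Fin N → E)) hID hψ hψ1 hq.two
  refine ⟨(κ * K₂ * (C : ℂ))⁻¹, ?_, ?_⟩
  · have : (C : ℂ) ≠ 0 := by exact_mod_cast hC.ne'
    exact inv_ne_zero (mul_ne_zero (mul_ne_zero hκ0 hK₂) this)
  intro c hc
  -- the norm of `1 + c` is a unit
  have hνc : IsUnit (nm (1 + c)) := by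
    by_contra hcc
    obtain ⟨w, hw⟩ := hdiv _ hcc
    have := congrArg QuaternionAlgebra.re hw
    simp only [re_add, re_one, hc, add_zero, re_smul, smul_eq_mul] at this
    exact hch.not_unit_mul w.re (by rw [← hπ] at this; rw [← this]; exact isUnit_one)
  have hνeq : nm (1 + c) = 1 - (c * c).re := by
    rw [nm_one_add_pure hc, nm_apply]
    simp only [re_mul, hc]
    ring
  set x₀ : F := Algebra.norm F (Blk.red p hx.pos (1 - (c * c).re)) with hx₀
  have hx₀0 : x₀ ≠ 0 := by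
    rw [hx₀, ← hνeq]
    exact ((hνc.map (Blk.red p hx.pos)).map (Algebra.norm F)).ne_zero
  obtain ⟨u, g, dd, hu, hg, hdd, hca, hcp, hconst⟩ := hcay c hc
  rw [← hx₀] at hconst
  let cl : (Fin N → E) →ₗ[F] (Fin N → E) :=
    { toFun := fun w => (cayley (umat (g * h))).mulVec w
      map_add' := fun w w' => Matrix.mulVec_add _ _ _
      map_smul' := fun a w => mulVec_fsmul _ a w }
  have hcl0 : ∀ w, cl w = (cayley (umat (g * h))).mulVec w := fun w => rfl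
  have hcl : ∀ a, cl (ι a) = ι (a * c) := hca
  have hclp : ∀ z ∈ perpW B₀ ι, cl z = 0 := fun z hz => hcp z (fun a => blk_perp hq hx.kill hz a)
  obtain ⟨t1, t2, t3, T, pr, t4, t5, t6, t7⟩ :=
    block_T hch h2 hd hroot hswap hι hn hsp hs' hc hνc hcl hclp
  have hdetT : LinearMap.det (T : (Fin k → F) →ₗ[F] (Fin k → F)) = x₀ ^ (2 * l) := by
    have h3 := Dets.det_quot hx.irr.ne_zero hx.pos (show l ≤ n by omega) pr t5 t6 (1 + c)
      (T : (Fin k → F) →ₗ[F] (Fin k → F)) t7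
    rw [h3, hνeq]
  -- the function `Φ`
  set Φ : (Fin N → E) → ℂ := fun w => m' (ρ w v) with hΦ
  obtain ⟨ε, hε, hεv⟩ : ∃ ε > 0, ∀ w, ‖w‖ ≤ ε → ρ w v = v := by
    obtain ⟨η, hη, h1⟩ := Metric.eventually_nhds_iff.1 (hW.rho_smooth v)
    refine ⟨η / 2, by positivity, fun w hw => h1 ?_⟩
    rw [dist_zero_right]
    linarith
  have hρ : ∀ w w', ρ w * ρ w' = ((ψ ((2 : F)⁻¹ * B₀ w w') : Circle) : ℂ) • ρ (w + w') :=
    hW.rho_mul
  have hΦ1 : ∀ w x, ‖x‖ ≤ ε → Φ (w + x) = ((ψ (-(2⁻¹ * B₀ w x)) : Circle) : ℂ) * Φ w :=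
    fun w x hx => phi_small hρ m' v w x (hεv x hx)
  have hY : ∀ (w : Fin N → E), w ∈ lay ι π (l + 1) → ∀ v', m' (ρ w v') = m' v' := by
    rintro _ ⟨a, rfl⟩ v'
    exact hinv a v'
  have hΦ2 : ∀ (w : Fin N → E) (a : Fin k → F), Φ (w + ∑ i, a i • y i) =
      ((ψ (2⁻¹ * B₀ w (∑ i, a i • y i)) : Circle) : ℂ) * Φ w := by
    intro w a
    have hmem : ∑ i, a i • y i ∈ lay ι π (l + 1) := by
      rw [← hsp]
      exact Submodule.sum_mem _ fun i _ =>
        Submodule.smul_mem _ _ (Submodule.subset_span ⟨i, rfl⟩)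
    exact phi_inv hswap hρ m' v w _ (hY _ hmem)
  obtain ⟨R₀, hR₀⟩ := hI cl T Φ ε hε t1 t2 t3 t4 hΦ1 hΦ2
  -- the normalisation
  obtain ⟨r₀, hr₀, hr₁⟩ := ((Filter.eventually_ge_atTop R₀).and (hκ (g * h) dd hdd v m')).exists
  filter_upwards [Filter.eventually_ge_atTop (max R₀ R₁)] with R hR
  have e1 := hR₀ r₀ R hr₀ ((le_max_left _ _).trans hR)
  -- the integral over the orthogonal complement
  have e2 := perp_int (π := π) hψ hρ m' v hε hεv hcl hclp ν νp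
    (fun ξ => hv1 ξ R ((le_max_right _ _).trans hR)) l j
  have e7 : m' (ω h v) = m' (ω (g * h) v) := by
    rw [map_mul, Module.End.mul_apply, hall u g hu hg]
  have e8 : ∫ w in closedBall (0 : Fin N → E) r₀,
      ((ψ ((4 : F)⁻¹ * sympl F σ H ((cayley (umat (g * h))).mulVec w) w) : Circle) : ℂ) *
        m' (ρ w v) ∂Measure.addHaar = _ := e1
  rw [e8, e2, mul_assoc κ, hconst, hdetT, md_pow] at hr₁
  rw [← e7] at hr₁
  have ho : omF F μ x₀ * omF F μ x₀ = 1 := by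
    by_cases hnm : ∃ y : E, Algebra.norm F y = x₀
    · rw [omF_norm hμ hx₀0 hnm, mul_one]
    · rw [omF_nonnorm hμ hx₀0 hnm]
      norm_num
  set I : ℂ := ∫ x' in closedBall (0 : V) R,
        ((ψ ((4 : F)⁻¹ * B₀ (ι (π ^ l • (j x' * c))) (ι (π ^ l • j x'))) : Circle) : ℂ) *
        m' (ρ (ι (π ^ l • j x')) v1) ∂ν with hI'
  have e10 : ∫ x' in closedBall (0 : V) R,
        ((ψ ((4 : F)⁻¹ * s (2 * (SpW.qi (algebraMap F (RR p n) d) (AdjoinRoot.root (p ^ n)) *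
          (π ^ l • (j x' * c)) * star (π ^ l • j x')).re)) : Circle) : ℂ) *
        m' (ρ (blk σ H B.1 δ p n x (π ^ l • j x')) v1) ∂ν = I := by
    refine integral_congr_ae (Filter.Eventually.of_forall fun x' => ?_)
    have e11 : B₀ (ι (π ^ l • (j x' * c))) (ι (π ^ l • j x')) =
        s (2 * (SpW.qi (algebraMap F (RR p n) d) (AdjoinRoot.root (p ^ n)) *
          (π ^ l • (j x' * c)) * star (π ^ l • j x')).re) := hs2 _ _
    simp only
    rw [e11]
    rfl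
  set o := omF F μ x₀ with ho'
  have hM : (((md x₀ : ℝ≥0) : ℝ) : ℂ) ≠ 0 := by
    have := (md_pos hx₀0).ne'
    exact_mod_cast this
  have hCC : (C : ℂ) ≠ 0 := by exact_mod_cast hC.ne'
  have e9 : m' (ω h v) = κ * K₂ * C * o * (((md x₀ : ℝ≥0) : ℝ) : ℂ) * I := by
    rw [hr₁, hn]
    push_cast
    rw [pow_succ]
    field_simp
  refine e10.trans ?_
  rw [e9]
  field_simp
  rw [sq, ho, mul_one]

/-- A9 for a functional invariant under the elements of norm one of the block. -/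
theorem a9_of_inv (hq : QuadDatum σ δ d) (hH : IsSkew σ H) (hμ : ConjSymplectic F μ)
    (hψ : Continuous ψ) (hψ1 : ψ ≠ 1)
    (hW : IsWeil σ H ψ μ ρ ω) (B : Alt N E) {p : F[X]} {n : ℕ} {x : Fin N → E}
    (hx : IsBlock σ H B.1 p n x)
    (hK : ¬ ∃ z : AdjoinRoot p, z * z = algebraMap F (AdjoinRoot p) d)
    {m' : S →ₗ[ℂ] ℂ}
    (hm : ∀ (u : DD d p n) (g : unitary σ H), u * star u = 1 → PowBdd F u →
      IsBlkElt σ H B.1 δ p n x u g → ∀ v, m' (ω g v) = m' v) :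
    A9 δ d B ψ μ ρ ω hx m' := fun _ hn ht _ hs1 hs2 =>
  starForm hq hH hψ hψ1 hμ hW B hx hn hK ht hs1 hs2
    (fun u g hu hg v => blk_div_all B hx hK ht hm u g hu hg v)
    (fun a v => blk_div_inv hq hH hψ hψ1 hW B hx hn hK ht hm a v)

/-- **(C)** of note 6449: a functional which is invariant under the block is zero. -/
theorem block_kill (hq : QuadDatum σ δ d) (hH : IsSkew σ H) (hμ : ConjSymplectic F μ)
    (hψ : Continuous ψ) (hψ1 : ψ ≠ 1)
    (hW : IsWeil σ H ψ μ ρ ω) (B : Alt N E) {p : F[X]} {n : ℕ} {x : Fin N → E}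
    (hx : IsBlock σ H B.1 p n x) (hn : Odd n)
    (hK : ¬ ∃ z : AdjoinRoot p, z * z = algebraMap F (AdjoinRoot p) d)
    {m' : S →ₗ[ℂ] ℂ}
    (hm : ∀ (u : DD d p n) (g : unitary σ H), u * star u = 1 → PowBdd F u →
      IsBlkElt σ H B.1 δ p n x u g → ∀ v, m' (ω g v) = m' v) : m' = 0 :=
  block_kill_of hq hH hμ hψ hψ1 hW B hx hn hK hm
    (a9_of_inv hq hH hμ hψ hψ1 hW B hx hK hm)

end

end SpW
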