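import Pool.Agent.Work.MP_3615d2_al.BlkAct

/-!
# Division block: invariance under `ρ(π^j D)`, `j = n, …, l + 1` (note 6449, (5.1))
-/

set_option linter.unusedSectionVars false

open scoped Quaternion
open QuaternionAlgebra

namespace SpW.Blk

section cay

variable {F R : Type} [Field F] [CommRing R] [Algebra F R] {d t : R} {s : R →ₗ[F] F} {π : R}
  {n : ℕ}

theorem mul_star_smul (x : ℍ[R, d, t]) : x * star x = nm x • (1 : ℍ[R, d, t]) := by
  rw [mul_star_eq, ← coe_mul_eq_smul, mul_one]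

theorem star_mul_smul (x : ℍ[R, d, t]) : star x * x = nm x • (1 : ℍ[R, d, t]) := by
  rw [star_mul_eq, ← coe_mul_eq_smul, mul_one]

/-- `x / x̄` for `x` of norm `ν`. -/
def cay (ν : Rˣ) (x : ℍ[R, d, t]) : ℍ[R, d, t] := ((ν⁻¹ : Rˣ) : R) • (x * x)

theorem star_cay (ν : Rˣ) (x : ℍ[R, d, t]) : star (cay ν x) = cay ν (star x) := by
  simp [cay, QuaternionAlgebra.star_smul]

theorem cay_mul_star {ν : Rˣ} {x : ℍ[R, d, t]} (h : (ν : R) = nm x) :
    cay ν x * star (cay ν x) = 1 := by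
  have h1 : x * x * (star x * star x) = (nm x * nm x) • (1 : ℍ[R, d, t]) := by
    rw [mul_assoc, ← mul_assoc x (star x) (star x), mul_star_smul, smul_mul_assoc, one_mul,
      mul_smul_comm, mul_star_smul, smul_smul]
  rw [star_cay, cay, cay, smul_mul_smul_comm, h1, smul_smul, ← h]
  rw [show ((ν⁻¹ : Rˣ) : R) * ((ν⁻¹ : Rˣ) : R) * ((ν : R) * (ν : R)) =
    (((ν⁻¹ : Rˣ) : R) * (ν : R)) * (((ν⁻¹ : Rˣ) : R) * (ν : R)) by ring]
  simp

theorem star_of_pure {c : ℍ[R, d, t]} (hc : c.re = 0) : star c = -c := by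
  ext <;> simp [hc]

theorem cay_sub_one {ν : Rˣ} {c : ℍ[R, d, t]} (hc : c.re = 0) (h : (ν : R) = nm (1 + c)) :
    cay ν (1 + c) - 1 = ((ν⁻¹ : Rˣ) : R) • ((1 + c) * ((2 : R) • c)) := by
  have h1 : (1 : ℍ[R, d, t]) = ((ν⁻¹ : Rˣ) : R) • ((1 + c) * star (1 + c)) := by
    rw [mul_star_smul, smul_smul, ← h]
    simp
  have h2 : star (1 + c) = 1 - c := by
    rw [star_add, star_one, star_of_pure hc]
    abel
  rw [h2] at h1
  calc cay ν (1 + c) - 1 = ((ν⁻¹ : Rˣ) : R) • ((1 + c) * (1 + c))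
        - ((ν⁻¹ : Rˣ) : R) • ((1 + c) * (1 - c)) := by
        rw [← h1]
        rfl
    _ = _ := by
        rw [← smul_sub, ← mul_sub, two_smul]
        congr 2
        abel

theorem nm_one_add_pure {c : ℍ[R, d, t]} (hc : c.re = 0) : nm (1 + c) = 1 + nm c := by
  rw [nm_apply, nm_apply]
  simp only [re_add, imI_add, imJ_add, imK_add, re_one, imI_one, imJ_one, imK_one, hc]
  ring

/-- In the conjugate `h̄ z h` of a pure quaternion, `h = x / x̄`, `x = 1 + c`. -/
theorem conj_sub {ν : Rˣ} {x z : ℍ[R, d, t]} (h : (ν : R) = nm x) :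
    star (cay ν x) * z * cay ν x - z = star (cay ν x) * (z * cay ν x - cay ν x * z) := by
  have h1 : star (cay ν x) * cay ν x = 1 := by
    have := cay_mul_star h
    rw [mul_star_smul] at this
    rw [star_mul_smul, this]
  rw [mul_sub, ← mul_assoc (star (cay ν x)) (cay ν x) z, h1, one_mul, mul_assoc]

/-- Multiplication by an element with unit norm preserves non divisibility by `π`. -/
theorem not_dvd_mul {x y : ℍ[R, d, t]} (hx : IsUnit (nm x)) (hy : ∀ z, y ≠ π • z) :
    ∀ z, x * y ≠ π • z := by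
  intro z hz
  obtain ⟨ν, hν⟩ := hx
  apply hy (((ν⁻¹ : Rˣ) : R) • (star x * z))
  have h1 : star x * (x * y) = (ν : R) • y := by
    rw [← mul_assoc, star_mul_smul, smul_mul_assoc, one_mul, hν]
  rw [hz, mul_smul_comm] at h1
  have h2 : y = ((ν⁻¹ : Rˣ) : R) • ((ν : R) • y) := by
    rw [smul_smul]
    simp
  rw [h2, ← h1, smul_comm]

theorem not_dvd_mul_right {x y : ℍ[R, d, t]} (hx : IsUnit (nm x)) (hy : ∀ z, y ≠ π • z) :
    ∀ z, y * x ≠ π • z := by
  intro z hz
  have h1 : IsUnit (nm (star x)) := by rwa [nm_star]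
  have h2 : ∀ z, star y ≠ π • z := by
    intro z hz
    apply hy (star z)
    rw [← QuaternionAlgebra.star_smul, ← hz, star_star]
  apply not_dvd_mul h1 h2 (star z)
  rw [← star_mul, hz, QuaternionAlgebra.star_smul]

/-- Noncommutation modulo `π`: `h` does not commute with `z` modulo `π` if `c` does not. -/
theorem comm_cay {ν : Rˣ} {c z : ℍ[R, d, t]} (hc : c.re = 0) (h2 : IsUnit (2 : R))
    (hz : ∀ y, z * c - c * z ≠ π • y) :
    ∀ y, z * cay ν (1 + c) - cay ν (1 + c) * z ≠ π • y := by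
  intro y hy
  obtain ⟨τ, hτ⟩ := h2
  have hcc : c * c = (-(nm c)) • (1 : ℍ[R, d, t]) := by
    have := mul_star_smul c
    rw [star_of_pure hc, mul_neg] at this
    rw [neg_smul, ← this, neg_neg]
  have h1 : (1 + c) * (1 + c) = (1 + -(nm c)) • (1 : ℍ[R, d, t]) + (2 : R) • c := by
    rw [add_smul, ← hcc, one_smul, two_smul]
    noncomm_ring
  have h3 : z * cay ν (1 + c) - cay ν (1 + c) * z =
      (((ν⁻¹ : Rˣ) : R) * (τ : R)) • (z * c - c * z) := by
    rw [cay, h1, hτ]
    simp only [mul_smul_comm, smul_mul_assoc, mul_add, add_mul, mul_one, one_mul, smul_add,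
      smul_smul, smul_sub]
    abel
  apply hz ((((τ⁻¹ : Rˣ) : R) * (ν : R)) • y)
  rw [smul_comm, ← hy, h3, smul_smul]
  rw [show ((τ⁻¹ : Rˣ) : R) * (ν : R) * (((ν⁻¹ : Rˣ) : R) * (τ : R)) =
    (((τ⁻¹ : Rˣ) : R) * (τ : R)) * (((ν⁻¹ : Rˣ) : R) * (ν : R)) by ring]
  simp

/-- A pure quaternion which is not divisible by `π` does not commute modulo `π` with `i` or with
`j`. -/
theorem Chain.comm_ij (h : Chain F R s π n) (h2 : IsUnit (2 : R)) (hd : IsUnit d)
    {z : ℍ[R, d, t]} (hz0 : z.re = 0) (hz : ∀ y, z ≠ π • y) :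
    (∀ y, z * qi - qi * z ≠ π • y) ∨ ∀ y, z * qj - qj * z ≠ π • y := by
  have hnu : ∀ (u : R) (a b : R), IsUnit u → IsUnit a → u * a ≠ π * b := by
    intro u a b hu ha he
    exact h.not_unit_mul b (he ▸ hu.mul ha)
  rcases h.exists_unit_coord hz with h1 | h1 | h1 | h1
  · exfalso
    rw [hz0] at h1
    exact h.not_unit_mul 0 (by simpa using h1)
  · right
    intro y hy
    have := congrArg QuaternionAlgebra.imK hy
    simp only [qj, imK_sub, imK_mul, imK_smul, smul_eq_mul] at this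
    exact hnu 2 z.imI _ h2 h1 (by rw [← this]; ring)
  · left
    intro y hy
    have := congrArg QuaternionAlgebra.imK hy
    simp only [qi, imK_sub, imK_mul, imK_smul, smul_eq_mul] at this
    exact hnu (-2) z.imJ _ h2.neg h1 (by rw [← this]; ring)
  · left
    intro y hy
    have := congrArg QuaternionAlgebra.imJ hy
    simp only [qi, imJ_sub, imJ_mul, imJ_smul, smul_eq_mul] at this
    exact hnu (-2 * d) z.imK _ (h2.neg.mul hd) h1 (by rw [← this]; ring)

/-- A pure quaternion which is not divisible by `π` pairs nontrivially. -/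
theorem Chain.exists_pair (h : Chain F R s π n) (hd : IsUnit d) (ht : IsUnit t)
    {z : ℍ[R, d, t]} (hz0 : z.re = 0) (hz : ∀ y, z ≠ π • y) {k : ℕ} (hk : k < n) :
    ∃ c : ℍ[R, d, t], c.re = 0 ∧ s (π ^ k * (z * c).re) ≠ 0 := by
  rcases h.exists_unit_coord hz with h1 | h1 | h1 | h1
  · exfalso
    rw [hz0] at h1
    exact h.not_unit_mul 0 (by simpa using h1)
  · obtain ⟨r, hr⟩ := h.exists_s_ne (h.unit_smul_ne (hd.mul h1) hk)
    refine ⟨⟨0, r, 0, 0⟩, rfl, ?_⟩
    convert hr using 2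
    simp only [re_mul]
    ring
  · obtain ⟨r, hr⟩ := h.exists_s_ne (h.unit_smul_ne (ht.mul h1) hk)
    refine ⟨⟨0, 0, r, 0⟩, rfl, ?_⟩
    convert hr using 2
    simp only [re_mul]
    ring
  · obtain ⟨r, hr⟩ := h.exists_s_ne (h.unit_smul_ne ((hd.mul ht).neg.mul h1) hk)
    refine ⟨⟨0, 0, 0, r⟩, rfl, ?_⟩
    convert hr using 2
    simp only [re_mul]
    ring

end cay

section main

variable {F R V S : Type} [Field F] [CommRing R] [Algebra F R] [AddCommGroup V] [Module F V]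
  [AddCommGroup S] [Module ℂ S] {d t : R} {s : R →ₗ[F] F} {π : R} {n : ℕ}

/-- The submodule `ι (π ^ k D)`. -/
noncomputable def lay (ι : ℍ[R, d, t] →ₗ[F] V) (π : R) (k : ℕ) : Submodule F V where
  carrier := {v | ∃ a, ι (π ^ k • a) = v}
  add_mem' := by
    rintro _ _ ⟨a, rfl⟩ ⟨b, rfl⟩
    exact ⟨a + b, by rw [smul_add, map_add]⟩
  zero_mem' := ⟨0, by simp⟩
  smul_mem' := by
    rintro c _ ⟨a, rfl⟩
    exact ⟨c • a, by rw [smul_comm, map_smul]⟩

theorem frm_neg_symm (x y : ℍ[R, d, t]) : frm s x y = - frm s y x := by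
  rw [frm_apply, frm_apply, ← map_neg]
  congr 1
  ring

theorem frm_smul_left (k : ℕ) (x y : ℍ[R, d, t]) :
    frm s (π ^ k • x) y = frm s x (π ^ k • y) := frm_smul _ _ _

/-- A vector orthogonal to `ι (π ^ k D)` has component killed by `π ^ k`. -/
theorem Chain.perp_lay (h : Chain F R s π n) (h2 : IsUnit (2 : R)) (hd : IsUnit d)
    (ht : IsUnit t) {B : V →ₗ[F] V →ₗ[F] F} {ι : ℍ[R, d, t] →ₗ[F] V}
    (hι : ∀ x y, B (ι x) (ι y) = frm s x y) {ξ : V} {a : ℍ[R, d, t]}
    (ha : ∀ b, B (ι b) (ξ - ι a) = 0) {k : ℕ} :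
    (∀ y ∈ lay ι π k, B y ξ = 0) ↔ π ^ k • a = 0 := by
  have hB : ∀ b, B (ι b) ξ = frm s b a := by
    intro b
    have := ha b
    rw [map_sub, sub_eq_zero, hι] at this
    exact this
  constructor
  · intro H
    refine h.frm_nondeg h2 hd ht fun b => ?_
    rw [← frm_smul_left, ← hB]
    exact H _ ⟨b, rfl⟩
  · rintro H _ ⟨b, rfl⟩
    rw [hB, frm_smul_left, H, frm_apply]
    simp

/-- One step. -/
theorem Chain.div_step [FiniteDimensional F R] (h : Chain F R s π n) (hF2 : (2 : F) ≠ 0)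
    (h2 : IsUnit (2 : R)) (hd : IsUnit d) (ht : IsUnit t)
    (hdiv : ∀ x : ℍ[R, d, t], ¬ IsUnit (nm x) → ∃ y, x = π • y)
    {B : V →ₗ[F] V →ₗ[F] F} (halt : ∀ w w', B w w' = - B w' w) {ψ : AddChar F Circle}
    (hψ : ψ ≠ 1) {ρ : V → Module.End ℂ S} {μ' : S →ₗ[ℂ] ℂ}
    {UU : Set ((V ≃ₗ[F] V) × (S ≃ₗ[ℂ] S))} (hLV : LV B ψ ρ μ' UU) {ι : ℍ[R, d, t] →ₗ[F] V}
    (hι : ∀ x y, B (ι x) (ι y) = frm s x y)
    (hU : ∀ u : ℍ[R, d, t], u * star u = 1 → ∃ p ∈ UU, IsAct B ι u p.1) {l j : ℕ}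
    (hn : n = 2 * l + 1) (hlj : l + 1 ≤ j) (hjn : j < n)
    (hinv : ∀ a v, μ' (ρ (ι (π ^ (j + 1) • a)) v) = μ' v) :
    ∀ a v, μ' (ρ (ι (π ^ j • a)) v) = μ' v := by
  intro a₀ v₀
  have hlayle : lay ι π (j + 1) ≤ lay ι π j := by
    rintro _ ⟨a, rfl⟩
    exact ⟨π • a, by rw [smul_smul, pow_succ]⟩
  -- orthogonality relations
  have hperp : ∀ {w : V} {a : ℍ[R, d, t]}, (∀ b, B (ι b) (w - ι a) = 0) → ∀ k,
      ((∀ y ∈ lay ι π k, B w y = 0) ↔ π ^ k • a = 0) := by
    intro w a ha k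
    rw [← h.perp_lay h2 hd ht hι ha]
    constructor
    · intro H y hy
      rw [halt, H y hy, neg_zero]
    · intro H y hy
      rw [halt, H y hy, neg_zero]
  let Z : Submodule F V :=
    { carrier := {w | ∀ y ∈ lay ι π j, B w y = 0}
      add_mem' := by
        intro w w' hw hw' y hy
        rw [map_add, LinearMap.add_apply, hw y hy, hw' y hy, add_zero]
      zero_mem' := by
        intro y _
        simp
      smul_mem' := by
        intro c w hw y hy
        rw [map_smul, LinearMap.smul_apply, hw y hy, smul_zero] }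
  refine hLV (lay ι π (j + 1)) (lay ι π j) Z hlayle ?_ (fun w hw => hw) ?_ ?_ _ ⟨a₀, rfl⟩ ?_ v₀
  · -- isotropic
    rintro _ ⟨a, rfl⟩ _ ⟨b, rfl⟩
    rw [hι, frm_smul_left, smul_smul, ← pow_add, smul_pow_eq_zero h b (by omega), frm_apply]
    simp
  · rintro _ ⟨a, rfl⟩ v
    exact hinv a v
  · intro ξ hξ1 hξ2
    obtain ⟨a, ha⟩ := exists_dec h h2 hd ht hι ξ
    have e1 : π ^ (j + 1) • a = 0 := (hperp ha _).1 hξ1
    have e2 : π ^ j • a ≠ 0 := by
      intro h0
      exact hξ2 ((hperp ha j).2 h0)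
    have ha0 : a ≠ 0 := by
      rintro rfl
      exact e2 (smul_zero _)
    obtain ⟨m, a', ham, hnd⟩ := h.exists_pow_smul ha0
    have hm1 : j + m < n := by
      by_contra hc
      push Not at hc
      apply e2
      rw [ham, smul_smul, ← pow_add, smul_pow_eq_zero h a' hc]
    have hm2 : n ≤ j + 1 + m := by
      by_contra hc
      push Not at hc
      apply h.pow_smul_ne hnd hc
      rw [pow_add, ← smul_smul, ← ham, e1]
    -- the pure quaternion z
    have hna : IsUnit (nm a') := by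
      by_contra hc
      obtain ⟨y, hy⟩ := hdiv a' hc
      exact hnd y hy
    let z : ℍ[R, d, t] := star a' * qi * a'
    have hz0 : z.re = 0 := by
      simp only [z, qi, re_mul, imI_mul, imJ_mul, imK_mul, re_star, imI_star, imJ_star, imK_star]
      ring
    have hzu : IsUnit (nm z) := by
      simp only [z, nm_mul, nm_star, nm_qi]
      exact (hna.mul hd.neg).mul hna
    have hznd : ∀ y, z ≠ π • y := by
      intro y hy
      rw [hy, nm_smul] at hzu
      exact h.not_unit_mul (π * nm y) (by rwa [← mul_assoc, ← sq])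
    -- the element c not commuting with z
    obtain ⟨c, hc0, hcnd⟩ : ∃ c : ℍ[R, d, t], c.re = 0 ∧ ∀ y, z * c - c * z ≠ π • y := by
      rcases h.comm_ij h2 hd hz0 hznd with h1 | h1
      · exact ⟨qi, rfl, h1⟩
      · exact ⟨qj, rfl, h1⟩
    have hνc : IsUnit (nm (1 + c)) := by
      by_contra hcc
      obtain ⟨y, hy⟩ := hdiv _ hcc
      have := congrArg QuaternionAlgebra.re hy
      simp only [re_add, re_one, hc0, add_zero, re_smul, smul_eq_mul] at this
      exact h.not_unit_mul y.re (by rw [← this]; exact isUnit_one)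
    obtain ⟨ν, hν⟩ := hνc
    let k₀ : ℍ[R, d, t] := cay ν (1 + c)
    have hk₀ : k₀ * star k₀ = 1 := cay_mul_star hν
    have hk₀' : star k₀ * k₀ = 1 := by
      rw [mul_star_smul] at hk₀
      rw [star_mul_smul, hk₀]
    have hnk₀ : IsUnit (nm (star k₀)) := by
      have h1 : nm (k₀ * star k₀) = 1 := by rw [hk₀, nm_one]
      rw [nm_mul] at h1
      exact IsUnit.of_mul_eq_one _ (by rwa [mul_comm] at h1)
    have hdiff : ∀ y, star k₀ * z * k₀ - z ≠ π • y := by
      intro y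
      rw [conj_sub hν]
      exact not_dvd_mul hnk₀ (comm_cay hc0 h2 hcnd) y
    have hdiff0 : (star k₀ * z * k₀ - z).re = 0 := by
      have e3 : (star k₀ * z * k₀).re = nm k₀ * z.re := by
        simp only [nm_apply, re_mul, imI_mul, imJ_mul, imK_mul, re_star, imI_star, imJ_star,
          imK_star]
        ring
      rw [re_sub, e3, hz0]
      ring
    obtain ⟨c', hc'0, hc'⟩ := h.exists_pair hd ht hdiff0 hdiff (k := 2 * l) (by omega)
    -- the scalar f
    obtain ⟨x₀, hx₀⟩ : ∃ x₀, ψ x₀ ≠ 1 := by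
      by_contra hcc
      push Not at hcc
      exact hψ (by ext x; simp [hcc x])
    set D := s (π ^ (2 * l) * ((star k₀ * z * k₀ - z) * c').re) with hD
    let f : F := x₀ / (2 * D)
    obtain ⟨c₂, hc₂⟩ : ∃ c₂ : ℍ[R, d, t], c₂ = f • c' := ⟨_, rfl⟩
    have hc₂0 : c₂.re = 0 := by rw [hc₂, re_smul, hc'0, smul_zero]
    let kk : ℕ := 2 * (j - l)
    have hkk : 1 ≤ kk := by simp only [kk]; omega
    let y₀ : ℍ[R, d, t] := π ^ kk • c₂
    have hy₀ : y₀.re = 0 := by simp [y₀, hc₂0]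
    have hνy : nm (1 + y₀) = 1 + π * (π ^ (2 * kk - 1) * nm c₂) := by
      rw [nm_one_add_pure hy₀]
      simp only [y₀, nm_smul, ← pow_mul]
      rw [← mul_assoc, ← pow_succ', show 2 * kk - 1 + 1 = kk * 2 by omega]
    have hνyu : IsUnit (nm (1 + y₀)) := by
      rw [hνy]
      exact h.unit_add isUnit_one _
    obtain ⟨ν', hν'⟩ := hνyu
    let u₀ : ℍ[R, d, t] := cay ν' (1 + y₀)
    have hu₀ : u₀ * star u₀ = 1 := cay_mul_star hν'
    have hu1 : u₀ - 1 = π ^ kk • (((ν'⁻¹ : Rˣ) : R) • ((1 + y₀) * ((2 : R) • c₂))) := by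
      rw [cay_sub_one hy₀ hν']
      simp only [y₀, smul_comm (2 : R) (π ^ kk), mul_smul_comm, smul_comm (((ν'⁻¹ : Rˣ) : R)) (π ^ kk)]
    have hunit : π ^ (2 * l) * ((ν'⁻¹ : Rˣ) : R) = π ^ (2 * l) := by
      have h1 : π ^ (2 * l) * (ν' : R) = π ^ (2 * l) := by
        rw [hν', hνy, mul_add, mul_one, ← mul_assoc, ← pow_succ, ← hn, h.nil, zero_mul, add_zero]
      calc π ^ (2 * l) * ((ν'⁻¹ : Rˣ) : R) = (π ^ (2 * l) * (ν' : R)) * ((ν'⁻¹ : Rˣ) : R) := by
            rw [h1]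
        _ = _ := by
            rw [mul_assoc]
            simp
    -- the value of the quadratic function at a point with component `π^m b`
    have hval : ∀ b : ℍ[R, d, t], s (2 * (star (π ^ m • b) * qi * (π ^ m • b) * (u₀ - 1)).re) =
        4 * f * s (π ^ (2 * l) * ((star b * qi * b) * c').re) := by
      intro b
      have e4 : (star (π ^ m • b) * qi * (π ^ m • b) * (u₀ - 1)).re =
          2 * (π ^ (2 * l) * ((star b * qi * b) * c₂).re) := by
        have e5 : star (π ^ m • b) * qi * (π ^ m • b) * (u₀ - 1) =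
            (π ^ (2 * l) * ((ν'⁻¹ : Rˣ) : R)) •
              ((star b * qi * b) * ((1 + y₀) * ((2 : R) • c₂))) := by
          have e50 : π ^ (2 * l) = π ^ m * π ^ m * π ^ kk := by
            rw [← pow_add, ← pow_add]
            congr 1
            simp only [kk]
            omega
          rw [hu1, QuaternionAlgebra.star_smul, e50]
          simp only [smul_mul_assoc, mul_smul_comm, smul_smul]
          congr 1
          ring
        rw [e5, hunit, re_smul, smul_eq_mul]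
        rw [add_mul, one_mul, mul_add, re_add, mul_add]
        have e6 : π ^ (2 * l) * ((star b * qi * b) * (y₀ * ((2 : R) • c₂))).re = 0 := by
          have e61 : (star b * qi * b) * (y₀ * ((2 : R) • c₂)) =
              π ^ kk • ((2 : R) • ((star b * qi * b) * (c₂ * c₂))) := by
            simp only [y₀, smul_mul_assoc, mul_smul_comm]
            rw [smul_comm]
          rw [e61, re_smul, smul_eq_mul, ← mul_assoc, ← pow_add, h.pow_eq_zero.2 (by omega),
            zero_mul]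
        rw [e6, add_zero, mul_smul_comm, re_smul, smul_eq_mul]
        ring
      rw [e4, hc₂]
      have e7 : (2 * (2 * (π ^ (2 * l) * ((star b * qi * b) * (f • c')).re)) : R) =
          (4 * f) • (π ^ (2 * l) * ((star b * qi * b) * c').re) := by
        rw [mul_smul_comm, re_smul, Algebra.smul_def, Algebra.smul_def, map_mul, map_ofNat]
        ring
      rw [e7, map_smul, smul_eq_mul]
    obtain ⟨p, hp, hpa⟩ := hU u₀ hu₀
    obtain ⟨q, hq, hqa⟩ := hU k₀ hk₀
    refine ⟨p, hp, q, hq, ?_, ?_, ?_, ?_, ?_, ?_⟩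
    · rintro _ ⟨b, rfl⟩
      exact ⟨b * u₀, by rw [hpa.1, smul_mul_assoc]⟩
    · intro w hw
      obtain ⟨b, hb⟩ := exists_dec h h2 hd ht hι w
      have h0 : π ^ (j + 1) • b = 0 := (hperp hb _).1 hw
      rw [act_sub hpa hb]
      by_cases hb0 : b = 0
      · rw [hb0, zero_mul, map_zero]
        exact zero_mem _
      obtain ⟨m', b', hbm, hbnd⟩ := h.exists_pow_smul hb0
      have hm' : n ≤ j + 1 + m' := by
        by_contra hcc
        push Not at hcc
        apply h.pow_smul_ne hbnd hcc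
        rw [pow_add, ← smul_smul, ← hbm, h0]
      refine ⟨π ^ (m' + kk - j) • (b' * (((ν'⁻¹ : Rˣ) : R) • ((1 + y₀) * ((2 : R) • c₂)))), ?_⟩
      rw [hbm, hu1, smul_mul_smul_comm, smul_smul, ← pow_add, ← pow_add]
      congr 3
      simp only [kk]
      omega
    · intro w hw
      obtain ⟨b, hb⟩ := exists_dec h h2 hd ht hι w
      have h0 : π ^ j • b = 0 := (hperp hb _).1 hw
      rw [act_sub hpa hb]
      by_cases hb0 : b = 0
      · rw [hb0, zero_mul, map_zero]
        exact zero_mem _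
      obtain ⟨m', b', hbm, hbnd⟩ := h.exists_pow_smul hb0
      have hm' : n ≤ j + m' := by
        by_contra hcc
        push Not at hcc
        apply h.pow_smul_ne hbnd hcc
        rw [pow_add, ← smul_smul, ← hbm, h0]
      refine ⟨π ^ (m' + kk - (j + 1)) • (b' * (((ν'⁻¹ : Rˣ) : R) • ((1 + y₀) * ((2 : R) • c₂)))), ?_⟩
      rw [hbm, hu1, smul_mul_smul_comm, smul_smul, ← pow_add, ← pow_add]
      congr 3
      simp only [kk]
      omega
    · apply le_antisymm
      · rintro _ ⟨_, ⟨b, rfl⟩, rfl⟩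
        exact ⟨b * k₀, by rw [LinearEquiv.coe_coe, hqa.1, smul_mul_assoc]⟩
      · rintro _ ⟨b, rfl⟩
        refine ⟨_, ⟨b * star k₀, rfl⟩, ?_⟩
        rw [LinearEquiv.coe_coe, hqa.1, smul_mul_assoc, mul_assoc, hk₀', mul_one]
    · apply le_antisymm
      · rintro _ ⟨_, ⟨b, rfl⟩, rfl⟩
        exact ⟨b * k₀, by rw [LinearEquiv.coe_coe, hqa.1, smul_mul_assoc]⟩
      · rintro _ ⟨b, rfl⟩
        refine ⟨_, ⟨b * star k₀, rfl⟩, ?_⟩
        rw [LinearEquiv.coe_coe, hqa.1, smul_mul_assoc, mul_assoc, hk₀', mul_one]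
    · have ea : B (p.1 ξ - ξ) ξ = 4 * f * s (π ^ (2 * l) * (z * c').re) := by
        rw [act_form hι hpa ha, ham, hval]
      have eb : B (p.1 (q.1 ξ) - q.1 ξ) (q.1 ξ) =
          4 * f * s (π ^ (2 * l) * ((star k₀ * z * k₀) * c').re) := by
        rw [act_form hι hpa (act_dec hqa ha), ham, smul_mul_assoc, hval]
        congr 4
        simp only [z, star_mul, mul_assoc]
      rw [ea, eb]
      intro heq
      apply hx₀
      have e8 : x₀ = 4 * f * s (π ^ (2 * l) * ((star k₀ * z * k₀) * c').re) / 2 -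
          4 * f * s (π ^ (2 * l) * (z * c').re) / 2 := by
        have e9 : D = s (π ^ (2 * l) * ((star k₀ * z * k₀) * c').re) -
            s (π ^ (2 * l) * (z * c').re) := by
          rw [hD, ← map_sub, ← mul_sub, sub_mul, re_sub]
        have e10 : D ≠ 0 := hc'
        have e11 : 4 * f * s (π ^ (2 * l) * ((star k₀ * z * k₀) * c').re) / 2 -
          4 * f * s (π ^ (2 * l) * (z * c').re) / 2 = 2 * f * D := by
          rw [e9]
          field_simp
          ring
        rw [e11]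
        simp only [f]
        field_simp
      rw [e8, AddChar.map_sub_eq_div, heq, div_self']
  · intro z hz _
    rw [halt, hz _ ⟨a₀, rfl⟩, neg_zero]

/-- Division block: the functional is invariant under `ρ (ι (π ^ (l + 1) D))`. -/
theorem Chain.div_red [FiniteDimensional F R] (h : Chain F R s π n) (hF2 : (2 : F) ≠ 0)
    (h2 : IsUnit (2 : R)) (hd : IsUnit d) (ht : IsUnit t)
    (hdiv : ∀ x : ℍ[R, d, t], ¬ IsUnit (nm x) → ∃ y, x = π • y)
    {B : V →ₗ[F] V →ₗ[F] F} (halt : ∀ w w', B w w' = - B w' w) {ψ : AddChar F Circle}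
    (hψ : ψ ≠ 1) {ρ : V → Module.End ℂ S} (hρ0 : ρ 0 = 1) {μ' : S →ₗ[ℂ] ℂ}
    {UU : Set ((V ≃ₗ[F] V) × (S ≃ₗ[ℂ] S))} (hLV : LV B ψ ρ μ' UU) {ι : ℍ[R, d, t] →ₗ[F] V}
    (hι : ∀ x y, B (ι x) (ι y) = frm s x y)
    (hU : ∀ u : ℍ[R, d, t], u * star u = 1 → ∃ p ∈ UU, IsAct B ι u p.1) {l : ℕ}
    (hn : n = 2 * l + 1) :
    ∀ a v, μ' (ρ (ι (π ^ (l + 1) • a)) v) = μ' v := by
  have key : ∀ i, i ≤ l → ∀ a v, μ' (ρ (ι (π ^ (n - i) • a)) v) = μ' v := by
    intro i
    induction i with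
    | zero =>
      intro _ a v
      rw [Nat.sub_zero, h.nil, zero_smul, map_zero, hρ0, Module.End.one_apply]
    | succ i ih =>
      intro hi
      refine h.div_step hF2 h2 hd ht hdiv halt hψ hLV hι hU hn (by omega) (by omega) ?_
      rw [show n - (i + 1) + 1 = n - i by omega]
      exact ih (by omega)
  have := key l le_rfl
  rwa [show n - l = l + 1 by omega] at this

end main

end SpW.Blk
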