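import Pool.Agent.Work.MP_3615d2_al.StarDef
import Pool.Agent.Work.MP_3615d2_al.Cpt

/-!
MP_3615d2_al: the form of the identity (5.2) on `D_R` (output of A9, input of `star_kill`).
-/

open MeasureTheory Measure Filter Topology
open scoped NNReal Quaternion

namespace SpW

section form

variable {F : Type} [NontriviallyNormedField F] [ProperSpace F] {R : Type} [CommRing R]
  [Algebra F R] {c₁ t : R}

/-- `j : V → D_R` induces a bijection of `V` with `D_R / π D_R`. -/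
structure IsCoord {V : Type} [AddCommGroup V] [Module F V] (π : R)
    (j : V →ₗ[F] ℍ[R,c₁,0,t]) : Prop where
  inj : ∀ x b, j x = π • b → x = 0
  surj : ∀ a : ℍ[R,c₁,0,t], ∃ x b, a = j x + π • b

/-- The identity (5.2) of note 6449 in the coordinates `V`, for all `c` of trace zero:
`∫_V ψ(s(π^(2l) Trd(c w̄ i w)) / 4) Φ(w) dw = C k om(N(1-c²)) / |N(1-c²)|`, `w = j x`. -/
def StarForm {K : Type} [CommRing K] [Algebra F K] (s : R →ₗ[F] F) (π : R) (l : ℕ) (red : R →ₐ[F] K)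
    (ψ : AddChar F Circle) (om : F → ℂ) (Φ : ℍ[R,c₁,0,t] → ℂ) (k : ℂ) : Prop :=
  ∀ (V : Type) [NormedAddCommGroup V] [NormedSpace F V] [FiniteDimensional F V]
    [IsUltrametricDist V] [MeasurableSpace V] [BorelSpace V] (ν : Measure V)
    [ν.IsAddHaarMeasure] (j : V →ₗ[F] ℍ[R,c₁,0,t]), IsCoord π j →
    ∃ C : ℂ, C ≠ 0 ∧ ∀ c : ℍ[R,c₁,0,t], c.re = 0 → ∀ᶠ r : ℝ in atTop,
      ∫ x in Metric.closedBall (0 : V) r,
        ((ψ ((4 : F)⁻¹ * s (2 * (qi c₁ t * (π ^ l • (j x * c)) * star (π ^ l • j x)).re)) :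
          Circle) : ℂ) * Φ (j x) ∂ν =
      C * k * om (Algebra.norm F (red (1 - (c * c).re))) *
        (((md (Algebra.norm F (red (1 - (c * c).re))) : ℝ≥0) : ℝ) : ℂ)⁻¹

end form

end SpW
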