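import Pool.Agent.Work.MP_3615d2_al.LemI
import Pool.Agent.Work.MP_3615d2_al.DivRed
import Pool.Agent.Work.MP_3615d2_al.StarForm

/-!
MP_3615d2_al, A9: the linear set-up of LEMMA I for a division block.
-/

set_option linter.unusedSectionVars false

open MeasureTheory Metric Set
open scoped NNReal Quaternion
open QuaternionAlgebra

namespace SpW.LemI

open SpW.Blk

section alg

variable {F R : Type} [Field F] [CommRing R] [Algebra F R] {d t : R} {s : R →ₗ[F] F} {π : R}
  {n : ℕ}

/-- `π ^ (n - l) a = 0` iff `a` is divisible by `π ^ l`. -/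
theorem pow_smul_eq_zero_iff (h : Chain F R s π n) {k l : ℕ} (hkl : k + l = n)
    (a : ℍ[R, d, t]) : π ^ k • a = 0 ↔ ∃ b, a = π ^ l • b := by
  constructor
  · intro h0
    by_cases ha : a = 0
    · exact ⟨0, by rw [ha, smul_zero]⟩
    obtain ⟨m, a', ham, hnd⟩ := h.exists_pow_smul ha
    have hm : n ≤ k + m := by
      by_contra hc
      push Not at hc
      apply h.pow_smul_ne hnd hc
      rw [pow_add, ← smul_smul, ← ham, h0]
    refine ⟨π ^ (m - l) • a', ?_⟩
    rw [smul_smul, ← pow_add, ham]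
    congr 2
    omega
  · rintro ⟨b, rfl⟩
    rw [smul_smul, ← pow_add, smul_pow_eq_zero h b (by omega)]

end alg

section blk

variable {F R : Type} [NontriviallyNormedField F] [CommRing R] [Algebra F R]
  [FiniteDimensional F R] {d t : R} {s : R →ₗ[F] F} {π : R} {n : ℕ}
  {X : Type} [NormedAddCommGroup X] [NormedSpace F X] [FiniteDimensional F X]

/-- The orthogonal complement of the block. -/
def perpW (B : X →ₗ[F] X →ₗ[F] F) (ι : ℍ[R, d, t] →ₗ[F] X) : Submodule F X where
  carrier := {z | ∀ a, B (ι a) z = 0}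
  add_mem' := by
    intro z z' hz hz' a
    rw [map_add, hz a, hz' a, add_zero]
  zero_mem' := fun a => map_zero _
  smul_mem' := by
    intro c z hz a
    rw [map_smul, hz a, smul_zero]

theorem mem_perpW {B : X →ₗ[F] X →ₗ[F] F} {ι : ℍ[R, d, t] →ₗ[F] X} {z : X} :
    z ∈ perpW B ι ↔ ∀ a, B (ι a) z = 0 := Iff.rfl

variable {V : Type} [NormedAddCommGroup V] [NormedSpace F V] [FiniteDimensional F V]

/-- `(x, z) ↦ ι (π^l j(x)) + z`. -/
def ioW (B : X →ₗ[F] X →ₗ[F] F) (ι : ℍ[R, d, t] →ₗ[F] X) (π : R) (l : ℕ)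
    (j : V →ₗ[F] ℍ[R, d, t]) : (V × perpW B ι) →ₗ[F] X where
  toFun p := ι (π ^ l • j p.1) + p.2
  map_add' p q := by
    simp only [Prod.fst_add, Prod.snd_add, map_add, smul_add, Submodule.coe_add]
    abel
  map_smul' c p := by
    simp only [Prod.smul_fst, Prod.smul_snd, map_smul, smul_add, Submodule.coe_smul,
      RingHom.id_apply]
    rw [smul_comm (π ^ l) c, map_smul]

theorem ioW_apply (B : X →ₗ[F] X →ₗ[F] F) (ι : ℍ[R, d, t] →ₗ[F] X) (π : R) (l : ℕ)
    (j : V →ₗ[F] ℍ[R, d, t]) (x : V) (z : perpW B ι) :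
    ioW B ι π l j (x, z) = ι (π ^ l • j x) + z := rfl

theorem frm_neg_right (x y : ℍ[R, d, t]) : frm s x (-y) = - frm s x y := by
  rw [frm_apply, frm_apply, ← map_neg]
  congr 1
  simp only [re_neg, imI_neg, imJ_neg, imK_neg]
  ring

/-- `frm (a c) b = - frm a (b c)` for pure `c`. -/
theorem frm_mul_pure {c : ℍ[R, d, t]} (hc : c.re = 0) (a b : ℍ[R, d, t]) :
    frm s (a * c) b = - frm s a (b * c) := by
  unfold frm
  rw [← map_neg]
  congr 1
  simp only [re_mul, imI_mul, imJ_mul, imK_mul, re_star, imI_star, imJ_star, imK_star, hc]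
  ring

/-- Injectivity of `ι`. -/
theorem iota_inj (h : Chain F R s π n) (h2 : IsUnit (2 : R)) (hd : IsUnit d) (ht : IsUnit t)
    {B : X →ₗ[F] X →ₗ[F] F} {ι : ℍ[R, d, t] →ₗ[F] X}
    (hι : ∀ x y, B (ι x) (ι y) = frm s x y) {a : ℍ[R, d, t]} (ha : ∀ b, B (ι b) (ι a) = 0) :
    a = 0 := by
  refine h.frm_nondeg h2 hd ht fun b => ?_
  rw [← hι, ha]

/-- The isotropic subspace `Y = ι (π^(l+1) D)`, a basis and a dual section. -/
theorem exists_basis {B : X →ₗ[F] X →ₗ[F] F}
    (hBnd : ∀ w, (∀ x, B w x = 0) → w = 0) (ι : ℍ[R, d, t] →ₗ[F] X) (m : ℕ) :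
    ∃ (k : ℕ) (y : Fin k → X) (s' : (Fin k → F) →ₗ[F] X),
      LinearIndependent F y ∧ Submodule.span F (Set.range y) = lay ι π m ∧
      ∀ q i, B (s' q) (y i) = q i := by
  let bs := Module.finBasis F (lay ι π m)
  let y : Fin (Module.finrank F (lay ι π m)) → X := fun i => (bs i : X)
  have hli : LinearIndependent F y := by
    have := bs.linearIndependent.map' (lay ι π m).subtype (Submodule.ker_subtype _)
    exact this
  have hsp : Submodule.span F (Set.range y) = lay ι π m := by
    have h1 : Set.range y = (lay ι π m).subtype '' (Set.range bs) := by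
      rw [← Set.range_comp]
      rfl
    rw [h1, Submodule.span_image, bs.span_eq, Submodule.map_top, Submodule.range_subtype]
  let pr : X →ₗ[F] (Fin (Module.finrank F (lay ι π m)) → F) :=
    LinearMap.pi fun i => B.flip (y i)
  have hinj : Function.Injective B := by
    rw [injective_iff_map_eq_zero]
    intro w hw
    exact hBnd w fun x => by rw [hw, LinearMap.zero_apply]
  have hsurjB : Function.Surjective B :=
    (LinearMap.injective_iff_surjective_of_finrank_eq_finrank
      (Subspace.dual_finrank_eq (K := F) (V := X)).symm).1 hinj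
  have hpr : Function.Surjective pr := by
    intro q
    obtain ⟨φ, hφ⟩ := LinearMap.exists_extend (bs.constr F q)
    obtain ⟨w, hw⟩ := hsurjB φ
    refine ⟨w, ?_⟩
    funext i
    show B w (y i) = q i
    have h1 : φ (y i) = (bs.constr F q) (bs i) := congrArg (fun f => f (bs i)) hφ
    rw [hw, h1, Module.Basis.constr_basis]
  obtain ⟨s', hs'⟩ := pr.exists_rightInverse_of_surjective (LinearMap.range_eq_top.2 hpr)
  refine ⟨_, y, s', hli, hsp, fun q i => ?_⟩
  exact congrFun (congrArg (fun f => f q) hs') i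

/-- The linear set-up of LEMMA I. -/
theorem block_idat (h : Chain F R s π n) (h2 : IsUnit (2 : R)) (hd : IsUnit d) (ht : IsUnit t)
    {B : X →ₗ[F] X →ₗ[F] F} (halt : ∀ x, B x x = 0) (hswap : ∀ w w', B w w' = - B w' w)
    (hBnd : ∀ w, (∀ x, B w x = 0) → w = 0) {ι : ℍ[R, d, t] →ₗ[F] X}
    (hι : ∀ x y, B (ι x) (ι y) = frm s x y) {l : ℕ} (hn : n = 2 * l + 1)
    {k : ℕ} {y : Fin k → X} {s' : (Fin k → F) →ₗ[F] X} (hli : LinearIndependent F y)
    (hsp : Submodule.span F (Set.range y) = lay ι π (l + 1)) (hs' : ∀ q i, B (s' q) (y i) = q i)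
    {j : V →ₗ[F] ℍ[R, d, t]} (hj : IsCoord π j) :
    IDat B y (ioW B ι π l j) s' := by
  have hymem : ∀ i, y i ∈ lay ι π (l + 1) := fun i => by
    rw [← hsp]
    exact Submodule.subset_span ⟨i, rfl⟩
  have hsum : ∀ a : Fin k → F, ∑ i, a i • y i ∈ lay ι π (l + 1) := fun a =>
    Submodule.sum_mem _ fun i _ => Submodule.smul_mem _ _ (hymem i)
  have hio : ∀ p i, B (ioW B ι π l j p) (y i) = 0 := by
    rintro ⟨x, z⟩ i
    obtain ⟨a, ha⟩ := hymem i
    rw [ioW_apply, ← ha, map_add, LinearMap.add_apply, hι, hswap z, z.2 _, neg_zero, add_zero,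
      frm_smul, smul_smul, ← pow_add, smul_pow_eq_zero h a (by omega), frm_apply]
    simp
  have hYY : ∀ (a : Fin k → F) i, B (∑ i, a i • y i) (y i) = 0 := by
    intro a i
    obtain ⟨b, hb⟩ := hsum a
    obtain ⟨c, hc⟩ := hymem i
    rw [← hb, ← hc, hι, frm_smul, smul_smul, ← pow_add, smul_pow_eq_zero h c (by omega), frm_apply]
    simp
  refine ⟨halt, hBnd, ⟨?_, ?_⟩, hio, hs'⟩
  · -- injectivity
    let f : ((V × perpW B ι) × (Fin k → F)) × (Fin k → F) →ₗ[F] X :=
      ((ioW B ι π l j).coprod s').coprod (Fintype.linearCombination F y)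
    have hf : ∀ p, f p = ioW B ι π l j p.1.1 + s' p.1.2 + ∑ i, p.2 i • y i := fun p => rfl
    have hinj : Function.Injective f := by
      rw [injective_iff_map_eq_zero]
      rintro ⟨⟨⟨x, z⟩, q⟩, a⟩ h0
      rw [hf] at h0
      simp only at h0
      have hq : q = 0 := by
        funext i
        have h3 := congrArg (fun w => B w (y i)) h0
        simp only [map_add, LinearMap.add_apply] at h3
        rw [hio, hs', hYY a i, LinearMap.map_zero, LinearMap.zero_apply, zero_add, add_zero] at h3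
        exact h3
      subst hq
      rw [map_zero, add_zero, ioW_apply] at h0
      obtain ⟨b, hb⟩ := hsum a
      rw [← hb] at h0
      have h4 : (z : X) = - ι (π ^ l • j x + π ^ (l + 1) • b) := by
        rw [map_add, ← sub_eq_zero, ← h0]
        abel
      have h5 : π ^ l • j x + π ^ (l + 1) • b = 0 := by
        refine iota_inj h h2 hd ht hι fun b' => ?_
        have h6 := z.2 b'
        rw [h4, map_neg, neg_eq_zero] at h6
        exact h6
      have hz : z = 0 := by
        apply Subtype.ext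
        rw [h4, h5, map_zero, neg_zero]
        rfl
      have h7 : π ^ l • (j x + π • b) = 0 := by
        rw [smul_add, smul_smul, ← pow_succ, h5]
      obtain ⟨b', hb'⟩ := (pow_smul_eq_zero_iff h (show l + (l + 1) = n by omega) _).1 h7
      have h8 : j x = π • (π ^ l • b' - b) := by
        rw [smul_sub, smul_smul, ← pow_succ', ← hb']
        abel
      have hx : x = 0 := hj.inj x _ h8
      subst hx
      subst hz
      rw [map_zero, smul_zero, map_zero, Submodule.coe_zero, zero_add, zero_add, hb] at h0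
      have ha : a = 0 := by
        funext i
        exact Fintype.linearIndependent_iff.1 hli a h0 i
      rw [ha]
      rfl
    exact hinj
  · -- surjectivity
    intro w
    set q : Fin k → F := fun i => B w (y i) with hq
    set w' := w - s' q with hw'
    obtain ⟨a, ha⟩ := exists_dec h h2 hd ht hι w'
    have h3 : ∀ y' ∈ lay ι π (l + 1), B y' w' = 0 := by
      intro y' hy'
      rw [← hsp] at hy'
      have h4 : ∀ i, B (y i) w' = 0 := by
        intro i
        rw [hswap, hw', map_sub, LinearMap.sub_apply, hs', hq, sub_self, neg_zero]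
      refine Submodule.span_induction (p := fun y' _ => B y' w' = 0) ?_ ?_ ?_ ?_ hy'
      · rintro _ ⟨i, rfl⟩
        exact h4 i
      · rw [LinearMap.map_zero, LinearMap.zero_apply]
      · intro u v _ _ hu hv
        rw [map_add, LinearMap.add_apply, hu, hv, add_zero]
      · intro c u _ hu
        rw [map_smul, LinearMap.smul_apply, hu, smul_zero]
    rw [h.perp_lay h2 hd ht hι ha] at h3
    obtain ⟨b, hb⟩ := (pow_smul_eq_zero_iff h (show l + 1 + l = n by omega) _).1 h3
    obtain ⟨x, b', hb'⟩ := hj.surj b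
    have h5 : ι (π ^ (l + 1) • b') ∈ Submodule.span F (Set.range y) := by
      rw [hsp]
      exact ⟨b', rfl⟩
    obtain ⟨e, he⟩ := (Submodule.mem_span_range_iff_exists_fun F).1 h5
    refine ⟨((((x, ⟨w' - ι a, fun b => ha b⟩) : V × perpW B ι), q), e), ?_⟩
    simp only
    rw [he, ioW_apply]
    simp only
    have h6 : ι (π ^ l • j x) + ι (π ^ (l + 1) • b') = ι a := by
      rw [← map_add, hb, hb', smul_add, smul_smul, ← pow_succ]
    have h7 : ι (π ^ l • j x) + (w' - ι a) + s' q + ι (π ^ (l + 1) • b') =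
        (ι (π ^ l • j x) + ι (π ^ (l + 1) • b')) + (w' - ι a) + s' q := by abel
    rw [h7, h6, hw']
    abel

/-- Right multiplication by `1 + c` is bijective when the norm is a unit. -/
theorem mul_unit_cancel {u : ℍ[R, d, t]} (hu : IsUnit (nm u)) {a : ℍ[R, d, t]} (h0 : a * u = 0) :
    a = 0 := by
  obtain ⟨ν, hν⟩ := hu
  have h1 : a * u * star u = (ν : R) • a := by
    rw [mul_assoc, mul_star_smul, mul_smul_comm, mul_one, hν]
  rw [h0, zero_mul] at h1
  have h2 : ((ν⁻¹ : Rˣ) : R) • ((ν : R) • a) = a := by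
    rw [smul_smul, Units.inv_mul, one_smul]
  rw [← h2, ← h1, smul_zero]

theorem mul_unit_surj {u : ℍ[R, d, t]} (hu : IsUnit (nm u)) (b : ℍ[R, d, t]) :
    ∃ a, a * u = b := by
  obtain ⟨ν, hν⟩ := hu
  refine ⟨((ν⁻¹ : Rˣ) : R) • (b * star u), ?_⟩
  rw [smul_mul_assoc, mul_assoc, star_mul_smul, mul_smul_comm, mul_one, smul_smul, ← hν,
    Units.inv_mul, one_smul]

theorem block_T (h : Chain F R s π n) (h2 : IsUnit (2 : R)) (hd : IsUnit d) (ht : IsUnit t)
    {B : X →ₗ[F] X →ₗ[F] F} (hswap : ∀ w w', B w w' = - B w' w)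
    {ι : ℍ[R, d, t] →ₗ[F] X}
    (hι : ∀ x y, B (ι x) (ι y) = frm s x y) {l : ℕ} (hn : n = 2 * l + 1)
    {k : ℕ} {y : Fin k → X} {s' : (Fin k → F) →ₗ[F] X}
    (hsp : Submodule.span F (Set.range y) = lay ι π (l + 1)) (hs' : ∀ q i, B (s' q) (y i) = q i)
    {c : ℍ[R, d, t]} (hc : c.re = 0) (hu : IsUnit (nm (1 + c))) {cl : X →ₗ[F] X}
    (hcl : ∀ a, cl (ι a) = ι (a * c)) (hclp : ∀ z ∈ perpW B ι, cl z = 0) :
    (∀ w w', B (cl w) w' = - B w (cl w')) ∧ (∀ w, cl w = w → w = 0) ∧
    (∀ i j, B (cl (y i)) (y j) = 0) ∧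
    ∃ (T : (Fin k → F) ≃ₗ[F] (Fin k → F)) (pr : ℍ[R, d, t] →ₗ[F] (Fin k → F)),
      (∀ w i, B (cl w + w) (y i) = T (fun j => B w (y j)) i) ∧ Function.Surjective pr ∧
      (∀ a, pr a = 0 ↔ ∃ b, a = π ^ l • b) ∧ ∀ a, T (pr a) = pr (a * (1 + c)) := by
  have hymem : ∀ i, y i ∈ lay ι π (l + 1) := fun i => by
    rw [← hsp]
    exact Submodule.subset_span ⟨i, rfl⟩
  have hdec : ∀ w, ∃ a z, z ∈ perpW B ι ∧ w = ι a + z := by
    intro w
    obtain ⟨a, ha⟩ := exists_dec h h2 hd ht hι w
    exact ⟨a, w - ι a, ha, by abel⟩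
  have hp1 : ∀ a z, z ∈ perpW B ι → B (ι a) z = 0 := fun a z hz => hz a
  have hp2 : ∀ a z, z ∈ perpW B ι → B z (ι a) = 0 := fun a z hz => by
    rw [hswap, hz a, neg_zero]
  have hskew : ∀ w w', B (cl w) w' = - B w (cl w') := by
    intro w w'
    obtain ⟨a, z, hz, rfl⟩ := hdec w
    obtain ⟨b, z', hz', rfl⟩ := hdec w'
    simp only [map_add, hcl, hclp z hz, hclp z' hz', LinearMap.add_apply, hι, hp1 _ _ hz',
      hp2 _ _ hz, add_zero, frm_mul_pure hc]
  have hcy : ∀ i, cl (y i) ∈ lay ι π (l + 1) := by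
    intro i
    obtain ⟨a, ha⟩ := hymem i
    rw [← ha, hcl]
    exact ⟨a * c, by rw [smul_mul_assoc]⟩
  have hiso : ∀ u v, u ∈ lay ι π (l + 1) → v ∈ lay ι π (l + 1) → B u v = 0 := by
    rintro _ _ ⟨a, rfl⟩ ⟨b, rfl⟩
    rw [hι, frm_smul, smul_smul, ← pow_add, smul_pow_eq_zero h b (by omega), frm_apply]
    simp
  refine ⟨hskew, ?_, fun i j => hiso _ _ (hcy i) (hymem j), ?_⟩
  · intro w hw
    obtain ⟨a, z, hz, rfl⟩ := hdec w
    rw [map_add, hcl, hclp z hz, add_zero] at hw
    have h3 : z = ι (a * c - a) := by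
      rw [map_sub, hw]
      abel
    have h4 : a * c - a = 0 := by
      refine iota_inj h h2 hd ht hι fun b => ?_
      rw [← h3]
      exact hz b
    have h5 : a * star (1 + c) = 0 := by
      rw [star_add, star_one, star_of_pure hc, mul_add, mul_one, mul_neg, ← sub_eq_add_neg,
        ← neg_eq_zero, neg_sub, h4]
    have h6 : a = 0 := mul_unit_cancel (by rw [nm_star]; exact hu) h5
    rw [h3, h4, h6, map_zero, add_zero]
  · let T₀ : (Fin k → F) →ₗ[F] (Fin k → F) :=
      LinearMap.pi fun i => (B.flip (y i)).comp (cl.comp s' + s')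
    have hT₀ : ∀ q i, T₀ q i = B (cl (s' q) + s' q) (y i) := fun q i => rfl
    let pr : ℍ[R, d, t] →ₗ[F] (Fin k → F) := LinearMap.pi fun i => (B.flip (y i)).comp ι
    have hpr : ∀ a i, pr a i = B (ι a) (y i) := fun a i => rfl
    have hcomm : ∀ w i, B (cl w + w) (y i) = T₀ (fun j => B w (y j)) i := by
      intro w i
      rw [hT₀]
      set q : Fin k → F := fun j => B w (y j) with hq
      have h3 : ∀ v ∈ lay ι π (l + 1), B (w - s' q) v = 0 := by
        intro v hv
        rw [← hsp] at hv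
        refine Submodule.span_induction (p := fun v _ => B (w - s' q) v = 0) ?_ ?_ ?_ ?_ hv
        · rintro _ ⟨i, rfl⟩
          rw [map_sub, LinearMap.sub_apply, hs', hq, sub_self]
        · rw [LinearMap.map_zero]
        · intro u v _ _ hu hv
          rw [map_add, hu, hv, add_zero]
        · intro c u _ hu
          rw [map_smul, hu, smul_zero]
      have h4 : B (cl (w - s' q) + (w - s' q)) (y i) = 0 := by
        rw [map_add, LinearMap.add_apply, hskew, h3 _ (hcy i), h3 _ (hymem i), neg_zero, add_zero]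
      have h5 : cl (w - s' q) + (w - s' q) = (cl w + w) - (cl (s' q) + s' q) := by
        rw [map_sub]
        abel
      rw [h5, map_sub, LinearMap.sub_apply, sub_eq_zero] at h4
      exact h4
    have hprs : Function.Surjective pr := by
      intro q
      obtain ⟨a, z, hz, haz⟩ := hdec (s' q)
      refine ⟨a, ?_⟩
      funext i
      rw [hpr, ← hs' q i, haz, map_add, LinearMap.add_apply]
      obtain ⟨b, hb⟩ := hymem i
      rw [← hb, hp2 _ _ hz, add_zero]
    have hTpr : ∀ a, T₀ (pr a) = pr (a * (1 + c)) := by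
      intro a
      funext i
      have h3 := hcomm (ι a) i
      have h4 : (fun j => B (ι a) (y j)) = pr a := rfl
      rw [h4, hcl] at h3
      rw [← h3, hpr, mul_add, mul_one, map_add ι, add_comm (ι (a * c))]
    have hTs : Function.Surjective T₀ := by
      intro q
      obtain ⟨b, rfl⟩ := hprs q
      obtain ⟨a, rfl⟩ := mul_unit_surj hu b
      exact ⟨pr a, hTpr a⟩
    have hTi : Function.Injective T₀ := LinearMap.injective_iff_surjective.2 hTs
    refine ⟨LinearEquiv.ofBijective T₀ ⟨hTi, hTs⟩, pr, hcomm, hprs, ?_, hTpr⟩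
    intro a
    rw [← pow_smul_eq_zero_iff h (show l + 1 + l = n by omega),
      ← h.perp_lay h2 hd ht hι (ξ := ι a) (a := a) (fun b => by rw [sub_self, map_zero])]
    constructor
    · intro h0 v hv
      rw [← hsp] at hv
      refine Submodule.span_induction (p := fun v _ => B v (ι a) = 0) ?_ ?_ ?_ ?_ hv
      · rintro _ ⟨i, rfl⟩
        rw [hswap, ← hpr, h0, Pi.zero_apply, neg_zero]
      · rw [LinearMap.map_zero, LinearMap.zero_apply]
      · intro u v _ _ hu hv
        rw [map_add, LinearMap.add_apply, hu, hv, add_zero]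
      · intro c u _ hu
        rw [map_smul, LinearMap.smul_apply, hu, smul_zero]
    · intro h0
      funext i
      rw [hpr, hswap, h0 _ (hymem i), neg_zero]
      rfl

end blk

end SpW.LemI
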