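import Pool.Agent.Work.MP_3615d2_al.A9B

/-!
MP_3615d2_al, A9: the integral over the orthogonal complement of the block.
-/

set_option linter.unusedSectionVars false

open MeasureTheory Metric Set
open scoped NNReal Quaternion
open QuaternionAlgebra

namespace SpW.LemI

open SpW.Blk

theorem ultra_prod (A B : Type) [NormedAddCommGroup A] [NormedAddCommGroup B]
    [IsUltrametricDist A] [IsUltrametricDist B] : IsUltrametricDist (A × B) := by
  refine ⟨fun x y z => ?_⟩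
  rw [Prod.dist_eq, Prod.dist_eq, Prod.dist_eq]
  refine max_le ?_ ?_
  · exact (dist_triangle_max x.1 y.1 z.1).trans (max_le_max (le_max_left _ _) (le_max_left _ _))
  · exact (dist_triangle_max x.2 y.2 z.2).trans (max_le_max (le_max_right _ _) (le_max_right _ _))

section perp

variable {F R : Type} [NontriviallyNormedField F] [IsUltrametricDist F] [ProperSpace F]
  [CommRing R] [Algebra F R] [FiniteDimensional F R] {d t : R} {s : R →ₗ[F] F} {π : R} {n : ℕ}
  {X : Type} [NormedAddCommGroup X] [NormedSpace F X] [FiniteDimensional F X]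
  [IsUltrametricDist X] [MeasurableSpace X] [BorelSpace X]
  {V : Type} [NormedAddCommGroup V] [NormedSpace F V] [FiniteDimensional F V]
  [MeasurableSpace V] [BorelSpace V] {S : Type} [AddCommGroup S] [Module ℂ S]

theorem phi_add {B : X →ₗ[F] X →ₗ[F] F} {ψ : AddChar F Circle} {ρ : X → Module.End ℂ S}
    (hρ : ∀ w w', ρ w * ρ w' = ((ψ ((2 : F)⁻¹ * B w w') : Circle) : ℂ) • ρ (w + w'))
    (m' : S →ₗ[ℂ] ℂ) (v : S) (w w' : X) :
    m' (ρ w (ρ w' v)) = ((ψ ((2 : F)⁻¹ * B w w') : Circle) : ℂ) * m' (ρ (w + w') v) := by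
  have h3 := LinearMap.congr_fun (hρ w w') v
  rw [Module.End.mul_apply] at h3
  rw [h3, LinearMap.smul_apply, map_smul, smul_eq_mul]

theorem phi_small {B : X →ₗ[F] X →ₗ[F] F} {ψ : AddChar F Circle} {ρ : X → Module.End ℂ S}
    (hρ : ∀ w w', ρ w * ρ w' = ((ψ ((2 : F)⁻¹ * B w w') : Circle) : ℂ) • ρ (w + w'))
    (m' : S →ₗ[ℂ] ℂ) (v : S) (w x : X) (hx : ρ x v = v) :
    m' (ρ (w + x) v) = ((ψ (-(2⁻¹ * B w x)) : Circle) : ℂ) * m' (ρ w v) := by
  have h3 := phi_add hρ m' v w x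
  rw [hx] at h3
  rw [h3, ← mul_assoc, psi_mul, neg_add_cancel, AddChar.map_zero_eq_one, Circle.coe_one, one_mul]

theorem phi_inv {B : X →ₗ[F] X →ₗ[F] F} (hswap : ∀ w w', B w w' = - B w' w)
    {ψ : AddChar F Circle} {ρ : X → Module.End ℂ S}
    (hρ : ∀ w w', ρ w * ρ w' = ((ψ ((2 : F)⁻¹ * B w w') : Circle) : ℂ) • ρ (w + w'))
    (m' : S →ₗ[ℂ] ℂ) (v : S) (w y : X) (hy : ∀ v', m' (ρ y v') = m' v') :
    m' (ρ (w + y) v) = ((ψ (2⁻¹ * B w y) : Circle) : ℂ) * m' (ρ w v) := by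
  have h3 := phi_add hρ m' v y w
  rw [hy, add_comm _ w, hswap] at h3
  rw [h3, ← mul_assoc, psi_mul, mul_neg, add_neg_cancel, AddChar.map_zero_eq_one,
    Circle.coe_one, one_mul]

/-- The integral over the orthogonal complement of the block. -/
theorem perp_int {B : X →ₗ[F] X →ₗ[F] F} {ι : ℍ[R, d, t] →ₗ[F] X} {ψ : AddChar F Circle}
    (hψ : Continuous ψ) {ρ : X → Module.End ℂ S}
    (hρ : ∀ w w', ρ w * ρ w' = ((ψ ((2 : F)⁻¹ * B w w') : Circle) : ℂ) • ρ (w + w'))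
    (m' : S →ₗ[ℂ] ℂ) (v : S) {ε : ℝ} (hε : 0 < ε) (hεv : ∀ w, ‖w‖ ≤ ε → ρ w v = v)
    {c : ℍ[R, d, t]} {cl : X →ₗ[F] X} (hcl : ∀ a, cl (ι a) = ι (a * c))
    (hclp : ∀ z ∈ perpW B ι, cl z = 0) (ν : Measure V) [ν.IsAddHaarMeasure]
    (νp : Measure (perpW B ι)) [νp.IsAddHaarMeasure] {v1 : S} {r : ℝ}
    (hv1 : ∀ ξ : S →ₗ[ℂ] ℂ, ∫ z in closedBall (0 : perpW B ι) r, ξ (ρ z v) ∂νp = ξ v1)
    (l : ℕ) (j : V →ₗ[F] ℍ[R, d, t]) :
    ∫ z in closedBall (0 : V × perpW B ι) r,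
      ((ψ (4⁻¹ * B (cl (ioW B ι π l j z)) (ioW B ι π l j z)) : Circle) : ℂ) *
        m' (ρ (ioW B ι π l j z) v) ∂(ν.prod νp) =
      ∫ x' in closedBall (0 : V) r,
        ((ψ ((4 : F)⁻¹ * B (ι (π ^ l • (j x' * c))) (ι (π ^ l • j x'))) : Circle) : ℂ) *
        m' (ρ (ι (π ^ l • j x')) v1) ∂ν := by
  have iV : ProperSpace V := FiniteDimensional.proper F V
  have iP : ProperSpace (perpW B ι) := FiniteDimensional.proper F _
  have hp1 : ∀ a z, z ∈ perpW B ι → B (ι a) z = 0 := fun a z hz => hz a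
  have hcont : Continuous (fun w : X =>
      ((ψ (4⁻¹ * B (cl w) w) : Circle) : ℂ) * m' (ρ w v)) := by
    have c1 : Continuous (fun w : X => (4 : F)⁻¹ * B (cl w) w) :=
      continuous_const.mul ((bil_cont B).comp
        ((cl.continuous_of_finiteDimensional).prodMk continuous_id))
    have c2 : Continuous (fun w : X => m' (ρ w v)) := by
      refine cont_of_char hψ hε (-((2 : F)⁻¹ • B)) fun w x' hx' => ?_
      rw [phi_small hρ m' v w x' (hεv x' hx')]
      simp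
    exact (continuous_subtype_val.comp (hψ.comp c1)).mul c2
  have hio : Continuous (ioW B ι π l j) := (ioW B ι π l j).continuous_of_finiteDimensional
  have hcb : closedBall (0 : V × perpW B ι) r =
      closedBall (0 : V) r ×ˢ closedBall (0 : perpW B ι) r := by
    rw [closedBall_prod_same]
    rfl
  have hIO : IntegrableOn (fun z : V × perpW B ι =>
      ((ψ (4⁻¹ * B (cl (ioW B ι π l j z)) (ioW B ι π l j z)) : Circle) : ℂ) *
        m' (ρ (ioW B ι π l j z) v)) (closedBall (0 : V) r ×ˢ closedBall (0 : perpW B ι) r)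
      (ν.prod νp) :=
    (hcont.comp hio).continuousOn.integrableOn_compact
      ((isCompact_closedBall _ _).prod (isCompact_closedBall _ _))
  rw [hcb, setIntegral_prod _ hIO]
  refine integral_congr_ae (Filter.Eventually.of_forall fun x' => ?_)
  simp only
  set w : X := ι (π ^ l • j x') with hw
  have e3 : ∀ z : perpW B ι, ((ψ (4⁻¹ * B (cl (ioW B ι π l j (x', z)))
      (ioW B ι π l j (x', z))) : Circle) : ℂ) * m' (ρ (ioW B ι π l j (x', z)) v) =
      ((ψ (4⁻¹ * B (cl w) w) : Circle) : ℂ) * (m' ∘ₗ ρ w) (ρ (z : X) v) := by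
    intro z
    rw [ioW_apply, ← hw, map_add cl, hclp z z.2, add_zero]
    have e4 : B (cl w) (w + z) = B (cl w) w := by
      rw [map_add, hw, hcl, hp1 _ _ z.2, add_zero]
    have e5 : (m' ∘ₗ ρ w) (ρ (z : X) v) = m' (ρ (w + z) v) := by
      rw [LinearMap.comp_apply, phi_add hρ, hw, hp1 _ _ z.2, mul_zero, AddChar.map_zero_eq_one,
        Circle.coe_one, one_mul]
    rw [e4, e5]
  simp_rw [e3]
  rw [integral_const_mul, hv1 (m' ∘ₗ ρ w), hw, hcl, smul_mul_assoc]
  rfl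

end perp

end SpW.LemI
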