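import Pool.Agent.Work.MP_3615d2_al.DefsB

/-!
MP_3615d2_al, Theorem B, module R4: irreducible representations whose matrix coefficients have
compact support modulo scalars are admissible; Schur's lemma; irreducibility of `rho π s`.
-/

open Filter Topology MeasureTheory
open scoped TensorProduct

namespace SpW

section av

variable {G : Type} [Group G] [TopologicalSpace G] [IsTopologicalGroup G]
  {V : Type} [AddCommGroup V] [Module ℂ V]

/-- The vectors fixed by `K`. -/
def fixK (π : G →* Module.End ℂ V) (K : Subgroup G) : Submodule ℂ V where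
  carrier := {v | ∀ k ∈ K, π k v = v}
  add_mem' := by
    intro a b ha hb k hk
    rw [map_add, ha k hk, hb k hk]
  zero_mem' := fun k _ => map_zero _
  smul_mem' := by
    intro c a ha k hk
    rw [map_smul, ha k hk]

theorem mem_fixK {π : G →* Module.End ℂ V} {K : Subgroup G} {v : V} :
    v ∈ fixK π K ↔ ∀ k ∈ K, π k v = v := Iff.rfl

/-- The averaging operator of a compact subgroup. -/
theorem exists_avK {π : G →* Module.End ℂ V} (hπ : IsSmoothRep π) (K : Subgroup G)
    (hK : IsCompact (K : Set G)) :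
    ∃ e : V →ₗ[ℂ] V, (∀ k ∈ K, ∀ v, e (π k v) = e v) ∧ (∀ v, e v ∈ fixK π K) ∧
      (∀ v ∈ fixK π K, e v = v) := by
  have : CompactSpace K := isCompact_iff_compactSpace.1 hK
  let _ : MeasurableSpace K := borel K
  have : BorelSpace K := ⟨rfl⟩
  let μ : Measure K := Measure.haarMeasure ⊤
  have hμ1 : μ Set.univ = 1 := by
    have := Measure.haarMeasure_self (K₀ := (⊤ : TopologicalSpace.PositiveCompacts K))
    simpa using this
  have hμr : μ.real Set.univ = 1 := by
    rw [Measure.real, hμ1, ENNReal.toReal_one]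
  have : IsProbabilityMeasure μ := ⟨hμ1⟩
  have hri : μ.IsMulRightInvariant := ⟨fun g => by
    have h1 : IsProbabilityMeasure (Measure.map (· * g) μ) :=
      Measure.isProbabilityMeasure_map (measurable_mul_const g).aemeasurable
    have h2 := Measure.isMulInvariant_eq_smul_of_compactSpace (Measure.map (· * g) μ) μ
    have h3 : (Measure.map (· * g) μ) Set.univ =
        (Measure.haarScalarFactor (Measure.map (· * g) μ) μ • μ) Set.univ := by rw [← h2]
    rw [Measure.smul_apply, hμ1, measure_univ, ENNReal.smul_def, smul_eq_mul, mul_one] at h3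
    have h4 : Measure.haarScalarFactor (Measure.map (· * g) μ) μ = 1 := by
      exact_mod_cast h3.symm
    rw [h2, h4, one_smul]⟩
  have hlc : ∀ v, IsLocallyConstant (fun k : K => π (k : G) v) := by
    intro v
    rw [IsLocallyConstant.iff_eventually_eq]
    intro k
    have h1 : ∀ᶠ g in 𝓝 (1 : G), π g v = v := hπ v
    have h3 : Tendsto (fun j : K => (k : G)⁻¹ * (j : G)) (𝓝 k) (𝓝 1) := by
      have : Continuous (fun j : K => (k : G)⁻¹ * (j : G)) := by fun_prop
      simpa using this.tendsto k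
    filter_upwards [h3.eventually h1] with j hj
    have h4 : π (j : G) v = π (k : G) (π ((k : G)⁻¹ * (j : G)) v) := by
      rw [← Module.End.mul_apply, ← map_mul, mul_inv_cancel_left]
    rw [h4, hj]
  have hfin : ∀ v, (Set.range (fun k : K => π (k : G) v)).Finite := fun v => (hlc v).range_finite
  have hc : ∀ v (f : V →ₗ[ℂ] ℂ), Continuous (fun k : K => f (π (k : G) v)) := by
    intro v f
    exact ((hlc v).comp f).continuous
  have hi : ∀ v (f : V →ₗ[ℂ] ℂ), Integrable (fun k : K => f (π (k : G) v)) μ := fun v f =>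
    (hc v f).integrable_of_hasCompactSupport (HasCompactSupport.of_compactSpace _)
  -- existence of the mean vector
  have hex : ∀ v, ∃ x : V, ∀ f : V →ₗ[ℂ] ℂ, f x = ∫ k : K, f (π (k : G) v) ∂μ := by
    intro v
    refine ⟨∑ y ∈ (hfin v).toFinset, (μ.real {k : K | π (k : G) v = y} : ℂ) • y, fun f => ?_⟩
    have h1 : ∀ k : K, f (π (k : G) v) = ∑ y ∈ (hfin v).toFinset,
        Set.indicator {k : K | π (k : G) v = y} (fun _ => f y) k := by
      intro k
      rw [Finset.sum_eq_single (π (k : G) v)]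
      · rw [Set.indicator_of_mem]
        rfl
      · intro y _ hy
        rw [Set.indicator_of_notMem]
        exact fun h => hy h.symm
      · intro h
        exact absurd ((hfin v).mem_toFinset.2 ⟨k, rfl⟩) h
    have hms : ∀ y, MeasurableSet {k : K | π (k : G) v = y} := fun y =>
      ((hlc v).isOpen_fiber y).measurableSet
    calc f (∑ y ∈ (hfin v).toFinset, (μ.real {k : K | π (k : G) v = y} : ℂ) • y)
        = ∑ y ∈ (hfin v).toFinset, (μ.real {k : K | π (k : G) v = y} : ℂ) • f y := by
          rw [map_sum]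
          exact Finset.sum_congr rfl fun y _ => map_smul _ _ _
      _ = ∑ y ∈ (hfin v).toFinset,
            ∫ k : K, Set.indicator {k : K | π (k : G) v = y} (fun _ => f y) k ∂μ := by
          apply Finset.sum_congr rfl
          intro y _
          rw [integral_indicator_const _ (hms y)]
          simp
      _ = ∫ k : K, ∑ y ∈ (hfin v).toFinset,
            Set.indicator {k : K | π (k : G) v = y} (fun _ => f y) k ∂μ := by
          rw [integral_finset_sum]
          intro y _
          exact (integrable_const _).indicator (hms y)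
      _ = ∫ k : K, f (π (k : G) v) ∂μ := by
          congr 1
          funext k
          exact (h1 k).symm
  choose e0 he0 using hex
  have sep : ∀ x y : V, (∀ f : V →ₗ[ℂ] ℂ, f x = f y) → x = y := by
    intro x y h
    rw [← sub_eq_zero, ← Module.forall_dual_apply_eq_zero_iff ℂ]
    intro f
    rw [map_sub, h f, sub_self]
  let e : V →ₗ[ℂ] V :=
    { toFun := e0
      map_add' := by
        intro a b
        apply sep
        intro f
        rw [map_add, he0, he0, he0]
        simp only [map_add]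
        exact integral_add (hi a f) (hi b f)
      map_smul' := by
        intro c a
        apply sep
        intro f
        rw [RingHom.id_apply, map_smul, he0, he0]
        simp only [map_smul]
        exact integral_smul c _ }
  have he : ∀ v (f : V →ₗ[ℂ] ℂ), f (e v) = ∫ k : K, f (π (k : G) v) ∂μ := he0
  refine ⟨e, ?_, ?_, ?_⟩
  · intro k hk v
    apply sep
    intro f
    rw [he, he, ← integral_mul_right_eq_self (fun j : K => f (π (j : G) v)) (⟨k, hk⟩ : K)]
    congr 1
    funext j
    rw [Subgroup.coe_mul, map_mul, Module.End.mul_apply]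
  · intro v k hk
    apply sep
    intro f
    have h1 := he v (f ∘ₗ π k)
    rw [LinearMap.comp_apply] at h1
    rw [h1, he, ← integral_mul_left_eq_self (fun j : K => f (π (j : G) v)) (⟨k, hk⟩ : K)]
    congr 1
    funext j
    rw [Subgroup.coe_mul, map_mul, Module.End.mul_apply]
    rfl
  · intro v hv
    apply sep
    intro f
    rw [he]
    have h1 : ∀ k : K, f (π (k : G) v) = f v := fun k => by rw [hv k k.2]
    simp only [h1, integral_const, hμr, one_smul]

/-- The span of the orbit of a nonzero vector of an irreducible representation. -/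
theorem IsIrrRep.span_orbit {π : G →* Module.End ℂ V} (hirr : IsIrrRep π) {v : V} (hv : v ≠ 0) :
    Submodule.span ℂ (Set.range fun g => π g v) = ⊤ := by
  refine (hirr.irr (Submodule.span ℂ (Set.range fun g => π g v)) ?_).resolve_left ?_
  · intro g w hw
    induction hw using Submodule.span_induction with
    | mem x hx =>
      obtain ⟨h, rfl⟩ := hx
      refine Submodule.subset_span ⟨g * h, ?_⟩
      show π (g * h) v = π g (π h v)
      rw [map_mul, Module.End.mul_apply]
    | zero => rw [map_zero]; exact Submodule.zero_mem _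
    | add x y _ _ hx hy => rw [map_add]; exact Submodule.add_mem _ hx hy
    | smul c x _ hx => rw [map_smul]; exact Submodule.smul_mem _ _ hx
  · intro h
    apply hv
    have h1 : v ∈ Submodule.span ℂ (Set.range fun g => π g v) :=
      Submodule.subset_span ⟨1, by simp⟩
    rw [h] at h1
    exact h1

/-- **Admissibility** of an irreducible representation with (HC). -/
theorem finite_fixK {π : G →* Module.End ℂ V} (hπ : IsSmoothRep π) (hirr : IsIrrRep π)
    {Z : Subgroup G} {χ : G → ℂ} (hZ : ∀ z ∈ Z, ∀ v, π z v = χ z • v) (hHC : HasHC Z π)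
    (K : Subgroup G) (hKo : IsOpen (K : Set G)) (hKc : IsCompact (K : Set G)) :
    FiniteDimensional ℂ (fixK π K) := by
  obtain ⟨e, he1, he2, he3⟩ := exists_avK hπ K hKc
  have := hirr.nontrivial
  obtain ⟨v₀, hv₀⟩ := exists_ne (0 : V)
  let S : Set V := Set.range fun g => e (π g v₀)
  have hS : Submodule.span ℂ S = fixK π K := by
    have h1 : S = e '' (Set.range fun g => π g v₀) := by
      rw [← Set.range_comp]
      rfl
    rw [h1, Submodule.span_image, hirr.span_orbit hv₀]
    ext v
    constructor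
    · rintro ⟨w, -, rfl⟩
      exact he2 w
    · intro hv
      exact ⟨v, trivial, he3 v hv⟩
  obtain ⟨b, hbS, hbspan, hbli⟩ := exists_linearIndependent ℂ S
  -- the functional
  obtain ⟨ξ₀, hξ₀⟩ : ∃ ξ₀ : V →ₗ[ℂ] ℂ, ∀ x ∈ b, ξ₀ x = 1 := by
    refine ⟨(Module.Basis.extend hbli).constr ℂ (fun _ => (1 : ℂ)), fun x hx => ?_⟩
    have h1 : Module.Basis.extend hbli ⟨x, Module.Basis.subset_extend hbli hx⟩ = x :=
      Module.Basis.extend_apply_self hbli ⟨x, Module.Basis.subset_extend hbli hx⟩
    rw [← h1, Module.Basis.constr_basis]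
  let ξ : V →ₗ[ℂ] ℂ := ξ₀ ∘ₗ e
  have hξ : ξ ∈ gDual π := by
    have h1 : ∀ᶠ g in 𝓝 (1 : G), g ∈ K := hKo.mem_nhds K.one_mem
    show ∀ᶠ g in 𝓝 (1 : G), ∀ v, ξ (π g v) = ξ v
    filter_upwards [h1] with g hg v
    show ξ₀ (e (π g v)) = ξ₀ (e v)
    rw [he1 g hg]
  obtain ⟨C, hC, hCg⟩ := hHC v₀ ξ hξ
  obtain ⟨t, htC, ht⟩ := hC.elim_nhds_subcover (fun c => {g | g * c⁻¹ ∈ K}) (by
    intro c _
    have h1 : Tendsto (fun g : G => g * c⁻¹) (𝓝 c) (𝓝 1) := by
      have : Continuous (fun g : G => g * c⁻¹) := by fun_prop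
      simpa using this.tendsto c
    exact h1 (hKo.mem_nhds K.one_mem))
  let W : Submodule ℂ V := Submodule.span ℂ ((fun c => e (π c v₀)) '' (t : Set G))
  have hW : FiniteDimensional ℂ W := by
    refine FiniteDimensional.span_of_finite ℂ ?_
    exact t.finite_toSet.image _
  have hle : fixK π K ≤ W := by
    rw [← hS, ← hbspan, Submodule.span_le]
    intro x hx
    obtain ⟨g, rfl⟩ := hbS hx
    have h1 : ξ (π g v₀) ≠ 0 := by
      have h2 := hξ₀ _ hx
      show ξ₀ (e (π g v₀)) ≠ 0
      have h3 : ξ₀ (e (π g v₀)) = 1 := h2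
      rw [h3]
      exact one_ne_zero
    obtain ⟨c, hc, z, hz, rfl⟩ := hCg g h1
    have h2 := ht hc
    simp only [Set.mem_iUnion] at h2
    obtain ⟨c', hc', hk⟩ := h2
    have h3 : c = (c * c'⁻¹) * c' := by group
    have h4 : e (π (c * z) v₀) = χ z • e (π c' v₀) := by
      rw [map_mul, Module.End.mul_apply, hZ z hz, map_smul, map_smul]
      congr 1
      rw [h3, map_mul, Module.End.mul_apply]
      exact he1 _ hk _
    show e (π (c * z) v₀) ∈ W
    rw [h4]
    exact Submodule.smul_mem _ _ (Submodule.subset_span ⟨c', hc', rfl⟩)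
  exact Submodule.finiteDimensional_of_le hle

/-- **Schur's lemma.** -/
theorem schur_hc (hG : ∀ U ∈ 𝓝 (1 : G), ∃ K : Subgroup G,
      IsOpen (K : Set G) ∧ IsCompact (K : Set G) ∧ (K : Set G) ⊆ U)
    {π : G →* Module.End ℂ V} (hπ : IsSmoothRep π) (hirr : IsIrrRep π)
    {Z : Subgroup G} {χ : G → ℂ} (hZ : ∀ z ∈ Z, ∀ v, π z v = χ z • v) (hHC : HasHC Z π)
    (T : V →ₗ[ℂ] V) (hT : ∀ g v, T (π g v) = π g (T v)) : ∃ c : ℂ, ∀ v, T v = c • v := by
  have := hirr.nontrivial
  obtain ⟨v₀, hv₀⟩ := exists_ne (0 : V)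
  obtain ⟨K, hKo, hKc, hK⟩ := hG _ (hπ v₀)
  have hfd := finite_fixK hπ hirr hZ hHC K hKo hKc
  have hv₀K : v₀ ∈ fixK π K := fun k hk => hK hk
  have : Nontrivial (fixK π K) := ⟨⟨⟨v₀, hv₀K⟩, 0, fun h => hv₀ (congrArg Subtype.val h)⟩⟩
  have hTK : ∀ v ∈ fixK π K, T v ∈ fixK π K := by
    intro v hv k hk
    rw [← hT, hv k hk]
  obtain ⟨c, hc⟩ := Module.End.exists_eigenvalue (T.restrict hTK)
  obtain ⟨w, hw⟩ := hc.exists_hasEigenvector
  refine ⟨c, ?_⟩
  have h1 : T w = c • (w : V) := by
    have := hw.apply_eq_smul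
    exact congrArg Subtype.val this
  have h2 : (w : V) ≠ 0 := fun h => hw.2 (Subtype.ext h)
  have h := (hirr.irr (LinearMap.ker (T - c • LinearMap.id)) (by
    intro g v hv
    rw [LinearMap.mem_ker, LinearMap.sub_apply, LinearMap.smul_apply, LinearMap.id_apply,
      sub_eq_zero] at hv ⊢
    rw [hT, hv, map_smul])).resolve_left (by
    intro h
    apply h2
    have h3 : (w : V) ∈ LinearMap.ker (T - c • LinearMap.id) := by
      rw [LinearMap.mem_ker, LinearMap.sub_apply, LinearMap.smul_apply, LinearMap.id_apply, h1,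
        sub_self]
    rw [h] at h3
    exact h3)
  intro v
  have h3 : v ∈ LinearMap.ker (T - c • LinearMap.id) := by
    rw [h]
    trivial
  rw [LinearMap.mem_ker, LinearMap.sub_apply, LinearMap.smul_apply, LinearMap.id_apply,
    sub_eq_zero] at h3
  exact h3

end av

section tens

variable {G H : Type} [Group G] [Group H]
  {V W : Type} [AddCommGroup V] [Module ℂ V] [AddCommGroup W] [Module ℂ W]

/-- `V ⊗ W` is irreducible under `G × H`. -/
theorem tensor_irr {π : G →* Module.End ℂ V} (hirr : IsIrrRep π)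
    (hs : ∀ T : V →ₗ[ℂ] V, (∀ g v, T (π g v) = π g (T v)) → ∃ c : ℂ, ∀ v, T v = c • v)
    {π' : H →* Module.End ℂ W} (hirr' : IsIrrRep π') (T : Submodule ℂ (V ⊗[ℂ] W))
    (hT : ∀ g h, ∀ t ∈ T, TensorProduct.map (π g) (π' h) t ∈ T) : T = ⊥ ∨ T = ⊤ := by
  classical
  by_cases hbot : T = ⊥
  · exact Or.inl hbot
  right
  let b := Module.Basis.ofVectorSpace ℂ W
  let E := TensorProduct.equivFinsuppOfBasisRight (M := V) b
  have hE : ∀ (a : V →ₗ[ℂ] V) (t : V ⊗[ℂ] W) i, E (TensorProduct.map a LinearMap.id t) i =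
      a (E t i) := by
    intro a t i
    induction t using TensorProduct.induction_on with
    | zero => simp
    | tmul x y =>
      rw [TensorProduct.map_tmul, TensorProduct.equivFinsuppOfBasisRight_apply_tmul_apply,
        TensorProduct.equivFinsuppOfBasisRight_apply_tmul_apply, LinearMap.id_apply, map_smul]
    | add x y hx hy => rw [map_add, map_add, Finsupp.add_apply, hx, hy, map_add, Finsupp.add_apply,
        map_add]
  let A : Submodule ℂ (V →ₗ[ℂ] V) := Submodule.span ℂ (Set.range fun g => (π g : V →ₗ[ℂ] V))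
  have hA1 : ∀ g, ∀ a ∈ A, (π g : V →ₗ[ℂ] V) ∘ₗ a ∈ A := by
    intro g a ha
    induction ha using Submodule.span_induction with
    | mem x hx =>
      obtain ⟨h, rfl⟩ := hx
      refine Submodule.subset_span ⟨g * h, ?_⟩
      show π (g * h) = π g ∘ₗ π h
      rw [map_mul]
      rfl
    | zero => rw [LinearMap.comp_zero]; exact Submodule.zero_mem _
    | add x y _ _ hx hy => rw [LinearMap.comp_add]; exact Submodule.add_mem _ hx hy
    | smul c x _ hx => rw [LinearMap.comp_smul]; exact Submodule.smul_mem _ _ hx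
  have hAT : ∀ a ∈ A, ∀ t ∈ T, TensorProduct.map a LinearMap.id t ∈ T := by
    intro a ha t ht
    induction ha using Submodule.span_induction with
    | mem x hx =>
      obtain ⟨h, rfl⟩ := hx
      have h1 := hT h 1 t ht
      rwa [map_one] at h1
    | zero => simp
    | add x y _ _ hx hy =>
      rw [TensorProduct.map_add_left, LinearMap.add_apply]
      exact Submodule.add_mem _ hx hy
    | smul c x _ hx =>
      rw [TensorProduct.map_smul_left, LinearMap.smul_apply]
      exact Submodule.smul_mem _ _ hx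
  have hone : (LinearMap.id : V →ₗ[ℂ] V) ∈ A := Submodule.subset_span ⟨1, by
    show π 1 = LinearMap.id
    rw [map_one]; rfl⟩
  -- an element of minimal length
  have hex : ∃ n, ∃ t ∈ T, t ≠ 0 ∧ (E t).support.card = n := by
    obtain ⟨t, ht, ht0⟩ := (Submodule.ne_bot_iff T).1 hbot
    exact ⟨_, t, ht, ht0, rfl⟩
  obtain ⟨t, htT, ht0, htc⟩ := Nat.find_spec hex
  have hmin : ∀ s ∈ T, (E s).support.card < (E t).support.card → s = 0 := by
    intro s hs1 hs2
    by_contra hs0
    rw [htc] at hs2
    exact Nat.find_min hex hs2 ⟨s, hs1, hs0, rfl⟩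
  have hEt : E t ≠ 0 := fun h => ht0 (E.injective (by rw [h, map_zero]))
  obtain ⟨i₀, hi₀⟩ := Finsupp.support_nonempty_iff.2 hEt
  have hx0 : E t i₀ ≠ 0 := Finsupp.mem_support_iff.1 hi₀
  have hkill : ∀ a ∈ A, a (E t i₀) = 0 → ∀ j, a (E t j) = 0 := by
    intro a ha h0 j
    have h1 : TensorProduct.map a LinearMap.id t = 0 := by
      apply hmin _ (hAT a ha t htT)
      apply Finset.card_lt_card
      rw [Finset.ssubset_iff_of_subset]
      · refine ⟨i₀, hi₀, ?_⟩
        rw [Finsupp.notMem_support_iff, hE, h0]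
      · intro i hi
        rw [Finsupp.mem_support_iff] at hi ⊢
        intro h
        apply hi
        rw [hE, h, map_zero]
    rw [← hE, h1, map_zero, Finsupp.zero_apply]
  -- the evaluation map has a section
  let ev : A →ₗ[ℂ] V := (LinearMap.applyₗ (E t i₀)).comp A.subtype
  have hev : Function.Surjective ev := by
    rw [← LinearMap.range_eq_top]
    refine (hirr.irr (LinearMap.range ev) ?_).resolve_left ?_
    · rintro g v ⟨a, rfl⟩
      exact ⟨⟨(π g : V →ₗ[ℂ] V) ∘ₗ a.1, hA1 g a.1 a.2⟩, rfl⟩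
    · intro h
      apply hx0
      have h1 : E t i₀ ∈ LinearMap.range ev := ⟨⟨LinearMap.id, hone⟩, rfl⟩
      rw [h] at h1
      exact h1
  obtain ⟨σ, hσ⟩ := LinearMap.exists_rightInverse_of_surjective ev (LinearMap.range_eq_top.2 hev)
  have hσ' : ∀ v, (σ v).1 (E t i₀) = v := fun v => LinearMap.congr_fun hσ v
  have hcoef : ∀ j, ∃ c : ℂ, E t j = c • E t i₀ := by
    intro j
    let φ : V →ₗ[ℂ] V := (LinearMap.applyₗ (E t j)).comp (A.subtype.comp σ)
    have hφ : ∀ v, φ v = (σ v).1 (E t j) := fun _ => rfl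
    have hφ' : ∀ a ∈ A, φ (a (E t i₀)) = a (E t j) := by
      intro a ha
      rw [hφ, ← sub_eq_zero]
      have h1 := hkill ((σ (a (E t i₀))).1 - a) (A.sub_mem (σ _).2 ha) (by
        rw [LinearMap.sub_apply, hσ', sub_self]) j
      rwa [LinearMap.sub_apply] at h1
    obtain ⟨c, hc⟩ := hs φ (by
      intro g v
      have h1 := hφ' _ (hA1 g (σ v).1 (σ v).2)
      have h2 : ((π g : V →ₗ[ℂ] V) ∘ₗ (σ v).1) (E t i₀) = π g v := by
        rw [LinearMap.comp_apply, hσ']
      rw [h2] at h1
      rw [h1, hφ]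
      rfl)
    refine ⟨c, ?_⟩
    have h1 := hφ' _ hone
    rw [LinearMap.id_apply, LinearMap.id_apply, hc] at h1
    exact h1.symm
  choose c hc using hcoef
  obtain ⟨w, hw⟩ : ∃ w : W, t = E t i₀ ⊗ₜ[ℂ] w := by
    refine ⟨∑ j ∈ (E t).support, c j • b j, ?_⟩
    have h1 : t = E.symm (E t) := (E.symm_apply_apply t).symm
    have h2 : E.symm (E t) = (E t).sum fun i m => m ⊗ₜ[ℂ] b i :=
      TensorProduct.equivFinsuppOfBasisRight_symm_apply b (E t)
    rw [TensorProduct.tmul_sum]
    conv_lhs => rw [h1, h2]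
    rw [Finsupp.sum]
    apply Finset.sum_congr rfl
    intro j _
    rw [TensorProduct.tmul_smul, TensorProduct.smul_tmul', ← hc j]
  have hw0 : w ≠ 0 := by
    rintro rfl
    rw [TensorProduct.tmul_zero] at hw
    exact ht0 hw
  -- all the pure tensors
  have h1 : ∀ v : V, v ⊗ₜ[ℂ] w ∈ T := by
    let S : Submodule ℂ V := T.comap ((TensorProduct.mk ℂ V W).flip w)
    have hS : S = ⊤ := by
      refine (hirr.irr S ?_).resolve_left ?_
      · intro g v hv
        have h2 := hT g 1 _ hv
        rw [map_one] at h2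
        exact h2
      · intro h
        apply hx0
        have h1 : E t i₀ ∈ S := by
          show E t i₀ ⊗ₜ[ℂ] w ∈ T
          rw [← hw]
          exact htT
        rw [h] at h1
        exact h1
    intro v
    have h3 : v ∈ S := by rw [hS]; trivial
    exact h3
  have h2 : ∀ (v : V) (u : W), v ⊗ₜ[ℂ] u ∈ T := by
    intro v
    let S : Submodule ℂ W := T.comap (TensorProduct.mk ℂ V W v)
    have hS : S = ⊤ := by
      refine (hirr'.irr S ?_).resolve_left ?_
      · intro g u hu
        have h2 := hT 1 g _ hu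
        rw [map_one] at h2
        exact h2
      · intro h
        apply hw0
        have h1 : w ∈ S := h1 v
        rw [h] at h1
        exact h1
    intro u
    have h3 : u ∈ S := by rw [hS]; trivial
    exact h3
  rw [eq_top_iff]
  intro s _
  induction s using TensorProduct.induction_on with
  | zero => exact T.zero_mem
  | tmul x y => exact h2 x y
  | add x y hx hy => exact T.add_mem (hx trivial) (hy trivial)

end tens

section rho

variable {E : Type} [NontriviallyNormedField E] [ProperSpace E] [MeasurableSpace E] [BorelSpace E]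
  {m n : ℕ} {V : Type} [AddCommGroup V] [Module ℂ V]

/-- `rho π s` is irreducible, given Schur's lemma for `π`. -/
theorem rho_irr_aux {π : GL (Fin m) E →* Module.End ℂ V} (hirr : IsIrrRep π)
    (hs : ∀ T : V →ₗ[ℂ] V, (∀ g v, T (π g v) = π g (T v)) → ∃ c : ℂ, ∀ v, T v = c • v) (s : ℝ) :
    IsIrrRep (rho π s) where
  nontrivial := by
    have := hirr.nontrivial
    infer_instance
  irr := by
    intro T hT
    apply tensor_irr hirr hs hirr T
    intro g h t ht
    have h1 := hT (g, h) t ht
    have h2 : rho π s (g, h) t = ((ad g ^ s * ad h ^ (-s) : ℝ) : ℂ) •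
        TensorProduct.map (π g) (π h) t := rfl
    have h3 : ((ad g ^ s * ad h ^ (-s) : ℝ) : ℂ) ≠ 0 := by
      rw [Complex.ofReal_ne_zero]
      exact (mul_pos (Real.rpow_pos_of_pos (ad_pos g) _) (Real.rpow_pos_of_pos (ad_pos h) _)).ne'
    rw [h2] at h1
    exact (Submodule.smul_mem_iff T h3).1 h1

/-- The central character as a function on the group. -/
theorem UnitCentral.exists_char {π : GL (Fin n) E →* Module.End ℂ V} (hu : UnitCentral π) :
    ∃ χ : GL (Fin n) E → ℂ, (∀ z ∈ scalZ n E, ‖χ z‖ = 1) ∧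
      ∀ z ∈ scalZ n E, ∀ v, π z v = χ z • v := by
  classical
  obtain ⟨χ, h1, h2⟩ := hu
  refine ⟨fun g => if h : ∃ z, Matrix.GeneralLinearGroup.scalar (R := E) (Fin n) z = g then
    χ h.choose else 0, ?_, ?_⟩
  · rintro _ ⟨z, rfl⟩
    have h : ∃ z', Matrix.GeneralLinearGroup.scalar (R := E) (Fin n) z' =
      Matrix.GeneralLinearGroup.scalar (R := E) (Fin n) z := ⟨z, rfl⟩
    show ‖if h : ∃ z', Matrix.GeneralLinearGroup.scalar (R := E) (Fin n) z' =
      Matrix.GeneralLinearGroup.scalar (R := E) (Fin n) z then χ h.choose else 0‖ = 1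
    rw [dif_pos h]
    exact h1 _
  · rintro _ ⟨z, rfl⟩ v
    have h : ∃ z', Matrix.GeneralLinearGroup.scalar (R := E) (Fin n) z' =
      Matrix.GeneralLinearGroup.scalar (R := E) (Fin n) z := ⟨z, rfl⟩
    show π (Matrix.GeneralLinearGroup.scalar (R := E) (Fin n) z) v =
      (if h : ∃ z', Matrix.GeneralLinearGroup.scalar (R := E) (Fin n) z' =
      Matrix.GeneralLinearGroup.scalar (R := E) (Fin n) z then χ h.choose else 0) • v
    rw [dif_pos h]
    conv_lhs => rw [← h.choose_spec]
    exact h2 _ v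

variable [IsUltrametricDist E]

/-- (HC) for cuspidal representations. -/
theorem IsCusp.hasHC {π : GL (Fin n) E →* Module.End ℂ V} (hπ : IsSmoothRep π) (hc : IsCusp π) :
    HasHC (scalZ n E) π := by
  apply hasHC_of_coinv hπ
  intro k hk0 hk v
  have h1 : v ∈ cvN π (Nk n k E) ⊤ := by
    rw [hc k hk0 hk]
    trivial
  refine Submodule.span_mono ?_ h1
  rintro x ⟨u, hu, w, -, rfl⟩
  exact ⟨u, hu, w, rfl⟩

/-- R4a: cuspidal irreducible representations are admissible. -/
theorem cusp_adm {π : GL (Fin n) E →* Module.End ℂ V} (hπ : IsSmoothRep π) (hirr : IsIrrRep π)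
    (hc : IsCusp π) (hu : UnitCentral π) (K : Subgroup (GL (Fin n) E))
    (hK : IsOpen (K : Set (GL (Fin n) E))) :
    ∃ S : Finset V, ∀ v, (∀ k ∈ K, π k v = v) → v ∈ Submodule.span ℂ (S : Set V) := by
  obtain ⟨χ, -, hχ⟩ := hu.exists_char
  obtain ⟨K', hK'o, hK'c, hK'⟩ := gl_basis _ (hK.mem_nhds K.one_mem)
  have h1 := finite_fixK hπ hirr hχ (hc.hasHC hπ) K' hK'o hK'c
  obtain ⟨S, hS⟩ := (Submodule.fg_iff_finiteDimensional (fixK π K')).2 h1
  refine ⟨S, fun v hv => ?_⟩
  rw [hS]
  exact fun k hk => hv k (hK' hk)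

/-- R4b: Schur's lemma. -/
theorem cusp_schur {π : GL (Fin n) E →* Module.End ℂ V} (hπ : IsSmoothRep π) (hirr : IsIrrRep π)
    (hc : IsCusp π) (hu : UnitCentral π) (T : Module.End ℂ V) (hT : ∀ g v, T (π g v) = π g (T v)) :
    ∃ c : ℂ, ∀ v, T v = c • v := by
  obtain ⟨χ, -, hχ⟩ := hu.exists_char
  exact schur_hc gl_basis hπ hirr hχ (hc.hasHC hπ) T hT

/-- R4c: `rho π s` is irreducible. -/
theorem rho_irr {π : GL (Fin m) E →* Module.End ℂ V} (hπ : IsSmoothRep π) (hirr : IsIrrRep π)
    (hc : IsCusp π) (hu : UnitCentral π) (s : ℝ) : IsIrrRep (rho π s) :=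
  rho_irr_aux hirr (cusp_schur hπ hirr hc hu) s

end rho

end SpW
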