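import Pool.Agent.Work.MP_3615d2_al.ModDet

/-!
MP_3615d2_al, Theorem B: the action `e ↦ dᵀ e d` of `GL_m(E)` on the alternating matrices; its
determinant is `det(d)^(m-1)`.
-/

open Matrix

namespace SpW

section alg

variable {E : Type} [Field E] {m : ℕ}

/-- The positions above the diagonal. -/
abbrev Up (m : ℕ) : Type := {p : Fin m × Fin m // p.1 < p.2}

/-- The alternating matrix with the given entries above the diagonal. -/
def altM (u : Up m → E) : Matrix (Fin m) (Fin m) E := fun i j =>
  if h : i < j then u ⟨(i, j), h⟩ else if h' : j < i then - u ⟨(j, i), h'⟩ else 0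

/-- The entries above the diagonal. -/
def upM (M : Matrix (Fin m) (Fin m) E) : Up m → E := fun p => M p.1.1 p.1.2

theorem altM_transpose (u : Up m → E) : (altM u).transpose = - altM u := by
  ext i j
  rw [Matrix.transpose_apply, Matrix.neg_apply]
  unfold altM
  rcases lt_trichotomy i j with h | h | h
  · rw [dif_neg (not_lt.2 h.le), dif_pos h, dif_pos h]
  · subst h
    rw [dif_neg (lt_irrefl _), dif_neg (lt_irrefl _), neg_zero]
  · rw [dif_pos h, dif_neg (not_lt.2 h.le), dif_pos h, neg_neg]

theorem upM_altM (u : Up m → E) : upM (altM u) = u := by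
  funext p
  unfold upM altM
  rw [dif_pos p.2]

theorem altM_upM (h2 : (2 : E) ≠ 0) {M : Matrix (Fin m) (Fin m) E} (hM : M.transpose = - M) :
    altM (upM M) = M := by
  have h1 : ∀ i j, M j i = - M i j := fun i j => by
    have := congrFun (congrFun hM i) j
    rwa [Matrix.transpose_apply, Matrix.neg_apply] at this
  ext i j
  unfold upM altM
  rcases lt_trichotomy i j with h | h | h
  · rw [dif_pos h]
  · subst h
    rw [dif_neg (lt_irrefl _), dif_neg (lt_irrefl _)]
    have h3 : (2 : E) * M i i = 0 := by
      have := h1 i i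
      linear_combination this
    exact ((mul_eq_zero.1 h3).resolve_left h2).symm
  · rw [dif_neg (not_lt.2 h.le), dif_pos h]
    exact (h1 j i).symm

theorem altM_add (u v : Up m → E) : altM (u + v) = altM u + altM v := by
  ext i j
  rw [Matrix.add_apply]
  unfold altM
  split_ifs
  · rfl
  · rw [Pi.add_apply, neg_add]
  · rw [add_zero]

theorem altM_smul (c : E) (u : Up m → E) : altM (c • u) = c • altM u := by
  ext i j
  rw [Matrix.smul_apply]
  unfold altM
  split_ifs
  · rfl
  · rw [Pi.smul_apply, smul_neg]
  · rw [smul_zero]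

theorem transpose_cong (M : Matrix (Fin m) (Fin m) E) {X : Matrix (Fin m) (Fin m) E}
    (hX : X.transpose = - X) : (M.transpose * X * M).transpose = - (M.transpose * X * M) := by
  rw [Matrix.transpose_mul, Matrix.transpose_mul, Matrix.transpose_transpose, hX, Matrix.neg_mul,
    Matrix.mul_neg, Matrix.mul_assoc]

/-- The map `e ↦ Mᵀ e M` on alternating matrices. -/
def altT (M : Matrix (Fin m) (Fin m) E) : (Up m → E) →ₗ[E] (Up m → E) where
  toFun u := upM (M.transpose * altM u * M)
  map_add' u v := by
    rw [altM_add, Matrix.mul_add, Matrix.add_mul]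
    rfl
  map_smul' c u := by
    rw [altM_smul, Matrix.mul_smul, Matrix.smul_mul]
    rfl

theorem altM_altT (h2 : (2 : E) ≠ 0) (M : Matrix (Fin m) (Fin m) E) (u : Up m → E) :
    altM (altT M u) = M.transpose * altM u * M :=
  altM_upM h2 (transpose_cong M (altM_transpose u))

theorem altT_mul (h2 : (2 : E) ≠ 0) (M N : Matrix (Fin m) (Fin m) E) :
    altT (M * N) = altT N ∘ₗ altT M := by
  apply LinearMap.ext
  intro u
  show upM ((M * N).transpose * altM u * (M * N)) =
    upM (N.transpose * altM (altT M u) * N)
  rw [altM_altT h2, Matrix.transpose_mul]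
  simp only [Matrix.mul_assoc]

theorem altT_one : altT (1 : Matrix (Fin m) (Fin m) E) = LinearMap.id := by
  apply LinearMap.ext
  intro u
  show upM ((1 : Matrix (Fin m) (Fin m) E).transpose * altM u * 1) = u
  rw [Matrix.transpose_one, Matrix.one_mul, Matrix.mul_one, upM_altM]

/-- The determinant of the action on alternating matrices. -/
noncomputable def altDet (M : Matrix (Fin m) (Fin m) E) : E := LinearMap.det (altT M)

theorem altDet_mul (h2 : (2 : E) ≠ 0) (M N : Matrix (Fin m) (Fin m) E) :
    altDet (M * N) = altDet M * altDet N := by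
  unfold altDet
  rw [altT_mul h2, LinearMap.det_comp, mul_comm]

theorem altDet_one : altDet (1 : Matrix (Fin m) (Fin m) E) = 1 := by
  unfold altDet
  rw [altT_one, LinearMap.det_id]

theorem altDet_ne (h2 : (2 : E) ≠ 0) {M : Matrix (Fin m) (Fin m) E} (h : M.det ≠ 0) :
    altDet M ≠ 0 := by
  intro h0
  have h1 : altDet (M * M⁻¹) = 1 := by
    rw [Matrix.mul_nonsing_inv _ (Ne.isUnit h), altDet_one]
  rw [altDet_mul h2, h0, zero_mul] at h1
  exact zero_ne_one h1

theorem altDet_diagonal (D : Fin m → E) :
    altDet (Matrix.diagonal D) = (Matrix.diagonal D).det ^ (m - 1) := by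
  have h1 : altT (Matrix.diagonal D) =
      Matrix.toLin' (Matrix.diagonal fun p : Up m => D p.1.1 * D p.1.2) := by
    apply LinearMap.ext
    intro u
    funext p
    show ((Matrix.diagonal D).transpose * altM u * Matrix.diagonal D) p.1.1 p.1.2 = _
    rw [Matrix.toLin'_apply, Matrix.mulVec_diagonal, Matrix.diagonal_transpose,
      Matrix.mul_diagonal, Matrix.diagonal_mul]
    have h3 : altM u p.1.1 p.1.2 = u p := congrFun (upM_altM u) p
    rw [h3]
    ring
  unfold altDet
  rw [h1, LinearMap.det_toLin', Matrix.det_diagonal, Matrix.det_diagonal, ← Finset.prod_pow]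
  -- the product over pairs
  have h4 : ∀ i : Fin m, D i ^ (m - 1) = ∏ j ∈ Finset.univ.filter (fun j => j ≠ i), D i := by
    intro i
    rw [Finset.prod_const]
    congr 1
    rw [Finset.filter_ne', Finset.card_erase_of_mem (Finset.mem_univ _), Finset.card_univ,
      Fintype.card_fin]
  have h5 : ∀ i : Fin m, D i ^ (m - 1) =
      (∏ j ∈ Finset.univ.filter (fun j => i < j), D i) *
        ∏ j ∈ Finset.univ.filter (fun j => j < i), D i := by
    intro i
    rw [h4, ← Finset.prod_union]
    · refine Finset.prod_congr ?_ fun _ _ => rfl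
      ext j
      simp only [Finset.mem_filter, Finset.mem_univ, true_and, Finset.mem_union]
      constructor
      · intro h
        exact (lt_or_gt_of_ne h).symm
      · rintro (h | h)
        · exact h.ne'
        · exact h.ne
    · rw [Finset.disjoint_filter]
      intro j _ h
      exact not_lt.2 h.le
  rw [Finset.prod_congr rfl fun i _ => h5 i]
  have h6 : ∀ F : Fin m → Fin m → E, ∏ p : Up m, F p.1.1 p.1.2 =
      ∏ i, ∏ j ∈ Finset.univ.filter (fun j => i < j), F i j := by
    intro F
    have e1 : ∏ p : Up m, F p.1.1 p.1.2 =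
        ∏ p ∈ (Finset.univ : Finset (Fin m × Fin m)).filter (fun p => p.1 < p.2),
          F p.1 p.2 := by
      rw [Finset.prod_subtype ((Finset.univ : Finset (Fin m × Fin m)).filter (fun p => p.1 < p.2))
        (p := fun p : Fin m × Fin m => p.1 < p.2) (by simp) (fun p => F p.1 p.2)]
    rw [e1, Finset.prod_filter, ← Finset.univ_product_univ, Finset.prod_product]
    refine Finset.prod_congr rfl fun i _ => ?_
    rw [Finset.prod_filter]
  have h7 : ∏ i, ∏ j ∈ Finset.univ.filter (fun j => j < i), D i =
      ∏ i, ∏ j ∈ Finset.univ.filter (fun j => i < j), D j := by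
    simp_rw [Finset.prod_filter]
    rw [Finset.prod_comm]
  have h8 : ∏ i, ((∏ j ∈ Finset.univ.filter (fun j => i < j), D i) *
      ∏ j ∈ Finset.univ.filter (fun j => j < i), D i) =
      ∏ p : Up m, D p.1.1 * D p.1.2 := by
    rw [Finset.prod_mul_distrib, h7, ← h6 (fun i _ => D i), ← h6 (fun _ j => D j),
      ← Finset.prod_mul_distrib]
  exact h8.symm

theorem altDet_transvection (h2 : (2 : E) ≠ 0) (i j : Fin m) (hij : i ≠ j) (c : E) :
    altDet (Matrix.transvection i j c) = 1 := by
  have hd : (Matrix.transvection i j c).det ≠ 0 := by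
    rw [Matrix.det_transvection_of_ne i j hij]
    exact one_ne_zero
  have hD : (Matrix.diagonal (Function.update (1 : Fin m → E) i 2)).det ≠ 0 := by
    rw [Matrix.det_diagonal, Finset.prod_ne_zero_iff]
    intro k _
    by_cases hk : k = i
    · rw [hk, Function.update_self]
      exact h2
    · rw [Function.update_of_ne hk]
      exact one_ne_zero
  have e1 : Matrix.diagonal (Function.update (1 : Fin m → E) i 2) * Matrix.transvection i j c =
      (Matrix.transvection i j c * Matrix.transvection i j c) *
        Matrix.diagonal (Function.update (1 : Fin m → E) i 2) := by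
    rw [Matrix.transvection_mul_transvection_same (i := i) (j := j) hij]
    rw [Matrix.transvection, Matrix.transvection, mul_add, add_mul, mul_one, one_mul]
    congr 1
    ext k l
    rw [Matrix.diagonal_mul, Matrix.mul_diagonal]
    by_cases hk : k = i
    · by_cases hl : l = j
      · rw [hk, hl, Function.update_self, Function.update_of_ne (Ne.symm hij)]
        simp
        ring
      · simp [Ne.symm hl]
    · simp [Ne.symm hk]
  have e3 := congrArg altDet e1
  rw [altDet_mul h2, altDet_mul h2, altDet_mul h2, mul_comm] at e3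
  have e4 := mul_right_cancel₀ (altDet_ne h2 hD) e3
  exact mul_left_cancel₀ (altDet_ne h2 hd) (by rw [mul_one]; exact e4.symm)

theorem altDet_eq (h2 : (2 : E) ≠ 0) {M : Matrix (Fin m) (Fin m) E} (h : M.det ≠ 0) :
    altDet M = M.det ^ (m - 1) := by
  refine Matrix.diagonal_transvection_induction_of_det_ne_zero
    (fun M => altDet M = M.det ^ (m - 1)) M h ?_ ?_ ?_
  · intro D _
    exact altDet_diagonal D
  · intro t
    have h1 : t.toMatrix.det = 1 := by simp
    rw [h1, one_pow]
    exact altDet_transvection h2 t.i t.j t.hij t.c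
  · intro A B _ _ h1 h2'
    rw [altDet_mul h2, h1, h2', Matrix.det_mul, mul_pow]

/-- The automorphism `e ↦ dᵀ e d` of the alternating matrices. -/
noncomputable def altE (h2 : (2 : E) ≠ 0) (d : GL (Fin m) E) : (Up m → E) ≃ₗ[E] (Up m → E) :=
  LinearEquiv.ofLinearMap (altT (d : Matrix (Fin m) (Fin m) E))
    (altT ((d⁻¹ : GL (Fin m) E) : Matrix (Fin m) (Fin m) E))
    (by rw [← altT_mul h2, ← Units.val_mul, inv_mul_cancel, Units.val_one, altT_one])
    (by rw [← altT_mul h2, ← Units.val_mul, mul_inv_cancel, Units.val_one, altT_one])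

theorem altM_altE (h2 : (2 : E) ≠ 0) (d : GL (Fin m) E) (u : Up m → E) :
    altM (altE h2 d u) = (d : Matrix (Fin m) (Fin m) E).transpose * altM u * d :=
  altM_altT h2 _ u

theorem det_altE (h2 : (2 : E) ≠ 0) (d : GL (Fin m) E) :
    LinearMap.det ((altE h2 d : (Up m → E) ≃ₗ[E] (Up m → E)) : (Up m → E) →ₗ[E] (Up m → E)) =
      (d : Matrix (Fin m) (Fin m) E).det ^ (m - 1) := by
  have h : (d : Matrix (Fin m) (Fin m) E).det ≠ 0 :=
    ((Matrix.isUnit_iff_isUnit_det _).1 (Units.isUnit d)).ne_zero
  rw [← altDet_eq h2 h]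
  rfl

end alg

end SpW
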