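import Pool.Agent.Work.MP_3615d2_al.DefsB

/-!
MP_3615d2_al, Theorem B: the representation of `GL_N(E)` on the locally constant compactly
supported functions on the space of alternating forms is smooth.
-/

open MeasureTheory Matrix Filter Topology

namespace SpW

section gen

variable {U X : Type} [Group U] [TopologicalSpace U] [IsTopologicalGroup U] [TopologicalSpace X]
  [MulAction U X] [ContinuousSMul U X]

/-- The action of `U` on `Sch X ℂ`. -/
noncomputable def trRep (U X : Type) [Group U] [TopologicalSpace U] [TopologicalSpace X]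
    [MulAction U X] [ContinuousSMul U X] : U →* Module.End ℂ (Sch X ℂ) where
  toFun g := gact (1 : U →* Module.End ℂ ℂ) g
  map_one' := by
    apply LinearMap.ext
    intro f
    apply Sch.ext'
    intro x
    rw [gact_apply, inv_one, one_smul]
    rfl
  map_mul' g h := by
    apply LinearMap.ext
    intro f
    apply Sch.ext'
    intro x
    rw [Module.End.mul_apply, gact_apply, gact_apply, gact_apply, _root_.mul_inv_rev, mul_smul]
    rfl

omit [IsTopologicalGroup U] in
theorem trRep_apply (g : U) (f : Sch X ℂ) (x : X) :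
    (trRep U X g f : X → ℂ) x = (f : X → ℂ) (g⁻¹ • x) := rfl

theorem trRep_smooth : IsSmoothRep (trRep U X) := by
  intro f
  obtain ⟨hf, K, hK, hfK⟩ := f.2
  have h1 : ∀ x, ∀ᶠ p : U × X in 𝓝 (1, x), (f : X → ℂ) (p.1 • p.2) = (f : X → ℂ) p.2 := by
    intro x
    have h2 : ContinuousAt (fun p : U × X => p.1 • p.2) (1, x) := continuous_smul.continuousAt
    have h3 : ∀ᶠ y in 𝓝 x, (f : X → ℂ) y = (f : X → ℂ) x := hf.eventually_eq x
    have h4 : Tendsto (fun p : U × X => p.1 • p.2) (𝓝 (1, x)) (𝓝 x) := by
      have := h2.tendsto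
      simpa using this
    filter_upwards [h4.eventually h3, continuous_snd.continuousAt.eventually h3] with p hp hp'
    rw [hp, hp']
  have h5 : ∀ᶠ g in 𝓝 (1 : U), ∀ x ∈ K, (f : X → ℂ) (g • x) = (f : X → ℂ) x := by
    refine hK.eventually_forall_of_forall_eventually fun x _ => ?_
    exact h1 x
  have h6 : ∀ᶠ g in 𝓝 (1 : U), ∀ x ∈ K, (f : X → ℂ) (g⁻¹ • x) = (f : X → ℂ) x := by
    have : Tendsto (fun g : U => g⁻¹) (𝓝 1) (𝓝 1) := by
      have := (continuous_inv (G := U)).tendsto 1
      simpa using this
    exact this.eventually h5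
  filter_upwards [h5, h6] with g hg hg'
  apply Sch.ext'
  intro x
  rw [trRep_apply]
  by_cases hx : x ∈ K
  · exact hg' x hx
  · rw [hfK x hx]
    by_cases hx' : g⁻¹ • x ∈ K
    · have h7 := hg _ hx'
      rw [smul_inv_smul, hfK x hx] at h7
      exact h7.symm
    · exact hfK _ hx'

end gen

section alt

variable {E : Type} [NontriviallyNormedField E]

instance altSMulGL {N : ℕ} : ContinuousSMul (GL (Fin N) E) (Alt N E) := by
  constructor
  apply Continuous.subtype_mk
  have h1 : Continuous fun p : GL (Fin N) E × Alt N E =>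
      ((p.1⁻¹ : GL (Fin N) E) : Matrix (Fin N) (Fin N) E) :=
    Units.continuous_val.comp (continuous_inv.comp continuous_fst)
  have h2 : Continuous fun p : GL (Fin N) E × Alt N E => p.2.1 :=
    continuous_subtype_val.comp continuous_snd
  exact (h1.matrix_transpose.matrix_mul h2).matrix_mul h1

/-- The representation of `GL_N(E)` on the functions on `Alt`. -/
noncomputable def altRep (N : ℕ) (E : Type) [NontriviallyNormedField E] :
    GL (Fin N) E →* Module.End ℂ (Sch (Alt N E) ℂ) := trRep (GL (Fin N) E) (Alt N E)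

theorem altRep_apply {N : ℕ} (g : GL (Fin N) E) (f : Sch (Alt N E) ℂ) (B : Alt N E) :
    (altRep N E g f : Alt N E → ℂ) B = (f : Alt N E → ℂ) (g⁻¹ • B) := rfl

theorem altRep_smooth {N : ℕ} : IsSmoothRep (altRep N E) := trRep_smooth

theorem isTransl_iff {N : ℕ} (g : GL (Fin N) E) (f f' : Sch (Alt N E) ℂ) :
    IsTransl g f f' ↔ f' = altRep N E g f := by
  constructor
  · intro h
    exact Sch.ext' fun B => h B
  · rintro rfl B
    rfl

end alt

end SpW
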