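import Pool.Agent.Work.MP_3615d2_al.Defs

/-!
MP_3615d2_al: blocks.  Definitions only.

`δ ∈ E`, `σ δ = -δ`, `δ² = d ∈ F`.  For an alternating form `B` on `X = E^N` write
`B(x,y) = h(x, J y)`; `J` is `σ`-semilinear; `A = J²`.
-/

open Polynomial
open scoped Quaternion

namespace SpW

/-- A quadratic extension with chosen `δ`, `σ δ = -δ`, `δ * δ = d`. -/
structure QuadDatum {F E : Type} [Field F] [Field E] [Algebra F E] (σ : E ≃ₐ[F] E) (δ : E) (d : F) :
    Prop where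
  two : (2 : F) ≠ 0
  rank : Module.finrank F E = 2
  sig : σ δ = -δ
  ne : δ ≠ 0
  sq : δ * δ = algebraMap F E d

/-- Conclusion wanted from `finrank = 2` and `σ ≠ 1`. -/
def QuadDatumExists : Prop :=
  ∀ (F E : Type) [Field F] [Field E] [Algebra F E] (σ : E ≃ₐ[F] E), (2 : F) ≠ 0 →
    Module.finrank F E = 2 → (∃ x, σ x ≠ x) → ∃ (δ : E) (d : F), QuadDatum σ δ d

section

variable {F E : Type} [Field F] [Field E] [Algebra F E]

/-- `J y = σ(H⁻¹ B y)`, so that `yᵀ...`: `B(x,y) = h(x, J y)`. It is `F`-linear. -/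
noncomputable def Jlin (σ : E ≃ₐ[F] E) {N : ℕ} (H B : Matrix (Fin N) (Fin N) E) :
    Module.End F (Fin N → E) where
  toFun y := fun i => σ ((H⁻¹ * B).mulVec y i)
  map_add' x y := by
    funext i
    simp [Matrix.mulVec_add]
  map_smul' c x := by
    funext i
    have : (c • x : Fin N → E) = (algebraMap F E c) • x := by
      funext j
      simp [Algebra.smul_def]
    rw [this, Matrix.mulVec_smul]
    simp [Algebra.smul_def]

/-- `A = J²` as an `F`-linear operator. -/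
noncomputable def Alin (σ : E ≃ₐ[F] E) {N : ℕ} (H B : Matrix (Fin N) (Fin N) E) :
    Module.End F (Fin N → E) := Jlin σ H B * Jlin σ H B

/-- The matrix of `A = J²` over `E`: `σ(H⁻¹B) · (H⁻¹B)`. -/
noncomputable def Amat (σ : E ≃ₐ[F] E) {N : ℕ} (H B : Matrix (Fin N) (Fin N) E) :
    Matrix (Fin N) (Fin N) E := (H⁻¹ * B).map σ * (H⁻¹ * B)

/-- `x` generates a block of type `(p,n)`: `p(A)^n x = 0` and
`h(r(A) p(A)^(n-1) x, x) ≠ 0` for some `r`. -/
structure IsBlock (σ : E ≃ₐ[F] E) {N : ℕ} (H B : Matrix (Fin N) (Fin N) E) (p : F[X]) (n : ℕ)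
    (x : Fin N → E) : Prop where
  irr : Irreducible p
  pos : 0 < n
  kill : aeval (Alin σ H B) (p ^ n) x = 0
  top : ∃ r : F[X], sk σ H (aeval (Alin σ H B) (r * p ^ (n - 1)) x) x ≠ 0

/-- `R = F[t]/(p^n)`. -/
abbrev RR (p : F[X]) (n : ℕ) : Type := AdjoinRoot (p ^ n)

/-- `D_R = (d, t)_R`, `i = δ`, `j = J`. -/
abbrev DD (d : F) (p : F[X]) (n : ℕ) : Type :=
  QuaternionAlgebra (RR p n) (algebraMap F (RR p n) d) 0 (AdjoinRoot.root (p ^ n))

/-- The action of `r ∈ R` on a vector `x` with `p(A)^n x = 0`: `F[t] → X`, `f ↦ f(A) x` factors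
through `R`; junk value when `p(A)^n x ≠ 0`. -/
noncomputable def ract (σ : E ≃ₐ[F] E) {N : ℕ} (H B : Matrix (Fin N) (Fin N) E) (p : F[X]) (n : ℕ)
    (x : Fin N → E) (r : RR p n) : Fin N → E :=
  aeval (Alin σ H B) (Quotient.out (s := Submodule.quotientRel (Ideal.span {p ^ n})) r : F[X]) x

/-- The orbit map `D_R → X`, `a ↦ a x = a₀(A)x + δ a₁(A)x + a₂(A)Jx + δ a₃(A)Jx`. -/
noncomputable def blk (σ : E ≃ₐ[F] E) {N : ℕ} (H B : Matrix (Fin N) (Fin N) E) (δ : E) {d : F}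
    (p : F[X]) (n : ℕ) (x : Fin N → E) (a : DD d p n) : Fin N → E :=
  ract σ H B p n x a.re + δ • ract σ H B p n x a.imI
    + ract σ H B p n (Jlin σ H B x) a.imJ + δ • ract σ H B p n (Jlin σ H B x) a.imK

/-- `g ∈ U(X)` is the element acting on the block of `x` by right multiplication with `u`, and
trivially on the orthogonal complement of the block. -/
def IsBlkElt (σ : E ≃ₐ[F] E) {N : ℕ} (H B : Matrix (Fin N) (Fin N) E) (δ : E) {d : F}
    (p : F[X]) (n : ℕ) (x : Fin N → E) (u : DD d p n) (g : unitary σ H) : Prop :=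
  (∀ a : DD d p n, (umat g).mulVec (blk σ H B δ p n x a) = blk σ H B δ p n x (a * u)) ∧
  (∀ y : Fin N → E, (∀ a : DD d p n, sk σ H (blk σ H B δ p n x a) y = 0) → (umat g).mulVec y = y)

end

/-- All powers of `u` and of `ū = u⁻¹` are bounded (coordinate free). -/
def PowBdd (F : Type) [NontriviallyNormedField F] {V : Type} [Ring V] [Star V] [Module F V]
    (u : V) : Prop :=
  ∀ l : V →ₗ[F] F, ∃ C : ℝ, ∀ k : ℕ, ‖l (u ^ k)‖ ≤ C ∧ ‖l ((star u) ^ k)‖ ≤ C

end SpW
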