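import Mathlib

/-!
# Continuous sections of kernels of matrices of locally constant rank

`A x` a matrix depending continuously on `x`.  Near `x₀` the rank of `A x` is at least the rank of
`A x₀`, and every vector `w` of the kernel of `A x₀` extends to a continuous `W x`, which is in the
kernel of `A x` for all `x` near `x₀` with `rank (A x) ≤ rank (A x₀)`.
-/

open Filter Topology Matrix

namespace SpW

section

variable {K : Type*} [Field K] {m n : Type*} [Fintype m] [Fintype n]

theorem finrank_ker_add_rank [DecidableEq n] (A : Matrix m n K) :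
    Module.finrank K (LinearMap.ker A.mulVecLin) + A.rank = Fintype.card n := by
  rw [Matrix.rank, add_comm]
  simpa using A.mulVecLin.finrank_range_add_finrank_ker

variable [DecidableEq n]

/-- generalised inverse -/
theorem exists_ginv [DecidableEq m] (A : Matrix m n K) : ∃ Q : Matrix n m K, A * Q * A = A ∧ Q * A * Q = Q := by
  classical
  set f : (n → K) →ₗ[K] (m → K) := A.mulVecLin with hf
  obtain ⟨g, hg⟩ := f.rangeRestrict.exists_rightInverse_of_surjective f.range_rangeRestrict
  obtain ⟨q, hq⟩ := LinearMap.exists_extend g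
  have h1 : ∀ v, f (q (f v)) = f v := by
    intro v
    have h2 : q (f v) = g ⟨f v, LinearMap.mem_range_self f v⟩ := by
      rw [← hq]
      rfl
    rw [h2]
    have h3 := LinearMap.congr_fun hg ⟨f v, LinearMap.mem_range_self f v⟩
    have h4 := congrArg Subtype.val h3
    simpa using h4
  set Q : Matrix n m K := LinearMap.toMatrix' q with hQ
  have h5 : A * Q * A = A := by
    apply Matrix.ext_of_mulVec_single
    intro i
    have h6 := h1 (Pi.single i 1)
    rw [← Matrix.mulVec_mulVec, ← Matrix.mulVec_mulVec, hQ, LinearMap.toMatrix'_mulVec]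
    exact h6
  refine ⟨Q * A * Q, ?_, ?_⟩
  · rw [show A * (Q * A * Q) * A = (A * Q * A) * Q * A by simp only [Matrix.mul_assoc], h5, h5]
  · rw [show Q * A * Q * A * (Q * A * Q) = Q * (A * Q * A) * Q * A * Q by
      simp only [Matrix.mul_assoc], h5,
      show Q * A * Q * A * Q = Q * (A * Q * A) * Q by simp only [Matrix.mul_assoc], h5]

/-- The kernel of `Q * A` is at most as large as the kernel of `A₀` if `1 + Q * (A - A₀)` is
invertible. -/
theorem finrank_ker_le {A A₀ : Matrix m n K} {Q : Matrix n m K} (h1 : A₀ * Q * A₀ = A₀)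
    (hT : IsUnit (1 + Q * (A - A₀)).det) :
    Module.finrank K (LinearMap.ker (Q * A).mulVecLin) ≤
      Module.finrank K (LinearMap.ker A₀.mulVecLin) := by
  set T := 1 + Q * (A - A₀) with hTd
  have hinj : Function.Injective T.mulVec :=
    (Matrix.mulVec_injective_iff_isUnit).2 ((Matrix.isUnit_iff_isUnit_det _).2 hT)
  have key : ∀ v, (Q * A).mulVec v = 0 → A₀.mulVec (T.mulVec v) = 0 := by
    intro v hv
    have h2 : T.mulVec v = v - (Q * A₀).mulVec v := by
      rw [hTd, Matrix.mul_sub, Matrix.add_mulVec, Matrix.sub_mulVec, hv, Matrix.one_mulVec]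
      simp [sub_eq_add_neg]
    rw [h2, Matrix.mulVec_sub, Matrix.mulVec_mulVec, ← Matrix.mul_assoc, h1, sub_self]
  let φ : LinearMap.ker (Q * A).mulVecLin →ₗ[K] LinearMap.ker A₀.mulVecLin :=
    LinearMap.codRestrict _ (T.mulVecLin ∘ₗ (LinearMap.ker (Q * A).mulVecLin).subtype) fun v => by
      simpa using key v.1 (by simpa using v.2)
  refine LinearMap.finrank_le_finrank_of_injective (f := φ) ?_
  intro v w hvw
  have := congrArg Subtype.val hvw
  exact Subtype.ext (hinj (by simpa [φ] using this))

/-- lower semicontinuity of the rank, algebraic form -/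
theorem rank_le_of_isUnit {A A₀ : Matrix m n K} {Q : Matrix n m K} (h1 : A₀ * Q * A₀ = A₀)
    (hT : IsUnit (1 + Q * (A - A₀)).det) : A₀.rank ≤ A.rank := by
  have h2 := finrank_ker_le h1 hT
  have h3 : Module.finrank K (LinearMap.ker A.mulVecLin) ≤
      Module.finrank K (LinearMap.ker (Q * A).mulVecLin) := by
    refine Submodule.finrank_mono fun v hv => ?_
    simp only [LinearMap.mem_ker, Matrix.mulVecLin_apply] at hv ⊢
    rw [← Matrix.mulVec_mulVec, hv, Matrix.mulVec_zero]
  have h4 := finrank_ker_add_rank A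
  have h5 := finrank_ker_add_rank A₀
  omega

/-- the vector `T⁻¹ w` is in the kernel -/
theorem ker_of_isUnit {A A₀ : Matrix m n K} {Q : Matrix n m K} (h1 : A₀ * Q * A₀ = A₀)
    (h2 : Q * A₀ * Q = Q) (hT : IsUnit (1 + Q * (A - A₀)).det) (hr : A.rank ≤ A₀.rank)
    {w v : n → K} (hw : A₀.mulVec w = 0) (hv : (1 + Q * (A - A₀)).mulVec v = w) :
    A.mulVec v = 0 := by
  have h3 := finrank_ker_le h1 hT
  have h4 : LinearMap.ker A.mulVecLin ≤ LinearMap.ker (Q * A).mulVecLin := by
    intro v hv
    simp only [LinearMap.mem_ker, Matrix.mulVecLin_apply] at hv ⊢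
    rw [← Matrix.mulVec_mulVec, hv, Matrix.mulVec_zero]
  have h5 : LinearMap.ker A.mulVecLin = LinearMap.ker (Q * A).mulVecLin := by
    refine Submodule.eq_of_le_of_finrank_le h4 ?_
    have h6 := finrank_ker_add_rank A
    have h7 := finrank_ker_add_rank A₀
    omega
  have h6 : (Q * A).mulVec v = 0 := by
    have h8 : (Q * A₀).mulVec w = 0 := by rw [← Matrix.mulVec_mulVec, hw, Matrix.mulVec_zero]
    rw [← hv, Matrix.mulVec_mulVec, Matrix.mul_add, Matrix.mul_one, Matrix.mul_sub,
      Matrix.mul_sub, ← Matrix.mul_assoc, ← Matrix.mul_assoc, h2, add_sub_cancel] at h8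
    exact h8
  have h7 : v ∈ LinearMap.ker (Q * A).mulVecLin := by simpa using h6
  rw [← h5] at h7
  simpa using h7

end

section

variable {K : Type*} [Field K] [TopologicalSpace K] [IsTopologicalDivisionRing K] [T1Space K]
  {m n : Type*} [Fintype m] [Fintype n] [DecidableEq n] [DecidableEq m]
  {X : Type*} [TopologicalSpace X]

/-- the rank is lower semicontinuous -/
theorem eventually_rank_ge {A : X → Matrix m n K} (hA : Continuous A) (x₀ : X) :
    ∀ᶠ x in 𝓝 x₀, (A x₀).rank ≤ (A x).rank := by
  obtain ⟨Q, h1, -⟩ := exists_ginv (A x₀)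
  have hc : Continuous fun x => (1 + Q * (A x - A x₀)).det :=
    (continuous_const.add (continuous_const.matrix_mul (hA.sub continuous_const))).matrix_det
  have h2 : (1 + Q * (A x₀ - A x₀)).det ≠ 0 := by simp
  filter_upwards [hc.continuousAt.eventually_ne h2] with x hx
  exact rank_le_of_isUnit h1 (isUnit_iff_ne_zero.2 hx)

/-- continuous sections of kernels -/
theorem exists_ker_section {A : X → Matrix m n K} (hA : Continuous A) (x₀ : X) :
    ∃ (V : Set X) (R : X → Matrix n n K), IsOpen V ∧ x₀ ∈ V ∧ ContinuousOn R V ∧ R x₀ = 1 ∧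
      (∀ x ∈ V, (A x₀).rank ≤ (A x).rank) ∧
      ∀ w, (A x₀).mulVec w = 0 → ∀ x ∈ V, (A x).rank ≤ (A x₀).rank →
        (A x).mulVec ((R x).mulVec w) = 0 := by
  obtain ⟨Q, h1, h2⟩ := exists_ginv (A x₀)
  set T : X → Matrix n n K := fun x => 1 + Q * (A x - A x₀) with hT
  have hTc : Continuous T :=
    continuous_const.add (continuous_const.matrix_mul (hA.sub continuous_const))
  refine ⟨{x | (T x).det ≠ 0}, fun x => (T x)⁻¹, ?_, ?_, ?_, ?_, ?_, ?_⟩
  · exact isOpen_ne_fun hTc.matrix_det continuous_const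
  · simp [hT]
  · have : (fun x => (T x)⁻¹) = fun x => ((T x).det)⁻¹ • (T x).adjugate := by
      funext x
      rw [Matrix.inv_def, Ring.inverse_eq_inv']
    rw [this]
    exact (hTc.matrix_det.continuousOn.inv₀ fun x hx => hx).smul
      hTc.matrix_adjugate.continuousOn
  · simp [hT]
  · intro x hx
    exact rank_le_of_isUnit h1 (isUnit_iff_ne_zero.2 hx)
  · intro w hw x hx hr
    refine ker_of_isUnit h1 h2 (isUnit_iff_ne_zero.2 hx) hr hw ?_
    rw [Matrix.mulVec_mulVec]
    change (T x * (T x)⁻¹).mulVec w = w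
    rw [Matrix.mul_nonsing_inv _ (isUnit_iff_ne_zero.2 hx), Matrix.one_mulVec]

end

end SpW
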