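import Pool.Agent.Work.MP_3615d2_al.Gauge
import Pool.Agent.Work.MP_3615d2_al.Blk
import Pool.Agent.Work.MP_3615d2_al.RankSec

/-!
MP_3615d2_al: topology of the space of alternating forms and of the unitary group.
-/

open Set Topology Polynomial

namespace SpW

section top

variable {F E : Type} [NontriviallyNormedField F] [IsUltrametricDist F] [ProperSpace F]
  [NontriviallyNormedField E] [NormedAlgebra F E] [IsUltrametricDist E] [ProperSpace E]

omit [ProperSpace F] in
/-- A product of ultrametric fields has a basis of clopen sets. -/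
theorem pi_clopen_basis {ι : Type} (t : ι → F) (V : Set (ι → F)) (hV : V ∈ 𝓝 t) :
    ∃ W : Set (ι → F), IsClopen W ∧ t ∈ W ∧ W ⊆ V := by
  rw [nhds_pi, Filter.mem_pi] at hV
  obtain ⟨I, hI, t', ht', hs⟩ := hV
  have h1 : ∀ i, ∃ ε > 0, Metric.ball (t i) ε ⊆ t' i := fun i => Metric.mem_nhds_iff.1 (ht' i)
  choose ε hε hb using h1
  refine ⟨I.pi fun i => Metric.ball (t i) (ε i), ⟨?_, ?_⟩, ?_, ?_⟩
  · exact isClosed_set_pi fun i _ => (IsUltrametricDist.isClopen_ball _ _).isClosed
  · exact isOpen_set_pi hI fun i _ => Metric.isOpen_ball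
  · intro i _
    exact Metric.mem_ball_self (hε i)
  · intro x hx
    exact hs fun i hi => hb i (hx i hi)

instance altT2 {N : ℕ} : T2Space (Alt N E) := by
  unfold Alt
  infer_instance

instance altLC {N : ℕ} : LocallyCompactSpace (Alt N E) := by
  have h : IsLocallyClosed
      {B : Matrix (Fin N) (Fin N) E | B.transpose = -B ∧ IsUnit B.det} := by
    have h1 : IsClosed {B : Matrix (Fin N) (Fin N) E | B.transpose = -B} :=
      isClosed_eq (continuous_id.matrix_transpose) continuous_neg
    have h2 : IsOpen {B : Matrix (Fin N) (Fin N) E | IsUnit B.det} := by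
      have : {B : Matrix (Fin N) (Fin N) E | IsUnit B.det} =
          (fun B : Matrix (Fin N) (Fin N) E => B.det) ⁻¹' {x | x ≠ 0} := by
        ext B
        exact isUnit_iff_ne_zero
      rw [this]
      exact isOpen_ne.preimage continuous_id.matrix_det
    exact h1.isLocallyClosed.inter h2.isLocallyClosed
  haveI : LocallyCompactSpace (Matrix (Fin N) (Fin N) E) :=
    inferInstanceAs (LocallyCompactSpace (Fin N → Fin N → E))
  exact h.locallyCompactSpace

instance altTD {N : ℕ} : TotallyDisconnectedSpace (Alt N E) := by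
  haveI : TotallyDisconnectedSpace (Matrix (Fin N) (Fin N) E) :=
    inferInstanceAs (TotallyDisconnectedSpace (Fin N → Fin N → E))
  unfold Alt
  infer_instance

/-- `Alt` has a basis of compact open sets. -/
theorem alt_basis {N : ℕ} (B : Alt N E) (V : Set (Alt N E)) (hV : V ∈ 𝓝 B) :
    ∃ K : Set (Alt N E), IsOpen K ∧ IsCompact K ∧ B ∈ K ∧ K ⊆ V := by
  obtain ⟨C, hCn, hCV, hC⟩ := local_compact_nhds hV
  obtain ⟨K, hK, hBK, hKC⟩ :=
    (loc_compact_Haus_tot_disc_of_zero_dim (H := Alt N E)).mem_nhds_iff.1 hCn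
  exact ⟨K, hK.isOpen, hC.of_isClosed_subset hK.isClosed hKC, hBK, hKC.trans hCV⟩

omit [IsUltrametricDist E] [ProperSpace E] [IsUltrametricDist F] [ProperSpace F] in
instance altSMul {N : ℕ} (σ : E ≃ₐ[F] E) (H : Matrix (Fin N) (Fin N) E) :
    ContinuousSMul (unitary σ H) (Alt N E) := by
  constructor
  apply Continuous.subtype_mk
  have h1 : Continuous fun p : unitary σ H × Alt N E =>
      (((p.1 : GL (Fin N) E)⁻¹ : GL (Fin N) E) : Matrix (Fin N) (Fin N) E) :=
    Units.continuous_val.comp (continuous_inv.comp (continuous_subtype_val.comp continuous_fst))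
  have h2 : Continuous fun p : unitary σ H × Alt N E => p.2.1 :=
    continuous_subtype_val.comp continuous_snd
  exact (h1.matrix_transpose.matrix_mul h2).matrix_mul h1

end top

end SpW
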