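import Pool.Agent.Work.MP_3615d2_al.DefsB
import Pool.Agent.Work.MP_3615d2_al.HypTop

/-!
MP_3615d2_al, Theorem B: the blocks of a matrix and of an alternating form, the action of the
elements `pel a d y`.
-/

open Matrix Topology Filter

namespace SpW

section blocks

variable {E : Type} {m : ℕ}

/-- The upper left block. -/
def b11 (M : Matrix (Fin (2 * m)) (Fin (2 * m)) E) : Matrix (Fin m) (Fin m) E :=
  M.submatrix (fun i => sI m (Sum.inl i)) (fun i => sI m (Sum.inl i))

/-- The upper right block. -/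
def b12 (M : Matrix (Fin (2 * m)) (Fin (2 * m)) E) : Matrix (Fin m) (Fin m) E :=
  M.submatrix (fun i => sI m (Sum.inl i)) (fun i => sI m (Sum.inr i))

/-- The lower left block. -/
def b21 (M : Matrix (Fin (2 * m)) (Fin (2 * m)) E) : Matrix (Fin m) (Fin m) E :=
  M.submatrix (fun i => sI m (Sum.inr i)) (fun i => sI m (Sum.inl i))

/-- The lower right block. -/
def b22 (M : Matrix (Fin (2 * m)) (Fin (2 * m)) E) : Matrix (Fin m) (Fin m) E :=
  M.submatrix (fun i => sI m (Sum.inr i)) (fun i => sI m (Sum.inr i))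

@[simp] theorem b11_bm (a b c d : Matrix (Fin m) (Fin m) E) : b11 (bm a b c d) = a := by
  ext i j; simp [b11, bm]

@[simp] theorem b12_bm (a b c d : Matrix (Fin m) (Fin m) E) : b12 (bm a b c d) = b := by
  ext i j; simp [b12, bm]

@[simp] theorem b21_bm (a b c d : Matrix (Fin m) (Fin m) E) : b21 (bm a b c d) = c := by
  ext i j; simp [b21, bm]

@[simp] theorem b22_bm (a b c d : Matrix (Fin m) (Fin m) E) : b22 (bm a b c d) = d := by
  ext i j; simp [b22, bm]

theorem bm_eta (M : Matrix (Fin (2 * m)) (Fin (2 * m)) E) :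
    bm (b11 M) (b12 M) (b21 M) (b22 M) = M := by
  ext i j
  show (Matrix.fromBlocks (b11 M) (b12 M) (b21 M) (b22 M)) ((sI m).symm i) ((sI m).symm j) = M i j
  conv_rhs => rw [← (sI m).apply_symm_apply i, ← (sI m).apply_symm_apply j]
  cases (sI m).symm i <;> cases (sI m).symm j <;> rfl

theorem bm_inj {a b c d a' b' c' d' : Matrix (Fin m) (Fin m) E}
    (h : bm a b c d = bm a' b' c' d') : a = a' ∧ b = b' ∧ c = c' ∧ d = d' := by
  refine ⟨?_, ?_, ?_, ?_⟩
  · simpa using congrArg b11 h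
  · simpa using congrArg b12 h
  · simpa using congrArg b21 h
  · simpa using congrArg b22 h

variable [Field E]

theorem bm_neg (a b c d : Matrix (Fin m) (Fin m) E) :
    -(bm a b c d) = bm (-a) (-b) (-c) (-d) := by
  unfold bm
  rw [← Matrix.fromBlocks_neg]
  rfl

theorem bm_add (a b c d a' b' c' d' : Matrix (Fin m) (Fin m) E) :
    bm a b c d + bm a' b' c' d' = bm (a + a') (b + b') (c + c') (d + d') := by
  unfold bm
  rw [← Matrix.fromBlocks_add]
  rfl

theorem bm_det_zero (a b d : Matrix (Fin m) (Fin m) E) : (bm a b 0 d).det = a.det * d.det := by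
  unfold bm
  rw [Matrix.det_reindex_self, Matrix.det_fromBlocks_zero₂₁]

theorem pel_val (a d : GL (Fin m) E) (y : Matrix (Fin m) (Fin m) E) :
    ((pel a d y : GL (Fin (2 * m)) E) : Matrix (Fin (2 * m)) (Fin (2 * m)) E) =
      bm (a : Matrix (Fin m) (Fin m) E) y 0 (d : Matrix (Fin m) (Fin m) E) := rfl

theorem pel_inv (a d : GL (Fin m) E) (y : Matrix (Fin m) (Fin m) E) :
    (pel a d y)⁻¹ = pel a⁻¹ d⁻¹ (-(((a⁻¹ : GL (Fin m) E) : Matrix (Fin m) (Fin m) E) * y *
      ((d⁻¹ : GL (Fin m) E) : Matrix (Fin m) (Fin m) E))) := by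
  apply Units.ext
  rfl

/-- An element with lower left block zero, together with its inverse, is of the form `a y / 0 d`. -/
theorem eq_pel (g : GL (Fin (2 * m)) E) (h : b21 (g : Matrix (Fin (2 * m)) (Fin (2 * m)) E) = 0)
    (h' : b21 ((g⁻¹ : GL (Fin (2 * m)) E) : Matrix (Fin (2 * m)) (Fin (2 * m)) E) = 0) :
    ∃ (a d : GL (Fin m) E) (y : Matrix (Fin m) (Fin m) E), g = pel a d y := by
  have e1 := bm_eta (g : Matrix (Fin (2 * m)) (Fin (2 * m)) E)
  have e2 := bm_eta ((g⁻¹ : GL (Fin (2 * m)) E) : Matrix (Fin (2 * m)) (Fin (2 * m)) E)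
  rw [h] at e1
  rw [h'] at e2
  have e3 : (g : Matrix (Fin (2 * m)) (Fin (2 * m)) E) *
      ((g⁻¹ : GL (Fin (2 * m)) E) : Matrix (Fin (2 * m)) (Fin (2 * m)) E) = 1 := Units.mul_inv g
  have e4 : ((g⁻¹ : GL (Fin (2 * m)) E) : Matrix (Fin (2 * m)) (Fin (2 * m)) E) *
      (g : Matrix (Fin (2 * m)) (Fin (2 * m)) E) = 1 := Units.inv_mul g
  rw [← e1, ← e2, bm_mul, ← bm_one] at e3
  rw [← e1, ← e2, bm_mul, ← bm_one] at e4
  obtain ⟨p1, -, -, p4⟩ := bm_inj e3
  obtain ⟨q1, -, -, q4⟩ := bm_inj e4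
  simp only [mul_zero, zero_mul, add_zero, zero_add] at p1 p4 q1 q4
  refine ⟨⟨_, _, p1, q1⟩, ⟨_, _, p4, q4⟩, b12 (g : Matrix (Fin (2 * m)) (Fin (2 * m)) E), ?_⟩
  apply Units.ext
  rw [pel_val]
  exact e1.symm

theorem ginv_smul_val {N : ℕ} (g : GL (Fin N) E) (B : Alt N E) :
    (g⁻¹ • B).1 = (g : Matrix (Fin N) (Fin N) E).transpose * B.1 * (g : Matrix (Fin N) (Fin N) E) := by
  show ((g⁻¹⁻¹ : GL (Fin N) E) : Matrix (Fin N) (Fin N) E).transpose * B.1 *
    ((g⁻¹⁻¹ : GL (Fin N) E) : Matrix (Fin N) (Fin N) E) = _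
  rw [inv_inv]

theorem alt_b21 (B : Alt (2 * m) E) : b21 B.1 = -(b12 B.1).transpose := by
  ext i j
  exact congrFun (congrFun B.2.1 (sI m (Sum.inl j))) (sI m (Sum.inr i))

theorem alt_b11 (B : Alt (2 * m) E) : (b11 B.1).transpose = -b11 B.1 := by
  ext i j
  exact congrFun (congrFun B.2.1 (sI m (Sum.inl i))) (sI m (Sum.inl j))

theorem alt_b22 (B : Alt (2 * m) E) : (b22 B.1).transpose = -b22 B.1 := by
  ext i j
  exact congrFun (congrFun B.2.1 (sI m (Sum.inr i))) (sI m (Sum.inr j))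

theorem alt_eta (B : Alt (2 * m) E) :
    B.1 = bm (b11 B.1) (b12 B.1) (-(b12 B.1).transpose) (b22 B.1) := by
  rw [← alt_b21]
  exact (bm_eta B.1).symm

/-- The action in blocks. -/
theorem pel_inv_smul (a d : GL (Fin m) E) (y : Matrix (Fin m) (Fin m) E) (B : Alt (2 * m) E) :
    b11 ((pel a d y)⁻¹ • B).1 = (a : Matrix (Fin m) (Fin m) E).transpose * b11 B.1 *
        (a : Matrix (Fin m) (Fin m) E) ∧
      b12 ((pel a d y)⁻¹ • B).1 = (a : Matrix (Fin m) (Fin m) E).transpose *
        (b11 B.1 * y + b12 B.1 * (d : Matrix (Fin m) (Fin m) E)) ∧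
      b22 ((pel a d y)⁻¹ • B).1 = y.transpose * (b11 B.1 * y +
        b12 B.1 * (d : Matrix (Fin m) (Fin m) E)) +
        (d : Matrix (Fin m) (Fin m) E).transpose * (-(b12 B.1).transpose * y +
        b22 B.1 * (d : Matrix (Fin m) (Fin m) E)) := by
  have h : ((pel a d y)⁻¹ • B).1 = bm (a : Matrix (Fin m) (Fin m) E).transpose 0 y.transpose
      (d : Matrix (Fin m) (Fin m) E).transpose *
      (bm (b11 B.1) (b12 B.1) (-(b12 B.1).transpose) (b22 B.1) *
        bm (a : Matrix (Fin m) (Fin m) E) y 0 (d : Matrix (Fin m) (Fin m) E)) := by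
    rw [ginv_smul_val, pel_val, bm_transpose, Matrix.transpose_zero, ← alt_eta, Matrix.mul_assoc]
  rw [bm_mul, bm_mul] at h
  rw [h]
  refine ⟨?_, ?_, ?_⟩
  · rw [b11_bm]; simp [Matrix.mul_assoc]
  · rw [b12_bm]; simp
  · rw [b22_bm]

/-- The determinant of a form for which the first `m` basis vectors span an isotropic subspace. -/
theorem bm_det_iso (x c : Matrix (Fin m) (Fin m) E) :
    (bm 0 x (-x.transpose) c).det =
      (bm 0 1 1 0 : Matrix (Fin (2 * m)) (Fin (2 * m)) E).det * (-1) ^ m * x.det ^ 2 := by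
  have h : bm 0 x (-x.transpose) c = bm 0 1 1 0 * bm (-x.transpose) c 0 x := by
    rw [bm_mul]
    simp
  rw [h, Matrix.det_mul, bm_det_zero, Matrix.det_neg, Matrix.det_transpose, Fintype.card_fin]
  ring

theorem bm_wel_sq : (bm 0 1 1 0 : Matrix (Fin (2 * m)) (Fin (2 * m)) E).det ^ 2 = 1 := by
  rw [sq, ← Matrix.det_mul, bm_mul]
  simp [bm_one]

end blocks

section top

variable {E : Type} [NontriviallyNormedField E] {m : ℕ}

theorem continuous_b11 {Y : Type} [TopologicalSpace Y]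
    {f : Y → Matrix (Fin (2 * m)) (Fin (2 * m)) E} (hf : Continuous f) :
    Continuous fun y => b11 (f y) := hf.matrix_submatrix _ _

theorem continuous_b12 {Y : Type} [TopologicalSpace Y]
    {f : Y → Matrix (Fin (2 * m)) (Fin (2 * m)) E} (hf : Continuous f) :
    Continuous fun y => b12 (f y) := hf.matrix_submatrix _ _

theorem continuous_b22 {Y : Type} [TopologicalSpace Y]
    {f : Y → Matrix (Fin (2 * m)) (Fin (2 * m)) E} (hf : Continuous f) :
    Continuous fun y => b22 (f y) := hf.matrix_submatrix _ _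

theorem continuous_bm {Y : Type} [TopologicalSpace Y] {a b c d : Y → Matrix (Fin m) (Fin m) E}
    (ha : Continuous a) (hb : Continuous b) (hc : Continuous c) (hd : Continuous d) :
    Continuous fun y => bm (a y) (b y) (c y) (d y) :=
  (Continuous.matrix_fromBlocks ha hb hc hd).matrix_submatrix _ _

theorem continuous_alt_val {N : ℕ} : Continuous fun B : Alt N E => B.1 := continuous_subtype_val

instance contSMulGL {N : ℕ} : ContinuousSMul (GL (Fin N) E) (Alt N E) := by
  refine ⟨Continuous.subtype_mk ?_ _⟩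
  have h1 : Continuous fun p : GL (Fin N) E × Alt N E =>
      ((p.1⁻¹ : GL (Fin N) E) : Matrix (Fin N) (Fin N) E) :=
    Units.continuous_val.comp (continuous_inv.comp continuous_fst)
  have h2 : Continuous fun p : GL (Fin N) E × Alt N E => p.2.1 :=
    continuous_subtype_val.comp continuous_snd
  exact (h1.matrix_transpose.matrix_mul h2).matrix_mul h1

end top

end SpW
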