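import Pool.Agent.Work.MP_3615d2_al.Defs

/-!
# The gauge principle for scalar distributions with a character
-/

open Filter Topology

namespace SpW

section

variable {X : Type} [TopologicalSpace X]

theorem sch_indicator {φ : X → ℂ} (hφ : φ ∈ Sch X ℂ) {W : Set X} (hW : IsClopen W) :
    W.indicator φ ∈ Sch X ℂ := by
  classical
  obtain ⟨h1, K, hK, h2⟩ := hφ
  refine ⟨?_, K, hK, ?_⟩
  · rw [IsLocallyConstant.iff_eventually_eq] at h1 ⊢
    intro x
    by_cases hx : x ∈ W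
    · filter_upwards [h1 x, hW.isOpen.mem_nhds hx] with y hy hyW
      rw [Set.indicator_of_mem hyW, Set.indicator_of_mem hx, hy]
    · filter_upwards [hW.compl.isOpen.mem_nhds hx] with y hyW
      rw [Set.indicator_of_notMem hyW, Set.indicator_of_notMem hx]
  · intro x hx
    by_cases hxW : x ∈ W
    · rw [Set.indicator_of_mem hxW, h2 x hx]
    · rw [Set.indicator_of_notMem hxW]

theorem sch_comp {φ : X → ℂ} (hφ : φ ∈ Sch X ℂ) (h : X ≃ₜ X) : φ ∘ h ∈ Sch X ℂ := by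
  obtain ⟨h1, K, hK, h2⟩ := hφ
  refine ⟨h1.comp_continuous h.continuous, h.symm '' K, hK.image h.symm.continuous, ?_⟩
  intro x hx
  apply h2
  intro hxK
  exact hx ⟨h x, hxK, h.symm_apply_apply x⟩

/-- the span of the `φ ∘ h - ε φ`, `(h, ε)` in `𝓗` -/
def coinv (𝓗 : Subgroup ((X ≃ₜ X) × ℂˣ)) : Submodule ℂ (X → ℂ) :=
  Submodule.span ℂ {g | ∃ φ ∈ Sch X ℂ, ∃ p ∈ 𝓗, g = φ ∘ p.1 - (p.2 : ℂ) • φ}

/-- the functions vanishing on `Z` -/
def van (Z : Set X) : Submodule ℂ (X → ℂ) where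
  carrier := {φ | φ ∈ Sch X ℂ ∧ ∀ x ∈ Z, φ x = 0}
  add_mem' := by
    rintro f g ⟨hf, hf'⟩ ⟨hg, hg'⟩
    exact ⟨add_mem hf hg, fun x hx => by rw [Pi.add_apply, hf' x hx, hg' x hx, add_zero]⟩
  zero_mem' := ⟨zero_mem _, fun x _ => rfl⟩
  smul_mem' := by
    rintro c f ⟨hf, hf'⟩
    exact ⟨Submodule.smul_mem _ c hf, fun x hx => by rw [Pi.smul_apply, hf' x hx, smul_zero]⟩

variable {𝓗 : Subgroup ((X ≃ₜ X) × ℂˣ)}

theorem coinv_sub {φ : X → ℂ} (hφ : φ ∈ Sch X ℂ) {p : (X ≃ₜ X) × ℂˣ} (hp : p ∈ 𝓗) :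
    φ ∘ p.1 - (p.2 : ℂ) • φ ∈ coinv 𝓗 :=
  Submodule.subset_span ⟨φ, hφ, p, hp, rfl⟩

theorem coinv_le : coinv 𝓗 ≤ Sch X ℂ := by
  refine Submodule.span_le.2 ?_
  rintro g ⟨φ, hφ, p, -, rfl⟩
  exact sub_mem (sch_comp hφ _) (Submodule.smul_mem _ _ hφ)

theorem coinv_comp {g : X → ℂ} (hg : g ∈ coinv 𝓗) {p : (X ≃ₜ X) × ℂˣ} (hp : p ∈ 𝓗) :
    g ∘ p.1 ∈ coinv 𝓗 := by
  have h1 := coinv_sub (coinv_le hg) hp
  have h2 := add_mem h1 (Submodule.smul_mem _ (p.2 : ℂ) hg)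
  rwa [sub_add_cancel] at h2

theorem coinv_indicator {g : X → ℂ} (hg : g ∈ coinv 𝓗) {W : Set X} (hW : IsClopen W)
    (hinv : ∀ p ∈ 𝓗, ∀ x, p.1 x ∈ W ↔ x ∈ W) : W.indicator g ∈ coinv 𝓗 := by
  classical
  induction hg using Submodule.span_induction with
  | mem g h =>
    obtain ⟨φ, hφ, p, hp, rfl⟩ := h
    have h1 := coinv_sub (sch_indicator hφ hW) hp
    have h2 : W.indicator (φ ∘ p.1 - (p.2 : ℂ) • φ) =
        (W.indicator φ) ∘ p.1 - (p.2 : ℂ) • W.indicator φ := by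
      funext x
      have h3 := hinv p hp x
      by_cases hx : x ∈ W
      · simp [hx, h3]
      · simp [hx, h3]
    rw [h2]
    exact h1
  | zero => simp
  | add f g _ _ hf hg => rw [Set.indicator_add']; exact add_mem hf hg
  | smul c f _ hf =>
    have h2 : W.indicator (c • f) = c • W.indicator f := by
      funext x
      by_cases hx : x ∈ W
      · simp [hx]
      · simp [hx]
    rw [h2]
    exact Submodule.smul_mem _ _ hf

theorem van_comp {Z : Set X} {g : X → ℂ} (hg : g ∈ van Z) {h : X ≃ₜ X} (hZ : ∀ x ∈ Z, h x ∈ Z) :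
    g ∘ h ∈ van Z :=
  ⟨sch_comp hg.1 _, fun x hx => hg.2 _ (hZ x hx)⟩

/-- the gauge principle -/
theorem gauge_core {φ : X → ℂ} (hφ : φ ∈ Sch X ℂ) {Z : Set X} {C : Set (X → X)} (hid : id ∈ C)
    (htame : ∀ x, ∀ᶠ y in 𝓝 x, ∀ c ∈ C, φ (c y) = φ (c x))
    (hs : ∀ x ∈ Z, φ x ≠ 0 → ∃ p ∈ 𝓗, (p.2 : ℂ) ≠ 1 ∧ p.1 x = x ∧ (∀ c ∈ C, c ∘ p.1 ∈ C) ∧
      ∀ c ∈ C, c ∘ p.1.symm ∈ C) : φ ∈ coinv 𝓗 ⊔ van Z := by
  classical
  let S : Setoid X := {
    r := fun x y => ∀ c ∈ C, φ (c x) = φ (c y)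
    iseqv := ⟨fun x c _ => rfl, fun h c hc => (h c hc).symm,
      fun h1 h2 c hc => (h1 c hc).trans (h2 c hc)⟩ }
  let q : X → Quotient S := Quotient.mk S
  have hq : IsLocallyConstant q := by
    rw [IsLocallyConstant.iff_eventually_eq]
    intro x
    filter_upwards [htame x] with y hy
    exact Quotient.sound hy
  obtain ⟨hφ1, K, hK, hφ2⟩ := id hφ
  have hfin : (q '' K).Finite := by
    let _ : TopologicalSpace (Quotient S) := ⊥
    have : DiscreteTopology (Quotient S) := ⟨rfl⟩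
    exact (hK.image hq.continuous).finite_of_discrete
  have hcl : ∀ a : Quotient S, IsClopen (q ⁻¹' {a}) := fun a =>
    ⟨hq.isClosed_fiber a, hq.isOpen_fiber a⟩
  have hsum : φ = ∑ a ∈ hfin.toFinset, (q ⁻¹' {a}).indicator φ := by
    funext x
    rw [Finset.sum_apply]
    by_cases hx : x ∈ K
    · rw [Finset.sum_eq_single (q x)]
      · rw [Set.indicator_of_mem (by simp)]
      · intro a _ ha
        rw [Set.indicator_of_notMem]
        intro h
        exact ha (by simpa using h.symm)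
      · intro h
        exact absurd (hfin.mem_toFinset.2 ⟨x, hx, rfl⟩) h
    · rw [hφ2 x hx]
      refine (Finset.sum_eq_zero fun a _ => ?_).symm
      by_cases h : x ∈ q ⁻¹' {a}
      · rw [Set.indicator_of_mem h, hφ2 x hx]
      · rw [Set.indicator_of_notMem h]
  rw [hsum]
  refine Submodule.sum_mem _ fun a _ => ?_
  by_cases hv : ∀ x ∈ Z, (q ⁻¹' {a}).indicator φ x = 0
  · exact Submodule.mem_sup_right ⟨sch_indicator hφ (hcl a), hv⟩
  · apply Submodule.mem_sup_left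
    push Not at hv
    obtain ⟨x, hxZ, hx⟩ := hv
    have hxa : q x = a := by
      by_contra hne
      exact hx (Set.indicator_of_notMem (by simpa using hne) _)
    rw [Set.indicator_of_mem (by simpa using hxa)] at hx
    obtain ⟨p, hp, hp1, hpx, hC1, hC2⟩ := hs x hxZ hx
    set g := (q ⁻¹' {a}).indicator φ with hg
    have hrel : ∀ y, q (p.1 y) = a ↔ q y = a := by
      intro y
      rw [← hxa]
      constructor
      · intro h
        have h1 : ∀ c ∈ C, φ (c (p.1 y)) = φ (c x) := Quotient.exact h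
        apply Quotient.sound
        intro c hc
        have h2 := h1 _ (hC2 c hc)
        have h3 : p.1.symm x = x := by
          rw [Homeomorph.symm_apply_eq]
          exact hpx.symm
        simpa [h3] using h2
      · intro h
        have h1 : ∀ c ∈ C, φ (c y) = φ (c x) := Quotient.exact h
        apply Quotient.sound
        intro c hc
        have h2 := h1 _ (hC1 c hc)
        simpa [hpx] using h2
    have hcst : ∀ y, q y = a → φ y = φ x := by
      intro y hy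
      rw [← hxa] at hy
      have h1 : ∀ c ∈ C, φ (c y) = φ (c x) := Quotient.exact hy
      exact h1 id hid
    have hgp : g ∘ p.1 = g := by
      funext y
      rw [Function.comp_apply, hg]
      by_cases hy : q y = a
      · rw [Set.indicator_of_mem (by simpa using (hrel y).2 hy),
          Set.indicator_of_mem (by simpa using hy), hcst _ hy, hcst _ ((hrel y).2 hy)]
      · rw [Set.indicator_of_notMem (by simpa using fun h => hy ((hrel y).1 h)),
          Set.indicator_of_notMem (by simpa using hy)]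
    have h1 := coinv_sub (sch_indicator hφ (hcl a)) hp
    rw [← hg, hgp] at h1
    have h2 : g - (p.2 : ℂ) • g = (1 - (p.2 : ℂ)) • g := by
      rw [sub_smul, one_smul]
    rw [h2] at h1
    have h3 := Submodule.smul_mem _ (1 - (p.2 : ℂ))⁻¹ h1
    rwa [smul_smul, inv_mul_cancel₀ (sub_ne_zero.2 (Ne.symm hp1)), one_smul] at h3

/-- The gauge principle, localisation and maximal ranks -/
theorem gauge_scalar
    (hbase : ∀ (x : X), ∀ U ∈ 𝓝 x, ∃ W, IsClopen W ∧ x ∈ W ∧ W ⊆ U)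
    {Y : Type*} (χ : X → Y)
    (hsep : ∀ x y, χ x ≠ χ y → ∃ A : Set X, IsClopen A ∧
      (∀ p ∈ 𝓗, ∀ x, p.1 x ∈ A ↔ x ∈ A) ∧ x ∈ A ∧ y ∉ A)
    (r : X → ℕ) (hr : ∀ x₀, ∃ b, ∀ x, χ x = χ x₀ → r x ≤ b)
    (hloc : ∀ x₀, ∃ V, IsOpen V ∧ x₀ ∈ V ∧ ∃ C : Set (X → X), id ∈ C ∧
      (∀ φ ∈ Sch X ℂ, ∀ x, ∀ᶠ y in 𝓝 x, ∀ c ∈ C, φ (c y) = φ (c x)) ∧
      ∀ x ∈ V, χ x = χ x₀ → r x ≤ r x₀ → ∃ p ∈ 𝓗, (p.2 : ℂ) ≠ 1 ∧ p.1 x = x ∧
        (∀ c ∈ C, c ∘ p.1 ∈ C) ∧ ∀ c ∈ C, c ∘ p.1.symm ∈ C) :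
    Sch X ℂ ≤ coinv 𝓗 := by
  classical
  intro f hf
  by_contra hfN
  set 𝒵 : Set (Set X) := {Z | IsClosed Z ∧ (∀ p ∈ 𝓗, ∀ x ∈ Z, p.1 x ∈ Z) ∧
    f ∉ coinv 𝓗 ⊔ van Z} with h𝒵
  have hvan : ∀ Z, van Z ≤ Sch X ℂ := fun Z g hg => hg.1
  obtain ⟨Z, hZ⟩ : ∃ Z, Minimal (· ∈ 𝒵) Z := by
    refine zorn_superset 𝒵 fun c hc hch => ?_
    refine ⟨⋂₀ c, ⟨isClosed_sInter fun Z hZ => (hc hZ).1, ?_, ?_⟩, fun s hs => Set.sInter_subset_of_mem hs⟩
    · intro p hp x hx Z hZ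
      exact (hc hZ).2.1 p hp x (hx Z hZ)
    · intro hfc
      obtain ⟨n, hn, j, hj, hnj⟩ := Submodule.mem_sup.1 hfc
      obtain ⟨⟨hj1, K, hK, hj2⟩, hj3⟩ := hj
      have hKj : IsCompact {x | j x ≠ 0} := by
        refine hK.of_isClosed_subset ?_ ?_
        · have := hj1.isClosed_fiber (0 : ℂ)
          exact (hj1.isOpen_fiber (0 : ℂ)).isClosed_compl
        · intro x hx
          by_contra hxK
          exact hx (hj2 x hxK)
      rcases c.eq_empty_or_nonempty with hce | hcne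
      · subst hce
        apply hfN
        have hj0 : j = 0 := by
          funext x
          exact hj3 x (by simp)
        rw [← hnj, hj0, add_zero]
        exact hn
      · have : Nonempty c := hcne.to_subtype
        have hdir : Directed (· ⊇ ·) (fun Z : c => (Z : Set X)) := by
          intro A B
          rcases hch.total A.2 B.2 with h | h
          · exact ⟨A, subset_rfl, h⟩
          · exact ⟨B, h, subset_rfl⟩
        obtain ⟨A, hA⟩ := hKj.elim_directed_family_closed (fun Z : c => (Z : Set X))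
          (fun Z => (hc Z.2).1) (by
            ext x
            simp only [Set.mem_inter_iff, Set.mem_ofPred_eq, Set.mem_iInter, Set.mem_empty_iff_false,
              iff_false, not_and]
            intro hx hall
            exact hx (hj3 x (fun Z hZ => hall ⟨Z, hZ⟩))) hdir
        apply (hc A.2).2.2
        rw [← hnj]
        refine add_mem (Submodule.mem_sup_left hn) (Submodule.mem_sup_right ⟨⟨hj1, K, hK, hj2⟩, ?_⟩)
        intro x hx
        by_contra hxj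
        have : x ∈ ({x | j x ≠ 0} ∩ (A : Set X)) := ⟨hxj, hx⟩
        rw [hA] at this
        exact this
  obtain ⟨⟨hZc, hZs, hfZ⟩, hmin⟩ := hZ
  have hmin' : ∀ Z' ⊆ Z, IsClosed Z' → (∀ p ∈ 𝓗, ∀ x ∈ Z', p.1 x ∈ Z') → (∃ x ∈ Z, x ∉ Z') →
      f ∈ coinv 𝓗 ⊔ van Z' := by
    intro Z' hZ' h1 h2 h3
    by_contra h4
    obtain ⟨x, hx, hx'⟩ := h3
    exact hx' (hmin ⟨h1, h2, h4⟩ hZ' hx)
  have hsymm : ∀ p ∈ 𝓗, ∀ x, p.1 x ∈ Z → x ∈ Z := by
    intro p hp x hx
    have h1 := hZs p⁻¹ (inv_mem hp) _ hx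
    have h2 : (p⁻¹ : (X ≃ₜ X) × ℂˣ).1 (p.1 x) = x := p.1.symm_apply_apply x
    rwa [h2] at h1
  -- a point of `Z`
  have hne : Z.Nonempty := by
    rw [Set.nonempty_iff_ne_empty]
    intro h
    apply hfZ
    apply Submodule.mem_sup_right
    rw [h]
    exact ⟨hf, by simp⟩
  -- clopen invariant sets do not separate
  have hclo : ∀ A : Set X, IsClopen A → (∀ p ∈ 𝓗, ∀ x, p.1 x ∈ A ↔ x ∈ A) → ∀ x ∈ Z, ∀ y ∈ Z,
      x ∈ A → y ∈ A := by
    intro A hA hAinv x hx y hy hxA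
    by_contra hyA
    have h1 : f ∈ coinv 𝓗 ⊔ van (Z ∩ A) := by
      refine hmin' _ Set.inter_subset_left (hZc.inter hA.isClosed) ?_ ⟨y, hy, fun h => hyA h.2⟩
      rintro p hp z ⟨hz1, hz2⟩
      exact ⟨hZs p hp z hz1, (hAinv p hp z).2 hz2⟩
    have h2 : f ∈ coinv 𝓗 ⊔ van (Z ∩ Aᶜ) := by
      refine hmin' _ Set.inter_subset_left (hZc.inter hA.compl.isClosed) ?_
        ⟨x, hx, fun h => h.2 hxA⟩
      rintro p hp z ⟨hz1, hz2⟩
      exact ⟨hZs p hp z hz1, fun h => hz2 ((hAinv p hp z).1 h)⟩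
    apply hfZ
    obtain ⟨n1, hn1, j1, hj1, h1⟩ := Submodule.mem_sup.1 h1
    obtain ⟨n2, hn2, j2, hj2, h2⟩ := Submodule.mem_sup.1 h2
    have h3 : f = A.indicator f + Aᶜ.indicator f := (Set.indicator_self_add_compl A f).symm
    have hAc : ∀ p ∈ 𝓗, ∀ x, p.1 x ∈ Aᶜ ↔ x ∈ Aᶜ := fun p hp x => not_congr (hAinv p hp x)
    have h4 : A.indicator f ∈ coinv 𝓗 ⊔ van Z := by
      rw [← h1, Set.indicator_add']
      refine add_mem (Submodule.mem_sup_left (coinv_indicator hn1 hA hAinv))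
        (Submodule.mem_sup_right ⟨sch_indicator hj1.1 hA, fun z hz => ?_⟩)
      by_cases hzA : z ∈ A
      · rw [Set.indicator_of_mem hzA]
        exact hj1.2 z ⟨hz, hzA⟩
      · rw [Set.indicator_of_notMem hzA]
    have h5 : Aᶜ.indicator f ∈ coinv 𝓗 ⊔ van Z := by
      rw [← h2, Set.indicator_add']
      refine add_mem (Submodule.mem_sup_left (coinv_indicator hn2 hA.compl hAc))
        (Submodule.mem_sup_right ⟨sch_indicator hj2.1 hA.compl, fun z hz => ?_⟩)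
      by_cases hzA : z ∈ Aᶜ
      · rw [Set.indicator_of_mem hzA]
        exact hj2.2 z ⟨hz, hzA⟩
      · rw [Set.indicator_of_notMem hzA]
    rw [h3]
    exact add_mem h4 h5
  have hχ : ∀ x ∈ Z, ∀ y ∈ Z, χ x = χ y := by
    intro x hx y hy
    by_contra hne
    obtain ⟨A, hA, hAinv, hxA, hyA⟩ := hsep x y hne
    exact hyA (hclo A hA hAinv x hx y hy hxA)
  -- the point where `r` is maximal
  obtain ⟨x₀, hx₀, hmax⟩ : ∃ x₀ ∈ Z, ∀ x ∈ Z, r x ≤ r x₀ := by
    obtain ⟨z, hz⟩ := hne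
    obtain ⟨b, hb⟩ := hr z
    have hbdd : BddAbove (r '' Z) := ⟨b, by
      rintro _ ⟨x, hx, rfl⟩
      exact hb x (hχ x hx z hz)⟩
    have hmem : sSup (r '' Z) ∈ r '' Z := Nat.sSup_mem ⟨r z, z, hz, rfl⟩ hbdd
    obtain ⟨x₀, hx₀, hx₀'⟩ := hmem
    exact ⟨x₀, hx₀, fun x hx => by rw [hx₀']; exact le_csSup hbdd ⟨x, hx, rfl⟩⟩
  obtain ⟨V, hV, hxV, C, hid, htame, hC⟩ := hloc x₀
  have hsuppV : ∀ φ ∈ Sch X ℂ, (∀ x, x ∉ V → φ x = 0) → φ ∈ coinv 𝓗 ⊔ van Z := by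
    intro φ hφ hφV
    refine gauge_core hφ hid (htame φ hφ) fun x hx hne => ?_
    have hxV' : x ∈ V := by
      by_contra h
      exact hne (hφV x h)
    exact hC x hxV' (hχ x hx x₀ hx₀) (hmax x hx)
  set Z' : Set X := Z ∩ {x | ∀ p ∈ 𝓗, p.1 x ∉ V} with hZ'
  have hZ'c : IsClosed Z' := by
    refine hZc.inter ?_
    have : {x | ∀ p ∈ 𝓗, p.1 x ∉ V} = ⋂ p ∈ 𝓗, (p.1 ⁻¹' V)ᶜ := by
      ext x
      simp
    rw [this]
    refine isClosed_biInter fun p _ => ?_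
    exact (hV.preimage p.1.continuous).isClosed_compl
  have hfZ' := hmin' Z' Set.inter_subset_left hZ'c (by
    rintro p hp x ⟨hx1, hx2⟩
    refine ⟨hZs p hp x hx1, fun q hq => ?_⟩
    exact hx2 (q * p) (mul_mem hq hp)) ⟨x₀, hx₀, fun h => h.2 1 (one_mem _) hxV⟩
  obtain ⟨n, hn, j, hj, hnj⟩ := Submodule.mem_sup.1 hfZ'
  apply hfZ
  rw [← hnj]
  refine add_mem (Submodule.mem_sup_left hn) ?_
  obtain ⟨⟨hj1, K, hK, hj2⟩, hj3⟩ := id hj
  have hjS : j ∈ Sch X ℂ := hj.1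
  have hSc : IsClosed {x | j x ≠ 0} := (hj1.isOpen_fiber (0 : ℂ)).isClosed_compl
  have hKj : IsCompact ({x | j x ≠ 0} ∩ Z) := by
    refine hK.of_isClosed_subset (hSc.inter hZc) ?_
    rintro x ⟨hx, -⟩
    by_contra hxK
    exact hx (hj2 x hxK)
  obtain ⟨W, hW, hSW, hWj⟩ : ∃ W : Set X, IsClopen W ∧ ({x | j x ≠ 0} ∩ Z) ⊆ W ∧
      ∀ φ ∈ Sch X ℂ, W.indicator φ ∈ coinv 𝓗 ⊔ van Z := by
    refine hKj.induction_on ?_ ?_ ?_ ?_
    · refine ⟨∅, isClopen_empty, subset_rfl, fun φ _ => ?_⟩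
      rw [Set.indicator_empty]
      exact zero_mem _
    · rintro s t hst ⟨W, hW, htW, h⟩
      exact ⟨W, hW, hst.trans htW, h⟩
    · rintro s t ⟨W1, hW1, hs1, h1⟩ ⟨W2, hW2, hs2, h2⟩
      refine ⟨W1 ∪ W2, hW1.union hW2, Set.union_subset_union hs1 hs2, fun φ hφ => ?_⟩
      have h3 : (W1 ∪ W2).indicator φ = W1.indicator φ + W2.indicator (W1ᶜ.indicator φ) := by
        funext x
        by_cases hx1 : x ∈ W1
        · by_cases hx2 : x ∈ W2
          · simp [hx1, hx2]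
          · simp [hx1, hx2]
        · by_cases hx2 : x ∈ W2
          · simp [hx1, hx2]
          · simp [hx1, hx2]
      rw [h3]
      exact add_mem (h1 φ hφ) (h2 _ (sch_indicator hφ hW1.compl))
    · rintro x ⟨hxj, hxZ⟩
      have hx2 : ∃ p ∈ 𝓗, p.1 x ∈ V := by
        by_contra hn
        push Not at hn
        exact hxj (hj3 x ⟨hxZ, hn⟩)
      obtain ⟨p, hp, hpV⟩ := hx2
      obtain ⟨W, hW, hxW, hWV⟩ := hbase x (p.1 ⁻¹' V) ((hV.preimage p.1.continuous).mem_nhds hpV)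
      refine ⟨W, mem_nhdsWithin_of_mem_nhds (hW.isOpen.mem_nhds hxW), W, hW, subset_rfl,
        fun φ hφ => ?_⟩
      have h1 : (W.indicator φ) ∘ p.1.symm ∈ coinv 𝓗 ⊔ van Z := by
        refine hsuppV _ (sch_comp (sch_indicator hφ hW) _) fun y hy => ?_
        rw [Function.comp_apply, Set.indicator_of_notMem]
        intro h
        apply hy
        have := hWV h
        simpa using this
      obtain ⟨n', hn', j', hj', h2⟩ := Submodule.mem_sup.1 h1
      have h3 : W.indicator φ = n' ∘ p.1 + j' ∘ p.1 := by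
        have h4 : (n' + j') ∘ p.1 = W.indicator φ := by
          rw [h2]
          funext y
          simp
        rw [← h4]
        rfl
      rw [h3]
      exact add_mem (Submodule.mem_sup_left (coinv_comp hn' hp))
        (Submodule.mem_sup_right (van_comp hj' (hZs p hp)))
  have h3 : j = W.indicator j + Wᶜ.indicator j := (Set.indicator_self_add_compl W j).symm
  rw [h3]
  refine add_mem (hWj j hjS) (Submodule.mem_sup_right ⟨sch_indicator hjS hW.compl, fun x hx => ?_⟩)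
  by_cases hxW : x ∈ W
  · rw [Set.indicator_of_notMem (by simpa using hxW)]
  · rw [Set.indicator_of_mem (by simpa using hxW)]
    by_contra hne
    exact hxW (hSW ⟨hne, hx⟩)

end

end SpW
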