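import Pool.Agent.Work.MP_3615d2_al.GKSec
import Pool.Agent.Work.MP_3615d2_al.GaugeScalar

/-!
# The theorem of Gelfand and Kazhdan

A distribution on `GL_n(K)`, invariant under conjugation, is invariant under transposition.
-/

open Filter Topology Matrix Polynomial

namespace SpW

section

variable {K : Type} [NontriviallyNormedField K] {n : Type} [Fintype n] [DecidableEq n]

/-- the transpose of an invertible matrix -/
def trGL (g : GL n K) : GL n K where
  val := (g : Matrix n n K).transpose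
  inv := ((g⁻¹ : GL n K) : Matrix n n K).transpose
  val_inv := by rw [← Matrix.transpose_mul, Units.inv_mul, Matrix.transpose_one]
  inv_val := by rw [← Matrix.transpose_mul, Units.mul_inv, Matrix.transpose_one]

theorem trGL_mul (g h : GL n K) : trGL (g * h) = trGL h * trGL g := by
  apply Units.ext
  exact Matrix.transpose_mul _ _

theorem trGL_inv (g : GL n K) : trGL g⁻¹ = (trGL g)⁻¹ := rfl

theorem trGL_trGL (g : GL n K) : trGL (trGL g) = g := by
  apply Units.ext
  exact Matrix.transpose_transpose _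

theorem trGL_one : trGL (1 : GL n K) = 1 := by
  apply Units.ext
  exact Matrix.transpose_one

theorem continuous_trGL : Continuous (trGL : GL n K → GL n K) := by
  rw [Units.continuous_iff]
  exact ⟨Units.continuous_val.matrix_transpose,
    (Units.continuous_val.comp continuous_inv).matrix_transpose⟩

/-- transposition as a homeomorphism -/
def trH : GL n K ≃ₜ GL n K where
  toFun := trGL
  invFun := trGL
  left_inv := trGL_trGL
  right_inv := trGL_trGL
  continuous_toFun := continuous_trGL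
  continuous_invFun := continuous_trGL

/-- conjugation as a homeomorphism -/
def conjH (g : GL n K) : GL n K ≃ₜ GL n K :=
  (Homeomorph.mulLeft g).trans (Homeomorph.mulRight g⁻¹)

theorem conjH_apply (g x : GL n K) : conjH g x = g * x * g⁻¹ := rfl

theorem trH_apply (x : GL n K) : trH x = trGL x := rfl

/-- the group generated by conjugations (with scalar `1`) and transposition (with scalar `-1`) -/
def gkGrp (K : Type) [NontriviallyNormedField K] (n : Type) [Fintype n] [DecidableEq n] :
    Subgroup ((GL n K ≃ₜ GL n K) × ℂˣ) :=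
  Subgroup.closure ({p | ∃ g, p = (conjH g, 1)} ∪ {(trH, -1)})

theorem charpoly_gkGrp {p : (GL n K ≃ₜ GL n K) × ℂˣ} (hp : p ∈ gkGrp K n) :
    ∀ x, ((p.1 x : GL n K) : Matrix n n K).charpoly = (x : Matrix n n K).charpoly := by
  induction hp using Subgroup.closure_induction with
  | mem p hp =>
    intro x
    rcases hp with ⟨g, rfl⟩ | hp
    · change ((g * x * g⁻¹ : GL n K) : Matrix n n K).charpoly = _
      rw [Units.val_mul, Units.val_mul, Matrix.coe_units_inv]
      exact Matrix.charpoly_units_conj g x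
    · rw [Set.mem_singleton_iff] at hp
      subst hp
      exact Matrix.charpoly_transpose _
  | one => intro x; rfl
  | mul p q _ _ hp hq =>
    intro x
    exact (hp (q.1 x)).trans (hq x)
  | inv p _ hp =>
    intro x
    have h := hp (p⁻¹.1 x)
    have h2 : p.1 (p⁻¹.1 x) = x := p.1.apply_symm_apply x
    rw [h2] at h
    exact h.symm

/-- a functional transforming by the scalars kills the coinvariants -/
theorem coinv_ker (T : Sch (GL n K) ℂ →ₗ[ℂ] ℂ)
    (hT : ∀ (g : GL n K) (φ ψ : Sch (GL n K) ℂ), (∀ x, ψ.1 x = φ.1 (g * x * g⁻¹)) → T ψ = T φ)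
    (hT' : ∀ φ ψ : Sch (GL n K) ℂ, (∀ x, ψ.1 x = φ.1 (trGL x)) → T ψ = - T φ) :
    ∀ f (hf : f ∈ Sch (GL n K) ℂ), f ∈ coinv (gkGrp K n) → T ⟨f, hf⟩ = 0 := by
  have key : ∀ p ∈ gkGrp K n, ∀ φ ψ : Sch (GL n K) ℂ, (∀ x, ψ.1 x = φ.1 (p.1 x)) →
      T ψ = (p.2 : ℂ) * T φ := by
    intro p hp
    induction hp using Subgroup.closure_induction with
    | mem p hp =>
      rcases hp with ⟨g, rfl⟩ | hp
      · intro φ ψ h
        rw [hT g φ ψ h]
        simp
      · rw [Set.mem_singleton_iff] at hp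
        subst hp
        intro φ ψ h
        rw [hT' φ ψ h]
        simp
    | one =>
      intro φ ψ h
      have : ψ = φ := Subtype.ext (funext h)
      rw [this]
      simp
    | mul p q _ _ hp hq =>
      intro φ ψ h
      set η : Sch (GL n K) ℂ := ⟨φ.1 ∘ p.1, sch_comp φ.2 p.1⟩
      rw [hq η ψ h, hp φ η (fun x => rfl)]
      rw [Prod.snd_mul, Units.val_mul]
      ring
    | inv p _ hp =>
      intro φ ψ h
      have h1 := hp ψ φ (fun x => by
        rw [h (p.1 x)]
        exact congrArg φ.1 (p.1.symm_apply_apply x).symm)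
      rw [h1, Prod.snd_inv, ← mul_assoc, Units.inv_mul, one_mul]
  intro f hf hfc
  have h2 : ∀ f ∈ coinv (gkGrp K n), ∃ hf : f ∈ Sch (GL n K) ℂ, T ⟨f, hf⟩ = 0 := by
    intro f hf
    induction hf using Submodule.span_induction with
    | mem g h =>
      obtain ⟨φ, hφ, p, hp, rfl⟩ := h
      refine ⟨coinv_le (coinv_sub hφ hp), ?_⟩
      have h1 := key p hp ⟨φ, hφ⟩ ⟨φ ∘ p.1, sch_comp hφ p.1⟩ (fun x => rfl)
      have h3 : (⟨φ ∘ p.1 - (p.2 : ℂ) • φ, coinv_le (coinv_sub hφ hp)⟩ : Sch (GL n K) ℂ) =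
          ⟨φ ∘ p.1, sch_comp hφ p.1⟩ - (p.2 : ℂ) • ⟨φ, hφ⟩ := rfl
      rw [h3, map_sub, map_smul, h1, smul_eq_mul, sub_self]
    | zero => exact ⟨zero_mem _, map_zero T⟩
    | add f g _ _ hf hg =>
      obtain ⟨hf1, hf2⟩ := hf
      obtain ⟨hg1, hg2⟩ := hg
      refine ⟨add_mem hf1 hg1, ?_⟩
      have h3 : (⟨f + g, add_mem hf1 hg1⟩ : Sch (GL n K) ℂ) = ⟨f, hf1⟩ + ⟨g, hg1⟩ := rfl
      rw [h3, map_add, hf2, hg2, add_zero]
    | smul c f _ hf =>
      obtain ⟨hf1, hf2⟩ := hf
      refine ⟨Submodule.smul_mem _ c hf1, ?_⟩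
      have h3 : (⟨c • f, Submodule.smul_mem _ c hf1⟩ : Sch (GL n K) ℂ) = c • ⟨f, hf1⟩ := rfl
      rw [h3, map_smul, hf2, smul_zero]
  obtain ⟨hf1, hf2⟩ := h2 f hfc
  exact hf2

end

section

variable {K : Type} [NontriviallyNormedField K] [IsUltrametricDist K]
  {n : Type} [Fintype n] [DecidableEq n]

/-- `GL_n(O)` -/
def intGL (K : Type) [NontriviallyNormedField K] [IsUltrametricDist K] (n : Type) [Fintype n]
    [DecidableEq n] : Subgroup (GL n K) where
  carrier := {g | (∀ i j, ‖(g : Matrix n n K) i j‖ ≤ 1) ∧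
    ∀ i j, ‖((g⁻¹ : GL n K) : Matrix n n K) i j‖ ≤ 1}
  mul_mem' := by
    have key : ∀ A B : Matrix n n K, (∀ i j, ‖A i j‖ ≤ 1) → (∀ i j, ‖B i j‖ ≤ 1) →
        ∀ i j, ‖(A * B) i j‖ ≤ 1 := by
      intro A B hA hB i j
      rw [Matrix.mul_apply]
      refine IsUltrametricDist.norm_sum_le_of_forall_le_of_nonneg zero_le_one fun k _ => ?_
      rw [norm_mul]
      exact mul_le_one₀ (hA i k) (norm_nonneg _) (hB k j)
    rintro a b ⟨ha, ha'⟩ ⟨hb, hb'⟩
    refine ⟨?_, ?_⟩
    · rw [Units.val_mul]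
      exact key _ _ ha hb
    · rw [_root_.mul_inv_rev, Units.val_mul]
      exact key _ _ hb' ha'
  one_mem' := by
    have key : ∀ i j, ‖(1 : Matrix n n K) i j‖ ≤ 1 := by
      intro i j
      by_cases h : i = j
      · subst h; simp
      · simp [Matrix.one_apply_ne h]
    exact ⟨key, by simpa using key⟩
  inv_mem' := by
    rintro a ⟨ha, ha'⟩
    exact ⟨ha', by simpa using ha⟩

theorem intGL_isOpen : IsOpen (intGL K n : Set (GL n K)) := by
  have h1 : (intGL K n : Set (GL n K)) = (⋂ i, ⋂ j, {g : GL n K | (g : Matrix n n K) i j ∈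
      Metric.closedBall (0 : K) 1}) ∩ ⋂ i, ⋂ j, {g : GL n K | ((g⁻¹ : GL n K) : Matrix n n K) i j ∈
      Metric.closedBall (0 : K) 1} := by
    ext g
    simp only [Set.mem_inter_iff, Set.mem_iInter, Set.mem_ofPred_eq, mem_closedBall_zero_iff]
    rfl
  rw [h1]
  have h2 : IsOpen (Metric.closedBall (0 : K) 1) :=
    IsUltrametricDist.isOpen_closedBall _ one_ne_zero
  refine IsOpen.inter (isOpen_iInter_of_finite fun i => isOpen_iInter_of_finite fun j => ?_)
    (isOpen_iInter_of_finite fun i => isOpen_iInter_of_finite fun j => ?_)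
  · exact h2.preimage ((Units.continuous_val).matrix_elem i j)
  · exact h2.preimage ((Units.continuous_val.comp continuous_inv).matrix_elem i j)

theorem intGL_isCompact [ProperSpace K] : IsCompact (intGL K n : Set (GL n K)) := by
  set B : Set (Matrix n n K) := {A | ∀ i j, ‖A i j‖ ≤ 1} with hB
  have hBc : IsCompact B := by
    have h1 : IsCompact (Set.pi Set.univ fun _ : n =>
        Set.pi Set.univ fun _ : n => Metric.closedBall (0 : K) 1) :=
      isCompact_univ_pi fun _ => isCompact_univ_pi fun _ => isCompact_closedBall _ _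
    have h2 : B = (Set.pi Set.univ fun _ : n =>
        Set.pi Set.univ fun _ : n => Metric.closedBall (0 : K) 1) := by
      apply Set.ext
      intro A
      change _ ↔ ∀ i ∈ Set.univ, ∀ j ∈ Set.univ, A i j ∈ Metric.closedBall (0 : K) 1
      simp [hB]
    rw [h2]
    exact h1
  have h2 : IsCompact (B ×ˢ (MulOpposite.unop ⁻¹' B)) :=
    hBc.prod (MulOpposite.opHomeomorph.symm.isCompact_preimage.2 hBc)
  have h3 := (Units.isClosedEmbedding_embedProduct (α := Matrix n n K)).isCompact_preimage h2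
  exact h3

theorem gl_clopen_base [ProperSpace K] (x : GL n K) (U : Set (GL n K)) (hU : U ∈ 𝓝 x) :
    ∃ W, IsClopen W ∧ x ∈ W ∧ W ⊆ U := by
  have h1 : TotallyDisconnectedSpace (GL n K) := by
    have h2 : TotallyDisconnectedSpace (n → n → K) := inferInstance
    refine ⟨?_⟩
    refine isTotallyDisconnected_of_image (f := fun g : GL n K => ((g : Matrix n n K) : n → n → K))
      Units.continuous_val.continuousOn Units.val_injective ?_
    exact isTotallyDisconnected_of_totallyDisconnectedSpace (α := n → n → K) _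
  have h2 : LocallyCompactSpace (Matrix n n K) :=
    (inferInstance : LocallyCompactSpace (n → n → K))
  obtain ⟨W, hW, hxW, hWU⟩ := (loc_compact_Haus_tot_disc_of_zero_dim (H := GL n K)).mem_nhds_iff.1 hU
  exact ⟨W, hW, hxW, hWU⟩

variable [ProperSpace K]

omit [IsUltrametricDist K] [ProperSpace K] in
theorem tame_conj (C : Subgroup (GL n K)) (hC : IsCompact (C : Set (GL n K))) (φ : GL n K → ℂ)
    (hφ : IsLocallyConstant φ) (x : GL n K) :
    ∀ᶠ y in 𝓝 x, ∀ k ∈ C, φ (k * y * k⁻¹) = φ (k * x * k⁻¹) := by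
  refine hC.eventually_forall_of_forall_eventually fun k₀ _ => ?_
  have h1 : Continuous fun z : GL n K × GL n K => z.2 * z.1 * z.2⁻¹ :=
    (continuous_snd.mul continuous_fst).mul continuous_snd.inv
  have h2 : ∀ᶠ z : GL n K × GL n K in 𝓝 (x, k₀), φ (z.2 * z.1 * z.2⁻¹) = φ (k₀ * x * k₀⁻¹) :=
    (IsLocallyConstant.iff_eventually_eq _).1 (hφ.comp_continuous h1) (x, k₀)
  have h3 : ∀ᶠ z : GL n K × GL n K in 𝓝 (x, k₀), φ (z.2 * x * z.2⁻¹) = φ (k₀ * x * k₀⁻¹) :=
    (IsLocallyConstant.iff_eventually_eq _).1 (hφ.comp_continuous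
      ((continuous_snd.mul continuous_const).mul continuous_snd.inv :
        Continuous fun z : GL n K × GL n K => z.2 * x * z.2⁻¹)) (x, k₀)
  filter_upwards [h2, h3] with z hz2 hz3
  rw [hz2, hz3]

theorem gk_le : Sch (GL n K) ℂ ≤ coinv (gkGrp K n) := by
  classical
  refine gauge_scalar gl_clopen_base
    (fun x : GL n K => (x : Matrix n n K).charpoly) ?_ (fun x => rk (x : Matrix n n K)) ?_ ?_
  · intro x y hxy
    obtain ⟨a, ha⟩ : ∃ a, ((x : Matrix n n K).charpoly).eval a ≠
        ((y : Matrix n n K).charpoly).eval a := by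
      by_contra h
      push Not at h
      exact hxy (Polynomial.funext h)
    obtain ⟨U, hU, hxU, hyU⟩ := exists_isClopen_of_totally_separated ha
    refine ⟨{z : GL n K | ((z : Matrix n n K).charpoly).eval a ∈ U}, ?_, ?_, hxU, hyU⟩
    · have h1 : Continuous fun z : GL n K => ((z : Matrix n n K).charpoly).eval a := by
        simp_rw [Matrix.eval_charpoly]
        exact (continuous_const.sub Units.continuous_val).matrix_det
      exact hU.preimage h1
    · intro p hp z
      simp only [Set.mem_ofPred_eq]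
      rw [charpoly_gkGrp hp]
  · intro x₀
    refine ⟨(mdiv (x₀ : Matrix n n K).charpoly).card * Fintype.card n, fun x hx => ?_⟩
    have h1 := rk_le (x : Matrix n n K)
    have hx' : (x : Matrix n n K).charpoly = (x₀ : Matrix n n K).charpoly := hx
    rw [hx'] at h1
    exact h1
  · intro x₀
    obtain ⟨V, s, hV, hxV, hsc, hs⟩ := exists_symm_section (K := K) (n := n)
      (A := fun x : GL n K => (x : Matrix n n K)) Units.continuous_val x₀
    obtain ⟨hs1, hs2, hs3⟩ := hs x₀ hxV rfl le_rfl
    set F : GL n K → GL n K := fun x =>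
      if h : IsUnit (s x).det then Matrix.nonsingInvUnit (s x) h else 1 with hF
    have hFs : ∀ x, IsUnit (s x).det → ((F x : GL n K) : Matrix n n K) = s x := by
      intro x hx
      rw [hF]
      simp only [dif_pos hx]
      rfl
    set g₀ := F x₀ with hg₀
    have hFc : ContinuousAt F x₀ := by
      have h1 : ContinuousAt s x₀ := hsc.continuousAt (hV.mem_nhds hxV)
      have h2 : ContinuousAt (fun x => (s x).det) x₀ :=
        (continuous_id.matrix_det.continuousAt).comp h1
      have h3 : ∀ᶠ x in 𝓝 x₀, (s x).det ≠ 0 := h2.eventually_ne hs2.ne_zero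
      rw [Units.isEmbedding_embedProduct.isInducing.continuousAt_iff]
      refine ContinuousAt.prodMk ?_ ?_
      · refine h1.congr ?_
        filter_upwards [h3] with x hx
        exact (hFs x (isUnit_iff_ne_zero.2 hx)).symm
      · refine (MulOpposite.continuous_op.continuousAt).comp ?_
        have h4 : ContinuousAt (fun x => ((s x).det)⁻¹ • (s x).adjugate) x₀ :=
          (h2.inv₀ hs2.ne_zero).smul ((continuous_id.matrix_adjugate.continuousAt).comp h1)
        refine h4.congr ?_
        filter_upwards [h3] with x hx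
        have h5 : (((F x)⁻¹ : GL n K) : Matrix n n K) = (s x)⁻¹ := by
          rw [Matrix.coe_units_inv, hFs x (isUnit_iff_ne_zero.2 hx)]
        change _ = (((F x)⁻¹ : GL n K) : Matrix n n K)
        rw [h5, Matrix.inv_def, Ring.inverse_eq_inv']
    have hFK : ∀ᶠ x in 𝓝 x₀, F x * g₀⁻¹ ∈ intGL K n := by
      have h1 : ContinuousAt (fun x => F x * g₀⁻¹) x₀ := hFc.mul continuousAt_const
      refine h1.eventually_mem ?_
      rw [← hg₀, mul_inv_cancel]
      exact intGL_isOpen.mem_nhds (one_mem _)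
    obtain ⟨W, hW, hWo, hxW⟩ := eventually_nhds_iff.1 hFK
    refine ⟨V ∩ W, hV.inter hWo, ⟨hxV, hxW⟩,
      {c | ∃ k ∈ intGL K n, c = fun x => k * x * k⁻¹} ∪
      {c | ∃ k ∈ intGL K n, c = fun x => k * (g₀ * trGL x * g₀⁻¹) * k⁻¹}, ?_, ?_, ?_⟩
    · left
      exact ⟨1, one_mem _, by funext x; simp⟩
    · intro φ hφ x
      have h1 := tame_conj (intGL K n) intGL_isCompact φ hφ.1 x
      have h2 := tame_conj (intGL K n) intGL_isCompact φ hφ.1 (g₀ * trGL x * g₀⁻¹)
      have h3 : Continuous fun y : GL n K => g₀ * trGL y * g₀⁻¹ :=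
        (continuous_const.mul continuous_trGL).mul continuous_const
      have h4 := (h3.tendsto x).eventually h2
      filter_upwards [h1, h4] with y hy1 hy2
      rintro c (⟨k, hk, rfl⟩ | ⟨k, hk, rfl⟩)
      · exact hy1 k hk
      · exact hy2 k hk
    · rintro x ⟨hxV', hxW'⟩ hχ hr
      obtain ⟨h1, h2, h3⟩ := hs x hxV' hχ hr
      have hk := hW x hxW'
      set k₁ := F x * g₀⁻¹ with hk₁
      have hFx : F x = k₁ * g₀ := by rw [hk₁]; group
      have htrF : trGL (F x) = F x := by
        apply Units.ext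
        change ((F x : GL n K) : Matrix n n K).transpose = _
        rw [hFs x h2, h1]
      have hmem : (trH.trans (conjH (F x)), (-1 : ℂˣ)) ∈ gkGrp K n := by
        have h4 : (trH.trans (conjH (F x)), (-1 : ℂˣ)) = (conjH (F x), (1 : ℂˣ)) * (trH, -1) := by
          rw [Prod.mk_mul_mk, one_mul]
          rfl
        rw [h4]
        exact mul_mem (Subgroup.subset_closure (Or.inl ⟨F x, rfl⟩))
          (Subgroup.subset_closure (Or.inr rfl))
      have happ : ∀ y, (trH.trans (conjH (F x))) y = F x * trGL y * (F x)⁻¹ := fun y => rfl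
      have hinv : ∀ y, (trH.trans (conjH (F x))).symm y = F x * trGL y * (F x)⁻¹ := by
        intro y
        rw [Homeomorph.symm_apply_eq, happ, trGL_mul, trGL_mul, trGL_trGL, trGL_inv, htrF]
        group
      have hclose : ∀ (G : GL n K → GL n K), (∀ y, G y = F x * trGL y * (F x)⁻¹) →
          ∀ c ∈ ({c | ∃ k ∈ intGL K n, c = fun x => k * x * k⁻¹} ∪
            {c | ∃ k ∈ intGL K n, c = fun x => k * (g₀ * trGL x * g₀⁻¹) * k⁻¹} :
              Set (GL n K → GL n K)), c ∘ G ∈
          ({c | ∃ k ∈ intGL K n, c = fun x => k * x * k⁻¹} ∪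
            {c | ∃ k ∈ intGL K n, c = fun x => k * (g₀ * trGL x * g₀⁻¹) * k⁻¹} :
              Set (GL n K → GL n K)) := by
        intro G hG c hc
        rcases hc with ⟨k, hk', rfl⟩ | ⟨k, hk', rfl⟩
        · right
          refine ⟨k * k₁, mul_mem hk' hk, ?_⟩
          funext y
          rw [Function.comp_apply, hG, hFx]
          group
        · left
          refine ⟨k * k₁⁻¹, mul_mem hk' (inv_mem hk), ?_⟩
          funext y
          rw [Function.comp_apply, hG, trGL_mul, trGL_mul, trGL_trGL, trGL_inv, htrF, hFx]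
          group
      refine ⟨_, hmem, ?_, ?_, hclose _ happ, hclose _ hinv⟩
      · rw [Units.val_neg, Units.val_one]
        norm_num
      · rw [happ, mul_inv_eq_iff_eq_mul]
        apply Units.ext
        rw [Units.val_mul, Units.val_mul, hFs x h2]
        exact h3.symm

/-- **Gelfand-Kazhdan**: conjugation invariant distributions on `GL_n(K)` are invariant under
transposition. -/
theorem gelfand_kazhdan (T : Sch (GL n K) ℂ →ₗ[ℂ] ℂ)
    (hT : ∀ (g : GL n K) (φ ψ : Sch (GL n K) ℂ), (∀ x, ψ.1 x = φ.1 (g * x * g⁻¹)) → T ψ = T φ)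
    (φ ψ : Sch (GL n K) ℂ) (h : ∀ x, ψ.1 x = φ.1 (trGL x)) : T ψ = T φ := by
  -- `φ ↦ φ ∘ transpose` on `Sch`
  let t : Sch (GL n K) ℂ →ₗ[ℂ] Sch (GL n K) ℂ := {
    toFun := fun φ => ⟨φ.1 ∘ trH, sch_comp φ.2 trH⟩
    map_add' := fun φ ψ => rfl
    map_smul' := fun c φ => rfl }
  have ht : ∀ φ : Sch (GL n K) ℂ, ∀ x, (t φ).1 x = φ.1 (trGL x) := fun φ x => rfl
  have h1 := coinv_ker (T - T.comp t) (by
    intro g φ ψ h
    rw [LinearMap.sub_apply, LinearMap.sub_apply, hT g φ ψ h, LinearMap.comp_apply,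
      LinearMap.comp_apply, hT (trGL g⁻¹) (t φ) (t ψ) (by
        intro x
        rw [ht, ht, h, trGL_mul, trGL_mul, ← trGL_inv, trGL_trGL, inv_inv, trGL_trGL,
          mul_assoc])]) (by
    intro φ ψ h
    have h2 : ψ = t φ := Subtype.ext (funext h)
    have h3 : t (t φ) = φ := Subtype.ext (funext fun x => by rw [ht, ht, trGL_trGL])
    rw [h2, LinearMap.sub_apply, LinearMap.sub_apply, LinearMap.comp_apply,
      LinearMap.comp_apply, h3]
    ring) φ.1 φ.2 (gk_le φ.2)
  have h2 : ψ = t φ := Subtype.ext (funext h)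
  rw [h2]
  rw [LinearMap.sub_apply, LinearMap.comp_apply, sub_eq_zero] at h1
  exact h1.symm

end

end SpW
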