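import Pool.Agent.Work.MP_3615d2_al.Defs

/-!
# The integral of locally constant functions with compact support, with values in a vector space
-/

open MeasureTheory Filter Topology

namespace SpW

section

variable {X : Type} [TopologicalSpace X] {S S' : Type} [AddCommGroup S] [Module ℂ S]
  [AddCommGroup S'] [Module ℂ S']

theorem dual_ext {a b : S} (h : ∀ ξ : S →ₗ[ℂ] ℂ, ξ a = ξ b) : a = b := by
  rw [← sub_eq_zero]
  refine (Module.forall_dual_apply_eq_zero_iff ℂ _).1 fun ξ => ?_
  rw [map_sub, h, sub_self]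

theorem sch_map_mem {f : X → S} (hf : f ∈ Sch X S) (A : S →ₗ[ℂ] S') :
    (fun x => A (f x)) ∈ Sch X S' := by
  obtain ⟨h1, K, hK, h2⟩ := hf
  exact ⟨h1.comp A, K, hK, fun x hx => by
    change A (f x) = 0
    rw [h2 x hx, map_zero]⟩

/-- composition with a linear map -/
def schMap (A : S →ₗ[ℂ] S') : Sch X S →ₗ[ℂ] Sch X S' where
  toFun f := ⟨fun x => A (f.1 x), sch_map_mem f.2 A⟩
  map_add' _ _ := Subtype.ext (funext fun _ => map_add A _ _)
  map_smul' _ _ := Subtype.ext (funext fun _ => map_smul A _ _)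

theorem schMap_apply (A : S →ₗ[ℂ] S') (f : Sch X S) (x : X) : (schMap A f).1 x = A (f.1 x) := rfl

theorem sch_finite {f : X → S} (hf : f ∈ Sch X S) : (Set.range f).Finite := by
  obtain ⟨h1, K, hK, h2⟩ := hf
  have h3 : (f '' K).Finite := by
    let _ : TopologicalSpace S := ⊥
    have : DiscreteTopology S := ⟨rfl⟩
    exact (hK.image h1.continuous).finite_of_discrete
  refine (h3.union (Set.finite_singleton 0)).subset ?_
  rintro _ ⟨x, rfl⟩
  by_cases hx : x ∈ K
  · exact Or.inl ⟨x, hx, rfl⟩
  · exact Or.inr (h2 x hx)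

variable [MeasurableSpace X] [BorelSpace X] (μ : Measure X) [IsFiniteMeasureOnCompacts μ]

omit [MeasurableSpace X] [BorelSpace X] in
theorem sch_fiber_compact {f : X → S} (hf : f ∈ Sch X S) {s : S} (hs : s ≠ 0) :
    IsCompact (f ⁻¹' {s}) := by
  obtain ⟨h1, K, hK, h2⟩ := hf
  refine hK.of_isClosed_subset (h1.isClosed_fiber s) ?_
  intro x hx
  by_contra hxK
  exact hs (by rw [← (show f x = s from hx), h2 x hxK])

/-- the integral -/
noncomputable def schI (f : Sch X S) : S := ∑ᶠ s : S, ((μ.real (f.1 ⁻¹' {s}) : ℝ) : ℂ) • s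

theorem sch_integrable (f : Sch X S) (ξ : S →ₗ[ℂ] ℂ) : Integrable (fun x => ξ (f.1 x)) μ := by
  classical
  have hfin := sch_finite f.2
  set F := hfin.toFinset with hF
  have h2 : (fun x => ξ (f.1 x)) =
      fun x => ∑ s ∈ F, (f.1 ⁻¹' {s}).indicator (fun _ => ξ s) x := by
    funext x
    rw [Finset.sum_eq_single (f.1 x)]
    · rw [Set.indicator_of_mem (by simp)]
    · intro s _ hs
      rw [Set.indicator_of_notMem]
      intro h
      exact hs (show f.1 x = s from h).symm
    · intro h
      exact absurd (hfin.mem_toFinset.2 ⟨x, rfl⟩) h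
  rw [h2]
  refine integrable_finsetSum _ fun s _ => ?_
  by_cases hs : s = 0
  · subst hs
    simp
  · exact (integrable_indicator_iff (f.2.1.isOpen_fiber s).measurableSet).2
      (integrableOn_const (sch_fiber_compact f.2 hs).measure_lt_top.ne)

theorem schI_dual (f : Sch X S) (ξ : S →ₗ[ℂ] ℂ) : ξ (schI μ f) = ∫ x, ξ (f.1 x) ∂μ := by
  classical
  have hfin := sch_finite f.2
  set F := hfin.toFinset with hF
  have hsupp : (Function.support fun s : S => ((μ.real (f.1 ⁻¹' {s}) : ℝ) : ℂ) • s) ⊆ F := by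
    intro s hs
    rw [hF, Set.Finite.coe_toFinset]
    by_contra hn
    apply hs
    have : f.1 ⁻¹' {s} = ∅ := by
      rw [Set.eq_empty_iff_forall_notMem]
      intro x hx
      exact hn ⟨x, hx⟩
    simp [this]
  have h1 : schI μ f = ∑ s ∈ F, ((μ.real (f.1 ⁻¹' {s}) : ℝ) : ℂ) • s :=
    finsum_eq_sum_of_support_subset _ hsupp
  have h2 : ∀ x, ξ (f.1 x) = ∑ s ∈ F, (f.1 ⁻¹' {s}).indicator (fun _ => ξ s) x := by
    intro x
    rw [Finset.sum_eq_single (f.1 x)]
    · rw [Set.indicator_of_mem (by simp)]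
    · intro s _ hs
      rw [Set.indicator_of_notMem]
      intro h
      exact hs (show f.1 x = s from h).symm
    · intro h
      exact absurd (hfin.mem_toFinset.2 ⟨x, rfl⟩) h
  have h3 : ∀ s ∈ F, Integrable ((f.1 ⁻¹' {s}).indicator (fun _ => ξ s)) μ := by
    intro s _
    by_cases hs : s = 0
    · subst hs
      simp
    · exact (integrable_indicator_iff (f.2.1.isOpen_fiber s).measurableSet).2
        (integrableOn_const (sch_fiber_compact f.2 hs).measure_lt_top.ne)
  rw [h1, map_sum]
  simp_rw [h2]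
  rw [integral_finsetSum _ h3]
  refine Finset.sum_congr rfl fun s _ => ?_
  have h4 : MeasurableSet (f.1 ⁻¹' {s}) := (f.2.1.isOpen_fiber s).measurableSet
  rw [integral_indicator_const _ h4, map_smul]
  rfl

/-- the integral as a linear map -/
noncomputable def schIL (X S : Type) [TopologicalSpace X] [AddCommGroup S] [Module ℂ S]
    [MeasurableSpace X] [BorelSpace X] (μ : Measure X) [IsFiniteMeasureOnCompacts μ] :
    Sch X S →ₗ[ℂ] S where
  toFun f := schI μ f
  map_add' f g := dual_ext fun ξ => by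
    rw [map_add, schI_dual, schI_dual, schI_dual, ← integral_add]
    · exact integral_congr_ae (Filter.Eventually.of_forall fun x => map_add ξ _ _)
    · exact sch_integrable μ f ξ
    · exact sch_integrable μ g ξ
  map_smul' c f := dual_ext fun ξ => by
    rw [RingHom.id_apply, map_smul, schI_dual, schI_dual, smul_eq_mul, ← integral_const_mul]
    exact integral_congr_ae (Filter.Eventually.of_forall fun x => map_smul ξ _ _)

theorem schIL_apply (f : Sch X S) : schIL X S μ f = schI μ f := rfl

theorem schI_map (A : S →ₗ[ℂ] S') (f : Sch X S) : A (schI μ f) = schI μ (schMap A f) := by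
  refine dual_ext fun ξ => ?_
  have h := schI_dual μ f (ξ.comp A)
  rw [LinearMap.comp_apply] at h
  rw [h, schI_dual]
  rfl

theorem schI_congr_map (f g : Sch X S) (h : X → X) (hμ : MeasurePreserving h μ μ)
    (hfg : ∀ x, g.1 x = f.1 (h x)) : schI μ g = schI μ f := by
  refine dual_ext fun ξ => ?_
  rw [schI_dual, schI_dual]
  simp_rw [hfg]
  have h1 : AEStronglyMeasurable (fun x => ξ (f.1 x)) μ :=
    (sch_integrable μ f ξ).aestronglyMeasurable
  have h2 := integral_map (μ := μ) hμ.measurable.aemeasurable (f := fun x => ξ (f.1 x))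
    (by rw [hμ.map_eq]; exact h1)
  rw [hμ.map_eq] at h2
  exact h2.symm

theorem schI_indicator_const (f : Sch X S) {U : Set X} (hU : IsOpen U) {v : S}
    (h1 : ∀ x ∈ U, f.1 x = v) (h2 : ∀ x, x ∉ U → f.1 x = 0) :
    schI μ f = ((μ.real U : ℝ) : ℂ) • v := by
  refine dual_ext fun ξ => ?_
  rw [schI_dual, map_smul]
  have h3 : ∀ x, ξ (f.1 x) = U.indicator (fun _ => ξ v) x := by
    intro x
    by_cases hx : x ∈ U
    · rw [Set.indicator_of_mem hx, h1 x hx]
    · rw [Set.indicator_of_notMem hx, h2 x hx, map_zero]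
  simp_rw [h3]
  rw [integral_indicator_const _ hU.measurableSet]
  rfl

end

end SpW
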