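import Pool.Agent.Work.MP_3615d2_al.AltDet
import Pool.Agent.Work.MP_3615d2_al.AltSm
import Pool.Agent.Work.MP_3615d2_al.BP
import Pool.Agent.Work.MP_3615d2_al.SchInt
import Pool.Agent.Work.MP_3615d2_al.GK

/-!
MP_3615d2_al, Theorem B, R10: the functions on `Alt` restricted to the forms for which the span of
the first `m` basis vectors is isotropic, and integrated over the lower right block.
-/

open MeasureTheory Matrix Filter Topology
open scoped NNReal

namespace SpW

section alg

variable {E : Type} [Field E] {m : ℕ}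

/-- The form `(0 x; -xᵀ c)`. -/
def iso (x : GL (Fin m) E) (u : Up m → E) : Alt (2 * m) E :=
  ⟨bm 0 (x : Matrix (Fin m) (Fin m) E) (-(x : Matrix (Fin m) (Fin m) E).transpose) (altM u), by
    refine ⟨?_, ?_⟩
    · rw [bm_transpose, bm_neg, altM_transpose, Matrix.transpose_zero, Matrix.transpose_neg,
        Matrix.transpose_transpose, neg_zero, neg_neg]
    · rw [bm_det_iso]
      have h1 : IsUnit (bm 0 1 1 0 : Matrix (Fin (2 * m)) (Fin (2 * m)) E).det := by
        have := bm_wel_sq (E := E) (m := m)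
        rw [sq] at this
        exact IsUnit.of_mul_eq_one _ this
      have h2 : IsUnit (x : Matrix (Fin m) (Fin m) E).det :=
        (Matrix.isUnit_iff_isUnit_det _).1 (Units.isUnit x)
      exact (h1.mul (isUnit_one.neg.pow m)).mul (h2.pow 2)⟩

theorem iso_val (x : GL (Fin m) E) (u : Up m → E) : (iso x u).1 =
    bm 0 (x : Matrix (Fin m) (Fin m) E) (-(x : Matrix (Fin m) (Fin m) E).transpose) (altM u) := rfl

theorem iso_b11 (x : GL (Fin m) E) (u : Up m → E) : b11 (iso x u).1 = 0 := by
  rw [iso_val, b11_bm]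

theorem iso_b12 (x : GL (Fin m) E) (u : Up m → E) :
    b12 (iso x u).1 = (x : Matrix (Fin m) (Fin m) E) := by
  rw [iso_val, b12_bm]

theorem iso_b22 (x : GL (Fin m) E) (u : Up m → E) : b22 (iso x u).1 = altM u := by
  rw [iso_val, b22_bm]

/-- The inverse of the matrix of `iso x u`. -/
theorem iso_inv_b21 (x : GL (Fin m) E) (u : Up m → E) :
    b21 ((iso x u).1⁻¹) = ((x⁻¹ : GL (Fin m) E) : Matrix (Fin m) (Fin m) E) := by
  have hx : (x : Matrix (Fin m) (Fin m) E) * ((x⁻¹ : GL (Fin m) E) : Matrix (Fin m) (Fin m) E) = 1 :=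
    Units.mul_inv x
  have hx' : (x : Matrix (Fin m) (Fin m) E).transpose *
      ((x⁻¹ : GL (Fin m) E) : Matrix (Fin m) (Fin m) E).transpose = 1 := by
    rw [← Matrix.transpose_mul, Units.inv_mul, Matrix.transpose_one]
  have h : (iso x u).1 * bm (((x⁻¹ : GL (Fin m) E) : Matrix (Fin m) (Fin m) E).transpose *
      (altM u * ((x⁻¹ : GL (Fin m) E) : Matrix (Fin m) (Fin m) E)))
      (-((x⁻¹ : GL (Fin m) E) : Matrix (Fin m) (Fin m) E).transpose)
      ((x⁻¹ : GL (Fin m) E) : Matrix (Fin m) (Fin m) E) 0 = 1 := by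
    rw [iso_val, bm_mul, ← bm_one]
    congr 1
    · rw [Matrix.zero_mul, zero_add, hx]
    · simp
    · rw [Matrix.neg_mul, ← Matrix.mul_assoc, hx', Matrix.one_mul, neg_add_cancel]
    · rw [Matrix.mul_zero, add_zero, Matrix.neg_mul, Matrix.mul_neg, neg_neg, hx']
  rw [Matrix.inv_eq_right_inv h, b21_bm]

end alg

section top

variable {E : Type} [NontriviallyNormedField E] {m : ℕ}

/-- The action of `pel a d y`. -/
theorem pel_iso (h2 : (2 : E) ≠ 0) (a d : GL (Fin m) E) (y : Matrix (Fin m) (Fin m) E)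
    (x : GL (Fin m) E) (u : Up m → E) :
    (pel a d y)⁻¹ • iso x u = iso (trGL a * x * d) (altE h2 d u +
      upM (y.transpose * (x : Matrix (Fin m) (Fin m) E) * (d : Matrix (Fin m) (Fin m) E) -
        (d : Matrix (Fin m) (Fin m) E).transpose * (x : Matrix (Fin m) (Fin m) E).transpose * y)) := by
  obtain ⟨h3, h4, h5⟩ := pel_inv_smul a d y (iso x u)
  apply Subtype.ext
  rw [alt_eta, h3, h4, h5, iso_b11, iso_b12, iso_b22, iso_val, altM_add, altM_altE, altM_upM h2]
  · have e1 : ((trGL a * x * d : GL (Fin m) E) : Matrix (Fin m) (Fin m) E) =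
        (a : Matrix (Fin m) (Fin m) E).transpose * (x : Matrix (Fin m) (Fin m) E) *
          (d : Matrix (Fin m) (Fin m) E) := rfl
    rw [e1]
    congr 1
    · simp
    · simp [Matrix.mul_assoc]
    · simp [Matrix.mul_assoc]
    · simp only [Matrix.zero_mul, zero_add, Matrix.mul_add, Matrix.neg_mul, Matrix.mul_neg,
        Matrix.mul_assoc]
      abel
  · rw [Matrix.transpose_sub]
    simp only [Matrix.transpose_mul, Matrix.transpose_transpose, Matrix.mul_assoc]
    abel

theorem continuous_altM : Continuous (altM : (Up m → E) → Matrix (Fin m) (Fin m) E) := by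
  refine continuous_matrix fun i j => ?_
  unfold altM
  split_ifs
  · exact continuous_apply _
  · exact (continuous_apply _).neg
  · exact continuous_const

theorem continuous_upM : Continuous (upM : Matrix (Fin m) (Fin m) E → (Up m → E)) :=
  continuous_pi fun p => (continuous_id.matrix_elem p.1.1 p.1.2)

theorem continuous_iso :
    Continuous fun p : GL (Fin m) E × (Up m → E) => iso p.1 p.2 := by
  refine Continuous.subtype_mk ?_ _
  have h1 : Continuous fun p : GL (Fin m) E × (Up m → E) => (p.1 : Matrix (Fin m) (Fin m) E) :=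
    Units.continuous_val.comp continuous_fst
  exact continuous_bm continuous_const h1 h1.matrix_transpose.neg
    (continuous_altM.comp continuous_snd)

theorem continuous_altinv {N : ℕ} : Continuous fun B : Alt N E => B.1⁻¹ := by
  have h : (fun B : Alt N E => B.1⁻¹) = fun B : Alt N E => B.1.det⁻¹ • B.1.adjugate := by
    funext B
    rw [Matrix.inv_def, Ring.inverse_eq_inv']
  rw [h]
  have h1 : Continuous fun B : Alt N E => B.1 := continuous_subtype_val
  exact (h1.matrix_det.inv₀ fun B => B.2.2.ne_zero).smul h1.matrix_adjugate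

theorem continuous_pel_left :
    Continuous fun a : GL (Fin m) E => (pel a 1 0 : GL (Fin (2 * m)) E) := by
  refine Units.continuous_iff.2 ⟨?_, ?_⟩
  · show Continuous fun a : GL (Fin m) E => bm (a : Matrix (Fin m) (Fin m) E) 0 0 1
    exact continuous_bm Units.continuous_val continuous_const continuous_const continuous_const
  · have h : (fun a : GL (Fin m) E => ((pel a 1 0)⁻¹ : GL (Fin (2 * m)) E).1) =
        fun a : GL (Fin m) E => bm ((a⁻¹ : GL (Fin m) E) : Matrix (Fin m) (Fin m) E) 0 0 1 := by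
      funext a
      rw [pel_inv, pel_val]
      simp
    rw [h]
    exact continuous_bm (Units.continuous_val.comp continuous_inv) continuous_const
      continuous_const continuous_const

/-- The slices are in `Sch`. -/
theorem slice_mem (f : Sch (Alt (2 * m) E) ℂ) (x : GL (Fin m) E) :
    (fun u => (f : Alt (2 * m) E → ℂ) (iso x u)) ∈ Sch (Up m → E) ℂ := by
  obtain ⟨hf, K, hK, hfK⟩ := f.2
  have hc : Continuous fun u : Up m → E => iso x u :=
    continuous_iso.comp (Continuous.prodMk continuous_const continuous_id)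
  refine ⟨hf.comp_continuous hc, (fun B : Alt (2 * m) E => upM (b22 B.1)) '' K,
    hK.image (continuous_upM.comp (continuous_b22 continuous_alt_val)), fun u hu => ?_⟩
  apply hfK
  intro h
  refine hu ⟨iso x u, h, ?_⟩
  show upM (b22 (iso x u).1) = u
  rw [iso_b22, upM_altM]

/-- The slice. -/
def slice (f : Sch (Alt (2 * m) E) ℂ) (x : GL (Fin m) E) : Sch (Up m → E) ℂ :=
  ⟨_, slice_mem f x⟩

theorem slice_apply (f : Sch (Alt (2 * m) E) ℂ) (x : GL (Fin m) E) (u : Up m → E) :
    (slice f x : (Up m → E) → ℂ) u = (f : Alt (2 * m) E → ℂ) (iso x u) := rfl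

theorem slice_locConst (h2 : (2 : E) ≠ 0) (f : Sch (Alt (2 * m) E) ℂ) (x₀ : GL (Fin m) E) :
    ∀ᶠ x in 𝓝 x₀, slice f x = slice f x₀ := by
  have h1 : ∀ᶠ g in 𝓝 (1 : GL (Fin (2 * m)) E), altRep (2 * m) E g f = f := altRep_smooth f
  have h3 : Tendsto (fun x : GL (Fin m) E => (pel (trGL (x * x₀⁻¹)) 1 0 : GL (Fin (2 * m)) E))
      (𝓝 x₀) (𝓝 1) := by
    have hc : Continuous fun x : GL (Fin m) E =>
        (pel (trGL (x * x₀⁻¹)) 1 0 : GL (Fin (2 * m)) E) :=
      continuous_pel_left.comp (continuous_trGL.comp (continuous_id.mul continuous_const))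
    have := hc.tendsto x₀
    rwa [mul_inv_cancel, trGL_one, pel_one] at this
  filter_upwards [h3.eventually h1] with x hx
  apply Sch.ext'
  intro u
  rw [slice_apply, slice_apply]
  conv_rhs => rw [← hx]
  have e3 : trGL (trGL (x * x₀⁻¹)) * x₀ * 1 = x := by
    rw [trGL_trGL, mul_one, inv_mul_cancel_right]
  have e1 : altE h2 (1 : GL (Fin m) E) u = u := by
    have e2 := altM_altE h2 (1 : GL (Fin m) E) u
    rw [Units.val_one, Matrix.transpose_one, Matrix.one_mul, Matrix.mul_one] at e2
    rw [← upM_altM (altE h2 (1 : GL (Fin m) E) u), e2, upM_altM]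
  have e4 : upM ((0 : Matrix (Fin m) (Fin m) E).transpose * (x₀ : Matrix (Fin m) (Fin m) E) *
      ((1 : GL (Fin m) E) : Matrix (Fin m) (Fin m) E) -
      ((1 : GL (Fin m) E) : Matrix (Fin m) (Fin m) E).transpose *
        (x₀ : Matrix (Fin m) (Fin m) E).transpose * 0) = 0 := by
    funext p
    simp [upM]
  rw [altRep_apply, pel_iso h2, e3, e1, e4, add_zero]

variable [IsUltrametricDist E] [ProperSpace E] [MeasurableSpace E] [BorelSpace E]

/-- The integral over the lower right block. -/
noncomputable def altI (f : Sch (Alt (2 * m) E) ℂ) (x : GL (Fin m) E) : ℂ :=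
  ∫ u, (f : Alt (2 * m) E → ℂ) (iso x u) ∂(Measure.addHaar : Measure (Up m → E))

theorem altI_mem (h2 : (2 : E) ≠ 0) (f : Sch (Alt (2 * m) E) ℂ) :
    altI f ∈ Sch (GL (Fin m) E) ℂ := by
  refine ⟨?_, ?_⟩
  · rw [IsLocallyConstant.iff_eventually_eq]
    intro x₀
    filter_upwards [slice_locConst h2 f x₀] with x hx
    unfold altI
    have h1 : ∀ u, (f : Alt (2 * m) E → ℂ) (iso x u) = (f : Alt (2 * m) E → ℂ) (iso x₀ u) :=
      fun u => by rw [← slice_apply, hx, slice_apply]
    simp_rw [h1]
  · obtain ⟨hf, K, hK, hfK⟩ := f.2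
    have hA : IsCompact ((fun B : Alt (2 * m) E => b12 B.1) '' K) :=
      hK.image (continuous_b12 continuous_alt_val)
    have hB : IsCompact ((fun B : Alt (2 * m) E => b21 (B.1⁻¹)) '' K) :=
      hK.image (continuous_altinv.matrix_submatrix _ _)
    have h3 := (Units.isClosedEmbedding_embedProduct (α := Matrix (Fin m) (Fin m) E)).isCompact_preimage
      (hA.prod (MulOpposite.opHomeomorph.symm.isCompact_preimage.2 hB))
    refine ⟨_, h3, fun x hx => ?_⟩
    unfold altI
    have h1 : ∀ u, (f : Alt (2 * m) E → ℂ) (iso x u) = 0 := by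
      intro u
      apply hfK
      intro hu
      apply hx
      refine Set.mem_preimage.2 ?_
      rw [Units.embedProduct_apply]
      exact Set.mk_mem_prod ⟨iso x u, hu, iso_b12 x u⟩ ⟨iso x u, hu, iso_inv_b21 x u⟩
    simp_rw [h1]
    exact integral_zero _ _

/-- The integral as a linear map. -/
noncomputable def altF (h2 : (2 : E) ≠ 0) : Sch (Alt (2 * m) E) ℂ →ₗ[ℂ] Sch (GL (Fin m) E) ℂ where
  toFun f := ⟨altI f, altI_mem h2 f⟩
  map_add' f g := by
    apply Sch.ext'
    intro x
    show altI (f + g) x = altI f x + altI g x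
    unfold altI
    rw [← integral_add]
    · rfl
    · exact sch_integrable (Measure.addHaar : Measure (Up m → E)) (slice f x) LinearMap.id
    · exact sch_integrable (Measure.addHaar : Measure (Up m → E)) (slice g x) LinearMap.id
  map_smul' c f := by
    apply Sch.ext'
    intro x
    show altI (c • f) x = c • altI f x
    unfold altI
    rw [← integral_smul]
    rfl

theorem altF_apply (h2 : (2 : E) ≠ 0) (f : Sch (Alt (2 * m) E) ℂ) (x : GL (Fin m) E) :
    (altF h2 f : GL (Fin m) E → ℂ) x =
      ∫ u, (f : Alt (2 * m) E → ℂ) (iso x u) ∂(Measure.addHaar : Measure (Up m → E)) := rfl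

/-- Equivariance. -/
theorem altF_transl (hm : 0 < m) (h2 : (2 : E) ≠ 0) (a d : GL (Fin m) E)
    (y : Matrix (Fin m) (Fin m) E) (f f' : Sch (Alt (2 * m) E) ℂ) (h : IsTransl (pel a d y) f f')
    (x : GL (Fin m) E) : (altF h2 f' : GL (Fin m) E → ℂ) x =
      ((ad d ^ (-((m : ℝ) - 1)) : ℝ) : ℂ) * (altF h2 f : GL (Fin m) E → ℂ) (trGL a * x * d) := by
  rw [altF_apply, altF_apply]
  have h1 : ∀ u, (f' : Alt (2 * m) E → ℂ) (iso x u) = (f : Alt (2 * m) E → ℂ)
      (iso (trGL a * x * d) (altE h2 d u +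
      upM (y.transpose * (x : Matrix (Fin m) (Fin m) E) * (d : Matrix (Fin m) (Fin m) E) -
        (d : Matrix (Fin m) (Fin m) E).transpose * (x : Matrix (Fin m) (Fin m) E).transpose * y))) :=
    fun u => by rw [h, pel_iso h2]
  simp_rw [h1]
  rw [integral_linearEquiv (Measure.addHaar : Measure (Up m → E)) (altE h2 d)
    (fun u => (f : Alt (2 * m) E → ℂ) (iso (trGL a * x * d) (u +
      upM (y.transpose * (x : Matrix (Fin m) (Fin m) E) * (d : Matrix (Fin m) (Fin m) E) -
        (d : Matrix (Fin m) (Fin m) E).transpose * (x : Matrix (Fin m) (Fin m) E).transpose * y)))),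
    integral_add_right_eq_self (μ := (Measure.addHaar : Measure (Up m → E)))
      (fun u => (f : Alt (2 * m) E → ℂ) (iso (trGL a * x * d) u)), det_altE]
  congr 1
  have e1 : ((md ((d : Matrix (Fin m) (Fin m) E).det ^ (m - 1)) : ℝ≥0) : ℝ) =
      ad d ^ ((m : ℝ) - 1) := by
    have e2 : ((m : ℝ) - 1) = ((m - 1 : ℕ) : ℝ) := by
      rw [Nat.cast_sub (by omega), Nat.cast_one]
    rw [md_pow, e2, Real.rpow_natCast, NNReal.coe_pow]
    congr 1
    unfold ad absE
    rw [← md_units]
    rfl
  rw [e1, Real.rpow_neg (ad_pos d).le, Complex.ofReal_inv]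

end top

end SpW
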