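import Pool.Agent.Work.MP_3615d2_al.GgBase

/-!
MP_3615d2_al: the gauge principle (note 6449, section 1).
-/

open Set Topology

namespace SpW

/-- `u` is the value at `x₀` of a continuous section `s` of the stabilisers over `Z` near `x₀`,
and `u` lies in a compact open subgroup. -/
def GaugeFix {U X : Type} [Group U] [TopologicalSpace U] [TopologicalSpace X] [MulAction U X]
    (Z : Set X) (x₀ : X) (u : U) : Prop :=
  ∃ (V : Set X) (s : X → U) (C : Subgroup U),
    IsOpen V ∧ x₀ ∈ V ∧ ContinuousOn s (Z ∩ V) ∧ (∀ x ∈ Z ∩ V, s x • x = x) ∧ s x₀ = u ∧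
      IsOpen (C : Set U) ∧ IsCompact (C : Set U) ∧ u ∈ C

section gauge

variable {U X S : Type} [Group U] [TopologicalSpace U] [TopologicalSpace X] [MulAction U X]
  [ContinuousSMul U X] [AddCommGroup S] [Module ℂ S]

omit [Group U] [MulAction U X] [ContinuousSMul U X] in
theorem isOpen_iff_aux (A B : Set X) (hA : IsClopen A) (hB : IsClopen B) :
    IsOpen {x | x ∈ A ↔ x ∈ B} := by
  have : {x | x ∈ A ↔ x ∈ B} = (A ∩ B) ∪ (Aᶜ ∩ Bᶜ) := by
    ext x
    show (x ∈ A ↔ x ∈ B) ↔ ((x ∈ A ∧ x ∈ B) ∨ (x ∉ A ∧ x ∉ B))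
    tauto
  rw [this]
  exact (hA.isOpen.inter hB.isOpen).union (hA.compl.isOpen.inter hB.compl.isOpen)

theorem locConst_type (C : Set U) (hC : IsCompact C) (Q : Set X) (hQ : IsClopen Q) :
    IsLocallyConstant (fun x : X => fun c : C => ((c : U) • x ∈ Q)) := by
  rw [IsLocallyConstant.iff_eventually_eq]
  intro y
  have hA : IsClopen {p : U × X | p.1 • p.2 ∈ Q} :=
    hQ.preimage (continuous_fst.smul continuous_snd)
  have hB : IsClopen {p : U × X | p.1 • y ∈ Q} :=
    hQ.preimage (continuous_fst.smul continuous_const)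
  have hopen := isOpen_iff_aux _ _ hA hB
  obtain ⟨u, v, hu, hv, hCu, hyv, huv⟩ := generalized_tube_lemma hC (isCompact_singleton (x := y))
    hopen (by
      rintro ⟨c, z⟩ ⟨_, hz⟩
      have hz' : z = y := hz
      subst hz'
      exact Iff.rfl)
  filter_upwards [hv.mem_nhds (hyv rfl)] with z hz
  funext c
  exact propext (huv (Set.mk_mem_prod (hCu c.2) hz))

/-- The gauge principle (1.3). -/
theorem gauge_principle (om : U →* Module.End ℂ S) (L : Sch X S →ₗ[ℂ] ℂ)
    (hL : ∀ g f, L (gact om g f) = L f) (Z : Set X)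
    (hLZ : ∀ f : Sch X S, (∀ x ∈ Z, (f : X → S) x = 0) → L f = 0)
    (V : Set X) (s : X → U) (C : Subgroup U) (hC : IsCompact (C : Set U)) (v v' : S)
    (hs : ∀ x ∈ Z ∩ V, s x • x = x) (hsC : ∀ x ∈ Z ∩ V, s x ∈ C)
    (hsv : ∀ x ∈ Z ∩ V, om (s x) v = v')
    (Q : Set X) (hQ : IsClopen Q) (hK : IsCompact Q) (hQV : Q ⊆ V) :
    L (ind Q hQ hK v) = L (ind Q hQ hK v') := by
  have hπ := locConst_type (X := X) (C : Set U) hC Q hQ
  have hmem : ind Q hQ hK v - ind Q hQ hK v' ∈ LinearMap.ker L := by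
    refine mem_of_cut_fibre _ hπ _ _ ?_
    intro i
    rw [LinearMap.mem_ker, map_sub, map_sub]
    set P : Set X := (fun x : X => fun c : (C : Set U) => ((c : U) • x ∈ Q)) ⁻¹' {i} with hP
    by_cases hy : ∃ y ∈ Z ∩ Q, y ∈ P
    · obtain ⟨y, ⟨hyZ, hyQ⟩, hyP⟩ := hy
      have hyV : y ∈ Z ∩ V := ⟨hyZ, hQV hyQ⟩
      have hPQ : ∀ x ∈ P, x ∈ Q := by
        intro x hx
        have h1 := congrFun (hx : (fun c : (C : Set U) => ((c : U) • x ∈ Q)) = i) ⟨1, C.one_mem⟩
        have h2 := congrFun (hyP : (fun c : (C : Set U) => ((c : U) • y ∈ Q)) = i) ⟨1, C.one_mem⟩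
        have h3 : (x ∈ Q) = (y ∈ Q) := by
          simpa using h1.trans h2.symm
        rw [h3]
        exact hyQ
      have hstab : ∀ h ∈ C, h • y = y → ∀ x ∈ P, h • x ∈ P := by
        intro h hh hhy x hx
        show (fun c : (C : Set U) => ((c : U) • (h • x) ∈ Q)) = i
        have hy' : (fun c : (C : Set U) => ((c : U) • y ∈ Q)) = i := hyP
        have hx' : (fun c : (C : Set U) => ((c : U) • x ∈ Q)) = i := hx
        funext c
        have h1 := congrFun hx' ⟨(c : U) * h, C.mul_mem c.2 hh⟩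
        have h2 := congrFun hy' ⟨(c : U) * h, C.mul_mem c.2 hh⟩
        have h3 := congrFun hy' c
        have h4 : ((c : U) * h) • x = (c : U) • (h • x) := mul_smul _ _ _
        have h5 : ((c : U) * h) • y = (c : U) • y := by rw [mul_smul, hhy]
        have h1' : ((c : U) • (h • x) ∈ Q) = i ⟨(c : U) * h, C.mul_mem c.2 hh⟩ := by
          rw [← h4]; exact h1
        have h2' : ((c : U) • y ∈ Q) = i ⟨(c : U) * h, C.mul_mem c.2 hh⟩ := by
          rw [← h5]; exact h2
        rw [h1', ← h2']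
        exact h3
      have hg : s y ∈ C := hsC y hyV
      have hgy : s y • y = y := hs y hyV
      have hgy' : (s y)⁻¹ • y = y := by
        rw [inv_smul_eq_iff]
        exact hgy.symm
      have hPiff : ∀ x, (s y)⁻¹ • x ∈ P ↔ x ∈ P := by
        intro x
        constructor
        · intro h
          have := hstab _ hg hgy _ h
          rwa [← mul_smul, mul_inv_cancel, one_smul] at this
        · intro h
          exact hstab _ (C.inv_mem hg) hgy' _ h
      have heq : gact om (s y) (cut P (hπ.isClopen_fiber i) (ind Q hQ hK v)) =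
          cut P (hπ.isClopen_fiber i) (ind Q hQ hK v') := by
        apply Sch.ext'
        intro x
        rw [gact_apply]
        by_cases hx : x ∈ P
        · have hx2 := (hPiff x).2 hx
          rw [cut_mem _ _ hx, cut_mem _ _ hx2, ind_mem _ _ _ (hPQ _ hx), ind_mem _ _ _ (hPQ _ hx2)]
          exact hsv y hyV
        · have hx2 : (s y)⁻¹ • x ∉ P := fun h => hx ((hPiff x).1 h)
          rw [cut_notMem _ _ hx, cut_notMem _ _ hx2, map_zero]
      rw [← heq, hL, sub_self]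
    · have hz : ∀ w : S, L (cut P (hπ.isClopen_fiber i) (ind Q hQ hK w)) = 0 := by
        intro w
        apply hLZ
        intro x hx
        by_cases hxP : x ∈ P
        · have hxQ : x ∉ Q := fun hxQ => hy ⟨x, ⟨hx, hxQ⟩, hxP⟩
          rw [cut_mem _ _ hxP, ind_notMem _ _ _ hxQ]
        · exact cut_notMem _ _ hxP
      rw [hz, hz, sub_self]
  rw [LinearMap.mem_ker, map_sub] at hmem
  exact sub_eq_zero.1 hmem

end gauge

section vanish

variable {U X T S : Type} [Group U] [TopologicalSpace U] [IsTopologicalGroup U]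
  [TopologicalSpace X] [T2Space X] [MulAction U X] [ContinuousSMul U X]
  [TopologicalSpace T] [T2Space T] [AddCommGroup S] [Module ℂ S]

/-- An invariant functional that lives on one fibre of `χ` vanishes. -/
theorem gauge_fibre
    (hX : ∀ x : X, ∀ V ∈ 𝓝 x, ∃ K : Set X, IsOpen K ∧ IsCompact K ∧ x ∈ K ∧ K ⊆ V)
    (om : U →* Module.End ℂ S) (hom : IsSmoothRep om)
    (χ : X → T) (hχ : Continuous χ)
    (t : T) (r : X → ℕ) (hr : ∃ n, ∀ x, r x ≤ n) (hr' : ∀ k, IsOpen {x | k ≤ r x})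
    (H : ∀ (x₀ : X) (Z : Set X), χ x₀ = t → IsClosed Z → x₀ ∈ Z → (∀ x ∈ Z, χ x = χ x₀) →
      (∀ u : U, ∀ x ∈ Z, u • x ∈ Z) → (∀ x ∈ Z, r x ≤ r x₀) →
      ∀ m : S →ₗ[ℂ] ℂ, (∀ u : U, GaugeFix Z x₀ u → ∀ v, m (om u v) = m v) → m = 0)
    (L : Sch X S →ₗ[ℂ] ℂ) (hL : ∀ g f, L (gact om g f) = L f)
    (hLt : ∀ f : Sch X S, (∀ x, χ x = t → (f : X → S) x = 0) → L f = 0) : L = 0 := by
  have hcl : ∀ K : Set X, IsOpen K → IsCompact K → IsClopen K := fun K h1 h2 => ⟨h2.isClosed, h1⟩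
  set Z' : Set X := {x | ∃ v : S, ∀ Q₀ : Set X, IsOpen Q₀ → x ∈ Q₀ →
    ∃ (Q : Set X) (hQ : IsClopen Q) (hK : IsCompact Q), Q ⊆ Q₀ ∧ L (ind Q hQ hK v) ≠ 0} with hZ'
  -- functions vanishing on `Z'` are killed
  have hvan : ∀ f : Sch X S, (∀ x ∈ Z', (f : X → S) x = 0) → L f = 0 := by
    intro f hf
    have : f ∈ LinearMap.ker L := by
      refine mem_of_cut_nhds (fun x : X => x) continuous_id _ f ?_
      intro x
      have hloc := (IsLocallyConstant.iff_eventually_eq (f : X → S)).1 f.2.1 x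
      by_cases hv : (f : X → S) x = 0
      · obtain ⟨W, hWo, hWc, hxW, hWs⟩ := hX x _ hloc
        refine ⟨W, hcl W hWo hWc, hxW, ?_⟩
        intro W' hW' hs
        have : cut ((fun x : X => x) ⁻¹' W') (hW'.preimage continuous_id) f = 0 := by
          apply Sch.ext'
          intro y
          by_cases hy : y ∈ (fun x : X => x) ⁻¹' W'
          · rw [cut_mem _ f hy, hWs (hs hy), hv]; rfl
          · exact cut_notMem _ f hy
        rw [this]
        exact Submodule.zero_mem _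
      · have hx : x ∉ Z' := fun h => hv (hf x h)
        have hx2 : ∃ Q₀ : Set X, IsOpen Q₀ ∧ x ∈ Q₀ ∧ ∀ (Q : Set X) (hQ : IsClopen Q)
            (hK : IsCompact Q), Q ⊆ Q₀ → L (ind Q hQ hK ((f : X → S) x)) = 0 := by
          by_contra hcon
          apply hx
          refine ⟨(f : X → S) x, ?_⟩
          intro Q₀ hQ₀ hxQ₀
          by_contra hcon2
          apply hcon
          refine ⟨Q₀, hQ₀, hxQ₀, ?_⟩
          intro Q hQ hK hs
          by_contra hne
          exact hcon2 ⟨Q, hQ, hK, hs, hne⟩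
        obtain ⟨Q₀, hQ₀, hxQ₀, hall⟩ := hx2
        obtain ⟨W, hWo, hWc, hxW, hWs⟩ := hX x _ (Filter.inter_mem hloc (hQ₀.mem_nhds hxQ₀))
        refine ⟨W, hcl W hWo hWc, hxW, ?_⟩
        intro W' hW' hs
        have hc' : IsCompact W' := hWc.of_isClosed_subset hW'.isClosed hs
        have : cut ((fun x : X => x) ⁻¹' W') (hW'.preimage continuous_id) f =
            ind W' hW' hc' ((f : X → S) x) := by
          apply Sch.ext'
          intro y
          by_cases hy : y ∈ (fun x : X => x) ⁻¹' W'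
          · rw [cut_mem _ f hy, (hWs (hs hy)).1, ind_mem hW' hc' _ hy]
          · rw [cut_notMem _ f hy, ind_notMem hW' hc' _ hy]
        rw [this]
        exact hall W' hW' hc' (hs.trans (fun y hy => (hWs hy).2))
    exact this
  by_contra hL0
  -- `Z'` is not empty
  have hne : Z'.Nonempty := by
    by_contra hcon
    apply hL0
    ext f
    apply hvan
    intro x hx
    exact absurd ⟨x, hx⟩ hcon
  -- `Z'` is in the fibre
  have hfib : ∀ x ∈ Z', χ x = t := by
    rintro x ⟨v, hv⟩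
    by_contra hx
    obtain ⟨Q, hQ, hK, hs, hLQ⟩ := hv (χ ⁻¹' {t}ᶜ) (isOpen_compl_singleton.preimage hχ) hx
    apply hLQ
    apply hLt
    intro y hy
    apply ind_notMem
    intro hyQ
    exact hs hyQ hy
  have hfib2 : ∀ x ∈ closure Z', χ x = t := by
    have : closure Z' ⊆ χ ⁻¹' {t} := closure_minimal hfib (isClosed_singleton.preimage hχ)
    exact fun x hx => this hx
  -- stability
  have hst : ∀ u : U, ∀ x ∈ Z', u • x ∈ Z' := by
    rintro u x ⟨v, hv⟩
    refine ⟨om u v, ?_⟩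
    intro Q₀ hQ₀ hx
    obtain ⟨Q, hQ, hK, hs, hLQ⟩ := hv ((fun y : X => u • y) ⁻¹' Q₀)
      (hQ₀.preimage (continuous_const_smul u)) hx
    have hK2 : IsCompact ((fun y : X => u⁻¹ • y) ⁻¹' Q) := by
      have : (fun y : X => u⁻¹ • y) ⁻¹' Q = (fun y : X => u • y) '' Q := by
        ext y
        constructor
        · intro hy
          exact ⟨u⁻¹ • y, hy, by simp⟩
        · rintro ⟨z, hz, rfl⟩
          show u⁻¹ • (u • z) ∈ Q
          rwa [inv_smul_smul]
      rw [this]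
      exact hK.image (continuous_const_smul u)
    have hQ2 : IsClopen ((fun y : X => u⁻¹ • y) ⁻¹' Q) := hQ.preimage (continuous_const_smul u⁻¹)
    refine ⟨(fun y : X => u⁻¹ • y) ⁻¹' Q, hQ2, hK2, ?_, ?_⟩
    · intro y hy
      have := hs hy
      simpa using this
    · have : ind ((fun y : X => u⁻¹ • y) ⁻¹' Q) hQ2 hK2 (om u v) = gact om u (ind Q hQ hK v) := by
        apply Sch.ext'
        intro y
        rw [gact_apply]
        by_cases hy : u⁻¹ • y ∈ Q
        · rw [ind_mem hQ hK v hy, ind_mem hQ2 hK2 (om u v) hy]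
        · rw [ind_notMem hQ hK v hy, ind_notMem hQ2 hK2 (om u v) hy, map_zero]
      rw [this, hL]
      exact hLQ
  have hst2 : ∀ u : U, ∀ x ∈ closure Z', u • x ∈ closure Z' := by
    intro u x hx
    exact map_mem_closure (continuous_const_smul u) hx (hst u)
  -- maximal rank
  obtain ⟨x₀, hx₀, hmax⟩ : ∃ x₀ ∈ Z', ∀ x ∈ Z', r x ≤ r x₀ := by
    obtain ⟨n, hn⟩ := hr
    have hb : BddAbove (r '' Z') := ⟨n, by rintro _ ⟨x, _, rfl⟩; exact hn x⟩
    obtain ⟨x₀, hx₀, hx₀'⟩ := Nat.sSup_mem (hne.image r) hb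
    refine ⟨x₀, hx₀, fun x hx => ?_⟩
    rw [hx₀']
    exact le_csSup hb ⟨x, hx, rfl⟩
  have hmax2 : ∀ x ∈ closure Z', r x ≤ r x₀ := by
    intro x hx
    obtain ⟨y, hy1, hy2⟩ := mem_closure_iff.1 hx {y | r x ≤ r y} (hr' (r x))
      (show r x ≤ r x from le_refl _)
    exact le_trans hy1 (hmax y hy2)
  -- the submodule of good vectors
  let N₀ : Submodule ℂ S :=
    { carrier := {v | ∃ Q₀ : Set X, IsOpen Q₀ ∧ x₀ ∈ Q₀ ∧ ∀ (Q : Set X) (hQ : IsClopen Q)
        (hK : IsCompact Q), Q ⊆ Q₀ → L (ind Q hQ hK v) = 0}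
      add_mem' := by
        rintro v w ⟨Q₀, hQ₀, hx, h⟩ ⟨Q₁, hQ₁, hx₁, h₁⟩
        refine ⟨Q₀ ∩ Q₁, hQ₀.inter hQ₁, ⟨hx, hx₁⟩, ?_⟩
        intro Q hQ hK hs
        rw [map_add, map_add, h Q hQ hK (fun y hy => (hs hy).1),
          h₁ Q hQ hK (fun y hy => (hs hy).2), add_zero]
      zero_mem' := ⟨Set.univ, isOpen_univ, trivial, fun Q hQ hK _ => by rw [map_zero, map_zero]⟩
      smul_mem' := by
        rintro c v ⟨Q₀, hQ₀, hx, h⟩
        refine ⟨Q₀, hQ₀, hx, ?_⟩
        intro Q hQ hK hs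
        rw [map_smul, map_smul, h Q hQ hK hs, smul_zero] }
  have hN₀ : N₀ ≠ ⊤ := by
    intro htop
    obtain ⟨v, hv⟩ := hx₀
    have : v ∈ N₀ := by rw [htop]; trivial
    obtain ⟨Q₀, hQ₀, hx, h⟩ := this
    obtain ⟨Q, hQ, hK, hs, hLQ⟩ := hv Q₀ hQ₀ hx
    exact hLQ (h Q hQ hK hs)
  obtain ⟨m, hm0, hm⟩ := Submodule.exists_le_ker_of_lt_top N₀ (lt_top_iff_ne_top.2 hN₀)
  apply hm0
  refine H x₀ (closure Z') (hfib x₀ hx₀) isClosed_closure (subset_closure hx₀)
    (fun x hx => (hfib2 x hx).trans (hfib x₀ hx₀).symm) hst2 hmax2 m ?_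
  rintro u ⟨V, s, C, hV, hx₀V, hs, hfix, hsx₀, hCo, hCc, huC⟩ v
  have hmem : om u v - v ∈ N₀ := by
    -- neighbourhood of `u` on which `om g v = om u v`
    have h1 : ∀ᶠ g in 𝓝 u, om g v = om u v := by
      have h2 := hom v
      have h3 : Filter.Tendsto (fun g : U => u⁻¹ * g) (𝓝 u) (𝓝 1) := by
        have : ContinuousAt (fun g : U => u⁻¹ * g) u := (continuous_const.mul continuous_id).continuousAt
        have h4 := this.tendsto
        simpa using h4
      filter_upwards [h3.eventually h2] with g hg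
      have : om g v = om u (om (u⁻¹ * g) v) := by
        rw [← Module.End.mul_apply, ← map_mul, mul_inv_cancel_left]
      rw [this, hg]
    have h2 : ∀ᶠ g in 𝓝 u, g ∈ C := hCo.mem_nhds huC
    have hx₀Z : x₀ ∈ closure Z' ∩ V := ⟨subset_closure hx₀, hx₀V⟩
    have hcont := hs x₀ hx₀Z
    have h3 : ∀ᶠ x in 𝓝[closure Z' ∩ V] x₀, (om (s x) v = om u v ∧ s x ∈ C) := by
      have h4 : Filter.Tendsto s (𝓝[closure Z' ∩ V] x₀) (𝓝 u) := by
        have h5 := hcont.tendsto
        rwa [hsx₀] at h5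
      exact h4.eventually (h1.and h2)
    rw [eventually_nhdsWithin_iff] at h3
    obtain ⟨V₂, hV₂s, hV₂, hx₀V₂⟩ := eventually_nhds_iff.1 h3
    refine ⟨V ∩ V₂, hV.inter hV₂, ⟨hx₀V, hx₀V₂⟩, ?_⟩
    intro Q hQ hK hQs
    have := gauge_principle om L hL (closure Z')
      (fun f hf => hvan f (fun x hx => hf x (subset_closure hx))) (V ∩ V₂) s C hCc v (om u v)
      (fun x hx => hfix x ⟨hx.1, hx.2.1⟩)
      (fun x hx => (hV₂s x hx.2.2 ⟨hx.1, hx.2.1⟩).2)
      (fun x hx => (hV₂s x hx.2.2 ⟨hx.1, hx.2.1⟩).1) Q hQ hK hQs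
    rw [map_sub, map_sub, this, sub_self]
  have := hm hmem
  rw [LinearMap.mem_ker, map_sub, sub_eq_zero] at this
  exact this

/-- The gauge theorem: under the hypothesis `H`, there is no nonzero invariant functional.
The rank function `r t` may depend on the fibre `χ = t`. -/
theorem gauge_vanish
    (hX : ∀ x : X, ∀ V ∈ 𝓝 x, ∃ K : Set X, IsOpen K ∧ IsCompact K ∧ x ∈ K ∧ K ⊆ V)
    (hT : ∀ t : T, ∀ V ∈ 𝓝 t, ∃ W : Set T, IsClopen W ∧ t ∈ W ∧ W ⊆ V)
    (om : U →* Module.End ℂ S) (hom : IsSmoothRep om)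
    (χ : X → T) (hχ : Continuous χ) (hχU : ∀ (u : U) (x : X), χ (u • x) = χ x)
    (r : T → X → ℕ) (hr : ∀ t, ∃ n, ∀ x, r t x ≤ n) (hr' : ∀ t k, IsOpen {x | k ≤ r t x})
    (H : ∀ (x₀ : X) (Z : Set X), IsClosed Z → x₀ ∈ Z → (∀ x ∈ Z, χ x = χ x₀) →
      (∀ u : U, ∀ x ∈ Z, u • x ∈ Z) → (∀ x ∈ Z, r (χ x₀) x ≤ r (χ x₀) x₀) →
      ∀ m : S →ₗ[ℂ] ℂ, (∀ u : U, GaugeFix Z x₀ u → ∀ v, m (om u v) = m v) → m = 0)
    (L : Sch X S →ₗ[ℂ] ℂ)
    (hL : ∀ (g : U) (f f' : Sch X S),
      (∀ x, (f' : X → S) x = om g ((f : X → S) (g⁻¹ • x))) → L f' = L f) : L = 0 := by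
  have hLg : ∀ g f, L (gact om g f) = L f := fun g f => hL g f _ (fun x => rfl)
  let N : Submodule ℂ (Sch X S) :=
    Submodule.span ℂ {h | ∃ (g : U) (f : Sch X S), h = gact om g f - f}
  have hNL : N ≤ LinearMap.ker L := by
    apply Submodule.span_le.2
    rintro _ ⟨g, f, rfl⟩
    show L (gact om g f - f) = 0
    rw [map_sub, hLg, sub_self]
  -- cutting preserves `N`
  have hcut : ∀ (W : Set T) (hW : IsClopen W), ∀ c ∈ N, cut (χ ⁻¹' W) (hW.preimage hχ) c ∈ N := by
    intro W hW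
    have : N ≤ N.comap (cut (χ ⁻¹' W) (hW.preimage hχ)) := by
      apply Submodule.span_le.2
      rintro _ ⟨g, f, rfl⟩
      show cut (χ ⁻¹' W) (hW.preimage hχ) (gact om g f - f) ∈ N
      apply Submodule.subset_span
      refine ⟨g, cut (χ ⁻¹' W) (hW.preimage hχ) f, ?_⟩
      rw [map_sub]
      congr 1
      apply Sch.ext'
      intro x
      rw [gact_apply]
      have hiff : g⁻¹ • x ∈ χ ⁻¹' W ↔ x ∈ χ ⁻¹' W := by
        show χ (g⁻¹ • x) ∈ W ↔ χ x ∈ W
        rw [hχU]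
      by_cases hx : x ∈ χ ⁻¹' W
      · rw [cut_mem _ _ hx, cut_mem _ _ (hiff.2 hx), gact_apply]
      · rw [cut_notMem _ _ hx, cut_notMem _ _ (fun h => hx (hiff.1 h)), map_zero]
    exact fun c hc => this hc
  have hN : ∀ f : Sch X S, f ∈ N := by
    intro f
    refine mem_of_cut_nhds χ hχ N f ?_
    intro t
    let I : Submodule ℂ (Sch X S) :=
      { carrier := {h | ∀ x, χ x = t → (h : X → S) x = 0}
        add_mem' := by
          intro a b ha hb x hx
          show (a : X → S) x + (b : X → S) x = 0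
          rw [ha x hx, hb x hx, add_zero]
        zero_mem' := fun x _ => rfl
        smul_mem' := by
          intro c a ha x hx
          show c • (a : X → S) x = 0
          rw [ha x hx, smul_zero] }
    have htop : N ⊔ I = ⊤ := by
      by_contra hne
      obtain ⟨L', hL'0, hL'⟩ := Submodule.exists_le_ker_of_lt_top (N ⊔ I) (lt_top_iff_ne_top.2 hne)
      apply hL'0
      refine gauge_fibre hX om hom χ hχ t (r t) (hr t) (hr' t) ?_ L' ?_ ?_
      · intro x₀ Z hx₀ h1 h2 h3 h4 h5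
        subst hx₀
        exact H x₀ Z h1 h2 h3 h4 h5
      · intro g f'
        have h1 : gact om g f' - f' ∈ N := Submodule.subset_span ⟨g, f', rfl⟩
        have h2 := hL' (le_sup_left (a := N) (b := I) h1)
        rw [LinearMap.mem_ker, map_sub, sub_eq_zero] at h2
        exact h2
      · intro f' hf'
        exact hL' (le_sup_right (a := N) (b := I) (show f' ∈ I from hf'))
    have hf : f ∈ N ⊔ I := by rw [htop]; trivial
    obtain ⟨c, hc, h, hh, rfl⟩ := Submodule.mem_sup.1 hf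
    -- the support of `h`
    obtain ⟨K, hK, hhK⟩ := h.2.2
    have hA : IsCompact {x | (h : X → S) x ≠ 0} := by
      refine hK.of_isClosed_subset ?_ ?_
      · have : {x | (h : X → S) x ≠ 0} = ((h : X → S) ⁻¹' {0})ᶜ := rfl
        rw [this]
        exact (h.2.1.isClopen_fiber 0).compl.isClosed
      · intro x hx
        by_contra hxK
        exact hx (hhK x hxK)
    have hcl : IsClosed (χ '' {x | (h : X → S) x ≠ 0}) := (hA.image hχ).isClosed
    have htn : t ∉ χ '' {x | (h : X → S) x ≠ 0} := by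
      rintro ⟨x, hx, hxt⟩
      exact hx (hh x hxt)
    obtain ⟨W, hW, htW, hWs⟩ := hT t _ (hcl.isOpen_compl.mem_nhds htn)
    refine ⟨W, hW, htW, ?_⟩
    intro W' hW' hs
    have h0 : cut (χ ⁻¹' W') (hW'.preimage hχ) h = 0 := by
      apply Sch.ext'
      intro x
      by_cases hx : χ x ∈ W'
      · rw [cut_mem _ h hx]
        by_contra hxn
        exact hWs (hs hx) ⟨x, hxn, rfl⟩
      · exact cut_notMem _ h hx
    rw [map_add, h0, add_zero]
    exact hcut W' hW' c hc
  ext f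
  exact hNL (hN f)

end vanish

end SpW
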