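import Pool.Agent.Work.MP_3615d2_al.BPFix
import Pool.Agent.Work.MP_3615d2_al.Gauge
import Pool.Agent.Work.MP_3615d2_al.Mod

/-!
MP_3615d2_al, Theorem B: the group `U = {(a y; 0 1)}` and the sections `1 - M B` of the stabilisers.
-/

open Filter Topology Matrix
open scoped NNReal

namespace SpW

section alg

variable {E : Type} [Field E] {m : ℕ}

/-- The element `1 - M β` of `GL_m`, where `M β M = 0`. -/
def aEl (M β : Matrix (Fin m) (Fin m) E) (h : M * β * M = 0) : GL (Fin m) E where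
  val := 1 - M * β
  inv := 1 + M * β
  val_inv := by
    have h1 : M * β * (M * β) = 0 := by rw [← Matrix.mul_assoc, h, Matrix.zero_mul]
    rw [sub_mul, one_mul, mul_add, mul_one, h1]
    abel
  inv_val := by
    have h1 : M * β * (M * β) = 0 := by rw [← Matrix.mul_assoc, h, Matrix.zero_mul]
    rw [add_mul, one_mul, mul_sub, mul_one, h1]
    abel

theorem aEl_val (M β : Matrix (Fin m) (Fin m) E) (h : M * β * M = 0) :
    ((aEl M β h : GL (Fin m) E) : Matrix (Fin m) (Fin m) E) = 1 - M * β := rfl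

theorem aEl_inv (M β : Matrix (Fin m) (Fin m) E) (h : M * β * M = 0) :
    (((aEl M β h)⁻¹ : GL (Fin m) E) : Matrix (Fin m) (Fin m) E) = 1 + M * β := rfl

/-- Forms with the same blocks are equal. -/
theorem alt_ext {B B' : Alt (2 * m) E} (h1 : b11 B.1 = b11 B'.1) (h2 : b12 B.1 = b12 B'.1)
    (h3 : b22 B.1 = b22 B'.1) : B = B' := by
  apply Subtype.ext
  rw [alt_eta B, alt_eta B', h1, h2, h3]

/-- The element `1 - M B` fixes `B`. -/
theorem sEl_fix (M : Matrix (Fin m) (Fin m) E) (hM : M.transpose = M) (B : Alt (2 * m) E)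
    (h : M * b11 B.1 * M = 0) :
    (pel (aEl M (b11 B.1) h) 1 (-(M * b12 B.1)))⁻¹ • B = B := by
  set β := b11 B.1 with hβ
  set b := b12 B.1 with hb
  have hβt : β.transpose = -β := alt_b11 B
  obtain ⟨h1, h2, h3⟩ := pel_inv_smul (aEl M β h) 1 (-(M * b)) B
  have h4 : (1 - M * β).transpose = 1 + β * M := by
    rw [Matrix.transpose_sub, Matrix.transpose_one, Matrix.transpose_mul, hM, hβt,
      Matrix.neg_mul, sub_neg_eq_add]
  have h5 : ∀ X : Matrix (Fin m) (Fin m) E, M * (β * (M * X)) = 0 := by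
    intro X
    rw [← Matrix.mul_assoc, ← Matrix.mul_assoc, h, Matrix.zero_mul]
  refine alt_ext ?_ ?_ ?_
  · rw [h1, aEl_val, h4, ← hβ]
    simp only [Matrix.add_mul, Matrix.mul_sub, Matrix.one_mul, Matrix.mul_one, Matrix.mul_assoc,
      h5, Matrix.mul_zero]
    abel
  · rw [h2, aEl_val, h4, ← hβ, ← hb]
    simp only [Matrix.add_mul, Matrix.mul_add, Matrix.one_mul, Matrix.mul_one, Matrix.mul_assoc,
      Units.val_one, Matrix.mul_neg, h5, Matrix.mul_zero]
    abel
  · rw [h3, ← hβ, ← hb]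
    simp only [Units.val_one, Matrix.mul_one, Matrix.transpose_neg, Matrix.transpose_mul, hM,
      Matrix.transpose_one, Matrix.one_mul, Matrix.neg_mul, Matrix.mul_neg, neg_neg,
      Matrix.mul_add, Matrix.mul_assoc, h5, Matrix.mul_zero]
    abel

/-- The matrices `k wᵗ + w kᵗ`, `β k = 0`. -/
theorem kw_rel (h2 : (2 : E) ≠ 0) {β : Matrix (Fin m) (Fin m) E} (hβ : β.transpose = -β)
    {k : Fin m → E} (hk : β.mulVec k = 0) (w : Fin m → E) :
    (vecMulVec k w + vecMulVec w k) * β = vecMulVec k (w ᵥ* β) ∧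
      (vecMulVec k w + vecMulVec w k) * β * (vecMulVec k w + vecMulVec w k) = 0 := by
  have hkβ : k ᵥ* β = 0 := by
    rw [← Matrix.mulVec_transpose, hβ, Matrix.neg_mulVec, hk, neg_zero]
  have hwβ : ∀ x : Fin m → E, (w ᵥ* β) ⬝ᵥ x = w ⬝ᵥ β.mulVec x := fun x =>
    (Matrix.dotProduct_mulVec w β x).symm
  have hww : (w ᵥ* β) ⬝ᵥ w = 0 := by
    have h1 : (w ᵥ* β) ⬝ᵥ w = -((w ᵥ* β) ⬝ᵥ w) := by
      conv_lhs => rw [hwβ, dotProduct_comm, ← Matrix.vecMul_transpose, hβ, Matrix.vecMul_neg,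
        neg_dotProduct]
    have h3 : 2 * ((w ᵥ* β) ⬝ᵥ w) = 0 := by
      rw [two_mul]
      nth_rewrite 2 [h1]
      rw [add_neg_cancel]
    exact (mul_eq_zero.1 h3).resolve_left h2
  have e1 : (vecMulVec k w + vecMulVec w k) * β = vecMulVec k (w ᵥ* β) := by
    rw [Matrix.add_mul, Matrix.vecMulVec_mul, Matrix.vecMulVec_mul, hkβ]
    ext i j
    simp [vecMulVec_apply]
  refine ⟨e1, ?_⟩
  rw [e1, Matrix.mul_add, Matrix.vecMulVec_mul_vecMulVec, Matrix.vecMulVec_mul_vecMulVec, hwβ k,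
    hk, hww, dotProduct_zero]
  ext i j
  simp [vecMulVec_apply]

theorem kw_det (h2 : (2 : E) ≠ 0) {β : Matrix (Fin m) (Fin m) E} (hβ : β.transpose = -β)
    {k : Fin m → E} (hk : β.mulVec k = 0) (w : Fin m → E) :
    (1 - (vecMulVec k w + vecMulVec w k) * β).det = 1 := by
  rw [(kw_rel h2 hβ hk w).1]
  have h1 : (1 : Matrix (Fin m) (Fin m) E) - vecMulVec k (w ᵥ* β) =
      1 + Matrix.replicateCol Unit (-k) * Matrix.replicateRow Unit (w ᵥ* β) := by
    rw [← Matrix.vecMulVec_eq, sub_eq_add_neg]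
    congr 1
    ext i j
    simp [vecMulVec_apply]
  rw [h1, Matrix.det_one_add_replicateCol_mul_replicateRow, dotProduct_neg,
    ← Matrix.dotProduct_mulVec, hk, dotProduct_zero, neg_zero, add_zero]

theorem kw_symm (k w : Fin m → E) :
    (vecMulVec k w + vecMulVec w k).transpose = vecMulVec k w + vecMulVec w k := by
  rw [Matrix.transpose_add, Matrix.transpose_vecMulVec, Matrix.transpose_vecMulVec, add_comm]

end alg

section grp

variable {E : Type} [NontriviallyNormedField E] {m : ℕ}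

/-- The group of the elements `(a y; 0 1)`. -/
def UP (m : ℕ) (E : Type) [NontriviallyNormedField E] : Subgroup (GL (Fin (2 * m)) E) where
  carrier := {g | ∃ a y, g = pel a 1 y}
  mul_mem' := by
    rintro _ _ ⟨a, y, rfl⟩ ⟨a', y', rfl⟩
    exact ⟨a * a', _, by rw [pel_mul, one_mul]⟩
  one_mem' := ⟨1, 0, pel_one.symm⟩
  inv_mem' := by
    rintro _ ⟨a, y, rfl⟩
    exact ⟨a⁻¹, _, by rw [pel_inv, inv_one]⟩

theorem mem_UP (g : GL (Fin (2 * m)) E) : g ∈ UP m E ↔
    b21 (g : Matrix (Fin (2 * m)) (Fin (2 * m)) E) = 0 ∧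
    b21 ((g⁻¹ : GL (Fin (2 * m)) E) : Matrix (Fin (2 * m)) (Fin (2 * m)) E) = 0 ∧
    b22 (g : Matrix (Fin (2 * m)) (Fin (2 * m)) E) = 1 := by
  constructor
  · rintro ⟨a, y, rfl⟩
    refine ⟨?_, ?_, ?_⟩
    · rw [pel_val, b21_bm]
    · rw [pel_inv, pel_val, b21_bm]
    · rw [pel_val, b22_bm, Units.val_one]
  · rintro ⟨h1, h2, h3⟩
    obtain ⟨a, d, y, rfl⟩ := eq_pel g h1 h2
    rw [pel_val, b22_bm] at h3
    have hd : d = 1 := Units.ext h3
    subst hd
    exact ⟨a, y, rfl⟩

theorem isClosed_UP : IsClosed (UP m E : Set (GL (Fin (2 * m)) E)) := by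
  have h1 : (UP m E : Set (GL (Fin (2 * m)) E)) =
      {g : GL (Fin (2 * m)) E | b21 (g : Matrix (Fin (2 * m)) (Fin (2 * m)) E) = 0} ∩
      ({g : GL (Fin (2 * m)) E | b21 ((g⁻¹ : GL (Fin (2 * m)) E) : Matrix (Fin (2 * m)) (Fin (2 * m)) E) = 0} ∩
      {g : GL (Fin (2 * m)) E | b22 (g : Matrix (Fin (2 * m)) (Fin (2 * m)) E) = 1}) := by
    ext g
    exact mem_UP g
  have hv : Continuous fun g : GL (Fin (2 * m)) E => (g : Matrix (Fin (2 * m)) (Fin (2 * m)) E) :=
    Units.continuous_val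
  have hi : Continuous fun g : GL (Fin (2 * m)) E =>
      ((g⁻¹ : GL (Fin (2 * m)) E) : Matrix (Fin (2 * m)) (Fin (2 * m)) E) :=
    Units.continuous_val.comp continuous_inv
  rw [h1]
  refine IsClosed.inter ?_ (IsClosed.inter ?_ ?_)
  · exact isClosed_eq (hv.matrix_submatrix _ _) continuous_const
  · exact isClosed_eq (hi.matrix_submatrix _ _) continuous_const
  · exact isClosed_eq (hv.matrix_submatrix _ _) continuous_const

/-- The component `a`. -/
def toA : UP m E →* GL (Fin m) E where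
  toFun g :=
    { val := b11 ((g : GL (Fin (2 * m)) E) : Matrix (Fin (2 * m)) (Fin (2 * m)) E)
      inv := b11 (((g : GL (Fin (2 * m)) E)⁻¹ : GL (Fin (2 * m)) E) :
        Matrix (Fin (2 * m)) (Fin (2 * m)) E)
      val_inv := by
        obtain ⟨g, a, y, rfl⟩ := g
        show b11 (pel a 1 y : GL (Fin (2 * m)) E).1 *
          b11 ((pel a 1 y : GL (Fin (2 * m)) E)⁻¹ : GL (Fin (2 * m)) E).1 = 1
        rw [pel_inv, pel_val, pel_val, b11_bm, b11_bm]
        exact Units.mul_inv a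
      inv_val := by
        obtain ⟨g, a, y, rfl⟩ := g
        show b11 ((pel a 1 y : GL (Fin (2 * m)) E)⁻¹ : GL (Fin (2 * m)) E).1 *
          b11 (pel a 1 y : GL (Fin (2 * m)) E).1 = 1
        rw [pel_inv, pel_val, pel_val, b11_bm, b11_bm]
        exact Units.inv_mul a }
  map_one' := by
    apply Units.ext
    show b11 (1 : Matrix (Fin (2 * m)) (Fin (2 * m)) E) = 1
    rw [← bm_one, b11_bm]
  map_mul' g h := by
    obtain ⟨g, a, y, rfl⟩ := g
    obtain ⟨h, a', y', rfl⟩ := h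
    apply Units.ext
    show b11 (pel a 1 y * pel a' 1 y' : GL (Fin (2 * m)) E).1 =
      b11 (pel a 1 y : GL (Fin (2 * m)) E).1 * b11 (pel a' 1 y' : GL (Fin (2 * m)) E).1
    rw [pel_mul, pel_val, pel_val, pel_val, b11_bm, b11_bm, b11_bm]
    rfl

theorem toA_pel (a : GL (Fin m) E) (y : Matrix (Fin m) (Fin m) E)
    (h : pel a 1 y ∈ UP m E) : toA ⟨pel a 1 y, h⟩ = a := by
  apply Units.ext
  exact b11_bm _ _ _ _

theorem continuous_toA : Continuous (toA : UP m E → GL (Fin m) E) := by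
  rw [Units.continuous_iff]
  constructor
  · exact (Units.continuous_val.comp continuous_subtype_val).matrix_submatrix _ _
  · exact ((Units.continuous_val.comp continuous_inv).comp
      continuous_subtype_val).matrix_submatrix _ _

end grp

section near

variable {E : Type} [NontriviallyNormedField E] [IsUltrametricDist E] [ProperSpace E]
  [MeasurableSpace E] [BorelSpace E]

omit [IsUltrametricDist E] in
theorem absE_md (x : Eˣ) : absE x = md (x : E) := by
  rw [md_units]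
  rfl

omit [IsUltrametricDist E] in
theorem ad_md {n : ℕ} (g : GL (Fin n) E) :
    ad g = md ((g : Matrix (Fin n) (Fin n) E).det) := absE_md _

/-- `|det g| = 1` near `1`. -/
theorem ad_near {n : ℕ} : ∀ᶠ g : GL (Fin n) E in 𝓝 1, ad g = 1 := by
  have hc : Continuous fun g : GL (Fin n) E => (g : Matrix (Fin n) (Fin n) E).det :=
    Units.continuous_val.matrix_det
  have h1 : ∀ᶠ g : GL (Fin n) E in 𝓝 1, ‖(g : Matrix (Fin n) (Fin n) E).det - 1‖ < 1 := by
    have h2 : Continuous fun g : GL (Fin n) E => ‖(g : Matrix (Fin n) (Fin n) E).det - 1‖ :=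
      (hc.sub continuous_const).norm
    have h3 : ‖((1 : GL (Fin n) E) : Matrix (Fin n) (Fin n) E).det - 1‖ < 1 := by
      rw [Units.val_one, Matrix.det_one, sub_self, norm_zero]
      exact one_pos
    exact h2.continuousAt.eventually_lt continuousAt_const h3
  filter_upwards [h1] with g hg
  have h2 : ‖(g : Matrix (Fin n) (Fin n) E).det‖ = ‖(1 : E)‖ := by
    have h3 : (g : Matrix (Fin n) (Fin n) E).det =
        ((g : Matrix (Fin n) (Fin n) E).det - 1) + 1 := by ring
    rw [h3]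
    refine IsUltrametricDist.norm_add_eq_max_of_norm_ne_norm ?_ |>.trans ?_
    · rw [norm_one]; exact hg.ne
    · rw [norm_one]; exact max_eq_right hg.le
  rw [ad_md, md_eq_of_norm_eq h2, md_one]
  rfl

end near

end SpW
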