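import Pool.Agent.Work.MP_3615d2_al.HkDens
import Pool.Agent.Work.MP_3615d2_al.GK

/-!
# The pairing between `π` and `π^τ`, `π^τ(g) = π(g^{-t})`
-/

open MeasureTheory Filter Topology

namespace SpW.Hk

section

variable {G : Type} [Group G] [TopologicalSpace G] [IsTopologicalGroup G]
  {V : Type} [AddCommGroup V] [Module ℂ V] {π : G →* Module.End ℂ V}
  [MeasurableSpace G] [BorelSpace G] (μ : Measure G) [IsFiniteMeasureOnCompacts μ]

/-- admissibility, in the form of the Hecke algebra -/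
def AdmH (π : G →* Module.End ℂ V) : Prop := ∀ K : Subgroup G, IsOpen (K : Set G) →
  ∃ S : Finset V, ∀ v, (∀ k ∈ K, π k v = v) → v ∈ Submodule.span ℂ (S : Set V)

omit [IsTopologicalGroup G] [MeasurableSpace G] [BorelSpace G] in
theorem AdmH.finite (h : AdmH π) {K : Subgroup G} (hK : IsOpen (K : Set G)) :
    FiniteDimensional ℂ (fixV π K) := by
  obtain ⟨S, hS⟩ := h K hK
  have h1 : FiniteDimensional ℂ (Submodule.span ℂ (S : Set V)) :=
    FiniteDimensional.span_finset ℂ S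
  exact Submodule.finiteDimensional_of_le (S₂ := Submodule.span ℂ (S : Set V))
    (fun v hv => hS v hv)

theorem hk_range_finite [μ.IsMulLeftInvariant] (hπ : IsSmoothRep π)
    (hG : ∀ U ∈ 𝓝 (1 : G), ∃ K : Subgroup G, IsOpen (K : Set G) ∧ IsCompact (K : Set G) ∧
      (K : Set G) ⊆ U) (hadm : AdmH π) (φ : Sch G ℂ) :
    FiniteDimensional ℂ (LinearMap.range (hk μ hπ φ)) := by
  obtain ⟨K, h1, -, h3⟩ := hG _ (lTr_smooth φ)
  have h4 := hadm.finite h1
  exact Submodule.finiteDimensional_of_le (hk_range_fix μ hπ (K := K) (fun k hk' => h3 hk'))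

/-- the trace distribution -/
noncomputable def trD [μ.IsMulLeftInvariant] (hπ : IsSmoothRep π)
    (hG : ∀ U ∈ 𝓝 (1 : G), ∃ K : Subgroup G, IsOpen (K : Set G) ∧ IsCompact (K : Set G) ∧
      (K : Set G) ⊆ U) (hadm : AdmH π) : Sch G ℂ →ₗ[ℂ] ℂ where
  toFun φ := ftr (hk μ hπ φ)
  map_add' φ ψ := by
    rw [map_add, ftr_add (hk_range_finite μ hπ hG hadm φ) (hk_range_finite μ hπ hG hadm ψ)]
  map_smul' c φ := by
    rw [map_smul, ftr_smul c (hk_range_finite μ hπ hG hadm φ)]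
    rfl

end

section

variable {K : Type} [NontriviallyNormedField K] [IsUltrametricDist K] [ProperSpace K]
  {n : Type} [Fintype n] [DecidableEq n]
  {V : Type} [AddCommGroup V] [Module ℂ V] {π : GL n K →* Module.End ℂ V}

/-- `φ ↦ φ ∘ transpose` -/
def tS : Sch (GL n K) ℂ →ₗ[ℂ] Sch (GL n K) ℂ where
  toFun φ := ⟨φ.1 ∘ trH, sch_comp φ.2 trH⟩
  map_add' _ _ := rfl
  map_smul' _ _ := rfl

omit [IsUltrametricDist K] [ProperSpace K] in
theorem tS_apply (φ : Sch (GL n K) ℂ) (x : GL n K) : (tS φ).1 x = φ.1 (trGL x) := rfl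

omit [IsUltrametricDist K] [ProperSpace K] in
theorem tS_tS (φ : Sch (GL n K) ℂ) : tS (tS φ) = φ := by
  apply Subtype.ext
  funext x
  rw [tS_apply, tS_apply, trGL_trGL]

omit [IsUltrametricDist K] [ProperSpace K] in
theorem tS_lTr (h : GL n K) (φ : Sch (GL n K) ℂ) : tS (lTr h φ) = rTr (trGL h) (tS φ) := by
  apply Subtype.ext
  funext x
  rw [tS_apply, lTr_apply, rTr_apply, tS_apply, trGL_mul, ← trGL_inv, trGL_trGL]

variable [MeasurableSpace (GL n K)] [BorelSpace (GL n K)] (μ : Measure (GL n K))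
  [μ.IsHaarMeasure] [μ.IsMulRightInvariant]

theorem ker_tS (hπ : IsSmoothRep π)
    (hG : ∀ U ∈ 𝓝 (1 : GL n K), ∃ L : Subgroup (GL n K), IsOpen (L : Set (GL n K)) ∧
      IsCompact (L : Set (GL n K)) ∧ (L : Set (GL n K)) ⊆ U) (hadm : AdmH π)
    (hnt : Nontrivial V)
    (hirr : ∀ T : Submodule ℂ V, (∀ g, ∀ v ∈ T, π g v ∈ T) → T = ⊥ ∨ T = ⊤)
    (hsch : ∀ T : Module.End ℂ V, (∀ g v, T (π g v) = π g (T v)) → ∃ c : ℂ, ∀ v, T v = c • v)
    {φ : Sch (GL n K) ℂ} (hφ : hk μ hπ φ = 0) : hk μ hπ (tS φ) = 0 := by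
  set T := trD μ hπ hG hadm with hT
  have hTa : ∀ ψ, T ψ = ftr (hk μ hπ ψ) := fun ψ => rfl
  have hfin := hk_range_finite μ hπ hG hadm
  -- conjugation invariance
  have hconj : ∀ (g : GL n K) (φ ψ : Sch (GL n K) ℂ), (∀ x, ψ.1 x = φ.1 (g * x * g⁻¹)) →
      T ψ = T φ := by
    intro g φ ψ h
    have h1 : ψ = lTr g⁻¹ (rTr g φ) := by
      apply Subtype.ext
      funext x
      rw [h, lTr_apply, rTr_apply, inv_inv]
    rw [hTa, hTa, h1, hk_lTr, hk_rTr]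
    have h2 : FiniteDimensional ℂ (LinearMap.range (hk μ hπ φ * π g)) := by
      rw [← hk_rTr]
      exact hfin _
    rw [← ftr_mul_comm (π g⁻¹) h2, mul_assoc, ← map_mul, mul_inv_cancel, map_one, mul_one]
  have hGK : ∀ ψ, T (tS ψ) = T ψ := fun ψ => gelfand_kazhdan T hconj ψ (tS ψ) (fun x => rfl)
  set B := hk μ hπ (tS φ) with hB
  have h0 : ∀ g, T (rTr g (tS φ)) = 0 := by
    intro g
    have h1 : rTr g (tS φ) = tS (lTr (trGL g) φ) := by
      rw [tS_lTr, trGL_trGL]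
    rw [h1, hGK, hTa, hk_lTr, hφ, mul_zero]
    have h2 := ftr_rank_one (0 : V →ₗ[ℂ] ℂ) (0 : V)
    rw [LinearMap.zero_apply] at h2
    rw [← h2]
    congr 1
    apply LinearMap.ext
    intro x
    simp
  by_contra hne
  obtain ⟨v, hv⟩ : ∃ v, B v ≠ 0 := by
    by_contra h
    push Not at h
    exact hne (LinearMap.ext h)
  obtain ⟨L, hL1, hL2, hL3⟩ := hG _ ((hπ v).and (hπ (B v)))
  obtain ⟨ξ, hξ⟩ : ∃ ξ : V →ₗ[ℂ] ℂ, ξ (B v) ≠ 0 := by
    by_contra h
    push Not at h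
    exact hv ((Module.forall_dual_apply_eq_zero_iff ℂ _).1 h)
  obtain ⟨ψ, hψ⟩ := exists_hk_eq μ hπ hnt hirr hsch hL1 hL2 (hadm L hL1) (ξ.smulRight v)
  have h5 := conv_map μ T (tS φ) ψ h0
  rw [hTa, hk_conv, hψ] at h5
  have h6 : hk μ hπ (tS φ) * (ξ.smulRight v * eK μ hπ L hL1 hL2) =
      (ξ ∘ₗ eK μ hπ L hL1 hL2).smulRight (B v) := by
    apply LinearMap.ext
    intro x
    change B (ξ (eK μ hπ L hL1 hL2 x) • v) = ξ (eK μ hπ L hL1 hL2 x) • B v
    rw [map_smul]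
  rw [h6, ftr_rank_one, LinearMap.comp_apply, eK_of_fix μ hπ hL1 hL2 (fun k hk' => (hL3 hk').2)]
    at h5
  exact hξ h5

include μ in
theorem exists_pairing (hπ : IsSmoothRep π)
    (hG : ∀ U ∈ 𝓝 (1 : GL n K), ∃ L : Subgroup (GL n K), IsOpen (L : Set (GL n K)) ∧
      IsCompact (L : Set (GL n K)) ∧ (L : Set (GL n K)) ⊆ U) (hadm : AdmH π)
    (hnt : Nontrivial V)
    (hirr : ∀ T : Submodule ℂ V, (∀ g, ∀ v ∈ T, π g v ∈ T) → T = ⊥ ∨ T = ⊤)
    (hsch : ∀ T : Module.End ℂ V, (∀ g v, T (π g v) = π g (T v)) → ∃ c : ℂ, ∀ v, T v = c • v) :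
    ∃ l : V →ₗ[ℂ] V →ₗ[ℂ] ℂ, l ≠ 0 ∧ ∀ g v w, l (π g v) w = l v (π (trGL g) w) := by
  have hker : ∀ {φ : Sch (GL n K) ℂ}, hk μ hπ φ = 0 → hk μ hπ (tS φ) = 0 := fun h =>
    ker_tS μ hπ hG hadm hnt hirr hsch h
  have hker' : ∀ {φ ψ : Sch (GL n K) ℂ}, hk μ hπ φ = hk μ hπ ψ →
      hk μ hπ (tS φ) = hk μ hπ (tS ψ) := by
    intro φ ψ h
    rw [← sub_eq_zero, ← map_sub, ← map_sub]
    apply hker
    rw [map_sub, h, sub_self]
  obtain ⟨v₀, hv₀⟩ := exists_ne (0 : V)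
  obtain ⟨L, hL1, hL2, hL3⟩ := hG _ (hπ v₀)
  obtain ⟨ξ, hξ⟩ : ∃ ξ : V →ₗ[ℂ] ℂ, ξ v₀ ≠ 0 := by
    by_contra h
    push Not at h
    exact hv₀ ((Module.forall_dual_apply_eq_zero_iff ℂ _).1 h)
  choose F hF using fun v : V =>
    exists_hk_eq μ hπ hnt hirr hsch hL1 hL2 (hadm L hL1) (ξ.smulRight v)
  have hF0 : hk μ hπ (tS (F v₀)) ≠ 0 := by
    intro h
    have h1 := hker h
    rw [tS_tS, hF] at h1
    have h2 := LinearMap.congr_fun h1 v₀
    rw [Module.End.mul_apply, eK_of_fix μ hπ hL1 hL2 (fun k hk' => hL3 hk')] at h2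
    change ξ v₀ • v₀ = 0 at h2
    rcases smul_eq_zero.1 h2 with h3 | h3
    · exact hξ h3
    · exact hv₀ h3
  obtain ⟨w₀, hw₀⟩ : ∃ w, hk μ hπ (tS (F v₀)) w ≠ 0 := by
    by_contra h
    push Not at h
    exact hF0 (LinearMap.ext h)
  obtain ⟨η, hη⟩ : ∃ η : V →ₗ[ℂ] ℂ, η (hk μ hπ (tS (F v₀)) w₀) ≠ 0 := by
    by_contra h
    push Not at h
    exact hw₀ ((Module.forall_dual_apply_eq_zero_iff ℂ _).1 h)
  let l : V →ₗ[ℂ] V →ₗ[ℂ] ℂ := {
    toFun := fun v => η ∘ₗ hk μ hπ (tS (F v))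
    map_add' := by
      intro v w
      rw [← LinearMap.comp_add, ← map_add, ← map_add]
      congr 1
      apply hker'
      rw [map_add, hF, hF, hF, ← add_mul]
      congr 1
      apply LinearMap.ext
      intro x
      exact smul_add _ _ _
    map_smul' := by
      intro c v
      rw [RingHom.id_apply, ← LinearMap.comp_smul, ← map_smul, ← map_smul]
      congr 1
      apply hker'
      rw [map_smul, hF, hF, ← smul_mul_assoc]
      congr 1
      apply LinearMap.ext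
      intro x
      exact smul_comm _ _ _ }
  have hl : ∀ v w, l v w = η (hk μ hπ (tS (F v)) w) := fun v w => rfl
  refine ⟨l, ?_, ?_⟩
  · intro h
    apply hη
    rw [← hl, h]
    rfl
  · intro g v w
    rw [hl, hl]
    have h1 : hk μ hπ (tS (F (π g v))) = hk μ hπ (tS (lTr g (F v))) := by
      apply hker'
      rw [hk_lTr, hF, hF, ← mul_assoc]
      congr 1
      apply LinearMap.ext
      intro x
      change ξ x • π g v = π g (ξ x • v)
      rw [map_smul]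
    rw [h1, tS_lTr, hk_rTr, Module.End.mul_apply]

end

end SpW.Hk
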