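import Pool.Agent.Work.MP_3615d2_al.Adm
import Pool.Agent.Work.MP_3615d2_al.Unimod
import Pool.Agent.Work.MP_3615d2_al.HkPair

/-!
MP_3615d2_al, Theorem B, module R9: the pairing of an irreducible cuspidal representation `π` with
`π^τ`, `π^τ(g) = π(g^{-t})` (Gelfand-Kazhdan), and the map `κ : C_c(GL_m) → V ⊗ V`.
-/

open MeasureTheory Filter Topology
open scoped TensorProduct

namespace SpW

section

variable {G : Type} [Group G] [TopologicalSpace G] [IsTopologicalGroup G]
  {V W : Type} [AddCommGroup V] [Module ℂ V] [AddCommGroup W] [Module ℂ W]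
  {π : G →* Module.End ℂ V}
  [MeasurableSpace G] [BorelSpace G] (μ : Measure G) [IsFiniteMeasureOnCompacts μ]

theorem Hk.inv_eK [μ.IsOpenPosMeasure] (hπ : IsSmoothRep π) {K : Subgroup G}
    (h1 : IsOpen (K : Set G)) (h2 : IsCompact (K : Set G)) (A : V →ₗ[ℂ] W)
    (hA : ∀ k ∈ K, ∀ v, A (π k v) = A v) (v : V) : A (Hk.eK μ hπ K h1 h2 v) = A v := by
  have h3 : A (Hk.hk μ hπ (Hk.indK K h1 h2) v) = ((μ.real (K : Set G) : ℝ) : ℂ) • A v := by
    rw [Hk.hk_apply μ hπ (Hk.indK K h1 h2), schI_map]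
    refine schI_indicator_const μ _ h1 (fun x hx => ?_) (fun x hx => ?_)
    · change A ((K : Set G).indicator 1 x • π x v) = _
      rw [Set.indicator_of_mem hx, Pi.one_apply, one_smul]
      exact hA x hx v
    · change A ((K : Set G).indicator 1 x • π x v) = _
      rw [Set.indicator_of_notMem hx, zero_smul, map_zero]
  rw [Hk.eK, LinearMap.smul_apply, map_smul, h3, smul_smul, inv_mul_cancel₀, one_smul]
  have h4 : 0 < μ (K : Set G) := h1.measure_pos μ ⟨1, one_mem K⟩
  have h5 : μ (K : Set G) < ⊤ := h2.measure_lt_top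
  have h6 : 0 < μ.real (K : Set G) := ENNReal.toReal_pos h4.ne' h5.ne
  exact_mod_cast h6.ne'

theorem Hk.eK_inv [μ.IsMulRightInvariant] (hπ : IsSmoothRep π) {K : Subgroup G}
    (h1 : IsOpen (K : Set G)) (h2 : IsCompact (K : Set G)) {k : G} (hk' : k ∈ K) (v : V) :
    Hk.eK μ hπ K h1 h2 (π k v) = Hk.eK μ hπ K h1 h2 v := by
  have h3 : Hk.rTr k (Hk.indK K h1 h2) = Hk.indK K h1 h2 := by
    apply Subtype.ext
    funext x
    change (K : Set G).indicator 1 (x * k⁻¹) = (K : Set G).indicator 1 x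
    by_cases hx : x ∈ (K : Set G)
    · rw [Set.indicator_of_mem hx, Set.indicator_of_mem (mul_mem hx (inv_mem hk'))]
      rfl
    · rw [Set.indicator_of_notMem hx, Set.indicator_of_notMem]
      intro h
      exact hx ((Subgroup.mul_mem_cancel_right K (inv_mem hk')).1 h)
  have h4 := Hk.hk_rTr μ hπ k (Hk.indK K h1 h2)
  rw [h3] at h4
  rw [Hk.eK, LinearMap.smul_apply, LinearMap.smul_apply]
  congr 1
  exact (LinearMap.congr_fun h4 v).symm

end

section

variable {E : Type} [NontriviallyNormedField E] [IsUltrametricDist E] [ProperSpace E]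
  [MeasurableSpace E] [BorelSpace E] {m : ℕ} {V : Type} [AddCommGroup V] [Module ℂ V]

/-- R9 (helper29, helper13): `π^τ ≅ π^∨`, `π^τ(g) = π(g^{-t})`. -/
theorem exists_gk_pairing {π : GL (Fin m) E →* Module.End ℂ V} (hπ : IsSmoothRep π)
    (hirr : IsIrrRep π) (hc : IsCusp π) (hu : UnitCentral π) :
    ∃ l : V →ₗ[ℂ] V →ₗ[ℂ] ℂ, l ≠ 0 ∧ ∀ g v w, l (π g v) (π (trGL g⁻¹) w) = l v w := by
  borelize (GL (Fin m) E)
  let μ : Measure (GL (Fin m) E) := Measure.haar
  have hμ : μ.IsMulRightInvariant := Hk.haar_right μ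
  obtain ⟨l, hl0, hl⟩ := Hk.exists_pairing μ hπ gl_basis (cusp_adm hπ hirr hc hu)
    hirr.nontrivial hirr.irr (cusp_schur hπ hirr hc hu)
  refine ⟨l, hl0, fun g v w => ?_⟩
  rw [hl, ← Module.End.mul_apply, ← map_mul, ← trGL_mul, inv_mul_cancel, trGL_one, map_one,
    Module.End.one_apply]

omit [IsUltrametricDist E] [ProperSpace E] [MeasurableSpace E] [BorelSpace E] in
theorem gk_pairing_mul {π : GL (Fin m) E →* Module.End ℂ V} {l : V →ₗ[ℂ] V →ₗ[ℂ] ℂ}
    (hlG : ∀ g v w, l (π g v) (π (trGL g⁻¹) w) = l v w) (g : GL (Fin m) E) (v w : V) :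
    l (π g v) w = l v (π (trGL g) w) := by
  rw [← hlG g v (π (trGL g) w), ← Module.End.mul_apply, ← map_mul, ← trGL_mul, mul_inv_cancel,
    trGL_one, map_one, Module.End.one_apply]

/-- R9b: a smooth functional comes from the pairing. -/
theorem gk_pairing_surj {π : GL (Fin m) E →* Module.End ℂ V} (hπ : IsSmoothRep π)
    (hirr : IsIrrRep π) (hc : IsCusp π) (hu : UnitCentral π) (l : V →ₗ[ℂ] V →ₗ[ℂ] ℂ) (hl : l ≠ 0)
    (hlG : ∀ g v w, l (π g v) (π (trGL g⁻¹) w) = l v w) (ξ : V →ₗ[ℂ] ℂ) (hξ : ξ ∈ gDual π) :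
    ∃ w, ξ = l.flip w := by
  borelize (GL (Fin m) E)
  let μ : Measure (GL (Fin m) E) := Measure.haar
  have hmul := gk_pairing_mul hlG
  have hξ' : ∀ᶠ g in 𝓝 (1 : GL (Fin m) E), ∀ v, ξ (π g v) = ξ v := hξ
  obtain ⟨L, hL1, hL2, hL3⟩ := gl_basis _ hξ'
  -- a transpose stable subgroup
  let K : Subgroup (GL (Fin m) E) := {
    carrier := {k | k ∈ L ∧ trGL k ∈ L}
    mul_mem' := by
      rintro a b ⟨ha, ha'⟩ ⟨hb, hb'⟩
      exact ⟨mul_mem ha hb, by rw [trGL_mul]; exact mul_mem hb' ha'⟩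
    one_mem' := ⟨one_mem L, by rw [trGL_one]; exact one_mem L⟩
    inv_mem' := by
      rintro a ⟨ha, ha'⟩
      exact ⟨inv_mem ha, by rw [trGL_inv]; exact inv_mem ha'⟩ }
  have hKm : ∀ k, k ∈ K ↔ k ∈ L ∧ trGL k ∈ L := fun k => Iff.rfl
  have hKs : (K : Set (GL (Fin m) E)) = (L : Set (GL (Fin m) E)) ∩ trGL ⁻¹' (L : Set _) := rfl
  have hK1 : IsOpen (K : Set (GL (Fin m) E)) := by
    rw [hKs]
    exact hL1.inter (hL1.preimage continuous_trGL)
  have hK2 : IsCompact (K : Set (GL (Fin m) E)) := by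
    rw [hKs]
    exact hL2.inter_right ((Subgroup.isClosed_of_isOpen L hL1).preimage continuous_trGL)
  have hKt : ∀ k ∈ K, trGL k ∈ K := by
    rintro k ⟨h1, h2⟩
    exact ⟨h2, by rw [trGL_trGL]; exact h1⟩
  have hfd : FiniteDimensional ℂ (Hk.fixV π K) :=
    Hk.AdmH.finite (cusp_adm hπ hirr hc hu) hK1
  -- the right radical is zero
  have hrad : ∀ w, (∀ v, l v w = 0) → w = 0 := by
    let R : Submodule ℂ V := {
      carrier := {w | ∀ v, l v w = 0}
      add_mem' := by
        intro a b ha hb v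
        rw [map_add, ha v, hb v, add_zero]
      zero_mem' := by
        intro v
        exact map_zero _
      smul_mem' := by
        intro c a ha v
        rw [map_smul, ha v, smul_zero] }
    have hR : ∀ g, ∀ w ∈ R, π g w ∈ R := by
      intro g w hw v
      have h1 := hmul (trGL g) v w
      rw [trGL_trGL] at h1
      rw [← h1]
      exact hw _
    rcases hirr.irr R hR with h | h
    · intro w hw
      have h1 : w ∈ R := hw
      rw [h] at h1
      exact (Submodule.mem_bot ℂ).1 h1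
    · exfalso
      apply hl
      apply LinearMap.ext
      intro v
      apply LinearMap.ext
      intro w
      have h1 : w ∈ R := by
        rw [h]
        trivial
      exact h1 v
  have hinv : ∀ w ∈ Hk.fixV π K, ∀ k ∈ K, ∀ v, l.flip w (π k v) = l.flip w v := by
    intro w hw k hk' v
    rw [LinearMap.flip_apply, LinearMap.flip_apply, hmul, hw _ (hKt k hk')]
  let Φ : Hk.fixV π K →ₗ[ℂ] Module.Dual ℂ (Hk.fixV π K) :=
    { toFun := fun w => (l.flip w.1).comp (Hk.fixV π K).subtype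
      map_add' := by
        intro a b
        apply LinearMap.ext
        intro v
        simp
      map_smul' := by
        intro c a
        apply LinearMap.ext
        intro v
        simp }
  have hΦ : ∀ w v, Φ w v = l v.1 w.1 := fun w v => rfl
  have hinj : Function.Injective Φ := by
    rw [← LinearMap.ker_eq_bot, LinearMap.ker_eq_bot']
    intro w hw
    apply Subtype.ext
    refine hrad _ fun v => ?_
    have h1 := Hk.inv_eK μ hπ hK1 hK2 (l.flip w.1) (hinv w.1 w.2) v
    rw [LinearMap.flip_apply, LinearMap.flip_apply] at h1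
    rw [← h1]
    have h2 := LinearMap.congr_fun hw ⟨_, Hk.eK_mem μ hπ hK1 hK2 v⟩
    rw [hΦ] at h2
    exact h2
  have hsurj : Function.Surjective Φ :=
    (LinearMap.injective_iff_surjective_of_finrank_eq_finrank
      (Subspace.dual_finrank_eq (K := ℂ) (V := Hk.fixV π K)).symm).1 hinj
  obtain ⟨w, hw⟩ := hsurj (ξ.comp (Hk.fixV π K).subtype)
  refine ⟨w.1, LinearMap.ext fun v => ?_⟩
  have h1 := Hk.inv_eK μ hπ hK1 hK2 (l.flip w.1) (hinv w.1 w.2) v
  have h2 := Hk.inv_eK μ hπ hK1 hK2 ξ (fun k hk' v => hL3 ((hKm k).1 hk').1 v) v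
  rw [← h1, ← h2]
  have h3 := LinearMap.congr_fun hw ⟨_, Hk.eK_mem μ hπ hK1 hK2 v⟩
  rw [hΦ] at h3
  exact h3.symm

/-- The equivariant map `C_c(GL_m) → V ⊗ V`. -/
theorem exists_kappa {π : GL (Fin m) E →* Module.End ℂ V} (hπ : IsSmoothRep π)
    (hirr : IsIrrRep π) (hc : IsCusp π) (hu : UnitCentral π) :
    ∃ κ : Sch (GL (Fin m) E) ℂ →ₗ[ℂ] V ⊗[ℂ] V, κ ≠ 0 ∧
      ∀ (a d : GL (Fin m) E) (φ ψ : Sch (GL (Fin m) E) ℂ),
        (∀ x, ψ.1 x = φ.1 (trGL a * x * d)) →
          κ ψ = TensorProduct.map (π a) (π d) (κ φ) := by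
  classical
  borelize (GL (Fin m) E)
  let μ : Measure (GL (Fin m) E) := Measure.haar
  have hμ : μ.IsMulRightInvariant := Hk.haar_right μ
  obtain ⟨l, hl0, hlG⟩ := exists_gk_pairing hπ hirr hc hu
  have hmul := gk_pairing_mul hlG
  -- the map `V ⊗ V → End V`
  let j : V ⊗[ℂ] V →ₗ[ℂ] Module.End ℂ V := TensorProduct.lift
    (LinearMap.mk₂ ℂ (fun v w => (l.flip w).smulRight v)
      (fun v v' w => by
        apply LinearMap.ext
        intro u
        exact smul_add _ _ _)
      (fun c v w => by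
        apply LinearMap.ext
        intro u
        exact smul_comm _ _ _)
      (fun v w w' => by
        apply LinearMap.ext
        intro u
        change l.flip (w + w') u • v = l.flip w u • v + l.flip w' u • v
        rw [map_add, LinearMap.add_apply, add_smul])
      (fun c v w => by
        apply LinearMap.ext
        intro u
        change l.flip (c • w) u • v = c • (l.flip w u • v)
        rw [map_smul, LinearMap.smul_apply, smul_assoc]))
  have hj : ∀ v w u, j (v ⊗ₜ[ℂ] w) u = l u w • v := fun v w u => rfl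
  have hjG : ∀ (a d : GL (Fin m) E) (t : V ⊗[ℂ] V),
      j (TensorProduct.map (π a) (π d) t) = π a * (j t * π (trGL d)) := by
    intro a d t
    induction t using TensorProduct.induction_on with
    | zero => simp
    | tmul v w =>
      rw [TensorProduct.map_tmul]
      apply LinearMap.ext
      intro u
      rw [hj, Module.End.mul_apply, Module.End.mul_apply, hj, map_smul, hmul (trGL d), trGL_trGL]
    | add x y hx hy =>
      rw [map_add, map_add, hx, hy, map_add, add_mul, mul_add]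
  have hjinj : Function.Injective j := by
    rw [← LinearMap.ker_eq_bot]
    have h1 := tensor_irr hirr (cusp_schur hπ hirr hc hu) hirr (LinearMap.ker j) (by
      intro g h t ht
      rw [LinearMap.mem_ker] at ht ⊢
      rw [hjG, ht, zero_mul, mul_zero])
    rcases h1 with h | h
    · exact h
    · exfalso
      apply hl0
      apply LinearMap.ext
      intro u
      apply LinearMap.ext
      intro w
      have := hirr.nontrivial
      obtain ⟨v, hv⟩ := exists_ne (0 : V)
      have h2 : v ⊗ₜ[ℂ] w ∈ LinearMap.ker j := by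
        rw [h]
        trivial
      rw [LinearMap.mem_ker] at h2
      have h3 := LinearMap.congr_fun h2 u
      rw [hj] at h3
      exact (smul_eq_zero.1 h3).resolve_right hv
  -- the range of the Hecke algebra
  have hrange : ∀ φ : Sch (GL (Fin m) E) ℂ, Hk.hk μ hπ φ ∈ LinearMap.range j := by
    intro φ
    obtain ⟨K, hK1, hK2, hK3⟩ := gl_basis _ (Hk.rTr_smooth φ)
    have hfd : FiniteDimensional ℂ (Hk.fixV π K) :=
      Hk.AdmH.finite (cusp_adm hπ hirr hc hu) hK1
    let b := Module.finBasis ℂ (Hk.fixV π K)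
    let e' : V →ₗ[ℂ] Hk.fixV π K :=
      (Hk.eK μ hπ K hK1 hK2).codRestrict _ (Hk.eK_mem μ hπ hK1 hK2)
    have he' : ∀ k ∈ K, ∀ v, e' (π k v) = e' v := by
      intro k hk' v
      apply Subtype.ext
      exact Hk.eK_inv μ hπ hK1 hK2 hk' v
    have h1 : ∀ i, ∃ w, (b.coord i).comp e' = l.flip w := by
      intro i
      refine gk_pairing_surj hπ hirr hc hu l hl0 hlG _ ?_
      change ∀ᶠ g in 𝓝 (1 : GL (Fin m) E), ∀ v, ((b.coord i).comp e') (π g v) =
        ((b.coord i).comp e') v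
      filter_upwards [hK1.mem_nhds (one_mem K)] with k hk' v
      rw [LinearMap.comp_apply, LinearMap.comp_apply, he' k hk']
    choose w hw using h1
    refine ⟨∑ i, (Hk.hk μ hπ φ (b i).1) ⊗ₜ[ℂ] w i, ?_⟩
    apply LinearMap.ext
    intro u
    rw [map_sum, LinearMap.sum_apply]
    have h2 : ∀ i, l u (w i) = b.coord i (e' u) := by
      intro i
      have h3 := LinearMap.congr_fun (hw i) u
      rw [LinearMap.flip_apply] at h3
      exact h3.symm
    simp_rw [hj, h2]
    rw [← Hk.hk_eK μ hπ hK1 hK2 (fun k hk' => hK3 hk') u]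
    have h4 : (Hk.eK μ hπ K hK1 hK2 u) = ∑ i, b.coord i (e' u) • (b i).1 := by
      have h5 := b.sum_repr (e' u)
      have h6 := congrArg (Subtype.val : Hk.fixV π K → V) h5
      have h7 : ((e' u : Hk.fixV π K) : V) = Hk.eK μ hπ K hK1 hK2 u := rfl
      rw [← h7, ← h6, Submodule.coe_sum]
      rfl
    rw [h4, map_sum]
    refine Finset.sum_congr rfl fun i _ => ?_
    rw [map_smul]
  -- `φ ↦ φ(x^{-t})`
  let hh : GL (Fin m) E ≃ₜ GL (Fin m) E := trH.trans (Homeomorph.inv (GL (Fin m) E))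
  let J : Sch (GL (Fin m) E) ℂ →ₗ[ℂ] Sch (GL (Fin m) E) ℂ := {
    toFun := fun φ => ⟨φ.1 ∘ hh, sch_comp φ.2 hh⟩
    map_add' := fun _ _ => rfl
    map_smul' := fun _ _ => rfl }
  have hJ : ∀ φ x, (J φ).1 x = φ.1 (trGL x)⁻¹ := fun φ x => rfl
  have hJJ : ∀ φ, J (J φ) = φ := by
    intro φ
    apply Subtype.ext
    funext x
    rw [hJ, hJ, trGL_inv, trGL_trGL, inv_inv]
  let κ : Sch (GL (Fin m) E) ℂ →ₗ[ℂ] V ⊗[ℂ] V :=
    (LinearEquiv.ofInjective j hjinj).symm.toLinearMap ∘ₗ
      (((Hk.hk μ hπ).comp J).codRestrict (LinearMap.range j) fun φ => hrange (J φ))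
  have hκ : ∀ φ, j (κ φ) = Hk.hk μ hπ (J φ) := by
    intro φ
    have h1 := (LinearEquiv.ofInjective j hjinj).apply_symm_apply
      (⟨Hk.hk μ hπ (J φ), hrange (J φ)⟩ : LinearMap.range j)
    exact congrArg Subtype.val h1
  refine ⟨κ, ?_, ?_⟩
  · intro h
    have := hirr.nontrivial
    obtain ⟨v₀, hv₀⟩ := exists_ne (0 : V)
    obtain ⟨K, hK1, hK2, hK3⟩ := gl_basis _ (hπ v₀)
    have h1 := Hk.eK_of_fix μ hπ hK1 hK2 (v := v₀) (fun k hk' => hK3 hk')
    have h2 : Hk.hk μ hπ (Hk.indK K hK1 hK2) = 0 := by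
      rw [← hJJ (Hk.indK K hK1 hK2), ← hκ, h, LinearMap.zero_apply, map_zero]
    rw [Hk.eK, h2, smul_zero, LinearMap.zero_apply] at h1
    exact hv₀ h1.symm
  · intro a d φ ψ h
    apply hjinj
    rw [hjG, hκ, hκ, ← Hk.hk_rTr, ← Hk.hk_lTr]
    congr 1
    apply Subtype.ext
    funext x
    rw [hJ, h, Hk.lTr_apply, Hk.rTr_apply, hJ]
    congr 1
    rw [trGL_mul, trGL_mul, trGL_inv (trGL d), trGL_trGL, trGL_inv a]
    group

end

end SpW
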