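import Pool.Agent.Work.MP_3615d2_al.GgBase

/-!
MP_3615d2_al, Theorem B: generators of `Sch X S`, functionals on `Sch X S` from bilinear forms,
extension by zero from an open subset.
-/

open Set Topology Filter

namespace SpW

section gen

variable {X S : Type} [TopologicalSpace X] [AddCommGroup S] [Module ℂ S]

/-- The value sets of `f ∈ Sch X S` are clopen and compact. -/
theorem Sch.isCompact_fiber (f : Sch X S) {v : S} (hv : v ≠ 0) :
    IsCompact ((f : X → S) ⁻¹' {v}) := by
  obtain ⟨K, hK, hf⟩ := f.2.2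
  refine hK.of_isClosed_subset (f.2.1.isClopen_fiber v).isClosed ?_
  intro x hx
  by_contra hxK
  exact hv ((show (f : X → S) x = v from hx).symm.trans (hf x hxK))

theorem Sch.cut_fiber (f : Sch X S) {v : S} (hv : v ≠ 0) :
    cut ((f : X → S) ⁻¹' {v}) (f.2.1.isClopen_fiber v) f =
      ind ((f : X → S) ⁻¹' {v}) (f.2.1.isClopen_fiber v) (Sch.isCompact_fiber f hv) v := by
  apply Sch.ext'
  intro x
  by_cases hx : x ∈ (f : X → S) ⁻¹' {v}
  · rw [cut_mem _ f hx, ind_mem _ _ _ hx]
    exact hx
  · rw [cut_notMem _ f hx, ind_notMem _ _ _ hx]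

theorem Sch.cut_fiber_zero (f : Sch X S) :
    cut ((f : X → S) ⁻¹' {0}) (f.2.1.isClopen_fiber 0) f = 0 := by
  apply Sch.ext'
  intro x
  by_cases hx : x ∈ (f : X → S) ⁻¹' {0}
  · rw [cut_mem _ f hx]
    exact hx
  · rw [cut_notMem _ f hx]
    rfl

/-- The generators of `Sch X S`. -/
theorem Sch.mem_of_ind (N : Submodule ℂ (Sch X S)) (f : Sch X S)
    (h : ∀ (Q : Set X) (hQ : IsClopen Q) (hK : IsCompact Q) (v : S),
      (∀ x ∈ Q, (f : X → S) x = v) → v ≠ 0 → ind Q hQ hK v ∈ N) : f ∈ N := by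
  refine mem_of_cut_fibre (f : X → S) f.2.1 N f ?_
  intro v
  by_cases hv : v = 0
  · subst hv
    rw [Sch.cut_fiber_zero f]
    exact N.zero_mem
  · rw [Sch.cut_fiber f hv]
    exact h _ _ _ _ (fun x hx => hx) hv

theorem Sch.finite_range (f : Sch X S) : (Set.range (f : X → S)).Finite := by
  obtain ⟨K, hK, hf⟩ := f.2.2
  let tS : TopologicalSpace S := ⊥
  have dS : DiscreteTopology S := ⟨rfl⟩
  have hfin : ((f : X → S) '' K).Finite :=
    (hK.image ((IsLocallyConstant.iff_continuous _).1 f.2.1)).finite_of_discrete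
  refine (hfin.union (Set.finite_singleton (0 : S))).subset ?_
  rintro _ ⟨x, rfl⟩
  by_cases hx : x ∈ K
  · exact Or.inl ⟨x, hx, rfl⟩
  · exact Or.inr (hf x hx)

/-- Composition with a linear map. -/
noncomputable def schComp {T : Type} [AddCommGroup T] [Module ℂ T] (ξ : S →ₗ[ℂ] T) :
    Sch X S →ₗ[ℂ] Sch X T where
  toFun f := ⟨fun x => ξ ((f : X → S) x), by
    refine ⟨f.2.1.comp ξ, ?_⟩
    obtain ⟨K, hK, hf⟩ := f.2.2
    exact ⟨K, hK, fun x hx => by
      show ξ _ = 0
      rw [hf x hx, map_zero]⟩⟩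
  map_add' f g := by
    apply Sch.ext'
    intro x
    exact map_add ξ _ _
  map_smul' c f := by
    apply Sch.ext'
    intro x
    exact map_smul ξ _ _

theorem schComp_apply {T : Type} [AddCommGroup T] [Module ℂ T] (ξ : S →ₗ[ℂ] T) (f : Sch X S)
    (x : X) : (schComp ξ f : X → T) x = ξ ((f : X → S) x) := rfl

theorem schComp_ind {T : Type} [AddCommGroup T] [Module ℂ T] (ξ : S →ₗ[ℂ] T) (Q : Set X)
    (hQ : IsClopen Q) (hK : IsCompact Q) (v : S) :
    schComp ξ (ind Q hQ hK v) = ind Q hQ hK (ξ v) := by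
  apply Sch.ext'
  intro x
  rw [schComp_apply]
  by_cases hx : x ∈ Q
  · rw [ind_mem _ _ _ hx, ind_mem _ _ _ hx]
  · rw [ind_notMem _ _ _ hx, ind_notMem _ _ _ hx, map_zero]

theorem schCoord_finite (f : Sch X S) :
    {j | schComp ((Module.Basis.ofVectorSpace ℂ S).coord j) f ≠ 0}.Finite := by
  have h1 : (⋃ v ∈ Set.range (f : X → S),
      ((((Module.Basis.ofVectorSpace ℂ S).repr v).support :
        Finset (Module.Basis.ofVectorSpaceIndex ℂ S)) :
          Set (Module.Basis.ofVectorSpaceIndex ℂ S))).Finite :=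
    (Sch.finite_range f).biUnion fun v _ => Finset.finite_toSet _
  refine h1.subset ?_
  intro j hj
  by_contra hcon
  apply hj
  apply Sch.ext'
  intro x
  rw [schComp_apply]
  by_contra hne
  apply hcon
  refine Set.mem_biUnion ⟨x, rfl⟩ ?_
  rw [Finset.mem_coe, Finsupp.mem_support_iff]
  exact hne

/-- The map `Sch X S → W` attached to a bilinear map `Sch X ℂ × S → W`. -/
noncomputable def schExt {W : Type} [AddCommGroup W] [Module ℂ W]
    (β : Sch X ℂ →ₗ[ℂ] S →ₗ[ℂ] W) : Sch X S →ₗ[ℂ] W where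
  toFun f := ∑ᶠ j, β (schComp ((Module.Basis.ofVectorSpace ℂ S).coord j) f)
    (Module.Basis.ofVectorSpace ℂ S j)
  map_add' f g := by
    rw [← finsum_add_distrib]
    · refine finsum_congr fun j => ?_
      rw [map_add, map_add, LinearMap.add_apply]
    · refine (schCoord_finite f).subset ?_
      intro j hj hj'
      apply hj
      show β _ _ = 0
      rw [hj', map_zero, LinearMap.zero_apply]
    · refine (schCoord_finite g).subset ?_
      intro j hj hj'
      apply hj
      show β _ _ = 0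
      rw [hj', map_zero, LinearMap.zero_apply]
  map_smul' c f := by
    rw [RingHom.id_apply, smul_finsum]
    refine finsum_congr fun j => ?_
    rw [map_smul, map_smul, LinearMap.smul_apply]

theorem schExt_ind {W : Type} [AddCommGroup W] [Module ℂ W]
    (β : Sch X ℂ →ₗ[ℂ] S →ₗ[ℂ] W) (Q : Set X) (hQ : IsClopen Q) (hK : IsCompact Q) (v : S) :
    schExt β (ind Q hQ hK v) = β (ind Q hQ hK 1) v := by
  have h1 : ∀ c : ℂ, ind (S := ℂ) Q hQ hK c = c • ind Q hQ hK 1 := by
    intro c
    rw [← map_smul, smul_eq_mul, mul_one]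
  have h2 : schExt β (ind Q hQ hK v) = ∑ᶠ j, ((Module.Basis.ofVectorSpace ℂ S).repr v j) •
      β (ind Q hQ hK 1) (Module.Basis.ofVectorSpace ℂ S j) := by
    show (∑ᶠ j, β (schComp ((Module.Basis.ofVectorSpace ℂ S).coord j) (ind Q hQ hK v))
      (Module.Basis.ofVectorSpace ℂ S j)) = _
    refine finsum_congr fun j => ?_
    rw [schComp_ind, h1, map_smul, LinearMap.smul_apply]
    rfl
  rw [h2, finsum_eq_sum_of_support_subset (s := ((Module.Basis.ofVectorSpace ℂ S).repr v).support)]
  · conv_rhs => rw [← (Module.Basis.ofVectorSpace ℂ S).linearCombination_repr v]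
    rw [Finsupp.linearCombination_apply, Finsupp.sum, map_sum]
    refine Finset.sum_congr rfl fun j _ => ?_
    rw [map_smul]
  · intro j hj
    rw [Finset.mem_coe, Finsupp.mem_support_iff]
    intro h
    apply hj
    show _ • _ = _
    rw [h, zero_smul]

end gen

section openext

variable {X S : Type} [TopologicalSpace X] [T2Space X] [AddCommGroup S] [Module ℂ S]
  {p : X → Prop}

open Classical in
/-- Extension by zero from an open subset. -/
noncomputable def extz (hp : IsOpen {x | p x}) : Sch {x // p x} S →ₗ[ℂ] Sch X S where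
  toFun f := ⟨fun x => if h : p x then (f : {x // p x} → S) ⟨x, h⟩ else 0, by
    obtain ⟨K, hK, hf⟩ := f.2.2
    have hK' : IsCompact ((Subtype.val : {x // p x} → X) '' K) := hK.image continuous_subtype_val
    have hz : ∀ x, x ∉ (Subtype.val : {x // p x} → X) '' K →
        (if h : p x then (f : {x // p x} → S) ⟨x, h⟩ else 0) = 0 := by
      intro x hx
      by_cases h : p x
      · rw [dif_pos h]
        exact hf _ fun hxK => hx ⟨⟨x, h⟩, hxK, rfl⟩
      · rw [dif_neg h]
    refine ⟨?_, _, hK', hz⟩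
    rw [IsLocallyConstant.iff_eventually_eq]
    intro x
    by_cases h : p x
    · have h1 := (IsLocallyConstant.iff_eventually_eq _).1 f.2.1 ⟨x, h⟩
      have h2 : ∀ᶠ y in 𝓝 x, ∀ hy : p y, (f : {x // p x} → S) ⟨y, hy⟩ =
          (f : {x // p x} → S) ⟨x, h⟩ := by
        rw [nhds_subtype_eq_comap] at h1
        obtain ⟨U, hU, hU'⟩ := Filter.mem_comap.1 h1
        filter_upwards [hU] with y hy hpy
        exact hU' (show ((⟨y, hpy⟩ : {x // p x}) : X) ∈ U from hy)
      filter_upwards [h2, hp.mem_nhds h] with y hy hpy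
      rw [dif_pos h, dif_pos (show p y from hpy)]
      exact hy hpy
    · have hx : x ∉ (Subtype.val : {x // p x} → X) '' K := by
        rintro ⟨y, _, rfl⟩
        exact h y.2
      filter_upwards [hK'.isClosed.isOpen_compl.mem_nhds hx] with y hy
      rw [hz x hx, hz y hy]⟩
  map_add' f g := by
    apply Sch.ext'
    intro x
    show (if h : p x then (f : {x // p x} → S) ⟨x, h⟩ + (g : {x // p x} → S) ⟨x, h⟩ else 0) =
      (if h : p x then (f : {x // p x} → S) ⟨x, h⟩ else 0) +
      (if h : p x then (g : {x // p x} → S) ⟨x, h⟩ else 0)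
    by_cases h : p x
    · rw [dif_pos h, dif_pos h, dif_pos h]
    · rw [dif_neg h, dif_neg h, dif_neg h, add_zero]
  map_smul' c f := by
    apply Sch.ext'
    intro x
    show (if h : p x then c • (f : {x // p x} → S) ⟨x, h⟩ else 0) =
      c • (if h : p x then (f : {x // p x} → S) ⟨x, h⟩ else 0)
    by_cases h : p x
    · rw [dif_pos h, dif_pos h]
    · rw [dif_neg h, dif_neg h, smul_zero]

theorem extz_of (hp : IsOpen {x | p x}) (f : Sch {x // p x} S) {x : X} (h : p x) :
    (extz hp f : X → S) x = (f : {x // p x} → S) ⟨x, h⟩ := dif_pos h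

theorem extz_not (hp : IsOpen {x | p x}) (f : Sch {x // p x} S) {x : X} (h : ¬ p x) :
    (extz hp f : X → S) x = 0 := dif_neg h

/-- A function which vanishes outside an open subset is an extension by zero. -/
theorem exists_extz (hp : IsOpen {x | p x}) (f : Sch X S) (hf : ∀ x, ¬ p x → (f : X → S) x = 0) :
    ∃ f' : Sch {x // p x} S, extz hp f' = f := by
  obtain ⟨K, hK, hfK⟩ := f.2.2
  have hA : IsCompact {x | (f : X → S) x ≠ 0} := by
    refine hK.of_isClosed_subset ?_ ?_
    · have : {x | (f : X → S) x ≠ 0} = ((f : X → S) ⁻¹' {0})ᶜ := rfl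
      rw [this]
      exact (f.2.1.isClopen_fiber 0).compl.isClosed
    · intro x hx
      by_contra hxK
      exact hx (hfK x hxK)
  have hB : IsCompact ((Subtype.val : {x // p x} → X) ⁻¹' {x | (f : X → S) x ≠ 0}) := by
    rw [Subtype.isCompact_iff]
    have : (Subtype.val : {x // p x} → X) '' (Subtype.val ⁻¹' {x | (f : X → S) x ≠ 0}) =
        {x | (f : X → S) x ≠ 0} := by
      rw [Set.image_preimage_eq_iff]
      intro x hx
      refine ⟨⟨x, ?_⟩, rfl⟩
      by_contra h
      exact hx (hf x h)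
    rw [this]
    exact hA
  refine ⟨⟨fun x => (f : X → S) x.1, f.2.1.comp_continuous continuous_subtype_val, _, hB, ?_⟩, ?_⟩
  · intro x hx
    by_contra h
    exact hx h
  · apply Sch.ext'
    intro x
    by_cases h : p x
    · rw [extz_of hp _ h]
    · rw [extz_not hp _ h, hf x h]

end openext

end SpW
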