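import Pool.Agent.Work.MP_3615d2_al.AltF
import Pool.Agent.Work.MP_3615d2_al.GKPair
import Pool.Agent.Work.MP_3615d2_al.BPSec
import Pool.Agent.Work.MP_3615d2_al.SchExt

/-!
MP_3615d2_al, Theorem B, R10: the equivariant map from the functions on `Alt` to `V ⊗ V`.
-/

open MeasureTheory Matrix Filter Topology
open scoped NNReal TensorProduct

namespace SpW

section top

variable {E : Type} [NontriviallyNormedField E] [IsUltrametricDist E] [ProperSpace E] {m : ℕ}

omit [IsUltrametricDist E] [ProperSpace E] in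
/-- The image of an open set of `GL_m` in the matrices is open. -/
theorem isOpen_val_image {W : Set (GL (Fin m) E)} (hW : IsOpen W) :
    IsOpen ((fun x : GL (Fin m) E => (x : Matrix (Fin m) (Fin m) E)) '' W) := by
  classical
  rw [isOpen_iff_mem_nhds]
  rintro _ ⟨x, hx, rfl⟩
  set F : Matrix (Fin m) (Fin m) E → GL (Fin m) E := fun M =>
    if h : IsUnit M.det then Matrix.nonsingInvUnit M h else 1 with hF
  have hFs : ∀ M, IsUnit M.det → ((F M : GL (Fin m) E) : Matrix (Fin m) (Fin m) E) = M := by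
    intro M hM
    rw [hF]
    simp only [dif_pos hM]
    rfl
  have hdet : IsUnit (x : Matrix (Fin m) (Fin m) E).det :=
    (Matrix.isUnit_iff_isUnit_det _).1 (Units.isUnit x)
  have hFx : F (x : Matrix (Fin m) (Fin m) E) = x := Units.ext (hFs _ hdet)
  have h2 : ContinuousAt (fun M : Matrix (Fin m) (Fin m) E => M.det)
      (x : Matrix (Fin m) (Fin m) E) := continuous_id.matrix_det.continuousAt
  have h3 : ∀ᶠ M : Matrix (Fin m) (Fin m) E in 𝓝 (x : Matrix (Fin m) (Fin m) E), M.det ≠ 0 :=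
    h2.eventually_ne hdet.ne_zero
  have hFc : ContinuousAt F (x : Matrix (Fin m) (Fin m) E) := by
    rw [Units.isEmbedding_embedProduct.isInducing.continuousAt_iff]
    refine ContinuousAt.prodMk ?_ ?_
    · refine (continuousAt_id (x := (x : Matrix (Fin m) (Fin m) E))).congr ?_
      filter_upwards [h3] with M hM
      exact (hFs M (isUnit_iff_ne_zero.2 hM)).symm
    · refine (MulOpposite.continuous_op.continuousAt).comp ?_
      have h4 : ContinuousAt (fun M : Matrix (Fin m) (Fin m) E => (M.det)⁻¹ • M.adjugate)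
          (x : Matrix (Fin m) (Fin m) E) :=
        (h2.inv₀ hdet.ne_zero).smul continuous_id.matrix_adjugate.continuousAt
      refine h4.congr ?_
      filter_upwards [h3] with M hM
      have h5 : (((F M)⁻¹ : GL (Fin m) E) : Matrix (Fin m) (Fin m) E) = M⁻¹ := by
        rw [Matrix.coe_units_inv, hFs M (isUnit_iff_ne_zero.2 hM)]
      change _ = (((F M)⁻¹ : GL (Fin m) E) : Matrix (Fin m) (Fin m) E)
      rw [h5, Matrix.inv_def, Ring.inverse_eq_inv']
  have h6 : ∀ᶠ M in 𝓝 (x : Matrix (Fin m) (Fin m) E), F M ∈ W := by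
    refine hFc.eventually_mem ?_
    rw [hFx]
    exact hW.mem_nhds hx
  filter_upwards [h3, h6] with M hM hMW
  exact ⟨F M, hMW, hFs M (isUnit_iff_ne_zero.2 hM)⟩

/-- Compact open neighbourhoods in `GL_m`. -/
theorem gl_cpt_base (x : GL (Fin m) E) (U : Set (GL (Fin m) E)) (hU : U ∈ 𝓝 x) :
    ∃ W, IsClopen W ∧ IsCompact W ∧ x ∈ W ∧ W ⊆ U := by
  have h2 : LocallyCompactSpace (Matrix (Fin m) (Fin m) E) :=
    (inferInstance : LocallyCompactSpace (Fin m → Fin m → E))
  obtain ⟨C, hCn, hCU, hC⟩ := local_compact_nhds hU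
  obtain ⟨W, hW, hxW, hWC⟩ := gl_clopen_base x C hCn
  exact ⟨W, hW, hC.of_isClosed_subset hW.isClosed hWC, hxW, hWC.trans hCU⟩

variable [MeasurableSpace E] [BorelSpace E]

theorem ad_locConst (x₀ : GL (Fin m) E) : ∀ᶠ x in 𝓝 x₀, ad x = ad x₀ := by
  have h1 : Tendsto (fun x : GL (Fin m) E => x * x₀⁻¹) (𝓝 x₀) (𝓝 1) := by
    have hc : Continuous fun x : GL (Fin m) E => x * x₀⁻¹ := continuous_id.mul continuous_const
    have := hc.tendsto x₀
    rwa [mul_inv_cancel] at this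
  filter_upwards [h1.eventually ad_near] with x hx
  have h2 : ad x = ad (x * x₀⁻¹) * ad x₀ := by rw [← ad_mul, inv_mul_cancel_right]
  rw [h2, hx, one_mul]

/-- Multiplication by `|det x|^s`. -/
noncomputable def mulc (s : ℝ) : Sch (GL (Fin m) E) ℂ →ₗ[ℂ] Sch (GL (Fin m) E) ℂ where
  toFun f := ⟨fun x => ((ad x ^ s : ℝ) : ℂ) * (f : GL (Fin m) E → ℂ) x, by
    refine ⟨?_, ?_⟩
    · rw [IsLocallyConstant.iff_eventually_eq]
      intro x₀
      filter_upwards [ad_locConst x₀, (IsLocallyConstant.iff_eventually_eq _).1 f.2.1 x₀]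
        with x hx hf
      rw [hx, hf]
    · obtain ⟨K, hK, hf⟩ := f.2.2
      refine ⟨K, hK, fun x hx => ?_⟩
      show ((ad x ^ s : ℝ) : ℂ) * (f : GL (Fin m) E → ℂ) x = 0
      rw [hf x hx, mul_zero]⟩
  map_add' f g := by
    apply Sch.ext'
    intro x
    exact mul_add _ _ _
  map_smul' c f := by
    apply Sch.ext'
    intro x
    exact mul_left_comm _ _ _

theorem mulc_apply (s : ℝ) (f : Sch (GL (Fin m) E) ℂ) (x : GL (Fin m) E) :
    (mulc s f : GL (Fin m) E → ℂ) x = ((ad x ^ s : ℝ) : ℂ) * (f : GL (Fin m) E → ℂ) x := rfl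

theorem mulc_mulc (s : ℝ) (f : Sch (GL (Fin m) E) ℂ) : mulc s (mulc (-s) f) = f := by
  apply Sch.ext'
  intro x
  rw [mulc_apply, mulc_apply, ← mul_assoc, ← Complex.ofReal_mul, ← Real.rpow_add (ad_pos x),
    add_neg_cancel, Real.rpow_zero, Complex.ofReal_one, one_mul]

/-- `altF` is surjective. -/
theorem altF_surj (h2 : (2 : E) ≠ 0) (ψ : Sch (GL (Fin m) E) ℂ) :
    ψ ∈ LinearMap.range (altF h2 : Sch (Alt (2 * m) E) ℂ →ₗ[ℂ] Sch (GL (Fin m) E) ℂ) := by
  refine mem_of_cut_nhds (X := GL (Fin m) E) id continuous_id _ ψ ?_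
  intro x₀
  obtain ⟨K₀, hK₁, hK₂, hK₃, -⟩ := alt_basis (iso x₀ (0 : Up m → E)) Set.univ Filter.univ_mem
  have hKc : IsClopen K₀ := ⟨hK₂.isClosed, hK₁⟩
  set g : Sch (Alt (2 * m) E) ℂ := ind K₀ hKc hK₂ (1 : ℂ) with hg
  set c : ℂ := (altF h2 g : GL (Fin m) E → ℂ) x₀ with hc
  have hc0 : c ≠ 0 := by
    have hco : Continuous fun u : Up m → E => iso x₀ u :=
      continuous_iso.comp (Continuous.prodMk continuous_const continuous_id)
    have hU : IsOpen ((fun u : Up m → E => iso x₀ u) ⁻¹' K₀) := hK₁.preimage hco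
    have hUc : IsCompact ((fun u : Up m → E => iso x₀ u) ⁻¹' K₀) := by
      obtain ⟨K, hK, hf⟩ := (slice g x₀).2.2
      refine hK.of_isClosed_subset (hKc.isClosed.preimage hco) ?_
      intro u hu
      by_contra hcon
      have h3 := hf u hcon
      have h4 : (slice g x₀ : (Up m → E) → ℂ) u = 1 := by
        rw [slice_apply]
        exact ind_mem hKc hK₂ 1 hu
      rw [h4] at h3
      exact one_ne_zero h3
    have h3 : c = ((Measure.addHaar : Measure (Up m → E)).real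
        ((fun u : Up m → E => iso x₀ u) ⁻¹' K₀)) • (1 : ℂ) := by
      rw [hc, altF_apply, ← integral_indicator_const (1 : ℂ) hU.measurableSet]
      rfl
    rw [h3, Complex.real_smul, mul_one]
    have h4 : 0 < (Measure.addHaar : Measure (Up m → E)) ((fun u : Up m → E => iso x₀ u) ⁻¹' K₀) :=
      hU.measure_pos _ ⟨0, hK₃⟩
    have h5 : (Measure.addHaar : Measure (Up m → E)) ((fun u : Up m → E => iso x₀ u) ⁻¹' K₀) < ⊤ :=
      hUc.measure_lt_top
    have h6 : 0 < (Measure.addHaar : Measure (Up m → E)).real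
        ((fun u : Up m → E => iso x₀ u) ⁻¹' K₀) := ENNReal.toReal_pos h4.ne' h5.ne
    exact_mod_cast h6.ne'
  have hn : ∀ᶠ x in 𝓝 x₀, (altF h2 g : GL (Fin m) E → ℂ) x = c ∧
      (ψ : GL (Fin m) E → ℂ) x = (ψ : GL (Fin m) E → ℂ) x₀ :=
    ((IsLocallyConstant.iff_eventually_eq _).1 (altF h2 g).2.1 x₀).and
      ((IsLocallyConstant.iff_eventually_eq _).1 ψ.2.1 x₀)
  obtain ⟨W, hW, hWc, hxW, hWs⟩ := gl_cpt_base x₀ _ hn
  refine ⟨W, hW, hxW, fun W' hW' hs => ?_⟩
  have hW'c : IsCompact W' := hWc.of_isClosed_subset hW'.isClosed hs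
  set A : Set (Alt (2 * m) E) := (fun B : Alt (2 * m) E => b12 B.1) ⁻¹'
    ((fun x : GL (Fin m) E => (x : Matrix (Fin m) (Fin m) E)) '' W') with hA
  have hAc : IsClopen A := by
    have h3 : Continuous fun B : Alt (2 * m) E => b12 B.1 := continuous_b12 continuous_alt_val
    have : T2Space (Matrix (Fin m) (Fin m) E) :=
      inferInstanceAs (T2Space (Fin m → Fin m → E))
    exact ⟨(hW'c.image Units.continuous_val).isClosed.preimage h3,
      (isOpen_val_image hW'.isOpen).preimage h3⟩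
  have hmem : ∀ (x : GL (Fin m) E) (u : Up m → E), iso x u ∈ A ↔ x ∈ W' := by
    intro x u
    rw [hA, Set.mem_preimage, iso_b12]
    constructor
    · rintro ⟨y, hy, hyx⟩
      rwa [← Units.ext hyx]
    · intro h
      exact ⟨x, h, rfl⟩
  refine ⟨((ψ : GL (Fin m) E → ℂ) x₀ / c) • cut A hAc g, ?_⟩
  rw [map_smul]
  apply Sch.ext'
  intro x
  change ((ψ : GL (Fin m) E → ℂ) x₀ / c) * (altF h2 (cut A hAc g) : GL (Fin m) E → ℂ) x = _
  by_cases hx : x ∈ W'
  · have h3 : (altF h2 (cut A hAc g) : GL (Fin m) E → ℂ) x =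
        (altF h2 g : GL (Fin m) E → ℂ) x := by
      rw [altF_apply, altF_apply]
      congr 1
      funext u
      exact cut_mem hAc g ((hmem x u).2 hx)
    obtain ⟨h4, h5⟩ := hWs (hs hx)
    rw [h3, h4, div_mul_cancel₀ _ hc0]
    rw [cut_mem (W := id ⁻¹' W') (hW'.preimage continuous_id) ψ hx, h5]
  · have h3 : (altF h2 (cut A hAc g) : GL (Fin m) E → ℂ) x = 0 := by
      rw [altF_apply]
      have h4 : ∀ u, (cut A hAc g : Alt (2 * m) E → ℂ) (iso x u) = 0 := fun u =>
        cut_notMem hAc g fun h => hx ((hmem x u).1 h)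
      simp_rw [h4]
      exact integral_zero _ _
    rw [h3, mul_zero]
    rw [cut_notMem (W := id ⁻¹' W') (hW'.preimage continuous_id) ψ hx]

variable {V : Type} [AddCommGroup V] [Module ℂ V]

omit [IsUltrametricDist E] in
theorem ad_trGL (a : GL (Fin m) E) : ad (trGL a) = ad a := by
  rw [ad_md, ad_md]
  have h : ((trGL a : GL (Fin m) E) : Matrix (Fin m) (Fin m) E) =
    (a : Matrix (Fin m) (Fin m) E).transpose := rfl
  rw [h, Matrix.det_transpose]

/-- R10. -/
theorem alt_hom_exists (hm : 0 < m) (h2 : (2 : E) ≠ 0) {π : GL (Fin m) E →* Module.End ℂ V}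
    (hπ : IsSmoothRep π) (hirr : IsIrrRep π) (hc : IsCusp π) (hu : UnitCentral π) :
    ∃ φ : Sch (Alt (2 * m) E) ℂ →ₗ[ℂ] V ⊗[ℂ] V, φ ≠ 0 ∧
      ∀ a d b f f', IsTransl (pel a d b) f f' →
        φ f' = rho π (((m : ℝ) - 1) / 2) (a, d) (φ f) := by
  obtain ⟨κ, hκ0, hκ⟩ := exists_kappa hπ hirr hc hu
  refine ⟨κ ∘ₗ mulc (-(((m : ℝ) - 1) / 2)) ∘ₗ altF h2, ?_, ?_⟩
  · intro h
    apply hκ0
    apply LinearMap.ext
    intro ψ
    obtain ⟨f, hf⟩ := altF_surj h2 (mulc (- -(((m : ℝ) - 1) / 2)) ψ)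
    have h3 := LinearMap.congr_fun h f
    rw [LinearMap.comp_apply, LinearMap.comp_apply, hf, mulc_mulc, LinearMap.zero_apply] at h3
    rw [h3, LinearMap.zero_apply]
  · intro a d b f f' hff
    set s : ℝ := ((m : ℝ) - 1) / 2 with hs
    set c : ℝ := ad a ^ s * ad d ^ (-s) with hcdef
    have hc0 : c ≠ 0 := (mul_pos (Real.rpow_pos_of_pos (ad_pos a) _)
      (Real.rpow_pos_of_pos (ad_pos d) _)).ne'
    have hc0' : (c : ℂ) ≠ 0 := by exact_mod_cast hc0
    have key : ∀ x, ((c : ℂ)⁻¹ • mulc (-s) (altF h2 f')).1 x =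
        (mulc (-s) (altF h2 f)).1 (trGL a * x * d) := by
      intro x
      change (c : ℂ)⁻¹ * (mulc (-s) (altF h2 f') : GL (Fin m) E → ℂ) x =
        (mulc (-s) (altF h2 f) : GL (Fin m) E → ℂ) (trGL a * x * d)
      rw [mulc_apply, mulc_apply, altF_transl hm h2 a d b f f' hff]
      rw [← mul_assoc, ← mul_assoc]
      congr 1
      rw [← Complex.ofReal_inv, ← Complex.ofReal_mul, ← Complex.ofReal_mul]
      congr 1
      rw [ad_mul, ad_mul, ad_trGL, Real.mul_rpow (mul_pos (ad_pos a) (ad_pos x)).le (ad_pos d).le,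
        Real.mul_rpow (ad_pos a).le (ad_pos x).le]
      have e1 : (-((m : ℝ) - 1)) = -s + -s := by rw [hs]; ring
      rw [e1, Real.rpow_add (ad_pos d), hcdef, mul_inv, ← Real.rpow_neg (ad_pos a).le]
      have h3 : ad d ^ (-s) ≠ 0 := (Real.rpow_pos_of_pos (ad_pos d) _).ne'
      field_simp
    have h4 := hκ a d (mulc (-s) (altF h2 f)) _ key
    rw [map_smul] at h4
    change κ (mulc (-s) (altF h2 f')) = (c : ℂ) • TensorProduct.map (π a) (π d)
      (κ (mulc (-s) (altF h2 f)))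
    rw [← h4, smul_smul, mul_inv_cancel₀ hc0', one_smul]

end top

end SpW
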