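import Pool.Agent.Work.MP_3615d2_al.AltVanish

/-!
MP_3615d2_al: the vanishing theorem for a space `Y` over `Alt` with an action of `A × U(X)`.
-/

open Set Topology Polynomial UniqueFactorizationMonoid

namespace SpW

section alt

variable {F E : Type} [NontriviallyNormedField F] [IsUltrametricDist F] [ProperSpace F]
  [NontriviallyNormedField E] [NormedAlgebra F E] [IsUltrametricDist E] [ProperSpace E]
  {σ : E ≃ₐ[F] E} {δ : E} {d : F} {N : ℕ} {H : Matrix (Fin N) (Fin N) E}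

/-- Constant rank of `p(A)^n` near a point of maximal rank, for a space over `Alt`. -/
theorem rank_const_over [FiniteDimensional F E] {Y : Type} [TopologicalSpace Y] (q : Y → Alt N E)
    (hq : Continuous q) (y₀ : Y) (Z : Set Y)
    (hmax : ∀ y ∈ Z, rt (F := F) σ H (chiC σ H (q y₀)) (q y) ≤
      rt (F := F) σ H (chiC σ H (q y₀)) (q y₀))
    (p : F[X]) (hp : p.Monic) (n : ℕ) (x : Fin N → E) (hx : IsBlock σ H (q y₀).1 p n x) :
    ∀ᶠ y in 𝓝[Z] y₀,
      Module.finrank F (LinearMap.range (aeval (Alin σ H (q y).1) (p ^ n))) =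
        Module.finrank F (LinearMap.range (aeval (Alin σ H (q y₀).1) (p ^ n))) := by
  classical
  set B₀ := q y₀ with hB₀
  have hQ0 : chiP (F := F) σ H B₀ ≠ 0 := (LinearMap.charpoly_monic _).ne_zero
  have hkill : aeval (Alin σ H B₀.1) (chiP (F := F) σ H B₀) x = 0 := by
    have := LinearMap.aeval_self_charpoly (Alin (F := F) σ H B₀.1)
    unfold chiP
    rw [this]
    rfl
  have h2 : aeval (Alin σ H B₀.1) (p ^ (n - 1)) x ≠ 0 := by
    intro h0
    obtain ⟨r, hr⟩ := hx.top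
    apply hr
    rw [map_mul]
    show sk σ H (aeval (Alin σ H B₀.1) r (aeval (Alin σ H B₀.1) (p ^ (n - 1)) x)) x = 0
    rw [h0, map_zero]
    simp [sk]
  have hdvd : p ^ n ∣ chiP (F := F) σ H B₀ :=
    pow_dvd_of_kill _ p _ hx.irr n hx.pos x hx.kill h2 hkill
  have hmem : (p, n) ∈ (normalizedFactors (Qt (F := F) σ H (chiC σ H B₀))).toFinset ×ˢ
      Finset.range ((Qt (F := F) σ H (chiC σ H B₀)).natDegree + 1) := by
    rw [Qt_eq, Finset.mem_product, Multiset.mem_toFinset, Finset.mem_range]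
    constructor
    · show p ∈ normalizedFactors (chiP (F := F) σ H B₀)
      rw [mem_normalizedFactors_iff' hQ0]
      refine ⟨hx.irr, hp.normalize_eq_self, ?_⟩
      exact (dvd_pow_self p hx.pos.ne').trans hdvd
    · show n < (chiP (F := F) σ H B₀).natDegree + 1
      have h3 := Polynomial.natDegree_le_of_dvd hdvd hQ0
      rw [Polynomial.natDegree_pow] at h3
      have h4 : 0 < p.natDegree := hx.irr.natDegree_pos
      nlinarith
  have := eventually_eq_of_sum_le _ (fun (i : F[X] × ℕ) (y : Y) => altRk σ H (i.1 ^ i.2) (q y)) y₀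
    (fun i _ => hq.continuousAt.eventually (eventually_altRk _ B₀)) Z hmax (p, n) hmem
  exact this

/-- No invariant functional on `Sch Y S`, for `q : Y → Alt` equivariant for `A × U(X) → U(X)`, with
lifts of stabilisers. -/
theorem alt_vanish_over (hq : QuadDatum σ δ d) {S : Type} [AddCommGroup S] [Module ℂ S]
    {A Y : Type} [Group A] [TopologicalSpace A] [IsTopologicalGroup A] [TopologicalSpace Y]
    [T2Space Y] [MulAction (A × unitary σ H) Y] [ContinuousSMul (A × unitary σ H) Y]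
    (hY : ∀ y : Y, ∀ V ∈ 𝓝 y, ∃ K : Set Y, IsOpen K ∧ IsCompact K ∧ y ∈ K ∧ K ⊆ V)
    (q : Y → Alt N E) (hqc : Continuous q)
    (hqe : ∀ (c : A) (u : unitary σ H) (y : Y), q ((c, u) • y) = u • q y)
    (kap : Y → unitary σ H → A) (hkc : Continuous fun z : Y × unitary σ H => kap z.1 z.2)
    (hkf : ∀ (y : Y) (u : unitary σ H), u • q y = q y → (kap y u, u) • y = y)
    (hkb : ∀ (y : Y) (u : unitary σ H), u • q y = q y →
      (∃ C : Subgroup (unitary σ H), IsOpen (C : Set (unitary σ H)) ∧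
        IsCompact (C : Set (unitary σ H)) ∧ u ∈ C) →
      ∃ C : Subgroup A, IsOpen (C : Set A) ∧ IsCompact (C : Set A) ∧ kap y u ∈ C)
    (om : unitary σ H →* Module.End ℂ S)
    (om' : A × unitary σ H →* Module.End ℂ S) (hom' : IsSmoothRep om')
    (homom : ∀ (c : A) (u : unitary σ H),
      (∃ C : Subgroup A, IsOpen (C : Set A) ∧ IsCompact (C : Set A) ∧ c ∈ C) →
      (∃ C : Subgroup (unitary σ H), IsOpen (C : Set (unitary σ H)) ∧
        IsCompact (C : Set (unitary σ H)) ∧ u ∈ C) → om' (c, u) = om u)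
    (hJ : ∀ (g : unitary σ H) (B : Alt N E) (x : Fin N → E),
      Jlin σ H ((g : GL (Fin N) E) • B).1 ((umat g).mulVec x) = (umat g).mulVec (Jlin σ H B.1 x))
    (hK : ∀ B : Alt N E, ∃ (p : F[X]) (n : ℕ) (x : Fin N → E), p.Monic ∧ IsBlock σ H B.1 p n x ∧
      ∀ m' : S →ₗ[ℂ] ℂ, (∀ (u : DD d p n) (g : unitary σ H), u * star u = 1 → PowBdd F u →
        IsBlkElt σ H B.1 δ p n x u g → ∀ v, m' (om g v) = m' v) → m' = 0)
    (hS : ∀ (B₀ : Alt N E) (p : F[X]) (n : ℕ) (x₀ : Fin N → E), IsBlock σ H B₀.1 p n x₀ →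
      ∀ Z : Set (Alt N E), B₀ ∈ Z →
      (∀ᶠ B in nhdsWithin B₀ Z,
        Module.finrank F (LinearMap.range (aeval (Alin σ H B.1) (p ^ n))) =
          Module.finrank F (LinearMap.range (aeval (Alin σ H B₀.1) (p ^ n)))) →
      ∀ u : DD d p n, u * star u = 1 → PowBdd F u → ∀ g₀ : unitary σ H,
      IsBlkElt σ H B₀.1 δ p n x₀ u g₀ →
      ∃ (V : Set (Alt N E)) (s : Alt N E → unitary σ H) (C : Subgroup (unitary σ H)),
        IsOpen V ∧ B₀ ∈ V ∧ ContinuousOn s (Z ∩ V) ∧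
        (∀ B ∈ Z ∩ V, ((s B : GL (Fin N) E) • B = B)) ∧
        s B₀ = g₀ ∧ IsOpen (C : Set (unitary σ H)) ∧ IsCompact (C : Set (unitary σ H)) ∧
        g₀ ∈ C)
    (L : Sch Y S →ₗ[ℂ] ℂ)
    (hL : ∀ (g : A × unitary σ H) (f f' : Sch Y S),
      (∀ y, (f' : Y → S) y = om' g ((f : Y → S) (g⁻¹ • y))) → L f' = L f) : L = 0 := by
  haveI : FiniteDimensional F E := Module.finite_of_finrank_pos (by rw [hq.rank]; norm_num)
  refine gauge_vanish (U := A × unitary σ H) (X := Y) (T := ℕ → F) (S := S)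
    hY (fun t V hV => pi_clopen_basis t V hV) om' hom'
    (fun y => chiC σ H (q y)) (continuous_chiC.comp hqc)
    (fun u y => by rw [show q (u • y) = u.2 • q y from hqe u.1 u.2 y, chiC_smul hJ])
    (fun t y => rt σ H t (q y)) (fun t => ?_) (fun t k => ?_) ?_ L hL
  · obtain ⟨n, hn⟩ := rt_bdd (F := F) (σ := σ) (H := H) t
    exact ⟨n, fun y => hn (q y)⟩
  · exact (rt_open t k).preimage hqc
  intro y₀ Z _ hy₀ _ _ hmax m' hm'
  obtain ⟨p, n, x, hp, hx, hkill⟩ := hK (q y₀)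
  apply hkill
  intro u g hu hbdd hg v
  set Z' : Set (Alt N E) := {B | Module.finrank F (LinearMap.range (aeval (Alin σ H B.1) (p ^ n))) =
    Module.finrank F (LinearMap.range (aeval (Alin σ H (q y₀).1) (p ^ n)))} with hZ'
  obtain ⟨V, s, C, hV, hBV, hs, hfix, hs₀, hCo, hCc, hgC⟩ := hS (q y₀) p n x hx Z' rfl
    (eventually_nhdsWithin_iff.2 (Filter.Eventually.of_forall fun B hB => hB)) u hu hbdd g hg
  have hrk := rank_const_over q hqc y₀ Z hmax p hp n x hx
  rw [eventually_nhdsWithin_iff] at hrk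
  obtain ⟨V₂, hV₂s, hV₂, hy₀V₂⟩ := eventually_nhds_iff.1 hrk
  have hgfix : g • q y₀ = q y₀ := by
    have := hfix (q y₀) ⟨rfl, hBV⟩
    rw [hs₀] at this
    exact this
  obtain ⟨C', hC'o, hC'c, hgC'⟩ := hkb y₀ g hgfix ⟨C, hCo, hCc, hgC⟩
  have hmaps : MapsTo q (Z ∩ (q ⁻¹' V ∩ V₂)) (Z' ∩ V) := by
    rintro y ⟨hyZ, hyV, hyV₂⟩
    exact ⟨hV₂s y hyV₂ hyZ, hyV⟩
  have hcont : ContinuousOn (fun y => s (q y)) (Z ∩ (q ⁻¹' V ∩ V₂)) :=
    hs.comp hqc.continuousOn hmaps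
  have hmain : GaugeFix Z y₀ ((kap y₀ g, g) : A × unitary σ H) := by
    refine ⟨q ⁻¹' V ∩ V₂, fun y => (kap y (s (q y)), s (q y)), C'.prod C,
      (hV.preimage hqc).inter hV₂, ⟨hBV, hy₀V₂⟩, ?_, ?_, ?_, ?_, ?_, ?_⟩
    · exact (hkc.comp_continuousOn (continuousOn_id.prodMk hcont)).prodMk hcont
    · intro y hy
      exact hkf y (s (q y)) (hfix (q y) (hmaps hy))
    · show (kap y₀ (s (q y₀)), s (q y₀)) = (kap y₀ g, g)
      rw [hs₀]
    · rw [Subgroup.coe_prod]
      exact hC'o.prod hCo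
    · rw [Subgroup.coe_prod]
      exact hC'c.prod hCc
    · exact Subgroup.mem_prod.2 ⟨hgC', hgC⟩
  have := hm' _ hmain v
  rwa [homom (kap y₀ g) g ⟨C', hC'o, hC'c, hgC'⟩ ⟨C, hCo, hCc, hgC⟩] at this

end alt

end SpW
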