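import Pool.Agent.Work.MP_3615d2_al.HypH

/-!
MP_3615d2_al: the vanishing theorem for `Alt`, from the block decomposition (T4 and `block_kill`),
the sections (T5) and the equivariance of `J` (T2), which are hypotheses here.
-/

open Set Topology Polynomial

namespace SpW

section alt

variable {F E : Type} [NontriviallyNormedField F] [IsUltrametricDist F] [ProperSpace F]
  [NontriviallyNormedField E] [NormedAlgebra F E] [IsUltrametricDist E] [ProperSpace E]
  {σ : E ≃ₐ[F] E} {δ : E} {d : F} {N : ℕ} {H : Matrix (Fin N) (Fin N) E}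

/-- An element of the unitary group as an `F`-linear automorphism. -/
noncomputable def uequiv (g : unitary σ H) : (Fin N → E) ≃ₗ[F] (Fin N → E) :=
  LinearEquiv.ofLinear ((Matrix.mulVecLin (umat g)).restrictScalars F)
    ((Matrix.mulVecLin (umat g⁻¹)).restrictScalars F)
    (by
      apply LinearMap.ext
      intro x
      show (umat g).mulVec ((umat g⁻¹).mulVec x) = x
      rw [Matrix.mulVec_mulVec]
      have : umat g * umat g⁻¹ = 1 := by
        show ((g : GL (Fin N) E) : Matrix (Fin N) (Fin N) E) *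
          (((g : GL (Fin N) E)⁻¹ : GL (Fin N) E) : Matrix (Fin N) (Fin N) E) = 1
        exact Units.mul_inv _
      rw [this, Matrix.one_mulVec])
    (by
      apply LinearMap.ext
      intro x
      show (umat g⁻¹).mulVec ((umat g).mulVec x) = x
      rw [Matrix.mulVec_mulVec]
      have : umat g⁻¹ * umat g = 1 := by
        show (((g : GL (Fin N) E)⁻¹ : GL (Fin N) E) : Matrix (Fin N) (Fin N) E) *
          ((g : GL (Fin N) E) : Matrix (Fin N) (Fin N) E) = 1
        exact Units.inv_mul _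
      rw [this, Matrix.one_mulVec])

theorem uequiv_apply (g : unitary σ H) (x : Fin N → E) : uequiv g x = (umat g).mulVec x := rfl

/-- The characteristic polynomial of `A_B` is invariant. -/
theorem chiC_smul [FiniteDimensional F E]
    (hJ : ∀ (g : unitary σ H) (B : Alt N E) (x : Fin N → E),
      Jlin σ H ((g : GL (Fin N) E) • B).1 ((umat g).mulVec x) = (umat g).mulVec (Jlin σ H B.1 x))
    (g : unitary σ H) (B : Alt N E) : chiC (F := F) σ H (g • B) = chiC (F := F) σ H B := by
  have h1 : Alin (F := F) σ H (g • B).1 = (uequiv g).conj (Alin (F := F) σ H B.1) := by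
    apply LinearMap.ext
    intro y
    obtain ⟨x, rfl⟩ := (uequiv g).surjective y
    rw [LinearEquiv.conj_apply, LinearMap.comp_apply, LinearMap.comp_apply, LinearEquiv.coe_coe,
      LinearEquiv.coe_coe, LinearEquiv.symm_apply_apply]
    show Jlin σ H ((g : GL (Fin N) E) • B).1 (Jlin σ H ((g : GL (Fin N) E) • B).1 ((umat g).mulVec x))
      = (umat g).mulVec (Jlin σ H B.1 (Jlin σ H B.1 x))
    rw [hJ, hJ]
  have h2 : chiP (F := F) σ H (g • B) = chiP (F := F) σ H B := by
    unfold chiP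
    rw [h1]
    exact LinearEquiv.charpoly_conj _ _
  unfold chiC
  rw [h2]

/-- Theorem A in the form: no invariant functional on `Sch (Alt N E) S`. -/
theorem alt_vanish_of (hq : QuadDatum σ δ d) {S : Type} [AddCommGroup S] [Module ℂ S]
    (om : unitary σ H →* Module.End ℂ S) (hom : IsSmoothRep om)
    (hJ : ∀ (g : unitary σ H) (B : Alt N E) (x : Fin N → E),
      Jlin σ H ((g : GL (Fin N) E) • B).1 ((umat g).mulVec x) = (umat g).mulVec (Jlin σ H B.1 x))
    (hK : ∀ B : Alt N E, ∃ (p : F[X]) (n : ℕ) (x : Fin N → E), p.Monic ∧ IsBlock σ H B.1 p n x ∧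
      ∀ m' : S →ₗ[ℂ] ℂ, (∀ (u : DD d p n) (g : unitary σ H), u * star u = 1 → PowBdd F u →
        IsBlkElt σ H B.1 δ p n x u g → ∀ v, m' (om g v) = m' v) → m' = 0)
    (hS : ∀ (B₀ : Alt N E) (p : F[X]) (n : ℕ) (x₀ : Fin N → E), IsBlock σ H B₀.1 p n x₀ →
      ∀ Z : Set (Alt N E), B₀ ∈ Z →
      (∀ᶠ B in nhdsWithin B₀ Z,
        Module.finrank F (LinearMap.range (aeval (Alin σ H B.1) (p ^ n))) =
          Module.finrank F (LinearMap.range (aeval (Alin σ H B₀.1) (p ^ n)))) →
      ∀ u : DD d p n, u * star u = 1 → PowBdd F u → ∀ g₀ : unitary σ H,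
      IsBlkElt σ H B₀.1 δ p n x₀ u g₀ →
      ∃ (V : Set (Alt N E)) (s : Alt N E → unitary σ H) (C : Subgroup (unitary σ H)),
        IsOpen V ∧ B₀ ∈ V ∧ ContinuousOn s (Z ∩ V) ∧
        (∀ B ∈ Z ∩ V, ((s B : GL (Fin N) E) • B = B)) ∧
        s B₀ = g₀ ∧ IsOpen (C : Set (unitary σ H)) ∧ IsCompact (C : Set (unitary σ H)) ∧
        g₀ ∈ C)
    (L : Sch (Alt N E) S →ₗ[ℂ] ℂ)
    (hL : ∀ (g : unitary σ H) (f f' : Sch (Alt N E) S),
      (∀ B, (f' : Alt N E → S) B = om g ((f : Alt N E → S) (g⁻¹ • B))) → L f' = L f) : L = 0 := by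
  haveI : FiniteDimensional F E := Module.finite_of_finrank_pos (by rw [hq.rank]; norm_num)
  refine gauge_vanish (U := unitary σ H) (X := Alt N E) (T := ℕ → F) (S := S)
    (fun B V hV => alt_basis B V hV) (fun t V hV => pi_clopen_basis t V hV) om hom
    (chiC σ H) continuous_chiC (fun u B => chiC_smul hJ u B) (rt σ H) rt_bdd rt_open ?_ L hL
  intro B₀ Z _ hB₀ _ _ hmax m' hm'
  obtain ⟨p, n, x, hp, hx, hkill⟩ := hK B₀
  apply hkill
  intro u g hu hbdd hg v
  exact hm' g (hS B₀ p n x hx Z hB₀ (rank_const B₀ Z hmax p hp n x hx) u hu hbdd g hg) v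

end alt

end SpW
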