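import Mathlib

/-!
MP_3615d2_al, Theorem B, step (V) of note 6469 (R11): the pure algebra.

`Vp = V_{1/2}`, `Vm = V_{-1/2}`, `Wp = τ_{1/2}`, `Wm = τ_{-1/2}`; for each of the two induced
representations the coinvariants under `U` are `W ⊕ W'`, where the first projection is the evaluation
at `1`.
-/

namespace SpW

section

variable {G : Type*} [Group G] {V : Type*} [AddCommGroup V] [Module ℂ V]

/-- A subspace stable under the action of a group. -/
def StableUnder (ρ : G →* Module.End ℂ V) (A : Submodule ℂ V) : Prop :=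
  ∀ g, ∀ v ∈ A, ρ g v ∈ A

/-- `A(U)`: the span of the `u v - v`, `u ∈ U`, `v ∈ A`. -/
def coinvOf (ρ : G →* Module.End ℂ V) (U : Subgroup G) (A : Submodule ℂ V) : Submodule ℂ V :=
  Submodule.span ℂ {w | ∃ u ∈ U, ∃ v ∈ A, w = ρ u v - v}

/-- Irreducible representations. -/
structure IsIrrep (ρ : G →* Module.End ℂ V) : Prop where
  ne : ∃ v : V, v ≠ 0
  irr : ∀ A : Submodule ℂ V, StableUnder ρ A → A = ⊥ ∨ A = ⊤

variable {W W' : Type*} [AddCommGroup W] [Module ℂ W] [AddCommGroup W'] [Module ℂ W']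

/-- The data on the Jacquet module of an induced representation which are used in the proof:
`e` is the evaluation at `1`, `e'` the second projection. -/
structure JacDatum (P U : Subgroup G) (ρ : G →* Module.End ℂ V) (τ : P →* Module.End ℂ W)
    (τ' : P →* Module.End ℂ W') (e : V →ₗ[ℂ] W) (e' : V →ₗ[ℂ] W') : Prop where
  equiv : ∀ (p : P) (v : V), e (ρ p v) = τ p (e v)
  equiv' : ∀ (p : P) (v : V), e' (ρ p v) = τ' p (e' v)
  surj : ∀ w w', ∃ v, e v = w ∧ e' v = w'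
  ker : ∀ v, e v = 0 → e' v = 0 → v ∈ coinvOf ρ U ⊤
  irr : IsIrrep τ
  irr' : IsIrrep τ'
  /-- the central element with two different eigenvalues -/
  split : ∃ (z : P) (c c' : ℂ), c ≠ c' ∧ (∀ w, τ z w = c • w) ∧ ∀ w, τ' z w = c' • w
  /-- a nonzero submodule is seen by the evaluation -/
  ev : ∀ A : Submodule ℂ V, StableUnder ρ A → A ≠ ⊥ → ∃ v ∈ A, e v ≠ 0
  /-- exactness of the coinvariants -/
  exact : ∀ A : Submodule ℂ V, StableUnder ρ A → ∀ v ∈ A, v ∈ coinvOf ρ U ⊤ → v ∈ coinvOf ρ U A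
  /-- (IV): a subquotient without coinvariants is zero -/
  noCusp : ∀ B C : Submodule ℂ V, StableUnder ρ B → StableUnder ρ C → C ≤ B →
    B ≤ C ⊔ coinvOf ρ U B → B ≤ C

variable {P U : Subgroup G} {ρ : G →* Module.End ℂ V} {τ : P →* Module.End ℂ W}
  {τ' : P →* Module.End ℂ W'} {e : V →ₗ[ℂ] W} {e' : V →ₗ[ℂ] W'}

lemma JacDatum.lift_left (h : JacDatum P U ρ τ τ' e e') {A : Submodule ℂ V}
    (hA : StableUnder ρ A) (hne : A ≠ ⊥) (w : W) : ∃ v ∈ A, e v = w ∧ e' v = 0 := by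
  obtain ⟨v, hv, hev⟩ := h.ev A hA hne
  obtain ⟨z, c, c', hcc, hc, hc'⟩ := h.split
  let B : Submodule ℂ W := (A ⊓ LinearMap.ker e').map e
  have hB : StableUnder τ B := by
    rintro p _ ⟨x, ⟨hxA, hxk⟩, rfl⟩
    refine ⟨ρ p x, ⟨hA _ _ hxA, ?_⟩, h.equiv p x⟩
    show e' (ρ p x) = 0
    rw [h.equiv', LinearMap.mem_ker.1 hxk, map_zero]
  have hBne : B ≠ ⊥ := by
    intro hbot
    have h1 : e (ρ z v - c' • v) ∈ B := by
      refine ⟨_, ⟨A.sub_mem (hA _ _ hv) (A.smul_mem _ hv), ?_⟩, rfl⟩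
      show e' (ρ z v - c' • v) = 0
      rw [map_sub, map_smul, h.equiv', hc', sub_self]
    rw [hbot, Submodule.mem_bot, map_sub, map_smul, h.equiv, hc, ← sub_smul] at h1
    rcases smul_eq_zero.1 h1 with h2 | h2
    · exact hcc (sub_eq_zero.1 h2)
    · exact hev h2
  have hBt : B = ⊤ := (h.irr.irr B hB).resolve_left hBne
  have hw : w ∈ B := by rw [hBt]; trivial
  obtain ⟨x, ⟨hxA, hxk⟩, hx⟩ := hw
  exact ⟨x, hxA, hx, hxk⟩

lemma JacDatum.lift_right (h : JacDatum P U ρ τ τ' e e') {A : Submodule ℂ V}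
    (hA : StableUnder ρ A) (hne : ∃ v ∈ A, e' v ≠ 0) (w : W') : ∃ v ∈ A, e v = 0 ∧ e' v = w := by
  obtain ⟨v, hv, hev⟩ := hne
  obtain ⟨z, c, c', hcc, hc, hc'⟩ := h.split
  let B : Submodule ℂ W' := (A ⊓ LinearMap.ker e).map e'
  have hB : StableUnder τ' B := by
    rintro p _ ⟨x, ⟨hxA, hxk⟩, rfl⟩
    refine ⟨ρ p x, ⟨hA _ _ hxA, ?_⟩, h.equiv' p x⟩
    show e (ρ p x) = 0
    rw [h.equiv, LinearMap.mem_ker.1 hxk, map_zero]
  have hBne : B ≠ ⊥ := by
    intro hbot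
    have h1 : e' (ρ z v - c • v) ∈ B := by
      refine ⟨_, ⟨A.sub_mem (hA _ _ hv) (A.smul_mem _ hv), ?_⟩, rfl⟩
      show e (ρ z v - c • v) = 0
      rw [map_sub, map_smul, h.equiv, hc, sub_self]
    rw [hbot, Submodule.mem_bot, map_sub, map_smul, h.equiv', hc', ← sub_smul] at h1
    rcases smul_eq_zero.1 h1 with h2 | h2
    · exact hcc (sub_eq_zero.1 h2).symm
    · exact hev h2
  have hBt : B = ⊤ := (h.irr'.irr B hB).resolve_left hBne
  have hw : w ∈ B := by rw [hBt]; trivial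
  obtain ⟨x, ⟨hxA, hxk⟩, hx⟩ := hw
  exact ⟨x, hxA, hxk, hx⟩

/-- A submodule with a nonzero element outside the kernel of the second projection is everything. -/
lemma JacDatum.eq_top (h : JacDatum P U ρ τ τ' e e') {A : Submodule ℂ V}
    (hA : StableUnder ρ A) (hne : ∃ v ∈ A, e' v ≠ 0) : A = ⊤ := by
  have hA0 : A ≠ ⊥ := by
    rintro rfl
    obtain ⟨v, hv, hev⟩ := hne
    rw [Submodule.mem_bot] at hv
    rw [hv, map_zero] at hev
    exact hev rfl
  rw [eq_top_iff]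
  refine h.noCusp ⊤ A (fun _ _ _ => trivial) hA le_top ?_
  intro v _
  obtain ⟨a, ha, ha1, ha2⟩ := h.lift_left hA hA0 (e v)
  obtain ⟨b, hb, hb1, hb2⟩ := h.lift_right hA hne (e' v)
  have h1 : v - (a + b) ∈ coinvOf ρ U ⊤ := by
    refine h.ker _ ?_ ?_
    · rw [map_sub, map_add, ha1, hb1, add_zero, sub_self]
    · rw [map_sub, map_add, ha2, hb2, zero_add, sub_self]
  have h2 : v = (a + b) + (v - (a + b)) := by abel
  rw [h2]
  exact Submodule.add_mem_sup (A.add_mem ha hb) h1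

end

section main

variable {G : Type*} [Group G] {P U : Subgroup G}
  {Vp Vm Wp Wm S Sg : Type*}
  [AddCommGroup Vp] [Module ℂ Vp] [AddCommGroup Vm] [Module ℂ Vm]
  [AddCommGroup Wp] [Module ℂ Wp] [AddCommGroup Wm] [Module ℂ Wm]
  [AddCommGroup S] [Module ℂ S] [AddCommGroup Sg] [Module ℂ Sg]
  {ρp : G →* Module.End ℂ Vp} {ρm : G →* Module.End ℂ Vm}
  {τp : P →* Module.End ℂ Wp} {τm : P →* Module.End ℂ Wm}
  {ep : Vp →ₗ[ℂ] Wp} {ep' : Vp →ₗ[ℂ] Wm} {em : Vm →ₗ[ℂ] Wm} {em' : Vm →ₗ[ℂ] Wp}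

/-- **Step (V).** `S = C_c^∞(Alt)`, `Ψ : S → V_{-1/2}` nonzero, no nonzero map `S → V_{1/2}`; then
every irreducible quotient `σ` of `V_{1/2}` is a quotient of `S`. -/
theorem quotient_of_alt (hp : JacDatum P U ρp τp τm ep ep') (hm : JacDatum P U ρm τm τp em em')
    (ρS : G →* Module.End ℂ S) (Ψ : S →ₗ[ℂ] Vm) (hΨ : ∀ g s, Ψ (ρS g s) = ρm g (Ψ s)) (hΨ0 : Ψ ≠ 0)
    (hII : ∀ T : S →ₗ[ℂ] Vp, (∀ g s, T (ρS g s) = ρp g (T s)) → T = 0)
    (hFrp : ∀ φ : Vm →ₗ[ℂ] Wp, (∀ (p : P) v, φ (ρm p v) = τp p (φ v)) →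
      ∃ T : Vm →ₗ[ℂ] Vp, (∀ g v, T (ρm g v) = ρp g (T v)) ∧ ∀ v, ep (T v) = φ v)
    (ρσ : G →* Module.End ℂ Sg) (hσ : IsIrrep ρσ) (q : Vp →ₗ[ℂ] Sg)
    (hq : ∀ g v, q (ρp g v) = ρσ g (q v)) (hqs : Function.Surjective q)
    (hFrm : ∀ φ : Sg →ₗ[ℂ] Wm, (∀ (p : P) v, φ (ρσ p v) = τm p (φ v)) →
      ∃ T : Sg →ₗ[ℂ] Vm, (∀ g v, T (ρσ g v) = ρm g (T v)) ∧ ∀ v, em (T v) = φ v) :
    ∃ Q : S →ₗ[ℂ] Sg, (∀ g s, Q (ρS g s) = ρσ g (Q s)) ∧ Function.Surjective Q := by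
  -- the image of `Ψ`
  have hR : StableUnder ρm (LinearMap.range Ψ) := by
    rintro g _ ⟨s, rfl⟩
    exact ⟨ρS g s, hΨ g s⟩
  have hR0 : LinearMap.range Ψ ≠ ⊥ := by
    rw [Ne, LinearMap.range_eq_bot]; exact hΨ0
  have hRe : ∀ v ∈ LinearMap.range Ψ, em' v = 0 := by
    by_contra hcon
    push Not at hcon
    have htop := hm.eq_top hR hcon
    obtain ⟨T, hT, hTe⟩ := hFrp em' hm.equiv'
    have h0 := hII (T.comp Ψ) (fun g s => by
      rw [LinearMap.comp_apply, LinearMap.comp_apply, hΨ, hT])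
    obtain ⟨w, hw⟩ := hp.irr.ne
    obtain ⟨v, hv1, hv2⟩ := hm.surj 0 w
    have hv : v ∈ LinearMap.range Ψ := by rw [htop]; trivial
    obtain ⟨s, rfl⟩ := hv
    have h1 : T (Ψ s) = 0 := by
      rw [← LinearMap.comp_apply, h0, LinearMap.zero_apply]
    rw [← hTe, h1, map_zero] at hv2
    exact hw hv2.symm
  -- the map `σ → τ_{-1/2}`
  have hN : StableUnder ρp (LinearMap.ker q) := by
    intro g v hv
    rw [LinearMap.mem_ker] at hv ⊢
    rw [hq, hv, map_zero]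
  have hNe : LinearMap.ker q ≤ LinearMap.ker ep' := by
    intro v hv
    rw [LinearMap.mem_ker]
    by_contra hne
    have htop := hp.eq_top hN ⟨v, hv, hne⟩
    obtain ⟨x, hx⟩ := hσ.ne
    obtain ⟨y, rfl⟩ := hqs x
    have : y ∈ LinearMap.ker q := by rw [htop]; trivial
    exact hx this
  obtain ⟨φ, hφ⟩ : ∃ φ : Sg →ₗ[ℂ] Wm, ∀ v, φ (q v) = ep' v := by
    let e := q.quotKerEquivOfSurjective hqs
    refine ⟨((LinearMap.ker q).liftQ ep' hNe).comp e.symm.toLinearMap, fun v => ?_⟩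
    have h1 : e.symm (q v) = (LinearMap.ker q).mkQ v := by
      rw [LinearEquiv.symm_apply_eq]; rfl
    show (LinearMap.ker q).liftQ ep' hNe (e.symm (q v)) = _
    rw [h1]
    rfl
  obtain ⟨F, hF, hFe⟩ := hFrm φ (fun p x => by
    obtain ⟨v, rfl⟩ := hqs x
    rw [← hq, hφ, hφ, hp.equiv'])
  -- `F` is injective
  have hFinj : LinearMap.ker F = ⊥ := by
    refine (hσ.irr _ ?_).resolve_right ?_
    · intro g v hv
      rw [LinearMap.mem_ker] at hv ⊢
      rw [hF, hv, map_zero]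
    · intro htop
      obtain ⟨w, hw⟩ := hp.irr'.ne
      obtain ⟨v, hv1, hv2⟩ := hp.surj 0 w
      have h1 : F (q v) = 0 := by
        have : q v ∈ LinearMap.ker F := by rw [htop]; trivial
        exact this
      have h2 := hFe (q v)
      rw [h1, map_zero, hφ, hv2] at h2
      exact hw h2.symm
  have hA : StableUnder ρm (LinearMap.range F) := by
    rintro g _ ⟨s, rfl⟩
    exact ⟨ρσ g s, hF g s⟩
  have hA0 : LinearMap.range F ≠ ⊥ := by
    intro h0
    rw [LinearMap.range_eq_bot] at h0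
    obtain ⟨x, hx⟩ := hσ.ne
    apply hx
    have : x ∈ LinearMap.ker F := by rw [h0]; simp
    rwa [hFinj] at this
  -- the image of `Ψ` is contained in the image of `F`
  have hRA : LinearMap.range Ψ ≤ LinearMap.range F := by
    have hB : StableUnder ρm (LinearMap.range F ⊔ LinearMap.range Ψ) := by
      intro g v hv
      obtain ⟨a, ha, b, hb, rfl⟩ := Submodule.mem_sup.1 hv
      rw [map_add]
      exact Submodule.add_mem_sup (hA g a ha) (hR g b hb)
    refine le_trans le_sup_right (hm.noCusp _ _ hB hA le_sup_left ?_)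
    refine sup_le le_sup_left ?_
    intro s hs
    obtain ⟨a, ha, ha1, ha2⟩ := hm.lift_left hA hA0 (em s)
    have h1 : s - a ∈ coinvOf ρm U ⊤ := by
      refine hm.ker _ ?_ ?_
      · rw [map_sub, ha1, sub_self]
      · rw [map_sub, ha2, hRe s hs, sub_self]
    have h2 := hm.exact _ hB (s - a) (Submodule.sub_mem _ (Submodule.mem_sup_right hs)
      (Submodule.mem_sup_left ha)) h1
    have h3 : s = a + (s - a) := by abel
    rw [h3]
    exact Submodule.add_mem_sup ha h2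
  -- the map
  let f := LinearEquiv.ofInjective F (LinearMap.ker_eq_bot.1 hFinj)
  let Q : S →ₗ[ℂ] Sg := f.symm.toLinearMap.comp
    (Ψ.codRestrict (LinearMap.range F) fun s => hRA ⟨s, rfl⟩)
  have hQ : ∀ s, F (Q s) = Ψ s := by
    intro s
    have := f.apply_symm_apply (⟨Ψ s, hRA ⟨s, rfl⟩⟩ : LinearMap.range F)
    exact congrArg Subtype.val this
  have hFi : Function.Injective F := LinearMap.ker_eq_bot.1 hFinj
  have hQe : ∀ g s, Q (ρS g s) = ρσ g (Q s) := by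
    intro g s
    apply hFi
    rw [hQ, hF, hQ, hΨ]
  refine ⟨Q, hQe, ?_⟩
  rw [← LinearMap.range_eq_top]
  refine (hσ.irr _ ?_).resolve_left ?_
  · rintro g _ ⟨s, rfl⟩
    exact ⟨ρS g s, hQe g s⟩
  · intro h0
    rw [LinearMap.range_eq_bot] at h0
    apply hΨ0
    ext s
    rw [← hQ, h0]
    simp

end main

end SpW
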