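import Pool.Agent.Work.MP_3615d2_al.BP
import Pool.Agent.Work.MP_3615d2_al.SchExt
import Pool.Agent.Work.MP_3615d2_al.AltSm
import Pool.Agent.Work.MP_3615d2_al.AltDet

/-!
MP_3615d2_al, Theorem B, (4a), the closed part: a map `Sch (Alt (2m)) → V ⊗ V` which is equivariant
under the parabolic subgroup, with the twist `(m+1)/2`, and which kills the functions vanishing on
the forms for which the first `m` basis vectors span an isotropic subspace, is zero.
-/

open MeasureTheory Matrix Filter Topology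
open scoped NNReal ENNReal TensorProduct

namespace SpW

/-! ### Counting balls -/

section count

/-- A function is the sum of its cuts along the fibres of a locally constant map. -/
theorem sum_cut_fibre {X S ι : Type} [TopologicalSpace X] [AddCommGroup S] [Module ℂ S]
    (π : X → ι) (hπ : IsLocallyConstant π) (f : Sch X S) (J : Finset ι)
    (hJ : ∀ x, (f : X → S) x ≠ 0 → π x ∈ J) :
    f = ∑ i ∈ J, cut (π ⁻¹' {i}) (hπ.isClopen_fiber i) f := by
  classical
  apply Sch.ext'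
  intro x
  rw [Submodule.coe_sum, Finset.sum_apply]
  by_cases hx : (f : X → S) x = 0
  · rw [hx]
    symm
    apply Finset.sum_eq_zero
    intro i _
    by_cases hi : x ∈ π ⁻¹' {i}
    · rw [cut_mem _ f hi, hx]
    · exact cut_notMem _ f hi
  · rw [Finset.sum_eq_single (π x)]
    · rw [cut_mem _ f (by simp)]
    · intro i _ hi
      exact cut_notMem _ f (by simpa using fun h => hi h.symm)
    · intro hi
      exact absurd (hJ x hx) hi

variable {V : Type} [NormedAddCommGroup V] [IsUltrametricDist V]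

theorem um_sub_le (x y : V) : ‖x - y‖ ≤ max ‖x‖ ‖y‖ := by
  rw [sub_eq_add_neg, ← norm_neg y]
  exact IsUltrametricDist.norm_add_le_max _ _

theorem closedBall_locConst {r : ℝ} (hr : 0 < r) :
    IsLocallyConstant fun u : V => Metric.closedBall u r := by
  rw [IsLocallyConstant.iff_eventually_eq]
  intro x
  filter_upwards [Metric.closedBall_mem_nhds x hr] with y hy
  exact (IsUltrametricDist.closedBall_eq_of_mem hy).symm

/-- The number of balls of radius `r` in a ball of radius `R`. -/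
theorem ball_count [ProperSpace V] [MeasurableSpace V] [BorelSpace V] (μ : Measure V)
    [μ.IsAddHaarMeasure] (x0 : V) {R r : ℝ} (hr : 0 < r) (h : r ≤ R) :
    ∃ J : Finset (Set V), (∀ u, u ∈ Metric.closedBall x0 R → Metric.closedBall u r ∈ J) ∧
      (∀ b ∈ J, ∃ u ∈ Metric.closedBall x0 R, Metric.closedBall u r = b) ∧
      (J.card : ℝ≥0∞) * μ (Metric.closedBall 0 r) = μ (Metric.closedBall 0 R) := by
  classical
  let tS : TopologicalSpace (Set V) := ⊥
  have dS : DiscreteTopology (Set V) := ⟨rfl⟩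
  have hfin : ((fun u : V => Metric.closedBall u r) '' Metric.closedBall x0 R).Finite :=
    ((isCompact_closedBall x0 R).image
      ((IsLocallyConstant.iff_continuous _).1 (closedBall_locConst hr))).finite_of_discrete
  refine ⟨hfin.toFinset, ?_, ?_, ?_⟩
  · intro u hu
    rw [Set.Finite.mem_toFinset]
    exact ⟨u, hu, rfl⟩
  · intro b hb
    rw [Set.Finite.mem_toFinset] at hb
    obtain ⟨u, hu, rfl⟩ := hb
    exact ⟨u, hu, rfl⟩
  · have hU : Metric.closedBall x0 R = ⋃ b ∈ hfin.toFinset, b := by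
      ext u
      rw [Set.mem_iUnion₂]
      constructor
      · intro hu
        exact ⟨_, (Set.Finite.mem_toFinset _).2 ⟨u, hu, rfl⟩, Metric.mem_closedBall_self hr.le⟩
      · rintro ⟨b, hb, hub⟩
        rw [Set.Finite.mem_toFinset] at hb
        obtain ⟨v, hv, rfl⟩ := hb
        have h1 : v ∈ Metric.closedBall x0 R := hv
        have h2 : dist u v ≤ r := hub
        rw [Metric.mem_closedBall] at h1 ⊢
        exact (dist_triangle_max u v x0).trans (max_le (h2.trans h) h1)
    have hm : μ (Metric.closedBall x0 R) =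
        ∑ b ∈ hfin.toFinset, μ b := by
      conv_lhs => rw [hU]
      refine measure_biUnion_finset ?_ ?_
      · intro b hb b' hb' hne
        rw [Finset.mem_coe, Set.Finite.mem_toFinset] at hb hb'
        obtain ⟨u, _, rfl⟩ := hb
        obtain ⟨u', _, rfl⟩ := hb'
        show Disjoint (Metric.closedBall u r) (Metric.closedBall u' r)
        rw [Set.disjoint_left]
        intro w hw hw'
        apply hne
        show Metric.closedBall u r = Metric.closedBall u' r
        rw [IsUltrametricDist.closedBall_eq_of_mem hw, IsUltrametricDist.closedBall_eq_of_mem hw']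
      · intro b hb
        rw [Set.Finite.mem_toFinset] at hb
        obtain ⟨u, _, rfl⟩ := hb
        exact Metric.isClosed_closedBall.measurableSet
    have ht : ∀ (x : V) (s : ℝ), μ (Metric.closedBall x s) = μ (Metric.closedBall 0 s) := by
      intro x s
      exact Measure.addHaar_closedBall_center μ x s
    rw [ht] at hm
    rw [hm, Finset.sum_congr rfl (g := fun _ => μ (Metric.closedBall (0 : V) r)), Finset.sum_const,
      nsmul_eq_mul]
    intro b hb
    rw [Set.Finite.mem_toFinset] at hb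
    obtain ⟨u, _, rfl⟩ := hb
    exact ht u r

end count

/-! ### The forms for which the first `m` basis vectors span an isotropic subspace -/

section isoforms

variable {E : Type} [Field E] {m : ℕ}

theorem bm_wel_det_ne : (bm 0 1 1 0 : Matrix (Fin (2 * m)) (Fin (2 * m)) E).det ≠ 0 := by
  intro h
  have h1 := bm_wel_sq (E := E) (m := m)
  rw [h, zero_pow two_ne_zero] at h1
  exact zero_ne_one h1

/-- The form with the blocks `0`, `c`, `altM u`. -/
def isoF (c : Matrix (Fin m) (Fin m) E) (hc : c.det ≠ 0) (u : Up m → E) : Alt (2 * m) E :=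
  ⟨bm 0 c (-c.transpose) (altM u), by
    refine ⟨?_, ?_⟩
    · rw [bm_transpose, bm_neg, altM_transpose, Matrix.transpose_zero, neg_zero, neg_neg,
        Matrix.transpose_neg, Matrix.transpose_transpose]
    · rw [bm_det_iso, isUnit_iff_ne_zero]
      exact mul_ne_zero (mul_ne_zero bm_wel_det_ne (pow_ne_zero _ (neg_ne_zero.2 one_ne_zero)))
        (pow_ne_zero _ hc)⟩

/-- The lower right block, as a vector. -/
def u22 (B : Alt (2 * m) E) : Up m → E := upM (b22 B.1)

theorem isoF_b11 (c : Matrix (Fin m) (Fin m) E) (hc : c.det ≠ 0) (u : Up m → E) :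
    b11 (isoF c hc u).1 = 0 := b11_bm _ _ _ _

theorem isoF_b12 (c : Matrix (Fin m) (Fin m) E) (hc : c.det ≠ 0) (u : Up m → E) :
    b12 (isoF c hc u).1 = c := b12_bm _ _ _ _

theorem isoF_b22 (c : Matrix (Fin m) (Fin m) E) (hc : c.det ≠ 0) (u : Up m → E) :
    b22 (isoF c hc u).1 = altM u := b22_bm _ _ _ _

theorem isoF_u22 (c : Matrix (Fin m) (Fin m) E) (hc : c.det ≠ 0) (u : Up m → E) :
    u22 (isoF c hc u) = u := by
  unfold u22
  rw [isoF_b22, upM_altM]

theorem b12_det_ne {B : Alt (2 * m) E} (hB : b11 B.1 = 0) : (b12 B.1).det ≠ 0 := by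
  intro h
  have h1 := alt_eta B
  rw [hB] at h1
  have h2 := B.2.2
  rw [h1, bm_det_iso, h, zero_pow two_ne_zero, mul_zero] at h2
  exact not_isUnit_zero h2

theorem isoF_eq {B : Alt (2 * m) E} (hB : b11 B.1 = 0) (c : Matrix (Fin m) (Fin m) E)
    (hc : c.det ≠ 0) (u : Up m → E) (h12 : b12 B.1 = c) (h22 : b22 B.1 = altM u) :
    B = isoF c hc u := by
  apply Subtype.ext
  rw [alt_eta B, hB, h12, h22]
  rfl

theorem exists_isoF (h2 : (2 : E) ≠ 0) {B : Alt (2 * m) E} (hB : b11 B.1 = 0) :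
    ∃ (c : Matrix (Fin m) (Fin m) E) (hc : c.det ≠ 0) (u : Up m → E), B = isoF c hc u :=
  ⟨b12 B.1, b12_det_ne hB, upM (b22 B.1),
    isoF_eq hB _ _ _ rfl (altM_upM h2 (alt_b22 B)).symm⟩

/-- The translation of the lower right block. -/
noncomputable def shv (c0 c : Matrix (Fin m) (Fin m) E) (y : Up m → E) : Up m → E :=
  upM (c.transpose * ((2 : E)⁻¹ • ((c0⁻¹).transpose * altM y)) -
    ((2 : E)⁻¹ • ((c0⁻¹).transpose * altM y)).transpose * c)

theorem shv_self (h2 : (2 : E) ≠ 0) {c0 : Matrix (Fin m) (Fin m) E} (hc0 : c0.det ≠ 0)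
    (y : Up m → E) : shv c0 c0 y = y := by
  unfold shv
  have h1 : c0.transpose * ((2 : E)⁻¹ • ((c0⁻¹).transpose * altM y)) = (2 : E)⁻¹ • altM y := by
    rw [Matrix.mul_smul, ← Matrix.mul_assoc, ← Matrix.transpose_mul,
      Matrix.nonsing_inv_mul _ (Ne.isUnit hc0), Matrix.transpose_one, Matrix.one_mul]
  have h3 : ((2 : E)⁻¹ • ((c0⁻¹).transpose * altM y)).transpose * c0 = -((2 : E)⁻¹ • altM y) := by
    rw [Matrix.transpose_smul, Matrix.transpose_mul, Matrix.transpose_transpose, altM_transpose,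
      Matrix.smul_mul, Matrix.mul_assoc, Matrix.nonsing_inv_mul _ (Ne.isUnit hc0), Matrix.mul_one,
      smul_neg]
  rw [h1, h3, sub_neg_eq_add, ← add_smul]
  have h4 : (2 : E)⁻¹ + (2 : E)⁻¹ = 1 := by
    field_simp
    norm_num
  rw [h4, one_smul, upM_altM]

theorem altM_sub (u v : Up m → E) : altM (u - v) = altM u - altM v := by
  rw [eq_sub_iff_add_eq, ← altM_add, sub_add_cancel]

/-- The action of the unipotent radical. -/
theorem pel_isoF (h2 : (2 : E) ≠ 0) (c0 c : Matrix (Fin m) (Fin m) E) (hc : c.det ≠ 0)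
    (u y : Up m → E) :
    (pel (1 : GL (Fin m) E) 1 ((2 : E)⁻¹ • ((c0⁻¹).transpose * altM y)))⁻¹ • isoF c hc u =
      isoF c hc (u - shv c0 c y) := by
  obtain ⟨h1, h3, h4⟩ := pel_inv_smul (1 : GL (Fin m) E) 1
    ((2 : E)⁻¹ • ((c0⁻¹).transpose * altM y)) (isoF c hc u)
  set b := (2 : E)⁻¹ • ((c0⁻¹).transpose * altM y) with hb
  rw [isoF_b11] at h1 h3 h4
  rw [isoF_b12] at h3 h4
  rw [isoF_b22] at h4
  simp only [Units.val_one, Matrix.transpose_one, Matrix.one_mul, Matrix.mul_one, Matrix.zero_mul,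
    Matrix.mul_zero, zero_add] at h1 h3 h4
  refine isoF_eq h1 _ _ _ h3 ?_
  rw [h4, altM_sub]
  have h5 : altM (shv c0 c y) = c.transpose * b - b.transpose * c := by
    refine altM_upM h2 ?_
    rw [Matrix.transpose_sub, Matrix.transpose_mul, Matrix.transpose_mul,
      Matrix.transpose_transpose, Matrix.transpose_transpose]
    abel
  rw [h5, Matrix.neg_mul]
  abel

/-- The action of the elements `(z 0; 0 z⁻¹)`. -/
theorem zeta_isoF (z : Eˣ) (c : Matrix (Fin m) (Fin m) E) (hc : c.det ≠ 0)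
    (u : Up m → E) :
    (pel (Matrix.GeneralLinearGroup.scalar (Fin m) z)
      (Matrix.GeneralLinearGroup.scalar (Fin m) z⁻¹) 0)⁻¹ • isoF c hc u =
      isoF c hc (((z : E) ^ 2)⁻¹ • u) := by
  obtain ⟨h1, h3, h4⟩ := pel_inv_smul (Matrix.GeneralLinearGroup.scalar (Fin m) z)
    (Matrix.GeneralLinearGroup.scalar (Fin m) z⁻¹) 0 (isoF c hc u)
  have e1 : ∀ w : Eˣ, ((Matrix.GeneralLinearGroup.scalar (Fin m) w : GL (Fin m) E) :
      Matrix (Fin m) (Fin m) E) = (w : E) • (1 : Matrix (Fin m) (Fin m) E) := by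
    intro w
    rw [Matrix.smul_one_eq_diagonal]
    rfl
  have hz : (z : E) ≠ 0 := z.ne_zero
  rw [e1, e1] at h3
  rw [e1] at h1 h4
  rw [isoF_b11] at h1 h3 h4
  rw [isoF_b12] at h3 h4
  rw [isoF_b22] at h4
  simp only [Matrix.transpose_smul, Matrix.transpose_one, Matrix.smul_mul, Matrix.mul_smul,
    Matrix.one_mul, Matrix.mul_one, Matrix.zero_mul, Matrix.mul_zero, zero_add,
    Matrix.transpose_zero, smul_zero] at h1 h3 h4
  refine isoF_eq h1 _ _ _ ?_ ?_
  · rw [h3, smul_smul, ← Units.val_mul, inv_mul_cancel, Units.val_one, one_smul]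
  · rw [h4, altM_smul, smul_smul, ← Units.val_mul, ← mul_inv, ← sq, Units.val_inv_eq_inv_val,
      Units.val_pow_eq_pow_val]

end isoforms

/-! ### Topology -/

section top

variable {E : Type} [NontriviallyNormedField E] {m : ℕ}

theorem continuous_altM_comp {Y : Type} [TopologicalSpace Y] {u : Y → Up m → E} (hu : Continuous u) :
    Continuous fun y => altM (u y) := by
  refine continuous_matrix fun i j => ?_
  unfold altM
  by_cases h : i < j
  · simp only [dif_pos h]
    exact (continuous_apply _).comp hu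
  · by_cases h' : j < i
    · simp only [dif_neg h, dif_pos h']
      exact ((continuous_apply _).comp hu).neg
    · simp only [dif_neg h, dif_neg h']
      exact continuous_const

theorem continuous_upM_comp {Y : Type} [TopologicalSpace Y] {M : Y → Matrix (Fin m) (Fin m) E}
    (hM : Continuous M) : Continuous fun y => upM (M y) :=
  continuous_pi fun _ => hM.matrix_elem _ _

theorem continuous_u22 : Continuous fun B : Alt (2 * m) E => u22 B :=
  continuous_upM_comp (continuous_b22 continuous_alt_val)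

theorem continuous_isoF : Continuous fun p : {c : Matrix (Fin m) (Fin m) E // c.det ≠ 0} ×
    (Up m → E) => isoF p.1.1 p.1.2 p.2 := by
  refine Continuous.subtype_mk ?_ _
  have h1 : Continuous fun p : {c : Matrix (Fin m) (Fin m) E // c.det ≠ 0} ×
    (Up m → E) => p.1.1 := continuous_subtype_val.comp continuous_fst
  exact continuous_bm continuous_const h1 h1.matrix_transpose.neg (continuous_altM_comp continuous_snd)

theorem continuous_shv (c0 : Matrix (Fin m) (Fin m) E) :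
    Continuous fun p : Matrix (Fin m) (Fin m) E × (Up m → E) => shv c0 p.1 p.2 := by
  have h1 : Continuous fun p : Matrix (Fin m) (Fin m) E × (Up m → E) =>
      (2 : E)⁻¹ • ((c0⁻¹).transpose * altM p.2) := by
    have := (continuous_const (y := (c0⁻¹).transpose)).matrix_mul
      (continuous_altM_comp (continuous_snd (X := Matrix (Fin m) (Fin m) E) (Y := Up m → E)))
    exact Continuous.const_smul this (2 : E)⁻¹
  refine continuous_upM_comp (Continuous.sub ?_ ?_)
  · exact (continuous_fst.matrix_transpose).matrix_mul h1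
  · exact h1.matrix_transpose.matrix_mul continuous_fst

/-- `f` does not depend on `c`, near `c0`. -/
theorem unif_const (f : Sch (Alt (2 * m) E) ℂ) (c0 : Matrix (Fin m) (Fin m) E)
    (hc0 : c0.det ≠ 0) : ∀ᶠ c in 𝓝 c0, ∀ (hc : c.det ≠ 0) (u : Up m → E),
      (f : Alt (2 * m) E → ℂ) (isoF c hc u) = (f : Alt (2 * m) E → ℂ) (isoF c0 hc0 u) := by
  obtain ⟨hf, K, hK, hfK⟩ := f.2
  have hKu : IsCompact (u22 '' K) := hK.image continuous_u22
  have h1 : ∀ u, ∀ᶠ p : {c : Matrix (Fin m) (Fin m) E // c.det ≠ 0} × (Up m → E) in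
      𝓝 (⟨c0, hc0⟩, u), (f : Alt (2 * m) E → ℂ) (isoF p.1.1 p.1.2 p.2) =
        (f : Alt (2 * m) E → ℂ) (isoF c0 hc0 p.2) := by
    intro u
    have e1 : ∀ᶠ p : {c : Matrix (Fin m) (Fin m) E // c.det ≠ 0} × (Up m → E) in
      𝓝 (⟨c0, hc0⟩, u), (f : Alt (2 * m) E → ℂ) (isoF p.1.1 p.1.2 p.2) =
        (f : Alt (2 * m) E → ℂ) (isoF c0 hc0 u) :=
      (continuous_isoF.tendsto (⟨c0, hc0⟩, u)).eventually (hf.eventually_eq _)
    have e2 : ∀ᶠ p : {c : Matrix (Fin m) (Fin m) E // c.det ≠ 0} × (Up m → E) in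
      𝓝 (⟨c0, hc0⟩, u), (f : Alt (2 * m) E → ℂ) (isoF c0 hc0 p.2) =
        (f : Alt (2 * m) E → ℂ) (isoF c0 hc0 u) := by
      have hcont : Continuous fun p : {c : Matrix (Fin m) (Fin m) E // c.det ≠ 0} × (Up m → E) =>
          isoF c0 hc0 p.2 :=
        continuous_isoF.comp ((continuous_const
          (y := (⟨c0, hc0⟩ : {c : Matrix (Fin m) (Fin m) E // c.det ≠ 0}))).prodMk continuous_snd)
      exact (hcont.tendsto (⟨c0, hc0⟩, u)).eventually (hf.eventually_eq _)
    filter_upwards [e1, e2] with p hp hp'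
    rw [hp, hp']
  have h3 : ∀ᶠ c in 𝓝 (⟨c0, hc0⟩ : {c : Matrix (Fin m) (Fin m) E // c.det ≠ 0}),
      ∀ u ∈ u22 '' K, (f : Alt (2 * m) E → ℂ) (isoF c.1 c.2 u) =
        (f : Alt (2 * m) E → ℂ) (isoF c0 hc0 u) :=
    hKu.eventually_forall_of_forall_eventually fun u _ => h1 u
  have h4 : ∀ (c : Matrix (Fin m) (Fin m) E) (hc : c.det ≠ 0) (u : Up m → E), u ∉ u22 '' K →
      (f : Alt (2 * m) E → ℂ) (isoF c hc u) = 0 := by
    intro c hc u hu
    refine hfK _ fun hK' => hu ⟨_, hK', isoF_u22 c hc u⟩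
  rw [nhds_subtype_eq_comap] at h3
  obtain ⟨U, hU, hU'⟩ := Filter.mem_comap.1 h3
  filter_upwards [hU] with c hcU hc u
  by_cases hu : u ∈ u22 '' K
  · exact hU' (show ((⟨c, hc⟩ : {c : Matrix (Fin m) (Fin m) E // c.det ≠ 0}) :
      Matrix (Fin m) (Fin m) E) ∈ U from hcU) u hu
  · rw [h4 c hc u hu, h4 c0 hc0 u hu]

/-- Uniform local constancy in the lower right block. -/
theorem unif_const' (f : Sch (Alt (2 * m) E) ℂ) (c0 : Matrix (Fin m) (Fin m) E)
    (hc0 : c0.det ≠ 0) : ∃ δ : ℝ, 0 < δ ∧ ∀ u w : Up m → E, ‖w‖ ≤ δ →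
      (f : Alt (2 * m) E → ℂ) (isoF c0 hc0 (u + w)) = (f : Alt (2 * m) E → ℂ) (isoF c0 hc0 u) := by
  obtain ⟨hf, K, hK, hfK⟩ := f.2
  have hKu : IsCompact (u22 '' K) := hK.image continuous_u22
  have hcont : Continuous fun u : Up m → E => isoF c0 hc0 u :=
    continuous_isoF.comp ((continuous_const
      (y := (⟨c0, hc0⟩ : {c : Matrix (Fin m) (Fin m) E // c.det ≠ 0}))).prodMk continuous_id)
  have h1 : ∀ u, ∀ᶠ p : (Up m → E) × (Up m → E) in 𝓝 (0, u),
      (f : Alt (2 * m) E → ℂ) (isoF c0 hc0 (p.2 + p.1)) =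
        (f : Alt (2 * m) E → ℂ) (isoF c0 hc0 p.2) := by
    intro u
    have t1 : Tendsto (fun p : (Up m → E) × (Up m → E) => isoF c0 hc0 (p.2 + p.1)) (𝓝 (0, u))
        (𝓝 (isoF c0 hc0 u)) := by
      have h7 : Continuous fun p : (Up m → E) × (Up m → E) => isoF c0 hc0 (p.2 + p.1) :=
        hcont.comp (continuous_snd.add continuous_fst)
      have h8 := h7.tendsto ((0, u) : (Up m → E) × (Up m → E))
      simp only [add_zero] at h8
      exact h8
    have t2 : Tendsto (fun p : (Up m → E) × (Up m → E) => isoF c0 hc0 p.2) (𝓝 (0, u))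
        (𝓝 (isoF c0 hc0 u)) :=
      (hcont.comp continuous_snd).tendsto ((0, u) : (Up m → E) × (Up m → E))
    filter_upwards [t1.eventually (hf.eventually_eq _), t2.eventually (hf.eventually_eq _)]
      with p hp hp'
    rw [hp, hp']
  have h3 : ∀ᶠ w in 𝓝 (0 : Up m → E), ∀ u ∈ u22 '' K,
      (f : Alt (2 * m) E → ℂ) (isoF c0 hc0 (u + w)) =
        (f : Alt (2 * m) E → ℂ) (isoF c0 hc0 u) :=
    hKu.eventually_forall_of_forall_eventually fun u _ => h1 u
  have h4 : ∀ u : Up m → E, u ∉ u22 '' K → (f : Alt (2 * m) E → ℂ) (isoF c0 hc0 u) = 0 := by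
    intro u hu
    refine hfK _ fun hK' => hu ⟨_, hK', isoF_u22 c0 hc0 u⟩
  obtain ⟨ε, hε, hb⟩ := Metric.eventually_nhds_iff.1 h3
  refine ⟨ε / 2, by positivity, fun u w hw => ?_⟩
  have hw' : ∀ w' : Up m → E, ‖w'‖ ≤ ε / 2 → dist w' 0 < ε := fun w' h => by
    rw [dist_zero_right]
    linarith
  by_cases hu : u ∈ u22 '' K
  · exact hb (hw' w hw) u hu
  · by_cases hu' : u + w ∈ u22 '' K
    · have h5 := hb (hw' (-w) (by rwa [norm_neg])) (u + w) hu'
      rw [add_neg_cancel_right] at h5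
      exact h5.symm
    · rw [h4 u hu, h4 _ hu']

/-- `M_m(E)` has a basis of clopen sets. -/
theorem mat_clopen_basis [IsUltrametricDist E] [ProperSpace E] (c0 : Matrix (Fin m) (Fin m) E)
    (V : Set (Matrix (Fin m) (Fin m) E)) (hV : V ∈ 𝓝 c0) :
    ∃ W : Set (Matrix (Fin m) (Fin m) E), IsClopen W ∧ c0 ∈ W ∧ W ⊆ V := by
  have : TotallyDisconnectedSpace (Matrix (Fin m) (Fin m) E) :=
    inferInstanceAs (TotallyDisconnectedSpace (Fin m → Fin m → E))
  have : LocallyCompactSpace (Matrix (Fin m) (Fin m) E) :=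
    inferInstanceAs (LocallyCompactSpace (Fin m → Fin m → E))
  obtain ⟨K, hK, hBK, hKC⟩ :=
    (loc_compact_Haus_tot_disc_of_zero_dim (H := Matrix (Fin m) (Fin m) E)).mem_nhds_iff.1 hV
  exact ⟨K, hK, hBK, hKC⟩

end top

/-! ### The vanishing -/

section kill

variable {E : Type} [NontriviallyNormedField E] [IsUltrametricDist E] [ProperSpace E]
  [MeasurableSpace E] [BorelSpace E] {m : ℕ} {V : Type} [AddCommGroup V] [Module ℂ V]

omit [IsUltrametricDist E] in
theorem absE_inv (z : Eˣ) : absE z⁻¹ = (absE z)⁻¹ := by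
  have h := absE_mul z z⁻¹
  rw [mul_inv_cancel, absE_one] at h
  exact eq_inv_of_mul_eq_one_right h.symm

omit [IsUltrametricDist E] in
theorem ad_scalar (z : Eˣ) : ad (Matrix.GeneralLinearGroup.scalar (Fin m) z) = absE z ^ m := by
  have h1 : Matrix.GeneralLinearGroup.det (Matrix.GeneralLinearGroup.scalar (Fin m) z) = z ^ m := by
    apply Units.ext
    show (Matrix.diagonal fun _ : Fin m => (z : E)).det = ((z ^ m : Eˣ) : E)
    rw [Matrix.det_diagonal, Finset.prod_const, Finset.card_univ, Fintype.card_fin,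
      Units.val_pow_eq_pow_val]
  unfold ad
  rw [h1]
  unfold absE
  rw [map_pow, NNReal.coe_pow]

omit [IsUltrametricDist E] in
/-- Translations in the lower right block do not change the value of `φ`. -/
theorem kill_transl (h2 : (2 : E) ≠ 0) {π : GL (Fin m) E →* Module.End ℂ V} {s : ℝ}
    (φ : Sch (Alt (2 * m) E) ℂ →ₗ[ℂ] V ⊗[ℂ] V)
    (hφ : ∀ a d b f f', IsTransl (pel a d b) f f' → φ f' = rho π s (a, d) (φ f))
    (h0 : ∀ f : Sch (Alt (2 * m) E) ℂ, (∀ B : Alt (2 * m) E, b11 B.1 = 0 →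
      (f : Alt (2 * m) E → ℂ) B = 0) → φ f = 0)
    (c0 : Matrix (Fin m) (Fin m) E) (W : Set (Matrix (Fin m) (Fin m) E)) (y : Up m → E) (r : ℝ)
    (hW : ∀ c ∈ W, ‖shv c0 c y - y‖ ≤ r) (g g' : Sch (Alt (2 * m) E) ℂ)
    (hgW : ∀ c hc u, c ∉ W → (g : Alt (2 * m) E → ℂ) (isoF c hc u) = 0)
    (hgr : ∀ c hc u w, ‖w‖ ≤ r →
      (g : Alt (2 * m) E → ℂ) (isoF c hc (u + w)) = (g : Alt (2 * m) E → ℂ) (isoF c hc u))
    (hg' : ∀ c hc u, (g' : Alt (2 * m) E → ℂ) (isoF c hc u) =
      (g : Alt (2 * m) E → ℂ) (isoF c hc (u - y))) : φ g' = φ g := by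
  set n : GL (Fin (2 * m)) E :=
    pel (1 : GL (Fin m) E) 1 ((2 : E)⁻¹ • ((c0⁻¹).transpose * altM y)) with hn
  have h1 : φ (altRep (2 * m) E n g) = φ g := by
    have h3 := hφ 1 1 ((2 : E)⁻¹ • ((c0⁻¹).transpose * altM y)) g (altRep (2 * m) E n g)
      ((isTransl_iff _ _ _).2 rfl)
    rw [h3]
    have h4 : ((1 : GL (Fin m) E), (1 : GL (Fin m) E)) = 1 := rfl
    rw [h4, map_one]
    rfl
  rw [← h1, ← sub_eq_zero, ← map_sub]
  refine h0 _ ?_
  intro B hB
  obtain ⟨c, hc, u, rfl⟩ := exists_isoF h2 hB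
  show (g' : Alt (2 * m) E → ℂ) (isoF c hc u) -
    (altRep (2 * m) E n g : Alt (2 * m) E → ℂ) (isoF c hc u) = 0
  rw [altRep_apply, hn, pel_isoF h2, hg', sub_eq_zero]
  by_cases hcW : c ∈ W
  · have h5 : u - y = (u - shv c0 c y) + (shv c0 c y - y) := by abel
    rw [h5, hgr c hc _ _ (hW c hcW)]
  · rw [hgW c hc _ hcW, hgW c hc _ hcW]

omit [IsUltrametricDist E] in
/-- The elements `(z 0; 0 z⁻¹)` scale `φ`. -/
theorem kill_zeta {π : GL (Fin m) E →* Module.End ℂ V} (hu : UnitCentral π)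
    (φ : Sch (Alt (2 * m) E) ℂ →ₗ[ℂ] V ⊗[ℂ] V)
    (hφ : ∀ a d b f f', IsTransl (pel a d b) f f' →
      φ f' = rho π (((m : ℝ) + 1) / 2) (a, d) (φ f)) (z : Eˣ) :
    ∃ l : ℂ, ‖l‖ = absE z ^ (m * (m + 1)) ∧ ∀ f : Sch (Alt (2 * m) E) ℂ,
      ∃ f' : Sch (Alt (2 * m) E) ℂ, (∀ c hc u, (f' : Alt (2 * m) E → ℂ) (isoF c hc u) =
        (f : Alt (2 * m) E → ℂ) (isoF c hc (((z : E) ^ 2)⁻¹ • u))) ∧ φ f' = l • φ f := by
  obtain ⟨χ, hχ, hπχ⟩ := hu
  set s : ℝ := ((m : ℝ) + 1) / 2 with hs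
  have hz : 0 < absE z := absE_pos z
  have e1 : ad (Matrix.GeneralLinearGroup.scalar (Fin m) z) = absE z ^ m := ad_scalar z
  have e2 : ad (Matrix.GeneralLinearGroup.scalar (Fin m) z⁻¹) = (absE z ^ m)⁻¹ := by
    rw [ad_scalar, absE_inv, inv_pow]
  refine ⟨((ad (Matrix.GeneralLinearGroup.scalar (Fin m) z) ^ s *
    ad (Matrix.GeneralLinearGroup.scalar (Fin m) z⁻¹) ^ (-s) : ℝ) : ℂ) * (χ z * χ z⁻¹), ?_, ?_⟩
  · rw [norm_mul, norm_mul, hχ, hχ, mul_one, mul_one, e1, e2, Complex.norm_real,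
      Real.norm_of_nonneg (by positivity), Real.inv_rpow (by positivity),
      Real.rpow_neg (by positivity), inv_inv, ← Real.rpow_add (by positivity)]
    have e3 : s + s = ((m + 1 : ℕ) : ℝ) := by
      rw [hs]
      push_cast
      ring
    rw [e3, Real.rpow_natCast, ← pow_mul]
  · intro f
    refine ⟨altRep (2 * m) E (pel (Matrix.GeneralLinearGroup.scalar (Fin m) z)
      (Matrix.GeneralLinearGroup.scalar (Fin m) z⁻¹) 0) f, ?_, ?_⟩
    · intro c hc u
      rw [altRep_apply, zeta_isoF]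
    · rw [hφ _ _ _ _ _ ((isTransl_iff _ _ _).2 rfl)]
      have h3 : rho π s (Matrix.GeneralLinearGroup.scalar (Fin m) z,
          Matrix.GeneralLinearGroup.scalar (Fin m) z⁻¹) =
          (((ad (Matrix.GeneralLinearGroup.scalar (Fin m) z) ^ s *
            ad (Matrix.GeneralLinearGroup.scalar (Fin m) z⁻¹) ^ (-s) : ℝ) : ℂ) * (χ z * χ z⁻¹)) •
              (1 : Module.End ℂ (V ⊗[ℂ] V)) := by
        apply TensorProduct.ext'
        intro v w
        rw [rho_tmul, hπχ, hπχ, TensorProduct.tmul_smul, ← TensorProduct.smul_tmul', smul_smul,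
          smul_smul]
        show _ = (_ : ℂ) • (v ⊗ₜ[ℂ] w)
        congr 1
        ring
      rw [h3]
      rfl

omit [IsUltrametricDist E] in
/-- The measure of a scaled ball. -/
theorem ball_scale (h2 : (2 : E) ≠ 0) (z : Eˣ) (μ : Measure (Up m → E)) [μ.IsAddHaarMeasure]
    (δ : ℝ) : μ (Metric.closedBall 0 (‖(z : E)‖ ^ 2 * δ)) =
      ((md (z : E) ^ (m * (m - 1)) : ℝ≥0) : ℝ≥0∞) * μ (Metric.closedBall 0 δ) := by
  have hz : (z : E) ≠ 0 := z.ne_zero
  have hz2 : (z : E) ^ 2 ≠ 0 := pow_ne_zero _ hz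
  have e1 : ((Matrix.GeneralLinearGroup.scalar (Fin m) z : GL (Fin m) E) :
      Matrix (Fin m) (Fin m) E) = (z : E) • (1 : Matrix (Fin m) (Fin m) E) := by
    rw [Matrix.smul_one_eq_diagonal]
    rfl
  have hT : ∀ u : Up m → E, altE h2 (Matrix.GeneralLinearGroup.scalar (Fin m) z) u =
      (z : E) ^ 2 • u := by
    intro u
    have h3 := altM_altE h2 (Matrix.GeneralLinearGroup.scalar (Fin m) z) u
    rw [e1, Matrix.transpose_smul, Matrix.transpose_one, Matrix.smul_mul, Matrix.one_mul,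
      Matrix.smul_mul, Matrix.mul_smul, Matrix.mul_one, smul_smul, ← sq, ← altM_smul] at h3
    rw [← upM_altM (altE h2 (Matrix.GeneralLinearGroup.scalar (Fin m) z) u), h3, upM_altM]
  have h4 := image_linearEquiv μ (altE h2 (Matrix.GeneralLinearGroup.scalar (Fin m) z))
    (Metric.closedBall 0 δ)
  rw [det_altE, e1, Matrix.det_smul, Matrix.det_one, mul_one, Fintype.card_fin, ← pow_mul,
    md_pow] at h4
  rw [← h4]
  congr 1
  ext u
  rw [mem_closedBall_zero_iff]
  constructor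
  · intro h
    refine ⟨((z : E) ^ 2)⁻¹ • u, ?_, ?_⟩
    · rw [mem_closedBall_zero_iff, norm_smul, norm_inv, norm_pow]
      rw [inv_mul_le_iff₀ (by positivity)]
      exact h
    · rw [hT, smul_smul, mul_inv_cancel₀ hz2, one_smul]
  · rintro ⟨v, hv, rfl⟩
    rw [mem_closedBall_zero_iff] at hv
    rw [hT, norm_smul, norm_pow]
    exact mul_le_mul_of_nonneg_left hv (by positivity)

theorem cball_eq_iff {V : Type} [NormedAddCommGroup V] [IsUltrametricDist V] {u v : V} {r : ℝ}
    (hr : 0 ≤ r) : Metric.closedBall u r = Metric.closedBall v r ↔ ‖u - v‖ ≤ r := by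
  constructor
  · intro h
    have h1 : u ∈ Metric.closedBall v r := by
      rw [← h]
      exact Metric.mem_closedBall_self hr
    rwa [Metric.mem_closedBall, dist_eq_norm] at h1
  · intro h
    exact (IsUltrametricDist.closedBall_eq_of_mem
      (by rwa [Metric.mem_closedBall, dist_eq_norm])).symm

open Classical in
/-- The pieces are killed. -/
theorem kill_piece (hm : 0 < m) (h2 : (2 : E) ≠ 0) {π : GL (Fin m) E →* Module.End ℂ V}
    (hu : UnitCentral π) (φ : Sch (Alt (2 * m) E) ℂ →ₗ[ℂ] V ⊗[ℂ] V)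
    (hφ : ∀ a d b f f', IsTransl (pel a d b) f f' →
      φ f' = rho π (((m : ℝ) + 1) / 2) (a, d) (φ f))
    (h0 : ∀ f : Sch (Alt (2 * m) E) ℂ, (∀ B : Alt (2 * m) E, b11 B.1 = 0 →
      (f : Alt (2 * m) E → ℂ) B = 0) → φ f = 0)
    (z : Eˣ) (hz : ‖(z : E)‖ < 1)
    (c0 : Matrix (Fin m) (Fin m) E) (W : Set (Matrix (Fin m) (Fin m) E)) (R δ : ℝ) (hδ : 0 < δ)
    (hδR : δ ≤ R)
    (hW : ∀ c ∈ W, ∀ y : Up m → E, ‖y‖ ≤ R → ‖shv c0 c y - y‖ ≤ ‖(z : E)‖ ^ 2 * δ)
    (x0 : Up m → E) (hx0 : ‖x0‖ ≤ R) (a : ℂ) (g : Sch (Alt (2 * m) E) ℂ)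
    (hg : ∀ c hc u, (g : Alt (2 * m) E → ℂ) (isoF c hc u) =
      if c ∈ W ∧ ‖u - x0‖ ≤ δ then a else 0)
    (hsupp : ∀ B, (g : Alt (2 * m) E → ℂ) B ≠ 0 → ‖u22 B - x0‖ ≤ δ) : φ g = 0 := by
  have hz0 : (z : E) ≠ 0 := z.ne_zero
  have hzn : 0 < ‖(z : E)‖ := norm_pos_iff.2 hz0
  set r : ℝ := ‖(z : E)‖ ^ 2 * δ with hr
  have hr0 : 0 < r := by positivity
  have hrδ : r ≤ δ := by
    rw [hr]
    have : ‖(z : E)‖ ^ 2 ≤ 1 := pow_le_one₀ hzn.le hz.le
    nlinarith
  have hscale : ∀ w : Up m → E, ‖((z : E) ^ 2)⁻¹ • w‖ ≤ δ ↔ ‖w‖ ≤ r := by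
    intro w
    rw [norm_smul, norm_inv, norm_pow, inv_mul_le_iff₀ (by positivity)]
  obtain ⟨J, hJ1, hJ2, hJ3⟩ := ball_count (Measure.addHaar : Measure (Up m → E)) x0 hr0 hrδ
  obtain ⟨l, hl, hlf⟩ := kill_zeta hu φ hφ z
  obtain ⟨zg, hzg, hφzg⟩ := hlf g
  have hπ : IsLocallyConstant fun B : Alt (2 * m) E => Metric.closedBall (u22 B) r :=
    (closedBall_locConst hr0).comp_continuous continuous_u22
  have hsum := sum_cut_fibre _ hπ g J fun B hB => hJ1 _ (by
    rw [Metric.mem_closedBall, dist_eq_norm]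
    exact hsupp B hB)
  have key : ∀ b ∈ J, φ (cut ((fun B : Alt (2 * m) E => Metric.closedBall (u22 B) r) ⁻¹' {b})
      (hπ.isClopen_fiber b) g) = l • φ g := by
    intro b hb
    obtain ⟨xb, hxb, rfl⟩ := hJ2 b hb
    rw [Metric.mem_closedBall, dist_eq_norm] at hxb
    rw [← hφzg]
    refine kill_transl h2 φ hφ h0 c0 W (xb - (z : E) ^ 2 • x0) r ?_ zg _ ?_ ?_ ?_
    · intro c hc
      refine hW c hc _ ?_
      have h3 : ‖xb‖ ≤ R := by
        have : xb = (xb - x0) + x0 := by abel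
        rw [this]
        exact (IsUltrametricDist.norm_add_le_max _ _).trans (max_le (hxb.trans hδR) hx0)
      have h4 : ‖(z : E) ^ 2 • x0‖ ≤ R := by
        rw [norm_smul, norm_pow]
        have : ‖(z : E)‖ ^ 2 ≤ 1 := pow_le_one₀ hzn.le hz.le
        nlinarith [norm_nonneg x0]
      exact (um_sub_le _ _).trans (max_le h3 h4)
    · intro c hc u hcW
      rw [hzg, hg, if_neg fun h => hcW h.1]
    · intro c hc u w hw
      rw [hzg, hzg, hg, hg]
      have h5 : ‖((z : E) ^ 2)⁻¹ • (u + w) - x0‖ ≤ δ ↔ ‖((z : E) ^ 2)⁻¹ • u - x0‖ ≤ δ := by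
        have hw' := (hscale w).2 hw
        constructor
        · intro h
          have : ((z : E) ^ 2)⁻¹ • u - x0 =
              (((z : E) ^ 2)⁻¹ • (u + w) - x0) - ((z : E) ^ 2)⁻¹ • w := by
            rw [smul_add]; abel
          rw [this]
          exact (um_sub_le _ _).trans (max_le h hw')
        · intro h
          have : ((z : E) ^ 2)⁻¹ • (u + w) - x0 =
              (((z : E) ^ 2)⁻¹ • u - x0) + ((z : E) ^ 2)⁻¹ • w := by
            rw [smul_add]; abel
          rw [this]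
          exact (IsUltrametricDist.norm_add_le_max _ _).trans (max_le h hw')
      simp only [h5]
    · intro c hc u
      rw [hzg, hg]
      have h6 : ((z : E) ^ 2)⁻¹ • (u - (xb - (z : E) ^ 2 • x0)) - x0 =
          ((z : E) ^ 2)⁻¹ • (u - xb) := by
        have : u - (xb - (z : E) ^ 2 • x0) = (u - xb) + (z : E) ^ 2 • x0 := by abel
        rw [this, smul_add, smul_smul, inv_mul_cancel₀ (pow_ne_zero 2 hz0), one_smul,
          add_sub_cancel_right]
      have h6' : ‖((z : E) ^ 2)⁻¹ • (u - (xb - (z : E) ^ 2 • x0)) - x0‖ ≤ δ ↔ ‖u - xb‖ ≤ r := by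
        rw [h6, hscale]
      by_cases hub : ‖u - xb‖ ≤ r
      · have h7 : isoF c hc u ∈ (fun B : Alt (2 * m) E => Metric.closedBall (u22 B) r) ⁻¹'
            {Metric.closedBall xb r} := by
          show Metric.closedBall (u22 (isoF c hc u)) r = Metric.closedBall xb r
          rw [isoF_u22, cball_eq_iff hr0.le]
          exact hub
        rw [cut_mem _ _ h7, hg]
        have h8 : ‖u - x0‖ ≤ δ := by
          have : u - x0 = (u - xb) + (xb - x0) := by abel
          rw [this]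
          exact (IsUltrametricDist.norm_add_le_max _ _).trans (max_le (hub.trans hrδ) hxb)
        by_cases hcW : c ∈ W
        · rw [if_pos ⟨hcW, h8⟩, if_pos ⟨hcW, h6'.2 hub⟩]
        · rw [if_neg fun h => hcW h.1, if_neg fun h => hcW h.1]
      · have h7 : isoF c hc u ∉ (fun B : Alt (2 * m) E => Metric.closedBall (u22 B) r) ⁻¹'
            {Metric.closedBall xb r} := by
          intro h
          apply hub
          have h8 : Metric.closedBall (u22 (isoF c hc u)) r = Metric.closedBall xb r := h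
          rwa [isoF_u22, cball_eq_iff hr0.le] at h8
        rw [cut_notMem _ _ h7, if_neg fun h => hub (h6'.1 h.2)]
  have h9 : φ g = (J.card : ℂ) • l • φ g := by
    conv_lhs => rw [hsum]
    rw [map_sum, Finset.sum_congr rfl key, Finset.sum_const, Nat.cast_smul_eq_nsmul]
  have hmd : absE z = (md (z : E) : ℝ) := by
    unfold absE
    rw [md_units]
  have hmd0 : 0 < (md (z : E) : ℝ) := by
    rw [← hmd]
    exact absE_pos z
  have hmd1 : (md (z : E) : ℝ) < 1 := by
    exact_mod_cast md_lt_one hz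
  have hcard : (J.card : ℝ) * (md (z : E) : ℝ) ^ (m * (m - 1)) = 1 := by
    have hs1 : (Measure.addHaar : Measure (Up m → E)) (Metric.closedBall 0 δ) ≠ ∞ :=
      (isCompact_closedBall 0 δ).measure_lt_top.ne
    have hs0 : (Measure.addHaar : Measure (Up m → E)) (Metric.closedBall 0 δ) ≠ 0 :=
      (Metric.measure_closedBall_pos _ 0 hδ).ne'
    rw [hr, ball_scale h2, ← mul_assoc] at hJ3
    have h10 := (ENNReal.mul_left_inj hs0 hs1).1 (hJ3.trans (one_mul _).symm)
    have h11 : ((J.card * md (z : E) ^ (m * (m - 1)) : ℝ≥0) : ℝ≥0∞) = ((1 : ℝ≥0) : ℝ≥0∞) := by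
      rw [ENNReal.coe_mul, ENNReal.coe_natCast, ENNReal.coe_one]
      exact h10
    have h12 := ENNReal.coe_injective h11
    exact_mod_cast congrArg NNReal.toReal h12
  have hnorm : ‖(J.card : ℂ) * l‖ < 1 := by
    rw [norm_mul, hl, hmd, Complex.norm_natCast]
    obtain ⟨k, rfl⟩ := Nat.exists_eq_succ_of_ne_zero hm.ne'
    have h13 : (k.succ) * (k.succ + 1) = k.succ * (k.succ - 1) + 2 * k.succ := by
      rw [Nat.succ_sub_one]
      have : k.succ = k + 1 := rfl
      rw [this]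
      ring
    rw [h13, pow_add, ← mul_assoc, hcard, one_mul]
    exact pow_lt_one₀ hmd0.le hmd1 (by omega)
  have h14 : (1 - (J.card : ℂ) * l) • φ g = 0 := by
    rw [sub_smul, one_smul, ← smul_smul, ← h9, sub_self]
  rcases smul_eq_zero.1 h14 with h15 | h15
  · exfalso
    have h16 : (J.card : ℂ) * l = 1 := (sub_eq_zero.1 h15).symm
    rw [h16, norm_one] at hnorm
    exact lt_irrefl _ hnorm
  · exact h15

/-- **(4a), the closed part.** -/
theorem closed_kill (hm : 0 < m) (h2 : (2 : E) ≠ 0) {π : GL (Fin m) E →* Module.End ℂ V}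
    (_hπ : IsSmoothRep π) (hu : UnitCentral π)
    (φ : Sch (Alt (2 * m) E) ℂ →ₗ[ℂ] V ⊗[ℂ] V)
    (hφ : ∀ a d b f f', IsTransl (pel a d b) f f' →
      φ f' = rho π (((m : ℝ) + 1) / 2) (a, d) (φ f))
    (h0 : ∀ f : Sch (Alt (2 * m) E) ℂ, (∀ B : Alt (2 * m) E, b11 B.1 = 0 →
      (f : Alt (2 * m) E → ℂ) B = 0) → φ f = 0) : φ = 0 := by
  classical
  apply LinearMap.ext
  intro f
  show f ∈ LinearMap.ker φ
  obtain ⟨z', hz'0, hz'1⟩ := NormedField.exists_norm_lt_one E
  set z : Eˣ := Units.mk0 z' (norm_pos_iff.1 hz'0) with hz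
  have hz1 : ‖(z : E)‖ < 1 := hz'1
  have hzn : 0 < ‖(z : E)‖ := hz'0
  obtain ⟨hf, K, hK, hfK⟩ := f.2
  have h12 : Continuous fun B : Alt (2 * m) E => b12 B.1 := continuous_b12 continuous_alt_val
  have h11 : Continuous fun B : Alt (2 * m) E => b11 B.1 := continuous_b11 continuous_alt_val
  refine mem_of_cut_nhds (fun B : Alt (2 * m) E => b12 B.1) h12 _ f ?_
  intro c0
  by_cases hc0 : c0.det = 0
  · have hC : IsClosed ((fun B : Alt (2 * m) E => b12 B.1) '' (K ∩ {B | b11 B.1 = 0})) :=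
      ((hK.inter_right (isClosed_eq h11 continuous_const)).image h12).isClosed
    have hc0C : c0 ∉ (fun B : Alt (2 * m) E => b12 B.1) '' (K ∩ {B | b11 B.1 = 0}) := by
      rintro ⟨B, ⟨_, hB⟩, rfl⟩
      exact b12_det_ne hB hc0
    obtain ⟨W, hW, hcW, hWs⟩ := mat_clopen_basis c0 _ (hC.isOpen_compl.mem_nhds hc0C)
    refine ⟨W, hW, hcW, fun W' hW' hs => ?_⟩
    rw [LinearMap.mem_ker]
    refine h0 _ fun B hB => ?_
    by_cases hBW : b12 B.1 ∈ W'
    · rw [cut_mem _ _ (show B ∈ (fun B : Alt (2 * m) E => b12 B.1) ⁻¹' W' from hBW)]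
      exact hfK B fun hBK => hWs (hs hBW) ⟨B, ⟨hBK, hB⟩, rfl⟩
    · exact cut_notMem _ _ (show B ∉ (fun B : Alt (2 * m) E => b12 B.1) ⁻¹' W' from hBW)
  · obtain ⟨δ, hδ, hδc⟩ := unif_const' f c0 hc0
    have hKu : IsCompact (u22 '' K) := hK.image continuous_u22
    obtain ⟨R', hR'⟩ := hKu.isBounded.exists_norm_le
    set R : ℝ := max R' δ with hR
    have hδR : δ ≤ R := le_max_right _ _
    have hsh : ∀ᶠ c in 𝓝 c0, ∀ y ∈ Metric.closedBall (0 : Up m → E) R,
        ‖shv c0 c y - y‖ ≤ ‖(z : E)‖ ^ 2 * δ := by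
      refine (isCompact_closedBall (0 : Up m → E) R).eventually_forall_of_forall_eventually ?_
      intro y _
      have hc : Continuous fun p : Matrix (Fin m) (Fin m) E × (Up m → E) =>
          ‖shv c0 p.1 p.2 - p.2‖ := ((continuous_shv c0).sub continuous_snd).norm
      have hlt : ‖shv c0 c0 y - y‖ < ‖(z : E)‖ ^ 2 * δ := by
        rw [shv_self h2 hc0, sub_self, norm_zero]
        positivity
      exact ((hc.tendsto (c0, y)).eventually (gt_mem_nhds hlt)).mono fun p hp => hp.le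
    obtain ⟨W, hW, hcW, hWs⟩ := mat_clopen_basis c0 _ ((unif_const f c0 hc0).and hsh)
    refine ⟨W, hW, hcW, fun W' hW' hs => ?_⟩
    have hball : IsLocallyConstant fun B : Alt (2 * m) E => Metric.closedBall (u22 B) δ :=
      (closedBall_locConst hδ).comp_continuous continuous_u22
    refine mem_of_cut_fibre _ hball _ _ ?_
    intro b
    rw [LinearMap.mem_ker]
    by_cases hb : ∃ x0 : Up m → E, ‖x0‖ ≤ R ∧ Metric.closedBall x0 δ = b
    · obtain ⟨x0, hx0, rfl⟩ := hb
      refine kill_piece hm h2 hu φ hφ h0 z hz1 c0 W' R δ hδ hδR ?_ x0 hx0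
        ((f : Alt (2 * m) E → ℂ) (isoF c0 hc0 x0)) _ ?_ ?_
      · intro c hc y hy
        exact (hWs (hs hc)).2 y (by rwa [mem_closedBall_zero_iff])
      · intro c hc u
        by_cases hu0 : ‖u - x0‖ ≤ δ
        · have hm1 : isoF c hc u ∈ (fun B : Alt (2 * m) E => Metric.closedBall (u22 B) δ) ⁻¹'
              {Metric.closedBall x0 δ} := by
            show Metric.closedBall (u22 (isoF c hc u)) δ = Metric.closedBall x0 δ
            rw [isoF_u22, cball_eq_iff hδ.le]
            exact hu0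
          rw [cut_mem _ _ hm1]
          by_cases hcW' : c ∈ W'
          · have hm2 : isoF c hc u ∈ (fun B : Alt (2 * m) E => b12 B.1) ⁻¹' W' := by
              show b12 (isoF c hc u).1 ∈ W'
              rwa [isoF_b12]
            rw [cut_mem _ _ hm2, if_pos ⟨hcW', hu0⟩, (hWs (hs hcW')).1 hc u]
            have h3 := hδc x0 (u - x0) hu0
            rwa [add_sub_cancel] at h3
          · have hm2 : isoF c hc u ∉ (fun B : Alt (2 * m) E => b12 B.1) ⁻¹' W' := by
              show b12 (isoF c hc u).1 ∉ W'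
              rwa [isoF_b12]
            rw [cut_notMem _ _ hm2, if_neg fun h => hcW' h.1]
        · have hm1 : isoF c hc u ∉ (fun B : Alt (2 * m) E => Metric.closedBall (u22 B) δ) ⁻¹'
              {Metric.closedBall x0 δ} := by
            intro h
            apply hu0
            have h3 : Metric.closedBall (u22 (isoF c hc u)) δ = Metric.closedBall x0 δ := h
            rwa [isoF_u22, cball_eq_iff hδ.le] at h3
          rw [cut_notMem _ _ hm1, if_neg fun h => hu0 h.2]
      · intro B hB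
        by_contra hcon
        apply hB
        refine cut_notMem _ _ ?_
        intro h
        apply hcon
        have h3 : Metric.closedBall (u22 B) δ = Metric.closedBall x0 δ := h
        rwa [cball_eq_iff hδ.le] at h3
    · refine h0 _ fun B hB => ?_
      by_cases hm1 : B ∈ (fun B : Alt (2 * m) E => Metric.closedBall (u22 B) δ) ⁻¹' {b}
      · rw [cut_mem _ _ hm1]
        by_cases hm2 : B ∈ (fun B : Alt (2 * m) E => b12 B.1) ⁻¹' W'
        · rw [cut_mem _ _ hm2]
          by_contra hne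
          apply hb
          refine ⟨u22 B, ?_, hm1⟩
          refine (hR' _ ⟨B, ?_, rfl⟩).trans (le_max_left _ _)
          by_contra hBK
          exact hne (hfK B hBK)
        · exact cut_notMem _ _ hm2
      · exact cut_notMem _ _ hm1

end kill

end SpW
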