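import Pool.Agent.Work.MP_3615d2_al.BPUni
import Pool.Agent.Work.MP_3615d2_al.BP
import Pool.Agent.Work.MP_3615d2_al.SchExt
import Pool.Agent.Work.MP_3615d2_al.RankSec

/-!
MP_3615d2_al, Theorem B: functionals fixed by rank one transvections; the elements `1 - M B` of the
parabolic subgroup and of the symplectic group of `B`.
-/

open Filter Topology Matrix

namespace SpW

section fixed

variable {E : Type} [Field E] {m : ℕ} {V : Type} [AddCommGroup V] [Module ℂ V]

/-- A functional fixed by the elements `1 + (β w) kᵗ`, `β k = 0`, is zero if `π` has no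
coinvariants for the unipotent radical of type `(r, m - r)`, `r = rank β`. -/
theorem fixed_zero {β : Matrix (Fin m) (Fin m) E} (hβ : β.transpose = -β)
    {π : GL (Fin m) E →* Module.End ℂ V} (hc : cvN π (Nk m β.rank E) ⊤ = ⊤) (lam : V →ₗ[ℂ] ℂ)
    (hlam : ∀ (g : GL (Fin m) E) (w k : Fin m → E), β.mulVec k = 0 →
      (g : Matrix (Fin m) (Fin m) E) = 1 + vecMulVec (β.mulVec w) k → ∀ v, lam (π g v) = lam v) :
    lam = 0 := by
  obtain ⟨h, h1, h2⟩ := exists_adapted β
  -- rows of `h⁻¹`
  have hrow : ∀ l : Fin m, β.rank ≤ l.1 →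
      β.mulVec (fun j => ((h⁻¹ : GL (Fin m) E) : Matrix (Fin m) (Fin m) E) l j) = 0 := by
    intro l hl
    have h3 : ∀ w, (fun j => ((h⁻¹ : GL (Fin m) E) : Matrix (Fin m) (Fin m) E) l j) ⬝ᵥ
        β.mulVec w = 0 := fun w => h2 w l hl
    have h4 : ∀ w, β.mulVec (fun j => ((h⁻¹ : GL (Fin m) E) : Matrix (Fin m) (Fin m) E) l j) ⬝ᵥ
        w = 0 := by
      intro w
      have h5 := h3 w
      rw [Matrix.dotProduct_mulVec, ← Matrix.mulVec_transpose, hβ, Matrix.neg_mulVec,
        neg_dotProduct, neg_eq_zero] at h5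
      exact h5
    exact dotProduct_eq_zero _ h4
  let P : Matrix (Fin m) (Fin m) E → Prop := fun C =>
    (∃ g : GL (Fin m) E, (g : Matrix (Fin m) (Fin m) E) = 1 + C ∧ ∀ v, lam (π g v) = lam v) ∧
      C * β = 0 ∧ ∃ D, C = β * D
  have hP0 : P 0 := by
    refine ⟨⟨1, by rw [add_zero]; rfl, fun v => by rw [map_one]; rfl⟩, Matrix.zero_mul _, 0, ?_⟩
    rw [Matrix.mul_zero]
  have hPadd : ∀ a b, P a → P b → P (a + b) := by
    rintro a b ⟨⟨g, hg, hgl⟩, ha, D, hD⟩ ⟨⟨g', hg', hgl'⟩, hb, D', hD'⟩
    refine ⟨⟨g * g', ?_, ?_⟩, ?_, D + D', ?_⟩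
    · rw [Units.val_mul, hg, hg', add_mul, one_mul, mul_add, mul_one]
      have : a * b = 0 := by
        rw [hD', ← Matrix.mul_assoc, ha, Matrix.zero_mul]
      rw [this]
      abel
    · intro v
      rw [map_mul, Module.End.mul_apply, hgl, hgl']
    · rw [Matrix.add_mul, ha, hb, add_zero]
    · rw [Matrix.mul_add, hD, hD']
  have hPr : ∀ w k : Fin m → E, β.mulVec k = 0 → P (vecMulVec (β.mulVec w) k) := by
    intro w k hk
    have hkβ : k ᵥ* β = 0 := by
      rw [← Matrix.mulVec_transpose, hβ, Matrix.neg_mulVec, hk, neg_zero]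
    have hC1 : vecMulVec (β.mulVec w) k * β = 0 := by
      rw [Matrix.vecMulVec_mul, hkβ]
      ext i j
      simp [vecMulVec_apply]
    have hC2 : vecMulVec (β.mulVec w) k = β * vecMulVec w k := by
      rw [Matrix.mul_vecMulVec]
    have hCC : vecMulVec (β.mulVec w) k * vecMulVec (β.mulVec w) k = 0 := by
      conv_lhs => rw [hC2, ← Matrix.mul_assoc, ← hC2]
      rw [hC1, Matrix.zero_mul]
    refine ⟨?_, hC1, _, hC2⟩
    let g : GL (Fin m) E :=
      { val := 1 + vecMulVec (β.mulVec w) k
        inv := 1 - vecMulVec (β.mulVec w) k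
        val_inv := by
          rw [add_mul, one_mul, mul_sub, mul_one, hCC]
          abel
        inv_val := by
          rw [sub_mul, one_mul, mul_add, mul_one, hCC]
          abel }
    exact ⟨g, rfl, hlam g w k hk rfl⟩
  -- the unipotent radical
  have key : ∀ u ∈ Nk m β.rank E, ∀ v, lam (π (h * u * h⁻¹) v) = lam v := by
    intro u hu v
    have h3 : P ((h : Matrix (Fin m) (Fin m) E) * ((u : Matrix (Fin m) (Fin m) E) - 1) *
        ((h⁻¹ : GL (Fin m) E) : Matrix (Fin m) (Fin m) E)) := by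
      have h4 : (h : Matrix (Fin m) (Fin m) E) * ((u : Matrix (Fin m) (Fin m) E) - 1) *
          ((h⁻¹ : GL (Fin m) E) : Matrix (Fin m) (Fin m) E) =
          ∑ p : Fin m × Fin m, vecMulVec
            ((((u : Matrix (Fin m) (Fin m) E) - 1) p.1 p.2) •
              (h : Matrix (Fin m) (Fin m) E).mulVec (Pi.single p.1 1))
            (fun j => ((h⁻¹ : GL (Fin m) E) : Matrix (Fin m) (Fin m) E) p.2 j) := by
        ext i j
        rw [Matrix.sum_apply, Fintype.sum_prod_type, Matrix.mul_assoc, Matrix.mul_apply]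
        refine Finset.sum_congr rfl fun a _ => ?_
        rw [Matrix.mul_apply, Finset.mul_sum]
        refine Finset.sum_congr rfl fun b _ => ?_
        rw [vecMulVec_apply, Pi.smul_apply, Matrix.mulVec_single_one, Matrix.col_apply, smul_eq_mul]
        ring
      rw [h4]
      refine Finset.sum_induction _ P hPadd hP0 ?_
      rintro ⟨i, l⟩ -
      by_cases hil : i.1 < β.rank ∧ β.rank ≤ l.1
      · obtain ⟨w, hw⟩ := h1 i hil.1
        show P (vecMulVec (_ • (h : Matrix (Fin m) (Fin m) E).mulVec (Pi.single i 1)) _)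
        rw [hw, ← Matrix.mulVec_smul]
        exact hPr _ _ (hrow l hil.2)
      · have h5 : ((u : Matrix (Fin m) (Fin m) E) - 1) i l = 0 := by
          rw [Matrix.sub_apply, hu i l hil, Matrix.one_apply, sub_self]
        show P (vecMulVec (((u : Matrix (Fin m) (Fin m) E) - 1) i l • _) _)
        rw [h5, zero_smul]
        have h6 : vecMulVec (0 : Fin m → E)
            (fun j => ((h⁻¹ : GL (Fin m) E) : Matrix (Fin m) (Fin m) E) l j) = 0 := by
          ext a b
          simp [vecMulVec_apply]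
        rw [h6]
        exact hP0
    obtain ⟨⟨g, hg, hgl⟩, -⟩ := h3
    have h4 : g = h * u * h⁻¹ := by
      apply Units.ext
      rw [hg, Matrix.mul_sub, Matrix.sub_mul, Matrix.mul_one, Units.mul_inv, Units.val_mul,
        Units.val_mul]
      abel
    rw [← h4]
    exact hgl v
  -- conclusion
  have hz : lam.comp (π h) = 0 := by
    have h3 : (⊤ : Submodule ℂ V) ≤ LinearMap.ker (lam.comp (π h)) := by
      rw [← hc]
      refine Submodule.span_le.2 ?_
      rintro _ ⟨u, hu, v, -, rfl⟩
      show lam (π h (π u v - v)) = 0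
      rw [map_sub, map_sub, sub_eq_zero]
      have h4 := key u hu (π h v)
      rw [← h4, ← Module.End.mul_apply, ← Module.End.mul_apply, ← map_mul, ← map_mul,
        inv_mul_cancel_right]
    ext v
    exact h3 (Submodule.mem_top (x := v))
  ext v
  have h5 := LinearMap.congr_fun hz (π h⁻¹ v)
  have h6 : π h (π h⁻¹ v) = v := by
    rw [← Module.End.mul_apply, ← map_mul, mul_inv_cancel, map_one, Module.End.one_apply]
  rw [LinearMap.comp_apply, h6] at h5
  exact h5

end fixed

end SpW
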