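import Pool.Agent.Work.MP_3615d2_al.BPOpen
import Pool.Agent.Work.MP_3615d2_al.GKPair

/-!
MP_3615d2_al, Theorem B: the part of (4a) over the forms with nonzero restriction to `Y₀`, with the
pairing of the theorem of Gelfand and Kazhdan.
-/

open Filter Topology Matrix
open scoped NNReal TensorProduct

namespace SpW

variable {E : Type} [NontriviallyNormedField E] [IsUltrametricDist E] [ProperSpace E]
  [MeasurableSpace E] [BorelSpace E] {m : ℕ} {V : Type} [AddCommGroup V] [Module ℂ V]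

omit [IsUltrametricDist E] [ProperSpace E] [MeasurableSpace E] [BorelSpace E] in
/-- The pairing is nondegenerate on the left. -/
theorem gk_left_nondeg {π : GL (Fin m) E →* Module.End ℂ V} (hirr : IsIrrRep π)
    {l : V →ₗ[ℂ] V →ₗ[ℂ] ℂ} (hl : l ≠ 0)
    (hlG : ∀ g v w, l (π g v) (π (trGL g⁻¹) w) = l v w) (v : V) (hv : ∀ w, l v w = 0) : v = 0 := by
  have h1 : ∀ g, ∀ v ∈ LinearMap.ker l, π g v ∈ LinearMap.ker l := by
    intro g v hv
    rw [LinearMap.mem_ker] at hv ⊢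
    ext w
    have h2 := hlG g v (π (trGL g) w)
    rw [← Module.End.mul_apply, ← map_mul, ← trGL_mul, mul_inv_cancel, trGL_one, map_one,
      Module.End.one_apply] at h2
    rw [h2, hv]
    rfl
  rcases hirr.irr _ h1 with h | h
  · have h3 : v ∈ LinearMap.ker l := LinearMap.mem_ker.2 (LinearMap.ext hv)
    rw [h, Submodule.mem_bot] at h3
    exact h3
  · exact absurd (LinearMap.ker_eq_top.1 h) hl

/-- (4a) over the forms with nonzero restriction to `Y₀`, any exponent, any `m`. -/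
theorem alt_open_kill (h2 : (2 : E) ≠ 0) {π : GL (Fin m) E →* Module.End ℂ V}
    (hπ : IsSmoothRep π) (hirr : IsIrrRep π) (hc : IsCusp π) (hu : UnitCentral π) (s : ℝ)
    (φ : Sch (Alt (2 * m) E) ℂ →ₗ[ℂ] V ⊗[ℂ] V)
    (hφ : ∀ a d b f f', IsTransl (pel a d b) f f' → φ f' = rho π s (a, d) (φ f))
    (hnd : ∀ f : Sch (Alt (2 * m) E) ℂ, (∀ B : Alt (2 * m) E, ¬ IsUnit (b11 B.1).det →
      (f : Alt (2 * m) E → ℂ) B = 0) → φ f = 0)
    (f : Sch (Alt (2 * m) E) ℂ)
    (hf : ∀ B : Alt (2 * m) E, b11 B.1 = 0 → (f : Alt (2 * m) E → ℂ) B = 0) : φ f = 0 := by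
  obtain ⟨l, hl0, hlG⟩ := exists_gk_pairing hπ hirr hc hu
  exact open_kill h2 hπ hc s l (gk_left_nondeg hirr hl0 hlG) hlG φ hφ hnd f hf

omit [IsUltrametricDist E] [ProperSpace E] [MeasurableSpace E] [BorelSpace E] in
/-- For `m` odd the restriction to `Y₀` is degenerate. -/
theorem b11_det_odd (hm : Odd m) (h2 : (2 : E) ≠ 0) (B : Alt (2 * m) E) :
    ¬ IsUnit (b11 B.1).det := by
  have h1 : (b11 B.1).det = -(b11 B.1).det := by
    conv_lhs => rw [← Matrix.det_transpose, alt_b11 B, Matrix.det_neg, Fintype.card_fin,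
      hm.neg_one_pow, neg_one_mul]
  have h3 : 2 * (b11 B.1).det = 0 := by
    rw [two_mul]
    nth_rewrite 2 [h1]
    rw [add_neg_cancel]
  rw [(mul_eq_zero.1 h3).resolve_left h2]
  exact not_isUnit_zero

/-- (4a) over the forms with nonzero restriction to `Y₀`, `m` odd. -/
theorem alt_open_kill_odd (hm : Odd m) (h2 : (2 : E) ≠ 0) {π : GL (Fin m) E →* Module.End ℂ V}
    (hπ : IsSmoothRep π) (hirr : IsIrrRep π) (hc : IsCusp π) (hu : UnitCentral π) (s : ℝ)
    (φ : Sch (Alt (2 * m) E) ℂ →ₗ[ℂ] V ⊗[ℂ] V)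
    (hφ : ∀ a d b f f', IsTransl (pel a d b) f f' → φ f' = rho π s (a, d) (φ f))
    (f : Sch (Alt (2 * m) E) ℂ)
    (hf : ∀ B : Alt (2 * m) E, b11 B.1 = 0 → (f : Alt (2 * m) E → ℂ) B = 0) : φ f = 0 := by
  refine alt_open_kill h2 hπ hirr hc hu s φ hφ ?_ f hf
  intro g hg
  have h1 : g = 0 := Sch.ext' fun B => hg B (b11_det_odd hm h2 B)
  rw [h1, map_zero]

end SpW
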