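import Pool.Agent.Work.MP_3615d2_al.BPStrat

/-!
MP_3615d2_al, Theorem B: an equivariant map `C_c(Alt) → V ⊗ V` vanishes on the functions supported
on the forms with nonzero restriction to `Y₀`, if it vanishes on the functions supported on the forms
with nondegenerate restriction to `Y₀`.
-/

open Filter Topology Matrix
open scoped NNReal TensorProduct

namespace SpW

section tensor

variable {V : Type} [AddCommGroup V] [Module ℂ V]

/-- `v ⊗ v' ↦ ξ(v') v`. -/
noncomputable def cR (ξ : V →ₗ[ℂ] ℂ) : V ⊗[ℂ] V →ₗ[ℂ] V :=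
  (TensorProduct.rid ℂ V).toLinearMap ∘ₗ TensorProduct.map LinearMap.id ξ

theorem cR_tmul (ξ : V →ₗ[ℂ] ℂ) (v v' : V) : cR ξ (v ⊗ₜ[ℂ] v') = ξ v' • v := by
  unfold cR
  rw [LinearMap.comp_apply, TensorProduct.map_tmul]
  exact TensorProduct.rid_tmul _ _

theorem eq_zero_of_cR (t : V ⊗[ℂ] V) (h : ∀ ξ : V →ₗ[ℂ] ℂ, cR ξ t = 0) : t = 0 := by
  classical
  set b := Module.Basis.ofVectorSpace ℂ V with hb
  have h1 : ∀ (ξ : V →ₗ[ℂ] ℂ) (t : V ⊗[ℂ] V) (i : Module.Basis.ofVectorSpaceIndex ℂ V),
      ξ (TensorProduct.equivFinsuppOfBasisLeft b t i) = b.repr (cR ξ t) i := by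
    intro ξ t i
    induction t using TensorProduct.induction_on with
    | zero => simp
    | tmul x y =>
      rw [cR_tmul, TensorProduct.equivFinsuppOfBasisLeft_apply_tmul_apply, map_smul, map_smul,
        Finsupp.smul_apply, smul_eq_mul, smul_eq_mul, mul_comm]
    | add x y hx hy =>
      rw [map_add, map_add, map_add, Finsupp.add_apply, map_add, Finsupp.add_apply, hx, hy]
  have h2 : TensorProduct.equivFinsuppOfBasisLeft (N := V) b t = 0 := by
    ext i
    rw [Finsupp.zero_apply, ← Module.forall_dual_apply_eq_zero_iff ℂ]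
    intro ξ
    have h3 := h1 ξ t i
    rw [h ξ, map_zero, Finsupp.zero_apply] at h3
    exact h3
  exact (LinearEquiv.map_eq_zero_iff _).1 h2

end tensor

section main

variable {E : Type} [NontriviallyNormedField E] [IsUltrametricDist E] [ProperSpace E]
  [MeasurableSpace E] [BorelSpace E] {m : ℕ} {V : Type} [AddCommGroup V] [Module ℂ V]

omit [IsUltrametricDist E] in
theorem cR_rho (π : GL (Fin m) E →* Module.End ℂ V) (e : ℝ) (ξ : V →ₗ[ℂ] ℂ) (a : GL (Fin m) E)
    (t : V ⊗[ℂ] V) : cR ξ (rho π e (a, 1) t) = ((ad a ^ e : ℝ) : ℂ) • π a (cR ξ t) := by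
  induction t using TensorProduct.induction_on with
  | zero => simp
  | tmul x y =>
    rw [rho_tmul, map_smul, cR_tmul, cR_tmul, ad_one, Real.one_rpow, mul_one, map_one, map_smul]
    rfl
  | add x y hx hy => rw [map_add, map_add, hx, hy, map_add, map_add, smul_add]

theorem ind_one_smul {X : Type} [TopologicalSpace X] (Q : Set X) (hQ : IsClopen Q)
    (hK : IsCompact Q) (c : ℂ) : ind Q hQ hK c = c • ind Q hQ hK (1 : ℂ) := by
  rw [← map_smul, smul_eq_mul, mul_one]

/-- The part of (4a) over the forms with nonzero restriction to `Y₀`. -/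
theorem open_kill (h2 : (2 : E) ≠ 0) {π : GL (Fin m) E →* Module.End ℂ V}
    (hπ : IsSmoothRep π) (hc : IsCusp π) (e : ℝ) (l : V →ₗ[ℂ] V →ₗ[ℂ] ℂ)
    (hl : ∀ v, (∀ w, l v w = 0) → v = 0)
    (hlG : ∀ g v w, l (π g v) (π (trGL g⁻¹) w) = l v w)
    (φ : Sch (Alt (2 * m) E) ℂ →ₗ[ℂ] V ⊗[ℂ] V)
    (hφ : ∀ a d b f f', IsTransl (pel a d b) f f' → φ f' = rho π e (a, d) (φ f))
    (hnd : ∀ f : Sch (Alt (2 * m) E) ℂ, (∀ B : Alt (2 * m) E, ¬ IsUnit (b11 B.1).det →
      (f : Alt (2 * m) E → ℂ) B = 0) → φ f = 0)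
    (f : Sch (Alt (2 * m) E) ℂ)
    (hf : ∀ B : Alt (2 * m) E, b11 B.1 = 0 → (f : Alt (2 * m) E → ℂ) B = 0) : φ f = 0 := by
  -- the key statement
  have key : ∀ (Q : Set (XO m E)) (hQ : IsClopen Q) (hK : IsCompact Q),
      φ (extz isOpen_XO (ind Q hQ hK (1 : ℂ))) = 0 := by
    intro Q hQ hK
    refine eq_zero_of_cR _ fun ξ => hl _ fun w => ?_
    set β : Sch (XO m E) ℂ →ₗ[ℂ] V →ₗ[ℂ] ℂ := l ∘ₗ cR ξ ∘ₗ φ ∘ₗ extz isOpen_XO with hβ
    have hβa : ∀ (g : Sch (XO m E) ℂ) (v : V), β g v = l (cR ξ (φ (extz isOpen_XO g))) v :=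
      fun g v => rfl
    have hL0 : schExt β = 0 := by
      refine strat_kill h2 hπ hc e (schExt β) ?_ ?_
      · intro g f
        have hmem : f ∈ LinearMap.ker ((schExt β) ∘ₗ gact (omU π e) g - schExt β) := by
          refine Sch.mem_of_ind _ f ?_
          intro Q hQ hK v _ _
          rw [LinearMap.mem_ker, LinearMap.sub_apply, LinearMap.comp_apply, sub_eq_zero]
          have hQ2 : IsClopen ((fun y : XO m E => g⁻¹ • y) ⁻¹' Q) :=
            hQ.preimage (continuous_const_smul g⁻¹)
          have hK2 : IsCompact ((fun y : XO m E => g⁻¹ • y) ⁻¹' Q) := by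
            have : (fun y : XO m E => g⁻¹ • y) ⁻¹' Q = (fun y : XO m E => g • y) '' Q := by
              ext y
              constructor
              · intro hy
                exact ⟨g⁻¹ • y, hy, smul_inv_smul g y⟩
              · rintro ⟨z, hz, rfl⟩
                show g⁻¹ • (g • z) ∈ Q
                rwa [inv_smul_smul]
            rw [this]
            exact hK.image (continuous_const_smul g)
          have h3 : gact (omU π e) g (ind Q hQ hK v) =
              ind ((fun y : XO m E => g⁻¹ • y) ⁻¹' Q) hQ2 hK2 (omU π e g v) := by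
            apply Sch.ext'
            intro y
            rw [gact_apply]
            by_cases hy : g⁻¹ • y ∈ Q
            · rw [ind_mem hQ hK v hy, ind_mem hQ2 hK2 _ hy]
            · rw [ind_notMem hQ hK v hy, ind_notMem hQ2 hK2 _ hy, map_zero]
          rw [h3, schExt_ind, schExt_ind, hβa, hβa, omU_apply]
          obtain ⟨g, a, y, rfl⟩ := g
          rw [toA_pel]
          have h4 : IsTransl (pel a 1 y) (extz isOpen_XO (ind Q hQ hK (1 : ℂ)))
              (extz isOpen_XO (ind ((fun y' : XO m E => (⟨pel a 1 y, ⟨a, y, rfl⟩⟩ : UP m E)⁻¹ • y') ⁻¹' Q)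
                hQ2 hK2 (1 : ℂ))) := by
            intro B
            by_cases hB : b11 B.1 = 0
            · have hB2 : ¬ b11 ((pel a 1 y)⁻¹ • B).1 ≠ 0 := by
                rw [not_not, (pel_inv_smul a 1 y B).1, hB, Matrix.mul_zero, Matrix.zero_mul]
              rw [extz_not isOpen_XO _ (not_not.2 hB), extz_not isOpen_XO _ hB2]
            · have hB2 : b11 ((pel a 1 y)⁻¹ • B).1 ≠ 0 :=
                b11_smul_ne (⟨pel a 1 y, ⟨a, y, rfl⟩⟩ : UP m E)⁻¹ B hB
              rw [extz_of isOpen_XO _ hB, extz_of isOpen_XO _ hB2]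
              by_cases hm : (⟨pel a 1 y, ⟨a, y, rfl⟩⟩ : UP m E)⁻¹ • (⟨B, hB⟩ : XO m E) ∈ Q
              · rw [ind_mem hQ2 hK2 _ hm]
                exact (ind_mem hQ hK _ hm).symm
              · rw [ind_notMem hQ2 hK2 _ hm]
                exact (ind_notMem hQ hK _ hm).symm
          rw [hφ a 1 y _ _ h4, cR_rho, map_smul, map_smul, LinearMap.smul_apply, hlG, smul_smul,
            ← Complex.ofReal_mul, ← Real.rpow_add (ad_pos _), neg_add_cancel, Real.rpow_zero,
            Complex.ofReal_one, one_smul]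
        rw [LinearMap.mem_ker, LinearMap.sub_apply, LinearMap.comp_apply, sub_eq_zero] at hmem
        exact hmem
      · intro f hf
        have hmem : f ∈ LinearMap.ker (schExt β) := by
          refine Sch.mem_of_ind _ f ?_
          intro Q hQ hK v hQv hv
          rw [LinearMap.mem_ker, schExt_ind, hβa]
          have h3 : φ (extz isOpen_XO (ind Q hQ hK (1 : ℂ))) = 0 := by
            apply hnd
            intro B hB
            by_cases hB0 : b11 B.1 = 0
            · exact extz_not isOpen_XO _ (not_not.2 hB0)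
            · rw [extz_of isOpen_XO _ hB0]
              apply ind_notMem
              intro hBQ
              apply hv
              rw [← hQv _ hBQ]
              apply hf
              by_contra hdet
              exact hB (isUnit_iff_ne_zero.2 hdet)
          rw [h3, map_zero, map_zero, LinearMap.zero_apply]
        exact hmem
    have h3 := LinearMap.congr_fun hL0 (ind Q hQ hK w)
    rw [schExt_ind, hβa, LinearMap.zero_apply] at h3
    exact h3
  obtain ⟨f', hf'⟩ := exists_extz isOpen_XO f (fun B hB => hf B (not_not.1 hB))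
  have hmem : f' ∈ LinearMap.ker (φ ∘ₗ extz isOpen_XO) := by
    refine Sch.mem_of_ind _ f' ?_
    intro Q hQ hK v _ _
    rw [LinearMap.mem_ker, LinearMap.comp_apply, ind_one_smul, map_smul, map_smul, key, smul_zero]
  rw [LinearMap.mem_ker, LinearMap.comp_apply, hf'] at hmem
  exact hmem

end main

end SpW
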