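import Pool.Agent.Work.MP_3615d2_al.BPSec

/-!
MP_3615d2_al, Theorem B: the strata of the forms whose restriction to the span `Y₀` of the first `m`
basis vectors is nonzero and degenerate (gauge principle).
-/

open Filter Topology Matrix
open scoped NNReal

namespace SpW

section space

variable {E : Type} [NontriviallyNormedField E] {m : ℕ}

/-- The forms with nonzero restriction to `Y₀`. -/
abbrev XO (m : ℕ) (E : Type) [NontriviallyNormedField E] : Type :=
  {B : Alt (2 * m) E // b11 B.1 ≠ 0}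

theorem isOpen_XO : IsOpen {B : Alt (2 * m) E | b11 B.1 ≠ 0} :=
  isOpen_ne_fun (continuous_b11 continuous_alt_val) continuous_const

theorem b11_smul (g : UP m E) (B : Alt (2 * m) E) :
    b11 ((g : GL (Fin (2 * m)) E) • B).1 =
      (((toA g)⁻¹ : GL (Fin m) E) : Matrix (Fin m) (Fin m) E).transpose * b11 B.1 *
        (((toA g)⁻¹ : GL (Fin m) E) : Matrix (Fin m) (Fin m) E) := by
  obtain ⟨g, a, y, rfl⟩ := g
  rw [toA_pel]
  show b11 (pel a 1 y • B).1 = _
  have h1 : pel a 1 y = (pel a⁻¹ 1 (-(((a⁻¹ : GL (Fin m) E) : Matrix (Fin m) (Fin m) E) * y *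
      ((1⁻¹ : GL (Fin m) E) : Matrix (Fin m) (Fin m) E))))⁻¹ := by
    rw [eq_comm, inv_eq_iff_eq_inv, pel_inv, inv_one]
  rw [h1]
  exact (pel_inv_smul _ _ _ B).1

theorem b11_smul_ne (g : UP m E) (B : Alt (2 * m) E) (h : b11 B.1 ≠ 0) :
    b11 ((g : GL (Fin (2 * m)) E) • B).1 ≠ 0 := by
  intro h0
  rw [b11_smul] at h0
  apply h
  have h1 : (toA g : Matrix (Fin m) (Fin m) E).transpose *
      ((((toA g)⁻¹ : GL (Fin m) E) : Matrix (Fin m) (Fin m) E).transpose * b11 B.1 *
        (((toA g)⁻¹ : GL (Fin m) E) : Matrix (Fin m) (Fin m) E)) *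
      (toA g : Matrix (Fin m) (Fin m) E) = b11 B.1 := by
    have h2 : (toA g : Matrix (Fin m) (Fin m) E).transpose *
        (((toA g)⁻¹ : GL (Fin m) E) : Matrix (Fin m) (Fin m) E).transpose = 1 := by
      rw [← Matrix.transpose_mul, Units.inv_mul, Matrix.transpose_one]
    have h3 : (((toA g)⁻¹ : GL (Fin m) E) : Matrix (Fin m) (Fin m) E) *
        (toA g : Matrix (Fin m) (Fin m) E) = 1 := Units.inv_mul _
    calc _ = ((toA g : Matrix (Fin m) (Fin m) E).transpose *
        (((toA g)⁻¹ : GL (Fin m) E) : Matrix (Fin m) (Fin m) E).transpose) * b11 B.1 *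
        ((((toA g)⁻¹ : GL (Fin m) E) : Matrix (Fin m) (Fin m) E) *
        (toA g : Matrix (Fin m) (Fin m) E)) := by simp only [Matrix.mul_assoc]
      _ = _ := by rw [h2, h3, Matrix.one_mul, Matrix.mul_one]
  rw [← h1, h0, Matrix.mul_zero, Matrix.zero_mul]

instance instActXO : MulAction (UP m E) (XO m E) where
  smul g B := ⟨(g : GL (Fin (2 * m)) E) • B.1, b11_smul_ne g B.1 B.2⟩
  one_smul B := Subtype.ext (one_smul (GL (Fin (2 * m)) E) B.1)
  mul_smul g h B := Subtype.ext (mul_smul (g : GL (Fin (2 * m)) E) (h : GL (Fin (2 * m)) E) B.1)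

theorem XO_smul_val (g : UP m E) (B : XO m E) : (g • B).1 = (g : GL (Fin (2 * m)) E) • B.1 := rfl

instance instContXO : ContinuousSMul (UP m E) (XO m E) := by
  refine ⟨Continuous.subtype_mk ?_ _⟩
  exact (continuous_subtype_val.comp continuous_fst).smul
    (continuous_subtype_val.comp continuous_snd)

end space

section rep

variable {E : Type} [NontriviallyNormedField E] [IsUltrametricDist E] [ProperSpace E]
  [MeasurableSpace E] [BorelSpace E] {m : ℕ} {V : Type} [AddCommGroup V] [Module ℂ V]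

/-- The representation `|det a|^{-e} π(a^{-t})` of the group of the elements `(a y; 0 1)`. -/
noncomputable def omU (π : GL (Fin m) E →* Module.End ℂ V) (e : ℝ) :
    UP m E →* Module.End ℂ V where
  toFun g := ((ad (toA g) ^ (-e) : ℝ) : ℂ) • π (trGL (toA g)⁻¹)
  map_one' := by
    rw [map_one, ad_one, Real.one_rpow, inv_one, trGL_one, map_one, Complex.ofReal_one, one_smul]
  map_mul' g h := by
    rw [map_mul, ad_mul, Real.mul_rpow (ad_pos _).le (ad_pos _).le, _root_.mul_inv_rev, trGL_mul,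
      map_mul, Complex.ofReal_mul]
    ext v
    simp only [LinearMap.smul_apply, Module.End.mul_apply, map_smul, smul_smul]
    rw [mul_comm]

omit [IsUltrametricDist E] in
theorem omU_apply (π : GL (Fin m) E →* Module.End ℂ V) (e : ℝ) (g : UP m E) (v : V) :
    omU π e g v = ((ad (toA g) ^ (-e) : ℝ) : ℂ) • π (trGL (toA g)⁻¹) v := rfl

theorem omU_smooth {π : GL (Fin m) E →* Module.End ℂ V} (hπ : IsSmoothRep π) (e : ℝ) :
    IsSmoothRep (omU π e) := by
  intro v
  have h1 : Tendsto (fun g : UP m E => toA g) (𝓝 1) (𝓝 1) := by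
    have := (continuous_toA (m := m) (E := E)).tendsto 1
    rwa [map_one] at this
  have h2 : Tendsto (fun g : UP m E => trGL (toA g)⁻¹) (𝓝 1) (𝓝 1) := by
    have h3 : Continuous fun g : UP m E => trGL (toA g)⁻¹ :=
      continuous_trGL.comp (continuous_inv.comp continuous_toA)
    have := h3.tendsto 1
    rwa [map_one, inv_one, trGL_one] at this
  filter_upwards [h1.eventually ad_near, h2.eventually (hπ v)] with g hg hg'
  rw [omU_apply, hg, hg', Real.one_rpow, Complex.ofReal_one, one_smul]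

end rep

section rank

variable {E : Type} [Field E] {m : ℕ}

theorem rank_pos_of_ne {β : Matrix (Fin m) (Fin m) E} (h : β ≠ 0) : 0 < β.rank := by
  rcases Nat.eq_zero_or_pos β.rank with h0 | h0
  · exfalso
    apply h
    have h1 : LinearMap.range β.mulVecLin = ⊥ := Submodule.finrank_eq_zero.1 h0
    apply Matrix.ext_of_mulVec_single
    intro i
    have h2 : β.mulVecLin (Pi.single i 1) ∈ LinearMap.range β.mulVecLin := ⟨_, rfl⟩
    rw [h1, Submodule.mem_bot, Matrix.mulVecLin_apply] at h2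
    rw [h2, Matrix.zero_mulVec]
  · exact h0

theorem rank_lt_of_det {β : Matrix (Fin m) (Fin m) E} (h : β.det = 0) : β.rank < m := by
  have h1 : β.rank ≤ m := by
    have := β.rank_le_card_width
    rwa [Fintype.card_fin] at this
  rcases h1.lt_or_eq with h2 | h2
  · exact h2
  · exfalso
    have h3 : LinearMap.range β.mulVecLin = ⊤ := by
      apply Submodule.eq_top_of_finrank_eq
      rw [Module.finrank_fin_fun]
      exact h2
    have h4 : Function.Surjective β.mulVec := LinearMap.range_eq_top.1 h3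
    have h5 : IsUnit β := Matrix.mulVec_surjective_iff_isUnit.1 h4
    have h6 := (Matrix.isUnit_iff_isUnit_det _).1 h5
    rw [h] at h6
    exact not_isUnit_zero h6

end rank

section gauge

variable {E : Type} [NontriviallyNormedField E] [IsUltrametricDist E] [ProperSpace E]
  [MeasurableSpace E] [BorelSpace E] {m : ℕ} {V : Type} [AddCommGroup V] [Module ℂ V]

omit [MeasurableSpace E] [BorelSpace E] in
theorem XO_basis (x : XO m E) (W : Set (XO m E)) (hW : W ∈ 𝓝 x) :
    ∃ K : Set (XO m E), IsOpen K ∧ IsCompact K ∧ x ∈ K ∧ K ⊆ W := by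
  have h1 : (Subtype.val : XO m E → Alt (2 * m) E) '' W ∈ 𝓝 x.1 :=
    isOpen_XO.isOpenEmbedding_subtypeVal.image_mem_nhds.2 hW
  obtain ⟨K, hK, hKc, hxK, hKW⟩ := alt_basis x.1 _ h1
  refine ⟨Subtype.val ⁻¹' K, hK.preimage continuous_subtype_val, ?_, hxK, ?_⟩
  · rw [Subtype.isCompact_iff, Set.image_preimage_eq_of_subset]
    · exact hKc
    · intro y hy
      obtain ⟨z, -, rfl⟩ := hKW hy
      exact ⟨z, rfl⟩
  · intro y hy
    obtain ⟨z, hz, hzy⟩ := hKW hy
    rwa [Subtype.ext hzy] at hz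

omit [MeasurableSpace E] [BorelSpace E] in
/-- The elements `1 - M B` are sections of the stabilisers. -/
theorem kw_gauge (h2 : (2 : E) ≠ 0) (x₀ : XO m E) (Z : Set (XO m E))
    (hr : ∀ x ∈ Z, (b11 x.1.1).rank ≤ (b11 x₀.1.1).rank) (w k : Fin m → E)
    (hk : (b11 x₀.1.1).mulVec k = 0) (hx₀ : x₀ ∈ Z) :
    GaugeFix Z x₀ (⟨pel (aEl (vecMulVec k w + vecMulVec w k) (b11 x₀.1.1)
      (kw_rel h2 (alt_b11 x₀.1) hk w).2) 1 (-((vecMulVec k w + vecMulVec w k) * b12 x₀.1.1)),
      ⟨_, _, rfl⟩⟩ : UP m E) := by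
  classical
  have hAc : Continuous fun x : XO m E => b11 x.1.1 :=
    continuous_b11 (continuous_alt_val.comp continuous_subtype_val)
  have hBc : Continuous fun x : XO m E => b12 x.1.1 :=
    continuous_b12 (continuous_alt_val.comp continuous_subtype_val)
  obtain ⟨V₀, R, hV₀, hxV₀, hRc, hR1, -, hker⟩ := exists_ker_section hAc x₀
  set M : XO m E → Matrix (Fin m) (Fin m) E := fun x =>
    vecMulVec ((R x).mulVec k) w + vecMulVec w ((R x).mulVec k) with hM
  have hMZ : ∀ x ∈ Z ∩ V₀, M x * b11 x.1.1 * M x = 0 := by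
    rintro x ⟨hxZ, hxV⟩
    exact (kw_rel h2 (alt_b11 x.1) (hker k hk x hxV (hr x hxZ)) w).2
  set s : XO m E → UP m E := fun x =>
    if h : M x * b11 x.1.1 * M x = 0 then
      ⟨pel (aEl (M x) (b11 x.1.1) h) 1 (-(M x * b12 x.1.1)), ⟨_, _, rfl⟩⟩ else 1 with hs
  have hMx₀ : M x₀ = vecMulVec k w + vecMulVec w k := by
    rw [hM]
    show vecMulVec ((R x₀).mulVec k) w + vecMulVec w ((R x₀).mulVec k) = _
    rw [hR1, Matrix.one_mulVec]
  have hsx₀ : s x₀ = (⟨pel (aEl (vecMulVec k w + vecMulVec w k) (b11 x₀.1.1)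
      (kw_rel h2 (alt_b11 x₀.1) hk w).2) 1 (-((vecMulVec k w + vecMulVec w k) * b12 x₀.1.1)),
      ⟨_, _, rfl⟩⟩ : UP m E) := by
    rw [hs]
    show (if h : M x₀ * b11 x₀.1.1 * M x₀ = 0 then
      (⟨pel (aEl (M x₀) (b11 x₀.1.1) h) 1 (-(M x₀ * b12 x₀.1.1)), ⟨_, _, rfl⟩⟩ : UP m E)
      else 1) = _
    rw [dif_pos (hMZ x₀ ⟨hx₀, hxV₀⟩)]
    apply Subtype.ext
    apply Units.ext
    show bm (1 - M x₀ * b11 x₀.1.1) (-(M x₀ * b12 x₀.1.1)) 0 _ =
      bm (1 - (vecMulVec k w + vecMulVec w k) * b11 x₀.1.1)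
        (-((vecMulVec k w + vecMulVec w k) * b12 x₀.1.1)) 0 _
    rw [hMx₀]
  obtain ⟨C', hC'o, hC'c, hC'm⟩ := exists_cptOpen_gl
    ((s x₀ : UP m E) : GL (Fin (2 * m)) E) (by
      rw [hsx₀]
      show (bm (1 - (vecMulVec k w + vecMulVec w k) * b11 x₀.1.1)
        (-((vecMulVec k w + vecMulVec w k) * b12 x₀.1.1)) 0 ((1 : GL (Fin m) E) :
          Matrix (Fin m) (Fin m) E) - 1) * (bm (1 - (vecMulVec k w + vecMulVec w k) * b11 x₀.1.1)
        (-((vecMulVec k w + vecMulVec w k) * b12 x₀.1.1)) 0 ((1 : GL (Fin m) E) :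
          Matrix (Fin m) (Fin m) E) - 1) = 0
      have h3 := (kw_rel h2 (alt_b11 x₀.1) hk w).2
      have h4 : bm (1 - (vecMulVec k w + vecMulVec w k) * b11 x₀.1.1)
          (-((vecMulVec k w + vecMulVec w k) * b12 x₀.1.1)) 0 ((1 : GL (Fin m) E) :
          Matrix (Fin m) (Fin m) E) - 1 =
          bm (-((vecMulVec k w + vecMulVec w k) * b11 x₀.1.1))
          (-((vecMulVec k w + vecMulVec w k) * b12 x₀.1.1)) 0 0 := by
        rw [sub_eq_iff_eq_add, ← bm_one, bm_add, Units.val_one]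
        congr 1
        · abel
        · rw [add_zero]
        · rw [add_zero]
        · rw [zero_add]
      rw [h4, bm_mul]
      have h5 : ∀ X : Matrix (Fin m) (Fin m) E,
          (vecMulVec k w + vecMulVec w k) * b11 x₀.1.1 *
            ((vecMulVec k w + vecMulVec w k) * X) = 0 := by
        intro X
        rw [← Matrix.mul_assoc, h3, Matrix.zero_mul]
      simp only [Matrix.neg_mul, Matrix.mul_neg, h5, Matrix.mul_zero, Matrix.zero_mul,
        add_zero, neg_zero]
      unfold bm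
      ext i j
      rcases hi : (sI m).symm i <;> rcases hj : (sI m).symm j <;>
        simp [Matrix.reindex_apply, hi, hj, Matrix.fromBlocks])
  refine ⟨V₀, s, C'.comap (UP m E).subtype, hV₀, hxV₀, ?_, ?_, hsx₀, ?_, ?_, ?_⟩
  · rw [continuousOn_iff_continuous_domRestrict]
    have hRc' : Continuous fun z : (Z ∩ V₀ : Set (XO m E)) => R z.1 := by
      have := continuousOn_iff_continuous_domRestrict.1 (hRc.mono Set.inter_subset_right :
        ContinuousOn R (Z ∩ V₀))
      exact this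
    have hkc : Continuous fun z : (Z ∩ V₀ : Set (XO m E)) => (R z.1).mulVec k :=
      hRc'.matrix_mulVec continuous_const
    have hMc : Continuous fun z : (Z ∩ V₀ : Set (XO m E)) => M z.1 := by
      refine continuous_matrix fun i j => ?_
      show Continuous fun z : (Z ∩ V₀ : Set (XO m E)) =>
        (R z.1).mulVec k i * w j + w i * (R z.1).mulVec k j
      exact (((continuous_apply i).comp hkc).mul continuous_const).add
        (continuous_const.mul ((continuous_apply j).comp hkc))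
    have hA' : Continuous fun z : (Z ∩ V₀ : Set (XO m E)) => b11 z.1.1.1 :=
      hAc.comp continuous_subtype_val
    have hB' : Continuous fun z : (Z ∩ V₀ : Set (XO m E)) => b12 z.1.1.1 :=
      hBc.comp continuous_subtype_val
    have heq : (Z ∩ V₀).domRestrict s = fun z : (Z ∩ V₀ : Set (XO m E)) =>
        (⟨pel (aEl (M z.1) (b11 z.1.1.1) (hMZ z.1 z.2)) 1 (-(M z.1 * b12 z.1.1.1)),
          ⟨_, _, rfl⟩⟩ : UP m E) := by
      funext z
      exact dif_pos (hMZ z.1 z.2)
    rw [heq]
    refine Continuous.subtype_mk ?_ _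
    rw [Units.continuous_iff]
    constructor
    · exact continuous_bm (continuous_const.sub (hMc.matrix_mul hA')) (hMc.matrix_mul hB').neg
        continuous_const continuous_const
    · refine continuous_bm (continuous_const.add (hMc.matrix_mul hA')) ?_
        continuous_const continuous_const
      exact (((continuous_const.add (hMc.matrix_mul hA')).matrix_mul
        (hMc.matrix_mul hB').neg).matrix_mul continuous_const).neg
  · rintro x hx
    apply Subtype.ext
    rw [XO_smul_val]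
    have h3 : ((s x : UP m E) : GL (Fin (2 * m)) E) =
        pel (aEl (M x) (b11 x.1.1) (hMZ x hx)) 1 (-(M x * b12 x.1.1)) := by
      have h4 : s x = (⟨pel (aEl (M x) (b11 x.1.1) (hMZ x hx)) 1 (-(M x * b12 x.1.1)),
        ⟨_, _, rfl⟩⟩ : UP m E) := dif_pos (hMZ x hx)
      rw [h4]
    rw [h3]
    have h5 := sEl_fix (M x) (kw_symm _ _) x.1 (hMZ x hx)
    rw [inv_smul_eq_iff] at h5
    exact h5.symm
  · exact hC'o.preimage continuous_subtype_val
  · exact (isClosed_UP (m := m) (E := E)).isClosedEmbedding_subtypeVal.isCompact_preimage hC'c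
  · rw [hsx₀] at hC'm
    exact hC'm

/-- The gauge theorem for the strata `0 < rank (B | Y₀) < m`. -/
theorem strat_kill (h2 : (2 : E) ≠ 0) {π : GL (Fin m) E →* Module.End ℂ V}
    (hπ : IsSmoothRep π) (hc : IsCusp π) (e : ℝ) (L : Sch (XO m E) V →ₗ[ℂ] ℂ)
    (hL : ∀ g f, L (gact (omU π e) g f) = L f)
    (hLt : ∀ f : Sch (XO m E) V, (∀ x : XO m E, (b11 x.1.1).det = 0 → (f : XO m E → V) x = 0) →
      L f = 0) : L = 0 := by
  have hAc : Continuous fun x : XO m E => b11 x.1.1 :=
    continuous_b11 (continuous_alt_val.comp continuous_subtype_val)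
  refine gauge_fibre XO_basis (omU π e) (omU_smooth hπ e)
    (fun x : XO m E => (b11 x.1.1).det) hAc.matrix_det 0 (fun x : XO m E => (b11 x.1.1).rank)
    ⟨m, fun x => ?_⟩ ?_ ?_ L hL hLt
  · have := (b11 x.1.1).rank_le_card_width
    rwa [Fintype.card_fin] at this
  · intro k
    rw [isOpen_iff_mem_nhds]
    intro x hx
    filter_upwards [eventually_rank_ge hAc x] with y hy
    exact le_trans hx hy
  · intro x₀ Z hdet _ hx₀ _ _ hr lam hlam
    have hr1 : (b11 x₀.1.1).rank < m := rank_lt_of_det hdet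
    have hr0 : 0 < (b11 x₀.1.1).rank := rank_pos_of_ne x₀.2
    refine fixed_zero (alt_b11 x₀.1) (hc _ hr0 hr1) lam ?_
    intro g w k hk hg v
    have h3 := hlam _ (kw_gauge h2 x₀ Z hr (-w) k hk hx₀) v
    rw [omU_apply, toA_pel] at h3
    have h4 : ad (aEl (vecMulVec k (-w) + vecMulVec (-w) k) (b11 x₀.1.1)
        (kw_rel h2 (alt_b11 x₀.1) hk (-w)).2) = 1 := by
      rw [ad_md, aEl_val, kw_det h2 (alt_b11 x₀.1) hk, md_one]
      rfl
    have h5 : trGL (aEl (vecMulVec k (-w) + vecMulVec (-w) k) (b11 x₀.1.1)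
        (kw_rel h2 (alt_b11 x₀.1) hk (-w)).2)⁻¹ = g := by
      apply Units.ext
      rw [hg]
      show (1 + (vecMulVec k (-w) + vecMulVec (-w) k) * b11 x₀.1.1).transpose = _
      rw [(kw_rel h2 (alt_b11 x₀.1) hk (-w)).1, Matrix.transpose_add, Matrix.transpose_one,
        Matrix.transpose_vecMulVec, ← Matrix.mulVec_transpose, alt_b11 x₀.1, Matrix.neg_mulVec,
        Matrix.mulVec_neg, neg_neg]
    rw [h4, h5, Real.one_rpow, Complex.ofReal_one, one_smul] at h3
    exact h3

end gauge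

end SpW
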