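import Pool.Agent.Work.MP_3615d2_al.Cartan
import Pool.Agent.Work.MP_3615d2_al.GK

/-!
MP_3615d2_al, Theorem B: an element `1 + c` of `GL_N(E)` with `c² = 0` lies in a compact open
subgroup; a functional fixed by enough rank one transvections is fixed by a unipotent radical.
-/

open Filter Topology Matrix

namespace SpW

section cpt

variable {E : Type} [NontriviallyNormedField E] [IsUltrametricDist E] {N : ℕ}

theorem mulVec_entry_le (M : Matrix (Fin N) (Fin N) E) {C : ℝ} (hC : 0 ≤ C)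
    (hM : ∀ i j, ‖M i j‖ ≤ C) (v : Fin N → E) {R : ℝ} (hR : 0 ≤ R) (hv : ∀ j, ‖v j‖ ≤ R) (i : Fin N) :
    ‖M.mulVec v i‖ ≤ C * R := by
  unfold Matrix.mulVec dotProduct
  refine IsUltrametricDist.norm_sum_le_of_forall_le_of_nonneg (mul_nonneg hC hR) fun j _ => ?_
  rw [norm_mul]
  exact mul_le_mul (hM i j) (hv j) (norm_nonneg _) hC

theorem exists_cptOpen_gl [ProperSpace E] (g : GL (Fin N) E)
    (hg : ((g : Matrix (Fin N) (Fin N) E) - 1) * ((g : Matrix (Fin N) (Fin N) E) - 1) = 0) :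
    ∃ C : Subgroup (GL (Fin N) E), IsOpen (C : Set (GL (Fin N) E)) ∧
      IsCompact (C : Set (GL (Fin N) E)) ∧ g ∈ C := by
  set c : Matrix (Fin N) (Fin N) E := (g : Matrix (Fin N) (Fin N) E) - 1 with hc
  have hg1 : (g : Matrix (Fin N) (Fin N) E) = 1 + c := by rw [hc]; abel
  have hg2 : ((g⁻¹ : GL (Fin N) E) : Matrix (Fin N) (Fin N) E) = 1 - c := by
    have h1 : (g : Matrix (Fin N) (Fin N) E) * (1 - c) = 1 := by
      rw [hg1, add_mul, one_mul, mul_sub, mul_one, hg]
      abel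
    have h2 : ((g⁻¹ : GL (Fin N) E) : Matrix (Fin N) (Fin N) E) *
        ((g : Matrix (Fin N) (Fin N) E) * (1 - c)) = 1 - c := by
      rw [← mul_assoc, Units.inv_mul, one_mul]
    rw [← h2, h1, mul_one]
  obtain ⟨C, hC1, hC⟩ : ∃ C : ℝ, 1 ≤ C ∧ ∀ i j : Fin N, ‖c i j‖ ≤ C := by
    refine ⟨1 + ∑ i, ∑ j, ‖c i j‖, ?_, ?_⟩
    · have : 0 ≤ ∑ i, ∑ j, ‖c i j‖ :=
        Finset.sum_nonneg fun i _ => Finset.sum_nonneg fun j _ => norm_nonneg _
      linarith
    · intro i j
      have h1 : ‖c i j‖ ≤ ∑ j, ‖c i j‖ :=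
        Finset.single_le_sum (f := fun j => ‖c i j‖) (fun j _ => norm_nonneg _) (Finset.mem_univ j)
      have h2 : ∑ j, ‖c i j‖ ≤ ∑ i, ∑ j, ‖c i j‖ :=
        Finset.single_le_sum (f := fun i => ∑ j, ‖c i j‖)
          (fun i _ => Finset.sum_nonneg fun j _ => norm_nonneg _) (Finset.mem_univ i)
      linarith
  have hC0 : 0 < C := lt_of_lt_of_le one_pos hC1
  have hCi : C⁻¹ ≤ 1 := inv_le_one_of_one_le₀ hC1
  -- the lattice
  set L : Set (Fin N → E) := {v | (∀ i, ‖v i‖ ≤ 1) ∧ ∀ i, ‖c.mulVec v i‖ ≤ 1} with hL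
  have hL2 : ∀ v : Fin N → E, (∀ i, ‖v i‖ ≤ C⁻¹) → v ∈ L := by
    intro v hv
    refine ⟨fun i => (hv i).trans hCi, fun i => ?_⟩
    have h1 := mulVec_entry_le c hC0.le hC v (inv_nonneg.2 hC0.le) hv i
    rwa [mul_inv_cancel₀ hC0.ne'] at h1
  have hLadd : ∀ v ∈ L, ∀ w ∈ L, v + w ∈ L := by
    intro v hv w hw
    refine ⟨fun i => ?_, fun i => ?_⟩
    · exact (IsUltrametricDist.norm_add_le_max _ _).trans (max_le (hv.1 i) (hw.1 i))
    · rw [Matrix.mulVec_add]
      exact (IsUltrametricDist.norm_add_le_max _ _).trans (max_le (hv.2 i) (hw.2 i))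
  have hLc : ∀ v ∈ L, c.mulVec v ∈ L := by
    intro v hv
    refine ⟨hv.2, fun i => ?_⟩
    rw [Matrix.mulVec_mulVec, hg, Matrix.zero_mulVec, Pi.zero_apply, norm_zero]
    exact zero_le_one
  have hLneg : ∀ v ∈ L, -v ∈ L := by
    intro v hv
    refine ⟨fun i => ?_, fun i => ?_⟩
    · rw [Pi.neg_apply, norm_neg]; exact hv.1 i
    · rw [Matrix.mulVec_neg, Pi.neg_apply, norm_neg]; exact hv.2 i
  let S : Subgroup (GL (Fin N) E) :=
    { carrier := {u | (∀ v ∈ L, (u : Matrix (Fin N) (Fin N) E).mulVec v ∈ L) ∧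
        ∀ v ∈ L, ((u⁻¹ : GL (Fin N) E) : Matrix (Fin N) (Fin N) E).mulVec v ∈ L}
      mul_mem' := by
        rintro a b ⟨ha, ha'⟩ ⟨hb, hb'⟩
        refine ⟨fun v hv => ?_, fun v hv => ?_⟩
        · rw [Units.val_mul, ← Matrix.mulVec_mulVec]
          exact ha _ (hb _ hv)
        · rw [_root_.mul_inv_rev, Units.val_mul, ← Matrix.mulVec_mulVec]
          exact hb' _ (ha' _ hv)
      one_mem' := by
        refine ⟨fun v hv => ?_, fun v hv => ?_⟩
        · rwa [Units.val_one, Matrix.one_mulVec]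
        · rwa [inv_one, Units.val_one, Matrix.one_mulVec]
      inv_mem' := by
        rintro a ⟨ha, ha'⟩
        refine ⟨ha', fun v hv => ?_⟩
        rw [inv_inv]
        exact ha v hv }
  have hSo : IsOpen (S : Set (GL (Fin N) E)) := by
    refine S.isOpen_of_mem_nhds (g := 1) ?_
    have h1 : ∀ᶠ u : GL (Fin N) E in 𝓝 1, ∀ i j,
        ‖((u : Matrix (Fin N) (Fin N) E) - 1) i j‖ < C⁻¹ := by
      refine Filter.eventually_all.2 fun i => Filter.eventually_all.2 fun j => ?_
      have hc' : Continuous fun u : GL (Fin N) E => ‖((u : Matrix (Fin N) (Fin N) E) - 1) i j‖ := by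
        have := (continuous_gl_entry (E := E) i j).sub
          (continuous_const (y := (1 : Matrix (Fin N) (Fin N) E) i j))
        exact this.norm
      have h2 : ‖(((1 : GL (Fin N) E) : Matrix (Fin N) (Fin N) E) - 1) i j‖ < C⁻¹ := by
        rw [Units.val_one, sub_self, Matrix.zero_apply, norm_zero]
        exact inv_pos.2 hC0
      exact hc'.continuousAt.eventually_lt continuousAt_const h2
    have h2 : ∀ᶠ u : GL (Fin N) E in 𝓝 1, ∀ i j,
        ‖(((u⁻¹ : GL (Fin N) E) : Matrix (Fin N) (Fin N) E) - 1) i j‖ < C⁻¹ := by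
      have h3 : Tendsto (fun u : GL (Fin N) E => u⁻¹) (𝓝 1) (𝓝 1) := by
        have := (continuous_inv (G := GL (Fin N) E)).tendsto 1
        rwa [inv_one] at this
      exact h3.eventually h1
    have key : ∀ M : Matrix (Fin N) (Fin N) E, (∀ i j, ‖(M - 1) i j‖ < C⁻¹) →
        ∀ v ∈ L, M.mulVec v ∈ L := by
      intro M hM v hv
      have h3 : M.mulVec v = v + (M - 1).mulVec v := by
        rw [Matrix.sub_mulVec, Matrix.one_mulVec, add_sub_cancel]
      rw [h3]
      refine hLadd _ hv _ (hL2 _ fun i => ?_)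
      have h4 := mulVec_entry_le (M - 1) (inv_nonneg.2 hC0.le) (fun i j => (hM i j).le) v
        zero_le_one hv.1 i
      rwa [mul_one] at h4
    filter_upwards [h1, h2] with u hu hu'
    exact ⟨key _ hu, key _ hu'⟩
  refine ⟨S, hSo, ?_, ?_⟩
  · obtain ⟨t, ht0, ht⟩ : ∃ t : E, 0 < ‖t‖ ∧ ‖t‖ < C⁻¹ :=
      NormedField.exists_norm_lt E (inv_pos.2 hC0)
    have hbd : ∀ u : GL (Fin N) E, (∀ v ∈ L, (u : Matrix (Fin N) (Fin N) E).mulVec v ∈ L) →
        ∀ i j, ‖(u : Matrix (Fin N) (Fin N) E) i j‖ ≤ ‖t‖⁻¹ := by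
      intro u hu i j
      have h1 : Pi.single j t ∈ L := by
        refine hL2 _ fun i => ?_
        by_cases hij : i = j
        · subst hij
          rw [Pi.single_eq_same]
          exact ht.le
        · rw [Pi.single_eq_of_ne hij, norm_zero]
          exact inv_nonneg.2 hC0.le
      have h2 := (hu _ h1).1 i
      rw [Matrix.mulVec_single] at h2
      simp only [Pi.smul_apply, MulOpposite.smul_eq_mul_unop, MulOpposite.unop_op, Matrix.col_apply,
        norm_mul] at h2
      rw [← one_div, le_div_iff₀ ht0]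
      exact h2
    refine (isCompact_gl_bdd (E := E) (ι := Fin N) ‖t‖⁻¹).of_isClosed_subset
      (S.isClosed_of_isOpen hSo) ?_
    rintro u ⟨hu, hu'⟩ i j
    exact ⟨hbd u hu i j, hbd u⁻¹ hu' i j⟩
  · refine ⟨fun v hv => ?_, fun v hv => ?_⟩
    · rw [hg1, Matrix.add_mulVec, Matrix.one_mulVec]
      exact hLadd _ hv _ (hLc _ hv)
    · rw [hg2, Matrix.sub_mulVec, Matrix.one_mulVec, sub_eq_add_neg]
      exact hLadd _ hv _ (hLneg _ (hLc _ hv))

end cpt

section basis

variable {E : Type} [Field E] {m : ℕ}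

/-- An invertible matrix whose first `r` columns span the range of `β`, `r = rank β`. -/
theorem exists_adapted (β : Matrix (Fin m) (Fin m) E) :
    ∃ h : GL (Fin m) E, (∀ i : Fin m, i.1 < β.rank →
      ∃ w, (h : Matrix (Fin m) (Fin m) E).mulVec (Pi.single i 1) = β.mulVec w) ∧
      ∀ w, ∀ l : Fin m, β.rank ≤ l.1 →
        ((h⁻¹ : GL (Fin m) E) : Matrix (Fin m) (Fin m) E).mulVec (β.mulVec w) l = 0 := by
  classical
  set R : Submodule E (Fin m → E) := LinearMap.range β.mulVecLin with hR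
  obtain ⟨Q, hQ⟩ := R.exists_isCompl
  have hr : Module.finrank E R = β.rank := rfl
  have hs : Module.finrank E R + Module.finrank E Q = m := by
    have := Submodule.finrank_add_eq_of_isCompl hQ
    rwa [Module.finrank_fin_fun] at this
  set b : Module.Basis (Fin (Module.finrank E R) ⊕ Fin (Module.finrank E Q)) E (Fin m → E) :=
    ((Module.finBasis E R).prod (Module.finBasis E Q)).map (Submodule.prodEquivOfIsCompl R Q hQ)
    with hb
  set e : Fin (Module.finrank E R) ⊕ Fin (Module.finrank E Q) ≃ Fin m :=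
    finSumFinEquiv.trans (finCongr hs) with he
  set T : (Fin m → E) ≃ₗ[E] (Fin m → E) := (b.reindex e).equivFun.symm with hT
  refine ⟨⟨LinearMap.toMatrix' T.toLinearMap, LinearMap.toMatrix' T.symm.toLinearMap, ?_, ?_⟩,
    ?_, ?_⟩
  · rw [← LinearMap.toMatrix'_comp]
    simp
  · rw [← LinearMap.toMatrix'_comp]
    simp
  · intro i hi
    have h1 : (LinearMap.toMatrix' T.toLinearMap).mulVec (Pi.single i 1) = T (Pi.single i 1) := by
      rw [LinearMap.toMatrix'_mulVec]
      rfl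
    show ∃ w, (LinearMap.toMatrix' T.toLinearMap).mulVec (Pi.single i 1) = _
    rw [h1]
    have h2 : T (Pi.single i 1) = b (e.symm i) := by
      rw [hT, LinearEquiv.symm_apply_eq, ← Module.Basis.reindex_apply]
      funext j
      rw [Module.Basis.equivFun_self, Pi.single_apply]
      simp only [eq_comm]
    have h4 : e.symm i = Sum.inl ⟨i.1, by rw [hr]; exact hi⟩ := by
      rw [Equiv.symm_apply_eq]
      apply Fin.ext
      rfl
    rw [h2, h4]
    have h5 : b (Sum.inl ⟨i.1, by rw [hr]; exact hi⟩) ∈ R := by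
      rw [hb, Module.Basis.map_apply, Submodule.coe_prodEquivOfIsCompl',
        Module.Basis.prod_apply_inl_fst, Module.Basis.prod_apply_inl_snd, Submodule.coe_zero,
        add_zero]
      exact (Module.finBasis E R _).2
    obtain ⟨w, hw⟩ := h5
    exact ⟨w, hw.symm⟩
  · intro w l hl
    show (LinearMap.toMatrix' T.symm.toLinearMap).mulVec (β.mulVec w) l = 0
    rw [LinearMap.toMatrix'_mulVec]
    show T.symm (β.mulVec w) l = 0
    have hmem : β.mulVec w ∈ R := ⟨w, rfl⟩
    have h1 : T.symm (β.mulVec w) l = b.repr (β.mulVec w) (e.symm l) := by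
      rw [hT, LinearEquiv.symm_symm, Module.Basis.equivFun_apply, Module.Basis.repr_reindex_apply]
    obtain ⟨j, hj⟩ : ∃ j, e.symm l = Sum.inr j := by
      rcases h5 : e.symm l with j | j
      · exfalso
        have h6 : l = e (Sum.inl j) := by rw [← h5, Equiv.apply_symm_apply]
        have h7 : l.1 = j.1 := by rw [h6]; rfl
        have := j.2
        omega
      · exact ⟨j, rfl⟩
    rw [h1, hj, hb, Module.Basis.map_repr, LinearEquiv.trans_apply]
    have h8 : (Submodule.prodEquivOfIsCompl R Q hQ).symm (β.mulVec w) =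
        ((⟨β.mulVec w, hmem⟩ : R), (0 : Q)) :=
      Submodule.prodEquivOfIsCompl_symm_apply_left R Q hQ ⟨β.mulVec w, hmem⟩
    rw [h8, Module.Basis.prod_repr_inr, map_zero, Finsupp.zero_apply]

end basis

end SpW
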