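import Pool.Agent.Work.MP_3615d2_al.Integ1

/-!
MP_3615d2_al, A11: the reduced norm form of the division algebra takes a value with `om = -1`.
-/

open Filter Topology

namespace SpW

section

variable {K L : Type} [NontriviallyNormedField K] [IsUltrametricDist K] [ProperSpace K]
  [NontriviallyNormedField L] [NormedAlgebra K L] [IsUltrametricDist L] [ProperSpace L]
  {sg : L ≃ₐ[K] L} {δ : L} {d t₀ : K}

theorem exists_nat_norm_lt_one (K : Type) [NontriviallyNormedField K] [IsUltrametricDist K]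
    [ProperSpace K] : ∃ n : ℕ, 1 ≤ n ∧ ‖(n : K)‖ < 1 := by
  have hmem : ∀ n : ℕ, (n : K) ∈ Metric.closedBall (0 : K) 1 := by
    intro n
    rw [mem_closedBall_zero_iff]
    exact IsUltrametricDist.norm_natCast_le_one K n
  obtain ⟨a, -, φ, hφ, ha⟩ := (isCompact_closedBall (0 : K) 1).tendsto_subseq hmem
  have hc := ha.cauchySeq
  rw [Metric.cauchySeq_iff'] at hc
  obtain ⟨N, hN⟩ := hc 1 one_pos
  have h1 := hN (N + 1) (Nat.le_succ N)
  have h2 : φ N < φ (N + 1) := hφ (Nat.lt_succ_self N)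
  refine ⟨φ (N + 1) - φ N, by omega, ?_⟩
  rw [Nat.cast_sub h2.le]
  rw [dist_eq_norm] at h1
  exact h1

theorem exists_beta (hq : QuadDatum sg δ d) (ht0 : t₀ ≠ 0)
    (hnt : ¬ ∃ y : L, Algebra.norm K y = t₀) {om : K → ℂ} (hom : OmChar K L om) :
    ∃ β : L, om (1 - t₀ * Algebra.norm K β) = -1 := by
  by_contra hcon
  push Not at hcon
  have hclosed := dist_range (fun x : L => Algebra.norm K x) (nm_cont hq) (norm_nm hq)
  have hne : ∀ β : L, 1 - t₀ * Algebra.norm K β ≠ 0 := by
    intro β h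
    have h1 : t₀ * Algebra.norm K β = 1 := (sub_eq_zero.1 h).symm
    have hβ : β ≠ 0 := by
      rintro rfl
      rw [nm_zero hq, mul_zero] at h1
      exact zero_ne_one h1
    apply hnt
    refine ⟨β⁻¹, ?_⟩
    have h2 := nm_inv (K := K) hβ
    calc Algebra.norm K β⁻¹ = (t₀ * Algebra.norm K β) * Algebra.norm K β⁻¹ := by rw [h1, one_mul]
      _ = t₀ := by rw [mul_assoc, h2, mul_one]
  have hN : ∀ β : L, ∃ y : L, Algebra.norm K y = 1 - t₀ * Algebra.norm K β := by
    intro β
    by_contra h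
    exact hcon β (hom.nonnorm _ (hne β) h)
  -- `-t₀` is a norm
  have hγ : ∃ γ : L, Algebra.norm K γ = -t₀ := by
    have h1 : Tendsto (fun z : L => Algebra.norm K z - t₀) (𝓝[≠] 0) (𝓝 (-t₀)) := by
      have h2 : Tendsto (fun z : L => Algebra.norm K z - t₀) (𝓝 0)
          (𝓝 (Algebra.norm K (0 : L) - t₀)) :=
        (((nm_cont hq).sub continuous_const).tendsto 0)
      rw [nm_zero hq, zero_sub] at h2
      exact h2.mono_left nhdsWithin_le_nhds
    have h3 : ∀ᶠ z : L in 𝓝[≠] 0, Algebra.norm K z - t₀ ∈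
        Set.range (fun x : L => Algebra.norm K x) := by
      filter_upwards [self_mem_nhdsWithin] with z hz
      obtain ⟨y, hy⟩ := hN z⁻¹
      refine ⟨z * y, ?_⟩
      show Algebra.norm K (z * y) = _
      rw [map_mul, hy]
      have h4 := nm_inv (K := K) (show z ≠ 0 from hz)
      linear_combination (-t₀) * h4
    exact hclosed.mem_of_tendsto h1 h3
  obtain ⟨γ, hγ⟩ := hγ
  have hγ0 : γ ≠ 0 := by
    rintro rfl
    rw [nm_zero hq] at hγ
    exact ht0 (neg_eq_zero.1 hγ.symm)
  -- `1 + N z` is a norm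
  have h1N : ∀ z : L, ∃ y : L, Algebra.norm K y = 1 + Algebra.norm K z := by
    intro z
    obtain ⟨y, hy⟩ := hN (γ⁻¹ * z)
    refine ⟨y, ?_⟩
    rw [hy, map_mul]
    have h4 := nm_inv (K := K) hγ0
    rw [hγ] at h4
    linear_combination (Algebra.norm K z) * h4
  have hnat : ∀ n : ℕ, ∃ y : L, Algebra.norm K y = (n : K) := by
    intro n
    induction n with
    | zero => exact ⟨0, by rw [nm_zero hq, Nat.cast_zero]⟩
    | succ n ih =>
      obtain ⟨z, hz⟩ := ih
      obtain ⟨y, hy⟩ := h1N z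
      refine ⟨y, ?_⟩
      rw [hy, hz]
      push_cast
      ring
  -- `-1` is a norm
  obtain ⟨n, hn1, hn⟩ := exists_nat_norm_lt_one K
  have hm1 : ∃ y : L, Algebra.norm K y = -1 := by
    have h1 : Tendsto (fun m : ℕ => (n : K) ^ m - 1) atTop (𝓝 (-1)) := by
      have h2 := (tendsto_pow_atTop_nhds_zero_of_norm_lt_one hn).sub_const 1
      rwa [zero_sub] at h2
    have h3 : ∀ᶠ m : ℕ in atTop, (n : K) ^ m - 1 ∈ Set.range (fun x : L => Algebra.norm K x) := by
      refine Eventually.of_forall fun m => ?_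
      obtain ⟨y, hy⟩ := hnat (n ^ m - 1)
      refine ⟨y, ?_⟩
      show Algebra.norm K y = _
      rw [hy, Nat.cast_sub (Nat.one_le_pow _ _ hn1)]
      push_cast
      ring
    exact hclosed.mem_of_tendsto h1 h3
  obtain ⟨y, hy⟩ := hm1
  exact hnt ⟨y * γ, by rw [map_mul, hy, hγ]; ring⟩

end

end SpW
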