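import Pool.Agent.Work.MP_3615d2_al.BlkRing

/-!
# Blocks in a symplectic space

`ι : D → V` is an isometric embedding of the block, `IsAct B ι u g` means that `g` is the right
multiplication by `u` on the block and the identity on its orthogonal complement. `LV` is the
statement of LEMMA V for a fixed functional.
-/

set_option linter.unusedSectionVars false

open scoped Quaternion
open QuaternionAlgebra

namespace SpW.Blk

variable {F R V S : Type} [Field F] [CommRing R] [Algebra F R] [AddCommGroup V] [Module F V]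
  [AddCommGroup S] [Module ℂ S] {d t : R}

/-- `g` acts on the block by right multiplication by `u` and trivially on the complement. -/
def IsAct (B : V →ₗ[F] V →ₗ[F] F) (ι : ℍ[R, d, t] →ₗ[F] V) (u : ℍ[R, d, t]) (g : V ≃ₗ[F] V) :
    Prop :=
  (∀ a, g (ι a) = ι (a * u)) ∧ ∀ w, (∀ a, B (ι a) w = 0) → g w = w

/-- LEMMA V for the functional `μ'` and the set `UU` of pairs `(u, Om)`. -/
def LV (B : V →ₗ[F] V →ₗ[F] F) (ψ : AddChar F Circle) (ρ : V → Module.End ℂ S) (μ' : S →ₗ[ℂ] ℂ)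
    (UU : Set ((V ≃ₗ[F] V) × (S ≃ₗ[ℂ] S))) : Prop :=
  ∀ Y₁ Y Z : Submodule F V, Y₁ ≤ Y → (∀ y ∈ Y, ∀ y' ∈ Y, B y y' = 0) →
    (∀ w, (∀ y ∈ Y, B w y = 0) → w ∈ Z) → (∀ y ∈ Y₁, ∀ v, μ' (ρ y v) = μ' v) →
    (∀ ξ : V, (∀ y ∈ Y₁, B ξ y = 0) → ξ ∉ Z → ∃ u ∈ UU, ∃ k ∈ UU,
      (∀ y ∈ Y₁, u.1 y ∈ Y₁) ∧ (∀ w, (∀ y ∈ Y₁, B w y = 0) → u.1 w - w ∈ Y) ∧
      (∀ w, (∀ y ∈ Y, B w y = 0) → u.1 w - w ∈ Y₁) ∧
      Y.map (k.1 : V →ₗ[F] V) = Y ∧ Y₁.map (k.1 : V →ₗ[F] V) = Y₁ ∧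
      ψ (B (u.1 (k.1 ξ) - k.1 ξ) (k.1 ξ) / 2) ≠ ψ (B (u.1 ξ - ξ) ξ / 2)) →
    ∀ y ∈ Y, (∀ z ∈ Z, (∀ y' ∈ Y₁, B z y' = 0) → B y z = 0) → ∀ v, μ' (ρ y v) = μ' v

instance [FiniteDimensional F R] : FiniteDimensional F ℍ[R, d, t] :=
  Module.Finite.trans R _

section emb

variable {s : R →ₗ[F] F} {π : R} {n : ℕ} {B : V →ₗ[F] V →ₗ[F] F} {ι : ℍ[R, d, t] →ₗ[F] V}

/-- Orthogonal decomposition. -/
theorem exists_dec [FiniteDimensional F R] (h : Chain F R s π n) (h2 : IsUnit (2 : R))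
    (hd : IsUnit d) (ht : IsUnit t) (hι : ∀ x y, B (ι x) (ι y) = frm s x y) (v : V) :
    ∃ a, ∀ b, B (ι b) (v - ι a) = 0 := by
  let φ : ℍ[R, d, t] →ₗ[F] Module.Dual F ℍ[R, d, t] := (B.flip.comp ι).compr₂ LinearMap.id |>.flip.flip
    |>.compl₂ ι
  have hφ : ∀ a b, φ a b = B (ι b) (ι a) := fun a b => rfl
  have hinj : Function.Injective φ := by
    rw [injective_iff_map_eq_zero]
    intro a ha
    refine h.frm_nondeg h2 hd ht fun y => ?_
    rw [← hι, ← hφ, ha, LinearMap.zero_apply]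
  have hsurj : Function.Surjective φ :=
    (LinearMap.injective_iff_surjective_of_finrank_eq_finrank
      (Subspace.dual_finrank_eq (K := F) (V := ℍ[R, d, t])).symm).1 hinj
  obtain ⟨a, ha⟩ := hsurj ((B.flip v).comp ι)
  refine ⟨a, fun b => ?_⟩
  rw [map_sub, ← hφ, ha]
  simp

theorem frm_mul_re (x y : ℍ[R, d, t]) : frm s x y = s (2 * (star y * (qi * x)).re) := by
  unfold frm
  congr 2
  simp only [re_mul, imI_mul, imJ_mul, imK_mul, re_star, imI_star, imJ_star, imK_star]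
  ring

/-- The quadratic function of the action of `u`. -/
theorem act_sub {u : ℍ[R, d, t]} {g : V ≃ₗ[F] V}
    (hg : IsAct B ι u g) {ξ : V} {a : ℍ[R, d, t]} (ha : ∀ b, B (ι b) (ξ - ι a) = 0) :
    g ξ - ξ = ι (a * (u - 1)) := by
  have h1 : g (ξ - ι a) = ξ - ι a := hg.2 _ ha
  rw [map_sub, hg.1] at h1
  rw [mul_sub, mul_one, map_sub]
  rw [sub_eq_sub_iff_add_eq_add] at h1 ⊢
  rw [h1]
  abel

theorem act_dec {u : ℍ[R, d, t]} {g : V ≃ₗ[F] V}
    (hg : IsAct B ι u g) {ξ : V} {a : ℍ[R, d, t]} (ha : ∀ b, B (ι b) (ξ - ι a) = 0) (b) :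
    B (ι b) (g ξ - ι (a * u)) = 0 := by
  have h1 : g ξ - ι (a * u) = ξ - ι a := by
    have := act_sub hg ha
    rw [mul_sub, mul_one, map_sub] at this
    rw [sub_eq_sub_iff_add_eq_add] at this ⊢
    rw [this]
    abel
  rw [h1, ha]

theorem act_form (hι : ∀ x y, B (ι x) (ι y) = frm s x y) {u : ℍ[R, d, t]} {g : V ≃ₗ[F] V}
    (hg : IsAct B ι u g) {ξ : V} {a : ℍ[R, d, t]} (ha : ∀ b, B (ι b) (ξ - ι a) = 0) :
    B (g ξ - ξ) ξ = s (2 * (star a * qi * a * (u - 1)).re) := by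
  rw [act_sub hg ha]
  have h1 : B (ι (a * (u - 1))) ξ = B (ι (a * (u - 1))) (ι a) := by
    have := ha (a * (u - 1))
    rw [map_sub, sub_eq_zero] at this
    exact this
  rw [h1, hι, frm_mul_re]
  simp only [mul_assoc]

end emb

/-- Two vectors which do not commute: no invariant functional. -/
theorem zero_of_noncomm {B : V →ₗ[F] V →ₗ[F] F} {ψ : AddChar F Circle} {ρ : V → Module.End ℂ S}
    (hρ : ∀ w w', ρ w * ρ w' = ((ψ (B w w' / 2) : Circle) : ℂ) • ρ (w + w'))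
    (halt : ∀ w w', B w w' = - B w' w) {μ' : S →ₗ[ℂ] ℂ} {w w' : V}
    (h2 : (2 : F) ≠ 0)
    (hw : ∀ v, μ' (ρ w v) = μ' v) (hw' : ∀ v, μ' (ρ w' v) = μ' v) (hne : ψ (B w w') ≠ 1) :
    μ' = 0 := by
  ext v
  have e1 : μ' v = ((ψ (B w w' / 2) : Circle) : ℂ) * μ' (ρ (w + w') v) := by
    have h1 : μ' ((ρ w * ρ w') v) = μ' v := by
      rw [Module.End.mul_apply, hw, hw']
    rw [← h1, hρ]
    simp
  have e2 : μ' v = ((ψ (B w' w / 2) : Circle) : ℂ) * μ' (ρ (w + w') v) := by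
    have h1 : μ' ((ρ w' * ρ w) v) = μ' v := by
      rw [Module.End.mul_apply, hw', hw]
    rw [← h1, hρ, add_comm w' w]
    simp
  by_contra hv
  rw [LinearMap.zero_apply] at hv
  have hX : μ' (ρ (w + w') v) ≠ 0 := by
    intro h0
    rw [h0, mul_zero] at e1
    exact hv e1
  have e3 : ((ψ (B w w' / 2) : Circle) : ℂ) = ((ψ (B w' w / 2) : Circle) : ℂ) :=
    mul_right_cancel₀ hX (e1.symm.trans e2)
  have e4 : ψ (B w w' / 2) = ψ (B w' w / 2) := Circle.ext e3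
  apply hne
  have e5 : B w w' = B w w' / 2 - B w' w / 2 := by
    rw [halt w' w]
    field_simp
    ring
  rw [e5, AddChar.map_sub_eq_div, e4, div_self']

end SpW.Blk
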