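import Pool.Agent.Work.MP_3615d2_al.BlkLagr
import Pool.Agent.Work.MP_3615d2_al.BlkAlg

/-!
MP_3615d2_al: existence of blocks (T4), final form.
-/

open Polynomial
open scoped Quaternion

namespace SpW

variable {F E : Type} [Field F] [Field E] [Algebra F E] {σ : E ≃ₐ[F] E} {δ : E} {d : F} {N : ℕ}
  {H : Matrix (Fin N) (Fin N) E}

theorem BX.blkFacts2 (hq : QuadDatum σ δ d) (hH : IsSkew σ H) (B : Alt N E) {p : F[X]} {n : ℕ}
    {x : Fin N → E} (hx : IsBlock σ H B.1 p n x) : BX.BlkFacts2 σ δ d H B.1 p n x where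
  lin := blk_lin hq hx.kill
  inj := blk_inj hq hH B.2.1 B.2.2 hx
  mulE := blk_E hq hx.kill
  mulJ := blk_J hq hx.kill
  decomp := blk_decomp hq hH B.2.1 B.2.2 hx
  form := by
    obtain ⟨s, _, _, _, h⟩ := blk_form hq hH B.2.1 hx
    exact ⟨s, h⟩

/-- T4: for `m` odd there is a block with `n deg p` odd. -/
theorem exists_odd_block {m : ℕ} (hm : Odd m) {H : Matrix (Fin (2 * m)) (Fin (2 * m)) E}
    (hq : QuadDatum σ δ d) (hH : IsSkew σ H) (B : Alt (2 * m) E) :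
    ∃ (p : F[X]) (n : ℕ) (x : Fin (2 * m) → E), p.Monic ∧ IsBlock σ H B.1 p n x ∧
      Odd (n * p.natDegree) :=
  BX.exists_odd_block_of hm hq hH B fun _ _ _ _ hx => (BX.blkFacts2 hq hH B hx).toBlkFacts

/-- If `X` has no isotropic subspace of half dimension, there is a block with `n` odd and
`K = F[t]/p` not containing a square root of `d`. -/
theorem exists_block_nonsplit {m : ℕ} {H : Matrix (Fin (2 * m)) (Fin (2 * m)) E}
    (hq : QuadDatum σ δ d) (hH : IsSkew σ H) (B : Alt (2 * m) E)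
    (hns : ¬ ∃ Y : Submodule E (Fin (2 * m) → E), Module.finrank E Y = m ∧
      ∀ y ∈ Y, ∀ z ∈ Y, sk σ H y z = 0) :
    ∃ (p : F[X]) (n : ℕ) (x : Fin (2 * m) → E), p.Monic ∧ IsBlock σ H B.1 p n x ∧
      Odd n ∧ ¬ ∃ z : AdjoinRoot p, z * z = algebraMap F (AdjoinRoot p) d :=
  BX.exists_block_nonsplit_of hq hH B (fun _ _ _ _ hx => BX.blkFacts2 hq hH B hx) hns

end SpW
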