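import Pool.Agent.Work.MP_3615d2_al.Quad

/-!
MP_3615d2_al: existence of blocks (T4): elementary facts on `h`, `J`, `A`; a nonzero `J`-stable
subspace with nondegenerate `h` contains a block; the induction for the odd block, with the facts
of the block algebra (T3) collected in the structure `BlkFacts`.
-/

open Polynomial
open scoped Quaternion

namespace SpW.BX

theorem finrank_RR {F : Type} [Field F] {p : F[X]} (n : ℕ) :
    Module.finrank F (RR p n) = n * p.natDegree := by
  have h1 : Module.finrank F (F[X] ⧸ Ideal.span {p ^ n}) = (p ^ n).natDegree :=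
    finrank_quotient_span_eq_natDegree
  rw [natDegree_pow] at h1
  exact h1

theorem finite_RR {F : Type} [Field F] {p : F[X]} (hp : p ≠ 0) (n : ℕ) :
    Module.Finite F (RR p n) :=
  (AdjoinRoot.powerBasis (pow_ne_zero n hp)).finite

theorem finrank_DD {F : Type} [Field F] (d : F) {p : F[X]} (hp : p ≠ 0) (n : ℕ) :
    Module.finrank F (DD d p n) = 4 * (n * p.natDegree) := by
  have hfin := finite_RR hp n
  have e : DD d p n ≃ₗ[F] (Fin 4 → RR p n) :=
    (QuaternionAlgebra.linearEquivTuple (algebraMap F (RR p n) d) 0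
      (AdjoinRoot.root (p ^ n))).restrictScalars F
  rw [e.finrank_eq, Module.finrank_pi_fintype]
  simp [finrank_RR]

variable {F E : Type} [Field F] [Field E] [Algebra F E] {σ : E ≃ₐ[F] E} {δ : E} {d : F} {N : ℕ}
  {H B : Matrix (Fin N) (Fin N) E}

theorem sk_add_left (x x' y : Fin N → E) :
    sk σ H (x + x') y = sk σ H x y + sk σ H x' y := by
  simp only [sk, Pi.add_apply, add_mul, Finset.sum_add_distrib]

theorem sk_add_right (x y y' : Fin N → E) :
    sk σ H x (y + y') = sk σ H x y + sk σ H x y' := by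
  simp only [sk, Pi.add_apply, map_add, mul_add, Finset.sum_add_distrib]

theorem sk_smul_left (c : E) (x y : Fin N → E) : sk σ H (c • x) y = c * sk σ H x y := by
  simp only [sk, Pi.smul_apply, smul_eq_mul, Finset.mul_sum, mul_assoc]

theorem sk_smul_right (c : E) (x y : Fin N → E) : sk σ H x (c • y) = σ c * sk σ H x y := by
  simp only [sk, Pi.smul_apply, smul_eq_mul, map_mul, Finset.mul_sum]
  refine Finset.sum_congr rfl fun i _ => Finset.sum_congr rfl fun j _ => ?_
  ring

theorem sk_fsmul_left (c : F) (x y : Fin N → E) :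
    sk σ H (c • x) y = algebraMap F E c * sk σ H x y := by
  rw [← sk_smul_left]
  simp only [algebraMap_smul]

theorem sk_fsmul_right (c : F) (x y : Fin N → E) :
    sk σ H x (c • y) = algebraMap F E c * sk σ H x y := by
  have h := sk_smul_right (σ := σ) (H := H) (algebraMap F E c) x y
  rw [AlgEquiv.commutes] at h
  rw [← h]
  simp only [algebraMap_smul]

theorem sk_swap (hq : QuadDatum σ δ d) (hH : IsSkew σ H) (x y : Fin N → E) :
    sk σ H y x = - σ (sk σ H x y) := by
  simp only [sk, map_sum, map_mul]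
  rw [Finset.sum_comm, ← Finset.sum_neg_distrib]
  refine Finset.sum_congr rfl fun i _ => ?_
  rw [← Finset.sum_neg_distrib]
  refine Finset.sum_congr rfl fun j _ => ?_
  rw [sig_sig hq, hH.skew i j]
  ring

theorem sk_eq_zero_swap (hq : QuadDatum σ δ d) (hH : IsSkew σ H) {x y : Fin N → E}
    (h : sk σ H x y = 0) : sk σ H y x = 0 := by
  rw [sk_swap hq hH, h, map_zero, neg_zero]

theorem sk_nondeg (hH : IsSkew σ H) (x : Fin N → E) (h : ∀ y, sk σ H x y = 0) : x = 0 := by
  have h1 : Matrix.vecMul x H = 0 := by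
    funext j
    have h2 := h (Pi.single j 1)
    simp only [sk] at h2
    rw [Finset.sum_comm] at h2
    rw [Finset.sum_eq_single j] at h2
    · simpa [Matrix.vecMul, dotProduct] using h2
    · intro b _ hb
      simp [Pi.single_eq_of_ne hb]
    · intro hj
      exact absurd (Finset.mem_univ j) hj
  have hu : IsUnit H := (Matrix.isUnit_iff_isUnit_det _).2 (isUnit_iff_ne_zero.2 hH.det_ne)
  have := Matrix.vecMul_injective_of_isUnit hu
  apply this
  simp only [h1, Matrix.zero_vecMul]

theorem J_form (hq : QuadDatum σ δ d) (hH : IsSkew σ H) (x y : Fin N → E) :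
    sk σ H x (Jlin σ H B y) = x ⬝ᵥ B.mulVec y := by
  have hu : IsUnit H.det := isUnit_iff_ne_zero.2 hH.det_ne
  have h1 : sk σ H x (Jlin σ H B y) = x ⬝ᵥ H.mulVec ((H⁻¹ * B).mulVec y) := by
    simp only [sk, Jlin, LinearMap.coe_mk, AddHom.coe_mk, sig_sig hq, dotProduct, Matrix.mulVec,
      Finset.mul_sum, mul_assoc]
  rw [h1, Matrix.mulVec_mulVec, ← mul_assoc, Matrix.mul_nonsing_inv _ hu, one_mul]

theorem J_adj (hq : QuadDatum σ δ d) (hH : IsSkew σ H) (hB : B.transpose = -B) (x y : Fin N → E) :
    sk σ H x (Jlin σ H B y) = σ (sk σ H (Jlin σ H B x) y) := by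
  rw [sk_swap hq hH y (Jlin σ H B x), J_form hq hH, J_form hq hH, map_neg, sig_sig hq]
  have h1 : y ⬝ᵥ B.mulVec x = - (x ⬝ᵥ B.mulVec y) := by
    rw [Matrix.dotProduct_mulVec, ← Matrix.mulVec_transpose, hB, Matrix.neg_mulVec,
      neg_dotProduct, dotProduct_comm]
  rw [h1, neg_neg]

theorem J_smul (c : E) (x : Fin N → E) : Jlin σ H B (c • x) = σ c • Jlin σ H B x := by
  funext i
  simp only [Jlin, LinearMap.coe_mk, AddHom.coe_mk, Matrix.mulVec_smul, Pi.smul_apply,
    smul_eq_mul, map_mul]

theorem A_adj (hq : QuadDatum σ δ d) (hH : IsSkew σ H) (hB : B.transpose = -B) (x y : Fin N → E) :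
    sk σ H (Alin σ H B x) y = sk σ H x (Alin σ H B y) := by
  have h1 := J_adj hq hH hB x (Jlin σ H B y)
  have h2 := J_adj hq hH hB (Jlin σ H B x) y
  simp only [Alin, Module.End.mul_apply]
  rw [h1, h2, sig_sig hq]

theorem A_poly_adj (hq : QuadDatum σ δ d) (hH : IsSkew σ H) (hB : B.transpose = -B) (f : F[X])
    (x y : Fin N → E) :
    sk σ H (aeval (Alin σ H B) f x) y = sk σ H x (aeval (Alin σ H B) f y) := by
  induction f using Polynomial.induction_on' generalizing x y with
  | add p q hp hq' =>
    simp only [map_add, LinearMap.add_apply, sk_add_left, sk_add_right, hp, hq']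
  | monomial n a =>
    rw [← C_mul_X_pow_eq_monomial]
    simp only [map_mul, aeval_C, map_pow, aeval_X, Module.End.mul_apply,
      Module.algebraMap_end_apply, sk_fsmul_left, sk_fsmul_right]
    congr 1
    induction n generalizing x y with
    | zero => simp
    | succ k ih =>
      rw [pow_succ, Module.End.mul_apply, ih, A_adj hq hH hB, ← Module.End.mul_apply, ← pow_succ',
        pow_succ]

/-- `E`-subspaces stable under `J` on which `h` is nondegenerate. -/
structure Good (σ : E ≃ₐ[F] E) (H B : Matrix (Fin N) (Fin N) E)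
    (V : Submodule E (Fin N → E)) : Prop where
  stab : ∀ y ∈ V, Jlin σ H B y ∈ V
  nondeg : ∀ x ∈ V, (∀ y ∈ V, sk σ H x y = 0) → x = 0

theorem Good.A_mem {V : Submodule E (Fin N → E)} (hV : Good σ H B V) {y : Fin N → E}
    (hy : y ∈ V) : Alin σ H B y ∈ V := by
  rw [Alin, Module.End.mul_apply]
  exact hV.stab _ (hV.stab _ hy)

theorem Good.poly_mem {V : Submodule E (Fin N → E)} (hV : Good σ H B V) (f : F[X])
    {y : Fin N → E} (hy : y ∈ V) : aeval (Alin σ H B) f y ∈ V := by
  induction f using Polynomial.induction_on' with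
  | add p q hp hq' =>
    rw [map_add, LinearMap.add_apply]
    exact V.add_mem hp hq'
  | monomial n a =>
    rw [← C_mul_X_pow_eq_monomial]
    simp only [map_mul, aeval_C, map_pow, aeval_X, Module.End.mul_apply,
      Module.algebraMap_end_apply]
    have h1 : ((Alin σ H B) ^ n) y ∈ V := by
      induction n with
      | zero => simpa using hy
      | succ k ih =>
        rw [pow_succ', Module.End.mul_apply]
        exact hV.A_mem ih
    have h2 := V.smul_mem (algebraMap F E a) h1
    simpa only [algebraMap_smul] using h2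

/-- Existence of a block inside a nonzero good subspace. -/
theorem Good.exists_block (hq : QuadDatum σ δ d) (hH : IsSkew σ H) (hB : B.transpose = -B)
    {V : Submodule E (Fin N → E)} (hV : Good σ H B V) (hne : V ≠ ⊥) :
    ∃ (p : F[X]) (n : ℕ) (x : Fin N → E), x ∈ V ∧ p.Monic ∧ IsBlock σ H B p n x := by
  have hfin := hq.finite
  have hfX : FiniteDimensional F (Fin N → E) := inferInstance
  set VF : Submodule F (Fin N → E) := V.restrictScalars F with hVF
  have hmem : ∀ y, y ∈ VF ↔ y ∈ V := fun y => Iff.rfl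
  have hst : ∀ y ∈ VF, Alin σ H B y ∈ VF := fun y hy => hV.A_mem hy
  set AV : Module.End F VF := (Alin σ H B).restrict hst with hAV
  have haev : ∀ (f : F[X]) (y : VF), ((aeval AV f y : VF) : Fin N → E) =
      aeval (Alin σ H B) f (y : Fin N → E) := by
    intro f y
    induction f using Polynomial.induction_on' with
    | add p q hp hq' =>
      rw [map_add, LinearMap.add_apply, map_add, LinearMap.add_apply, Submodule.coe_add, hp, hq']
    | monomial n a =>
      rw [← C_mul_X_pow_eq_monomial]
      simp only [map_mul, aeval_C, map_pow, aeval_X, Module.End.mul_apply,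
        Module.algebraMap_end_apply, Submodule.coe_smul]
      congr 1
      induction n generalizing y with
      | zero => simp
      | succ k ih =>
        rw [pow_succ, Module.End.mul_apply, ih, pow_succ, Module.End.mul_apply]
        rfl
  obtain ⟨v0, hv0, hv0ne⟩ := (Submodule.ne_bot_iff V).1 hne
  have hnt : Nontrivial VF := ⟨⟨⟨v0, hv0⟩, 0, fun h => hv0ne (congrArg Subtype.val h)⟩⟩
  have hint : IsIntegral F AV := Algebra.IsIntegral.isIntegral AV
  have hnu : ¬ IsUnit (minpoly F AV) := minpoly.not_isUnit F AV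
  obtain ⟨p, hpm, hpi, hpd⟩ := Polynomial.exists_monic_irreducible_factor (minpoly F AV) hnu
  have hm0 : minpoly F AV ≠ 0 := minpoly.ne_zero hint
  have hfm : FiniteMultiplicity p (minpoly F AV) :=
    FiniteMultiplicity.of_not_isUnit hpi.not_isUnit hm0
  obtain ⟨q, hq1, hq2⟩ := hfm.exists_eq_pow_mul_and_not_dvd
  set n := multiplicity p (minpoly F AV) with hn
  have hn0 : 0 < n := by
    by_contra h0
    have : n = 0 := by omega
    rw [this, pow_zero, one_mul] at hq1
    exact hq2 (hq1 ▸ hpd)
  -- find `y` with `h(p^(n-1) q y, q y) ≠ 0`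
  have hex : ∃ y ∈ V, sk σ H (aeval (Alin σ H B) (p ^ (n - 1) * q ^ 2) y) y ≠ 0 := by
    by_contra hno
    push Not at hno
    set T := aeval (Alin σ H B) (p ^ (n - 1) * q ^ 2) with hT
    have hTadj : ∀ x y, sk σ H (T x) y = sk σ H x (T y) := A_poly_adj hq hH hB _
    have h1 : ∀ y ∈ V, ∀ z ∈ V, sk σ H (T y) z = σ (sk σ H (T y) z) := by
      intro y hy z hz
      have h2 := hno (y + z) (V.add_mem hy hz)
      rw [map_add, sk_add_left, sk_add_right, sk_add_right, hno y hy, hno z hz, zero_add,
        add_zero, hTadj z y, sk_swap hq hH (T y) z] at h2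
      linear_combination h2
    have h3 : ∀ y ∈ V, ∀ z ∈ V, sk σ H (T y) z = 0 := by
      intro y hy z hz
      have h4 := h1 y hy (δ • z) (V.smul_mem _ hz)
      rw [sk_smul_right, hq.sig, map_mul, map_neg, hq.sig, ← h1 y hy z hz] at h4
      have h5 : (2 : E) * (δ * sk σ H (T y) z) = 0 := by linear_combination -h4
      exact (mul_eq_zero.1 ((mul_eq_zero.1 h5).resolve_left hq.two_E)).resolve_left hq.ne
    have h6 : ∀ y ∈ V, T y = 0 := by
      intro y hy
      exact hV.nondeg _ (hV.poly_mem _ hy) (h3 y hy)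
    have h7 : aeval AV (p ^ (n - 1) * q ^ 2) = 0 := by
      ext y : 1
      apply Subtype.ext
      rw [haev]
      exact h6 _ y.2
    have h8 : minpoly F AV ∣ p ^ (n - 1) * q ^ 2 := minpoly.dvd F AV h7
    rw [hq1] at h8
    have h9 : p ^ n * q = p ^ (n - 1) * q * p := by
      obtain ⟨k, hk⟩ : ∃ k, n = k + 1 := ⟨n - 1, by omega⟩
      rw [hk, Nat.add_sub_cancel, pow_succ]; ring
    rw [h9, pow_two, ← mul_assoc] at h8
    have hq0 : q ≠ 0 := by
      rintro rfl
      exact hq2 (dvd_zero _)
    have hne' : p ^ (n - 1) * q ≠ 0 := mul_ne_zero (pow_ne_zero _ hpi.ne_zero) hq0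
    exact hq2 ((mul_dvd_mul_iff_left hne').1 h8)
  obtain ⟨y, hy, hyne⟩ := hex
  refine ⟨p, n, aeval (Alin σ H B) q y, hV.poly_mem _ hy, hpm, hpi, hn0, ?_, 1, ?_⟩
  · rw [← Module.End.mul_apply, ← map_mul, ← hq1]
    have h1 := haev (minpoly F AV) ⟨y, hy⟩
    have h0 : (aeval AV) (minpoly F AV) = 0 := minpoly.aeval F AV
    rw [h0] at h1
    exact h1.symm
  · rw [one_mul]
    intro h
    apply hyne
    have e1 : p ^ (n - 1) * q ^ 2 = q * (p ^ (n - 1) * q) := by ring
    rw [e1, map_mul, Module.End.mul_apply, A_poly_adj hq hH hB, map_mul, Module.End.mul_apply]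
    exact h

/-- The facts of the block algebra needed here. -/
structure BlkFacts (σ : E ≃ₐ[F] E) (δ : E) (d : F) {N : ℕ} (H B : Matrix (Fin N) (Fin N) E)
    (p : F[X]) (n : ℕ) (x : Fin N → E) : Prop where
  lin : ∃ f : DD d p n →ₗ[F] (Fin N → E), ∀ a, f a = blk σ H B δ p n x a
  inj : Function.Injective (blk σ H B δ (d := d) p n x)
  mulE : ∀ a : DD d p n, δ • blk σ H B δ p n x a = blk σ H B δ p n x (⟨0, 1, 0, 0⟩ * a)
  mulJ : ∀ a : DD d p n, Jlin σ H B (blk σ H B δ p n x a) = blk σ H B δ p n x (⟨0, 0, 1, 0⟩ * a)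
  decomp : ∀ y : Fin N → E, ∃ (a : DD d p n) (z : Fin N → E), y = blk σ H B δ p n x a + z ∧
    ∀ b : DD d p n, sk σ H (blk σ H B δ p n x b) z = 0

theorem Good.ract_mem {V : Submodule E (Fin N → E)} (hV : Good σ H B V) {p : F[X]} {n : ℕ}
    {x : Fin N → E} (hx : x ∈ V) (r : RR p n) : ract σ H B p n x r ∈ V := by
  rw [ract]
  exact hV.poly_mem _ hx

theorem Good.blk_mem {V : Submodule E (Fin N → E)} (hV : Good σ H B V) {p : F[X]} {n : ℕ}
    {x : Fin N → E} (hx : x ∈ V) (a : DD d p n) : blk σ H B δ p n x a ∈ V := by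
  rw [blk]
  refine V.add_mem (V.add_mem (V.add_mem ?_ ?_) ?_) ?_
  · exact hV.ract_mem hx _
  · exact V.smul_mem _ (hV.ract_mem hx _)
  · exact hV.ract_mem (hV.stab _ hx) _
  · exact V.smul_mem _ (hV.ract_mem (hV.stab _ hx) _)

/-- The induction. -/
theorem Good.odd_or (hq : QuadDatum σ δ d) (hH : IsSkew σ H) (hB : B.transpose = -B)
    (hfacts : ∀ (p : F[X]) (n : ℕ) (x : Fin N → E), p.Monic → IsBlock σ H B p n x →
      BlkFacts σ δ d H B p n x) (k : ℕ) :
    ∀ (V : Submodule E (Fin N → E)), Good σ H B V → Module.finrank F V = k →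
    (∃ (p : F[X]) (n : ℕ) (x : Fin N → E), p.Monic ∧ IsBlock σ H B p n x ∧
      Odd (n * p.natDegree)) ∨ 8 ∣ k := by
  induction k using Nat.strong_induction_on with
  | _ k ih =>
    intro V hV hk
    have hfin := hq.finite
    have hfX : FiniteDimensional F (Fin N → E) := inferInstance
    by_cases hne : V = ⊥
    · right
      subst hne
      have : Module.finrank F (⊥ : Submodule E (Fin N → E)) = 0 :=
        Module.finrank_zero_of_subsingleton
      rw [← hk, this]
      exact dvd_zero _
    obtain ⟨p, n, x, hxV, hpm, hx⟩ := hV.exists_block hq hH hB hne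
    by_cases hodd : Odd (n * p.natDegree)
    · exact Or.inl ⟨p, n, x, hpm, hx, hodd⟩
    have hf := hfacts p n x hpm hx
    obtain ⟨f, hf1⟩ := hf.lin
    -- the orthogonal complement
    let V' : Submodule E (Fin N → E) :=
      { carrier := {y | y ∈ V ∧ ∀ a : DD d p n, sk σ H (blk σ H B δ p n x a) y = 0}
        add_mem' := by
          rintro y z ⟨hy1, hy2⟩ ⟨hz1, hz2⟩
          refine ⟨V.add_mem hy1 hz1, fun a => ?_⟩
          rw [sk_add_right, hy2, hz2, add_zero]
        zero_mem' := by
          refine ⟨V.zero_mem, fun a => ?_⟩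
          simp [sk]
        smul_mem' := by
          rintro c y ⟨hy1, hy2⟩
          refine ⟨V.smul_mem _ hy1, fun a => ?_⟩
          rw [sk_smul_right, hy2, mul_zero] }
    have hV'mem : ∀ y, y ∈ V' ↔ (y ∈ V ∧ ∀ a : DD d p n, sk σ H (blk σ H B δ p n x a) y = 0) :=
      fun y => Iff.rfl
    have hdec : ∀ v ∈ V, ∃ (a : DD d p n) (z : Fin N → E), z ∈ V' ∧
        v = blk σ H B δ p n x a + z := by
      intro v hv
      obtain ⟨a, z, h1, h2⟩ := hf.decomp v
      refine ⟨a, z, (hV'mem z).2 ⟨?_, h2⟩, h1⟩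
      have : z = v - blk σ H B δ p n x a := by rw [h1]; abel
      rw [this]
      exact V.sub_mem hv (hV.blk_mem hxV a)
    have hGood : Good σ H B V' := by
      constructor
      · intro y hy
        rw [hV'mem] at hy ⊢
        refine ⟨hV.stab _ hy.1, fun a => ?_⟩
        rw [J_adj hq hH hB, hf.mulJ, hy.2, map_zero]
      · intro y hy hy0
        rw [hV'mem] at hy
        apply hV.nondeg y hy.1
        intro v hv
        obtain ⟨a, z, hz, rfl⟩ := hdec v hv
        rw [sk_add_right, hy0 z hz, add_zero]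
        exact sk_eq_zero_swap hq hH (hy.2 a)
    -- dimension count
    have hdim : Module.finrank F V = 4 * (n * p.natDegree) + Module.finrank F V' := by
      let VF : Submodule F (Fin N → E) := V.restrictScalars F
      let V'F : Submodule F (Fin N → E) := V'.restrictScalars F
      have e1 : Module.finrank F V = Module.finrank F VF := rfl
      have e2 : Module.finrank F V' = Module.finrank F V'F := rfl
      have hrange : Module.finrank F (LinearMap.range f) = 4 * (n * p.natDegree) := by
        rw [LinearMap.finrank_range_of_inj, finrank_DD d hpm.ne_zero]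
        intro a b hab
        apply hf.inj
        rw [← hf1, ← hf1, hab]
      have hsup : LinearMap.range f ⊔ V'F = VF := by
        apply le_antisymm
        · apply sup_le
          · rintro _ ⟨a, rfl⟩
            rw [hf1]
            exact hV.blk_mem hxV a
          · intro y hy
            exact ((hV'mem y).1 hy).1
        · intro v hv
          obtain ⟨a, z, hz, rfl⟩ := hdec v hv
          exact Submodule.add_mem_sup ⟨a, hf1 a⟩ hz
      have hinf : LinearMap.range f ⊓ V'F = ⊥ := by
        rw [eq_bot_iff]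
        rintro y ⟨⟨a, ha⟩, hy⟩
        rw [Submodule.mem_bot]
        have hy' := (hV'mem y).1 hy
        apply hGood.nondeg y hy
        intro z hz
        rw [← ha, hf1]
        exact ((hV'mem z).1 hz).2 a
      have := Submodule.finrank_sup_add_finrank_inf_eq (LinearMap.range f) V'F
      rw [hsup, hinf, finrank_bot, add_zero, hrange] at this
      rw [e1, e2, this]
    have hpos : 0 < n * p.natDegree :=
      Nat.mul_pos hx.pos (Irreducible.natDegree_pos hx.irr)
    have hlt : Module.finrank F V' < k := by omega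
    rcases ih _ hlt V' hGood rfl with h | h
    · exact Or.inl h
    · right
      rw [← hk, hdim]
      rw [Nat.not_odd_iff_even] at hodd
      obtain ⟨c, hc⟩ := hodd
      rw [hc]
      apply Nat.dvd_add _ h
      exact ⟨c, by ring⟩

theorem exists_odd_block_of {m : ℕ} (hm : Odd m) {H : Matrix (Fin (2 * m)) (Fin (2 * m)) E}
    (hq : QuadDatum σ δ d) (hH : IsSkew σ H) (B : Alt (2 * m) E)
    (hfacts : ∀ (p : F[X]) (n : ℕ) (x : Fin (2 * m) → E), p.Monic → IsBlock σ H B.1 p n x →
      BlkFacts σ δ d H B.1 p n x) :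
    ∃ (p : F[X]) (n : ℕ) (x : Fin (2 * m) → E), p.Monic ∧ IsBlock σ H B.1 p n x ∧
      Odd (n * p.natDegree) := by
  have hfin := hq.finite
  have hG : Good σ H B.1 (⊤ : Submodule E (Fin (2 * m) → E)) :=
    ⟨fun y _ => Submodule.mem_top, fun x _ h => sk_nondeg hH x fun y => h y Submodule.mem_top⟩
  have hd : Module.finrank F (⊤ : Submodule E (Fin (2 * m) → E)) = 4 * m := by
    have e : (⊤ : Submodule E (Fin (2 * m) → E)) ≃ₗ[F] (Fin (2 * m) → E) :=
      (Submodule.topEquiv (R := E) (M := Fin (2 * m) → E)).restrictScalars F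
    rw [e.finrank_eq, Module.finrank_pi_fintype]
    simp [hq.rank]
    ring
  rcases Good.odd_or hq hH B.2.1 hfacts _ _ hG hd with h | h
  · exact h
  · exfalso
    obtain ⟨c, hc⟩ := hm
    omega

end SpW.BX
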