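import Pool.Agent.Work.MP_3615d2_al.BlkFind
import Pool.Agent.Work.MP_3615d2_al.Bridge

/-!
MP_3615d2_al: `X` without isotropic subspace of half dimension has, for every alternating form, a
block of type `(p,n)` with `n` odd and `K = F[t]/p` not containing a square root of `d`.
-/

open Polynomial
open scoped Quaternion

namespace SpW.BX

section lift

variable {F : Type} [Field F]

/-- A square root of `d` in `F[t]/p` lifts to `F[t]/p^n`. -/
theorem exists_sqrt_lift (h2 : (2 : F) ≠ 0) {d : F} (hd : d ≠ 0) {p : F[X]} (n : ℕ)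
    (hz : ∃ z : AdjoinRoot p, z * z = algebraMap F (AdjoinRoot p) d) :
    ∃ z : RR p n, z * z = algebraMap F (RR p n) d := by
  obtain ⟨z, hz⟩ := hz
  obtain ⟨f, rfl⟩ := AdjoinRoot.mk_surjective z
  have h1 : p ∣ f * f - C d := by
    rw [← AdjoinRoot.mk_eq_zero, map_sub, map_mul, hz]
    exact sub_self _
  obtain ⟨g, hg⟩ := h1
  set x : RR p n := AdjoinRoot.mk (p ^ n) f with hx
  have hxx : x * x = algebraMap F (RR p n) d + AdjoinRoot.mk (p ^ n) (p * g) := by
    have : f * f = C d + p * g := by rw [← hg]; ring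
    rw [hx, ← map_mul, this, map_add]
    rfl
  have hnil : IsNilpotent (AdjoinRoot.mk (p ^ n) (p * g)) := by
    refine ⟨n, ?_⟩
    rw [← map_pow, AdjoinRoot.mk_eq_zero, mul_pow]
    exact dvd_mul_right _ _
  have hdu : IsUnit (algebraMap F (RR p n) d) := (isUnit_iff_ne_zero.2 hd).map _
  have hxu : IsUnit x := by
    have : IsUnit (x * x) := by
      rw [hxx]
      exact (hnil.isUnit_add_left_of_commute hdu (Commute.all _ _))
    exact isUnit_of_mul_isUnit_left this
  have hP : aeval x (X ^ 2 - C d : F[X]) = AdjoinRoot.mk (p ^ n) (p * g) := by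
    simp only [map_sub, map_pow, aeval_X, aeval_C]
    rw [pow_two, hxx, add_sub_cancel_left]
  have hP' : aeval x (derivative (X ^ 2 - C d : F[X])) = 2 * x := by
    simp
    ring
  have hu : IsUnit (aeval x (derivative (X ^ 2 - C d : F[X]))) := by
    rw [hP']
    refine IsUnit.mul ?_ hxu
    have : (2 : RR p n) = algebraMap F (RR p n) 2 := by rw [map_ofNat]
    rw [this]
    exact (isUnit_iff_ne_zero.2 h2).map _
  obtain ⟨r, ⟨_, hr⟩, _⟩ := Polynomial.existsUnique_nilpotent_sub_and_aeval_eq_zero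
    (P := (X ^ 2 - C d : F[X])) (x := x) (by rw [hP]; exact hnil) hu
  refine ⟨r, ?_⟩
  simp only [map_sub, map_pow, aeval_X, aeval_C] at hr
  rw [← pow_two]
  exact sub_eq_zero.1 hr

end lift

section quat

variable {R : Type} [CommRing R] {α β : R}

/-- An element `g` of a quaternion algebra commuting with `i`, with `ḡ g = 0` and
`ker ḡ = g D`. -/
structure LagElt (g : QuaternionAlgebra R α 0 β) : Prop where
  comm : (⟨0, 1, 0, 0⟩ : QuaternionAlgebra R α 0 β) * g = g * ⟨0, 1, 0, 0⟩
  zero : star g * g = 0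
  ker : ∀ c : QuaternionAlgebra R α 0 β, star g * c = 0 →
    ∃ c' : QuaternionAlgebra R α 0 β, c = g * c'

theorem lagElt_scalar (w : R) (hww : w * w = 0) (hker : ∀ r : R, w * r = 0 → ∃ r', r = w * r') :
    LagElt (⟨w, 0, 0, 0⟩ : QuaternionAlgebra R α 0 β) := by
  refine ⟨?_, ?_, ?_⟩
  · ext <;> simp
  · ext <;> simp [hww]
  · intro c hc
    have h0 : w * c.re = 0 := by simpa using congrArg QuaternionAlgebra.re hc
    have h1 : w * c.imI = 0 := by simpa using congrArg QuaternionAlgebra.imI hc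
    have h2 : w * c.imJ = 0 := by simpa using congrArg QuaternionAlgebra.imJ hc
    have h3 : w * c.imK = 0 := by simpa using congrArg QuaternionAlgebra.imK hc
    obtain ⟨a0, ha0⟩ := hker _ h0
    obtain ⟨a1, ha1⟩ := hker _ h1
    obtain ⟨a2, ha2⟩ := hker _ h2
    obtain ⟨a3, ha3⟩ := hker _ h3
    refine ⟨⟨a0, a1, a2, a3⟩, ?_⟩
    ext
    · simpa using ha0
    · simpa using ha1
    · simpa using ha2
    · simpa using ha3

theorem lagElt_idem (h z : R) (hh : h + h = 1) (hz : α * z * z = h * h) :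
    LagElt (⟨h, z, 0, 0⟩ : QuaternionAlgebra R α 0 β) := by
  refine ⟨?_, ?_, ?_⟩
  · ext <;> simp
  · ext
    · simp
      linear_combination -hz
    · simp
      ring
    · simp
    · simp
  · intro c hc
    refine ⟨c, ?_⟩
    set g : QuaternionAlgebra R α 0 β := ⟨h, z, 0, 0⟩ with hg
    have h1 : g + star g = 1 := by
      ext
      · simp [hg, hh]
      · simp [hg]
      · simp [hg]
      · simp [hg]
    calc c = (g + star g) * c := by rw [h1, one_mul]
      _ = g * c + star g * c := add_mul _ _ _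
      _ = g * c := by rw [hc, add_zero]

end quat

section lift

variable {F : Type} [Field F]

theorem exists_lagElt_even (d : F) {p : F[X]} (hp : p ≠ 0) (l : ℕ) :
    ∃ g : DD d p (l + l), LagElt g := by
  refine ⟨⟨AdjoinRoot.mk (p ^ (l + l)) (p ^ l), 0, 0, 0⟩, lagElt_scalar _ ?_ ?_⟩
  · rw [← map_mul, ← pow_add, AdjoinRoot.mk_self]
  · intro r hr
    obtain ⟨f, rfl⟩ := AdjoinRoot.mk_surjective r
    rw [← map_mul, AdjoinRoot.mk_eq_zero, pow_add] at hr
    obtain ⟨g, hg⟩ := (mul_dvd_mul_iff_left (pow_ne_zero l hp)).1 hr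
    refine ⟨AdjoinRoot.mk _ g, ?_⟩
    rw [← map_mul, hg]

theorem exists_lagElt_split (h2 : (2 : F) ≠ 0) {d : F} (hd : d ≠ 0) {p : F[X]} (n : ℕ)
    (hz : ∃ z : AdjoinRoot p, z * z = algebraMap F (AdjoinRoot p) d) :
    ∃ g : DD d p n, LagElt g := by
  obtain ⟨z, hz⟩ := exists_sqrt_lift h2 hd n hz
  refine ⟨⟨algebraMap F (RR p n) (2⁻¹), algebraMap F (RR p n) (2⁻¹ * d⁻¹) * z, 0, 0⟩,
    lagElt_idem _ _ ?_ ?_⟩
  · rw [← map_add, ← two_mul, mul_inv_cancel₀ h2, map_one]
  · have : algebraMap F (RR p n) d * (algebraMap F (RR p n) (2⁻¹ * d⁻¹) * z) *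
      (algebraMap F (RR p n) (2⁻¹ * d⁻¹) * z) =
      algebraMap F (RR p n) d * algebraMap F (RR p n) (2⁻¹ * d⁻¹) *
        algebraMap F (RR p n) (2⁻¹ * d⁻¹) * (z * z) := by ring
    rw [this, hz, ← map_mul, ← map_mul, ← map_mul, ← map_mul]
    congr 1
    field_simp

end lift

section quat2

variable {R : Type} [CommRing R] {α β : R}

theorem re_mul_comm (x y : QuaternionAlgebra R α 0 β) : (x * y).re = (y * x).re := by
  simp
  ring

theorem LagElt.star_comm {g : QuaternionAlgebra R α 0 β} (hg : LagElt g) :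
    star g * (⟨0, 1, 0, 0⟩ : QuaternionAlgebra R α 0 β) =
      (⟨0, 1, 0, 0⟩ : QuaternionAlgebra R α 0 β) * star g := by
  have h1 := congrArg star hg.comm
  rw [star_mul, star_mul] at h1
  have h2 : star (⟨0, 1, 0, 0⟩ : QuaternionAlgebra R α 0 β) = -⟨0, 1, 0, 0⟩ := by
    ext <;> simp
  rw [h2, mul_neg, neg_mul, neg_inj] at h1
  exact h1

theorem LagElt.form_zero {g : QuaternionAlgebra R α 0 β} (hg : LagElt g)
    (a b : QuaternionAlgebra R α 0 β) :
    ((⟨0, 1, 0, 0⟩ : QuaternionAlgebra R α 0 β) * (g * a) * star (g * b)).re = 0 := by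
  rw [star_mul, ← mul_assoc _ (star b) (star g), re_mul_comm]
  have : star g * ((⟨0, 1, 0, 0⟩ : QuaternionAlgebra R α 0 β) * (g * a) * star b) =
      (⟨0, 1, 0, 0⟩ : QuaternionAlgebra R α 0 β) * (star g * g) * (a * star b) := by
    rw [← mul_assoc, ← mul_assoc, hg.star_comm]
    simp only [mul_assoc]
  rw [this, hg.zero]
  simp

theorem LagElt.form_adj {g : QuaternionAlgebra R α 0 β} (hg : LagElt g)
    (a b : QuaternionAlgebra R α 0 β) :
    ((⟨0, 1, 0, 0⟩ : QuaternionAlgebra R α 0 β) * (g * b) * star a).re =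
      ((⟨0, 1, 0, 0⟩ : QuaternionAlgebra R α 0 β) * b * star (star g * a)).re := by
  rw [star_mul, star_star, ← mul_assoc (_ * b) (star a) g, re_mul_comm (_ * b * star a) g]
  congr 1
  rw [← mul_assoc _ g b, hg.comm]
  simp only [mul_assoc]

end quat2

section main

variable {F E : Type} [Field F] [Field E] [Algebra F E] {σ : E ≃ₐ[F] E} {δ : E} {d : F} {N : ℕ}
  {H B : Matrix (Fin N) (Fin N) E}

theorem eq_zero_of_trace (hq : QuadDatum σ δ d) {u : E} (h1 : Algebra.trace F E u = 0)
    (h2 : Algebra.trace F E (δ * u) = 0) : u = 0 := by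
  have e1 := hq.trace_eq u
  have e2 := hq.trace_eq (δ * u)
  rw [h1, map_zero] at e1
  rw [h2, map_zero, map_mul, hq.sig] at e2
  have e3 : δ * (u - σ u) = 0 := by linear_combination -e2
  have e4 := (mul_eq_zero.1 e3).resolve_left hq.ne
  have e5 : (2 : E) * u = 0 := by linear_combination e4 - e1
  exact (mul_eq_zero.1 e5).resolve_left hq.two_E

theorem sk_eq_zero_of_sympl (hq : QuadDatum σ δ d) {x y : Fin N → E}
    (h1 : sympl F σ H x y = 0) (h2 : sympl F σ H (δ • x) y = 0) : sk σ H x y = 0 := by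
  apply eq_zero_of_trace hq h1
  rw [← sk_smul_left]
  exact h2

/-- The facts of the block algebra, with the form. -/
structure BlkFacts2 (σ : E ≃ₐ[F] E) (δ : E) (d : F) {N : ℕ} (H B : Matrix (Fin N) (Fin N) E)
    (p : F[X]) (n : ℕ) (x : Fin N → E) : Prop extends BlkFacts σ δ d H B p n x where
  form : ∃ s : RR p n →ₗ[F] F, ∀ a b : DD d p n,
    sympl F σ H (blk σ H B δ p n x a) (blk σ H B δ p n x b) =
      s (2 * ((⟨0, 1, 0, 0⟩ : DD d p n) * a * star b).re)

/-- An element `g` as in `LagElt` gives a Lagrangian subspace of the block. -/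
theorem exists_lagr (hq : QuadDatum σ δ d) (hH : IsSkew σ H) {p : F[X]} {n : ℕ}
    {x : Fin N → E} (hf : BlkFacts2 σ δ d H B p n x) {g : DD d p n} (hg : LagElt g) :
    ∃ Y : Submodule E (Fin N → E), (∀ y ∈ Y, ∃ a : DD d p n, y = blk σ H B δ p n x a) ∧
      (∀ y ∈ Y, ∀ z ∈ Y, sk σ H y z = 0) ∧
      (∀ a : DD d p n, (∀ y ∈ Y, sk σ H y (blk σ H B δ p n x a) = 0) →
        blk σ H B δ p n x a ∈ Y) := by
  obtain ⟨f, hf1⟩ := hf.lin
  obtain ⟨s, hs⟩ := hf.form
  have hmulE : ∀ a : DD d p n, δ • f (g * a) = f (g * (⟨0, 1, 0, 0⟩ * a)) := by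
    intro a
    rw [hf1, hf1, hf.mulE, ← mul_assoc, hg.comm, mul_assoc]
  let Y : Submodule E (Fin N → E) :=
    { carrier := {y | ∃ a : DD d p n, y = f (g * a)}
      add_mem' := by
        rintro _ _ ⟨a, rfl⟩ ⟨b, rfl⟩
        exact ⟨a + b, by rw [mul_add, map_add]⟩
      zero_mem' := ⟨0, by rw [mul_zero, map_zero]⟩
      smul_mem' := by
        rintro c _ ⟨a, rfl⟩
        obtain ⟨u, v, rfl⟩ := hq.exists_coord c
        refine ⟨u • a + v • (⟨0, 1, 0, 0⟩ * a), ?_⟩
        rw [mul_add, map_add, add_smul, mul_smul, hmulE, Algebra.mul_smul_comm,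
          Algebra.mul_smul_comm, map_smul, map_smul, algebraMap_smul, algebraMap_smul] }
  have hYmem : ∀ y, y ∈ Y ↔ ∃ a : DD d p n, y = f (g * a) := fun y => Iff.rfl
  have hiso : ∀ a b : DD d p n, sk σ H (f (g * a)) (f (g * b)) = 0 := by
    intro a b
    apply sk_eq_zero_of_sympl hq
    · rw [hf1, hf1, hs, hg.form_zero, mul_zero, map_zero]
    · rw [hmulE, hf1, hf1, hs, hg.form_zero, mul_zero, map_zero]
  refine ⟨Y, ?_, ?_, ?_⟩
  · rintro y ⟨a, rfl⟩
    exact ⟨g * a, hf1 _⟩
  · rintro _ ⟨a, rfl⟩ _ ⟨b, rfl⟩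
    exact hiso a b
  · intro a ha
    have h1 : ∀ b : DD d p n, sympl F σ H (blk σ H B δ p n x b)
        (blk σ H B δ p n x (star g * a)) = 0 := by
      intro b
      rw [hs, ← hg.form_adj, ← hs]
      have := ha (f (g * b)) ⟨b, rfl⟩
      rw [hf1] at this
      rw [sympl_eq, this, map_zero]
    have h2 : ∀ b : DD d p n, sk σ H (blk σ H B δ p n x b)
        (blk σ H B δ p n x (star g * a)) = 0 := by
      intro b
      apply sk_eq_zero_of_sympl hq (h1 b)
      rw [hf.mulE]
      exact h1 _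
    have h3 : blk σ H B δ p n x (star g * a) = 0 := by
      apply sk_nondeg hH
      intro y
      obtain ⟨c, z, rfl, hz⟩ := hf.decomp y
      rw [sk_add_right, hz, add_zero]
      exact sk_eq_zero_swap hq hH (h2 c)
    have h4 : star g * a = 0 := by
      apply hf.inj
      rw [h3, ← hf1, map_zero]
    obtain ⟨c, hc⟩ := hg.ker a h4
    exact ⟨c, by rw [← hc, hf1]⟩

/-- The induction: a good block, or a Lagrangian subspace. -/
theorem Good.block_or_lagr (hq : QuadDatum σ δ d) (hH : IsSkew σ H) (hB : B.transpose = -B)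
    (hfacts : ∀ (p : F[X]) (n : ℕ) (x : Fin N → E), p.Monic → IsBlock σ H B p n x →
      BlkFacts2 σ δ d H B p n x) (k : ℕ) :
    ∀ (V : Submodule E (Fin N → E)), Good σ H B V → Module.finrank E V = k →
    (∃ (p : F[X]) (n : ℕ) (x : Fin N → E), p.Monic ∧ IsBlock σ H B p n x ∧
      Odd n ∧ ¬ ∃ z : AdjoinRoot p, z * z = algebraMap F (AdjoinRoot p) d) ∨
    ∃ Y : Submodule E (Fin N → E), Y ≤ V ∧ (∀ y ∈ Y, ∀ z ∈ Y, sk σ H y z = 0) ∧
      ∀ v ∈ V, (∀ y ∈ Y, sk σ H y v = 0) → v ∈ Y := by
  induction k using Nat.strong_induction_on with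
  | _ k ih =>
    intro V hV hk
    have hfin := hq.finite
    by_cases hne : V = ⊥
    · right
      subst hne
      exact ⟨⊥, le_rfl, by
        intro y hy z _
        rw [(Submodule.mem_bot E).1 hy]; simp [sk], fun v hv _ => hv⟩
    obtain ⟨p, n, x, hxV, hpm, hx⟩ := hV.exists_block hq hH hB hne
    by_cases hgood : Odd n ∧ ¬ ∃ z : AdjoinRoot p, z * z = algebraMap F (AdjoinRoot p) d
    · exact Or.inl ⟨p, n, x, hpm, hx, hgood⟩
    have hg : ∃ g : DD d p n, LagElt g := by
      rw [not_and_or, Nat.not_odd_iff_even, not_not] at hgood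
      rcases hgood with ⟨l, rfl⟩ | h
      · exact exists_lagElt_even d hpm.ne_zero l
      · exact exists_lagElt_split hq.two hq.d_ne n h
    obtain ⟨g, hg⟩ := hg
    have hf := hfacts p n x hpm hx
    obtain ⟨Y1, hY1a, hY1b, hY1c⟩ := exists_lagr hq hH hf hg
    -- the orthogonal complement
    let V' : Submodule E (Fin N → E) :=
      { carrier := {y | y ∈ V ∧ ∀ a : DD d p n, sk σ H (blk σ H B δ p n x a) y = 0}
        add_mem' := by
          rintro y z ⟨hy1, hy2⟩ ⟨hz1, hz2⟩
          refine ⟨V.add_mem hy1 hz1, fun a => ?_⟩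
          rw [sk_add_right, hy2, hz2, add_zero]
        zero_mem' := by
          refine ⟨V.zero_mem, fun a => ?_⟩
          simp [sk]
        smul_mem' := by
          rintro c y ⟨hy1, hy2⟩
          refine ⟨V.smul_mem _ hy1, fun a => ?_⟩
          rw [sk_smul_right, hy2, mul_zero] }
    have hV'mem : ∀ y, y ∈ V' ↔ (y ∈ V ∧ ∀ a : DD d p n, sk σ H (blk σ H B δ p n x a) y = 0) :=
      fun y => Iff.rfl
    have hdec : ∀ v ∈ V, ∃ (a : DD d p n) (z : Fin N → E), z ∈ V' ∧
        v = blk σ H B δ p n x a + z := by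
      intro v hv
      obtain ⟨a, z, h1, h2⟩ := hf.decomp v
      refine ⟨a, z, (hV'mem z).2 ⟨?_, h2⟩, h1⟩
      have : z = v - blk σ H B δ p n x a := by rw [h1]; abel
      rw [this]
      exact V.sub_mem hv (hV.blk_mem hxV a)
    have hGood : Good σ H B V' := by
      constructor
      · intro y hy
        rw [hV'mem] at hy ⊢
        refine ⟨hV.stab _ hy.1, fun a => ?_⟩
        rw [J_adj hq hH hB, hf.mulJ, hy.2, map_zero]
      · intro y hy hy0
        rw [hV'mem] at hy
        apply hV.nondeg y hy.1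
        intro v hv
        obtain ⟨a, z, hz, rfl⟩ := hdec v hv
        rw [sk_add_right, hy0 z hz, add_zero]
        exact sk_eq_zero_swap hq hH (hy.2 a)
    have hlt : Module.finrank E V' < k := by
      rw [← hk]
      apply Submodule.finrank_lt_finrank_of_lt
      refine lt_of_le_of_ne (fun y hy => ((hV'mem y).1 hy).1) ?_
      intro heq
      obtain ⟨f, hf1⟩ := hf.lin
      have hpos : 0 < Module.finrank F (DD d p n) := by
        rw [finrank_DD d hpm.ne_zero]
        exact Nat.mul_pos (by norm_num) (Nat.mul_pos hx.pos (Irreducible.natDegree_pos hx.irr))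
      have hnt : Nontrivial (DD d p n) := Module.nontrivial_of_finrank_pos hpos
      have hw : blk σ H B δ p n x (1 : DD d p n) ≠ 0 := by
        intro h
        have h1 : blk σ H B δ p n x (0 : DD d p n) = 0 := by rw [← hf1, map_zero]
        exact one_ne_zero (hf.inj (h.trans h1.symm))
      apply hw
      apply sk_nondeg hH
      intro y
      obtain ⟨c, z, rfl, hz⟩ := hf.decomp y
      rw [sk_add_right, hz, add_zero]
      apply sk_eq_zero_swap hq hH
      have h2 : blk σ H B δ p n x (1 : DD d p n) ∈ V' := by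
        rw [heq]
        exact hV.blk_mem hxV 1
      exact ((hV'mem _).1 h2).2 c
    rcases ih _ hlt V' hGood rfl with h | ⟨Y2, hY2a, hY2b, hY2c⟩
    · exact Or.inl h
    · right
      have hW : ∀ y ∈ Y1, ∀ z ∈ V', sk σ H y z = 0 := by
        intro y hy z hz
        obtain ⟨a, rfl⟩ := hY1a y hy
        exact ((hV'mem z).1 hz).2 a
      refine ⟨Y1 ⊔ Y2, ?_, ?_, ?_⟩
      · apply sup_le
        · intro y hy
          obtain ⟨a, rfl⟩ := hY1a y hy
          exact hV.blk_mem hxV a
        · exact hY2a.trans fun y hy => ((hV'mem y).1 hy).1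
      · intro y hy z hz
        obtain ⟨y1, hy1, y2, hy2, rfl⟩ := Submodule.mem_sup.1 hy
        obtain ⟨z1, hz1, z2, hz2, rfl⟩ := Submodule.mem_sup.1 hz
        rw [sk_add_left, sk_add_right, sk_add_right, hY1b _ hy1 _ hz1, hY2b _ hy2 _ hz2,
          hW _ hy1 _ (hY2a hz2), sk_eq_zero_swap hq hH (hW _ hz1 _ (hY2a hy2))]
        simp
      · intro v hv hvy
        obtain ⟨a, z, hz, rfl⟩ := hdec v hv
        apply Submodule.add_mem_sup
        · apply hY1c
          intro y hy
          have := hvy y (Submodule.mem_sup_left hy)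
          rw [sk_add_right, hW y hy z hz, add_zero] at this
          exact this
        · apply hY2c z hz
          intro y hy
          have := hvy y (Submodule.mem_sup_right hy)
          rw [sk_add_right] at this
          have h2 : sk σ H y (blk σ H B δ p n x a) = 0 := by
            apply sk_eq_zero_swap hq hH
            exact ((hV'mem y).1 (hY2a hy)).2 a
          rw [h2, zero_add] at this
          exact this

theorem exists_block_nonsplit_of {m : ℕ} {H : Matrix (Fin (2 * m)) (Fin (2 * m)) E}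
    (hq : QuadDatum σ δ d) (hH : IsSkew σ H) (B : Alt (2 * m) E)
    (hfacts : ∀ (p : F[X]) (n : ℕ) (x : Fin (2 * m) → E), p.Monic → IsBlock σ H B.1 p n x →
      BlkFacts2 σ δ d H B.1 p n x)
    (hns : ¬ ∃ Y : Submodule E (Fin (2 * m) → E), Module.finrank E Y = m ∧
      ∀ y ∈ Y, ∀ z ∈ Y, sk σ H y z = 0) :
    ∃ (p : F[X]) (n : ℕ) (x : Fin (2 * m) → E), p.Monic ∧ IsBlock σ H B.1 p n x ∧
      Odd n ∧ ¬ ∃ z : AdjoinRoot p, z * z = algebraMap F (AdjoinRoot p) d := by
  have hfin := hq.finite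
  have hG : Good σ H B.1 (⊤ : Submodule E (Fin (2 * m) → E)) :=
    ⟨fun y _ => Submodule.mem_top, fun x _ h => sk_nondeg hH x fun y => h y Submodule.mem_top⟩
  rcases Good.block_or_lagr hq hH B.2.1 hfacts _ _ hG rfl with h | ⟨Y, _, hY1, hY2⟩
  · exact h
  exfalso
  apply hns
  refine ⟨Y, ?_, hY1⟩
  -- dimension of `Y`
  let YF : Submodule F (Fin (2 * m) → E) := Y.restrictScalars F
  have hYF : (symplB F σ H).orthogonal YF = YF := by
    ext v
    rw [LinearMap.BilinForm.mem_orthogonal_iff]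
    constructor
    · intro h
      apply hY2 v Submodule.mem_top
      intro y hy
      apply sk_eq_zero_of_sympl hq
      · exact h y hy
      · exact h (δ • y) (Y.smul_mem _ hy)
    · intro hv y hy
      show symplB F σ H y v = 0
      rw [symplB_apply, sympl_eq, hY1 y hy v hv, map_zero]
  have h1 := LinearMap.BilinForm.finrank_orthogonal (symplB_nondeg hq hH) YF
  rw [hYF] at h1
  have h2 : Module.finrank F (Fin (2 * m) → E) = 4 * m := by
    rw [Module.finrank_pi_fintype]
    simp [hq.rank]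
    ring
  have h3 : Module.finrank F E * Module.finrank E Y = Module.finrank F YF :=
    Module.finrank_mul_finrank F E Y
  have h4 : Module.finrank F YF ≤ Module.finrank F (Fin (2 * m) → E) := Submodule.finrank_le YF
  rw [hq.rank] at h3
  omega

end main

end SpW.BX
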