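import Pool.Agent.Work.MP_3615d2_al.Iwa

/-!
MP_3615d2_al, Theorem B, module R7: the open cell `P w U` of `GL_{2m}(E)` and the functions of `Ind ρ`
supported on it.
-/

open Matrix Filter Topology

namespace SpW

section alg

variable {E : Type} [Field E] {m : ℕ}

/-- The lower right block. -/
def lowR (g : Matrix (Fin (2 * m)) (Fin (2 * m)) E) : Matrix (Fin m) (Fin m) E :=
  fun i j => g (sI m (Sum.inr i)) (sI m (Sum.inr j))

theorem lowR_bm (a b c d : Matrix (Fin m) (Fin m) E) : lowR (bm a b c d) = d := by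
  ext i j
  simp [lowR, bm]

theorem exists_bm' (g : Matrix (Fin (2 * m)) (Fin (2 * m)) E) :
    ∃ a b : Matrix (Fin m) (Fin m) E, g = bm a b (lowL g) (lowR g) := by
  obtain ⟨a, b, d, h⟩ := exists_bm g
  have h1 : lowR g = d := by
    conv_lhs => rw [h]
    exact lowR_bm _ _ _ _
  exact ⟨a, b, by rw [h1]; exact h⟩

theorem lowR_pel_mul (a d : GL (Fin m) E) (b : Matrix (Fin m) (Fin m) E)
    (g : Matrix (Fin (2 * m)) (Fin (2 * m)) E) :
    lowR ((pel a d b : Matrix (Fin (2 * m)) (Fin (2 * m)) E) * g) = d * lowR g := by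
  obtain ⟨a', b', h⟩ := exists_bm' g
  have h1 : (pel a d b : Matrix (Fin (2 * m)) (Fin (2 * m)) E) * g =
      bm a b 0 d * bm a' b' (lowL g) (lowR g) := by
    rw [← h]
    rfl
  rw [h1, bm_mul, lowR_bm, zero_mul, zero_add]

theorem lowL_mul_unip (y : Matrix (Fin m) (Fin m) E)
    (g : Matrix (Fin (2 * m)) (Fin (2 * m)) E) :
    lowL (g * ((pel 1 1 y : GL (Fin (2 * m)) E) : Matrix (Fin (2 * m)) (Fin (2 * m)) E)) = lowL g := by
  obtain ⟨a', b', h⟩ := exists_bm' g
  have h1 : g * ((pel 1 1 y : GL (Fin (2 * m)) E) : Matrix (Fin (2 * m)) (Fin (2 * m)) E) =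
      bm a' b' (lowL g) (lowR g) * bm 1 y 0 1 := by
    rw [← h]
    rfl
  rw [h1, bm_mul, lowL_bm, mul_one, mul_zero, add_zero]

theorem lowR_mul_pel (y : Matrix (Fin m) (Fin m) E)
    (g : Matrix (Fin (2 * m)) (Fin (2 * m)) E) :
    lowR (g * ((pel 1 1 y : GL (Fin (2 * m)) E) : Matrix (Fin (2 * m)) (Fin (2 * m)) E)) =
      lowL g * y + lowR g := by
  obtain ⟨a', b', h⟩ := exists_bm' g
  have h1 : g * ((pel 1 1 y : GL (Fin (2 * m)) E) : Matrix (Fin (2 * m)) (Fin (2 * m)) E) =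
      bm a' b' (lowL g) (lowR g) * bm 1 y 0 1 := by
    rw [← h]
    rfl
  rw [h1, bm_mul, lowR_bm, mul_one]

/-- The coordinate on the open cell. -/
noncomputable def cellX (g : Matrix (Fin (2 * m)) (Fin (2 * m)) E) : Matrix (Fin m) (Fin m) E :=
  (lowL g)⁻¹ * lowR g

/-- The points `w (1 x; 0 1)` of the open cell. -/
def wu (x : Matrix (Fin m) (Fin m) E) : GL (Fin (2 * m)) E := wel m E * pel 1 1 x

theorem wu_val (x : Matrix (Fin m) (Fin m) E) :
    (wu x : Matrix (Fin (2 * m)) (Fin (2 * m)) E) = bm 0 1 1 x := by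
  show bm 0 1 1 0 * bm 1 x 0 1 = bm 0 1 1 x
  rw [bm_mul]
  congr 1 <;> simp

theorem lowL_wu (x : Matrix (Fin m) (Fin m) E) :
    lowL (wu x : Matrix (Fin (2 * m)) (Fin (2 * m)) E) = 1 := by
  rw [wu_val, lowL_bm]

theorem lowR_wu (x : Matrix (Fin m) (Fin m) E) :
    lowR (wu x : Matrix (Fin (2 * m)) (Fin (2 * m)) E) = x := by
  rw [wu_val, lowR_bm]

theorem cellX_wu (x : Matrix (Fin m) (Fin m) E) :
    cellX (wu x : Matrix (Fin (2 * m)) (Fin (2 * m)) E) = x := by
  rw [cellX, lowL_wu, lowR_wu, inv_one, one_mul]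

theorem wu_mul_pel (x y : Matrix (Fin m) (Fin m) E) : wu x * pel 1 1 y = wu (x + y) := by
  rw [wu, wu, mul_assoc, pel_mul]
  congr 2 <;> simp [add_comm]

theorem cellX_pel_mul (a d : GL (Fin m) E) (b : Matrix (Fin m) (Fin m) E)
    (g : Matrix (Fin (2 * m)) (Fin (2 * m)) E) :
    cellX ((pel a d b : Matrix (Fin (2 * m)) (Fin (2 * m)) E) * g) = cellX g := by
  rw [cellX, cellX, lowL_pel_mul, lowR_pel_mul, Matrix.mul_inv_rev, mul_assoc]
  congr 1
  rw [← mul_assoc, Matrix.nonsing_inv_mul _ (Matrix.isUnits_det_units d), one_mul]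

/-- Membership in the open cell. -/
def InCell (g : GL (Fin (2 * m)) E) : Prop :=
  IsUnit (lowL (g : Matrix (Fin (2 * m)) (Fin (2 * m)) E)).det

theorem inCell_wu (x : Matrix (Fin m) (Fin m) E) : InCell (wu x) := by
  rw [InCell, lowL_wu, Matrix.det_one]
  exact isUnit_one

theorem inCell_pel_mul {a d : GL (Fin m) E} {b : Matrix (Fin m) (Fin m) E}
    {g : GL (Fin (2 * m)) E} : InCell (pel a d b * g) ↔ InCell g := by
  rw [InCell, InCell, Units.val_mul, lowL_pel_mul, Matrix.det_mul]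
  exact (Matrix.isUnits_det_units d).mul_left_iff

theorem inCell_mul_pel {y : Matrix (Fin m) (Fin m) E} {g : GL (Fin (2 * m)) E} :
    InCell (g * pel 1 1 y) ↔ InCell g := by
  rw [InCell, InCell, Units.val_mul, lowL_mul_unip]

theorem cellX_mul_pel {y : Matrix (Fin m) (Fin m) E} {g : GL (Fin (2 * m)) E} (hg : InCell g) :
    cellX ((g * pel 1 1 y : GL (Fin (2 * m)) E) : Matrix (Fin (2 * m)) (Fin (2 * m)) E) =
      cellX (g : Matrix (Fin (2 * m)) (Fin (2 * m)) E) + y := by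
  rw [Units.val_mul, cellX, cellX, lowL_mul_unip, lowR_mul_pel, mul_add, ← mul_assoc,
    Matrix.nonsing_inv_mul _ hg, one_mul, add_comm]

theorem wu_inv (x : Matrix (Fin m) (Fin m) E) :
    (((wu x)⁻¹ : GL (Fin (2 * m)) E) : Matrix (Fin (2 * m)) (Fin (2 * m)) E) = bm (-x) 1 1 0 := by
  have h1 : bm (-x) 1 1 0 * (wu x : Matrix (Fin (2 * m)) (Fin (2 * m)) E) = 1 := by
    rw [wu_val, bm_mul, ← bm_one]
    congr 1 <;> simp
  have h2 : (wu x : Matrix (Fin (2 * m)) (Fin (2 * m)) E) *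
      (((wu x)⁻¹ : GL (Fin (2 * m)) E) : Matrix (Fin (2 * m)) (Fin (2 * m)) E) = 1 := by
    rw [← Units.val_mul, mul_inv_cancel, Units.val_one]
  calc (((wu x)⁻¹ : GL (Fin (2 * m)) E) : Matrix (Fin (2 * m)) (Fin (2 * m)) E)
      = (bm (-x) 1 1 0 * (wu x : Matrix (Fin (2 * m)) (Fin (2 * m)) E)) *
        (((wu x)⁻¹ : GL (Fin (2 * m)) E) : Matrix (Fin (2 * m)) (Fin (2 * m)) E) := by
          rw [h1, one_mul]
    _ = _ := by rw [mul_assoc, h2, mul_one]

/-- Decomposition of the elements of the open cell. -/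
theorem cell_decomp {g : GL (Fin (2 * m)) E} (hg : InCell g) :
    ∃ a d b, g = pel a d b * wu (cellX (g : Matrix (Fin (2 * m)) (Fin (2 * m)) E)) := by
  obtain ⟨a', b', h⟩ := exists_bm' (g : Matrix (Fin (2 * m)) (Fin (2 * m)) E)
  set x := cellX (g : Matrix (Fin (2 * m)) (Fin (2 * m)) E) with hx
  have h1 : lowL ((g * (wu x)⁻¹ : GL (Fin (2 * m)) E) : Matrix (Fin (2 * m)) (Fin (2 * m)) E) =
      0 := by
    rw [Units.val_mul, wu_inv]
    conv_lhs => rw [h]
    rw [bm_mul, lowL_bm, mul_one, mul_neg, hx, cellX, ← mul_assoc,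
      Matrix.mul_nonsing_inv _ hg, one_mul, neg_add_cancel]
  obtain ⟨a, d, b, h2⟩ := (exists_pel_iff _).2 h1
  exact ⟨a, d, b, by rw [← h2, inv_mul_cancel_right]⟩

theorem pel_inj {a d a' d' : GL (Fin m) E} {b b' : Matrix (Fin m) (Fin m) E}
    (h : pel a d b = pel a' d' b') : a = a' ∧ d = d' ∧ b = b' := by
  have h1 : bm a b 0 d = bm a' b' 0 d' := congrArg Units.val h
  have h2 : ∀ i j, bm (a : Matrix (Fin m) (Fin m) E) b 0 d (sI m i) (sI m j) =
      bm (a' : Matrix (Fin m) (Fin m) E) b' 0 d' (sI m i) (sI m j) := fun i j => by rw [h1]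
  simp only [bm, Matrix.reindex_apply, Matrix.submatrix_apply, Equiv.symm_apply_apply] at h2
  refine ⟨?_, ?_, ?_⟩
  · apply Units.ext
    ext i j
    exact h2 (Sum.inl i) (Sum.inl j)
  · apply Units.ext
    ext i j
    exact h2 (Sum.inr i) (Sum.inr j)
  · ext i j
    exact h2 (Sum.inl i) (Sum.inr j)

theorem pel_mul_wu_inj {a d a' d' : GL (Fin m) E} {b b' x x' : Matrix (Fin m) (Fin m) E}
    (h : pel a d b * wu x = pel a' d' b' * wu x') : a = a' ∧ d = d' ∧ b = b' ∧ x = x' := by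
  have h1 : x = x' := by
    have h2 : cellX ((pel a d b * wu x : GL (Fin (2 * m)) E) :
        Matrix (Fin (2 * m)) (Fin (2 * m)) E) =
        cellX ((pel a' d' b' * wu x' : GL (Fin (2 * m)) E) :
          Matrix (Fin (2 * m)) (Fin (2 * m)) E) := by rw [h]
    rwa [Units.val_mul, Units.val_mul, cellX_pel_mul, cellX_pel_mul, cellX_wu, cellX_wu] at h2
  subst h1
  obtain ⟨h3, h4, h5⟩ := pel_inj (mul_right_cancel h)
  exact ⟨h3, h4, h5, rfl⟩

theorem wel_mul_pel (a d : GL (Fin m) E) : wel m E * pel a d 0 = pel d a 0 * wel m E := by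
  apply Units.ext
  show bm 0 1 1 0 * bm (a : Matrix (Fin m) (Fin m) E) 0 0 (d : Matrix (Fin m) (Fin m) E) =
    bm (d : Matrix (Fin m) (Fin m) E) 0 0 (a : Matrix (Fin m) (Fin m) E) * bm 0 1 1 0
  rw [bm_mul, bm_mul]
  congr 1 <;> simp

theorem wu_mul_pel' (x : Matrix (Fin m) (Fin m) E) (a d : GL (Fin m) E)
    (b : Matrix (Fin m) (Fin m) E) :
    wu x * pel a d b = pel d a 0 * wu (((a⁻¹ : GL (Fin m) E) : Matrix (Fin m) (Fin m) E) *
      (b + x * (d : Matrix (Fin m) (Fin m) E))) := by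
  have h1 : pel 1 1 x * pel a d b = pel a d 0 *
      pel 1 1 (((a⁻¹ : GL (Fin m) E) : Matrix (Fin m) (Fin m) E) *
        (b + x * (d : Matrix (Fin m) (Fin m) E))) := by
    rw [pel_mul, pel_mul]
    congr 1
    · rw [one_mul, mul_one]
    · rw [one_mul, mul_one]
    · rw [← mul_assoc, ← Units.val_mul, mul_inv_cancel, Units.val_one, one_mul, one_mul,
        zero_mul, add_zero]
  rw [wu, mul_assoc, h1, ← mul_assoc, wel_mul_pel, mul_assoc]
  rfl

theorem lowL_mul_pel' (a d : GL (Fin m) E) (b : Matrix (Fin m) (Fin m) E)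
    (g : Matrix (Fin (2 * m)) (Fin (2 * m)) E) :
    lowL (g * ((pel a d b : GL (Fin (2 * m)) E) : Matrix (Fin (2 * m)) (Fin (2 * m)) E)) =
      lowL g * a := by
  obtain ⟨a', b', h⟩ := exists_bm' g
  have h1 : g * ((pel a d b : GL (Fin (2 * m)) E) : Matrix (Fin (2 * m)) (Fin (2 * m)) E) =
      bm a' b' (lowL g) (lowR g) * bm a b 0 d := by
    rw [← h]
    rfl
  rw [h1, bm_mul, lowL_bm, mul_zero, add_zero]

theorem inCell_mul_pel' {a d : GL (Fin m) E} {b : Matrix (Fin m) (Fin m) E}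
    {g : GL (Fin (2 * m)) E} : InCell (g * pel a d b) ↔ InCell g := by
  rw [InCell, InCell, Units.val_mul, lowL_mul_pel', Matrix.det_mul]
  exact (Matrix.isUnits_det_units a).mul_right_iff

end alg

section top

variable {E : Type} [NontriviallyNormedField E] {m : ℕ}
  {W : Type} [AddCommGroup W] [Module ℂ W] {ρ : (GL (Fin m) E × GL (Fin m) E) →* Module.End ℂ W}

theorem continuous_lowL : Continuous fun g : GL (Fin (2 * m)) E =>
    lowL (g : Matrix (Fin (2 * m)) (Fin (2 * m)) E) :=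
  continuous_matrix fun _ _ => continuous_gl_entry _ _

theorem continuous_lowR : Continuous fun g : GL (Fin (2 * m)) E =>
    lowR (g : Matrix (Fin (2 * m)) (Fin (2 * m)) E) :=
  continuous_matrix fun _ _ => continuous_gl_entry _ _

theorem isOpen_inCell : IsOpen {g : GL (Fin (2 * m)) E | InCell g} := by
  have h : {g : GL (Fin (2 * m)) E | InCell g} = {g : GL (Fin (2 * m)) E |
      (lowL (g : Matrix (Fin (2 * m)) (Fin (2 * m)) E)).det ≠ 0} := by
    ext g
    exact isUnit_iff_ne_zero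
  rw [h]
  exact isOpen_ne_fun continuous_lowL.matrix_det continuous_const

theorem continuousOn_cellX : ContinuousOn (fun g : GL (Fin (2 * m)) E =>
    cellX (g : Matrix (Fin (2 * m)) (Fin (2 * m)) E)) {g | InCell g} := by
  have h : (fun g : GL (Fin (2 * m)) E => cellX (g : Matrix (Fin (2 * m)) (Fin (2 * m)) E)) =
      fun g : GL (Fin (2 * m)) E => ((lowL (g : Matrix (Fin (2 * m)) (Fin (2 * m)) E)).det)⁻¹ •
        ((lowL (g : Matrix (Fin (2 * m)) (Fin (2 * m)) E)).adjugate *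
          lowR (g : Matrix (Fin (2 * m)) (Fin (2 * m)) E)) := by
    funext g
    rw [cellX, Matrix.inv_def, Ring.inverse_eq_inv', Matrix.smul_mul]
  rw [h]
  refine ContinuousOn.smul (ContinuousOn.inv₀ continuous_lowL.matrix_det.continuousOn
    fun g hg => ?_) ?_
  · exact isUnit_iff_ne_zero.1 hg
  · exact (continuous_lowL.matrix_adjugate.matrix_mul continuous_lowR).continuousOn

theorem continuous_pel_one : Continuous fun x : Matrix (Fin m) (Fin m) E =>
    (pel 1 1 x : GL (Fin (2 * m)) E) := by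
  rw [Units.continuous_iff]
  constructor
  · show Continuous fun x : Matrix (Fin m) (Fin m) E => bm 1 x 0 1
    exact (continuous_const.matrix_fromBlocks continuous_id continuous_const
      continuous_const).matrix_reindex _ _
  · show Continuous fun x : Matrix (Fin m) (Fin m) E => bm _ _ 0 _
    refine Continuous.matrix_reindex (continuous_const.matrix_fromBlocks ?_ continuous_const
      continuous_const) _ _
    exact ((continuous_const.matrix_mul continuous_id).matrix_mul continuous_const).neg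

theorem continuous_wu : Continuous fun x : Matrix (Fin m) (Fin m) E =>
    (wu x : GL (Fin (2 * m)) E) := continuous_const.mul continuous_pel_one

theorem ind_isLocallyConstant (f : Ind ρ) :
    IsLocallyConstant (f : GL (Fin (2 * m)) E → W) := by
  rw [IsLocallyConstant.iff_eventually_eq]
  intro g
  have h : Tendsto (fun y : GL (Fin (2 * m)) E => g⁻¹ * y) (𝓝 g) (𝓝 1) := by
    have : ContinuousAt (fun y : GL (Fin (2 * m)) E => g⁻¹ * y) g := by fun_prop
    simpa [ContinuousAt] using this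
  filter_upwards [h.eventually f.2.2] with y hy
  have h1 := hy g
  rwa [mul_inv_cancel_left] at h1

/-- The functions of `Ind ρ` supported on the open cell. -/
def cellSub (ρ : (GL (Fin m) E × GL (Fin m) E) →* Module.End ℂ W) : Submodule ℂ (Ind ρ) where
  carrier := {f | ∀ g, (f : GL (Fin (2 * m)) E → W) g ≠ 0 → InCell g}
  add_mem' := by
    intro f f' hf hf' g hg
    by_contra h
    have h1 : (f : GL (Fin (2 * m)) E → W) g = 0 := by
      by_contra h1
      exact h (hf g h1)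
    have h2 : (f' : GL (Fin (2 * m)) E → W) g = 0 := by
      by_contra h2
      exact h (hf' g h2)
    exact hg (by
      show (f : GL (Fin (2 * m)) E → W) g + (f' : GL (Fin (2 * m)) E → W) g = 0
      rw [h1, h2, add_zero])
  zero_mem' := fun g hg => absurd rfl hg
  smul_mem' := by
    intro c f hf g hg
    refine hf g fun h => hg ?_
    show c • (f : GL (Fin (2 * m)) E → W) g = 0
    rw [h, smul_zero]

theorem mem_cellSub {f : Ind ρ} : f ∈ cellSub ρ ↔
    ∀ g, (f : GL (Fin (2 * m)) E → W) g ≠ 0 → InCell g := Iff.rfl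

theorem indAct_cellSub (a d : GL (Fin m) E) (b : Matrix (Fin m) (Fin m) E) {f : Ind ρ}
    (hf : f ∈ cellSub ρ) : indAct ρ (pel a d b) f ∈ cellSub ρ :=
  fun g hg => inCell_mul_pel'.1 (hf _ hg)

/-- Elements of `P` near `1` have blocks near `1`. -/
theorem pel_small [IsUltrametricDist E] (hρ : IsSmoothRep ρ) (w : W) :
    ∃ U ∈ 𝓝 (1 : GL (Fin (2 * m)) E), ∀ a d b, pel a d b ∈ U → ρ (a, d) w = w := by
  have h1 := hρ w
  rw [Prod.one_eq_mk, nhds_prod_eq, Filter.eventually_prod_iff] at h1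
  obtain ⟨p, hp, q, hq, h⟩ := h1
  obtain ⟨ε₁, h₁, h₁', h2⟩ := exists_ball_gl (U := {a | p a}) hp
  obtain ⟨ε₂, h₂, h₂', h3⟩ := exists_ball_gl (U := {a | q a}) hq
  have hε : 0 < min ε₁ ε₂ := lt_min h₁ h₂
  have hε' : min ε₁ ε₂ ≤ 1 := (min_le_left _ _).trans h₁'
  refine ⟨(glK (Fin (2 * m)) E (min ε₁ ε₂) hε.le hε' : Set (GL (Fin (2 * m)) E)),
    (glK_isOpen hε hε').mem_nhds (Subgroup.one_mem _), ?_⟩
  rintro a d b ⟨h4, h5⟩
  have e1 : ((pel a d b : GL (Fin (2 * m)) E) : Matrix (Fin (2 * m)) (Fin (2 * m)) E) - 1 =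
      bm ((a : Matrix (Fin m) (Fin m) E) - 1) b 0 ((d : Matrix (Fin m) (Fin m) E) - 1) := by
    rw [← bm_one]
    ext i j
    obtain ⟨i, rfl⟩ := (sI m).surjective i
    obtain ⟨j, rfl⟩ := (sI m).surjective j
    show bm (a : Matrix (Fin m) (Fin m) E) b 0 d _ _ - _ = _
    simp only [bm, Matrix.reindex_apply, Matrix.submatrix_apply, Equiv.symm_apply_apply]
    rcases i with i | i <;> rcases j with j | j <;> simp
  have e2 : (((pel a d b)⁻¹ : GL (Fin (2 * m)) E) : Matrix (Fin (2 * m)) (Fin (2 * m)) E) - 1 =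
      bm (((a⁻¹ : GL (Fin m) E) : Matrix (Fin m) (Fin m) E) - 1)
        (-(((a⁻¹ : GL (Fin m) E) : Matrix (Fin m) (Fin m) E) * b *
      ((d⁻¹ : GL (Fin m) E) : Matrix (Fin m) (Fin m) E))) 0
        (((d⁻¹ : GL (Fin m) E) : Matrix (Fin m) (Fin m) E) - 1) := by
    rw [← bm_one]
    ext i j
    obtain ⟨i, rfl⟩ := (sI m).surjective i
    obtain ⟨j, rfl⟩ := (sI m).surjective j
    show bm ((a⁻¹ : GL (Fin m) E) : Matrix (Fin m) (Fin m) E) _ 0
      ((d⁻¹ : GL (Fin m) E) : Matrix (Fin m) (Fin m) E) _ _ - _ = _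
    simp only [bm, Matrix.reindex_apply, Matrix.submatrix_apply, Equiv.symm_apply_apply]
    rcases i with i | i <;> rcases j with j | j <;> simp
  rw [e1] at h4
  rw [e2] at h5
  have h6 : ∀ (A B C D : Matrix (Fin m) (Fin m) E) (i j : Fin m),
      bm A B C D (sI m (Sum.inl i)) (sI m (Sum.inl j)) = A i j := by
    intro A B C D i j
    simp [bm]
  have h7 : ∀ (A B C D : Matrix (Fin m) (Fin m) E) (i j : Fin m),
      bm A B C D (sI m (Sum.inr i)) (sI m (Sum.inr j)) = D i j := by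
    intro A B C D i j
    simp [bm]
  refine h (h2 a (fun i j => ?_) fun i j => ?_) (h3 d (fun i j => ?_) fun i j => ?_)
  · have := h4 (sI m (Sum.inl i)) (sI m (Sum.inl j))
    rw [h6] at this
    exact this.trans (min_le_left _ _)
  · have := h5 (sI m (Sum.inl i)) (sI m (Sum.inl j))
    rw [h6] at this
    exact this.trans (min_le_left _ _)
  · have := h4 (sI m (Sum.inr i)) (sI m (Sum.inr j))
    rw [h7] at this
    exact this.trans (min_le_right _ _)
  · have := h5 (sI m (Sum.inr i)) (sI m (Sum.inr j))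
    rw [h7] at this
    exact this.trans (min_le_right _ _)

/-- Restriction to the open cell. -/
def cellRes (ρ : (GL (Fin m) E × GL (Fin m) E) →* Module.End ℂ W) :
    Ind ρ →ₗ[ℂ] (Matrix (Fin m) (Fin m) E → W) where
  toFun f := fun x => (f : GL (Fin (2 * m)) E → W) (wu x)
  map_add' _ _ := rfl
  map_smul' _ _ := rfl

theorem cellRes_apply (f : Ind ρ) (x : Matrix (Fin m) (Fin m) E) :
    cellRes ρ f x = (f : GL (Fin (2 * m)) E → W) (wu x) := rfl

theorem cellRes_act (a d : GL (Fin m) E) (b : Matrix (Fin m) (Fin m) E) (f : Ind ρ)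
    (x : Matrix (Fin m) (Fin m) E) : cellRes ρ (indAct ρ (pel a d b) f) x =
      ρ (d, a) (cellRes ρ f (((a⁻¹ : GL (Fin m) E) : Matrix (Fin m) (Fin m) E) *
        (b + x * (d : Matrix (Fin m) (Fin m) E)))) := by
  rw [cellRes_apply, indAct_apply, wu_mul_pel', f.2.1]
  rfl

theorem cellRes_inj {f : Ind ρ} (hf : f ∈ cellSub ρ) (h : cellRes ρ f = 0) : f = 0 := by
  apply Subtype.ext
  funext g
  show (f : GL (Fin (2 * m)) E → W) g = 0
  by_contra hg
  obtain ⟨a, d, b, h1⟩ := cell_decomp (hf g hg)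
  apply hg
  rw [h1, f.2.1]
  have h2 := congrFun h (cellX (g : Matrix (Fin (2 * m)) (Fin (2 * m)) E))
  rw [cellRes_apply] at h2
  rw [h2]
  exact map_zero _

/-- The restriction of a function supported on the open cell has compact support. -/
theorem cellRes_mem [IsUltrametricDist E] [ProperSpace E] {f : Ind ρ} (hf : f ∈ cellSub ρ) :
    cellRes ρ f ∈ Sch (Matrix (Fin m) (Fin m) E) W := by
  refine ⟨(ind_isLocallyConstant f).comp_continuous continuous_wu, ?_⟩
  let D : Set (GL (Fin (2 * m)) E) := (glK (Fin (2 * m)) E 1 zero_lt_one.le le_rfl :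
    Set (GL (Fin (2 * m)) E)) ∩ {g | (f : GL (Fin (2 * m)) E → W) g ≠ 0}
  have hD : IsCompact D := by
    refine (glK_isCompact zero_lt_one le_rfl).inter_right ?_
    have h1 : IsOpen {g | (f : GL (Fin (2 * m)) E → W) g = 0} :=
      (ind_isLocallyConstant f).isOpen_fiber 0
    exact h1.isClosed_compl
  refine ⟨_, hD.image_of_continuousOn (continuousOn_cellX.mono fun g hg => hf g hg.2),
    fun x hx => ?_⟩
  by_contra hne
  apply hx
  obtain ⟨a, d, b, k, hk, h⟩ := iwasawa (wu x : GL (Fin (2 * m)) E)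
  refine ⟨k, ⟨hk, fun h0 => hne ?_⟩, ?_⟩
  · rw [cellRes_apply, h, f.2.1, h0]
    exact map_zero _
  · have h1 := cellX_wu x
    rw [h, Units.val_mul, cellX_pel_mul] at h1
    exact h1

end top

section surj

variable {E : Type} [NontriviallyNormedField E] {m : ℕ}
  {W : Type} [AddCommGroup W] [Module ℂ W] {ρ : (GL (Fin m) E × GL (Fin m) E) →* Module.End ℂ W}

open Classical in
/-- The function on `GL_{2m}` supported on the open cell with given restriction. -/
noncomputable def cellFun (ρ : (GL (Fin m) E × GL (Fin m) E) →* Module.End ℂ W)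
    (φ : Matrix (Fin m) (Fin m) E → W) (g : GL (Fin (2 * m)) E) : W :=
  if h : InCell g then ρ ((cell_decomp h).choose, (cell_decomp h).choose_spec.choose)
    (φ (cellX (g : Matrix (Fin (2 * m)) (Fin (2 * m)) E))) else 0

theorem cellFun_of_not {φ : Matrix (Fin m) (Fin m) E → W} {g : GL (Fin (2 * m)) E}
    (h : ¬ InCell g) : cellFun ρ φ g = 0 := by
  rw [cellFun, dif_neg h]

theorem cellFun_apply (φ : Matrix (Fin m) (Fin m) E → W) (a d : GL (Fin m) E)
    (b x : Matrix (Fin m) (Fin m) E) : cellFun ρ φ (pel a d b * wu x) = ρ (a, d) (φ x) := by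
  have h : InCell (pel a d b * wu x) := inCell_pel_mul.2 (inCell_wu x)
  rw [cellFun, dif_pos h]
  have h1 := (cell_decomp h).choose_spec.choose_spec.choose_spec
  obtain ⟨h2, h3, h4, h5⟩ := pel_mul_wu_inj h1
  have key : ∀ (a' d' : GL (Fin m) E) (x' : Matrix (Fin m) (Fin m) E), a = a' → d = d' →
      x = x' → ρ (a', d') (φ x') = ρ (a, d) (φ x) := by
    rintro _ _ _ rfl rfl rfl
    rfl
  exact key _ _ _ h2 h3 h5

theorem cellFun_wu (φ : Matrix (Fin m) (Fin m) E → W) (x : Matrix (Fin m) (Fin m) E) :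
    cellFun ρ φ (wu x) = φ x := by
  have h := cellFun_apply (ρ := ρ) φ 1 1 0 x
  rw [pel_one, one_mul] at h
  rw [h]
  have h1 : ρ ((1 : GL (Fin m) E), (1 : GL (Fin m) E)) = 1 := map_one ρ
  rw [h1]
  rfl

theorem cellFun_pel (φ : Matrix (Fin m) (Fin m) E → W) (a d : GL (Fin m) E)
    (b : Matrix (Fin m) (Fin m) E) (g : GL (Fin (2 * m)) E) :
    cellFun ρ φ (pel a d b * g) = ρ (a, d) (cellFun ρ φ g) := by
  by_cases h : InCell g
  · obtain ⟨a', d', b', h1⟩ := cell_decomp h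
    rw [h1, ← mul_assoc, pel_mul, cellFun_apply, cellFun_apply]
    have h2 : ρ (a * a', d * d') = ρ (a, d) * ρ (a', d') := by
      rw [← map_mul]
      rfl
    rw [h2]
    rfl
  · rw [cellFun_of_not h, cellFun_of_not (fun h' => h (inCell_pel_mul.1 h')), map_zero]

theorem cell_near_aux {G X W : Type} [Group G] [TopologicalSpace G] [IsTopologicalGroup G]
    [TopologicalSpace X] {wv : X → G} (hwv : Continuous wv) {Ω : Set G} (hΩ : IsOpen Ω)
    {cX : G → X} (hcX : ContinuousOn cX Ω) (hwΩ : ∀ x, wv x ∈ Ω) (hcw : ∀ x, cX (wv x) = x)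
    {φ : X → W} (hφ : IsLocallyConstant φ) (x : X) {U : Set G} (hU : U ∈ 𝓝 (1 : G)) :
    ∀ᶠ p : G × X in 𝓝 (1, x), wv p.2 * p.1 ∈ Ω ∧ φ (cX (wv p.2 * p.1)) = φ x ∧ φ p.2 = φ x ∧
      wv p.2 * p.1 * (wv (cX (wv p.2 * p.1)))⁻¹ ∈ U := by
  obtain ⟨gg, hgg⟩ : ∃ gg : G × X → G, gg = fun p => wv p.2 * p.1 := ⟨_, rfl⟩
  have hg : Continuous gg := by
    rw [hgg]
    exact (hwv.comp continuous_snd).mul continuous_fst
  have hg1 : gg (1, x) = wv x := by
    rw [hgg]
    exact mul_one _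
  have hΩx : Ω ∈ 𝓝 (gg (1, x)) := hΩ.mem_nhds (by rw [hg1]; exact hwΩ x)
  have e1 : ∀ᶠ p in 𝓝 ((1 : G), x), gg p ∈ Ω := hg.continuousAt.eventually hΩx
  have hX : ContinuousAt (fun p => cX (gg p)) (1, x) :=
    ContinuousAt.comp (f := gg) (g := cX) (hcX.continuousAt hΩx) hg.continuousAt
  have hX0 : cX (gg (1, x)) = x := by rw [hg1, hcw]
  have e2 : ∀ᶠ p in 𝓝 ((1 : G), x), φ (cX (gg p)) = φ x := by
    have h1 := hφ.eventually_eq (cX (gg (1, x)))
    have h2 := hX.eventually h1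
    filter_upwards [h2] with p hp
    rw [hp, hX0]
  have e3 : ∀ᶠ p : G × X in 𝓝 (1, x), φ p.2 = φ x := by
    have h1 : ContinuousAt (fun p : G × X => p.2) (1, x) := continuous_snd.continuousAt
    exact h1.eventually (hφ.eventually_eq x)
  have hq : ContinuousAt (fun p => gg p * (wv (cX (gg p)))⁻¹) (1, x) :=
    hg.continuousAt.mul (ContinuousAt.inv (ContinuousAt.comp (g := wv)
      (f := fun p => cX (gg p)) hwv.continuousAt hX))
  have e4 : ∀ᶠ p in 𝓝 ((1 : G), x), gg p * (wv (cX (gg p)))⁻¹ ∈ U := by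
    apply hq
    show U ∈ 𝓝 (gg (1, x) * (wv (cX (gg (1, x))))⁻¹)
    rw [hX0, hg1, mul_inv_cancel]
    exact hU
  filter_upwards [e1, e2, e3, e4] with p h1 h2 h3 h4
  rw [hgg] at h1 h2 h4
  exact ⟨h1, h2, h3, h4⟩

theorem cellFun_near [IsUltrametricDist E] (hρ : IsSmoothRep ρ)
    {φ : Matrix (Fin m) (Fin m) E → W} (hφ : IsLocallyConstant φ) (x : Matrix (Fin m) (Fin m) E) :
    ∀ᶠ p : GL (Fin (2 * m)) E × Matrix (Fin m) (Fin m) E in 𝓝 (1, x),
      cellFun ρ φ (wu p.2 * p.1) = cellFun ρ φ (wu p.2) := by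
  obtain ⟨U, hU, hUρ⟩ := pel_small hρ (φ x)
  filter_upwards [cell_near_aux (continuous_wu (E := E) (m := m)) isOpen_inCell
    continuousOn_cellX inCell_wu cellX_wu hφ x hU] with p hp
  obtain ⟨h1, h2, h3, h4⟩ := hp
  obtain ⟨a, d, b, h5⟩ := cell_decomp h1
  have h6 : pel a d b ∈ U := by
    have h7 : wu p.2 * p.1 * (wu (cellX ((wu p.2 * p.1 : GL (Fin (2 * m)) E) :
        Matrix (Fin (2 * m)) (Fin (2 * m)) E)))⁻¹ = pel a d b := by
      rw [mul_inv_eq_iff_eq_mul]
      exact h5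
    rw [← h7]
    exact h4
  have h8 : cellFun ρ φ (wu p.2 * p.1) = ρ (a, d) (φ (cellX ((wu p.2 * p.1 :
      GL (Fin (2 * m)) E) : Matrix (Fin (2 * m)) (Fin (2 * m)) E))) := by
    conv_lhs => rw [h5]
    rw [cellFun_apply]
  rw [h8, h2, hUρ a d b h6, cellFun_wu, h3]

/-- Every locally constant compactly supported function is the restriction of a function of `Ind ρ`
supported on the open cell. -/
theorem exists_cellRes [IsUltrametricDist E] (hρ : IsSmoothRep ρ)
    {φ : Matrix (Fin m) (Fin m) E → W} (hφ : φ ∈ Sch (Matrix (Fin m) (Fin m) E) W) :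
    ∃ f ∈ cellSub ρ, cellRes ρ f = φ := by
  obtain ⟨hφ1, S, hS, hφS⟩ := hφ
  have h1 : ∀ᶠ k : GL (Fin (2 * m)) E in 𝓝 1, ∀ x ∈ S,
      cellFun ρ φ (wu x * k) = cellFun ρ φ (wu x) :=
    hS.eventually_forall_of_forall_eventually fun x _ => cellFun_near hρ hφ1 x
  have h2 : ∀ᶠ k : GL (Fin (2 * m)) E in 𝓝 1, ∀ x ∈ S,
      cellFun ρ φ (wu x * k⁻¹) = cellFun ρ φ (wu x) := by
    have h3 : Tendsto (fun k : GL (Fin (2 * m)) E => k⁻¹) (𝓝 1) (𝓝 1) := by
      have := (continuous_inv (G := GL (Fin (2 * m)) E)).tendsto 1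
      rwa [inv_one] at this
    exact h3.eventually h1
  -- a point where the function is not zero
  have h3 : ∀ g, cellFun ρ φ g ≠ 0 → ∃ a d b, ∃ x ∈ S, g = pel a d b * wu x := by
    intro g hg
    have h4 : InCell g := by
      by_contra h4
      exact hg (cellFun_of_not h4)
    obtain ⟨a, d, b, h5⟩ := cell_decomp h4
    refine ⟨a, d, b, _, ?_, h5⟩
    by_contra h6
    apply hg
    rw [h5, cellFun_apply, hφS _ h6, map_zero]
  refine ⟨⟨cellFun ρ φ, fun a d b g => cellFun_pel φ a d b g, ?_⟩, ?_, ?_⟩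
  · filter_upwards [h1, h2] with k hk hk' g
    by_cases h4 : cellFun ρ φ g = 0
    · rw [h4]
      by_contra h5
      obtain ⟨a, d, b, x, hx, h6⟩ := h3 _ h5
      have h7 : g = pel a d b * (wu x * k⁻¹) := by
        rw [← mul_assoc, ← h6, mul_inv_cancel_right]
      rw [h7, cellFun_pel, hk' x hx, ← cellFun_pel, ← h6] at h4
      exact h5 h4
    · obtain ⟨a, d, b, x, hx, h6⟩ := h3 _ h4
      rw [h6, mul_assoc, cellFun_pel, hk x hx, ← cellFun_pel]
  · intro g hg
    by_contra h4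
    exact hg (cellFun_of_not h4)
  · funext x
    exact cellFun_wu φ x

end surj

end SpW
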