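import Pool.Agent.Work.MP_3615d2_al.SubquoB
import Pool.Agent.Work.MP_3615d2_al.RhoB
import Pool.Agent.Work.MP_3615d2_al.Cartan

/-!
MP_3615d2_al, Theorem B, modules R4f and R3: central characters of induced representations; a
subquotient of an induced representation without coinvariants is zero (from its inputs).
-/

open Filter Topology
open scoped TensorProduct

namespace SpW

section

variable {E : Type} [NontriviallyNormedField E] {m : ℕ}

end

section R3

variable {E : Type} [NontriviallyNormedField E] [IsUltrametricDist E] [ProperSpace E]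
  {m : ℕ} {W : Type} [AddCommGroup W] [Module ℂ W]

/-- R3 from (HC), R6a and the exactness of coinvariants -/
theorem ind_noCusp_of (ρ : (GL (Fin m) E × GL (Fin m) E) →* Module.End ℂ W)
    (hHC : ∀ {V : Type} [AddCommGroup V] [Module ℂ V]
      (π : GL (Fin (2 * m)) E →* Module.End ℂ V),
      IsSmoothRep π → IsCusp π → HasHC (scalZ (2 * m) E) π)
    (hR6 : ∀ k, 0 < k → k < 2 * m → k ≠ m → cvN (indAct ρ) (Nk (2 * m) k E) ⊤ = ⊤)
    (hex : ∀ k, 0 < k → k < 2 * m → ∀ A : Submodule ℂ (Ind ρ), IsStab (indAct ρ) A →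
      A ⊓ cvN (indAct ρ) (Nk (2 * m) k E) ⊤ = cvN (indAct ρ) (Nk (2 * m) k E) A)
    (χ : Eˣ → ℂ) (hχ1 : ∀ z, ‖χ z‖ = 1)
    (hχ : ∀ z w, ρ (Matrix.GeneralLinearGroup.scalar (Fin m) z,
      Matrix.GeneralLinearGroup.scalar (Fin m) z) w = χ z • w)
    {B C : Submodule ℂ (Ind ρ)} (hB : IsStab (indAct ρ) B) (hC : IsStab (indAct ρ) C)
    (hCB : C ≤ B) (h : B ≤ C ⊔ cvN (indAct ρ) (Nk (2 * m) m E) B) : B ≤ C := by
  have h1 := subquo_aux (E := E) (n := 2 * m) (I := Ind ρ) gl_basis hHC (indAct ρ) (ind_smooth ρ)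
    ⟨χ, hχ1, fun z f => ind_unitCentral ρ χ hχ z f⟩ m
    (fun {V} _ _ π hπ Ψ hΨ => hom_ind_eq_zero ρ hπ Ψ hΨ) C B hC hB hCB
    (fun k h0 h2 hm => by
      rw [← hex k h0 h2 B hB, hR6 k h0 h2 hm, inf_top_eq]) h
  exact h1.ge

end R3

end SpW
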