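import Pool.Agent.Work.MP_3615d2_al.WeExt
import Pool.Agent.Work.MP_3615d2_al.Mod

/-!
MP_3615d2_al, block We: the scalar factor `μ(det(g-1)) |det(g-1)|^{-1/2}` is locally constant on
the regular set of `U(X)`.
-/

open MeasureTheory
open scoped NNReal

namespace SpW

/-- `ℂˣ` has no small subgroups. -/
theorem eq_one_of_small_C {z : ℂ} (h : ∀ k : ℕ, ‖z ^ 2 ^ k - 1‖ ≤ 1 / 2) : z = 1 := by
  by_contra hz
  have h0 : 0 < ‖z - 1‖ := by
    rw [norm_pos_iff, sub_ne_zero]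
    exact hz
  have key : ∀ k : ℕ, (3 / 2 : ℝ) ^ k * ‖z - 1‖ ≤ ‖z ^ 2 ^ k - 1‖ := by
    intro k
    induction k with
    | zero => simp
    | succ k ih =>
      have e : z ^ 2 ^ (k + 1) - 1 = (z ^ 2 ^ k - 1) * (z ^ 2 ^ k + 1) := by
        rw [pow_succ, pow_mul]
        ring
      rw [e, norm_mul]
      have h2 : (3 / 2 : ℝ) ≤ ‖z ^ 2 ^ k + 1‖ := by
        have e2 : z ^ 2 ^ k + 1 = 2 - (1 - z ^ 2 ^ k) := by ring
        rw [e2]
        have := norm_sub_norm_le (2 : ℂ) (1 - z ^ 2 ^ k)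
        rw [norm_sub_rev 1] at this
        have h3 := h k
        have h4 : ‖(2 : ℂ)‖ = 2 := by norm_num
        linarith
      calc (3 / 2 : ℝ) ^ (k + 1) * ‖z - 1‖ = (3 / 2 : ℝ) ^ k * ‖z - 1‖ * (3 / 2) := by ring
        _ ≤ _ := by gcongr
  obtain ⟨k, hk⟩ := pow_unbounded_of_one_lt (1 / 2 / ‖z - 1‖) (by norm_num : (1 : ℝ) < 3 / 2)
  rw [div_lt_iff₀ h0] at hk
  linarith [key k, h k]

section mu

variable {E : Type} [NontriviallyNormedField E] [IsUltrametricDist E]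

theorem norm_sq_sub_one {x : E} (hx : ‖x - 1‖ < 1) : ‖x ^ 2 - 1‖ ≤ ‖x - 1‖ := by
  have e : x ^ 2 - 1 = (x - 1) * (x + 1) := by ring
  rw [e, norm_mul]
  have h1 : ‖x + 1‖ ≤ 1 := by
    have e2 : x + 1 = (x - 1) + ((1 : E) + 1) := by ring
    rw [e2]
    refine (IsUltrametricDist.norm_add_le_max _ _).trans (max_le hx.le ?_)
    refine (IsUltrametricDist.norm_add_le_max _ _).trans ?_
    simp
  nlinarith [norm_nonneg (x - 1)]

theorem norm_pow_sub_one {x : E} (hx : ‖x - 1‖ < 1) (k : ℕ) : ‖x ^ 2 ^ k - 1‖ ≤ ‖x - 1‖ := by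
  induction k with
  | zero => simp
  | succ k ih =>
    rw [pow_succ, pow_mul]
    exact (norm_sq_sub_one (ih.trans_lt hx)).trans ih

/-- A continuous homomorphism `Eˣ → ℂˣ` is trivial near `1`. -/
theorem mu_eventually_one {μ : Eˣ →* ℂˣ} (hμ : Continuous μ) :
    ∃ ε > 0, ∀ u : Eˣ, ‖(u : E) - 1‖ < ε → μ u = 1 := by
  have h1 : Continuous fun u : Eˣ => ((μ u : ℂˣ) : ℂ) := Units.continuous_val.comp hμ
  have h2 : ∀ᶠ u in nhds (1 : Eˣ), ‖((μ u : ℂˣ) : ℂ) - 1‖ < 1 / 2 := by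
    have h3 : Filter.Tendsto (fun u : Eˣ => ‖((μ u : ℂˣ) : ℂ) - 1‖) (nhds 1) (nhds 0) := by
      have h4 : Continuous fun u : Eˣ => ‖((μ u : ℂˣ) : ℂ) - 1‖ := (h1.sub continuous_const).norm
      have h5 := h4.tendsto 1
      simpa using h5
    exact (tendsto_order.1 h3).2 _ (by norm_num)
  have h6 : (nhds (1 : Eˣ)) = Filter.comap (fun u : Eˣ => (u : E)) (nhds (1 : E)) := by
    have := (Units.isOpenEmbedding_val (R := E)).toIsEmbedding.isInducing.nhds_eq_comap (1 : Eˣ)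
    simpa using this
  rw [h6, Filter.eventually_comap] at h2
  obtain ⟨ε, hε, h7⟩ := Metric.eventually_nhds_iff.1 h2
  refine ⟨min ε 1, lt_min hε one_pos, fun u hu => ?_⟩
  have h8 : ((μ u : ℂˣ) : ℂ) = 1 := by
    refine eq_one_of_small_C fun k => ?_
    have h9 : ‖((u ^ 2 ^ k : Eˣ) : E) - 1‖ < ε := by
      rw [Units.val_pow_eq_pow_val]
      exact (norm_pow_sub_one (hu.trans_le (min_le_right _ _)) k).trans_lt
        (hu.trans_le (min_le_left _ _))
    have h10 := h7 (by rwa [dist_eq_norm]) (u ^ 2 ^ k) rfl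
    rw [map_pow, Units.val_pow_eq_pow_val] at h10
    exact h10.le
  exact Units.ext h8

theorem mu_loc {μ : Eˣ →* ℂˣ} (hμ : Continuous μ) (u₀ : Eˣ) :
    ∀ᶠ x in nhds (u₀ : E), ∀ u : Eˣ, (u : E) = x → μ u = μ u₀ := by
  obtain ⟨ε, hε, h⟩ := mu_eventually_one hμ
  have h0 : 0 < ‖(u₀ : E)‖ := norm_pos_iff.2 u₀.ne_zero
  filter_upwards [Metric.ball_mem_nhds (u₀ : E) (mul_pos hε h0)] with x hx u hu
  rw [Metric.mem_ball, dist_eq_norm] at hx
  have h1 : μ (u * u₀⁻¹) = 1 := by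
    apply h
    have e : ((u * u₀⁻¹ : Eˣ) : E) - 1 = (x - u₀) * (u₀ : E)⁻¹ := by
      rw [Units.val_mul, hu, sub_mul, mul_inv_cancel₀ u₀.ne_zero, Units.val_inv_eq_inv_val]
    rw [e, norm_mul, norm_inv, ← div_eq_mul_inv, div_lt_iff₀ h0]
    exact hx
  have h2 : μ (u * u₀⁻¹) * μ u₀ = μ u := by
    rw [← map_mul, inv_mul_cancel_right]
  rw [← h2, h1, one_mul]

variable [ProperSpace E] [MeasurableSpace E] [BorelSpace E]

theorem absE_loc (u₀ : Eˣ) :
    ∀ᶠ x in nhds (u₀ : E), ∀ u : Eˣ, (u : E) = x → absE u = absE u₀ := by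
  have h0 : 0 < ‖(u₀ : E)‖ := norm_pos_iff.2 u₀.ne_zero
  filter_upwards [Metric.ball_mem_nhds (u₀ : E) h0] with x hx u hu
  rw [Metric.mem_ball, dist_eq_norm] at hx
  have h1 : ‖(u : E)‖ = ‖(u₀ : E)‖ := by
    have h2 := IsUltrametricDist.norm_add_eq_max_of_norm_ne_norm (x := x - u₀) (y := (u₀ : E)) hx.ne
    rw [sub_add_cancel, max_eq_right hx.le] at h2
    rw [hu, h2]
  have h3 := md_eq_of_norm_eq h1
  have h4 : ∀ v : Eˣ, absE v = ((md (v : E) : ℝ≥0) : ℝ) := by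
    intro v
    rw [md_units]
    unfold absE
    congr!
  rw [h4, h4, h3]

end mu

section fac

variable {F E : Type} [NontriviallyNormedField F] [NontriviallyNormedField E] [NormedAlgebra F E]
  [ProperSpace E] [MeasurableSpace E] [BorelSpace E] [IsUltrametricDist E] {σ : E ≃ₐ[F] E} {N : ℕ}
  {H : Matrix (Fin N) (Fin N) E}

/-- The factor `μ(det(g-1)) |det(g-1)|^s` is locally constant on the regular set. -/
theorem fac_loc {μ : Eˣ →* ℂˣ} (hμ : Continuous μ) (g₀ : unitary σ H) (d₀ : Eˣ)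
    (h₀ : (d₀ : E) = (umat g₀ - 1).det) :
    ∀ᶠ g in nhds g₀, ∀ d : Eˣ, (d : E) = (umat g - 1).det → μ d = μ d₀ ∧ absE d = absE d₀ := by
  have hc : Continuous fun g : unitary σ H => (umat g - 1).det := by
    refine Continuous.matrix_det (Continuous.sub ?_ continuous_const)
    exact Units.continuous_val.comp continuous_subtype_val
  have h1 : Filter.Tendsto (fun g : unitary σ H => (umat g - 1).det) (nhds g₀)
      (nhds (d₀ : E)) := by
    rw [h₀]
    exact hc.tendsto g₀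
  filter_upwards [h1.eventually (mu_loc hμ d₀), h1.eventually (absE_loc d₀)] with g h2 h3 d hd
  exact ⟨h2 d hd, h3 d hd⟩

end fac

end SpW
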