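import Pool.Agent.Work.MP_3615d2_al.UnitB
import Pool.Agent.Work.MP_3615d2_al.Cartan

/-!
MP_3615d2_al, Theorem B, module B4 (note 6471, Step 2): a smooth representation of `GL_n(E)` all
of whose coinvariants along the standard maximal unipotent radicals vanish has matrix
coefficients with compact support modulo the centre (Harish-Chandra).
-/

open Filter Topology

set_option linter.unusedSectionVars false

namespace SpW

section nk

variable {R : Type} [CommRing R]

/-- The unipotent radical `N_k = Hom(X / A, A)`, `A = span(e_1, ..., e_k)`: unipotent matrices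
whose nontrivial entries are at `(i, j)` with `i < k ≤ j`. -/
def Nk (n k : ℕ) (R : Type) [CommRing R] : Subgroup (GL (Fin n) R) where
  carrier := {u | ∀ i j : Fin n, ¬ (i.1 < k ∧ k ≤ j.1) →
    (u : Matrix (Fin n) (Fin n) R) i j = (1 : Matrix (Fin n) (Fin n) R) i j}
  mul_mem' := by
    intro a b ha hb i j hij
    have h1 : (a : Matrix (Fin n) (Fin n) R) * b = 1 + ((a : Matrix (Fin n) (Fin n) R) - 1) +
        ((b : Matrix (Fin n) (Fin n) R) - 1) +
        ((a : Matrix (Fin n) (Fin n) R) - 1) * ((b : Matrix (Fin n) (Fin n) R) - 1) := by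
      noncomm_ring
    have h2 : (((a : Matrix (Fin n) (Fin n) R) - 1) * ((b : Matrix (Fin n) (Fin n) R) - 1)) i j = 0 := by
      rw [Matrix.mul_apply]
      apply Finset.sum_eq_zero
      intro l _
      by_cases hl : l.1 < k
      · rw [Matrix.sub_apply _ _ i l, ha i l (by omega), sub_self, zero_mul]
      · rw [Matrix.sub_apply _ _ l j, hb l j (by omega), sub_self, mul_zero]
    rw [Units.val_mul, h1]
    simp only [Matrix.add_apply, h2, Matrix.sub_apply, ha i j hij, hb i j hij]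
    simp
  one_mem' := by
    intro i j _
    rfl
  inv_mem' := by
    intro a ha
    have h3 : ((a : Matrix (Fin n) (Fin n) R) - 1) * ((a : Matrix (Fin n) (Fin n) R) - 1) = 0 := by
      ext i j
      rw [Matrix.mul_apply, Matrix.zero_apply]
      apply Finset.sum_eq_zero
      intro l _
      by_cases hl : l.1 < k
      · rw [Matrix.sub_apply _ _ i l, ha i l (by omega), sub_self, zero_mul]
      · rw [Matrix.sub_apply _ _ l j, ha l j (by omega), sub_self, mul_zero]
    have h4 : ((a⁻¹ : GL (Fin n) R) : Matrix (Fin n) (Fin n) R) = 1 + 1 - a := by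
      have h5 : (1 + 1 - (a : Matrix (Fin n) (Fin n) R)) * a = 1 := by
        have : (1 + 1 - (a : Matrix (Fin n) (Fin n) R)) * a =
          1 - ((a : Matrix (Fin n) (Fin n) R) - 1) * ((a : Matrix (Fin n) (Fin n) R) - 1) := by
          noncomm_ring
        rw [this, h3, sub_zero]
      exact Units.inv_eq_of_mul_eq_one_left h5
    intro i j hij
    rw [h4]
    simp only [Matrix.add_apply, Matrix.sub_apply, ha i j hij]
    simp

end nk

section hc

variable {E : Type} [NontriviallyNormedField E] [IsUltrametricDist E] {n : ℕ}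
  {V : Type} [AddCommGroup V] [Module ℂ V]

/-- the scalar matrices -/
def scalZ (n : ℕ) (E : Type) [Field E] : Subgroup (GL (Fin n) E) :=
  (Matrix.GeneralLinearGroup.scalar (R := E) (Fin n)).range

theorem scalZ_central {E : Type} [Field E] (z : GL (Fin n) E) (hz : z ∈ scalZ n E)
    (g : GL (Fin n) E) : z * g = g * z := by
  have h1 : z ∈ Subgroup.center (GL (Fin n) E) := by
    rw [Matrix.GeneralLinearGroup.center_eq_range_scalar]
    exact hz
  exact (Subgroup.mem_center_iff.1 h1 g).symm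

theorem gDual_comp {G : Type} [Group G] [TopologicalSpace G] [IsTopologicalGroup G]
    {π : G →* Module.End ℂ V} {ξ : V →ₗ[ℂ] ℂ} (hξ : ξ ∈ gDual π) (k : G) :
    ξ ∘ₗ π k ∈ gDual π := by
  have h1 : Tendsto (fun x : G => k * x * k⁻¹) (𝓝 1) (𝓝 1) := by
    have : ContinuousAt (fun x : G => k * x * k⁻¹) 1 := by fun_prop
    simpa [ContinuousAt] using this
  have h2 : ∀ᶠ x in 𝓝 (1 : G), ∀ v, ξ (π x v) = ξ v := hξ
  show ∀ᶠ x in 𝓝 (1 : G), ∀ v, (ξ ∘ₗ π k) (π x v) = (ξ ∘ₗ π k) v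
  filter_upwards [h1.eventually h2] with x hx v
  have h3 := hx (π k v)
  rw [LinearMap.comp_apply, LinearMap.comp_apply, ← h3, ← Module.End.mul_apply, ← map_mul,
    ← Module.End.mul_apply, ← map_mul, inv_mul_cancel_right]

theorem orbit_finite {G : Type} [Group G] [TopologicalSpace G] [IsTopologicalGroup G]
    {π : G →* Module.End ℂ V} (hπ : IsSmoothRep π) {K : Subgroup G} (hK : IsCompact (K : Set G))
    (v : V) : {x | ∃ k ∈ K, x = π k v}.Finite := by
  have : CompactSpace K := isCompact_iff_compactSpace.1 hK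
  have h1 : IsLocallyConstant (fun k : K => π (k : G) v) := by
    rw [IsLocallyConstant.iff_eventually_eq]
    intro k
    have h1 : ∀ᶠ g in 𝓝 (1 : G), π g v = v := hπ v
    have h3 : Tendsto (fun j : K => (k : G)⁻¹ * (j : G)) (𝓝 k) (𝓝 1) := by
      have : Continuous (fun j : K => (k : G)⁻¹ * (j : G)) := by fun_prop
      simpa using this.tendsto k
    filter_upwards [h3.eventually h1] with j hj
    have h4 : π (j : G) v = π (k : G) (π ((k : G)⁻¹ * (j : G)) v) := by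
      rw [← Module.End.mul_apply, ← map_mul, mul_inv_cancel_left]
    rw [h4, hj]
  refine h1.range_finite.subset ?_
  rintro x ⟨k, hk, rfl⟩
  exact ⟨⟨k, hk⟩, rfl⟩

theorem orbit_finite_dual {G : Type} [Group G] [TopologicalSpace G] [IsTopologicalGroup G]
    {π : G →* Module.End ℂ V} {K : Subgroup G} (hK : IsCompact (K : Set G))
    {ξ : V →ₗ[ℂ] ℂ} (hξ : ξ ∈ gDual π) : {x | ∃ k ∈ K, x = ξ ∘ₗ π k}.Finite := by
  have : CompactSpace K := isCompact_iff_compactSpace.1 hK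
  have h1 : IsLocallyConstant (fun k : K => ξ ∘ₗ π (k : G)) := by
    rw [IsLocallyConstant.iff_eventually_eq]
    intro k
    have h1 : ∀ᶠ g in 𝓝 (1 : G), ∀ v, ξ (π g v) = ξ v := hξ
    have h3 : Tendsto (fun j : K => (j : G) * (k : G)⁻¹) (𝓝 k) (𝓝 1) := by
      have : Continuous (fun j : K => (j : G) * (k : G)⁻¹) := by fun_prop
      simpa using this.tendsto k
    filter_upwards [h3.eventually h1] with j hj
    ext v
    have h4 := hj (π (k : G) v)
    rw [← Module.End.mul_apply, ← map_mul, inv_mul_cancel_right] at h4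
    exact h4
  refine h1.range_finite.subset ?_
  rintro x ⟨k, hk, rfl⟩
  exact ⟨⟨k, hk⟩, rfl⟩

/-- `t u t⁻¹ - 1` -/
theorem conj_entry (t : Fin n → Eˣ) (u : GL (Fin n) E) (i j : Fin n) :
    (((dgl t * u * (dgl t)⁻¹ : GL (Fin n) E) : Matrix (Fin n) (Fin n) E) - 1) i j =
      (t i : E) * ((u : Matrix (Fin n) (Fin n) E) - 1) i j * ((t j : E))⁻¹ := by
  have h1 : ((dgl t * u * (dgl t)⁻¹ : GL (Fin n) E) : Matrix (Fin n) (Fin n) E) - 1 =
      Matrix.diagonal (fun i => (t i : E)) * ((u : Matrix (Fin n) (Fin n) E) - 1) *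
        Matrix.diagonal (fun i => (((t i)⁻¹ : Eˣ) : E)) := by
    have h2 : Matrix.diagonal (fun i => (t i : E)) *
        Matrix.diagonal (fun i => (((t i)⁻¹ : Eˣ) : E)) = (1 : Matrix (Fin n) (Fin n) E) :=
      (dgl t).mul_inv
    rw [Units.val_mul, Units.val_mul, dgl_val, dgl_inv_val, Matrix.mul_sub, Matrix.sub_mul,
      Matrix.mul_one, h2]
  rw [h1, Matrix.mul_diagonal, Matrix.diagonal_mul, Units.val_inv_eq_inv_val]

/-- contraction of `N_k` by diagonal elements -/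
theorem conj_small {k : ℕ} {u : GL (Fin n) E} (hu : u ∈ Nk n k E) {L : Set (GL (Fin n) E)}
    (hL : L ∈ 𝓝 (1 : GL (Fin n) E)) : ∀ᶠ c in 𝓝[>] (0 : ℝ), ∀ t : Fin n → Eˣ,
      (∀ i j : Fin n, i.1 < k → k ≤ j.1 → ‖(t i : E)‖ ≤ c * ‖(t j : E)‖) →
        dgl t * u * (dgl t)⁻¹ ∈ L := by
  obtain ⟨ε, h0, h1, h⟩ := exists_ball_gl hL
  obtain ⟨R, hR0, hR⟩ : ∃ R : ℝ, 0 < R ∧ ∀ i j, ‖((u : Matrix (Fin n) (Fin n) E) - 1) i j‖ ≤ R ∧
      ‖(((u⁻¹ : GL (Fin n) E) : Matrix (Fin n) (Fin n) E) - 1) i j‖ ≤ R := by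
    refine ⟨1 + ∑ i, ∑ j, (‖((u : Matrix (Fin n) (Fin n) E) - 1) i j‖ +
      ‖(((u⁻¹ : GL (Fin n) E) : Matrix (Fin n) (Fin n) E) - 1) i j‖), by positivity, ?_⟩
    intro i j
    have h2 : ‖((u : Matrix (Fin n) (Fin n) E) - 1) i j‖ +
        ‖(((u⁻¹ : GL (Fin n) E) : Matrix (Fin n) (Fin n) E) - 1) i j‖ ≤
        ∑ i, ∑ j, (‖((u : Matrix (Fin n) (Fin n) E) - 1) i j‖ +
          ‖(((u⁻¹ : GL (Fin n) E) : Matrix (Fin n) (Fin n) E) - 1) i j‖) := by
      refine (Finset.single_le_sum (f := fun j => ‖((u : Matrix (Fin n) (Fin n) E) - 1) i j‖ +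
          ‖(((u⁻¹ : GL (Fin n) E) : Matrix (Fin n) (Fin n) E) - 1) i j‖)
          (fun j _ => by positivity) (Finset.mem_univ j)).trans ?_
      exact Finset.single_le_sum (f := fun i => ∑ j, (‖((u : Matrix (Fin n) (Fin n) E) - 1) i j‖ +
          ‖(((u⁻¹ : GL (Fin n) E) : Matrix (Fin n) (Fin n) E) - 1) i j‖))
          (fun j _ => by positivity) (Finset.mem_univ i)
    have h3 := norm_nonneg (((u : Matrix (Fin n) (Fin n) E) - 1) i j)
    have h4 := norm_nonneg ((((u⁻¹ : GL (Fin n) E) : Matrix (Fin n) (Fin n) E) - 1) i j)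
    constructor <;> linarith
  have key : ∀ (w : GL (Fin n) E), w ∈ Nk n k E →
      (∀ i j, ‖((w : Matrix (Fin n) (Fin n) E) - 1) i j‖ ≤ R) → ∀ c : ℝ, 0 < c → c * R ≤ ε →
      ∀ t : Fin n → Eˣ, (∀ i j : Fin n, i.1 < k → k ≤ j.1 → ‖(t i : E)‖ ≤ c * ‖(t j : E)‖) →
      ∀ i j, ‖(((dgl t * w * (dgl t)⁻¹ : GL (Fin n) E) : Matrix (Fin n) (Fin n) E) - 1) i j‖ ≤ ε := by
    intro w hw hwR c hc hcR t ht i j
    rw [conj_entry]
    by_cases hij : i.1 < k ∧ k ≤ j.1
    · have h2 := ht i j hij.1 hij.2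
      have h3 : 0 < ‖(t j : E)‖ := norm_pos_iff.2 (t j).ne_zero
      rw [norm_mul, norm_mul, norm_inv]
      calc ‖(t i : E)‖ * ‖((w : Matrix (Fin n) (Fin n) E) - 1) i j‖ * ‖(t j : E)‖⁻¹
          ≤ (c * ‖(t j : E)‖) * R * ‖(t j : E)‖⁻¹ := by
            gcongr
            exact hwR i j
        _ = c * R := by field_simp
        _ ≤ ε := hcR
    · have h2 : ((w : Matrix (Fin n) (Fin n) E) - 1) i j = 0 := by
        rw [Matrix.sub_apply, hw i j hij, sub_self]
      rw [h2, mul_zero, zero_mul, norm_zero]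
      exact h0.le
  have h2 : ∀ᶠ c in 𝓝[>] (0 : ℝ), 0 < c ∧ c < ε / R := by
    filter_upwards [Ioo_mem_nhdsGT (div_pos h0 hR0)] with c hc
    exact hc
  filter_upwards [h2] with c hc t ht
  have h3 : c * R ≤ ε := by
    rw [← le_div_iff₀ hR0]
    exact hc.2.le
  apply h
  · exact key u hu (fun i j => (hR i j).1) c hc.1 h3 t ht
  · have h4 : (dgl t * u * (dgl t)⁻¹)⁻¹ = dgl t * u⁻¹ * (dgl t)⁻¹ := by group
    rw [h4]
    exact key u⁻¹ ((Nk n k E).inv_mem hu) (fun i j => (hR i j).2) c hc.1 h3 t ht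

/-- Jacquet's lemma for one standard radical -/
theorem coeff_zero {k : ℕ} {π : GL (Fin n) E →* Module.End ℂ V} {ξ : V →ₗ[ℂ] ℂ}
    (hξ : ξ ∈ gDual π) {v : V}
    (hv : v ∈ Submodule.span ℂ {x | ∃ u ∈ Nk n k E, ∃ w, x = π u w - w}) :
    ∀ᶠ c in 𝓝[>] (0 : ℝ), ∀ t : Fin n → Eˣ,
      (∀ i j : Fin n, i.1 < k → k ≤ j.1 → ‖(t i : E)‖ ≤ c * ‖(t j : E)‖) →
        ξ (π (dgl t) v) = 0 := by
  induction hv using Submodule.span_induction with
  | mem x hx =>
    obtain ⟨u, hu, w, rfl⟩ := hx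
    filter_upwards [conj_small hu (show {g | ∀ v, ξ (π g v) = ξ v} ∈ 𝓝 1 from hξ)] with c hc t ht
    have h1 : ξ (π (dgl t * u * (dgl t)⁻¹) (π (dgl t) w)) = ξ (π (dgl t) w) := hc t ht _
    rw [← Module.End.mul_apply, ← map_mul, inv_mul_cancel_right, map_mul,
      Module.End.mul_apply] at h1
    rw [map_sub, map_sub, h1, sub_self]
  | zero => exact Filter.Eventually.of_forall fun c t _ => by simp
  | add x y _ _ hx hy =>
    filter_upwards [hx, hy] with c h1 h2 t ht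
    rw [map_add, map_add, h1 t ht, h2 t ht, add_zero]
  | smul a x _ hx =>
    filter_upwards [hx] with c h1 t ht
    rw [map_smul, map_smul, h1 t ht, smul_zero]

/-- **(HC)** A smooth representation of `GL_n(E)` with vanishing coinvariants for all `N_k`,
`0 < k < n`, has matrix coefficients with compact support modulo the scalars. -/
theorem hasHC_of_coinv [ProperSpace E] {π : GL (Fin n) E →* Module.End ℂ V} (hπ : IsSmoothRep π)
    (hN : ∀ k, 0 < k → k < n → ∀ v : V,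
      v ∈ Submodule.span ℂ {x | ∃ u ∈ Nk n k E, ∃ w, x = π u w - w}) :
    HasHC (scalZ n E) π := by
  intro v ξ hξ
  -- `n = 0`
  rcases Nat.eq_zero_or_pos n with hn | hn
  · subst hn
    refine ⟨{1}, isCompact_singleton, fun g _ => ⟨1, rfl, 1, one_mem _, ?_⟩⟩
    apply Units.ext
    exact Subsingleton.elim _ _
  set K := glK (Fin n) E 1 zero_le_one le_rfl with hK
  have hKc : IsCompact (K : Set (GL (Fin n) E)) := glK_isCompact one_pos le_rfl
  have h1 := orbit_finite hπ hKc v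
  have h2 := orbit_finite_dual hKc hξ
  -- uniform constant
  have h3 : ∀ᶠ c in 𝓝[>] (0 : ℝ), ∀ k ∈ Finset.Ioo 0 n, ∀ x ∈ {x | ∃ k ∈ K, x = π k v},
      ∀ η ∈ {x | ∃ k ∈ K, x = ξ ∘ₗ π k}, ∀ t : Fin n → Eˣ,
      (∀ i j : Fin n, i.1 < k → k ≤ j.1 → ‖(t i : E)‖ ≤ c * ‖(t j : E)‖) →
        η (π (dgl t) x) = 0 := by
    refine (Filter.eventually_all_finset _).2 fun k hk => ?_
    refine (Filter.eventually_all_finite h1).2 fun x _ => ?_
    refine (Filter.eventually_all_finite h2).2 fun η hη => ?_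
    obtain ⟨l, _, rfl⟩ := hη
    rw [Finset.mem_Ioo] at hk
    exact coeff_zero (gDual_comp hξ l) (hN k hk.1 hk.2 x)
  obtain ⟨c, ⟨hc0, hc1⟩, hc⟩ := ((Filter.eventually_of_mem
    (Ioo_mem_nhdsGT (zero_lt_one (α := ℝ))) (fun c hc => hc)).and h3).exists
  let R : ℝ := (c⁻¹) ^ n
  have hci : 1 ≤ c⁻¹ := (one_le_inv₀ hc0).2 hc1.le
  have hR1 : 1 ≤ R := one_le_pow₀ hci
  refine ⟨_, isCompact_gl_bdd (E := E) (ι := Fin n) R, fun g hg => ?_⟩
  obtain ⟨k₁, hk₁, k₂, hk₂, t, ht, rfl⟩ := cartan g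
  let i₀ : Fin n := ⟨0, hn⟩
  -- bounds on the ratios
  have h4 : ∀ k : ℕ, ∀ hk : k + 1 < n,
      ‖(t ⟨k + 1, hk⟩ : E)‖ ≤ c⁻¹ * ‖(t ⟨k, by omega⟩ : E)‖ := by
    intro k hk
    by_contra h5
    push Not at h5
    apply hg
    show ξ (π (k₁ * dgl t * k₂) v) = 0
    have h6 := hc (k + 1) (Finset.mem_Ioo.2 ⟨by omega, hk⟩) (π k₂ v) ⟨k₂, hk₂, rfl⟩
      (ξ ∘ₗ π k₁) ⟨k₁, hk₁, rfl⟩ t ?_
    · rw [LinearMap.comp_apply] at h6
      rw [map_mul, map_mul, Module.End.mul_apply, Module.End.mul_apply]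
      exact h6
    · intro i j hi hj
      have h7 : ‖(t i : E)‖ ≤ ‖(t ⟨k, by omega⟩ : E)‖ :=
        ht (show i ≤ (⟨k, by omega⟩ : Fin n) by
          rw [Fin.le_def]
          show i.1 ≤ k
          omega)
      have h8 : ‖(t ⟨k + 1, hk⟩ : E)‖ ≤ ‖(t j : E)‖ :=
        ht (show (⟨k + 1, hk⟩ : Fin n) ≤ j by
          rw [Fin.le_def]
          exact hj)
      have h9 : ‖(t ⟨k, by omega⟩ : E)‖ ≤ c * ‖(t ⟨k + 1, hk⟩ : E)‖ := by
        have := h5.le
        rw [inv_mul_le_iff₀ hc0] at this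
        exact this
      calc ‖(t i : E)‖ ≤ ‖(t ⟨k, by omega⟩ : E)‖ := h7
        _ ≤ c * ‖(t ⟨k + 1, hk⟩ : E)‖ := h9
        _ ≤ c * ‖(t j : E)‖ := by gcongr
  have h5 : ∀ k : ℕ, ∀ hk : k < n, ‖(t ⟨k, hk⟩ : E)‖ ≤ (c⁻¹) ^ k * ‖(t i₀ : E)‖ := by
    intro k
    induction k with
    | zero =>
      intro hk
      simp [i₀]
    | succ k ih =>
      intro hk
      refine (h4 k hk).trans ?_
      have h6 := ih (by omega)
      rw [pow_succ', mul_assoc]
      gcongr
  let z : GL (Fin n) E := Matrix.GeneralLinearGroup.scalar (R := E) (Fin n) (t i₀)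
  have hz : z ∈ scalZ n E := ⟨t i₀, rfl⟩
  have hz' : z = dgl (fun _ => t i₀) := by
    apply Units.ext
    rw [dgl_val]
    rfl
  refine ⟨k₁ * dgl (fun i => t i * (t i₀)⁻¹) * k₂, ?_, z, hz, ?_⟩
  · have hpos : 0 < ‖(t i₀ : E)‖ := norm_pos_iff.2 (t i₀).ne_zero
    intro i j
    constructor
    · rw [Units.val_mul, Units.val_mul, dgl_val]
      have h6 : ∀ i j, ‖((k₁ : Matrix (Fin n) (Fin n) E) *
          Matrix.diagonal fun i => ((t i * (t i₀)⁻¹ : Eˣ) : E)) i j‖ ≤ 1 * R := by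
        apply mul_entry_le _ _ zero_le_one (zero_le_one.trans hR1) (glK_entry hk₁)
        intro i j
        by_cases hij : i = j
        · subst hij
          rw [Matrix.diagonal_apply_eq, Units.val_mul, Units.val_inv_eq_inv_val, norm_mul,
            norm_inv, ← div_eq_mul_inv, div_le_iff₀ hpos]
          refine (h5 i.1 i.2).trans ?_
          have h9 : (c⁻¹) ^ i.1 ≤ R := pow_le_pow_right₀ hci i.2.le
          gcongr
        · rw [Matrix.diagonal_apply_ne _ hij, norm_zero]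
          exact zero_le_one.trans hR1
      rw [one_mul] at h6
      have h7 := mul_entry_le _ _ (zero_le_one.trans hR1) zero_le_one h6 (glK_entry hk₂) i j
      rwa [mul_one] at h7
    · have h6 : (k₁ * dgl (fun i => t i * (t i₀)⁻¹) * k₂)⁻¹ =
          k₂⁻¹ * (dgl (fun i => t i * (t i₀)⁻¹))⁻¹ * k₁⁻¹ := by group
      rw [h6, Units.val_mul, Units.val_mul, dgl_inv_val]
      have h7 : ∀ i j, ‖(((k₂⁻¹ : GL (Fin n) E) : Matrix (Fin n) (Fin n) E) *
          Matrix.diagonal fun i => (((t i * (t i₀)⁻¹)⁻¹ : Eˣ) : E)) i j‖ ≤ 1 * 1 := by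
        apply mul_entry_le _ _ zero_le_one zero_le_one (glK_entry_inv hk₂)
        intro i j
        by_cases hij : i = j
        · subst hij
          have hi : ‖(t i₀ : E)‖ ≤ ‖(t i : E)‖ := ht (show i₀ ≤ i by
            rw [Fin.le_def]
            exact Nat.zero_le _)
          rw [Matrix.diagonal_apply_eq, Units.val_inv_eq_inv_val, Units.val_mul,
            Units.val_inv_eq_inv_val, norm_inv, norm_mul, norm_inv, mul_inv, inv_inv,
            ← div_eq_inv_mul]
          exact div_le_one_of_le₀ hi (norm_nonneg _)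
        · rw [Matrix.diagonal_apply_ne _ hij, norm_zero]
          exact zero_le_one
      have h8 := mul_entry_le _ _ (by norm_num) zero_le_one h7 (glK_entry_inv hk₁) i j
      refine h8.trans ?_
      rw [one_mul, one_mul]
      exact hR1
  · have h6 : dgl t = dgl (fun i => t i * (t i₀)⁻¹) * z := by
      rw [hz', ← map_mul]
      congr 1
      funext i
      simp
    rw [h6, mul_assoc (k₁ * dgl _) k₂ z, ← scalZ_central z hz k₂]
    simp only [mul_assoc]

end hc

end SpW
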