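import Pool.Agent.Work.MP_3615d2_al.Defs

/-!
MP_3615d2_al: locally constant functions with compact support: cutting by clopen sets,
indicators, the action of a group, and the finite partition principle.
-/

open Set Topology

namespace SpW

section base

variable {X S : Type} [TopologicalSpace X] [AddCommGroup S] [Module ℂ S]

theorem Sch.locConst (f : Sch X S) : IsLocallyConstant (f : X → S) := f.2.1

theorem Sch.ext' {f g : Sch X S} (h : ∀ x, (f : X → S) x = (g : X → S) x) : f = g :=
  Subtype.ext (funext h)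

/-- Cutting by a clopen set. -/
noncomputable def cut (W : Set X) (hW : IsClopen W) : Sch X S →ₗ[ℂ] Sch X S where
  toFun f := ⟨W.indicator (f : X → S), by
    refine ⟨?_, ?_⟩
    · rw [IsLocallyConstant.iff_eventually_eq]
      intro x
      have hf := (IsLocallyConstant.iff_eventually_eq (f : X → S)).1 f.2.1 x
      by_cases hx : x ∈ W
      · filter_upwards [hf, hW.isOpen.mem_nhds hx] with y hy hyW
        rw [Set.indicator_of_mem hyW, Set.indicator_of_mem hx, hy]
      · filter_upwards [hW.compl.isOpen.mem_nhds hx] with y hyW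
        rw [Set.indicator_of_notMem hyW, Set.indicator_of_notMem hx]
    · obtain ⟨K, hK, hf⟩ := f.2.2
      refine ⟨K, hK, fun x hx => ?_⟩
      by_cases hx' : x ∈ W
      · rw [Set.indicator_of_mem hx', hf x hx]
      · rw [Set.indicator_of_notMem hx']⟩
  map_add' f g := by
    apply Sch.ext'
    intro x
    show W.indicator ((f + g : Sch X S) : X → S) x = W.indicator (f : X → S) x + W.indicator (g : X → S) x
    by_cases hx : x ∈ W
    · rw [Set.indicator_of_mem hx, Set.indicator_of_mem hx, Set.indicator_of_mem hx]; rfl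
    · rw [Set.indicator_of_notMem hx, Set.indicator_of_notMem hx, Set.indicator_of_notMem hx]; simp
  map_smul' c f := by
    apply Sch.ext'
    intro x
    show W.indicator ((c • f : Sch X S) : X → S) x = c • W.indicator (f : X → S) x
    by_cases hx : x ∈ W
    · rw [Set.indicator_of_mem hx, Set.indicator_of_mem hx]; rfl
    · rw [Set.indicator_of_notMem hx, Set.indicator_of_notMem hx]; simp

theorem cut_mem {W : Set X} (hW : IsClopen W) (f : Sch X S) {x : X} (hx : x ∈ W) :
    (cut W hW f : X → S) x = (f : X → S) x := Set.indicator_of_mem hx _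

theorem cut_notMem {W : Set X} (hW : IsClopen W) (f : Sch X S) {x : X} (hx : x ∉ W) :
    (cut W hW f : X → S) x = 0 := Set.indicator_of_notMem hx _

/-- The function `1_Q ⊗ v`, for `Q` clopen and compact. -/
noncomputable def ind (Q : Set X) (hQ : IsClopen Q) (hK : IsCompact Q) : S →ₗ[ℂ] Sch X S where
  toFun v := ⟨Q.indicator (fun _ => v), by
    refine ⟨?_, Q, hK, fun x hx => Set.indicator_of_notMem hx _⟩
    rw [IsLocallyConstant.iff_eventually_eq]
    intro x
    by_cases hx : x ∈ Q
    · filter_upwards [hQ.isOpen.mem_nhds hx] with y hyW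
      rw [Set.indicator_of_mem hyW, Set.indicator_of_mem hx]
    · filter_upwards [hQ.compl.isOpen.mem_nhds hx] with y hyW
      rw [Set.indicator_of_notMem hyW, Set.indicator_of_notMem hx]⟩
  map_add' v w := by
    apply Sch.ext'
    intro x
    show Q.indicator (fun _ => v + w) x = Q.indicator (fun _ => v) x + Q.indicator (fun _ => w) x
    by_cases hx : x ∈ Q
    · simp [hx]
    · simp [hx]
  map_smul' c v := by
    apply Sch.ext'
    intro x
    show Q.indicator (fun _ => c • v) x = c • Q.indicator (fun _ => v) x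
    by_cases hx : x ∈ Q
    · simp [hx]
    · simp [hx]

theorem ind_mem {Q : Set X} (hQ : IsClopen Q) (hK : IsCompact Q) (v : S) {x : X} (hx : x ∈ Q) :
    (ind Q hQ hK v : X → S) x = v := Set.indicator_of_mem hx (fun _ => v)

theorem ind_notMem {Q : Set X} (hQ : IsClopen Q) (hK : IsCompact Q) (v : S) {x : X} (hx : x ∉ Q) :
    (ind Q hQ hK v : X → S) x = 0 := Set.indicator_of_notMem hx (fun _ => v)

/-- The sum of two cuts. -/
theorem cut_add {A B W : Set X} (hA : IsClopen A) (hB : IsClopen B) (hW : IsClopen W)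
    (hAB : Disjoint A B) (hU : A ∪ B = W) (f : Sch X S) :
    cut W hW f = cut A hA f + cut B hB f := by
  apply Sch.ext'
  intro x
  show (cut W hW f : X → S) x = (cut A hA f : X → S) x + (cut B hB f : X → S) x
  by_cases hxA : x ∈ A
  · have hxB : x ∉ B := fun h => Set.disjoint_left.1 hAB hxA h
    rw [cut_mem hA f hxA, cut_notMem hB f hxB, cut_mem hW f (hU ▸ Or.inl hxA), add_zero]
  · by_cases hxB : x ∈ B
    · rw [cut_notMem hA f hxA, cut_mem hB f hxB, cut_mem hW f (hU ▸ Or.inr hxB), zero_add]
    · have hxW : x ∉ W := by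
        rw [← hU]
        rintro (h | h)
        · exact hxA h
        · exact hxB h
      rw [cut_notMem hA f hxA, cut_notMem hB f hxB, cut_notMem hW f hxW, add_zero]

/-- Finite partition principle: cut `f` along the fibres of a locally constant map. -/
theorem mem_of_cut_fibre {ι : Type} (π : X → ι) (hπ : IsLocallyConstant π) (N : Submodule ℂ (Sch X S))
    (f : Sch X S)
    (h : ∀ i, cut (π ⁻¹' {i}) (hπ.isClopen_fiber i) f ∈ N) : f ∈ N := by
  classical
  obtain ⟨K, hK, hf⟩ := f.2.2
  letI : TopologicalSpace ι := ⊥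
  haveI : DiscreteTopology ι := ⟨rfl⟩
  have hfin : (π '' K).Finite := (hK.image ((IsLocallyConstant.iff_continuous π).1 hπ)).finite_of_discrete
  have key : f = ∑ i ∈ hfin.toFinset, cut (π ⁻¹' {i}) (hπ.isClopen_fiber i) f := by
    apply Sch.ext'
    intro x
    have h1 : ((∑ i ∈ hfin.toFinset, cut (π ⁻¹' {i}) (hπ.isClopen_fiber i) f : Sch X S) : X → S) x
        = ∑ i ∈ hfin.toFinset, (cut (π ⁻¹' {i}) (hπ.isClopen_fiber i) f : X → S) x := by
      rw [Submodule.coe_sum, Finset.sum_apply]
    rw [h1]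
    by_cases hx : x ∈ K
    · rw [Finset.sum_eq_single (π x)]
      · rw [cut_mem _ f (by simp)]
      · intro i _ hi
        exact cut_notMem _ f (by simpa using fun h => hi h.symm)
      · intro hi
        exact absurd (hfin.mem_toFinset.2 ⟨x, hx, rfl⟩) hi
    · rw [hf x hx]
      symm
      apply Finset.sum_eq_zero
      intro i _
      by_cases hi : x ∈ π ⁻¹' {i}
      · rw [cut_mem _ f hi, hf x hx]
      · exact cut_notMem _ f hi
  rw [key]
  exact Submodule.sum_mem _ fun i _ => h i

/-- Compactness principle: `χ : X → T`, each point of `T` has a clopen neighbourhood `W` such that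
`1_{χ ∈ W'} f ∈ N` for every clopen `W' ⊆ W`; then `f ∈ N`. -/
theorem mem_of_cut_nhds {T : Type} [TopologicalSpace T] (χ : X → T) (hχ : Continuous χ)
    (N : Submodule ℂ (Sch X S)) (f : Sch X S)
    (h : ∀ t : T, ∃ W : Set T, IsClopen W ∧ t ∈ W ∧ ∀ (W' : Set T) (hW' : IsClopen W'), W' ⊆ W →
      cut (χ ⁻¹' W') (hW'.preimage hχ) f ∈ N) : f ∈ N := by
  obtain ⟨K, hK, hf⟩ := f.2.2
  have key : ∃ W : Set T, IsClopen W ∧ χ '' K ⊆ W ∧ ∀ (W' : Set T) (hW' : IsClopen W'), W' ⊆ W →
      cut (χ ⁻¹' W') (hW'.preimage hχ) f ∈ N := by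
    refine (hK.image hχ).induction_on
      (p := fun A => ∃ W : Set T, IsClopen W ∧ A ⊆ W ∧ ∀ (W' : Set T) (hW' : IsClopen W'), W' ⊆ W →
        cut (χ ⁻¹' W') (hW'.preimage hχ) f ∈ N) ?_ ?_ ?_ ?_
    · refine ⟨∅, isClopen_empty, le_refl _, ?_⟩
      intro W' hW' hs
      have : cut (χ ⁻¹' W') (hW'.preimage hχ) f = 0 := by
        apply Sch.ext'
        intro x
        exact cut_notMem _ f (fun hx => hs hx)
      rw [this]
      exact N.zero_mem
    · rintro A B hAB ⟨W, hW, hBW, hN⟩
      exact ⟨W, hW, hAB.trans hBW, hN⟩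
    · rintro A B ⟨W, hW, hAW, hN⟩ ⟨W₂, hW₂, hBW₂, hN₂⟩
      refine ⟨W ∪ W₂, hW.union hW₂, Set.union_subset_union hAW hBW₂, ?_⟩
      intro W' hW' hs
      have h1 := hN (W' ∩ W) (hW'.inter hW) Set.inter_subset_right
      have h2 := hN₂ (W' \ W) (hW'.diff hW) (by
        rintro x ⟨hx, hxW⟩
        rcases hs hx with h | h
        · exact absurd h hxW
        · exact h)
      rw [cut_add ((hW'.inter hW).preimage hχ) ((hW'.diff hW).preimage hχ) (hW'.preimage hχ) ?_ ?_ f]
      · exact N.add_mem h1 h2
      · rw [Set.disjoint_left]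
        rintro x ⟨_, hx⟩ ⟨_, hx'⟩
        exact hx' hx
      · ext x
        constructor
        · rintro (⟨h, _⟩ | ⟨h, _⟩)
          · exact h
          · exact h
        · intro h
          by_cases hx : χ x ∈ W
          · exact Or.inl ⟨h, hx⟩
          · exact Or.inr ⟨h, hx⟩
    · rintro t _
      obtain ⟨W, hW, ht, hN⟩ := h t
      exact ⟨W, mem_nhdsWithin_of_mem_nhds (hW.isOpen.mem_nhds ht), W, hW, le_refl _, hN⟩
  obtain ⟨W, hW, hKW, hN⟩ := key
  have h1 := hN W hW (le_refl _)
  have : cut (χ ⁻¹' W) (hW.preimage hχ) f = f := by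
    apply Sch.ext'
    intro x
    by_cases hx : χ x ∈ W
    · exact cut_mem _ f hx
    · rw [cut_notMem _ f hx, hf x (fun hxK => hx (hKW ⟨x, hxK, rfl⟩))]
  rwa [this] at h1

end base

section action

variable {U X S : Type} [Group U] [TopologicalSpace U] [TopologicalSpace X] [MulAction U X]
  [ContinuousSMul U X] [AddCommGroup S] [Module ℂ S]

/-- The action of `U` on `Sch X S`: `(g f)(x) = ω(g) f(g⁻¹ x)`. -/
noncomputable def gact (om : U →* Module.End ℂ S) (g : U) : Sch X S →ₗ[ℂ] Sch X S where
  toFun f := ⟨fun x => om g ((f : X → S) (g⁻¹ • x)), by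
    refine ⟨?_, ?_⟩
    · exact (f.2.1.comp_continuous (continuous_const_smul (g⁻¹ : U))).comp (om g)
    · obtain ⟨K, hK, hf⟩ := f.2.2
      refine ⟨(fun x : X => g • x) '' K, hK.image (continuous_const_smul g), ?_⟩
      intro x hx
      have : g⁻¹ • x ∉ K := fun h => hx ⟨g⁻¹ • x, h, by simp⟩
      show om g ((f : X → S) (g⁻¹ • x)) = 0
      rw [hf _ this, map_zero]⟩
  map_add' f g' := by
    apply Sch.ext'
    intro x
    exact map_add (om g) _ _
  map_smul' c f := by
    apply Sch.ext'
    intro x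
    exact map_smul (om g) _ _

theorem gact_apply (om : U →* Module.End ℂ S) (g : U) (f : Sch X S) (x : X) :
    (gact om g f : X → S) x = om g ((f : X → S) (g⁻¹ • x)) := rfl

end action

end SpW
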