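import Pool.Agent.Work.MP_3615d2_al.HC
import Pool.Agent.Work.MP_3615d2_al.GgBase

/-!
MP_3615d2_al, Theorem B: definitions.

`G = GL_{2m}(E)`, `P` the stabiliser of the span of the first `m` basis vectors, with the elements
`pel a d b = (a b; 0 d)`, `Ind ρ` the representation of `G` induced from the representation `ρ` of
`GL_m(E) × GL_m(E)` (unnormalised), `rho π s = |det a|^s |det d|^{-s} π(a) ⊗ π(d)`.
-/

open MeasureTheory Matrix Filter Topology
open scoped NNReal TensorProduct

namespace SpW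

section gen

variable {G V : Type} [Group G] [AddCommGroup V] [Module ℂ V]

/-- Irreducible representations. -/
structure IsIrrRep (π : G →* Module.End ℂ V) : Prop where
  nontrivial : Nontrivial V
  irr : ∀ T : Submodule ℂ V, (∀ g, ∀ v ∈ T, π g v ∈ T) → T = ⊥ ∨ T = ⊤

/-- `A` is stable under `G`. -/
def IsStab (π : G →* Module.End ℂ V) (A : Submodule ℂ V) : Prop := ∀ g, ∀ v ∈ A, π g v ∈ A

/-- `A(N)`: the span of the vectors `n v - v` with `n ∈ N`, `v ∈ A`. -/
def cvN (π : G →* Module.End ℂ V) (N : Subgroup G) (A : Submodule ℂ V) : Submodule ℂ V :=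
  Submodule.span ℂ {x | ∃ n ∈ N, ∃ v ∈ A, x = π n v - v}

/-- The representation on a stable subspace. -/
def subRep (π : G →* Module.End ℂ V) (A : Submodule ℂ V) (hA : IsStab π A) :
    G →* Module.End ℂ A where
  toFun g := (π g).restrict (hA g)
  map_one' := by
    ext v
    simp
  map_mul' a b := by
    ext v
    simp

theorem subRep_apply (π : G →* Module.End ℂ V) (A : Submodule ℂ V) (hA : IsStab π A) (g : G)
    (v : A) : ((subRep π A hA g v : A) : V) = π g v := rfl

/-- The representation on the quotient by a stable subspace. -/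
def quoRep (π : G →* Module.End ℂ V) (A : Submodule ℂ V) (hA : IsStab π A) :
    G →* Module.End ℂ (V ⧸ A) where
  toFun g := A.mapQ A (π g) (hA g)
  map_one' := by
    ext v
    simp
  map_mul' a b := by
    ext v
    simp

theorem quoRep_mk (π : G →* Module.End ℂ V) (A : Submodule ℂ V) (hA : IsStab π A) (g : G)
    (v : V) : quoRep π A hA g (A.mkQ v) = A.mkQ (π g v) := rfl

end gen

/-! ### Block matrices -/

section blocks

variable {E : Type} [Field E] {m : ℕ}

/-- The two blocks of `Fin (2 * m)`. -/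
def sI (m : ℕ) : Fin m ⊕ Fin m ≃ Fin (2 * m) :=
  finSumFinEquiv.trans (finCongr (two_mul m).symm)

/-- The block matrix `(a b; c d)`. -/
def bm (a b c d : Matrix (Fin m) (Fin m) E) : Matrix (Fin (2 * m)) (Fin (2 * m)) E :=
  Matrix.reindex (sI m) (sI m) (Matrix.fromBlocks a b c d)

theorem bm_mul (a b c d a' b' c' d' : Matrix (Fin m) (Fin m) E) :
    bm a b c d * bm a' b' c' d' =
      bm (a * a' + b * c') (a * b' + b * d') (c * a' + d * c') (c * b' + d * d') := by
  unfold bm
  rw [Matrix.reindex_apply, Matrix.reindex_apply, Matrix.reindex_apply,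
    Matrix.submatrix_mul_equiv, Matrix.fromBlocks_multiply]

theorem bm_one : bm (1 : Matrix (Fin m) (Fin m) E) 0 0 1 = 1 := by
  unfold bm
  rw [Matrix.fromBlocks_one, Matrix.reindex_apply, Matrix.submatrix_one_equiv]

omit [Field E] in
theorem bm_transpose (a b c d : Matrix (Fin m) (Fin m) E) :
    (bm a b c d).transpose = bm a.transpose c.transpose b.transpose d.transpose := by
  unfold bm
  rw [Matrix.reindex_apply, Matrix.reindex_apply, Matrix.transpose_submatrix,
    Matrix.fromBlocks_transpose]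

/-- The lower left block. -/
def lowL (g : Matrix (Fin (2 * m)) (Fin (2 * m)) E) : Matrix (Fin m) (Fin m) E :=
  fun i j => g (sI m (Sum.inr i)) (sI m (Sum.inl j))

/-- The element `(a b; 0 d)`. -/
def pel (a d : GL (Fin m) E) (b : Matrix (Fin m) (Fin m) E) : GL (Fin (2 * m)) E where
  val := bm a b 0 d
  inv := bm ((a⁻¹ : GL (Fin m) E) : Matrix (Fin m) (Fin m) E)
    (-(((a⁻¹ : GL (Fin m) E) : Matrix (Fin m) (Fin m) E) * b *
      ((d⁻¹ : GL (Fin m) E) : Matrix (Fin m) (Fin m) E))) 0
    ((d⁻¹ : GL (Fin m) E) : Matrix (Fin m) (Fin m) E)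
  val_inv := by
    rw [bm_mul, ← bm_one]
    have ha : (a : Matrix (Fin m) (Fin m) E) * ((a⁻¹ : GL (Fin m) E) : Matrix (Fin m) (Fin m) E) =
        1 := by rw [← Units.val_mul, mul_inv_cancel, Units.val_one]
    have hd : (d : Matrix (Fin m) (Fin m) E) * ((d⁻¹ : GL (Fin m) E) : Matrix (Fin m) (Fin m) E) =
        1 := by rw [← Units.val_mul, mul_inv_cancel, Units.val_one]
    congr 1
    · rw [ha, mul_zero, add_zero]
    · rw [mul_neg, ← mul_assoc, ← mul_assoc, ha, one_mul, neg_add_cancel]
    · rw [zero_mul, mul_zero, add_zero]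
    · rw [zero_mul, zero_add, hd]
  inv_val := by
    rw [bm_mul, ← bm_one]
    have ha : ((a⁻¹ : GL (Fin m) E) : Matrix (Fin m) (Fin m) E) * (a : Matrix (Fin m) (Fin m) E) =
        1 := by rw [← Units.val_mul, inv_mul_cancel, Units.val_one]
    have hd : ((d⁻¹ : GL (Fin m) E) : Matrix (Fin m) (Fin m) E) * (d : Matrix (Fin m) (Fin m) E) =
        1 := by rw [← Units.val_mul, inv_mul_cancel, Units.val_one]
    congr 1
    · rw [ha, mul_zero, add_zero]
    · rw [neg_mul, mul_assoc _ _ (d : Matrix (Fin m) (Fin m) E), hd, mul_one, add_neg_cancel]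
    · rw [zero_mul, mul_zero, add_zero]
    · rw [zero_mul, zero_add, hd]

theorem pel_mul (a d a' d' : GL (Fin m) E) (b b' : Matrix (Fin m) (Fin m) E) :
    pel a d b * pel a' d' b' = pel (a * a') (d * d') (a * b' + b * d') := by
  apply Units.ext
  show bm a b 0 d * bm a' b' 0 d' = bm _ _ 0 _
  rw [bm_mul]
  congr 1
  · rw [mul_zero, add_zero]; rfl
  · rw [zero_mul, mul_zero, add_zero]
  · rw [zero_mul, zero_add]; rfl

theorem pel_one : pel (1 : GL (Fin m) E) 1 0 = 1 := by
  apply Units.ext
  exact bm_one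

/-- The Weyl element `(0 1; 1 0)`. -/
def wel (m : ℕ) (E : Type) [Field E] : GL (Fin (2 * m)) E where
  val := bm 0 1 1 0
  inv := bm 0 1 1 0
  val_inv := by
    rw [bm_mul, ← bm_one]
    congr 1 <;> simp
  inv_val := by
    rw [bm_mul, ← bm_one]
    congr 1 <;> simp

end blocks

/-! ### Representations of `GL_m × GL_m` and induced representations -/

section ind

variable {E : Type} [NontriviallyNormedField E] {m : ℕ}
  {W : Type} [AddCommGroup W] [Module ℂ W]

/-- The induced representation space: functions `f` with `f(pg) = ρ(p) f(g)`, right smooth. -/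
def Ind (ρ : (GL (Fin m) E × GL (Fin m) E) →* Module.End ℂ W) :
    Submodule ℂ (GL (Fin (2 * m)) E → W) where
  carrier := {f | (∀ a d b g, f (pel a d b * g) = ρ (a, d) (f g)) ∧
    ∀ᶠ k in 𝓝 (1 : GL (Fin (2 * m)) E), ∀ g, f (g * k) = f g}
  add_mem' := by
    rintro f f' ⟨h1, h2⟩ ⟨h3, h4⟩
    refine ⟨fun a d b g => ?_, ?_⟩
    · rw [Pi.add_apply, Pi.add_apply, h1, h3, map_add]
    · filter_upwards [h2, h4] with k hk hk' g
      rw [Pi.add_apply, Pi.add_apply, hk, hk']
  zero_mem' := ⟨fun a d b g => by simp, by filter_upwards with k g using rfl⟩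
  smul_mem' := by
    rintro c f ⟨h1, h2⟩
    refine ⟨fun a d b g => ?_, ?_⟩
    · rw [Pi.smul_apply, Pi.smul_apply, h1, map_smul]
    · filter_upwards [h2] with k hk g
      rw [Pi.smul_apply, Pi.smul_apply, hk]

/-- The action of `G` by right translation. -/
def indAct (ρ : (GL (Fin m) E × GL (Fin m) E) →* Module.End ℂ W) :
    GL (Fin (2 * m)) E →* Module.End ℂ (Ind ρ) where
  toFun g :=
    { toFun := fun f => ⟨fun x => (f : GL (Fin (2 * m)) E → W) (x * g), by
        refine ⟨fun a d b x => ?_, ?_⟩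
        · show (f : GL (Fin (2 * m)) E → W) (pel a d b * x * g) =
            ρ (a, d) ((f : GL (Fin (2 * m)) E → W) (x * g))
          rw [mul_assoc]
          exact f.2.1 a d b (x * g)
        · have h : Tendsto (fun k : GL (Fin (2 * m)) E => g⁻¹ * k * g) (𝓝 1) (𝓝 1) := by
            have : ContinuousAt (fun k : GL (Fin (2 * m)) E => g⁻¹ * k * g) 1 := by fun_prop
            simpa [ContinuousAt] using this
          filter_upwards [h.eventually f.2.2] with k hk x
          have h1 := hk (x * g)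
          rw [← h1]
          refine congrArg _ ?_
          group⟩
      map_add' := fun f f' => rfl
      map_smul' := fun c f => rfl }
  map_one' := by
    apply LinearMap.ext
    intro f
    apply Subtype.ext
    funext x
    show (f : GL (Fin (2 * m)) E → W) (x * 1) = (f : GL (Fin (2 * m)) E → W) x
    rw [mul_one]
  map_mul' g h := by
    apply LinearMap.ext
    intro f
    apply Subtype.ext
    funext x
    show (f : GL (Fin (2 * m)) E → W) (x * (g * h)) = (f : GL (Fin (2 * m)) E → W) (x * g * h)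
    rw [mul_assoc]

theorem indAct_apply (ρ : (GL (Fin m) E × GL (Fin m) E) →* Module.End ℂ W)
    (g : GL (Fin (2 * m)) E) (f : Ind ρ) (x : GL (Fin (2 * m)) E) :
    ((indAct ρ g f : Ind ρ) : GL (Fin (2 * m)) E → W) x =
      (f : GL (Fin (2 * m)) E → W) (x * g) := rfl

theorem ind_smooth (ρ : (GL (Fin m) E × GL (Fin m) E) →* Module.End ℂ W) :
    IsSmoothRep (indAct ρ) := by
  intro f
  filter_upwards [f.2.2] with k hk
  apply Subtype.ext
  funext x
  exact hk x

end ind

section rho

variable {E : Type} [NontriviallyNormedField E] [ProperSpace E] [MeasurableSpace E] [BorelSpace E]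
  {m : ℕ} {V : Type} [AddCommGroup V] [Module ℂ V]

theorem absE_pos (x : Eˣ) : 0 < absE x := by
  unfold absE
  exact NNReal.coe_pos.2 (distribHaarChar_pos (A := E) (g := x))

theorem absE_mul (x y : Eˣ) : absE (x * y) = absE x * absE y := by
  unfold absE
  rw [map_mul, NNReal.coe_mul]

theorem absE_one : absE (1 : Eˣ) = 1 := by
  unfold absE
  rw [map_one, NNReal.coe_one]

/-- `|det g|`. -/
noncomputable def ad {n : ℕ} (g : GL (Fin n) E) : ℝ := absE (Matrix.GeneralLinearGroup.det g)

theorem ad_pos {n : ℕ} (g : GL (Fin n) E) : 0 < ad g := absE_pos _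

theorem ad_mul {n : ℕ} (g h : GL (Fin n) E) : ad (g * h) = ad g * ad h := by
  unfold ad
  rw [map_mul, absE_mul]

theorem ad_one {n : ℕ} : ad (1 : GL (Fin n) E) = 1 := by
  unfold ad
  rw [map_one, absE_one]

/-- `|det a|^s |det d|^{-s} π(a) ⊗ π(d)`. -/
noncomputable def rho (π : GL (Fin m) E →* Module.End ℂ V) (s : ℝ) :
    (GL (Fin m) E × GL (Fin m) E) →* Module.End ℂ (V ⊗[ℂ] V) where
  toFun p := ((ad p.1 ^ s * ad p.2 ^ (-s) : ℝ) : ℂ) • TensorProduct.map (π p.1) (π p.2)
  map_one' := by
    apply TensorProduct.ext'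
    intro x y
    simp [ad_one]
  map_mul' p q := by
    apply TensorProduct.ext'
    intro x y
    simp only [Prod.fst_mul, Prod.snd_mul, ad_mul, map_mul, LinearMap.smul_apply,
      TensorProduct.map_tmul, Module.End.mul_apply, map_smul, smul_smul,
      Real.mul_rpow (ad_pos _).le (ad_pos _).le]
    congr 1
    push_cast
    ring

theorem rho_tmul (π : GL (Fin m) E →* Module.End ℂ V) (s : ℝ) (a d : GL (Fin m) E) (x y : V) :
    rho π s (a, d) (x ⊗ₜ[ℂ] y) = ((ad a ^ s * ad d ^ (-s) : ℝ) : ℂ) • (π a x ⊗ₜ[ℂ] π d y) := rfl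

/-- `π` is cuspidal: all coinvariants for the unipotent radicals of the standard maximal parabolic
subgroups are zero. -/
def IsCusp {n : ℕ} (π : GL (Fin n) E →* Module.End ℂ V) : Prop :=
  ∀ k, 0 < k → k < n → cvN π (Nk n k E) ⊤ = ⊤

/-- The centre acts by a character of absolute value `1`. -/
def UnitCentral {n : ℕ} (π : GL (Fin n) E →* Module.End ℂ V) : Prop :=
  ∃ χ : Eˣ → ℂ, (∀ z, ‖χ z‖ = 1) ∧ ∀ z v, π (Matrix.GeneralLinearGroup.scalar (Fin n) z) v = χ z • v

end rho

/-- The action on functions on `Alt`, in relational form. -/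
def IsTransl {N : ℕ} {E : Type} [NontriviallyNormedField E] (g : GL (Fin N) E)
    (f f' : Sch (Alt N E) ℂ) : Prop :=
  ∀ B, (f' : Alt N E → ℂ) B = (f : Alt N E → ℂ) (g⁻¹ • B)

end SpW
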