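import Pool.Agent.Work.MP_3615d2_al.SchInt
import Pool.Agent.Work.MP_3615d2_al.ModDet
import Pool.Agent.Work.MP_3615d2_al.DefsB

/-!
MP_3615d2_al, Theorem B, R7: the integral of locally constant functions with compact support on
`M_m(E)` with values in a complex vector space, and its behaviour under `x ↦ a⁻¹ x d`.
-/

open MeasureTheory Measure Filter Topology Matrix
open scoped NNReal ENNReal Pointwise

namespace SpW

section gen

variable {F : Type} [NontriviallyNormedField F] [ProperSpace F] {V : Type} [NormedAddCommGroup V]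
  [NormedSpace F V] [FiniteDimensional F V] [MeasurableSpace V] [BorelSpace V]
  {S : Type} [AddCommGroup S] [Module ℂ S]

/-- Change of variables for a linear automorphism. -/
theorem schI_linearEquiv (μ : Measure V) [μ.IsAddHaarMeasure] (T : V ≃ₗ[F] V) (f g : Sch V S)
    (h : ∀ x, g.1 x = f.1 (T x)) :
    schI μ g = ((((md (LinearMap.det (T : V →ₗ[F] V)) : ℝ≥0) : ℝ) : ℂ))⁻¹ • schI μ f := by
  refine dual_ext fun ξ => ?_
  rw [schI_dual, map_smul, schI_dual, smul_eq_mul, ← integral_linearEquiv μ T]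
  refine integral_congr_ae (Filter.Eventually.of_forall fun x => ?_)
  show ξ (g.1 x) = ξ (f.1 (T x))
  rw [h]

end gen

section gen'

variable {V : Type} [TopologicalSpace V] [AddCommGroup V] [IsTopologicalAddGroup V]
  [MeasurableSpace V] [BorelSpace V] {S : Type} [AddCommGroup S] [Module ℂ S]

/-- Translation invariance. -/
theorem schI_translate (μ : Measure V) [IsFiniteMeasureOnCompacts μ] [μ.IsAddRightInvariant]
    (f g : Sch V S) (y : V) (h : ∀ x, g.1 x = f.1 (x + y)) : schI μ g = schI μ f := by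
  refine dual_ext fun ξ => ?_
  rw [schI_dual, schI_dual, ← integral_add_right_eq_self (fun x => ξ (f.1 x)) y]
  refine integral_congr_ae (Filter.Eventually.of_forall fun x => ?_)
  show ξ (g.1 x) = ξ (f.1 (x + y))
  rw [h]

end gen'

/-! ### Matrices -/

section mat

variable {E : Type} [Field E] {m : ℕ}

/-- The map `x ↦ a x d` on matrices. -/
def mulBoth (a d : GL (Fin m) E) : (Fin m → Fin m → E) ≃ₗ[E] (Fin m → Fin m → E) where
  toFun x := (a : Matrix (Fin m) (Fin m) E) * Matrix.of x * (d : Matrix (Fin m) (Fin m) E)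
  map_add' x y := by
    show (a : Matrix (Fin m) (Fin m) E) * (Matrix.of x + Matrix.of y) *
        (d : Matrix (Fin m) (Fin m) E) = _
    rw [mul_add, add_mul]
    rfl
  map_smul' c x := by
    show (a : Matrix (Fin m) (Fin m) E) * (c • Matrix.of x) *
        (d : Matrix (Fin m) (Fin m) E) = _
    rw [Matrix.mul_smul, Matrix.smul_mul]
    rfl
  invFun x := ((a⁻¹ : GL (Fin m) E) : Matrix (Fin m) (Fin m) E) * Matrix.of x *
    ((d⁻¹ : GL (Fin m) E) : Matrix (Fin m) (Fin m) E)
  left_inv x := by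
    show ((a⁻¹ : GL (Fin m) E) : Matrix (Fin m) (Fin m) E) *
      ((a : Matrix (Fin m) (Fin m) E) * Matrix.of x * (d : Matrix (Fin m) (Fin m) E)) *
      ((d⁻¹ : GL (Fin m) E) : Matrix (Fin m) (Fin m) E) = Matrix.of x
    have ha : ((a⁻¹ : GL (Fin m) E) : Matrix (Fin m) (Fin m) E) * (a : Matrix (Fin m) (Fin m) E) =
        1 := by rw [← Units.val_mul, inv_mul_cancel, Units.val_one]
    have hd : (d : Matrix (Fin m) (Fin m) E) * ((d⁻¹ : GL (Fin m) E) : Matrix (Fin m) (Fin m) E) =
        1 := by rw [← Units.val_mul, mul_inv_cancel, Units.val_one]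
    rw [← mul_assoc, ← mul_assoc, ha, one_mul, mul_assoc, hd, mul_one]
  right_inv x := by
    show (a : Matrix (Fin m) (Fin m) E) *
      (((a⁻¹ : GL (Fin m) E) : Matrix (Fin m) (Fin m) E) * Matrix.of x *
        ((d⁻¹ : GL (Fin m) E) : Matrix (Fin m) (Fin m) E)) * (d : Matrix (Fin m) (Fin m) E) =
      Matrix.of x
    have ha : (a : Matrix (Fin m) (Fin m) E) * ((a⁻¹ : GL (Fin m) E) : Matrix (Fin m) (Fin m) E) =
        1 := by rw [← Units.val_mul, mul_inv_cancel, Units.val_one]
    have hd : ((d⁻¹ : GL (Fin m) E) : Matrix (Fin m) (Fin m) E) * (d : Matrix (Fin m) (Fin m) E) =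
        1 := by rw [← Units.val_mul, inv_mul_cancel, Units.val_one]
    rw [← mul_assoc, ← mul_assoc, ha, one_mul, mul_assoc, hd, mul_one]

theorem mulBoth_apply (a d : GL (Fin m) E) (x : Matrix (Fin m) (Fin m) E) :
    mulBoth a d x = (a : Matrix (Fin m) (Fin m) E) * x * (d : Matrix (Fin m) (Fin m) E) := rfl

theorem det_mulBoth_right (d : GL (Fin m) E) :
    LinearMap.det ((mulBoth 1 d : (Fin m → Fin m → E) ≃ₗ[E] (Fin m → Fin m → E)) :
      (Fin m → Fin m → E) →ₗ[E] (Fin m → Fin m → E)) =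
      (d : Matrix (Fin m) (Fin m) E).det ^ m := by
  have h1 : ((mulBoth 1 d : (Fin m → Fin m → E) ≃ₗ[E] (Fin m → Fin m → E)) :
      (Fin m → Fin m → E) →ₗ[E] (Fin m → Fin m → E)) =
      LinearMap.pi (fun i => (Matrix.toLin' (d : Matrix (Fin m) (Fin m) E).transpose).comp
        (LinearMap.proj i)) := by
    apply LinearMap.ext
    intro x
    funext i j
    show (((1 : GL (Fin m) E) : Matrix (Fin m) (Fin m) E) * Matrix.of x *
      (d : Matrix (Fin m) (Fin m) E)) i j = ((d : Matrix (Fin m) (Fin m) E).transpose.mulVec (x i)) j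
    rw [Units.val_one, one_mul, Matrix.mulVec_transpose]
    rfl
  rw [h1, LinearMap.det_pi, Finset.prod_const, Finset.card_univ, Fintype.card_fin,
    LinearMap.det_toLin', Matrix.det_transpose]

/-- The transposition as a linear equivalence. -/
def trL (m : ℕ) (E : Type) [Field E] : (Fin m → Fin m → E) ≃ₗ[E] (Fin m → Fin m → E) where
  toFun x i j := x j i
  map_add' _ _ := rfl
  map_smul' _ _ := rfl
  invFun x i j := x j i
  left_inv _ := rfl
  right_inv _ := rfl

theorem det_mulBoth_left (a : GL (Fin m) E) :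
    LinearMap.det ((mulBoth a 1 : (Fin m → Fin m → E) ≃ₗ[E] (Fin m → Fin m → E)) :
      (Fin m → Fin m → E) →ₗ[E] (Fin m → Fin m → E)) =
      (a : Matrix (Fin m) (Fin m) E).det ^ m := by
  have h1 : ((mulBoth a 1 : (Fin m → Fin m → E) ≃ₗ[E] (Fin m → Fin m → E)) :
      (Fin m → Fin m → E) →ₗ[E] (Fin m → Fin m → E)) =
      (trL m E).toLinearMap.comp ((LinearMap.pi
        (fun i => (Matrix.toLin' (a : Matrix (Fin m) (Fin m) E)).comp
        (LinearMap.proj i))).comp (trL m E).symm.toLinearMap) := by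
    apply LinearMap.ext
    intro x
    funext i j
    show ((a : Matrix (Fin m) (Fin m) E) * Matrix.of x *
      ((1 : GL (Fin m) E) : Matrix (Fin m) (Fin m) E)) i j =
      ((a : Matrix (Fin m) (Fin m) E).mulVec (fun k => x k j)) i
    rw [Units.val_one, mul_one]
    rfl
  rw [h1]
  have h2 := LinearMap.det_conj (LinearMap.pi
        (fun i : Fin m => (Matrix.toLin' (a : Matrix (Fin m) (Fin m) E)).comp
        (LinearMap.proj i))) (trL m E)
  rw [h2, LinearMap.det_pi, Finset.prod_const, Finset.card_univ, Fintype.card_fin,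
    LinearMap.det_toLin']

theorem det_mulBoth (a d : GL (Fin m) E) :
    LinearMap.det ((mulBoth a d : (Fin m → Fin m → E) ≃ₗ[E] (Fin m → Fin m → E)) :
      (Fin m → Fin m → E) →ₗ[E] (Fin m → Fin m → E)) =
      (a : Matrix (Fin m) (Fin m) E).det ^ m * (d : Matrix (Fin m) (Fin m) E).det ^ m := by
  have h1 : ((mulBoth a d : (Fin m → Fin m → E) ≃ₗ[E] (Fin m → Fin m → E)) :
      (Fin m → Fin m → E) →ₗ[E] (Fin m → Fin m → E)) =
      ((mulBoth a 1 : (Fin m → Fin m → E) ≃ₗ[E] (Fin m → Fin m → E)) :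
      (Fin m → Fin m → E) →ₗ[E] (Fin m → Fin m → E)) *
      ((mulBoth 1 d : (Fin m → Fin m → E) ≃ₗ[E] (Fin m → Fin m → E)) :
      (Fin m → Fin m → E) →ₗ[E] (Fin m → Fin m → E)) := by
    apply LinearMap.ext
    intro x
    show (a : Matrix (Fin m) (Fin m) E) * Matrix.of x * (d : Matrix (Fin m) (Fin m) E) =
      (a : Matrix (Fin m) (Fin m) E) * (((1 : GL (Fin m) E) : Matrix (Fin m) (Fin m) E) *
        Matrix.of x * (d : Matrix (Fin m) (Fin m) E)) *
          ((1 : GL (Fin m) E) : Matrix (Fin m) (Fin m) E)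
    rw [Units.val_one, one_mul, mul_one, mul_assoc]
  rw [h1, map_mul, det_mulBoth_left, det_mulBoth_right]

end mat

section mint

variable {E : Type} [NontriviallyNormedField E] [ProperSpace E] {m : ℕ}
  {W : Type} [AddCommGroup W] [Module ℂ W]

/-- The Haar measure of a set of matrices. -/
noncomputable def mvol (U : Set (Matrix (Fin m) (Fin m) E)) : ℝ :=
  letI : MeasurableSpace (Fin m → Fin m → E) := borel _
  haveI : BorelSpace (Fin m → Fin m → E) := ⟨rfl⟩
  (addHaar : Measure (Fin m → Fin m → E)).real U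

/-- The integral over `M_m(E)` of locally constant compactly supported functions with values in
`W`. -/
noncomputable def mint (E : Type) [NontriviallyNormedField E] [ProperSpace E] (m : ℕ)
    (W : Type) [AddCommGroup W] [Module ℂ W] : Sch (Matrix (Fin m) (Fin m) E) W →ₗ[ℂ] W :=
  letI : MeasurableSpace (Fin m → Fin m → E) := borel _
  haveI : BorelSpace (Fin m → Fin m → E) := ⟨rfl⟩
  schIL (Fin m → Fin m → E) W addHaar

theorem mvol_pos_aux {U : Set (Fin m → Fin m → E)} (hU : IsOpen U) (hU' : IsCompact U)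
    (hne : U.Nonempty) : 0 < mvol U := by
  let _ : MeasurableSpace (Fin m → Fin m → E) := borel _
  have : BorelSpace (Fin m → Fin m → E) := ⟨rfl⟩
  have h1 : (addHaar : Measure (Fin m → Fin m → E)) U ≠ 0 := (IsOpen.measure_pos _ hU hne).ne'
  have h2 : (addHaar : Measure (Fin m → Fin m → E)) U ≠ ∞ := (IsCompact.measure_lt_top hU').ne
  exact ENNReal.toReal_pos h1 h2

theorem mvol_pos {U : Set (Matrix (Fin m) (Fin m) E)} (hU : IsOpen U) (hU' : IsCompact U)
    (hne : U.Nonempty) : 0 < mvol U :=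
  mvol_pos_aux (m := m) hU hU' hne

theorem mvol_translate_aux (U : Set (Fin m → Fin m → E)) (y : Fin m → Fin m → E) :
    mvol {x : Fin m → Fin m → E | x + y ∈ U} = mvol U := by
  let _ : MeasurableSpace (Fin m → Fin m → E) := borel _
  have : BorelSpace (Fin m → Fin m → E) := ⟨rfl⟩
  exact congrArg ENNReal.toReal
    (measure_preimage_add_right (addHaar : Measure (Fin m → Fin m → E)) y U)

theorem mvol_translate (U : Set (Matrix (Fin m) (Fin m) E)) (y : Matrix (Fin m) (Fin m) E) :
    mvol {x : Matrix (Fin m) (Fin m) E | x + y ∈ U} = mvol U :=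
  mvol_translate_aux U y

theorem mint_translate_aux (f g : Sch (Fin m → Fin m → E) W) (y : Fin m → Fin m → E)
    (h : ∀ x, g.1 x = f.1 (x + y)) : mint E m W g = mint E m W f := by
  let _ : MeasurableSpace (Fin m → Fin m → E) := borel _
  have : BorelSpace (Fin m → Fin m → E) := ⟨rfl⟩
  exact schI_translate addHaar f g y h

/-- Translation invariance. -/
theorem mint_translate (f g : Sch (Matrix (Fin m) (Fin m) E) W) (y : Matrix (Fin m) (Fin m) E)
    (h : ∀ x, g.1 x = f.1 (x + y)) : mint E m W g = mint E m W f :=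
  mint_translate_aux f g y h

theorem mint_indicator_aux (f : Sch (Fin m → Fin m → E) W)
    {U : Set (Fin m → Fin m → E)} (hU : IsOpen U) {w : W}
    (h1 : ∀ x ∈ U, f.1 x = w) (h2 : ∀ x, x ∉ U → f.1 x = 0) :
    mint E m W f = ((mvol U : ℝ) : ℂ) • w := by
  let _ : MeasurableSpace (Fin m → Fin m → E) := borel _
  have : BorelSpace (Fin m → Fin m → E) := ⟨rfl⟩
  exact schI_indicator_const addHaar f hU h1 h2

/-- The integral of `1_U w`. -/
theorem mint_indicator (f : Sch (Matrix (Fin m) (Fin m) E) W)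
    {U : Set (Matrix (Fin m) (Fin m) E)} (hU : IsOpen U) {w : W}
    (h1 : ∀ x ∈ U, f.1 x = w) (h2 : ∀ x, x ∉ U → f.1 x = 0) :
    mint E m W f = ((mvol U : ℝ) : ℂ) • w :=
  mint_indicator_aux f hU h1 h2

theorem mint_map_aux {W' : Type} [AddCommGroup W'] [Module ℂ W'] (A : W →ₗ[ℂ] W')
    (f : Sch (Fin m → Fin m → E) W) :
    mint E m W' (schMap A f) = A (mint E m W f) := by
  let _ : MeasurableSpace (Fin m → Fin m → E) := borel _
  have : BorelSpace (Fin m → Fin m → E) := ⟨rfl⟩
  exact (schI_map addHaar A f).symm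

theorem mint_map {W' : Type} [AddCommGroup W'] [Module ℂ W'] (A : W →ₗ[ℂ] W')
    (f : Sch (Matrix (Fin m) (Fin m) E) W) :
    mint E m W' (schMap A f) = A (mint E m W f) :=
  mint_map_aux A f

/-- The functional characterisation of the integral. -/
theorem mint_congr_map (f : Sch (Matrix (Fin m) (Fin m) E) W)
    (g : Sch (Matrix (Fin m) (Fin m) E) W) (A : W →ₗ[ℂ] W) (h : ∀ x, g.1 x = A (f.1 x)) :
    mint E m W g = A (mint E m W f) := by
  rw [← mint_map A f]
  congr 1
  exact Subtype.ext (funext h)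

variable [MeasurableSpace E] [BorelSpace E]

theorem md_det_eq (a : GL (Fin m) E) : ((md (a : Matrix (Fin m) (Fin m) E).det : ℝ≥0) : ℝ) = ad a := by
  unfold ad absE
  rw [← Matrix.GeneralLinearGroup.val_det_apply, md_units]

omit [MeasurableSpace E] [BorelSpace E] in
theorem mint_mul_aux (f g : Sch (Fin m → Fin m → E) W) (T : (Fin m → Fin m → E) ≃ₗ[E]
    (Fin m → Fin m → E)) (h : ∀ x, g.1 x = f.1 (T x)) :
    mint E m W g = ((((md (LinearMap.det (T : (Fin m → Fin m → E) →ₗ[E] (Fin m → Fin m → E))) :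
      ℝ≥0) : ℝ) : ℂ))⁻¹ • mint E m W f := by
  let _ : MeasurableSpace (Fin m → Fin m → E) := borel _
  have : BorelSpace (Fin m → Fin m → E) := ⟨rfl⟩
  exact schI_linearEquiv addHaar T f g h

/-- The modulus of `x ↦ a⁻¹ x d`. -/
theorem mint_mul (f g : Sch (Matrix (Fin m) (Fin m) E) W) (a d : GL (Fin m) E)
    (h : ∀ x : Matrix (Fin m) (Fin m) E, g.1 x =
      f.1 (((a⁻¹ : GL (Fin m) E) : Matrix (Fin m) (Fin m) E) * x *
        (d : Matrix (Fin m) (Fin m) E))) :
    mint E m W g = ((ad a ^ (m : ℝ) * ad d ^ (-(m : ℝ)) : ℝ) : ℂ) • mint E m W f := by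
  have h1 := mint_mul_aux (m := m) f g (mulBoth a⁻¹ d) h
  have h2 : (((md (LinearMap.det ((mulBoth a⁻¹ d : (Fin m → Fin m → E) ≃ₗ[E] (Fin m → Fin m → E)) :
      (Fin m → Fin m → E) →ₗ[E] (Fin m → Fin m → E))) : ℝ≥0) : ℝ) : ℂ)⁻¹ =
      ((ad a ^ (m : ℝ) * ad d ^ (-(m : ℝ)) : ℝ) : ℂ) := by
    rw [det_mulBoth, md_mul, md_pow, md_pow, NNReal.coe_mul, NNReal.coe_pow, NNReal.coe_pow,
      md_det_eq, md_det_eq, ← Complex.ofReal_inv]
    congr 1
    have h3 : ad a⁻¹ = (ad a)⁻¹ := by
      refine eq_inv_of_mul_eq_one_left ?_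
      rw [← ad_mul, inv_mul_cancel, ad_one]
    rw [h3, Real.rpow_neg (ad_pos d).le, Real.rpow_natCast, Real.rpow_natCast, mul_inv, inv_pow,
      inv_inv]
  rw [h2] at h1
  exact h1

end mint

end SpW
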