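import Pool.Agent.Work.MP_3615d2_al.Cartan
import Pool.Agent.Work.MP_3615d2_al.DefsB

/-!
MP_3615d2_al, Theorem B: the Iwasawa decomposition `G = P K`, `K = GL_{2m}(O)`, and the description of
`P` by the lower left block.
-/

open Matrix Filter Topology

namespace SpW

section upper

variable {E : Type} [NontriviallyNormedField E] [IsUltrametricDist E] {n : ℕ}

theorem isKM_row (i₀ : Fin n) (c : Fin n → E) (hc : ∀ j, ‖c j‖ ≤ 1) (h0 : c i₀ = 0) :
    IsKM (1 - Matrix.vecMulVec (Pi.single i₀ (1 : E)) c) := by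
  have hv : ∀ i j, ‖Matrix.vecMulVec (Pi.single i₀ (1 : E)) c i j‖ ≤ 1 := by
    intro i j
    rw [Matrix.vecMulVec_apply]
    by_cases h : i = i₀
    · subst h
      simpa using hc j
    · simp [h]
  have hz : Matrix.vecMulVec (Pi.single i₀ (1 : E)) c *
      Matrix.vecMulVec (Pi.single i₀ (1 : E)) c = 0 := by
    ext i j
    rw [Matrix.mul_apply, Matrix.zero_apply]
    refine Finset.sum_eq_zero fun l _ => ?_
    rw [Matrix.vecMulVec_apply, Matrix.vecMulVec_apply]
    by_cases h : l = i₀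
    · subst h
      rw [h0, mul_zero, zero_mul]
    · simp [h]
  refine ⟨1 + Matrix.vecMulVec (Pi.single i₀ (1 : E)) c, fun i j => ?_, fun i j => ?_, ?_, ?_⟩
  · rw [Matrix.sub_apply, sub_eq_add_neg]
    refine (IsUltrametricDist.norm_add_le_max _ _).trans (max_le (norm_one_entry_le i j) ?_)
    rw [norm_neg]
    exact hv i j
  · rw [Matrix.add_apply]
    exact (IsUltrametricDist.norm_add_le_max _ _).trans
      (max_le (norm_one_entry_le i j) (hv i j))
  · rw [mul_add, sub_mul, sub_mul, hz]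
    simp
  · rw [mul_sub, add_mul, add_mul, hz]
    simp

/-- Column reduction over the ring of integers, in matrix form. -/
theorem exists_upper_aux (g : Matrix (Fin n) (Fin n) E) (r : ℕ) (hr : r ≤ n) :
    ∃ Q : Matrix (Fin n) (Fin n) E, IsKM Q ∧
      ∀ i : Fin n, n ≤ i.1 + r → ∀ j, j < i → (g * Q) i j = 0 := by
  induction r with
  | zero =>
    refine ⟨1, IsKM.one, fun i hi => ?_⟩
    exact absurd i.2 (not_lt.2 hi)
  | succ r ih =>
    obtain ⟨Q, hQ, h⟩ := ih (by omega)
    let i₀ : Fin n := ⟨n - r - 1, by omega⟩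
    have hi₀ : i₀.1 + r + 1 = n := by
      show n - r - 1 + r + 1 = n
      omega
    -- the column of maximal norm
    obtain ⟨j₁, hj₁, hmax⟩ := Finset.exists_max_image (Finset.univ.filter fun j => j ≤ i₀)
      (fun j => ‖(g * Q) i₀ j‖) ⟨i₀, by simp⟩
    rw [Finset.mem_filter] at hj₁
    have hj₁' : j₁ ≤ i₀ := hj₁.2
    let e : Equiv.Perm (Fin n) := Equiv.swap j₁ i₀
    set A : Matrix (Fin n) (Fin n) E := (g * Q).submatrix (Equiv.refl _) e with hA
    have hAe : A = g * Q.submatrix (Equiv.refl _) e := by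
      rw [hA]
      ext i j
      simp [Matrix.mul_apply]
    have hrow : ∀ i : Fin n, i₀ < i → ∀ j, j < i → A i j = 0 := by
      intro i hi j hj
      show (g * Q) i (e j) = 0
      have h1 : i₀.1 < i.1 := hi
      refine h i (by omega) _ ?_
      by_cases h2 : j = j₁
      · rw [h2]
        show Equiv.swap j₁ i₀ j₁ < i
        rw [Equiv.swap_apply_left]
        exact hi
      · by_cases h3 : j = i₀
        · rw [h3]
          show Equiv.swap j₁ i₀ i₀ < i
          rw [Equiv.swap_apply_right]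
          exact lt_of_le_of_lt hj₁' hi
        · show Equiv.swap j₁ i₀ j < i
          rw [Equiv.swap_apply_of_ne_of_ne h2 h3]
          exact hj
    have hle : ∀ j, j < i₀ → ‖A i₀ j‖ ≤ ‖A i₀ i₀‖ := by
      intro j hj
      show ‖(g * Q) i₀ (Equiv.swap j₁ i₀ j)‖ ≤ ‖(g * Q) i₀ (Equiv.swap j₁ i₀ i₀)‖
      rw [Equiv.swap_apply_right]
      refine hmax _ ?_
      rw [Finset.mem_filter]
      refine ⟨Finset.mem_univ _, ?_⟩
      by_cases h2 : j = j₁
      · rw [h2, Equiv.swap_apply_left]
      · rw [Equiv.swap_apply_of_ne_of_ne h2 hj.ne]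
        exact hj.le
    let c : Fin n → E := fun j => if j < i₀ then A i₀ j / A i₀ i₀ else 0
    have hc : ∀ j, ‖c j‖ ≤ 1 := by
      intro j
      by_cases h2 : j < i₀
      · simp only [c, h2, if_true, norm_div]
        exact div_le_one_of_le₀ (hle j h2) (norm_nonneg _)
      · simp [c, h2]
    have hc0 : c i₀ = 0 := by simp [c]
    refine ⟨Q.submatrix (Equiv.refl _) e * (1 - Matrix.vecMulVec (Pi.single i₀ (1 : E)) c),
      (hQ.submatrix _ _).mul (isKM_row i₀ c hc hc0), ?_⟩
    intro i hi j hj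
    rw [← mul_assoc, ← hAe]
    have h4 : (A * (1 - Matrix.vecMulVec (Pi.single i₀ (1 : E)) c)) i j =
        A i j - A i i₀ * c j := by
      rw [mul_sub, mul_one, Matrix.sub_apply, Matrix.mul_apply]
      congr 1
      rw [Finset.sum_eq_single i₀]
      · rw [Matrix.vecMulVec_apply]
        simp
      · intro l _ hl
        rw [Matrix.vecMulVec_apply]
        simp [hl]
      · intro hl
        exact absurd (Finset.mem_univ _) hl
    rw [h4]
    by_cases h5 : i = i₀
    · subst h5
      by_cases h6 : A i₀ i₀ = 0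
      · have h7 := hle j hj
        rw [h6, norm_zero] at h7
        rw [h6, zero_mul, sub_zero]
        exact norm_le_zero_iff.1 h7
      · simp only [c, hj, if_true]
        rw [mul_div_cancel₀ _ h6, sub_self]
    · have h6 : i₀ < i := by
        rcases lt_trichotomy i i₀ with h7 | h7 | h7
        · exfalso
          have h8 : i.1 < i₀.1 := h7
          omega
        · exact absurd h7 h5
        · exact h7
      rw [hrow i h6 j hj, hrow i h6 i₀ h6, zero_mul, sub_zero]

theorem exists_gl_of_isKM {Q : Matrix (Fin n) (Fin n) E} (hQ : IsKM Q) :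
    ∃ k ∈ glK (Fin n) E 1 zero_le_one le_rfl, (k : Matrix (Fin n) (Fin n) E) = Q := by
  obtain ⟨Q', h1, h2, h3, h4⟩ := hQ
  exact ⟨⟨Q, Q', h3, h4⟩, mem_glK_one h1 h2, rfl⟩

/-- **Iwasawa decomposition**: `g k` is upper triangular for some `k ∈ GL_n(O)`. -/
theorem exists_upper (g : Matrix (Fin n) (Fin n) E) :
    ∃ k ∈ glK (Fin n) E 1 zero_le_one le_rfl, ∀ i j, j < i →
      (g * (k : Matrix (Fin n) (Fin n) E)) i j = 0 := by
  obtain ⟨Q, hQ, h⟩ := exists_upper_aux g n le_rfl
  obtain ⟨k, hk, rfl⟩ := exists_gl_of_isKM hQ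
  exact ⟨k, hk, fun i j hj => h i (by omega) j hj⟩

end upper

section lowl

variable {E : Type} [Field E] {m : ℕ}

omit [Field E] in
theorem sI_inl (j : Fin m) : (sI m (Sum.inl j)).1 = j.1 := by
  simp [sI]

omit [Field E] in
theorem sI_inr (i : Fin m) : (sI m (Sum.inr i)).1 = m + i.1 := by
  simp [sI, add_comm]

omit [Field E] in
theorem sI_lt (i j : Fin m) : sI m (Sum.inl j) < sI m (Sum.inr i) := by
  rw [Fin.lt_def, sI_inl, sI_inr]
  omega

theorem lowL_bm (a b c d : Matrix (Fin m) (Fin m) E) : lowL (bm a b c d) = c := by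
  ext i j
  simp [lowL, bm]

theorem lowL_pel (a d : GL (Fin m) E) (b : Matrix (Fin m) (Fin m) E) :
    lowL (pel a d b : Matrix (Fin (2 * m)) (Fin (2 * m)) E) = 0 := lowL_bm _ _ _ _

/-- Every matrix is `bm a b c d`. -/
theorem exists_bm (g : Matrix (Fin (2 * m)) (Fin (2 * m)) E) :
    ∃ a b d : Matrix (Fin m) (Fin m) E, g = bm a b (lowL g) d := by
  refine ⟨fun i j => g (sI m (Sum.inl i)) (sI m (Sum.inl j)),
    fun i j => g (sI m (Sum.inl i)) (sI m (Sum.inr j)),
    fun i j => g (sI m (Sum.inr i)) (sI m (Sum.inr j)), ?_⟩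
  ext i j
  obtain ⟨i, rfl⟩ := (sI m).surjective i
  obtain ⟨j, rfl⟩ := (sI m).surjective j
  unfold bm
  rw [Matrix.reindex_apply, Matrix.submatrix_apply, Equiv.symm_apply_apply,
    Equiv.symm_apply_apply]
  rcases i with i | i <;> rcases j with j | j <;> rfl

theorem lowL_pel_mul (a d : GL (Fin m) E) (b : Matrix (Fin m) (Fin m) E)
    (g : Matrix (Fin (2 * m)) (Fin (2 * m)) E) :
    lowL ((pel a d b : Matrix (Fin (2 * m)) (Fin (2 * m)) E) * g) = d * lowL g := by
  obtain ⟨a', b', d', h⟩ := exists_bm g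
  have h1 : (pel a d b : Matrix (Fin (2 * m)) (Fin (2 * m)) E) * g =
      bm a b 0 d * bm a' b' (lowL g) d' := by
    rw [← h]
    rfl
  rw [h1, bm_mul, lowL_bm, zero_mul, zero_add]

/-- **The lower left block criterion**: `g ∈ P` if and only if the lower left block is zero. -/
theorem exists_pel_iff (g : GL (Fin (2 * m)) E) :
    (∃ a d b, g = pel a d b) ↔ lowL (g : Matrix (Fin (2 * m)) (Fin (2 * m)) E) = 0 := by
  constructor
  · rintro ⟨a, d, b, rfl⟩
    exact lowL_pel a d b
  · intro hl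
    obtain ⟨a, b, d, h⟩ := exists_bm (g : Matrix (Fin (2 * m)) (Fin (2 * m)) E)
    rw [hl] at h
    have hdet : IsUnit (bm a b 0 d).det := by
      rw [← h]
      exact (Matrix.isUnits_det_units g)
    have hdet2 : (bm a b 0 d).det = a.det * d.det := by
      unfold bm
      rw [Matrix.det_reindex_self, Matrix.det_fromBlocks_zero₂₁]
    rw [hdet2] at hdet
    have ha : IsUnit a.det := isUnit_of_mul_isUnit_left hdet
    have hd : IsUnit d.det := isUnit_of_mul_isUnit_right hdet
    refine ⟨Matrix.GeneralLinearGroup.mk'' a ha, Matrix.GeneralLinearGroup.mk'' d hd, b, ?_⟩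
    apply Units.ext
    rw [h]
    rfl

end lowl

section iwa

variable {E : Type} [NontriviallyNormedField E] [IsUltrametricDist E] {m : ℕ}

/-- **Iwasawa decomposition** `G = P K`. -/
theorem iwasawa (g : GL (Fin (2 * m)) E) :
    ∃ (a d : GL (Fin m) E) (b : Matrix (Fin m) (Fin m) E),
      ∃ k ∈ glK (Fin (2 * m)) E 1 zero_le_one le_rfl, g = pel a d b * k := by
  obtain ⟨k, hk, h⟩ := exists_upper (g : Matrix (Fin (2 * m)) (Fin (2 * m)) E)
  have h1 : lowL ((g * k : GL (Fin (2 * m)) E) : Matrix (Fin (2 * m)) (Fin (2 * m)) E) = 0 := by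
    ext i j
    exact h _ _ (sI_lt i j)
  obtain ⟨a, d, b, h2⟩ := (exists_pel_iff (g * k)).2 h1
  refine ⟨a, d, b, k⁻¹, (glK (Fin (2 * m)) E 1 zero_le_one le_rfl).inv_mem hk, ?_⟩
  rw [← h2, mul_assoc, mul_inv_cancel, mul_one]

end iwa

end SpW
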