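import Pool.Agent.Work.MP_3615d2_al.DefsB
import Pool.Agent.Work.MP_3615d2_al.Iwa

/-!
MP_3615d2_al, Theorem B, R7b: the second projection of the coinvariants of an induced
representation (the splitting by the central element of the Levi subgroup).
-/

open MeasureTheory Matrix Filter Topology
open scoped NNReal TensorProduct

namespace SpW

section pel

variable {E : Type} [Field E] {m : ℕ}

theorem lowL_mul_pel (a d : GL (Fin m) E) (b : Matrix (Fin m) (Fin m) E)
    (g : GL (Fin (2 * m)) E) :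
    lowL ((g * pel a d b : GL (Fin (2 * m)) E) : Matrix (Fin (2 * m)) (Fin (2 * m)) E) =
      lowL (g : Matrix (Fin (2 * m)) (Fin (2 * m)) E) * (a : Matrix (Fin m) (Fin m) E) := by
  obtain ⟨a', b', d', h⟩ := exists_bm (g : Matrix (Fin (2 * m)) (Fin (2 * m)) E)
  have h1 : ((g * pel a d b : GL (Fin (2 * m)) E) : Matrix (Fin (2 * m)) (Fin (2 * m)) E) =
      bm a' b' (lowL (g : Matrix (Fin (2 * m)) (Fin (2 * m)) E)) d' * bm a b 0 d := by
    rw [← h]
    rfl
  rw [h1, bm_mul, lowL_bm, mul_zero, add_zero]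

theorem pel_mem_Nk (b : Matrix (Fin m) (Fin m) E) : pel 1 1 b ∈ Nk (2 * m) m E := by
  intro i j hij
  obtain ⟨i, rfl⟩ := (sI m).surjective i
  obtain ⟨j, rfl⟩ := (sI m).surjective j
  show Matrix.reindex (sI m) (sI m) (Matrix.fromBlocks 1 b 0 1) (sI m i) (sI m j) = _
  rw [Matrix.reindex_apply, Matrix.submatrix_apply, Equiv.symm_apply_apply,
    Equiv.symm_apply_apply, Matrix.one_apply]
  have hs : (sI m i = sI m j) ↔ i = j := (sI m).apply_eq_iff_eq
  rcases i with i | i <;> rcases j with j | j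
  · rw [Matrix.fromBlocks_apply₁₁, Matrix.one_apply]
    simp
  · exfalso
    apply hij
    rw [sI_inl, sI_inr]
    have := i.2
    exact ⟨this, by omega⟩
  · rw [Matrix.fromBlocks_apply₂₁]
    simp
  · rw [Matrix.fromBlocks_apply₂₂, Matrix.one_apply]
    simp

theorem exists_pel_of_mem_Nk {n : GL (Fin (2 * m)) E} (hn : n ∈ Nk (2 * m) m E) :
    ∃ b : Matrix (Fin m) (Fin m) E, n = pel 1 1 b := by
  let b : Matrix (Fin m) (Fin m) E := fun i j =>
    (n : Matrix (Fin (2 * m)) (Fin (2 * m)) E) (sI m (Sum.inl i)) (sI m (Sum.inr j))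
  refine ⟨b, ?_⟩
  apply Units.ext
  ext i j
  obtain ⟨i, rfl⟩ := (sI m).surjective i
  obtain ⟨j, rfl⟩ := (sI m).surjective j
  show _ = Matrix.reindex (sI m) (sI m) (Matrix.fromBlocks 1 b 0 1) (sI m i) (sI m j)
  rw [Matrix.reindex_apply, Matrix.submatrix_apply, Equiv.symm_apply_apply,
    Equiv.symm_apply_apply]
  rcases i with i | i <;> rcases j with j | j
  · rw [hn _ _ (by rw [sI_inl, sI_inl]; have := j.2; omega), Matrix.fromBlocks_apply₁₁,
      Matrix.one_apply, Matrix.one_apply]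
    simp
  · rfl
  · rw [hn _ _ (by rw [sI_inl, sI_inr]; have := j.2; omega), Matrix.fromBlocks_apply₂₁,
      Matrix.one_apply]
    simp
  · rw [hn _ _ (by rw [sI_inr, sI_inr]; omega), Matrix.fromBlocks_apply₂₂,
      Matrix.one_apply, Matrix.one_apply]
    simp

theorem pel_conj (a d : GL (Fin m) E) (b x : Matrix (Fin m) (Fin m) E) :
    pel a d b * pel 1 1 x =
      pel 1 1 ((a : Matrix (Fin m) (Fin m) E) * x *
        ((d⁻¹ : GL (Fin m) E) : Matrix (Fin m) (Fin m) E)) * pel a d b := by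
  have hd : ((d⁻¹ : GL (Fin m) E) : Matrix (Fin m) (Fin m) E) * (d : Matrix (Fin m) (Fin m) E) =
      1 := by rw [← Units.val_mul, inv_mul_cancel, Units.val_one]
  rw [pel_mul, pel_mul, mul_one, mul_one, one_mul, one_mul, Units.val_one, one_mul, mul_one,
    Matrix.mul_assoc ((a : Matrix (Fin m) (Fin m) E) * x), hd, mul_one, add_comm]

end pel

section second

variable {E : Type} [NontriviallyNormedField E] {m : ℕ}
  {W W' : Type} [AddCommGroup W] [Module ℂ W] [AddCommGroup W'] [Module ℂ W']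

/-- Functions supported in the open cell. -/
def OpenSupp {ρ : (GL (Fin m) E × GL (Fin m) E) →* Module.End ℂ W} (f : Ind ρ) : Prop :=
  ∀ g, (f : GL (Fin (2 * m)) E → W) g ≠ 0 →
    IsUnit (lowL (g : Matrix (Fin (2 * m)) (Fin (2 * m)) E)).det

variable {ρ : (GL (Fin m) E × GL (Fin m) E) →* Module.End ℂ W}

theorem OpenSupp.add {f g : Ind ρ} (hf : OpenSupp f) (hg : OpenSupp g) : OpenSupp (f + g) := by
  intro x hx
  by_cases h : (f : GL (Fin (2 * m)) E → W) x = 0
  · apply hg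
    intro h'
    apply hx
    show (f : GL (Fin (2 * m)) E → W) x + (g : GL (Fin (2 * m)) E → W) x = 0
    rw [h, h', add_zero]
  · exact hf x h

theorem OpenSupp.smul {f : Ind ρ} (hf : OpenSupp f) (c : ℂ) : OpenSupp (c • f) := by
  intro x hx
  apply hf
  intro h
  apply hx
  show c • (f : GL (Fin (2 * m)) E → W) x = 0
  rw [h, smul_zero]

theorem OpenSupp.sub {f g : Ind ρ} (hf : OpenSupp f) (hg : OpenSupp g) : OpenSupp (f - g) := by
  have : f - g = f + (-1 : ℂ) • g := by module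
  rw [this]
  exact hf.add (hg.smul _)

theorem OpenSupp.act {f : Ind ρ} (hf : OpenSupp f) (a d : GL (Fin m) E)
    (b : Matrix (Fin m) (Fin m) E) : OpenSupp (indAct ρ (pel a d b) f) := by
  intro x hx
  rw [indAct_apply] at hx
  have h := hf _ hx
  rw [lowL_mul_pel, Matrix.det_mul] at h
  exact isUnit_of_mul_isUnit_left h

theorem cvN_act (p : GL (Fin (2 * m)) E) (hp : ∃ a d b, p = pel a d b) :
    ∀ v ∈ cvN (indAct ρ) (Nk (2 * m) m E) ⊤, indAct ρ p v ∈ cvN (indAct ρ) (Nk (2 * m) m E) ⊤ := by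
  obtain ⟨a, d, b, rfl⟩ := hp
  intro v hv
  unfold cvN at hv
  induction hv using Submodule.span_induction with
  | mem x hx =>
    obtain ⟨n, hn, w, -, rfl⟩ := hx
    obtain ⟨y, rfl⟩ := exists_pel_of_mem_Nk hn
    rw [map_sub, ← Module.End.mul_apply, ← map_mul, pel_conj, map_mul, Module.End.mul_apply]
    exact Submodule.subset_span ⟨_, pel_mem_Nk _, _, trivial, rfl⟩
  | zero => rw [map_zero]; exact Submodule.zero_mem _
  | add x y _ _ hx hy => rw [map_add]; exact Submodule.add_mem _ hx hy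
  | smul c x _ hx => rw [map_smul]; exact Submodule.smul_mem _ _ hx

/-- **The second projection.** -/
theorem exists_second_gen (hm : 0 < m) {ρ' : (GL (Fin m) E × GL (Fin m) E) →* Module.End ℂ W'}
    (hev : ∀ w, ∃ f : Ind ρ, (f : GL (Fin (2 * m)) E → W) 1 = w)
    (hmid : ∀ f : Ind ρ, (f : GL (Fin (2 * m)) E → W) 1 = 0 →
      ∃ f₀ : Ind ρ, f - f₀ ∈ cvN (indAct ρ) (Nk (2 * m) m E) ⊤ ∧ OpenSupp f₀)
    (κ : Ind ρ →ₗ[ℂ] W')
    (hκ1 : ∀ (a d : GL (Fin m) E) (b : Matrix (Fin m) (Fin m) E) (f : Ind ρ), OpenSupp f →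
      κ (indAct ρ (pel a d b) f) = ρ' (a, d) (κ f))
    (hκ2 : ∀ w, ∃ f : Ind ρ, OpenSupp f ∧ κ f = w)
    (hκ3 : ∀ f : Ind ρ, OpenSupp f → (κ f = 0 ↔ f ∈ cvN (indAct ρ) (Nk (2 * m) m E) ⊤))
    {z : Eˣ} {c c' : ℂ} (hcc : c ≠ c')
    (hc : ∀ w, ρ (Matrix.GeneralLinearGroup.scalar (Fin m) z, 1) w = c • w)
    (hc' : ∀ w, ρ' (Matrix.GeneralLinearGroup.scalar (Fin m) z, 1) w = c' • w) :
    ∃ e' : Ind ρ →ₗ[ℂ] W',
      (∀ a d b f, e' (indAct ρ (pel a d b) f) = ρ' (a, d) (e' f)) ∧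
      (∀ w w', ∃ f : Ind ρ, (f : GL (Fin (2 * m)) E → W) 1 = w ∧ e' f = w') ∧
      ∀ f : Ind ρ, (f : GL (Fin (2 * m)) E → W) 1 = 0 → e' f = 0 →
        f ∈ cvN (indAct ρ) (Nk (2 * m) m E) ⊤ := by
  classical
  set C := cvN (indAct ρ) (Nk (2 * m) m E) ⊤ with hC
  set ζ : GL (Fin (2 * m)) E := pel (Matrix.GeneralLinearGroup.scalar (Fin m) z) 1 0 with hζ
  have hcc0 : c' - c ≠ 0 := sub_ne_zero.2 hcc.symm
  -- the projection to the kernel of the evaluation
  let P : Ind ρ →ₗ[ℂ] Ind ρ := (c' - c)⁻¹ • (indAct ρ ζ - c • LinearMap.id)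
  have hPdef : ∀ f, P f = (c' - c)⁻¹ • (indAct ρ ζ f - c • f) := fun f => rfl
  have hP1 : ∀ f : Ind ρ, ((P f : Ind ρ) : GL (Fin (2 * m)) E → W) 1 = 0 := by
    intro f
    have h1 : ((indAct ρ ζ f : Ind ρ) : GL (Fin (2 * m)) E → W) 1 =
        c • (f : GL (Fin (2 * m)) E → W) 1 := by
      rw [indAct_apply, one_mul, ← mul_one ζ, hζ, f.2.1, hc]
    show (c' - c)⁻¹ • (((indAct ρ ζ f : Ind ρ) : GL (Fin (2 * m)) E → W) 1 -
      c • (f : GL (Fin (2 * m)) E → W) 1) = 0
    rw [h1, sub_self, smul_zero]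
  choose s hs1 hs2 using fun f => hmid (P f) (hP1 f)
  -- well-definedness
  have hwd : ∀ g₁ g₂ : Ind ρ, OpenSupp g₁ → OpenSupp g₂ → g₁ - g₂ ∈ C → κ g₁ = κ g₂ := by
    intro g₁ g₂ h1 h2 h3
    have h4 := (hκ3 _ (h1.sub h2)).2 h3
    rw [map_sub] at h4
    exact sub_eq_zero.1 h4
  have hkey : ∀ f g : Ind ρ, OpenSupp g → P f - g ∈ C → κ (s f) = κ g := by
    intro f g hg h
    refine hwd _ _ (hs2 f) hg ?_
    have h1 : s f - g = (P f - g) - (P f - s f) := by abel
    rw [h1]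
    exact C.sub_mem h (hs1 f)
  let e' : Ind ρ →ₗ[ℂ] W' :=
    { toFun := fun f => κ (s f)
      map_add' := fun f g => by
        rw [← map_add]
        refine hkey _ _ ((hs2 f).add (hs2 g)) ?_
        have h1 : P (f + g) - (s f + s g) = (P f - s f) + (P g - s g) := by
          rw [map_add]; abel
        rw [h1]
        exact C.add_mem (hs1 f) (hs1 g)
      map_smul' := fun a f => by
        rw [RingHom.id_apply, ← map_smul]
        refine hkey _ _ ((hs2 f).smul a) ?_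
        have h1 : P (a • f) - a • s f = a • (P f - s f) := by
          rw [map_smul]; module
        rw [h1]
        exact C.smul_mem _ (hs1 f) }
  have he' : ∀ f, e' f = κ (s f) := fun f => rfl
  -- the values on the open cell
  have hopen : ∀ f : Ind ρ, OpenSupp f → e' f = κ f := by
    intro f hf
    have h1 : OpenSupp (P f) := by
      rw [hPdef]
      exact ((hf.act _ _ _).sub (hf.smul c)).smul _
    rw [he', hkey f (P f) h1 (by rw [sub_self]; exact C.zero_mem), hPdef, map_smul, map_sub,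
      map_smul, hζ, hκ1 _ _ _ f hf, hc', ← sub_smul, smul_smul, inv_mul_cancel₀ hcc0, one_smul]
  have hequiv : ∀ a d b f, e' (indAct ρ (pel a d b) f) = ρ' (a, d) (e' f) := by
    intro a d b f
    rw [he', he', ← hκ1 a d b _ (hs2 f)]
    refine hkey _ _ ((hs2 f).act a d b) ?_
    -- `ζ p = n p ζ`
    have hcom : ζ * pel a d b = pel 1 1 (((z : E) - 1) • b *
        ((d⁻¹ : GL (Fin m) E) : Matrix (Fin m) (Fin m) E)) * (pel a d b * ζ) := by
      have hd : ((d⁻¹ : GL (Fin m) E) : Matrix (Fin m) (Fin m) E) *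
          (d : Matrix (Fin m) (Fin m) E) = 1 := by
        rw [← Units.val_mul, inv_mul_cancel, Units.val_one]
      have hzv : ((Matrix.GeneralLinearGroup.scalar (Fin m) z : GL (Fin m) E) :
          Matrix (Fin m) (Fin m) E) = (z : E) • 1 := by
        ext i j
        simp [Matrix.one_apply, Matrix.diagonal_apply]
      have hzc : Matrix.GeneralLinearGroup.scalar (Fin m) z * a =
          a * Matrix.GeneralLinearGroup.scalar (Fin m) z := by
        apply Units.ext
        rw [Units.val_mul, Units.val_mul, hzv, smul_mul_assoc, one_mul, mul_smul_comm, mul_one]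
      have hzb : ((Matrix.GeneralLinearGroup.scalar (Fin m) z : GL (Fin m) E) :
          Matrix (Fin m) (Fin m) E) * b = (z : E) • b := by
        rw [hzv, smul_mul_assoc, one_mul]
      rw [hζ, pel_mul, pel_mul, pel_mul, hzc]
      congr 1
      · rw [one_mul]
      · rw [one_mul, one_mul, mul_one]
      · rw [hzb, Matrix.zero_mul, add_zero, Matrix.mul_zero, zero_add, Units.val_one, Matrix.mul_one,
          Units.val_mul, Units.val_one, Matrix.mul_one, Matrix.mul_assoc, hd, Matrix.mul_one,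
          Matrix.one_mul, sub_smul, one_smul]
        abel
    have h1 : P (indAct ρ (pel a d b) f) - indAct ρ (pel a d b) (s f) =
        (c' - c)⁻¹ • (indAct ρ (ζ * pel a d b) f - indAct ρ (pel a d b * ζ) f) +
          indAct ρ (pel a d b) (P f - s f) := by
      rw [hPdef, map_sub (indAct ρ (pel a d b)), hPdef, map_smul, map_sub, map_smul, map_mul,
        map_mul, Module.End.mul_apply, Module.End.mul_apply]
      module
    rw [h1]
    refine C.add_mem (C.smul_mem _ ?_) (cvN_act _ ⟨a, d, b, rfl⟩ _ (hs1 f))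
    rw [hcom, map_mul (indAct ρ) (pel 1 1 _), Module.End.mul_apply]
    exact Submodule.subset_span ⟨_, pel_mem_Nk _, _, trivial, rfl⟩
  have hkill : ∀ f ∈ C, e' f = 0 := by
    intro f hf
    rw [hC] at hf
    unfold cvN at hf
    induction hf using Submodule.span_induction with
    | mem x hx =>
      obtain ⟨n, hn, w, -, rfl⟩ := hx
      obtain ⟨y, rfl⟩ := exists_pel_of_mem_Nk hn
      rw [map_sub, hequiv]
      have : ((1 : GL (Fin m) E), (1 : GL (Fin m) E)) = 1 := rfl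
      rw [this, map_one, Module.End.one_apply, sub_self]
    | zero => rw [map_zero]
    | add x y _ _ hx hy => rw [map_add, hx, hy, add_zero]
    | smul c x _ hx => rw [map_smul, hx, smul_zero]
  refine ⟨e', hequiv, ?_, ?_⟩
  · intro w w'
    obtain ⟨f₁, hf₁⟩ := hev w
    obtain ⟨f₂, hf₂, hf₂'⟩ := hκ2 (w' - e' f₁)
    refine ⟨f₁ + f₂, ?_, ?_⟩
    · show (f₁ : GL (Fin (2 * m)) E → W) 1 + (f₂ : GL (Fin (2 * m)) E → W) 1 = w
      have h0 : (f₂ : GL (Fin (2 * m)) E → W) 1 = 0 := by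
        by_contra h
        have h1 := hf₂ 1 h
        have h2 : lowL ((1 : GL (Fin (2 * m)) E) : Matrix (Fin (2 * m)) (Fin (2 * m)) E) = 0 := by
          rw [← pel_one]
          exact lowL_pel _ _ _
        have : Nonempty (Fin m) := ⟨⟨0, hm⟩⟩
        rw [h2, Matrix.det_zero] at h1
        exact not_isUnit_zero h1
      rw [h0, add_zero, hf₁]
    · rw [map_add, hopen f₂ hf₂, hf₂']
      abel
  · intro f hf1 hf2
    obtain ⟨f₀, h1, h2⟩ := hmid f hf1
    have h3 : e' f = e' f₀ := by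
      have := hkill _ h1
      rw [map_sub] at this
      exact sub_eq_zero.1 this
    rw [hf2, hopen f₀ h2] at h3
    have h4 := (hκ3 f₀ h2).1 h3.symm
    have h5 : f = (f - f₀) + f₀ := by abel
    rw [h5]
    exact C.add_mem h1 h4

end second

end SpW

namespace SpW

section spec

variable {E : Type} [NontriviallyNormedField E] [IsUltrametricDist E] [ProperSpace E]
  [MeasurableSpace E] [BorelSpace E] {m : ℕ} {V : Type} [AddCommGroup V] [Module ℂ V]

/-- R7b with the inputs as hypotheses. -/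
theorem exists_second_of {π : GL (Fin m) E →* Module.End ℂ V} (hm : 0 < m) {s : ℝ}
    (hev : ∀ w, ∃ f : Ind (rho π s), (f : GL (Fin (2 * m)) E → V ⊗[ℂ] V) 1 = w)
    (hmid : ∀ f : Ind (rho π s), (f : GL (Fin (2 * m)) E → V ⊗[ℂ] V) 1 = 0 →
      ∃ f₀ : Ind (rho π s), f - f₀ ∈ cvN (indAct (rho π s)) (Nk (2 * m) m E) ⊤ ∧
        ∀ g, (f₀ : GL (Fin (2 * m)) E → V ⊗[ℂ] V) g ≠ 0 →
          IsUnit (lowL (g : Matrix (Fin (2 * m)) (Fin (2 * m)) E)).det)
    (hopen : ∃ κ : Ind (rho π s) →ₗ[ℂ] V ⊗[ℂ] V,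
      (∀ (a d : GL (Fin m) E) (b : Matrix (Fin m) (Fin m) E) (f : Ind (rho π s)),
        (∀ g, (f : GL (Fin (2 * m)) E → V ⊗[ℂ] V) g ≠ 0 →
          IsUnit (lowL (g : Matrix (Fin (2 * m)) (Fin (2 * m)) E)).det) →
        κ (indAct (rho π s) (pel a d b) f) =
          ((ad a ^ (m : ℝ) * ad d ^ (-(m : ℝ)) : ℝ) : ℂ) • rho π s (d, a) (κ f)) ∧
      (∀ w, ∃ f : Ind (rho π s), (∀ g, (f : GL (Fin (2 * m)) E → V ⊗[ℂ] V) g ≠ 0 →
          IsUnit (lowL (g : Matrix (Fin (2 * m)) (Fin (2 * m)) E)).det) ∧ κ f = w) ∧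
      ∀ f : Ind (rho π s), (∀ g, (f : GL (Fin (2 * m)) E → V ⊗[ℂ] V) g ≠ 0 →
          IsUnit (lowL (g : Matrix (Fin (2 * m)) (Fin (2 * m)) E)).det) →
        (κ f = 0 ↔ f ∈ cvN (indAct (rho π s)) (Nk (2 * m) m E) ⊤))
    (hsplit : ∃ (z : Eˣ) (c c' : ℂ), c ≠ c' ∧
      (∀ w, rho π s (Matrix.GeneralLinearGroup.scalar (Fin m) z, 1) w = c • w) ∧
      ∀ w, rho π (m - s) (Matrix.GeneralLinearGroup.scalar (Fin m) z, 1) w = c' • w) :
    ∃ e' : Ind (rho π s) →ₗ[ℂ] V ⊗[ℂ] V,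
      (∀ a d b f, e' (indAct (rho π s) (pel a d b) f) = rho π (m - s) (a, d) (e' f)) ∧
      (∀ w w', ∃ f : Ind (rho π s), (f : GL (Fin (2 * m)) E → V ⊗[ℂ] V) 1 = w ∧ e' f = w') ∧
      ∀ f : Ind (rho π s), (f : GL (Fin (2 * m)) E → V ⊗[ℂ] V) 1 = 0 → e' f = 0 →
        f ∈ cvN (indAct (rho π s)) (Nk (2 * m) m E) ⊤ := by
  obtain ⟨κ, hκ1, hκ2, hκ3⟩ := hopen
  obtain ⟨z, c, c', hcc, hc, hc'⟩ := hsplit
  -- exchange of the tensor factors
  let T : V ⊗[ℂ] V ≃ₗ[ℂ] V ⊗[ℂ] V := TensorProduct.comm ℂ V V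
  have hT : ∀ (a d : GL (Fin m) E) (w : V ⊗[ℂ] V),
      T (((ad a ^ (m : ℝ) * ad d ^ (-(m : ℝ)) : ℝ) : ℂ) • rho π s (d, a) w) =
        rho π (m - s) (a, d) (T w) := by
    intro a d w
    induction w using TensorProduct.induction_on with
    | zero => simp
    | tmul x y =>
      rw [rho_tmul, map_smul, map_smul]
      show _ • _ • TensorProduct.comm ℂ V V (π d x ⊗ₜ[ℂ] π a y) =
        rho π (m - s) (a, d) (TensorProduct.comm ℂ V V (x ⊗ₜ[ℂ] y))
      rw [TensorProduct.comm_tmul, TensorProduct.comm_tmul, rho_tmul, smul_smul]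
      congr 1
      have ha := ad_pos a
      have hd := ad_pos d
      rw [← Complex.ofReal_mul]
      congr 1
      have e1 : ad a ^ ((m : ℝ) - s) = ad a ^ (m : ℝ) * ad a ^ (-s) := by
        rw [← Real.rpow_add ha, sub_eq_add_neg]
      have e2 : ad d ^ (-((m : ℝ) - s)) = ad d ^ (-(m : ℝ)) * ad d ^ s := by
        rw [← Real.rpow_add hd]
        congr 1
        ring
      rw [e1, e2]
      ring
    | add x y hx hy =>
      rw [map_add, smul_add, map_add, hx, hy, map_add, map_add]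
  refine exists_second_gen hm hev hmid (T.toLinearMap.comp κ) ?_ ?_ ?_ hcc hc hc'
  · intro a d b f hf
    show T (κ (indAct (rho π s) (pel a d b) f)) = rho π (m - s) (a, d) (T (κ f))
    rw [hκ1 a d b f hf, hT]
  · intro w
    obtain ⟨f, hf, hf'⟩ := hκ2 (T.symm w)
    refine ⟨f, hf, ?_⟩
    show T (κ f) = w
    rw [hf', LinearEquiv.apply_symm_apply]
  · intro f hf
    rw [← hκ3 f hf]
    show T (κ f) = 0 ↔ κ f = 0
    exact LinearEquiv.map_eq_zero_iff T

end spec

end SpW
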