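import Pool.Agent.Work.MP_3615d2_al.Cell
import Pool.Agent.Work.MP_3615d2_al.WInt
import Pool.Agent.Work.MP_3615d2_al.Second

/-!
MP_3615d2_al, Theorem B, module R7: the coinvariants of the functions supported on the open cell.
-/

open Matrix Filter Topology

namespace SpW

section avg

variable {X W : Type} [TopologicalSpace X] [AddCommGroup X] [IsTopologicalAddGroup X]
  [AddCommGroup W] [Module ℂ W]

theorem sch_translate_mem {φ : X → W} (hφ : φ ∈ Sch X W) (y : X) :
    (fun x => φ (x + y)) ∈ Sch X W := by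
  obtain ⟨h1, K, hK, h2⟩ := hφ
  refine ⟨h1.comp_continuous (continuous_add_right y), (fun x => x + (-y)) '' K,
    hK.image (continuous_add_right (-y)), fun x hx => h2 _ fun h => hx ⟨x + y, h, ?_⟩⟩
  exact add_neg_cancel_right x y

/-- A function with integral zero has average zero over finitely many translates. -/
theorem avg_zero {C : AddSubgroup X} (hC : IsCompact (C : Set X)) (hCo : IsOpen (C : Set X))
    (I : Sch X W →ₗ[ℂ] W)
    (hI : ∀ (f g : Sch X W) (y : X), (∀ x, (g : X → W) x = (f : X → W) (x + y)) → I g = I f)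
    (hI1 : ∀ (f : Sch X W) (w : W), (∀ x ∈ C, (f : X → W) x = w) →
      (∀ x, x ∉ C → (f : X → W) x = 0) → I f = 0 → w = 0)
    (φ : Sch X W) (hS : ∀ x, x ∉ C → (φ : X → W) x = 0)
    (hH : ∀ᶠ y in 𝓝 (0 : X), ∀ x, (φ : X → W) (x + y) = (φ : X → W) x) (h0 : I φ = 0) :
    ∃ (ι : Type) (_ : Fintype ι) (_ : Nonempty ι) (y : ι → X),
      ∀ x, ∑ i, (φ : X → W) (x + y i) = 0 := by
  classical
  have iC : CompactSpace C := isCompact_iff_compactSpace.1 hC
  let H : AddSubgroup C :=
    { carrier := {y | ∀ x, (φ : X → W) (x + y) = (φ : X → W) x}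
      add_mem' := by
        intro a b ha hb x
        show (φ : X → W) (x + ((a : X) + (b : X))) = (φ : X → W) x
        rw [← add_assoc, hb, ha]
      zero_mem' := fun x => by
        show (φ : X → W) (x + 0) = (φ : X → W) x
        rw [add_zero]
      neg_mem' := by
        intro a ha x
        show (φ : X → W) (x + -(a : X)) = (φ : X → W) x
        have h1 := ha (x + -(a : X))
        rw [neg_add_cancel_right] at h1
        exact h1.symm }
  have hHo : IsOpen (H : Set C) := by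
    refine H.isOpen_of_mem_nhds (g := 0) ?_
    have h1 : Tendsto (fun y : C => (y : X)) (𝓝 0) (𝓝 0) := by
      have := (continuous_subtype_val (p := fun x => x ∈ C)).tendsto (0 : C)
      exact this
    filter_upwards [h1.eventually hH] with y hy
    exact hy
  have iF : Finite (C ⧸ H) := AddSubgroup.quotient_finite_of_isOpen H hHo
  let iFt : Fintype (C ⧸ H) := Fintype.ofFinite _
  let F : X → C ⧸ H → W := fun x => Quotient.lift (fun y : C => (φ : X → W) (x + y)) (by
    intro a b hab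
    have h1 : -a + b ∈ H := QuotientAddGroup.leftRel_apply.1 hab
    have h2 : (φ : X → W) (x + a + ((-a + b : C) : X)) = (φ : X → W) (x + a) := h1 _
    have e : x + (b : X) = x + (a : X) + ((-a + b : C) : X) := by
      show x + (b : X) = x + (a : X) + (-(a : X) + (b : X))
      abel
    show (φ : X → W) (x + (a : X)) = (φ : X → W) (x + (b : X))
    rw [e, h2])
  have hF : ∀ x (y : C), F x (QuotientAddGroup.mk y) = (φ : X → W) (x + y) := fun x y => rfl
  let r : C ⧸ H → C := fun q => q.out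
  have hr : ∀ q, QuotientAddGroup.mk (r q) = q := fun q => Quotient.out_eq q
  have hFr : ∀ x q, (φ : X → W) (x + r q) = F x q := fun x q => by
    rw [← hF, hr]
  refine ⟨C ⧸ H, iFt, ⟨0⟩, fun q => (r q : X), ?_⟩
  let Φ : X → W := fun x => ∑ q, (φ : X → W) (x + r q)
  -- Φ is supported on C and constant on C
  have h1 : ∀ x, x ∉ C → Φ x = 0 := by
    intro x hx
    refine Finset.sum_eq_zero fun q _ => hS _ fun h => hx ?_
    have := C.sub_mem h (r q).2
    rwa [add_sub_cancel_right] at this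
  have h2 : ∀ x ∈ C, Φ x = Φ 0 := by
    intro x hx
    show ∑ q, (φ : X → W) (x + r q) = ∑ q, (φ : X → W) (0 + r q)
    simp only [hFr]
    refine Fintype.sum_equiv (Equiv.addLeft (QuotientAddGroup.mk (⟨x, hx⟩ : C) : C ⧸ H)) _ _ ?_
    intro q
    obtain ⟨y, rfl⟩ : ∃ y : C, QuotientAddGroup.mk y = q := ⟨r q, hr q⟩
    show (φ : X → W) (x + (y : X)) = (φ : X → W) (0 + (x + (y : X)))
    rw [zero_add]
  let T : C ⧸ H → Sch X W := fun q => ⟨fun x => (φ : X → W) (x + r q),
    sch_translate_mem φ.2 _⟩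
  have h3 : ((∑ q, T q : Sch X W) : X → W) = Φ := by
    funext x
    rw [Submodule.coe_sum, Finset.sum_apply]
  have h4 : I (∑ q, T q) = 0 := by
    rw [map_sum]
    refine Finset.sum_eq_zero fun q _ => ?_
    rw [hI φ (T q) (r q) (fun x => rfl), h0]
  have h5 : Φ 0 = 0 := by
    refine hI1 (∑ q, T q) (Φ 0) (fun x hx => ?_) (fun x hx => ?_) h4
    · rw [h3]
      exact h2 x hx
    · rw [h3]
      exact h1 x hx
  intro x
  show Φ x = 0
  by_cases hx : x ∈ C
  · rw [h2 x hx, h5]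
  · exact h1 x hx

end avg

section lattice

variable {E : Type} [NontriviallyNormedField E] [IsUltrametricDist E] {m : ℕ}

/-- The lattice of matrices with entries of norm at most `R`. -/
def latR (E : Type) [NontriviallyNormedField E] [IsUltrametricDist E] (m : ℕ) (R : ℝ)
    (hR : 0 ≤ R) : AddSubgroup (Matrix (Fin m) (Fin m) E) where
  carrier := {x | ∀ i j, ‖x i j‖ ≤ R}
  add_mem' := by
    intro a b ha hb i j
    exact (IsUltrametricDist.norm_add_le_max _ _).trans (max_le (ha i j) (hb i j))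
  zero_mem' := fun i j => by
    show ‖(0 : E)‖ ≤ R
    rwa [norm_zero]
  neg_mem' := by
    intro a ha i j
    show ‖-a i j‖ ≤ R
    rw [norm_neg]
    exact ha i j

theorem latR_eq (R : ℝ) (hR : 0 ≤ R) : (latR E m R hR : Set (Matrix (Fin m) (Fin m) E)) =
    Set.pi Set.univ fun _ : Fin m => Set.pi Set.univ fun _ : Fin m => Metric.closedBall (0 : E) R := by
  apply Set.ext
  intro x
  have h : x ∈ (Set.pi Set.univ fun _ : Fin m => Set.pi Set.univ fun _ : Fin m =>
      Metric.closedBall (0 : E) R) ↔ ∀ i j, ‖x i j‖ ≤ R := by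
    constructor
    · intro h i j
      have := h i (Set.mem_univ _) j (Set.mem_univ _)
      rwa [Metric.mem_closedBall, dist_zero_right] at this
    · intro h i _ j _
      rw [Metric.mem_closedBall, dist_zero_right]
      exact h i j
  exact h.symm

theorem latR_isCompact [ProperSpace E] (R : ℝ) (hR : 0 ≤ R) :
    IsCompact (latR E m R hR : Set (Matrix (Fin m) (Fin m) E)) := by
  have h1 : IsCompact (Set.pi Set.univ fun _ : Fin m =>
      Set.pi Set.univ fun _ : Fin m => Metric.closedBall (0 : E) R) :=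
    isCompact_univ_pi fun _ => isCompact_univ_pi fun _ => isCompact_closedBall _ _
  rw [latR_eq]
  exact h1

theorem latR_isOpen {R : ℝ} (hR : 0 < R) :
    IsOpen (latR E m R hR.le : Set (Matrix (Fin m) (Fin m) E)) := by
  have h1 : IsOpen (Set.pi Set.univ fun _ : Fin m =>
      Set.pi Set.univ fun _ : Fin m => Metric.closedBall (0 : E) R) :=
    isOpen_set_pi Set.finite_univ fun _ _ => isOpen_set_pi Set.finite_univ fun _ _ =>
      IsUltrametricDist.isOpen_closedBall _ hR.ne'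
  rw [latR_eq]
  exact h1

theorem exists_latR {S : Set (Matrix (Fin m) (Fin m) E)} (hS : IsCompact S) :
    ∃ (R : ℝ) (hR : 0 < R), S ⊆ latR E m R hR.le := by
  have h1 : ∀ i j : Fin m, ∃ C : ℝ, ∀ x ∈ S, ‖x i j‖ ≤ C := fun i j =>
    hS.exists_bound_of_continuousOn (f := fun x : Matrix (Fin m) (Fin m) E => x i j)
      ((continuous_apply j).comp (continuous_apply i)).continuousOn
  choose C hC using h1
  refine ⟨∑ i, ∑ j, |C i j| + 1, by positivity, fun x hx i j => ?_⟩
  have h2 : |C i j| ≤ ∑ j, |C i j| :=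
    Finset.single_le_sum (f := fun j => |C i j|) (fun _ _ => abs_nonneg _) (Finset.mem_univ j)
  have h3 : ∑ j, |C i j| ≤ ∑ i, ∑ j, |C i j| :=
    Finset.single_le_sum (f := fun i => ∑ j, |C i j|)
      (fun _ _ => Finset.sum_nonneg fun _ _ => abs_nonneg _) (Finset.mem_univ i)
  calc ‖x i j‖ ≤ C i j := hC i j x hx
    _ ≤ |C i j| := le_abs_self _
    _ ≤ _ := by linarith

end lattice

section main

variable {E : Type} [NontriviallyNormedField E] [IsUltrametricDist E] [ProperSpace E] {m : ℕ}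
  {W : Type} [AddCommGroup W] [Module ℂ W] {ρ : (GL (Fin m) E × GL (Fin m) E) →* Module.End ℂ W}

/-- The restriction to the open cell as an element of `Sch`. -/
def cellSch (ρ : (GL (Fin m) E × GL (Fin m) E) →* Module.End ℂ W) :
    cellSub ρ →ₗ[ℂ] Sch (Matrix (Fin m) (Fin m) E) W where
  toFun f := ⟨cellRes ρ f, cellRes_mem f.2⟩
  map_add' _ _ := rfl
  map_smul' _ _ := rfl

theorem sch_mulBoth_mem {φ : Matrix (Fin m) (Fin m) E → W}
    (hφ : φ ∈ Sch (Matrix (Fin m) (Fin m) E) W) (a d : GL (Fin m) E) :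
    (fun x : Matrix (Fin m) (Fin m) E => φ (((a⁻¹ : GL (Fin m) E) : Matrix (Fin m) (Fin m) E) * x *
      (d : Matrix (Fin m) (Fin m) E))) ∈ Sch (Matrix (Fin m) (Fin m) E) W := by
  obtain ⟨h1, K, hK, h2⟩ := hφ
  have hc : ∀ A B : Matrix (Fin m) (Fin m) E, Continuous fun x : Matrix (Fin m) (Fin m) E =>
      A * x * B := fun A B =>
    (continuous_const.matrix_mul continuous_id).matrix_mul continuous_const
  refine ⟨h1.comp_continuous (hc _ _), (fun x : Matrix (Fin m) (Fin m) E =>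
    (a : Matrix (Fin m) (Fin m) E) * x * ((d⁻¹ : GL (Fin m) E) : Matrix (Fin m) (Fin m) E)) '' K,
    hK.image (hc _ _), fun x hx => h2 _ fun h => hx ⟨_, h, ?_⟩⟩
  show (a : Matrix (Fin m) (Fin m) E) * (((a⁻¹ : GL (Fin m) E) : Matrix (Fin m) (Fin m) E) * x *
    (d : Matrix (Fin m) (Fin m) E)) * ((d⁻¹ : GL (Fin m) E) : Matrix (Fin m) (Fin m) E) = x
  rw [← mul_assoc, ← mul_assoc, ← Units.val_mul, mul_inv_cancel, Units.val_one, one_mul, mul_assoc,
    ← Units.val_mul, mul_inv_cancel, Units.val_one, mul_one]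

/-- A locally constant function with compact support with given integral. -/
theorem exists_mint (w : W) : ∃ φ : Sch (Matrix (Fin m) (Fin m) E) W, mint E m W φ = w := by
  classical
  have hC := latR_isCompact (E := E) (m := m) 1 zero_lt_one.le
  have hCo := latR_isOpen (E := E) (m := m) zero_lt_one
  have hCc := (latR E m 1 zero_lt_one.le).isClosed_of_isOpen hCo
  have hv : 0 < mvol (latR E m 1 zero_lt_one.le : Set (Matrix (Fin m) (Fin m) E)) :=
    mvol_pos hCo hC ⟨0, zero_mem _⟩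
  set c := mvol (latR E m 1 zero_lt_one.le : Set (Matrix (Fin m) (Fin m) E)) with hc
  let w' : W := ((c : ℝ) : ℂ)⁻¹ • w
  let φ : Matrix (Fin m) (Fin m) E → W := fun x => if x ∈ latR E m 1 zero_lt_one.le then w' else 0
  have hφ : IsLocallyConstant φ := by
    rw [IsLocallyConstant.iff_eventually_eq]
    intro x
    by_cases hx : x ∈ latR E m 1 zero_lt_one.le
    · filter_upwards [hCo.mem_nhds hx] with y hy
      show (if y ∈ latR E m 1 zero_lt_one.le then w' else 0) =
        if x ∈ latR E m 1 zero_lt_one.le then w' else 0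
      have hy' : y ∈ latR E m 1 zero_lt_one.le := hy
      rw [if_pos hx, if_pos hy']
    · filter_upwards [hCc.isOpen_compl.mem_nhds hx] with y hy
      show (if y ∈ latR E m 1 zero_lt_one.le then w' else 0) =
        if x ∈ latR E m 1 zero_lt_one.le then w' else 0
      have hy' : y ∉ latR E m 1 zero_lt_one.le := hy
      rw [if_neg hx, if_neg hy']
  refine ⟨⟨φ, hφ, _, hC, fun x hx => if_neg hx⟩, ?_⟩
  have h1 := mint_indicator (⟨φ, hφ, _, hC, fun x hx => if_neg hx⟩ :
    Sch (Matrix (Fin m) (Fin m) E) W) hCo (w := w') (fun x hx => if_pos hx) (fun x hx => if_neg hx)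
  rw [h1, ← hc, smul_smul, mul_inv_cancel₀ (by exact_mod_cast hv.ne'), one_smul]

/-- A function on the open cell with integral zero is zero in the coinvariants. -/
theorem mem_cvN_of_mint {f : Ind ρ} (hf : f ∈ cellSub ρ)
    (h0 : mint E m W (cellSch ρ ⟨f, hf⟩) = 0) : f ∈ cvN (indAct ρ) (Nk (2 * m) m E) ⊤ := by
  obtain ⟨-, S, hS, hfS⟩ := cellRes_mem hf
  obtain ⟨R, hR, hSR⟩ := exists_latR hS
  have hC := latR_isCompact (E := E) (m := m) R hR.le
  have hCo := latR_isOpen (E := E) (m := m) hR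
  have hv : 0 < mvol (latR E m R hR.le : Set (Matrix (Fin m) (Fin m) E)) :=
    mvol_pos hCo hC ⟨0, zero_mem _⟩
  obtain ⟨ι, i1, i2, y, hy⟩ := avg_zero hC hCo (mint E m W) (fun f g y h => mint_translate f g y h)
    (fun f w h1 h2 h3 => by
      rw [mint_indicator f hCo h1 h2] at h3
      rcases smul_eq_zero.1 h3 with h4 | h4
      · exact absurd h4 (by exact_mod_cast hv.ne')
      · exact h4) (cellSch ρ ⟨f, hf⟩) (fun x hx => hfS x fun h => hx (hSR h)) (by
      have h1 : Tendsto (fun y : Matrix (Fin m) (Fin m) E => (pel 1 1 y : GL (Fin (2 * m)) E))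
          (𝓝 0) (𝓝 1) := by
        have := continuous_pel_one (E := E) (m := m) |>.tendsto 0
        rwa [pel_one] at this
      filter_upwards [h1.eventually f.2.2] with y hy x
      show (f : GL (Fin (2 * m)) E → W) (wu (x + y)) = (f : GL (Fin (2 * m)) E → W) (wu x)
      rw [← wu_mul_pel, hy]) h0
  have h1 : ∑ i, indAct ρ (pel 1 1 (y i)) f = 0 := by
    refine cellRes_inj (Submodule.sum_mem _ fun i _ => indAct_cellSub _ _ _ hf) ?_
    funext x
    rw [map_sum, Finset.sum_apply]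
    refine (Finset.sum_congr rfl fun i _ => ?_).trans (hy x)
    show (f : GL (Fin (2 * m)) E → W) (wu x * pel 1 1 (y i)) =
      (f : GL (Fin (2 * m)) E → W) (wu (x + y i))
    rw [wu_mul_pel]
  have h2 : ∑ i : ι, (indAct ρ (pel 1 1 (y i)) f - f) ∈
      cvN (indAct ρ) (Nk (2 * m) m E) (⊤ : Submodule ℂ (Ind ρ)) :=
    Submodule.sum_mem _ fun i _ => Submodule.subset_span
      ⟨_, pel_mem_Nk (y i), f, Submodule.mem_top, rfl⟩
  rw [Finset.sum_sub_distrib, h1, Finset.sum_const, zero_sub, Finset.card_univ,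
    neg_mem_iff, ← Nat.cast_smul_eq_nsmul ℂ] at h2
  have h3 : ((Fintype.card ι : ℕ) : ℂ) ≠ 0 := by
    exact_mod_cast Fintype.card_ne_zero
  have h4 := Submodule.smul_mem _ ((Fintype.card ι : ℕ) : ℂ)⁻¹ h2
  rwa [smul_smul, inv_mul_cancel₀ h3, one_smul] at h4

variable [MeasurableSpace E] [BorelSpace E]

/-- Equivariance of the integral. -/
theorem mint_act {f : Ind ρ} (hf : f ∈ cellSub ρ) (a d : GL (Fin m) E)
    (b : Matrix (Fin m) (Fin m) E) :
    mint E m W (cellSch ρ ⟨indAct ρ (pel a d b) f, indAct_cellSub a d b hf⟩) =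
      ((ad a ^ (m : ℝ) * ad d ^ (-(m : ℝ)) : ℝ) : ℂ) • ρ (d, a) (mint E m W (cellSch ρ ⟨f, hf⟩)) := by
  let ψ₁ : Sch (Matrix (Fin m) (Fin m) E) W := ⟨_, sch_mulBoth_mem (cellRes_mem hf) a d⟩
  let ψ₂ : Sch (Matrix (Fin m) (Fin m) E) W := ⟨_, sch_translate_mem ψ₁.2
    (b * ((d⁻¹ : GL (Fin m) E) : Matrix (Fin m) (Fin m) E))⟩
  have h1 : mint E m W ψ₁ = ((ad a ^ (m : ℝ) * ad d ^ (-(m : ℝ)) : ℝ) : ℂ) •
      mint E m W (cellSch ρ ⟨f, hf⟩) := mint_mul _ _ a d fun x => rfl
  have h2 : mint E m W ψ₂ = mint E m W ψ₁ := mint_translate _ _ _ fun x => rfl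
  have h3 : mint E m W (cellSch ρ ⟨indAct ρ (pel a d b) f, indAct_cellSub a d b hf⟩) =
      ρ (d, a) (mint E m W ψ₂) := by
    refine mint_congr_map _ _ _ fun x => ?_
    show cellRes ρ (indAct ρ (pel a d b) f) x = ρ (d, a) (cellRes ρ f
      (((a⁻¹ : GL (Fin m) E) : Matrix (Fin m) (Fin m) E) *
        (x + b * ((d⁻¹ : GL (Fin m) E) : Matrix (Fin m) (Fin m) E)) *
          (d : Matrix (Fin m) (Fin m) E)))
    rw [cellRes_act]
    congr 2
    rw [mul_assoc, add_mul, mul_assoc b, ← Units.val_mul, inv_mul_cancel, Units.val_one, mul_one,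
      add_comm]
  rw [h3, h2, h1, map_smul]

/-- R7a, from the exactness of the coinvariants. -/
theorem open_cell_of (hρ : IsSmoothRep ρ)
    (hex : cellSub ρ ⊓ cvN (indAct ρ) (Nk (2 * m) m E) ⊤ ≤
      cvN (indAct ρ) (Nk (2 * m) m E) (cellSub ρ)) :
    ∃ κ : Ind ρ →ₗ[ℂ] W,
      (∀ (a d : GL (Fin m) E) (b : Matrix (Fin m) (Fin m) E) (f : Ind ρ),
        (∀ g, (f : GL (Fin (2 * m)) E → W) g ≠ 0 →
          IsUnit (lowL (g : Matrix (Fin (2 * m)) (Fin (2 * m)) E)).det) →
        κ (indAct ρ (pel a d b) f) =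
          ((ad a ^ (m : ℝ) * ad d ^ (-(m : ℝ)) : ℝ) : ℂ) • ρ (d, a) (κ f)) ∧
      (∀ w, ∃ f : Ind ρ, (∀ g, (f : GL (Fin (2 * m)) E → W) g ≠ 0 →
          IsUnit (lowL (g : Matrix (Fin (2 * m)) (Fin (2 * m)) E)).det) ∧ κ f = w) ∧
      ∀ f : Ind ρ, (∀ g, (f : GL (Fin (2 * m)) E → W) g ≠ 0 →
          IsUnit (lowL (g : Matrix (Fin (2 * m)) (Fin (2 * m)) E)).det) →
        (κ f = 0 ↔ f ∈ cvN (indAct ρ) (Nk (2 * m) m E) ⊤) := by
  obtain ⟨κ, hκ⟩ := LinearMap.exists_extend ((mint E m W).comp (cellSch ρ))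
  have hκf : ∀ f (hf : f ∈ cellSub ρ), κ f = mint E m W (cellSch ρ ⟨f, hf⟩) := fun f hf =>
    LinearMap.congr_fun hκ ⟨f, hf⟩
  have hact : ∀ (a d : GL (Fin m) E) (b : Matrix (Fin m) (Fin m) E) (f : Ind ρ), f ∈ cellSub ρ →
      κ (indAct ρ (pel a d b) f) =
          ((ad a ^ (m : ℝ) * ad d ^ (-(m : ℝ)) : ℝ) : ℂ) • ρ (d, a) (κ f) := by
    intro a d b f hf
    rw [hκf _ (indAct_cellSub a d b hf), hκf f hf, mint_act hf]
  refine ⟨κ, hact, fun w => ?_, fun f hf => ⟨fun h => ?_, fun h => ?_⟩⟩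
  · obtain ⟨φ, hφ⟩ := exists_mint (E := E) (m := m) w
    obtain ⟨f, hf, h1⟩ := exists_cellRes hρ φ.2
    refine ⟨f, hf, ?_⟩
    rw [hκf f hf, ← hφ]
    congr 1
    exact Subtype.ext h1
  · rw [hκf f hf] at h
    exact mem_cvN_of_mint hf h
  · have h1 := hex ⟨hf, h⟩
    refine Submodule.span_induction (p := fun x _ => κ x = 0) ?_ (map_zero κ) ?_ ?_ h1
    · rintro x ⟨n, hn, v, hv, rfl⟩
      obtain ⟨b, rfl⟩ := exists_pel_of_mem_Nk hn
      rw [map_sub, hact 1 1 b v hv, ad_one]
      have h2 : ρ ((1 : GL (Fin m) E), (1 : GL (Fin m) E)) = 1 := map_one ρ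
      rw [h2]
      simp
    · intro x y _ _ hx hy
      rw [map_add, hx, hy, add_zero]
    · intro c x _ hx
      rw [map_smul, hx, smul_zero]

end main

end SpW
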