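import Pool.Agent.Work.MP_3615d2_al.MainB

/-!
MP_3615d2_al, Part 1: `πν^{1/2} × πν^{-1/2}` is reducible (every `m`), and the coinvariants of the
kernel `D` of an irreducible quotient: they are exactly the evaluation part.
-/

open MeasureTheory Matrix Filter Topology
open scoped NNReal TensorProduct

namespace SpW

section abs

variable {G : Type*} [Group G] {P U : Subgroup G}
  {Vp Vm Wp Wm S Sg : Type*}
  [AddCommGroup Vp] [Module ℂ Vp] [AddCommGroup Vm] [Module ℂ Vm]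
  [AddCommGroup Wp] [Module ℂ Wp] [AddCommGroup Wm] [Module ℂ Wm]
  [AddCommGroup S] [Module ℂ S] [AddCommGroup Sg] [Module ℂ Sg]
  {ρp : G →* Module.End ℂ Vp} {ρm : G →* Module.End ℂ Vm}
  {τp : P →* Module.End ℂ Wp} {τm : P →* Module.End ℂ Wm}
  {ep : Vp →ₗ[ℂ] Wp} {ep' : Vp →ₗ[ℂ] Wm} {em : Vm →ₗ[ℂ] Wm} {em' : Vm →ₗ[ℂ] Wp}

/-- The kernel of an irreducible quotient is killed by the second projection. -/
theorem JacDatum.ker_le (hp : JacDatum P U ρp τp τm ep ep')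
    {ρσ : G →* Module.End ℂ Sg} (hσ : IsIrrep ρσ) (q : Vp →ₗ[ℂ] Sg)
    (hq : ∀ g v, q (ρp g v) = ρσ g (q v)) (hqs : Function.Surjective q) :
    LinearMap.ker q ≤ LinearMap.ker ep' := by
  have hN : StableUnder ρp (LinearMap.ker q) := by
    intro g v hv
    rw [LinearMap.mem_ker] at hv ⊢
    rw [hq, hv, map_zero]
  intro v hv
  rw [LinearMap.mem_ker]
  by_contra hne
  have htop := hp.eq_top hN ⟨v, hv, hne⟩
  obtain ⟨x, hx⟩ := hσ.ne
  obtain ⟨y, rfl⟩ := hqs x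
  have : y ∈ LinearMap.ker q := by rw [htop]; trivial
  exact hx this

/-- `V_{1/2}` is not irreducible. -/
theorem ker_ne_bot_of (hp : JacDatum P U ρp τp τm ep ep') (hm : JacDatum P U ρm τm τp em em')
    (hep : ∀ v ∈ coinvOf ρp U ⊤, ep v = 0)
    (ρS : G →* Module.End ℂ S) (Ψ : S →ₗ[ℂ] Vm) (hΨ : ∀ g s, Ψ (ρS g s) = ρm g (Ψ s)) (hΨ0 : Ψ ≠ 0)
    (hII : ∀ T : S →ₗ[ℂ] Vp, (∀ g s, T (ρS g s) = ρp g (T s)) → T = 0)
    (ρσ : G →* Module.End ℂ Sg) (hσ : IsIrrep ρσ) (q : Vp →ₗ[ℂ] Sg)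
    (hq : ∀ g v, q (ρp g v) = ρσ g (q v)) (hqs : Function.Surjective q)
    (hFrm : ∀ φ : Sg →ₗ[ℂ] Wm, (∀ (p : P) v, φ (ρσ p v) = τm p (φ v)) →
      ∃ T : Sg →ₗ[ℂ] Vm, (∀ g v, T (ρσ g v) = ρm g (T v)) ∧ ∀ v, em (T v) = φ v) :
    LinearMap.ker q ≠ ⊥ := by
  intro hbot
  have hqi : Function.Injective q := LinearMap.ker_eq_bot.1 hbot
  have hNe := hp.ker_le hσ q hq hqs
  let eq := LinearEquiv.ofBijective q ⟨hqi, hqs⟩
  have heq : ∀ v, eq v = q v := fun _ => rfl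
  obtain ⟨F, hF, hFe⟩ := hFrm (ep'.comp eq.symm.toLinearMap) (fun p x => by
    obtain ⟨v, rfl⟩ := hqs x
    show ep' (eq.symm (ρσ p (q v))) = τm p (ep' (eq.symm (q v)))
    rw [← hq, ← heq, ← heq, LinearEquiv.symm_apply_apply, LinearEquiv.symm_apply_apply, hp.equiv'])
  have hFe' : ∀ v, em (F (q v)) = ep' v := by
    intro v
    rw [hFe]
    show ep' (eq.symm (q v)) = ep' v
    rw [← heq, LinearEquiv.symm_apply_apply]
  -- `F` is injective
  have hFinj : LinearMap.ker F = ⊥ := by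
    refine (hσ.irr _ ?_).resolve_right ?_
    · intro g v hv
      rw [LinearMap.mem_ker] at hv ⊢
      rw [hF, hv, map_zero]
    · intro htop
      obtain ⟨w, hw⟩ := hp.irr'.ne
      obtain ⟨v, hv1, hv2⟩ := hp.surj 0 w
      have h1 : F (q v) = 0 := by
        have : q v ∈ LinearMap.ker F := by rw [htop]; trivial
        exact this
      have h2 := hFe' v
      rw [h1, map_zero, hv2] at h2
      exact hw h2.symm
  have hFi : Function.Injective F := LinearMap.ker_eq_bot.1 hFinj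
  have hA : StableUnder ρm (LinearMap.range F) := by
    rintro g _ ⟨s, rfl⟩
    exact ⟨ρσ g s, hF g s⟩
  -- `F` is surjective
  have htop : LinearMap.range F = ⊤ := by
    refine hm.eq_top hA ?_
    by_contra hcon
    push Not at hcon
    obtain ⟨w, hw⟩ := hp.irr.ne
    obtain ⟨v, hv1, hv2⟩ := hp.surj w 0
    have h1 : F (q v) ∈ coinvOf ρm U ⊤ := by
      refine hm.ker _ ?_ (hcon _ ⟨_, rfl⟩)
      rw [hFe', hv2]
    have h2 := hm.exact _ hA _ ⟨_, rfl⟩ h1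
    have h3 : ∀ x ∈ coinvOf ρm U (LinearMap.range F), ∃ y ∈ coinvOf ρp U ⊤, F (q y) = x := by
      intro x hx
      refine Submodule.span_induction ?_ ?_ ?_ ?_ hx
      · rintro _ ⟨u, hu, _, ⟨y, rfl⟩, rfl⟩
        obtain ⟨z, rfl⟩ := hqs y
        refine ⟨ρp u z - z, Submodule.subset_span ⟨u, hu, z, trivial, rfl⟩, ?_⟩
        rw [map_sub, map_sub, hq, hF]
      · exact ⟨0, Submodule.zero_mem _, by rw [map_zero, map_zero]⟩
      · rintro _ _ - - ⟨y, hy, rfl⟩ ⟨z, hz, rfl⟩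
        exact ⟨y + z, Submodule.add_mem _ hy hz, by rw [map_add, map_add]⟩
      · rintro c _ - ⟨y, hy, rfl⟩
        exact ⟨c • y, Submodule.smul_mem _ _ hy, by rw [map_smul, map_smul]⟩
    obtain ⟨y, hy, hyv⟩ := h3 _ h2
    have h4 : y = v := hqi (hFi hyv)
    subst h4
    rw [hep _ hy] at hv1
    exact hw hv1.symm
  have hFs : Function.Surjective F := LinearMap.range_eq_top.1 htop
  let eF := LinearEquiv.ofBijective F ⟨hFi, hFs⟩
  have heF : ∀ v, eF v = F v := fun _ => rfl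
  let T : S →ₗ[ℂ] Vp := eq.symm.toLinearMap.comp (eF.symm.toLinearMap.comp Ψ)
  have hT : ∀ s, F (q (T s)) = Ψ s := by
    intro s
    show F (q (eq.symm (eF.symm (Ψ s)))) = Ψ s
    rw [← heq, LinearEquiv.apply_symm_apply, ← heF, LinearEquiv.apply_symm_apply]
  have hT0 := hII T (fun g s => by
    apply hqi
    apply hFi
    rw [hT, hΨ, hq, hF, hT])
  apply hΨ0
  apply LinearMap.ext
  intro s
  rw [← hT, hT0]
  simp

end abs

section main

variable {E : Type} [NontriviallyNormedField E] [IsUltrametricDist E] [ProperSpace E]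
  [MeasurableSpace E] [BorelSpace E] {m : ℕ} {V W : Type} [AddCommGroup V] [Module ℂ V]
  [AddCommGroup W] [Module ℂ W]

omit [IsUltrametricDist E] [ProperSpace E] [MeasurableSpace E] [BorelSpace E] in
theorem ev1_coinv (ρ : (GL (Fin m) E × GL (Fin m) E) →* Module.End ℂ W) (f : Ind ρ)
    (hf : f ∈ cvN (indAct ρ) (Nk (2 * m) m E) ⊤) : ev1 ρ f = 0 := by
  refine Submodule.span_induction (p := fun f _ => ev1 ρ f = 0) ?_ ?_ ?_ ?_ hf
  · rintro _ ⟨u, hu, v, -, rfl⟩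
    obtain ⟨b, rfl⟩ := exists_pel_of_mem_Nk hu
    rw [map_sub, ev1_pel]
    show ρ 1 (ev1 ρ v) - ev1 ρ v = 0
    rw [map_one]
    exact sub_self _
  · exact map_zero _
  · intro x y _ _ hx hy
    rw [map_add, hx, hy, add_zero]
  · intro c x _ hx
    rw [map_smul, hx, smul_zero]

/-- **Reducibility of `πν^{1/2} × πν^{-1/2}`**: the kernel of every irreducible quotient is
nonzero. -/
theorem ker_quot_ne_bot (hm : 0 < m) (h2 : (2 : E) ≠ 0) (ψ : AddChar E Circle) (hψ : Continuous ψ)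
    (hψ1 : ψ ≠ 1) {π : GL (Fin m) E →* Module.End ℂ V}
    (hπ : IsSmoothRep π) (hirr : IsIrrRep π) (hc : IsCusp π) (hu : UnitCentral π)
    {σ : GL (Fin (2 * m)) E →* Module.End ℂ W} (hσ : IsIrrRep σ)
    (q : Ind (rho π (((m : ℝ) + 1) / 2)) →ₗ[ℂ] W) (hq : Function.Surjective q)
    (hqG : ∀ g f, q (indAct (rho π (((m : ℝ) + 1) / 2)) g f) = σ g (q f)) :
    LinearMap.ker q ≠ ⊥ := by
  have := hirr.nontrivial
  have h4a : ∀ φ : Sch (Alt (2 * m) E) ℂ →ₗ[ℂ] V ⊗[ℂ] V,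
      (∀ a d b f f', IsTransl (pel a d b) f f' →
        φ f' = rho π (((m : ℝ) + 1) / 2) (a, d) (φ f)) → φ = 0 := fun φ hφ =>
    closed_kill hm h2 hπ hu φ hφ fun f hf =>
      whit_middle h2 hψ hψ1 hπ hc _ (rho_irr hπ hirr hc hu _) φ hφ f hf
  obtain ⟨ep', hp⟩ := jacDatum hm hπ hirr hc hu (s := ((m : ℝ) + 1) / 2)
    (s' := ((m : ℝ) - 1) / 2) (by intro h; linarith) (by ring)
  obtain ⟨em', hmm⟩ := jacDatum hm hπ hirr hc hu (s := ((m : ℝ) - 1) / 2)
    (s' := ((m : ℝ) + 1) / 2) (by intro h; linarith) (by ring)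
  obtain ⟨φ, hφ0, hφ⟩ := alt_hom_exists hm h2 hπ hirr hc hu
  obtain ⟨Ψ, hΨ, hΨ1⟩ := exists_frob (rho π (((m : ℝ) - 1) / 2)) (altRep (2 * m) E) altRep_smooth φ
    (fun a d b v => hφ a d b v _ ((isTransl_iff _ _ _).2 rfl))
  have hσs : IsSmoothRep σ := by
    intro w
    obtain ⟨f, rfl⟩ := hq w
    filter_upwards [ind_smooth _ f] with g hg
    rw [← hqG, hg]
  have hσ' : IsIrrep σ := by
    obtain ⟨x, hx⟩ := @exists_ne _ hσ.nontrivial 0
    exact ⟨⟨x, hx⟩, fun A hA => hσ.irr A hA⟩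
  refine ker_ne_bot_of hp hmm (fun v hv => ev1_coinv _ v ?_) (altRep (2 * m) E) Ψ hΨ (by
      rintro rfl
      apply hφ0
      apply LinearMap.ext
      intro v
      rw [← hΨ1]
      rfl) (by
      intro T hT
      have h5 := h4a ((ev1 _).comp T) (by
        intro a d b f f' hff
        rw [(isTransl_iff _ _ _).1 hff, LinearMap.comp_apply, hT, ev1_pel]
        rfl)
      apply LinearMap.ext
      intro f
      refine ind_ext_one _ _ fun g => ?_
      rw [← hT]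
      exact LinearMap.congr_fun h5 (altRep (2 * m) E g f)) σ hσ' q hqG hq (by
      intro φ hφ
      obtain ⟨T, hT, hT1⟩ := exists_frob (rho π (((m : ℝ) - 1) / 2)) σ hσs φ (by
          intro a d b v
          have h6 := hφ ⟨pel a d b, a, d, b, rfl⟩ v
          rwa [MonoidHom.comp_apply, leviM_pel _ rfl] at h6)
      exact ⟨T, hT, hT1⟩)
  refine Submodule.span_mono ?_ hv
  rintro x ⟨n, hn, v, hv, rfl⟩
  exact ⟨n, hn, v, hv, rfl⟩

/-- The coinvariants of the kernel `D` of an irreducible quotient `q` of `πν^{1/2} × πν^{-1/2}`: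
`D` is killed by the second projection `e'`, the evaluation at `1` maps `D` onto `V ⊗ V`, its kernel
on `D` is `D(N)`, and the coinvariants of `D` for the other radicals vanish. -/
theorem ker_quot_coinv (hm : 0 < m) (h2 : (2 : E) ≠ 0) (ψ : AddChar E Circle) (hψ : Continuous ψ)
    (hψ1 : ψ ≠ 1) {π : GL (Fin m) E →* Module.End ℂ V}
    (hπ : IsSmoothRep π) (hirr : IsIrrRep π) (hc : IsCusp π) (hu : UnitCentral π) :
    ∃ e' : Ind (rho π (((m : ℝ) + 1) / 2)) →ₗ[ℂ] V ⊗[ℂ] V,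
      (∀ a d b f, e' (indAct (rho π (((m : ℝ) + 1) / 2)) (pel a d b) f) =
        rho π (((m : ℝ) - 1) / 2) (a, d) (e' f)) ∧
      (∀ w w', ∃ f : Ind (rho π (((m : ℝ) + 1) / 2)), ev1 _ f = w ∧ e' f = w') ∧
      (∀ f, ev1 _ f = 0 → e' f = 0 →
        f ∈ cvN (indAct (rho π (((m : ℝ) + 1) / 2))) (Nk (2 * m) m E) ⊤) ∧
      ∀ {W : Type} [AddCommGroup W] [Module ℂ W] {σ : GL (Fin (2 * m)) E →* Module.End ℂ W}
        (_ : IsIrrRep σ) (q : Ind (rho π (((m : ℝ) + 1) / 2)) →ₗ[ℂ] W)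
        (_ : Function.Surjective q)
        (_ : ∀ g f, q (indAct (rho π (((m : ℝ) + 1) / 2)) g f) = σ g (q f)),
        (∀ f, q f = 0 → e' f = 0) ∧
        (∀ w, ∃ f, q f = 0 ∧ ev1 _ f = w) ∧
        (∀ f, q f = 0 → ev1 _ f = 0 →
          f ∈ cvN (indAct (rho π (((m : ℝ) + 1) / 2))) (Nk (2 * m) m E) (LinearMap.ker q)) ∧
        ∀ k, 0 < k → k < 2 * m → k ≠ m → ∀ f, q f = 0 →
          f ∈ cvN (indAct (rho π (((m : ℝ) + 1) / 2))) (Nk (2 * m) k E) (LinearMap.ker q) := by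
  obtain ⟨e', hp⟩ := jacDatum hm hπ hirr hc hu (s := ((m : ℝ) + 1) / 2)
    (s' := ((m : ℝ) - 1) / 2) (by intro h; linarith) (by ring)
  refine ⟨e', ?_, hp.surj, ?_, ?_⟩
  · intro a d b f
    have h6 := hp.equiv' ⟨pel a d b, a, d, b, rfl⟩ f
    rwa [MonoidHom.comp_apply, leviM_pel _ rfl] at h6
  · intro f h1 h2
    refine Submodule.span_mono ?_ (hp.ker f h1 h2)
    rintro x ⟨n, hn, v, hv, rfl⟩
    exact ⟨n, hn, v, hv, rfl⟩
  · intro W _ _ σ hσ q hq hqG
    have hbot := ker_quot_ne_bot hm h2 ψ hψ hψ1 hπ hirr hc hu hσ q hq hqG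
    have hσ' : IsIrrep σ := by
      obtain ⟨x, hx⟩ := @exists_ne _ hσ.nontrivial 0
      exact ⟨⟨x, hx⟩, fun A hA => hσ.irr A hA⟩
    have hst : StableUnder (indAct (rho π (((m : ℝ) + 1) / 2))) (LinearMap.ker q) := by
      intro g v hv
      rw [LinearMap.mem_ker] at hv ⊢
      rw [hqG, hv, map_zero]
    have hle := hp.ker_le hσ' q hqG hq
    refine ⟨fun f hf => hle hf, fun w => ?_, fun f hf hf1 => ?_, fun k hk0 hk hkm f hf => ?_⟩
    · obtain ⟨f, hf, h, -⟩ := hp.lift_left hst hbot w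
      exact ⟨f, hf, h⟩
    · refine Submodule.span_mono ?_ (hp.exact _ hst f hf (hp.ker f hf1 (hle hf)))
      rintro x ⟨n, hn, v, hv, rfl⟩
      exact ⟨n, hn, v, hv, rfl⟩
    · have hcusp := fun k hk0 hk => rho_cusp (m := m) hc (((m : ℝ) + 1) / 2) k hk0 hk
      have h3 := ind_coinv_ne (rho π (((m : ℝ) + 1) / 2)) (rho_smooth hπ _)
        (fun k hk0 hk => (hcusp k hk0 hk).1) (fun k hk0 hk => (hcusp k hk0 hk).2) hk0 hk hkm
      have h4 := cvN_exact (A := LinearMap.ker q) (B := ⊤)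
        (ind_smooth (rho π (((m : ℝ) + 1) / 2))) (Nk_union (2 * m) k) le_top
        (fun n _ v hv => hst n v hv) (fun n _ v hv => Submodule.mem_top)
      rw [← h4, h3]
      exact ⟨hf, Submodule.mem_top⟩

end main

end SpW
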