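import Pool.Agent.Work.MP_3615d2_al.GeoC

/-!
MP_3615d2_al, Theorem B, module R6: the point `pt1` (cuspidality in the upper block).
-/

open Filter Topology

set_option linter.unusedSectionVars false

namespace SpW

section field

variable {E : Type} [Field E] {m : ℕ}

/-- the vectors supported on the first `a` coordinates -/
def stdA (m a : ℕ) (E : Type) [Field E] : Submodule E (Fin m → E) where
  carrier := {v | ∀ i, a ≤ i.1 → v i = 0}
  add_mem' := by
    intro v w hv hw i hi
    rw [Pi.add_apply, hv i hi, hw i hi, add_zero]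
  zero_mem' := fun _ _ => rfl
  smul_mem' := by
    intro c v hv i hi
    rw [Pi.smul_apply, hv i hi, smul_zero]

theorem mem_stdA {a : ℕ} {v : Fin m → E} : v ∈ stdA m a E ↔ ∀ i : Fin m, a ≤ i.1 → v i = 0 :=
  Iff.rfl

theorem finrank_stdA {a : ℕ} (ha : a ≤ m) : Module.finrank E (stdA m a E) = a := by
  let e : stdA m a E ≃ₗ[E] (Fin a → E) :=
    { toFun := fun v i => v.1 (Fin.castLE ha i)
      map_add' := fun v w => rfl
      map_smul' := fun c v => rfl
      invFun := fun x => ⟨fun i => if h : i.1 < a then x ⟨i.1, h⟩ else 0, fun i hi => by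
        show (if h : i.1 < a then x ⟨i.1, h⟩ else 0) = 0
        rw [dif_neg (by omega)]⟩
      left_inv := by
        intro v
        apply Subtype.ext
        funext i
        show (if h : i.1 < a then v.1 (Fin.castLE ha ⟨i.1, h⟩) else 0) = v.1 i
        by_cases h : i.1 < a
        · rw [dif_pos h]
          rfl
        · rw [dif_neg h]
          exact (v.2 i (by omega)).symm
      right_inv := by
        intro x
        funext i
        show (if h : (Fin.castLE ha i).1 < a then x ⟨(Fin.castLE ha i).1, h⟩ else 0) = x i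
        rw [dif_pos (by simp)]
        rfl }
  rw [e.finrank_eq, Module.finrank_fintype_fun_eq_card, Fintype.card_fin]

/-- every subspace is the image of a standard one under an element of `GL` -/
theorem exists_gl_map (A : Submodule E (Fin m → E)) : ∃ h : GL (Fin m) E, ∀ v : Fin m → E,
    (h : Matrix (Fin m) (Fin m) E).mulVec v ∈ A ↔
      ∀ i : Fin m, Module.finrank E A ≤ i.1 → v i = 0 := by
  classical
  set a := Module.finrank E A with ha
  have ham : a ≤ m := by
    have := A.finrank_le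
    rwa [Module.finrank_fintype_fun_eq_card, Fintype.card_fin] at this
  obtain ⟨B, hB⟩ := A.exists_isCompl
  obtain ⟨C, hC⟩ := (stdA m a E).exists_isCompl
  have h1 : Module.finrank E (stdA m a E) = Module.finrank E A := by rw [finrank_stdA ham, ha]
  have h2 : Module.finrank E C = Module.finrank E B := by
    have h3 := Submodule.finrank_add_eq_of_isCompl hB
    have h4 := Submodule.finrank_add_eq_of_isCompl hC
    omega
  let e₁ : stdA m a E ≃ₗ[E] A := LinearEquiv.ofFinrankEq _ _ h1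
  let e₂ : C ≃ₗ[E] B := LinearEquiv.ofFinrankEq _ _ h2
  let e : (Fin m → E) ≃ₗ[E] (Fin m → E) :=
    ((Submodule.prodEquivOfIsCompl _ _ hC).symm.trans (LinearEquiv.prodCongr e₁ e₂)).trans
      (Submodule.prodEquivOfIsCompl _ _ hB)
  have he : ∀ v ∈ stdA m a E, e v ∈ A := by
    intro v hv
    have h5 : (Submodule.prodEquivOfIsCompl _ _ hC).symm v = (⟨v, hv⟩, 0) := by
      rw [LinearEquiv.symm_apply_eq]
      simp
    show (Submodule.prodEquivOfIsCompl _ _ hB) (LinearEquiv.prodCongr e₁ e₂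
      ((Submodule.prodEquivOfIsCompl _ _ hC).symm v)) ∈ A
    rw [h5]
    simp
  have hmap : (stdA m a E).map (e : (Fin m → E) →ₗ[E] (Fin m → E)) = A := by
    apply Submodule.eq_of_le_of_finrank_le
    · rintro _ ⟨v, hv, rfl⟩
      exact he v hv
    · rw [LinearEquiv.finrank_map_eq, h1]
  refine ⟨⟨LinearMap.toMatrix' (e : (Fin m → E) →ₗ[E] (Fin m → E)),
    LinearMap.toMatrix' (e.symm : (Fin m → E) →ₗ[E] (Fin m → E)), ?_, ?_⟩, ?_⟩
  · rw [← LinearMap.toMatrix'_comp]
    simp
  · rw [← LinearMap.toMatrix'_comp]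
    simp
  · intro v
    show (LinearMap.toMatrix' (e : (Fin m → E) →ₗ[E] (Fin m → E))).mulVec v ∈ A ↔ v ∈ stdA m a E
    rw [LinearMap.toMatrix'_mulVec]
    constructor
    · intro h
      rw [← hmap] at h
      obtain ⟨v', hv', h6⟩ := h
      have h7 : v' = v := e.injective h6
      rwa [← h7]
    · exact he v

end field

section

variable {E : Type} [NontriviallyNormedField E] {m : ℕ}

/-- the upper rows of the first `k` columns -/
def upK (k : ℕ) (g : Matrix (Fin (2 * m)) (Fin (2 * m)) E) :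
    Matrix (Fin m) {j : Fin (2 * m) // j.1 < k} E :=
  fun i j => g (sI m (Sum.inl i)) j.1

/-- extension by zero -/
def extK {k : ℕ} (x : {j : Fin (2 * m) // j.1 < k} → E) : Fin (2 * m) → E :=
  fun j => if h : j.1 < k then x ⟨j, h⟩ else 0

theorem sum_extK {k : ℕ} (r : Fin (2 * m) → E) (x : {j : Fin (2 * m) // j.1 < k} → E) :
    ∑ j, r j * extK x j = ∑ j : {j : Fin (2 * m) // j.1 < k}, r j.1 * x j := by
  have h1 : ∑ j ∈ Finset.univ.filter (fun j : Fin (2 * m) => j.1 < k), r j * extK x j =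
      ∑ j : {j : Fin (2 * m) // j.1 < k}, r j.1 * extK x j.1 :=
    Finset.sum_subtype (Finset.univ.filter fun j : Fin (2 * m) => j.1 < k)
      (p := fun j : Fin (2 * m) => j.1 < k) (by simp) (fun j => r j * extK x j)
  have h2 : ∑ j : {j : Fin (2 * m) // j.1 < k}, r j.1 * x j =
      ∑ j : {j : Fin (2 * m) // j.1 < k}, r j.1 * extK x j.1 := by
    apply Finset.sum_congr rfl
    intro j _
    rw [extK, dif_pos j.2]
  rw [h2, ← h1, Finset.sum_filter]
  apply Finset.sum_congr rfl
  intro j _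
  split_ifs with h
  · rfl
  · rw [extK, dif_neg h, mul_zero]

theorem mulVec_extK_inl {k : ℕ} (g : Matrix (Fin (2 * m)) (Fin (2 * m)) E)
    (x : {j : Fin (2 * m) // j.1 < k} → E) (i : Fin m) :
    g.mulVec (extK x) (sI m (Sum.inl i)) = (upK k g).mulVec x i :=
  sum_extK (g (sI m (Sum.inl i))) x

theorem mulVec_extK_inr {k : ℕ} (g : Matrix (Fin (2 * m)) (Fin (2 * m)) E)
    (x : {j : Fin (2 * m) // j.1 < k} → E) (i : Fin m) :
    g.mulVec (extK x) (sI m (Sum.inr i)) = (lowK k g).mulVec x i :=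
  sum_extK (g (sI m (Sum.inr i))) x

theorem bm_mulVec_inl (a b c d : Matrix (Fin m) (Fin m) E) (v : Fin (2 * m) → E) (i : Fin m) :
    (bm a b c d).mulVec v (sI m (Sum.inl i)) =
      (a.mulVec (fun j => v (sI m (Sum.inl j))) + b.mulVec (fun j => v (sI m (Sum.inr j)))) i := by
  rw [Matrix.mulVec, dotProduct, ← (sI m).sum_comp, Fintype.sum_sum_type]
  simp [bm, Matrix.mulVec, dotProduct]

theorem bm_mulVec_inr (a b c d : Matrix (Fin m) (Fin m) E) (v : Fin (2 * m) → E) (i : Fin m) :
    (bm a b c d).mulVec v (sI m (Sum.inr i)) =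
      (c.mulVec (fun j => v (sI m (Sum.inl j))) + d.mulVec (fun j => v (sI m (Sum.inr j)))) i := by
  rw [Matrix.mulVec, dotProduct, ← (sI m).sum_comp, Fintype.sum_sum_type]
  simp [bm, Matrix.mulVec, dotProduct]

theorem ext_sI {v w : Fin (2 * m) → E} (h1 : ∀ i, v (sI m (Sum.inl i)) = w (sI m (Sum.inl i)))
    (h2 : ∀ i, v (sI m (Sum.inr i)) = w (sI m (Sum.inr i))) : v = w := by
  funext j
  obtain ⟨i, rfl⟩ := (sI m).surjective j
  rcases i with i | i
  · exact h1 i
  · exact h2 i

/-- the kernel of the lower block embeds by the upper block -/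
theorem upK_injOn {k : ℕ} (g : GL (Fin (2 * m)) E) {x : {j : Fin (2 * m) // j.1 < k} → E}
    (h1 : (lowK k (g : Matrix (Fin (2 * m)) (Fin (2 * m)) E)).mulVec x = 0)
    (h2 : (upK k (g : Matrix (Fin (2 * m)) (Fin (2 * m)) E)).mulVec x = 0) : x = 0 := by
  have h0 : Function.Injective (g : Matrix (Fin (2 * m)) (Fin (2 * m)) E).mulVec :=
    (Matrix.mulVec_injective_iff_isUnit).2 (Units.isUnit g)
  have h3 : (g : Matrix (Fin (2 * m)) (Fin (2 * m)) E).mulVec (extK x) = 0 := by
    apply ext_sI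
    · intro i
      rw [mulVec_extK_inl, h2]
      rfl
    · intro i
      rw [mulVec_extK_inr, h1]
      rfl
  have h4 : extK x = 0 := h0 (by rw [h3, Matrix.mulVec_zero])
  funext j
  have h5 := congrFun h4 j.1
  rw [extK, dif_pos j.2] at h5
  exact h5

/-- the space `A`: the image under the upper block of the kernel of the lower block -/
noncomputable def spA (k : ℕ) (g : GL (Fin (2 * m)) E) : Submodule E (Fin m → E) :=
  (LinearMap.ker (lowK k (g : Matrix (Fin (2 * m)) (Fin (2 * m)) E)).mulVecLin).map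
    (upK k (g : Matrix (Fin (2 * m)) (Fin (2 * m)) E)).mulVecLin

theorem finrank_spA {k : ℕ} (hk : k ≤ 2 * m) (g : GL (Fin (2 * m)) E) :
    Module.finrank E (spA k g) + rkK k g = k := by
  have h1 := finrank_ker_add_rank (lowK k (g : Matrix (Fin (2 * m)) (Fin (2 * m)) E))
  have h2 : Module.finrank E (spA k g) =
      Module.finrank E (LinearMap.ker
        (lowK k (g : Matrix (Fin (2 * m)) (Fin (2 * m)) E)).mulVecLin) := by
    have hinj : Function.Injective ((upK k (g : Matrix (Fin (2 * m)) (Fin (2 * m)) E)).mulVecLin ∘ₗ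
        (LinearMap.ker (lowK k (g : Matrix (Fin (2 * m)) (Fin (2 * m)) E)).mulVecLin).subtype) := by
      rw [injective_iff_map_eq_zero]
      intro x hx
      exact Subtype.ext (upK_injOn g x.2 hx)
    have h3 := LinearMap.finrank_range_of_inj hinj
    rw [← h3, LinearMap.range_comp, Submodule.range_subtype]
    rfl
  have h3 : Fintype.card {j : Fin (2 * m) // j.1 < k} = k := by
    rw [Fintype.card_subtype]
    have : (Finset.univ.filter fun j : Fin (2 * m) => j.1 < k).card =
        (Finset.range k).card := by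
      apply Finset.card_bij (fun j _ => j.1)
      · intro j hj
        simpa using hj
      · intro i _ j _ h
        exact Fin.ext h
      · intro i hi
        have hi' : i < k := by simpa using hi
        exact ⟨⟨i, by omega⟩, by simpa using hi', rfl⟩
    rw [this, Finset.card_range]
  rw [h3] at h1
  rw [h2]
  exact h1

theorem le_add_rkK {k : ℕ} (hk : k ≤ 2 * m) (g : GL (Fin (2 * m)) E) : k ≤ m + rkK k g := by
  have h1 := finrank_spA hk g
  have h2 := (spA k g).finrank_le
  rw [Module.finrank_fintype_fun_eq_card, Fintype.card_fin] at h2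
  omega

theorem rkK_le_k {k : ℕ} (hk : k ≤ 2 * m) (g : GL (Fin (2 * m)) E) : rkK k g ≤ k := by
  have h1 := finrank_spA hk g
  omega

/-- realisation of the elements of the unipotent radical of the stabiliser of `A` -/
theorem exists_conj_upper {k : ℕ} (g : GL (Fin (2 * m)) E) (a : GL (Fin m) E)
    (H1 : ∀ y ∈ spA k g, ((a : Matrix (Fin m) (Fin m) E) - 1).mulVec y = 0)
    (H2 : ∀ y, ((a : Matrix (Fin m) (Fin m) E) - 1).mulVec y ∈ spA k g) :
    ∃ c ∈ Nk (2 * m) k E, ∃ b, pel a 1 b = g * c * g⁻¹ := by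
  set U := upK k (g : Matrix (Fin (2 * m)) (Fin (2 * m)) E) with hU
  set L := lowK k (g : Matrix (Fin (2 * m)) (Fin (2 * m)) E) with hL
  obtain ⟨Q, hQ, -⟩ := exists_ginv L
  set b : Matrix (Fin m) (Fin m) E := -(((a : Matrix (Fin m) (Fin m) E) - 1) * (U * Q)) with hb
  refine ⟨g⁻¹ * pel a 1 b * g, ?_, b, by group⟩
  set M : Matrix (Fin (2 * m)) (Fin (2 * m)) E :=
    bm ((a : Matrix (Fin m) (Fin m) E) - 1) b 0 0 with hM
  have hpel : (pel a 1 b : Matrix (Fin (2 * m)) (Fin (2 * m)) E) = 1 + M := by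
    show bm (a : Matrix (Fin m) (Fin m) E) b 0 1 = _
    rw [hM, ← bm_one]
    ext i j
    obtain ⟨i, rfl⟩ := (sI m).surjective i
    obtain ⟨j, rfl⟩ := (sI m).surjective j
    rcases i with i | i <;> rcases j with j | j <;> simp [bm, Matrix.one_apply]
  have hc : ((g⁻¹ * pel a 1 b * g : GL (Fin (2 * m)) E) :
      Matrix (Fin (2 * m)) (Fin (2 * m)) E) =
      1 + ((g⁻¹ : GL (Fin (2 * m)) E) : Matrix (Fin (2 * m)) (Fin (2 * m)) E) * M *
        (g : Matrix (Fin (2 * m)) (Fin (2 * m)) E) := by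
    rw [Units.val_mul, Units.val_mul, hpel, mul_add, add_mul, mul_one]
    congr 1
    exact g.inv_mul
  -- `M v` for a vector `v`
  have hMv : ∀ v : Fin (2 * m) → E, ∃ y ∈ spA k g,
      (∀ i, M.mulVec v (sI m (Sum.inl i)) = y i) ∧ ∀ i, M.mulVec v (sI m (Sum.inr i)) = 0 := by
    intro v
    refine ⟨((a : Matrix (Fin m) (Fin m) E) - 1).mulVec ((fun j => v (sI m (Sum.inl j))) -
      (U * Q).mulVec (fun j => v (sI m (Sum.inr j)))), H2 _, fun i => ?_, fun i => ?_⟩
    · rw [hM, bm_mulVec_inl, hb, Matrix.neg_mulVec, ← Matrix.mulVec_mulVec, Matrix.mulVec_sub,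
        ← sub_eq_add_neg]
    · rw [hM, bm_mulVec_inr]
      simp
  intro i j hij
  rw [hc, Matrix.add_apply]
  suffices h : (((g⁻¹ : GL (Fin (2 * m)) E) : Matrix (Fin (2 * m)) (Fin (2 * m)) E) * M *
      (g : Matrix (Fin (2 * m)) (Fin (2 * m)) E)) i j = 0 by rw [h, add_zero]
  have hcol : (((g⁻¹ : GL (Fin (2 * m)) E) : Matrix (Fin (2 * m)) (Fin (2 * m)) E) * M *
      (g : Matrix (Fin (2 * m)) (Fin (2 * m)) E)) i j =
      (((g⁻¹ : GL (Fin (2 * m)) E) : Matrix (Fin (2 * m)) (Fin (2 * m)) E).mulVec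
        (M.mulVec ((g : Matrix (Fin (2 * m)) (Fin (2 * m)) E).mulVec (Pi.single j 1)))) i := by
    rw [Matrix.mulVec_mulVec, Matrix.mulVec_mulVec, Matrix.mulVec_single_one]
    rfl
  rw [hcol]
  by_cases hj : j.1 < k
  · -- the columns `< k` are killed
    have h1 : (Pi.single j 1 : Fin (2 * m) → E) =
        extK (Pi.single (⟨j, hj⟩ : {j : Fin (2 * m) // j.1 < k}) (1 : E)) := by
      funext i'
      rw [extK]
      by_cases hi' : i'.1 < k
      · rw [dif_pos hi']
        by_cases h2 : i' = j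
        · subst h2
          simp
        · have h3 : (⟨i', hi'⟩ : {j : Fin (2 * m) // j.1 < k}) ≠ ⟨j, hj⟩ := fun h =>
            h2 (congrArg Subtype.val h)
          rw [Pi.single_eq_of_ne h2, Pi.single_eq_of_ne h3]
      · rw [dif_neg hi']
        have h2 : i' ≠ j := fun h => hi' (h ▸ hj)
        rw [Pi.single_eq_of_ne h2]
    set x : {j : Fin (2 * m) // j.1 < k} → E := Pi.single (⟨j, hj⟩) (1 : E) with hx
    have h2 : M.mulVec ((g : Matrix (Fin (2 * m)) (Fin (2 * m)) E).mulVec (Pi.single j 1)) = 0 := by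
      rw [h1]
      apply ext_sI
      · intro i'
        have e1 : (fun j => (g : Matrix (Fin (2 * m)) (Fin (2 * m)) E).mulVec (extK x)
            (sI m (Sum.inl j))) = U.mulVec x := funext fun j => mulVec_extK_inl _ x j
        have e2 : (fun j => (g : Matrix (Fin (2 * m)) (Fin (2 * m)) E).mulVec (extK x)
            (sI m (Sum.inr j))) = L.mulVec x := funext fun j => mulVec_extK_inr _ x j
        rw [hM, bm_mulVec_inl, e1, e2, hb, Matrix.neg_mulVec, ← Matrix.mulVec_mulVec,
          ← sub_eq_add_neg, ← Matrix.mulVec_sub]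
        have h3 : U.mulVec x - (U * Q).mulVec (L.mulVec x) ∈ spA k g := by
          refine ⟨x - Q.mulVec (L.mulVec x), ?_, ?_⟩
          · show L.mulVec (x - Q.mulVec (L.mulVec x)) = 0
            rw [Matrix.mulVec_sub, Matrix.mulVec_mulVec, Matrix.mulVec_mulVec, hQ, sub_self]
          · show U.mulVec (x - Q.mulVec (L.mulVec x)) = _
            rw [Matrix.mulVec_sub, Matrix.mulVec_mulVec]
        rw [H1 _ h3]
        rfl
      · intro i'
        rw [hM, bm_mulVec_inr]
        simp
    rw [h2, Matrix.mulVec_zero]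
    rfl
  · -- the rows `≥ k`
    have hi : k ≤ i.1 := by
      by_contra h
      exact hij ⟨by omega, by omega⟩
    obtain ⟨y, hy, h1, h2⟩ := hMv ((g : Matrix (Fin (2 * m)) (Fin (2 * m)) E).mulVec
      (Pi.single j 1))
    obtain ⟨x, hx, rfl⟩ := hy
    have hx' : L.mulVec x = 0 := hx
    have h3 : M.mulVec ((g : Matrix (Fin (2 * m)) (Fin (2 * m)) E).mulVec (Pi.single j 1)) =
        (g : Matrix (Fin (2 * m)) (Fin (2 * m)) E).mulVec (extK x) := by
      apply ext_sI
      · intro i'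
        rw [h1, mulVec_extK_inl]
        rfl
      · intro i'
        rw [h2, mulVec_extK_inr, hx']
        rfl
    rw [h3, Matrix.mulVec_mulVec]
    have h4 : ((g⁻¹ : GL (Fin (2 * m)) E) : Matrix (Fin (2 * m)) (Fin (2 * m)) E) *
        (g : Matrix (Fin (2 * m)) (Fin (2 * m)) E) = 1 := g.inv_mul
    rw [h4, Matrix.one_mulVec, extK, dif_neg (by omega)]

end

section

variable {E : Type} [NontriviallyNormedField E] {m : ℕ} {W : Type} [AddCommGroup W] [Module ℂ W]

/-- **the point `pt1`** -/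
theorem pt1 {ρ : (GL (Fin m) E × GL (Fin m) E) →* Module.End ℂ W}
    (h1 : ∀ i, 0 < i → i < m → cvN ρ ((Nk m i E).prod ⊥) ⊤ = ⊤) {k j : ℕ} (hjk : j < k)
    (hkm : k < j + m) (hk : k ≤ 2 * m) (g₀ : GL (Fin (2 * m)) E) (hg : rkK k g₀ = j) (w : W) :
    w ∈ Submodule.span ℂ (rel (tauP ρ)
      ((Nk (2 * m) k E : Subgroup (GL (Fin (2 * m)) E)) : Set (GL (Fin (2 * m)) E)) Set.univ g₀) := by
  obtain ⟨h, hh⟩ := exists_gl_map (spA k g₀)
  have hfr := finrank_spA hk g₀
  set a := Module.finrank E (spA k g₀) with ha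
  have h2 := h1 a (by omega) (by omega)
  have h3 : ρ (h⁻¹, 1) w ∈ cvN ρ ((Nk m a E).prod ⊥) ⊤ := by
    rw [h2]
    exact Submodule.mem_top
  have h4 : ∀ x ∈ cvN ρ ((Nk m a E).prod ⊥) ⊤, ρ (h, 1) x ∈ Submodule.span ℂ (rel (tauP ρ)
      ((Nk (2 * m) k E : Subgroup (GL (Fin (2 * m)) E)) : Set (GL (Fin (2 * m)) E))
      Set.univ g₀) := by
    intro x hx
    refine (Submodule.span_le (p := (Submodule.span ℂ (rel (tauP ρ)
      ((Nk (2 * m) k E : Subgroup (GL (Fin (2 * m)) E)) : Set (GL (Fin (2 * m)) E))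
      Set.univ g₀)).comap (ρ (h, 1)))).2 ?_ hx
    rintro _ ⟨⟨u, u'⟩, ⟨hu, hu'⟩, v, -, rfl⟩
    have hu'1 : u' = 1 := hu'
    subst hu'1
    have hu0 : u ∈ Nk m a E := hu
    set a' : GL (Fin m) E := h * u * h⁻¹ with ha'
    have e0 : (a' : Matrix (Fin m) (Fin m) E) - 1 =
        (h : Matrix (Fin m) (Fin m) E) * ((u : Matrix (Fin m) (Fin m) E) - 1) *
          ((h⁻¹ : GL (Fin m) E) : Matrix (Fin m) (Fin m) E) := by
      rw [ha', Units.val_mul, Units.val_mul, mul_sub, sub_mul, mul_one]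
      congr 1
      exact h.mul_inv.symm
    obtain ⟨c, hc, b, hb⟩ := exists_conj_upper g₀ a' (by
      intro y hy
      rw [e0, ← Matrix.mulVec_mulVec, ← Matrix.mulVec_mulVec]
      have h5 : (h : Matrix (Fin m) (Fin m) E).mulVec
          (((h⁻¹ : GL (Fin m) E) : Matrix (Fin m) (Fin m) E).mulVec y) = y := by
        have : (h : Matrix (Fin m) (Fin m) E) * ((h⁻¹ : GL (Fin m) E) : Matrix (Fin m) (Fin m) E) =
          1 := h.mul_inv
        rw [Matrix.mulVec_mulVec, this, Matrix.one_mulVec]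
      have h6 := (hh (((h⁻¹ : GL (Fin m) E) : Matrix (Fin m) (Fin m) E).mulVec y)).1 (by
        rw [h5]
        exact hy)
      have h7 : ((u : Matrix (Fin m) (Fin m) E) - 1).mulVec
          (((h⁻¹ : GL (Fin m) E) : Matrix (Fin m) (Fin m) E).mulVec y) = 0 := by
        funext i
        rw [Matrix.mulVec, dotProduct]
        apply Finset.sum_eq_zero
        intro l _
        by_cases hl : a ≤ l.1
        · rw [h6 l hl, mul_zero]
        · rw [Matrix.sub_apply, hu0 i l (by omega), sub_self, zero_mul]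
      rw [h7, Matrix.mulVec_zero]) (by
      intro y
      rw [e0, ← Matrix.mulVec_mulVec, ← Matrix.mulVec_mulVec]
      refine (hh _).2 ?_
      intro i hi
      rw [Matrix.mulVec, dotProduct]
      apply Finset.sum_eq_zero
      intro l _
      rw [Matrix.sub_apply, hu0 i l (by omega), sub_self, zero_mul])
    show ρ (h, 1) (ρ (u, 1) v - v) ∈ Submodule.span ℂ (rel (tauP ρ)
      ((Nk (2 * m) k E : Subgroup (GL (Fin (2 * m)) E)) : Set (GL (Fin (2 * m)) E))
      Set.univ g₀)
    have e1 : ρ (h, 1) (ρ (u, 1) v - v) = ρ (a', 1) (ρ (h, 1) v) - ρ (h, 1) v := by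
      rw [map_sub, ← Module.End.mul_apply, ← Module.End.mul_apply, ← map_mul, ← map_mul,
        Prod.mk_mul_mk, Prod.mk_mul_mk, one_mul, ha', inv_mul_cancel_right]
    rw [e1]
    have hq : g₀ * c * g₀⁻¹ ∈ PS m E := ⟨a', 1, b, hb.symm⟩
    refine Submodule.subset_span ⟨ρ (h, 1) v, Set.mem_univ _, ⟨_, hq⟩, c, hc, rfl, ?_⟩
    rw [tauP_pel ρ ⟨_, hq⟩ hb.symm]
  have h5 := h4 _ h3
  have h6 : ρ (h, 1) (ρ (h⁻¹, 1) w) = w := by
    rw [← Module.End.mul_apply, ← map_mul, Prod.mk_mul_mk, mul_inv_cancel, one_mul]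
    have : ρ ((1, 1) : GL (Fin m) E × GL (Fin m) E) = 1 := map_one ρ
    rw [this, Module.End.one_apply]
  rwa [h6] at h5

end

end SpW
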