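import Pool.Agent.Work.MP_3615d2_al.GeoC
import Pool.Agent.Work.MP_3615d2_al.GeoE

/-!
MP_3615d2_al, Theorem B, module R6: the data at one point, lower block.

`g₀` with `0 < rank (lowK k g₀) < m`: every unipotent element of `GL_m(E)` that is trivial on the
image `A` of `lowK k g₀` and on `E^m / A` is the lower block of an element
`g₀ c g₀⁻¹ = (1 b; 0 u)` with `c ∈ N_k`.
-/

open Filter Topology Matrix

set_option linter.unusedSectionVars false

namespace SpW

section rows

variable {E : Type} [NontriviallyNormedField E] {m : ℕ}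

/-- the upper rows -/
def upR (g : Matrix (Fin (2 * m)) (Fin (2 * m)) E) : Matrix (Fin m) (Fin (2 * m)) E :=
  fun i j => g (sI m (Sum.inl i)) j

/-- the lower rows -/
def loR (g : Matrix (Fin (2 * m)) (Fin (2 * m)) E) : Matrix (Fin m) (Fin (2 * m)) E :=
  fun i j => g (sI m (Sum.inr i)) j

theorem ext_rows {g g' : Matrix (Fin (2 * m)) (Fin (2 * m)) E} (h1 : upR g = upR g')
    (h2 : loR g = loR g') : g = g' := by
  ext i j
  obtain ⟨s, rfl⟩ := (sI m).surjective i
  rcases s with s | s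
  · exact congrFun (congrFun h1 s) j
  · exact congrFun (congrFun h2 s) j

theorem upR_bm_mul (a b c d : Matrix (Fin m) (Fin m) E)
    (g : Matrix (Fin (2 * m)) (Fin (2 * m)) E) :
    upR (bm a b c d * g) = a * upR g + b * loR g := by
  ext i j
  rw [Matrix.add_apply, Matrix.mul_apply, Matrix.mul_apply]
  show (bm a b c d * g) (sI m (Sum.inl i)) j = _
  rw [Matrix.mul_apply, ← (sI m).sum_comp, Fintype.sum_sum_type]
  simp [bm, upR, loR]

theorem loR_bm_mul (a b c d : Matrix (Fin m) (Fin m) E)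
    (g : Matrix (Fin (2 * m)) (Fin (2 * m)) E) :
    loR (bm a b c d * g) = c * upR g + d * loR g := by
  ext i j
  rw [Matrix.add_apply, Matrix.mul_apply, Matrix.mul_apply]
  show (bm a b c d * g) (sI m (Sum.inr i)) j = _
  rw [Matrix.mul_apply, ← (sI m).sum_comp, Fintype.sum_sum_type]
  simp [bm, upR, loR]

theorem upR_mul (g ν : Matrix (Fin (2 * m)) (Fin (2 * m)) E) : upR (g * ν) = upR g * ν := by
  ext i j
  rw [Matrix.mul_apply]
  exact Matrix.mul_apply

theorem loR_mul (g ν : Matrix (Fin (2 * m)) (Fin (2 * m)) E) : loR (g * ν) = loR g * ν := by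
  ext i j
  rw [Matrix.mul_apply]
  exact Matrix.mul_apply

theorem upR_add (g g' : Matrix (Fin (2 * m)) (Fin (2 * m)) E) :
    upR (g + g') = upR g + upR g' := rfl

theorem loR_add (g g' : Matrix (Fin (2 * m)) (Fin (2 * m)) E) :
    loR (g + g') = loR g + loR g' := rfl

/-- the inclusion of the first `k` coordinates -/
def iZ (m k : ℕ) (E : Type) [Field E] : Matrix (Fin (2 * m)) {j : Fin (2 * m) // j.1 < k} E :=
  fun l j => if l = j.1 then 1 else 0

theorem mul_iZ_apply {κ : Type} (M : Matrix κ (Fin (2 * m)) E) {k : ℕ} (i : κ)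
    (j : {j : Fin (2 * m) // j.1 < k}) : (M * iZ m k E) i j = M i j.1 := by
  rw [Matrix.mul_apply, Finset.sum_eq_single j.1]
  · show M i j.1 * (if j.1 = j.1 then (1 : E) else 0) = M i j.1
    rw [if_pos rfl, mul_one]
  · intro x _ hx
    show _ * (if x = j.1 then (1 : E) else 0) = 0
    rw [if_neg hx, mul_zero]
  · intro h
    exact absurd (Finset.mem_univ _) h

theorem loR_mul_iZ (g : Matrix (Fin (2 * m)) (Fin (2 * m)) E) (k : ℕ) :
    loR g * iZ m k E = lowK k g := by
  ext i j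
  rw [mul_iZ_apply]
  rfl

theorem iZ_mul_apply_of_le {κ : Type} {k : ℕ} (M : Matrix {j : Fin (2 * m) // j.1 < k} κ E)
    {i : Fin (2 * m)} (hi : ¬ i.1 < k) (j : κ) : (iZ m k E * M) i j = 0 := by
  rw [Matrix.mul_apply]
  apply Finset.sum_eq_zero
  intro x _
  show (if i = x.1 then (1 : E) else 0) * _ = 0
  rw [if_neg, zero_mul]
  intro h
  apply hi
  rw [h]
  exact x.2

/-- An element of `N_k` from a matrix `T : E^{2m} → E^k` that is zero on `E^k`. -/
theorem exists_Nk_of {k : ℕ} (T : Matrix {j : Fin (2 * m) // j.1 < k} (Fin (2 * m)) E)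
    (hT : T * iZ m k E = 0) : ∃ c : GL (Fin (2 * m)) E, c ∈ Nk (2 * m) k E ∧
      (c : Matrix (Fin (2 * m)) (Fin (2 * m)) E) = 1 + iZ m k E * T := by
  have h0 : iZ m k E * T * (iZ m k E * T) = 0 := by
    have : iZ m k E * T * (iZ m k E * T) = iZ m k E * (T * iZ m k E) * T := by
      simp only [Matrix.mul_assoc]
    rw [this, hT, Matrix.mul_zero, Matrix.zero_mul]
  refine ⟨⟨1 + iZ m k E * T, 1 - iZ m k E * T, ?_, ?_⟩, ?_, rfl⟩
  · rw [mul_sub, mul_one, add_mul, one_mul, h0]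
    abel
  · rw [mul_add, mul_one, sub_mul, one_mul, h0]
    abel
  · intro i j hij
    show ((1 : Matrix (Fin (2 * m)) (Fin (2 * m)) E) + iZ m k E * T) i j = _
    rw [Matrix.add_apply]
    have : (iZ m k E * T) i j = 0 := by
      by_cases hi : i.1 < k
      · have hj : j.1 < k := by
          by_contra hj
          exact hij ⟨hi, by omega⟩
        have h1 := mul_iZ_apply (iZ m k E * T) i ⟨j, hj⟩
        rw [Matrix.mul_assoc, hT, Matrix.mul_zero] at h1
        exact h1.symm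
      · exact iZ_mul_apply_of_le T hi j
    rw [this, add_zero]

/-- the unipotent elements attached to a subspace in standard position -/
theorem Nk_std {j : ℕ} {h u₀ : GL (Fin m) E} (hu₀ : u₀ ∈ Nk m j E)
    {A : Submodule E (Fin m → E)}
    (hA : ∀ v : Fin m → E, (h : Matrix (Fin m) (Fin m) E).mulVec v ∈ A ↔
      ∀ i : Fin m, j ≤ i.1 → v i = 0) :
    (∀ v ∈ A, (((h * u₀ * h⁻¹ : GL (Fin m) E) : Matrix (Fin m) (Fin m) E) - 1).mulVec v = 0) ∧
      ∀ v, (((h * u₀ * h⁻¹ : GL (Fin m) E) : Matrix (Fin m) (Fin m) E) - 1).mulVec v ∈ A := by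
  have hhi : (h : Matrix (Fin m) (Fin m) E) * ((h⁻¹ : GL (Fin m) E) : Matrix (Fin m) (Fin m) E) =
      1 := by rw [← Units.val_mul, mul_inv_cancel, Units.val_one]
  have h1 : ((h * u₀ * h⁻¹ : GL (Fin m) E) : Matrix (Fin m) (Fin m) E) - 1 =
      (h : Matrix (Fin m) (Fin m) E) * ((u₀ : Matrix (Fin m) (Fin m) E) - 1) *
        ((h⁻¹ : GL (Fin m) E) : Matrix (Fin m) (Fin m) E) := by
    rw [mul_sub, mul_one, sub_mul, hhi]
    rfl
  constructor
  · intro v hv
    have hv2 : (h : Matrix (Fin m) (Fin m) E).mulVec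
        (((h⁻¹ : GL (Fin m) E) : Matrix (Fin m) (Fin m) E).mulVec v) = v := by
      rw [Matrix.mulVec_mulVec, hhi, Matrix.one_mulVec]
    have hv3 := (hA (((h⁻¹ : GL (Fin m) E) : Matrix (Fin m) (Fin m) E).mulVec v)).1
      (by rw [hv2]; exact hv)
    rw [h1, ← Matrix.mulVec_mulVec, ← Matrix.mulVec_mulVec]
    have h2 : ((u₀ : Matrix (Fin m) (Fin m) E) - 1).mulVec
        (((h⁻¹ : GL (Fin m) E) : Matrix (Fin m) (Fin m) E).mulVec v) = 0 := by
      generalize ((h⁻¹ : GL (Fin m) E) : Matrix (Fin m) (Fin m) E).mulVec v = y at hv3 ⊢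
      funext i
      simp only [Matrix.mulVec, dotProduct, Pi.zero_apply]
      apply Finset.sum_eq_zero
      intro l _
      by_cases hl : j ≤ l.1
      · rw [hv3 l hl, mul_zero]
      · rw [Matrix.sub_apply, hu₀ i l (by omega), sub_self, zero_mul]
    rw [h2, Matrix.mulVec_zero]
  · intro v
    rw [h1, ← Matrix.mulVec_mulVec, ← Matrix.mulVec_mulVec]
    apply (hA _).2
    intro i hi
    simp only [Matrix.mulVec, dotProduct]
    apply Finset.sum_eq_zero
    intro l _
    rw [Matrix.sub_apply, hu₀ i l (by omega), sub_self, zero_mul]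

end rows

section pt

variable {E : Type} [NontriviallyNormedField E] {m : ℕ} {W : Type} [AddCommGroup W] [Module ℂ W]

/-- The data at one point, lower block. -/
theorem pt2 {ρ : (GL (Fin m) E × GL (Fin m) E) →* Module.End ℂ W}
    (h2 : ∀ i, 0 < i → i < m →
      cvN ρ ((⊥ : Subgroup (GL (Fin m) E)).prod (Nk m i E)) ⊤ = ⊤)
    {k j : ℕ} (hj : 0 < j) (hjm : j < m) (g₀ : GL (Fin (2 * m)) E) (hg : rkK k g₀ = j) (w : W) :
    w ∈ Submodule.span ℂ (rel (tauP ρ) (Nk (2 * m) k E : Set (GL (Fin (2 * m)) E))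
      Set.univ g₀) := by
  classical
  set G₀ : Matrix (Fin (2 * m)) (Fin (2 * m)) E := (g₀ : Matrix (Fin (2 * m)) (Fin (2 * m)) E)
    with hG₀
  set B := lowK k G₀ with hB
  obtain ⟨Q, hQ, -⟩ := exists_ginv B
  obtain ⟨h, hh⟩ := exists_gl_map (LinearMap.range B.mulVecLin)
  have hfin : Module.finrank E (LinearMap.range B.mulVecLin) = j := hg
  rw [hfin] at hh
  -- the elements
  have key : ∀ u₀ ∈ Nk m j E, ∀ w' : W, ρ (1, h * u₀ * h⁻¹) w' - w' ∈
      rel (tauP ρ) (Nk (2 * m) k E : Set (GL (Fin (2 * m)) E)) Set.univ g₀ := by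
    intro u₀ hu₀ w'
    obtain ⟨hU1, hU2⟩ := Nk_std hu₀ hh
    set u : GL (Fin m) E := h * u₀ * h⁻¹ with hu
    set U : Matrix (Fin m) (Fin m) E := (u : Matrix (Fin m) (Fin m) E) - 1 with hU
    have hUB : U * B = 0 := by
      apply Matrix.ext_of_mulVec_single
      intro i
      rw [← Matrix.mulVec_mulVec, Matrix.zero_mulVec]
      exact hU1 _ ⟨_, rfl⟩
    have hBQU : B * Q * U = U := by
      apply Matrix.ext_of_mulVec_single
      intro i
      rw [← Matrix.mulVec_mulVec]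
      obtain ⟨z, hz⟩ := hU2 (Pi.single i 1)
      have hz' : B.mulVec z = U.mulVec (Pi.single i 1) := hz
      rw [← hz', Matrix.mulVec_mulVec, hQ]
    obtain ⟨c, hc, hcv⟩ := exists_Nk_of (m := m) (k := k) (Q * U * loR G₀) (by
      rw [Matrix.mul_assoc, loR_mul_iZ, ← hB, Matrix.mul_assoc, hUB, Matrix.mul_zero])
    set b : Matrix (Fin m) (Fin m) E := upR G₀ * iZ m k E * Q * U with hb
    have hmul : pel 1 u b * g₀ = g₀ * c := by
      apply Units.ext
      rw [Units.val_mul, Units.val_mul, ← hG₀, hcv]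
      show bm 1 b 0 (u : Matrix (Fin m) (Fin m) E) * G₀ = _
      apply ext_rows
      · rw [upR_bm_mul, mul_add, mul_one, upR_add, upR_mul, Matrix.one_mul, hb]
        simp only [Matrix.mul_assoc]
      · rw [loR_bm_mul, mul_add, mul_one, loR_add, loR_mul, Matrix.zero_mul, zero_add]
        have h3 : loR G₀ * (iZ m k E * (Q * U * loR G₀)) =
            (loR G₀ * iZ m k E) * Q * U * loR G₀ := by simp only [Matrix.mul_assoc]
        rw [h3, loR_mul_iZ, ← hB, hBQU, hU, Matrix.sub_mul, Matrix.one_mul]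
        abel
    refine ⟨w', Set.mem_univ _, ⟨pel 1 u b, ⟨1, u, b, rfl⟩⟩, c, hc, ?_, ?_⟩
    · show pel 1 u b = g₀ * c * g₀⁻¹
      rw [← hmul]
      group
    · rw [tauP_pel ρ _ rfl]
  -- conclusion
  have htop : ρ (1, h⁻¹) w ∈ cvN ρ ((⊥ : Subgroup (GL (Fin m) E)).prod (Nk m j E)) ⊤ := by
    rw [h2 j hj hjm]
    trivial
  have hall : ∀ x ∈ cvN ρ ((⊥ : Subgroup (GL (Fin m) E)).prod (Nk m j E)) ⊤,
      ρ (1, h) x ∈ Submodule.span ℂ (rel (tauP ρ)
        (Nk (2 * m) k E : Set (GL (Fin (2 * m)) E)) Set.univ g₀) := by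
    intro x hx
    have hle : cvN ρ ((⊥ : Subgroup (GL (Fin m) E)).prod (Nk m j E)) ⊤ ≤
        (Submodule.span ℂ (rel (tauP ρ)
          (Nk (2 * m) k E : Set (GL (Fin (2 * m)) E)) Set.univ g₀)).comap (ρ (1, h)) := by
      apply Submodule.span_le.2
      rintro _ ⟨⟨n1, n2⟩, hn, v, -, rfl⟩
      obtain ⟨hn1, hn2⟩ := Subgroup.mem_prod.1 hn
      have hn1' : n1 = 1 := hn1
      subst hn1'
      have h3 : ρ (1, h) (ρ (1, n2) v - v) = ρ (1, h * n2 * h⁻¹) (ρ (1, h) v) - ρ (1, h) v := by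
        rw [map_sub, ← Module.End.mul_apply, ← Module.End.mul_apply, ← map_mul, ← map_mul,
          Prod.mk_mul_mk, Prod.mk_mul_mk, inv_mul_cancel_right, one_mul]
      show ρ (1, h) (ρ (1, n2) v - v) ∈ Submodule.span ℂ (rel (tauP ρ)
          (Nk (2 * m) k E : Set (GL (Fin (2 * m)) E)) Set.univ g₀)
      rw [h3]
      exact Submodule.subset_span (key n2 hn2 _)
    exact hle hx
  have h4 := hall _ htop
  rwa [← Module.End.mul_apply, ← map_mul, Prod.mk_mul_mk, one_mul, mul_inv_cancel, Prod.mk_one_one,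
    map_one, Module.End.one_apply] at h4

end pt

end SpW
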