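import Pool.Agent.Work.MP_3615d2_al.DefsB

/-!
MP_3615d2_al, Theorem B, module R3: a subquotient of an induced representation without
coinvariants is zero.
-/

open Filter Topology
open scoped TensorProduct

namespace SpW

section general

variable {G V : Type} [Group G] [AddCommGroup V] [Module ℂ V]

theorem cvN_le {π : G →* Module.End ℂ V} {N : Subgroup G} {A : Submodule ℂ V} (hA : IsStab π A) :
    cvN π N A ≤ A := by
  refine Submodule.span_le.2 ?_
  rintro _ ⟨n, -, v, hv, rfl⟩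
  exact A.sub_mem (hA n v hv) hv

theorem quo_surj (A : Submodule ℂ V) (v : V ⧸ A) : ∃ x, A.mkQ x = v := A.mkQ_surjective v

/-- coinvariants of a quotient -/
theorem cvN_quo_eq_top {π : G →* Module.End ℂ V} {N : Subgroup G} {A : Submodule ℂ V}
    (hA : IsStab π A) (h : ⊤ ≤ A ⊔ cvN π N ⊤) : cvN (quoRep π A hA) N ⊤ = ⊤ := by
  rw [eq_top_iff]
  rintro v -
  obtain ⟨x, rfl⟩ := A.mkQ_surjective v
  obtain ⟨a, ha, b, hb, rfl⟩ := Submodule.mem_sup.1 (h (Submodule.mem_top (x := x)))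
  rw [map_add]
  have h0 : A.mkQ a = 0 := by
    rw [Submodule.mkQ_apply, Submodule.Quotient.mk_eq_zero]
    exact ha
  rw [h0, zero_add]
  have h1 : cvN π N ⊤ ≤ (cvN (quoRep π A hA) N ⊤).comap A.mkQ := by
    refine Submodule.span_le.2 ?_
    rintro _ ⟨n, hn, v, -, rfl⟩
    exact Submodule.subset_span ⟨n, hn, A.mkQ v, Submodule.mem_top, by
      rw [quoRep_mk, map_sub]⟩
  exact h1 hb

/-- coinvariants of a subrepresentation -/
theorem cvN_sub_eq {π : G →* Module.End ℂ V} {N : Subgroup G} {B : Submodule ℂ V}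
    (hB : IsStab π B) : (cvN (subRep π B hB) N ⊤).map B.subtype = cvN π N B := by
  unfold cvN
  rw [Submodule.map_span]
  congr 1
  ext x
  constructor
  · rintro ⟨_, ⟨n, hn, v, -, rfl⟩, rfl⟩
    exact ⟨n, hn, v, v.2, rfl⟩
  · rintro ⟨n, hn, v, hv, rfl⟩
    exact ⟨_, ⟨n, hn, ⟨v, hv⟩, Submodule.mem_top, rfl⟩, rfl⟩

end general

section ind

variable {E : Type} [NontriviallyNormedField E] {m : ℕ}
  {W : Type} [AddCommGroup W] [Module ℂ W]

/-- elements of the unipotent radical of `P` -/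
theorem exists_pel_of_mem {n : GL (Fin (2 * m)) E} (hn : n ∈ Nk (2 * m) m E) :
    ∃ b : Matrix (Fin m) (Fin m) E, n = pel 1 1 b := by
  let b : Matrix (Fin m) (Fin m) E := Matrix.of fun i j =>
    (n : Matrix (Fin (2 * m)) (Fin (2 * m)) E) (sI m (Sum.inl i)) (sI m (Sum.inr j))
  refine ⟨b, ?_⟩
  have hl : ∀ i : Fin m, (sI m (Sum.inl i)).1 = i.1 := fun i => rfl
  have hr : ∀ i : Fin m, (sI m (Sum.inr i)).1 = m + i.1 := fun i => rfl
  have key : ∀ x y : Fin m ⊕ Fin m, (n : Matrix (Fin (2 * m)) (Fin (2 * m)) E) (sI m x) (sI m y) =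
      Matrix.fromBlocks (1 : Matrix (Fin m) (Fin m) E) b 0 1 x y := by
    intro x y
    rcases x with x | x <;> rcases y with y | y
    · rw [hn _ _ (by rw [hl, hl]; omega)]
      simp [Matrix.one_apply]
    · rfl
    · rw [hn _ _ (by rw [hr, hl]; omega)]
      simp
    · rw [hn _ _ (by rw [hr, hr]; omega)]
      simp [Matrix.one_apply]
  apply Units.ext
  ext x y
  have h1 := key ((sI m).symm x) ((sI m).symm y)
  rw [Equiv.apply_symm_apply, Equiv.apply_symm_apply] at h1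
  rw [h1]
  rfl

/-- evaluation at `1` kills the coinvariants -/
theorem ind_eval_pel (ρ : (GL (Fin m) E × GL (Fin m) E) →* Module.End ℂ W) (f : Ind ρ)
    (b : Matrix (Fin m) (Fin m) E) :
    ((indAct ρ (pel 1 1 b) f : Ind ρ) : GL (Fin (2 * m)) E → W) 1 =
      (f : GL (Fin (2 * m)) E → W) 1 := by
  rw [indAct_apply, one_mul, ← mul_one (pel 1 1 b), f.2.1]
  have : ((1 : GL (Fin m) E), (1 : GL (Fin m) E)) = 1 := rfl
  rw [this, map_one, Module.End.one_apply]

/-- Frobenius: an equivariant map to an induced representation from a representation without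
coinvariants is zero -/
theorem hom_ind_eq_zero (ρ : (GL (Fin m) E × GL (Fin m) E) →* Module.End ℂ W)
    {V : Type} [AddCommGroup V] [Module ℂ V] {π : GL (Fin (2 * m)) E →* Module.End ℂ V}
    (h : cvN π (Nk (2 * m) m E) ⊤ = ⊤) (Ψ : V →ₗ[ℂ] Ind ρ)
    (hΨ : ∀ g v, Ψ (π g v) = indAct ρ g (Ψ v)) : Ψ = 0 := by
  let ev : V →ₗ[ℂ] W :=
    { toFun := fun v => (Ψ v : GL (Fin (2 * m)) E → W) 1
      map_add' := fun a b => by rw [map_add]; rfl
      map_smul' := fun c a => by rw [map_smul]; rfl }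
  have h1 : cvN π (Nk (2 * m) m E) ⊤ ≤ LinearMap.ker ev := by
    refine Submodule.span_le.2 ?_
    rintro _ ⟨n, hn, v, -, rfl⟩
    obtain ⟨b, rfl⟩ := exists_pel_of_mem hn
    rw [SetLike.mem_coe, LinearMap.mem_ker, map_sub, sub_eq_zero]
    show (Ψ (π (pel 1 1 b) v) : GL (Fin (2 * m)) E → W) 1 = (Ψ v : GL (Fin (2 * m)) E → W) 1
    rw [hΨ, ind_eval_pel]
  rw [h] at h1
  have h2 : ∀ v, (Ψ v : GL (Fin (2 * m)) E → W) 1 = 0 := fun v => h1 (Submodule.mem_top (x := v))
  apply LinearMap.ext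
  intro v
  apply Subtype.ext
  funext g
  have h3 := h2 (π g v)
  rw [hΨ, indAct_apply, one_mul] at h3
  exact h3

end ind

section abstract

variable {E : Type} [NontriviallyNormedField E] {n : ℕ} {I : Type} [AddCommGroup I] [Module ℂ I]

/-- R3 for a general representation: `hFr` is Frobenius reciprocity -/
theorem subquo_aux
    (hG : ∀ U ∈ 𝓝 (1 : GL (Fin n) E), ∃ K : Subgroup (GL (Fin n) E),
      IsOpen (K : Set (GL (Fin n) E)) ∧ IsCompact (K : Set (GL (Fin n) E)) ∧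
        (K : Set (GL (Fin n) E)) ⊆ U)
    (hHC : ∀ {V : Type} [AddCommGroup V] [Module ℂ V] (π : GL (Fin n) E →* Module.End ℂ V),
      IsSmoothRep π → IsCusp π → HasHC (scalZ n E) π)
    (τ : GL (Fin n) E →* Module.End ℂ I) (hτ : IsSmoothRep τ) (hc : UnitCentral τ)
    (m : ℕ) (hFr : ∀ {V : Type} [AddCommGroup V] [Module ℂ V]
      (π : GL (Fin n) E →* Module.End ℂ V), cvN π (Nk n m E) ⊤ = ⊤ → ∀ Ψ : V →ₗ[ℂ] I,
      (∀ g v, Ψ (π g v) = τ g (Ψ v)) → Ψ = 0)
    (A B : Submodule ℂ I) (hA : IsStab τ A) (hB : IsStab τ B) (hAB : A ≤ B)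
    (hk : ∀ k, 0 < k → k < n → k ≠ m → cvN τ (Nk n k E) B = B)
    (h : B ≤ A ⊔ cvN τ (Nk n m E) B) : A = B := by
  classical
  by_contra hne
  let πB : GL (Fin n) E →* Module.End ℂ B := subRep τ B hB
  let A' : Submodule ℂ B := A.comap B.subtype
  have hA' : IsStab πB A' := by
    intro g v hv
    exact hA g (v : I) hv
  let π : GL (Fin n) E →* Module.End ℂ (B ⧸ A') := quoRep πB A' hA'
  have hsB : IsSmoothRep πB := by
    intro v
    filter_upwards [hτ (v : I)] with g hg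
    exact Subtype.ext hg
  have hs : IsSmoothRep π := by
    intro v
    obtain ⟨x, rfl⟩ := A'.mkQ_surjective v
    filter_upwards [hsB x] with g hg
    rw [quoRep_mk, hg]
  have hN : cvN π (Nk n m E) ⊤ = ⊤ := by
    apply cvN_quo_eq_top
    rintro ⟨x, hx⟩ -
    obtain ⟨a, ha, b, hb, hab⟩ := Submodule.mem_sup.1 (h hx)
    rw [← cvN_sub_eq hB] at hb
    obtain ⟨b', hb', rfl⟩ := hb
    refine Submodule.mem_sup.2 ⟨⟨a, hAB ha⟩, ha, b', hb', ?_⟩
    exact Subtype.ext hab
  have hcusp : IsCusp π := by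
    intro k hk0 hk2
    by_cases hkm : k = m
    · subst hkm
      exact hN
    · apply cvN_quo_eq_top
      rintro ⟨x, hx⟩ -
      have hx0 := hx
      rw [← hk k hk0 hk2 hkm, ← cvN_sub_eq hB] at hx0
      obtain ⟨b', hb', hx1⟩ := hx0
      have : b' = ⟨x, hx⟩ := Subtype.ext hx1
      rw [← this]
      exact Submodule.mem_sup_right hb'
  have hnt : Nontrivial (B ⧸ A') := by
    rw [Submodule.Quotient.nontrivial_iff]
    intro htop
    apply hne
    apply le_antisymm hAB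
    intro x hx
    have : (⟨x, hx⟩ : B) ∈ A' := by rw [htop]; trivial
    exact this
  obtain ⟨χ, hχ, hχ2⟩ := hc
  -- the central character as a function on the group
  let χ' : GL (Fin n) E → ℂ := fun g =>
    if h : ∃ z, Matrix.GeneralLinearGroup.scalar (Fin n) z = g then χ h.choose else 1
  have hsc : ∀ z ∈ scalZ n E, ∃ w, Matrix.GeneralLinearGroup.scalar (Fin n) w = z ∧
      χ' z = χ w := by
    rintro z ⟨w, hw⟩
    have h1 : ∃ z', Matrix.GeneralLinearGroup.scalar (Fin n) z' = z := ⟨w, hw⟩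
    exact ⟨h1.choose, h1.choose_spec, dif_pos h1⟩
  obtain ⟨Ψ, hΨ0, hΨ⟩ := exists_hom_of_hc (G := GL (Fin n) E) hG (Z := scalZ n E)
    (by
      rintro _ ⟨w, rfl⟩ g
      exact Matrix.GeneralLinearGroup.scalar_commute w g)
    hsB χ' (by
      intro z hz
      obtain ⟨w, -, hw⟩ := hsc z hz
      rw [hw]
      exact hχ w)
    (by
      intro z hz a
      obtain ⟨w, rfl, hw⟩ := hsc z hz
      rw [hw]
      exact Subtype.ext (hχ2 w (a : I)))
    A'.mkQ A'.mkQ_surjective (fun g a => rfl) (hHC π hs hcusp)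
  have h3 := hFr π hN (B.subtype ∘ₗ Ψ) (by
    intro g v
    rw [LinearMap.comp_apply, hΨ]
    rfl)
  apply hΨ0
  apply LinearMap.ext
  intro v
  have h4 := congrArg (fun F => F v) h3
  exact Subtype.ext h4

end abstract

end SpW
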