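import Pool.Agent.Work.MP_3615d2_al.RankSec
import Pool.Agent.Work.MP_3615d2_al.Cartan

/-!
MP_3615d2_al, Theorem B, module R6, linear algebra: near `g₀`, the elements `g` with the same rank
of the block `(1-e) g f` as `g₀` are of the form `p g₀ q` with `p`, `q` near `1` in the parabolic
subgroups attached to the idempotents `e` and `f`.
-/

open Filter Topology Matrix

namespace SpW

section alg

variable {ι : Type} [Fintype ι] [DecidableEq ι] {E : Type} [Field E]

/-- The algebraic identity behind the local structure of the strata. -/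
theorem la_alg {g₀ g g₀' e f Q q1 q1' d d' q2 B₀ B : Matrix ι ι E}
    (he : e * e = e) (hf : f * f = f) (hg₀ : g₀ * g₀' = 1)
    (hB₀ : B₀ = (1 - e) * g₀ * f) (hB : B = (1 - e) * g * f)
    (hQ : B₀ * Q * B₀ = B₀)
    (hq1 : q1 = 1 + f * Q * (1 - e) * (B - B₀)) (hq1' : q1 * q1' = 1) (hq1'' : q1' * q1 = 1)
    (hd : d = B * q1' * (f * Q * (1 - e)) + 1 - B₀ * (f * Q * (1 - e)))
    (hd' : d * d' = 1) (hd'' : d' * d = 1)
    (hq2 : q2 = 1 + g₀' * (1 - e) * (d' * g * q1' - g₀))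
    (hker : B * q1' * (1 - f * Q * (1 - e) * B₀) = 0) :
    (1 - e) * g = d * (1 - e) * g₀ * (q2 * q1) ∧ (1 - f) * (q2 * q1) * f = 0 ∧
      (1 - e) * d = d * (1 - e) := by
  set eb := 1 - e with heb
  have heb2 : eb * eb = eb := by
    rw [heb, sub_mul, one_mul, mul_sub, mul_one, he, sub_self, sub_zero]
  have hebe : eb * e = 0 := by
    rw [heb, sub_mul, one_mul, he, sub_self]
  set C := f * Q * eb with hC
  have hBeb : eb * B = B := by rw [hB, ← mul_assoc, ← mul_assoc, heb2]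
  have hBf : B * f = B := by rw [hB, mul_assoc, hf]
  have hB₀eb : eb * B₀ = B₀ := by rw [hB₀, ← mul_assoc, ← mul_assoc, heb2]
  have hB₀f : B₀ * f = B₀ := by rw [hB₀, mul_assoc, hf]
  have hCeb : C * eb = C := by rw [hC, mul_assoc, heb2]
  have hfC : f * C = C := by rw [hC, ← mul_assoc, ← mul_assoc, hf]
  have hBCB : B₀ * C * B₀ = B₀ := by
    have : B₀ * C * B₀ = (B₀ * f) * Q * (eb * B₀) := by rw [hC]; simp only [mul_assoc]
    rw [this, hB₀f, hB₀eb, hQ]
  -- q1 commutes with f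
  have hq1f : q1 * f = f * q1 := by
    rw [hq1, add_mul, mul_add, one_mul, mul_one]
    congr 1
    rw [mul_assoc, sub_mul, hBf, hB₀f, ← mul_assoc, hfC]
  have hq1'f : q1' * f = f * q1' := by
    calc q1' * f = q1' * f * (q1 * q1') := by rw [hq1', mul_one]
      _ = q1' * (f * q1) * q1' := by simp only [mul_assoc]
      _ = q1' * (q1 * f) * q1' := by rw [hq1f]
      _ = (q1' * q1) * f * q1' := by simp only [mul_assoc]
      _ = f * q1' := by rw [hq1'', one_mul]
  -- d commutes with eb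
  have hdeb : eb * d = d * eb := by
    rw [hd]
    have h1 : eb * (B * q1' * C + 1 - B₀ * C) = (eb * B) * q1' * C + eb - (eb * B₀) * C := by
      noncomm_ring
    have h2 : (B * q1' * C + 1 - B₀ * C) * eb = B * q1' * (C * eb) + eb - B₀ * (C * eb) := by
      noncomm_ring
    rw [h1, h2, hBeb, hB₀eb, hCeb]
  have hd'eb : eb * d' = d' * eb := by
    calc eb * d' = d' * d * eb * d' := by rw [hd'', one_mul]
      _ = d' * (d * eb) * d' := by simp only [mul_assoc]
      _ = d' * (eb * d) * d' := by rw [hdeb]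
      _ = d' * eb * (d * d') := by simp only [mul_assoc]
      _ = d' * eb := by rw [hd', mul_one]
  -- d B₀ = B q1'
  have hdB₀ : d * B₀ = B * q1' := by
    have h1 : B * q1' = B * q1' * (C * B₀) := by
      have h2 : B * q1' * (1 - C * B₀) = 0 := by
        rw [hC]; rw [hC] at *; exact hker
      rw [mul_sub, mul_one, sub_eq_zero] at h2
      exact h2
    rw [hd]
    have h3 : (B * q1' * C + 1 - B₀ * C) * B₀ = B * q1' * (C * B₀) + (B₀ - B₀ * C * B₀) := by
      noncomm_ring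
    rw [h3, hBCB, sub_self, add_zero]
    exact h1.symm
  have hebg₀ : eb * g₀ * q2 = eb * d' * g * q1' := by
    rw [hq2, mul_add, mul_one]
    have h1 : eb * g₀ * (g₀' * eb * (d' * g * q1' - g₀)) =
        eb * (g₀ * g₀') * eb * (d' * g * q1' - g₀) := by simp only [mul_assoc]
    rw [h1, hg₀, mul_one, heb2, mul_sub]
    simp only [mul_assoc]
    abel
  refine ⟨?_, ?_, hdeb⟩
  · have h1 : d * eb * g₀ * (q2 * q1) = d * (eb * g₀ * q2) * q1 := by simp only [mul_assoc]
    rw [h1, hebg₀]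
    have h2 : d * (eb * d' * g * q1') * q1 = d * (eb * d') * g * (q1' * q1) := by
      simp only [mul_assoc]
    rw [h2, hd'eb, hq1'', mul_one]
    have h3 : d * (d' * eb) * g = (d * d') * eb * g := by simp only [mul_assoc]
    rw [h3, hd', one_mul]
  · have h1 : q2 * f = f := by
      rw [hq2, add_mul, one_mul]
      have h2 : g₀' * eb * (d' * g * q1' - g₀) * f = g₀' * (eb * d' * g * (q1' * f) - eb * g₀ * f) := by
        noncomm_ring
      rw [h2, hq1'f, hd'eb]
      have h3 : d' * eb * g * (f * q1') = d' * (eb * g * f) * q1' := by simp only [mul_assoc]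
      rw [h3, ← hB, ← hB₀, mul_assoc, ← hdB₀, ← mul_assoc, hd'', one_mul, sub_self, mul_zero,
        add_zero]
    have h4 : (1 - f) * (q2 * q1) * f = (1 - f) * (q2 * (q1 * f)) := by simp only [mul_assoc]
    rw [h4, hq1f, ← mul_assoc q2, h1, ← mul_assoc, sub_mul, one_mul, hf, sub_self, zero_mul]

end alg

section top

variable {ι : Type} [Fintype ι] [DecidableEq ι] {E : Type} [NontriviallyNormedField E]

/-- A continuous family of matrices that is `1` at `x₀` comes near `x₀` from units near `1`. -/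
theorem eventually_gl {X : Type} [TopologicalSpace X] {M : X → Matrix ι ι E} {x₀ : X}
    (hM : ContinuousAt M x₀) (h1 : M x₀ = 1) {Ω : Set (GL ι E)} (hΩ : Ω ∈ 𝓝 (1 : GL ι E)) :
    ∀ᶠ x in 𝓝 x₀, ∃ u : GL ι E, u ∈ Ω ∧ (u : Matrix ι ι E) = M x := by
  obtain ⟨ε, h0, -, hε⟩ := exists_ball_gl hΩ
  have hdet : ContinuousAt (fun x => (M x).det) x₀ := by
    have : Continuous (fun A : Matrix ι ι E => A.det) := continuous_id.matrix_det
    exact this.continuousAt.comp hM
  have hdet0 : (M x₀).det ≠ 0 := by rw [h1, Matrix.det_one]; exact one_ne_zero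
  have hinv : ContinuousAt (fun x => (M x)⁻¹) x₀ := by
    have h2 : (fun x => (M x)⁻¹) = fun x => ((M x).det)⁻¹ • (M x).adjugate := by
      funext x
      rw [Matrix.inv_def, Ring.inverse_eq_inv']
    rw [h2]
    have h3 : Continuous (fun A : Matrix ι ι E => A.adjugate) := continuous_id.matrix_adjugate
    exact (hdet.inv₀ hdet0).smul (h3.continuousAt.comp hM)
  have hinv1 : (M x₀)⁻¹ = 1 := by rw [h1, inv_one]
  have hent : ∀ (A : X → Matrix ι ι E), ContinuousAt A x₀ → A x₀ = 1 →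
      ∀ᶠ x in 𝓝 x₀, ∀ i j, ‖(A x - 1) i j‖ ≤ ε := by
    intro A hA hA1
    rw [Filter.eventually_all]
    intro i
    rw [Filter.eventually_all]
    intro j
    have h2 : ContinuousAt (fun x => ‖(A x - 1) i j‖) x₀ := by
      have h3 : Continuous (fun B : Matrix ι ι E => ‖(B - 1) i j‖) :=
        ((continuous_id.sub continuous_const).matrix_elem i j).norm
      exact h3.continuousAt.comp hA
    have h4 : ‖(A x₀ - 1) i j‖ < ε := by
      rw [hA1, sub_self]
      simpa using h0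
    exact (h2.eventually_lt continuousAt_const h4).mono fun x hx => le_of_lt hx
  filter_upwards [hdet.eventually_ne hdet0, hent M hM h1, hent _ hinv hinv1] with x h2 h3 h4
  let u : GL ι E := Matrix.GeneralLinearGroup.mkOfDetNeZero (M x) h2
  have hu : (u : Matrix ι ι E) = M x := rfl
  have hu' : ((u⁻¹ : GL ι E) : Matrix ι ι E) = (M x)⁻¹ := by
    rw [Matrix.coe_units_inv, hu]
  refine ⟨u, hε u ?_ ?_, hu⟩
  · intro i j
    rw [hu]
    exact h3 i j
  · intro i j
    rw [hu']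
    exact h4 i j

/-- The local structure of the strata: near `g₀`, at constant rank of the block `(1-e) g f`, the
elements `g` are of the form `p g₀ q` with `p`, `q` near `1`, `(1-e) p e = 0`, `(1-f) q f = 0`. -/
theorem la_top (e f : Matrix ι ι E) (he : e * e = e) (hf : f * f = f) (g₀ : GL ι E)
    {Ω : Set (GL ι E)} (hΩ : Ω ∈ 𝓝 (1 : GL ι E)) :
    ∀ᶠ g : GL ι E in 𝓝 g₀, ((1 - e) * (g : Matrix ι ι E) * f).rank ≤
        ((1 - e) * (g₀ : Matrix ι ι E) * f).rank →
      ∃ p q : GL ι E, p ∈ Ω ∧ q ∈ Ω ∧ (1 - e) * (p : Matrix ι ι E) * e = 0 ∧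
        (1 - f) * (q : Matrix ι ι E) * f = 0 ∧ g = p * g₀ * q := by
  obtain ⟨Q, hQ, hQ'⟩ := exists_ginv ((1 - e) * (g₀ : Matrix ι ι E) * f)
  set B₀ : Matrix ι ι E := (1 - e) * (g₀ : Matrix ι ι E) * f with hB₀
  set C : Matrix ι ι E := f * Q * (1 - e) with hC
  have heb2 : (1 - e) * (1 - e) = 1 - e := by
    rw [sub_mul, one_mul, mul_sub, mul_one, he, sub_self, sub_zero]
  have hB₀eb : (1 - e) * B₀ = B₀ := by rw [hB₀, ← mul_assoc, ← mul_assoc, heb2]
  have hB₀f : B₀ * f = B₀ := by rw [hB₀, mul_assoc, hf]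
  have hBCB : B₀ * C * B₀ = B₀ := by
    have : B₀ * C * B₀ = (B₀ * f) * Q * ((1 - e) * B₀) := by rw [hC]; simp only [mul_assoc]
    rw [this, hB₀f, hB₀eb, hQ]
  have hCBC : C * B₀ * C = C := by
    have : C * B₀ * C = f * (Q * ((1 - e) * B₀) * f * Q) * (1 - e) := by
      rw [hC]; simp only [mul_assoc]
    rw [this, hB₀eb, mul_assoc Q B₀ f, hB₀f, hQ']
  -- the continuous families
  set B : GL ι E → Matrix ι ι E := fun g => (1 - e) * (g : Matrix ι ι E) * f with hB
  have hval : Continuous fun g : GL ι E => (g : Matrix ι ι E) := Units.continuous_val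
  have hBc : Continuous B := (continuous_const.mul hval).mul continuous_const
  set q1 : GL ι E → Matrix ι ι E := fun g => 1 + C * (B g - B₀) with hq1
  have hq1c : Continuous q1 := continuous_const.add (continuous_const.mul (hBc.sub continuous_const))
  have hq10 : q1 g₀ = 1 := by
    show 1 + C * (B₀ - B₀) = 1
    rw [sub_self, mul_zero, add_zero]
  have hinvc : ∀ (A : GL ι E → Matrix ι ι E), ContinuousAt A g₀ → (A g₀).det ≠ 0 →
      ContinuousAt (fun x => (A x)⁻¹) g₀ := by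
    intro A hA h0
    have h2 : (fun x => (A x)⁻¹) = fun x => ((A x).det)⁻¹ • (A x).adjugate := by
      funext x
      rw [Matrix.inv_def, Ring.inverse_eq_inv']
    rw [h2]
    have h3 : Continuous (fun A : Matrix ι ι E => A.adjugate) := continuous_id.matrix_adjugate
    have h4 : Continuous (fun A : Matrix ι ι E => A.det) := continuous_id.matrix_det
    exact ((h4.continuousAt.comp hA).inv₀ h0).smul (h3.continuousAt.comp hA)
  have hq1'c : ContinuousAt (fun g => (q1 g)⁻¹) g₀ := hinvc q1 hq1c.continuousAt (by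
    rw [hq10, Matrix.det_one]; exact one_ne_zero)
  set d : GL ι E → Matrix ι ι E := fun g => B g * (q1 g)⁻¹ * C + 1 - B₀ * C with hd
  have hdc : ContinuousAt d g₀ :=
    (((hBc.continuousAt.mul hq1'c).mul continuousAt_const).add continuousAt_const).sub
      continuousAt_const
  have hd0 : d g₀ = 1 := by
    show B₀ * (q1 g₀)⁻¹ * C + 1 - B₀ * C = 1
    rw [hq10, inv_one, mul_one]
    abel
  have hd'c : ContinuousAt (fun g => (d g)⁻¹) g₀ := hinvc d hdc (by
    rw [hd0, Matrix.det_one]; exact one_ne_zero)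
  set q2 : GL ι E → Matrix ι ι E := fun g => 1 + ((g₀⁻¹ : GL ι E) : Matrix ι ι E) * (1 - e) *
    ((d g)⁻¹ * (g : Matrix ι ι E) * (q1 g)⁻¹ - (g₀ : Matrix ι ι E)) with hq2
  have hq2c : ContinuousAt q2 g₀ :=
    continuousAt_const.add (continuousAt_const.mul
      (((hd'c.mul hval.continuousAt).mul hq1'c).sub continuousAt_const))
  have hq20 : q2 g₀ = 1 := by
    show 1 + ((g₀⁻¹ : GL ι E) : Matrix ι ι E) * (1 - e) *
      ((d g₀)⁻¹ * (g₀ : Matrix ι ι E) * (q1 g₀)⁻¹ - (g₀ : Matrix ι ι E)) = 1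
    rw [hd0, hq10, inv_one, one_mul, mul_one, sub_self, mul_zero, add_zero]
  have hqc : ContinuousAt (fun g => q2 g * q1 g) g₀ := hq2c.mul hq1c.continuousAt
  have hq0 : (fun g => q2 g * q1 g) g₀ = 1 := by
    show q2 g₀ * q1 g₀ = 1
    rw [hq20, hq10, mul_one]
  -- a neighbourhood for `q` such that `p = g q⁻¹ g₀⁻¹` is in `Ω` as well
  have hp : ∀ᶠ x : GL ι E × GL ι E in 𝓝 (g₀, 1), x.1 * x.2⁻¹ * g₀⁻¹ ∈ Ω := by
    have h1 : Continuous fun x : GL ι E × GL ι E => x.1 * x.2⁻¹ * g₀⁻¹ := by fun_prop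
    have h2 : Tendsto (fun x : GL ι E × GL ι E => x.1 * x.2⁻¹ * g₀⁻¹) (𝓝 (g₀, 1)) (𝓝 1) := by
      have h3 := h1.tendsto (g₀, 1)
      simpa using h3
    exact h2 hΩ
  rw [nhds_prod_eq] at hp
  obtain ⟨pa, hpa, pb, hpb, hpab⟩ := Filter.eventually_prod_iff.1 hp
  have hdet : ∀ (A : GL ι E → Matrix ι ι E), ContinuousAt A g₀ → A g₀ = 1 →
      ∀ᶠ g in 𝓝 g₀, IsUnit (A g).det := by
    intro A hA h0
    have h4 : Continuous (fun A : Matrix ι ι E => A.det) := continuous_id.matrix_det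
    have h5 : (A g₀).det ≠ 0 := by rw [h0, Matrix.det_one]; exact one_ne_zero
    exact ((h4.continuousAt.comp hA).eventually_ne h5).mono fun g hg => isUnit_iff_ne_zero.2 hg
  filter_upwards [eventually_gl hqc hq0 (Filter.inter_mem hΩ hpb), hpa,
    hdet q1 hq1c.continuousAt hq10, hdet d hdc hd0] with g hqg hpg h1 h2 hrank
  obtain ⟨q, ⟨hqΩ, hqb⟩, hqval⟩ := hqg
  have hker : B g * (q1 g)⁻¹ * (1 - C * B₀) = 0 := by
    apply Matrix.ext_of_mulVec_single
    intro i
    rw [Matrix.zero_mulVec, ← Matrix.mulVec_mulVec, ← Matrix.mulVec_mulVec]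
    refine ker_of_isUnit (A₀ := B₀) (Q := C) hBCB hCBC h1 hrank
      (w := (1 - C * B₀).mulVec (Pi.single i 1)) ?_ ?_
    · rw [Matrix.mulVec_mulVec, mul_sub, mul_one, ← mul_assoc, hBCB, sub_self, Matrix.zero_mulVec]
    · show (q1 g).mulVec _ = _
      rw [Matrix.mulVec_mulVec, Matrix.mul_nonsing_inv _ h1, Matrix.one_mulVec]
  have hgg : (g₀ : Matrix ι ι E) * ((g₀⁻¹ : GL ι E) : Matrix ι ι E) = 1 := by
    rw [← Units.val_mul, mul_inv_cancel, Units.val_one]
  obtain ⟨h3, h4, h5⟩ := la_alg (g₀ := (g₀ : Matrix ι ι E)) (g := (g : Matrix ι ι E))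
    (g₀' := ((g₀⁻¹ : GL ι E) : Matrix ι ι E)) (e := e) (f := f) (Q := Q) (q1 := q1 g)
    (q1' := (q1 g)⁻¹) (d := d g) (d' := (d g)⁻¹) (q2 := q2 g) (B₀ := B₀) (B := B g) he hf hgg
    rfl rfl hQ rfl (Matrix.mul_nonsing_inv _ h1) (Matrix.nonsing_inv_mul _ h1) rfl
    (Matrix.mul_nonsing_inv _ h2) (Matrix.nonsing_inv_mul _ h2) rfl hker
  have hpmem := hpab hpg hqb
  refine ⟨g * q⁻¹ * g₀⁻¹, q, hpmem, hqΩ, ?_, ?_, ?_⟩
  · rw [Units.val_mul, Units.val_mul]
    have h6 : (q : Matrix ι ι E) * ((q⁻¹ : GL ι E) : Matrix ι ι E) = 1 := by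
      rw [← Units.val_mul, mul_inv_cancel, Units.val_one]
    have h7 : (1 - e) * ((g : Matrix ι ι E) * ((q⁻¹ : GL ι E) : Matrix ι ι E) *
        ((g₀⁻¹ : GL ι E) : Matrix ι ι E)) * e =
        ((1 - e) * (g : Matrix ι ι E)) * ((q⁻¹ : GL ι E) : Matrix ι ι E) *
        ((g₀⁻¹ : GL ι E) : Matrix ι ι E) * e := by simp only [mul_assoc]
    rw [h7, h3, ← hqval]
    have h8 : d g * (1 - e) * (g₀ : Matrix ι ι E) * (q : Matrix ι ι E) *
        ((q⁻¹ : GL ι E) : Matrix ι ι E) * ((g₀⁻¹ : GL ι E) : Matrix ι ι E) * e =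
        d g * (1 - e) * ((g₀ : Matrix ι ι E) * ((q : Matrix ι ι E) *
        ((q⁻¹ : GL ι E) : Matrix ι ι E)) * ((g₀⁻¹ : GL ι E) : Matrix ι ι E)) * e := by
      simp only [mul_assoc]
    have he0 : (1 - e) * e = 0 := by rw [sub_mul, one_mul, he, sub_self]
    rw [h8, h6, mul_one, hgg, mul_one, mul_assoc, he0, mul_zero]
  · rw [hqval]
    exact h4
  · group

end top

end SpW
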