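import Pool.Agent.Work.MP_3615d2_al.GeoC
import Pool.Agent.Work.MP_3615d2_al.LA
import Pool.Agent.Work.MP_3615d2_al.Iwa

/-!
MP_3615d2_al, Theorem B, module R6: the local data on a stratum follow from the data at one point.
-/

open Filter Topology Matrix

set_option linter.unusedSectionVars false

namespace SpW

section blocktri

variable {ι : Type} [Fintype ι] [DecidableEq ι] {E : Type} [Field E]

/-- The diagonal idempotent of a set of indices. -/
noncomputable def prj (E : Type) [Field E] (I : Set ι) [DecidablePred (· ∈ I)] : Matrix ι ι E :=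
  Matrix.diagonal (fun i => if i ∈ I then 1 else 0)

variable (I : Set ι) [DecidablePred (· ∈ I)]

theorem prj_idem : prj E I * prj E I = prj E I := by
  rw [prj, Matrix.diagonal_mul_diagonal]
  congr 1
  funext i
  by_cases h : i ∈ I <;> simp [h]

theorem prj_mul_apply (M : Matrix ι ι E) (i j : ι) :
    (prj E I * M) i j = if i ∈ I then M i j else 0 := by
  rw [prj, Matrix.diagonal_mul]
  by_cases h : i ∈ I <;> simp [h]

theorem mul_prj_apply (M : Matrix ι ι E) (i j : ι) :
    (M * prj E I) i j = if j ∈ I then M i j else 0 := by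
  rw [prj, Matrix.mul_diagonal]
  by_cases h : j ∈ I <;> simp [h]

theorem one_sub_prj_mul_apply (M : Matrix ι ι E) (i j : ι) :
    ((1 - prj E I) * M) i j = if i ∈ I then 0 else M i j := by
  rw [sub_mul, one_mul, Matrix.sub_apply, prj_mul_apply]
  by_cases h : i ∈ I <;> simp [h]

theorem blk_apply (M : Matrix ι ι E) (J : Set ι) [DecidablePred (· ∈ J)] (i j : ι) :
    ((1 - prj E I) * M * prj E J) i j = if i ∉ I ∧ j ∈ J then M i j else 0 := by
  rw [mul_prj_apply, one_sub_prj_mul_apply]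
  by_cases h : i ∈ I <;> by_cases h' : j ∈ J <;> simp [h, h']

/-- The inverse of a block triangular matrix is block triangular. -/
theorem blk_inv_zero {q : GL ι E} (hq : (1 - prj E I) * (q : Matrix ι ι E) * prj E I = 0) :
    (1 - prj E I) * ((q⁻¹ : GL ι E) : Matrix ι ι E) * prj E I = 0 := by
  classical
  have h1 : Matrix.BlockTriangular (q : Matrix ι ι E) (fun i => if i ∈ I then 0 else 1) := by
    intro i j hij
    have hij' : j ∈ I ∧ i ∉ I := by
      by_cases hi : i ∈ I <;> by_cases hj : j ∈ I <;> simp [hi, hj] at hij ⊢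
    have := congrFun (congrFun hq i) j
    rw [blk_apply, if_pos ⟨hij'.2, hij'.1⟩] at this
    exact this
  have : Invertible (q : Matrix ι ι E) := Units.invertible q
  have h2 := Matrix.blockTriangular_inv_of_blockTriangular h1
  ext i j
  rw [blk_apply]
  by_cases h : i ∉ I ∧ j ∈ I
  · rw [if_pos h, Matrix.coe_units_inv]
    apply h2
    simp [h.1, h.2]
  · rw [if_neg h]
    rfl

end blocktri

section nk

variable {E : Type} [Field E] {n k : ℕ}

/-- Conjugation by the parabolic subgroup preserves `N_k`. -/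
theorem conj_mem_Nk {q c : GL (Fin n) E} (hc : c ∈ Nk n k E)
    (hq : (1 - prj E {i : Fin n | i.1 < k}) * (q : Matrix (Fin n) (Fin n) E) *
      prj E {i : Fin n | i.1 < k} = 0) : q⁻¹ * c * q ∈ Nk n k E := by
  set f : Matrix (Fin n) (Fin n) E := prj E {i : Fin n | i.1 < k} with hf
  have hq' := blk_inv_zero (E := E) {i : Fin n | i.1 < k} hq
  rw [← hf] at hq'
  set ν : Matrix (Fin n) (Fin n) E := (c : Matrix (Fin n) (Fin n) E) - 1 with hν
  have hν1 : f * ν = ν := by
    ext i j
    rw [hf, prj_mul_apply]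
    by_cases h : i.1 < k
    · simp [h]
    · have : ν i j = 0 := by
        rw [hν, Matrix.sub_apply, hc i j (by omega), sub_self]
      simp [h, this]
  have hν2 : ν * f = 0 := by
    ext i j
    rw [hf, mul_prj_apply]
    by_cases h : j.1 < k
    · have : ν i j = 0 := by
        rw [hν, Matrix.sub_apply, hc i j (by omega), sub_self]
      simp [h, this]
    · simp [h]
  have hqf : (q : Matrix (Fin n) (Fin n) E) * f = f * (q : Matrix (Fin n) (Fin n) E) * f := by
    rw [sub_mul, one_mul, sub_mul, sub_eq_zero] at hq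
    exact hq
  have hqf' : ((q⁻¹ : GL (Fin n) E) : Matrix (Fin n) (Fin n) E) * f =
      f * ((q⁻¹ : GL (Fin n) E) : Matrix (Fin n) (Fin n) E) * f := by
    rw [sub_mul, one_mul, sub_mul, sub_eq_zero] at hq'
    exact hq'
  have hone : ((q⁻¹ : GL (Fin n) E) : Matrix (Fin n) (Fin n) E) *
      (q : Matrix (Fin n) (Fin n) E) = 1 := by
    rw [← Units.val_mul, inv_mul_cancel, Units.val_one]
  have hval : ((q⁻¹ * c * q : GL (Fin n) E) : Matrix (Fin n) (Fin n) E) =
      1 + ((q⁻¹ : GL (Fin n) E) : Matrix (Fin n) (Fin n) E) * ν *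
        (q : Matrix (Fin n) (Fin n) E) := by
    rw [Units.val_mul, Units.val_mul, hν, mul_sub, mul_one, sub_mul, hone]
    abel
  intro i j hij
  rw [hval, Matrix.add_apply]
  have hzero : (((q⁻¹ : GL (Fin n) E) : Matrix (Fin n) (Fin n) E) * ν *
        (q : Matrix (Fin n) (Fin n) E)) i j = 0 := by
    set M := ((q⁻¹ : GL (Fin n) E) : Matrix (Fin n) (Fin n) E) * ν *
        (q : Matrix (Fin n) (Fin n) E) with hM
    have hM1 : f * M = M := by
      rw [hM, ← hν1]
      have h1 : f * (((q⁻¹ : GL (Fin n) E) : Matrix (Fin n) (Fin n) E) * (f * ν) *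
          (q : Matrix (Fin n) (Fin n) E)) =
          (f * ((q⁻¹ : GL (Fin n) E) : Matrix (Fin n) (Fin n) E) * f) * ν *
          (q : Matrix (Fin n) (Fin n) E) := by simp only [mul_assoc]
      rw [h1, ← hqf']
      simp only [mul_assoc]
    have hM2 : M * f = 0 := by
      rw [hM, mul_assoc, hqf]
      have h1 : ((q⁻¹ : GL (Fin n) E) : Matrix (Fin n) (Fin n) E) * ν *
          (f * (q : Matrix (Fin n) (Fin n) E) * f) =
          ((q⁻¹ : GL (Fin n) E) : Matrix (Fin n) (Fin n) E) * (ν * f) *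
          ((q : Matrix (Fin n) (Fin n) E) * f) := by simp only [mul_assoc]
      rw [h1, hν2, mul_zero, zero_mul]
    by_cases hi : i.1 < k
    · have hj : j.1 < k := by
        by_contra hj
        exact hij ⟨hi, by omega⟩
      have := congrFun (congrFun hM2 i) j
      rw [hf, mul_prj_apply] at this
      simpa [hj] using this
    · rw [← hM1, hf, prj_mul_apply]
      simp [hi]
  rw [hzero, add_zero]

end nk

section point

variable {E : Type} [NontriviallyNormedField E] {m : ℕ} {W : Type} [AddCommGroup W] [Module ℂ W]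

theorem sI_inr_val (i : Fin m) : (sI m (Sum.inr i)).1 = m + i.1 := by
  simp [sI, add_comm]

theorem sI_inl_val (i : Fin m) : (sI m (Sum.inl i)).1 = i.1 := by
  simp [sI]

/-- The rank of the block as the rank of a square matrix. -/
theorem rank_blk (k : ℕ) (g : Matrix (Fin (2 * m)) (Fin (2 * m)) E) :
    ((1 - prj E {i : Fin (2 * m) | i.1 < m}) * g * prj E {i : Fin (2 * m) | i.1 < k}).rank =
      (lowK k g).rank := by
  set M := (1 - prj E {i : Fin (2 * m) | i.1 < m}) * g * prj E {i : Fin (2 * m) | i.1 < k} with hM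
  have hMa : ∀ i j, M i j = if ¬ i.1 < m ∧ j.1 < k then g i j else 0 := by
    intro i j
    rw [hM, blk_apply]
    rfl
  apply le_antisymm
  · let R : Matrix (Fin (2 * m)) (Fin m) E := fun l i => if l = sI m (Sum.inr i) then 1 else 0
    let T : Matrix {j : Fin (2 * m) // j.1 < k} (Fin (2 * m)) E :=
      fun j l => if l = j.1 then 1 else 0
    have h1 : M = R * lowK k g * T := by
      ext a b
      rw [hMa, Matrix.mul_assoc, Matrix.mul_apply]
      by_cases hab : ¬ a.1 < m ∧ b.1 < k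
      · rw [if_pos hab]
        have ha : a = sI m (Sum.inr ⟨a.1 - m, by omega⟩) := by
          apply Fin.ext
          rw [sI_inr_val]
          show a.1 = m + (a.1 - m)
          omega
        rw [Finset.sum_eq_single (⟨a.1 - m, by omega⟩ : Fin m)]
        · show g a b = (if a = sI m (Sum.inr ⟨a.1 - m, by omega⟩) then (1 : E) else 0) *
            (lowK k g * T) _ b
          rw [if_pos ha, one_mul, Matrix.mul_apply,
            Finset.sum_eq_single (⟨b, hab.2⟩ : {j : Fin (2 * m) // j.1 < k})]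
          · show g a b = g (sI m (Sum.inr ⟨a.1 - m, by omega⟩)) b * (if b = b then 1 else 0)
            rw [if_pos rfl, mul_one, ← ha]
          · intro x _ hx
            show _ * (if b = x.1 then (1 : E) else 0) = 0
            rw [if_neg (fun h => hx (Subtype.ext h.symm)), mul_zero]
          · intro h
            exact absurd (Finset.mem_univ _) h
        · intro i _ hi
          show (if a = sI m (Sum.inr i) then (1 : E) else 0) * _ = 0
          rw [if_neg, zero_mul]
          intro h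
          apply hi
          apply Fin.ext
          have := congrArg Fin.val h
          rw [sI_inr_val] at this
          show i.1 = a.1 - m
          omega
        · intro h
          exact absurd (Finset.mem_univ _) h
      · rw [if_neg hab]
        symm
        apply Finset.sum_eq_zero
        intro i _
        show (if a = sI m (Sum.inr i) then (1 : E) else 0) * _ = 0
        by_cases ha : a = sI m (Sum.inr i)
        · rw [if_pos ha, one_mul, Matrix.mul_apply]
          apply Finset.sum_eq_zero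
          intro x _
          show _ * (if b = x.1 then (1 : E) else 0) = 0
          rw [if_neg, mul_zero]
          intro hb
          apply hab
          refine ⟨?_, ?_⟩
          · rw [ha, sI_inr_val]
            omega
          · rw [hb]
            exact x.2
        · rw [if_neg ha, zero_mul]
    rw [h1]
    exact (Matrix.rank_mul_le_left _ _).trans (Matrix.rank_mul_le_right _ _)
  · let R : Matrix (Fin m) (Fin (2 * m)) E := fun i l => if l = sI m (Sum.inr i) then 1 else 0
    let T : Matrix (Fin (2 * m)) {j : Fin (2 * m) // j.1 < k} E :=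
      fun l j => if l = j.1 then 1 else 0
    have h1 : lowK k g = R * M * T := by
      ext a b
      rw [Matrix.mul_assoc, Matrix.mul_apply, Finset.sum_eq_single (sI m (Sum.inr a))]
      · show g (sI m (Sum.inr a)) b.1 = (if _ = _ then (1 : E) else 0) * (M * T) _ b
        rw [if_pos rfl, one_mul, Matrix.mul_apply, Finset.sum_eq_single b.1]
        · show g (sI m (Sum.inr a)) b.1 = M _ _ * (if b.1 = b.1 then 1 else 0)
          rw [if_pos rfl, mul_one, hMa, if_pos]
          refine ⟨?_, b.2⟩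
          rw [sI_inr_val]
          omega
        · intro x _ hx
          show _ * (if x = b.1 then (1 : E) else 0) = 0
          rw [if_neg hx, mul_zero]
        · intro h
          exact absurd (Finset.mem_univ _) h
      · intro l _ hl
        show (if l = sI m (Sum.inr a) then (1 : E) else 0) * _ = 0
        rw [if_neg hl, zero_mul]
      · intro h
        exact absurd (Finset.mem_univ _) h
    rw [h1]
    exact (Matrix.rank_mul_le_left _ _).trans (Matrix.rank_mul_le_right _ _)

theorem mem_PS_of_blk {p : GL (Fin (2 * m)) E}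
    (hp : (1 - prj E {i : Fin (2 * m) | i.1 < m}) * (p : Matrix (Fin (2 * m)) (Fin (2 * m)) E) *
      prj E {i : Fin (2 * m) | i.1 < m} = 0) : p ∈ PS m E := by
  apply (exists_pel_iff p).2
  ext i j
  have h := congrFun (congrFun hp (sI m (Sum.inr i))) (sI m (Sum.inl j))
  rw [blk_apply, if_pos] at h
  · exact h
  · refine ⟨?_, ?_⟩
    · show ¬ (sI m (Sum.inr i)).1 < m
      rw [sI_inr_val]
      omega
    · show (sI m (Sum.inl j)).1 < m
      rw [sI_inl_val]
      exact j.2

/-- The local data on a stratum from the data at one point. -/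
theorem locData_of_point [IsUltrametricDist E] [ProperSpace E]
    {ρ : (GL (Fin m) E × GL (Fin m) E) →* Module.End ℂ W} (hρ : IsSmoothRep ρ) {k j : ℕ}
    (hpt : ∀ (w : W) (g₀ : GL (Fin (2 * m)) E), rkK k g₀ = j →
      w ∈ Submodule.span ℂ (rel (tauP ρ) (Nk (2 * m) k E : Set (GL (Fin (2 * m)) E))
        Set.univ g₀)) :
    LocData (tauP ρ) (Nk (2 * m) k E : Set (GL (Fin (2 * m)) E)) (rkK k) j := by
  classical
  intro w g₀ hg₀
  obtain ⟨T, hT, hwT⟩ := Submodule.mem_span_finite_of_mem_span (hpt w g₀ hg₀)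
  -- the data of the elements of `T`
  have hdata : ∀ t : T, ∃ (w' : W) (q : PS m E) (c : GL (Fin (2 * m)) E),
      c ∈ Nk (2 * m) k E ∧ (q : GL (Fin (2 * m)) E) = g₀ * c * g₀⁻¹ ∧
        (t : W) = tauP ρ q w' - w' := by
    intro t
    obtain ⟨w', -, q, c, hc, hq, ht⟩ := hT t.2
    exact ⟨w', q, c, hc, hq, ht⟩
  choose wt qt ct hct hqt htt using hdata
  -- a bound for the entries of the `ct`
  obtain ⟨r, hr0, hr⟩ : ∃ r : ℝ, 0 ≤ r ∧ ∀ t : T, ∀ i j,
      ‖((ct t : Matrix (Fin (2 * m)) (Fin (2 * m)) E) - 1) i j‖ < r := by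
    refine ⟨1 + ∑ t : T, ∑ i, ∑ j, ‖((ct t : Matrix (Fin (2 * m)) (Fin (2 * m)) E) - 1) i j‖,
      by positivity, ?_⟩
    intro t i j
    have h1 : ‖((ct t : Matrix (Fin (2 * m)) (Fin (2 * m)) E) - 1) i j‖ ≤
        ∑ j, ‖((ct t : Matrix (Fin (2 * m)) (Fin (2 * m)) E) - 1) i j‖ :=
      Finset.single_le_sum (f := fun j => ‖((ct t : Matrix (Fin (2 * m)) (Fin (2 * m)) E) - 1) i j‖)
        (fun _ _ => norm_nonneg _) (Finset.mem_univ j)
    have h2 : ∑ j, ‖((ct t : Matrix (Fin (2 * m)) (Fin (2 * m)) E) - 1) i j‖ ≤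
        ∑ i, ∑ j, ‖((ct t : Matrix (Fin (2 * m)) (Fin (2 * m)) E) - 1) i j‖ :=
      Finset.single_le_sum
        (f := fun i => ∑ j, ‖((ct t : Matrix (Fin (2 * m)) (Fin (2 * m)) E) - 1) i j‖)
        (fun _ _ => Finset.sum_nonneg fun _ _ => norm_nonneg _) (Finset.mem_univ i)
    have h3 : ∑ i, ∑ j, ‖((ct t : Matrix (Fin (2 * m)) (Fin (2 * m)) E) - 1) i j‖ ≤
        ∑ t : T, ∑ i, ∑ j, ‖((ct t : Matrix (Fin (2 * m)) (Fin (2 * m)) E) - 1) i j‖ :=
      Finset.single_le_sum
        (f := fun t : T => ∑ i, ∑ j, ‖((ct t : Matrix (Fin (2 * m)) (Fin (2 * m)) E) - 1) i j‖)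
        (fun _ _ => Finset.sum_nonneg fun _ _ => Finset.sum_nonneg fun _ _ => norm_nonneg _)
        (Finset.mem_univ t)
    linarith
  -- the neighbourhood of `1`
  have hΩ1 : ∀ t : T, ∀ᶠ q : GL (Fin (2 * m)) E in 𝓝 1, ∀ i j,
      ‖(((q⁻¹ * ct t * q : GL (Fin (2 * m)) E) : Matrix (Fin (2 * m)) (Fin (2 * m)) E) - 1) i j‖
        < r := by
    intro t
    rw [Filter.eventually_all]
    intro i
    rw [Filter.eventually_all]
    intro j
    have hc : Continuous fun q : GL (Fin (2 * m)) E =>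
        ‖(((q⁻¹ * ct t * q : GL (Fin (2 * m)) E) : Matrix (Fin (2 * m)) (Fin (2 * m)) E) - 1) i j‖ := by
      have h1 : Continuous fun q : GL (Fin (2 * m)) E => q⁻¹ * ct t * q := by fun_prop
      exact (((continuous_gl_entry i j).comp h1).sub continuous_const).norm
    refine (hc.tendsto 1).eventually_lt_const ?_
    have h2 : (1 : GL (Fin (2 * m)) E)⁻¹ * ct t * 1 = ct t := by group
    rw [h2]
    exact hr t i j
  -- vectors fixed
  have hfix : ∀ v : W, ∃ Ω ∈ 𝓝 (1 : GL (Fin (2 * m)) E), ∀ p : PS m E,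
      (p : GL (Fin (2 * m)) E) ∈ Ω → tauP ρ p v = v := by
    intro v
    obtain ⟨O, hO, hO'⟩ := (mem_nhds_subtype (PS m E : Set (GL (Fin (2 * m)) E)) (1 : PS m E) _).1
      (tauP_smooth hρ v)
    exact ⟨O, hO, fun p hp => hO' hp⟩
  choose Ωf hΩf hΩf' using hfix
  have hΩ : ((⋂ t : T, Ωf (wt t)) ∩ Ωf w ∩ {q | ∀ t : T, ∀ i j,
      ‖(((q⁻¹ * ct t * q : GL (Fin (2 * m)) E) : Matrix (Fin (2 * m)) (Fin (2 * m)) E) - 1) i j‖
        < r}) ∈ 𝓝 (1 : GL (Fin (2 * m)) E) := by
    refine Filter.inter_mem (Filter.inter_mem ?_ (hΩf w)) ?_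
    · exact Filter.iInter_mem.2 fun t => hΩf (wt t)
    · exact Filter.eventually_all.2 hΩ1
  have hLA := la_top (prj E {i : Fin (2 * m) | i.1 < m}) (prj E {i : Fin (2 * m) | i.1 < k})
    (prj_idem _) (prj_idem _) g₀ hΩ
  refine ⟨_, hLA, NkB (2 * m) k E r hr0, NkB_isCompact hr0, NkB_subset, Set.range wt,
    Set.finite_range wt, ?_⟩
  intro g hg hgj
  obtain ⟨p, q, hp, hq, hpe, hqf, hgpq⟩ := hg (by
    rw [rank_blk, rank_blk]
    exact le_of_eq (hgj.trans hg₀.symm))
  have hpP : p ∈ PS m E := mem_PS_of_blk hpe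
  have hpfix : ∀ v, p ∈ Ωf v → tauP ρ ⟨p, hpP⟩ v = v := fun v hv => hΩf' v ⟨p, hpP⟩ hv
  have hwfix : tauP ρ ⟨p, hpP⟩ w = w := hpfix w hp.1.2
  rw [← hwfix]
  have h1 : tauP ρ ⟨p, hpP⟩ w ∈ (Submodule.span ℂ (T : Set W)).map (tauP ρ ⟨p, hpP⟩) :=
    Submodule.mem_map_of_mem hwT
  rw [Submodule.map_span] at h1
  refine Submodule.span_mono ?_ h1
  rintro _ ⟨t, ht, rfl⟩
  have h2 := htt ⟨t, ht⟩
  have hcN : q⁻¹ * ct ⟨t, ht⟩ * q ∈ NkB (2 * m) k E r hr0 := by
    refine ⟨conj_mem_Nk (hct ⟨t, ht⟩) hqf, fun i j => ?_⟩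
    exact le_of_lt (hq.2 ⟨t, ht⟩ i j)
  refine ⟨wt ⟨t, ht⟩, ⟨⟨t, ht⟩, rfl⟩, ⟨p, hpP⟩ * qt ⟨t, ht⟩ * (⟨p, hpP⟩ : PS m E)⁻¹,
    q⁻¹ * ct ⟨t, ht⟩ * q, hcN, ?_, ?_⟩
  · rw [Subgroup.coe_mul, Subgroup.coe_mul, Subgroup.coe_inv, hqt, hgpq]
    group
  · have h3 : tauP ρ ⟨p, hpP⟩ (wt ⟨t, ht⟩) = wt ⟨t, ht⟩ :=
      hpfix _ (Set.mem_iInter.1 hp.1.1 ⟨t, ht⟩)
    have h4 : tauP ρ (⟨p, hpP⟩ * qt ⟨t, ht⟩ * (⟨p, hpP⟩ : PS m E)⁻¹) (wt ⟨t, ht⟩) =
        tauP ρ ⟨p, hpP⟩ (tauP ρ (qt ⟨t, ht⟩) (wt ⟨t, ht⟩)) := by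
      conv_lhs => rw [← h3]
      rw [← Module.End.mul_apply, ← Module.End.mul_apply, ← map_mul, ← map_mul,
        inv_mul_cancel_right]
    have h5 : (t : W) = tauP ρ (qt ⟨t, ht⟩) (wt ⟨t, ht⟩) - wt ⟨t, ht⟩ := h2
    rw [h4]
    refine (congrArg (tauP ρ ⟨p, hpP⟩) h5).trans ?_
    rw [map_sub, h3]

end point

end SpW
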