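import Pool.Agent.Work.MP_3615d2_al.GeoB
import Pool.Agent.Work.MP_3615d2_al.DefsB
import Pool.Agent.Work.MP_3615d2_al.RankSec

/-!
MP_3615d2_al, Theorem B, module R6: topological facts for `GL`, and the translation between
`indS`, `coi` and `Ind`, `cvN`.
-/

open Filter Topology

set_option linter.unusedSectionVars false

namespace SpW

/-! ### bounded subgroups of `N_k` -/

section nkb

variable {R : Type} [CommRing R] {n k : ℕ}

theorem Nk_sub_mul_sub {a b : GL (Fin n) R} (ha : a ∈ Nk n k R) (hb : b ∈ Nk n k R) :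
    ((a : Matrix (Fin n) (Fin n) R) - 1) * ((b : Matrix (Fin n) (Fin n) R) - 1) = 0 := by
  ext i j
  rw [Matrix.mul_apply, Matrix.zero_apply]
  apply Finset.sum_eq_zero
  intro l _
  by_cases hl : l.1 < k
  · rw [Matrix.sub_apply _ _ i l, ha i l (by omega), sub_self, zero_mul]
  · rw [Matrix.sub_apply _ _ l j, hb l j (by omega), sub_self, mul_zero]

theorem Nk_mul_sub {a b : GL (Fin n) R} (ha : a ∈ Nk n k R) (hb : b ∈ Nk n k R) :
    ((a * b : GL (Fin n) R) : Matrix (Fin n) (Fin n) R) - 1 =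
      ((a : Matrix (Fin n) (Fin n) R) - 1) + ((b : Matrix (Fin n) (Fin n) R) - 1) := by
  have h := Nk_sub_mul_sub ha hb
  rw [Units.val_mul]
  have h2 : (a : Matrix (Fin n) (Fin n) R) * b - 1 =
      ((a : Matrix (Fin n) (Fin n) R) - 1) + ((b : Matrix (Fin n) (Fin n) R) - 1) +
        ((a : Matrix (Fin n) (Fin n) R) - 1) * ((b : Matrix (Fin n) (Fin n) R) - 1) := by
    noncomm_ring
  rw [h2, h, add_zero]

theorem Nk_inv_sub {a : GL (Fin n) R} (ha : a ∈ Nk n k R) :
    ((a⁻¹ : GL (Fin n) R) : Matrix (Fin n) (Fin n) R) - 1 =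
      -((a : Matrix (Fin n) (Fin n) R) - 1) := by
  have h := Nk_mul_sub ((Nk n k R).inv_mem ha) ha
  rw [inv_mul_cancel, Units.val_one, sub_self] at h
  exact eq_neg_of_add_eq_zero_left h.symm

variable {E : Type} [NontriviallyNormedField E] [IsUltrametricDist E]

/-- the elements of `N_k` with entries of norm at most `r` outside of the diagonal -/
def NkB (n k : ℕ) (E : Type) [NontriviallyNormedField E] [IsUltrametricDist E] (r : ℝ)
    (hr : 0 ≤ r) : Subgroup (GL (Fin n) E) where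
  carrier := {u | u ∈ Nk n k E ∧ ∀ i j, ‖((u : Matrix (Fin n) (Fin n) E) - 1) i j‖ ≤ r}
  mul_mem' := by
    rintro a b ⟨ha, ha'⟩ ⟨hb, hb'⟩
    refine ⟨mul_mem ha hb, fun i j => ?_⟩
    rw [Nk_mul_sub ha hb, Matrix.add_apply]
    exact (IsUltrametricDist.norm_add_le_max _ _).trans (max_le (ha' i j) (hb' i j))
  one_mem' := by
    refine ⟨one_mem _, fun i j => ?_⟩
    simpa using hr
  inv_mem' := by
    rintro a ⟨ha, ha'⟩
    refine ⟨inv_mem ha, fun i j => ?_⟩
    rw [Nk_inv_sub ha, Matrix.neg_apply, norm_neg]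
    exact ha' i j

theorem mem_NkB {r : ℝ} {hr : 0 ≤ r} {u : GL (Fin n) E} : u ∈ NkB n k E r hr ↔
    u ∈ Nk n k E ∧ ∀ i j, ‖((u : Matrix (Fin n) (Fin n) E) - 1) i j‖ ≤ r := Iff.rfl

theorem NkB_subset {r : ℝ} {hr : 0 ≤ r} :
    ((NkB n k E r hr : Subgroup (GL (Fin n) E)) : Set (GL (Fin n) E)) ⊆ Nk n k E :=
  fun _ hu => hu.1

theorem NkB_mono {r r' : ℝ} {hr : 0 ≤ r} {hr' : 0 ≤ r'} (h : r ≤ r') :
    NkB n k E r hr ≤ NkB n k E r' hr' := fun _ hu => ⟨hu.1, fun i j => (hu.2 i j).trans h⟩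

theorem isClosed_Nk : IsClosed ((Nk n k E : Subgroup (GL (Fin n) E)) : Set (GL (Fin n) E)) := by
  have : ((Nk n k E : Subgroup (GL (Fin n) E)) : Set (GL (Fin n) E)) =
      ⋂ (i : Fin n) (j : Fin n) (_ : ¬ (i.1 < k ∧ k ≤ j.1)), {u : GL (Fin n) E |
        (u : Matrix (Fin n) (Fin n) E) i j = (1 : Matrix (Fin n) (Fin n) E) i j} := by
    ext u
    simp only [Set.mem_iInter]
    rfl
  rw [this]
  exact isClosed_iInter fun i => isClosed_iInter fun j => isClosed_iInter fun _ =>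
    isClosed_eq (continuous_gl_entry i j) continuous_const

theorem NkB_isCompact [ProperSpace E] {r : ℝ} (hr : 0 ≤ r) :
    IsCompact ((NkB n k E r hr : Subgroup (GL (Fin n) E)) : Set (GL (Fin n) E)) := by
  refine (isCompact_gl_bdd (E := E) (ι := Fin n) (max r 1)).of_isClosed_subset ?_ ?_
  · have : ((NkB n k E r hr : Subgroup (GL (Fin n) E)) : Set (GL (Fin n) E)) =
        ((Nk n k E : Subgroup (GL (Fin n) E)) : Set (GL (Fin n) E)) ∩
          ⋂ (i : Fin n) (j : Fin n), {u : GL (Fin n) E |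
            ‖((u : Matrix (Fin n) (Fin n) E) - 1) i j‖ ≤ r} := by
      ext u
      simp only [Set.mem_inter_iff, Set.mem_iInter]
      rfl
    rw [this]
    refine isClosed_Nk.inter (isClosed_iInter fun i => isClosed_iInter fun j => ?_)
    refine isClosed_le ?_ continuous_const
    have h1 : Continuous fun u : GL (Fin n) E => ((u : Matrix (Fin n) (Fin n) E) - 1) i j :=
      (continuous_gl_entry i j).sub continuous_const
    exact h1.norm
  · have key : ∀ M : Matrix (Fin n) (Fin n) E, (∀ i j, ‖(M - 1) i j‖ ≤ r) →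
        ∀ i j, ‖M i j‖ ≤ max r 1 := by
      intro M hM i j
      have h1 : M i j = (M - 1) i j + (1 : Matrix (Fin n) (Fin n) E) i j := by simp
      rw [h1]
      exact (IsUltrametricDist.norm_add_le_max _ _).trans
        (max_le_max (hM i j) (norm_one_entry_le i j))
    intro u hu i j
    exact ⟨key _ hu.2 i j, key _ ((NkB n k E r hr).inv_mem hu).2 i j⟩

theorem exists_NkB {C : Set (GL (Fin n) E)} (hC : IsCompact C) (hCN : C ⊆ Nk n k E) :
    ∃ (r : ℝ) (hr : 0 ≤ r), C ⊆ NkB n k E r hr := by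
  have h1 : ∀ p : Fin n × Fin n, ∃ r : ℝ, ∀ u ∈ C,
      ‖((u : Matrix (Fin n) (Fin n) E) - 1) p.1 p.2‖ ≤ r := by
    intro p
    apply hC.exists_bound_of_continuousOn
    exact ((continuous_gl_entry p.1 p.2).sub continuous_const).continuousOn
  choose r hr using h1
  obtain ⟨M, hM⟩ := (Set.finite_range r).bddAbove
  refine ⟨max M 0, le_max_right _ _, fun u hu => ⟨hCN hu, fun i j => ?_⟩⟩
  exact (hr (i, j) u hu).trans ((hM ⟨(i, j), rfl⟩).trans (le_max_left _ _))

/-- compact subgroups of `N_k` are directed -/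
theorem Nk_directed [ProperSpace E] (C C' : Subgroup (GL (Fin n) E))
    (hC : IsCompact (C : Set (GL (Fin n) E))) (hC' : IsCompact (C' : Set (GL (Fin n) E)))
    (hN : (C : Set (GL (Fin n) E)) ⊆ Nk n k E) (hN' : (C' : Set (GL (Fin n) E)) ⊆ Nk n k E) :
    ∃ C'' : Subgroup (GL (Fin n) E), IsCompact (C'' : Set (GL (Fin n) E)) ∧
      (C'' : Set (GL (Fin n) E)) ⊆ Nk n k E ∧ C ≤ C'' ∧ C' ≤ C'' := by
  obtain ⟨r, hr, h⟩ := exists_NkB hC hN
  obtain ⟨r', hr', h'⟩ := exists_NkB hC' hN'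
  refine ⟨NkB n k E (max r r') (hr.trans (le_max_left _ _)), NkB_isCompact _, NkB_subset,
    fun u hu => ?_, fun u hu => ?_⟩
  · exact NkB_mono (le_max_left _ _) (h hu)
  · exact NkB_mono (le_max_right _ _) (h' hu)

end nkb

/-! ### the rank function -/

section rank

variable {E : Type} [NontriviallyNormedField E] {m : ℕ}

/-- the lower rows of the first `k` columns -/
def lowK (k : ℕ) (g : Matrix (Fin (2 * m)) (Fin (2 * m)) E) :
    Matrix (Fin m) {j : Fin (2 * m) // j.1 < k} E :=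
  fun i j => g (sI m (Sum.inr i)) j.1

/-- the rank of the lower rows of the first `k` columns -/
noncomputable def rkK (k : ℕ) (g : GL (Fin (2 * m)) E) : ℕ :=
  (lowK k (g : Matrix (Fin (2 * m)) (Fin (2 * m)) E)).rank

theorem continuous_lowK (k : ℕ) :
    Continuous fun g : GL (Fin (2 * m)) E => lowK k (g : Matrix (Fin (2 * m)) (Fin (2 * m)) E) := by
  apply continuous_matrix
  intro i j
  exact continuous_gl_entry _ _

theorem isOpen_rkK (k j : ℕ) : IsOpen {g : GL (Fin (2 * m)) E | j ≤ rkK k g} := by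
  rw [isOpen_iff_mem_nhds]
  intro g hg
  have h := eventually_rank_ge (continuous_lowK (E := E) (m := m) k) g
  filter_upwards [h] with x hx
  exact le_trans hg hx

theorem lowK_pel_mul (k : ℕ) (a d : GL (Fin m) E) (b : Matrix (Fin m) (Fin m) E)
    (g : GL (Fin (2 * m)) E) :
    lowK k ((pel a d b * g : GL (Fin (2 * m)) E) : Matrix (Fin (2 * m)) (Fin (2 * m)) E) =
      (d : Matrix (Fin m) (Fin m) E) * lowK k (g : Matrix (Fin (2 * m)) (Fin (2 * m)) E) := by
  ext i j
  rw [Units.val_mul]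
  show (bm (a : Matrix (Fin m) (Fin m) E) b 0 (d : Matrix (Fin m) (Fin m) E) *
    (g : Matrix (Fin (2 * m)) (Fin (2 * m)) E)) (sI m (Sum.inr i)) j.1 = _
  rw [Matrix.mul_apply, Matrix.mul_apply, ← (sI m).sum_comp, Fintype.sum_sum_type]
  simp [bm, lowK]

theorem rkK_pel_mul (k : ℕ) (a d : GL (Fin m) E) (b : Matrix (Fin m) (Fin m) E)
    (g : GL (Fin (2 * m)) E) : rkK k (pel a d b * g) = rkK k g := by
  rw [rkK, lowK_pel_mul, rkK]
  have hd : IsUnit (d : Matrix (Fin m) (Fin m) E).det :=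
    (Matrix.isUnit_iff_isUnit_det _).1 (Units.isUnit d)
  exact Matrix.rank_mul_eq_right_of_isUnit_det _ _ hd

theorem rkK_le (k : ℕ) (g : GL (Fin (2 * m)) E) : rkK k g ≤ m := by
  have := Matrix.rank_le_card_height (lowK k (g : Matrix (Fin (2 * m)) (Fin (2 * m)) E))
  rwa [Fintype.card_fin] at this

end rank

/-! ### the parabolic subgroup and its representation -/

section par

variable {E : Type} [NontriviallyNormedField E] {m : ℕ} {W : Type} [AddCommGroup W] [Module ℂ W]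

theorem pel_injective {a d a' d' : GL (Fin m) E} {b b' : Matrix (Fin m) (Fin m) E}
    (h : pel a d b = pel a' d' b') : a = a' ∧ d = d' ∧ b = b' := by
  have h1 : bm (a : Matrix (Fin m) (Fin m) E) b 0 (d : Matrix (Fin m) (Fin m) E) =
      bm (a' : Matrix (Fin m) (Fin m) E) b' 0 (d' : Matrix (Fin m) (Fin m) E) :=
    congrArg Units.val h
  have h2 := (Matrix.reindex (sI m) (sI m)).injective h1
  rw [Matrix.fromBlocks_inj] at h2
  exact ⟨Units.ext h2.1, Units.ext h2.2.2.2, h2.2.1⟩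

/-- the parabolic subgroup -/
def PS (m : ℕ) (E : Type) [Field E] : Subgroup (GL (Fin (2 * m)) E) where
  carrier := {g | ∃ a d b, g = pel a d b}
  mul_mem' := by
    rintro _ _ ⟨a, d, b, rfl⟩ ⟨a', d', b', rfl⟩
    exact ⟨_, _, _, pel_mul _ _ _ _ _ _⟩
  one_mem' := ⟨1, 1, 0, pel_one.symm⟩
  inv_mem' := by
    rintro _ ⟨a, d, b, rfl⟩
    refine ⟨a⁻¹, d⁻¹, -(((a⁻¹ : GL (Fin m) E) : Matrix (Fin m) (Fin m) E) * b *
      ((d⁻¹ : GL (Fin m) E) : Matrix (Fin m) (Fin m) E)), ?_⟩
    apply Units.ext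
    rfl

/-- the upper block of an element of the parabolic subgroup -/
noncomputable def pA (p : PS m E) : GL (Fin m) E := Exists.choose (p.2 : ∃ a d b, _ = pel a d b)

/-- the lower block of an element of the parabolic subgroup -/
noncomputable def pD (p : PS m E) : GL (Fin m) E :=
  Exists.choose (Exists.choose_spec (p.2 : ∃ a d b, _ = pel a d b))

theorem exists_pel (p : PS m E) : ∃ b, (p : GL (Fin (2 * m)) E) = pel (pA p) (pD p) b :=
  Exists.choose_spec (Exists.choose_spec (p.2 : ∃ a d b, _ = pel a d b))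

theorem pA_eq {p : PS m E} {a d : GL (Fin m) E} {b : Matrix (Fin m) (Fin m) E}
    (h : (p : GL (Fin (2 * m)) E) = pel a d b) : pA p = a := by
  obtain ⟨b₁, h₁⟩ := exists_pel p
  exact (pel_injective (h₁.symm.trans h)).1

theorem pD_eq {p : PS m E} {a d : GL (Fin m) E} {b : Matrix (Fin m) (Fin m) E}
    (h : (p : GL (Fin (2 * m)) E) = pel a d b) : pD p = d := by
  obtain ⟨b₁, h₁⟩ := exists_pel p
  exact (pel_injective (h₁.symm.trans h)).2.1

theorem exists_pel_mul (p q : PS m E) : ∃ b, ((p * q : PS m E) : GL (Fin (2 * m)) E) =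
    pel (pA p * pA q) (pD p * pD q) b := by
  obtain ⟨b₁, h₁⟩ := exists_pel p
  obtain ⟨b₂, h₂⟩ := exists_pel q
  refine ⟨(pA p : Matrix (Fin m) (Fin m) E) * b₂ + b₁ * (pD q : Matrix (Fin m) (Fin m) E), ?_⟩
  rw [← pel_mul, ← h₁, ← h₂]
  rfl

/-- the representation of the parabolic subgroup -/
noncomputable def tauP (ρ : (GL (Fin m) E × GL (Fin m) E) →* Module.End ℂ W) :
    PS m E →* Module.End ℂ W where
  toFun p := ρ (pA p, pD p)
  map_one' := by
    have h : ((1 : PS m E) : GL (Fin (2 * m)) E) = pel 1 1 0 := pel_one.symm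
    rw [pA_eq h, pD_eq h]
    exact map_one ρ
  map_mul' p q := by
    obtain ⟨b, h⟩ := exists_pel_mul p q
    rw [pA_eq h, pD_eq h, ← map_mul, Prod.mk_mul_mk]

theorem tauP_pel (ρ : (GL (Fin m) E × GL (Fin m) E) →* Module.End ℂ W) (p : PS m E)
    {a d : GL (Fin m) E} {b : Matrix (Fin m) (Fin m) E}
    (h : (p : GL (Fin (2 * m)) E) = pel a d b) : tauP ρ p = ρ (a, d) := by
  show ρ (pA p, pD p) = _
  rw [pA_eq h, pD_eq h]

theorem mem_indE_tauP {ρ : (GL (Fin m) E × GL (Fin m) E) →* Module.End ℂ W}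
    {f : GL (Fin (2 * m)) E → W} : f ∈ indE (PS m E) (tauP ρ) ↔
      ∀ a d b g, f (pel a d b * g) = ρ (a, d) (f g) := by
  constructor
  · intro h a d b g
    have h1 := h ⟨pel a d b, ⟨a, d, b, rfl⟩⟩ g
    rw [tauP_pel ρ _ rfl] at h1
    exact h1
  · rintro h ⟨_, a, d, b, rfl⟩ g
    rw [tauP_pel ρ _ rfl]
    exact h a d b g

theorem indS_eq_Ind [IsUltrametricDist E] [ProperSpace E]
    (ρ : (GL (Fin m) E × GL (Fin m) E) →* Module.End ℂ W) :
    indS (PS m E) (tauP ρ) = Ind ρ := by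
  ext f
  constructor
  · rintro ⟨h1, K, hK, h2⟩
    refine ⟨mem_indE_tauP.1 h1, ?_⟩
    filter_upwards [hK.mem_nhds K.one_mem] with k hk g
    exact h2 g k hk
  · rintro ⟨h1, h2⟩
    obtain ⟨K, hKo, -, hK⟩ := gl_basis _ h2
    exact ⟨mem_indE_tauP.2 h1, K, hKo, fun g k hk => hK hk g⟩

theorem mem_cvN_of_coi [IsUltrametricDist E] [ProperSpace E]
    {ρ : (GL (Fin m) E × GL (Fin m) E) →* Module.End ℂ W} {N : Subgroup (GL (Fin (2 * m)) E)}
    {f : GL (Fin (2 * m)) E → W} (hf : f ∈ coi (N : Set (GL (Fin (2 * m)) E))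
      (indS (PS m E) (tauP ρ))) : ∃ h : f ∈ Ind ρ, (⟨f, h⟩ : Ind ρ) ∈ cvN (indAct ρ) N ⊤ := by
  rw [indS_eq_Ind] at hf
  have H : ∀ f ∈ coi (N : Set (GL (Fin (2 * m)) E)) (Ind ρ),
      f ∈ (cvN (indAct ρ) N ⊤).map (Ind ρ).subtype := by
    intro f hf
    refine (Submodule.span_le (p := (cvN (indAct ρ) N ⊤).map (Ind ρ).subtype)).2 ?_ hf
    rintro _ ⟨u, hu, f', hf', rfl⟩
    refine ⟨indAct ρ u ⟨f', hf'⟩ - ⟨f', hf'⟩, Submodule.subset_span
      ⟨u, hu, ⟨f', hf'⟩, Submodule.mem_top, rfl⟩, ?_⟩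
    funext x
    rfl
  obtain ⟨f', hf', rfl⟩ := H f hf
  exact ⟨f'.2, hf'⟩

/-- smooth representations of `GL_m × GL_m` give smooth representations of the parabolic -/
theorem tauP_smooth {ρ : (GL (Fin m) E × GL (Fin m) E) →* Module.End ℂ W}
    (hρ : IsSmoothRep ρ) (w : W) : ∀ᶠ p in 𝓝 (1 : PS m E), tauP ρ p w = w := by
  have hc : Continuous fun p : PS m E => ((pA p, pD p) : GL (Fin m) E × GL (Fin m) E) := by
    have e1 : ∀ (p : PS m E) (i j : Fin m),
        (pA p : Matrix (Fin m) (Fin m) E) i j =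
          ((p : GL (Fin (2 * m)) E) : Matrix (Fin (2 * m)) (Fin (2 * m)) E)
            (sI m (Sum.inl i)) (sI m (Sum.inl j)) := by
      intro p i j
      obtain ⟨b, hb⟩ := exists_pel p
      rw [hb]
      show _ = bm _ _ _ _ _ _
      simp [bm]
    have e2 : ∀ (p : PS m E) (i j : Fin m),
        (pD p : Matrix (Fin m) (Fin m) E) i j =
          ((p : GL (Fin (2 * m)) E) : Matrix (Fin (2 * m)) (Fin (2 * m)) E)
            (sI m (Sum.inr i)) (sI m (Sum.inr j)) := by
      intro p i j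
      obtain ⟨b, hb⟩ := exists_pel p
      rw [hb]
      show _ = bm _ _ _ _ _ _
      simp [bm]
    have e3 : ∀ (p : PS m E) (i j : Fin m),
        (((pA p)⁻¹ : GL (Fin m) E) : Matrix (Fin m) (Fin m) E) i j =
          (((p : GL (Fin (2 * m)) E)⁻¹ : GL (Fin (2 * m)) E) :
            Matrix (Fin (2 * m)) (Fin (2 * m)) E) (sI m (Sum.inl i)) (sI m (Sum.inl j)) := by
      intro p i j
      obtain ⟨b, hb⟩ := exists_pel p
      rw [hb]
      show _ = bm _ _ _ _ _ _
      simp [bm]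
    have e4 : ∀ (p : PS m E) (i j : Fin m),
        (((pD p)⁻¹ : GL (Fin m) E) : Matrix (Fin m) (Fin m) E) i j =
          (((p : GL (Fin (2 * m)) E)⁻¹ : GL (Fin (2 * m)) E) :
            Matrix (Fin (2 * m)) (Fin (2 * m)) E) (sI m (Sum.inr i)) (sI m (Sum.inr j)) := by
      intro p i j
      obtain ⟨b, hb⟩ := exists_pel p
      rw [hb]
      show _ = bm _ _ _ _ _ _
      simp [bm]
    refine Continuous.prodMk ?_ ?_
    · refine Units.continuous_iff.2 ⟨continuous_matrix fun i j => ?_,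
        continuous_matrix fun i j => ?_⟩
      · simp only [Function.comp_apply, e1]
        exact (continuous_gl_entry _ _).comp continuous_subtype_val
      · simp only [e3]
        exact (continuous_gl_inv_entry _ _).comp continuous_subtype_val
    · refine Units.continuous_iff.2 ⟨continuous_matrix fun i j => ?_,
        continuous_matrix fun i j => ?_⟩
      · simp only [Function.comp_apply, e2]
        exact (continuous_gl_entry _ _).comp continuous_subtype_val
      · simp only [e4]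
        exact (continuous_gl_inv_entry _ _).comp continuous_subtype_val
  have h1 : Tendsto (fun p : PS m E => ((pA p, pD p) : GL (Fin m) E × GL (Fin m) E))
      (𝓝 1) (𝓝 1) := by
    have h2 := hc.tendsto 1
    have h : ((1 : PS m E) : GL (Fin (2 * m)) E) = pel 1 1 0 := pel_one.symm
    rw [pA_eq h, pD_eq h] at h2
    exact h2
  exact h1.eventually (hρ w)

end par

end SpW
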