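import Pool.Agent.Work.MP_3615d2_al.SubquoB
import Pool.Agent.Work.MP_3615d2_al.GeoC
import Pool.Agent.Work.MP_3615d2_al.Iwa
import Pool.Agent.Work.MP_3615d2_al.Adm

/-!
MP_3615d2_al, Theorem B, module R1: coinvariants, Frobenius reciprocity, evaluation at `1`.
-/

open Matrix Filter Topology
open scoped TensorProduct

namespace SpW

section R1

variable {G V W : Type} [Group G] [AddCommGroup V] [Module ℂ V] [AddCommGroup W] [Module ℂ W]
  {π : G →* Module.End ℂ V} {N : Subgroup G}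

theorem cvN_mono {A B : Submodule ℂ V} (h : A ≤ B) : cvN π N A ≤ cvN π N B :=
  Submodule.span_mono (by
    rintro _ ⟨n, hn, v, hv, rfl⟩
    exact ⟨n, hn, v, h hv, rfl⟩)

theorem cvN_mono_left {N N' : Subgroup G} {A : Submodule ℂ V} (h : N ≤ N') :
    cvN π N A ≤ cvN π N' A :=
  Submodule.span_mono (by
    rintro _ ⟨n, hn, v, hv, rfl⟩
    exact ⟨n, h hn, v, hv, rfl⟩)

theorem cvN_map {π' : G →* Module.End ℂ W} (T : V →ₗ[ℂ] W) (hT : ∀ g v, T (π g v) = π' g (T v))
    (A : Submodule ℂ V) : cvN π' N (A.map T) = (cvN π N A).map T := by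
  unfold cvN
  rw [Submodule.map_span]
  congr 1
  ext x
  constructor
  · rintro ⟨n, hn, _, ⟨v, hv, rfl⟩, rfl⟩
    refine ⟨π n v - v, ⟨n, hn, v, hv, rfl⟩, ?_⟩
    rw [map_sub, hT]
  · rintro ⟨_, ⟨n, hn, v, hv, rfl⟩, rfl⟩
    refine ⟨n, hn, T v, ⟨v, hv, rfl⟩, ?_⟩
    rw [map_sub, hT]

/-- R1b: coinvariants of quotients. -/
theorem cvN_quo {A : Submodule ℂ V} (hA : IsStab π A) (B : Submodule ℂ V) :
    cvN (quoRep π A hA) N (B.map A.mkQ) = (cvN π N B).map A.mkQ :=
  cvN_map A.mkQ (fun g v => (quoRep_mk π A hA g v).symm) B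

theorem cvN_sup (A B : Submodule ℂ V) : cvN π N (A ⊔ B) = cvN π N A ⊔ cvN π N B := by
  apply le_antisymm
  · refine Submodule.span_le.2 ?_
    rintro _ ⟨n, hn, v, hv, rfl⟩
    obtain ⟨a, ha, b, hb, rfl⟩ := Submodule.mem_sup.1 hv
    have h1 : π n (a + b) - (a + b) = (π n a - a) + (π n b - b) := by
      rw [map_add]
      abel
    show π n (a + b) - (a + b) ∈ cvN π N A ⊔ cvN π N B
    rw [h1]
    exact Submodule.add_mem_sup (Submodule.subset_span ⟨n, hn, a, ha, rfl⟩)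
      (Submodule.subset_span ⟨n, hn, b, hb, rfl⟩)
  · exact sup_le (cvN_mono le_sup_left) (cvN_mono le_sup_right)

/-- R1c: stability under the normaliser. -/
theorem cvN_stab {A : Submodule ℂ V} (p : G) (hp : ∀ n ∈ N, p * n * p⁻¹ ∈ N)
    (hA : ∀ v ∈ A, π p v ∈ A) : ∀ v ∈ cvN π N A, π p v ∈ cvN π N A := by
  intro v hv
  have h1 : cvN π N A ≤ (cvN π N A).comap (π p) := by
    refine Submodule.span_le.2 ?_
    rintro _ ⟨n, hn, w, hw, rfl⟩
    show π p (π n w - w) ∈ cvN π N A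
    have h2 : π p (π n w - w) = π (p * n * p⁻¹) (π p w) - π p w := by
      rw [map_sub, ← Module.End.mul_apply, ← map_mul, ← Module.End.mul_apply, ← map_mul,
        inv_mul_cancel_right]
    rw [h2]
    exact Submodule.subset_span ⟨_, hp n hn, _, hA w hw, rfl⟩
  exact h1 hv

end R1

section exact

variable {G V : Type} [Group G] [TopologicalSpace G] [IsTopologicalGroup G] [AddCommGroup V]
  [Module ℂ V]

/-- exactness for a compact group -/
theorem cvN_exact_top [CompactSpace G] {π : G →* Module.End ℂ V} (hπ : IsSmoothRep π)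
    {A : Submodule ℂ V} (hA : IsStab π A) {x : V} (hx : x ∈ A) (hx' : x ∈ cvN π ⊤ ⊤) :
    x ∈ cvN π ⊤ A := by
  have hS : IsStab π (cvN π ⊤ A) := fun g v hv =>
    cvN_stab g (fun _ _ => Subgroup.mem_top _) (hA g) v hv
  let π' := quoRep π (cvN π ⊤ A) hS
  have hsm : IsSmoothRep π' := by
    intro v
    obtain ⟨w, rfl⟩ := (cvN π ⊤ A).mkQ_surjective v
    have h1 : ∀ᶠ g in 𝓝 (1 : G), π g w = w := hπ w
    filter_upwards [h1] with g hg
    show quoRep π (cvN π ⊤ A) hS g _ = _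
    rw [quoRep_mk, hg]
  obtain ⟨e, he1, -, he3⟩ := exists_avK hsm ⊤ (by
    rw [Subgroup.coe_top]
    exact isCompact_univ)
  have h1 : e ((cvN π ⊤ A).mkQ x) = (cvN π ⊤ A).mkQ x := by
    apply he3
    intro g _
    show quoRep π (cvN π ⊤ A) hS g _ = _
    rw [quoRep_mk, ← sub_eq_zero, ← map_sub, Submodule.mkQ_apply, Submodule.Quotient.mk_eq_zero]
    exact Submodule.subset_span ⟨g, Subgroup.mem_top _, x, hx, rfl⟩
  have h2 : cvN π ⊤ ⊤ ≤ LinearMap.ker (e ∘ₗ (cvN π ⊤ A).mkQ) := by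
    refine Submodule.span_le.2 ?_
    rintro _ ⟨n, -, v, -, rfl⟩
    show e ((cvN π ⊤ A).mkQ (π n v - v)) = 0
    have h3 := he1 n (Subgroup.mem_top _) ((cvN π ⊤ A).mkQ v)
    have h4 : π' n ((cvN π ⊤ A).mkQ v) = (cvN π ⊤ A).mkQ (π n v) := quoRep_mk _ _ _ _ _
    rw [h4] at h3
    rw [map_sub, map_sub, h3, sub_self]
  have h3 : e ((cvN π ⊤ A).mkQ x) = 0 := h2 hx'
  rw [h1, Submodule.mkQ_apply, Submodule.Quotient.mk_eq_zero] at h3
  exact h3

variable {π : G →* Module.End ℂ V} {N : Subgroup G}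

/-- exactness for a compact subgroup -/
theorem cvN_exact_cpt (hπ : IsSmoothRep π) (hN : IsCompact (N : Set G))
    {A : Submodule ℂ V} (hA : ∀ n ∈ N, ∀ v ∈ A, π n v ∈ A) {x : V} (hx : x ∈ A)
    (hx' : x ∈ cvN π N ⊤) : x ∈ cvN π N A := by
  have : CompactSpace N := isCompact_iff_compactSpace.1 hN
  let π' : N →* Module.End ℂ V := π.comp N.subtype
  have hsm : IsSmoothRep π' := by
    intro v
    have h1 : Tendsto (fun g : N => (g : G)) (𝓝 1) (𝓝 1) := by
      have : Continuous fun g : N => (g : G) := continuous_subtype_val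
      simpa using this.tendsto 1
    exact h1.eventually (hπ v)
  have key : ∀ B : Submodule ℂ V, cvN π' ⊤ B = cvN π N B := by
    intro B
    unfold cvN
    congr 1
    ext y
    constructor
    · rintro ⟨n, -, v, hv, rfl⟩
      exact ⟨n, n.2, v, hv, rfl⟩
    · rintro ⟨n, hn, v, hv, rfl⟩
      exact ⟨⟨n, hn⟩, Subgroup.mem_top _, v, hv, rfl⟩
  rw [← key] at hx' ⊢
  exact cvN_exact_top hsm (fun n v hv => hA n n.2 v hv) hx hx'

/-- R1a: exactness of the coinvariants. -/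
theorem cvN_exact (hπ : IsSmoothRep π)
    (hN : ∃ C : ℕ → Subgroup G, Monotone C ∧ (∀ i, IsCompact (C i : Set G)) ∧
      ∀ n, n ∈ N ↔ ∃ i, n ∈ C i)
    {A B : Submodule ℂ V} (hAB : A ≤ B) (hA : ∀ n ∈ N, ∀ v ∈ A, π n v ∈ A)
    (hB : ∀ n ∈ N, ∀ v ∈ B, π n v ∈ B) : A ⊓ cvN π N B = cvN π N A := by
  obtain ⟨C, hCm, hCc, hC⟩ := hN
  have hCN : ∀ i, C i ≤ N := fun i n hn => (hC n).2 ⟨i, hn⟩
  apply le_antisymm
  · rintro x ⟨hxA, hxB⟩
    have h1 : ∀ y ∈ cvN π N B, ∃ i, y ∈ cvN π (C i) B := by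
      intro y hy
      change y ∈ Submodule.span ℂ _ at hy
      induction hy using Submodule.span_induction with
      | mem y hy =>
        obtain ⟨n, hn, v, hv, rfl⟩ := hy
        obtain ⟨i, hi⟩ := (hC n).1 hn
        exact ⟨i, Submodule.subset_span ⟨n, hi, v, hv, rfl⟩⟩
      | zero => exact ⟨0, Submodule.zero_mem _⟩
      | add y z _ _ hy hz =>
        obtain ⟨i, hi⟩ := hy
        obtain ⟨j, hj⟩ := hz
        exact ⟨max i j, Submodule.add_mem _ (cvN_mono_left (hCm (le_max_left i j)) hi)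
          (cvN_mono_left (hCm (le_max_right i j)) hj)⟩
      | smul c y _ hy =>
        obtain ⟨i, hi⟩ := hy
        exact ⟨i, Submodule.smul_mem _ _ hi⟩
    obtain ⟨i, hi⟩ := h1 x hxB
    exact cvN_mono_left (hCN i) (cvN_exact_cpt hπ (hCc i) (fun n hn => hA n (hCN i hn)) hxA
      (cvN_mono le_top hi))
  · refine le_inf ?_ (cvN_mono hAB)
    refine Submodule.span_le.2 ?_
    rintro _ ⟨n, hn, v, hv, rfl⟩
    exact A.sub_mem (hA n hn v hv) hv

end exact

section R1'

variable {E : Type} [NontriviallyNormedField E] [IsUltrametricDist E] [ProperSpace E] {m : ℕ}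
  {W A : Type} [AddCommGroup W] [Module ℂ W] [AddCommGroup A] [Module ℂ A]

/-- R1d: `Nk` is the increasing union of compact subgroups. -/
theorem Nk_union (n k : ℕ) : ∃ C : ℕ → Subgroup (GL (Fin n) E), Monotone C ∧
    (∀ i, IsCompact (C i : Set (GL (Fin n) E))) ∧ ∀ u, u ∈ Nk n k E ↔ ∃ i, u ∈ C i := by
  refine ⟨fun i => NkB n k E i i.cast_nonneg, fun i j h => NkB_mono (Nat.cast_le.2 h),
    fun i => NkB_isCompact _, fun u => ⟨fun hu => ?_, fun ⟨i, hi⟩ => hi.1⟩⟩
  obtain ⟨r, hr, h⟩ := exists_NkB (isCompact_singleton (x := u)) (by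
    rintro _ rfl
    exact hu)
  obtain ⟨i, hi⟩ := exists_nat_ge r
  exact ⟨i, NkB_mono (hr' := i.cast_nonneg) hi (h rfl)⟩

/-- R1e: `Nk (2m) m` consists of the `pel 1 1 b`. -/
theorem mem_Nk_mid (u : GL (Fin (2 * m)) E) : u ∈ Nk (2 * m) m E ↔ ∃ b, u = pel 1 1 b := by
  refine ⟨fun hu => exists_pel_of_mem hu, ?_⟩
  rintro ⟨b, rfl⟩ i j hij
  obtain ⟨i, rfl⟩ := (sI m).surjective i
  obtain ⟨j, rfl⟩ := (sI m).surjective j
  show bm _ _ _ _ _ _ = _
  unfold bm
  rw [Matrix.reindex_apply, Matrix.submatrix_apply, Equiv.symm_apply_apply,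
    Equiv.symm_apply_apply]
  rcases i with i | i <;> rcases j with j | j
  · simp [Matrix.one_apply]
  · exact absurd ⟨by simp [sI_inl, i.2], by simp [sI_inr]⟩ hij
  · simp [Matrix.one_apply]
  · simp [Matrix.one_apply]

theorem lowL_eq_zero (g : GL (Fin (2 * m)) E) :
    lowL (g : Matrix (Fin (2 * m)) (Fin (2 * m)) E) = 0 ↔ ∃ a d b, g = pel a d b :=
  (exists_pel_iff g).symm

/-- R1f: Frobenius reciprocity. -/
theorem exists_frob (ρ : (GL (Fin m) E × GL (Fin m) E) →* Module.End ℂ W)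
    (πA : GL (Fin (2 * m)) E →* Module.End ℂ A) (hA : IsSmoothRep πA) (φ : A →ₗ[ℂ] W)
    (hφ : ∀ a d b v, φ (πA (pel a d b) v) = ρ (a, d) (φ v)) :
    ∃ F : A →ₗ[ℂ] Ind ρ, (∀ g v, F (πA g v) = indAct ρ g (F v)) ∧
      ∀ v, ((F v : Ind ρ) : GL (Fin (2 * m)) E → W) 1 = φ v := by
  let F : A →ₗ[ℂ] Ind ρ :=
    { toFun := fun v => ⟨fun g => φ (πA g v), by
        refine ⟨fun a d b g => ?_, ?_⟩
        · show φ (πA (pel a d b * g) v) = ρ (a, d) (φ (πA g v))
          rw [map_mul, Module.End.mul_apply, hφ]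
        · have h1 : ∀ᶠ k in 𝓝 (1 : GL (Fin (2 * m)) E), πA k v = v := hA v
          filter_upwards [h1] with k hk g
          show φ (πA (g * k) v) = φ (πA g v)
          rw [map_mul, Module.End.mul_apply, hk]⟩
      map_add' := by
        intro v w
        apply Subtype.ext
        funext g
        show φ (πA g (v + w)) = φ (πA g v) + φ (πA g w)
        rw [map_add, map_add]
      map_smul' := by
        intro c v
        apply Subtype.ext
        funext g
        show φ (πA g (c • v)) = c • φ (πA g v)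
        rw [map_smul, map_smul] }
  refine ⟨F, fun g v => ?_, fun v => ?_⟩
  · apply Subtype.ext
    funext x
    rw [indAct_apply]
    show φ (πA x (πA g v)) = φ (πA (x * g) v)
    rw [map_mul, Module.End.mul_apply]
  · show φ (πA 1 v) = φ v
    rw [map_one, Module.End.one_apply]

/-- R1g: an element of `Ind` whose translates vanish at `1` is zero. -/
theorem ind_ext_one (ρ : (GL (Fin m) E × GL (Fin m) E) →* Module.End ℂ W) (f : Ind ρ)
    (h : ∀ g, ((indAct ρ g f : Ind ρ) : GL (Fin (2 * m)) E → W) 1 = 0) : f = 0 := by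
  apply Subtype.ext
  funext g
  have h1 := h g
  rw [indAct_apply, one_mul] at h1
  exact h1

/-- R1h: every vector of a smooth `ρ` is the value at `1` of an element of `Ind`. -/
theorem ind_ev_surj (ρ : (GL (Fin m) E × GL (Fin m) E) →* Module.End ℂ W) (hρ : IsSmoothRep ρ)
    (w : W) : ∃ f : Ind ρ, (f : GL (Fin (2 * m)) E → W) 1 = w := by
  have h1 := tauP_smooth hρ w
  rw [nhds_subtype_eq_comap, Filter.eventually_comap] at h1
  obtain ⟨K, hKo, -, hK⟩ := gl_basis _ h1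
  have hw : w ∈ wfix (tauP ρ) K 1 := by
    intro p k hk h
    rw [one_mul, inv_one, mul_one] at h
    exact hK hk p h
  have h2 : bump (tauP ρ) K 1 w ∈ Ind ρ := by
    rw [← indS_eq_Ind]
    exact bump_mem_indS hKo hw
  refine ⟨⟨_, h2⟩, ?_⟩
  have h3 := bump_apply hw 1 K.one_mem
  rw [map_one, Module.End.one_apply, Subgroup.coe_one, mul_one, mul_one] at h3
  exact h3

end R1'

end SpW
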