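import Pool.Agent.Work.MP_3615d2_al.Defs

/-!
MP_3615d2_al: T5b.  An element of `U(X)` with bounded powers lies in a compact open subgroup:
the stabiliser of the lattice of all vectors whose orbit stays in the unit ball.
-/

open Filter Topology

namespace SpW

section

variable {F E : Type} [NontriviallyNormedField F] [ProperSpace F]
  [NontriviallyNormedField E] [NormedAlgebra F E] [ProperSpace E]

theorem cO_sigma_continuous (σ : E ≃ₐ[F] E) : Continuous σ := by
  have : FiniteDimensional F E := FiniteDimensional.of_locallyCompactSpace F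
  exact σ.toLinearMap.continuous_of_finiteDimensional

end

section

variable {F E : Type} [NontriviallyNormedField F] [NontriviallyNormedField E] [NormedAlgebra F E]
  {σ : E ≃ₐ[F] E} {N : ℕ} {H : Matrix (Fin N) (Fin N) E}

theorem cO_sk_continuous (hσ : Continuous σ) :
    Continuous fun z : (Fin N → E) × (Fin N → E) => sk σ H z.1 z.2 := by
  unfold sk
  refine continuous_finsetSum _ fun i _ => continuous_finsetSum _ fun j _ => ?_
  exact (((continuous_apply i).comp continuous_fst).mul continuous_const).mul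
    (hσ.comp ((continuous_apply j).comp continuous_snd))

theorem cO_umat_continuous : Continuous fun g : unitary σ H => umat g :=
  Units.continuous_val.comp continuous_subtype_val

theorem cO_umat_inv_continuous : Continuous fun g : unitary σ H => umat g⁻¹ :=
  cO_umat_continuous.comp continuous_inv

theorem cO_umat_one : umat (1 : unitary σ H) = 1 := rfl

theorem cO_umat_mul (g h : unitary σ H) : umat (g * h) = umat g * umat h := rfl

theorem cO_umat_mul_inv (g : unitary σ H) : umat g * umat g⁻¹ = 1 := by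
  rw [← cO_umat_mul, mul_inv_cancel, cO_umat_one]

theorem cO_umat_inv_mul (g : unitary σ H) : umat g⁻¹ * umat g = 1 := by
  rw [← cO_umat_mul, inv_mul_cancel, cO_umat_one]

end

section

variable {E : Type} [NontriviallyNormedField E] [IsUltrametricDist E]

theorem cO_mulVec_norm_le {N : ℕ} (M : Matrix (Fin N) (Fin N) E) {C : ℝ} (hC : 0 ≤ C)
    (hM : ∀ i j, ‖M i j‖ ≤ C) (v : Fin N → E) {R : ℝ} (hR : 0 ≤ R) (hv : ∀ j, ‖v j‖ ≤ R) (i : Fin N) :
    ‖M.mulVec v i‖ ≤ C * R := by
  unfold Matrix.mulVec dotProduct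
  refine IsUltrametricDist.norm_sum_le_of_forall_le_of_nonneg (mul_nonneg hC hR) fun j _ => ?_
  rw [norm_mul]
  exact mul_le_mul (hM i j) (hv j) (norm_nonneg _) hC

end

section

variable {F E : Type} [NontriviallyNormedField F] [ProperSpace F]
  [NontriviallyNormedField E] [NormedAlgebra F E] [ProperSpace E]
  {σ : E ≃ₐ[F] E} {N : ℕ} {H : Matrix (Fin N) (Fin N) E}

/-- A closed set of elements of `U(X)` with bounded entries is compact. -/
theorem cO_compact_of_bdd (T : Set (unitary σ H)) (hT : IsClosed T) (R : ℝ)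
    (h : ∀ g ∈ T, ∀ i j, ‖umat g i j‖ ≤ R ∧ ‖umat g⁻¹ i j‖ ≤ R) : IsCompact T := by
  have hσ : Continuous σ := cO_sigma_continuous σ
  set B : Set (Matrix (Fin N) (Fin N) E) := {M | ∀ i j, ‖M i j‖ ≤ R} with hB
  have hBc : IsCompact B := by
    have h1 : IsCompact (Set.pi Set.univ fun _ : Fin N =>
        Set.pi Set.univ fun _ : Fin N => Metric.closedBall (0 : E) R) :=
      isCompact_univ_pi fun _ => isCompact_univ_pi fun _ => isCompact_closedBall _ _
    refine h1.of_isClosed_subset ?_ ?_
    · have h2 : B = ⋂ i, ⋂ j, {M : Matrix (Fin N) (Fin N) E | ‖M i j‖ ≤ R} := by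
        ext M
        simp [hB]
      rw [h2]
      refine isClosed_iInter fun i => isClosed_iInter fun j => ?_
      exact isClosed_le (continuous_norm.comp
        ((continuous_apply j).comp (continuous_apply i))) continuous_const
    · intro M hM i _ j _
      simpa using hM i j
  set K : Set (Matrix (Fin N) (Fin N) E × Matrix (Fin N) (Fin N) E) :=
    {z | z.1 * z.2 = 1 ∧ z.2 * z.1 = 1 ∧
      ∀ x y : Fin N → E, sk σ H (z.1.mulVec x) (z.1.mulVec y) = sk σ H x y} with hK
  have hKc : IsClosed K := by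
    have h1 : IsClosed {z : Matrix (Fin N) (Fin N) E × Matrix (Fin N) (Fin N) E | z.1 * z.2 = 1} :=
      isClosed_eq (continuous_fst.matrix_mul continuous_snd) continuous_const
    have h2 : IsClosed {z : Matrix (Fin N) (Fin N) E × Matrix (Fin N) (Fin N) E | z.2 * z.1 = 1} :=
      isClosed_eq (continuous_snd.matrix_mul continuous_fst) continuous_const
    have h3 : IsClosed {z : Matrix (Fin N) (Fin N) E × Matrix (Fin N) (Fin N) E |
        ∀ x y : Fin N → E, sk σ H (z.1.mulVec x) (z.1.mulVec y) = sk σ H x y} := by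
      simp only [Set.ofPred_forall]
      refine isClosed_iInter fun x => isClosed_iInter fun y => ?_
      refine isClosed_eq ?_ continuous_const
      exact (cO_sk_continuous hσ).comp ((continuous_fst.matrix_mulVec continuous_const).prodMk
        (continuous_fst.matrix_mulVec continuous_const))
    exact h1.inter (h2.inter h3)
  have hBK : IsCompact ((B ×ˢ B) ∩ K) := (hBc.prod hBc).inter_right hKc
  have : CompactSpace ((B ×ˢ B) ∩ K : Set _) := isCompact_iff_compactSpace.1 hBK
  let φ : ((B ×ˢ B) ∩ K : Set _) → unitary σ H := fun z =>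
    ⟨⟨z.1.1, z.1.2, z.2.2.1, z.2.2.2.1⟩, z.2.2.2.2⟩
  have hφ : Continuous φ := by
    refine Continuous.subtype_mk ?_ _
    refine Units.continuous_iff.2 ⟨?_, ?_⟩
    · exact continuous_fst.comp continuous_subtype_val
    · exact continuous_snd.comp continuous_subtype_val
  refine (isCompact_range hφ).of_isClosed_subset hT ?_
  intro g hg
  refine ⟨⟨(umat g, umat g⁻¹), ⟨⟨fun i j => (h g hg i j).1, fun i j => (h g hg i j).2⟩,
    ⟨cO_umat_mul_inv g, cO_umat_inv_mul g, g.2⟩⟩⟩, ?_⟩
  apply Subtype.ext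
  apply Units.ext
  rfl

variable [IsUltrametricDist E]

/-- T5b: an element of `U(X)` with bounded powers lies in a compact open subgroup. -/
theorem exists_compactOpen (g : unitary σ H)
    (h : ∃ C : ℝ, ∀ (k : ℤ) (i j : Fin N), ‖umat (g ^ k) i j‖ ≤ C) :
    ∃ C : Subgroup (unitary σ H), IsOpen (C : Set (unitary σ H)) ∧
      IsCompact (C : Set (unitary σ H)) ∧ g ∈ C := by
  obtain ⟨C₀, hC₀⟩ := h
  obtain ⟨C, hC1, hC⟩ : ∃ C : ℝ, 1 ≤ C ∧ ∀ (k : ℤ) (i j : Fin N), ‖umat (g ^ k) i j‖ ≤ C :=
    ⟨max 1 C₀, le_max_left _ _, fun k i j => (hC₀ k i j).trans (le_max_right _ _)⟩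
  have hC0 : 0 < C := lt_of_lt_of_le one_pos hC1
  -- the lattice
  set L : Set (Fin N → E) := {v | ∀ (k : ℤ) (i : Fin N), ‖(umat (g ^ k)).mulVec v i‖ ≤ 1} with hL
  have hL1 : ∀ v ∈ L, ∀ i, ‖v i‖ ≤ 1 := by
    intro v hv i
    have h1 := hv 0 i
    rw [zpow_zero, cO_umat_one, Matrix.one_mulVec] at h1
    exact h1
  have hL2 : ∀ v : Fin N → E, (∀ i, ‖v i‖ ≤ C⁻¹) → v ∈ L := by
    intro v hv k i
    have h1 := cO_mulVec_norm_le (umat (g ^ k)) hC0.le (hC k) v (inv_nonneg.2 hC0.le) hv i
    rwa [mul_inv_cancel₀ hC0.ne'] at h1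
  have hLadd : ∀ v ∈ L, ∀ w ∈ L, v + w ∈ L := by
    intro v hv w hw k i
    rw [Matrix.mulVec_add]
    exact (IsUltrametricDist.norm_add_le_max _ _).trans (max_le (hv k i) (hw k i))
  have hLg : ∀ (l : ℤ) (v : Fin N → E), v ∈ L → (umat (g ^ l)).mulVec v ∈ L := by
    intro l v hv k i
    rw [Matrix.mulVec_mulVec, ← cO_umat_mul, ← zpow_add]
    exact hv (k + l) i
  let S : Subgroup (unitary σ H) :=
    { carrier := {u | (∀ v ∈ L, (umat u).mulVec v ∈ L) ∧ ∀ v ∈ L, (umat u⁻¹).mulVec v ∈ L}
      mul_mem' := by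
        rintro a b ⟨ha, ha'⟩ ⟨hb, hb'⟩
        refine ⟨fun v hv => ?_, fun v hv => ?_⟩
        · rw [cO_umat_mul, ← Matrix.mulVec_mulVec]
          exact ha _ (hb _ hv)
        · rw [mul_inv_rev, cO_umat_mul, ← Matrix.mulVec_mulVec]
          exact hb' _ (ha' _ hv)
      one_mem' := by
        refine ⟨fun v hv => ?_, fun v hv => ?_⟩
        · rwa [cO_umat_one, Matrix.one_mulVec]
        · rwa [inv_one, cO_umat_one, Matrix.one_mulVec]
      inv_mem' := by
        rintro a ⟨ha, ha'⟩
        refine ⟨ha', fun v hv => ?_⟩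
        rw [inv_inv]
        exact ha v hv }
  have hSo : IsOpen (S : Set (unitary σ H)) := by
    refine S.isOpen_of_mem_nhds (g := 1) ?_
    have h1 : ∀ᶠ u : unitary σ H in 𝓝 1, ∀ i j, ‖(umat u - 1) i j‖ < C⁻¹ := by
      refine Filter.eventually_all.2 fun i => Filter.eventually_all.2 fun j => ?_
      have hc : Continuous fun u : unitary σ H => ‖(umat u - 1) i j‖ :=
        continuous_norm.comp ((continuous_apply j).comp ((continuous_apply i).comp
          (cO_umat_continuous.sub continuous_const)))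
      have h2 : ‖(umat (1 : unitary σ H) - 1) i j‖ < C⁻¹ := by
        rw [cO_umat_one, sub_self, Matrix.zero_apply, norm_zero]
        exact inv_pos.2 hC0
      exact hc.continuousAt.eventually_lt continuousAt_const h2
    have h2 : ∀ᶠ u : unitary σ H in 𝓝 1, ∀ i j, ‖(umat u⁻¹ - 1) i j‖ < C⁻¹ := by
      have h3 : Tendsto (fun u : unitary σ H => u⁻¹) (𝓝 1) (𝓝 1) := by
        have := (continuous_inv (G := unitary σ H)).tendsto 1
        rwa [inv_one] at this
      exact h3.eventually h1
    have key : ∀ M : Matrix (Fin N) (Fin N) E, (∀ i j, ‖(M - 1) i j‖ < C⁻¹) →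
        ∀ v ∈ L, M.mulVec v ∈ L := by
      intro M hM v hv
      have h3 : M.mulVec v = v + (M - 1).mulVec v := by
        rw [Matrix.sub_mulVec, Matrix.one_mulVec, add_sub_cancel]
      rw [h3]
      refine hLadd _ hv _ (hL2 _ fun i => ?_)
      have h4 := cO_mulVec_norm_le (M - 1) (inv_nonneg.2 hC0.le) (fun i j => (hM i j).le) v
        zero_le_one (hL1 v hv) i
      rwa [mul_one] at h4
    filter_upwards [h1, h2] with u hu hu'
    exact ⟨key _ hu, key _ hu'⟩
  refine ⟨S, hSo, ?_, ?_⟩
  · obtain ⟨c, hc0, hc⟩ : ∃ c : E, 0 < ‖c‖ ∧ ‖c‖ < C⁻¹ :=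
      NormedField.exists_norm_lt E (inv_pos.2 hC0)
    have hbd : ∀ u : unitary σ H, (∀ v ∈ L, (umat u).mulVec v ∈ L) →
        ∀ i j, ‖umat u i j‖ ≤ ‖c‖⁻¹ := by
      intro u hu i j
      have h1 : Pi.single j c ∈ L := by
        refine hL2 _ fun i => ?_
        by_cases hij : i = j
        · subst hij
          rw [Pi.single_eq_same]
          exact hc.le
        · rw [Pi.single_eq_of_ne hij, norm_zero]
          exact inv_nonneg.2 hC0.le
      have h2 := hL1 _ (hu _ h1) i
      rw [Matrix.mulVec_single] at h2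
      simp only [Pi.smul_apply, MulOpposite.smul_eq_mul_unop, MulOpposite.unop_op, Matrix.col_apply,
        norm_mul] at h2
      rw [← one_div, le_div_iff₀ hc0]
      exact h2
    refine cO_compact_of_bdd _ (S.isClosed_of_isOpen hSo) ‖c‖⁻¹ ?_
    rintro u ⟨hu, hu'⟩ i j
    exact ⟨hbd u hu i j, hbd u⁻¹ hu' i j⟩
  · refine ⟨fun v hv => ?_, fun v hv => ?_⟩
    · have := hLg 1 v hv
      rwa [zpow_one] at this
    · have := hLg (-1) v hv
      rwa [zpow_neg_one] at this

end

end SpW
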