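import Mathlib

/-!
MP_3615d2_al: basic definitions.

`E / F` quadratic extension of nonarchimedean local fields of characteristic different from 2,
`σ` the nontrivial automorphism, `X = E^N` with the skew-Hermitian form `sk σ H`.
-/

open MeasureTheory
open scoped NNReal

namespace SpW

/-- The form `h(x,y) = ∑ x_i H_ij σ(y_j)`, linear in `x`, `σ`-semilinear in `y`. -/
def sk {E : Type} [Field E] (σ : E → E) {N : ℕ} (H : Matrix (Fin N) (Fin N) E)
    (x y : Fin N → E) : E :=
  ∑ i, ∑ j, x i * H i j * σ (y j)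

section forms

variable {F E : Type} [Field F] [Field E] [Algebra F E]

/-- `H` is the Gram matrix of a nondegenerate skew-Hermitian form:
`h(y,x) = - σ (h(x,y))`. -/
structure IsSkew (σ : E ≃ₐ[F] E) {N : ℕ} (H : Matrix (Fin N) (Fin N) E) : Prop where
  skew : ∀ i j, H j i = - σ (H i j)
  det_ne : H.det ≠ 0

/-- The isometry group `U(X)` as a subgroup of `GL_N(E)`. -/
def unitary (σ : E ≃ₐ[F] E) {N : ℕ} (H : Matrix (Fin N) (Fin N) E) : Subgroup (GL (Fin N) E) where
  carrier := {g | ∀ x y : Fin N → E,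
    sk σ H ((g : Matrix (Fin N) (Fin N) E).mulVec x) ((g : Matrix (Fin N) (Fin N) E).mulVec y)
      = sk σ H x y}
  mul_mem' := by
    intro a b ha hb x y
    have h1 := ha ((b : Matrix (Fin N) (Fin N) E).mulVec x) ((b : Matrix (Fin N) (Fin N) E).mulVec y)
    have h2 := hb x y
    rw [Units.val_mul, ← Matrix.mulVec_mulVec, ← Matrix.mulVec_mulVec, h1, h2]
  one_mem' := by
    intro x y
    simp
  inv_mem' := by
    intro a ha x y
    have h1 := ha (((a⁻¹ : GL (Fin N) E) : Matrix (Fin N) (Fin N) E).mulVec x)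
      (((a⁻¹ : GL (Fin N) E) : Matrix (Fin N) (Fin N) E).mulVec y)
    rw [Matrix.mulVec_mulVec, Matrix.mulVec_mulVec, ← Units.val_mul, mul_inv_cancel,
      Units.val_one, Matrix.one_mulVec, Matrix.one_mulVec] at h1
    exact h1.symm

/-- The matrix of an element of `U(X)`. -/
abbrev umat {σ : E ≃ₐ[F] E} {N : ℕ} {H : Matrix (Fin N) (Fin N) E} (g : unitary σ H) :
    Matrix (Fin N) (Fin N) E := ((g : GL (Fin N) E) : Matrix (Fin N) (Fin N) E)

/-- The symplectic form `⟨x,y⟩ = Tr_{E/F} h(x,y)` of the `F`-vector space `X`. -/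
noncomputable def sympl (F : Type) {E : Type} [Field F] [Field E] [Algebra F E] (σ : E ≃ₐ[F] E) {N : ℕ}
    (H : Matrix (Fin N) (Fin N) E) (x y : Fin N → E) : F :=
  Algebra.trace F E (sk σ H x y)

end forms

section weil

variable {F E : Type} [NontriviallyNormedField F] [NontriviallyNormedField E] [NormedAlgebra F E]
  [ProperSpace E] [MeasurableSpace E] [BorelSpace E]

/-- `μ : E^× → ℂ^×` is conjugate-symplectic: continuous, and its restriction to `F^×` is the
quadratic character of `E/F` (nontrivial, with kernel the norms). -/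
structure ConjSymplectic (F : Type) {E : Type} [NontriviallyNormedField F]
    [NontriviallyNormedField E] [NormedAlgebra F E] (μ : Eˣ →* ℂˣ) : Prop where
  cont : Continuous μ
  norm : ∀ x : Fˣ, (∃ y : E, Algebra.norm F y = (x : F)) →
    μ (Units.map (algebraMap F E).toMonoidHom x) = 1
  nonnorm : ∀ x : Fˣ, (¬ ∃ y : E, Algebra.norm F y = (x : F)) →
    μ (Units.map (algebraMap F E).toMonoidHom x) = -1

/-- The Cayley transform `c(g) = (g+1)(g-1)^{-1}`. -/
noncomputable def cayley {N : ℕ} (g : Matrix (Fin N) (Fin N) E) : Matrix (Fin N) (Fin N) E :=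
  (g + 1) * (g - 1)⁻¹

/-- The normalised absolute value of `E`: the factor by which multiplication scales Haar measure. -/
noncomputable def absE {E : Type} [NontriviallyNormedField E] [ProperSpace E]
    [MeasurableSpace E] [BorelSpace E] (d : Eˣ) : ℝ :=
  ((distribHaarChar E d : ℝ≥0) : ℝ)

/-- `(ρ, ω)` is the Weil representation `ω_{X,ψ,μ}` of `U(X)`: `ρ` is the irreducible smooth
representation of the Heisenberg group of `(X, ⟨,⟩)` with central character `ψ`, and `ω` is the
extension of `ρ` to `U(X)` attached to the conjugate-symplectic character `μ`.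
The normalisation: for `g` in `U(X)` with `g-1` invertible
`ω(g) v = κ μ(det(g-1)) |det(g-1)|^{-1/2} ∫_X ψ(⟨c(g)w,w⟩/4) ρ(w) v dw`,
where the integral over `X` is the (eventually constant) value of the integrals over large balls. -/
structure IsWeil (σ : E ≃ₐ[F] E) {N : ℕ} (H : Matrix (Fin N) (Fin N) E) (ψ : AddChar F Circle)
    (μ : Eˣ →* ℂˣ) {S : Type} [AddCommGroup S] [Module ℂ S]
    (ρ : (Fin N → E) → Module.End ℂ S) (ω : unitary σ H →* Module.End ℂ S) : Prop where
  nontrivial : Nontrivial S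
  rho_mul : ∀ w w', ρ w * ρ w' = ((ψ ((2 : F)⁻¹ * sympl F σ H w w') : Circle) : ℂ) • ρ (w + w')
  rho_smooth : ∀ v, ∀ᶠ w in nhds (0 : Fin N → E), ρ w v = v
  rho_irr : ∀ T : Submodule ℂ S, (∀ w, ∀ v ∈ T, ρ w v ∈ T) → T = ⊥ ∨ T = ⊤
  om_smooth : ∀ v, ∀ᶠ g in nhds (1 : unitary σ H), ω g v = v
  om_rho : ∀ (g : unitary σ H) w, ω g * ρ w = ρ ((umat g).mulVec w) * ω g
  normalised : ∃ κ : ℂ, ∀ (g : unitary σ H) (d : Eˣ), (d : E) = (umat g - 1).det →
    ∀ (v : S) (ξ : S →ₗ[ℂ] ℂ), ∀ᶠ r : ℝ in Filter.atTop,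
      ξ (ω g v) = κ * ((μ d : ℂˣ) : ℂ) * (((absE d) ^ (-(1 / 2) : ℝ) : ℝ) : ℂ) *
        ∫ w in Metric.closedBall (0 : Fin N → E) r,
          ((ψ ((4 : F)⁻¹ * sympl F σ H ((cayley (umat g)).mulVec w) w) : Circle) : ℂ)
            * ξ (ρ w v) ∂(Measure.addHaar)

end weil

section alt

variable {E : Type} [Field E]

/-- Nondegenerate alternating bilinear forms on `E^N` (Gram matrices), `char E ≠ 2`. -/
def Alt (N : ℕ) (E : Type) [Field E] : Type :=
  {B : Matrix (Fin N) (Fin N) E // B.transpose = -B ∧ IsUnit B.det}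

instance {N : ℕ} [TopologicalSpace E] : TopologicalSpace (Alt N E) := instTopologicalSpaceSubtype

/-- `(g B)(x,y) = B(g⁻¹x, g⁻¹y)`. -/
instance {N : ℕ} : MulAction (GL (Fin N) E) (Alt N E) where
  smul g B := ⟨((g⁻¹ : GL (Fin N) E) : Matrix (Fin N) (Fin N) E).transpose * B.1 *
      ((g⁻¹ : GL (Fin N) E) : Matrix (Fin N) (Fin N) E), by
    refine ⟨?_, ?_⟩
    · rw [Matrix.transpose_mul, Matrix.transpose_mul, Matrix.transpose_transpose, B.2.1]
      simp [Matrix.mul_assoc]
    · rw [Matrix.det_mul, Matrix.det_mul, Matrix.det_transpose]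
      have h1 : IsUnit ((g⁻¹ : GL (Fin N) E) : Matrix (Fin N) (Fin N) E).det :=
        (Matrix.isUnit_iff_isUnit_det _).1 (Units.isUnit _)
      exact (h1.mul B.2.2).mul h1⟩
  one_smul B := by
    apply Subtype.ext
    show ((1⁻¹ : GL (Fin N) E) : Matrix (Fin N) (Fin N) E).transpose * B.1 * _ = _
    simp
  mul_smul a b B := by
    apply Subtype.ext
    show (((a * b)⁻¹ : GL (Fin N) E) : Matrix (Fin N) (Fin N) E).transpose * B.1 * _ =
      ((a⁻¹ : GL (Fin N) E) : Matrix (Fin N) (Fin N) E).transpose *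
        (((b⁻¹ : GL (Fin N) E) : Matrix (Fin N) (Fin N) E).transpose * B.1 * _) * _
    rw [mul_inv_rev, Units.val_mul, Matrix.transpose_mul]
    simp only [Matrix.mul_assoc]

end alt

/-- Locally constant functions with compact support `X → S`. -/
def Sch (X S : Type) [TopologicalSpace X] [AddCommGroup S] [Module ℂ S] :
    Submodule ℂ (X → S) where
  carrier := {f | IsLocallyConstant f ∧ ∃ K : Set X, IsCompact K ∧ ∀ x, x ∉ K → f x = 0}
  add_mem' := by
    rintro f g ⟨hf, K, hK, hfK⟩ ⟨hg, L, hL, hgL⟩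
    refine ⟨?_, K ∪ L, hK.union hL, ?_⟩
    · exact hf.add hg
    · intro x hx
      rw [Set.mem_union, not_or] at hx
      simp [hfK x hx.1, hgL x hx.2]
  zero_mem' := ⟨IsLocallyConstant.const 0, ∅, isCompact_empty, by simp⟩
  smul_mem' := by
    rintro c f ⟨hf, K, hK, hfK⟩
    refine ⟨hf.comp (fun s => c • s), K, hK, ?_⟩
    intro x hx
    simp [hfK x hx]

/-- A representation of a topological group `G` on a complex vector space is smooth if every
vector is fixed by a neighbourhood of `1`. -/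
def IsSmoothRep {G V : Type} [Group G] [TopologicalSpace G] [AddCommGroup V] [Module ℂ V]
    (π : G →* Module.End ℂ V) : Prop :=
  ∀ v, ∀ᶠ g in nhds (1 : G), π g v = v

end SpW
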