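import Pool.Agent.Work.MP_3615d2_al.BlkAlg
import Pool.Agent.Work.MP_3615d2_al.BlkRR

/-!
MP_3615d2_al: determinants (for A9).
`norm_mk_pow`: the norm of `F[t]/(p^n)`; `det_mulRight`: right multiplication on `D_R`;
`det_blkElt`: the determinant over `E` of an operator acting on the block by right multiplication
and by a scalar on the orthogonal complement.
-/

open Polynomial
open scoped Quaternion TensorProduct

namespace SpW

namespace Dets

/-! ## Determinants in short exact sequences -/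

theorem det_ses {F : Type*} [Field F] {V0 V V1 : Type*} [AddCommGroup V0] [Module F V0]
    [AddCommGroup V] [Module F V] [AddCommGroup V1] [Module F V1] [FiniteDimensional F V]
    (i : V0 →ₗ[F] V) (q : V →ₗ[F] V1) (hi : Function.Injective i) (hq : Function.Surjective q)
    (hiq : LinearMap.range i = LinearMap.ker q) (f0 : V0 →ₗ[F] V0) (f : V →ₗ[F] V)
    (f1 : V1 →ₗ[F] V1) (h0 : ∀ x, f (i x) = i (f0 x)) (h1 : ∀ x, q (f x) = f1 (q x)) :
    LinearMap.det f = LinearMap.det f0 * LinearMap.det f1 := by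
  have he : LinearMap.range i ≤ (LinearMap.range i).comap f := by
    rintro _ ⟨x, rfl⟩
    exact ⟨f0 x, (h0 x).symm⟩
  rw [LinearMap.det_eq_det_mul_det (LinearMap.range i) f he]
  congr 1
  · have e0 := LinearEquiv.ofInjective i hi
    rw [← LinearMap.det_conj f0 (LinearEquiv.ofInjective i hi)]
    congr 1
    ext ⟨y, x, rfl⟩
    have h2 : (LinearEquiv.ofInjective i hi).symm ⟨i x, x, rfl⟩ = x := by
      rw [LinearEquiv.symm_apply_eq]
      rfl
    simp only [LinearMap.comp_apply, LinearEquiv.coe_coe]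
    rw [h2]
    show f (i x) = i (f0 x)
    exact h0 x
  · have e1 := (Submodule.quotEquivOfEq _ _ hiq).trans (q.quotKerEquivOfSurjective hq)
    rw [← LinearMap.det_conj ((LinearMap.range i).mapQ (LinearMap.range i) f he)
      ((Submodule.quotEquivOfEq _ _ hiq).trans (q.quotKerEquivOfSurjective hq))]
    congr 1
    ext y
    obtain ⟨x, rfl⟩ := hq y
    have h2 : ((Submodule.quotEquivOfEq _ _ hiq).trans (q.quotKerEquivOfSurjective hq)).symm (q x) =
        (Submodule.Quotient.mk x : V ⧸ LinearMap.range i) := by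
      rw [LinearEquiv.symm_apply_eq]
      rfl
    simp only [LinearMap.comp_apply, LinearEquiv.coe_coe]
    rw [h2, Submodule.mapQ_apply]
    show q (f x) = f1 (q x)
    exact h1 x

/-! ## The norm of `F[t]/(p^n)` -/

section norm

variable {F : Type} [Field F]

theorem mk_eq_zero_iff {q f : F[X]} : AdjoinRoot.mk q f = 0 ↔ q ∣ f := AdjoinRoot.mk_eq_zero

/-- Multiplication by `p^n`, `F[t]/(p) → F[t]/(p^(n+1))`. -/
noncomputable def mulP (p : F[X]) (n : ℕ) : AdjoinRoot p →ₗ[F] AdjoinRoot (p ^ (n + 1)) :=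
  (Submodule.mapQ (Ideal.span {p}) (Ideal.span {p ^ (n + 1)}) (LinearMap.mulLeft F[X] (p ^ n)) (by
    intro f hf
    rw [Ideal.mem_span_singleton] at hf
    obtain ⟨g, rfl⟩ := hf
    rw [Submodule.mem_comap, LinearMap.mulLeft_apply, Ideal.mem_span_singleton, ← mul_assoc,
      ← pow_succ]
    exact Dvd.intro g rfl)).restrictScalars F

theorem mulP_mk (p : F[X]) (n : ℕ) (f : F[X]) :
    mulP p n (AdjoinRoot.mk p f) = AdjoinRoot.mk (p ^ (n + 1)) (p ^ n * f) := rfl

/-- The projection `F[t]/(p^n) → F[t]/(p^l)`, `l ≤ n`. -/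
noncomputable def redTo {p : F[X]} {n l : ℕ} (h : l ≤ n) : RR p n →ₐ[F] RR p l :=
  Ideal.Quotient.factorₐ F (Ideal.span_singleton_le_span_singleton.2 (pow_dvd_pow p h))

theorem redTo_mk {p : F[X]} {n l : ℕ} (h : l ≤ n) (f : F[X]) :
    redTo h (AdjoinRoot.mk (p ^ n) f) = AdjoinRoot.mk (p ^ l) f := rfl

theorem norm_mk_pow (p : F[X]) (hp : p ≠ 0) (n : ℕ) (f : F[X]) :
    Algebra.norm F (AdjoinRoot.mk (p ^ n) f) = Algebra.norm F (AdjoinRoot.mk p f) ^ n := by
  induction n with
  | zero =>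
    rw [pow_zero (Algebra.norm F (AdjoinRoot.mk p f)), Algebra.norm_apply]
    have : Subsingleton (AdjoinRoot (p ^ 0)) := by
      rw [pow_zero]
      exact Ideal.Quotient.subsingleton_iff.2 (by simp)
    exact LinearMap.det_eq_one_of_subsingleton _
  | succ n ih =>
    have hfin : FiniteDimensional F (AdjoinRoot (p ^ (n + 1))) := BX.finite_RR hp (n + 1)
    rw [pow_succ' (Algebra.norm F (AdjoinRoot.mk p f)), ← ih, Algebra.norm_apply, Algebra.norm_apply, Algebra.norm_apply]
    apply det_ses (mulP p n) (redTo (p := p) (Nat.le_succ n)).toLinearMap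
    · rw [injective_iff_map_eq_zero]
      intro x hx
      obtain ⟨g, rfl⟩ := AdjoinRoot.mk_surjective x
      rw [mulP_mk, mk_eq_zero_iff, pow_succ] at hx
      rw [mk_eq_zero_iff]
      exact (mul_dvd_mul_iff_left (pow_ne_zero n hp)).1 hx
    · intro y
      obtain ⟨g, rfl⟩ := AdjoinRoot.mk_surjective y
      exact ⟨AdjoinRoot.mk _ g, rfl⟩
    · ext y
      obtain ⟨g, rfl⟩ := AdjoinRoot.mk_surjective y
      rw [LinearMap.mem_ker, LinearMap.mem_range]
      constructor
      · rintro ⟨x, hx⟩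
        obtain ⟨h, rfl⟩ := AdjoinRoot.mk_surjective x
        rw [← hx, mulP_mk]
        show AdjoinRoot.mk (p ^ n) (p ^ n * h) = 0
        rw [mk_eq_zero_iff]
        exact Dvd.intro h rfl
      · intro h
        have h1 : AdjoinRoot.mk (p ^ n) g = 0 := h
        rw [mk_eq_zero_iff] at h1
        obtain ⟨k, rfl⟩ := h1
        exact ⟨AdjoinRoot.mk p k, rfl⟩
    · intro x
      obtain ⟨g, rfl⟩ := AdjoinRoot.mk_surjective x
      show AdjoinRoot.mk (p ^ (n + 1)) f * AdjoinRoot.mk (p ^ (n + 1)) (p ^ n * g) =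
        mulP p n (AdjoinRoot.mk p f * AdjoinRoot.mk p g)
      rw [← map_mul, ← map_mul, mulP_mk]
      congr 1
      ring
    · intro x
      obtain ⟨g, rfl⟩ := AdjoinRoot.mk_surjective x
      show redTo (Nat.le_succ n) (AdjoinRoot.mk (p ^ (n + 1)) f * AdjoinRoot.mk (p ^ (n + 1)) g) =
        AdjoinRoot.mk (p ^ n) f * AdjoinRoot.mk (p ^ n) g
      rw [← map_mul, ← map_mul]
      rfl

theorem norm_RR {p : F[X]} (hp : p ≠ 0) {n : ℕ} (hn : 0 < n) (r : RR p n) :
    Algebra.norm F r = Algebra.norm F (Blk.red p hn r) ^ n := by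
  obtain ⟨f, rfl⟩ := AdjoinRoot.mk_surjective r
  rw [norm_mk_pow p hp, Blk.red_mk]

theorem norm_RR_to {p : F[X]} (hp : p ≠ 0) {n l : ℕ} (hn : 0 < n) (h : l ≤ n) (r : RR p n) :
    Algebra.norm F (redTo h r) = Algebra.norm F (Blk.red p hn r) ^ l := by
  obtain ⟨f, rfl⟩ := AdjoinRoot.mk_surjective r
  rw [redTo_mk, norm_mk_pow p hp, Blk.red_mk]

theorem redTo_surjective {p : F[X]} {n l : ℕ} (h : l ≤ n) :
    Function.Surjective (redTo (p := p) h) := by
  intro y
  obtain ⟨g, rfl⟩ := AdjoinRoot.mk_surjective y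
  exact ⟨AdjoinRoot.mk _ g, rfl⟩

theorem redTo_eq_zero {p : F[X]} {n l : ℕ} (h : l ≤ n) (r : RR p n) :
    redTo h r = 0 ↔ ∃ s, r = AdjoinRoot.mk (p ^ n) p ^ l * s := by
  obtain ⟨f, rfl⟩ := AdjoinRoot.mk_surjective r
  rw [redTo_mk, mk_eq_zero_iff]
  constructor
  · rintro ⟨g, rfl⟩
    exact ⟨AdjoinRoot.mk _ g, by rw [map_mul, map_pow]⟩
  · rintro ⟨s, hs⟩
    obtain ⟨g, rfl⟩ := AdjoinRoot.mk_surjective s
    rw [← map_pow, ← map_mul, ← sub_eq_zero, ← map_sub, mk_eq_zero_iff] at hs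
    have h1 : p ^ l ∣ f - p ^ l * g := (pow_dvd_pow p h).trans hs
    have h2 := dvd_add h1 (Dvd.intro g rfl : p ^ l ∣ p ^ l * g)
    rwa [sub_add_cancel] at h2

end norm

/-! ## The reduced norm and right multiplication -/

section quat

theorem toMatrix_mulRight {R : Type} [CommRing R] {c₁ c₂ : R} (a : ℍ[R,c₁,0,c₂]) :
    LinearMap.toMatrix (QuaternionAlgebra.basisOneIJK c₁ 0 c₂) (QuaternionAlgebra.basisOneIJK c₁ 0 c₂)
      (LinearMap.mulRight R a) =
    !![a.re, c₁ * a.imI, c₂ * a.imJ, -(c₁ * c₂ * a.imK);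
       a.imI, a.re, -(c₂ * a.imK), c₂ * a.imJ;
       a.imJ, c₁ * a.imK, a.re, -(c₁ * a.imI);
       a.imK, a.imJ, -a.imI, a.re] := by
  have hb : ∀ (v : ℍ[R,c₁,0,c₂]) (i : Fin 4), (QuaternionAlgebra.basisOneIJK c₁ 0 c₂).repr v i =
      ![v.re, v.imI, v.imJ, v.imK] i := fun v i => rfl
  have h0 : QuaternionAlgebra.basisOneIJK c₁ 0 c₂ 0 = ⟨1, 0, 0, 0⟩ := by
    apply (QuaternionAlgebra.basisOneIJK c₁ 0 c₂).repr.injective
    ext i
    rw [Module.Basis.repr_self, hb]
    fin_cases i <;> simp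
  have h1 : QuaternionAlgebra.basisOneIJK c₁ 0 c₂ 1 = ⟨0, 1, 0, 0⟩ := by
    apply (QuaternionAlgebra.basisOneIJK c₁ 0 c₂).repr.injective
    ext i
    rw [Module.Basis.repr_self, hb]
    fin_cases i <;> simp
  have h2 : QuaternionAlgebra.basisOneIJK c₁ 0 c₂ 2 = ⟨0, 0, 1, 0⟩ := by
    apply (QuaternionAlgebra.basisOneIJK c₁ 0 c₂).repr.injective
    ext i
    rw [Module.Basis.repr_self, hb]
    fin_cases i <;> simp
  have h3 : QuaternionAlgebra.basisOneIJK c₁ 0 c₂ 3 = ⟨0, 0, 0, 1⟩ := by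
    apply (QuaternionAlgebra.basisOneIJK c₁ 0 c₂).repr.injective
    ext i
    rw [Module.Basis.repr_self, hb]
    fin_cases i <;> simp
  ext i j
  rw [LinearMap.toMatrix_apply, hb, LinearMap.mulRight_apply]
  fin_cases j
  · rw [show (⟨0, by decide⟩ : Fin 4) = 0 from rfl, h0]
    fin_cases i <;> simp
  · rw [show (⟨1, by decide⟩ : Fin 4) = 1 from rfl, h1]
    fin_cases i <;> simp
  · rw [show (⟨2, by decide⟩ : Fin 4) = 2 from rfl, h2]
    fin_cases i <;> simp
  · rw [show (⟨3, by decide⟩ : Fin 4) = 3 from rfl, h3]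
    fin_cases i <;> simp

theorem det_mulR {R : Type} [CommRing R] {c₁ c₂ : R} (a : ℍ[R,c₁,0,c₂]) :
    LinearMap.det (LinearMap.mulRight R a) = Blk.nm a ^ 2 := by
  rw [← LinearMap.det_toMatrix (QuaternionAlgebra.basisOneIJK c₁ 0 c₂), toMatrix_mulRight, Blk.nm_apply]
  simp only [Matrix.det_succ_row_zero, Fin.sum_univ_succ]
  simp [Fin.succAbove]
  ring

end quat

section D2

variable {F : Type} [Field F] {d : F} {p : F[X]} {n l : ℕ}

theorem det_mulRight_F (hp : p ≠ 0) (a : DD d p n) :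
    LinearMap.det (LinearMap.mulRight F a) = Algebra.norm F (Blk.nm a) ^ 2 := by
  have hfin := BX.finite_RR hp n
  have h1 : LinearMap.mulRight F a = (LinearMap.mulRight (RR p n) a).restrictScalars F := by
    ext : 1
    rfl
  rw [h1, LinearMap.det_restrictScalars, det_mulR, map_pow]

/-- Reduction `D_{F[t]/(p^n)} → D_{F[t]/(p^l)}`. -/
noncomputable def redDD (d : F) (h : l ≤ n) : DD d p n →ₗ[F] DD d p l where
  toFun a := ⟨redTo h a.re, redTo h a.imI, redTo h a.imJ, redTo h a.imK⟩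
  map_add' a b := QuaternionAlgebra.ext (map_add (redTo h) a.re b.re)
    (map_add (redTo h) a.imI b.imI) (map_add (redTo h) a.imJ b.imJ) (map_add (redTo h) a.imK b.imK)
  map_smul' c a := QuaternionAlgebra.ext (map_smul (redTo h) c a.re)
    (map_smul (redTo h) c a.imI) (map_smul (redTo h) c a.imJ) (map_smul (redTo h) c a.imK)

theorem redDD_re (h : l ≤ n) (a : DD d p n) : (redDD d h a).re = redTo h a.re := rfl

theorem redDD_imI (h : l ≤ n) (a : DD d p n) : (redDD d h a).imI = redTo h a.imI := rfl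

theorem redDD_imJ (h : l ≤ n) (a : DD d p n) : (redDD d h a).imJ = redTo h a.imJ := rfl

theorem redDD_imK (h : l ≤ n) (a : DD d p n) : (redDD d h a).imK = redTo h a.imK := rfl

theorem redDD_surjective (h : l ≤ n) : Function.Surjective (redDD (p := p) d h) := by
  intro b
  obtain ⟨b1, h1⟩ := redTo_surjective h b.re
  obtain ⟨b2, h2⟩ := redTo_surjective h b.imI
  obtain ⟨b3, h3⟩ := redTo_surjective h b.imJ
  obtain ⟨b4, h4⟩ := redTo_surjective h b.imK
  exact ⟨⟨b1, b2, b3, b4⟩, QuaternionAlgebra.ext h1 h2 h3 h4⟩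

theorem redDD_eq_zero (h : l ≤ n) (a : DD d p n) :
    redDD d h a = 0 ↔ ∃ b : DD d p n, a = AdjoinRoot.mk (p ^ n) p ^ l • b := by
  constructor
  · intro hx
    have e1 := congrArg QuaternionAlgebra.re hx
    have e2 := congrArg QuaternionAlgebra.imI hx
    have e3 := congrArg QuaternionAlgebra.imJ hx
    have e4 := congrArg QuaternionAlgebra.imK hx
    obtain ⟨b1, hb1⟩ := (redTo_eq_zero h _).1 e1
    obtain ⟨b2, hb2⟩ := (redTo_eq_zero h _).1 e2
    obtain ⟨b3, hb3⟩ := (redTo_eq_zero h _).1 e3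
    obtain ⟨b4, hb4⟩ := (redTo_eq_zero h _).1 e4
    exact ⟨⟨b1, b2, b3, b4⟩, QuaternionAlgebra.ext hb1 hb2 hb3 hb4⟩
  · rintro ⟨b, rfl⟩
    have h0 : ∀ c : RR p n, redTo h (AdjoinRoot.mk (p ^ n) p ^ l * c) = 0 := fun c =>
      (redTo_eq_zero h _).2 ⟨c, rfl⟩
    ext
    · rw [redDD_re]; exact h0 b.re
    · rw [redDD_imI]; exact h0 b.imI
    · rw [redDD_imJ]; exact h0 b.imJ
    · rw [redDD_imK]; exact h0 b.imK

theorem redTo_root (h : l ≤ n) :
    redTo (p := p) h (AdjoinRoot.root (p ^ n)) = AdjoinRoot.root (p ^ l) := rfl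

theorem redDD_mul (h : l ≤ n) (a b : DD d p n) :
    redDD d h (a * b) = redDD d h a * redDD d h b := by
  have hd : redTo (p := p) h (algebraMap F (RR p n) d) = algebraMap F (RR p l) d :=
    AlgHom.commutes _ _
  ext <;> simp only [redDD_re, redDD_imI, redDD_imJ, redDD_imK, QuaternionAlgebra.re_mul,
    QuaternionAlgebra.imI_mul, QuaternionAlgebra.imJ_mul, QuaternionAlgebra.imK_mul, map_add,
    map_sub, map_mul, map_zero, hd, redTo_root]

theorem nm_redDD (h : l ≤ n) (a : DD d p n) : Blk.nm (redDD d h a) = redTo h (Blk.nm a) := by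
  have hd : redTo (p := p) h (algebraMap F (RR p n) d) = algebraMap F (RR p l) d :=
    AlgHom.commutes _ _
  rw [Blk.nm_apply, Blk.nm_apply]
  simp only [redDD_re, redDD_imI, redDD_imJ, redDD_imK, map_add, map_sub, map_mul, map_pow, hd,
    redTo_root]

/-- (D2) Right multiplication on `D_R / p^l D_R`. -/
theorem det_quot (hp : p ≠ 0) (hn : 0 < n) (h : l ≤ n) {Q : Type*} [AddCommGroup Q] [Module F Q]
    (pr : DD d p n →ₗ[F] Q) (hs : Function.Surjective pr)
    (hk : ∀ a, pr a = 0 ↔ ∃ b : DD d p n, a = AdjoinRoot.mk (p ^ n) p ^ l • b)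
    (u : DD d p n) (T : Q →ₗ[F] Q) (hT : ∀ a, T (pr a) = pr (a * u)) :
    LinearMap.det T = Algebra.norm F (Blk.red p hn (Blk.nm u)) ^ (2 * l) := by
  have hker : LinearMap.ker pr = LinearMap.ker (redDD (p := p) d h) := by
    ext a
    rw [LinearMap.mem_ker, LinearMap.mem_ker, hk, redDD_eq_zero]
  have e : Q ≃ₗ[F] DD d p l := (pr.quotKerEquivOfSurjective hs).symm.trans
    ((Submodule.quotEquivOfEq _ _ hker).trans
      ((redDD (p := p) d h).quotKerEquivOfSurjective (redDD_surjective h)))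
  have he : ∀ a, ((pr.quotKerEquivOfSurjective hs).symm.trans
    ((Submodule.quotEquivOfEq _ _ hker).trans
      ((redDD (p := p) d h).quotKerEquivOfSurjective (redDD_surjective h)))) (pr a) =
      redDD d h a := by
    intro a
    have h2 : (pr.quotKerEquivOfSurjective hs).symm (pr a) =
        (Submodule.Quotient.mk a : DD d p n ⧸ LinearMap.ker pr) := by
      rw [LinearEquiv.symm_apply_eq]
      rfl
    simp only [LinearEquiv.trans_apply]
    rw [h2]
    rfl
  rw [← LinearMap.det_conj T ((pr.quotKerEquivOfSurjective hs).symm.trans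
    ((Submodule.quotEquivOfEq _ _ hker).trans
      ((redDD (p := p) d h).quotKerEquivOfSurjective (redDD_surjective h))))]
  have h3 : ((((pr.quotKerEquivOfSurjective hs).symm.trans
    ((Submodule.quotEquivOfEq _ _ hker).trans
      ((redDD (p := p) d h).quotKerEquivOfSurjective (redDD_surjective h)))) : Q →ₗ[F] DD d p l) ∘ₗ
      T ∘ₗ ((((pr.quotKerEquivOfSurjective hs).symm.trans
    ((Submodule.quotEquivOfEq _ _ hker).trans
      ((redDD (p := p) d h).quotKerEquivOfSurjective (redDD_surjective h))))).symm :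
        DD d p l →ₗ[F] Q)) = LinearMap.mulRight F (redDD d h u) := by
    ext b : 1
    obtain ⟨a, rfl⟩ := redDD_surjective h b
    have h4 := he a
    rw [← LinearEquiv.eq_symm_apply] at h4
    simp only [LinearMap.comp_apply, LinearEquiv.coe_coe, LinearMap.mulRight_apply]
    rw [← h4, hT, he, redDD_mul]
  rw [h3, det_mulRight_F hp, nm_redDD, norm_RR_to hp hn h, ← pow_mul, mul_comm]

end D2

section D1

variable {F E : Type} [Field F] [Field E] [Algebra F E] {σ : E ≃ₐ[F] E} {δ : E} {d : F} {N : ℕ}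
  {H B : Matrix (Fin N) (Fin N) E} {p : F[X]} {n : ℕ} {x : Fin N → E}

/-- `1 ⊗ a + δ ⊗ b`. -/
noncomputable def alf (δ : E) (a b : RR p n) : E ⊗[F] RR p n := 1 ⊗ₜ[F] a + δ ⊗ₜ[F] b

theorem exists_alf (hq : QuadDatum σ δ d) (s : E ⊗[F] RR p n) : ∃ a b, s = alf δ a b := by
  induction s using TensorProduct.induction_on with
  | zero => exact ⟨0, 0, by simp [alf]⟩
  | tmul e r =>
    obtain ⟨a, b, rfl⟩ := hq.exists_coord e
    refine ⟨a • r, b • r, ?_⟩
    rw [alf, TensorProduct.add_tmul, ← TensorProduct.smul_tmul, ← TensorProduct.smul_tmul]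
    congr 2
    · rw [Algebra.smul_def, mul_one]
    · rw [Algebra.smul_def]
  | add s s' h h' =>
    obtain ⟨a, b, rfl⟩ := h
    obtain ⟨a', b', rfl⟩ := h'
    refine ⟨a + a', b + b', ?_⟩
    simp only [alf, TensorProduct.tmul_add]
    abel

theorem alf_mul (hq : QuadDatum σ δ d) (a b a' b' : RR p n) :
    alf δ a b * alf δ a' b' =
      alf δ (a * a' + algebraMap F (RR p n) d * (b * b')) (a * b' + b * a') := by
  have h1 : (δ * δ) ⊗ₜ[F] (b * b') = (1 : E) ⊗ₜ[F] (algebraMap F (RR p n) d * (b * b')) := by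
    rw [hq.sq, Algebra.algebraMap_eq_smul_one, TensorProduct.smul_tmul, Algebra.smul_def]
  simp only [alf, mul_add, add_mul, Algebra.TensorProduct.tmul_mul_tmul, TensorProduct.tmul_add,
    one_mul, mul_one, h1]
  abel

theorem alf_add (a b a' b' : RR p n) :
    alf δ a b + alf δ a' b' = alf δ (a + a') (b + b') := by
  simp only [alf, TensorProduct.tmul_add]
  abel

/-- The matrix over `E ⊗ R` of right multiplication by `u`. -/
noncomputable def matU (δ : E) (u : DD d p n) : Matrix (Fin 2) (Fin 2) (E ⊗[F] RR p n) :=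
  !![alf δ u.re u.imI, alf δ (u.imJ * AdjoinRoot.root (p ^ n)) (-(u.imK * AdjoinRoot.root (p ^ n)));
     alf δ u.imJ u.imK, alf δ u.re (-u.imI)]

theorem det_matU (hq : QuadDatum σ δ d) (u : DD d p n) :
    (matU δ u).det = (1 : E) ⊗ₜ[F] (Blk.nm u) := by
  have hneg : ∀ a b a' b' : RR p n, alf δ a b - alf δ a' b' = alf δ (a - a') (b - b') := by
    intro a b a' b'
    rw [sub_eq_iff_eq_add, alf_add, sub_add_cancel, sub_add_cancel]
  rw [matU, Matrix.det_fin_two_of, alf_mul hq, alf_mul hq, hneg, Blk.nm_apply]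
  have h1 : (1 : E) ⊗ₜ[F] (u.re ^ 2 - algebraMap F (RR p n) d * u.imI ^ 2 -
      AdjoinRoot.root (p ^ n) * u.imJ ^ 2 +
      algebraMap F (RR p n) d * AdjoinRoot.root (p ^ n) * u.imK ^ 2) =
      alf δ (u.re ^ 2 - algebraMap F (RR p n) d * u.imI ^ 2 -
      AdjoinRoot.root (p ^ n) * u.imJ ^ 2 +
      algebraMap F (RR p n) d * AdjoinRoot.root (p ^ n) * u.imK ^ 2) 0 := by
    rw [alf, TensorProduct.tmul_zero, add_zero]
  rw [h1]
  congr 1 <;> ring

theorem matU_mulVec (hq : QuadDatum σ δ d) (a u : DD d p n) :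
    (matU δ u).mulVec ![alf δ a.re a.imI, alf δ a.imJ a.imK] =
      ![alf δ (a * u).re (a * u).imI, alf δ (a * u).imJ (a * u).imK] := by
  ext i
  rw [Matrix.mulVec, matU]
  fin_cases i
  · simp only [Fin.zero_eta, Matrix.of_apply, Matrix.cons_val', Matrix.cons_val_zero,
      Matrix.cons_val_fin_one, dotProduct, Fin.sum_univ_two, Matrix.cons_val_one]
    rw [alf_mul hq, alf_mul hq, alf_add]
    simp only [QuaternionAlgebra.re_mul, QuaternionAlgebra.imI_mul]
    congr 1 <;> ring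
  · simp only [Fin.mk_one, Matrix.of_apply, Matrix.cons_val', Matrix.cons_val_zero,
      Matrix.cons_val_fin_one, dotProduct, Fin.sum_univ_two, Matrix.cons_val_one]
    rw [alf_mul hq, alf_mul hq, alf_add]
    simp only [QuaternionAlgebra.imJ_mul, QuaternionAlgebra.imK_mul]
    congr 1 <;> ring

theorem norm_one_tmul (hp : p ≠ 0) (r : RR p n) :
    Algebra.norm E ((1 : E) ⊗ₜ[F] r) = algebraMap F E (Algebra.norm F r) := by
  have hfin := BX.finite_RR hp n
  rw [Algebra.norm_apply, Algebra.norm_apply, ← LinearMap.det_baseChange]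
  congr 1
  ext s : 3
  simp

/-- `(R ⊗ E)² → X`. -/
noncomputable def Psi (hx : aeval (Alin σ H B) (p ^ n) x = 0) :
    (Fin 2 → E ⊗[F] RR p n) →ₗ[E] (Fin N → E) :=
  (LinearMap.liftBaseChange E (ractL hx)) ∘ₗ LinearMap.proj 0 +
    (LinearMap.liftBaseChange E (ractL (bJ_kill hx))) ∘ₗ LinearMap.proj 1

theorem Psi_alf (hx : aeval (Alin σ H B) (p ^ n) x = 0) (a : DD d p n) :
    Psi hx ![alf δ a.re a.imI, alf δ a.imJ a.imK] = blk σ H B δ p n x a := by
  show LinearMap.liftBaseChange E (ractL hx) (alf δ a.re a.imI) +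
    LinearMap.liftBaseChange E (ractL (bJ_kill hx)) (alf δ a.imJ a.imK) = _
  rw [alf, alf, map_add, map_add,
    LinearMap.liftBaseChange_tmul, LinearMap.liftBaseChange_tmul, LinearMap.liftBaseChange_tmul,
    LinearMap.liftBaseChange_tmul, one_smul, one_smul, blk]
  show ract σ H B p n x a.re + δ • ract σ H B p n x a.imI +
    (ract σ H B p n (Jlin σ H B x) a.imJ + δ • ract σ H B p n (Jlin σ H B x) a.imK) = _
  abel

theorem exists_alf2 (hq : QuadDatum σ δ d) (v : Fin 2 → E ⊗[F] RR p n) :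
    ∃ a : DD d p n, v = ![alf δ a.re a.imI, alf δ a.imJ a.imK] := by
  obtain ⟨a0, a1, h0⟩ := exists_alf hq (v 0)
  obtain ⟨a2, a3, h1⟩ := exists_alf hq (v 1)
  refine ⟨⟨a0, a1, a2, a3⟩, ?_⟩
  ext i
  fin_cases i
  · exact h0
  · exact h1

theorem Psi_inj (hq : QuadDatum σ δ d) (hH : IsSkew σ H) (hB : B.transpose = -B)
    (hdet : IsUnit B.det) (hx : IsBlock σ H B p n x) : Function.Injective (Psi hx.kill) := by
  rw [injective_iff_map_eq_zero]
  intro v hv
  obtain ⟨a, rfl⟩ := exists_alf2 hq v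
  rw [Psi_alf] at hv
  have h1 : a = 0 := by
    apply blk_inj hq hH hB hdet hx
    rw [hv, blk_zero hx.kill]
  rw [h1]
  ext i
  fin_cases i <;> simp [alf]

/-- (D1) The determinant of an operator which acts on the block by right multiplication with `u`
and by the scalar `c` on the orthogonal complement. -/
theorem det_blk (hq : QuadDatum σ δ d) (hH : IsSkew σ H) (hB : B.transpose = -B)
    (hdet : IsUnit B.det) (hx : IsBlock σ H B p n x) (u : DD d p n)
    (M : Matrix (Fin N) (Fin N) E) (c : E)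
    (h1 : ∀ a : DD d p n, M.mulVec (blk σ H B δ p n x a) = blk σ H B δ p n x (a * u))
    (h2 : ∀ y : Fin N → E, (∀ a : DD d p n, sk σ H (blk σ H B δ p n x a) y = 0) →
      M.mulVec y = c • y) :
    2 * (n * p.natDegree) ≤ N ∧
    M.det = c ^ (N - 2 * (n * p.natDegree)) *
      algebraMap F E (Algebra.norm F (Blk.red p hx.pos (Blk.nm u)) ^ n) := by
  have hp := hx.irr.ne_zero
  have hfin := BX.finite_RR hp n
  have hfr : Module.finrank E (Fin 2 → E ⊗[F] RR p n) = 2 * (n * p.natDegree) := by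
    rw [Module.finrank_pi_fintype]
    simp [BX.finrank_RR]
  have hinj := Psi_inj hq hH hB hdet hx
  have hran : Module.finrank E (LinearMap.range (Psi hx.kill)) = 2 * (n * p.natDegree) := by
    rw [LinearMap.finrank_range_of_inj hinj, hfr]
  have hN : 2 * (n * p.natDegree) ≤ N := by
    rw [← hran]
    have := Submodule.finrank_le (LinearMap.range (Psi hx.kill))
    simpa using this
  refine ⟨hN, ?_⟩
  have h3 := det_ses (Psi hx.kill) (LinearMap.range (Psi hx.kill)).mkQ hinj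
    (Submodule.mkQ_surjective _) (Submodule.ker_mkQ _).symm
    ((Matrix.toLin' (matU δ u)).restrictScalars E) (Matrix.toLin' M)
    (c • LinearMap.id) (by
      intro v
      obtain ⟨a, rfl⟩ := exists_alf2 hq v
      rw [Psi_alf, Matrix.toLin'_apply, h1, LinearMap.restrictScalars_apply, Matrix.toLin'_apply,
        matU_mulVec hq, Psi_alf]) (by
      intro y
      obtain ⟨a, z, rfl, hz⟩ := blk_decomp hq hH hB hdet hx y
      have h4 : ∀ b : DD d p n, (LinearMap.range (Psi hx.kill)).mkQ (blk σ H B δ p n x b) = 0 := by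
        intro b
        rw [← LinearMap.mem_ker, Submodule.ker_mkQ]
        exact ⟨_, Psi_alf hx.kill b⟩
      rw [Matrix.toLin'_apply, Matrix.mulVec_add, h1, h2 z hz, map_add, h4, zero_add, map_add, h4,
        zero_add, map_smul]
      rfl)
  rw [LinearMap.det_toLin', LinearMap.det_restrictScalars, LinearMap.det_toLin', det_matU hq,
    norm_one_tmul hp, LinearMap.det_smul, LinearMap.det_id, mul_one, Submodule.finrank_quotient,
    hran, Module.finrank_fin_fun, norm_RR hp hx.pos] at h3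
  rw [h3, mul_comm]

/-- (D1) for elements of `U(X)`. -/
theorem det_blkElt (hq : QuadDatum σ δ d) (hH : IsSkew σ H) (hB : B.transpose = -B)
    (hdet : IsUnit B.det) (hx : IsBlock σ H B p n x) (u : DD d p n) (g : unitary σ H)
    (h1 : ∀ a : DD d p n, (umat g).mulVec (blk σ H B δ p n x a) = blk σ H B δ p n x (a * u))
    (h2 : ∀ y : Fin N → E, (∀ a : DD d p n, sk σ H (blk σ H B δ p n x a) y = 0) →
      (umat g).mulVec y = -y) :
    2 * (n * p.natDegree) ≤ N ∧
    (umat g - 1).det = (-2) ^ (N - 2 * (n * p.natDegree)) *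
      algebraMap F E (Algebra.norm F (Blk.red p hx.pos (Blk.nm (u - 1))) ^ n) := by
  apply det_blk hq hH hB hdet hx (u - 1) (umat g - 1) (-2)
  · intro a
    rw [Matrix.sub_mulVec, Matrix.one_mulVec, h1, ← blk_sub hx.kill, mul_sub, mul_one]
  · intro y hy
    rw [Matrix.sub_mulVec, Matrix.one_mulVec, h2 y hy, neg_smul, two_smul]
    abel

end D1

end Dets

end SpW
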