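import Pool.Agent.Work.MP_3615d2_al.Defs

/-!
MP_3615d2_al: smooth duals.  `smV ρ` is the smooth dual of a map `ρ : A → End S` from a
topological space `A` with a base point (the Heisenberg vectors at `0`, a group at `1`).
-/

open MeasureTheory

namespace SpW

section heis

variable {A : Type} [TopologicalSpace A] [Zero A] {S : Type} [AddCommGroup S] [Module ℂ S]

/-- Smooth functionals for the Heisenberg representation `ρ`. -/
def hDual (ρ : A → Module.End ℂ S) : Submodule ℂ (S →ₗ[ℂ] ℂ) where
  carrier := {ξ | ∀ᶠ w in nhds (0 : A), ∀ v, ξ (ρ w v) = ξ v}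
  add_mem' := by
    intro a b ha hb
    filter_upwards [ha, hb] with w h1 h2 v
    simp [h1 v, h2 v]
  zero_mem' := by
    filter_upwards with w v
    simp
  smul_mem' := by
    intro c a ha
    filter_upwards [ha] with w h1 v
    simp [h1 v]

end heis

section grp

variable {G : Type} [TopologicalSpace G] [Group G] {V : Type} [AddCommGroup V] [Module ℂ V]

/-- The smooth dual `π^∨` of a representation `π` of `G`. -/
def gDual (π : G →* Module.End ℂ V) : Submodule ℂ (V →ₗ[ℂ] ℂ) where
  carrier := {ξ | ∀ᶠ g in nhds (1 : G), ∀ v, ξ (π g v) = ξ v}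
  add_mem' := by
    intro a b ha hb
    filter_upwards [ha, hb] with w h1 h2 v
    simp [h1 v, h2 v]
  zero_mem' := by
    filter_upwards with w v
    simp
  smul_mem' := by
    intro c a ha
    filter_upwards [ha] with w h1 v
    simp [h1 v]

/-- The action `(g ξ)(v) = ξ(g⁻¹ v)` on the smooth dual. -/
def gDualAct [IsTopologicalGroup G] (π : G →* Module.End ℂ V) : G →* Module.End ℂ (gDual π) where
  toFun g :=
    { toFun := fun ξ => ⟨ξ.1.comp (π g⁻¹), by
        have h : Filter.Tendsto (fun x : G => g⁻¹ * x * g) (nhds 1) (nhds 1) := by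
          have : ContinuousAt (fun x : G => g⁻¹ * x * g) 1 := by fun_prop
          simpa [ContinuousAt] using this
        have h2 : ∀ᶠ x in nhds (1 : G), ∀ v, ξ.1 (π x v) = ξ.1 v := ξ.2
        show ∀ᶠ x in nhds (1 : G), ∀ v, (ξ.1.comp (π g⁻¹)) (π x v) = (ξ.1.comp (π g⁻¹)) v
        filter_upwards [h.eventually h2] with x hx v
        have h3 := hx (π g⁻¹ v)
        simp only [map_mul, Module.End.mul_apply] at h3
        have h4 : π g (π g⁻¹ v) = v := by
          rw [← Module.End.mul_apply, ← map_mul, mul_inv_cancel, map_one, Module.End.one_apply]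
        rw [h4] at h3
        simpa using h3⟩
      map_add' := by
        intro a b
        apply Subtype.ext
        ext v
        simp
      map_smul' := by
        intro a b
        apply Subtype.ext
        ext v
        simp }
  map_one' := by
    ext ξ v
    simp
  map_mul' a b := by
    ext ξ v
    simp

theorem gDualAct_apply [IsTopologicalGroup G] (π : G →* Module.End ℂ V) (g : G) (ξ : gDual π)
    (v : V) : (gDualAct π g ξ).1 v = ξ.1 (π g⁻¹ v) := rfl

end grp

end SpW
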