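import Pool.Agent.Work.MP_3615d2_al.HeisDefs

/-!
# The conductor of an additive character
-/

open scoped Matrix

namespace Pool.Agent.SpehH

section

variable {F : Type*} [NontriviallyNormedField F]

/-- the circle has no small subgroups -/
theorem eq_one_of_small {z : Circle} (h : ∀ k : ℕ, ‖((z ^ 2 ^ k : Circle) : ℂ) - 1‖ ≤ 1 / 2) :
    z = 1 := by
  by_contra hz
  have h0 : 0 < ‖(z : ℂ) - 1‖ := by
    rw [norm_pos_iff, sub_ne_zero]
    intro h'
    exact hz (Circle.ext (by simpa using h'))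
  have key : ∀ k : ℕ, (3 / 2 : ℝ) ^ k * ‖(z : ℂ) - 1‖ ≤ ‖((z ^ 2 ^ k : Circle) : ℂ) - 1‖ := by
    intro k
    induction k with
    | zero => simp
    | succ k ih =>
      have e : ((z ^ 2 ^ (k + 1) : Circle) : ℂ) - 1 =
          (((z ^ 2 ^ k : Circle) : ℂ) - 1) * (((z ^ 2 ^ k : Circle) : ℂ) + 1) := by
        rw [pow_succ, pow_mul]
        push_cast
        ring
      rw [e, norm_mul]
      have h2 : (3 / 2 : ℝ) ≤ ‖((z ^ 2 ^ k : Circle) : ℂ) + 1‖ := by
        have e2 : ((z ^ 2 ^ k : Circle) : ℂ) + 1 = 2 - (1 - ((z ^ 2 ^ k : Circle) : ℂ)) := by ring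
        rw [e2]
        have := norm_sub_norm_le (2 : ℂ) (1 - ((z ^ 2 ^ k : Circle) : ℂ))
        rw [norm_sub_rev 1] at this
        have h3 := h k
        have h4 : ‖(2 : ℂ)‖ = 2 := by norm_num
        linarith
      calc (3 / 2 : ℝ) ^ (k + 1) * ‖(z : ℂ) - 1‖ = (3 / 2 : ℝ) ^ k * ‖(z : ℂ) - 1‖ * (3 / 2) := by
            ring
        _ ≤ _ := by gcongr
  obtain ⟨k, hk⟩ := pow_unbounded_of_one_lt (1 / 2 / ‖(z : ℂ) - 1‖) (by norm_num : (1 : ℝ) < 3 / 2)
  rw [div_lt_iff₀ h0] at hk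
  linarith [key k, h k]

theorem exists_ball_eq_one [IsUltrametricDist F] {ψ : AddChar F Circle} (hψ : Continuous ψ) :
    ∃ δ > 0, ∀ x : F, ‖x‖ < δ → ψ x = 1 := by
  have h1 : Continuous fun x => (ψ x : ℂ) := continuous_subtype_val.comp hψ
  obtain ⟨δ, hδ, h⟩ := Metric.continuous_iff.1 h1 0 (1 / 2) (by norm_num)
  refine ⟨δ, hδ, fun x hx => eq_one_of_small fun k => ?_⟩
  have h2 : ‖(2 ^ k : ℕ) • x‖ < δ := by
    refine lt_of_le_of_lt ?_ hx
    rw [nsmul_eq_mul, norm_mul]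
    have := IsUltrametricDist.norm_natCast_le_one F (2 ^ k)
    nlinarith [norm_nonneg x]
  have h3 := h ((2 ^ k : ℕ) • x) (by rwa [dist_zero_right])
  rw [AddChar.map_nsmul_eq_pow, AddChar.map_zero_eq_one, dist_eq_norm] at h3
  simpa using h3.le

theorem exists_cond [IsUltrametricDist F] [ProperSpace F] {ψ : AddChar F Circle}
    (hψ : Continuous ψ) (h1 : ψ ≠ 1) : ∃ c, IsCond ψ c := by
  obtain ⟨a₀, ha₀⟩ : ∃ a, ψ a ≠ 1 := by
    by_contra! h
    exact h1 (by ext x; simp [h x])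
  obtain ⟨δ, hδ, hδ'⟩ := exists_ball_eq_one hψ
  set N : Set F := {b | ∀ a : F, ‖a‖ ≤ 1 → ψ (b * a) = 1} with hN
  have hcl : IsClosed N := by
    have : N = ⋂ a : F, ⋂ _ : ‖a‖ ≤ 1, {b | ψ (b * a) = 1} := by ext b; simp [hN]
    rw [this]
    exact isClosed_iInter fun a => isClosed_iInter fun _ =>
      isClosed_eq (hψ.comp (continuous_id.mul continuous_const)) continuous_const
  have hbd : N ⊆ Metric.closedBall 0 ‖a₀‖ := by
    intro b hb
    rw [mem_closedBall_zero_iff]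
    by_contra! h
    have hb0 : b ≠ 0 := by rintro rfl; simp at h; linarith [norm_nonneg a₀]
    refine ha₀ ?_
    have := hb (a₀ / b) (by rw [norm_div, div_le_one (norm_pos_iff.2 hb0)]; exact h.le)
    rwa [mul_div_cancel₀ _ hb0] at this
  have hcp : IsCompact N := (isCompact_closedBall (0 : F) ‖a₀‖).of_isClosed_subset hcl hbd
  obtain ⟨c, hc, hmax⟩ := hcp.exists_isMaxOn ⟨0, by simp [hN]⟩ continuous_norm.continuousOn
  obtain ⟨d, hd0, hd⟩ := NormedField.exists_norm_lt F hδ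
  have hdN : d ∈ N := fun a ha => hδ' _ (by rw [norm_mul]; nlinarith [norm_nonneg a])
  have hcd : ‖d‖ ≤ ‖c‖ := hmax hdN
  have hc0 : c ≠ 0 := norm_pos_iff.1 (hd0.trans_le hcd)
  refine ⟨c, hc0, fun b => ⟨fun h => hmax h, fun h a ha => ?_⟩⟩
  have := hc (b * a / c) (by
    rw [norm_div, norm_mul, div_le_one (norm_pos_iff.2 hc0)]
    nlinarith [norm_nonneg b, norm_nonneg a, norm_nonneg c])
  rwa [mul_div_cancel₀ _ hc0] at this

theorem addChar_sum (ψ : AddChar F Circle) {κ : Type*} (s : Finset κ) (f : κ → F) :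
    ψ (∑ i ∈ s, f i) = ∏ i ∈ s, ψ (f i) := by
  classical
  induction s using Finset.induction_on with
  | empty => simp
  | insert a s ha ih => rw [Finset.sum_insert ha, Finset.prod_insert ha, AddChar.map_add_eq_mul, ih]

theorem cond_iff {ψ : AddChar F Circle} {c : F} (hc : IsCond ψ c) {t : F} (ht : t ≠ 0) (b : F) :
    (∀ a : F, ‖a‖ ≤ ‖t‖ → ψ (b * a) = 1) ↔ ‖b‖ * ‖t‖ ≤ ‖c‖ := by
  rw [← norm_mul, ← hc.2 (b * t)]
  have ht' := norm_pos_iff.2 ht
  constructor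
  · intro h a ha
    rw [mul_assoc]
    refine h _ ?_
    rw [norm_mul]
    nlinarith
  · intro h a ha
    have := h (a / t) (by rwa [norm_div, div_le_one ht'])
    rwa [mul_assoc, mul_div_cancel₀ _ ht] at this

theorem cond_iff_pi {ψ : AddChar F Circle} {c : F} (hc : IsCond ψ c) {κ : Type*} [Fintype κ]
    {t : F} (ht : t ≠ 0) (b : κ → F) :
    (∀ a : κ → F, ‖a‖ ≤ ‖t‖ → ψ (b ⬝ᵥ a) = 1) ↔ ‖b‖ * ‖t‖ ≤ ‖c‖ := by
  classical
  have ht' := norm_pos_iff.2 ht
  rw [← le_div_iff₀ ht', pi_norm_le_iff_of_nonneg (by positivity)]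
  constructor
  · intro h i
    rw [le_div_iff₀ ht', ← cond_iff hc ht]
    intro a ha
    have := h (Pi.single i a) (by rwa [Pi.norm_single])
    rwa [dotProduct_single] at this
  · intro h a ha
    rw [dotProduct, addChar_sum]
    refine Finset.prod_eq_one fun i _ => ?_
    exact (cond_iff hc ht (b i)).2 (by rw [← le_div_iff₀ ht']; exact h i) (a i)
      ((norm_le_pi_norm a i).trans ha)

end

end Pool.Agent.SpehH
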