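import Pool.Agent.Work.MP_3615d2_al.Bridge
import Pool.Agent.Work.MP_3615d2_al.DualDefs
import Pool.Agent.Work.MP_3615d2_al.HeisCond

/-!
MP_3615d2_al: the smooth dual of a Weil representation; the operators and the easy axioms.
-/

open MeasureTheory
open scoped NNReal

namespace SpW

section psi

variable {F : Type} [NontriviallyNormedField F] [IsUltrametricDist F] [ProperSpace F]

/-- A continuous character of `F` is trivial near `0`. -/
theorem psi_ball {ψ : AddChar F Circle} (hψ : Continuous ψ) :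
    ∃ ε > 0, ∀ a : F, ‖a‖ ≤ ε → ψ a = 1 := by
  by_cases h1 : ψ = 1
  · subst h1
    exact ⟨1, one_pos, fun a _ => rfl⟩
  · obtain ⟨c, hc0, hc⟩ := Pool.Agent.SpehH.exists_cond hψ h1
    refine ⟨‖c‖, norm_pos_iff.2 hc0, fun a ha => ?_⟩
    have h2 := (hc c).2 le_rfl (a / c) (by
      rw [norm_div]
      exact (div_le_one (norm_pos_iff.2 hc0)).2 ha)
    rwa [mul_div_cancel₀ _ hc0] at h2

theorem psi_eventually {ψ : AddChar F Circle} (hψ : Continuous ψ) :
    ∀ᶠ a in nhds (0 : F), ψ a = 1 := by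
  obtain ⟨ε, hε, h⟩ := psi_ball hψ
  filter_upwards [Metric.closedBall_mem_nhds (0 : F) hε] with a ha
  exact h a (by simpa using ha)

end psi

section weil

variable {F E : Type} [NontriviallyNormedField F] [IsUltrametricDist F] [ProperSpace F]
  [NontriviallyNormedField E] [NormedAlgebra F E]
  [ProperSpace E] [MeasurableSpace E] [BorelSpace E]
  {σ : E ≃ₐ[F] E} {δ : E} {d : F} {N : ℕ} {H : Matrix (Fin N) (Fin N) E}
  {ψ : AddChar F Circle} {μ : Eˣ →* ℂˣ} {S : Type} [AddCommGroup S] [Module ℂ S]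
  {ρ : (Fin N → E) → Module.End ℂ S} {ω : unitary σ H →* Module.End ℂ S}

theorem psi_sympl_eventually (hq : QuadDatum σ δ d) (hψ : Continuous ψ) (w : Fin N → E) (c : F) :
    ∀ᶠ x in nhds (0 : Fin N → E), ψ (c * sympl F σ H w x) = 1 := by
  have h1 : Continuous (fun x : Fin N → E => c * sympl F σ H w x) :=
    continuous_const.mul ((sympl_continuous (H := H) hq).comp (by fun_prop : Continuous (fun x => (w, x))))
  have h2 : c * sympl F σ H w 0 = 0 := by rw [sympl_eq, sk_zero_right, map_zero, mul_zero]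
  have h3 := h1.tendsto 0
  rw [h2] at h3
  exact h3.eventually (psi_eventually hψ)

theorem hDual_comp_rho (hW : IsWeil σ H ψ μ ρ ω) (hq : QuadDatum σ δ d) (hH : IsSkew σ H)
    (hψ : Continuous ψ) (w : Fin N → E) {ξ : S →ₗ[ℂ] ℂ} (hξ : ξ ∈ hDual ρ) :
    ξ.comp (ρ w) ∈ hDual ρ := by
  have h1 : ∀ᶠ x in nhds (0 : Fin N → E), ∀ v, ξ (ρ x v) = ξ v := hξ
  show ∀ᶠ x in nhds (0 : Fin N → E), ∀ v, (ξ.comp (ρ w)) (ρ x v) = (ξ.comp (ρ w)) v
  filter_upwards [h1, psi_sympl_eventually (H := H) hq hψ w 1] with x hx hx2 v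
  rw [one_mul] at hx2
  simp only [LinearMap.comp_apply]
  rw [hW.rho_comm hq hH, hx2]
  simp [hx]

theorem hDual_comp_om (hW : IsWeil σ H ψ μ ρ ω) (g : unitary σ H) {ξ : S →ₗ[ℂ] ℂ}
    (hξ : ξ ∈ hDual ρ) : ξ.comp (ω g) ∈ hDual ρ := by
  have h1 : ∀ᶠ x in nhds (0 : Fin N → E), ∀ v, ξ (ρ x v) = ξ v := hξ
  have h2 : Filter.Tendsto (fun x : Fin N → E => (umat g).mulVec x) (nhds 0) (nhds 0) := by
    have h3 : Continuous (fun x : Fin N → E => (umat g).mulVec x) :=
      continuous_const.matrix_mulVec continuous_id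
    have h4 := h3.tendsto 0
    rwa [Matrix.mulVec_zero] at h4
  show ∀ᶠ x in nhds (0 : Fin N → E), ∀ v, (ξ.comp (ω g)) (ρ x v) = (ξ.comp (ω g)) v
  filter_upwards [h2.eventually h1] with x hx v
  have h5 := congrArg (fun f => f v) (hW.om_rho g x)
  simp only [Module.End.mul_apply] at h5
  simp only [LinearMap.comp_apply]
  rw [h5, hx]

/-- The dual Heisenberg operators `(ρ' w ξ)(v) = ξ(ρ(-w) v)`. -/
noncomputable def rhoD (hW : IsWeil σ H ψ μ ρ ω) (hq : QuadDatum σ δ d) (hH : IsSkew σ H)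
    (hψ : Continuous ψ) (w : Fin N → E) : Module.End ℂ (hDual ρ) where
  toFun ξ := ⟨ξ.1.comp (ρ (-w)), hDual_comp_rho hW hq hH hψ _ ξ.2⟩
  map_add' a b := by
    apply Subtype.ext; ext v; simp
  map_smul' a b := by
    apply Subtype.ext; ext v; simp

theorem rhoD_apply (hW : IsWeil σ H ψ μ ρ ω) (hq : QuadDatum σ δ d) (hH : IsSkew σ H)
    (hψ : Continuous ψ) (w : Fin N → E) (ξ : hDual ρ) (v : S) :
    (rhoD hW hq hH hψ w ξ).1 v = ξ.1 (ρ (-w) v) := rfl

/-- The dual action `(ω' g ξ)(v) = ξ(ω(g⁻¹) v)`. -/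
noncomputable def omD (hW : IsWeil σ H ψ μ ρ ω) : unitary σ H →* Module.End ℂ (hDual ρ) where
  toFun g :=
    { toFun := fun ξ => ⟨ξ.1.comp (ω g⁻¹), hDual_comp_om hW _ ξ.2⟩
      map_add' := fun a b => by apply Subtype.ext; ext v; simp
      map_smul' := fun a b => by apply Subtype.ext; ext v; simp }
  map_one' := by
    ext ξ v
    simp
  map_mul' a b := by
    ext ξ v
    simp

theorem omD_apply (hW : IsWeil σ H ψ μ ρ ω) (g : unitary σ H) (ξ : hDual ρ) (v : S) :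
    (omD hW g ξ).1 v = ξ.1 (ω g⁻¹ v) := rfl

theorem hDual_ext {ξ η : hDual ρ} (h : ∀ v, ξ.1 v = η.1 v) : ξ = η :=
  Subtype.ext (LinearMap.ext h)

theorem rhoD_mul (hW : IsWeil σ H ψ μ ρ ω) (hq : QuadDatum σ δ d) (hH : IsSkew σ H)
    (hψ : Continuous ψ) (w w' : Fin N → E) :
    rhoD hW hq hH hψ w * rhoD hW hq hH hψ w' =
      (((ψ⁻¹) ((2 : F)⁻¹ * sympl F σ H w w') : Circle) : ℂ) • rhoD hW hq hH hψ (w + w') := by
  ext ξ v
  simp only [Module.End.mul_apply, LinearMap.smul_apply, rhoD_apply, SetLike.val_smul,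
    smul_eq_mul]
  have h1 := congrArg (fun f => f v) (hW.rho_mul (-w') (-w))
  simp only [Module.End.mul_apply, LinearMap.smul_apply] at h1
  have h2 : -w' + -w = -(w + w') := by abel
  have h3 : ψ ((2 : F)⁻¹ * sympl F σ H (-w') (-w)) = (ψ⁻¹) ((2 : F)⁻¹ * sympl F σ H w w') := by
    rw [AddChar.inv_apply, sympl_eq, sk_neg_left, sk_neg_right, neg_neg, ← sympl_eq,
      sympl_swap hq hH w w', mul_neg]
  rw [h1, map_smul, smul_eq_mul, h2, h3]

theorem rhoD_smooth (hW : IsWeil σ H ψ μ ρ ω) (hq : QuadDatum σ δ d) (hH : IsSkew σ H)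
    (hψ : Continuous ψ) (ξ : hDual ρ) :
    ∀ᶠ w in nhds (0 : Fin N → E), rhoD hW hq hH hψ w ξ = ξ := by
  have h1 : ∀ᶠ x in nhds (0 : Fin N → E), ∀ v, ξ.1 (ρ x v) = ξ.1 v := ξ.2
  have h2 : Filter.Tendsto (fun x : Fin N → E => -x) (nhds 0) (nhds 0) := by
    have := (continuous_neg (G := Fin N → E)).tendsto 0
    rwa [neg_zero] at this
  filter_upwards [h2.eventually h1] with w hw
  exact hDual_ext fun v => hw v

theorem omD_rhoD (hW : IsWeil σ H ψ μ ρ ω) (hq : QuadDatum σ δ d) (hH : IsSkew σ H)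
    (hψ : Continuous ψ) (g : unitary σ H) (w : Fin N → E) :
    omD hW g * rhoD hW hq hH hψ w = rhoD hW hq hH hψ ((umat g).mulVec w) * omD hW g := by
  ext ξ v
  simp only [Module.End.mul_apply, rhoD_apply, omD_apply]
  have h1 := congrArg (fun f => f v) (hW.om_rho g⁻¹ (-((umat g).mulVec w)))
  simp only [Module.End.mul_apply] at h1
  rw [Matrix.mulVec_neg, umat_inv_mulVec] at h1
  rw [h1]

end weil

end SpW
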