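import Pool.Agent.Work.MP_3615d2_al.HeisFix

/-!
# A criterion for irreducibility, and functionals fixed by the self-dual lattice
-/

open scoped Matrix

namespace Pool.Agent.SpehH

section

variable {F : Type*} [NontriviallyNormedField F] {W : Type*} [AddCommGroup W] [Module F W]
  {S : Type*} [AddCommGroup S] [Module ℂ S]
  {ψ : AddChar F Circle} {B : LinearMap.BilinForm F W} {ρ : W → Module.End ℂ S}
  {Y₁ Y : Submodule F W} {n : ℕ} {e f : Fin n → W} {I₁ I : Set (Fin n)} {c t : F}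

/-- `S` is spanned by the translates of the vectors fixed by the self-dual lattice. -/
theorem gen_fix [IsUltrametricDist F] [ProperSpace F] (hψ : Continuous ψ) (hc : IsCond ψ c)
    (hB : B.IsAlt) (h2 : (2 : F) ≠ 0) (h : IsHeis ψ B ρ) (sb : IsSB B Y₁ Y e f I₁ I)
    (ht : t ≠ 0) (x : S) :
    x ∈ Submodule.span ℂ {z | ∃ w v, IsFix ρ e f c t v ∧ z = ρ w v} := by
  have htn : 0 < ‖t‖ := norm_pos_iff.2 ht
  set G := Submodule.span ℂ {z | ∃ w v, IsFix ρ e f c t v ∧ z = ρ w v} with hG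
  have hst : ∀ w, ∀ y ∈ G, ρ w y ∈ G := by
    intro w y hy
    rw [hG] at hy
    induction hy using Submodule.span_induction with
    | mem z hz =>
      obtain ⟨w', v, hv, rfl⟩ := hz
      rw [rho_rho h]
      exact Submodule.smul_mem _ _ (Submodule.subset_span ⟨w + w', v, hv, rfl⟩)
    | zero => rw [map_zero]; exact Submodule.zero_mem _
    | add x y _ _ hx hy => rw [map_add]; exact Submodule.add_mem _ hx hy
    | smul a x _ hx => rw [map_smul]; exact Submodule.smul_mem _ _ hx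
  -- vectors which are fixed by `A_t`
  have step2 : ∀ x' : S, (∀ a : Fin n → F, ‖a‖ ≤ ‖t‖ → ρ (lc e a) x' = x') → x' ∈ G := by
    intro x' hx'
    obtain ⟨s', hs0, hs''⟩ := exists_ball h sb.ff x'
    have ht' : c / t ≠ 0 := div_ne_zero hc.1 ht
    refine Submodule.span_le.2 ?_ (exists_eigen hψ hc (π := fun a => ρ (lc f a))
      (by rw [lc_zero, h.zero]) (sb.rho_lc_f_add h) hs0 ht' hs'')
    rintro x3 ⟨hx3, l', -, hl'⟩
    have hx3f : ∀ a : Fin n → F, ‖a‖ ≤ ‖t‖ → ρ (lc e a) x3 = x3 := by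
      intro a ha
      clear hl'
      induction hx3 using Submodule.span_induction with
      | mem z hz =>
        obtain ⟨b, hb, rfl⟩ := hz
        rw [rho_comm h hB h2, hx' a ha, sb.lc_e_f, psi_eq_one hc, one_smul]
        refine (norm_dot_le a b).trans ?_
        rw [norm_div] at hb
        calc ‖a‖ * ‖b‖ ≤ ‖t‖ * (‖c‖ / ‖t‖) :=
              mul_le_mul ha hb (norm_nonneg _) (norm_nonneg _)
          _ = ‖c‖ := by field_simp
      | zero => rw [map_zero]
      | add y z _ _ hy hz => rw [map_add, hy, hz]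
      | smul r y _ hy => rw [map_smul, hy]
    have hx4 : IsFix ρ e f c t (ρ (lc e l') x3) := by
      refine ⟨fun a ha => ?_, fun b hb => ?_⟩
      · rw [rho_comm h hB h2, sb.lc_e_e, psi_zero, one_smul, hx3f a ha]
      · have hb' : ‖b‖ ≤ ‖c / t‖ := by
          rw [norm_div, le_div_iff₀ htn]
          exact hb
        rw [rho_comm h hB h2, hl' b hb', map_smul, smul_smul, sb.lc_f_e hB, psi_neg_mul, one_smul]
    have := hst (-lc e l') _ (Submodule.subset_span ⟨0, _, hx4, (rho_zero h _).symm⟩)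
    rwa [rho_neg_rho h hB] at this
  obtain ⟨s, hs, hs'⟩ := exists_ball h sb.ee x
  refine Submodule.span_le.2 ?_ (exists_eigen hψ hc (π := fun a => ρ (lc e a))
    (by rw [lc_zero, h.zero]) (sb.rho_lc_e_add h) hs ht hs')
  rintro x1 ⟨-, l, -, hl⟩
  have := hst (lc f l) _ (step2 (ρ (-lc f l) x1) fun a ha => by
    rw [rho_comm h hB h2, hl a ha, map_smul, smul_smul, map_neg, sb.lc_e_f, dotProduct_comm,
      psi_neg_mul, one_smul])
  rwa [rho_rho_neg h hB] at this

/-- A nonzero representation whose fixed vectors are on a line is irreducible. -/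
theorem irr_of_one [IsUltrametricDist F] [ProperSpace F] (hψ : Continuous ψ) (hc : IsCond ψ c)
    (hB : B.IsAlt) (h2 : (2 : F) ≠ 0) (h : IsHeis ψ B ρ) (hS : Nontrivial S)
    (sb : IsSB B Y₁ Y e f I₁ I) (ht : t ≠ 0) {v0 : S}
    (h1 : ∀ v, IsFix ρ e f c t v → ∃ z : ℂ, v = z • v0) : IsIrr ρ := by
  refine ⟨hS, fun T hT => ?_⟩
  by_cases hT0 : T = ⊥
  · exact Or.inl hT0
  refine Or.inr (eq_top_iff.2 fun x _ => ?_)
  have hTn : Nontrivial T := Submodule.nontrivial_iff_ne_bot.2 hT0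
  have hh : IsHeis ψ B fun w => (ρ w).restrict (hT w) := by
    refine ⟨?_, fun w w' => ?_, fun v w => ?_⟩
    · ext v
      exact rho_zero h _
    · ext v
      exact rho_rho h w w' _
    · obtain ⟨ε, hε, hε'⟩ := h.smooth v.1 w
      exact ⟨ε, hε, fun a ha => Subtype.ext (hε' a ha)⟩
  obtain ⟨v, hv, hf⟩ := exists_fix hψ hc hB h2 hh hTn sb ht
  have hf' : IsFix ρ e f c t v.1 :=
    ⟨fun a ha => congrArg Subtype.val (hf.1 a ha), fun b hb => congrArg Subtype.val (hf.2 b hb)⟩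
  obtain ⟨z, hz⟩ := h1 _ hf'
  have hz0 : z ≠ 0 := by
    rintro rfl
    rw [zero_smul] at hz
    exact hv (Subtype.ext hz)
  have hv0 : v0 ∈ T := by
    have := T.smul_mem z⁻¹ v.2
    rwa [hz, smul_smul, inv_mul_cancel₀ hz0, one_smul] at this
  refine Submodule.span_le.2 ?_ (gen_fix hψ hc hB h2 h sb ht x)
  rintro _ ⟨w, v', hv', rfl⟩
  obtain ⟨z', rfl⟩ := h1 v' hv'
  exact hT w _ (T.smul_mem _ hv0)

/-- a vector which is orthogonal to the self-dual lattice is in the lattice -/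
theorem IsSB.self_dual (sb : IsSB B Y₁ Y e f I₁ I) (hc : IsCond ψ c) (hB : B.IsAlt) (ht : t ≠ 0)
    {w : W} (h1 : ∀ a : Fin n → F, ‖a‖ ≤ ‖t‖ → ψ (B (lc e a) w) = 1)
    (h2 : ∀ b : Fin n → F, ‖b‖ * ‖t‖ ≤ ‖c‖ → ψ (B (lc f b) w) = 1) :
    ∃ a b : Fin n → F, ‖a‖ ≤ ‖t‖ ∧ ‖b‖ * ‖t‖ ≤ ‖c‖ ∧ w = lc e a + lc f b := by
  classical
  have htn : 0 < ‖t‖ := norm_pos_iff.2 ht
  have hcn : 0 < ‖c‖ := norm_pos_iff.2 hc.1
  have h5 : ∀ i, ‖B w (e i)‖ * ‖t‖ ≤ ‖c‖ := by
    intro i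
    rw [← cond_iff hc ht]
    intro a ha
    have := h1 (Pi.single i (-a)) (by rwa [Pi.norm_single, norm_neg])
    rw [lc_single, map_smul, LinearMap.smul_apply, ← hB.neg_eq w (e i), smul_eq_mul] at this
    rw [← this]
    congr 1
    ring
  obtain ⟨w2, b, hwe, hb, -, hb1, hw2, hw2f⟩ := sb.split hB Set.univ w fun i _ => h5 i
  have hw2' : w2 = lc e fun i => B w (f i) := by
    have h10 := sb.eq_lc fun i => hw2 i (Set.mem_univ i)
    rwa [funext hw2f] at h10
  refine ⟨fun i => B w (f i), b, ?_, hb, by rw [← hw2']; exact hwe⟩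
  refine (pi_norm_le_iff_of_nonneg (norm_nonneg t)).2 fun i => ?_
  have hct : c / t ≠ 0 := div_ne_zero hc.1 ht
  have : ‖B w (f i)‖ * ‖c / t‖ ≤ ‖c‖ := by
    rw [← cond_iff hc hct]
    intro a ha
    have h7 := h2 (Pi.single i (-a)) (by
      rw [Pi.norm_single, norm_neg]
      rwa [norm_div, le_div_iff₀ htn] at ha)
    rw [lc_single, map_smul, LinearMap.smul_apply, ← hB.neg_eq w (f i), smul_eq_mul] at h7
    rw [← h7]
    congr 1
    ring
  rw [norm_div, ← mul_div_assoc, div_le_iff₀ htn, mul_comm ‖c‖] at this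
  exact le_of_mul_le_mul_right this hcn

/-- the lattice as a set of vectors -/
def latt (e f : Fin n → W) (c t : F) : Set W :=
  {l | (∃ a : Fin n → F, ‖a‖ ≤ ‖t‖ ∧ l = lc e a) ∨
    ∃ b : Fin n → F, ‖b‖ * ‖t‖ ≤ ‖c‖ ∧ l = lc f b}

/-- a functional which is fixed by the lattice and vanishes at `v` is zero -/
theorem fun_zero (hc : IsCond ψ c) (hB : B.IsAlt) (h2 : (2 : F) ≠ 0) (h : IsHeis ψ B ρ)
    (hi : IsIrr ρ) (sb : IsSB B Y₁ Y e f I₁ I) (ht : t ≠ 0) {v : S} (hv : v ≠ 0)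
    (hf : IsFix ρ e f c t v) {ξ : S →ₗ[ℂ] ℂ} (h1 : ∀ l ∈ latt e f c t, ∀ x, ξ (ρ l x) = ξ x)
    (h0 : ξ v = 0) : ξ = 0 := by
  have hv' : ∀ l ∈ latt e f c t, ρ l v = v := by
    rintro l (⟨a, ha, rfl⟩ | ⟨b, hb, rfl⟩)
    · exact hf.1 a ha
    · exact hf.2 b hb
  have hx : ∀ x, x ∈ Submodule.span ℂ (Set.range fun w => ρ w v) := by
    intro x
    rw [span_eq_top h hi hv]
    exact Submodule.mem_top
  have key : ∀ w, ξ (ρ w v) = 0 := by
    intro w
    by_cases hw : ∀ l ∈ latt e f c t, ψ (B l w) = 1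
    · obtain ⟨a, b, ha, hb, rfl⟩ := sb.self_dual hc hB ht (fun a ha => hw _ (Or.inl ⟨a, ha, rfl⟩))
        fun b hb => hw _ (Or.inr ⟨b, hb, rfl⟩)
      rw [rho_add h, hf.2 b hb, hf.1 a ha, map_smul, h0, smul_zero]
    · push Not at hw
      obtain ⟨l, hl, hne⟩ := hw
      have h3 := h1 l hl (ρ w v)
      rw [rho_comm h hB h2, hv' l hl, map_smul, smul_eq_mul] at h3
      by_contra h4
      rw [mul_eq_right₀ h4] at h3
      apply hne
      rwa [← Circle.coe_one, Circle.coe_inj] at h3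
  ext x
  rw [LinearMap.zero_apply]
  induction hx x using Submodule.span_induction with
  | mem x hx =>
    obtain ⟨w, rfl⟩ := hx
    exact key w
  | zero => rw [map_zero]
  | add x y _ _ hx hy => rw [map_add, hx, hy, add_zero]
  | smul a x _ hx => rw [map_smul, hx, smul_zero]

/-- existence of a functional which is fixed by the lattice -/
theorem exists_fun (hB : B.IsAlt) (h2 : (2 : F) ≠ 0) (h : IsHeis ψ B ρ)
    (hi : IsIrr ρ) {v : S} (hv : v ≠ 0) (hf : IsFix ρ e f c t v) :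
    ∃ ξ : S →ₗ[ℂ] ℂ, ξ v ≠ 0 ∧ ∀ l ∈ latt e f c t, ∀ x, ξ (ρ l x) = ξ x := by
  classical
  have hv' : ∀ l ∈ latt e f c t, ρ l v = v := by
    rintro l (⟨a, ha, rfl⟩ | ⟨b, hb, rfl⟩)
    · exact hf.1 a ha
    · exact hf.2 b hb
  have hx : ∀ x, x ∈ Submodule.span ℂ (Set.range fun w => ρ w v) := by
    intro x
    rw [span_eq_top h hi hv]
    exact Submodule.mem_top
  let P : W → Prop := fun w => ∃ l ∈ latt e f c t, ψ (B l w) ≠ 1
  have hnot : v ∉ Submodule.span ℂ {z | ∃ w, P w ∧ z = ρ w v} := by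
    intro hmem
    obtain ⟨s, a, hs⟩ := exists_sum_of_mem (K := (⊥ : Submodule ℂ S)) (ρ := ρ) (P := P) (v := v)
      (x := v) (by rwa [sup_bot_eq])
    have h3 := ev_mem (Λ := latt e f c t) (T := fun l => ρ l.1) (K := (⊥ : Submodule ℂ S))
      (fun l x hx => by
        rw [Submodule.mem_bot] at hx ⊢
        rw [hx, map_zero])
      (g := fun j : {w // P w} => ρ j.1 v)
      (χ := fun l j => ((ψ (B l.1 j.1) : Circle) : ℂ)) (χ0 := fun _ => 1)
      (fun l j => by
        rw [rho_comm h hB h2, hv' l.1 l.2, sub_self]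
        exact Submodule.zero_mem _)
      (fun l => by
        rw [hv' l.1 l.2, one_smul, sub_self]
        exact Submodule.zero_mem _) s a hs
    have h4 : {z | ∃ j : {w // P w}, (∀ l : latt e f c t,
        ((ψ (B l.1 j.1) : Circle) : ℂ) = 1) ∧ z = ρ j.1 v} = ∅ := by
      ext z
      simp only [Set.mem_ofPred_eq, Set.mem_empty_iff_false, iff_false]
      rintro ⟨⟨w, l, hl, hne⟩, hj, -⟩
      apply hne
      have := hj ⟨l, hl⟩
      rwa [← Circle.coe_one, Circle.coe_inj] at this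
    rw [h4, Submodule.span_empty, bot_sup_eq, Submodule.mem_bot] at h3
    exact hv h3
  obtain ⟨ξ, hξ, hk⟩ := Submodule.exists_le_ker_of_notMem hnot
  refine ⟨ξ, hξ, fun l hl x => ?_⟩
  induction hx x using Submodule.span_induction with
  | mem x hx =>
    obtain ⟨w, rfl⟩ := hx
    show ξ (ρ l (ρ w v)) = ξ (ρ w v)
    rw [rho_comm h hB h2, hv' l hl, map_smul, smul_eq_mul]
    by_cases hw : P w
    · have h5 : ξ (ρ w v) = 0 := hk (Submodule.subset_span ⟨w, hw, rfl⟩)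
      rw [h5, mul_zero]
    · have h6 : ψ (B l w) = 1 := by
        by_contra h7
        exact hw ⟨l, hl, h7⟩
      rw [h6, Circle.coe_one, one_mul]
  | zero => rw [map_zero]
  | add x y _ _ hx hy => rw [map_add, map_add, hx, hy, map_add]
  | smul a x _ hx => rw [map_smul, map_smul, hx, map_smul]

end

end Pool.Agent.SpehH
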