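import Pool.Agent.Work.MP_3615d2_al.DualA
import Pool.Agent.Work.MP_3615d2_al.HeisDual

/-!
MP_3615d2_al: the smooth dual of a Weil representation is nonzero, irreducible, and the action of
`U(X)` on it is smooth.
-/

open MeasureTheory
open scoped NNReal

namespace SpW

open Pool.Agent.SpehH

section weil

variable {F E : Type} [NontriviallyNormedField F] [IsUltrametricDist F] [ProperSpace F]
  [NontriviallyNormedField E] [NormedAlgebra F E]
  [ProperSpace E] [MeasurableSpace E] [BorelSpace E]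
  {σ : E ≃ₐ[F] E} {δ : E} {d : F} {N : ℕ} {H : Matrix (Fin N) (Fin N) E}
  {ψ : AddChar F Circle} {μ : Eˣ →* ℂˣ} {S : Type} [AddCommGroup S] [Module ℂ S]
  {ρ : (Fin N → E) → Module.End ℂ S} {ω : unitary σ H →* Module.End ℂ S}

omit [IsUltrametricDist F] [ProperSpace F] in
theorem isCond_inv {c : F} (hc : IsCond ψ c) : IsCond (ψ⁻¹) c := by
  refine ⟨hc.1, fun b => ?_⟩
  rw [← hc.2 b]
  constructor
  · intro h a ha
    have := h a ha
    rw [AddChar.inv_apply, AddChar.map_neg_eq_inv, inv_eq_one] at this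
    exact this
  · intro h a ha
    rw [AddChar.inv_apply, AddChar.map_neg_eq_inv, inv_eq_one]
    exact h a ha

omit [IsUltrametricDist F] [ProperSpace F] in
theorem continuous_inv_char (hψ : Continuous ψ) : Continuous (ψ⁻¹ : AddChar F Circle) := by
  have : ((ψ⁻¹ : AddChar F Circle) : F → Circle) = fun x => ψ (-x) := by
    ext x
    rw [AddChar.inv_apply]
  rw [this]
  exact hψ.comp continuous_neg

theorem rhoD_isHeis (hW : IsWeil σ H ψ μ ρ ω) (hq : QuadDatum σ δ d) (hH : IsSkew σ H)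
    (hψ : Continuous ψ) : IsHeis (ψ⁻¹) (symplB F σ H) (rhoD hW hq hH hψ) where
  zero := by
    ext ξ v
    rw [rhoD_apply, neg_zero, hW.rho_zero]
    rfl
  mul w w' := by
    rw [rhoD_mul, symplB_apply, div_eq_inv_mul]
  smooth v w := by
    have h1 : Filter.Tendsto (fun a : F => a • w) (nhds 0) (nhds (0 : Fin N → E)) := by
      have : ContinuousAt (fun a : F => a • w) 0 := by fun_prop
      simpa [ContinuousAt] using this
    have h2 := h1.eventually (rhoD_smooth hW hq hH hψ v)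
    obtain ⟨ε, hε, h3⟩ := Metric.eventually_nhds_iff.1 h2
    refine ⟨ε / 2, by positivity, fun a ha => h3 ?_⟩
    rw [dist_zero_right]
    linarith

/-- the data of a self-dual lattice -/
theorem exists_data (hW : IsWeil σ H ψ μ ρ ω) (hq : QuadDatum σ δ d) (hH : IsSkew σ H)
    (hψ : Continuous ψ) (hψ1 : ψ ≠ 1) :
    ∃ (c : F) (n : ℕ) (e f : Fin n → Fin N → E) (v : S), IsCond ψ c ∧
      IsSB (symplB F σ H) ⊥ ⊥ e f ∅ ∅ ∧ v ≠ 0 ∧ IsFix ρ e f c 1 v := by
  have hfin := hq.finite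
  obtain ⟨c, hc⟩ := exists_cond hψ hψ1
  obtain ⟨n, e, f, I₁, I, sb⟩ := exists_sb (symplB_alt hq hH) (symplB_nondeg hq hH) hq.two
    (le_refl (⊥ : Submodule F (Fin N → E))) (by
      intro y hy y' _
      rw [Submodule.mem_bot] at hy
      rw [hy, map_zero, LinearMap.zero_apply])
  have sb' : IsSB (symplB F σ H) ⊥ ⊥ e f ∅ ∅ :=
    { sub := le_rfl
      ee := sb.ee
      ff := sb.ff
      ef := sb.ef
      expand := sb.expand
      Y₁ := by rw [Set.image_empty, Submodule.span_empty]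
      Y := by rw [Set.image_empty, Submodule.span_empty] }
  obtain ⟨v, hv, hf⟩ := exists_fix hψ hc (symplB_alt hq hH) hq.two hW.isHeis hW.isIrr.1 sb'
    (one_ne_zero (α := F))
  exact ⟨c, n, e, f, v, hc, sb', hv, hf⟩

omit [IsUltrametricDist F] [MeasurableSpace E] [BorelSpace E] in
theorem coord_continuous (hq : QuadDatum σ δ d) (w : Fin N → E) :
    Continuous fun x : Fin N → E => symplB F σ H x w :=
  (sympl_continuous (H := H) hq).comp (by fun_prop : Continuous (fun x => (x, w)))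

/-- a functional which is fixed by the lattice is smooth -/
theorem mem_hDual_of_fix (hW : IsWeil σ H ψ μ ρ ω) (hq : QuadDatum σ δ d) {c : F} {n : ℕ}
    {e f : Fin n → Fin N → E} (hc : IsCond ψ c)
    (sb : IsSB (symplB F σ H) ⊥ ⊥ e f ∅ ∅) {ξ : S →ₗ[ℂ] ℂ}
    (h1 : ∀ l ∈ latt e f c (1 : F), ∀ x, ξ (ρ l x) = ξ x) : ξ ∈ hDual ρ := by
  have h := hW.isHeis
  have hcn : 0 < ‖c‖ := norm_pos_iff.2 hc.1
  have h2n : 0 < ‖(2 : F)‖ := norm_pos_iff.2 hq.two
  show ∀ᶠ w in nhds (0 : Fin N → E), ∀ v, ξ (ρ w v) = ξ v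
  have ca : ∀ᶠ w in nhds (0 : Fin N → E), ∀ i, ‖symplB F σ H w (f i)‖ ≤ 1 := by
    rw [Filter.eventually_all]
    intro i
    have h3 := (coord_continuous (H := H) hq (f i)).norm.tendsto 0
    rw [map_zero, LinearMap.zero_apply, norm_zero] at h3
    filter_upwards [h3.eventually_lt_const one_pos] with w hw using hw.le
  have cb : ∀ᶠ w in nhds (0 : Fin N → E), ∀ i,
      ‖symplB F σ H w (e i)‖ < min ‖c‖ (‖c‖ * ‖(2 : F)‖) := by
    rw [Filter.eventually_all]
    intro i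
    have h3 := (coord_continuous (H := H) hq (e i)).norm.tendsto 0
    rw [map_zero, LinearMap.zero_apply, norm_zero] at h3
    exact h3.eventually_lt_const (by positivity)
  filter_upwards [ca, cb] with w hwa hwb v
  have e1 : w = lc e (fun i => symplB F σ H w (f i)) + lc f (fun i => -symplB F σ H w (e i)) := by
    have := sb.expand w
    simp only [lc, neg_smul, Finset.sum_neg_distrib]
    rw [← sub_eq_add_neg]
    exact this
  set a : Fin n → F := fun i => symplB F σ H w (f i) with ha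
  set b : Fin n → F := fun i => -symplB F σ H w (e i) with hb
  have han : ‖a‖ ≤ 1 := (pi_norm_le_iff_of_nonneg one_pos.le).2 hwa
  have hbn : ‖b‖ ≤ min ‖c‖ (‖c‖ * ‖(2 : F)‖) :=
    (pi_norm_le_iff_of_nonneg (by positivity)).2 fun i => by
      rw [hb, norm_neg]
      exact (hwb i).le
  have hq2 : ‖-(symplB F σ H (lc e a) (lc f b) / 2)‖ ≤ ‖c‖ := by
    rw [norm_neg, norm_div, div_le_iff₀ h2n, sb.lc_e_f]
    refine (norm_dot_le a b).trans ?_
    calc ‖a‖ * ‖b‖ ≤ 1 * (‖c‖ * ‖(2 : F)‖) :=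
          mul_le_mul han (hbn.trans (min_le_right _ _)) (norm_nonneg _) one_pos.le
      _ = ‖c‖ * ‖(2 : F)‖ := one_mul _
  rw [e1, rho_add h, psi_eq_one hc hq2, one_smul, h1 _ (Or.inl ⟨a, by rwa [norm_one], rfl⟩),
    h1 _ (Or.inr ⟨b, by rw [norm_one, mul_one]; exact hbn.trans (min_le_left _ _), rfl⟩)]

theorem isFix_rhoD (hW : IsWeil σ H ψ μ ρ ω) (hq : QuadDatum σ δ d) (hH : IsSkew σ H)
    (hψ : Continuous ψ) {c : F} {n : ℕ} {e f : Fin n → Fin N → E} (ξ : hDual ρ) :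
    IsFix (rhoD hW hq hH hψ) e f c (1 : F) ξ ↔ ∀ l ∈ latt e f c (1 : F), ∀ x, ξ.1 (ρ l x) = ξ.1 x := by
  constructor
  · rintro ⟨h1, h2⟩ l (⟨a, ha, rfl⟩ | ⟨b, hb, rfl⟩) x
    · have := congrArg (fun η : hDual ρ => η.1 x) (h1 (-a) (by rwa [norm_neg]))
      rwa [lc_neg, rhoD_apply, neg_neg] at this
    · have := congrArg (fun η : hDual ρ => η.1 x) (h2 (-b) (by rwa [norm_neg]))
      rwa [lc_neg, rhoD_apply, neg_neg] at this
  · intro h
    refine ⟨fun a ha => hDual_ext fun x => ?_, fun b hb => hDual_ext fun x => ?_⟩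
    · rw [rhoD_apply, ← lc_neg]
      exact h _ (Or.inl ⟨-a, by rwa [norm_neg], rfl⟩) x
    · rw [rhoD_apply, ← lc_neg]
      exact h _ (Or.inr ⟨-b, by rwa [norm_neg], rfl⟩) x

/-- The smooth dual is nonzero. -/
theorem hDual_nontrivial (hW : IsWeil σ H ψ μ ρ ω) (hq : QuadDatum σ δ d) (hH : IsSkew σ H)
    (hψ : Continuous ψ) (hψ1 : ψ ≠ 1) : Nontrivial (hDual ρ) := by
  obtain ⟨c, n, e, f, v, hc, sb, hv, hf⟩ := exists_data hW hq hH hψ hψ1
  obtain ⟨ξ, hξ, h1⟩ := exists_fun (symplB_alt hq hH) hq.two hW.isHeis hW.isIrr hv hf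
  refine ⟨⟨⟨ξ, mem_hDual_of_fix hW hq hc sb h1⟩, 0, fun h0 => hξ ?_⟩⟩
  have := congrArg (fun η : hDual ρ => η.1 v) h0
  exact this

/-- Two functionals fixed by the lattice are proportional. -/
theorem fix_line (hW : IsWeil σ H ψ μ ρ ω) (hq : QuadDatum σ δ d) (hH : IsSkew σ H)
    (hψ : Continuous ψ) {c : F} {n : ℕ} {e f : Fin n → Fin N → E} {v : S} (hc : IsCond ψ c)
    (sb : IsSB (symplB F σ H) ⊥ ⊥ e f ∅ ∅) (hv : v ≠ 0) (hf : IsFix ρ e f c (1 : F) v)
    {ξ₀ : hDual ρ} (h0 : IsFix (rhoD hW hq hH hψ) e f c (1 : F) ξ₀) (hξ₀ : ξ₀ ≠ 0) :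
    ξ₀.1 v ≠ 0 ∧ ∀ ξ : hDual ρ, IsFix (rhoD hW hq hH hψ) e f c (1 : F) ξ →
      ξ = (ξ.1 v / ξ₀.1 v) • ξ₀ := by
  have hz : ∀ ξ : hDual ρ, IsFix (rhoD hW hq hH hψ) e f c (1 : F) ξ → ξ.1 v = 0 → ξ = 0 := by
    intro ξ hξ h1
    apply Subtype.ext
    exact fun_zero hc (symplB_alt hq hH) hq.two hW.isHeis hW.isIrr sb one_ne_zero hv hf
      ((isFix_rhoD hW hq hH hψ ξ).1 hξ) h1
  have h1 : ξ₀.1 v ≠ 0 := fun h2 => hξ₀ (hz ξ₀ h0 h2)
  refine ⟨h1, fun ξ hξ => ?_⟩
  rw [← sub_eq_zero]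
  apply hz
  · refine ⟨fun a ha => ?_, fun b hb => ?_⟩
    · rw [map_sub, map_smul, hξ.1 a ha, h0.1 a ha]
    · rw [map_sub, map_smul, hξ.2 b hb, h0.2 b hb]
  · show ξ.1 v - (ξ.1 v / ξ₀.1 v) * ξ₀.1 v = 0
    rw [div_mul_cancel₀ _ h1, sub_self]

/-- the data of a self-dual lattice for the representation and its dual -/
theorem exists_dataD (hW : IsWeil σ H ψ μ ρ ω) (hq : QuadDatum σ δ d) (hH : IsSkew σ H)
    (hψ : Continuous ψ) (hψ1 : ψ ≠ 1) :
    ∃ (c : F) (n : ℕ) (e f : Fin n → Fin N → E) (v : S) (ξ₀ : hDual ρ), IsCond ψ c ∧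
      IsSB (symplB F σ H) ⊥ ⊥ e f ∅ ∅ ∧ v ≠ 0 ∧ IsFix ρ e f c 1 v ∧
      IsFix (rhoD hW hq hH hψ) e f c (1 : F) ξ₀ ∧ ξ₀.1 v ≠ 0 ∧
      ∀ ξ : hDual ρ, IsFix (rhoD hW hq hH hψ) e f c (1 : F) ξ → ξ = (ξ.1 v / ξ₀.1 v) • ξ₀ := by
  obtain ⟨c, n, e, f, v, hc, sb, hv, hf⟩ := exists_data hW hq hH hψ hψ1
  obtain ⟨ξ₀, hξ₀, h0⟩ := exists_fix (continuous_inv_char hψ) (isCond_inv hc) (symplB_alt hq hH)
    hq.two (rhoD_isHeis hW hq hH hψ) (hDual_nontrivial hW hq hH hψ hψ1) sb (one_ne_zero (α := F))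
  obtain ⟨h1, h2⟩ := fix_line hW hq hH hψ hc sb hv hf h0 hξ₀
  exact ⟨c, n, e, f, v, ξ₀, hc, sb, hv, hf, h0, h1, h2⟩

/-- The smooth dual is an irreducible representation of the Heisenberg group. -/
theorem rhoD_irr (hW : IsWeil σ H ψ μ ρ ω) (hq : QuadDatum σ δ d) (hH : IsSkew σ H)
    (hψ : Continuous ψ) (hψ1 : ψ ≠ 1) (T : Submodule ℂ (hDual ρ))
    (hT : ∀ w, ∀ x ∈ T, rhoD hW hq hH hψ w x ∈ T) : T = ⊥ ∨ T = ⊤ := by
  obtain ⟨c, n, e, f, v, ξ₀, hc, sb, hv, hf, h0, h1, h2⟩ := exists_dataD hW hq hH hψ hψ1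
  exact (irr_of_one (continuous_inv_char hψ) (isCond_inv hc) (symplB_alt hq hH) hq.two
    (rhoD_isHeis hW hq hH hψ) (hDual_nontrivial hW hq hH hψ hψ1) sb (one_ne_zero (α := F))
    fun ξ hξ => ⟨_, h2 ξ hξ⟩).2 T hT

theorem rhoD_isIrr (hW : IsWeil σ H ψ μ ρ ω) (hq : QuadDatum σ δ d) (hH : IsSkew σ H)
    (hψ : Continuous ψ) (hψ1 : ψ ≠ 1) : IsIrr (rhoD hW hq hH hψ) :=
  ⟨hDual_nontrivial hW hq hH hψ hψ1, rhoD_irr hW hq hH hψ hψ1⟩

omit [IsUltrametricDist F] [ProperSpace F] [ProperSpace E] [MeasurableSpace E] [BorelSpace E] in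
/-- For `g` near `1`, `g` moves the vectors of a lattice by small vectors. -/
theorem unitary_near (ε r : ℝ) (hε : 0 < ε) (hr : 0 ≤ r) {n : ℕ} (e : Fin n → Fin N → E) :
    ∀ᶠ g in nhds (1 : unitary σ H), ∀ a : Fin n → F, ‖a‖ ≤ r →
      ‖(umat g).mulVec (lc e a) - lc e a‖ ≤ ε := by
  have h1 : ∀ i, ∀ᶠ g in nhds (1 : unitary σ H),
      ‖(umat g).mulVec (e i) - e i‖ ≤ ε / (r * n + 1) := by
    intro i
    have h2 : Continuous fun g : unitary σ H => (umat g).mulVec (e i) - e i := by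
      have h3 : Continuous fun g : unitary σ H => umat g :=
        Units.continuous_val.comp continuous_subtype_val
      exact (h3.matrix_mulVec continuous_const).sub continuous_const
    have h4 := h2.norm.tendsto 1
    rw [umat_one, Matrix.one_mulVec, sub_self, norm_zero] at h4
    filter_upwards [h4.eventually_lt_const (by positivity : 0 < ε / (r * n + 1))] with g hg
      using hg.le
  filter_upwards [Filter.eventually_all.2 h1] with g hg a ha
  have h5 : (umat g).mulVec (lc e a) - lc e a = ∑ i, a i • ((umat g).mulVec (e i) - e i) := by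
    rw [lc, Matrix.mulVec_sum, ← Finset.sum_sub_distrib]
    exact Finset.sum_congr rfl fun i _ => by rw [mulVec_fsmul, smul_sub]
  rw [h5]
  calc ‖∑ i, a i • ((umat g).mulVec (e i) - e i)‖
      ≤ ∑ i : Fin n, r * (ε / (r * n + 1)) := by
        refine norm_sum_le_of_le _ fun i _ => ?_
        rw [norm_smul]
        exact mul_le_mul ((norm_le_pi_norm a i).trans ha) (hg i) (norm_nonneg _) hr
    _ = ε * (r * n / (r * n + 1)) := by
        rw [Finset.sum_const, Finset.card_univ, Fintype.card_fin, nsmul_eq_mul]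
        ring
    _ ≤ ε * 1 := by
        refine mul_le_mul_of_nonneg_left ?_ hε.le
        rw [div_le_one (by positivity)]
        linarith
    _ = ε := mul_one _

/-- uniform smoothness on the balls of the span of an isotropic family -/
theorem rhoD_near (hW : IsWeil σ H ψ μ ρ ω) (hq : QuadDatum σ δ d) (hH : IsSkew σ H)
    (hψ : Continuous ψ) {c : F} (hc : IsCond ψ c) (ξ : hDual ρ) {r : ℝ} (hr : 0 ≤ r) {n : ℕ}
    (e : Fin n → Fin N → E) :
    ∀ᶠ g in nhds (1 : unitary σ H), ∀ a : Fin n → F, ‖a‖ ≤ r →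
      rhoD hW hq hH hψ ((umat g).mulVec (lc e a)) ξ = rhoD hW hq hH hψ (lc e a) ξ := by
  have hcn : 0 < ‖c‖ := norm_pos_iff.2 hc.1
  have h2n : 0 < ‖(2 : F)‖ := norm_pos_iff.2 hq.two
  obtain ⟨ε, hε, h1⟩ := Metric.eventually_nhds_iff.1 (rhoD_smooth hW hq hH hψ ξ)
  have h2 : ∀ᶠ w in nhds (0 : Fin N → E), ∀ i,
      ‖symplB F σ H w (e i)‖ < ‖c‖ * ‖(2 : F)‖ / (r + 1) := by
    rw [Filter.eventually_all]
    intro i
    have h3 := (coord_continuous (H := H) hq (e i)).norm.tendsto 0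
    rw [map_zero, LinearMap.zero_apply, norm_zero] at h3
    exact h3.eventually_lt_const (by positivity)
  obtain ⟨ε', hε', h3⟩ := Metric.eventually_nhds_iff.1 h2
  filter_upwards [unitary_near (σ := σ) (H := H) (F := F) (min ε ε' / 2) r (by positivity) hr e]
    with g hg a ha
  have h4 := hg a ha
  set w : Fin N → E := (umat g).mulVec (lc e a) - lc e a with hw
  have h5 : ‖w‖ < min ε ε' := lt_of_le_of_lt h4 (half_lt_self (by positivity))
  have h6 : (umat g).mulVec (lc e a) = lc e a + w := by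
    rw [hw]
    abel
  have h7 : rhoD hW hq hH hψ w ξ = ξ := h1 (by
    rw [dist_zero_right]
    exact lt_of_lt_of_le h5 (min_le_left _ _))
  have h8 : ∀ i, ‖symplB F σ H w (e i)‖ < ‖c‖ * ‖(2 : F)‖ / (r + 1) := h3 (by
    rw [dist_zero_right]
    exact lt_of_lt_of_le h5 (min_le_right _ _))
  have h9 : ‖-(symplB F σ H (lc e a) w / 2)‖ ≤ ‖c‖ := by
    rw [← (symplB_alt hq hH).neg_eq w (lc e a), norm_neg, norm_div, norm_neg, div_le_iff₀ h2n,
      bil_lc_right]
    refine IsUltrametricDist.norm_sum_le_of_forall_le_of_nonneg (by positivity) fun i _ => ?_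
    rw [norm_mul]
    calc ‖a i‖ * ‖symplB F σ H w (e i)‖ ≤ r * (‖c‖ * ‖(2 : F)‖ / (r + 1)) :=
          mul_le_mul ((norm_le_pi_norm a i).trans ha) (h8 i).le (norm_nonneg _) hr
      _ = ‖c‖ * ‖(2 : F)‖ * (r / (r + 1)) := by ring
      _ ≤ ‖c‖ * ‖(2 : F)‖ * 1 := by
          refine mul_le_mul_of_nonneg_left ?_ (by positivity)
          rw [div_le_one (by positivity)]
          linarith
      _ = ‖c‖ * ‖(2 : F)‖ := mul_one _
  rw [h6, rho_add (rhoD_isHeis hW hq hH hψ), psi_eq_one (isCond_inv hc) h9, one_smul, h7]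

/-- The action of `U(X)` on the smooth dual is smooth. -/
theorem omD_smooth (hW : IsWeil σ H ψ μ ρ ω) (hq : QuadDatum σ δ d) (hH : IsSkew σ H)
    (hψ : Continuous ψ) (hψ1 : ψ ≠ 1) (ξ : hDual ρ) :
    ∀ᶠ g in nhds (1 : unitary σ H), omD hW g ξ = ξ := by
  obtain ⟨c, n, e, f, v, ξ₀, hc, sb, hv, hf, h0, h1, h2⟩ := exists_dataD hW hq hH hψ hψ1
  have hinv : Filter.Tendsto (fun g : unitary σ H => g⁻¹) (nhds 1) (nhds 1) := by
    have := (continuous_inv (G := unitary σ H)).tendsto 1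
    rwa [inv_one] at this
  have hmul : ∀ (g : unitary σ H) (w : Fin N → E) (η : hDual ρ),
      omD hW g (rhoD hW hq hH hψ w η) = rhoD hW hq hH hψ ((umat g).mulVec w) (omD hW g η) := by
    intro g w η
    exact congrArg (fun R : Module.End ℂ (hDual ρ) => R η) (omD_rhoD hW hq hH hψ g w)
  -- the fixed functional
  have hξ₀ : ∀ᶠ g in nhds (1 : unitary σ H), omD hW g ξ₀ = ξ₀ := by
    filter_upwards [hinv.eventually (rhoD_near hW hq hH hψ hc ξ₀ (r := 1) one_pos.le e),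
      hinv.eventually (rhoD_near hW hq hH hψ hc ξ₀ (r := ‖c‖) (norm_nonneg c) f),
      hinv.eventually (hW.om_smooth v)] with g hg1 hg2 hg3
    have h3 : IsFix (rhoD hW hq hH hψ) e f c (1 : F) (omD hW g ξ₀) := by
      refine ⟨fun a ha => ?_, fun b hb => ?_⟩
      · have h4 := hmul g ((umat g⁻¹).mulVec (lc e a)) ξ₀
        rw [umat_mulVec_inv, hg1 a (by rwa [norm_one] at ha), h0.1 a ha] at h4
        exact h4.symm
      · have h4 := hmul g ((umat g⁻¹).mulVec (lc f b)) ξ₀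
        rw [umat_mulVec_inv, hg2 b (by rwa [norm_one, mul_one] at hb), h0.2 b hb] at h4
        exact h4.symm
    have h5 := h2 _ h3
    rw [omD_apply, hg3, div_self h1, one_smul] at h5
    exact h5
  -- the general case
  have hspan := gen_fix (continuous_inv_char hψ) (isCond_inv hc) (symplB_alt hq hH) hq.two
    (rhoD_isHeis hW hq hH hψ) sb (one_ne_zero (α := F)) ξ
  induction hspan using Submodule.span_induction with
  | mem x hx =>
    obtain ⟨w, η, hη, rfl⟩ := hx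
    have h6 := h2 η hη
    have h7 : ∀ᶠ g in nhds (1 : unitary σ H), omD hW g η = η := by
      filter_upwards [hξ₀] with g hg
      rw [h6, map_smul, hg]
    have h8 := rhoD_near hW hq hH hψ hc η (r := 1) one_pos.le (n := 1) (fun _ => w)
    filter_upwards [h7, h8] with g hg1 hg2
    have h9 := hg2 (fun _ => 1) (by
      refine (pi_norm_le_iff_of_nonneg one_pos.le).2 fun i => ?_
      rw [norm_one])
    have h10 : lc (fun _ : Fin 1 => w) (fun _ => (1 : F)) = w := by simp [lc]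
    rw [h10] at h9
    rw [hmul, hg1, h9]
  | zero =>
    filter_upwards with g
    rw [map_zero]
  | add x y _ _ hx hy =>
    filter_upwards [hx, hy] with g h3 h4
    rw [map_add, h3, h4]
  | smul a x _ hx =>
    filter_upwards [hx] with g h3
    rw [map_smul, h3]

end weil

end SpW
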