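import Pool.Agent.Work.MP_3615d2_al.RankSec

/-!
# Conjugation and symmetric matrices (the linear algebra of the theorem of Gelfand and Kazhdan)
-/

open Filter Topology Matrix Polynomial

universe u v

namespace SpW

section decomp

variable {K : Type u} [Field K] {n : Type v} [Fintype n] [DecidableEq n]

theorem aeval_toLin (x : Matrix n n K) (f : K[X]) (w : n → K) :
    aeval (Matrix.toLinAlgEquiv' x) f • w = (aeval x f).mulVec w := by
  have h : aeval (Matrix.toLinAlgEquiv' x) f = Matrix.toLinAlgEquiv' (aeval x f) :=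
    Polynomial.aeval_algHom_apply (Matrix.toLinAlgEquiv' (R := K) (n := n)).toAlgHom x f
  rw [h]
  rfl

/-- decomposition of `K^n` in cyclic modules for a matrix -/
theorem exists_cyclic (x₀ : Matrix n n K) :
    ∃ (ι : Type u) (_ : Fintype ι) (P : ι → K[X]) (v : ι → n → K), (∀ i, P i ≠ 0) ∧
      (∀ f : ι → K[X], ∑ i, (aeval x₀ (f i)).mulVec (v i) = 0 ↔ ∀ i, P i ∣ f i) ∧
      ∀ w, ∃ f : ι → K[X], ∑ i, (aeval x₀ (f i)).mulVec (v i) = w := by
  classical
  set φ : Module.End K (n → K) := Matrix.toLinAlgEquiv' x₀ with hφ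
  obtain ⟨ι, hι, p, hp, e, ⟨E⟩⟩ := Module.equiv_directSum_of_isTorsion
    (Module.AEval.isTorsion_of_finiteDimensional K (n → K) φ)
  set g : ι → Module.AEval K (n → K) φ := fun i =>
    E.symm (DirectSum.lof K[X] ι (fun i => K[X] ⧸ K[X] ∙ p i ^ e i) i (Submodule.Quotient.mk 1))
    with hg
  set v : ι → n → K := fun i => (Module.AEval.of K (n → K) φ).symm (g i) with hv
  have key : ∀ f : ι → K[X], ∑ i, (aeval x₀ (f i)).mulVec (v i) =
      (Module.AEval.of K (n → K) φ).symm (E.symm (∑ i,
        DirectSum.lof K[X] ι (fun i => K[X] ⧸ K[X] ∙ p i ^ e i) i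
          (Submodule.Quotient.mk (f i)))) := by
    intro f
    rw [map_sum, map_sum]
    refine Finset.sum_congr rfl fun i _ => ?_
    have h1 : (Submodule.Quotient.mk (f i) : K[X] ⧸ K[X] ∙ p i ^ e i) =
        f i • Submodule.Quotient.mk 1 := by
      rw [← Submodule.Quotient.mk_smul, smul_eq_mul, mul_one]
    rw [h1, map_smul, map_smul, Module.AEval.of_symm_smul, ← aeval_toLin]
  refine ⟨ι, hι, fun i => p i ^ e i, v, fun i => pow_ne_zero _ (hp i).ne_zero, ?_, ?_⟩
  · intro f
    rw [key]
    constructor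
    · intro h i
      have h2 : (∑ i, DirectSum.lof K[X] ι (fun i => K[X] ⧸ K[X] ∙ p i ^ e i) i
          (Submodule.Quotient.mk (f i))) = 0 := by
        apply E.symm.injective
        rw [map_zero]
        apply (Module.AEval.of K (n → K) φ).symm.injective
        rw [h, map_zero]
      have h3 := congrArg (DirectSum.component K[X] ι (fun i => K[X] ⧸ K[X] ∙ p i ^ e i) i) h2
      rw [map_zero, map_sum, Finset.sum_eq_single i] at h3
      · rw [DirectSum.component.lof_self, Submodule.Quotient.mk_eq_zero,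
          Submodule.mem_span_singleton] at h3
        obtain ⟨c, hc⟩ := h3
        exact ⟨c, by rw [← hc, smul_eq_mul, mul_comm]⟩
      · intro j _ hj
        exact DirectSum.component.of _ _ _ _ |>.trans (by rw [dif_neg hj])
      · simp
    · intro h
      have h2 : ∀ i, (Submodule.Quotient.mk (f i) : K[X] ⧸ K[X] ∙ p i ^ e i) = 0 := by
        intro i
        rw [Submodule.Quotient.mk_eq_zero, Submodule.mem_span_singleton]
        obtain ⟨c, hc⟩ := h i
        exact ⟨c, by rw [hc, smul_eq_mul, mul_comm]⟩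
      have h4 : (∑ i, DirectSum.lof K[X] ι (fun i => K[X] ⧸ K[X] ∙ p i ^ e i) i
          (Submodule.Quotient.mk (f i))) = 0 :=
        Finset.sum_eq_zero fun i _ => by rw [h2 i, map_zero]
      rw [h4, map_zero, map_zero]
  · intro w
    set y := E (Module.AEval.of K (n → K) φ w) with hy
    choose f hf using fun i => Submodule.Quotient.mk_surjective (K[X] ∙ p i ^ e i) (y i)
    refine ⟨f, ?_⟩
    rw [key]
    have h2 : (∑ i, DirectSum.lof K[X] ι (fun i => K[X] ⧸ K[X] ∙ p i ^ e i) i
          (Submodule.Quotient.mk (f i))) = y := by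
      simp_rw [hf]
      exact DirectSum.sum_univ_of y
    rw [h2, hy, E.symm_apply_apply, LinearEquiv.symm_apply_apply]

/-- a linear functional on `K[X] / (P)` without ideals in the kernel -/
theorem exists_functional {P : K[X]} (hP : P ≠ 0) : ∃ l : K[X] →ₗ[K] K,
    (∀ f, P ∣ f → l f = 0) ∧ ∀ f, ¬ P ∣ f → ∃ c, l (f * c) ≠ 0 := by
  classical
  set Q := P * C P.leadingCoeff⁻¹ with hQ
  have hQm : Q.Monic := monic_mul_leadingCoeff_inv hP
  have hPQ : ∀ f, P ∣ f ↔ Q ∣ f := by
    intro f
    have hu : IsUnit (C P.leadingCoeff⁻¹) :=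
      isUnit_C.2 (isUnit_iff_ne_zero.2 (inv_ne_zero (leadingCoeff_ne_zero.2 hP)))
    exact (hu.mul_right_dvd (a := P) (b := f)).symm
  refine ⟨(lcoeff K (Q.natDegree - 1)).comp (modByMonicHom Q), ?_, ?_⟩
  · intro f hf
    rw [LinearMap.comp_apply, modByMonicHom_apply, (modByMonic_eq_zero_iff_dvd hQm).2
      ((hPQ f).1 hf), map_zero]
  · intro f hf
    set g := f %ₘ Q with hg
    have hg0 : g ≠ 0 := by
      rw [hg, Ne, modByMonic_eq_zero_iff_dvd hQm, ← hPQ]
      exact hf
    have hQ1 : Q ≠ 1 := by
      intro h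
      exact hg0 (by rw [hg, h, modByMonic_one])
    have hdeg : g.natDegree < Q.natDegree := natDegree_modByMonic_lt f hQm hQ1
    refine ⟨X ^ (Q.natDegree - 1 - g.natDegree), ?_⟩
    rw [LinearMap.comp_apply, modByMonicHom_apply]
    have h1 : (f * X ^ (Q.natDegree - 1 - g.natDegree)) %ₘ Q =
        g * X ^ (Q.natDegree - 1 - g.natDegree) := by
      have h2 : (g * X ^ (Q.natDegree - 1 - g.natDegree)) %ₘ Q =
          g * X ^ (Q.natDegree - 1 - g.natDegree) := by
        rw [modByMonic_eq_self_iff hQm]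
        rw [degree_eq_natDegree (mul_ne_zero hg0 (pow_ne_zero _ X_ne_zero)),
          degree_eq_natDegree hQm.ne_zero, natDegree_mul hg0 (pow_ne_zero _ X_ne_zero),
          natDegree_X_pow]
        exact_mod_cast (by omega : g.natDegree + (Q.natDegree - 1 - g.natDegree) < Q.natDegree)
      rw [← h2]
      have h3 : Q ∣ f * X ^ (Q.natDegree - 1 - g.natDegree) -
          g * X ^ (Q.natDegree - 1 - g.natDegree) := by
        rw [← sub_mul]
        refine Dvd.dvd.mul_right ?_ _
        rw [hg, modByMonic_eq_sub_mul_div f Q, sub_sub_cancel]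
        exact dvd_mul_right _ _
      have h4 := (modByMonic_eq_zero_iff_dvd hQm).2 h3
      rw [sub_modByMonic] at h4
      exact sub_eq_zero.1 h4
    rw [h1, lcoeff_apply]
    obtain ⟨N, hN⟩ : ∃ N, Q.natDegree - 1 = g.natDegree + N :=
      ⟨Q.natDegree - 1 - g.natDegree, by omega⟩
    rw [hN, Nat.add_sub_cancel_left, coeff_mul_X_pow]
    exact leadingCoeff_ne_zero.2 hg0

/-- Every square matrix is conjugate to its transpose by a symmetric matrix. -/
theorem exists_symm (x₀ : Matrix n n K) : ∃ s : Matrix n n K, s.transpose = s ∧ IsUnit s.det ∧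
    x₀ * s = s * x₀.transpose := by
  classical
  obtain ⟨ι, _, P, v, hP, h0, h1⟩ := exists_cyclic x₀
  choose l hl hl' using fun i => exists_functional (hP i)
  choose g hg using fun k : n => h1 (Pi.single k 1)
  -- the relations
  have hX : ∀ k i, P i ∣ X * g k i - ∑ m, C (x₀ m k) * g m i := by
    intro k
    rw [← h0]
    have e1 : ∀ i, (aeval x₀ (X * g k i - ∑ m, C (x₀ m k) * g m i)).mulVec (v i) =
        x₀.mulVec ((aeval x₀ (g k i)).mulVec (v i)) -
          ∑ m, x₀ m k • (aeval x₀ (g m i)).mulVec (v i) := by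
      intro i
      rw [map_sub, map_mul, aeval_X, Matrix.sub_mulVec, ← Matrix.mulVec_mulVec, map_sum,
        Matrix.sum_mulVec]
      congr 1
      refine Finset.sum_congr rfl fun m _ => ?_
      rw [map_mul, aeval_C, Algebra.algebraMap_eq_smul_one, Matrix.smul_mul, Matrix.one_mul,
        Matrix.smul_mulVec]
    simp_rw [e1]
    rw [Finset.sum_sub_distrib, Finset.sum_comm]
    simp_rw [← Finset.smul_sum]
    rw [← Matrix.mulVec_sum, hg]
    simp_rw [hg]
    funext a
    simp [Finset.sum_apply, Pi.single_apply]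
  have hlX : ∀ k i b, l i ((∑ m, C (x₀ m k) * g m i) * b) = l i (X * g k i * b) := by
    intro k i b
    have h := hl i ((X * g k i - ∑ m, C (x₀ m k) * g m i) * b) ((hX k i).mul_right b)
    rw [sub_mul, map_sub, sub_eq_zero] at h
    exact h.symm
  set S : Matrix n n K := Matrix.of fun k k' => ∑ i, l i (g k i * g k' i) with hS
  have hSa : ∀ k k', S k k' = ∑ i, l i (g k i * g k' i) := fun k k' => rfl
  have hSt : S.transpose = S := by
    ext a b
    rw [Matrix.transpose_apply, hSa, hSa]
    exact Finset.sum_congr rfl fun i _ => by rw [mul_comm]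
  have hCl : ∀ i (c : K) (f : K[X]), l i (C c * f) = c * l i f := by
    intro i c f
    rw [← smul_eq_C_mul, map_smul, smul_eq_mul]
  have hSx : x₀.transpose * S = S * x₀ := by
    ext a b
    rw [Matrix.mul_apply, Matrix.mul_apply]
    have e1 : ∑ m, x₀.transpose a m * S m b = ∑ i, l i (X * g a i * g b i) := by
      simp_rw [hSa, Matrix.transpose_apply, Finset.mul_sum]
      rw [Finset.sum_comm]
      refine Finset.sum_congr rfl fun i _ => ?_
      rw [← hlX, Finset.sum_mul, map_sum]
      refine Finset.sum_congr rfl fun m _ => ?_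
      rw [mul_assoc, hCl]
    have e2 : ∑ m, S a m * x₀ m b = ∑ i, l i (X * g b i * g a i) := by
      simp_rw [hSa, Finset.sum_mul]
      rw [Finset.sum_comm]
      refine Finset.sum_congr rfl fun i _ => ?_
      rw [← hlX, Finset.sum_mul, map_sum]
      refine Finset.sum_congr rfl fun m _ => ?_
      rw [mul_assoc, hCl, mul_comm (g a i), mul_comm (x₀ m b)]
    rw [e1, e2]
    refine Finset.sum_congr rfl fun i _ => ?_
    congr 1
    ring
  have hdet : S.det ≠ 0 := by
    intro h
    obtain ⟨c, hc, hSc⟩ := Matrix.exists_mulVec_eq_zero_iff.2 h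
    apply hc
    set u : ι → K[X] := fun i => ∑ b, C (c b) * g b i with hu
    have hu1 : ∀ a, ∑ i, l i (g a i * u i) = 0 := by
      intro a
      have h := congrFun hSc a
      rw [Pi.zero_apply, Matrix.mulVec, dotProduct] at h
      rw [← h]
      simp_rw [hSa, Finset.sum_mul]
      rw [Finset.sum_comm]
      refine Finset.sum_congr rfl fun i _ => ?_
      rw [hu, Finset.mul_sum, map_sum]
      refine Finset.sum_congr rfl fun b _ => ?_
      rw [mul_left_comm, hCl, mul_comm]
    have hcomb : ∀ c : n → K, ∑ i, (aeval x₀ (∑ b, C (c b) * g b i)).mulVec (v i) = c := by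
      intro c
      have e1 : ∀ i, (aeval x₀ (∑ b, C (c b) * g b i)).mulVec (v i) =
          ∑ b, c b • (aeval x₀ (g b i)).mulVec (v i) := by
        intro i
        rw [map_sum, Matrix.sum_mulVec]
        refine Finset.sum_congr rfl fun m _ => ?_
        rw [map_mul, aeval_C, Algebra.algebraMap_eq_smul_one, Matrix.smul_mul, Matrix.one_mul,
          Matrix.smul_mulVec]
      simp_rw [e1]
      rw [Finset.sum_comm]
      simp_rw [← Finset.smul_sum, hg]
      funext a
      simp [Finset.sum_apply, Pi.single_apply]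
    have hdvd : ∀ i, P i ∣ u i := by
      intro i
      by_contra hn
      obtain ⟨h, hh⟩ := hl' i (u i) hn
      apply hh
      set w := (aeval x₀ h).mulVec (v i) with hw
      have h2 : ∀ j, P j ∣ (∑ b, C (w b) * g b j) - (Pi.single i h : ι → K[X]) j := by
        rw [← h0]
        simp_rw [map_sub, Matrix.sub_mulVec]
        rw [Finset.sum_sub_distrib, hcomb, sub_eq_zero, Finset.sum_eq_single i]
        · rw [Pi.single_eq_same]
        · intro j _ hj
          rw [Pi.single_eq_of_ne hj, map_zero, Matrix.zero_mulVec]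
        · simp
      have h3 : ∀ j, l j ((∑ b, C (w b) * g b j) * u j) =
          l j ((Pi.single i h : ι → K[X]) j * u j) := by
        intro j
        have h := hl j _ ((h2 j).mul_right (u j))
        rw [sub_mul, map_sub, sub_eq_zero] at h
        exact h
      have h4 : ∑ j, l j ((∑ b, C (w b) * g b j) * u j) = 0 := by
        have e1 : ∀ j, l j ((∑ b, C (w b) * g b j) * u j) =
            ∑ b, w b * l j (g b j * u j) := by
          intro j
          rw [Finset.sum_mul, map_sum]
          refine Finset.sum_congr rfl fun b _ => ?_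
          rw [mul_assoc, hCl]
        simp_rw [e1]
        rw [Finset.sum_comm]
        simp_rw [← Finset.mul_sum, hu1, mul_zero]
        exact Finset.sum_const_zero
      simp_rw [h3] at h4
      rw [Finset.sum_eq_single i] at h4
      · rw [Pi.single_eq_same, mul_comm] at h4
        exact h4
      · intro j _ hj
        rw [Pi.single_eq_of_ne hj, zero_mul, map_zero]
      · simp
    rw [← hcomb c]
    exact (h0 u).2 hdvd
  have hdu : IsUnit S.det := isUnit_iff_ne_zero.2 hdet
  refine ⟨S⁻¹, ?_, ?_, ?_⟩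
  · rw [Matrix.transpose_nonsing_inv, hSt]
  · rw [Matrix.det_nonsing_inv]
    exact hdu.ringInverse
  · calc x₀ * S⁻¹ = S⁻¹ * (S * x₀) * S⁻¹ := by
          rw [← Matrix.mul_assoc, Matrix.nonsing_inv_mul _ hdu, Matrix.one_mul]
      _ = S⁻¹ * (x₀.transpose * S) * S⁻¹ := by rw [hSx]
      _ = S⁻¹ * x₀.transpose := by
          rw [Matrix.mul_assoc, Matrix.mul_assoc, Matrix.mul_nonsing_inv _ hdu, Matrix.mul_one]

end decomp

end SpW
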