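import Pool.Agent.Work.MP_3615d2_al.GKLin

/-!
# Continuous conjugators on a stratum of a fibre of the characteristic polynomial
-/

open Filter Topology Matrix Polynomial

universe u v

namespace SpW

section mdiv

variable {K : Type u} [Field K]

open Classical in
/-- the monic divisors of `χ` -/
noncomputable def mdiv (χ : K[X]) : Finset K[X] :=
  ((UniqueFactorizationMonoid.normalizedFactors χ).powerset.map Multiset.prod).toFinset

theorem mem_mdiv {χ f : K[X]} (hχ : χ ≠ 0) (hf : f.Monic) (h : f ∣ χ) : f ∈ mdiv χ := by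
  classical
  rw [mdiv, Multiset.mem_toFinset, Multiset.mem_map]
  refine ⟨UniqueFactorizationMonoid.normalizedFactors f, ?_, ?_⟩
  · rw [Multiset.mem_powerset]
    exact (UniqueFactorizationMonoid.dvd_iff_normalizedFactors_le_normalizedFactors hf.ne_zero
      hχ).1 h
  · rw [UniqueFactorizationMonoid.prod_normalizedFactors_eq hf.ne_zero]
    exact hf.normalize_eq_self

variable {n : Type v} [Fintype n] [DecidableEq n]

/-- the sum of the ranks of `f(x)`, `f` a monic divisor of the characteristic polynomial -/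
noncomputable def rk (x : Matrix n n K) : ℕ := ∑ f ∈ mdiv x.charpoly, (aeval x f).rank

theorem rk_le (x : Matrix n n K) : rk x ≤ (mdiv x.charpoly).card * Fintype.card n := by
  rw [rk, ← smul_eq_mul]
  refine Finset.sum_le_card_nsmul _ _ _ fun f _ => ?_
  simpa using Matrix.rank_le_card_width (aeval x f)

/-- generators and relations of `K^n` as a `K[X]`-module, with monic `P i` -/
theorem exists_rel (x₀ : Matrix n n K) :
    ∃ (ι : Type u) (_ : Fintype ι) (P : ι → K[X]) (v : ι → n → K) (g : n → ι → K[X]),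
      (∀ i, (P i).Monic) ∧ (∀ i, P i ∣ x₀.charpoly) ∧ (∀ i, (aeval x₀ (P i)).mulVec (v i) = 0) ∧
      (∀ k, ∑ i, (aeval x₀ (g k i)).mulVec (v i) = Pi.single k 1) ∧
      ∀ k i, P i ∣ X * g k i - ∑ m, C (x₀ m k) * g m i := by
  classical
  obtain ⟨ι, _, P, v, hP, h0, h1⟩ := exists_cyclic x₀
  choose g hg using fun k : n => h1 (Pi.single k 1)
  set Q : ι → K[X] := fun i => P i * C (P i).leadingCoeff⁻¹ with hQ
  have hPQ : ∀ i f, P i ∣ f ↔ Q i ∣ f := by
    intro i f
    have hu : IsUnit (C (P i).leadingCoeff⁻¹) :=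
      isUnit_C.2 (isUnit_iff_ne_zero.2 (inv_ne_zero (leadingCoeff_ne_zero.2 (hP i))))
    exact (hu.mul_right_dvd (a := P i) (b := f)).symm
  have hs : ∀ (i : ι) (f : K[X]), (aeval x₀ f).mulVec (v i) =
      ∑ j, (aeval x₀ ((Pi.single i f : ι → K[X]) j)).mulVec (v j) := by
    intro i f
    rw [Finset.sum_eq_single i]
    · rw [Pi.single_eq_same]
    · intro j _ hj
      rw [Pi.single_eq_of_ne hj, map_zero, Matrix.zero_mulVec]
    · simp
  have hs' : ∀ (i : ι) (f : K[X]), (aeval x₀ f).mulVec (v i) = 0 ↔ P i ∣ f := by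
    intro i f
    rw [hs, h0]
    constructor
    · intro h
      have := h i
      rwa [Pi.single_eq_same] at this
    · intro h j
      by_cases hj : j = i
      · subst hj
        rwa [Pi.single_eq_same]
      · rw [Pi.single_eq_of_ne hj]
        exact dvd_zero _
  refine ⟨ι, ‹_›, Q, v, g, fun i => monic_mul_leadingCoeff_inv (hP i), ?_, ?_, hg, ?_⟩
  · intro i
    rw [← hPQ, ← hs', Matrix.aeval_self_charpoly, Matrix.zero_mulVec]
  · intro i
    rw [hs', hPQ]
  · intro k i
    rw [← hPQ]
    revert i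
    rw [← h0]
    have e1 : ∀ i, (aeval x₀ (X * g k i - ∑ m, C (x₀ m k) * g m i)).mulVec (v i) =
        x₀.mulVec ((aeval x₀ (g k i)).mulVec (v i)) -
          ∑ m, x₀ m k • (aeval x₀ (g m i)).mulVec (v i) := by
      intro i
      rw [map_sub, map_mul, aeval_X, Matrix.sub_mulVec, ← Matrix.mulVec_mulVec, map_sum,
        Matrix.sum_mulVec]
      congr 1
      refine Finset.sum_congr rfl fun m _ => ?_
      rw [map_mul, aeval_C, Algebra.algebraMap_eq_smul_one, Matrix.smul_mul, Matrix.one_mul,
        Matrix.smul_mulVec]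
    simp_rw [e1]
    rw [Finset.sum_sub_distrib, Finset.sum_comm]
    simp_rw [← Finset.smul_sum]
    rw [← Matrix.mulVec_sum, hg]
    simp_rw [hg]
    funext a
    simp [Finset.sum_apply, Pi.single_apply]

end mdiv

section sec

variable {K : Type u} [Field K] [TopologicalSpace K] [IsTopologicalDivisionRing K] [T1Space K]
  {n : Type v} [Fintype n] [DecidableEq n] {Y : Type*} [TopologicalSpace Y]

theorem contOn_mulVec {S : Set Y} {A : Y → Matrix n n K} {w : Y → n → K} (hA : ContinuousOn A S)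
    (hw : ContinuousOn w S) : ContinuousOn (fun y => (A y).mulVec (w y)) S :=
  (Continuous.matrix_mulVec (A := fun p : Matrix n n K × (n → K) => p.1)
    (B := fun p : Matrix n n K × (n → K) => p.2) continuous_fst continuous_snd).comp_continuousOn
    (hA.prodMk hw)

/-- continuous conjugators -/
theorem exists_conj_section {A : Y → Matrix n n K} (hA : Continuous A) (x₀ : Y) :
    ∃ (V : Set Y) (M : Y → Matrix n n K), IsOpen V ∧ x₀ ∈ V ∧ ContinuousOn M V ∧ M x₀ = 1 ∧
      ∀ x ∈ V, (A x).charpoly = (A x₀).charpoly → rk (A x) ≤ rk (A x₀) →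
        IsUnit (M x).det ∧ A x * M x = M x * A x₀ := by
  classical
  obtain ⟨ι, _, P, v, g, hPm, hPχ, hPv, hg, hX⟩ := exists_rel (A x₀)
  have hpc : ∀ f : K[X], Continuous fun x => aeval (A x) f := fun f =>
    (Polynomial.continuous_aeval f).comp hA
  choose V R hV hxV hRc hR1 hRr hR using fun i => exists_ker_section (hpc (P i)) x₀
  set M : Y → Matrix n n K := fun x => Matrix.of fun a k =>
    (∑ i, (aeval (A x) (g k i)).mulVec ((R i x).mulVec (v i))) a with hM
  have hMcol : ∀ x k, (M x).mulVec (Pi.single k 1) =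
      ∑ i, (aeval (A x) (g k i)).mulVec ((R i x).mulVec (v i)) := by
    intro x k
    rw [Matrix.mulVec_single_one]
    rfl
  have hM1 : M x₀ = 1 := by
    refine Matrix.ext_of_mulVec_single fun k => ?_
    rw [hMcol, Matrix.one_mulVec, ← hg k]
    refine Finset.sum_congr rfl fun i _ => ?_
    rw [hR1, Matrix.one_mulVec]
  have hVo : IsOpen (⋂ i, V i) := isOpen_iInter_of_finite hV
  have hMc : ContinuousOn M (⋂ i, V i) := by
    refine continuousOn_pi.2 fun a => continuousOn_pi.2 fun k => ?_
    have h1 : ContinuousOn (fun x => ∑ i, (aeval (A x) (g k i)).mulVec ((R i x).mulVec (v i)))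
        (⋂ i, V i) := by
      refine continuousOn_finsetSum _ fun i _ => ?_
      exact contOn_mulVec (hpc (g k i)).continuousOn
        (contOn_mulVec ((hRc i).mono (Set.iInter_subset V i)) continuousOn_const)
    exact (continuousOn_pi.1 h1) a
  have hdet : ∀ᶠ x in 𝓝 x₀, (M x).det ≠ 0 := by
    have h1 : ContinuousAt (fun x => (M x).det) x₀ := by
      have h2 : ContinuousAt M x₀ := hMc.continuousAt (hVo.mem_nhds (Set.mem_iInter.2 hxV))
      exact (continuous_id.matrix_det.continuousAt).comp h2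
    exact h1.eventually_ne (by rw [hM1]; simp)
  have hrank : ∀ᶠ x in 𝓝 x₀, ∀ f ∈ mdiv (A x₀).charpoly,
      (aeval (A x₀) f).rank ≤ (aeval (A x) f).rank := by
    rw [Filter.eventually_all_finset]
    intro f _
    exact eventually_rank_ge (hpc f) x₀
  obtain ⟨W, hW, hWo, hxW⟩ := eventually_nhds_iff.1 (hdet.and hrank)
  refine ⟨(⋂ i, V i) ∩ W, M, hVo.inter hWo, ⟨Set.mem_iInter.2 hxV, hxW⟩,
    hMc.mono Set.inter_subset_left, hM1, ?_⟩
  rintro x ⟨hxV', hxW'⟩ hχ hr
  obtain ⟨hd, hrk⟩ := hW x hxW'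
  refine ⟨isUnit_iff_ne_zero.2 hd, ?_⟩
  have heq : ∀ f ∈ mdiv (A x₀).charpoly, (aeval (A x) f).rank ≤ (aeval (A x₀) f).rank := by
    intro f hf
    by_contra hn
    push Not at hn
    rw [rk, rk, hχ] at hr
    exact absurd (Finset.sum_lt_sum hrk ⟨f, hf, hn⟩) (not_lt.2 hr)
  have hker : ∀ i, (aeval (A x) (P i)).mulVec ((R i x).mulVec (v i)) = 0 := by
    intro i
    exact hR i (v i) (hPv i) x (Set.mem_iInter.1 hxV' i)
      (heq _ (mem_mdiv (Matrix.charpoly_monic _).ne_zero (hPm i) (hPχ i)))
  refine Matrix.ext_of_mulVec_single fun k => ?_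
  rw [← Matrix.mulVec_mulVec, ← Matrix.mulVec_mulVec, hMcol]
  have e2 : (A x₀).mulVec (Pi.single k 1) = ∑ m, (A x₀ m k) • (Pi.single m 1 : n → K) := by
    rw [Matrix.mulVec_single_one]
    funext a
    simp [Finset.sum_apply, Pi.single_apply, Matrix.col_apply]
  rw [e2, Matrix.mulVec_sum, Matrix.mulVec_sum]
  simp_rw [Matrix.mulVec_smul, hMcol]
  simp_rw [Finset.smul_sum]
  rw [Finset.sum_comm]
  refine Finset.sum_congr rfl fun i _ => ?_
  obtain ⟨c, hc⟩ := hX k i
  have e3 : (aeval (A x) (X * g k i - ∑ m, C (A x₀ m k) * g m i)).mulVec ((R i x).mulVec (v i)) =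
      0 := by
    rw [hc, mul_comm, map_mul, ← Matrix.mulVec_mulVec, hker, Matrix.mulVec_zero]
  rw [map_sub, map_mul, aeval_X, Matrix.sub_mulVec, ← Matrix.mulVec_mulVec, map_sum,
    Matrix.sum_mulVec, sub_eq_zero] at e3
  rw [e3]
  refine Finset.sum_congr rfl fun m _ => ?_
  rw [map_mul, aeval_C, Algebra.algebraMap_eq_smul_one, Matrix.smul_mul, Matrix.one_mul,
    Matrix.smul_mulVec]

/-- continuous symmetric conjugators of `x` and its transpose -/
theorem exists_symm_section {A : Y → Matrix n n K} (hA : Continuous A) (x₀ : Y) :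
    ∃ (V : Set Y) (s : Y → Matrix n n K), IsOpen V ∧ x₀ ∈ V ∧ ContinuousOn s V ∧
      ∀ x ∈ V, (A x).charpoly = (A x₀).charpoly → rk (A x) ≤ rk (A x₀) →
        (s x).transpose = s x ∧ IsUnit (s x).det ∧ A x * s x = s x * (A x).transpose := by
  obtain ⟨V, M, hV, hxV, hMc, -, h⟩ := exists_conj_section hA x₀
  obtain ⟨s₀, hs, hsu, hsx⟩ := exists_symm (A x₀)
  refine ⟨V, fun x => M x * s₀ * (M x).transpose, hV, hxV, ?_, ?_⟩
  · intro x hx
    have h1 := hMc x hx
    exact (h1.mul continuousWithinAt_const).mul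
      (continuous_id.matrix_transpose.continuousAt.comp_continuousWithinAt h1)
  · intro x hx hχ hr
    obtain ⟨hu, hM⟩ := h x hx hχ hr
    refine ⟨?_, ?_, ?_⟩
    · change (M x * s₀ * (M x).transpose).transpose = M x * s₀ * (M x).transpose
      rw [Matrix.transpose_mul, Matrix.transpose_mul, Matrix.transpose_transpose, hs,
        Matrix.mul_assoc]
    · rw [Matrix.det_mul, Matrix.det_mul, Matrix.det_transpose]
      exact (hu.mul hsu).mul hu
    · calc A x * (M x * s₀ * (M x).transpose) = (A x * M x) * s₀ * (M x).transpose := by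
            simp only [Matrix.mul_assoc]
        _ = M x * (A x₀ * s₀) * (M x).transpose := by rw [hM]; simp only [Matrix.mul_assoc]
        _ = M x * s₀ * (M x * A x₀).transpose := by
            rw [hsx, Matrix.transpose_mul]; simp only [Matrix.mul_assoc]
        _ = M x * s₀ * (M x).transpose * (A x).transpose := by
            rw [← hM, Matrix.transpose_mul]; simp only [Matrix.mul_assoc]

end sec

end SpW
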