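import Pool.Agent.Work.MP_3615d2_al.Defs

/-!
MP_3615d2_al, Theorem B, module R6, abstract part: induced representations, coinvariants.

`V` = functions `f : G → W` with `f (p g) = τ p (f g)`, right invariant under an open subgroup.
If on a compact set `D` the values of `f` are in the span of `τ (g c g⁻¹) w - w`, `c` in a compact
subgroup `C` of `N`, then the restriction of `f` to a neighbourhood of `P D` is in the span of the
`u h - h`, `u` in `N`, `h` in `V`.
-/

open Filter Topology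

namespace SpW

section abstract_part

variable {G W : Type} [Group G] [AddCommGroup W] [Module ℂ W]

/-- right translation of functions -/
def rtr (u : G) : (G → W) →ₗ[ℂ] (G → W) where
  toFun f := fun x => f (x * u)
  map_add' _ _ := rfl
  map_smul' _ _ := rfl

@[simp] theorem rtr_apply (u : G) (f : G → W) (x : G) : rtr u f x = f (x * u) := rfl

variable (P : Subgroup G) (τ : P →* Module.End ℂ W)

/-- the functions with `f (p g) = τ p (f g)` -/
def indE : Submodule ℂ (G → W) where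
  carrier := {f | ∀ (p : P) (g : G), f (p * g) = τ p (f g)}
  add_mem' := by
    intro f f' hf hf' p g
    simp only [Pi.add_apply, map_add]
    rw [hf, hf']
  zero_mem' := by
    intro p g
    simp
  smul_mem' := by
    intro c f hf p g
    simp only [Pi.smul_apply, map_smul]
    rw [hf]

variable {P τ}

theorem mem_indE {f : G → W} : f ∈ indE P τ ↔ ∀ (p : P) (g : G), f (p * g) = τ p (f g) := Iff.rfl

/-- the vectors fixed by `P ∩ g K g⁻¹` -/
def wfix (τ : P →* Module.End ℂ W) (K : Subgroup G) (g : G) : Submodule ℂ W where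
  carrier := {w | ∀ (p : P), ∀ k ∈ K, (p : G) = g * k * g⁻¹ → τ p w = w}
  add_mem' := by
    intro w w' hw hw' p k hk h
    rw [map_add, hw p k hk h, hw' p k hk h]
  zero_mem' := by
    intro p k _ _
    rw [map_zero]
  smul_mem' := by
    intro c w hw p k hk h
    rw [map_smul, hw p k hk h]

open Classical in
/-- the function supported on `P g K` with value `τ p w` at `p g k` -/
noncomputable def bump (τ : P →* Module.End ℂ W) (K : Subgroup G) (g : G) (w : W) : G → W :=
  fun x => if h : ∃ p : P, ∃ k : G, k ∈ K ∧ x = p * g * k then τ h.choose w else 0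

theorem bump_apply {K : Subgroup G} {g : G} {w : W} (hw : w ∈ wfix τ K g) (p : P) {k : G}
    (hk : k ∈ K) : bump τ K g w (p * g * k) = τ p w := by
  have h : ∃ p' : P, ∃ k' : G, k' ∈ K ∧ (p : G) * g * k = p' * g * k' := ⟨p, k, hk, rfl⟩
  rw [bump, dif_pos h]
  obtain ⟨k', hk', e⟩ := h.choose_spec
  set p' := h.choose
  have h1 : ((p'⁻¹ * p : P) : G) = g * (k' * k⁻¹) * g⁻¹ := by
    rw [Subgroup.coe_mul, Subgroup.coe_inv]
    have e2 : (p : G) = p' * g * k' * k⁻¹ * g⁻¹ := by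
      rw [← e]
      group
    rw [e2]
    group
  have h2 := hw (p'⁻¹ * p) _ (K.mul_mem hk' (K.inv_mem hk)) h1
  have h3 : τ p w = τ p' (τ (p'⁻¹ * p) w) := by
    rw [← Module.End.mul_apply, ← map_mul, mul_inv_cancel_left]
  rw [h3, h2]

theorem bump_of_notMem {K : Subgroup G} {g : G} {w : W} {x : G}
    (hx : ¬ ∃ p : P, ∃ k : G, k ∈ K ∧ x = p * g * k) : bump τ K g w x = 0 := by
  rw [bump, dif_neg hx]

theorem bump_mem {K : Subgroup G} {g : G} {w : W} (hw : w ∈ wfix τ K g) :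
    bump τ K g w ∈ indE P τ := by
  intro p x
  by_cases hx : ∃ p : P, ∃ k : G, k ∈ K ∧ x = p * g * k
  · obtain ⟨p', k, hk, rfl⟩ := hx
    have e : (p : G) * (p' * g * k) = ((p * p' : P) : G) * g * k := by
      rw [Subgroup.coe_mul]
      group
    rw [e, bump_apply hw _ hk, bump_apply hw _ hk, map_mul, Module.End.mul_apply]
  · have hx' : ¬ ∃ p' : P, ∃ k : G, k ∈ K ∧ (p : G) * x = p' * g * k := by
      rintro ⟨p', k, hk, e⟩
      refine hx ⟨p⁻¹ * p', k, hk, ?_⟩
      rw [Subgroup.coe_mul, Subgroup.coe_inv]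
      rw [mul_assoc, mul_assoc, ← mul_assoc (p' : G), ← e]
      group
    rw [bump_of_notMem hx, bump_of_notMem hx', map_zero]

theorem bump_right {K : Subgroup G} {g : G} {w : W} (hw : w ∈ wfix τ K g) (x : G) {k : G}
    (hk : k ∈ K) : bump τ K g w (x * k) = bump τ K g w x := by
  by_cases hx : ∃ p : P, ∃ k : G, k ∈ K ∧ x = p * g * k
  · obtain ⟨p, k', hk', rfl⟩ := hx
    rw [mul_assoc _ k' k, bump_apply hw p (K.mul_mem hk' hk), bump_apply hw p hk']
  · have hx' : ¬ ∃ p : P, ∃ k' : G, k' ∈ K ∧ x * k = p * g * k' := by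
      rintro ⟨p', k', hk', e⟩
      refine hx ⟨p', k' * k⁻¹, K.mul_mem hk' (K.inv_mem hk), ?_⟩
      rw [← mul_assoc, ← e]
      group
    rw [bump_of_notMem hx, bump_of_notMem hx']

theorem bump_add {K : Subgroup G} {g : G} {w w' : W} (hw : w ∈ wfix τ K g)
    (hw' : w' ∈ wfix τ K g) : bump τ K g (w + w') = bump τ K g w + bump τ K g w' := by
  funext x
  rw [Pi.add_apply]
  by_cases hx : ∃ p : P, ∃ k : G, k ∈ K ∧ x = p * g * k
  · obtain ⟨p, k, hk, rfl⟩ := hx
    rw [bump_apply hw p hk, bump_apply hw' p hk, bump_apply (add_mem hw hw') p hk, map_add]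
  · rw [bump_of_notMem hx, bump_of_notMem hx, bump_of_notMem hx, add_zero]

theorem bump_smul {K : Subgroup G} {g : G} {w : W} (hw : w ∈ wfix τ K g) (c : ℂ) :
    bump τ K g (c • w) = c • bump τ K g w := by
  funext x
  rw [Pi.smul_apply]
  by_cases hx : ∃ p : P, ∃ k : G, k ∈ K ∧ x = p * g * k
  · obtain ⟨p, k, hk, rfl⟩ := hx
    rw [bump_apply hw p hk, bump_apply (Submodule.smul_mem _ c hw) p hk, map_smul]
  · rw [bump_of_notMem hx, bump_of_notMem hx, smul_zero]

/-- translation of a bump by an element normalising `K` -/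
theorem rtr_bump {K : Subgroup G} {g c : G} {w : W} (hw : w ∈ wfix τ K g)
    (hc : ∀ k ∈ K, c⁻¹ * k * c ∈ K) (hc' : ∀ k ∈ K, c * k * c⁻¹ ∈ K) (q : P)
    (hq : (q : G) = g * c * g⁻¹) :
    τ q w ∈ wfix τ K g ∧ rtr c (bump τ K g w) = bump τ K g (τ q w) := by
  have h1 : τ q w ∈ wfix τ K g := by
    intro p k hk hp
    have h2 : ((q⁻¹ * p * q : P) : G) = g * (c⁻¹ * k * c) * g⁻¹ := by
      rw [Subgroup.coe_mul, Subgroup.coe_mul, Subgroup.coe_inv, hq, hp]
      group
    have h3 := hw _ _ (hc k hk) h2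
    have h4 : τ p (τ q w) = τ q (τ (q⁻¹ * p * q) w) := by
      rw [← Module.End.mul_apply, ← Module.End.mul_apply, ← map_mul, ← map_mul]
      congr 2
      group
    rw [h4, h3]
  refine ⟨h1, ?_⟩
  funext x
  rw [rtr_apply]
  by_cases hx : ∃ p : P, ∃ k : G, k ∈ K ∧ x = p * g * k
  · obtain ⟨p, k, hk, rfl⟩ := hx
    have e : (p : G) * g * k * c = ((p * q : P) : G) * g * (c⁻¹ * k * c) := by
      rw [Subgroup.coe_mul, hq]
      group
    rw [e, bump_apply hw _ (hc k hk), bump_apply h1 _ hk, map_mul, Module.End.mul_apply]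
  · have hx' : ¬ ∃ p : P, ∃ k : G, k ∈ K ∧ x * c = p * g * k := by
      rintro ⟨p, k, hk, e⟩
      refine hx ⟨p * q⁻¹, c * k * c⁻¹, hc' k hk, ?_⟩
      have e2 : x = p * g * k * c⁻¹ := by
        rw [← e]
        group
      rw [Subgroup.coe_mul, Subgroup.coe_inv, hq, e2]
      group
    rw [bump_of_notMem hx, bump_of_notMem hx']

/-- the span of the `c h - h`, `c ∈ N`, `h ∈ V` -/
def coi (N : Set G) (V : Submodule ℂ (G → W)) : Submodule ℂ (G → W) :=
  Submodule.span ℂ {h | ∃ u ∈ N, ∃ f ∈ V, h = rtr u f - f}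

theorem coi_mono {N N' : Set G} (h : N ⊆ N') (V : Submodule ℂ (G → W)) : coi N V ≤ coi N' V :=
  Submodule.span_mono (by
    rintro _ ⟨u, hu, f, hf, rfl⟩
    exact ⟨u, h hu, f, hf, rfl⟩)

variable [TopologicalSpace G]

variable (P τ) in
/-- the induced representation: `f (p g) = τ p (f g)`, right invariant under an open subgroup -/
def indS : Submodule ℂ (G → W) where
  carrier := {f | f ∈ indE P τ ∧ ∃ K : Subgroup G, IsOpen (K : Set G) ∧
    ∀ g, ∀ k ∈ K, f (g * k) = f g}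
  add_mem' := by
    rintro f f' ⟨hf, K, hK, h⟩ ⟨hf', K', hK', h'⟩
    refine ⟨add_mem hf hf', K ⊓ K', hK.inter hK', fun g k hk => ?_⟩
    rw [Pi.add_apply, Pi.add_apply, h g k hk.1, h' g k hk.2]
  zero_mem' := ⟨zero_mem _, ⊤, isOpen_univ, fun _ _ _ => rfl⟩
  smul_mem' := by
    rintro c f ⟨hf, K, hK, h⟩
    refine ⟨Submodule.smul_mem _ c hf, K, hK, fun g k hk => ?_⟩
    rw [Pi.smul_apply, Pi.smul_apply, h g k hk]

theorem bump_mem_indS {K : Subgroup G} (hK : IsOpen (K : Set G)) {g : G} {w : W}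
    (hw : w ∈ wfix τ K g) : bump τ K g w ∈ indS P τ :=
  ⟨bump_mem hw, K, hK, fun x _ hk => bump_right hw x hk⟩

/-- the double coset -/
def dco (P K : Subgroup G) (D : Set G) : Set G := {x | ∃ p ∈ P, ∃ d ∈ D, ∃ k ∈ K, x = p * d * k}

omit [TopologicalSpace G] in
theorem indicator_eq_bump {K : Subgroup G} {f : G → W} (hf : f ∈ indE P τ)
    (hK : ∀ g, ∀ k ∈ K, f (g * k) = f g) (g : G) :
    f g ∈ wfix τ K g ∧ Set.indicator (dco P K {g}) f = bump τ K g (f g) := by
  have h1 : f g ∈ wfix τ K g := by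
    intro p k hk hp
    rw [← hf p g, hp]
    have e : g * k * g⁻¹ * g = g * k := by group
    rw [e, hK g k hk]
  refine ⟨h1, ?_⟩
  funext x
  by_cases hx : x ∈ dco P K {g}
  · rw [Set.indicator_of_mem hx]
    obtain ⟨p, hp, d, hd, k, hk, rfl⟩ := hx
    rw [Set.mem_singleton_iff] at hd
    subst hd
    have := bump_apply h1 (⟨p, hp⟩ : P) hk
    rw [this, hK _ k hk]
    exact hf ⟨p, hp⟩ d
  · rw [Set.indicator_of_notMem hx, bump_of_notMem]
    rintro ⟨p, k, hk, rfl⟩
    exact hx ⟨p, p.2, g, rfl, k, hk, rfl⟩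

/-- one double coset -/
theorem indicator_mem_coi {K C : Subgroup G} (hKo : IsOpen (K : Set G)) {f : G → W}
    (hf : f ∈ indE P τ) (hK : ∀ g, ∀ k ∈ K, f (g * k) = f g)
    (hC : ∀ c ∈ C, ∀ k ∈ K, c⁻¹ * k * c ∈ K) {g : G} {F : Set W} (hF : F ⊆ wfix τ K g)
    (h : f g ∈ Submodule.span ℂ {x | ∃ w ∈ F, ∃ q : P, ∃ c ∈ C, (q : G) = g * c * g⁻¹ ∧
      x = τ q w - w}) :
    Set.indicator (dco P K {g}) f ∈ coi (C : Set G) (indS P τ) := by
  obtain ⟨-, h1⟩ := indicator_eq_bump hf hK g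
  rw [h1]
  suffices H : ∀ x ∈ Submodule.span ℂ {x | ∃ w ∈ F, ∃ q : P, ∃ c ∈ C, (q : G) = g * c * g⁻¹ ∧
      x = τ q w - w}, x ∈ wfix τ K g ∧ bump τ K g x ∈ coi (C : Set G) (indS P τ) from (H _ h).2
  intro x hx
  induction hx using Submodule.span_induction with
  | mem x hx =>
    obtain ⟨w, hw, q, c, hc, hq, rfl⟩ := hx
    have hc' : ∀ k ∈ K, c * k * c⁻¹ ∈ K := by
      intro k hk
      have := hC c⁻¹ (C.inv_mem hc) k hk
      rwa [inv_inv] at this
    obtain ⟨h2, h3⟩ := rtr_bump (hF hw) (hC c hc) hc' q hq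
    refine ⟨sub_mem h2 (hF hw), ?_⟩
    have h4 : bump τ K g (τ q w - w) = rtr c (bump τ K g w) - bump τ K g w := by
      rw [h3, sub_eq_add_neg, sub_eq_add_neg, bump_add h2 (neg_mem (hF hw)), ← neg_one_smul ℂ w,
        bump_smul (hF hw), neg_one_smul]
    rw [h4]
    exact Submodule.subset_span ⟨c, hc, _, bump_mem_indS hKo (hF hw), rfl⟩
  | zero =>
    refine ⟨zero_mem _, ?_⟩
    have : bump τ K g (0 : W) = 0 := by
      have := bump_smul (zero_mem (wfix τ K g)) (0 : ℂ)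
      rwa [zero_smul, zero_smul] at this
    rw [this]
    exact zero_mem _
  | add x y _ _ hx hy =>
    refine ⟨add_mem hx.1 hy.1, ?_⟩
    rw [bump_add hx.1 hy.1]
    exact add_mem hx.2 hy.2
  | smul a x _ hx =>
    refine ⟨Submodule.smul_mem _ a hx.1, ?_⟩
    rw [bump_smul hx.1]
    exact Submodule.smul_mem _ a hx.2

omit [TopologicalSpace G] in
theorem mem_dco_self {K : Subgroup G} {D : Set G} {g : G} (hg : g ∈ D) : g ∈ dco P K D :=
  ⟨1, P.one_mem, g, hg, 1, K.one_mem, by group⟩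

omit [TopologicalSpace G] in
theorem dco_insert {K : Subgroup G} {D : Set G} {g : G} :
    dco P K (insert g D) = dco P K {g} ∪ dco P K D := by
  ext x
  constructor
  · rintro ⟨p, hp, d, hd, k, hk, rfl⟩
    rcases hd with rfl | hd
    · exact Or.inl ⟨p, hp, d, rfl, k, hk, rfl⟩
    · exact Or.inr ⟨p, hp, d, hd, k, hk, rfl⟩
  · rintro (⟨p, hp, d, hd, k, hk, rfl⟩ | ⟨p, hp, d, hd, k, hk, rfl⟩)
    · exact ⟨p, hp, d, Or.inl hd, k, hk, rfl⟩
    · exact ⟨p, hp, d, Or.inr hd, k, hk, rfl⟩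

omit [TopologicalSpace G] in
theorem dco_subset_of_mem {K : Subgroup G} {D : Set G} {g : G} (hg : g ∈ dco P K D) :
    dco P K {g} ⊆ dco P K D := by
  obtain ⟨p, hp, d, hd, k, hk, rfl⟩ := hg
  rintro x ⟨p', hp', g', hg', k', hk', rfl⟩
  rw [Set.mem_singleton_iff] at hg'
  subst hg'
  refine ⟨p' * p, P.mul_mem hp' hp, d, hd, k * k', K.mul_mem hk hk', ?_⟩
  group

omit [TopologicalSpace G] in
theorem dco_disjoint {K : Subgroup G} {D : Set G} {g : G} (hg : g ∉ dco P K D) :
    Disjoint (dco P K {g}) (dco P K D) := by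
  rw [Set.disjoint_left]
  rintro x ⟨p, hp, g', hg', k, hk, rfl⟩ ⟨p', hp', d, hd, k', hk', e⟩
  rw [Set.mem_singleton_iff] at hg'
  subst hg'
  refine hg ⟨p⁻¹ * p', P.mul_mem (P.inv_mem hp) hp', d, hd, k' * k⁻¹,
    K.mul_mem hk' (K.inv_mem hk), ?_⟩
  have e2 : g' = p⁻¹ * (p * g' * k) * k⁻¹ := by group
  rw [e2, e]
  group

/-- finitely many double cosets -/
theorem indicator_mem_coi_finset {K C : Subgroup G} (hKo : IsOpen (K : Set G)) {f : G → W}
    (hf : f ∈ indE P τ) (hK : ∀ g, ∀ k ∈ K, f (g * k) = f g)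
    (hC : ∀ c ∈ C, ∀ k ∈ K, c⁻¹ * k * c ∈ K) {F : Set W} (D : Finset G)
    (hF : ∀ g ∈ D, F ⊆ wfix τ K g)
    (h : ∀ g ∈ D, f g ∈ Submodule.span ℂ {x | ∃ w ∈ F, ∃ q : P, ∃ c ∈ C,
      (q : G) = g * c * g⁻¹ ∧ x = τ q w - w}) :
    Set.indicator (dco P K (D : Set G)) f ∈ coi (C : Set G) (indS P τ) := by
  classical
  induction D using Finset.induction_on with
  | empty =>
    have : dco P K ((∅ : Finset G) : Set G) = ∅ := by
      ext x
      simp only [Set.mem_empty_iff_false, iff_false]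
      rintro ⟨p, -, d, hd, -⟩
      simp at hd
    rw [this, Set.indicator_empty]
    exact zero_mem _
  | insert g D hgD ih =>
    have ih' := ih (fun g' hg' => hF g' (Finset.mem_insert_of_mem hg'))
      (fun g' hg' => h g' (Finset.mem_insert_of_mem hg'))
    rw [Finset.coe_insert, dco_insert]
    by_cases hg : g ∈ dco P K (D : Set G)
    · rw [Set.union_eq_self_of_subset_left (dco_subset_of_mem hg)]
      exact ih'
    · rw [Set.indicator_union_of_disjoint (dco_disjoint hg)]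
      exact add_mem (indicator_mem_coi hKo hf hK hC (hF g (Finset.mem_insert_self _ _))
        (h g (Finset.mem_insert_self _ _))) ih'

end abstract_part

end SpW
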