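import Pool.Agent.Work.MP_3615d2_al.GeoA

/-!
MP_3615d2_al, Theorem B, module R6: compactness and the induction on the strata.
-/

open Filter Topology

namespace SpW

section

variable {G W : Type} [Group G] [TopologicalSpace G] [IsTopologicalGroup G] [AddCommGroup W]
  [Module ℂ W]

/-- an open subgroup normalised by a compact subgroup -/
theorem exists_normalized {C : Subgroup G} (hC : IsCompact (C : Set G)) {K₀ : Subgroup G}
    (h0 : IsOpen (K₀ : Set G)) : ∃ K : Subgroup G, IsOpen (K : Set G) ∧ K ≤ K₀ ∧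
      ∀ c ∈ C, ∀ k ∈ K, c⁻¹ * k * c ∈ K := by
  let K : Subgroup G :=
    { carrier := {x | ∀ c ∈ C, c⁻¹ * x * c ∈ K₀}
      mul_mem' := by
        intro x y hx hy c hc
        have := K₀.mul_mem (hx c hc) (hy c hc)
        convert this using 1
        group
      one_mem' := by
        intro c _
        have : c⁻¹ * 1 * c = 1 := by group
        rw [this]
        exact K₀.one_mem
      inv_mem' := by
        intro x hx c hc
        have := K₀.inv_mem (hx c hc)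
        convert this using 1
        group }
  refine ⟨K, ?_, ?_, ?_⟩
  · apply Subgroup.isOpen_of_mem_nhds K (g := 1)
    have h1 : IsOpen {p : G × G | p.1⁻¹ * p.2 * p.1 ∈ K₀} :=
      h0.preimage (by fun_prop : Continuous fun p : G × G => p.1⁻¹ * p.2 * p.1)
    have h2 : (C : Set G) ×ˢ ({1} : Set G) ⊆ {p : G × G | p.1⁻¹ * p.2 * p.1 ∈ K₀} := by
      rintro ⟨c, x⟩ ⟨-, hx⟩
      have hx' : x = 1 := hx
      show c⁻¹ * x * c ∈ K₀
      rw [hx']
      have : c⁻¹ * 1 * c = 1 := by group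
      rw [this]
      exact K₀.one_mem
    obtain ⟨U, V, -, hV, hCU, h1V, hUV⟩ :=
      generalized_tube_lemma hC isCompact_singleton h1 h2
    filter_upwards [hV.mem_nhds (h1V rfl)] with x hx c hc
    exact hUV (Set.mk_mem_prod (hCU hc) hx)
  · intro x hx
    have := hx 1 C.one_mem
    simpa using this
  · intro c hc k hk c' hc'
    have := hk (c * c') (C.mul_mem hc hc')
    convert this using 1
    group

variable {P : Subgroup G} {τ : P →* Module.End ℂ W}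

/-- one open subgroup for a compact set, a compact subgroup and finitely many vectors -/
theorem exists_uniform (hG : ∀ U ∈ 𝓝 (1 : G), ∃ K : Subgroup G, IsOpen (K : Set G) ∧
      (K : Set G) ⊆ U) (hτ : ∀ w, ∀ᶠ p in 𝓝 (1 : P), τ p w = w) {D : Set G} (hD : IsCompact D)
    {C : Subgroup G} (hC : IsCompact (C : Set G)) {F : Set W} (hF : F.Finite) {K₀ : Subgroup G}
    (h0 : IsOpen (K₀ : Set G)) : ∃ K : Subgroup G, IsOpen (K : Set G) ∧ K ≤ K₀ ∧
      (∀ c ∈ C, ∀ k ∈ K, c⁻¹ * k * c ∈ K) ∧ ∀ g ∈ D, F ⊆ wfix τ K g := by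
  have h1 : ∀ᶠ p in 𝓝 (1 : P), ∀ w ∈ F, τ p w = w := (eventually_all_finite hF).2 fun w _ => hτ w
  obtain ⟨O, hO, hO'⟩ := (mem_nhds_subtype (P : Set G) (1 : P) _).1 h1
  obtain ⟨O₁, hO₁, hO₁o, hO₁m⟩ := mem_nhds_iff.1 hO
  have h2 : IsOpen {p : G × G | p.1 * p.2 * p.1⁻¹ ∈ O₁} :=
    hO₁o.preimage (by fun_prop : Continuous fun p : G × G => p.1 * p.2 * p.1⁻¹)
  have h3 : D ×ˢ ({1} : Set G) ⊆ {p : G × G | p.1 * p.2 * p.1⁻¹ ∈ O₁} := by
    rintro ⟨d, x⟩ ⟨-, hx⟩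
    have hx' : x = 1 := hx
    show d * x * d⁻¹ ∈ O₁
    rw [hx']
    have : d * 1 * d⁻¹ = 1 := by group
    rw [this]
    exact hO₁m
  obtain ⟨U, V, -, hV, hDU, h1V, hUV⟩ := generalized_tube_lemma hD isCompact_singleton h2 h3
  obtain ⟨K₁, hK₁o, hK₁⟩ := hG (V ∩ K₀)
    (inter_mem (hV.mem_nhds (h1V rfl)) (h0.mem_nhds K₀.one_mem))
  obtain ⟨K, hKo, hK, hKC⟩ := exists_normalized hC hK₁o
  refine ⟨K, hKo, fun k hk => (hK₁ (hK hk)).2, hKC, ?_⟩
  intro g hg w hw p k hk hp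
  have h4 : g * k * g⁻¹ ∈ O₁ := hUV (Set.mk_mem_prod (hDU hg) (hK₁ (hK hk)).1)
  have h5 : p ∈ {p : P | ∀ w ∈ F, τ p w = w} := hO' (by
    show (p : G) ∈ O
    rw [hp]
    exact hO₁ h4)
  exact h5 w hw

/-- the relations at `g` -/
def rel (τ : P →* Module.End ℂ W) (C : Set G) (F : Set W) (g : G) : Set W :=
  {x | ∃ w ∈ F, ∃ q : P, ∃ c ∈ C, (q : G) = g * c * g⁻¹ ∧ x = τ q w - w}

omit [TopologicalSpace G] [IsTopologicalGroup G] in
theorem rel_mono {C C' : Set G} (hC : C ⊆ C') {F F' : Set W} (hF : F ⊆ F') (g : G) :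
    rel τ C F g ⊆ rel τ C' F' g := by
  rintro x ⟨w, hw, q, c, hc, hq, rfl⟩
  exact ⟨w, hF hw, q, c, hC hc, hq, rfl⟩

/-- step (A) for a compact set -/
theorem indicator_mem_coi_compact (hG : ∀ U ∈ 𝓝 (1 : G), ∃ K : Subgroup G, IsOpen (K : Set G) ∧
      (K : Set G) ⊆ U) (hτ : ∀ w, ∀ᶠ p in 𝓝 (1 : P), τ p w = w) {D : Set G} (hD : IsCompact D)
    {C : Subgroup G} (hC : IsCompact (C : Set G)) {F : Set W} (hF : F.Finite) {f : G → W}
    (hf : f ∈ indS P τ) (h : ∀ g ∈ D, f g ∈ Submodule.span ℂ (rel τ (C : Set G) F g)) :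
    ∃ K : Subgroup G, IsOpen (K : Set G) ∧ (∀ g, ∀ k ∈ K, f (g * k) = f g) ∧
      Set.indicator (dco P K D) f ∈ coi (C : Set G) (indS P τ) := by
  obtain ⟨hfE, K₀, hK₀, hfK₀⟩ := hf
  obtain ⟨K, hKo, hK, hKC, hKF⟩ := exists_uniform hG hτ hD hC hF hK₀
  have hfK : ∀ g, ∀ k ∈ K, f (g * k) = f g := fun g k hk => hfK₀ g k (hK hk)
  refine ⟨K, hKo, hfK, ?_⟩
  obtain ⟨t, ht, htD⟩ := hD.elim_nhds_subcover (fun g => {x | g⁻¹ * x ∈ K}) (by
    intro g _
    apply (hKo.preimage (by fun_prop : Continuous fun x => g⁻¹ * x)).mem_nhds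
    show g⁻¹ * g ∈ K
    rw [inv_mul_cancel]
    exact K.one_mem)
  have h1 : dco P K D = dco P K (t : Set G) := by
    ext x
    constructor
    · rintro ⟨p, hp, d, hd, k, hk, rfl⟩
      have h2 := htD hd
      simp only [Set.mem_iUnion] at h2
      obtain ⟨g, hg, hgd⟩ := h2
      have hgd' : g⁻¹ * d ∈ K := hgd
      refine ⟨p, hp, g, hg, g⁻¹ * d * k, K.mul_mem hgd' hk, ?_⟩
      group
    · rintro ⟨p, hp, d, hd, k, hk, rfl⟩
      exact ⟨p, hp, d, ht d hd, k, hk, rfl⟩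
  rw [h1]
  exact indicator_mem_coi_finset hKo hfE hfK hKC t (fun g hg => hKF g (ht g hg))
    (fun g hg => h g (ht g hg))

/-- local data on the stratum `R = j` at all points: every vector is a combination of relations,
uniformly near every point of the stratum -/
def LocData (τ : P →* Module.End ℂ W) (N : Set G) (R : G → ℕ) (j : ℕ) : Prop :=
  ∀ (w : W) (g₀ : G), R g₀ = j → ∃ O ∈ 𝓝 g₀, ∃ C : Subgroup G, IsCompact (C : Set G) ∧
    (C : Set G) ⊆ N ∧ ∃ F : Set W, F.Finite ∧ ∀ g ∈ O, R g = j →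
      w ∈ Submodule.span ℂ (rel τ (C : Set G) F g)

omit [IsTopologicalGroup G] in
/-- a compact subgroup containing finitely many given ones -/
theorem exists_sup_finset {N : Set G} {C₁ : Subgroup G} (h₁ : IsCompact (C₁ : Set G))
    (h₁N : (C₁ : Set G) ⊆ N) (hN : ∀ C C' : Subgroup G, IsCompact (C : Set G) →
      IsCompact (C' : Set G) → (C : Set G) ⊆ N → (C' : Set G) ⊆ N →
      ∃ C'' : Subgroup G, IsCompact (C'' : Set G) ∧ (C'' : Set G) ⊆ N ∧ C ≤ C'' ∧ C' ≤ C'')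
    {ι : Type*} (t : Finset ι) (C : ι → Subgroup G)
    (hC : ∀ i ∈ t, IsCompact (C i : Set G)) (hCN : ∀ i ∈ t, (C i : Set G) ⊆ N) :
    ∃ C' : Subgroup G, IsCompact (C' : Set G) ∧ (C' : Set G) ⊆ N ∧ ∀ i ∈ t, C i ≤ C' := by
  classical
  induction t using Finset.induction_on with
  | empty => exact ⟨C₁, h₁, h₁N, by simp⟩
  | insert i t hi ih =>
    obtain ⟨C', h1, h2, h3⟩ := ih (fun i hi => hC i (Finset.mem_insert_of_mem hi))
      (fun i hi => hCN i (Finset.mem_insert_of_mem hi))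
    obtain ⟨C'', h4, h5, h6, h7⟩ := hN (C i) C' (hC i (Finset.mem_insert_self _ _)) h1
      (hCN i (Finset.mem_insert_self _ _)) h2
    refine ⟨C'', h4, h5, fun i' hi' => ?_⟩
    rcases Finset.mem_insert.1 hi' with rfl | hi'
    · exact h6
    · exact (h3 i' hi').trans h7

/-- one stratum -/
theorem strata_one (hG : ∀ U ∈ 𝓝 (1 : G), ∃ K : Subgroup G, IsOpen (K : Set G) ∧
      (K : Set G) ⊆ U) (hτ : ∀ w, ∀ᶠ p in 𝓝 (1 : P), τ p w = w) {D₀ : Set G} (hD₀ : IsCompact D₀)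
    (hPD : ∀ g, ∃ p : P, ∃ d ∈ D₀, g = p * d) {R : G → ℕ} (hRP : ∀ (p : P) g, R (p * g) = R g)
    (hR : ∀ j, IsOpen {g | j ≤ R g}) {N : Set G} (hN1 : (1 : G) ∈ N)
    (hN : ∀ C C' : Subgroup G, IsCompact (C : Set G) → IsCompact (C' : Set G) →
      (C : Set G) ⊆ N → (C' : Set G) ⊆ N →
      ∃ C'' : Subgroup G, IsCompact (C'' : Set G) ∧ (C'' : Set G) ⊆ N ∧ C ≤ C'' ∧ C' ≤ C'')
    {j : ℕ} (hL : LocData τ N R j) {f : G → W} (hf : f ∈ indS P τ)
    (hfj : ∀ g, f g ≠ 0 → j ≤ R g) :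
    ∃ f' ∈ indS P τ, f - f' ∈ coi N (indS P τ) ∧ ∀ g, f' g ≠ 0 → j + 1 ≤ R g ∧ f g ≠ 0 := by
  obtain ⟨hfE, K₀, hK₀, hfK₀⟩ := id hf
  have hloc : ∀ g, ∀ᶠ x in 𝓝 g, f x = f g := by
    intro g
    have h1 : {x | g⁻¹ * x ∈ K₀} ∈ 𝓝 g := by
      apply (hK₀.preimage (by fun_prop : Continuous fun x => g⁻¹ * x)).mem_nhds
      show g⁻¹ * g ∈ K₀
      rw [inv_mul_cancel]
      exact K₀.one_mem
    filter_upwards [h1] with x hx
    have h2 := hfK₀ g _ hx
    rwa [mul_inv_cancel_left] at h2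
  set D : Set G := D₀ ∩ ({g | f g ≠ 0} ∩ {g | R g ≤ j}) with hDdef
  have hD : IsCompact D := by
    apply hD₀.inter_right
    apply IsClosed.inter
    · rw [← isOpen_compl_iff, isOpen_iff_mem_nhds]
      intro g hg
      have hg' : f g = 0 := by
        by_contra h
        exact hg h
      filter_upwards [hloc g] with x hx hx'
      exact hx' (hx.trans hg')
    · have : {g | R g ≤ j} = {g | j + 1 ≤ R g}ᶜ := by
        ext g
        simp [not_le, Nat.lt_succ_iff]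
      rw [this]
      exact (hR _).isClosed_compl
  have hDj : ∀ g ∈ D, R g = j := fun g hg => le_antisymm hg.2.2 (hfj g hg.2.1)
  have h1 : ∀ g ∈ D, ∃ O ∈ 𝓝 g, ∃ C : Subgroup G, IsCompact (C : Set G) ∧
      (C : Set G) ⊆ N ∧ ∃ F : Set W, F.Finite ∧ ∀ x ∈ O, f x = f g ∧ (R x = j →
        f g ∈ Submodule.span ℂ (rel τ (C : Set G) F x)) := by
    intro g hg
    obtain ⟨O, hO, C, hC, hCN, F, hF, h⟩ := hL (f g) g (hDj g hg)
    exact ⟨O ∩ {x | f x = f g}, inter_mem hO (hloc g), C, hC, hCN, F, hF,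
      fun x hx => ⟨hx.2, h x hx.1⟩⟩
  choose! O hO C hC hCN F hF h2 using h1
  obtain ⟨t, ht, htD⟩ := hD.elim_nhds_subcover O hO
  obtain ⟨C', hC', hC'N, hC't⟩ := exists_sup_finset (N := N) (C₁ := ⊥) (by simp)
    (by simpa using hN1) hN t C (fun g hg => hC g (ht g hg)) (fun g hg => hCN g (ht g hg))
  have hF' : (⋃ g ∈ t, F g).Finite := t.finite_toSet.biUnion fun g hg => hF g (ht g hg)
  obtain ⟨K, hKo, hfK, hcoi⟩ := indicator_mem_coi_compact hG hτ hD hC' hF' hf (by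
    intro x hx
    have h3 := htD hx
    simp only [Set.mem_iUnion] at h3
    obtain ⟨g, hg, hxg⟩ := h3
    obtain ⟨h4, h5⟩ := h2 g (ht g hg) x hxg
    rw [h4]
    exact Submodule.span_mono (rel_mono (hC't g hg) (Set.subset_biUnion_of_mem (u := F) hg) x)
      (h5 (hDj x hx)))
  refine ⟨f - Set.indicator (dco P K D) f, ?_, ?_, ?_⟩
  · refine ⟨?_, K, hKo, ?_⟩
    · intro p g
      have h3 : (p : G) * g ∈ dco P K D ↔ g ∈ dco P K D := by
        constructor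
        · rintro ⟨p', hp', d, hd, k, hk, e⟩
          refine ⟨(p : G)⁻¹ * p', P.mul_mem (P.inv_mem p.2) hp', d, hd, k, hk, ?_⟩
          rw [mul_assoc, mul_assoc, ← mul_assoc p', ← e]
          group
        · rintro ⟨p', hp', d, hd, k, hk, rfl⟩
          refine ⟨p * p', P.mul_mem p.2 hp', d, hd, k, hk, ?_⟩
          group
      rw [Pi.sub_apply, Pi.sub_apply, map_sub, hfE p g]
      congr 1
      by_cases hg : g ∈ dco P K D
      · rw [Set.indicator_of_mem hg, Set.indicator_of_mem (h3.2 hg), hfE p g]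
      · rw [Set.indicator_of_notMem hg, Set.indicator_of_notMem (fun h => hg (h3.1 h)), map_zero]
    · intro g k hk
      have h3 : g * k ∈ dco P K D ↔ g ∈ dco P K D := by
        constructor
        · rintro ⟨p', hp', d, hd, k', hk', e⟩
          refine ⟨p', hp', d, hd, k' * k⁻¹, K.mul_mem hk' (K.inv_mem hk), ?_⟩
          rw [← mul_assoc, ← e]
          group
        · rintro ⟨p', hp', d, hd, k', hk', rfl⟩
          exact ⟨p', hp', d, hd, k' * k, K.mul_mem hk' hk, by group⟩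
      rw [Pi.sub_apply, Pi.sub_apply, hfK g k hk]
      congr 1
      by_cases hg : g ∈ dco P K D
      · rw [Set.indicator_of_mem hg, Set.indicator_of_mem (h3.2 hg), hfK g k hk]
      · rw [Set.indicator_of_notMem hg, Set.indicator_of_notMem (fun h => hg (h3.1 h))]
  · rw [sub_sub_cancel]
    exact coi_mono hC'N _ hcoi
  · intro g hg
    have h3 : g ∉ dco P K D := by
      intro h
      apply hg
      rw [Pi.sub_apply, Set.indicator_of_mem h, sub_self]
    have h4 : f g ≠ 0 := by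
      rw [Pi.sub_apply, Set.indicator_of_notMem h3, sub_zero] at hg
      exact hg
    refine ⟨?_, h4⟩
    rcases Nat.lt_or_ge j (R g) with h5 | h5
    · exact h5
    · exfalso
      apply h3
      obtain ⟨p, d, hd, rfl⟩ := hPD g
      refine ⟨p, p.2, d, ⟨hd, ?_, ?_⟩, 1, K.one_mem, by group⟩
      · intro h6
        apply h4
        rw [hfE p d, h6, map_zero]
      · rw [hRP] at h5
        exact h5

/-- **the induction on the strata** -/
theorem strata (hG : ∀ U ∈ 𝓝 (1 : G), ∃ K : Subgroup G, IsOpen (K : Set G) ∧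
      (K : Set G) ⊆ U) (hτ : ∀ w, ∀ᶠ p in 𝓝 (1 : P), τ p w = w) {D₀ : Set G} (hD₀ : IsCompact D₀)
    (hPD : ∀ g, ∃ p : P, ∃ d ∈ D₀, g = p * d) {R : G → ℕ} (hRP : ∀ (p : P) g, R (p * g) = R g)
    (hR : ∀ j, IsOpen {g | j ≤ R g}) {N : Set G} (hN1 : (1 : G) ∈ N)
    (hN : ∀ C C' : Subgroup G, IsCompact (C : Set G) → IsCompact (C' : Set G) →
      (C : Set G) ⊆ N → (C' : Set G) ⊆ N →
      ∃ C'' : Subgroup G, IsCompact (C'' : Set G) ∧ (C'' : Set G) ⊆ N ∧ C ≤ C'' ∧ C' ≤ C'')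
    {a b : ℕ} (hab : a ≤ b) (hL : ∀ j, a ≤ j → j < b → LocData τ N R j) {f : G → W}
    (hf : f ∈ indS P τ) (hfj : ∀ g, f g ≠ 0 → a ≤ R g) :
    ∃ f' ∈ indS P τ, f - f' ∈ coi N (indS P τ) ∧ ∀ g, f' g ≠ 0 → b ≤ R g ∧ f g ≠ 0 := by
  induction b, hab using Nat.le_induction with
  | base => exact ⟨f, hf, by rw [sub_self]; exact zero_mem _, fun g hg => ⟨hfj g hg, hg⟩⟩
  | succ b hab ih =>
    obtain ⟨f₁, hf₁, h1, h2⟩ := ih fun j hj hjb => hL j hj (Nat.lt_succ_of_lt hjb)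
    obtain ⟨f₂, hf₂, h3, h4⟩ := strata_one hG hτ hD₀ hPD hRP hR hN1 hN
      (hL b hab (Nat.lt_succ_self b)) hf₁ fun g hg => (h2 g hg).1
    refine ⟨f₂, hf₂, ?_, fun g hg => ⟨(h4 g hg).1, (h2 g (h4 g hg).2).2⟩⟩
    have : f - f₂ = (f - f₁) + (f₁ - f₂) := by abel
    rw [this]
    exact add_mem h1 h3

end

end SpW
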