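import Pool.Agent.Work.MP_3615d2_al.GeoE
import Pool.Agent.Work.MP_3615d2_al.Iwa

/-!
MP_3615d2_al, Theorem B, module R6: assembly from the local data on the strata.
-/

open Filter Topology

set_option linter.unusedSectionVars false

namespace SpW

section

variable {E : Type} [NontriviallyNormedField E] [IsUltrametricDist E] [ProperSpace E]
  {m : ℕ} {W : Type} [AddCommGroup W] [Module ℂ W]

/-- the induction on the strata for `Ind` -/
theorem ind_strata (ρ : (GL (Fin m) E × GL (Fin m) E) →* Module.End ℂ W) (hρ : IsSmoothRep ρ)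
    {k a b : ℕ} (hab : a ≤ b) (hL : ∀ j, a ≤ j → j < b → LocData (tauP ρ)
      ((Nk (2 * m) k E : Subgroup (GL (Fin (2 * m)) E)) : Set (GL (Fin (2 * m)) E)) (rkK k) j)
    (f : Ind ρ) (hf : ∀ g, (f : GL (Fin (2 * m)) E → W) g ≠ 0 → a ≤ rkK k g) :
    ∃ f₀ : Ind ρ, f - f₀ ∈ cvN (indAct ρ) (Nk (2 * m) k E) ⊤ ∧
      ∀ g, (f₀ : GL (Fin (2 * m)) E → W) g ≠ 0 → b ≤ rkK k g := by
  have h1 : (f : GL (Fin (2 * m)) E → W) ∈ indS (PS m E) (tauP ρ) := by
    rw [indS_eq_Ind]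
    exact f.2
  have hG : ∀ U ∈ 𝓝 (1 : GL (Fin (2 * m)) E), ∃ K : Subgroup (GL (Fin (2 * m)) E),
      IsOpen (K : Set (GL (Fin (2 * m)) E)) ∧ (K : Set (GL (Fin (2 * m)) E)) ⊆ U := by
    intro U hU
    obtain ⟨K, hK, -, hKU⟩ := gl_basis U hU
    exact ⟨K, hK, hKU⟩
  obtain ⟨f', hf', h2, h3⟩ := strata hG (tauP_smooth hρ)
    (D₀ := ((glK (Fin (2 * m)) E 1 zero_le_one le_rfl : Subgroup (GL (Fin (2 * m)) E)) :
      Set (GL (Fin (2 * m)) E))) (glK_isCompact one_pos le_rfl)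
    (by
      intro g
      obtain ⟨a', d', b', k', hk', h⟩ := iwasawa g
      exact ⟨⟨pel a' d' b', ⟨a', d', b', rfl⟩⟩, k', hk', h⟩)
    (R := rkK k) (by
      rintro ⟨_, a', d', b', rfl⟩ g
      exact rkK_pel_mul k a' d' b' g)
    (isOpen_rkK k) (one_mem _) Nk_directed hab hL h1 hf
  obtain ⟨h4, h5⟩ := mem_cvN_of_coi h2
  have h6 : f' ∈ Ind ρ := by
    rw [← indS_eq_Ind]
    exact hf'
  refine ⟨⟨f', h6⟩, ?_, fun g hg => (h3 g hg).1⟩
  exact h5

/-- the lower left block has a unit determinant when its rank is `m` -/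
theorem isUnit_lowL_of_rkK {g : GL (Fin (2 * m)) E} (h : m ≤ rkK m g) :
    IsUnit (lowL (g : Matrix (Fin (2 * m)) (Fin (2 * m)) E)).det := by
  classical
  let e : Fin m ≃ {j : Fin (2 * m) // j.1 < m} :=
    { toFun := fun j => ⟨sI m (Sum.inl j), by
        show j.1 < m
        exact j.2⟩
      invFun := fun j => ⟨j.1.1, j.2⟩
      left_inv := fun j => Fin.ext rfl
      right_inv := fun j => Subtype.ext (Fin.ext rfl) }
  have h1 : lowL (g : Matrix (Fin (2 * m)) (Fin (2 * m)) E) =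
      (lowK m (g : Matrix (Fin (2 * m)) (Fin (2 * m)) E)).submatrix (Equiv.refl _) e := rfl
  have h2 : (lowL (g : Matrix (Fin (2 * m)) (Fin (2 * m)) E)).rank = m := by
    rw [h1, Matrix.rank_submatrix]
    exact le_antisymm (rkK_le m g) h
  rw [isUnit_iff_ne_zero]
  intro h3
  obtain ⟨v, hv, hv2⟩ := Matrix.exists_mulVec_eq_zero_iff.2 h3
  have h4 := finrank_ker_add_rank (lowL (g : Matrix (Fin (2 * m)) (Fin (2 * m)) E))
  rw [h2, Fintype.card_fin] at h4
  have h5 : Module.finrank E (LinearMap.ker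
      (lowL (g : Matrix (Fin (2 * m)) (Fin (2 * m)) E)).mulVecLin) = 0 := by omega
  rw [Submodule.finrank_eq_zero] at h5
  have h6 : v ∈ LinearMap.ker (lowL (g : Matrix (Fin (2 * m)) (Fin (2 * m)) E)).mulVecLin := hv2
  rw [h5] at h6
  exact hv ((Submodule.mem_bot E).1 h6)

/-- rank zero of the lower left block: the element is in the parabolic -/
theorem exists_pel_of_rkK {g : GL (Fin (2 * m)) E} (h : rkK m g = 0) : ∃ a d b, g = pel a d b := by
  rw [exists_pel_iff]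
  have h0 : Module.finrank E (LinearMap.range
      (lowK m (g : Matrix (Fin (2 * m)) (Fin (2 * m)) E)).mulVecLin) = 0 := h
  rw [Submodule.finrank_eq_zero, LinearMap.range_eq_bot] at h0
  have h1 : lowK m (g : Matrix (Fin (2 * m)) (Fin (2 * m)) E) = 0 := by
    ext i j
    have h2 := congrFun (LinearMap.congr_fun h0 (Pi.single j (1 : E))) i
    rw [Matrix.mulVecLin_apply, Matrix.mulVec_single_one] at h2
    exact h2
  ext i j
  exact congrFun (congrFun h1 i) ⟨sI m (Sum.inl j), by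
    show j.1 < m
    exact j.2⟩

/-- R6a with the points of the middle strata as hypotheses. -/
theorem ind_coinv_ne_aux (ρ : (GL (Fin m) E × GL (Fin m) E) →* Module.End ℂ W)
    (hρ : IsSmoothRep ρ) (h1 : ∀ k, 0 < k → k < m → cvN ρ ((Nk m k E).prod ⊥) ⊤ = ⊤)
    (hL : ∀ k j : ℕ, (∀ (w : W) (g₀ : GL (Fin (2 * m)) E), rkK k g₀ = j →
      w ∈ Submodule.span ℂ (rel (tauP ρ)
        ((Nk (2 * m) k E : Subgroup (GL (Fin (2 * m)) E)) : Set (GL (Fin (2 * m)) E))
        Set.univ g₀)) → LocData (tauP ρ)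
      ((Nk (2 * m) k E : Subgroup (GL (Fin (2 * m)) E)) : Set (GL (Fin (2 * m)) E)) (rkK k) j)
    (hp : ∀ k j : ℕ, k ≤ 2 * m → 0 < j → j < m → ∀ g₀ : GL (Fin (2 * m)) E, rkK k g₀ = j →
      ∀ w : W, w ∈ Submodule.span ℂ (rel (tauP ρ)
        ((Nk (2 * m) k E : Subgroup (GL (Fin (2 * m)) E)) : Set (GL (Fin (2 * m)) E))
        Set.univ g₀))
    {k : ℕ} (hk0 : 0 < k) (hk : k < 2 * m) (hkm : k ≠ m) :
    cvN (indAct ρ) (Nk (2 * m) k E) ⊤ = ⊤ := by
  rw [eq_top_iff]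
  intro f _
  obtain ⟨f₀, h2, h3⟩ := ind_strata ρ hρ (k := k) (a := 0) (b := m + 1) (Nat.zero_le _) (by
    intro j _ hj
    apply hL
    intro w g₀ hg
    by_cases h4 : 0 < j ∧ j < m
    · exact hp k j hk.le h4.1 h4.2 g₀ hg w
    · have h5 := le_add_rkK hk.le g₀
      have h6 := rkK_le_k hk.le g₀
      exact pt1 h1 (by omega) (by omega) hk.le g₀ hg w) f (fun _ _ => Nat.zero_le _)
  have h4 : f₀ = 0 := by
    apply Subtype.ext
    funext g
    by_contra h
    have h5 := h3 g h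
    have h6 := rkK_le k g
    omega
  rwa [h4, sub_zero] at h2

/-- R6b with the points of the middle strata as hypotheses. -/
theorem ind_coinv_mid_aux (ρ : (GL (Fin m) E × GL (Fin m) E) →* Module.End ℂ W)
    (hρ : IsSmoothRep ρ)
    (hL : ∀ k j : ℕ, (∀ (w : W) (g₀ : GL (Fin (2 * m)) E), rkK k g₀ = j →
      w ∈ Submodule.span ℂ (rel (tauP ρ)
        ((Nk (2 * m) k E : Subgroup (GL (Fin (2 * m)) E)) : Set (GL (Fin (2 * m)) E))
        Set.univ g₀)) → LocData (tauP ρ)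
      ((Nk (2 * m) k E : Subgroup (GL (Fin (2 * m)) E)) : Set (GL (Fin (2 * m)) E)) (rkK k) j)
    (hp : ∀ k j : ℕ, k ≤ 2 * m → 0 < j → j < m → ∀ g₀ : GL (Fin (2 * m)) E, rkK k g₀ = j →
      ∀ w : W, w ∈ Submodule.span ℂ (rel (tauP ρ)
        ((Nk (2 * m) k E : Subgroup (GL (Fin (2 * m)) E)) : Set (GL (Fin (2 * m)) E))
        Set.univ g₀))
    (f : Ind ρ) (hf : (f : GL (Fin (2 * m)) E → W) 1 = 0) :
    ∃ f₀ : Ind ρ, f - f₀ ∈ cvN (indAct ρ) (Nk (2 * m) m E) ⊤ ∧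
      ∀ g, (f₀ : GL (Fin (2 * m)) E → W) g ≠ 0 →
        IsUnit (lowL (g : Matrix (Fin (2 * m)) (Fin (2 * m)) E)).det := by
  by_cases hm : 0 < m
  · obtain ⟨f₀, h2, h3⟩ := ind_strata ρ hρ (k := m) (a := 1) (b := m) hm (by
      intro j hj1 hj
      apply hL
      intro w g₀ hg
      exact hp m j (by omega) hj1 hj g₀ hg w) f (by
      intro g hg
      by_contra h
      obtain ⟨a, d, b, rfl⟩ := exists_pel_of_rkK (g := g) (by omega)
      apply hg
      have h4 : (f : GL (Fin (2 * m)) E → W) ∈ indS (PS m E) (tauP ρ) := by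
        rw [indS_eq_Ind]
        exact f.2
      have h5 := (mem_indE_tauP.1 h4.1) a d b 1
      rw [mul_one, hf, map_zero] at h5
      exact h5)
    exact ⟨f₀, h2, fun g hg => isUnit_lowL_of_rkK (h3 g hg)⟩
  · refine ⟨f, ?_, fun g _ => ?_⟩
    · rw [sub_self]
      exact Submodule.zero_mem _
    · have : m = 0 := by omega
      subst this
      rw [Matrix.det_isEmpty]
      exact isUnit_one

end

end SpW
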