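import Pool.Agent.Work.MP_3615d2_al.GeoD
import Pool.Agent.Work.MP_3615d2_al.Loc
import Pool.Agent.Work.MP_3615d2_al.Pt2

/-!
MP_3615d2_al, Theorem B, module R6: the coinvariants of `Ind ρ` under the unipotent radicals, for `ρ`
cuspidal in the two variables (`ind_coinv_ne`, `ind_coinv_mid`).
-/

open Filter Topology

namespace SpW

section R6

variable {E : Type} [NontriviallyNormedField E] [IsUltrametricDist E] [ProperSpace E]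
  {m : ℕ} {W : Type} [AddCommGroup W] [Module ℂ W]

/-- R6a. -/
theorem ind_coinv_ne (ρ : (GL (Fin m) E × GL (Fin m) E) →* Module.End ℂ W) (hρ : IsSmoothRep ρ)
    (h1 : ∀ k, 0 < k → k < m → cvN ρ ((Nk m k E).prod ⊥) ⊤ = ⊤)
    (h2 : ∀ k, 0 < k → k < m →
      cvN ρ ((⊥ : Subgroup (GL (Fin m) E)).prod (Nk m k E)) ⊤ = ⊤)
    {k : ℕ} (hk0 : 0 < k) (hk : k < 2 * m) (hkm : k ≠ m) :
    cvN (indAct ρ) (Nk (2 * m) k E) ⊤ = ⊤ :=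
  ind_coinv_ne_aux ρ hρ h1 (fun _ _ h => locData_of_point hρ h)
    (fun _ _ _ hj hjm g₀ hg w => pt2 h2 hj hjm g₀ hg w) hk0 hk hkm

/-- R6b. -/
theorem ind_coinv_mid (ρ : (GL (Fin m) E × GL (Fin m) E) →* Module.End ℂ W) (hρ : IsSmoothRep ρ)
    (h1 : ∀ k, 0 < k → k < m → cvN ρ ((Nk m k E).prod ⊥) ⊤ = ⊤)
    (h2 : ∀ k, 0 < k → k < m →
      cvN ρ ((⊥ : Subgroup (GL (Fin m) E)).prod (Nk m k E)) ⊤ = ⊤)
    (f : Ind ρ) (hf : (f : GL (Fin (2 * m)) E → W) 1 = 0) :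
    ∃ f₀ : Ind ρ, f - f₀ ∈ cvN (indAct ρ) (Nk (2 * m) m E) ⊤ ∧
      ∀ g, (f₀ : GL (Fin (2 * m)) E → W) g ≠ 0 →
        IsUnit (lowL (g : Matrix (Fin (2 * m)) (Fin (2 * m)) E)).det :=
  ind_coinv_mid_aux ρ hρ (fun _ _ h => locData_of_point hρ h)
    (fun _ _ _ hj hjm g₀ hg w => pt2 h2 hj hjm g₀ hg w) f hf

end R6

end SpW
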