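import Pool.Agent.Work.MP_3615d2_al.HeisDefs

/-!
# Elementary facts on smooth representations of Heisenberg groups
-/

open scoped Matrix

namespace Pool.Agent.SpehH

section ev

variable {S : Type*} [AddCommGroup S] [Module ℂ S]

/-- Eigenvectors of a commuting family modulo a stable subspace. -/
theorem ev_mem {K : Submodule ℂ S} {Λ ι : Type*} {T : Λ → Module.End ℂ S}
    (hK : ∀ l, ∀ x ∈ K, T l x ∈ K) {g : ι → S} {χ : Λ → ι → ℂ} {χ0 : Λ → ℂ}
    (hg : ∀ l j, T l (g j) - χ l j • g j ∈ K) {x : S} (hx : ∀ l, T l x - χ0 l • x ∈ K)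
    (s : Finset ι) (a : ι → ℂ) (hs : x - ∑ j ∈ s, a j • g j ∈ K) :
    x ∈ Submodule.span ℂ {z | ∃ j, (∀ l, χ l j = χ0 l) ∧ z = g j} ⊔ K := by
  classical
  induction s using Finset.strongInduction generalizing a with
  | H s ih =>
    by_cases hall : ∀ j ∈ s, ∀ l, χ l j = χ0 l
    · have h1 : ∑ j ∈ s, a j • g j ∈ Submodule.span ℂ {z | ∃ j, (∀ l, χ l j = χ0 l) ∧ z = g j} :=
        Submodule.sum_mem _ fun j hj =>
          Submodule.smul_mem _ _ (Submodule.subset_span ⟨j, hall j hj, rfl⟩)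
      have h2 := Submodule.add_mem _ (Submodule.mem_sup_left h1)
        (Submodule.mem_sup_right (S := Submodule.span ℂ
          {z | ∃ j, (∀ l, χ l j = χ0 l) ∧ z = g j}) hs)
      rwa [add_sub_cancel] at h2
    · push Not at hall
      obtain ⟨j0, hj0, l, hl⟩ := hall
      have hne : χ0 l - χ l j0 ≠ 0 := sub_ne_zero.2 (Ne.symm hl)
      refine ih (s.erase j0) (Finset.erase_ssubset hj0)
        (fun j => (χ0 l - χ l j0)⁻¹ * (a j * (χ l j - χ l j0))) ?_
      -- apply `T l - χ l j0`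
      have e1 : T l x - ∑ j ∈ s, a j • T l (g j) ∈ K := by
        have := hK l _ hs
        simpa [map_sub, map_sum] using this
      have e2 : ∑ j ∈ s, a j • (T l (g j) - χ l j • g j) ∈ K :=
        Submodule.sum_mem _ fun j _ => Submodule.smul_mem _ _ (hg l j)
      have e3 : χ l j0 • (x - ∑ j ∈ s, a j • g j) ∈ K := Submodule.smul_mem _ _ hs
      have e4 : (χ0 l - χ l j0) • x - ∑ j ∈ s, (a j * (χ l j - χ l j0)) • g j ∈ K := by
        have h5 := Submodule.add_mem _ (Submodule.sub_mem _ e1 (Submodule.sub_mem _ (hx l)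
          (Submodule.zero_mem K))) (Submodule.sub_mem _ e2 e3)
        have h6 : T l x - ∑ j ∈ s, a j • T l (g j) - (T l x - χ0 l • x - 0) +
            (∑ j ∈ s, a j • (T l (g j) - χ l j • g j) - χ l j0 • (x - ∑ j ∈ s, a j • g j)) =
            (χ0 l - χ l j0) • x - ∑ j ∈ s, (a j * (χ l j - χ l j0)) • g j := by
          have h7 : ∑ j ∈ s, a j • (T l (g j) - χ l j • g j) =
              ∑ j ∈ s, a j • T l (g j) - ∑ j ∈ s, (a j * χ l j) • g j := by
            rw [← Finset.sum_sub_distrib]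
            exact Finset.sum_congr rfl fun j _ => by rw [smul_sub, smul_smul]
          have h8 : χ l j0 • ∑ j ∈ s, a j • g j = ∑ j ∈ s, (a j * χ l j0) • g j := by
            rw [Finset.smul_sum]
            exact Finset.sum_congr rfl fun j _ => by rw [smul_smul, mul_comm]
          have h9 : ∑ j ∈ s, (a j * (χ l j - χ l j0)) • g j =
              ∑ j ∈ s, (a j * χ l j) • g j - ∑ j ∈ s, (a j * χ l j0) • g j := by
            rw [← Finset.sum_sub_distrib]
            exact Finset.sum_congr rfl fun j _ => by rw [mul_sub, sub_smul]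
          rw [h7, h9, smul_sub, h8, sub_smul]
          abel
        rwa [h6] at h5
      have e5 : ∑ j ∈ s, (a j * (χ l j - χ l j0)) • g j =
          ∑ j ∈ s.erase j0, (a j * (χ l j - χ l j0)) • g j := by
        rw [← Finset.add_sum_erase s _ hj0]
        simp
      rw [e5] at e4
      have e6 := Submodule.smul_mem _ (χ0 l - χ l j0)⁻¹ e4
      rw [smul_sub, smul_smul, inv_mul_cancel₀ hne, one_smul, Finset.smul_sum] at e6
      simpa [smul_smul] using e6

end ev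

section lc

variable {F : Type*} [NontriviallyNormedField F] {W : Type*} [AddCommGroup W] [Module F W]
  {κ : Type*} [Fintype κ]

theorem lc_zero (e : κ → W) : lc e (0 : κ → F) = 0 := by
  simp [lc]

theorem lc_add (e : κ → W) (a a' : κ → F) : lc e (a + a') = lc e a + lc e a' := by
  simp [lc, add_smul, Finset.sum_add_distrib]

theorem lc_neg (e : κ → W) (a : κ → F) : lc e (-a) = -lc e a := by
  simp [lc]

theorem lc_sub (e : κ → W) (a a' : κ → F) : lc e (a - a') = lc e a - lc e a' := by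
  rw [sub_eq_add_neg, lc_add, lc_neg, sub_eq_add_neg]

theorem lc_single [DecidableEq κ] (e : κ → W) (i : κ) (a : F) :
    lc e (Pi.single i a) = a • e i := by
  rw [lc, Finset.sum_eq_single i]
  · rw [Pi.single_eq_same]
  · intro j _ hj
    rw [Pi.single_eq_of_ne hj, zero_smul]
  · intro hi
    exact absurd (Finset.mem_univ i) hi

theorem bil_lc_left (B : LinearMap.BilinForm F W) (e : κ → W) (a : κ → F) (w : W) :
    B (lc e a) w = ∑ i, a i * B (e i) w := by
  simp [lc]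

theorem bil_lc_right (B : LinearMap.BilinForm F W) (e : κ → W) (a : κ → F) (w : W) :
    B w (lc e a) = ∑ i, a i * B w (e i) := by
  simp [lc]

end lc

section basic

variable {F : Type*} [NontriviallyNormedField F] {W : Type*} [AddCommGroup W] [Module F W]
  {S : Type*} [AddCommGroup S] [Module ℂ S]
  {ψ : AddChar F Circle} {B : LinearMap.BilinForm F W} {ρ : W → Module.End ℂ S}
  {Y₁ Y : Submodule F W} {n : ℕ} {e f : Fin n → W} {I₁ I : Set (Fin n)} {c t : F}

theorem psi_add (x y : F) :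
    ((ψ (x + y) : Circle) : ℂ) = ((ψ x : Circle) : ℂ) * ((ψ y : Circle) : ℂ) := by
  rw [AddChar.map_add_eq_mul, Circle.coe_mul]

theorem psi_zero : ((ψ 0 : Circle) : ℂ) = 1 := by
  rw [AddChar.map_zero_eq_one, Circle.coe_one]

theorem psi_ne_zero (x : F) : ((ψ x : Circle) : ℂ) ≠ 0 := Circle.coe_ne_zero _

theorem psi_neg_mul (x : F) : ((ψ (-x) : Circle) : ℂ) * ((ψ x : Circle) : ℂ) = 1 := by
  rw [← psi_add, neg_add_cancel, psi_zero]

theorem psi_eq_one {c : F} (hc : IsCond ψ c) {b : F} (hb : ‖b‖ ≤ ‖c‖) :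
    ((ψ b : Circle) : ℂ) = 1 := by
  have := (hc.2 b).2 hb 1 (by simp)
  rw [mul_one] at this
  rw [this, Circle.coe_one]

theorem rho_rho (h : IsHeis ψ B ρ) (w w' : W) (s : S) :
    ρ w (ρ w' s) = ((ψ (B w w' / 2) : Circle) : ℂ) • ρ (w + w') s := by
  have := congrArg (fun T : Module.End ℂ S => T s) (h.mul w w')
  simpa using this

theorem rho_add (h : IsHeis ψ B ρ) (w w' : W) (s : S) :
    ρ (w + w') s = ((ψ (-(B w w' / 2)) : Circle) : ℂ) • ρ w (ρ w' s) := by
  rw [rho_rho h, smul_smul, psi_neg_mul, one_smul]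

theorem rho_add_of (h : IsHeis ψ B ρ) {w w' : W} (hw : B w w' = 0) (s : S) :
    ρ (w + w') s = ρ w (ρ w' s) := by
  rw [rho_add h, hw, zero_div, neg_zero, psi_zero, one_smul]

theorem rho_zero (h : IsHeis ψ B ρ) (s : S) : ρ 0 s = s := by
  rw [h.zero]
  rfl

theorem rho_comm (h : IsHeis ψ B ρ) (hB : B.IsAlt) (h2 : (2 : F) ≠ 0) (w w' : W) (s : S) :
    ρ w (ρ w' s) = ((ψ (B w w') : Circle) : ℂ) • ρ w' (ρ w s) := by
  rw [rho_rho h, rho_rho h w' w, smul_smul, add_comm w' w, ← psi_add]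
  congr 3
  have : B w' w = - B w w' := by
    have := hB.neg_eq w w'
    rw [← this]
  rw [this]
  field_simp
  ring

theorem rho_neg_rho (h : IsHeis ψ B ρ) (hB : B.IsAlt) (w : W) (s : S) : ρ (-w) (ρ w s) = s := by
  rw [rho_rho h]
  have : B (-w) w = 0 := by rw [map_neg, LinearMap.neg_apply, hB w, neg_zero]
  rw [this, zero_div, psi_zero, one_smul, neg_add_cancel, rho_zero h]

theorem rho_rho_neg (h : IsHeis ψ B ρ) (hB : B.IsAlt) (w : W) (s : S) : ρ w (ρ (-w) s) = s := by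
  have := rho_neg_rho h hB (-w) s
  rwa [neg_neg] at this

theorem rho_ne_zero (h : IsHeis ψ B ρ) (hB : B.IsAlt) (w : W) {s : S} (hs : s ≠ 0) :
    ρ w s ≠ 0 := by
  intro h0
  apply hs
  rw [← rho_neg_rho h hB w s, h0, map_zero]

theorem rho_sub_mem {y : W} (hy : y ∈ Y₁) (s : S) : ρ y s - s ∈ coK ρ Y₁ :=
  Submodule.subset_span ⟨y, hy, s, rfl⟩

theorem rho_mem_coK (h : IsHeis ψ B ρ) (hB : B.IsAlt) (h2 : (2 : F) ≠ 0) {w : W}
    (hw : ∀ y ∈ Y₁, B w y = 0) {x : S} (hx : x ∈ coK ρ Y₁) : ρ w x ∈ coK ρ Y₁ := by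
  unfold coK at hx
  induction hx using Submodule.span_induction with
  | mem x hx =>
    obtain ⟨y, hy, s, rfl⟩ := hx
    rw [map_sub, rho_comm h hB h2 w y, hw y hy, psi_zero, one_smul]
    exact rho_sub_mem hy _
  | zero => rw [map_zero]; exact Submodule.zero_mem _
  | add x y _ _ hx hy => rw [map_add]; exact Submodule.add_mem _ hx hy
  | smul a x _ hx => rw [map_smul]; exact Submodule.smul_mem _ _ hx

theorem map_mem_coK {u : W ≃ₗ[F] W} {Om : S ≃ₗ[ℂ] S} (hu : IsLift B ρ u Om)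
    (hu₁ : ∀ y ∈ Y₁, u y ∈ Y₁) {x : S} (hx : x ∈ coK ρ Y₁) : Om x ∈ coK ρ Y₁ := by
  unfold coK at hx
  induction hx using Submodule.span_induction with
  | mem x hx =>
    obtain ⟨y, hy, s, rfl⟩ := hx
    rw [map_sub, hu.lift]
    exact rho_sub_mem (hu₁ y hy) _
  | zero => rw [map_zero]; exact Submodule.zero_mem _
  | add x y _ _ hx hy => rw [map_add]; exact Submodule.add_mem _ hx hy
  | smul a x _ hx => rw [map_smul]; exact Submodule.smul_mem _ _ hx

theorem coK_bot (h : IsHeis ψ B ρ) : coK ρ (⊥ : Submodule F W) = ⊥ := by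
  rw [coK, Submodule.span_eq_bot]
  rintro x ⟨y, hy, s, rfl⟩
  rw [Submodule.mem_bot] at hy
  rw [hy, rho_zero h, sub_self]

theorem map_eq_zero_of_mem_coK {μ : S →ₗ[ℂ] ℂ} (hμ : ∀ y ∈ Y₁, ∀ v, μ (ρ y v) = μ v) {x : S}
    (hx : x ∈ coK ρ Y₁) : μ x = 0 := by
  unfold coK at hx
  induction hx using Submodule.span_induction with
  | mem x hx =>
    obtain ⟨y, hy, s, rfl⟩ := hx
    rw [map_sub, hμ y hy, sub_self]
  | zero => rw [map_zero]
  | add x y _ _ hx hy => rw [map_add, hx, hy, add_zero]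
  | smul a x _ hx => rw [map_smul, hx, smul_zero]

/-! ### The symplectic basis -/

theorem IsSB.fe (sb : IsSB B Y₁ Y e f I₁ I) (hB : B.IsAlt) (i j : Fin n) :
    B (f i) (e j) = if i = j then -1 else 0 := by
  have := hB.neg_eq (e j) (f i)
  rw [← this, sb.ef]
  by_cases hij : i = j
  · simp [hij]
  · simp [hij, Ne.symm hij]

theorem IsSB.lc_e_f (sb : IsSB B Y₁ Y e f I₁ I) (a b : Fin n → F) :
    B (lc e a) (lc f b) = a ⬝ᵥ b := by
  rw [bil_lc_left, dotProduct]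
  refine Finset.sum_congr rfl fun i _ => ?_
  rw [bil_lc_right]
  simp [sb.ef]

theorem IsSB.lc_f_e (sb : IsSB B Y₁ Y e f I₁ I) (hB : B.IsAlt) (a b : Fin n → F) :
    B (lc f b) (lc e a) = -(a ⬝ᵥ b) := by
  have := hB.neg_eq (lc e a) (lc f b)
  rw [← this, sb.lc_e_f]

theorem IsSB.lc_e_e (sb : IsSB B Y₁ Y e f I₁ I) (a b : Fin n → F) :
    B (lc e a) (lc e b) = 0 := by
  rw [bil_lc_left]
  refine Finset.sum_eq_zero fun i _ => ?_
  rw [bil_lc_right]
  simp [sb.ee]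

theorem IsSB.lc_f_f (sb : IsSB B Y₁ Y e f I₁ I) (a b : Fin n → F) :
    B (lc f a) (lc f b) = 0 := by
  rw [bil_lc_left]
  refine Finset.sum_eq_zero fun i _ => ?_
  rw [bil_lc_right]
  simp [sb.ff]

theorem IsSB.lc_e_e' (sb : IsSB B Y₁ Y e f I₁ I) (a : Fin n → F) (j : Fin n) :
    B (lc e a) (e j) = 0 := by
  rw [bil_lc_left]
  simp [sb.ee]

theorem IsSB.lc_f_e' (sb : IsSB B Y₁ Y e f I₁ I) (hB : B.IsAlt) (b : Fin n → F) (j : Fin n) :
    B (lc f b) (e j) = -b j := by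
  rw [bil_lc_left]
  simp [sb.fe hB]

theorem IsSB.lc_e_f' (sb : IsSB B Y₁ Y e f I₁ I) (a : Fin n → F) (j : Fin n) :
    B (lc e a) (f j) = a j := by
  rw [bil_lc_left]
  simp [sb.ef]

theorem IsSB.lc_f_f' (sb : IsSB B Y₁ Y e f I₁ I) (a : Fin n → F) (j : Fin n) :
    B (lc f a) (f j) = 0 := by
  rw [bil_lc_left]
  simp [sb.ff]

theorem IsSB.e_mem (sb : IsSB B Y₁ Y e f I₁ I) {i : Fin n} (hi : i ∈ I) : e i ∈ Y := by
  rw [sb.Y]
  exact Submodule.subset_span ⟨i, hi, rfl⟩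

theorem IsSB.e_mem₁ (sb : IsSB B Y₁ Y e f I₁ I) {i : Fin n} (hi : i ∈ I₁) : e i ∈ Y₁ := by
  rw [sb.Y₁]
  exact Submodule.subset_span ⟨i, hi, rfl⟩

theorem IsSB.le (sb : IsSB B Y₁ Y e f I₁ I) : Y₁ ≤ Y := by
  rw [sb.Y₁, sb.Y]
  exact Submodule.span_mono (Set.image_mono sb.sub)

theorem lc_mem_span {F : Type*} [NontriviallyNormedField F] {W : Type*} [AddCommGroup W]
    [Module F W] {n : ℕ} {e : Fin n → W} {J : Set (Fin n)} {a : Fin n → F}
    (ha : ∀ i, i ∉ J → a i = 0) : lc e a ∈ Submodule.span F (e '' J) := by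
  refine Submodule.sum_mem _ fun i _ => ?_
  by_cases hi : i ∈ J
  · exact Submodule.smul_mem _ _ (Submodule.subset_span ⟨i, hi, rfl⟩)
  · rw [ha i hi, zero_smul]
    exact Submodule.zero_mem _

theorem IsSB.lc_mem (sb : IsSB B Y₁ Y e f I₁ I) {a : Fin n → F} (ha : ∀ i, i ∉ I → a i = 0) :
    lc e a ∈ Y := by
  rw [sb.Y]
  exact lc_mem_span ha

theorem IsSB.lc_mem₁ (sb : IsSB B Y₁ Y e f I₁ I) {a : Fin n → F} (ha : ∀ i, i ∉ I₁ → a i = 0) :
    lc e a ∈ Y₁ := by
  rw [sb.Y₁]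
  exact lc_mem_span ha

theorem bil_eq_zero_of_span {F : Type*} [NontriviallyNormedField F] {W : Type*} [AddCommGroup W]
    [Module F W] (B : LinearMap.BilinForm F W) {n : ℕ} {e : Fin n → W} {J : Set (Fin n)} {w : W}
    (hw : ∀ i ∈ J, B w (e i) = 0) {y : W} (hy : y ∈ Submodule.span F (e '' J)) : B w y = 0 := by
  induction hy using Submodule.span_induction with
  | mem x hx =>
    obtain ⟨i, hi, rfl⟩ := hx
    exact hw i hi
  | zero => rw [map_zero]
  | add x y _ _ hx hy => rw [map_add, hx, hy, add_zero]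
  | smul a x _ hx => rw [map_smul, hx, smul_zero]

theorem IsSB.perp (sb : IsSB B Y₁ Y e f I₁ I) {w : W} (hw : ∀ i ∈ I, B w (e i) = 0) :
    ∀ y ∈ Y, B w y = 0 := by
  intro y hy
  rw [sb.Y] at hy
  exact bil_eq_zero_of_span B hw hy

theorem IsSB.perp₁ (sb : IsSB B Y₁ Y e f I₁ I) {w : W} (hw : ∀ i ∈ I₁, B w (e i) = 0) :
    ∀ y ∈ Y₁, B w y = 0 := by
  intro y hy
  rw [sb.Y₁] at hy
  exact bil_eq_zero_of_span B hw hy

theorem IsSB.lc_perp (sb : IsSB B Y₁ Y e f I₁ I) (a : Fin n → F) : ∀ y ∈ Y, B (lc e a) y = 0 :=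
  sb.perp fun i _ => sb.lc_e_e' a i

/-- coordinates of an element of `Y` -/
theorem IsSB.eq_lc (sb : IsSB B Y₁ Y e f I₁ I) {y : W} (hy : ∀ i, B y (e i) = 0) :
    y = lc e fun i => B y (f i) := by
  have := sb.expand y
  simp only [hy, zero_smul, Finset.sum_const_zero, sub_zero] at this
  exact this

theorem IsSB.coord (sb : IsSB B Y₁ Y e f I₁ I) {y : W} (hy : y ∈ Y) :
    (∀ i, B y (e i) = 0) ∧ ∀ i, i ∉ I → B y (f i) = 0 := by
  rw [sb.Y] at hy
  induction hy using Submodule.span_induction with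
  | mem x hx =>
    obtain ⟨i, hi, rfl⟩ := hx
    refine ⟨fun j => sb.ee i j, fun j hj => ?_⟩
    rw [sb.ef, if_neg]
    rintro rfl
    exact hj hi
  | zero => simp
  | add x y _ _ hx hy =>
    refine ⟨fun i => ?_, fun i hi => ?_⟩
    · rw [map_add, LinearMap.add_apply, hx.1, hy.1, add_zero]
    · rw [map_add, LinearMap.add_apply, hx.2 i hi, hy.2 i hi, add_zero]
  | smul a x _ hx =>
    refine ⟨fun i => ?_, fun i hi => ?_⟩
    · rw [map_smul, LinearMap.smul_apply, hx.1, smul_zero]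
    · rw [map_smul, LinearMap.smul_apply, hx.2 i hi, smul_zero]

theorem IsSB.isotropic (sb : IsSB B Y₁ Y e f I₁ I) {y y' : W} (hy : y ∈ Y) (hy' : y' ∈ Y) :
    B y y' = 0 := by
  rw [sb.eq_lc (sb.coord hy).1]
  exact sb.lc_perp _ y' hy'

/-- the splitting of a vector whose pairings with the `e i`, `i ∈ J`, are small -/
theorem IsSB.split (sb : IsSB B Y₁ Y e f I₁ I) (hB : B.IsAlt) (J : Set (Fin n)) (w : W)
    (hw : ∀ i ∈ J, ‖B w (e i)‖ * ‖t‖ ≤ ‖c‖) :
    ∃ (w2 : W) (b : Fin n → F), w = w2 + lc f b ∧ ‖b‖ * ‖t‖ ≤ ‖c‖ ∧ (∀ i, i ∉ J → b i = 0) ∧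
      (∀ i ∈ J, b i = -B w (e i)) ∧ (∀ i ∈ J, B w2 (e i) = 0) ∧ ∀ i, B w2 (f i) = B w (f i) := by
  classical
  have hb : ∃ b : Fin n → F, (∀ i ∈ J, b i = -B w (e i)) ∧ ∀ i, i ∉ J → b i = 0 := by
    refine ⟨fun i => if i ∈ J then -B w (e i) else 0, fun i hi => if_pos hi,
      fun i hi => if_neg hi⟩
  obtain ⟨b, hb1, hb2⟩ := hb
  refine ⟨w - lc f b, b, by abel, ?_, hb2, hb1, fun i hi => ?_, fun i => ?_⟩
  · by_cases ht : ‖t‖ = 0
    · rw [ht, mul_zero]
      exact norm_nonneg c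
    have ht' : 0 < ‖t‖ := lt_of_le_of_ne (norm_nonneg t) (Ne.symm ht)
    rw [← le_div_iff₀ ht']
    refine (pi_norm_le_iff_of_nonneg (by positivity)).2 fun i => ?_
    by_cases hi : i ∈ J
    · rw [hb1 i hi, norm_neg, le_div_iff₀ ht']
      exact hw i hi
    · rw [hb2 i hi, norm_zero]
      positivity
  · rw [map_sub, LinearMap.sub_apply, sb.lc_f_e' hB, hb1 i hi]
    ring
  · rw [map_sub, LinearMap.sub_apply, sb.lc_f_f', sub_zero]

/-- the operator of a product of commuting vectors -/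
theorem IsSB.rho_lc_e_add (sb : IsSB B Y₁ Y e f I₁ I) (h : IsHeis ψ B ρ) (a a' : Fin n → F) :
    ρ (lc e (a + a')) = ρ (lc e a) * ρ (lc e a') := by
  ext s
  rw [lc_add, rho_add_of h (sb.lc_e_e a a')]
  rfl

theorem IsSB.rho_lc_f_add (sb : IsSB B Y₁ Y e f I₁ I) (h : IsHeis ψ B ρ) (a a' : Fin n → F) :
    ρ (lc f (a + a')) = ρ (lc f a) * ρ (lc f a') := by
  ext s
  rw [lc_add, rho_add_of h (sb.lc_f_f a a')]
  rfl

/-- smoothness along an isotropic family -/
theorem exists_ball (h : IsHeis ψ B ρ) {κ : Type*} [Fintype κ] {g : κ → W}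
    (hg : ∀ i j, B (g i) (g j) = 0) (v : S) :
    ∃ s : F, s ≠ 0 ∧ ∀ a : κ → F, ‖a‖ ≤ ‖s‖ → ρ (lc g a) v = v := by
  classical
  choose ε hε1 hε2 using h.smooth v
  obtain ⟨δ, hδ, hδ'⟩ : ∃ δ > 0, ∀ i, δ ≤ ε (g i) := by
    rcases isEmpty_or_nonempty κ with hκ | hκ
    · exact ⟨1, one_pos, fun i => (hκ.false i).elim⟩
    · refine ⟨Finset.univ.inf' Finset.univ_nonempty fun i => ε (g i), ?_, fun i =>
        Finset.inf'_le _ (Finset.mem_univ i)⟩
      rw [gt_iff_lt, Finset.lt_inf'_iff]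
      exact fun i _ => hε1 (g i)
  obtain ⟨s, hs0, hs⟩ := NormedField.exists_norm_lt F hδ
  refine ⟨s, norm_pos_iff.1 hs0, fun a ha => ?_⟩
  have key : ∀ T : Finset κ, ρ (∑ i ∈ T, a i • g i) v = v := by
    intro T
    induction T using Finset.induction_on with
    | empty => rw [Finset.sum_empty, rho_zero h]
    | insert i T hi ih =>
      rw [Finset.sum_insert hi, rho_add_of h, ih]
      · exact hε2 (g i) (a i) (((norm_le_pi_norm a i).trans ha).trans (hs.le.trans (hδ' i)))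
      · rw [map_smul, LinearMap.smul_apply, map_sum]
        rw [Finset.sum_eq_zero, smul_zero]
        intro j _
        rw [map_smul, hg, smul_zero]
  exact key Finset.univ

end basic

end Pool.Agent.SpehH
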