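import Pool.Agent.Work.MP_3615d2_al.HeisOne
import Pool.Agent.Work.MP_3615d2_al.HeisEigen
import Pool.Agent.Work.MP_3615d2_al.HeisBasis

/-!
# Fixed vectors of lattices in smooth representations of Heisenberg groups
-/

open scoped Matrix

namespace Pool.Agent.SpehH

section

variable {F : Type*} [NontriviallyNormedField F] {W : Type*} [AddCommGroup W] [Module F W]
  {S : Type*} [AddCommGroup S] [Module ℂ S]
  {ψ : AddChar F Circle} {B : LinearMap.BilinForm F W} {ρ : W → Module.End ℂ S}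
  {Y₁ Y : Submodule F W} {n : ℕ} {e f : Fin n → W} {I₁ I : Set (Fin n)} {c t : F}

theorem norm_dot_le [IsUltrametricDist F] {κ : Type*} [Fintype κ] (a b : κ → F) :
    ‖a ⬝ᵥ b‖ ≤ ‖a‖ * ‖b‖ := by
  refine IsUltrametricDist.norm_sum_le_of_forall_le_of_nonneg (by positivity) fun i _ => ?_
  rw [norm_mul]
  exact mul_le_mul (norm_le_pi_norm a i) (norm_le_pi_norm b i) (norm_nonneg _) (norm_nonneg _)

theorem exists_mem_ne_zero {V : Type*} [AddCommGroup V] [Module ℂ V] {A : Set V} {v : V}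
    (hv : v ≠ 0) (h : v ∈ Submodule.span ℂ A) : ∃ x ∈ A, x ≠ 0 := by
  by_contra hcon
  push Not at hcon
  apply hv
  have : Submodule.span ℂ A = ⊥ := Submodule.span_eq_bot.2 hcon
  rwa [this, Submodule.mem_bot] at h

/-- a joint fixed vector of the two dual lattices -/
theorem exists_fix [IsUltrametricDist F] [ProperSpace F] (hψ : Continuous ψ) (hc : IsCond ψ c)
    (hB : B.IsAlt) (h2 : (2 : F) ≠ 0) (h : IsHeis ψ B ρ) (hS : Nontrivial S)
    (sb : IsSB B Y₁ Y e f I₁ I) (ht : t ≠ 0) : ∃ v ≠ 0, IsFix ρ e f c t v := by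
  obtain ⟨v0, hv0⟩ := exists_ne (0 : S)
  have htn : 0 < ‖t‖ := norm_pos_iff.2 ht
  -- a vector which is fixed by `A_t`
  obtain ⟨s, hs, hs'⟩ := exists_ball h sb.ee v0
  obtain ⟨x, ⟨-, l, -, hl⟩, hx0⟩ := exists_mem_ne_zero hv0
    (exists_eigen hψ hc (π := fun a => ρ (lc e a)) (by rw [lc_zero, h.zero])
      (sb.rho_lc_e_add h) hs ht hs')
  set v1 : S := ρ (-lc f l) x with hv1
  have hv10 : v1 ≠ 0 := rho_ne_zero h hB _ hx0
  have hv1f : ∀ a : Fin n → F, ‖a‖ ≤ ‖t‖ → ρ (lc e a) v1 = v1 := by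
    intro a ha
    rw [hv1, rho_comm h hB h2, hl a ha, map_smul, smul_smul, map_neg, sb.lc_e_f, dotProduct_comm,
      psi_neg_mul, one_smul]
  -- a vector which is fixed by both lattices
  obtain ⟨s', hs0, hs''⟩ := exists_ball h sb.ff v1
  have ht' : c / t ≠ 0 := div_ne_zero hc.1 ht
  obtain ⟨x', ⟨hx'1, l', -, hl'⟩, hx'0⟩ := exists_mem_ne_zero hv10
    (exists_eigen hψ hc (π := fun a => ρ (lc f a)) (by rw [lc_zero, h.zero])
      (sb.rho_lc_f_add h) hs0 ht' hs'')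
  have hx'f : ∀ a : Fin n → F, ‖a‖ ≤ ‖t‖ → ρ (lc e a) x' = x' := by
    intro a ha
    clear hx'0 hl'
    induction hx'1 using Submodule.span_induction with
    | mem z hz =>
      obtain ⟨b, hb, rfl⟩ := hz
      rw [rho_comm h hB h2, hv1f a ha, sb.lc_e_f, psi_eq_one hc, one_smul]
      refine (norm_dot_le a b).trans ?_
      rw [norm_div] at hb
      calc ‖a‖ * ‖b‖ ≤ ‖t‖ * (‖c‖ / ‖t‖) :=
            mul_le_mul ha hb (norm_nonneg _) (norm_nonneg _)
        _ = ‖c‖ := by field_simp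
    | zero => rw [map_zero]
    | add y z _ _ hy hz => rw [map_add, hy, hz]
    | smul r y _ hy => rw [map_smul, hy]
  refine ⟨ρ (lc e l') x', rho_ne_zero h hB _ hx'0, fun a ha => ?_, fun b hb => ?_⟩
  · rw [rho_comm h hB h2, sb.lc_e_e, psi_zero, one_smul, hx'f a ha]
  · have hb' : ‖b‖ ≤ ‖c / t‖ := by
      rw [norm_div, le_div_iff₀ htn]
      exact hb
    rw [rho_comm h hB h2, hl' b hb', map_smul, smul_smul, sb.lc_f_e hB, psi_neg_mul, one_smul]

/-- **Schur's lemma** -/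
theorem schur [IsUltrametricDist F] [ProperSpace F] [FiniteDimensional F W] (hψ : Continuous ψ)
    (h1 : ψ ≠ 1) (hB : B.IsAlt) (hn : B.Nondegenerate) (h2 : (2 : F) ≠ 0) (h : IsHeis ψ B ρ)
    (hi : IsIrr ρ) {T : Module.End ℂ S} (hT : ∀ w, T * ρ w = ρ w * T) : ∃ z : ℂ, T = z • 1 := by
  obtain ⟨c, hc⟩ := exists_cond hψ h1
  obtain ⟨n, e, f, I₁, I, sb⟩ := exists_sb hB hn h2 (le_refl (⊥ : Submodule F W)) (by
    intro y hy y' _
    rw [Submodule.mem_bot] at hy
    rw [hy, map_zero, LinearMap.zero_apply])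
  obtain ⟨v, hv, hf⟩ := exists_fix hψ hc hB h2 h hi.1 sb (one_ne_zero (α := F))
  have hT' : ∀ w x, T (ρ w x) = ρ w (T x) := fun w x =>
    congrArg (fun R : Module.End ℂ S => R x) (hT w)
  obtain ⟨z, hz⟩ := one_dim hc hB h2 h hi sb one_ne_zero hv hf (x := T v)
    (fun a ha => by
      rw [← hT', hf.1 a ha, sub_self]
      exact Submodule.zero_mem _)
    (fun b hb _ => by
      rw [← hT', hf.2 b hb, sub_self]
      exact Submodule.zero_mem _)
  rw [coK_bot h, Submodule.mem_bot, sub_eq_zero] at hz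
  refine ⟨z, ?_⟩
  have h3 : LinearMap.ker (T - z • (1 : Module.End ℂ S)) = ⊤ := by
    refine (hi.2 _ fun w x hx => ?_).resolve_left fun h0 => hv ?_
    · rw [LinearMap.mem_ker] at hx ⊢
      rw [LinearMap.sub_apply, LinearMap.smul_apply, Module.End.one_apply, sub_eq_zero] at hx ⊢
      rw [hT', hx, map_smul]
    · have : v ∈ LinearMap.ker (T - z • (1 : Module.End ℂ S)) := by
        rw [LinearMap.mem_ker, LinearMap.sub_apply, LinearMap.smul_apply, Module.End.one_apply,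
          sub_eq_zero]
        exact hz
      rwa [h0, Submodule.mem_bot] at this
  rw [LinearMap.ker_eq_top, sub_eq_zero] at h3
  exact h3

/-- two lifts of the same map are proportional -/
theorem lift_unique [IsUltrametricDist F] [ProperSpace F] [FiniteDimensional F W]
    (hψ : Continuous ψ) (h1 : ψ ≠ 1) (hB : B.IsAlt) (hn : B.Nondegenerate) (h2 : (2 : F) ≠ 0)
    (h : IsHeis ψ B ρ) (hi : IsIrr ρ) {g : W → W} {T T' : S ≃ₗ[ℂ] S}
    (hT : ∀ w v, T (ρ w v) = ρ (g w) (T v)) (hT' : ∀ w v, T' (ρ w v) = ρ (g w) (T' v)) :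
    ∃ z : ℂ, z ≠ 0 ∧ ∀ v, T' v = z • T v := by
  obtain ⟨z, hz⟩ := schur hψ h1 hB hn h2 h hi
    (T := (T.symm : S →ₗ[ℂ] S) ∘ₗ (T' : S →ₗ[ℂ] S)) (by
      intro w
      ext x
      show T.symm (T' (ρ w x)) = ρ w (T.symm (T' x))
      rw [hT', LinearEquiv.symm_apply_eq, hT, LinearEquiv.apply_symm_apply])
  have h3 : ∀ v, T' v = z • T v := by
    intro v
    have := congrArg (fun R : Module.End ℂ S => T (R v)) hz
    simpa using this
  refine ⟨z, ?_, h3⟩
  rintro rfl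
  have := hi.1
  obtain ⟨v, hv⟩ := exists_ne (0 : S)
  apply hv
  have := h3 v
  rw [zero_smul] at this
  exact (LinearEquiv.map_eq_zero_iff T').1 this

end

end Pool.Agent.SpehH
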