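import Pool.Agent.Work.MP_3615d2_al.HeisOne

/-!
# The action of unipotent maps on the eigenvectors of large lattices
-/

open scoped Matrix

namespace Pool.Agent.SpehH

section

variable {F : Type*} [NontriviallyNormedField F] {W : Type*} [AddCommGroup W] [Module F W]
  {S : Type*} [AddCommGroup S] [Module ℂ S]
  {ψ : AddChar F Circle} {B : LinearMap.BilinForm F W} {ρ : W → Module.End ℂ S}
  {Y₁ Y : Submodule F W} {n : ℕ} {e f : Fin n → W} {I₁ I : Set (Fin n)} {c t : F}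

/-- an element of large norm -/
theorem exists_norm_ge (F : Type*) [NontriviallyNormedField F] (r : ℝ) :
    ∃ t : F, t ≠ 0 ∧ r ≤ ‖t‖ := by
  obtain ⟨t, ht⟩ := NormedField.exists_lt_norm F (max r 0)
  exact ⟨t, norm_pos_iff.1 (lt_of_le_of_lt (le_max_right _ _) ht), (le_max_left _ _).trans ht.le⟩

theorem exists_bound {α : Type*} (s : Finset α) (g : α → ℝ) : ∃ C : ℝ, 0 ≤ C ∧ ∀ i ∈ s, g i ≤ C := by
  classical
  induction s using Finset.induction_on with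
  | empty => exact ⟨0, le_rfl, fun i hi => absurd hi (Finset.notMem_empty i)⟩
  | insert a s _ ih =>
    obtain ⟨C, hC, h⟩ := ih
    refine ⟨max C (g a), hC.trans (le_max_left _ _), fun i hi => ?_⟩
    rcases Finset.mem_insert.1 hi with rfl | hi
    · exact le_max_right _ _
    · exact (h i hi).trans (le_max_left _ _)

/-- an element of `Y` with small coordinates acts trivially modulo `coK ρ Y₁`, up to a vector of
`Y₁` -/
theorem IsSB.rho_Y (sb : IsSB B Y₁ Y e f I₁ I) (h : IsHeis ψ B ρ) {y : W}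
    (hy : ∀ i, B y (e i) = 0) {v : S} (hf : IsFix ρ e f c t v)
    (hn : ∀ i, i ∉ I₁ → ‖B y (f i)‖ ≤ ‖t‖) : ρ y v - v ∈ coK ρ Y₁ := by
  classical
  set a1 : Fin n → F := fun i => if i ∈ I₁ then B y (f i) else 0 with ha1
  set a2 : Fin n → F := fun i => if i ∈ I₁ then 0 else B y (f i) with ha2
  have ha12 : (fun i => B y (f i)) = a1 + a2 := by
    ext i
    simp only [ha1, ha2, Pi.add_apply]
    by_cases hi : i ∈ I₁ <;> simp [hi]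
  have ha2n : ‖a2‖ ≤ ‖t‖ := by
    refine (pi_norm_le_iff_of_nonneg (norm_nonneg t)).2 fun i => ?_
    simp only [ha2]
    by_cases hi : i ∈ I₁
    · simp [hi]
    · simp only [hi, if_false]
      exact hn i hi
  have hy1 : lc e a1 ∈ Y₁ := sb.lc_mem₁ fun i hi => by simp [ha1, hi]
  have h1 := sb.eq_lc hy
  rw [ha12, lc_add] at h1
  rw [h1, rho_add_of h (sb.lc_e_e a1 a2), hf.1 a2 ha2n]
  exact rho_sub_mem hy1 v

theorem IsSB.coord₁ (sb : IsSB B Y₁ Y e f I₁ I) {y : W} (hy : y ∈ Y₁) {i : Fin n}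
    (hi : i ∉ I₁) : B y (f i) = 0 := by
  rw [sb.Y₁] at hy
  induction hy using Submodule.span_induction with
  | mem x hx =>
    obtain ⟨j, hj, rfl⟩ := hx
    rw [sb.ef, if_neg]
    rintro rfl
    exact hi hj
  | zero => simp
  | add x y _ _ hx hy => rw [map_add, LinearMap.add_apply, hx, hy, add_zero]
  | smul a x _ hx => rw [map_smul, LinearMap.smul_apply, hx, smul_zero]

theorem bil_swap (hB : B.IsAlt) {x y : W} (hxy : B x y = 0) : B y x = 0 := by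
  rw [← hB.neg_eq x y, hxy, neg_zero]

/-- a unipotent map preserves `Y^⊥` and moves its elements by elements of `Y₁` -/
theorem symm_perp (sb : IsSB B Y₁ Y e f I₁ I) {u : W ≃ₗ[F] W} {Om : S ≃ₗ[ℂ] S}
    (hu : IsLift B ρ u Om) (hu₃ : ∀ w, (∀ y ∈ Y, B w y = 0) → u w - w ∈ Y₁) {l : W}
    (hl : ∀ y ∈ Y, B l y = 0) : u.symm l - l ∈ Y₁ := by
  have h1 : ∀ y ∈ Y, B (u.symm l) y = 0 := by
    intro y hy
    rw [← hu.symp, LinearEquiv.apply_symm_apply]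
    apply hl
    have := Y.add_mem (sb.le (hu₃ y fun y' hy' => sb.isotropic hy hy')) hy
    rwa [sub_add_cancel] at this
  have h2 := Y₁.neg_mem (hu₃ _ h1)
  rwa [LinearEquiv.apply_symm_apply, neg_sub] at h2

theorem symm_perp₁ {u : W ≃ₗ[F] W} {Om : S ≃ₗ[ℂ] S}
    (hu : IsLift B ρ u Om) (hu₁ : ∀ y ∈ Y₁, u y ∈ Y₁)
    (hu₂ : ∀ w, (∀ y ∈ Y₁, B w y = 0) → u w - w ∈ Y) {l : W}
    (hl : ∀ y ∈ Y₁, B l y = 0) : u.symm l - l ∈ Y := by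
  have h1 : ∀ y ∈ Y₁, B (u.symm l) y = 0 := by
    intro y hy
    rw [← hu.symp, LinearEquiv.apply_symm_apply]
    exact hl _ (hu₁ y hy)
  have h2 := Y.neg_mem (hu₂ _ h1)
  rwa [LinearEquiv.apply_symm_apply, neg_sub] at h2

/-- the image under `Om` of a vector fixed by the two lattices of level `t` -/
theorem fix_Om [IsUltrametricDist F] (hc : IsCond ψ c) (hB : B.IsAlt) (h2 : (2 : F) ≠ 0)
    (h : IsHeis ψ B ρ) (sb : IsSB B Y₁ Y e f I₁ I)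
    {u : W ≃ₗ[F] W} {Om : S ≃ₗ[ℂ] S} (hu : IsLift B ρ u Om) (hu₁ : ∀ y ∈ Y₁, u y ∈ Y₁)
    (hu₂ : ∀ w, (∀ y ∈ Y₁, B w y = 0) → u w - w ∈ Y)
    (hu₃ : ∀ w, (∀ y ∈ Y, B w y = 0) → u w - w ∈ Y₁) {C : ℝ} (hC0 : 0 ≤ C)
    (hC : ∀ i j, ‖B (u.symm (f i) - f i) (f j)‖ ≤ C) (ht : t ≠ 0)
    (h3 : C * ‖c‖ ≤ ‖t‖ * ‖t‖) (h4 : C * ‖c‖ ≤ ‖t‖ * ‖t‖ * ‖(2 : F)‖) {v : S}
    (hf : IsFix ρ e f c t v) :
    (∀ a : Fin n → F, ‖a‖ ≤ ‖t‖ → ρ (lc e a) (Om v) - Om v ∈ coK ρ Y₁) ∧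
      ∀ b : Fin n → F, ‖b‖ * ‖t‖ ≤ ‖c‖ → (∀ i ∈ I₁, b i = 0) →
        ρ (lc f b) (Om v) - Om v ∈ coK ρ Y₁ := by
  have htn : 0 < ‖t‖ := norm_pos_iff.2 ht
  have hcn : 0 < ‖c‖ := norm_pos_iff.2 hc.1
  have h2n : 0 < ‖(2 : F)‖ := norm_pos_iff.2 h2
  have key : ∀ l, ρ l (Om v) = Om (ρ ((u.symm l - l) + l) v) := by
    intro l
    rw [hu.lift, sub_add_cancel, LinearEquiv.apply_symm_apply]
  constructor
  · intro a ha
    have hy := symm_perp sb hu hu₃ (sb.lc_perp a)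
    have h0 : B (u.symm (lc e a) - lc e a) (lc e a) = 0 :=
      bil_swap hB (sb.lc_perp a _ (sb.le hy))
    rw [key, ← map_sub, rho_add_of h h0, hf.1 a ha]
    exact map_mem_coK hu hu₁ (rho_sub_mem hy v)
  · intro b hb hb'
    have hl : ∀ y ∈ Y₁, B (lc f b) y = 0 := sb.perp₁ fun i hi => by
      rw [sb.lc_f_e' hB, hb' i hi, neg_zero]
    have hy := symm_perp₁ hu hu₁ hu₂ hl
    set y : W := u.symm (lc f b) - lc f b with hydef
    have hyf : ∀ j, ‖B y (f j)‖ ≤ C * ‖b‖ := by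
      intro j
      have h5 : y = lc (fun i => u.symm (f i) - f i) b := by
        rw [hydef, lc, lc, map_sum, ← Finset.sum_sub_distrib]
        exact Finset.sum_congr rfl fun i _ => by rw [map_smul, smul_sub]
      rw [h5, bil_lc_left]
      refine IsUltrametricDist.norm_sum_le_of_forall_le_of_nonneg (by positivity) fun i _ => ?_
      rw [norm_mul, mul_comm]
      exact mul_le_mul (hC i j) (norm_le_pi_norm b i) (norm_nonneg _) hC0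
    have hbt : ‖b‖ ≤ ‖c‖ / ‖t‖ := (le_div_iff₀ htn).2 hb
    have hyt : ∀ j, ‖B y (f j)‖ ≤ ‖t‖ := by
      intro j
      calc ‖B y (f j)‖ ≤ C * ‖b‖ := hyf j
        _ ≤ C * (‖c‖ / ‖t‖) := mul_le_mul_of_nonneg_left hbt hC0
        _ = C * ‖c‖ / ‖t‖ := by ring
        _ ≤ ‖t‖ * ‖t‖ / ‖t‖ := by gcongr
        _ = ‖t‖ := by field_simp
    have hq : ‖-(B y (lc f b) / 2)‖ ≤ ‖c‖ := by
      rw [norm_neg, norm_div, div_le_iff₀ h2n, bil_lc_right]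
      calc ‖∑ i, b i * B y (f i)‖ ≤ ‖b‖ * (C * ‖b‖) := by
            refine IsUltrametricDist.norm_sum_le_of_forall_le_of_nonneg (by positivity)
              fun i _ => ?_
            rw [norm_mul]
            exact mul_le_mul (norm_le_pi_norm b i) (hyf i) (norm_nonneg _) (norm_nonneg _)
        _ ≤ (‖c‖ / ‖t‖) * (C * (‖c‖ / ‖t‖)) := by gcongr
        _ = ‖c‖ * (C * ‖c‖ / (‖t‖ * ‖t‖)) := by
            field_simp
        _ ≤ ‖c‖ * ‖(2 : F)‖ := by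
            refine mul_le_mul_of_nonneg_left ?_ (norm_nonneg c)
            rw [div_le_iff₀ (by positivity)]
            linarith
    rw [key, ← map_sub, ← hydef, rho_add h, psi_eq_one hc hq, one_smul, hf.2 b hb]
    exact map_mem_coK hu hu₁ (sb.rho_Y h (sb.coord hy).1 hf fun i _ => hyt i)

/-- the action of `Om` on `ρ (-ξ + w) v` -/
theorem Om_rho (hB : B.IsAlt) (h2 : (2 : F) ≠ 0)
    (h : IsHeis ψ B ρ) (sb : IsSB B Y₁ Y e f I₁ I)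
    {u : W ≃ₗ[F] W} {Om : S ≃ₗ[ℂ] S} (hu : IsLift B ρ u Om)
    (hu₂ : ∀ w, (∀ y ∈ Y₁, B w y = 0) → u w - w ∈ Y)
    (hu₃ : ∀ w, (∀ y ∈ Y, B w y = 0) → u w - w ∈ Y₁) {ξ w : W}
    (hξ : ∀ y ∈ Y₁, B ξ y = 0) (hw : ∀ y ∈ Y, B w y = 0)
    (hn : ∀ i, ‖B (u ξ - ξ) (f i)‖ ≤ ‖t‖) {v : S} (hf : IsFix ρ e f c t v) {χ : ℂ}
    (hχ : Om v - χ • v ∈ coK ρ Y₁) :
    Om (ρ (-ξ + w) v) - (χ * ((ψ (B (u ξ - ξ) ξ / 2) : Circle) : ℂ)) • ρ (-ξ + w) v ∈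
      coK ρ Y₁ := by
  have hy0 := hu₂ ξ hξ
  have hy1 := hu₃ w hw
  have hw' : ∀ y ∈ Y₁, B (-ξ + w) y = 0 := by
    intro y hy
    rw [map_add, map_neg, LinearMap.add_apply, LinearMap.neg_apply, hξ y hy, hw y (sb.le hy)]
    simp
  set y0 : W := u ξ - ξ with hy0d
  set y1 : W := u w - w with hy1d
  have huw : u (-ξ + w) = (-ξ + w) + (-y0 + y1) := by
    rw [map_add, map_neg, hy0d, hy1d]
    abel
  have hyY : -y0 + y1 ∈ Y := Y.add_mem (Y.neg_mem hy0) (sb.le hy1)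
  have hy' : ∀ y ∈ Y₁, B (-y0 + y1) y = 0 := fun y hy => sb.isotropic hyY (sb.le hy)
  have huw' : ∀ y ∈ Y₁, B (u (-ξ + w)) y = 0 := by
    intro y hy
    rw [huw, map_add, LinearMap.add_apply, hw' y hy, hy' y hy, add_zero]
  -- the vector `ρ y v`
  have h3 : ρ (-y0 + y1) v - v ∈ coK ρ Y₁ := by
    refine sb.rho_Y h (sb.coord hyY).1 hf fun i hi => ?_
    rw [map_add, map_neg, LinearMap.add_apply, LinearMap.neg_apply, sb.coord₁ hy1 hi, add_zero,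
      norm_neg]
    exact hn i
  have h4 := rho_mem_coK h hB h2 hw' h3
  have h5 := rho_mem_coK h hB h2 huw' hχ
  have hq : -(B (-ξ + w) (-y0 + y1) / 2) = B y0 ξ / 2 := by
    have e1 : B ξ y1 = 0 := hξ _ hy1
    have e2 : B w y0 = 0 := hw _ hy0
    have e3 : B w y1 = 0 := hw _ (sb.le hy1)
    have e4 : B y0 ξ = -B ξ y0 := by rw [← hB.neg_eq ξ y0]
    simp only [map_add, map_neg, LinearMap.add_apply, LinearMap.neg_apply, e1, e2, e3, e4]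
    ring
  have h6 : ρ (u (-ξ + w)) v =
      ((ψ (B y0 ξ / 2) : Circle) : ℂ) • ρ (-ξ + w) (ρ (-y0 + y1) v) := by
    rw [huw, rho_add h, hq]
  have h7 : Om (ρ (-ξ + w) v) - (χ * ((ψ (B y0 ξ / 2) : Circle) : ℂ)) • ρ (-ξ + w) v =
      ρ (u (-ξ + w)) (Om v - χ • v) +
        (χ * ((ψ (B y0 ξ / 2) : Circle) : ℂ)) • ρ (-ξ + w) (ρ (-y0 + y1) v - v) := by
    rw [map_sub (ρ (u (-ξ + w))), map_smul, h6, hu.lift, map_sub (ρ (-ξ + w)), smul_sub, smul_smul]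
    abel
  rw [h7]
  exact Submodule.add_mem _ h5 (Submodule.smul_mem _ _ h4)

/-- the lattices on which `u` acts by `ψ (q_u)` up to one scalar -/
theorem key [IsUltrametricDist F] (hψ : Continuous ψ) (hc : IsCond ψ c) (hB : B.IsAlt)
    (h2 : (2 : F) ≠ 0) (h : IsHeis ψ B ρ) (hi : IsIrr ρ) (sb : IsSB B Y₁ Y e f I₁ I)
    (hfix : ∀ t : F, t ≠ 0 → ∃ v ≠ 0, IsFix ρ e f c t v)
    {u : W ≃ₗ[F] W} {Om : S ≃ₗ[ℂ] S} (hu : IsLift B ρ u Om) (hu₁ : ∀ y ∈ Y₁, u y ∈ Y₁)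
    (hu₂ : ∀ w, (∀ y ∈ Y₁, B w y = 0) → u w - w ∈ Y)
    (hu₃ : ∀ w, (∀ y ∈ Y, B w y = 0) → u w - w ∈ Y₁) (Ξ : Finset W)
    (hΞ : ∀ ξ ∈ Ξ, ∀ y ∈ Y₁, B ξ y = 0) :
    ∃ t₀ : F, t₀ ≠ 0 ∧ ∀ t : F, ‖t₀‖ ≤ ‖t‖ → ∃ χ : ℂ, ∀ ξ ∈ Ξ, ∀ v, IsEig ψ B ρ e I t ξ v →
      Om v - (χ * ((ψ (B (u ξ - ξ) ξ / 2) : Circle) : ℂ)) • v ∈ coK ρ Y₁ := by
  obtain ⟨C, hC0, hC⟩ := exists_bound (Finset.univ : Finset (Fin n × Fin n))
    fun p => ‖B (u.symm (f p.1) - f p.1) (f p.2)‖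
  obtain ⟨D, hD0, hD⟩ := exists_bound (Ξ ×ˢ (Finset.univ : Finset (Fin n)))
    fun p => ‖B (u p.1 - p.1) (f p.2)‖
  have h2n : 0 < ‖(2 : F)‖ := norm_pos_iff.2 h2
  obtain ⟨t₀, ht₀, ht₁⟩ := exists_norm_ge F (max (max 1 (C * ‖c‖)) (max (C * ‖c‖ / ‖(2 : F)‖) D))
  refine ⟨t₀, ht₀, fun t htt => ?_⟩
  have ht₂ := ht₁.trans htt
  have b1 : 1 ≤ ‖t‖ := ((le_max_left _ _).trans (le_max_left _ _)).trans ht₂
  have b2 : C * ‖c‖ ≤ ‖t‖ := ((le_max_right _ _).trans (le_max_left _ _)).trans ht₂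
  have b3 : C * ‖c‖ / ‖(2 : F)‖ ≤ ‖t‖ := ((le_max_left _ _).trans (le_max_right _ _)).trans ht₂
  have b4 : D ≤ ‖t‖ := ((le_max_right _ _).trans (le_max_right _ _)).trans ht₂
  have ht : t ≠ 0 := norm_pos_iff.1 (lt_of_lt_of_le one_pos b1)
  have b5 : ‖t‖ ≤ ‖t‖ * ‖t‖ := le_mul_of_one_le_left (norm_nonneg t) b1
  obtain ⟨v, hv, hf⟩ := hfix t ht
  obtain ⟨h5, h6⟩ := fix_Om hc hB h2 h sb hu hu₁ hu₂ hu₃ hC0 (fun i j => hC (i, j) (by simp)) ht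
    (b2.trans b5) (by
      rw [div_le_iff₀ h2n] at b3
      refine b3.trans ?_
      gcongr) hf
  obtain ⟨χ, hχ⟩ := one_dim hc hB h2 h hi sb ht hv hf h5 h6
  refine ⟨χ, fun ξ hξ x hx => ?_⟩
  have h7 := eig_mem hc hB h2 h hi sb ht hv hf (hΞ ξ hξ) hx
  let T : Module.End ℂ S := (Om : S →ₗ[ℂ] S) -
    (χ * ((ψ (B (u ξ - ξ) ξ / 2) : Circle) : ℂ)) • LinearMap.id
  have hT : ∀ y, T y = Om y - (χ * ((ψ (B (u ξ - ξ) ξ / 2) : Circle) : ℂ)) • y := fun y => rfl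
  have h8 : Submodule.span ℂ {z | ∃ w, (∀ y ∈ Y, B w y = 0) ∧ z = ρ (-ξ + w) v} ⊔ coK ρ Y₁ ≤
      (coK ρ Y₁).comap T := by
    refine sup_le (Submodule.span_le.2 ?_) fun y hy => ?_
    · rintro _ ⟨w, hw, rfl⟩
      rw [SetLike.mem_coe, Submodule.mem_comap, hT]
      exact Om_rho hB h2 h sb hu hu₂ hu₃ (hΞ ξ hξ) hw
        (fun i => (hD (ξ, i) (by simp [hξ])).trans b4) hf hχ
    · rw [Submodule.mem_comap, hT]
      exact Submodule.sub_mem _ (map_mem_coK hu hu₁ hy) (Submodule.smul_mem _ _ hy)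
  exact h8 h7

end

end Pool.Agent.SpehH
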