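import Pool.Agent.Work.MP_3615d2_al.HeisBasic
import Pool.Agent.Work.MP_3615d2_al.HeisCond

/-!
# The eigenvectors of the lattices modulo the span of the `ρ y s - s`
-/

open scoped Matrix

namespace Pool.Agent.SpehH

section

variable {F : Type*} [NontriviallyNormedField F] {W : Type*} [AddCommGroup W] [Module F W]
  {S : Type*} [AddCommGroup S] [Module ℂ S]
  {ψ : AddChar F Circle} {B : LinearMap.BilinForm F W} {ρ : W → Module.End ℂ S}
  {Y₁ Y : Submodule F W} {n : ℕ} {e f : Fin n → W} {I₁ I : Set (Fin n)} {c t : F}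

theorem span_eq_top (h : IsHeis ψ B ρ) (hi : IsIrr ρ) {v : S} (hv : v ≠ 0) :
    Submodule.span ℂ (Set.range fun w => ρ w v) = ⊤ := by
  refine (hi.2 _ fun w x hx => ?_).resolve_left fun h0 => hv ?_
  · induction hx using Submodule.span_induction with
    | mem x hx =>
      obtain ⟨w', rfl⟩ := hx
      show ρ w (ρ w' v) ∈ _
      rw [rho_rho h]
      exact Submodule.smul_mem _ _ (Submodule.subset_span ⟨w + w', rfl⟩)
    | zero => rw [map_zero]; exact Submodule.zero_mem _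
    | add x y _ _ hx hy => rw [map_add]; exact Submodule.add_mem _ hx hy
    | smul a x _ hx => rw [map_smul]; exact Submodule.smul_mem _ _ hx
  · have : v ∈ Submodule.span ℂ (Set.range fun w => ρ w v) :=
      Submodule.subset_span ⟨0, rho_zero h v⟩
    rwa [h0, Submodule.mem_bot] at this

/-- `S` is spanned by the `ρ w v`, `w ∈ Y₁^⊥`, modulo `coK ρ Y₁`. -/
theorem gen_top [IsUltrametricDist F] (hc : IsCond ψ c) (hB : B.IsAlt) (h2 : (2 : F) ≠ 0)
    (h : IsHeis ψ B ρ) (hi : IsIrr ρ) (sb : IsSB B Y₁ Y e f I₁ I) (ht : t ≠ 0) {v : S}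
    (hv : v ≠ 0) (hf : IsFix ρ e f c t v) (x : S) :
    x ∈ Submodule.span ℂ {z | ∃ w, (∀ y ∈ Y₁, B w y = 0) ∧ z = ρ w v} ⊔ coK ρ Y₁ := by
  classical
  have hx : x ∈ Submodule.span ℂ (Set.range fun w => ρ w v) := by
    rw [span_eq_top h hi hv]
    exact Submodule.mem_top
  refine Submodule.span_le.2 ?_ hx
  rintro _ ⟨w, rfl⟩
  show ρ w v ∈ _
  by_cases hw : ∀ i ∈ I₁, ‖B w (e i)‖ * ‖t‖ ≤ ‖c‖
  · obtain ⟨w2, b, hwe, hb, hb0, -, hw2, -⟩ := sb.split hB I₁ w hw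
    refine Submodule.mem_sup_left ?_
    rw [hwe, rho_add h, hf.2 b hb]
    exact Submodule.smul_mem _ _ (Submodule.subset_span ⟨w2, sb.perp₁ hw2, rfl⟩)
  · push Not at hw
    obtain ⟨i, hi1, hi2⟩ := hw
    refine Submodule.mem_sup_right ?_
    have hna : ¬ ∀ a : F, ‖a‖ ≤ ‖t‖ → ψ (B w (e i) * a) = 1 := by
      rw [cond_iff hc ht]
      exact not_le.2 hi2
    push Not at hna
    obtain ⟨a, ha, hne⟩ := hna
    have hy : lc e (Pi.single i (-a)) ∈ Y₁ := by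
      refine sb.lc_mem₁ fun j hj => ?_
      rw [Pi.single_eq_of_ne]
      rintro rfl
      exact hj hi1
    have h1 := rho_sub_mem (ρ := ρ) hy (ρ w v)
    rw [rho_comm h hB h2, hf.1] at h1
    · have h3 : B (lc e (Pi.single i (-a))) w = B w (e i) * a := by
        rw [lc_single, map_smul, LinearMap.smul_apply, ← hB.neg_eq w (e i), smul_eq_mul]
        ring
      have h6 : ((ψ (B w (e i) * a) : Circle) : ℂ) • ρ w v - ρ w v =
          (((ψ (B w (e i) * a) : Circle) : ℂ) - 1) • ρ w v := by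
        rw [sub_smul, one_smul]
      rw [h3, h6] at h1
      have h4 : ((ψ (B w (e i) * a) : Circle) : ℂ) - 1 ≠ 0 := by
        rw [sub_ne_zero]
        intro h5
        apply hne
        rwa [← Circle.coe_one, Circle.coe_inj] at h5
      have h5 := Submodule.smul_mem _ (((ψ (B w (e i) * a) : Circle) : ℂ) - 1)⁻¹ h1
      rwa [smul_smul, inv_mul_cancel₀ h4, one_smul] at h5
    · rw [Pi.norm_single, norm_neg]
      exact ha

omit [AddCommGroup W] in
/-- a finite expression of an element of `span ⊔ K` -/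
theorem exists_sum_of_mem {K : Submodule ℂ S} {P : W → Prop} {v x : S}
    (hx : x ∈ Submodule.span ℂ {z | ∃ w, P w ∧ z = ρ w v} ⊔ K) :
    ∃ (s : Finset {w // P w}) (a : {w // P w} → ℂ), x - ∑ j ∈ s, a j • ρ j.1 v ∈ K := by
  classical
  obtain ⟨y, hy, k, hk, rfl⟩ := Submodule.mem_sup.1 hx
  have hset : {z | ∃ w, P w ∧ z = ρ w v} = Set.range fun j : {w // P w} => ρ j.1 v := by
    ext z
    constructor
    · rintro ⟨w, hw, rfl⟩
      exact ⟨⟨w, hw⟩, rfl⟩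
    · rintro ⟨j, rfl⟩
      exact ⟨j.1, j.2, rfl⟩
  rw [hset, Finsupp.mem_span_range_iff_exists_finsupp] at hy
  obtain ⟨a, rfl⟩ := hy
  refine ⟨a.support, a, ?_⟩
  rw [Finsupp.sum, add_sub_cancel_left]
  exact hk

/-- a vector which is fixed by the two lattices modulo `coK ρ Y₁` is a multiple of `v` -/
theorem one_dim [IsUltrametricDist F] (hc : IsCond ψ c) (hB : B.IsAlt) (h2 : (2 : F) ≠ 0)
    (h : IsHeis ψ B ρ) (hi : IsIrr ρ) (sb : IsSB B Y₁ Y e f I₁ I) (ht : t ≠ 0) {v : S}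
    (hv : v ≠ 0) (hf : IsFix ρ e f c t v) {x : S}
    (hx : ∀ a : Fin n → F, ‖a‖ ≤ ‖t‖ → ρ (lc e a) x - x ∈ coK ρ Y₁)
    (hx' : ∀ b : Fin n → F, ‖b‖ * ‖t‖ ≤ ‖c‖ → (∀ i ∈ I₁, b i = 0) →
      ρ (lc f b) x - x ∈ coK ρ Y₁) : ∃ z : ℂ, x - z • v ∈ coK ρ Y₁ := by
  classical
  have htn : 0 < ‖t‖ := norm_pos_iff.2 ht
  have hcn : 0 < ‖c‖ := norm_pos_iff.2 hc.1
  obtain ⟨s, a, hs⟩ := exists_sum_of_mem (gen_top hc hB h2 h hi sb ht hv hf x)
  -- the lattice
  let Λ : Set W := {l | (∃ a : Fin n → F, ‖a‖ ≤ ‖t‖ ∧ l = lc e a) ∨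
    ∃ b : Fin n → F, ‖b‖ * ‖t‖ ≤ ‖c‖ ∧ (∀ i ∈ I₁, b i = 0) ∧ l = lc f b}
  have hΛ1 : ∀ l : Λ, ∀ y ∈ Y₁, B l.1 y = 0 := by
    rintro ⟨l, ⟨a, -, rfl⟩ | ⟨b, -, hb, rfl⟩⟩ y hy
    · exact sb.lc_perp a y (sb.le hy)
    · refine sb.perp₁ (fun i hi => ?_) y hy
      rw [sb.lc_f_e' hB, hb i hi, neg_zero]
  have hΛ2 : ∀ l : Λ, ρ l.1 v = v := by
    rintro ⟨l, ⟨a, ha, rfl⟩ | ⟨b, hb, -, rfl⟩⟩
    · exact hf.1 a ha
    · exact hf.2 b hb
  have hΛ3 : ∀ l : Λ, ρ l.1 x - (1 : ℂ) • x ∈ coK ρ Y₁ := by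
    rintro ⟨l, ⟨a, ha, rfl⟩ | ⟨b, hb, hb', rfl⟩⟩
    · rw [one_smul]
      exact hx a ha
    · rw [one_smul]
      exact hx' b hb hb'
  have h3 := ev_mem (Λ := Λ) (T := fun l => ρ l.1) (K := coK ρ Y₁)
    (fun l x hx => rho_mem_coK h hB h2 (hΛ1 l) hx)
    (g := fun j : {w // ∀ y ∈ Y₁, B w y = 0} => ρ j.1 v)
    (χ := fun l j => ((ψ (B l.1 j.1) : Circle) : ℂ)) (χ0 := fun _ => 1)
    (fun l j => by
      rw [rho_comm h hB h2, hΛ2 l, sub_self]
      exact Submodule.zero_mem _) hΛ3 s a hs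
  have h4 : x ∈ Submodule.span ℂ {v} ⊔ coK ρ Y₁ := by
    refine (sup_le ?_ le_sup_right : _ ≤ Submodule.span ℂ {v} ⊔ coK ρ Y₁) h3
    rw [Submodule.span_le]
    rintro _ ⟨⟨w, hw⟩, hj, rfl⟩
    show ρ w v ∈ _
    have hj' : ∀ l ∈ Λ, ψ (B l w) = 1 := fun l hl => by
      have := hj ⟨l, hl⟩
      rwa [← Circle.coe_one, Circle.coe_inj] at this
    -- the coordinates of `w`
    have h5 : ∀ i, ‖B w (e i)‖ * ‖t‖ ≤ ‖c‖ := by
      intro i
      rw [← cond_iff hc ht]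
      intro a ha
      have := hj' (lc e (Pi.single i (-a))) (Or.inl ⟨_, by rwa [Pi.norm_single, norm_neg], rfl⟩)
      rw [lc_single, map_smul, LinearMap.smul_apply, ← hB.neg_eq w (e i), smul_eq_mul] at this
      rw [← this]
      congr 1
      ring
    obtain ⟨w2, b, hwe, hb, -, hb1, hw2, hw2f⟩ :=
      sb.split hB Set.univ w fun i _ => h5 i
    have hw2' : w2 = lc e fun i => B w (f i) := by
      have h10 := sb.eq_lc fun i => hw2 i (Set.mem_univ i)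
      rwa [funext hw2f] at h10
    have h6 : ∀ i, i ∉ I₁ → ‖B w (f i)‖ ≤ ‖t‖ := by
      intro i hi
      have hct : c / t ≠ 0 := div_ne_zero hc.1 ht
      have : ‖B w (f i)‖ * ‖c / t‖ ≤ ‖c‖ := by
        rw [← cond_iff hc hct]
        intro a ha
        have h7 := hj' (lc f (Pi.single i (-a))) (Or.inr ⟨_, ?_, ?_, rfl⟩)
        · rw [lc_single, map_smul, LinearMap.smul_apply, ← hB.neg_eq w (f i), smul_eq_mul] at h7
          rw [← h7]
          congr 1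
          ring
        · rw [Pi.norm_single, norm_neg]
          rwa [norm_div, le_div_iff₀ htn] at ha
        · intro j hj
          rw [Pi.single_eq_of_ne]
          rintro rfl
          exact hi hj
      rw [norm_div, ← mul_div_assoc, div_le_iff₀ htn, mul_comm ‖c‖] at this
      exact le_of_mul_le_mul_right this hcn
    have hbI : ∀ i ∈ I₁, b i = 0 := by
      intro i hi
      rw [hb1 i (Set.mem_univ i), hw _ (sb.e_mem₁ hi), neg_zero]
    -- the decomposition `w = y₁ + (a₂ + b)`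
    set a1 : Fin n → F := fun i => if i ∈ I₁ then B w (f i) else 0 with ha1
    set a2 : Fin n → F := fun i => if i ∈ I₁ then 0 else B w (f i) with ha2
    have ha12 : (fun i => B w (f i)) = a1 + a2 := by
      ext i
      simp only [ha1, ha2, Pi.add_apply]
      by_cases hi : i ∈ I₁ <;> simp [hi]
    have ha2n : ‖a2‖ ≤ ‖t‖ := by
      refine (pi_norm_le_iff_of_nonneg (norm_nonneg t)).2 fun i => ?_
      simp only [ha2]
      by_cases hi : i ∈ I₁
      · simp [hi]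
      · simp only [hi, if_false]
        exact h6 i hi
    have hy1 : lc e a1 ∈ Y₁ := sb.lc_mem₁ fun i hi => by simp [ha1, hi]
    have h8 : w = lc e a1 + (lc e a2 + lc f b) := by
      rw [hwe, hw2', ha12, lc_add, add_assoc]
    rw [h8, rho_add h, rho_add h (lc e a2), hf.2 b hb, map_smul, hf.1 a2 ha2n]
    refine Submodule.smul_mem _ _ (Submodule.smul_mem _ _ ?_)
    have h9 := Submodule.add_mem _ (Submodule.mem_sup_right (S := Submodule.span ℂ {v})
      (rho_sub_mem (ρ := ρ) hy1 v)) (Submodule.mem_sup_left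
        (Submodule.mem_span_singleton_self v))
    rwa [sub_add_cancel] at h9
  obtain ⟨y, hy, k, hk, hyk⟩ := Submodule.mem_sup.1 h4
  obtain ⟨z, rfl⟩ := Submodule.mem_span_singleton.1 hy
  refine ⟨z, ?_⟩
  rw [← hyk, add_sub_cancel_left]
  exact hk

/-- the eigenvectors with the character `ξ` modulo `coK ρ Y₁` -/
theorem eig_mem [IsUltrametricDist F] (hc : IsCond ψ c) (hB : B.IsAlt) (h2 : (2 : F) ≠ 0)
    (h : IsHeis ψ B ρ) (hi : IsIrr ρ) (sb : IsSB B Y₁ Y e f I₁ I) (ht : t ≠ 0) {v : S}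
    (hv : v ≠ 0) (hf : IsFix ρ e f c t v) {ξ : W} (hξ : ∀ y ∈ Y₁, B ξ y = 0) {x : S}
    (hx : IsEig ψ B ρ e I t ξ x) :
    x ∈ Submodule.span ℂ {z | ∃ w, (∀ y ∈ Y, B w y = 0) ∧ z = ρ (-ξ + w) v} ⊔ coK ρ Y₁ := by
  classical
  obtain ⟨s, a, hs⟩ := exists_sum_of_mem (gen_top hc hB h2 h hi sb ht hv hf x)
  let Λ : Set (Fin n → F) := {a | ‖a‖ ≤ ‖t‖ ∧ ∀ i, i ∉ I → a i = 0}
  have h3 := ev_mem (Λ := Λ) (T := fun l => ρ (lc e l.1)) (K := coK ρ Y₁)
    (fun l x hx => rho_mem_coK h hB h2 (fun y hy => sb.lc_perp _ y (sb.le hy)) hx)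
    (g := fun j : {w // ∀ y ∈ Y₁, B w y = 0} => ρ j.1 v)
    (χ := fun l j => ((ψ (B (lc e l.1) j.1) : Circle) : ℂ))
    (χ0 := fun l => ((ψ (B ξ (lc e l.1)) : Circle) : ℂ))
    (fun l j => by
      rw [rho_comm h hB h2, hf.1 l.1 l.2.1, sub_self]
      exact Submodule.zero_mem _)
    (fun l => by
      rw [hx l.1 l.2.1 l.2.2, sub_self]
      exact Submodule.zero_mem _) s a hs
  refine (sup_le ?_ le_sup_right : _ ≤ Submodule.span ℂ {z | ∃ w, (∀ y ∈ Y, B w y = 0) ∧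
    z = ρ (-ξ + w) v} ⊔ coK ρ Y₁) h3
  rw [Submodule.span_le]
  rintro _ ⟨⟨w, hw⟩, hj, rfl⟩
  show ρ w v ∈ _
  refine Submodule.mem_sup_left ?_
  have h5 : ∀ i ∈ I, ‖B (w + ξ) (e i)‖ * ‖t‖ ≤ ‖c‖ := by
    intro i hi
    rw [← cond_iff hc ht]
    intro a ha
    have h6 := hj ⟨Pi.single i (-a), by rwa [Pi.norm_single, norm_neg], fun j hj => by
      rw [Pi.single_eq_of_ne]
      rintro rfl
      exact hj hi⟩
    simp only [lc_single, map_smul, LinearMap.smul_apply, smul_eq_mul] at h6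
    rw [← hB.neg_eq w (e i), Circle.coe_inj] at h6
    have h7 : B (w + ξ) (e i) * a = -a * -B w (e i) - (-a * B ξ (e i)) := by
      rw [map_add, LinearMap.add_apply]
      ring
    rw [h7, AddChar.map_sub_eq_div, h6, div_self']
  obtain ⟨w2, b, hwe, hb, hb0, -, hw2, -⟩ := sb.split hB I (w + ξ) h5
  have h8 : w = (-ξ + w2) + lc f b := by
    rw [add_assoc, ← hwe]
    abel
  rw [h8, rho_add h, hf.2 b hb]
  exact Submodule.smul_mem _ _ (Submodule.subset_span ⟨w2, sb.perp hw2, rfl⟩)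

end

end Pool.Agent.SpehH
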