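import Pool.Agent.Work.MP_3615d2_al.HeisDefs

/-!
# The modules of the Heisenberg block (A5, A6)
-/

open scoped Matrix

namespace Pool.Agent.SpehH

section

variable {F : Type*} [NontriviallyNormedField F] {S : Type*} [AddCommGroup S] [Module ℂ S]

/-! ## H1. `HeisCond.lean` -/

theorem exists_cond [ProperSpace F] {ψ : AddChar F Circle} (hψ : Continuous ψ) (h1 : ψ ≠ 1) :
    ∃ c, IsCond ψ c := sorry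

theorem cond_iff {ψ : AddChar F Circle} {c : F} (hc : IsCond ψ c) {t : F} (ht : t ≠ 0) (b : F) :
    (∀ a : F, ‖a‖ ≤ ‖t‖ → ψ (b * a) = 1) ↔ ‖b‖ * ‖t‖ ≤ ‖c‖ := sorry

theorem cond_iff_pi {ψ : AddChar F Circle} {c : F} (hc : IsCond ψ c) {κ : Type*} [Fintype κ]
    {t : F} (ht : t ≠ 0) (b : κ → F) :
    (∀ a : κ → F, ‖a‖ ≤ ‖t‖ → ψ (b ⬝ᵥ a) = 1) ↔ ‖b‖ * ‖t‖ ≤ ‖c‖ := sorry

/-! ## H1b. `HeisEigen.lean` -/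

/-- Decomposition of a vector fixed by the ball of radius `|s|` into eigenvectors of the ball of
radius `|t|`. -/
theorem exists_eigen [IsUltrametricDist F] [ProperSpace F] {ψ : AddChar F Circle}
    (hψ : Continuous ψ) {c : F} (hc : IsCond ψ c) {κ : Type*} [Fintype κ]
    {π : (κ → F) → Module.End ℂ S} (h0 : π 0 = 1) (hadd : ∀ a a', π (a + a') = π a * π a')
    {v : S} {s t : F} (hs : s ≠ 0) (ht : t ≠ 0) (hv : ∀ a, ‖a‖ ≤ ‖s‖ → π a v = v) :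
    v ∈ Submodule.span ℂ {x | x ∈ Submodule.span ℂ {z | ∃ a, ‖a‖ ≤ ‖t‖ ∧ z = π a v} ∧
      ∃ l : κ → F, ‖l‖ * ‖s‖ ≤ ‖c‖ ∧ ∀ a, ‖a‖ ≤ ‖t‖ →
        π a x = ((ψ (l ⬝ᵥ a) : Circle) : ℂ) • x} := sorry

variable {W : Type*} [AddCommGroup W] [Module F W]

/-! ## H2. `HeisBasis.lean` -/

theorem exists_sb [FiniteDimensional F W] {B : LinearMap.BilinForm F W} (hB : B.IsAlt)
    (hn : B.Nondegenerate) (h2 : (2 : F) ≠ 0) {Y₁ Y : Submodule F W} (hY₁ : Y₁ ≤ Y)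
    (hY : ∀ y ∈ Y, ∀ y' ∈ Y, B y y' = 0) :
    ∃ (n : ℕ) (e f : Fin n → W) (I₁ I : Set (Fin n)), IsSB B Y₁ Y e f I₁ I := sorry

variable {ψ : AddChar F Circle} {B : LinearMap.BilinForm F W} {ρ : W → Module.End ℂ S}
  {Y₁ Y : Submodule F W} {n : ℕ} {e f : Fin n → W} {I₁ I : Set (Fin n)} {c t : F}

/-! ## H3. `HeisFix.lean` -/

/-- a joint fixed vector of the two dual lattices -/
theorem exists_fix [IsUltrametricDist F] [ProperSpace F] (hψ : Continuous ψ) (hc : IsCond ψ c)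
    (hB : B.IsAlt) (h2 : (2 : F) ≠ 0) (h : IsHeis ψ B ρ) (hS : Nontrivial S)
    (sb : IsSB B Y₁ Y e f I₁ I) (ht : t ≠ 0) : ∃ v ≠ 0, IsFix ρ e f c t v := sorry

theorem span_eq_top (h : IsHeis ψ B ρ) (hi : IsIrr ρ) {v : S} (hv : v ≠ 0) :
    Submodule.span ℂ (Set.range fun w => ρ w v) = ⊤ := sorry

/-- a vector which is fixed by the two lattices modulo `coK ρ Y₁` is a multiple of `v` -/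
theorem one_dim [IsUltrametricDist F] (hc : IsCond ψ c) (hB : B.IsAlt) (h2 : (2 : F) ≠ 0)
    (h : IsHeis ψ B ρ) (hi : IsIrr ρ) (sb : IsSB B Y₁ Y e f I₁ I) (ht : t ≠ 0) {v : S}
    (hv : v ≠ 0) (hf : IsFix ρ e f c t v) {x : S}
    (hx : ∀ a : Fin n → F, ‖a‖ ≤ ‖t‖ → ρ (lc e a) x - x ∈ coK ρ Y₁)
    (hx' : ∀ b : Fin n → F, ‖b‖ * ‖t‖ ≤ ‖c‖ → (∀ i ∈ I₁, b i = 0) →
      ρ (lc f b) x - x ∈ coK ρ Y₁) : ∃ z : ℂ, x - z • v ∈ coK ρ Y₁ := sorry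

/-- the eigenvectors with the character `ξ` modulo `coK ρ Y₁` -/
theorem eig_mem [IsUltrametricDist F] (hc : IsCond ψ c) (hB : B.IsAlt) (h2 : (2 : F) ≠ 0)
    (h : IsHeis ψ B ρ) (hi : IsIrr ρ) (sb : IsSB B Y₁ Y e f I₁ I) (ht : t ≠ 0) {v : S}
    (hv : v ≠ 0) (hf : IsFix ρ e f c t v) {ξ : W} (hξ : ∀ y ∈ Y₁, B ξ y = 0) {x : S}
    (hx : IsEig ψ B ρ e I t ξ x) :
    x ∈ Submodule.span ℂ {z | ∃ w, (∀ y ∈ Y, B w y = 0) ∧ z = ρ (-ξ + w) v} ⊔ coK ρ Y₁ := sorry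

/-- **Schur's lemma** -/
theorem schur [IsUltrametricDist F] [ProperSpace F] [FiniteDimensional F W] (hψ : Continuous ψ)
    (h1 : ψ ≠ 1) (hB : B.IsAlt) (hn : B.Nondegenerate) (h2 : (2 : F) ≠ 0) (h : IsHeis ψ B ρ)
    (hi : IsIrr ρ) {T : Module.End ℂ S} (hT : ∀ w, T * ρ w = ρ w * T) : ∃ z : ℂ, T = z • 1 := sorry

/-- two lifts of the same map are proportional -/
theorem lift_unique [IsUltrametricDist F] [ProperSpace F] [FiniteDimensional F W]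
    (hψ : Continuous ψ) (h1 : ψ ≠ 1) (hB : B.IsAlt) (hn : B.Nondegenerate) (h2 : (2 : F) ≠ 0)
    (h : IsHeis ψ B ρ) (hi : IsIrr ρ) {g : W → W} {T T' : S ≃ₗ[ℂ] S}
    (hT : ∀ w v, T (ρ w v) = ρ (g w) (T v)) (hT' : ∀ w v, T' (ρ w v) = ρ (g w) (T' v)) :
    ∃ z : ℂ, z ≠ 0 ∧ ∀ v, T' v = z • T v := sorry

/-! ## H4. `HeisKey.lean` -/

/-- the lattices on which `u` acts by `ψ (q_u)` up to one scalar -/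
theorem key [IsUltrametricDist F] (hψ : Continuous ψ) (hc : IsCond ψ c) (hB : B.IsAlt)
    (h2 : (2 : F) ≠ 0) (h : IsHeis ψ B ρ) (hi : IsIrr ρ) (sb : IsSB B Y₁ Y e f I₁ I)
    (hfix : ∀ t : F, t ≠ 0 → ∃ v ≠ 0, IsFix ρ e f c t v)
    {u : W ≃ₗ[F] W} {Om : S ≃ₗ[ℂ] S} (hu : IsLift B ρ u Om) (hu₁ : ∀ y ∈ Y₁, u y ∈ Y₁)
    (hu₂ : ∀ w, (∀ y ∈ Y₁, B w y = 0) → u w - w ∈ Y)
    (hu₃ : ∀ w, (∀ y ∈ Y, B w y = 0) → u w - w ∈ Y₁) (Ξ : Finset W)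
    (hΞ : ∀ ξ ∈ Ξ, ∀ y ∈ Y₁, B ξ y = 0) :
    ∃ t₀ : F, t₀ ≠ 0 ∧ ∀ t : F, ‖t₀‖ ≤ ‖t‖ → ∃ χ : ℂ, ∀ ξ ∈ Ξ, ∀ v, IsEig ψ B ρ e I t ξ v →
      Om v - (χ * ((ψ (B (u ξ - ξ) ξ / 2) : Circle) : ℂ)) • v ∈ coK ρ Y₁ := sorry

/-! ## H5. `HeisV.lean` -/

/-- the points `ξ` in `Y₁^⊥ ∖ Z` are not in the support of `μ` -/
theorem regular [IsUltrametricDist F] (hψ : Continuous ψ) (hc : IsCond ψ c) (hB : B.IsAlt)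
    (h2 : (2 : F) ≠ 0) (h : IsHeis ψ B ρ) (hi : IsIrr ρ) (sb : IsSB B Y₁ Y e f I₁ I)
    (hfix : ∀ t : F, t ≠ 0 → ∃ v ≠ 0, IsFix ρ e f c t v) {μ : S →ₗ[ℂ] ℂ}
    (hμ : ∀ y ∈ Y₁, ∀ v, μ (ρ y v) = μ v) {ξ : W} (hξ : ∀ y ∈ Y₁, B ξ y = 0)
    {u k : W ≃ₗ[F] W} {Om Om' : S ≃ₗ[ℂ] S} (hu : IsLift B ρ u Om) (hk : IsLift B ρ k Om')
    (hμu : ∀ v, μ (Om v) = μ v) (hμk : ∀ v, μ (Om' v) = μ v) (hu₁ : ∀ y ∈ Y₁, u y ∈ Y₁)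
    (hu₂ : ∀ w, (∀ y ∈ Y₁, B w y = 0) → u w - w ∈ Y)
    (hu₃ : ∀ w, (∀ y ∈ Y, B w y = 0) → u w - w ∈ Y₁)
    (hkY : Y.map (k : W →ₗ[F] W) = Y) (hkY₁ : Y₁.map (k : W →ₗ[F] W) = Y₁)
    (hne : ψ (B (u (k ξ) - k ξ) (k ξ) / 2) ≠ ψ (B (u ξ - ξ) ξ / 2)) :
    ∃ t : F, t ≠ 0 ∧ ∀ v, IsEig ψ B ρ e I t ξ v → μ v = 0 := sorry

/-- **Lemma V.** -/
theorem lemmaV [IsUltrametricDist F] [ProperSpace F] [FiniteDimensional F W] (hψ : Continuous ψ)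
    (h1 : ψ ≠ 1) (hB : B.IsAlt) (hn : B.Nondegenerate) (h2 : (2 : F) ≠ 0) (h : IsHeis ψ B ρ)
    (hi : IsIrr ρ) {Y₁ Y Z : Submodule F W} (hY₁ : Y₁ ≤ Y)
    (hY : ∀ y ∈ Y, ∀ y' ∈ Y, B y y' = 0) (hZ : ∀ w, (∀ y ∈ Y, B w y = 0) → w ∈ Z)
    {μ : S →ₗ[ℂ] ℂ} (hμ : ∀ y ∈ Y₁, ∀ v, μ (ρ y v) = μ v)
    (UU : Set ((W ≃ₗ[F] W) × (S ≃ₗ[ℂ] S))) (hUU : ∀ g ∈ UU, IsLift B ρ g.1 g.2)
    (hμU : ∀ g ∈ UU, ∀ v, μ (g.2 v) = μ v)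
    (H : ∀ ξ : W, (∀ y ∈ Y₁, B ξ y = 0) → ξ ∉ Z → ∃ u ∈ UU, ∃ k ∈ UU,
      (∀ y ∈ Y₁, u.1 y ∈ Y₁) ∧ (∀ w, (∀ y ∈ Y₁, B w y = 0) → u.1 w - w ∈ Y) ∧
      (∀ w, (∀ y ∈ Y, B w y = 0) → u.1 w - w ∈ Y₁) ∧
      Y.map (k.1 : W →ₗ[F] W) = Y ∧ Y₁.map (k.1 : W →ₗ[F] W) = Y₁ ∧
      ψ (B (u.1 (k.1 ξ) - k.1 ξ) (k.1 ξ) / 2) ≠ ψ (B (u.1 ξ - ξ) ξ / 2)) :
    ∀ y ∈ Y, (∀ z ∈ Z, (∀ y' ∈ Y₁, B z y' = 0) → B y z = 0) → ∀ v, μ (ρ y v) = μ v := sorry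

end

end Pool.Agent.SpehH
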