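import Pool.Agent.Work.MP_3615d2_al.HypTop

/-!
MP_3615d2_al: hypothesis (H) of the gauge theorem for the space of alternating forms.
-/

open Set Topology Polynomial UniqueFactorizationMonoid

namespace SpW

section algebra

variable {F V : Type} [Field F] [AddCommGroup V] [Module F V]

/-- If `p` is irreducible, `p(A)^n x = 0` and `p(A)^(n-1) x ≠ 0`, `Q(A) x = 0`, then `p^n ∣ Q`. -/
theorem pow_dvd_of_kill (A : Module.End F V) (p Q : F[X]) (hp : Irreducible p) (n : ℕ) (hn : 0 < n)
    (x : V) (h1 : aeval A (p ^ n) x = 0) (h2 : aeval A (p ^ (n - 1)) x ≠ 0)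
    (hQ : aeval A Q x = 0) : p ^ n ∣ Q := by
  classical
  have hg : aeval A (EuclideanDomain.gcd (p ^ n) Q) x = 0 := by
    rw [EuclideanDomain.gcd_eq_gcd_ab (p ^ n) Q, mul_comm (p ^ n), mul_comm Q, map_add, map_mul,
      map_mul]
    show aeval A _ (aeval A (p ^ n) x) + aeval A _ (aeval A Q x) = 0
    rw [h1, hQ, map_zero, map_zero, add_zero]
  obtain ⟨i, hi, hass⟩ := (dvd_prime_pow hp.prime n).1 (EuclideanDomain.gcd_dvd_left (p ^ n) Q)
  have hin : i = n := by
    by_contra hne
    apply h2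
    have hle : i ≤ n - 1 := by omega
    have hdvd : EuclideanDomain.gcd (p ^ n) Q ∣ p ^ (n - 1) :=
      hass.dvd.trans (pow_dvd_pow p hle)
    obtain ⟨c, hc⟩ := hdvd
    rw [hc, mul_comm, map_mul]
    show aeval A c (aeval A _ x) = 0
    rw [hg, map_zero]
  rw [hin] at hass
  exact hass.symm.dvd.trans (EuclideanDomain.gcd_dvd_right (p ^ n) Q)

end algebra

section semicont

variable {X : Type} [TopologicalSpace X]

/-- Sums of lower semicontinuous functions: if the sum does not exceed its value at `x₀`, all terms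
are constant. -/
theorem eventually_eq_of_sum_le {ι : Type} (D : Finset ι) (ρ : ι → X → ℕ) (x₀ : X)
    (h : ∀ i ∈ D, ∀ᶠ x in 𝓝 x₀, ρ i x₀ ≤ ρ i x) (Z : Set X)
    (hZ : ∀ x ∈ Z, ∑ i ∈ D, ρ i x ≤ ∑ i ∈ D, ρ i x₀) (i : ι) (hi : i ∈ D) :
    ∀ᶠ x in 𝓝[Z] x₀, ρ i x = ρ i x₀ := by
  have h1 : ∀ᶠ x in 𝓝 x₀, ∀ i ∈ D, ρ i x₀ ≤ ρ i x := (Finset.eventually_all D).2 h
  rw [eventually_nhdsWithin_iff]
  filter_upwards [h1] with x hx hxZ
  have h2 := Finset.sum_le_sum hx
  have h3 := le_antisymm h2 (hZ x hxZ)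
  exact ((Finset.sum_eq_sum_iff_of_le hx).1 h3 i hi).symm

end semicont

section alt

variable {F E : Type} [NontriviallyNormedField F] [IsUltrametricDist F] [ProperSpace F]
  [NontriviallyNormedField E] [NormedAlgebra F E] [IsUltrametricDist E] [ProperSpace E]
  [FiniteDimensional F E]
  {σ : E ≃ₐ[F] E} {N : ℕ} {H : Matrix (Fin N) (Fin N) E}

omit [IsUltrametricDist F] [IsUltrametricDist E] [ProperSpace E] in
theorem continuous_sig (σ : E ≃ₐ[F] E) : Continuous σ :=
  σ.toLinearMap.continuous_of_finiteDimensional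

omit [IsUltrametricDist F] [IsUltrametricDist E] [ProperSpace E] in
theorem continuous_Jlin {Y : Type} [TopologicalSpace Y] (B : Y → Matrix (Fin N) (Fin N) E)
    (hB : Continuous B) (y : Y → Fin N → E) (hy : Continuous y) :
    Continuous fun z => Jlin σ H (B z) (y z) := by
  refine continuous_pi fun i => ?_
  have h1 : Continuous fun z => (H⁻¹ * B z).mulVec (y z) :=
    (continuous_const.matrix_mul hB).matrix_mulVec hy
  exact (continuous_sig σ).comp ((continuous_apply i).comp h1)

omit [IsUltrametricDist F] [IsUltrametricDist E] [ProperSpace E] in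
theorem continuous_Alin {Y : Type} [TopologicalSpace Y] (B : Y → Matrix (Fin N) (Fin N) E)
    (hB : Continuous B) (y : Y → Fin N → E) (hy : Continuous y) :
    Continuous fun z => Alin σ H (B z) (y z) :=
  continuous_Jlin B hB _ (continuous_Jlin B hB y hy)

/-- The matrix of `A_B` over `F`. -/
noncomputable def Fmat (σ : E ≃ₐ[F] E) (H : Matrix (Fin N) (Fin N) E) (B : Alt N E) :
    Matrix (Fin (Module.finrank F (Fin N → E))) (Fin (Module.finrank F (Fin N → E))) F :=
  LinearMap.toMatrixAlgEquiv (Module.finBasis F (Fin N → E)) (Alin σ H B.1)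

omit [IsUltrametricDist F] [IsUltrametricDist E] [ProperSpace E] in
theorem continuous_Fmat : Continuous (Fmat (F := F) σ H : Alt N E → _) := by
  refine continuous_matrix fun i j => ?_
  have h1 : ∀ B : Alt N E, Fmat σ H B i j =
      (Module.finBasis F (Fin N → E)).coord i (Alin σ H B.1 (Module.finBasis F (Fin N → E) j)) := by
    intro B
    unfold Fmat
    rw [LinearMap.toMatrixAlgEquiv_apply]
    rfl
  simp_rw [h1]
  exact (LinearMap.continuous_of_finiteDimensional _).comp
    (continuous_Alin _ continuous_subtype_val _ continuous_const)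

omit [IsUltrametricDist F] [IsUltrametricDist E] [ProperSpace E] [ProperSpace F] in
theorem Fmat_aeval (f : F[X]) (B : Alt N E) :
    LinearMap.toMatrixAlgEquiv (Module.finBasis F (Fin N → E)) (aeval (Alin σ H B.1) f) =
      aeval (Fmat σ H B) f := by
  unfold Fmat
  exact (aeval_algHom_apply
    (LinearMap.toMatrixAlgEquiv (Module.finBasis F (Fin N → E))).toAlgHom (Alin σ H B.1) f).symm

/-- The rank over `F` of `f(A_B)`. -/
noncomputable def altRk (σ : E ≃ₐ[F] E) (H : Matrix (Fin N) (Fin N) E) (f : F[X]) (B : Alt N E) : ℕ :=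
  Module.finrank F (LinearMap.range (aeval (Alin σ H B.1) f))

omit [IsUltrametricDist F] [IsUltrametricDist E] [ProperSpace E] [ProperSpace F] in
theorem altRk_eq (f : F[X]) (B : Alt N E) : altRk σ H f B = (aeval (Fmat σ H B) f).rank := by
  rw [← Fmat_aeval, Matrix.rank_eq_finrank_range_toLin _ (Module.finBasis F (Fin N → E))
    (Module.finBasis F (Fin N → E))]
  have h : Matrix.toLin (Module.finBasis F (Fin N → E)) (Module.finBasis F (Fin N → E))
      (LinearMap.toMatrixAlgEquiv (Module.finBasis F (Fin N → E)) (aeval (Alin σ H B.1) f)) =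
      aeval (Alin σ H B.1) f := Matrix.toLin_toMatrix _ _ _
  rw [h]
  rfl

omit [IsUltrametricDist F] [IsUltrametricDist E] [ProperSpace E] in
theorem eventually_altRk (f : F[X]) (B : Alt N E) : ∀ᶠ B' in 𝓝 B, altRk σ H f B ≤ altRk σ H f B' := by
  have hc : Continuous fun B : Alt N E => aeval (Fmat (F := F) σ H B) f := by
    simp only [aeval_def]
    exact (Polynomial.continuous_eval₂ f _).comp continuous_Fmat
  filter_upwards [eventually_rank_ge hc B] with B' hB'
  rw [altRk_eq, altRk_eq]
  exact hB'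

/-- The characteristic polynomial of `A_B` over `F`. -/
noncomputable def chiP (σ : E ≃ₐ[F] E) (H : Matrix (Fin N) (Fin N) E) (B : Alt N E) : F[X] :=
  (Alin σ H B.1).charpoly

/-- Its coefficients. -/
noncomputable def chiC (σ : E ≃ₐ[F] E) (H : Matrix (Fin N) (Fin N) E) (B : Alt N E) : ℕ → F :=
  fun i => (chiP σ H B).coeff i

omit [IsUltrametricDist F] [IsUltrametricDist E] [ProperSpace E] in
theorem continuous_chiC : Continuous (chiC (F := F) σ H : Alt N E → _) := by
  classical
  refine continuous_pi fun i => ?_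
  have h1 : ∀ B : Alt N E, chiC (F := F) σ H B i =
      MvPolynomial.eval (fun p : Fin (Module.finrank F (Fin N → E)) ×
        Fin (Module.finrank F (Fin N → E)) => Fmat (F := F) σ H B p.1 p.2)
        ((Matrix.charpoly.univ F (Fin (Module.finrank F (Fin N → E)))).coeff i) := by
    intro B
    have h2 := Matrix.charpoly.univ_coeff_eval₂Hom (Fin (Module.finrank F (Fin N → E)))
      (RingHom.id F) (fun p => Fmat (F := F) σ H B p.1 p.2) i
    have h3 : Matrix.of (Function.curry fun p : Fin (Module.finrank F (Fin N → E)) ×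
        Fin (Module.finrank F (Fin N → E)) => Fmat (F := F) σ H B p.1 p.2) = Fmat σ H B := rfl
    rw [h3] at h2
    have h4 : (Fmat σ H B).charpoly = chiP (F := F) σ H B :=
      LinearMap.charpoly_toMatrix (Alin σ H B.1) (Module.finBasis F (Fin N → E))
    rw [h4] at h2
    exact h2.symm
  simp_rw [h1]
  refine (MvPolynomial.continuous_eval _).comp (continuous_pi fun p => ?_)
  exact continuous_Fmat.matrix_elem p.1 p.2

/-- The polynomial attached to a point `t` of the base. -/
noncomputable def Qt (σ : E ≃ₐ[F] E) (H : Matrix (Fin N) (Fin N) E) (t : ℕ → F) : F[X] := by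
  classical
  exact if h : ∃ B : Alt N E, chiC σ H B = t then chiP σ H h.choose else 0

omit [IsUltrametricDist F] [IsUltrametricDist E] [ProperSpace E] [ProperSpace F] in
theorem Qt_eq (B : Alt N E) : Qt σ H (chiC σ H B) = chiP (F := F) σ H B := by
  have h : ∃ B' : Alt N E, chiC (F := F) σ H B' = chiC (F := F) σ H B := ⟨B, rfl⟩
  unfold Qt
  rw [dif_pos h]
  ext i
  exact congrFun h.choose_spec i

/-- The rank function of the fibre `t`. -/
noncomputable def rt (σ : E ≃ₐ[F] E) (H : Matrix (Fin N) (Fin N) E) (t : ℕ → F) (B : Alt N E) :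
    ℕ := by
  classical
  exact ∑ i ∈ (normalizedFactors (Qt σ H t)).toFinset ×ˢ Finset.range ((Qt σ H t).natDegree + 1),
    altRk σ H (i.1 ^ i.2) B

omit [IsUltrametricDist F] [IsUltrametricDist E] [ProperSpace E] [ProperSpace F] in
theorem rt_bdd (t : ℕ → F) : ∃ n, ∀ B : Alt N E, rt (F := F) σ H t B ≤ n := by
  classical
  refine ⟨∑ i ∈ (normalizedFactors (Qt σ H t)).toFinset ×ˢ
    Finset.range ((Qt (F := F) σ H t).natDegree + 1), Module.finrank F (Fin N → E), ?_⟩
  intro B
  unfold rt
  exact Finset.sum_le_sum fun i _ => Submodule.finrank_le _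

omit [IsUltrametricDist F] [IsUltrametricDist E] [ProperSpace E] in
theorem rt_open (t : ℕ → F) (k : ℕ) : IsOpen {B : Alt N E | k ≤ rt (F := F) σ H t B} := by
  classical
  rw [isOpen_iff_mem_nhds]
  intro B hB
  have h1 : ∀ᶠ B' in 𝓝 B, ∀ i ∈ (normalizedFactors (Qt (F := F) σ H t)).toFinset ×ˢ
      Finset.range ((Qt (F := F) σ H t).natDegree + 1), altRk σ H (i.1 ^ i.2) B ≤
        altRk σ H (i.1 ^ i.2) B' := (Finset.eventually_all _).2 fun i _ => eventually_altRk _ B
  filter_upwards [h1] with B' hB'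
  refine le_trans (show k ≤ rt σ H t B from hB) ?_
  unfold rt
  exact Finset.sum_le_sum hB'

omit [IsUltrametricDist F] [IsUltrametricDist E] [ProperSpace E] in
/-- Constant rank of `p(A)^n` near a point of maximal rank. -/
theorem rank_const (B₀ : Alt N E) (Z : Set (Alt N E))
    (hmax : ∀ B ∈ Z, rt (F := F) σ H (chiC σ H B₀) B ≤ rt (F := F) σ H (chiC σ H B₀) B₀)
    (p : F[X]) (hp : p.Monic) (n : ℕ) (x : Fin N → E) (hx : IsBlock σ H B₀.1 p n x) :
    ∀ᶠ B in 𝓝[Z] B₀,
      Module.finrank F (LinearMap.range (aeval (Alin σ H B.1) (p ^ n))) =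
        Module.finrank F (LinearMap.range (aeval (Alin σ H B₀.1) (p ^ n))) := by
  classical
  have hQ0 : chiP (F := F) σ H B₀ ≠ 0 := (LinearMap.charpoly_monic _).ne_zero
  have hkill : aeval (Alin σ H B₀.1) (chiP (F := F) σ H B₀) x = 0 := by
    have := LinearMap.aeval_self_charpoly (Alin (F := F) σ H B₀.1)
    unfold chiP
    rw [this]
    rfl
  have h2 : aeval (Alin σ H B₀.1) (p ^ (n - 1)) x ≠ 0 := by
    intro h0
    obtain ⟨r, hr⟩ := hx.top
    apply hr
    rw [map_mul]
    show sk σ H (aeval (Alin σ H B₀.1) r (aeval (Alin σ H B₀.1) (p ^ (n - 1)) x)) x = 0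
    rw [h0, map_zero]
    simp [sk]
  have hdvd : p ^ n ∣ chiP (F := F) σ H B₀ :=
    pow_dvd_of_kill _ p _ hx.irr n hx.pos x hx.kill h2 hkill
  have hmem : (p, n) ∈ (normalizedFactors (Qt (F := F) σ H (chiC σ H B₀))).toFinset ×ˢ
      Finset.range ((Qt (F := F) σ H (chiC σ H B₀)).natDegree + 1) := by
    rw [Qt_eq, Finset.mem_product, Multiset.mem_toFinset, Finset.mem_range]
    constructor
    · show p ∈ normalizedFactors (chiP (F := F) σ H B₀)
      rw [mem_normalizedFactors_iff' hQ0]
      refine ⟨hx.irr, hp.normalize_eq_self, ?_⟩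
      exact (dvd_pow_self p hx.pos.ne').trans hdvd
    · show n < (chiP (F := F) σ H B₀).natDegree + 1
      have h3 := Polynomial.natDegree_le_of_dvd hdvd hQ0
      rw [Polynomial.natDegree_pow] at h3
      have h4 : 0 < p.natDegree := hx.irr.natDegree_pos
      nlinarith
  have := eventually_eq_of_sum_le _ (fun (i : F[X] × ℕ) (B : Alt N E) => altRk σ H (i.1 ^ i.2) B) B₀
    (fun i _ => eventually_altRk _ B₀) Z hmax (p, n) hmem
  exact this

end alt

end SpW
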