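import Pool.Agent.Work.MP_3615d2_al.Integ1

/-!
MP_3615d2_al, A11 (part 4): `∫_L om(1 - t₀ N b) |1 - t₀ N b|^-2 db = 0`.
-/

open MeasureTheory Measure Filter Topology
open scoped NNReal ENNReal Pointwise

namespace SpW

set_option linter.unusedSectionVars false

section quad

variable {K L : Type} [NontriviallyNormedField K] [IsUltrametricDist K] [ProperSpace K]
  [NontriviallyNormedField L] [NormedAlgebra K L] [IsUltrametricDist L] [ProperSpace L]
  {sg : L ≃ₐ[K] L} {δ : L} {d t₀ : K}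

/-- `1 - t₀ N(b)`. -/
noncomputable def ub (L : Type) [NontriviallyNormedField L] [NormedAlgebra K L] (t₀ : K)
    (b : L) : K := 1 - t₀ * Algebra.norm K b

theorem ub_ne (hq : QuadDatum sg δ d) (ht0 : t₀ ≠ 0) (hnt : ¬ ∃ y : L, Algebra.norm K y = t₀)
    (b : L) : ub L t₀ b ≠ 0 := by
  obtain ⟨c, hc, h⟩ := lower_L hq ht0 hnt
  intro h0
  have h1 := (h b).1
  rw [show 1 - t₀ * Algebra.norm K b = 0 from h0, md_zero] at h1
  exact absurd h1 (not_le.2 hc)

theorem ub_cont (hq : QuadDatum sg δ d) (t₀ : K) : Continuous (ub L t₀) :=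
  continuous_const.sub (continuous_const.mul (nm_cont hq))

/-- The set `ν N(O_L^×)`. -/
def Sv (L : Type) [NontriviallyNormedField L] [NormedAlgebra K L] [ProperSpace L] (v : K) :
    Set K := {r | ∃ z : L, md z = 1 ∧ r = v * Algebra.norm K z}

theorem isCompact_sphere_md : IsCompact {z : L | md z = 1} := by
  borelize L
  apply Metric.isCompact_of_isClosed_isBounded
  · exact isClosed_eq continuous_md continuous_const
  · apply Metric.isBounded_closedBall.subset (s := {z : L | md z = 1}) (t := Metric.closedBall 0 1)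
    intro z hz
    rw [mem_closedBall_zero_iff]
    by_contra hc
    rw [not_le] at hc
    have h1 : ‖(1 : L)‖ < ‖z‖ := by rw [norm_one]; exact hc
    have h2 := md_lt h1
    rw [md_one, hz] at h2
    exact lt_irrefl _ h2

theorem Sv_closed (hq : QuadDatum sg δ d) (v : K) : IsClosed (Sv L v) := by
  have h1 : Sv L v = (fun z : L => v * Algebra.norm K z) '' {z : L | md z = 1} := by
    ext r
    constructor
    · rintro ⟨z, hz, rfl⟩
      exact ⟨z, hz, rfl⟩
    · rintro ⟨z, hz, rfl⟩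
      exact ⟨z, hz, rfl⟩
  rw [h1]
  exact (isCompact_sphere_md.image (continuous_const.mul (nm_cont hq))).isClosed

variable [MeasurableSpace L] [BorelSpace L]

/-- The volume of `{q(a) ∈ v N(O_L^×)}`. -/
noncomputable def Vv (μ : Measure L) (t₀ v : K) : ℝ≥0∞ :=
  ∫⁻ a : L, ∫⁻ b : L, (Sv L v).indicator 1 (Algebra.norm K a - t₀ * Algebra.norm K b) ∂μ ∂μ

/-- The volume of the units. -/
noncomputable def kp (μ : Measure L) : ℝ≥0∞ := μ {z : L | md z = 1}

theorem kp_ne_top (μ : Measure L) [μ.IsAddHaarMeasure] : kp μ ≠ ∞ :=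
  isCompact_sphere_md.measure_lt_top.ne

theorem kp_ne_zero (μ : Measure L) [μ.IsAddHaarMeasure] : kp μ ≠ 0 := by
  have h1 : Metric.ball (1 : L) 1 ⊆ {z : L | md z = 1} := by
    intro z hz
    rw [Metric.mem_ball, dist_eq_norm] at hz
    have h2 := IsUltrametricDist.norm_add_eq_max_of_norm_ne_norm (x := z - 1) (y := 1)
      (by rw [norm_one]; exact hz.ne)
    rw [sub_add_cancel, norm_one, max_eq_right hz.le] at h2
    show md z = 1
    rw [md_eq_of_norm_eq (y := (1 : L)) (by rw [norm_one]; exact h2), md_one]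
  exact ((Metric.measure_ball_pos μ 1 one_pos).trans_le (measure_mono h1)).ne'

open scoped Classical in
/-- `∫ 1[om(1 - t₀ N b) = e] |1 - t₀ N b|^-2 db`. -/
noncomputable def Pe (μ : Measure L) (t₀ : K) (om : K → ℂ) (e : ℂ) : ℝ≥0∞ :=
  ∫⁻ b : L, (if om (ub L t₀ b) = e then ((md (ub L t₀ b) : ℝ≥0∞)⁻¹) ^ 2 else 0) ∂μ

omit [MeasurableSpace L] [BorelSpace L] in
theorem om_val (hq : QuadDatum sg δ d) {om : K → ℂ} (hom : OmChar K L om) (x : K) (hx : x ≠ 0) :
    (om x = 1 ∧ ∃ z : L, z ≠ 0 ∧ Algebra.norm K z = x) ∨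
      (om x = -1 ∧ ¬ ∃ z : L, Algebra.norm K z = x) := by
  by_cases h : ∃ z : L, Algebra.norm K z = x
  · left
    obtain ⟨z, hz⟩ := h
    have hz0 : z ≠ 0 := by
      rintro rfl
      rw [nm_zero hq] at hz
      exact hx hz.symm
    exact ⟨by rw [← hz]; exact hom.norm z hz0, z, hz0, hz⟩
  · right
    exact ⟨hom.nonnorm x hx h, h⟩

omit [MeasurableSpace L] [BorelSpace L] in
theorem om_sq (hq : QuadDatum sg δ d) {om : K → ℂ} (hom : OmChar K L om) (x : K) (hx : x ≠ 0) :
    om x * om x = 1 := by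
  rcases om_val hq hom x hx with ⟨h, _⟩ | ⟨h, _⟩ <;> rw [h] <;> ring

omit [MeasurableSpace L] [BorelSpace L] in
/-- If `om x = om y` then `x = y N(z)`. -/
theorem exists_of_om_eq (hq : QuadDatum sg δ d) {om : K → ℂ} (hom : OmChar K L om) {x y : K}
    (hx : x ≠ 0) (hy : y ≠ 0) (h : om x = om y) : ∃ z : L, z ≠ 0 ∧ x = y * Algebra.norm K z := by
  have h1 : om (x * y) = 1 := by
    rw [hom.mul x y hx hy, h, om_sq hq hom y hy]
  rcases om_val hq hom (x * y) (mul_ne_zero hx hy) with ⟨_, z, hz, h2⟩ | ⟨h2, _⟩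
  · refine ⟨z * (algebraMap K L y)⁻¹, mul_ne_zero hz (inv_ne_zero ?_), ?_⟩
    · intro h3
      exact hy ((map_eq_zero _).1 h3)
    · have h3 : Algebra.norm K (algebraMap K L y)⁻¹ * (y * y) = 1 := by
        have h4 : algebraMap K L (Algebra.norm K (algebraMap K L y)⁻¹) =
            algebraMap K L (y⁻¹ * y⁻¹) := by
          rw [hq.norm_eq, map_inv₀, AlgEquiv.commutes, map_mul, map_inv₀]
        have h5 := (algebraMap K L).injective h4
        rw [h5]
        field_simp
      rw [map_mul, h2]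
      linear_combination (-x) * h3
  · rw [h1] at h2
    exfalso
    norm_num at h2

omit [MeasurableSpace L] [BorelSpace L] in
theorem om_mul_norm {om : K → ℂ} (hom : OmChar K L om) {y : K} (hy : y ≠ 0) {z : L} (hz : z ≠ 0) :
    om (y * Algebra.norm K z) = om y := by
  rw [hom.mul y _ hy (nm_ne hz), hom.norm z hz, mul_one]

theorem ae_ne_zero (μ : Measure L) [μ.IsAddHaarMeasure] : ∀ᵐ a : L ∂μ, a ≠ 0 := by
  rw [ae_iff]
  have h1 : {a : L | ¬ a ≠ 0} = {0} := by
    ext a
    simp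
  rw [h1]
  exact measure_singleton 0

theorem lint_mul' (μ : Measure L) [μ.IsAddHaarMeasure] {x : L} (hx : x ≠ 0) (f : L → ℝ≥0∞) :
    ∫⁻ y, f y ∂μ = (md x : ℝ≥0∞) * ∫⁻ y, f (x * y) ∂μ := by
  rw [lint_mul μ hx, ← mul_assoc, ENNReal.mul_inv_cancel, one_mul]
  · exact_mod_cast (md_pos hx).ne'
  · exact ENNReal.coe_ne_top

theorem meas_ind (hq : QuadDatum sg δ d) (v : K) [MeasurableSpace K] [BorelSpace K]
    {X : Type} [MeasurableSpace X] {f : X → K} (hf : Measurable f) :
    Measurable (fun x => (Sv L v).indicator (1 : K → ℝ≥0∞) (f x)) := by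
  exact (measurable_one.indicator (Sv_closed hq v).measurableSet).comp hf

theorem inner_eq (hq : QuadDatum sg δ d) {om : K → ℂ} (hom : OmChar K L om) (μ : Measure L)
    [μ.IsAddHaarMeasure] {u v : K} (hu : u ≠ 0) (hv : v ≠ 0) :
    ∫⁻ a : L, (md a : ℝ≥0∞) * (Sv L v).indicator 1 (Algebra.norm K a * u) ∂μ =
      kp μ * (md v : ℝ≥0∞) ^ 2 * (if om u = om v then ((md u : ℝ≥0∞)⁻¹) ^ 2 else 0) := by
  split_ifs with h
  · obtain ⟨z, hz, rfl⟩ := exists_of_om_eq hq hom hu hv h
    have h1 : ∀ a : L, (md a : ℝ≥0∞) *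
        (Sv L v).indicator 1 (Algebra.norm K a * (v * Algebra.norm K z)) =
        (md z : ℝ≥0∞)⁻¹ * ({w : L | md w = 1}.indicator 1 (z * a)) := by
      intro a
      by_cases ha : md (z * a) = 1
      · rw [Set.indicator_of_mem (show z * a ∈ {w : L | md w = 1} from ha),
          Set.indicator_of_mem (show _ ∈ Sv L v from ⟨z * a, ha, by rw [map_mul]; ring⟩)]
        rw [md_mul] at ha
        have h2 : (md a : ℝ≥0) = (md z)⁻¹ := eq_inv_of_mul_eq_one_right ha
        rw [h2, ENNReal.coe_inv (md_pos hz).ne']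
        simp
      · rw [Set.indicator_of_notMem (show z * a ∉ {w : L | md w = 1} from ha),
          Set.indicator_of_notMem]
        · simp
        · rintro ⟨w, hw, h3⟩
          apply ha
          have h4 : Algebra.norm K (z * a) = Algebra.norm K w := by
            rw [map_mul]
            apply mul_left_cancel₀ hv
            linear_combination h3
          rw [← md_nm hq, h4, md_nm hq, hw]
    rw [lintegral_congr h1, lintegral_const_mul' _ _ (by
      rw [← ENNReal.coe_inv (md_pos hz).ne']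
      exact ENNReal.coe_ne_top), lint_mul μ hz,
      lintegral_indicator_one (isCompact_sphere_md.isClosed.measurableSet)]
    have hz' : (md z : ℝ≥0∞) ≠ 0 := by exact_mod_cast (md_pos hz).ne'
    have hv' : (md v : ℝ≥0∞) ≠ 0 := by exact_mod_cast (md_pos hv).ne'
    rw [md_mul, md_nm hq, ENNReal.coe_mul, ENNReal.mul_inv (Or.inl hv') (Or.inl ENNReal.coe_ne_top),
      mul_pow, kp]
    have h5 : (md v : ℝ≥0∞) * (md v : ℝ≥0∞)⁻¹ = 1 :=
      ENNReal.mul_inv_cancel hv' ENNReal.coe_ne_top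
    calc (md z : ℝ≥0∞)⁻¹ * ((md z : ℝ≥0∞)⁻¹ * μ {w : L | md w = 1}) =
        (1 ^ 2) * (μ {w : L | md w = 1} * ((md z : ℝ≥0∞)⁻¹) ^ 2) := by ring
      _ = _ := by rw [← h5]; ring
  · rw [mul_zero]
    apply lintegral_eq_zero_of_ae_eq_zero
    refine Filter.Eventually.of_forall fun a => ?_
    show (md a : ℝ≥0∞) * (Sv L v).indicator 1 (Algebra.norm K a * u) = 0
    rw [Set.indicator_of_notMem, mul_zero]
    rintro ⟨w, hw, h3⟩
    have hw0 : w ≠ 0 := by
      rintro rfl
      rw [md_zero] at hw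
      exact zero_ne_one hw
    have ha0 : a ≠ 0 := by
      rintro rfl
      rw [nm_zero hq, zero_mul] at h3
      exact mul_ne_zero hv (nm_ne hw0) h3.symm
    apply h
    rw [← om_mul_norm hom hu ha0, mul_comm, h3, om_mul_norm hom hv hw0]

/-- Polar decomposition. -/
theorem Vv_eq (hq : QuadDatum sg δ d) (ht0 : t₀ ≠ 0) (hnt : ¬ ∃ y : L, Algebra.norm K y = t₀)
    {om : K → ℂ} (hom : OmChar K L om) (μ : Measure L) [μ.IsAddHaarMeasure] {v : K} (hv : v ≠ 0) :
    Vv μ t₀ v = kp μ * (md v : ℝ≥0∞) ^ 2 * Pe μ t₀ om (om v) := by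
  borelize K
  have hnc := nm_cont hq
  have h1 : Vv μ t₀ v = ∫⁻ a : L, ∫⁻ b : L, (md a : ℝ≥0∞) *
      (Sv L v).indicator 1 (Algebra.norm K a * ub L t₀ b) ∂μ ∂μ := by
    unfold Vv
    apply lintegral_congr_ae
    filter_upwards [ae_ne_zero μ] with a ha
    rw [lint_mul' μ ha, lintegral_const_mul' _ _ ENNReal.coe_ne_top]
    congr 1
    apply lintegral_congr
    intro b
    congr 1
    rw [ub, map_mul]
    ring
  rw [h1, lintegral_lintegral_swap]
  · have h2 : ∀ b : L, ∫⁻ a : L, (md a : ℝ≥0∞) *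
        (Sv L v).indicator 1 (Algebra.norm K a * ub L t₀ b) ∂μ =
        kp μ * (md v : ℝ≥0∞) ^ 2 *
          (if om (ub L t₀ b) = om v then ((md (ub L t₀ b) : ℝ≥0∞)⁻¹) ^ 2 else 0) :=
      fun b => inner_eq hq hom μ (ub_ne hq ht0 hnt b) hv
    rw [lintegral_congr h2, lintegral_const_mul', Pe]
    exact ENNReal.mul_ne_top (kp_ne_top μ) (ENNReal.pow_ne_top ENNReal.coe_ne_top)
  · apply Measurable.aemeasurable
    apply Measurable.mul
    · exact (continuous_md.measurable.comp measurable_fst).coe_nnreal_ennreal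
    · apply meas_ind hq
      apply Measurable.mul
      · exact hnc.measurable.comp measurable_fst
      · exact (ub_cont hq t₀).measurable.comp measurable_snd

/-- Invariance. -/
theorem Vv_inv (hq : QuadDatum sg δ d) (μ : Measure L) [μ.IsAddHaarMeasure] (β : L)
    (hν : ub L t₀ β ≠ 0) :
    Vv μ t₀ (ub L t₀ β) = (md (ub L t₀ β) : ℝ≥0∞) ^ 2 * Vv μ t₀ (1 : K) := by
  borelize K
  have hnc := nm_cont hq
  set v := ub L t₀ β with hv
  have hvL : algebraMap K L v ≠ 0 := fun h => hν ((map_eq_zero _).1 h)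
  set c : L := algebraMap K L t₀ * sg β with hc
  set f : L → L → ℝ≥0∞ := fun a b =>
    (Sv L v).indicator 1 (Algebra.norm K a - t₀ * Algebra.norm K b) with hf
  have hfm : Measurable (Function.uncurry f) := by
    apply meas_ind hq
    apply Measurable.sub
    · exact hnc.measurable.comp measurable_fst
    · exact (hnc.measurable.comp measurable_snd).const_mul _
  have hββ : c * β = algebraMap K L (t₀ * Algebra.norm K β) := by
    rw [map_mul, hq.norm_eq, hc]
    ring
  have key : ∀ a b : L, f (a + c * b) (β * a + b) = (Sv L (1 : K)).indicator 1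
      (Algebra.norm K a - t₀ * Algebra.norm K b) := by
    intro a b
    have h1 : Algebra.norm K (a + c * b) - t₀ * Algebra.norm K (β * a + b) =
        v * (Algebra.norm K a - t₀ * Algebra.norm K b) := by
      apply (algebraMap K L).injective
      have hss := sig_sig hq β
      rw [hv, ub]
      simp only [map_sub, map_mul, map_one, hq.norm_eq, map_add, hc, AlgEquiv.commutes, hss]
      ring
    rw [hf]
    show (Sv L v).indicator 1 (Algebra.norm K (a + c * b) - t₀ * Algebra.norm K (β * a + b)) = _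
    rw [h1]
    by_cases h2 : Algebra.norm K a - t₀ * Algebra.norm K b ∈ Sv L (1 : K)
    · rw [Set.indicator_of_mem h2, Set.indicator_of_mem]
      · rfl
      · obtain ⟨z, hz, h3⟩ := h2
        exact ⟨z, hz, by rw [h3, one_mul]⟩
    · rw [Set.indicator_of_notMem h2, Set.indicator_of_notMem]
      rintro ⟨z, hz, h3⟩
      exact h2 ⟨z, hz, by rw [one_mul]; exact mul_left_cancel₀ hν h3⟩
  have h1 : Vv μ t₀ (1 : K) = ∫⁻ a : L, ∫⁻ b : L, f (a + c * b) (β * a + b) ∂μ ∂μ := by
    unfold Vv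
    apply lintegral_congr
    intro a
    apply lintegral_congr
    intro b
    exact (key a b).symm
  have hm1 : Measurable (Function.uncurry fun a b => f (a + c * b) (β * a + b)) := by
    show Measurable fun p : L × L => Function.uncurry f (p.1 + c * p.2, β * p.1 + p.2)
    apply hfm.comp
    fun_prop
  have hm2 : Measurable (Function.uncurry fun b a => f a (β * a + algebraMap K L v * b)) := by
    show Measurable fun p : L × L => Function.uncurry f (p.2, β * p.2 + algebraMap K L v * p.1)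
    apply hfm.comp
    fun_prop
  have h2 : Vv μ t₀ (1 : K) = (md (algebraMap K L v) : ℝ≥0∞)⁻¹ * Vv μ t₀ v := by
    rw [h1, lintegral_lintegral_swap hm1.aemeasurable]
    have h3 : ∀ b : L, ∫⁻ a : L, f (a + c * b) (β * a + b) ∂μ =
        ∫⁻ a : L, f a (β * a + algebraMap K L v * b) ∂μ := by
      intro b
      rw [← lintegral_add_right_eq_self (fun a => f a (β * a + algebraMap K L v * b)) (c * b)]
      apply lintegral_congr
      intro a
      congr 1
      rw [hv, ub, map_sub, map_one, ← hββ]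
      ring
    rw [lintegral_congr h3, lintegral_lintegral_swap hm2.aemeasurable]
    have h4 : ∀ a : L, ∫⁻ b : L, f a (β * a + algebraMap K L v * b) ∂μ =
        (md (algebraMap K L v) : ℝ≥0∞)⁻¹ * ∫⁻ b : L, f a b ∂μ := by
      intro a
      rw [lint_mul μ hvL (fun y => f a (β * a + y)), lintegral_add_left_eq_self (f a) (β * a)]
    rw [lintegral_congr h4, lintegral_const_mul']
    · rfl
    · rw [← ENNReal.coe_inv (md_pos hvL).ne']
      exact ENNReal.coe_ne_top
  rw [h2, md_alg hq, ← mul_assoc]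
  have h5 : (md v : ℝ≥0∞) ^ 2 * (((md v ^ 2 : ℝ≥0) : ℝ≥0∞))⁻¹ = 1 := by
    push_cast
    apply ENNReal.mul_inv_cancel
    · apply pow_ne_zero
      exact_mod_cast (md_pos hν).ne'
    · exact ENNReal.pow_ne_top ENNReal.coe_ne_top
  rw [h5, one_mul]

theorem Pe_eq (hq : QuadDatum sg δ d) (ht0 : t₀ ≠ 0) (hnt : ¬ ∃ y : L, Algebra.norm K y = t₀)
    {om : K → ℂ} (hom : OmChar K L om) (μ : Measure L) [μ.IsAddHaarMeasure] (β : L)
    (hβ : om (ub L t₀ β) = -1) : Pe μ t₀ om (-1) = Pe μ t₀ om 1 := by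
  have hν := ub_ne hq ht0 hnt β
  have h1 := Vv_inv hq μ β hν
  have h0 : om 1 = 1 := by
    have := hom.norm 1 one_ne_zero
    rwa [map_one] at this
  rw [Vv_eq hq ht0 hnt hom μ hν, Vv_eq hq ht0 hnt hom μ one_ne_zero, hβ, h0, md_one] at h1
  have hm : (md (ub L t₀ β) : ℝ≥0∞) ^ 2 ≠ 0 := by
    apply pow_ne_zero
    exact_mod_cast (md_pos hν).ne'
  have hm' : (md (ub L t₀ β) : ℝ≥0∞) ^ 2 ≠ ∞ := ENNReal.pow_ne_top ENNReal.coe_ne_top
  have h2 : (kp μ * (md (ub L t₀ β) : ℝ≥0∞) ^ 2) * Pe μ t₀ om (-1) =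
      (kp μ * (md (ub L t₀ β) : ℝ≥0∞) ^ 2) * Pe μ t₀ om 1 := by
    rw [h1]
    push_cast
    ring
  exact (ENNReal.mul_right_inj (mul_ne_zero (kp_ne_zero μ) hm)
    (ENNReal.mul_ne_top (kp_ne_top μ) hm')).1 h2

end quad

end SpW
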