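import Pool.Agent.Work.MP_3615d2_al.Integ2

/-!
MP_3615d2_al, A11 (part 5): the function `hh(y, b) = om(1 - c^2) |1 - c^2|^-2` on `K × L`.
-/

open MeasureTheory Measure Filter Topology
open scoped NNReal ENNReal Pointwise

namespace SpW

set_option linter.unusedSectionVars false

section quad

variable {K L : Type} [NontriviallyNormedField K] [IsUltrametricDist K] [ProperSpace K]
  [NontriviallyNormedField L] [NormedAlgebra K L] [IsUltrametricDist L] [ProperSpace L]
  {sg : L ≃ₐ[K] L} {δ : L} {d t₀ : K}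

/-- `om(x) |x|^-2`. -/
noncomputable def gg (om : K → ℂ) (x : K) : ℂ := om x * (((md x : ℝ) : ℂ)⁻¹) ^ 2

theorem gg_cont {om : K → ℂ} (hom : OmChar K L om) : ContinuousOn (gg om) {0}ᶜ := by
  borelize K
  apply hom.cont.mul
  apply ContinuousOn.pow
  apply ContinuousOn.inv₀
  · exact (Complex.continuous_ofReal.comp (NNReal.continuous_coe.comp continuous_md)).continuousOn
  · intro x hx
    have h1 := md_pos (show x ≠ 0 from hx)
    have h2 : (0 : ℝ) < (md x : ℝ) := h1
    exact_mod_cast h2.ne'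

theorem gg_mul {om : K → ℂ} (hom : OmChar K L om) {x y : K} (hx : x ≠ 0) (hy : y ≠ 0) :
    gg om (x * y) = gg om x * gg om y := by
  unfold gg
  rw [hom.mul x y hx hy, md_mul]
  push_cast
  rw [mul_inv]
  ring

theorem gg_norm (hq : QuadDatum sg δ d) {om : K → ℂ} (hom : OmChar K L om) {x : K} (hx : x ≠ 0) :
    ‖gg om x‖ = ((md x : ℝ)⁻¹) ^ 2 := by
  unfold gg
  rw [norm_mul, norm_pow, norm_inv]
  have h1 : ‖om x‖ = 1 := by
    rcases om_val hq hom x hx with ⟨h, _⟩ | ⟨h, _⟩ <;> rw [h] <;> simp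
  rw [h1, one_mul, Complex.norm_real, Real.norm_of_nonneg (NNReal.coe_nonneg _)]

theorem gg_enorm (hq : QuadDatum sg δ d) {om : K → ℂ} (hom : OmChar K L om) {x : K} (hx : x ≠ 0) :
    ‖gg om x‖ₑ = ((md x : ℝ≥0∞)⁻¹) ^ 2 := by
  rw [← ofReal_norm, gg_norm hq hom hx, ← ENNReal.coe_inv (md_pos hx).ne',
    ← ENNReal.coe_pow]
  rw [show ((md x : ℝ)⁻¹) ^ 2 = (((md x)⁻¹ ^ 2 : ℝ≥0) : ℝ) by push_cast; rfl,
    ENNReal.ofReal_coe_nnreal]

variable [MeasurableSpace L] [BorelSpace L]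

theorem C_zero (hq : QuadDatum sg δ d) (ht0 : t₀ ≠ 0) (hnt : ¬ ∃ y : L, Algebra.norm K y = t₀)
    {om : K → ℂ} (hom : OmChar K L om) (μ : Measure L) [μ.IsAddHaarMeasure] (β : L)
    (hβ : om (ub L t₀ β) = -1) : ∫ b : L, gg om (ub L t₀ b) ∂μ = 0 := by
  classical
  have hne := ub_ne hq ht0 hnt
  have hcont : Continuous fun b : L => gg om (ub L t₀ b) :=
    (gg_cont hom).comp_continuous (ub_cont hq t₀) (fun b => hne b)
  have homc : Continuous fun b : L => om (ub L t₀ b) :=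
    hom.cont.comp_continuous (ub_cont hq t₀) (fun b => hne b)
  have hmd : Continuous fun b : L => (md (ub L t₀ b) : ℝ≥0) := by
    borelize K
    exact continuous_md.comp (ub_cont hq t₀)
  have hmd' : Measurable fun b : L => ((md (ub L t₀ b) : ℝ≥0∞)⁻¹) ^ 2 :=
    hmd.measurable.coe_nnreal_ennreal.inv.pow_const 2
  set P : ℂ → L → ℝ≥0∞ := fun e b =>
    if om (ub L t₀ b) = e then ((md (ub L t₀ b) : ℝ≥0∞)⁻¹) ^ 2 else 0 with hP
  have hPm : ∀ e, Measurable (P e) := by
    intro e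
    exact Measurable.ite (homc.measurable (measurableSet_singleton e)) hmd' measurable_const
  have hPe : ∀ e, Pe μ t₀ om e = ∫⁻ b, P e b ∂μ := fun e => rfl
  have hPfin : ∀ e, ∫⁻ b, P e b ∂μ ≠ ∞ := by
    intro e
    apply ne_top_of_le_ne_top (fin_L hq ht0 hnt μ).ne
    apply lintegral_mono
    intro b
    show P e b ≤ _
    rw [hP]
    show (if om (ub L t₀ b) = e then ((md (ub L t₀ b) : ℝ≥0∞)⁻¹) ^ 2 else 0) ≤ _
    split_ifs
    · exact le_rfl
    · exact zero_le
  have hint : ∀ e, Integrable (fun b => (P e b).toReal) μ := fun e =>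
    integrable_toReal_of_lintegral_ne_top (hPm e).aemeasurable (hPfin e)
  have h1 : ∀ b, gg om (ub L t₀ b) = (((P 1 b).toReal - (P (-1) b).toReal : ℝ) : ℂ) := by
    intro b
    have hx := hne b
    have hval : (((md (ub L t₀ b) : ℝ≥0∞)⁻¹) ^ 2).toReal = ((md (ub L t₀ b) : ℝ)⁻¹) ^ 2 := by
      rw [ENNReal.toReal_pow, ENNReal.toReal_inv, ENNReal.coe_toReal]
    rcases om_val hq hom (ub L t₀ b) hx with ⟨h, _⟩ | ⟨h, _⟩
    · have h2 : P 1 b = ((md (ub L t₀ b) : ℝ≥0∞)⁻¹) ^ 2 := if_pos h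
      have h3 : P (-1) b = 0 := by
        apply if_neg
        rw [h]
        norm_num
      rw [h2, h3, hval, gg, h]
      push_cast
      simp
    · have h2 : P (-1) b = ((md (ub L t₀ b) : ℝ≥0∞)⁻¹) ^ 2 := if_pos h
      have h3 : P 1 b = 0 := by
        apply if_neg
        rw [h]
        norm_num
      rw [h2, h3, hval, gg, h]
      push_cast
      simp
  rw [integral_congr_ae (Filter.Eventually.of_forall h1), integral_complex_ofReal,
    integral_sub (hint 1) (hint (-1)),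
    integral_toReal (hPm 1).aemeasurable (ae_lt_top (hPm 1) (hPfin 1)),
    integral_toReal (hPm (-1)).aemeasurable (ae_lt_top (hPm (-1)) (hPfin (-1))), ← hPe, ← hPe,
    Pe_eq hq ht0 hnt hom μ β hβ, sub_self, Complex.ofReal_zero]

end quad

end SpW
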