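import Pool.Agent.Work.MP_3615d2_al.Integ3

/-!
MP_3615d2_al, A11 (part 6): integrals of `hh(y, b) = om(1 - c^2) |1 - c^2|^-2` over `K × L`.
-/

open MeasureTheory Measure Filter Topology
open scoped NNReal ENNReal Pointwise

namespace SpW

set_option linter.unusedSectionVars false

section quad

variable {K L : Type} [NontriviallyNormedField K] [IsUltrametricDist K] [ProperSpace K]
  [NontriviallyNormedField L] [NormedAlgebra K L] [IsUltrametricDist L] [ProperSpace L]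
  {sg : L ≃ₐ[K] L} {δ : L} {d t₀ : K}

/-- `1 + y δ`. -/
noncomputable def yd (δ : L) (y : K) : L := 1 + algebraMap K L y * δ

theorem nm_yd (hq : QuadDatum sg δ d) (y : K) : Algebra.norm K (yd δ y) = 1 - d * y ^ 2 := by
  apply (algebraMap K L).injective
  rw [hq.norm_eq, yd]
  simp only [map_add, map_mul, map_one, map_sub, map_pow, AlgEquiv.commutes, hq.sig]
  rw [← hq.sq]
  ring

theorem my_ne (hq : QuadDatum sg δ d) (y : K) : 1 - d * y ^ 2 ≠ 0 := by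
  obtain ⟨c, hc, h⟩ := lower_K hq
  intro h0
  have h1 := (h y).1
  rw [h0, md_zero] at h1
  exact absurd h1 (not_le.2 hc)

theorem yd_ne (hq : QuadDatum sg δ d) (y : K) : yd δ y ≠ 0 := by
  intro h
  have h1 := nm_yd hq y
  rw [h, nm_zero hq] at h1
  exact my_ne hq y h1.symm

theorem sub_csq (hq : QuadDatum sg δ d) (y : K) (b : L) :
    1 - csq d t₀ y (yd δ y * b) = (1 - d * y ^ 2) * ub L t₀ b := by
  rw [csq, map_mul, nm_yd hq, ub]
  ring

theorem sub_csq_ne (hq : QuadDatum sg δ d) (ht0 : t₀ ≠ 0)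
    (hnt : ¬ ∃ y : L, Algebra.norm K y = t₀) (y : K) (b : L) : 1 - csq d t₀ y b ≠ 0 := by
  have h := sub_csq (t₀ := t₀) hq y ((yd δ y)⁻¹ * b)
  rw [mul_inv_cancel_left₀ (yd_ne hq y)] at h
  rw [h]
  exact mul_ne_zero (my_ne hq y) (ub_ne hq ht0 hnt _)

/-- The function on `D^0`. -/
noncomputable def hh (om : K → ℂ) (d t₀ : K) (c : K × L) : ℂ := gg om (1 - csq d t₀ c.1 c.2)

theorem csq_cont (hq : QuadDatum sg δ d) (t₀ : K) :
    Continuous fun c : K × L => 1 - csq d t₀ c.1 c.2 := by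
  have h := (nm_cont hq).comp (continuous_snd (X := K) (Y := L))
  have h2 : Continuous fun c : K × L => Algebra.norm K c.2 := h
  unfold csq
  fun_prop

theorem hh_cont (hq : QuadDatum sg δ d) (ht0 : t₀ ≠ 0) (hnt : ¬ ∃ y : L, Algebra.norm K y = t₀)
    {om : K → ℂ} (hom : OmChar K L om) : Continuous (hh om d t₀ : K × L → ℂ) :=
  (gg_cont hom).comp_continuous (csq_cont hq t₀) (fun c => sub_csq_ne hq ht0 hnt c.1 c.2)

variable [MeasurableSpace K] [BorelSpace K] [MeasurableSpace L] [BorelSpace L]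

/-- The inner integral of `|hh|`. -/
theorem lint_hh (hq : QuadDatum sg δ d) (ht0 : t₀ ≠ 0) (hnt : ¬ ∃ y : L, Algebra.norm K y = t₀)
    {om : K → ℂ} (hom : OmChar K L om) (μ : Measure L) [μ.IsAddHaarMeasure] (y : K) :
    ∫⁻ b : L, ‖(hh om d t₀ (y, b) : ℂ)‖ₑ ∂μ =
      (md (1 - d * y ^ 2) : ℝ≥0∞)⁻¹ * ∫⁻ b : L, ((md (ub L t₀ b) : ℝ≥0∞)⁻¹) ^ 2 ∂μ := by
  have hm0 := my_ne hq y
  have hm1 : (md (1 - d * y ^ 2) : ℝ≥0∞) ≠ 0 := by exact_mod_cast (md_pos hm0).ne'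
  rw [lint_mul' μ (yd_ne hq y)]
  have h1 : ∀ b : L, ‖(hh om d t₀ (y, yd δ y * b) : ℂ)‖ₑ =
      ((md (1 - d * y ^ 2) : ℝ≥0∞)⁻¹) ^ 2 * ((md (ub L t₀ b) : ℝ≥0∞)⁻¹) ^ 2 := by
    intro b
    rw [hh]
    show ‖gg om (1 - csq d t₀ y (yd δ y * b))‖ₑ = _
    rw [sub_csq hq, gg_mul hom hm0 (ub_ne hq ht0 hnt b), enorm_mul, gg_enorm hq hom hm0,
      gg_enorm hq hom (ub_ne hq ht0 hnt b)]
  rw [lintegral_congr h1, lintegral_const_mul', ← md_nm hq, nm_yd hq, ← mul_assoc]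
  · congr 1
    rw [sq (md (1 - d * y ^ 2) : ℝ≥0∞)⁻¹, ← mul_assoc,
      ENNReal.mul_inv_cancel hm1 ENNReal.coe_ne_top, one_mul]
  · apply ENNReal.pow_ne_top
    exact ENNReal.inv_ne_top.2 hm1

theorem int_hh (hq : QuadDatum sg δ d) (ht0 : t₀ ≠ 0) (hnt : ¬ ∃ y : L, Algebra.norm K y = t₀)
    {om : K → ℂ} (hom : OmChar K L om) (μ : Measure L) [μ.IsAddHaarMeasure]
    (β : L) (hβ : om (ub L t₀ β) = -1) (y : K) :
    ∫ b : L, (hh om d t₀ (y, b) : ℂ) ∂μ = 0 := by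
  have hm0 := my_ne hq y
  have h0 := int_mul μ (yd_ne hq y) (fun b => hh om d t₀ (y, b))
  have h1 : ∀ b : L, (hh om d t₀ (y, yd δ y * b) : ℂ) =
      gg om (1 - d * y ^ 2) * gg om (ub L t₀ b) := by
    intro b
    rw [hh]
    show gg om (1 - csq d t₀ y (yd δ y * b)) = _
    rw [sub_csq hq, gg_mul hom hm0 (ub_ne hq ht0 hnt b)]
  rw [integral_congr_ae (Filter.Eventually.of_forall h1), integral_const_mul,
    C_zero hq ht0 hnt hom μ β hβ, mul_zero] at h0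
  rcases mul_eq_zero.1 h0.symm with h | h
  · exfalso
    have h2 := md_pos (yd_ne hq y)
    have h3 : (0 : ℝ) < md (yd δ y) := h2
    exact inv_ne_zero (by exact_mod_cast h3.ne') h
  · exact h

theorem integrable_hh (hq : QuadDatum sg δ d) (ht0 : t₀ ≠ 0)
    (hnt : ¬ ∃ y : L, Algebra.norm K y = t₀) {om : K → ℂ} (hom : OmChar K L om)
    (μK : Measure K) [μK.IsAddHaarMeasure] (μ : Measure L) [μ.IsAddHaarMeasure] :
    Integrable (hh om d t₀ : K × L → ℂ) (μK.prod μ) := by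
  have hc := hh_cont hq ht0 hnt hom
  refine ⟨hc.aestronglyMeasurable, ?_⟩
  rw [hasFiniteIntegral_iff_enorm, lintegral_prod _ hc.enorm.measurable.aemeasurable]
  rw [lintegral_congr (lint_hh hq ht0 hnt hom μ)]
  have hP : ∫⁻ b : L, ((md (ub L t₀ b) : ℝ≥0∞)⁻¹) ^ 2 ∂μ < ∞ := fin_L hq ht0 hnt μ
  rw [lintegral_mul_const' _ _ hP.ne]
  exact ENNReal.mul_lt_top (fin_K hq μK) hP

/-- `∫ χ(y) hh(y, b) = 0`. -/
theorem int_chi_hh (hq : QuadDatum sg δ d) (ht0 : t₀ ≠ 0)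
    (hnt : ¬ ∃ y : L, Algebra.norm K y = t₀) {om : K → ℂ} (hom : OmChar K L om)
    (μK : Measure K) [μK.IsAddHaarMeasure] (μ : Measure L) [μ.IsAddHaarMeasure]
    (β : L) (hβ : om (ub L t₀ β) = -1) (χ : K → ℂ) (hχ : Continuous χ) (h1 : ∀ y, ‖χ y‖ ≤ 1) :
    ∫ c : K × L, χ c.1 * hh om d t₀ c ∂(μK.prod μ) = 0 := by
  have hI : Integrable (fun c : K × L => χ c.1 * hh om d t₀ c) (μK.prod μ) := by
    apply (integrable_hh hq ht0 hnt hom μK μ).bdd_mul (c := 1)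
    · exact (hχ.comp continuous_fst).aestronglyMeasurable
    · exact Filter.Eventually.of_forall fun c => h1 c.1
  rw [integral_prod _ hI]
  have h2 : ∀ y : K, ∫ b : L, χ y * hh om d t₀ (y, b) ∂μ = 0 := by
    intro y
    rw [integral_const_mul, int_hh hq ht0 hnt hom μ β hβ y, mul_zero]
  rw [integral_congr_ae (Filter.Eventually.of_forall h2), integral_zero]

end quad

end SpW
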