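import Pool.Agent.Work.MP_3615d2_al.Integ4

/-!
MP_3615d2_al, A11 (part 7): conjugation by `w` on `D^0 = K × L`.
-/

open MeasureTheory Measure Filter Topology
open scoped NNReal ENNReal Pointwise

namespace SpW

set_option linter.unusedSectionVars false

section alg

variable {K L : Type} [Field K] [Field L] [Algebra K L]
  {sg : L ≃ₐ[K] L} {δ : L} {d t₀ : K}

/-- `Nrd(a₁ + a₂ J)`. -/
noncomputable def nw (t₀ : K) (a : L × L) : K := Algebra.norm K a.1 - t₀ * Algebra.norm K a.2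

/-- `c ↦ w c w̄` for `w = a₁ + a₂ J`. -/
noncomputable def Tw0 (sg : L ≃ₐ[K] L) (δ : L) (d t₀ : K) (a : L × L) :
    (K × L) →ₗ[K] (K × L) where
  toFun c := (c.1 * (Algebra.norm K a.1 + t₀ * Algebra.norm K a.2)
      - (t₀ / d) * Algebra.trace K L (δ * c.2 * a.1 * sg a.2),
    a.1 ^ 2 * c.2 - 2 * a.1 * a.2 * (algebraMap K L c.1 * δ)
      - algebraMap K L t₀ * a.2 ^ 2 * sg c.2)
  map_add' x y := by
    apply Prod.ext
    · simp only [Prod.fst_add, Prod.snd_add]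
      rw [show δ * (x.2 + y.2) * a.1 * sg a.2 = δ * x.2 * a.1 * sg a.2 +
        δ * y.2 * a.1 * sg a.2 by ring, map_add]
      ring
    · simp only [Prod.fst_add, Prod.snd_add, map_add]
      ring
  map_smul' r x := by
    apply Prod.ext
    · simp only [Prod.smul_fst, Prod.smul_snd, RingHom.id_apply, smul_eq_mul]
      rw [show δ * (r • x.2) * a.1 * sg a.2 = r • (δ * x.2 * a.1 * sg a.2) by
        simp only [Algebra.smul_def]; ring, map_smul, smul_eq_mul]
      ring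
    · simp only [Prod.smul_fst, Prod.smul_snd, RingHom.id_apply, smul_eq_mul, map_smul]
      simp only [Algebra.smul_def, map_mul]
      ring

theorem csqA (hq : QuadDatum sg δ d) (a : L × L) (c : K × L) :
    d * ((Tw0 sg δ d t₀ a c).1) ^ 2 + t₀ * Algebra.norm K ((Tw0 sg δ d t₀ a c).2) =
      (nw t₀ a) ^ 2 * (d * c.1 ^ 2 + t₀ * Algebra.norm K c.2) := by
  apply (algebraMap K L).injective
  have hd : algebraMap K L d = δ * δ := hq.sq.symm
  have hδ : δ ≠ 0 := hq.ne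
  have h1 := sig_sig hq a.2
  have h2 := sig_sig hq c.2
  simp only [Tw0, nw, LinearMap.coe_mk, AddHom.coe_mk, map_add, map_mul, map_pow, map_sub,
    hq.norm_eq, map_div₀, hq.trace_eq, AlgEquiv.commutes, h1, h2, hq.sig, hd, map_ofNat]
  field_simp
  ring

/-- The reduced norm is anisotropic. -/
theorem nw_ne (hq : QuadDatum sg δ d) (hnt : ¬ ∃ y : L, Algebra.norm K y = t₀) {a : L × L}
    (ha : a ≠ 0) : nw t₀ a ≠ 0 := by
  have hfin := hq.finite
  intro h
  have h1 : Algebra.norm K a.1 = t₀ * Algebra.norm K a.2 := sub_eq_zero.1 h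
  by_cases h2 : a.2 = 0
  · rw [h2, Algebra.norm_zero, mul_zero] at h1
    apply ha
    apply Prod.ext _ h2
    exact Algebra.norm_eq_zero_iff.1 h1
  · apply hnt
    refine ⟨a.1 * (a.2)⁻¹, ?_⟩
    have h3 : Algebra.norm K a.2 * Algebra.norm K (a.2)⁻¹ = 1 := by
      rw [← map_mul, mul_inv_cancel₀ h2, map_one]
    rw [map_mul, h1, mul_assoc, h3, mul_one]

/-- `c^2` is anisotropic on `D^0`. -/
theorem csq_aniso (hq : QuadDatum sg δ d)
    (hnt : ¬ ∃ y : L, Algebra.norm K y = t₀) {c : K × L}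
    (h : d * c.1 ^ 2 + t₀ * Algebra.norm K c.2 = 0) : c = 0 := by
  have hfin := hq.finite
  have h1 : nw t₀ (algebraMap K L c.1 * δ, c.2) = 0 := by
    rw [nw]
    have h2 : Algebra.norm K (algebraMap K L c.1 * δ) = -(d * c.1 ^ 2) := by
      apply (algebraMap K L).injective
      rw [hq.norm_eq, map_mul, AlgEquiv.commutes, hq.sig, map_neg, map_mul, map_pow, ← hq.sq]
      ring
    show Algebra.norm K (algebraMap K L c.1 * δ) - t₀ * Algebra.norm K c.2 = 0
    rw [h2]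
    linear_combination -h
  by_contra hc
  apply nw_ne hq hnt (a := (algebraMap K L c.1 * δ, c.2)) _ h1
  intro h3
  apply hc
  have h4 : algebraMap K L c.1 * δ = 0 := congrArg Prod.fst h3
  have h5 : c.2 = 0 := congrArg Prod.snd h3
  apply Prod.ext _ h5
  rcases mul_eq_zero.1 h4 with h6 | h6
  · exact (map_eq_zero _).1 h6
  · exact absurd h6 hq.ne

/-- `c ↦ w c w⁻¹`. -/
noncomputable def Tw (sg : L ≃ₐ[K] L) (δ : L) (d t₀ : K) (a : L × L) :
    (K × L) →ₗ[K] (K × L) := (nw t₀ a)⁻¹ • Tw0 sg δ d t₀ a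

theorem csqB (hq : QuadDatum sg δ d) (hnt : ¬ ∃ y : L, Algebra.norm K y = t₀) {a : L × L}
    (ha : a ≠ 0) (c : K × L) :
    d * ((Tw sg δ d t₀ a c).1) ^ 2 + t₀ * Algebra.norm K ((Tw sg δ d t₀ a c).2) =
      d * c.1 ^ 2 + t₀ * Algebra.norm K c.2 := by
  have hfin := hq.finite
  have h1 := csqA (t₀ := t₀) hq a c
  have hn := nw_ne hq hnt ha
  rw [Tw]
  simp only [LinearMap.smul_apply, Prod.smul_fst, Prod.smul_snd, smul_eq_mul]
  rw [Algebra.smul_def, map_mul, Algebra.norm_algebraMap, hq.rank]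
  have h2 : (nw t₀ a)⁻¹ ^ 2 * (nw t₀ a) ^ 2 = 1 := by
    rw [← mul_pow, inv_mul_cancel₀ hn, one_pow]
  linear_combination ((nw t₀ a)⁻¹ ^ 2) * h1 + (d * c.1 ^ 2 + t₀ * Algebra.norm K c.2) * h2

theorem Tw_inj (hq : QuadDatum sg δ d) (hnt : ¬ ∃ y : L, Algebra.norm K y = t₀)
    {a : L × L} (ha : a ≠ 0) : Function.Injective (Tw sg δ d t₀ a) := by
  rw [injective_iff_map_eq_zero]
  intro c hc
  apply csq_aniso hq hnt
  rw [← csqB hq hnt ha c, hc]
  have hfin := hq.finite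
  simp [Algebra.norm_zero]

/-- `Trd(c w̄ δ w) = 2 d Nrd(w) y(w c w⁻¹)`. -/
theorem trd_eq (hq : QuadDatum sg δ d) (hnt : ¬ ∃ y : L, Algebra.norm K y = t₀)
    {a : L × L} (ha : a ≠ 0) (y : K) (b : L) :
    2 * d * y * (Algebra.norm K a.1 + t₀ * Algebra.norm K a.2)
    - 2 * t₀ * Algebra.trace K L (δ * b * a.1 * sg a.2) =
      2 * d * nw t₀ a * (Tw sg δ d t₀ a (y, b)).1 := by
  have hn := nw_ne hq hnt ha
  have hd := hq.d_ne
  rw [Tw]
  simp only [LinearMap.smul_apply, Prod.smul_fst, smul_eq_mul, Tw0, LinearMap.coe_mk,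
    AddHom.coe_mk]
  field_simp

end alg

end SpW
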