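import Pool.Agent.Work.MP_3615d2_al.Integ5

/-!
MP_3615d2_al, A11 (part 8): the identity `(*)` forces `k = 0`.
-/

open MeasureTheory Measure Filter Topology
open scoped NNReal ENNReal Pointwise

namespace SpW

set_option linter.unusedSectionVars false

section quad

variable {K L : Type} [NontriviallyNormedField K] [IsUltrametricDist K] [ProperSpace K]
  [NontriviallyNormedField L] [NormedAlgebra K L] [IsUltrametricDist L] [ProperSpace L]
  {sg : L ≃ₐ[K] L} {δ : L} {d t₀ : K}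

theorem hh_Tw (hq : QuadDatum sg δ d) (hnt : ¬ ∃ y : L, Algebra.norm K y = t₀) (om : K → ℂ)
    {a : L × L} (ha : a ≠ 0) (c : K × L) :
    hh om d t₀ (Tw sg δ d t₀ a c) = hh om d t₀ c := by
  rw [hh, hh, csq, csq, csqB hq hnt ha]

variable [MeasurableSpace K] [BorelSpace K] [MeasurableSpace L] [BorelSpace L]

theorem hh_ne (hq : QuadDatum sg δ d) (ht0 : t₀ ≠ 0) (hnt : ¬ ∃ y : L, Algebra.norm K y = t₀)
    {om : K → ℂ} (hom : OmChar K L om) (c : K × L) : ‖(hh om d t₀ c : ℂ)‖ₑ ≠ 0 := by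
  have h1 := sub_csq_ne hq ht0 hnt c.1 c.2
  rw [hh, gg_enorm hq hom h1]
  apply pow_ne_zero
  exact ENNReal.inv_ne_zero.2 ENNReal.coe_ne_top

/-- Conjugation preserves Haar measure on `D^0`. -/
theorem int_Tw (hq : QuadDatum sg δ d) (ht0 : t₀ ≠ 0) (hnt : ¬ ∃ y : L, Algebra.norm K y = t₀)
    {om : K → ℂ} (hom : OmChar K L om) (μK : Measure K) [μK.IsAddHaarMeasure]
    (μ : Measure L) [μ.IsAddHaarMeasure] {a : L × L} (ha : a ≠ 0) (f : K × L → ℂ) :
    ∫ c, f (Tw sg δ d t₀ a c) ∂(μK.prod μ) = ∫ c, f c ∂(μK.prod μ) := by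
  have hfin := hq.finite
  set ρ := μK.prod μ with hρ
  let e : (K × L) ≃L[K] (K × L) :=
    (LinearEquiv.ofInjectiveEndo (Tw sg δ d t₀ a) (Tw_inj hq hnt ha)).toContinuousLinearEquiv
  have he : ∀ c, e c = Tw sg δ d t₀ a c := fun c => rfl
  have hemb : MeasurableEmbedding (e : K × L → K × L) := e.toHomeomorph.measurableEmbedding
  have hν' : (ρ.map e).IsAddHaarMeasure := ContinuousLinearEquiv.isAddHaarMeasure_map e ρ
  have h1 := isAddLeftInvariant_eq_smul (ρ.map e) ρ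
  set s := addHaarScalarFactor (ρ.map e) ρ with hs
  set g : K × L → ℝ≥0∞ := fun c => ‖(hh om d t₀ c : ℂ)‖ₑ with hg
  have hgc : Measurable g := (hh_cont hq ht0 hnt hom).enorm.measurable
  have hgI : ∫⁻ c, g c ∂ρ < ∞ := (integrable_hh hq ht0 hnt hom μK μ).2
  have hg0 : ∫⁻ c, g c ∂ρ ≠ 0 := by
    rw [Ne, lintegral_eq_zero_iff hgc]
    intro h
    have h2 : ∀ᵐ c ∂ρ, False := by
      filter_upwards [h] with c hc
      exact hh_ne hq ht0 hnt hom c hc
    rw [Filter.eventually_false_iff_eq_bot, ae_eq_bot] at h2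
    have h3 : ρ ≠ 0 := NeZero.ne ρ
    exact h3 h2
  have h2 : ∫⁻ c, g c ∂(ρ.map e) = ∫⁻ c, g c ∂ρ := by
    rw [hemb.lintegral_map]
    apply lintegral_congr
    intro c
    rw [hg]
    show ‖(hh om d t₀ (e c) : ℂ)‖ₑ = ‖(hh om d t₀ c : ℂ)‖ₑ
    rw [he, hh_Tw hq hnt om ha]
  have h3 : (s : ℝ≥0∞) * ∫⁻ c, g c ∂ρ = 1 * ∫⁻ c, g c ∂ρ := by
    rw [one_mul]
    conv_rhs => rw [← h2, h1]
    rw [lintegral_smul_measure, ENNReal.smul_def, smul_eq_mul]
  have h4 : s = 1 := by
    have := (ENNReal.mul_left_inj hg0 hgI.ne).1 h3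
    exact_mod_cast this
  rw [h4, one_smul] at h1
  have h5 := hemb.integral_map (μ := ρ) f
  rw [h1] at h5
  exact h5.symm

omit [IsUltrametricDist K] [ProperSpace K] [IsUltrametricDist L] [ProperSpace L]
  [MeasurableSpace K] [BorelSpace K] [MeasurableSpace L] [BorelSpace L] in
theorem psi_cont {X : Type} [TopologicalSpace X] {ψ : AddChar K Circle} (hψ : Continuous ψ)
    {f : X → K} (hf : Continuous f) : Continuous fun x => ((ψ (f x) : Circle) : ℂ) :=
  continuous_subtype_val.comp (hψ.comp hf)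

/-- The Fourier integral of `hh` vanishes. -/
theorem int_psi (hq : QuadDatum sg δ d) (ht0 : t₀ ≠ 0) (hnt : ¬ ∃ y : L, Algebra.norm K y = t₀)
    {om : K → ℂ} (hom : OmChar K L om) (μK : Measure K) [μK.IsAddHaarMeasure]
    (μ : Measure L) [μ.IsAddHaarMeasure] (β : L) (hβ : om (ub L t₀ β) = -1)
    {ψ : AddChar K Circle} (hψ : Continuous ψ) (a : L × L) :
    ∫ c : K × L, ((ψ (trdc sg δ d t₀ c.1 c.2 a) : Circle) : ℂ) * hh om d t₀ c ∂(μK.prod μ) = 0 := by
  by_cases ha : a = 0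
  · have h1 : ∀ c : K × L, ((ψ (trdc sg δ d t₀ c.1 c.2 a) : Circle) : ℂ) * hh om d t₀ c =
        (fun _ : K => (1 : ℂ)) c.1 * hh om d t₀ c := by
      intro c
      have hfin := hq.finite
      rw [ha, trdc]
      simp [Algebra.norm_zero]
    rw [integral_congr_ae (Filter.Eventually.of_forall h1)]
    exact int_chi_hh hq ht0 hnt hom μK μ β hβ (fun _ => 1) continuous_const
      (fun _ => by rw [norm_one])
  · have h1 : ∀ c : K × L, ((ψ (trdc sg δ d t₀ c.1 c.2 a) : Circle) : ℂ) * hh om d t₀ c =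
        ((ψ (2 * d * nw t₀ a * (Tw sg δ d t₀ a c).1) : Circle) : ℂ) *
        hh om d t₀ (Tw sg δ d t₀ a c) := by
      intro c
      rw [hh_Tw hq hnt om ha, ← trd_eq hq hnt ha c.1 c.2]
      rfl
    have h2 := int_Tw hq ht0 hnt hom μK μ ha
      (fun c : K × L => ((ψ (2 * d * nw t₀ a * c.1) : Circle) : ℂ) * hh om d t₀ c)
    have h3 := int_chi_hh hq ht0 hnt hom μK μ β hβ
      (fun y : K => ((ψ (2 * d * nw t₀ a * y) : Circle) : ℂ)) (psi_cont hψ (by fun_prop))
      (fun y => by rw [Circle.norm_coe])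
    exact (integral_congr_ae (Filter.Eventually.of_forall h1)).trans (h2.trans h3)

theorem trdc_cont (hq : QuadDatum sg δ d) (t₀ : K) :
    Continuous fun z : (K × L) × (L × L) => trdc sg δ d t₀ z.1.1 z.1.2 z.2 := by
  have hfin := hq.finite
  have hn := nm_cont hq
  have hs := sg_cont hq
  have ht : Continuous fun x : L => Algebra.trace K L x :=
    LinearMap.continuous_of_finiteDimensional (Algebra.trace K L)
  have h1 : Continuous fun z : (K × L) × (L × L) => Algebra.norm K z.2.1 :=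
    hn.comp (continuous_fst.comp continuous_snd)
  have h2 : Continuous fun z : (K × L) × (L × L) => Algebra.norm K z.2.2 :=
    hn.comp (continuous_snd.comp continuous_snd)
  have h3 : Continuous fun z : (K × L) × (L × L) =>
      Algebra.trace K L (δ * z.1.2 * z.2.1 * sg z.2.2) := by
    apply ht.comp
    have h4 : Continuous fun z : (K × L) × (L × L) => sg z.2.2 :=
      hs.comp (continuous_snd.comp continuous_snd)
    fun_prop
  unfold trdc
  fun_prop

/-- `(*)` forces `k = 0` (given `β`). -/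
theorem star_zero_of_beta (hq : QuadDatum sg δ d) (ht0 : t₀ ≠ 0)
    (hnt : ¬ ∃ y : L, Algebra.norm K y = t₀)
    {om : K → ℂ} (hom : OmChar K L om) (β : L) (hβ : om (ub L t₀ β) = -1)
    {ψ : AddChar K Circle} (hψ : Continuous ψ) {φ : L × L → ℂ} {k : ℂ} (ν : Measure (L × L))
    [SFinite ν] (hφ : Integrable φ ν) (H : StarHyp sg δ d t₀ ψ om φ k ν) : k = 0 := by
  set μK : Measure K := addHaar with hμK
  set μ : Measure L := addHaar with hμ
  set ρ := μK.prod μ with hρ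
  set f : K × L → L × L → ℂ := fun c a =>
    ((ψ (trdc sg δ d t₀ c.1 c.2 a) : Circle) : ℂ) * (hh om d t₀ c * φ a) with hf
  have hF : Integrable (Function.uncurry f) (ρ.prod ν) := by
    have h1 : Integrable (fun z : (K × L) × (L × L) => hh om d t₀ z.1 * φ z.2) (ρ.prod ν) :=
      (integrable_hh hq ht0 hnt hom μK μ).mul_prod hφ
    apply h1.bdd_mul (c := 1)
    · exact (psi_cont hψ (trdc_cont hq t₀)).aestronglyMeasurable
    · exact Filter.Eventually.of_forall fun z => by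
        show ‖((ψ _ : Circle) : ℂ)‖ ≤ 1
        rw [Circle.norm_coe]
  have h1 : ∀ c : K × L, ∫ a, f c a ∂ν =
      k * ((((md (1 - csq d t₀ c.1 c.2) : ℝ)⁻¹) ^ 3 : ℝ) : ℂ) := by
    intro c
    have hx := sub_csq_ne hq ht0 hnt c.1 c.2
    have h2 : ∀ a, f c a = hh om d t₀ c *
        (((ψ (trdc sg δ d t₀ c.1 c.2 a) : Circle) : ℂ) * φ a) := by
      intro a
      rw [hf]
      ring
    rw [integral_congr_ae (Filter.Eventually.of_forall h2), integral_const_mul, H c.1 c.2, hh, gg]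
    have h3 := om_sq hq hom _ hx
    push_cast
    linear_combination (k * ((((md (1 - csq d t₀ c.1 c.2) : ℝ) : ℂ))⁻¹) ^ 3) * h3
  have h2 : ∀ a : L × L, ∫ c, f c a ∂ρ = 0 := by
    intro a
    have h3 : ∀ c, f c a = φ a *
        (((ψ (trdc sg δ d t₀ c.1 c.2 a) : Circle) : ℂ) * hh om d t₀ c) := by
      intro c
      rw [hf]
      ring
    rw [integral_congr_ae (Filter.Eventually.of_forall h3), integral_const_mul,
      int_psi hq ht0 hnt hom μK μ β hβ hψ a, mul_zero]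
  have h3 : ∫ c, k * ((((md (1 - csq d t₀ c.1 c.2) : ℝ)⁻¹) ^ 3 : ℝ) : ℂ) ∂ρ = 0 := by
    rw [← integral_congr_ae (Filter.Eventually.of_forall h1), integral_integral_swap hF,
      integral_congr_ae (Filter.Eventually.of_forall h2), integral_zero]
  by_contra hk
  have h4 : Integrable (fun c : K × L =>
      k * ((((md (1 - csq d t₀ c.1 c.2) : ℝ)⁻¹) ^ 3 : ℝ) : ℂ)) ρ :=
    hF.integral_prod_left.congr (Filter.Eventually.of_forall h1)
  have h5 : Integrable (fun c : K × L => (((md (1 - csq d t₀ c.1 c.2) : ℝ)⁻¹) ^ 3 : ℝ)) ρ := by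
    have h6 := (h4.const_mul k⁻¹).re
    refine h6.congr (Filter.Eventually.of_forall fun c => ?_)
    show RCLike.re (k⁻¹ * (k * ((((md (1 - csq d t₀ c.1 c.2) : ℝ)⁻¹) ^ 3 : ℝ) : ℂ))) = _
    rw [inv_mul_cancel_left₀ hk]
    exact Complex.ofReal_re _
  rw [integral_const_mul, integral_complex_ofReal] at h3
  have h6 := (mul_eq_zero.1 h3).resolve_left hk
  have h7 : ∫ c : K × L, (((md (1 - csq d t₀ c.1 c.2) : ℝ)⁻¹) ^ 3 : ℝ) ∂ρ = 0 := by
    exact_mod_cast h6
  rw [integral_eq_zero_iff_of_nonneg (fun c => by positivity) h5] at h7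
  have h8 : ∀ᵐ c ∂ρ, False := by
    filter_upwards [h7] with c hc
    have h9 : (((md (1 - csq d t₀ c.1 c.2) : ℝ)⁻¹) ^ 3 : ℝ) = 0 := hc
    have h10 : (0 : ℝ) < md (1 - csq d t₀ c.1 c.2) :=
      md_pos (sub_csq_ne hq ht0 hnt c.1 c.2)
    exact (pow_pos (inv_pos.2 h10) 3).ne' h9
  rw [Filter.eventually_false_iff_eq_bot, ae_eq_bot] at h8
  exact (NeZero.ne ρ) h8

end quad

end SpW
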