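import Pool.Agent.Work.MP_3615d2_al.Integ6
import Pool.Agent.Work.MP_3615d2_al.Beta

/-!
MP_3615d2_al, A11 (final part): `(*)` forces `k = 0`.
-/

open MeasureTheory Measure Filter Topology
open scoped NNReal ENNReal Pointwise

namespace SpW

section quad

variable {K L : Type} [NontriviallyNormedField K] [IsUltrametricDist K] [ProperSpace K]
  [NontriviallyNormedField L] [NormedAlgebra K L] [IsUltrametricDist L] [ProperSpace L]
  {sg : L ≃ₐ[K] L} {δ : L} {d t₀ : K}

variable [MeasurableSpace K] [BorelSpace K] [MeasurableSpace L] [BorelSpace L]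

/-- `(*)` forces `k = 0`. -/
theorem star_zero (hq : QuadDatum sg δ d) (ht0 : t₀ ≠ 0)
    (hnt : ¬ ∃ y : L, Algebra.norm K y = t₀) {om : K → ℂ} (hom : OmChar K L om)
    {ψ : AddChar K Circle} (hψ : Continuous ψ) {φ : L × L → ℂ} {k : ℂ} (ν : Measure (L × L))
    [SFinite ν] (hφ : Integrable φ ν) (H : StarHyp sg δ d t₀ ψ om φ k ν) : k = 0 := by
  obtain ⟨β, hβ⟩ := exists_beta hq ht0 hnt hom
  exact star_zero_of_beta hq ht0 hnt hom β hβ hψ ν hφ H

end quad

end SpW
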