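import Pool.Agent.Work.MP_3615d2_al.Bridge

/-!
MP_3615d2_al: the `σ`-semilinear operator `J` of an alternating form `B`, `B(x,y) = h(x, J y)`.
Module T2.
-/

open Polynomial

namespace SpW

section

variable {F E : Type} [Field F] [Field E] [Algebra F E] {σ : E ≃ₐ[F] E} {δ : E} {d : F} {N : ℕ}
  {H B : Matrix (Fin N) (Fin N) E}

theorem Jlin_apply (y : Fin N → E) (i : Fin N) :
    Jlin σ H B y i = σ ((H⁻¹ * B).mulVec y i) := rfl

theorem Alin_apply (y : Fin N → E) : Alin σ H B y = Jlin σ H B (Jlin σ H B y) := rfl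

theorem J_smul (c : E) (x : Fin N → E) : Jlin σ H B (c • x) = σ c • Jlin σ H B x := by
  funext i
  rw [Pi.smul_apply, Jlin_apply, Jlin_apply, Matrix.mulVec_smul, Pi.smul_apply, smul_eq_mul,
    map_mul, smul_eq_mul]

theorem A_smul (hq : QuadDatum σ δ d) (c : E) (x : Fin N → E) :
    Alin σ H B (c • x) = c • Alin σ H B x := by
  rw [Alin_apply, J_smul, J_smul, sig_sig hq, ← Alin_apply]

theorem J_form (hq : QuadDatum σ δ d) (hH : IsSkew σ H) (x y : Fin N → E) :
    sk σ H x (Jlin σ H B y) = x ⬝ᵥ B.mulVec y := by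
  have h1 : (fun j => σ (Jlin σ H B y j)) = (H⁻¹ * B).mulVec y := by
    funext j
    rw [Jlin_apply, sig_sig hq]
  have hu : IsUnit H.det := isUnit_iff_ne_zero.2 hH.det_ne
  rw [sk_eq_dot, h1, ← Matrix.dotProduct_mulVec, Matrix.mulVec_mulVec, ← Matrix.mul_assoc,
    Matrix.mul_nonsing_inv H hu, Matrix.one_mul]

theorem dot_swap (hB : B.transpose = -B) (x y : Fin N → E) :
    x ⬝ᵥ B.mulVec y = -(y ⬝ᵥ B.mulVec x) := by
  rw [Matrix.dotProduct_mulVec, dotProduct_comm, ← Matrix.mulVec_transpose, hB, Matrix.neg_mulVec,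
    dotProduct_neg]

theorem dot_self (hq : QuadDatum σ δ d) (hB : B.transpose = -B) (x : Fin N → E) :
    x ⬝ᵥ B.mulVec x = 0 := by
  have h1 := dot_swap hB x x
  have h2 : (2 : E) * (x ⬝ᵥ B.mulVec x) = 0 := by linear_combination h1
  exact (mul_eq_zero.1 h2).resolve_left hq.two_E

theorem J_adj (hq : QuadDatum σ δ d) (hH : IsSkew σ H) (hB : B.transpose = -B) (x y : Fin N → E) :
    sk σ H x (Jlin σ H B y) = σ (sk σ H (Jlin σ H B x) y) := by
  rw [J_form hq hH, dot_swap hB, ← J_form hq hH, sk_swap hq hH (Jlin σ H B x) y, neg_neg]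

theorem A_mulVec (hq : QuadDatum σ δ d) (y : Fin N → E) :
    Alin σ H B y = (Amat σ H B).mulVec y := by
  funext i
  have h1 : Jlin σ H B y = fun j => σ ((H⁻¹ * B).mulVec y j) := rfl
  rw [Alin_apply, Jlin_apply, Amat, h1]
  generalize H⁻¹ * B = C
  rw [← Matrix.mulVec_mulVec]
  show σ (∑ j, C i j * σ (C.mulVec y j)) = ∑ j, (C.map σ) i j * C.mulVec y j
  simp only [map_sum, map_mul, Matrix.map_apply, sig_sig hq]

theorem A_adj (hq : QuadDatum σ δ d) (hH : IsSkew σ H) (hB : B.transpose = -B) (x y : Fin N → E) :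
    sk σ H (Alin σ H B x) y = sk σ H x (Alin σ H B y) := by
  rw [Alin_apply, Alin_apply, J_adj hq hH hB x, J_adj hq hH hB (Jlin σ H B x), sig_sig hq]

/-- `f(A)` is self-adjoint for `h`. -/
theorem aeval_adj (hq : QuadDatum σ δ d) (hH : IsSkew σ H) (hB : B.transpose = -B) (f : F[X])
    (x y : Fin N → E) :
    sk σ H (aeval (Alin σ H B) f x) y = sk σ H x (aeval (Alin σ H B) f y) := by
  induction f using Polynomial.induction_on' generalizing x y with
  | add p q hp hq' =>
    rw [map_add, LinearMap.add_apply, LinearMap.add_apply, sk_add_left, sk_add_right, hp, hq']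
  | monomial n a =>
    rw [aeval_monomial, Module.End.mul_apply, Module.End.mul_apply, Module.algebraMap_end_apply,
      Module.algebraMap_end_apply, sk_fsmul_left, sk_fsmul_right]
    congr 1
    induction n generalizing x y with
    | zero => simp
    | succ n ih =>
      rw [pow_succ', Module.End.mul_apply, A_adj hq hH hB, ih, ← Module.End.mul_apply, ← pow_succ,
        ← pow_succ']

/-- `J` commutes with `f(A)` for `f` in `F[t]`. -/
theorem J_aeval (f : F[X]) (x : Fin N → E) :
    Jlin σ H B (aeval (Alin σ H B) f x) = aeval (Alin σ H B) f (Jlin σ H B x) := by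
  have h1 : Commute (Jlin σ H B) (Alin σ H B) := by
    unfold Alin
    exact (Commute.refl _).mul_right (Commute.refl _)
  have h2 : Commute (Jlin σ H B) (aeval (Alin σ H B) f) := by
    induction f using Polynomial.induction_on' with
    | add p q hp hq' => rw [map_add]; exact hp.add_right hq'
    | monomial n a =>
      rw [aeval_monomial]
      exact (Algebra.commute_algebraMap_right a _).mul_right (h1.pow_right n)
  have h3 := congrArg (fun T : Module.End F (Fin N → E) => T x) h2.eq
  simpa using h3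

/-- `f(A)` is `E`-linear. -/
theorem aeval_smul (hq : QuadDatum σ δ d) (f : F[X]) (c : E) (x : Fin N → E) :
    aeval (Alin σ H B) f (c • x) = c • aeval (Alin σ H B) f x := by
  induction f using Polynomial.induction_on' generalizing x with
  | add p q hp hq' =>
    rw [map_add, LinearMap.add_apply, LinearMap.add_apply, hp, hq', smul_add]
  | monomial n a =>
    rw [aeval_monomial, Module.End.mul_apply, Module.End.mul_apply, Module.algebraMap_end_apply,
      Module.algebraMap_end_apply, smul_comm c a]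
    congr 1
    induction n generalizing x with
    | zero => simp
    | succ n ih =>
      rw [pow_succ, Module.End.mul_apply, Module.End.mul_apply, A_smul hq, ih]

/-- `h(x, J f(A) x) = 0` for all polynomials `f`. -/
theorem J_poly_self (hq : QuadDatum σ δ d) (hH : IsSkew σ H) (hB : B.transpose = -B) (f : F[X])
    (x : Fin N → E) : sk σ H x (Jlin σ H B (aeval (Alin σ H B) f x)) = 0 := by
  have h1 : sk σ H x (Jlin σ H B (aeval (Alin σ H B) f x)) =
      - sk σ H x (Jlin σ H B (aeval (Alin σ H B) f x)) := by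
    conv_lhs => rw [J_form hq hH, dot_swap hB, ← J_form hq hH, aeval_adj hq hH hB, ← J_aeval]
  have h2 : (2 : E) * sk σ H x (Jlin σ H B (aeval (Alin σ H B) f x)) = 0 := by
    linear_combination h1
  exact (mul_eq_zero.1 h2).resolve_left hq.two_E

/-- Nondegeneracy in the second variable. -/
theorem sk_nondeg_right (hq : QuadDatum σ δ d) (hH : IsSkew σ H) {y y' : Fin N → E}
    (h : ∀ x, sk σ H x y = sk σ H x y') : y = y' := by
  rw [← sub_eq_zero]
  apply sk_nondeg hH
  intro x
  rw [sk_swap hq hH x, sk_sub_right, h, sub_self, map_zero, neg_zero]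

theorem smul_val (g : GL (Fin N) E) (B : Alt N E) :
    (g • B).1 = ((g⁻¹ : GL (Fin N) E) : Matrix (Fin N) (Fin N) E).transpose * B.1 *
      ((g⁻¹ : GL (Fin N) E) : Matrix (Fin N) (Fin N) E) := rfl

theorem J_equiv (hq : QuadDatum σ δ d) (hH : IsSkew σ H) (g : unitary σ H) (B : Alt N E)
    (x : Fin N → E) :
    Jlin σ H ((g : GL (Fin N) E) • B).1 ((umat g).mulVec x) =
      (umat g).mulVec (Jlin σ H B.1 x) := by
  apply sk_nondeg_right hq hH
  intro z
  obtain ⟨w, rfl⟩ : ∃ w, z = (umat g).mulVec w := ⟨_, (umat_mulVec_inv g z).symm⟩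
  have h1 : ∀ v : Fin N → E, (((g : GL (Fin N) E)⁻¹ : GL (Fin N) E) :
      Matrix (Fin N) (Fin N) E).mulVec ((umat g).mulVec v) = v := fun v => umat_inv_mulVec g v
  rw [J_form hq hH, sk_unitary, J_form hq hH, smul_val, Matrix.mul_assoc, ← Matrix.mulVec_mulVec,
    ← Matrix.mulVec_mulVec, h1, Matrix.dotProduct_mulVec, Matrix.vecMul_transpose, h1]

theorem charpoly_F (hq : QuadDatum σ δ d) (hH : IsSkew σ H) :
    ∃ P : F[X], (Amat σ H B).charpoly = P.map (algebraMap F E) := by
  have _ := hH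
  have h1 : (Amat σ H B).charpoly.map (σ : E →+* E) = (Amat σ H B).charpoly := by
    rw [← Matrix.charpoly_map]
    have h2 : (Amat σ H B).map (σ : E →+* E) = (H⁻¹ * B) * (H⁻¹ * B).map σ := by
      rw [Amat, Matrix.map_mul]
      congr 1
      ext i j
      simp only [Matrix.map_apply, RingHom.coe_coe, sig_sig hq]
    rw [h2, Matrix.charpoly_mul_comm]
    rfl
  have h3 : ∀ n, ∃ a : F, algebraMap F E a = (Amat σ H B).charpoly.coeff n := by
    intro n
    apply hq.mem_of_fix
    have := congrArg (fun P : E[X] => P.coeff n) h1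
    simpa using this
  have h4 : (Amat σ H B).charpoly ∈ Polynomial.lifts (algebraMap F E) := by
    rw [Polynomial.lifts_iff_coeff_lifts]
    intro n
    exact h3 n
  obtain ⟨P, hP⟩ := (Polynomial.mem_lifts _).1 h4
  exact ⟨P, hP.symm⟩

/-- `g ∈ U(X)` fixes `B` iff it commutes with `J_B`. -/
theorem fix_of_comm (hq : QuadDatum σ δ d) (hH : IsSkew σ H) (g : unitary σ H) (B : Alt N E)
    (h : ∀ x, Jlin σ H B.1 ((umat g).mulVec x) = (umat g).mulVec (Jlin σ H B.1 x)) :
    (g : GL (Fin N) E) • B = B := by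
  apply Subtype.ext
  have h1 : ∀ y, Jlin σ H ((g : GL (Fin N) E) • B).1 y = Jlin σ H B.1 y := by
    intro y
    obtain ⟨w, rfl⟩ : ∃ w, y = (umat g).mulVec w := ⟨_, (umat_mulVec_inv g y).symm⟩
    rw [J_equiv hq hH, h]
  have h2 : ∀ x y : Fin N → E, x ⬝ᵥ ((g : GL (Fin N) E) • B).1.mulVec y = x ⬝ᵥ B.1.mulVec y := by
    intro x y
    rw [← J_form hq hH, ← J_form hq hH, h1]
  ext i j
  have h3 := h2 (Pi.single i 1) (Pi.single j 1)
  simpa using h3

/-- Conversely, `g ∈ U(X)` fixing `B` commutes with `J_B`. -/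
theorem comm_of_fix (hq : QuadDatum σ δ d) (hH : IsSkew σ H) (g : unitary σ H) (B : Alt N E)
    (h : (g : GL (Fin N) E) • B = B) (x : Fin N → E) :
    Jlin σ H B.1 ((umat g).mulVec x) = (umat g).mulVec (Jlin σ H B.1 x) := by
  rw [← J_equiv hq hH, h]

end

end SpW
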