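import Pool.Agent.Work.MP_3615d2_al.LemA
import Pool.Agent.Work.MP_3615d2_al.ModDet

/-!
MP_3615d2_al, A9: the abstract integral lemma (note 6449, (5.2)): integrating an oscillatory
function over an isotropic subspace and its dual.
-/

set_option linter.unusedSectionVars false

open MeasureTheory Metric Set Pool.Agent.SpehH
open scoped NNReal ENNReal Matrix

namespace SpW.LemI

section B

variable {F : Type} [NontriviallyNormedField F] [ProperSpace F] [IsUltrametricDist F]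

/-- Vectors far away are detected by a character on a small ball. -/
theorem detect {U W : Type} [NormedAddCommGroup U] [NormedSpace F U] [FiniteDimensional F U]
    [NormedAddCommGroup W] [NormedSpace F W] [FiniteDimensional F W] {ψ : AddChar F Circle}
    (hψ : Continuous ψ) (hψ1 : ψ ≠ 1) (θ : U →ₗ[F] W →ₗ[F] F)
    (hθ : ∀ w, (∀ x, θ w x = 0) → w = 0) {ε : ℝ} (hε : 0 < ε) :
    ∃ R₀ : ℝ, ∀ w, R₀ < ‖w‖ → ∃ x, ‖x‖ ≤ ε ∧ ψ (θ w x) ≠ 1 := by
  obtain ⟨c, hc⟩ := exists_cond hψ hψ1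
  let bs := Module.finBasis F W
  let e : W ≃L[F] (Fin (Module.finrank F W) → F) := bs.equivFun.toContinuousLinearEquiv
  let b : U →ₗ[F] (Fin (Module.finrank F W) → F) := LinearMap.pi fun i => θ.flip (bs i)
  have hb : ∀ w a, θ w (e.symm a) = b w ⬝ᵥ a := by
    intro w a
    have h1 : e.symm a = ∑ i, a i • bs i := bs.equivFun_symm_apply a
    rw [h1, map_sum, dotProduct]
    refine Finset.sum_congr rfl fun i _ => ?_
    rw [map_smul, smul_eq_mul, mul_comm]
    rfl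
  have hbinj : LinearMap.ker b = ⊥ := by
    rw [LinearMap.ker_eq_bot']
    intro w hw
    refine hθ w fun x => ?_
    have := hb w (e x)
    rw [e.symm_apply_apply, hw, zero_dotProduct] at this
    exact this
  obtain ⟨K, hK, hKb⟩ := b.exists_antilipschitzWith hbinj
  have hn : 0 ≤ ‖(e.symm : (Fin (Module.finrank F W) → F) →L[F] W)‖ := norm_nonneg _
  obtain ⟨t, ht0, ht⟩ := NormedField.exists_norm_lt F
    (show 0 < ε / (‖(e.symm : (Fin (Module.finrank F W) → F) →L[F] W)‖ + 1) by positivity)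
  have ht0' : t ≠ 0 := norm_pos_iff.1 ht0
  refine ⟨K * (‖c‖ / ‖t‖), fun w hw => ?_⟩
  by_contra! hcon
  have h1 : ‖b w‖ * ‖t‖ ≤ ‖c‖ := by
    rw [← cond_iff_pi hc ht0' (b w)]
    intro a ha
    rw [← hb]
    apply hcon
    have h2 : ‖e.symm a‖ ≤ ‖(e.symm : (Fin (Module.finrank F W) → F) →L[F] W)‖ * ‖a‖ :=
      (e.symm : (Fin (Module.finrank F W) → F) →L[F] W).le_opNorm a
    rw [lt_div_iff₀ (by positivity)] at ht
    nlinarith [norm_nonneg a, norm_nonneg t]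
  have h3 : ‖w‖ ≤ K * ‖b w‖ := by
    have := hKb.le_mul_dist w 0
    rwa [map_zero, dist_zero_right, dist_zero_right] at this
  have h4 : ‖b w‖ ≤ ‖c‖ / ‖t‖ := by rwa [le_div_iff₀ ht0]
  have h5 : (K : ℝ) * ‖b w‖ ≤ K * (‖c‖ / ‖t‖) := mul_le_mul_of_nonneg_left h4 K.2
  linarith

variable {V : Type} [NormedAddCommGroup V] [NormedSpace F V] [FiniteDimensional F V]

omit [ProperSpace F] in
theorem addChar_small {ψ : AddChar F Circle} (hψ : Continuous ψ) {X : Type}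
    [TopologicalSpace X] {f : X → F} {x₀ : X} (hf : ContinuousAt f x₀) (h0 : f x₀ = 0) :
    ∀ᶠ x in nhds x₀, ψ (f x) = 1 := by
  obtain ⟨δ, hδ, h⟩ := exists_ball_eq_one hψ
  have h1 : ∀ᶠ y in nhds (f x₀), ‖y‖ < δ := by
    rw [h0]
    have : ContinuousAt (fun y : F => ‖y‖) 0 := continuous_norm.continuousAt
    exact this.eventually_lt continuousAt_const (by simpa using hδ)
  filter_upwards [hf.eventually h1] with x hx
  exact h _ hx

/-- Continuity of functions transforming by characters. -/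
theorem cont_of_char {ψ : AddChar F Circle} (hψ : Continuous ψ) {ε : ℝ} (hε : 0 < ε) {f : V → ℂ}
    (θ : V →ₗ[F] V →ₗ[F] F)
    (hfχ : ∀ w x, ‖x‖ ≤ ε → f (w + x) = ((ψ (θ w x) : Circle) : ℂ) * f w) : Continuous f := by
  rw [continuous_iff_continuousAt]
  intro w
  have h1 : ContinuousAt (fun x : V => θ w (x - w)) w :=
    ((θ w).continuous_of_finiteDimensional.comp (continuous_sub_right w)).continuousAt
  have h2 := addChar_small hψ h1 (by simp)
  have h3 : ∀ᶠ x in nhds w, ‖x - w‖ ≤ ε := by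
    have : ContinuousAt (fun x : V => ‖x - w‖) w :=
      ((continuous_sub_right w).norm).continuousAt
    exact (this.eventually_lt continuousAt_const (by simpa using hε)).mono fun _ h => h.le
  refine (continuousAt_const (y := f w)).congr ?_
  filter_upwards [h2, h3] with x hx2 hx3
  have := hfχ w (x - w) hx3
  rw [add_sub_cancel, hx2, Circle.coe_one, one_mul] at this
  exact this.symm

variable [IsUltrametricDist V] [MeasurableSpace V] [BorelSpace V]

/-- Stabilisation of oscillatory integrals. -/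
theorem stab_eq (μ : Measure V) [μ.IsAddHaarMeasure] {ψ : AddChar F Circle}
    (hψ : Continuous ψ) {ε : ℝ} (hε : 0 < ε) {f : V → ℂ} (hf : Continuous f)
    (θ : V →ₗ[F] V →ₗ[F] F)
    (hfχ : ∀ w x, ‖x‖ ≤ ε → f (w + x) = ((ψ (θ w x) : Circle) : ℂ) * f w) {R₁ : ℝ} (hR₁ : ε ≤ R₁)
    (hdet : ∀ w, R₁ < ‖w‖ → ∃ x, ‖x‖ ≤ ε ∧ ψ (θ w x) ≠ 1)
    {A : Set V} (hAm : MeasurableSet A) (hAb : Bornology.IsBounded A)
    (hAs : ∀ w x, ‖x‖ ≤ ε → (w + x ∈ A ↔ w ∈ A)) (hA : closedBall 0 R₁ ⊆ A) :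
    ∫ w in A, f w ∂μ = ∫ w in closedBall 0 R₁, f w ∂μ := by
  have : ProperSpace V := FiniteDimensional.proper F V
  have hfi : IntegrableOn f (closure A) μ :=
    hf.continuousOn.integrableOn_compact (hAb.isCompact_closure)
  have hcb : MeasurableSet (closedBall (0 : V) R₁) := isClosed_closedBall.measurableSet
  have h1 : A = closedBall 0 R₁ ∪ (A \ closedBall 0 R₁) := (Set.union_sdiff_cancel hA).symm
  have h2 : ∫ w in A \ closedBall 0 R₁, f w ∂μ = 0 := by
    refine stab μ hψ hε (hAm.diff hcb) (hAb.subset sdiff_subset) ?_ hf θ hfχ ?_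
    · intro w x hx
      rw [Set.mem_sdiff, Set.mem_sdiff, hAs w x hx, mem_closedBall_zero_iff,
        mem_closedBall_zero_iff, ball_add_iff hR₁ hx]
    · intro w hw
      rw [Set.mem_sdiff, mem_closedBall_zero_iff, not_le] at hw
      exact hdet w hw.2
  conv_lhs => rw [h1]
  rw [setIntegral_union disjoint_sdiff_right (hAm.diff hcb)
    (hfi.mono_set ((subset_closure).trans' hA)) (hfi.mono_set (sdiff_subset.trans subset_closure)),
    h2, add_zero]

end B

section C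

variable {F : Type} [NontriviallyNormedField F] [ProperSpace F] {k : ℕ}

omit [ProperSpace F] in
theorem smul_det {x : F} (hx : x ≠ 0) :
    LinearMap.det ((LinearEquiv.smulOfNeZero F (Fin k → F) x hx : (Fin k → F) ≃ₗ[F] (Fin k → F)) :
      (Fin k → F) →ₗ[F] (Fin k → F)) = x ^ k := by
  have h1 : ((LinearEquiv.smulOfNeZero F (Fin k → F) x hx : (Fin k → F) ≃ₗ[F] (Fin k → F)) :
      (Fin k → F) →ₗ[F] (Fin k → F)) = x • LinearMap.id := by
    ext i
    simp
  rw [h1, LinearMap.det_smul, LinearMap.det_id, mul_one, Module.finrank_fin_fun]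

/-- Haar measure of a ball in `F^k`. -/
theorem ball_vol [MeasurableSpace F] [BorelSpace F] (lam : Measure (Fin k → F))
    [lam.IsAddHaarMeasure] {x : F} (hx : x ≠ 0) :
    lam.real (closedBall 0 ‖x‖) = ((md x : ℝ≥0) : ℝ) ^ k * lam.real (closedBall 0 1) := by
  have h1 : closedBall (0 : Fin k → F) ‖x‖ =
      (LinearEquiv.smulOfNeZero F (Fin k → F) x hx) '' closedBall 0 1 := by
    ext a
    rw [mem_closedBall_zero_iff]
    have hx' := norm_pos_iff.2 hx
    constructor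
    · intro ha
      refine ⟨x⁻¹ • a, ?_, ?_⟩
      · rw [mem_closedBall_zero_iff, norm_smul, norm_inv, inv_mul_le_iff₀ hx', mul_one]
        exact ha
      · show x • (x⁻¹ • a) = a
        rw [smul_inv_smul₀ hx]
    · rintro ⟨b, hb, rfl⟩
      rw [mem_closedBall_zero_iff] at hb
      show ‖x • b‖ ≤ ‖x‖
      rw [norm_smul]
      nlinarith
  rw [measureReal_def, h1, image_linearEquiv lam, smul_det, md_pow, ENNReal.toReal_mul]
  simp [measureReal_def]

/-- The inner integral. -/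
theorem inner_int [IsUltrametricDist F] [MeasurableSpace F] [BorelSpace F]
    (lam : Measure (Fin k → F)) [lam.IsAddHaarMeasure] {ψ : AddChar F Circle} {c₀ : F}
    (hc : IsCond ψ c₀) {t : F} (ht : t ≠ 0) (b : Fin k → F) :
    ∫ a in closedBall (0 : Fin k → F) ‖t‖, ((ψ (b ⬝ᵥ a) : Circle) : ℂ) ∂lam =
      if ‖b‖ * ‖t‖ ≤ ‖c₀‖ then ((lam.real (closedBall (0 : Fin k → F) ‖t‖) : ℝ) : ℂ) else 0 := by
  split_ifs with h
  · rw [← cond_iff_pi hc ht b] at h
    have h1 : ∀ a ∈ closedBall (0 : Fin k → F) ‖t‖, ((ψ (b ⬝ᵥ a) : Circle) : ℂ) = 1 := by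
      intro a ha
      rw [mem_closedBall_zero_iff] at ha
      rw [h a ha, Circle.coe_one]
    rw [setIntegral_congr_fun isClosed_closedBall.measurableSet h1, setIntegral_const]
    simp
  · rw [← cond_iff_pi hc ht b] at h
    push Not at h
    obtain ⟨a₀, ha₀, ha₁⟩ := h
    refine char_int lam (fun a => ψ (b ⬝ᵥ a)) ?_ a₀ ha₀ ha₁
    intro x y _ _
    rw [dotProduct_add, AddChar.map_add_eq_mul]

/-- The volume of the dual set. -/
theorem dual_vol [MeasurableSpace F] [BorelSpace F] (lam : Measure (Fin k → F))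
    [lam.IsAddHaarMeasure] (T : (Fin k → F) ≃ₗ[F] (Fin k → F)) {t c₀ : F} (ht : t ≠ 0)
    (hc₀ : c₀ ≠ 0) (h2 : (2 : F) ≠ 0) :
    lam.real (closedBall (0 : Fin k → F) ‖t‖) *
      lam.real {q : Fin k → F | ‖(2 : F)⁻¹ • T q‖ * ‖t‖ ≤ ‖c₀‖} =
      (((md (LinearMap.det (T : (Fin k → F) →ₗ[F] (Fin k → F))) : ℝ≥0) : ℝ))⁻¹ *
        (((md (2 * c₀) : ℝ≥0) : ℝ) ^ k * lam.real (closedBall (0 : Fin k → F) 1) ^ 2) := by
  have h1 : {q : Fin k → F | ‖(2 : F)⁻¹ • T q‖ * ‖t‖ ≤ ‖c₀‖} =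
      T ⁻¹' closedBall 0 ‖2 * c₀ / t‖ := by
    ext q
    rw [mem_preimage, mem_closedBall_zero_iff, mem_ofPred_eq, norm_smul, norm_inv, norm_div,
      norm_mul, le_div_iff₀ (norm_pos_iff.2 ht), mul_assoc,
      inv_mul_le_iff₀ (norm_pos_iff.2 h2)]
  have hx : 2 * c₀ / t ≠ 0 := div_ne_zero (mul_ne_zero h2 hc₀) ht
  have h3 : lam.real (T ⁻¹' closedBall 0 ‖2 * c₀ / t‖) =
      (((md (LinearMap.det (T : (Fin k → F) →ₗ[F] (Fin k → F))) : ℝ≥0) : ℝ))⁻¹ *
        lam.real (closedBall 0 ‖2 * c₀ / t‖) := by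
    rw [measureReal_def, preimage_linearEquiv, ENNReal.toReal_mul, ENNReal.toReal_inv]
    simp [measureReal_def]
  rw [h1, h3, ball_vol lam hx, ball_vol lam ht, md_div, NNReal.coe_div, div_pow]
  have h4 : ((md t : ℝ≥0) : ℝ) ^ k ≠ 0 := pow_ne_zero _ (by exact_mod_cast (md_pos ht).ne')
  field_simp

/-- The integral over a box. -/
theorem box_int [IsUltrametricDist F] [MeasurableSpace F] [BorelSpace F] {Zt : Type}
    [NormedAddCommGroup Zt] [NormedSpace F Zt] [FiniteDimensional F Zt] [MeasurableSpace Zt]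
    [BorelSpace Zt] (ν : Measure Zt) [ν.IsAddHaarMeasure]
    (lam : Measure (Fin k → F)) [lam.IsAddHaarMeasure] {ψ : AddChar F Circle} {c₀ : F}
    (hc : IsCond ψ c₀) {t : F} (ht : t ≠ 0) {R : ℝ} (hR : 0 ≤ R)
    (T : (Fin k → F) →ₗ[F] (Fin k → F))
    {g : (Zt × (Fin k → F)) × (Fin k → F) → ℂ} (hg : Continuous g)
    (h1 : ∀ z q a, g ((z, q), a) = ((ψ (((2 : F)⁻¹ • T q) ⬝ᵥ a) : Circle) : ℂ) * g ((z, q), 0))
    (h2 : ∀ z q, ‖z‖ ≤ R → ‖(2 : F)⁻¹ • T q‖ * ‖t‖ ≤ ‖c₀‖ →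
      ‖q‖ ≤ R ∧ g ((z, q), 0) = g ((z, 0), 0)) :
    ∫ p in (closedBall (0 : Zt) R ×ˢ closedBall (0 : Fin k → F) R) ×ˢ
        closedBall (0 : Fin k → F) ‖t‖, g p ∂((ν.prod lam).prod lam) =
      ((lam.real (closedBall (0 : Fin k → F) ‖t‖) *
        lam.real {q : Fin k → F | ‖(2 : F)⁻¹ • T q‖ * ‖t‖ ≤ ‖c₀‖} : ℝ) : ℂ) *
        ∫ z in closedBall (0 : Zt) R, g ((z, 0), 0) ∂ν := by
  have iZ : ProperSpace Zt := FiniteDimensional.proper F Zt
  have hK1 : IsCompact (closedBall (0 : Zt) R ×ˢ closedBall (0 : Fin k → F) R) :=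
    (isCompact_closedBall _ _).prod (isCompact_closedBall _ _)
  have hK : IsCompact ((closedBall (0 : Zt) R ×ˢ closedBall (0 : Fin k → F) R) ×ˢ
      closedBall (0 : Fin k → F) ‖t‖) := hK1.prod (isCompact_closedBall _ _)
  have hNm : MeasurableSet {q : Fin k → F | ‖(2 : F)⁻¹ • T q‖ * ‖t‖ ≤ ‖c₀‖} := by
    have : Continuous (fun q : Fin k → F => ‖(2 : F)⁻¹ • T q‖ * ‖t‖) := by
      have := T.continuous_of_finiteDimensional
      fun_prop
    exact (isClosed_le this continuous_const).measurableSet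
  rw [setIntegral_prod _ (hg.continuousOn.integrableOn_compact hK)]
  have e1 : ∀ p : Zt × (Fin k → F), ∫ a in closedBall (0 : Fin k → F) ‖t‖, g (p, a) ∂lam =
      (if ‖(2 : F)⁻¹ • T p.2‖ * ‖t‖ ≤ ‖c₀‖ then
        ((lam.real (closedBall (0 : Fin k → F) ‖t‖) : ℝ) : ℂ) else 0) * g (p, 0) := by
    rintro ⟨z, q⟩
    simp only
    rw [← inner_int lam hc ht, ← integral_mul_const]
    refine integral_congr_ae (Filter.Eventually.of_forall fun a => ?_)
    exact h1 z q a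
  simp_rw [e1]
  -- the function of (z, q)
  have e2 : ∀ p ∈ closedBall (0 : Zt) R ×ˢ closedBall (0 : Fin k → F) R,
      (if ‖(2 : F)⁻¹ • T p.2‖ * ‖t‖ ≤ ‖c₀‖ then
        ((lam.real (closedBall (0 : Fin k → F) ‖t‖) : ℝ) : ℂ) else 0) * g (p, 0) =
      g ((p.1, 0), 0) * ({q : Fin k → F | ‖(2 : F)⁻¹ • T q‖ * ‖t‖ ≤ ‖c₀‖}.indicator
        (fun _ => ((lam.real (closedBall (0 : Fin k → F) ‖t‖) : ℝ) : ℂ)) p.2) := by
    rintro ⟨z, q⟩ hp
    rw [mem_prod, mem_closedBall_zero_iff] at hp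
    simp only
    by_cases hq : ‖(2 : F)⁻¹ • T q‖ * ‖t‖ ≤ ‖c₀‖
    · rw [if_pos hq, indicator_of_mem (by exact hq), (h2 z q hp.1 hq).2, mul_comm]
    · rw [if_neg hq, indicator_of_notMem (by exact hq), zero_mul, mul_zero]
  rw [setIntegral_congr_fun hK1.measurableSet e2]
  rw [setIntegral_prod_mul (fun z : Zt => g ((z, 0), 0))]
  rw [setIntegral_indicator hNm, setIntegral_const]
  have e3 : closedBall (0 : Fin k → F) R ∩
      {q : Fin k → F | ‖(2 : F)⁻¹ • T q‖ * ‖t‖ ≤ ‖c₀‖} =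
      {q : Fin k → F | ‖(2 : F)⁻¹ • T q‖ * ‖t‖ ≤ ‖c₀‖} := by
    refine inter_eq_right.2 fun q hq => ?_
    rw [mem_closedBall_zero_iff]
    exact (h2 0 q (by simpa using hR) hq).1
  rw [e3]
  rw [Complex.real_smul, Complex.ofReal_mul]
  ring

end C

section D

variable {F : Type} [NontriviallyNormedField F] [ProperSpace F] [IsUltrametricDist F]
  {V : Type} [NormedAddCommGroup V] [NormedSpace F V] [FiniteDimensional F V]
  {Zt : Type} [NormedAddCommGroup Zt] [NormedSpace F Zt] [FiniteDimensional F Zt] {k : ℕ}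

/-- The linear set-up: `V = io Zt + s F^k + Y`, `Y` spanned by `y`, `io Zt ⟂ Y`, `s` dual to `y`. -/
structure IDat (B : V →ₗ[F] V →ₗ[F] F) (y : Fin k → V) (io : Zt →ₗ[F] V)
    (s : (Fin k → F) →ₗ[F] V) : Prop where
  alt : ∀ x, B x x = 0
  nd : ∀ w, (∀ x, B w x = 0) → w = 0
  bij : Function.Bijective (fun p : (Zt × (Fin k → F)) × (Fin k → F) =>
    io p.1.1 + s p.1.2 + ∑ i, p.2 i • y i)
  io_y : ∀ z i, B (io z) (y i) = 0
  s_y : ∀ q i, B (s q) (y i) = q i

omit [ProperSpace F] [IsUltrametricDist F] [FiniteDimensional F V] [FiniteDimensional F Zt] in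
theorem IDat.swap {B : V →ₗ[F] V →ₗ[F] F} {y : Fin k → V} {io : Zt →ₗ[F] V}
    {s : (Fin k → F) →ₗ[F] V} (h : IDat B y io s) (x x' : V) : B x x' = - B x' x := by
  have h1 := h.alt (x + x')
  simp only [map_add, LinearMap.add_apply, h.alt, zero_add, add_zero] at h1
  exact eq_neg_of_add_eq_zero_right h1

/-- A small ball of `q` on which the phase is trivial. -/
theorem exists_small {ψ : AddChar F Circle} (hψ : Continuous ψ) (θ : V →ₗ[F] V →ₗ[F] F)
    (io : Zt →ₗ[F] V) (s : (Fin k → F) →ₗ[F] V) {ε R : ℝ} (hε : 0 < ε) (hR : 0 < R) :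
    ∃ η > 0, ∀ q, ‖q‖ < η → ‖q‖ ≤ R ∧ ‖s q‖ ≤ ε ∧ ∀ z, ‖z‖ ≤ R → ψ (θ (io z) (s q)) = 1 := by
  have iZ : ProperSpace Zt := FiniteDimensional.proper F Zt
  have cs : Continuous s := s.continuous_of_finiteDimensional
  have cio : Continuous io := io.continuous_of_finiteDimensional
  have e1 : ∀ᶠ q in nhds (0 : Fin k → F), ‖q‖ < R := by
    have : ContinuousAt (fun q : Fin k → F => ‖q‖) 0 := continuous_norm.continuousAt
    exact this.eventually_lt continuousAt_const (by simpa using hR)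
  have e2 : ∀ᶠ q in nhds (0 : Fin k → F), ‖s q‖ < ε := by
    have : ContinuousAt (fun q : Fin k → F => ‖s q‖) 0 := cs.norm.continuousAt
    exact this.eventually_lt continuousAt_const (by simpa using hε)
  have e3 : ∀ᶠ q in nhds (0 : Fin k → F), ∀ z ∈ closedBall (0 : Zt) R,
      ψ (θ (io z) (s q)) = 1 := by
    refine (isCompact_closedBall (0 : Zt) R).eventually_forall_of_forall_eventually ?_
    intro z _
    have hc : Continuous (fun p : (Fin k → F) × Zt => θ (io p.2) (s p.1)) :=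
      (bil_cont θ).comp ((cio.comp continuous_snd).prodMk (cs.comp continuous_fst))
    exact addChar_small hψ hc.continuousAt (by simp)
  obtain ⟨η, hη, h⟩ := Metric.eventually_nhds_iff.1 (e1.and (e2.and e3))
  refine ⟨η, hη, fun q hq => ?_⟩
  obtain ⟨h1, h2, h3⟩ := h (y := q) (by rwa [dist_zero_right])
  exact ⟨h1.le, h2.le, fun z hz => h3 z (by rwa [mem_closedBall_zero_iff])⟩

/-- A large `t`. -/
theorem exists_large (T : (Fin k → F) ≃ₗ[F] (Fin k → F)) (h2 : (2 : F) ≠ 0) (c₀ : F) {η : ℝ}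
    (hη : 0 < η) (R₀ : ℝ) :
    ∃ t : F, t ≠ 0 ∧ R₀ ≤ ‖t‖ ∧ ∀ q, ‖(2 : F)⁻¹ • T q‖ * ‖t‖ ≤ ‖c₀‖ → ‖q‖ < η := by
  let T' : (Fin k → F) →L[F] (Fin k → F) := LinearMap.toContinuousLinearMap T.symm.toLinearMap
  obtain ⟨t, ht⟩ := NormedField.exists_lt_norm F
    (max (max R₀ 1) ((‖T'‖ + 1) * ‖(2 : F)‖ * (‖c₀‖ + 1) / η))
  have h0 : 1 < ‖t‖ := (le_max_right _ _).trans_lt ((le_max_left _ _).trans_lt ht)
  have ht0 : 0 < ‖t‖ := by linarith
  refine ⟨t, norm_pos_iff.1 ht0, ((le_max_left _ _).trans (le_max_left _ _)).trans ht.le, ?_⟩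
  intro q hq
  have h3 : (‖T'‖ + 1) * ‖(2 : F)‖ * (‖c₀‖ + 1) / η < ‖t‖ := (le_max_right _ _).trans_lt ht
  rw [div_lt_iff₀ hη] at h3
  have h4 : ‖q‖ ≤ ‖T'‖ * ‖T q‖ := by
    have := T'.le_opNorm (T q)
    have e : T' (T q) = q := T.symm_apply_apply q
    rwa [e] at this
  have h5 : ‖T q‖ = ‖(2 : F)‖ * ‖(2 : F)⁻¹ • T q‖ := by
    rw [norm_smul, norm_inv, mul_inv_cancel_left₀ (norm_pos_iff.2 h2).ne']
  have h2' := norm_pos_iff.2 h2
  by_contra! hcon
  have h6 : ‖q‖ * ‖t‖ ≤ ‖T'‖ * ‖(2 : F)‖ * ‖c₀‖ := by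
    calc ‖q‖ * ‖t‖ ≤ (‖T'‖ * ‖T q‖) * ‖t‖ := by gcongr
      _ = ‖T'‖ * ‖(2 : F)‖ * (‖(2 : F)⁻¹ • T q‖ * ‖t‖) := by rw [h5]; ring
      _ ≤ _ := by gcongr
  have h7 : η * ‖t‖ ≤ ‖q‖ * ‖t‖ := by gcongr
  have h8 : ‖T'‖ * ‖(2 : F)‖ * ‖c₀‖ ≤ (‖T'‖ + 1) * ‖(2 : F)‖ * (‖c₀‖ + 1) := by
    gcongr <;> linarith
  nlinarith

end D

section E

variable {F : Type} [NontriviallyNormedField F] [ProperSpace F] [IsUltrametricDist F]
  {V : Type} [NormedAddCommGroup V] [NormedSpace F V] [FiniteDimensional F V]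
  [IsUltrametricDist V] [MeasurableSpace V] [BorelSpace V]
  {Zt : Type} [NormedAddCommGroup Zt] [NormedSpace F Zt] [FiniteDimensional F Zt]
  [IsUltrametricDist Zt] [MeasurableSpace Zt] [BorelSpace Zt] {k : ℕ}

theorem psi_mul (ψ : AddChar F Circle) (x y : F) :
    ((ψ x : Circle) : ℂ) * ((ψ y : Circle) : ℂ) = ((ψ (x + y) : Circle) : ℂ) := by
  rw [AddChar.map_add_eq_mul, Circle.coe_mul]

/-- LEMMA I. -/
theorem lemI (ν : Measure Zt) [ν.IsAddHaarMeasure] (μ : Measure V) [μ.IsAddHaarMeasure]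
    {B : V →ₗ[F] V →ₗ[F] F} {y : Fin k → V} {io : Zt →ₗ[F] V} {s : (Fin k → F) →ₗ[F] V}
    (h : IDat B y io s) {ψ : AddChar F Circle} (hψ : Continuous ψ) (hψ1 : ψ ≠ 1)
    (h2 : (2 : F) ≠ 0) :
    ∃ C : ℝ, 0 < C ∧ ∀ (c : V →ₗ[F] V) (T : (Fin k → F) ≃ₗ[F] (Fin k → F)) (Φ : V → ℂ) (ε : ℝ),
      0 < ε → (∀ w w', B (c w) w' = - B w (c w')) → (∀ w, c w = w → w = 0) →
      (∀ i j, B (c (y i)) (y j) = 0) →
      (∀ w i, B (c w + w) (y i) = T (fun j => B w (y j)) i) →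
      (∀ w x, ‖x‖ ≤ ε → Φ (w + x) = ((ψ (-(2⁻¹ * B w x)) : Circle) : ℂ) * Φ w) →
      (∀ (w : V) (a : Fin k → F), Φ (w + ∑ i, a i • y i) =
        ((ψ (2⁻¹ * B w (∑ i, a i • y i)) : Circle) : ℂ) * Φ w) →
      ∃ R₀ : ℝ, ∀ r R, R₀ ≤ r → R₀ ≤ R →
        ∫ w in closedBall (0 : V) r, ((ψ (4⁻¹ * B (c w) w) : Circle) : ℂ) * Φ w ∂μ =
          ((C * (((md (LinearMap.det (T : (Fin k → F) →ₗ[F] (Fin k → F))) : ℝ≥0) : ℝ))⁻¹ : ℝ) : ℂ) *
            ∫ z in closedBall (0 : Zt) R,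
              ((ψ (4⁻¹ * B (c (io z)) (io z)) : Circle) : ℂ) * Φ (io z) ∂ν := by
  let _ : MeasurableSpace F := borel F
  have iB : BorelSpace F := ⟨rfl⟩
  have iV : ProperSpace V := FiniteDimensional.proper F V
  have iZ : ProperSpace Zt := FiniteDimensional.proper F Zt
  obtain ⟨c₀, hc₀⟩ := exists_cond hψ hψ1
  -- coordinates
  let e₀ : ((Zt × (Fin k → F)) × (Fin k → F)) →ₗ[F] V :=
    (io.coprod s).coprod (Fintype.linearCombination F y)
  have he₀ : ∀ p, e₀ p = io p.1.1 + s p.1.2 + ∑ i, p.2 i • y i := fun p => rfl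
  let e : ((Zt × (Fin k → F)) × (Fin k → F)) ≃L[F] V :=
    (LinearEquiv.ofBijective e₀ h.bij).toContinuousLinearEquiv
  have he : ∀ z q a, e ((z, q), a) = io z + s q + ∑ i, a i • y i := fun z q a => rfl
  let lam : Measure (Fin k → F) := Measure.addHaar
  let π : Measure ((Zt × (Fin k → F)) × (Fin k → F)) := (ν.prod lam).prod lam
  have iπ₁ : (ν.prod lam).IsAddHaarMeasure := inferInstance
  have iπ : π.IsAddHaarMeasure := inferInstanceAs ((ν.prod lam).prod lam).IsAddHaarMeasure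
  have iμ' : (π.map e).IsAddHaarMeasure := e.isAddHaarMeasure_map π
  have hκ := Measure.isAddLeftInvariant_eq_smul μ (π.map e)
  have hκ0 := Measure.addHaarScalarFactor_pos_of_isAddHaarMeasure μ (π.map e)
  set κ := Measure.addHaarScalarFactor μ (π.map e) with hκdef
  have hlam1 : 0 < lam.real (closedBall (0 : Fin k → F) 1) := by
    rw [Measure.real, ENNReal.toReal_pos_iff]
    exact ⟨measure_closedBall_pos lam 0 one_pos, (isCompact_closedBall _ _).measure_lt_top⟩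
  have hmd : 0 < ((md (2 * c₀) : ℝ≥0) : ℝ) := by
    exact_mod_cast md_pos (mul_ne_zero h2 hc₀.1)
  refine ⟨(κ : ℝ) * (((md (2 * c₀) : ℝ≥0) : ℝ) ^ k *
    lam.real (closedBall (0 : Fin k → F) 1) ^ 2), ?_, ?_⟩
  · positivity
  intro c T Φ ε hε hcB hc1 hcy hT hΦ1 hΦ2
  set f : V → ℂ := fun w => ((ψ (4⁻¹ * B (c w) w) : Circle) : ℂ) * Φ w with hf
  let θ : V →ₗ[F] V →ₗ[F] F := (2 : F)⁻¹ • (B.comp (c - LinearMap.id))
  have hθ : ∀ w x, θ w x = 2⁻¹ * (B (c w) x - B w x) := by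
    intro w x
    simp [θ]
  -- the small ball
  obtain ⟨ε', hε', hε'ε, hεc⟩ : ∃ ε' > 0, ε' ≤ ε ∧ ∀ x, ‖x‖ ≤ ε' → ψ (4⁻¹ * B (c x) x) = 1 := by
    have hcc : Continuous (fun x : V => 4⁻¹ * B (c x) x) :=
      continuous_const.mul ((bil_cont B).comp
        ((c.continuous_of_finiteDimensional).prodMk continuous_id))
    obtain ⟨η, hη, h1⟩ := Metric.eventually_nhds_iff.1
      (addChar_small hψ (hcc.continuousAt (x := (0 : V))) (by simp))
    refine ⟨min ε (η / 2), lt_min hε (by linarith), min_le_left _ _, fun x hx => h1 ?_⟩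
    rw [dist_zero_right]
    linarith [hx.trans (min_le_right _ _)]
  have hsw : ∀ w w', B (c w') w = B (c w) w' := by
    intro w w'
    rw [hcB, h.swap, neg_neg]
  have hfχ : ∀ w x, ‖x‖ ≤ ε' → f (w + x) = ((ψ (θ w x) : Circle) : ℂ) * f w := by
    intro w x hx
    simp only [hf]
    rw [hΦ1 w x (hx.trans hε'ε), ← mul_assoc, psi_mul, ← mul_assoc, psi_mul]
    have h4 : (4 : F) ≠ 0 := by
      have : (4 : F) = 2 * 2 := by norm_num
      rw [this]
      exact mul_ne_zero h2 h2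
    have e1 : 4⁻¹ * B (c (w + x)) (w + x) + -(2⁻¹ * B w x) =
        θ w x + 4⁻¹ * B (c w) w + 4⁻¹ * B (c x) x := by
      rw [hθ]
      simp only [map_add, LinearMap.add_apply]
      rw [hsw w x]
      field_simp
      ring
    rw [e1, ← psi_mul, hεc x hx, Circle.coe_one, mul_one]
  have hfc : Continuous f := cont_of_char hψ hε' θ hfχ
  have hfy : ∀ (w : V) (a : Fin k → F), f (w + ∑ i, a i • y i) =
      ((ψ (2⁻¹ * B (c w + w) (∑ i, a i • y i)) : Circle) : ℂ) * f w := by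
    intro w a
    simp only [hf]
    set Y := ∑ i, a i • y i with hY
    rw [hΦ2 w a, ← mul_assoc, psi_mul, ← mul_assoc, psi_mul]
    have h4 : (4 : F) ≠ 0 := by
      have : (4 : F) = 2 * 2 := by norm_num
      rw [this]
      exact mul_ne_zero h2 h2
    have hYY : B (c Y) Y = 0 := by
      rw [hY]
      simp only [map_sum, map_smul, LinearMap.sum_apply, LinearMap.smul_apply, hcy]
      simp
    have e1 : 4⁻¹ * B (c (w + Y)) (w + Y) + 2⁻¹ * B w Y =
        2⁻¹ * B (c w + w) Y + 4⁻¹ * B (c w) w := by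
      simp only [map_add, LinearMap.add_apply]
      rw [hsw w Y, hYY]
      field_simp
      ring
    rw [e1]
  -- detection
  obtain ⟨R', hR'⟩ := detect hψ hψ1 θ (fun w hw => by
    refine hc1 w ?_
    have : c w - w = 0 := by
      refine h.nd _ fun x => ?_
      have h3 := hw x
      rw [hθ] at h3
      rw [map_sub, LinearMap.sub_apply]
      exact (mul_eq_zero.1 h3).resolve_left (inv_ne_zero h2)
    exact sub_eq_zero.1 this) hε'
  set R₁ := max R' ε' with hR₁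
  have hR₁0 : 0 < R₁ := hε'.trans_le (le_max_right _ _)
  let Ke : ℝ := ‖(e.symm : V →L[F] ((Zt × (Fin k → F)) × (Fin k → F)))‖
  have hKe : ∀ w, ‖e.symm w‖ ≤ Ke * ‖w‖ := fun w =>
    (e.symm : V →L[F] ((Zt × (Fin k → F)) × (Fin k → F))).le_opNorm w
  have hKe0 : 0 ≤ Ke := norm_nonneg _
  refine ⟨max R₁ (Ke * R₁), fun r R hr hR => ?_⟩
  have hdet : ∀ w, R₁ < ‖w‖ → ∃ x, ‖x‖ ≤ ε' ∧ ψ (θ w x) ≠ 1 := fun w hw =>
    hR' w ((le_max_left _ _).trans_lt hw)
  have hR0 : 0 < R := hR₁0.trans_le ((le_max_left _ _).trans hR)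
  -- the large `t`
  obtain ⟨η, hη, hη'⟩ := exists_small hψ θ io s hε' hR0
  obtain ⟨t, ht0, htR, ht⟩ := exists_large T h2 c₀ hη (max R₁ (Ke * R₁))
  -- the box
  set P : Set ((Zt × (Fin k → F)) × (Fin k → F)) :=
    (closedBall (0 : Zt) R ×ˢ closedBall (0 : Fin k → F) R) ×ˢ closedBall (0 : Fin k → F) ‖t‖ with hP
  have hPc : IsCompact P :=
    ((isCompact_closedBall _ _).prod (isCompact_closedBall _ _)).prod (isCompact_closedBall _ _)
  have hA : IsCompact (e '' P) := hPc.image e.continuous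
  have hmem : ∀ w, w ∈ e '' P ↔ e.symm w ∈ P := by
    intro w
    constructor
    · rintro ⟨p, hp, rfl⟩
      rwa [e.symm_apply_apply]
    · intro hw
      exact ⟨_, hw, e.apply_symm_apply w⟩
  have hPadd : ∀ p x, ‖x‖ ≤ Ke * R₁ → (p + x ∈ P ↔ p ∈ P) := by
    rintro ⟨⟨z, q⟩, a⟩ ⟨⟨z', q'⟩, a'⟩ hx
    have hx1 : ‖z'‖ ≤ Ke * R₁ := ((norm_fst_le (z', q')).trans (norm_fst_le ((z', q'), a'))).trans hx
    have hx2 : ‖q'‖ ≤ Ke * R₁ := ((norm_snd_le (z', q')).trans (norm_fst_le ((z', q'), a'))).trans hx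
    have hx3 : ‖a'‖ ≤ Ke * R₁ := (norm_snd_le ((z', q'), a')).trans hx
    simp only [hP, mem_prod, mem_closedBall_zero_iff, Prod.fst_add, Prod.snd_add]
    have hKR : Ke * R₁ ≤ R := (le_max_right _ _).trans hR
    have hKt : Ke * R₁ ≤ ‖t‖ := (le_max_right _ _).trans htR
    rw [ball_add_iff (hx1.trans hKR) le_rfl, ball_add_iff (hx2.trans hKR) le_rfl,
      ball_add_iff (hx3.trans hKt) le_rfl]
  have h0P : (0 : (Zt × (Fin k → F)) × (Fin k → F)) ∈ P := by
    simp only [hP, mem_prod, mem_closedBall_zero_iff, Prod.fst_zero, Prod.snd_zero, norm_zero]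
    exact ⟨⟨hR0.le, hR0.le⟩, norm_nonneg _⟩
  have hint1 : ∫ w in e '' P, f w ∂μ = ∫ w in closedBall 0 R₁, f w ∂μ := by
    refine stab_eq μ hψ hε' hfc θ hfχ (le_max_right _ _) hdet hA.measurableSet hA.isBounded ?_ ?_
    · intro w x hx
      rw [hmem, hmem, map_add]
      refine hPadd _ _ ((hKe x).trans ?_)
      have : ‖x‖ ≤ R₁ := hx.trans (le_max_right _ _)
      gcongr
    · intro w hw
      rw [mem_closedBall_zero_iff] at hw
      rw [hmem]
      have := (hPadd 0 (e.symm w) ((hKe w).trans (by gcongr))).2 h0P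
      rwa [zero_add] at this
  have hint2 : ∫ w in closedBall (0 : V) r, f w ∂μ = ∫ w in closedBall 0 R₁, f w ∂μ := by
    have hrR₁ : R₁ ≤ r := (le_max_left _ _).trans hr
    refine stab_eq μ hψ hε' hfc θ hfχ (le_max_right _ _) hdet isClosed_closedBall.measurableSet
      isBounded_closedBall ?_ (closedBall_subset_closedBall hrR₁)
    intro w x hx
    rw [mem_closedBall_zero_iff, mem_closedBall_zero_iff,
      ball_add_iff ((le_max_right _ _).trans hrR₁) hx]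
  have hint3 : ∫ w in e '' P, f w ∂μ = ((κ : ℝ) : ℂ) * ∫ p in P, f (e p) ∂π := by
    have he' : MeasurableEmbedding e := e.toHomeomorph.measurableEmbedding
    rw [hκ, Measure.restrict_smul, integral_smul_nnreal_measure, he'.setIntegral_map,
      preimage_image_eq _ e.injective, NNReal.smul_def]
    simp
  have hint4 := box_int ν lam hc₀ ht0 hR0.le (T : (Fin k → F) →ₗ[F] (Fin k → F))
    (g := fun p => f (e p)) (hfc.comp e.continuous) ?_ ?_
  · rw [hint2, ← hint1, hint3]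
    have hint4' : ∫ p in P, f (e p) ∂π = _ := hint4
    rw [hint4']
    have h5 := dual_vol lam T ht0 hc₀.1 h2
    have h6 : ((lam.real (closedBall (0 : Fin k → F) ‖t‖) *
      lam.real {q : Fin k → F | ‖(2 : F)⁻¹ • (T : (Fin k → F) →ₗ[F] (Fin k → F)) q‖ * ‖t‖ ≤
        ‖c₀‖} : ℝ) : ℂ) = _ := congrArg (fun x : ℝ => (x : ℂ)) h5
    rw [h6, ← mul_assoc, ← Complex.ofReal_mul]
    congr 1
    · congr 1
      ring
    · refine integral_congr_ae (Filter.Eventually.of_forall fun z => ?_)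
      simp only [he, hf, map_zero, Pi.zero_apply, zero_smul, Finset.sum_const_zero, add_zero]
  · intro z q a
    simp only [he]
    rw [hfy]
    simp only [Pi.zero_apply, zero_smul, Finset.sum_const_zero, add_zero]
    congr 3
    have hpr : (fun j => B (io z + s q) (y j)) = q := by
      funext j
      rw [map_add, LinearMap.add_apply, h.io_y, h.s_y, zero_add]
    rw [map_sum, Finset.mul_sum, dotProduct]
    refine Finset.sum_congr rfl fun i _ => ?_
    rw [map_smul, hT, hpr, smul_eq_mul]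
    simp only [Pi.smul_apply, smul_eq_mul, LinearEquiv.coe_coe]
    ring
  · intro z q hz hq
    obtain ⟨h7, h8, h9⟩ := hη' q (ht q hq)
    refine ⟨h7, ?_⟩
    simp only [he, Pi.zero_apply, zero_smul, Finset.sum_const_zero, add_zero, map_zero]
    rw [hfχ _ _ h8, h9 z hz, Circle.coe_one, one_mul]

end E

end SpW.LemI
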