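import Pool.Agent.Work.MP_3615d2_al.LocNorm

/-!
Norm index of quadratic extensions of local fields (char not 2, any residue characteristic).
-/

namespace Pool.Agent.MP_3615d2_al.LocNormTwo

open Subgroup

section idx

variable {A A' : Type*} [CommGroup A] [CommGroup A']

/-- The index lemma. -/
theorem index_eq_mul (f : A →* A') (B : Subgroup A) :
    B.index = (B.map f).relIndex f.range * B.relIndex f.ker := by
  have h1 : (B.map f).relIndex f.range = (B ⊔ f.ker).index := by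
    rw [MonoidHom.range_eq_map, Subgroup.relIndex_map_map, top_sup_eq, Subgroup.relIndex_top_right]
  have h2 : B.relIndex (B ⊔ f.ker) = B.relIndex f.ker := by
    rw [Subgroup.relIndex_sup_left]
  rw [h1, ← h2, mul_comm, Subgroup.relIndex_mul_index le_sup_left]

end idx

section fld

variable {K : Type*} [NontriviallyNormedField K] [IsUltrametricDist K]

theorem nadd {x y : K} {r : ℝ} (hx : ‖x‖ ≤ r) (hy : ‖y‖ ≤ r) : ‖x + y‖ ≤ r :=
  (IsUltrametricDist.norm_add_le_max x y).trans (max_le hx hy)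

theorem nsub {x y : K} {r : ℝ} (hx : ‖x‖ ≤ r) (hy : ‖y‖ ≤ r) : ‖x - y‖ ≤ r := by
  rw [sub_eq_add_neg]
  exact nadd hx (by rwa [norm_neg])

theorem norm_one_of {x : K} {r : ℝ} (hr : r < 1) (h : ‖x - 1‖ ≤ r) : ‖x‖ = 1 := by
  have h1 : ‖x - 1‖ < ‖(1 : K)‖ := by rw [norm_one]; exact h.trans_lt hr
  have h2 := IsUltrametricDist.norm_add_eq_max_of_norm_ne_norm (x := x - 1) (y := (1 : K)) h1.ne
  rw [sub_add_cancel, norm_one, max_eq_right (by rw [norm_one] at h1; exact h1.le)] at h2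
  exact h2

theorem norm_two_le : ‖(2 : K)‖ ≤ 1 := by
  have : (2 : K) = 1 + 1 := by norm_num
  rw [this]
  exact nadd norm_one.le norm_one.le

/-- Square roots near `1`. -/
theorem exists_sq [CompleteSpace K] (h2 : (2 : K) ≠ 0) {x : K} (hx : ‖x - 1‖ < ‖(2 : K)‖ ^ 2) :
    ∃ y : K, y ^ 2 = x ∧ ‖y - 1‖ ≤ ‖x - 1‖ / ‖(2 : K)‖ := by
  have h2p : 0 < ‖(2 : K)‖ := norm_pos_iff.2 h2
  -- y = 1 + z, 2 z + z^2 = x - 1; z = (x - 1)/2 - z^2/2 on the ball of radius r = |x-1|/|2| < |2|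
  set r : ℝ := ‖x - 1‖ / ‖(2 : K)‖ with hr
  have hr0 : 0 ≤ r := by positivity
  have hr2 : r < ‖(2 : K)‖ := by
    rw [hr, div_lt_iff₀ h2p]
    calc ‖x - 1‖ < ‖(2 : K)‖ ^ 2 := hx
      _ = _ := by ring
  let F : K → K := fun z => (x - 1) / 2 - z ^ 2 / 2
  have hself : ∀ z ∈ Metric.closedBall (0 : K) r, F z ∈ Metric.closedBall (0 : K) r := by
    intro z hz
    rw [mem_closedBall_zero_iff] at hz ⊢
    refine nsub ?_ ?_
    · rw [norm_div]
    · rw [norm_div, norm_pow, div_le_iff₀ h2p]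
      calc ‖z‖ ^ 2 = ‖z‖ * ‖z‖ := by ring
        _ ≤ r * ‖(2 : K)‖ := mul_le_mul hz (hz.trans hr2.le) (norm_nonneg _) hr0
  let S := Metric.closedBall (0 : K) r
  let G : S → S := fun z => ⟨F z, hself z z.2⟩
  have hlip : LipschitzWith (Real.toNNReal (r / ‖(2 : K)‖)) G := by
    refine LipschitzWith.of_dist_le_mul ?_
    intro z w
    rw [Subtype.dist_eq, Subtype.dist_eq, dist_eq_norm, dist_eq_norm,
      Real.coe_toNNReal _ (by positivity)]
    have hz := z.2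
    have hw := w.2
    rw [mem_closedBall_zero_iff] at hz hw
    have : (G z : K) - (G w : K) = - (((z : K) + w) * ((z : K) - w) / 2) := by
      simp only [G, F]; ring
    rw [this, norm_neg, norm_div, norm_mul]
    calc ‖(z : K) + w‖ * ‖(z : K) - w‖ / ‖(2 : K)‖ ≤ r * ‖(z : K) - w‖ / ‖(2 : K)‖ := by
          gcongr
          exact nadd hz hw
      _ = r / ‖(2 : K)‖ * ‖(z : K) - w‖ := by ring
  have hcontr : ContractingWith (Real.toNNReal (r / ‖(2 : K)‖)) G := by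
    refine ⟨?_, hlip⟩
    rw [Real.toNNReal_lt_one, div_lt_one h2p]
    exact hr2
  have : CompleteSpace S := by
    have : IsClosed (Metric.closedBall (0 : K) r) := Metric.isClosed_closedBall
    exact this.completeSpace_coe
  have : Nonempty S := ⟨⟨0, by simp [S, hr0]⟩⟩
  obtain ⟨z, hz⟩ : ∃ z : S, G z = z := ⟨_, hcontr.fixedPoint_isFixedPt⟩
  have hz' : F z = z := by
    have := congrArg Subtype.val hz
    simpa [G] using this
  refine ⟨1 + z, ?_, ?_⟩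
  · simp only [F] at hz'
    have : (x - 1) - (z : K) ^ 2 = 2 * z := by
      field_simp at hz'
      linear_combination hz'
    linear_combination -this
  · have := z.2
    rw [mem_closedBall_zero_iff] at this
    simpa using this

/-- `{u : |u - 1| ≤ |c|}` for `|c| < 1`. -/
def VK (c : K) (hc : ‖c‖ < 1) : Subgroup Kˣ where
  carrier := {u | ‖(u : K) - 1‖ ≤ ‖c‖}
  one_mem' := by simp
  mul_mem' := by
    intro u v hu hv
    simp only [Set.mem_ofPred_eq, Units.val_mul] at *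
    have : (u : K) * v - 1 = ((u : K) - 1) * v + (v - 1) := by ring
    rw [this]
    refine nadd ?_ hv
    rw [norm_mul, norm_one_of hc hv, mul_one]
    exact hu
  inv_mem' := by
    intro u hu
    simp only [Set.mem_ofPred_eq] at *
    have : ((u⁻¹ : Kˣ) : K) - 1 = -(((u : K) - 1) * ((u⁻¹ : Kˣ) : K)) := by
      rw [sub_mul, Units.mul_inv]; ring
    rw [this, norm_neg, norm_mul]
    have h1 : ‖((u⁻¹ : Kˣ) : K)‖ = 1 := by
      rw [Units.val_inv_eq_inv_val, norm_inv, norm_one_of hc hu, inv_one]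
    rw [h1, mul_one]
    exact hu

theorem mem_VK {c : K} {hc : ‖c‖ < 1} {u : Kˣ} : u ∈ VK c hc ↔ ‖(u : K) - 1‖ ≤ ‖c‖ := Iff.rfl

/-- the ball of radius `|2|`. -/
def O2 (K : Type*) [NontriviallyNormedField K] [IsUltrametricDist K] : AddSubgroup K where
  carrier := {x | ‖x‖ ≤ ‖(2 : K)‖}
  zero_mem' := by simp
  add_mem' := fun hx hy => nadd hx hy
  neg_mem' := by
    intro x hx
    simpa using hx

theorem mem_O2 {x : K} : x ∈ O2 K ↔ ‖x‖ ≤ ‖(2 : K)‖ := Iff.rfl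

/-- `v ↦ (v - 1)/c mod 2`. -/
def phi (c : K) (hc : ‖c‖ < 1) (hc0 : c ≠ 0) (hc2 : ‖c‖ ≤ ‖(2 : K)‖) :
    VK c hc →* Multiplicative (K ⧸ O2 K) where
  toFun v := Multiplicative.ofAdd (QuotientAddGroup.mk ((((v : Kˣ) : K) - 1) / c))
  map_one' := by simp
  map_mul' := by
    intro u v
    rw [← ofAdd_add, ← QuotientAddGroup.mk_add]
    congr 1
    rw [QuotientAddGroup.eq, mem_O2]
    have hu := mem_VK.1 u.2
    have hv := mem_VK.1 v.2
    have : -((((u * v : VK c hc) : Kˣ) : K) - 1) / c + ((((u : Kˣ) : K) - 1) / c +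
        (((v : Kˣ) : K) - 1) / c) = -((((u : Kˣ) : K) - 1) * (((v : Kˣ) : K) - 1)) / c := by
      push_cast
      ring
    rw [← neg_div, this, norm_div, norm_neg, norm_mul]
    have hcp : 0 < ‖c‖ := norm_pos_iff.2 hc0
    rw [div_le_iff₀ hcp]
    calc ‖((u : Kˣ) : K) - 1‖ * ‖((v : Kˣ) : K) - 1‖ ≤ ‖c‖ * ‖c‖ := by gcongr
      _ ≤ ‖(2 : K)‖ * ‖c‖ := by gcongr

theorem phi_ker [CompleteSpace K] (h2 : (2 : K) ≠ 0) (c : K) (hc : ‖c‖ < 1) (hc0 : c ≠ 0)
    (hc2 : ‖c‖ < ‖(2 : K)‖) :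
    (phi c hc hc0 hc2.le).ker = (powMonoidHom 2 : VK c hc →* VK c hc).range := by
  have h2p : 0 < ‖(2 : K)‖ := norm_pos_iff.2 h2
  have hcp : 0 < ‖c‖ := norm_pos_iff.2 hc0
  ext v
  rw [MonoidHom.mem_ker, MonoidHom.mem_range]
  have hker : phi c hc hc0 hc2.le v = 1 ↔ ‖((v : Kˣ) : K) - 1‖ ≤ ‖(2 : K)‖ * ‖c‖ := by
    show Multiplicative.ofAdd (QuotientAddGroup.mk ((((v : Kˣ) : K) - 1) / c) : K ⧸ O2 K) = 1 ↔ _
    rw [ofAdd_eq_one, QuotientAddGroup.eq_zero_iff, mem_O2, norm_div, div_le_iff₀ hcp]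
  rw [hker]
  constructor
  · intro h
    obtain ⟨y, hy, hy1⟩ := exists_sq h2 (x := ((v : Kˣ) : K)) (by
      calc ‖((v : Kˣ) : K) - 1‖ ≤ ‖(2 : K)‖ * ‖c‖ := h
        _ < ‖(2 : K)‖ * ‖(2 : K)‖ := by gcongr
        _ = _ := by ring)
    have hyc : ‖y - 1‖ ≤ ‖c‖ := by
      refine hy1.trans ?_
      rw [div_le_iff₀ h2p]
      linarith [mul_comm ‖(2 : K)‖ ‖c‖]
    have hy0 : y ≠ 0 := by
      intro h0
      have := norm_one_of hc hyc
      rw [h0, norm_zero] at this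
      exact zero_ne_one this
    refine ⟨⟨Units.mk0 y hy0, hyc⟩, ?_⟩
    apply Subtype.ext
    apply Units.ext
    simpa using hy
  · rintro ⟨u, rfl⟩
    have hu := mem_VK.1 u.2
    have : (((powMonoidHom 2 u : VK c hc) : Kˣ) : K) - 1 =
        2 * (((u : Kˣ) : K) - 1) + (((u : Kˣ) : K) - 1) * (((u : Kˣ) : K) - 1) := by
      simp only [powMonoidHom_apply]
      push_cast
      ring
    rw [this]
    refine nadd ?_ ?_
    · rw [norm_mul]; gcongr
    · rw [norm_mul]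
      calc ‖((u : Kˣ) : K) - 1‖ * ‖((u : Kˣ) : K) - 1‖ ≤ ‖c‖ * ‖c‖ := by gcongr
        _ ≤ ‖(2 : K)‖ * ‖c‖ := by gcongr

theorem phi_range (c : K) (hc : ‖c‖ < 1) (hc0 : c ≠ 0) (hc2 : ‖c‖ ≤ ‖(2 : K)‖)
    (z : Multiplicative (K ⧸ O2 K)) :
    z ∈ (phi c hc hc0 hc2).range ↔ ∃ x : K, ‖x‖ ≤ 1 ∧
      z = Multiplicative.ofAdd (QuotientAddGroup.mk x : K ⧸ O2 K) := by
  have hcp : 0 < ‖c‖ := norm_pos_iff.2 hc0
  constructor
  · rintro ⟨v, rfl⟩
    refine ⟨(((v : Kˣ) : K) - 1) / c, ?_, rfl⟩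
    rw [norm_div, div_le_one hcp]
    exact mem_VK.1 v.2
  · rintro ⟨x, hx, rfl⟩
    have h1 : ‖(1 + c * x) - 1‖ ≤ ‖c‖ := by
      rw [add_sub_cancel_left, norm_mul]
      calc ‖c‖ * ‖x‖ ≤ ‖c‖ * 1 := by gcongr
        _ = ‖c‖ := mul_one _
    have h0 : 1 + c * x ≠ 0 := by
      intro h0
      have := norm_one_of hc h1
      rw [h0, norm_zero] at this
      exact zero_ne_one this
    refine ⟨⟨Units.mk0 _ h0, h1⟩, ?_⟩
    show Multiplicative.ofAdd (QuotientAddGroup.mk (((1 + c * x) - 1) / c) : K ⧸ O2 K) = _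
    rw [add_sub_cancel_left, mul_div_cancel_left₀ _ hc0]

end fld

section quad

set_option linter.unusedSectionVars false

open QuadraticAlgebra

variable {K : Type*} [NontriviallyNormedField K] [IsUltrametricDist K] {d : K}
  [Fact (∀ r : K, r ^ 2 ≠ d + 0 * r)]

/-- The norm on units. -/
noncomputable def Nm (d : K) : (QuadraticAlgebra K d 0)ˣ →* Kˣ :=
  Units.map (QuadraticAlgebra.norm (R := K) (a := d) (b := 0))

/-- The inclusion on units. -/
noncomputable def inc (d : K) : Kˣ →* (QuadraticAlgebra K d 0)ˣ :=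
  Units.map (algebraMap K (QuadraticAlgebra K d 0)).toMonoidHom

/-- Conjugation on units. -/
noncomputable def cj (d : K) : (QuadraticAlgebra K d 0)ˣ →* (QuadraticAlgebra K d 0)ˣ :=
  Units.map (starRingEnd (QuadraticAlgebra K d 0)).toMonoidHom

/-- `x ↦ x / σ x`. -/
noncomputable def Dm (d : K) : (QuadraticAlgebra K d 0)ˣ →* (QuadraticAlgebra K d 0)ˣ :=
  MonoidHom.id _ / cj d

theorem Nm_val (x : (QuadraticAlgebra K d 0)ˣ) :
    ((Nm d x : Kˣ) : K) = x.val.re * x.val.re - d * x.val.im * x.val.im := by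
  show QuadraticAlgebra.norm x.val = _
  rw [norm_def]; ring

theorem inc_re (u : Kˣ) : (inc d u).val.re = u := rfl

theorem inc_im (u : Kˣ) : (inc d u).val.im = 0 := rfl

theorem cj_re (x : (QuadraticAlgebra K d 0)ˣ) : (cj d x).val.re = x.val.re := by
  show (star x.val).re = _
  simp

theorem cj_im (x : (QuadraticAlgebra K d 0)ˣ) : (cj d x).val.im = -x.val.im := by
  show (star x.val).im = _
  simp

theorem mul_re' (x y : (QuadraticAlgebra K d 0)ˣ) :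
    (x * y).val.re = x.val.re * y.val.re + d * x.val.im * y.val.im := by
  simp [Units.val_mul]

theorem mul_im' (x y : (QuadraticAlgebra K d 0)ˣ) :
    (x * y).val.im = x.val.re * y.val.im + x.val.im * y.val.re := by
  simp [Units.val_mul]

theorem qext {x y : (QuadraticAlgebra K d 0)ˣ} (h1 : x.val.re = y.val.re)
    (h2 : x.val.im = y.val.im) : x = y :=
  Units.ext (QuadraticAlgebra.ext h1 h2)

theorem mul_cj (x : (QuadraticAlgebra K d 0)ˣ) : x * cj d x = inc d (Nm d x) := by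
  apply qext
  · rw [mul_re', cj_re, cj_im, inc_re, Nm_val]; ring
  · rw [mul_im', cj_re, cj_im, inc_im]; ring

theorem inc_injective : Function.Injective (inc d) := by
  intro u v h
  have := congrArg (fun x : (QuadraticAlgebra K d 0)ˣ => x.val.re) h
  simp only [inc_re] at this
  exact Units.ext this

theorem Nm_inc (u : Kˣ) : Nm d (inc d u) = u ^ 2 := by
  apply Units.ext
  rw [Nm_val, inc_re, inc_im]
  push_cast
  ring

theorem cj_inc (u : Kˣ) : cj d (inc d u) = inc d u := by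
  apply qext
  · rw [cj_re]
  · rw [cj_im, inc_im]; ring

theorem Dm_inc (u : Kˣ) : Dm d (inc d u) = 1 := by
  simp [Dm, cj_inc]

theorem Nm_cj (x : (QuadraticAlgebra K d 0)ˣ) : Nm d (cj d x) = Nm d x := by
  apply Units.ext
  rw [Nm_val, Nm_val, cj_re, cj_im]; ring

theorem cj_eq_inv {x : (QuadraticAlgebra K d 0)ˣ} (h : Nm d x = 1) : cj d x = x⁻¹ := by
  have := mul_cj x
  rw [h, map_one] at this
  exact eq_inv_of_mul_eq_one_right this

theorem Dm_of_Nm {x : (QuadraticAlgebra K d 0)ˣ} (h : Nm d x = 1) : Dm d x = x ^ 2 := by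
  simp [Dm, cj_eq_inv h, sq]

/-- The kernel of `D` is `Kˣ`. -/
theorem Dm_ker (h2 : (2 : K) ≠ 0) : (Dm d).ker = (inc d).range := by
  ext x
  rw [MonoidHom.mem_ker, MonoidHom.mem_range]
  constructor
  · intro h
    have h' : x = cj d x := by
      have : x / cj d x = 1 := h
      exact div_eq_one.1 this
    have him : x.val.im = 0 := by
      have := congrArg (fun y : (QuadraticAlgebra K d 0)ˣ => y.val.im) h'
      simp only [cj_im] at this
      have h3 : 2 * x.val.im = 0 := by linear_combination this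
      rcases mul_eq_zero.1 h3 with h4 | h4
      · exact absurd h4 h2
      · exact h4
    have hre : x.val.re ≠ 0 := by
      intro h0
      exact x.ne_zero (QuadraticAlgebra.ext h0 him)
    exact ⟨Units.mk0 _ hre, qext rfl (by rw [inc_im, him])⟩
  · rintro ⟨u, rfl⟩
    exact Dm_inc u

/-- Hilbert 90. -/
theorem Dm_range : (Dm d).range = (Nm d).ker := by
  ext x
  rw [MonoidHom.mem_ker, MonoidHom.mem_range]
  constructor
  · rintro ⟨y, rfl⟩
    simp [Dm, map_div, Nm_cj]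
  · intro h
    by_cases hx : (1 : QuadraticAlgebra K d 0) + x.val = 0
    · -- x = -1 = D ω
      have hω : (⟨0, 1⟩ : QuadraticAlgebra K d 0) ≠ 0 := by
        intro h0
        have := congrArg QuadraticAlgebra.im h0
        simp at this
      refine ⟨Units.mk0 _ hω, ?_⟩
      have : x = -1 := by
        apply Units.ext
        rw [Units.val_neg, Units.val_one]
        exact eq_neg_of_add_eq_zero_right hx
      rw [this]
      show Units.mk0 _ hω / cj d (Units.mk0 _ hω) = -1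
      rw [div_eq_iff_eq_mul]
      apply qext
      · rw [mul_re', cj_re, cj_im]; simp
      · rw [mul_im', cj_re, cj_im]; simp
    · refine ⟨Units.mk0 _ hx, ?_⟩
      show Units.mk0 _ hx / cj d (Units.mk0 _ hx) = x
      rw [div_eq_iff_eq_mul]
      have hN : x.val.re * x.val.re - d * x.val.im * x.val.im = 1 := by
        rw [← Nm_val, h, Units.val_one]
      apply qext
      · rw [mul_re', cj_re, cj_im]
        simp only [Units.val_mk0, re_add, re_one, im_add, im_one]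
        linear_combination -hN
      · rw [mul_im', cj_re, cj_im]
        simp only [Units.val_mk0, re_add, re_one, im_add, im_one]
        ring

/-- small elements of norm one. -/
def Tm (d c : K) [Fact (∀ r : K, r ^ 2 ≠ d + 0 * r)] (hd : ‖d‖ ≤ 1) (hc : ‖c‖ < 1) :
    Subgroup (QuadraticAlgebra K d 0)ˣ where
  carrier := {t | Nm d t = 1 ∧ ‖t.val.re - 1‖ ≤ ‖c‖ ∧ ‖t.val.im‖ ≤ ‖c‖}
  one_mem' := by simp
  mul_mem' := by
    rintro s t ⟨h1, h2, h3⟩ ⟨h4, h5, h6⟩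
    refine ⟨by rw [map_mul, h1, h4, one_mul], ?_, ?_⟩
    · rw [mul_re']
      have : s.val.re * t.val.re + d * s.val.im * t.val.im - 1 =
        ((s.val.re - 1) * t.val.re + (t.val.re - 1)) + d * s.val.im * t.val.im := by ring
      rw [this]
      refine nadd (nadd ?_ h5) ?_
      · rw [norm_mul, norm_one_of hc h5, mul_one]; exact h2
      · rw [norm_mul, norm_mul]
        calc ‖d‖ * ‖s.val.im‖ * ‖t.val.im‖ ≤ 1 * ‖c‖ * 1 := by
              gcongr
              exact h6.trans hc.le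
          _ = ‖c‖ := by ring
    · rw [mul_im']
      refine nadd ?_ ?_
      · rw [norm_mul, norm_one_of hc h2, one_mul]; exact h6
      · rw [norm_mul, norm_one_of hc h5, mul_one]; exact h3
  inv_mem' := by
    rintro s ⟨h1, h2, h3⟩
    refine ⟨by rw [map_inv, h1, inv_one], ?_, ?_⟩
    · rw [← cj_eq_inv h1, cj_re]; exact h2
    · rw [← cj_eq_inv h1, cj_im, _root_.norm_neg]; exact h3

theorem mem_Tm {c : K} {hd : ‖d‖ ≤ 1} {hc : ‖c‖ < 1} {t : (QuadraticAlgebra K d 0)ˣ} :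
    t ∈ Tm d c hd hc ↔ Nm d t = 1 ∧ ‖t.val.re - 1‖ ≤ ‖c‖ ∧ ‖t.val.im‖ ≤ ‖c‖ := Iff.rfl

/-- `t ↦ im t / c mod 2`. -/
noncomputable def psi (d c : K) [Fact (∀ r : K, r ^ 2 ≠ d + 0 * r)] (hd : ‖d‖ ≤ 1) (hc : ‖c‖ < 1)
    (hc0 : c ≠ 0) (hc2 : ‖c‖ ≤ ‖(2 : K)‖) :
    Tm d c hd hc →* Multiplicative (K ⧸ O2 K) where
  toFun t := Multiplicative.ofAdd (QuotientAddGroup.mk (t.val.val.im / c))
  map_one' := by simp
  map_mul' := by
    intro u v
    rw [← ofAdd_add, ← QuotientAddGroup.mk_add]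
    congr 1
    rw [QuotientAddGroup.eq, mem_O2]
    obtain ⟨-, hu1, hu2⟩ := mem_Tm.1 u.2
    obtain ⟨-, hv1, hv2⟩ := mem_Tm.1 v.2
    have : -((u * v : Tm d c hd hc).val.val.im / c) + (u.val.val.im / c + v.val.val.im / c) =
        -((u.val.val.re - 1) * v.val.val.im + u.val.val.im * (v.val.val.re - 1)) / c := by
      have h1 : (u * v : Tm d c hd hc).val.val.im = u.val.val.re * v.val.val.im +
        u.val.val.im * v.val.val.re := mul_im' u.val v.val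
      rw [h1]
      ring
    rw [this, norm_div, _root_.norm_neg]
    have hcp : 0 < ‖c‖ := norm_pos_iff.2 hc0
    rw [div_le_iff₀ hcp]
    refine nadd ?_ ?_
    · rw [norm_mul]
      calc ‖u.val.val.re - 1‖ * ‖v.val.val.im‖ ≤ ‖c‖ * ‖c‖ := by gcongr
        _ ≤ ‖(2 : K)‖ * ‖c‖ := by gcongr
    · rw [norm_mul]
      calc ‖u.val.val.im‖ * ‖v.val.val.re - 1‖ ≤ ‖c‖ * ‖c‖ := by gcongr
        _ ≤ ‖(2 : K)‖ * ‖c‖ := by gcongr

theorem psi_ker [CompleteSpace K] (h2 : (2 : K) ≠ 0) (c : K) (hd : ‖d‖ ≤ 1) (hc : ‖c‖ < 1)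
    (hc0 : c ≠ 0) (hc2 : ‖c‖ < ‖(2 : K)‖) :
    (psi d c hd hc hc0 hc2.le).ker =
      (powMonoidHom 2 : Tm d c hd hc →* Tm d c hd hc).range := by
  have h2p : 0 < ‖(2 : K)‖ := norm_pos_iff.2 h2
  have hcp : 0 < ‖c‖ := norm_pos_iff.2 hc0
  have h21 : ‖(2 : K)‖ ≤ 1 := norm_two_le
  ext t
  rw [MonoidHom.mem_ker, MonoidHom.mem_range]
  have hker : psi d c hd hc hc0 hc2.le t = 1 ↔ ‖t.val.val.im‖ ≤ ‖(2 : K)‖ * ‖c‖ := by
    show Multiplicative.ofAdd (QuotientAddGroup.mk (t.val.val.im / c) : K ⧸ O2 K) = 1 ↔ _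
    rw [ofAdd_eq_one, QuotientAddGroup.eq_zero_iff, mem_O2, norm_div, div_le_iff₀ hcp]
  rw [hker]
  obtain ⟨hN, ht1, ht2⟩ := mem_Tm.1 t.2
  set a := t.val.val.re with ha
  set b := t.val.val.im with hb
  have hN' : a * a - d * b * b = 1 := by rw [ha, hb, ← Nm_val, hN, Units.val_one]
  constructor
  · intro h
    -- (a - 1)(a + 1) = d b^2
    have hap : ‖a + 1‖ = ‖(2 : K)‖ := by
      have h1 : ‖a - 1‖ < ‖(2 : K)‖ := ht1.trans_lt hc2
      have h3 := IsUltrametricDist.norm_add_eq_max_of_norm_ne_norm (x := a - 1) (y := (2 : K)) h1.ne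
      rw [max_eq_right h1.le] at h3
      rw [← h3]; congr 1; ring
    have hd2 : d * b * b = (a - 1) * (a + 1) := by linear_combination -hN'
    have ha1 : ‖a - 1‖ ≤ ‖(2 : K)‖ * ‖c‖ ^ 2 := by
      have h4 : ‖a - 1‖ * ‖(2 : K)‖ ≤ (‖(2 : K)‖ * ‖c‖) * (‖(2 : K)‖ * ‖c‖) := by
        rw [← hap, ← norm_mul, ← hd2, norm_mul, norm_mul, hap]
        calc ‖d‖ * ‖b‖ * ‖b‖ ≤ 1 * (‖(2 : K)‖ * ‖c‖) * (‖(2 : K)‖ * ‖c‖) := by gcongr
          _ = _ := by ring
      have h5 : ‖a - 1‖ * ‖(2 : K)‖ ≤ (‖(2 : K)‖ * ‖c‖ ^ 2) * ‖(2 : K)‖ := by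
        calc _ ≤ _ := h4
          _ = _ := by ring
      exact le_of_mul_le_mul_right h5 h2p
    have hx1 : (1 + (a - 1) / 2) - 1 = (a - 1) / 2 := by ring
    have hxn : ‖(a - 1) / 2‖ ≤ ‖c‖ ^ 2 := by
      rw [norm_div, div_le_iff₀ h2p]
      calc ‖a - 1‖ ≤ _ := ha1
        _ = _ := by ring
    obtain ⟨w, hw, hw1⟩ := exists_sq h2 (x := 1 + (a - 1) / 2) (by
      rw [hx1]
      calc ‖(a - 1) / 2‖ ≤ ‖c‖ ^ 2 := hxn
        _ < ‖(2 : K)‖ ^ 2 := by gcongr)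
    rw [hx1] at hw1
    have hwc : ‖w - 1‖ ≤ ‖c‖ := by
      refine hw1.trans ?_
      rw [div_le_iff₀ h2p]
      calc ‖(a - 1) / 2‖ ≤ ‖c‖ ^ 2 := hxn
        _ = ‖c‖ * ‖c‖ := by ring
        _ ≤ ‖c‖ * ‖(2 : K)‖ := by gcongr
    have hw1' := norm_one_of hc hwc
    have hw0 : w ≠ 0 := by
      intro h0
      rw [h0, _root_.norm_zero] at hw1'
      exact zero_ne_one hw1'
    -- s = w + b/(2w) δ
    have hNs : w * w - d * (b / (2 * w)) * (b / (2 * w)) = 1 := by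
      have hw2 : w * w = (a + 1) / 2 := by
        have : w * w = w ^ 2 := by ring
        rw [this, hw]; field_simp; ring
      have hs1 : d * (b / (2 * w)) * (b / (2 * w)) = (a - 1) / 2 := by
        have : d * (b / (2 * w)) * (b / (2 * w)) = (d * b * b) / ((2 * 2) * (w * w)) := by
          field_simp
        rw [this, hd2, hw2]
        have hap0 : a + 1 ≠ 0 := by
          intro h0
          rw [h0, _root_.norm_zero] at hap
          exact h2p.ne hap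
        field_simp
      rw [hw2, hs1]
      field_simp
      ring
    have hs0 : (⟨w, b / (2 * w)⟩ : QuadraticAlgebra K d 0) ≠ 0 := by
      intro h0
      exact hw0 (congrArg QuadraticAlgebra.re h0)
    have hmem : Units.mk0 _ hs0 ∈ Tm d c hd hc := by
      refine ⟨?_, hwc, ?_⟩
      · apply Units.ext
        rw [Nm_val]
        exact hNs
      · show ‖b / (2 * w)‖ ≤ ‖c‖
        rw [norm_div, norm_mul, hw1', mul_one, div_le_iff₀ h2p, mul_comm]
        exact h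
    refine ⟨⟨_, hmem⟩, ?_⟩
    apply Subtype.ext
    have hsq : ((powMonoidHom 2 (⟨_, hmem⟩ : Tm d c hd hc) : Tm d c hd hc) :
        (QuadraticAlgebra K d 0)ˣ) = Units.mk0 _ hs0 * Units.mk0 _ hs0 := by
      rw [powMonoidHom_apply, sq]; rfl
    rw [hsq]
    apply qext
    · rw [mul_re']
      show w * w + d * (b / (2 * w)) * (b / (2 * w)) = a
      have : w * w = w ^ 2 := by ring
      rw [hw] at this
      have h7 : a = 2 * (w * w) - 1 := by
        rw [this]; field_simp; ring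
      rw [h7]
      linear_combination -hNs
    · rw [mul_im']
      show w * (b / (2 * w)) + (b / (2 * w)) * w = b
      field_simp
      ring
  · rintro ⟨s, hs⟩
    obtain ⟨-, hs1, hs2⟩ := mem_Tm.1 s.2
    have : b = 2 * (s.val.val.re * s.val.val.im) := by
      have h8 : t.val = s.val * s.val := by
        rw [← hs, powMonoidHom_apply, sq]; rfl
      rw [hb, h8, mul_im']
      ring
    rw [this, norm_mul, norm_mul, norm_one_of hc hs1, one_mul]
    gcongr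

theorem psi_range [CompleteSpace K] (h2 : (2 : K) ≠ 0) (c : K) (hd : ‖d‖ ≤ 1) (hc : ‖c‖ < 1)
    (hc0 : c ≠ 0) (hc2 : ‖c‖ < ‖(2 : K)‖)
    (z : Multiplicative (K ⧸ O2 K)) :
    z ∈ (psi d c hd hc hc0 hc2.le).range ↔ ∃ x : K, ‖x‖ ≤ 1 ∧
      z = Multiplicative.ofAdd (QuotientAddGroup.mk x : K ⧸ O2 K) := by
  have hcp : 0 < ‖c‖ := norm_pos_iff.2 hc0
  have h2p : 0 < ‖(2 : K)‖ := norm_pos_iff.2 h2
  constructor
  · rintro ⟨v, rfl⟩
    refine ⟨v.val.val.im / c, ?_, rfl⟩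
    rw [norm_div, div_le_one hcp]
    exact (mem_Tm.1 v.2).2.2
  · rintro ⟨x, hx, rfl⟩
    have hcx : ‖c * x‖ ≤ ‖c‖ := by
      rw [norm_mul]
      calc ‖c‖ * ‖x‖ ≤ ‖c‖ * 1 := by gcongr
        _ = ‖c‖ := mul_one _
    have hq : ‖(1 + d * (c * x) * (c * x)) - 1‖ ≤ ‖c‖ * ‖c‖ := by
      rw [add_sub_cancel_left, norm_mul, norm_mul]
      calc ‖d‖ * ‖c * x‖ * ‖c * x‖ ≤ 1 * ‖c‖ * ‖c‖ := by gcongr
        _ = ‖c‖ * ‖c‖ := by ring
    obtain ⟨a, ha, ha1⟩ := exists_sq h2 (x := 1 + d * (c * x) * (c * x)) (by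
      calc _ ≤ ‖c‖ * ‖c‖ := hq
        _ < ‖(2 : K)‖ * ‖(2 : K)‖ := by gcongr
        _ = _ := by ring)
    have hac : ‖a - 1‖ ≤ ‖c‖ := by
      refine ha1.trans ?_
      rw [div_le_iff₀ h2p]
      exact hq.trans (by gcongr)
    have ha0 : a ≠ 0 := by
      intro h0
      have := norm_one_of hc hac
      rw [h0, _root_.norm_zero] at this
      exact zero_ne_one this
    have hs0 : (⟨a, c * x⟩ : QuadraticAlgebra K d 0) ≠ 0 := by
      intro h0
      exact ha0 (congrArg QuadraticAlgebra.re h0)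
    have hmem : Units.mk0 _ hs0 ∈ Tm d c hd hc := by
      refine ⟨?_, hac, hcx⟩
      apply Units.ext
      rw [Nm_val]
      show a * a - d * (c * x) * (c * x) = 1
      linear_combination ha
    refine ⟨⟨_, hmem⟩, ?_⟩
    show Multiplicative.ofAdd (QuotientAddGroup.mk ((c * x) / c) : K ⧸ O2 K) = _
    rw [mul_div_cancel_left₀ _ hc0]

/-- `ϖ^k v`. -/
noncomputable def jj (c : K) (hc : ‖c‖ < 1) (ϖ : Kˣ) : Multiplicative ℤ × VK c hc →* Kˣ :=
  (zpowersHom Kˣ ϖ).coprod (VK c hc).subtype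

theorem jj_apply (c : K) (hc : ‖c‖ < 1) (ϖ : Kˣ) (k : Multiplicative ℤ) (v : VK c hc) :
    jj c hc ϖ (k, v) = ϖ ^ (Multiplicative.toAdd k) * v := by
  simp [jj, zpowersHom_apply]

theorem jj_norm {c : K} {hc : ‖c‖ < 1} {ϖ : Kˣ} (k : Multiplicative ℤ) (v : VK c hc) :
    ‖((jj c hc ϖ (k, v) : Kˣ) : K)‖ = ‖(ϖ : K)‖ ^ (Multiplicative.toAdd k) := by
  rw [jj_apply, Units.val_mul, norm_mul, norm_one_of hc (mem_VK.1 v.2), mul_one,
    Units.val_zpow_eq_zpow_val, norm_zpow]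

theorem zpow_one_iff {r : ℝ} (h0 : 0 < r) (h1 : r < 1) {k : ℤ} (h : r ^ k = 1) : k = 0 := by
  by_contra hk
  exact hk ((zpow_eq_one_iff_right₀ h0.le h1.ne).1 h)

theorem jj_injective {c : K} {hc : ‖c‖ < 1} {ϖ : Kˣ} (hϖ : ‖(ϖ : K)‖ < 1) :
    Function.Injective (jj c hc ϖ) := by
  rw [injective_iff_map_eq_one]
  rintro ⟨k, v⟩ h
  have hn := jj_norm (ϖ := ϖ) k v
  rw [h, Units.val_one, NormOneClass.norm_one] at hn
  have hk : Multiplicative.toAdd k = 0 :=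
    zpow_one_iff (norm_pos_iff.2 ϖ.ne_zero) hϖ hn.symm
  have hk1 : k = 1 := by
    apply Multiplicative.toAdd.injective
    rw [hk]; rfl
  rw [jj_apply, hk, zpow_zero, one_mul] at h
  rw [hk1]
  exact Prod.ext rfl (Subtype.ext h)

theorem neg_one_notMem {c : K} {hc : ‖c‖ < 1} {ϖ : Kˣ} (hϖ : ‖(ϖ : K)‖ < 1)
    (hc2 : ‖c‖ < ‖(2 : K)‖) : (-1 : Kˣ) ∉ (jj c hc ϖ).range := by
  rintro ⟨⟨k, v⟩, h⟩
  have hn := jj_norm (ϖ := ϖ) k v
  rw [h, Units.val_neg, _root_.norm_neg, Units.val_one, NormOneClass.norm_one] at hn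
  have hk : Multiplicative.toAdd k = 0 :=
    zpow_one_iff (norm_pos_iff.2 ϖ.ne_zero) hϖ hn.symm
  rw [jj_apply, hk, zpow_zero, one_mul] at h
  have hv := mem_VK.1 v.2
  rw [h, Units.val_neg, Units.val_one] at hv
  have : (-1 : K) - 1 = -2 := by norm_num
  rw [this, _root_.norm_neg] at hv
  exact absurd hv (not_le.2 hc2)

theorem sq_prod_range {G H : Type*} [CommGroup G] [CommGroup H] :
    (powMonoidHom 2 : G × H →* G × H).range =
      (powMonoidHom 2 : G →* G).range.prod (powMonoidHom 2 : H →* H).range := by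
  ext ⟨g, h⟩
  rw [Subgroup.mem_prod]
  constructor
  · rintro ⟨⟨a, b⟩, hab⟩
    exact ⟨⟨a, congrArg Prod.fst hab⟩, ⟨b, congrArg Prod.snd hab⟩⟩
  · rintro ⟨⟨a, ha⟩, ⟨b, hb⟩⟩
    exact ⟨(a, b), Prod.ext ha hb⟩

theorem index_sq_int : (powMonoidHom 2 : Multiplicative ℤ →* Multiplicative ℤ).range.index = 2 := by
  rw [Subgroup.index_eq_two_iff]
  refine ⟨Multiplicative.ofAdd 1, fun b => ?_⟩
  have key : ∀ x : Multiplicative ℤ,
      x ∈ (powMonoidHom 2 : Multiplicative ℤ →* Multiplicative ℤ).range ↔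
        Even (Multiplicative.toAdd x) := by
    intro x
    constructor
    · rintro ⟨y, rfl⟩
      refine ⟨Multiplicative.toAdd y, ?_⟩
      rw [powMonoidHom_apply, sq, toAdd_mul]
    · rintro ⟨y, hy⟩
      refine ⟨Multiplicative.ofAdd y, ?_⟩
      apply Multiplicative.toAdd.injective
      rw [powMonoidHom_apply, sq, toAdd_mul, toAdd_ofAdd, hy]
  rw [key, key, toAdd_mul, toAdd_ofAdd, xor_iff_iff_not, Int.even_add_one]

theorem index_sq_jj {c : K} {hc : ‖c‖ < 1} {ϖ : Kˣ} (hϖ : ‖(ϖ : K)‖ < 1) :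
    ((jj c hc ϖ).range.map (powMonoidHom 2)).relIndex (jj c hc ϖ).range =
      2 * (powMonoidHom 2 : VK c hc →* VK c hc).range.index := by
  have h1 : (jj c hc ϖ).range.map (powMonoidHom 2) =
      ((powMonoidHom 2 : Multiplicative ℤ × VK c hc →* _).range).map (jj c hc ϖ) := by
    rw [MonoidHom.range_eq_map, MonoidHom.range_eq_map, Subgroup.map_map, Subgroup.map_map]
    congr 1
    ext x
    simp
  rw [h1]
  conv_lhs => rw [MonoidHom.range_eq_map (jj c hc ϖ)]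
  rw [Subgroup.relIndex_map_map_of_injective _ _ (jj_injective hϖ), Subgroup.relIndex_top_right,
    sq_prod_range, Subgroup.index_prod, index_sq_int]

theorem relIndex_sq_Tm {c : K} {hd : ‖d‖ ≤ 1} {hc : ‖c‖ < 1} :
    ((Tm d c hd hc).map (powMonoidHom 2)).relIndex (Tm d c hd hc) =
      (powMonoidHom 2 : Tm d c hd hc →* Tm d c hd hc).range.index := by
  have h1 : (Tm d c hd hc).map (powMonoidHom 2) =
      ((powMonoidHom 2 : Tm d c hd hc →* _).range).map (Tm d c hd hc).subtype := by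
    have : Tm d c hd hc = (⊤ : Subgroup (Tm d c hd hc)).map (Tm d c hd hc).subtype := by
      rw [← MonoidHom.range_eq_map, Subgroup.range_subtype]
    conv_lhs => rw [this]
    rw [MonoidHom.range_eq_map, Subgroup.map_map, Subgroup.map_map]
    congr 1
  rw [h1]
  have h2 : (Tm d c hd hc).map (powMonoidHom 2) = (Tm d c hd hc).map (powMonoidHom 2) := rfl
  have h3 : Tm d c hd hc = (⊤ : Subgroup (Tm d c hd hc)).map (Tm d c hd hc).subtype := by
    rw [← MonoidHom.range_eq_map, Subgroup.range_subtype]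
  conv_lhs =>
    arg 2
    rw [h3]
  rw [Subgroup.relIndex_map_map_of_injective _ _ (Subgroup.subtype_injective _),
    Subgroup.relIndex_top_right]

/-- The two square indices agree. -/
theorem index_sq_eq [CompleteSpace K] (h2 : (2 : K) ≠ 0) (c : K) (hd : ‖d‖ ≤ 1) (hc : ‖c‖ < 1)
    (hc0 : c ≠ 0) (hc2 : ‖c‖ < ‖(2 : K)‖) :
    (powMonoidHom 2 : VK c hc →* VK c hc).range.index =
      (powMonoidHom 2 : Tm d c hd hc →* Tm d c hd hc).range.index := by
  rw [← phi_ker h2 c hc hc0 hc2, ← psi_ker h2 c hd hc hc0 hc2, Subgroup.index_ker,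
    Subgroup.index_ker]
  have : (phi c hc hc0 hc2.le).range = (psi d c hd hc hc0 hc2.le).range := by
    ext z
    rw [phi_range, psi_range h2 c hd hc hc0 hc2]
  rw [this]

/-- The subgroup `B = ϖ^Z V`. -/
noncomputable def BB (d c : K) [Fact (∀ r : K, r ^ 2 ≠ d + 0 * r)] (hd : ‖d‖ ≤ 1) (hc : ‖c‖ < 1)
    (ϖ : Kˣ) : Subgroup (QuadraticAlgebra K d 0)ˣ :=
  (jj c hc ϖ).range.map (inc d) ⊔ Tm d c hd hc

theorem mem_BB {c : K} {hd : ‖d‖ ≤ 1} {hc : ‖c‖ < 1} {ϖ : Kˣ} {x : (QuadraticAlgebra K d 0)ˣ} :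
    x ∈ BB d c hd hc ϖ ↔ ∃ w ∈ (jj c hc ϖ).range, ∃ t ∈ Tm d c hd hc, inc d w * t = x := by
  rw [BB, Subgroup.mem_sup]
  constructor
  · rintro ⟨y, ⟨w, hw, rfl⟩, t, ht, rfl⟩
    exact ⟨w, hw, t, ht, rfl⟩
  · rintro ⟨w, hw, t, ht, rfl⟩
    exact ⟨_, ⟨w, hw, rfl⟩, t, ht, rfl⟩

theorem map_Nm_BB {c : K} {hd : ‖d‖ ≤ 1} {hc : ‖c‖ < 1} {ϖ : Kˣ} :
    (BB d c hd hc ϖ).map (Nm d) = (jj c hc ϖ).range.map (powMonoidHom 2) := by
  ext u
  constructor
  · rintro ⟨x, hx, rfl⟩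
    obtain ⟨w, hw, t, ht, rfl⟩ := mem_BB.1 hx
    refine ⟨w, hw, ?_⟩
    rw [map_mul, Nm_inc, (mem_Tm.1 ht).1, mul_one, powMonoidHom_apply]
  · rintro ⟨w, hw, rfl⟩
    refine ⟨inc d w, mem_BB.2 ⟨w, hw, 1, one_mem _, mul_one _⟩, ?_⟩
    rw [Nm_inc, powMonoidHom_apply]

theorem map_Dm_BB {c : K} {hd : ‖d‖ ≤ 1} {hc : ‖c‖ < 1} {ϖ : Kˣ} :
    (BB d c hd hc ϖ).map (Dm d) = (Tm d c hd hc).map (powMonoidHom 2) := by
  ext u
  constructor
  · rintro ⟨x, hx, rfl⟩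
    obtain ⟨w, hw, t, ht, rfl⟩ := mem_BB.1 hx
    refine ⟨t, ht, ?_⟩
    rw [map_mul, Dm_inc, one_mul, Dm_of_Nm (mem_Tm.1 ht).1, powMonoidHom_apply]
  · rintro ⟨t, ht, rfl⟩
    refine ⟨t, mem_BB.2 ⟨1, one_mem _, t, ht, by rw [map_one, one_mul]⟩, ?_⟩
    rw [Dm_of_Nm (mem_Tm.1 ht).1, powMonoidHom_apply]

theorem unit_sq_one {w : Kˣ} (h : w ^ 2 = 1) : w = 1 ∨ w = -1 := by
  have h1 : (w : K) ^ 2 = 1 := by
    have := congrArg Units.val h
    simpa using this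
  have h2 : ((w : K) - 1) * ((w : K) + 1) = 0 := by linear_combination h1
  rcases mul_eq_zero.1 h2 with h | h
  · exact Or.inl (Units.ext (sub_eq_zero.1 h))
  · exact Or.inr (Units.ext (by rw [Units.val_neg, Units.val_one]; exact eq_neg_of_add_eq_zero_left h))

theorem BB_inf_ker {c : K} {hd : ‖d‖ ≤ 1} {hc : ‖c‖ < 1} {ϖ : Kˣ} (hϖ : ‖(ϖ : K)‖ < 1)
    (hc2 : ‖c‖ < ‖(2 : K)‖) :
    BB d c hd hc ϖ ⊓ (Nm d).ker = Tm d c hd hc := by
  ext x
  rw [Subgroup.mem_inf, MonoidHom.mem_ker]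
  constructor
  · rintro ⟨hx, hN⟩
    obtain ⟨w, hw, t, ht, rfl⟩ := mem_BB.1 hx
    rw [map_mul, Nm_inc, (mem_Tm.1 ht).1, mul_one] at hN
    have hw1 : w = 1 := by
      rcases unit_sq_one hN with h | h
      · exact h
      · exact absurd (h ▸ hw) (neg_one_notMem hϖ hc2)
    rw [hw1, map_one, one_mul]
    exact ht
  · intro hx
    exact ⟨mem_BB.2 ⟨1, one_mem _, x, hx, by rw [map_one, one_mul]⟩, (mem_Tm.1 hx).1⟩

theorem BB_inf_range {c : K} {hd : ‖d‖ ≤ 1} {hc : ‖c‖ < 1} {ϖ : Kˣ}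
    (hc2 : ‖c‖ < ‖(2 : K)‖) :
    BB d c hd hc ϖ ⊓ (inc d).range = (jj c hc ϖ).range.map (inc d) := by
  ext x
  rw [Subgroup.mem_inf]
  constructor
  · rintro ⟨hx, ⟨u, hu⟩⟩
    obtain ⟨w, hw, t, ht, rfl⟩ := mem_BB.1 hx
    have ht' : t = inc d (w⁻¹ * u) := by
      rw [map_mul, map_inv, hu, inv_mul_cancel_left]
    have hN := (mem_Tm.1 ht).1
    rw [ht', Nm_inc] at hN
    have h1 : w⁻¹ * u = 1 := by
      rcases unit_sq_one hN with h | h
      · exact h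
      · exfalso
        have := (mem_Tm.1 ht).2.1
        rw [ht', h, inc_re, Units.val_neg, Units.val_one] at this
        have h3 : (-1 : K) - 1 = -2 := by norm_num
        rw [h3, _root_.norm_neg] at this
        exact absurd this (not_le.2 hc2)
    rw [ht', h1, map_one, mul_one]
    exact ⟨w, hw, rfl⟩
  · rintro ⟨w, hw, rfl⟩
    exact ⟨mem_BB.2 ⟨w, hw, 1, one_mem _, mul_one _⟩, ⟨w, rfl⟩⟩

/-- everything close to one is in `B`. -/
theorem near_one_mem_BB [CompleteSpace K] (h2 : (2 : K) ≠ 0) {c : K} {hd : ‖d‖ ≤ 1}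
    {hc : ‖c‖ < 1} {ϖ : Kˣ} (hc2 : ‖c‖ < ‖(2 : K)‖) {x : (QuadraticAlgebra K d 0)ˣ}
    (hx1 : ‖x.val.re - 1‖ ≤ ‖c‖) (hx2 : ‖x.val.im‖ ≤ ‖c‖) : x ∈ BB d c hd hc ϖ := by
  have h2p : 0 < ‖(2 : K)‖ := norm_pos_iff.2 h2
  have hNm : ‖((Nm d x : Kˣ) : K) - 1‖ ≤ ‖(2 : K)‖ * ‖c‖ := by
    rw [Nm_val]
    have : x.val.re * x.val.re - d * x.val.im * x.val.im - 1 =
        (2 * (x.val.re - 1) + (x.val.re - 1) * (x.val.re - 1)) - d * x.val.im * x.val.im := by ring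
    rw [this]
    refine nsub (nadd ?_ ?_) ?_
    · rw [norm_mul]; gcongr
    · rw [norm_mul]
      calc ‖x.val.re - 1‖ * ‖x.val.re - 1‖ ≤ ‖c‖ * ‖c‖ := by gcongr
        _ ≤ ‖(2 : K)‖ * ‖c‖ := by gcongr
    · rw [norm_mul, norm_mul]
      calc ‖d‖ * ‖x.val.im‖ * ‖x.val.im‖ ≤ 1 * ‖c‖ * ‖c‖ := by gcongr
        _ = ‖c‖ * ‖c‖ := by ring
        _ ≤ ‖(2 : K)‖ * ‖c‖ := by gcongr
  obtain ⟨w, hw, hw1⟩ := exists_sq h2 (x := ((Nm d x : Kˣ) : K)) (by
    calc _ ≤ ‖(2 : K)‖ * ‖c‖ := hNm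
      _ < ‖(2 : K)‖ * ‖(2 : K)‖ := by gcongr
      _ = _ := by ring)
  have hwc : ‖w - 1‖ ≤ ‖c‖ := by
    refine hw1.trans ?_
    rw [div_le_iff₀ h2p]
    calc _ ≤ _ := hNm
      _ = _ := by ring
  have hwn := norm_one_of hc hwc
  have hw0 : w ≠ 0 := by
    intro h0
    rw [h0, _root_.norm_zero] at hwn
    exact zero_ne_one hwn
  set u : Kˣ := Units.mk0 w hw0 with hu
  have huVK : u ∈ VK c hc := hwc
  refine mem_BB.2 ⟨u, ⟨(1, ⟨u, huVK⟩), by rw [jj_apply]; simp⟩, (inc d u)⁻¹ * x, ?_,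
    by rw [mul_inv_cancel_left]⟩
  have hinv : ((inc d u)⁻¹ : (QuadraticAlgebra K d 0)ˣ) = inc d u⁻¹ := by rw [map_inv]
  have hui : ((u⁻¹ : Kˣ) : K) = w⁻¹ := by rw [Units.val_inv_eq_inv_val, hu, Units.val_mk0]
  have hwin : ‖w⁻¹‖ = 1 := by rw [norm_inv, hwn, inv_one]
  refine ⟨?_, ?_, ?_⟩
  · rw [map_mul, map_inv, Nm_inc]
    rw [inv_mul_eq_one]
    apply Units.ext
    rw [Units.val_pow_eq_pow_val, hu, Units.val_mk0]
    exact hw
  · rw [hinv, mul_re', inc_re, inc_im, hui]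
    have : w⁻¹ * x.val.re + d * 0 * x.val.im - 1 = w⁻¹ * ((x.val.re - 1) - (w - 1)) := by
      field_simp
      ring
    rw [this, norm_mul, hwin, one_mul]
    exact nsub hx1 hwc
  · rw [hinv, mul_im', inc_re, inc_im, hui]
    have : w⁻¹ * x.val.im + 0 * x.val.re = w⁻¹ * x.val.im := by ring
    rw [this, norm_mul, hwin, one_mul]
    exact hx2

theorem ϖ_mem_BB {c : K} {hd : ‖d‖ ≤ 1} {hc : ‖c‖ < 1} {ϖ : Kˣ} (k : ℤ) :
    inc d (ϖ ^ k) ∈ BB d c hd hc ϖ :=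
  mem_BB.2 ⟨ϖ ^ k, ⟨(Multiplicative.ofAdd k, 1), by rw [jj_apply]; simp⟩, 1, one_mem _, mul_one _⟩

theorem BB_index_ne_zero [ProperSpace K] (h2 : (2 : K) ≠ 0) {c : K} (hd : ‖d‖ ≤ 1)
    (hc : ‖c‖ < 1) (hc0 : c ≠ 0) {ϖ : Kˣ} (hϖ : ‖(ϖ : K)‖ < 1) (hc2 : ‖c‖ < ‖(2 : K)‖) :
    (BB d c hd hc ϖ).index ≠ 0 := by
  classical
  have hcp : 0 < ‖c‖ := norm_pos_iff.2 hc0
  have hϖp : 0 < ‖(ϖ : K)‖ := norm_pos_iff.2 ϖ.ne_zero
  -- the class of a nonzero vector
  let z : K × K → (QuadraticAlgebra K d 0)ˣ := fun p =>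
    if h : (⟨p.1, p.2⟩ : QuadraticAlgebra K d 0) ≠ 0 then Units.mk0 _ h else 1
  have hz : ∀ p : K × K, p ≠ 0 → (z p).val.re = p.1 ∧ (z p).val.im = p.2 := by
    intro p hp
    have h : (⟨p.1, p.2⟩ : QuadraticAlgebra K d 0) ≠ 0 := by
      intro h0
      apply hp
      exact Prod.ext (congrArg QuadraticAlgebra.re h0) (congrArg QuadraticAlgebra.im h0)
    simp only [z, dif_pos h]
    exact ⟨rfl, rfl⟩
  let S : Set (K × K) := {p | ‖(ϖ : K)‖ ≤ ‖p‖ ∧ ‖p‖ ≤ 1}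
  have hS : IsCompact S := by
    have h1 : IsClosed S := by
      refine IsClosed.inter ?_ ?_
      · exact isClosed_le continuous_const continuous_norm
      · exact isClosed_le continuous_norm continuous_const
    refine (isCompact_closedBall (0 : K × K) 1).of_isClosed_subset h1 ?_
    intro p hp
    rw [mem_closedBall_zero_iff]
    exact hp.2
  have hS0 : ∀ p ∈ S, p ≠ 0 := by
    rintro p ⟨hp, -⟩ h0
    rw [h0, _root_.norm_zero] at hp
    exact absurd hp (not_le.2 hϖp)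
  let U : K × K → Set (K × K) := fun p =>
    {q | ‖(z p)⁻¹.val.re * q.1 + d * (z p)⁻¹.val.im * q.2 - 1‖ < ‖c‖ ∧
      ‖(z p)⁻¹.val.re * q.2 + (z p)⁻¹.val.im * q.1‖ < ‖c‖}
  have hU : ∀ p ∈ S, U p ∈ nhds p := by
    intro p hp
    have ho1 : IsOpen {q : K × K |
        ‖(z p)⁻¹.val.re * q.1 + d * (z p)⁻¹.val.im * q.2 - 1‖ < ‖c‖} :=
      isOpen_lt (by fun_prop) continuous_const
    have ho2 : IsOpen {q : K × K |
        ‖(z p)⁻¹.val.re * q.2 + (z p)⁻¹.val.im * q.1‖ < ‖c‖} :=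
      isOpen_lt (by fun_prop) continuous_const
    have hopen : IsOpen (U p) := ho1.inter ho2
    refine hopen.mem_nhds ?_
    obtain ⟨h1, h2'⟩ := hz p (hS0 p hp)
    have hone : (z p)⁻¹ * z p = 1 := inv_mul_cancel _
    have hre := congrArg (fun x : (QuadraticAlgebra K d 0)ˣ => x.val.re) hone
    have him := congrArg (fun x : (QuadraticAlgebra K d 0)ˣ => x.val.im) hone
    simp only [mul_re', mul_im', h1, h2', Units.val_one, re_one, im_one] at hre him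
    refine ⟨?_, ?_⟩
    · rw [hre, sub_self, _root_.norm_zero]; exact hcp
    · rw [him, _root_.norm_zero]; exact hcp
  obtain ⟨F, hFS, hF⟩ := hS.elim_nhds_subcover U hU
  rw [Subgroup.index_ne_zero_iff_finite]
  have hsurj : ∀ x : (QuadraticAlgebra K d 0)ˣ, ∃ p ∈ F,
      (QuotientGroup.mk (z p) : (QuadraticAlgebra K d 0)ˣ ⧸ BB d c hd hc ϖ) = QuotientGroup.mk x := by
    intro x
    have hx0 : ((x.val.re, x.val.im) : K × K) ≠ 0 := by
      intro h0
      exact x.ne_zero (QuadraticAlgebra.ext (congrArg Prod.fst h0) (congrArg Prod.snd h0))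
    have hϖi : 1 < ‖((ϖ⁻¹ : Kˣ) : K)‖ := by
      rw [Units.val_inv_eq_inv_val, norm_inv]
      exact (one_lt_inv₀ hϖp).2 hϖ
    obtain ⟨n, -, hn1, hn2, -⟩ := rescale_to_shell_zpow hϖi one_pos hx0
    set y : (QuadraticAlgebra K d 0)ˣ := inc d (ϖ ^ (-n)) * x with hy
    have hpow : (((ϖ⁻¹ : Kˣ) : K)) ^ n = ((ϖ ^ (-n) : Kˣ) : K) := by
      rw [Units.val_inv_eq_inv_val, Units.val_zpow_eq_zpow_val, inv_zpow, zpow_neg]
    have hyre : y.val.re = ((ϖ ^ (-n) : Kˣ) : K) * x.val.re := by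
      rw [hy, mul_re', inc_re, inc_im]; ring
    have hyim : y.val.im = ((ϖ ^ (-n) : Kˣ) : K) * x.val.im := by
      rw [hy, mul_im', inc_re, inc_im]; ring
    have hyS : ((y.val.re, y.val.im) : K × K) ∈ S := by
      have : ((y.val.re, y.val.im) : K × K) = ((ϖ⁻¹ : Kˣ) : K) ^ n • (x.val.re, x.val.im) := by
        rw [hyre, hyim, hpow]; rfl
      rw [this]
      refine ⟨?_, hn1.le⟩
      refine le_trans (le_of_eq ?_) hn2
      rw [Units.val_inv_eq_inv_val, norm_inv, one_div, inv_inv]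
    obtain ⟨p, hpF, hp⟩ := Set.mem_iUnion₂.1 (hF hyS)
    refine ⟨p, hpF, ?_⟩
    rw [QuotientGroup.eq]
    have h3 : (z p)⁻¹ * y ∈ BB d c hd hc ϖ := by
      refine near_one_mem_BB h2 hc2 ?_ ?_
      · rw [mul_re']; exact hp.1.le
      · rw [mul_im']; exact hp.2.le
    have h4 : (z p)⁻¹ * x = ((z p)⁻¹ * y) * (inc d (ϖ ^ (-n)))⁻¹ := by
      rw [hy]
      rw [mul_assoc, mul_comm (inc d (ϖ ^ (-n))) x, mul_assoc, mul_inv_cancel, mul_one]
    rw [h4]
    exact mul_mem h3 (inv_mem (ϖ_mem_BB _))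
  refine Finite.of_surjective
    (fun p : F => (QuotientGroup.mk (z p) : (QuadraticAlgebra K d 0)ˣ ⧸ BB d c hd hc ϖ)) ?_
  intro q
  obtain ⟨x, rfl⟩ := QuotientGroup.mk_surjective q
  obtain ⟨p, hpF, hp⟩ := hsurj x
  exact ⟨⟨p, hpF⟩, hp⟩

/-- The norm index, first form. -/
theorem index_Nm [ProperSpace K] (h2 : (2 : K) ≠ 0) (hd : ‖d‖ ≤ 1) : (Nm d).range.index = 2 := by
  have h2p : 0 < ‖(2 : K)‖ := norm_pos_iff.2 h2
  obtain ⟨c, hcp, hc2⟩ := NormedField.exists_norm_lt K h2p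
  have hc0 : c ≠ 0 := norm_pos_iff.1 hcp
  have hc : ‖c‖ < 1 := hc2.trans_le norm_two_le
  set ϖ : Kˣ := Units.mk0 c hc0 with hϖ'
  have hϖ : ‖(ϖ : K)‖ < 1 := hc
  set P := (jj c hc ϖ).range with hP
  set B := BB d c hd hc ϖ with hB
  set T := Tm d c hd hc with hT
  have e1 := index_eq_mul (Nm d) B
  have e2 := index_eq_mul (Dm d) B
  rw [map_Nm_BB, ← Subgroup.inf_relIndex_right B, BB_inf_ker hϖ hc2] at e1
  rw [map_Dm_BB, Dm_range, Dm_ker h2, ← Subgroup.inf_relIndex_right B, BB_inf_range hc2] at e2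
  have e3 : (P.map (inc d)).relIndex (inc d).range = P.index := by
    rw [MonoidHom.range_eq_map, Subgroup.relIndex_map_map_of_injective _ _ inc_injective,
      Subgroup.relIndex_top_right]
  rw [e3] at e2
  have hTker : T ≤ (Nm d).ker := fun t ht => (mem_Tm.1 ht).1
  have hT2 : T.map (powMonoidHom 2) ≤ T := by
    rintro _ ⟨t, ht, rfl⟩
    exact pow_mem ht 2
  have hP2 : P.map (powMonoidHom 2) ≤ P := by
    rintro _ ⟨t, ht, rfl⟩
    exact pow_mem ht 2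
  have hPN : P.map (powMonoidHom 2) ≤ (Nm d).range := by
    rintro _ ⟨w, hw, rfl⟩
    exact ⟨inc d w, Nm_inc w⟩
  have e4 := Subgroup.relIndex_mul_relIndex _ _ _ hT2 hTker
  have e5 := Subgroup.relIndex_mul_index hPN
  have e6 := Subgroup.relIndex_mul_index hP2
  have e7 := index_sq_jj (hc := hc) hϖ
  have e8 := relIndex_sq_Tm (d := d) (hd := hd) (hc := hc)
  have e9 := index_sq_eq h2 c hd hc hc0 hc2
  have hne := BB_index_ne_zero h2 hd hc hc0 hϖ hc2
  rw [e9, ← e8] at e7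
  rw [e7] at e6
  rw [← e4] at e2
  change B.index ≠ 0 at hne
  generalize B.index = n at *
  generalize (T.map (powMonoidHom 2)).relIndex T = τ at *
  generalize T.relIndex (Nm d).ker = t at *
  generalize P.index = k at *
  generalize (P.map (powMonoidHom 2)).relIndex (Nm d).range = x at *
  generalize (Nm d).range.index = I at *
  generalize (P.map (powMonoidHom 2)).index = m at *
  -- e1 : n = x * t, e2 : n = τ * t * k, e5 : x * I = m, e6 : 2 * τ * k = m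
  have ht0 : t ≠ 0 := by rintro rfl; simp at e1; exact hne e1
  have hk0 : k ≠ 0 := by rintro rfl; simp at e2; exact hne e2
  have hτ0 : τ ≠ 0 := by rintro rfl; simp at e2; exact hne e2
  have hx : x = τ * k := by
    have : x * t = (τ * k) * t := by rw [← e1, e2]; ring
    exact Nat.eq_of_mul_eq_mul_right (Nat.pos_of_ne_zero ht0) this
  have hfin : (τ * k) * I = (τ * k) * 2 := by
    rw [← hx, e5, ← e6, hx]; ring
  exact Nat.eq_of_mul_eq_mul_left (Nat.pos_of_ne_zero (mul_ne_zero hτ0 hk0)) hfin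

end quad

section final

open Pool.Agent.LocNorm

variable {K : Type*} [NontriviallyNormedField K] [IsUltrametricDist K] [ProperSpace K]

/-- **A non-norm exists**: for a nonsquare `d` in a locally compact ultrametric field in which two
is invertible some non-zero element is not of the form `x ^ 2 - d * y ^ 2`. -/
theorem exists_not_isNm (h2 : (2 : K) ≠ 0) {d : K} (hd : ∀ r : K, r ^ 2 ≠ d) :
    ∃ x : K, x ≠ 0 ∧ ¬ IsNm d x := by
  -- scale
  have hd0 : d ≠ 0 := by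
    intro h0
    exact hd 0 (by rw [h0]; ring)
  obtain ⟨l, hl0, hl1⟩ : ∃ l : K, l ≠ 0 ∧ ‖l ^ 2 * d‖ ≤ 1 := by
    obtain ⟨l, hlp, hl⟩ := NormedField.exists_norm_lt K (r := min 1 (1 / ‖d‖))
      (lt_min one_pos (one_div_pos.2 (norm_pos_iff.2 hd0)))
    refine ⟨l, norm_pos_iff.1 hlp, ?_⟩
    have h1 : ‖l‖ ≤ 1 := hl.le.trans (min_le_left _ _)
    have h3 : ‖l‖ ≤ 1 / ‖d‖ := hl.le.trans (min_le_right _ _)
    rw [norm_mul, norm_pow]
    calc ‖l‖ ^ 2 * ‖d‖ = ‖l‖ * ‖l‖ * ‖d‖ := by ring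
      _ ≤ 1 * (1 / ‖d‖) * ‖d‖ := by gcongr
      _ = 1 := by
        have := norm_pos_iff.2 hd0
        field_simp
  have hfact : Fact (∀ r : K, r ^ 2 ≠ l ^ 2 * d + 0 * r) := ⟨fun r hr => hd (r / l) (by
    rw [div_pow, div_eq_iff (pow_ne_zero 2 hl0), hr]; ring)⟩
  have hidx := index_Nm (d := l ^ 2 * d) h2 hl1
  have hne : (Nm (l ^ 2 * d)).range ≠ ⊤ := by
    intro h
    rw [h, Subgroup.index_top] at hidx
    omega
  obtain ⟨u, hu⟩ : ∃ u : Kˣ, u ∉ (Nm (l ^ 2 * d)).range := by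
    by_contra hcon
    push Not at hcon
    exact hne (eq_top_iff.2 fun u _ => hcon u)
  refine ⟨u, u.ne_zero, ?_⟩
  rintro ⟨x, y, hxy⟩
  apply hu
  have h0 : (⟨x, y / l⟩ : QuadraticAlgebra K (l ^ 2 * d) 0) ≠ 0 := by
    intro h0
    have hx := congrArg QuadraticAlgebra.re h0
    have hy := congrArg QuadraticAlgebra.im h0
    simp only [QuadraticAlgebra.re_zero, QuadraticAlgebra.im_zero] at hx hy
    have hy' : y = 0 := by
      rcases div_eq_zero_iff.1 hy with h | h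
      · exact h
      · exact absurd h hl0
    apply u.ne_zero
    rw [← hxy, hx, hy']; ring
  refine ⟨Units.mk0 _ h0, ?_⟩
  apply Units.ext
  rw [Nm_val]
  show x * x - l ^ 2 * d * (y / l) * (y / l) = u
  rw [← hxy]
  field_simp

end final

end Pool.Agent.MP_3615d2_al.LocNormTwo
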