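import Pool.Agent.Work.MP_3615d2_al.CentB
import Pool.Agent.Work.MP_3615d2_al.HC
import Pool.Agent.Work.MP_3615d2_al.Coinv
import Pool.Agent.Work.MP_3615d2_al.GeoF

/-!
MP_3615d2_al, Theorem B, module R3.
-/

open Filter Topology
open scoped TensorProduct

namespace SpW

section HCc

variable {E : Type} [NontriviallyNormedField E] [IsUltrametricDist E] [ProperSpace E]
  {n : ℕ} {V : Type} [AddCommGroup V] [Module ℂ V]

/-- a smooth cuspidal representation has matrix coefficients with compact support modulo the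
scalars -/
theorem hasHC_of_cusp {π : GL (Fin n) E →* Module.End ℂ V} (hπ : IsSmoothRep π) (hc : IsCusp π) :
    HasHC (scalZ n E) π := by
  refine hasHC_of_coinv hπ fun k h0 hk v => ?_
  have h1 : v ∈ cvN π (Nk n k E) ⊤ := by
    rw [hc k h0 hk]
    exact Submodule.mem_top
  have h2 : cvN π (Nk n k E) ⊤ =
      Submodule.span ℂ {x | ∃ u ∈ Nk n k E, ∃ w, x = π u w - w} := by
    unfold cvN
    congr 1
    ext x
    simp
  rw [← h2]
  exact h1

end HCc

section R3

variable {E : Type} [NontriviallyNormedField E] [IsUltrametricDist E] [ProperSpace E]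
  {m : ℕ} {W : Type} [AddCommGroup W] [Module ℂ W]

/-- R3: a subquotient of `Ind ρ` without coinvariants is zero. -/
theorem ind_noCusp (hm : 0 < m) (ρ : (GL (Fin m) E × GL (Fin m) E) →* Module.End ℂ W)
    (hρ : IsSmoothRep ρ)
    (h1 : ∀ k, 0 < k → k < m → cvN ρ ((Nk m k E).prod ⊥) ⊤ = ⊤)
    (h2 : ∀ k, 0 < k → k < m →
      cvN ρ ((⊥ : Subgroup (GL (Fin m) E)).prod (Nk m k E)) ⊤ = ⊤)
    (χ : Eˣ → ℂ) (hχ1 : ∀ z, ‖χ z‖ = 1)
    (hχ : ∀ z w, ρ (Matrix.GeneralLinearGroup.scalar (Fin m) z,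
      Matrix.GeneralLinearGroup.scalar (Fin m) z) w = χ z • w)
    {B C : Submodule ℂ (Ind ρ)} (hB : IsStab (indAct ρ) B) (hC : IsStab (indAct ρ) C)
    (hCB : C ≤ B) (h : B ≤ C ⊔ cvN (indAct ρ) (Nk (2 * m) m E) B) : B ≤ C := by
  refine ind_noCusp_of ρ (fun π hπ hc => hasHC_of_cusp hπ hc)
    (fun k h0 hk hkm => ind_coinv_ne ρ hρ h1 h2 h0 hk hkm)
    (fun k _ _ A hA => ?_) χ hχ1 hχ hB hC hCB h
  exact cvN_exact (ind_smooth ρ) (Nk_union (2 * m) k) le_top (fun n _ v hv => hA n v hv)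
    (fun _ _ _ _ => Submodule.mem_top)

end R3

end SpW
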