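import Pool.Agent.Work.MP_3615d2_al.OpenCell
import Pool.Agent.Work.MP_3615d2_al.Second
import Pool.Agent.Work.MP_3615d2_al.GeoF
import Pool.Agent.Work.MP_3615d2_al.RhoB
import Pool.Agent.Work.MP_3615d2_al.Coinv

/-!
MP_3615d2_al, Theorem B, module R7: the open cell and the second projection of the coinvariants.
-/

open MeasureTheory Matrix Filter Topology
open scoped NNReal TensorProduct

namespace SpW

section R7

variable {E : Type} [NontriviallyNormedField E] [IsUltrametricDist E] [ProperSpace E]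
  [MeasurableSpace E] [BorelSpace E] {m : ℕ} {V W : Type} [AddCommGroup V] [Module ℂ V]
  [AddCommGroup W] [Module ℂ W]

/-- R7a: the open cell. -/
theorem open_cell (ρ : (GL (Fin m) E × GL (Fin m) E) →* Module.End ℂ W) (hρ : IsSmoothRep ρ) :
    ∃ κ : Ind ρ →ₗ[ℂ] W,
      (∀ (a d : GL (Fin m) E) (b : Matrix (Fin m) (Fin m) E) (f : Ind ρ),
        (∀ g, (f : GL (Fin (2 * m)) E → W) g ≠ 0 →
          IsUnit (lowL (g : Matrix (Fin (2 * m)) (Fin (2 * m)) E)).det) →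
        κ (indAct ρ (pel a d b) f) =
          ((ad a ^ (m : ℝ) * ad d ^ (-(m : ℝ)) : ℝ) : ℂ) • ρ (d, a) (κ f)) ∧
      (∀ w, ∃ f : Ind ρ, (∀ g, (f : GL (Fin (2 * m)) E → W) g ≠ 0 →
          IsUnit (lowL (g : Matrix (Fin (2 * m)) (Fin (2 * m)) E)).det) ∧ κ f = w) ∧
      ∀ f : Ind ρ, (∀ g, (f : GL (Fin (2 * m)) E → W) g ≠ 0 →
          IsUnit (lowL (g : Matrix (Fin (2 * m)) (Fin (2 * m)) E)).det) →
        (κ f = 0 ↔ f ∈ cvN (indAct ρ) (Nk (2 * m) m E) ⊤) := by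
  refine open_cell_of hρ ?_
  have h := cvN_exact (π := indAct ρ) (N := Nk (2 * m) m E) (ind_smooth ρ)
    (Nk_union (2 * m) m) (A := cellSub ρ) (B := ⊤) le_top (fun n hn v hv => by
      obtain ⟨b, rfl⟩ := exists_pel_of_mem_Nk hn
      exact indAct_cellSub _ _ _ hv) (fun _ _ _ _ => Submodule.mem_top)
  exact h.le

/-- R7b: the second projection of the coinvariants. -/
theorem exists_second {π : GL (Fin m) E →* Module.End ℂ V} (hm : 0 < m) (hπ : IsSmoothRep π)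
    (hc : IsCusp π) (hu : UnitCentral π) {s : ℝ} (hs : s ≠ m / 2) :
    ∃ e' : Ind (rho π s) →ₗ[ℂ] V ⊗[ℂ] V,
      (∀ a d b f, e' (indAct (rho π s) (pel a d b) f) = rho π (m - s) (a, d) (e' f)) ∧
      (∀ w w', ∃ f : Ind (rho π s), (f : GL (Fin (2 * m)) E → V ⊗[ℂ] V) 1 = w ∧ e' f = w') ∧
      ∀ f : Ind (rho π s), (f : GL (Fin (2 * m)) E → V ⊗[ℂ] V) 1 = 0 → e' f = 0 →
        f ∈ cvN (indAct (rho π s)) (Nk (2 * m) m E) ⊤ :=
  exists_second_of hm (fun w => ind_ev_surj _ (rho_smooth hπ s) w)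
    (fun f hf => ind_coinv_mid _ (rho_smooth hπ s) (fun k h0 hk => (rho_cusp hc s k h0 hk).1)
      (fun k h0 hk => (rho_cusp hc s k h0 hk).2) f hf)
    (open_cell _ (rho_smooth hπ s)) (exists_split hm hu hs)

end R7

end SpW
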