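import Pool.Agent.Work.MP_3615d2_al.BPMid
import Pool.Agent.Work.MP_3615d2_al.BPClosed

/-!
MP_3615d2_al, Theorem B, R8: there is no nonzero `P`-map `C_c(Alt) → |det a|^s |det d|^{-s} π ⊗ π`,
`s = (m + 1) / 2`, `m` odd.
-/

open Filter Topology Matrix
open scoped NNReal TensorProduct

namespace SpW

variable {E : Type} [NontriviallyNormedField E] [IsUltrametricDist E] [ProperSpace E]
  [MeasurableSpace E] [BorelSpace E] {m : ℕ} {V : Type} [AddCommGroup V] [Module ℂ V]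

/-- (4a), any `m > 0`, if the maps vanish on the functions supported on the forms with
nondegenerate restriction to `Y₀`. -/
theorem alt_hom_zero_of (hm : 0 < m) (h2 : (2 : E) ≠ 0) {π : GL (Fin m) E →* Module.End ℂ V}
    (hπ : IsSmoothRep π) (hirr : IsIrrRep π) (hc : IsCusp π) (hu : UnitCentral π)
    (φ : Sch (Alt (2 * m) E) ℂ →ₗ[ℂ] V ⊗[ℂ] V)
    (hφ : ∀ a d b f f', IsTransl (pel a d b) f f' →
      φ f' = rho π (((m : ℝ) + 1) / 2) (a, d) (φ f))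
    (hnd : ∀ f : Sch (Alt (2 * m) E) ℂ, (∀ B : Alt (2 * m) E, ¬ IsUnit (b11 B.1).det →
      (f : Alt (2 * m) E → ℂ) B = 0) → φ f = 0) : φ = 0 :=
  closed_kill hm h2 hπ hu φ hφ fun f hf =>
    alt_open_kill h2 hπ hirr hc hu (((m : ℝ) + 1) / 2) φ hφ hnd f hf

/-- R8: (4a), `m` odd. -/
theorem alt_hom_zero (hm : Odd m) (h2 : (2 : E) ≠ 0) {π : GL (Fin m) E →* Module.End ℂ V}
    (hπ : IsSmoothRep π) (hirr : IsIrrRep π) (hc : IsCusp π) (hu : UnitCentral π)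
    (φ : Sch (Alt (2 * m) E) ℂ →ₗ[ℂ] V ⊗[ℂ] V)
    (hφ : ∀ a d b f f', IsTransl (pel a d b) f f' →
      φ f' = rho π (((m : ℝ) + 1) / 2) (a, d) (φ f)) : φ = 0 :=
  closed_kill hm.pos h2 hπ hu φ hφ fun f hf =>
    alt_open_kill_odd hm h2 hπ hirr hc hu (((m : ℝ) + 1) / 2) φ hφ f hf

end SpW
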