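import Pool.Agent.Work.MP_3615d2_al.WhitAlt

/-!
MP_3615d2_al, Theorem B: the strata `B|Y0 ≠ 0` do not contribute, for every `m`: `whit_middle`.
-/

open Matrix Filter Topology Pool.Agent.SpehH
open scoped TensorProduct

namespace SpW

section cpt

variable {E : Type} [NontriviallyNormedField E] [IsUltrametricDist E] [ProperSpace E] {N : ℕ}

/-- A unipotent element `1 + x ⊗ w`, `x` supported on the indices `< q` and `w` on the indices
`≥ q`, lies in a compact open subgroup. -/
theorem exists_cpt_of_rank_one (q : ℕ) (x w : Fin N → E) (hx : ∀ a : Fin N, q ≤ (a : ℕ) → x a = 0)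
    (hw : ∀ a : Fin N, (a : ℕ) < q → w a = 0) (u : GL (Fin N) E)
    (hu : (u : Matrix (Fin N) (Fin N) E) = 1 + vecMulVec x w)
    (hu' : ((u⁻¹ : GL (Fin N) E) : Matrix (Fin N) (Fin N) E) = 1 - vecMulVec x w) :
    ∃ C : Subgroup (GL (Fin N) E), IsOpen (C : Set (GL (Fin N) E)) ∧
      IsCompact (C : Set (GL (Fin N) E)) ∧ u ∈ C := by
  classical
  obtain ⟨τ, hτ0, hτ⟩ := exists_large (E := E) (max 1 (‖x‖ * ‖w‖))
  let tu : Eˣ := Units.mk0 τ hτ0
  let t : GL (Fin N) E := dgl fun a : Fin N => if (a : ℕ) < q then tu else 1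
  let K : Subgroup (GL (Fin N) E) := glK (Fin N) E 1 zero_le_one le_rfl
  let C : Subgroup (GL (Fin N) E) := K.comap (MulAut.conj t⁻¹).toMonoidHom
  have hmem : ∀ g, g ∈ C ↔ t⁻¹ * g * t ∈ K := by
    intro g
    show (MulAut.conj t⁻¹) g ∈ K ↔ _
    rw [MulAut.conj_apply, inv_inv]
  have himg : (C : Set (GL (Fin N) E)) = (fun g => t * g * t⁻¹) '' (K : Set (GL (Fin N) E)) := by
    ext g
    constructor
    · intro hg
      refine ⟨t⁻¹ * g * t, (hmem g).1 hg, ?_⟩
      simp only
      group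
    · rintro ⟨k, hk, rfl⟩
      refine (hmem _).2 ?_
      have : t⁻¹ * (t * k * t⁻¹) * t = k := by group
      rw [this]
      exact hk
  refine ⟨C, ?_, ?_, ?_⟩
  · have hc : Continuous fun g : GL (Fin N) E => t⁻¹ * g * t := by fun_prop
    have : (C : Set (GL (Fin N) E)) = (fun g => t⁻¹ * g * t) ⁻¹' (K : Set (GL (Fin N) E)) := by
      ext g
      exact hmem g
    rw [this]
    exact (glK_isOpen one_pos le_rfl).preimage hc
  · rw [himg]
    have hc : Continuous fun g : GL (Fin N) E => t * g * t⁻¹ := by fun_prop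
    exact (glK_isCompact one_pos le_rfl).image hc
  · rw [hmem]
    have hτp : 0 < ‖τ‖ := norm_pos_iff.2 hτ0
    have hbd : ∀ i j : Fin N, ‖τ⁻¹ * (x i * w j)‖ ≤ 1 := by
      intro i j
      rw [norm_mul, norm_inv, norm_mul, inv_mul_le_iff₀ hτp, mul_one]
      calc ‖x i‖ * ‖w j‖ ≤ ‖x‖ * ‖w‖ :=
            mul_le_mul (norm_le_pi_norm x i) (norm_le_pi_norm w j) (norm_nonneg _) (norm_nonneg _)
        _ ≤ ‖τ‖ := (le_max_right _ _).trans hτ
    -- conjugating `z (x ⊗ w)`
    have htv : ∀ i j : Fin N, (t : Matrix (Fin N) (Fin N) E) i j =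
        if i = j then (if (i : ℕ) < q then τ else 1) else 0 := by
      intro i j
      show (Matrix.diagonal fun a : Fin N =>
        (((if (a : ℕ) < q then tu else 1 : Eˣ)) : E)) i j = _
      rw [Matrix.diagonal_apply]
      split_ifs <;> rfl
    have htiv : ∀ i j : Fin N, ((t⁻¹ : GL (Fin N) E) : Matrix (Fin N) (Fin N) E) i j =
        if i = j then (if (i : ℕ) < q then τ⁻¹ else 1) else 0 := by
      intro i j
      have h1 : t⁻¹ = dgl (fun a : Fin N => (if (a : ℕ) < q then tu else 1)⁻¹) := by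
        rw [← map_inv]
        rfl
      rw [h1]
      show (Matrix.diagonal fun a : Fin N =>
        ((((if (a : ℕ) < q then tu else 1 : Eˣ))⁻¹ : Eˣ) : E)) i j = _
      rw [Matrix.diagonal_apply]
      split_ifs
      · rw [Units.val_inv_eq_inv_val]; rfl
      · rw [inv_one]; rfl
      · rfl
    have hconj : ∀ i j, (((t⁻¹ : GL (Fin N) E) : Matrix (Fin N) (Fin N) E) * vecMulVec x w *
        (t : Matrix (Fin N) (Fin N) E)) i j = τ⁻¹ * (x i * w j) := by
      intro i j
      rw [Matrix.mul_apply, Finset.sum_eq_single j]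
      · rw [Matrix.mul_apply, Finset.sum_eq_single i]
        · rw [htv, htiv, if_pos rfl, if_pos rfl, vecMulVec_apply]
          by_cases hi : (i : ℕ) < q
          · rw [if_pos hi]
            by_cases hj : (j : ℕ) < q
            · rw [hw j hj]; ring
            · rw [if_neg hj, mul_one]
          · rw [hx i (not_lt.1 hi)]; ring
        · intro k _ hk
          rw [htiv, if_neg (Ne.symm hk), zero_mul]
        · intro h
          exact absurd (Finset.mem_univ _) h
      · intro k _ hk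
        rw [htv, if_neg hk, mul_zero]
      · intro h
        exact absurd (Finset.mem_univ _) h
    have htt : ((t⁻¹ : GL (Fin N) E) : Matrix (Fin N) (Fin N) E) *
        (t : Matrix (Fin N) (Fin N) E) = 1 := by
      rw [← Units.val_mul, inv_mul_cancel, Units.val_one]
    refine ⟨fun i j => ?_, fun i j => ?_⟩
    · have e1 : ((t⁻¹ * u * t : GL (Fin N) E) : Matrix (Fin N) (Fin N) E) - 1 =
          ((t⁻¹ : GL (Fin N) E) : Matrix (Fin N) (Fin N) E) * vecMulVec x w *
            (t : Matrix (Fin N) (Fin N) E) := by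
        rw [Units.val_mul, Units.val_mul, hu, mul_add, mul_one, add_mul, htt, add_sub_cancel_left]
      rw [e1, hconj]
      exact hbd i j
    · have e0 : (t⁻¹ * u * t)⁻¹ = t⁻¹ * u⁻¹ * t := by group
      have e1 : (((t⁻¹ * u * t)⁻¹ : GL (Fin N) E) : Matrix (Fin N) (Fin N) E) - 1 =
          -(((t⁻¹ : GL (Fin N) E) : Matrix (Fin N) (Fin N) E) * vecMulVec x w *
            (t : Matrix (Fin N) (Fin N) E)) := by
        rw [e0, Units.val_mul, Units.val_mul, hu', mul_sub, mul_one, sub_mul, htt]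
        abel
      rw [e1, Matrix.neg_apply, norm_neg, hconj]
      exact hbd i j

omit [IsUltrametricDist E] [ProperSpace E] in
theorem isClosed_QU (j : ℕ) : IsClosed ((QU N j E : Subgroup (GL (Fin N) E)) : Set (GL (Fin N) E)) := by
  have h1 : ∀ f : GL (Fin N) E → Matrix (Fin N) (Fin N) E, Continuous f →
      IsClosed {u | TU N j (f u)} := by
    intro f hf
    have : {u | TU N j (f u)} = ⋂ (i : Fin N) (l : Fin N) (_ : l ≤ i ∨ j ≤ (i : ℕ)),
        {u | f u i l = (1 : Matrix (Fin N) (Fin N) E) i l} := by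
      ext u
      simp only [Set.mem_iInter]
      exact Iff.rfl
    rw [this]
    refine isClosed_iInter fun i => isClosed_iInter fun l => isClosed_iInter fun _ => ?_
    exact isClosed_eq (hf.matrix_elem i l) continuous_const
  exact (h1 _ Units.continuous_val).inter (h1 _ (Units.continuous_val.comp continuous_inv))

/-- Compact open subgroups of `QU`. -/
theorem exists_cpt_QU (j : ℕ) (u : QU N j E) (h : ∃ C : Subgroup (GL (Fin N) E),
    IsOpen (C : Set (GL (Fin N) E)) ∧ IsCompact (C : Set (GL (Fin N) E)) ∧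
      (u : GL (Fin N) E) ∈ C) :
    ∃ C : Subgroup (QU N j E), IsOpen (C : Set (QU N j E)) ∧ IsCompact (C : Set (QU N j E)) ∧
      u ∈ C := by
  obtain ⟨C, hCo, hCc, hu⟩ := h
  refine ⟨C.subgroupOf (QU N j E), ?_, ?_, ?_⟩
  · exact hCo.preimage continuous_subtype_val
  · have : Topology.IsClosedEmbedding (Subtype.val : QU N j E → GL (Fin N) E) :=
      (isClosed_QU j).isClosedEmbedding_subtypeVal
    exact this.isCompact_preimage hCc
  · exact Subgroup.mem_subgroupOf.2 hu

end cpt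

section om

variable {E : Type} [NontriviallyNormedField E] {N : ℕ}

/-- The character `ψ(-∑ u_{i,i+1})` of `QU N k`. -/
noncomputable def omQ (ψ : AddChar E Circle) (N k j : ℕ) : QU N k E →* Module.End ℂ ℂ where
  toFun u := ((ψ (-(sdg j ((u : GL (Fin N) E) : Matrix (Fin N) (Fin N) E))) : Circle) : ℂ) •
    (1 : Module.End ℂ ℂ)
  map_one' := by
    have : sdg j (((1 : QU N k E) : GL (Fin N) E) : Matrix (Fin N) (Fin N) E) = 0 := sdg_one j
    rw [this, neg_zero, AddChar.map_zero_eq_one, Circle.coe_one, one_smul]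
  map_mul' u v := by
    have : sdg j (((u * v : QU N k E) : GL (Fin N) E) : Matrix (Fin N) (Fin N) E) =
        sdg j ((u : GL (Fin N) E) : Matrix (Fin N) (Fin N) E) +
          sdg j ((v : GL (Fin N) E) : Matrix (Fin N) (Fin N) E) := sdg_mul u.2.1 v.2.1
    rw [this, neg_add, AddChar.map_add_eq_mul, Circle.coe_mul, smul_mul_smul_comm, one_mul]

theorem omQ_apply (ψ : AddChar E Circle) (k j : ℕ) (u : QU N k E) (z : ℂ) :
    omQ ψ N k j u z =
      ((ψ (-(sdg j ((u : GL (Fin N) E) : Matrix (Fin N) (Fin N) E))) : Circle) : ℂ) * z := rfl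

theorem sdg_continuous (j : ℕ) : Continuous fun M : Matrix (Fin N) (Fin N) E => sdg j M := by
  unfold sdg
  refine continuous_finsetSum _ fun i _ => continuous_finsetSum _ fun l _ => ?_
  by_cases h : (i : ℕ) + 1 = (l : ℕ) ∧ (i : ℕ) < j
  · simp only [h]
    exact (continuous_id.matrix_elem i l)
  · simp only [h, if_false]
    exact continuous_const

theorem omQ_smooth [IsUltrametricDist E] {ψ : AddChar E Circle} (hψ : Continuous ψ) (k j : ℕ) :
    IsSmoothRep (omQ ψ N k j) := by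
  intro v
  obtain ⟨ε, hε, hε'⟩ := exists_ball_eq_one hψ
  have hc : Continuous fun u : QU N k E =>
      -(sdg j ((u : GL (Fin N) E) : Matrix (Fin N) (Fin N) E)) :=
    ((sdg_continuous j).comp (Units.continuous_val.comp continuous_subtype_val)).neg
  have h0 : Tendsto (fun u : QU N k E => -(sdg j ((u : GL (Fin N) E) : Matrix (Fin N) (Fin N) E)))
      (𝓝 1) (𝓝 0) := by
    have h1 := hc.tendsto 1
    have h2 : sdg j (((1 : QU N k E) : GL (Fin N) E) : Matrix (Fin N) (Fin N) E) = 0 := sdg_one j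
    rw [h2, neg_zero] at h1
    exact h1
  filter_upwards [h0.eventually (Metric.ball_mem_nhds 0 hε)] with u hu
  rw [omQ_apply, hε' _ (by simpa using hu), Circle.coe_one, one_mul]

end om

section mid

variable {E : Type} [NontriviallyNormedField E] [IsUltrametricDist E] [ProperSpace E] {m : ℕ}

theorem oa_basis (x : OA m E) (V : Set (OA m E)) (hV : V ∈ 𝓝 x) :
    ∃ K : Set (OA m E), IsOpen K ∧ IsCompact K ∧ x ∈ K ∧ K ⊆ V := by
  have hemb : Topology.IsOpenEmbedding (Subtype.val : OA m E → Alt (2 * m) E) :=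
    isOpen_OA.isOpenEmbedding_subtypeVal
  have h1 : Subtype.val '' V ∈ 𝓝 x.1 := hemb.image_mem_nhds.2 hV
  obtain ⟨K, hKo, hKc, hxK, hKV⟩ := alt_basis x.1 _ h1
  refine ⟨Subtype.val ⁻¹' K, hKo.preimage continuous_subtype_val, ?_, hxK, ?_⟩
  · rw [hemb.isInducing.isCompact_preimage_iff]
    · exact hKc
    · intro y hy
      obtain ⟨z, -, rfl⟩ := hKV hy
      exact ⟨z, rfl⟩
  · intro y hy
    obtain ⟨z, hz, hzy⟩ := hKV hy
    rwa [← Subtype.val_injective hzy]

/-- No `(QU, ψ)`-equivariant functional on the functions supported in `B|Y0 ≠ 0`. -/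
theorem oa_vanish (h2 : (2 : E) ≠ 0) {ψ : AddChar E Circle} (hψ : Continuous ψ) (hψ1 : ψ ≠ 1)
    (L : Sch (OA m E) ℂ →ₗ[ℂ] ℂ)
    (hL : ∀ (g : QU (2 * m) m E) (f f' : Sch (OA m E) ℂ),
      (∀ x, (f' : OA m E → ℂ) x = omQ ψ (2 * m) m (m - 1) g ((f : OA m E → ℂ) (g⁻¹ • x))) →
        L f' = L f) : L = 0 := by
  refine gauge_vanish (U := QU (2 * m) m E) (X := OA m E) (T := PUnit) (S := ℂ)
    oa_basis (fun t V hV => ⟨Set.univ, isClopen_univ, trivial, fun y _ => by
      rw [Subsingleton.elim y t]; exact mem_of_mem_nhds hV⟩)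
    (omQ ψ (2 * m) m (m - 1)) (omQ_smooth hψ _ _) (fun _ => PUnit.unit) continuous_const
    (fun _ _ => rfl) (fun _ => rO) (fun _ => ⟨m + 1, fun B => ?_⟩) (fun _ k => rO_open k) ?_ L hL
  · classical
    unfold rO
    exact (Finset.card_filter_le _ _).trans (by rw [Finset.card_range])
  intro B₀ Z _ hB₀ _ _ hmax m' hm'
  obtain ⟨q, x, hq0, hqm, hnq, hx, hxq, hκ⟩ := exists_good h2 B₀
  set κ := (B₀.1.1 *ᵥ x) ⟨q, by omega⟩ with hκd
  obtain ⟨y, hy⟩ : ∃ y, ψ y ≠ 1 := by
    by_contra h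
    push Not at h
    exact hψ1 (by ext y; simp [h y])
  set c : E := -(y / κ) with hc
  have hmem : ∀ B : Alt (2 * m) E, ¬ PN q B → tv h2 c x B ∈ QU (2 * m) m E := by
    intro B hB
    refine ⟨?_, ?_⟩
    · rw [tv_val]
      exact (TU_tv hqm.le hB hx c).1
    · rw [tv_inv_val]
      exact (TU_tv hqm.le hB hx (-c)).1
  classical
  let s : OA m E → QU (2 * m) m E := fun B =>
    if h : PN q B.1 then 1 else ⟨tv h2 c x B.1, hmem B.1 h⟩
  have hsv : ∀ B : OA m E, ¬ PN q B.1 → ((s B : QU (2 * m) m E) : GL (Fin (2 * m)) E) =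
      tv h2 c x B.1 := by
    intro B hB
    simp only [s]
    rw [dif_neg hB]
  have hZ : ∀ B ∈ Z, ¬ PN q B.1 := fun B hB => rO_le (hmax B hB) hqm.le hnq
  have hfix : GaugeFix Z B₀ (s B₀) := by
    have hs0 := hsv B₀ hnq
    obtain ⟨C, hCo, hCc, hC⟩ := exists_cpt_QU m (s B₀) (by
      rw [hs0]
      refine exists_cpt_of_rank_one q (c • x) (B₀.1.1 *ᵥ x) ?_ (TU_tv hqm.le hnq hx c).2 _ ?_ ?_
      · intro a ha
        rw [Pi.smul_apply, hx a ha, smul_zero]
      · rw [tv_val, smul_vecMulVec]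
      · rw [tv_inv_val, smul_vecMulVec, neg_smul, sub_eq_add_neg])
    refine ⟨Set.univ, s, C, isOpen_univ, trivial, ?_, ?_, rfl, hCo, hCc, hC⟩
    · rw [Topology.IsInducing.subtypeVal.continuousOn_iff]
      have hcont : Continuous fun B : OA m E => tv h2 c x B.1 := by
        have hBx : Continuous fun B : OA m E => vecMulVec x (B.1.1 *ᵥ x) := by
          have h3 : Continuous fun B : OA m E => B.1.1 :=
            continuous_subtype_val.comp continuous_subtype_val
          refine continuous_matrix fun i l => ?_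
          simp only [vecMulVec_apply]
          exact continuous_const.mul ((continuous_apply l).comp
            (h3.matrix_mulVec continuous_const))
        rw [Units.continuous_iff]
        constructor
        · have : (Units.val ∘ fun B : OA m E => tv h2 c x B.1) =
              fun B => 1 + c • vecMulVec x (B.1.1 *ᵥ x) := by
            funext B
            exact tv_val h2 c x B.1
          rw [this]
          exact continuous_const.add (hBx.const_smul c)
        · have : (fun B : OA m E =>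
              (((tv h2 c x B.1)⁻¹ : GL (Fin (2 * m)) E) : Matrix (Fin (2 * m)) (Fin (2 * m)) E)) =
              fun B => 1 + (-c) • vecMulVec x (B.1.1 *ᵥ x) := by
            funext B
            exact tv_inv_val h2 c x B.1
          rw [this]
          exact continuous_const.add (hBx.const_smul (-c))
      refine hcont.continuousOn.congr ?_
      rintro B ⟨hB, -⟩
      exact hsv B (hZ B hB)
    · rintro B ⟨hB, -⟩
      apply Subtype.ext
      show ((s B : QU (2 * m) m E) : GL (Fin (2 * m)) E) • B.1 = B.1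
      rw [hsv B (hZ B hB)]
      exact tv_fix h2 c x B.1
  have hval : sdg (m - 1) (((s B₀ : QU (2 * m) m E) : GL (Fin (2 * m)) E) :
      Matrix (Fin (2 * m)) (Fin (2 * m)) E) = -y := by
    rw [hsv B₀ hnq, tv_val, sdg_tv hq0 (by omega) (by omega) hnq hx, hxq, one_mul, ← hκd, hc]
    field_simp
  ext
  have h3 := hm' (s B₀) hfix 1
  rw [omQ_apply, hval, neg_neg, mul_one] at h3
  have h4 : ((ψ y : Circle) : ℂ) * m' 1 = m' 1 := by
    have h5 : m' (((ψ y : Circle) : ℂ) • (1 : ℂ)) = ((ψ y : Circle) : ℂ) • m' 1 := map_smul _ _ _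
    rw [smul_eq_mul, mul_one, smul_eq_mul] at h5
    rw [← h5]
    exact h3
  have h6 : (((ψ y : Circle) : ℂ) - 1) * m' 1 = 0 := by rw [sub_mul, h4, one_mul, sub_self]
  rcases mul_eq_zero.1 h6 with h | h
  · exfalso
    apply hy
    apply Circle.coe_injective
    rw [Circle.coe_one]
    exact sub_eq_zero.1 h
  · exact h

end mid

section final

variable {E : Type} [NontriviallyNormedField E] [IsUltrametricDist E] [ProperSpace E]
  [MeasurableSpace E] [BorelSpace E] {m : ℕ} {V : Type} [AddCommGroup V] [Module ℂ V]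

theorem det_of_QU {n j : ℕ} (a : GL (Fin n) E) (ha : a ∈ QU n j E) :
    Matrix.GeneralLinearGroup.det a = 1 := by
  apply Units.ext
  show (a : Matrix (Fin n) (Fin n) E).det = 1
  rw [Matrix.det_of_upperTriangular]
  · refine Finset.prod_eq_one fun i _ => ?_
    rw [ha.1 i i (Or.inl le_rfl), Matrix.one_apply_eq]
  · intro i l hil
    rw [ha.1 i l (Or.inl (le_of_lt hil)), Matrix.one_apply_ne]
    exact ne_of_gt hil

/-- The strata `B|Y0 ≠ 0` do not contribute. -/
theorem whit_middle (h2 : (2 : E) ≠ 0) {ψ : AddChar E Circle} (hψ : Continuous ψ) (hψ1 : ψ ≠ 1)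
    {π : GL (Fin m) E →* Module.End ℂ V} (hπ : IsSmoothRep π) (hc : IsCusp π) [Nontrivial V]
    (s : ℝ) (hirr : IsIrrRep (rho π s)) (φ : Sch (Alt (2 * m) E) ℂ →ₗ[ℂ] V ⊗[ℂ] V)
    (hφ : ∀ a d b f f', IsTransl (pel a d b) f f' → φ f' = rho π s (a, d) (φ f))
    (f : Sch (Alt (2 * m) E) ℂ)
    (hf : ∀ B : Alt (2 * m) E, b11 B.1 = 0 → (f : Alt (2 * m) E → ℂ) B = 0) : φ f = 0 := by
  rcases Nat.eq_zero_or_pos m with hm | hm
  · subst hm
    have : f = 0 := by
      apply Sch.ext'
      intro B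
      exact hf B (Subsingleton.elim _ _)
    rw [this, map_zero]
  -- a functional on `V` which kills `KW`
  have hK := KW_ne_top π hπ hc hψ hψ1 (m - 1) (by omega)
  obtain ⟨l₁, hl₁0, hl₁⟩ := Submodule.exists_le_ker_of_lt_top _ (lt_top_iff_ne_top.2 hK)
  have hl₁' : ∀ a ∈ QU m (m - 1) E, ∀ v, l₁ (π a v) =
      ((ψ (sdg (m - 1) (a : Matrix (Fin m) (Fin m) E)) : Circle) : ℂ) * l₁ v := by
    intro a ha v
    have h3 : π a v - ((ψ (sdg (m - 1) (a : Matrix (Fin m) (Fin m) E)) : Circle) : ℂ) • v ∈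
        KW π ψ (m - 1) := Submodule.subset_span ⟨a, ha, v, rfl⟩
    have h4 := hl₁ h3
    rw [LinearMap.mem_ker, map_sub, map_smul, sub_eq_zero] at h4
    exact h4
  let lam : V ⊗[ℂ] V →ₗ[ℂ] ℂ :=
    (TensorProduct.lid ℂ ℂ).toLinearMap ∘ₗ TensorProduct.map l₁ l₁
  have hlam : ∀ x y, lam (x ⊗ₜ[ℂ] y) = l₁ x * l₁ y := by
    intro x y
    simp [lam]
  have hlam0 : lam ≠ 0 := by
    intro h
    obtain ⟨x, hx⟩ : ∃ x, l₁ x ≠ 0 := by
      by_contra hcon
      push Not at hcon
      exact hl₁0 (LinearMap.ext hcon)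
    have h3 := hlam x x
    rw [h, LinearMap.zero_apply] at h3
    exact mul_ne_zero hx hx h3.symm
  have hlamρ : ∀ a ∈ QU m (m - 1) E, ∀ w, lam (rho π s (a, 1) w) =
      ((ψ (sdg (m - 1) (a : Matrix (Fin m) (Fin m) E)) : Circle) : ℂ) * lam w := by
    intro a ha w
    have had : ad a = 1 := by
      unfold ad
      rw [det_of_QU a ha, absE_one]
    induction w using TensorProduct.induction_on with
    | zero => rw [map_zero, map_zero, mul_zero]
    | tmul x y =>
      rw [rho_tmul, had, ad_one, Real.one_rpow, Real.one_rpow, mul_one, Complex.ofReal_one,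
        one_smul, hlam, hlam, hl₁' a ha, map_one, mul_assoc]
      rfl
    | add x y hx hy => rw [map_add, map_add, hx, hy, map_add, mul_add]
  -- the functional on `OA`
  have hopen : IsOpen {B : Alt (2 * m) E | b11 B.1 ≠ 0} := isOpen_OA
  let L : Sch (OA m E) ℂ →ₗ[ℂ] ℂ := lam ∘ₗ φ ∘ₗ extz hopen
  have hL0 : L = 0 := by
    apply oa_vanish h2 hψ hψ1
    intro g f₁ f₂ h12
    obtain ⟨a, y, hg, ha, hsd⟩ := QU_pel (g : GL (Fin (2 * m)) E) g.2
    -- the translate of the extension
    let f₃ : Sch (Alt (2 * m) E) ℂ := gact (1 : GL (Fin (2 * m)) E →* Module.End ℂ ℂ)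
      (g : GL (Fin (2 * m)) E) (extz hopen f₁)
    have hf₃ : IsTransl (pel a 1 y) (extz hopen f₁) f₃ := by
      intro B
      rw [← hg]
      rfl
    have h5 := hφ a 1 y _ _ hf₃
    have h6 : extz hopen f₂ =
        ((ψ (-(sdg (m - 1) ((g : GL (Fin (2 * m)) E) : Matrix (Fin (2 * m)) (Fin (2 * m)) E))) :
          Circle) : ℂ) • f₃ := by
      apply Sch.ext'
      intro B
      have e3 : (f₃ : Alt (2 * m) E → ℂ) B =
          (extz hopen f₁ : Alt (2 * m) E → ℂ) ((g : GL (Fin (2 * m)) E)⁻¹ • B) := rfl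
      show (extz hopen f₂ : Alt (2 * m) E → ℂ) B =
        ((ψ (-(sdg (m - 1) ((g : GL (Fin (2 * m)) E) : Matrix (Fin (2 * m)) (Fin (2 * m)) E))) :
          Circle) : ℂ) • (f₃ : Alt (2 * m) E → ℂ) B
      rw [e3]
      by_cases hB : b11 B.1 = 0
      · have hB' : b11 ((g : GL (Fin (2 * m)) E)⁻¹ • B).1 = 0 :=
          (b11_smul_iff _ ((QU (2 * m) m E).inv_mem g.2) B).2 hB
        rw [extz_not hopen f₂ (not_not.2 hB), extz_not hopen f₁ (not_not.2 hB'), smul_zero]
      · have hB' : b11 ((g : GL (Fin (2 * m)) E)⁻¹ • B).1 ≠ 0 := fun h =>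
          hB ((b11_smul_iff _ ((QU (2 * m) m E).inv_mem g.2) B).1 h)
        rw [extz_of hopen f₂ hB, extz_of hopen f₁ hB', h12 ⟨B, hB⟩, omQ_apply]
        rfl
    show lam (φ (extz hopen f₂)) = lam (φ (extz hopen f₁))
    rw [h6, map_smul, map_smul, h5, hlamρ a ha, hsd, smul_eq_mul, ← mul_assoc, ← Circle.coe_mul,
      ← AddChar.map_add_eq_mul, neg_add_cancel, AddChar.map_zero_eq_one, Circle.coe_one, one_mul]
  -- the image is a proper stable submodule
  let I : Submodule ℂ (V ⊗[ℂ] V) :=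
    { carrier := {w | ∃ f : Sch (Alt (2 * m) E) ℂ, (∀ B : Alt (2 * m) E, b11 B.1 = 0 →
        (f : Alt (2 * m) E → ℂ) B = 0) ∧ φ f = w}
      add_mem' := by
        rintro _ _ ⟨f, hf, rfl⟩ ⟨f', hf', rfl⟩
        refine ⟨f + f', fun B hB => ?_, map_add _ _ _⟩
        show (f : Alt (2 * m) E → ℂ) B + (f' : Alt (2 * m) E → ℂ) B = 0
        rw [hf B hB, hf' B hB, add_zero]
      zero_mem' := ⟨0, fun B _ => rfl, map_zero _⟩
      smul_mem' := by
        rintro z _ ⟨f, hf, rfl⟩
        refine ⟨z • f, fun B hB => ?_, map_smul _ _ _⟩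
        show z • (f : Alt (2 * m) E → ℂ) B = 0
        rw [hf B hB, smul_zero] }
  have hIlam : ∀ w ∈ I, lam w = 0 := by
    rintro _ ⟨f, hf, rfl⟩
    obtain ⟨f', rfl⟩ := exists_extz hopen f (fun B hB => hf B (not_not.1 hB))
    exact LinearMap.congr_fun hL0 f'
  have hI : I = ⊥ ∨ I = ⊤ := by
    apply hirr.irr
    rintro ⟨a, d⟩ _ ⟨f, hf, rfl⟩
    let f' : Sch (Alt (2 * m) E) ℂ := gact (1 : GL (Fin (2 * m)) E →* Module.End ℂ ℂ)
      (pel a d 0) f
    have hf' : IsTransl (pel a d 0) f f' := fun B => rfl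
    refine ⟨f', fun B hB => ?_, hφ a d 0 f f' hf'⟩
    rw [hf' B]
    apply hf
    rw [(pel_inv_smul a d 0 B).1, hB, mul_zero, zero_mul]
  rcases hI with h | h
  · have : φ f ∈ I := ⟨f, hf, rfl⟩
    rw [h] at this
    exact (Submodule.mem_bot ℂ).1 this
  · exfalso
    apply hlam0
    exact LinearMap.ext fun w => hIlam w (by rw [h]; trivial)

end final

end SpW
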