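import Pool.Agent.Work.MP_3615d2_al.AltSm
import Pool.Agent.Work.MP_3615d2_al.BAlg
import Pool.Agent.Work.MP_3615d2_al.Coinv
import Pool.Agent.Work.MP_3615d2_al.Adm
import Pool.Agent.Work.MP_3615d2_al.RhoB
import Pool.Agent.Work.MP_3615d2_al.NoCuspB
import Pool.Agent.Work.MP_3615d2_al.R7
import Pool.Agent.Work.MP_3615d2_al.AltHom
import Pool.Agent.Work.MP_3615d2_al.R8
import Pool.Agent.Work.MP_3615d2_al.WhitMid
import Pool.Agent.Work.MP_3615d2_al.BPClosed

/-!
MP_3615d2_al, Theorem B: the assembly.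
-/

open MeasureTheory Matrix Filter Topology
open scoped NNReal TensorProduct

namespace SpW

section par

variable {E : Type} [Field E] {m : ℕ}

omit [Field E] in
theorem mb_bm_inj {a b c d a' b' c' d' : Matrix (Fin m) (Fin m) E}
    (h : bm a b c d = bm a' b' c' d') : a = a' ∧ b = b' ∧ c = c' ∧ d = d' := by
  unfold bm at h
  have h1 := (Matrix.reindex (sI m) (sI m)).injective h
  exact Matrix.fromBlocks_inj.1 h1

theorem mb_pel_inj {a d a' d' : GL (Fin m) E} {b b' : Matrix (Fin m) (Fin m) E}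
    (h : pel a d b = pel a' d' b') : a = a' ∧ d = d' ∧ b = b' := by
  have h1 : bm (a : Matrix (Fin m) (Fin m) E) b 0 d = bm (a' : Matrix (Fin m) (Fin m) E) b' 0 d' :=
    congrArg Units.val h
  obtain ⟨h2, h3, -, h4⟩ := mb_bm_inj h1
  exact ⟨Units.ext h2, Units.ext h4, h3⟩

theorem mb_pel_inv (a d : GL (Fin m) E) (b : Matrix (Fin m) (Fin m) E) :
    ∃ b', (pel a d b)⁻¹ = pel a⁻¹ d⁻¹ b' := by
  refine ⟨-(((a⁻¹ : GL (Fin m) E) : Matrix (Fin m) (Fin m) E) * b *
      ((d⁻¹ : GL (Fin m) E) : Matrix (Fin m) (Fin m) E)), ?_⟩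
  apply Units.ext
  rfl

/-- The parabolic subgroup of the elements `pel a d b`. -/
def parM (m : ℕ) (E : Type) [Field E] : Subgroup (GL (Fin (2 * m)) E) where
  carrier := {g | ∃ a d b, g = pel a d b}
  mul_mem' := by
    rintro _ _ ⟨a, d, b, rfl⟩ ⟨a', d', b', rfl⟩
    exact ⟨_, _, _, pel_mul a d a' d' b b'⟩
  one_mem' := ⟨1, 1, 0, pel_one.symm⟩
  inv_mem' := by
    rintro _ ⟨a, d, b, rfl⟩
    obtain ⟨b', h⟩ := mb_pel_inv a d b
    exact ⟨_, _, _, h⟩

/-- The projection to the Levi subgroup. -/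
noncomputable def leviM (m : ℕ) (E : Type) [Field E] :
    parM m E →* GL (Fin m) E × GL (Fin m) E where
  toFun p := (p.2.choose, p.2.choose_spec.choose)
  map_one' := by
    have h := (1 : parM m E).2.choose_spec.choose_spec.choose_spec
    have h1 : pel (1 : GL (Fin m) E) 1 0 = pel (1 : parM m E).2.choose
        (1 : parM m E).2.choose_spec.choose _ := pel_one.trans h
    obtain ⟨h2, h3, -⟩ := mb_pel_inj h1
    exact Prod.ext h2.symm h3.symm
  map_mul' p q := by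
    have h := (p * q).2.choose_spec.choose_spec.choose_spec
    have hp := p.2.choose_spec.choose_spec.choose_spec
    have hq := q.2.choose_spec.choose_spec.choose_spec
    have h2 := h.symm.trans ((congrArg₂ (· * ·) hp hq).trans (pel_mul _ _ _ _ _ _))
    obtain ⟨h3, h4, -⟩ := mb_pel_inj h2
    exact Prod.ext h3 h4

theorem leviM_pel (p : parM m E) {a d : GL (Fin m) E} {b : Matrix (Fin m) (Fin m) E}
    (h : (p : GL (Fin (2 * m)) E) = pel a d b) : leviM m E p = (a, d) := by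
  have h1 := p.2.choose_spec.choose_spec.choose_spec
  obtain ⟨h2, h3, -⟩ := mb_pel_inj (h.symm.trans h1)
  exact Prod.ext h2.symm h3.symm

end par

section main

variable {E : Type} [NontriviallyNormedField E] [IsUltrametricDist E] [ProperSpace E]
  [MeasurableSpace E] [BorelSpace E] {m : ℕ} {V W : Type} [AddCommGroup V] [Module ℂ V]
  [AddCommGroup W] [Module ℂ W]

/-- The evaluation at `1`. -/
def ev1 (ρ : (GL (Fin m) E × GL (Fin m) E) →* Module.End ℂ W) : Ind ρ →ₗ[ℂ] W where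
  toFun f := (f : GL (Fin (2 * m)) E → W) 1
  map_add' _ _ := rfl
  map_smul' _ _ := rfl

omit [IsUltrametricDist E] [ProperSpace E] [MeasurableSpace E] [BorelSpace E] in
theorem ev1_pel (ρ : (GL (Fin m) E × GL (Fin m) E) →* Module.End ℂ W) (a d : GL (Fin m) E)
    (b : Matrix (Fin m) (Fin m) E) (f : Ind ρ) :
    ev1 ρ (indAct ρ (pel a d b) f) = ρ (a, d) (ev1 ρ f) := by
  show (f : GL (Fin (2 * m)) E → W) (1 * pel a d b) = ρ (a, d) ((f : GL (Fin (2 * m)) E → W) 1)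
  rw [one_mul, ← f.2.1 a d b 1, mul_one]

/-- The data on the coinvariants needed for the final step. -/
theorem jacDatum (hm : 0 < m) {π : GL (Fin m) E →* Module.End ℂ V}
    (hπ : IsSmoothRep π) (hirr : IsIrrRep π) (hc : IsCusp π) (hu : UnitCentral π) {s s' : ℝ}
    (hs : s ≠ m / 2) (hs' : s' = m - s) :
    ∃ e' : Ind (rho π s) →ₗ[ℂ] V ⊗[ℂ] V, JacDatum (parM m E) (Nk (2 * m) m E)
      (indAct (rho π s)) ((rho π s).comp (leviM m E)) ((rho π s').comp (leviM m E))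
      (ev1 (rho π s)) e' := by
  subst hs'
  obtain ⟨e', h1, h2, h3⟩ := exists_second hm hπ hc hu hs
  obtain ⟨χ, hχ1, hχ⟩ := rho_unitCentral (m := m) hu s
  have hcusp := fun k hk0 hk => rho_cusp (m := m) hc s k hk0 hk
  have hirr' : ∀ t : ℝ, IsIrrep ((rho π t).comp (leviM m E)) := by
    intro t
    have h := rho_irr (m := m) hπ hirr hc hu t
    obtain ⟨x, hx⟩ := @exists_ne _ h.nontrivial 0
    refine ⟨⟨x, hx⟩, fun A hA => h.irr A ?_⟩
    rintro ⟨a, d⟩ v hv
    have h4 := hA ⟨pel a d 0, a, d, 0, rfl⟩ v hv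
    rwa [MonoidHom.comp_apply, leviM_pel _ rfl] at h4
  refine ⟨e', ?_⟩
  refine
    { equiv := ?_
      equiv' := ?_
      surj := h2
      ker := fun v hv hv' => ?_
      irr := hirr' _
      irr' := hirr' _
      split := ?_
      ev := ?_
      exact := ?_
      noCusp := ?_ }
  · rintro ⟨_, a, d, b, rfl⟩ v
    rw [MonoidHom.comp_apply, leviM_pel _ rfl]
    exact ev1_pel _ a d b v
  · rintro ⟨_, a, d, b, rfl⟩ v
    rw [MonoidHom.comp_apply, leviM_pel _ rfl]
    exact h1 a d b v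
  · have h4 := h3 v hv hv'
    refine Submodule.span_mono ?_ h4
    rintro x ⟨n, hn, v, hv, rfl⟩
    exact ⟨n, hn, v, hv, rfl⟩
  · obtain ⟨z, c, c', hcc, hc1, hc2⟩ := exists_split hm hu hs
    refine ⟨⟨pel (Matrix.GeneralLinearGroup.scalar (Fin m) z) 1 0, _, _, _, rfl⟩, c, c', hcc, ?_, ?_⟩
    · intro w
      rw [MonoidHom.comp_apply, leviM_pel _ rfl]
      exact hc1 w
    · intro w
      rw [MonoidHom.comp_apply, leviM_pel _ rfl]
      exact hc2 w
  · intro A hA hne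
    by_contra hcon
    push Not at hcon
    apply hne
    rw [Submodule.eq_bot_iff]
    intro f hf
    refine ind_ext_one _ f fun g => ?_
    exact hcon _ (hA g f hf)
  · intro A hA v hv hv'
    have h4 := cvN_exact (A := A) (B := ⊤) (ind_smooth (rho π s)) (Nk_union (2 * m) m) le_top
      (fun n _ v hv => hA n v hv) (fun n _ v hv => Submodule.mem_top)
    have h5 : v ∈ A ⊓ cvN (indAct (rho π s)) (Nk (2 * m) m E) ⊤ := ⟨hv, hv'⟩
    rw [h4] at h5
    exact h5
  · intro B C hB hC hCB h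
    exact ind_noCusp hm (rho π s) (rho_smooth hπ s) (fun k hk0 hk => (hcusp k hk0 hk).1)
      (fun k hk0 hk => (hcusp k hk0 hk).2) χ hχ1 hχ hB hC hCB h

/-- **Theorem B**, with the vanishing statement (4a) as a hypothesis. -/
theorem theoremB_of (hm : 0 < m) (h2 : (2 : E) ≠ 0) {π : GL (Fin m) E →* Module.End ℂ V}
    (hπ : IsSmoothRep π) (hirr : IsIrrRep π) (hc : IsCusp π) (hu : UnitCentral π)
    (h4a : ∀ φ : Sch (Alt (2 * m) E) ℂ →ₗ[ℂ] V ⊗[ℂ] V,
      (∀ a d b f f', IsTransl (pel a d b) f f' →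
        φ f' = rho π (((m : ℝ) + 1) / 2) (a, d) (φ f)) → φ = 0)
    {σ : GL (Fin (2 * m)) E →* Module.End ℂ W} (hσ : IsIrrRep σ)
    (q : Ind (rho π (((m : ℝ) + 1) / 2)) →ₗ[ℂ] W) (hq : Function.Surjective q)
    (hqG : ∀ g f, q (indAct (rho π (((m : ℝ) + 1) / 2)) g f) = σ g (q f)) :
    ∃ e : Sch (Alt (2 * m) E) ℂ →ₗ[ℂ] W, Function.Surjective e ∧
      ∀ g f f', IsTransl g f f' → e f' = σ g (e f) := by
  obtain ⟨ep', hp⟩ := jacDatum hm hπ hirr hc hu (s := ((m : ℝ) + 1) / 2)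
    (s' := ((m : ℝ) - 1) / 2) (by intro h; linarith) (by ring)
  obtain ⟨em', hmm⟩ := jacDatum hm hπ hirr hc hu (s := ((m : ℝ) - 1) / 2)
    (s' := ((m : ℝ) + 1) / 2) (by intro h; linarith) (by ring)
  obtain ⟨φ, hφ0, hφ⟩ := alt_hom_exists hm h2 hπ hirr hc hu
  obtain ⟨Ψ, hΨ, hΨ1⟩ := exists_frob (rho π (((m : ℝ) - 1) / 2)) (altRep (2 * m) E) altRep_smooth φ
    (fun a d b v => hφ a d b v _ ((isTransl_iff _ _ _).2 rfl))
  have hσs : IsSmoothRep σ := by
    intro w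
    obtain ⟨f, rfl⟩ := hq w
    filter_upwards [ind_smooth _ f] with g hg
    rw [← hqG, hg]
  have hσ' : IsIrrep σ := by
    obtain ⟨x, hx⟩ := @exists_ne _ hσ.nontrivial 0
    exact ⟨⟨x, hx⟩, fun A hA => hσ.irr A hA⟩
  obtain ⟨Q, hQ, hQs⟩ := quotient_of_alt hp hmm (altRep (2 * m) E) Ψ hΨ (by
      rintro rfl
      apply hφ0
      apply LinearMap.ext
      intro v
      rw [← hΨ1]
      rfl) (by
      intro T hT
      have h5 := h4a ((ev1 _).comp T) (by
        intro a d b f f' hff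
        rw [(isTransl_iff _ _ _).1 hff, LinearMap.comp_apply, hT, ev1_pel]
        rfl)
      apply LinearMap.ext
      intro f
      refine ind_ext_one _ _ fun g => ?_
      rw [← hT]
      exact LinearMap.congr_fun h5 (altRep (2 * m) E g f)) (by
      intro φ hφ
      obtain ⟨T, hT, hT1⟩ := exists_frob (rho π (((m : ℝ) + 1) / 2))
        (indAct (rho π (((m : ℝ) - 1) / 2))) (ind_smooth _) φ (by
          intro a d b v
          have h6 := hφ ⟨pel a d b, a, d, b, rfl⟩ v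
          rwa [MonoidHom.comp_apply, leviM_pel _ rfl] at h6)
      exact ⟨T, hT, hT1⟩) σ hσ' q hqG hq (by
      intro φ hφ
      obtain ⟨T, hT, hT1⟩ := exists_frob (rho π (((m : ℝ) - 1) / 2)) σ hσs φ (by
          intro a d b v
          have h6 := hφ ⟨pel a d b, a, d, b, rfl⟩ v
          rwa [MonoidHom.comp_apply, leviM_pel _ rfl] at h6)
      exact ⟨T, hT, hT1⟩)
  refine ⟨Q, hQs, fun g f f' hff => ?_⟩
  rw [(isTransl_iff _ _ _).1 hff]
  exact hQ g f

/-- **Theorem B**, `m` odd. -/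
theorem theoremB (hm : Odd m) (h2 : (2 : E) ≠ 0) {π : GL (Fin m) E →* Module.End ℂ V}
    (hπ : IsSmoothRep π) (hirr : IsIrrRep π) (hc : IsCusp π) (hu : UnitCentral π)
    {σ : GL (Fin (2 * m)) E →* Module.End ℂ W} (hσ : IsIrrRep σ)
    (q : Ind (rho π (((m : ℝ) + 1) / 2)) →ₗ[ℂ] W) (hq : Function.Surjective q)
    (hqG : ∀ g f, q (indAct (rho π (((m : ℝ) + 1) / 2)) g f) = σ g (q f)) :
    ∃ e : Sch (Alt (2 * m) E) ℂ →ₗ[ℂ] W, Function.Surjective e ∧
      ∀ g f f', IsTransl g f f' → e f' = σ g (e f) :=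
  theoremB_of hm.pos h2 hπ hirr hc hu (fun φ hφ => alt_hom_zero hm h2 hπ hirr hc hu φ hφ)
    hσ q hq hqG

/-- **Theorem B**, all `m > 0`. -/
theorem theoremB_all (hm : 0 < m) (h2 : (2 : E) ≠ 0) (ψ : AddChar E Circle) (hψ : Continuous ψ)
    (hψ1 : ψ ≠ 1) {π : GL (Fin m) E →* Module.End ℂ V}
    (hπ : IsSmoothRep π) (hirr : IsIrrRep π) (hc : IsCusp π) (hu : UnitCentral π)
    {σ : GL (Fin (2 * m)) E →* Module.End ℂ W} (hσ : IsIrrRep σ)
    (q : Ind (rho π (((m : ℝ) + 1) / 2)) →ₗ[ℂ] W) (hq : Function.Surjective q)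
    (hqG : ∀ g f, q (indAct (rho π (((m : ℝ) + 1) / 2)) g f) = σ g (q f)) :
    ∃ e : Sch (Alt (2 * m) E) ℂ →ₗ[ℂ] W, Function.Surjective e ∧
      ∀ g f f', IsTransl g f f' → e f' = σ g (e f) := by
  have := hirr.nontrivial
  refine theoremB_of hm h2 hπ hirr hc hu (fun φ hφ => ?_) hσ q hq hqG
  exact closed_kill hm h2 hπ hu φ hφ fun f hf =>
    whit_middle h2 hψ hψ1 hπ hc _ (rho_irr hπ hirr hc hu _) φ hφ f hf

end main

end SpW
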