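import Pool.Agent.Work.MP_3615d2_al.BlkAlg
import Pool.Agent.Work.MP_3615d2_al.CptOpen
import Pool.Agent.Work.MP_3615d2_al.RankSec

/-!
MP_3615d2_al: T5.  The continuous section through a block element.
-/

open Polynomial Filter Topology
open scoped Quaternion

namespace SpW

namespace Sec

section alg

variable {F E : Type} [Field F] [Field E] [Algebra F E] {σ : E ≃ₐ[F] E} {δ : E} {d : F} {N : ℕ}
  {H B : Matrix (Fin N) (Fin N) E}

theorem sk_add_left (x x' y : Fin N → E) : sk σ H (x + x') y = sk σ H x y + sk σ H x' y := by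
  simp only [sk, Pi.add_apply, add_mul, Finset.sum_add_distrib]

theorem sk_add_right (x y y' : Fin N → E) : sk σ H x (y + y') = sk σ H x y + sk σ H x y' := by
  simp only [sk, Pi.add_apply, map_add, mul_add, Finset.sum_add_distrib]

theorem sk_smul_left (c : E) (x y : Fin N → E) : sk σ H (c • x) y = c * sk σ H x y := by
  simp only [sk, Pi.smul_apply, smul_eq_mul, Finset.mul_sum]
  exact Finset.sum_congr rfl fun i _ => Finset.sum_congr rfl fun j _ => by ring

theorem sk_smul_right (c : E) (x y : Fin N → E) : sk σ H x (c • y) = σ c * sk σ H x y := by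
  simp only [sk, Pi.smul_apply, smul_eq_mul, Finset.mul_sum, map_mul]
  exact Finset.sum_congr rfl fun i _ => Finset.sum_congr rfl fun j _ => by ring

theorem fsmul_eq (c : F) (x : Fin N → E) : c • x = (algebraMap F E c) • x := by
  funext i
  simp [Algebra.smul_def]

/-- `⟨x,y⟩` as a bilinear map. -/
noncomputable def symL (σ : E ≃ₐ[F] E) (H : Matrix (Fin N) (Fin N) E) :
    (Fin N → E) →ₗ[F] (Fin N → E) →ₗ[F] F :=
  LinearMap.mk₂ F (sympl F σ H)
    (fun x x' y => by simp only [sympl, sk_add_left, map_add])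
    (fun c x y => by
      rw [fsmul_eq c x, sympl, sk_smul_left, ← Algebra.smul_def, map_smul, sympl])
    (fun x y y' => by simp only [sympl, sk_add_right, map_add])
    (fun c x y => by
      rw [fsmul_eq c y, sympl, sk_smul_right, AlgEquiv.commutes, ← Algebra.smul_def, map_smul,
        sympl])

theorem symL_apply (x y : Fin N → E) : symL σ H x y = sympl F σ H x y := rfl

theorem sk_skew (hq : QuadDatum σ δ d) (hH : IsSkew σ H) (x y : Fin N → E) :
    sk σ H y x = - σ (sk σ H x y) := by
  simp only [sk, map_sum, map_mul, sig_sig hq]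
  rw [Finset.sum_comm, ← Finset.sum_neg_distrib]
  refine Finset.sum_congr rfl fun i _ => ?_
  rw [← Finset.sum_neg_distrib]
  refine Finset.sum_congr rfl fun j _ => ?_
  rw [hH.skew i j]
  ring

theorem sympl_skew (hq : QuadDatum σ δ d) (hH : IsSkew σ H) (x y : Fin N → E) :
    sympl F σ H y x = - sympl F σ H x y := by
  apply (algebraMap F E).injective
  rw [map_neg]
  simp only [sympl]
  rw [hq.trace_eq, hq.trace_eq, sk_skew hq hH x y, map_neg, sig_sig hq]
  ring

theorem eq_zero_of_trace (hq : QuadDatum σ δ d) {z : E} (h1 : Algebra.trace F E z = 0)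
    (h2 : Algebra.trace F E (δ * z) = 0) : z = 0 := by
  have h3 := hq.trace_eq z
  have h4 := hq.trace_eq (δ * z)
  rw [h1, map_zero] at h3
  rw [h2, map_zero, map_mul, hq.sig] at h4
  have h5 : σ z = -z := by linear_combination -h3
  rw [h5] at h4
  have h6 : (2 : E) * (δ * z) = 0 := by linear_combination -h4
  have h7 := (mul_eq_zero.1 h6).resolve_left hq.two_E
  exact (mul_eq_zero.1 h7).resolve_left hq.ne

theorem sk_eq_zero_of_sympl (hq : QuadDatum σ δ d) {x y : Fin N → E} (h1 : sympl F σ H x y = 0)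
    (h2 : sympl F σ H (δ • x) y = 0) : sk σ H x y = 0 := by
  refine eq_zero_of_trace hq h1 ?_
  simp only [sympl, sk_smul_left] at h2
  exact h2

theorem eq_zero_of_sympl (hq : QuadDatum σ δ d) (hH : IsSkew σ H) {y : Fin N → E}
    (h : ∀ z, sympl F σ H y z = 0) : y = 0 := by
  have h1 : ∀ z, sk σ H y z = 0 := by
    intro z
    refine eq_zero_of_trace hq (h z) ?_
    have h2 := h (δ • z)
    simp only [sympl, sk_smul_right, hq.sig, neg_mul, map_neg, neg_eq_zero] at h2
    exact h2
  refine Matrix.eq_zero_of_vecMul_eq_zero hH.det_ne ?_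
  funext j
  have h3 := h1 (Pi.single j 1)
  rw [sk] at h3
  simp only [Matrix.vecMul, dotProduct, Pi.zero_apply]
  rw [← h3]
  refine Finset.sum_congr rfl fun i _ => ?_
  rw [Finset.sum_eq_single j]
  · simp
  · intro k _ hk
    simp [Pi.single_eq_of_ne hk]
  · simp

variable {p : F[X]} {n : ℕ} {x : Fin N → E}

theorem star_mul_of (u : DD d p n) (hu : u * star u = 1) : star u * u = 1 := by
  rw [← hu]
  ext <;> simp <;> ring

variable {ι : Type} [Fintype ι] [DecidableEq ι] (β : Module.Basis ι F (DD d p n))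

/-- The Gram matrix of the block. -/
noncomputable def gram (σ : E ≃ₐ[F] E) (H : Matrix (Fin N) (Fin N) E)
    (v : ι → Fin N → E) : Matrix ι ι F := fun i j => sympl F σ H (v i) (v j)

/-- The coordinates of the projection to the block. -/
noncomputable def crd (σ : E ≃ₐ[F] E) (H : Matrix (Fin N) (Fin N) E)
    (v : ι → Fin N → E) (y : Fin N → E) : ι → F :=
  (gram σ H v)⁻¹.mulVec fun i => sympl F σ H (v i) y

theorem formula (hq : QuadDatum σ δ d) (hH : IsSkew σ H) (B : Alt N E)
    (hx : IsBlock σ H B.1 p n x) :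
    (gram σ H fun i => blk σ H B.1 δ p n x (β i)).det ≠ 0 ∧
    ∀ (u : DD d p n) (g : unitary σ H), IsBlkElt σ H B.1 δ p n x u g → ∀ y : Fin N → E,
      (umat g).mulVec y = y -
        ∑ j, crd σ H (fun i => blk σ H B.1 δ p n x (β i)) y j • blk σ H B.1 δ p n x (β j) +
        ∑ j, crd σ H (fun i => blk σ H B.1 δ p n x (β i)) y j • blk σ H B.1 δ p n x (β j * u) := by
  obtain ⟨f, hf⟩ := blk_lin (H := H) (B := B.1) (x := x) hq hx.kill
  set v : ι → Fin N → E := fun i => blk σ H B.1 δ p n x (β i) with hv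
  have hfv : ∀ w : ι → F, f (∑ j, w j • β j) = ∑ j, w j • v j := by
    intro w
    rw [map_sum]
    exact Finset.sum_congr rfl fun j _ => by rw [map_smul, hf]
  have hdet : (gram σ H v).det ≠ 0 := by
    intro h0
    obtain ⟨w, hw0, hw⟩ := Matrix.exists_mulVec_eq_zero_iff.2 h0
    apply hw0
    have h1 : ∀ i, sympl F σ H (v i) (∑ j, w j • v j) = 0 := by
      intro i
      rw [← symL_apply, map_sum]
      have := congrFun hw i
      simp only [Matrix.mulVec, dotProduct, gram, Pi.zero_apply] at this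
      rw [← this]
      refine Finset.sum_congr rfl fun j _ => ?_
      rw [map_smul, smul_eq_mul, mul_comm, symL_apply]
    have h2 : ∀ a : DD d p n, sympl F σ H (f a) (∑ j, w j • v j) = 0 := by
      intro a
      rw [← β.sum_repr a, hfv, ← symL_apply, LinearMap.map_sum₂]
      refine Finset.sum_eq_zero fun i _ => ?_
      rw [LinearMap.map_smul₂, symL_apply, h1, smul_zero]
    have h3 : (∑ j, w j • v j) = 0 := by
      refine eq_zero_of_sympl hq hH fun z => ?_
      obtain ⟨a, z', rfl, hz'⟩ := blk_decomp (x := x) hq hH B.2.1 B.2.2 hx z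
      rw [← symL_apply, map_add, symL_apply, symL_apply, ← hf a]
      have h4 : sympl F σ H (∑ j, w j • v j) (f a) = 0 := by
        rw [sympl_skew hq hH, h2, neg_zero]
      have h5 : sympl F σ H (∑ j, w j • v j) z' = 0 := by
        rw [← hfv, hf, sympl, hz', map_zero]
      rw [h4, h5, add_zero]
    have h6 : f (∑ j, w j • β j) = f 0 := by rw [hfv, h3, map_zero]
    rw [hf, hf] at h6
    have h7 := blk_inj hq hH B.2.1 B.2.2 hx h6
    have h8 := β.repr_sum_self w
    rw [h7, map_zero] at h8
    exact h8.symm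
  refine ⟨hdet, ?_⟩
  intro u g hg y
  set w := crd σ H v y with hw
  have hGw : (gram σ H v).mulVec w = fun i => sympl F σ H (v i) y := by
    rw [hw, crd, Matrix.mulVec_mulVec, Matrix.mul_nonsing_inv _ (isUnit_iff_ne_zero.2 hdet),
      Matrix.one_mulVec]
  have h1 : ∀ i, sympl F σ H (v i) (y - ∑ j, w j • v j) = 0 := by
    intro i
    rw [← symL_apply, map_sub, map_sum, symL_apply, sub_eq_zero]
    have := congrFun hGw i
    simp only [Matrix.mulVec, dotProduct, gram] at this
    rw [← this]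
    refine Finset.sum_congr rfl fun j _ => ?_
    rw [map_smul, smul_eq_mul, mul_comm, symL_apply]
  have h2 : ∀ a : DD d p n, sympl F σ H (f a) (y - ∑ j, w j • v j) = 0 := by
    intro a
    rw [← β.sum_repr a, hfv, ← symL_apply, LinearMap.map_sum₂]
    refine Finset.sum_eq_zero fun i _ => ?_
    rw [LinearMap.map_smul₂, symL_apply, h1, smul_zero]
  have h3 : ∀ a : DD d p n, sk σ H (blk σ H B.1 δ p n x a) (y - ∑ j, w j • v j) = 0 := by
    intro a
    refine sk_eq_zero_of_sympl hq ?_ ?_
    · rw [← hf]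
      exact h2 a
    · rw [blk_E hq hx.kill, ← hf]
      exact h2 _
  have h4 := hg.2 _ h3
  have h5 : (umat g).mulVec (∑ j, w j • v j) = ∑ j, w j • blk σ H B.1 δ p n x (β j * u) := by
    rw [← hfv, hf, hg.1, ← hf, Finset.sum_mul, map_sum]
    refine Finset.sum_congr rfl fun j _ => ?_
    rw [smul_mul_assoc, map_smul, hf]
  have h6 : y = (y - ∑ j, w j • v j) + ∑ j, w j • v j := by rw [sub_add_cancel]
  conv_lhs => rw [h6]
  rw [Matrix.mulVec_add, h4, h5]

end alg

section top

variable {F E : Type} [NontriviallyNormedField F] [NontriviallyNormedField E] [NormedAlgebra F E]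
  {σ : E ≃ₐ[F] E} {δ : E} {d : F} {N : ℕ} {H : Matrix (Fin N) (Fin N) E}

theorem Jlin_continuous (hσ : Continuous σ) :
    Continuous fun z : Matrix (Fin N) (Fin N) E × (Fin N → E) => Jlin σ H z.1 z.2 := by
  refine continuous_pi fun i => hσ.comp ?_
  exact (continuous_apply i).comp
    ((continuous_const.matrix_mul continuous_fst).matrix_mulVec continuous_snd)

theorem Alin_continuous (hσ : Continuous σ) :
    Continuous fun z : Matrix (Fin N) (Fin N) E × (Fin N → E) => Alin σ H z.1 z.2 :=
  (Jlin_continuous (H := H) hσ).comp (continuous_fst.prodMk (Jlin_continuous hσ))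

theorem Apow_continuous (hσ : Continuous σ) (k : ℕ) :
    Continuous fun z : Matrix (Fin N) (Fin N) E × (Fin N → E) => (Alin σ H z.1 ^ k) z.2 := by
  induction k with
  | zero => simpa using continuous_snd
  | succ k ih =>
    have h1 : (fun z : Matrix (Fin N) (Fin N) E × (Fin N → E) => (Alin σ H z.1 ^ (k + 1)) z.2) =
        fun z => Alin σ H z.1 ((Alin σ H z.1 ^ k) z.2) := by
      funext z
      rw [pow_succ', Module.End.mul_apply]
    rw [h1]
    exact (Alin_continuous (H := H) hσ).comp (continuous_fst.prodMk ih)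

theorem aeval_continuous (hσ : Continuous σ) (f : F[X]) :
    Continuous fun z : Matrix (Fin N) (Fin N) E × (Fin N → E) => aeval (Alin σ H z.1) f z.2 := by
  induction f using Polynomial.induction_on' with
  | add p q hp hq =>
    simp only [map_add, LinearMap.add_apply]
    exact hp.add hq
  | monomial k c =>
    have h1 : (fun z : Matrix (Fin N) (Fin N) E × (Fin N → E) =>
        aeval (Alin σ H z.1) (monomial k c) z.2) = fun z => c • (Alin σ H z.1 ^ k) z.2 := by
      funext z
      rw [aeval_monomial, Module.algebraMap_end_eq_smul_id]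
      rfl
    rw [h1]
    exact (Apow_continuous hσ k).const_smul c

variable {p : F[X]} {n : ℕ}

theorem ract_continuous (hσ : Continuous σ) (r : RR p n) :
    Continuous fun z : Matrix (Fin N) (Fin N) E × (Fin N → E) => ract σ H z.1 p n z.2 r :=
  aeval_continuous hσ _

theorem blk_continuous (hσ : Continuous σ) (a : DD d p n) :
    Continuous fun z : Matrix (Fin N) (Fin N) E × (Fin N → E) => blk σ H z.1 δ p n z.2 a := by
  have h1 : Continuous fun z : Matrix (Fin N) (Fin N) E × (Fin N → E) =>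
      (z.1, Jlin σ H z.1 z.2) := continuous_fst.prodMk (Jlin_continuous hσ)
  unfold blk
  exact (((ract_continuous hσ _).add ((ract_continuous hσ _).const_smul δ)).add
    ((ract_continuous hσ _).comp h1)).add (((ract_continuous hσ _).comp h1).const_smul δ)

theorem sympl_continuous [FiniteDimensional F E] [CompleteSpace F] (hσ : Continuous σ) :
    Continuous fun z : (Fin N → E) × (Fin N → E) => sympl F σ H z.1 z.2 :=
  (LinearMap.continuous_of_finiteDimensional (Algebra.trace F E)).comp (cO_sk_continuous hσ)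

end top

section bdd

variable {F E : Type} [NontriviallyNormedField F] [NontriviallyNormedField E] [NormedAlgebra F E]
  {σ : E ≃ₐ[F] E} {δ : E} {d : F} {N : ℕ} {H : Matrix (Fin N) (Fin N) E} {p : F[X]} {n : ℕ}
  {x : Fin N → E}

theorem blkElt_mul {B : Matrix (Fin N) (Fin N) E} {u u' : DD d p n} {g g' : unitary σ H}
    (h : IsBlkElt σ H B δ p n x u g) (h' : IsBlkElt σ H B δ p n x u' g') :
    IsBlkElt σ H B δ p n x (u' * u) (g * g') := by
  refine ⟨fun a => ?_, fun y hy => ?_⟩
  · rw [cO_umat_mul, ← Matrix.mulVec_mulVec, h'.1, h.1, mul_assoc]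
  · rw [cO_umat_mul, ← Matrix.mulVec_mulVec, h'.2 y hy, h.2 y hy]

theorem blkElt_one {B : Matrix (Fin N) (Fin N) E} :
    IsBlkElt σ H B δ p n x (1 : DD d p n) (1 : unitary σ H) := by
  refine ⟨fun a => ?_, fun y _ => ?_⟩
  · rw [cO_umat_one, Matrix.one_mulVec, mul_one]
  · rw [cO_umat_one, Matrix.one_mulVec]

theorem blkElt_pow {B : Matrix (Fin N) (Fin N) E} {u : DD d p n} {g : unitary σ H}
    (h : IsBlkElt σ H B δ p n x u g) (k : ℕ) : IsBlkElt σ H B δ p n x (u ^ k) (g ^ k) := by
  induction k with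
  | zero => rw [pow_zero, pow_zero]; exact blkElt_one
  | succ k ih =>
    rw [pow_succ' u, pow_succ g]
    exact blkElt_mul ih h

theorem blkElt_inv {B : Matrix (Fin N) (Fin N) E} {u : DD d p n} {g : unitary σ H}
    (hu : u * star u = 1) (h : IsBlkElt σ H B δ p n x u g) :
    IsBlkElt σ H B δ p n x (star u) g⁻¹ := by
  refine ⟨fun a => ?_, fun y hy => ?_⟩
  · have h1 := h.1 (a * star u)
    rw [mul_assoc, star_mul_of u hu, mul_one] at h1
    rw [← h1, Matrix.mulVec_mulVec, cO_umat_inv_mul, Matrix.one_mulVec]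
  · have h1 := h.2 y hy
    conv_lhs => rw [← h1]
    rw [Matrix.mulVec_mulVec, cO_umat_inv_mul, Matrix.one_mulVec]

theorem powers_bdd (hq : QuadDatum σ δ d) (hH : IsSkew σ H) (B : Alt N E)
    (hx : IsBlock σ H B.1 p n x) {ι : Type} [Fintype ι] [DecidableEq ι]
    (β : Module.Basis ι F (DD d p n))
    (u : DD d p n) (hu : u * star u = 1) (hbdd : PowBdd F u) (g : unitary σ H)
    (hg : IsBlkElt σ H B.1 δ p n x u g) :
    ∃ C : ℝ, ∀ (k : ℤ) (i j : Fin N), ‖umat (g ^ k) i j‖ ≤ C := by
  obtain ⟨f, hf⟩ := blk_lin (H := H) (B := B.1) (x := x) hq hx.kill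
  -- the coordinates of `β j * a`
  let l : ι → ι → DD d p n →ₗ[F] F := fun j i => (β.coord i).comp (LinearMap.mulLeft F (β j))
  choose c hc using fun j i => hbdd (l j i)
  set v : ι → Fin N → E := fun i => blk σ H B.1 δ p n x (β i) with hv
  have key : ∀ (w : DD d p n) (g' : unitary σ H), IsBlkElt σ H B.1 δ p n x w g' →
      (∀ j i, ‖l j i w‖ ≤ c j i) → ∀ (y : Fin N → E) (m : Fin N),
      ‖(umat g').mulVec y m‖ ≤ ‖y m‖ + ∑ j, ‖crd σ H v y j‖ * ‖v j m‖ +
        ∑ j, ‖crd σ H v y j‖ * ∑ i, c j i * ‖v i m‖ := by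
    intro w g' hg' hw y m
    rw [(formula β hq hH B hx).2 w g' hg' y]
    have h1 : ∀ j, blk σ H B.1 δ p n x (β j * w) = ∑ i, l j i w • v i := by
      intro j
      rw [← hf, ← β.sum_repr (β j * w), map_sum]
      refine Finset.sum_congr rfl fun i _ => ?_
      rw [map_smul, hf]
      rfl
    rw [Pi.add_apply, Pi.sub_apply, Finset.sum_apply, Finset.sum_apply]
    refine (norm_add_le _ _).trans (add_le_add ((norm_sub_le _ _).trans (add_le_add le_rfl ?_)) ?_)
    · refine (norm_sum_le _ _).trans (Finset.sum_le_sum fun j _ => ?_)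
      rw [Pi.smul_apply, norm_smul]
    · refine (norm_sum_le _ _).trans (Finset.sum_le_sum fun j _ => ?_)
      rw [Pi.smul_apply, norm_smul]
      refine mul_le_mul_of_nonneg_left ?_ (norm_nonneg _)
      rw [h1, Finset.sum_apply]
      refine (norm_sum_le _ _).trans (Finset.sum_le_sum fun i _ => ?_)
      rw [Pi.smul_apply, norm_smul]
      exact mul_le_mul_of_nonneg_right (hw j i) (norm_nonneg _)
  set D : Fin N → Fin N → ℝ := fun i j => ‖(Pi.single j 1 : Fin N → E) i‖ +
    ∑ a, ‖crd σ H v (Pi.single j 1) a‖ * ‖v a i‖ +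
        ∑ a, ‖crd σ H v (Pi.single j 1) a‖ * ∑ b, c a b * ‖v b i‖ with hD
  have key2 : ∀ (w : DD d p n) (g' : unitary σ H), IsBlkElt σ H B.1 δ p n x w g' →
      (∀ j i, ‖l j i w‖ ≤ c j i) → ∀ i j, ‖umat g' i j‖ ≤ D i j := by
    intro w g' hg' hw i j
    have h2 := key w g' hg' hw (Pi.single j 1) i
    rw [Matrix.mulVec_single_one] at h2
    exact h2
  refine ⟨∑ i, ∑ j, |D i j|, fun k i j => ?_⟩
  have h3 : ‖umat (g ^ k) i j‖ ≤ D i j := by
    rcases Int.eq_nat_or_neg k with ⟨m, rfl | rfl⟩
    · rw [zpow_natCast]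
      exact key2 _ _ (blkElt_pow hg m) (fun j i => (hc j i m).1) i j
    · rw [zpow_neg, zpow_natCast, ← inv_pow]
      exact key2 _ _ (blkElt_pow (blkElt_inv hu hg) m) (fun j i => (hc j i m).2) i j
  refine h3.trans ((le_abs_self _).trans ?_)
  refine (Finset.single_le_sum (f := fun j => |D i j|) (fun j _ => abs_nonneg _)
    (Finset.mem_univ j)).trans ?_
  exact Finset.single_le_sum (f := fun i => ∑ j, |D i j|)
    (fun i _ => Finset.sum_nonneg fun j _ => abs_nonneg _) (Finset.mem_univ i)

end bdd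

theorem val_continuous {E : Type} [NontriviallyNormedField E] {N : ℕ} :
    Continuous fun B : Alt N E => B.1 := continuous_subtype_val

section aev

variable {F E : Type} [NontriviallyNormedField F] [NontriviallyNormedField E]
  [NormedAlgebra F E] {σ : E ≃ₐ[F] E} {N : ℕ} {H : Matrix (Fin N) (Fin N) E}

theorem aev_alt_continuous (hσ : Continuous σ) (f : F[X]) (y : Fin N → E) :
    Continuous fun B : Alt N E => aeval (Alin σ H B.1) f y := by
  have h2 : Continuous fun B : Alt N E => (B.1, y) := val_continuous.prodMk continuous_const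
  have h3 := (aeval_continuous (H := H) hσ f).comp h2
  exact h3

end aev

section ker

variable {F E : Type} [NontriviallyNormedField F] [CompleteSpace F] [NontriviallyNormedField E]
  [NormedAlgebra F E] {σ : E ≃ₐ[F] E} {N : ℕ} {H : Matrix (Fin N) (Fin N) E}

theorem lin_continuous [FiniteDimensional F (Fin N → E)] (f : (Fin N → E) →ₗ[F] F) :
    Continuous f := f.continuous_of_finiteDimensional

theorem coord_continuous {ι : Type} [Fintype ι]
    (b : Module.Basis ι F (Fin N → E)) (i : ι) : Continuous (b.coord i) := by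
  have hfin : FiniteDimensional F (Fin N → E) := Module.Finite.of_basis b
  have h := lin_continuous (N := N) (b.coord i)
  exact h

theorem toMatrix_continuous (hσ : Continuous σ) {ι : Type} [Fintype ι] [DecidableEq ι]
    (b : Module.Basis ι F (Fin N → E)) (f : F[X]) :
    Continuous fun B : Alt N E => LinearMap.toMatrix b b (aeval (Alin σ H B.1) f) := by
  refine continuous_pi fun i => continuous_pi fun j => ?_
  have h1 : (fun B : Alt N E => LinearMap.toMatrix b b (aeval (Alin σ H B.1) f) i j) =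
      fun B => b.coord i (aeval (Alin σ H B.1) f (b j)) := by
    funext B
    rw [LinearMap.toMatrix_apply]
    rfl
  rw [h1]
  have h2 := aev_alt_continuous (H := H) hσ f (b j)
  exact (coord_continuous b i).comp h2

theorem exists_kernel_vector (hσ : Continuous σ) {ι : Type} [Fintype ι] [DecidableEq ι]
    (b : Module.Basis ι F (Fin N → E)) (B₀ : Alt N E) (f : F[X]) (x₀ : Fin N → E)
    (hx₀ : aeval (Alin σ H B₀.1) f x₀ = 0) :
    ∃ (V : Set (Alt N E)) (x : Alt N E → Fin N → E), IsOpen V ∧ B₀ ∈ V ∧ ContinuousOn x V ∧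
      x B₀ = x₀ ∧ ∀ B ∈ V, Module.finrank F (LinearMap.range (aeval (Alin σ H B.1) f)) ≤
        Module.finrank F (LinearMap.range (aeval (Alin σ H B₀.1) f)) →
        aeval (Alin σ H B.1) f (x B) = 0 := by
  have hM := toMatrix_continuous (H := H) hσ b f
  have hMr : ∀ B : Alt N E, (LinearMap.toMatrix b b (aeval (Alin σ H B.1) f)).rank =
      Module.finrank F (LinearMap.range (aeval (Alin σ H B.1) f)) := by
    intro B
    rw [Matrix.rank_eq_finrank_range_toLin _ b b, Matrix.toLin_toMatrix]
  obtain ⟨V, R, hVo, hV, hRc, hR1, -, hker⟩ := exists_ker_section hM B₀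
  refine ⟨V, fun B => ∑ i, ((R B).mulVec (b.repr x₀)) i • b i, hVo, hV, ?_, ?_, ?_⟩
  · refine continuousOn_finsetSum _ fun i _ => ?_
    have h1 : Continuous fun A : Matrix ι ι F => A.mulVec (b.repr x₀) i :=
      (continuous_apply i).comp (continuous_id.matrix_mulVec continuous_const)
    have h2 : ContinuousOn (fun B => (R B).mulVec (b.repr x₀) i) V := h1.comp_continuousOn hRc
    exact h2.smul continuousOn_const
  · simp only [hR1, Matrix.one_mulVec]
    exact b.sum_repr x₀
  · intro B hB hr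
    have h1 : (LinearMap.toMatrix b b (aeval (Alin σ H B₀.1) f)).mulVec (b.repr x₀) = 0 := by
      rw [LinearMap.toMatrix_mulVec_repr, hx₀, map_zero]
      rfl
    have h2 := hker _ h1 B hB (by rw [hMr, hMr]; exact hr)
    have h3 : (b.repr (∑ i, ((R B).mulVec (b.repr x₀)) i • b i) : ι → F) =
      (R B).mulVec (b.repr x₀) := b.repr_sum_self _
    rw [← h3, LinearMap.toMatrix_mulVec_repr] at h2
    apply b.repr.injective
    rw [map_zero]
    ext i
    exact congrFun h2 i

end ker

section cont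

variable {F E : Type} [NontriviallyNormedField F] [NontriviallyNormedField E]
  [NormedAlgebra F E] {σ : E ≃ₐ[F] E} {δ : E} {d : F} {N : ℕ} {H : Matrix (Fin N) (Fin N) E}
  {p : F[X]} {n : ℕ}

theorem pair_contOn (Y : Set (Alt N E)) (x : Alt N E → Fin N → E) (hxY : ContinuousOn x Y) :
    ContinuousOn (fun B : Alt N E => (B.1, x B)) Y :=
  val_continuous.continuousOn.prodMk hxY

theorem blk_contOn (hσ : Continuous σ) (Y : Set (Alt N E)) (x : Alt N E → Fin N → E)
    (hxY : ContinuousOn x Y) (a : DD d p n) :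
    ContinuousOn (fun B : Alt N E => blk σ H B.1 δ p n (x B) a) Y := by
  have h1 := (blk_continuous (H := H) (δ := δ) hσ a).comp_continuousOn (pair_contOn Y x hxY)
  exact h1

theorem sympl_contOn [CompleteSpace F] [FiniteDimensional F E] (hσ : Continuous σ) {X : Type} [TopologicalSpace X]
    (Y : Set X) (x y : X → Fin N → E) (hx : ContinuousOn x Y) (hy : ContinuousOn y Y) :
    ContinuousOn (fun B => sympl F σ H (x B) (y B)) Y := by
  have h1 := (sympl_continuous (F := F) (H := H) hσ).comp_continuousOn (hx.prodMk hy)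
  exact h1

theorem gram_contOn [CompleteSpace F] [FiniteDimensional F E] (hσ : Continuous σ) {X : Type} [TopologicalSpace X]
    (Y : Set X) {ι : Type} [Fintype ι] (v : X → ι → Fin N → E)
    (hv : ∀ i, ContinuousOn (fun B => v B i) Y) :
    ContinuousOn (fun B => gram (F := F) σ H (v B)) Y :=
  continuousOn_pi.2 fun i => continuousOn_pi.2 fun j => sympl_contOn hσ Y _ _ (hv i) (hv j)

theorem inv_contOn {X : Type} [TopologicalSpace X] {K : Type} [NontriviallyNormedField K]
    (Y : Set X) {ι : Type} [Fintype ι] [DecidableEq ι] (G : X → Matrix ι ι K)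
    (hG : ContinuousOn G Y) (hdet : ∀ B ∈ Y, (G B).det ≠ 0) :
    ContinuousOn (fun B => (G B)⁻¹) Y := by
  have h1 : (fun B => (G B)⁻¹) = fun B => ((G B).det)⁻¹ • (G B).adjugate := by
    funext B
    rw [Matrix.inv_def, Ring.inverse_eq_inv']
  rw [h1]
  have h2 : Continuous fun A : Matrix ι ι K => A.det := continuous_id.matrix_det
  have h3 : Continuous fun A : Matrix ι ι K => A.adjugate := continuous_id.matrix_adjugate
  have h4 : ContinuousOn (fun B => (G B).det) Y := h2.comp_continuousOn hG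
  have h5 : ContinuousOn (fun B => (G B).adjugate) Y := h3.comp_continuousOn hG
  exact (h4.inv₀ hdet).smul h5

theorem crd_contOn [CompleteSpace F] [FiniteDimensional F E] (hσ : Continuous σ) {X : Type} [TopologicalSpace X]
    (Y : Set X) {ι : Type} [Fintype ι] [DecidableEq ι] (v : X → ι → Fin N → E)
    (hv : ∀ i, ContinuousOn (fun B => v B i) Y)
    (hdet : ∀ B ∈ Y, (gram (F := F) σ H (v B)).det ≠ 0) (y : Fin N → E) (j : ι) :
    ContinuousOn (fun B => crd (F := F) σ H (v B) y j) Y := by
  have h1 := inv_contOn Y _ (gram_contOn (H := H) hσ Y v hv) hdet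
  have h2 : ContinuousOn (fun B => fun i => sympl F σ H (v B i) y) Y :=
    continuousOn_pi.2 fun i => sympl_contOn hσ Y _ _ (hv i) continuousOn_const
  have h3 : Continuous fun z : Matrix ι ι F × (ι → F) => z.1.mulVec z.2 j :=
    (continuous_apply j).comp (continuous_fst.matrix_mulVec continuous_snd)
  have h4 := h3.comp_continuousOn (h1.prodMk h2)
  exact h4

theorem comb_contOn {X : Type} [TopologicalSpace X]
    (Y : Set X) {ι : Type} [Fintype ι] (c : X → ι → F) (v v' : X → ι → Fin N → E)
    (y : Fin N → E) (hc : ∀ i, ContinuousOn (fun B => c B i) Y)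
    (hv : ∀ i, ContinuousOn (fun B => v B i) Y) (hv' : ∀ i, ContinuousOn (fun B => v' B i) Y) :
    ContinuousOn (fun B => y - ∑ j, c B j • v B j + ∑ j, c B j • v' B j) Y := by
  refine (continuousOn_const.sub ?_).add ?_
  · exact continuousOn_finsetSum _ fun j _ => (hc j).smul (hv j)
  · exact continuousOn_finsetSum _ fun j _ => (hc j).smul (hv' j)

theorem unitary_contOn {X : Type} [TopologicalSpace X] (Y : Set X) (s : X → unitary σ H)
    (h : ∀ y : Fin N → E, ContinuousOn (fun B => (umat (s B)).mulVec y) Y) : ContinuousOn s Y := by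
  have hmat : ContinuousOn (fun B => umat (s B)) Y := by
    refine continuousOn_pi.2 fun i => continuousOn_pi.2 fun j => ?_
    have h1 := (continuous_apply i).comp_continuousOn (h (Pi.single j 1))
    refine h1.congr fun B _ => ?_
    simp only [Function.comp, Matrix.mulVec_single_one]
    rfl
  have hinv : ContinuousOn (fun B => umat (s B)⁻¹) Y := by
    have h1 : (fun B => umat (s B)⁻¹) = fun B => (umat (s B))⁻¹ := by
      funext B
      exact (Matrix.inv_eq_right_inv (cO_umat_mul_inv _)).symm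
    rw [h1]
    exact inv_contOn Y _ hmat fun B _ => (Matrix.isUnits_det_units _).ne_zero
  rw [continuousOn_iff_continuous_domRestrict]
  refine continuous_induced_rng.2 (Units.continuous_iff.2 ⟨?_, ?_⟩)
  · exact continuousOn_iff_continuous_domRestrict.1 hmat
  · exact continuousOn_iff_continuous_domRestrict.1 hinv

theorem top_contAt (hσ : Continuous σ) (f : F[X]) (x : Alt N E → Fin N → E) (B₀ : Alt N E)
    (hx : ContinuousAt x B₀) :
    ContinuousAt (fun B : Alt N E => sk σ H (aeval (Alin σ H B.1) f (x B)) (x B)) B₀ := by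
  have h1 : ContinuousAt (fun B : Alt N E => (B.1, x B)) B₀ :=
    val_continuous.continuousAt.prodMk hx
  have h2 : ContinuousAt ((fun z : Matrix (Fin N) (Fin N) E × (Fin N → E) =>
      aeval (Alin σ H z.1) f z.2) ∘ fun B : Alt N E => (B.1, x B)) B₀ :=
    (aeval_continuous (H := H) hσ f).continuousAt.comp h1
  have h3 : ContinuousAt ((fun z : (Fin N → E) × (Fin N → E) => sk σ H z.1 z.2) ∘
      fun B : Alt N E => (((fun z : Matrix (Fin N) (Fin N) E × (Fin N → E) =>
      aeval (Alin σ H z.1) f z.2) ∘ fun B : Alt N E => (B.1, x B)) B, x B)) B₀ :=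
    (cO_sk_continuous (H := H) hσ).continuousAt.comp (h2.prodMk hx)
  exact h3

theorem section_continuous [CompleteSpace F] (hq : QuadDatum σ δ d) (hH : IsSkew σ H) (hσ : Continuous σ)
    {ι : Type} [Fintype ι] [DecidableEq ι] (β : Module.Basis ι F (DD d p n))
    (Y : Set (Alt N E)) (x : Alt N E → Fin N → E) (hxY : ContinuousOn x Y)
    (hblk : ∀ B ∈ Y, IsBlock σ H B.1 p n (x B)) (u : DD d p n) (s : Alt N E → unitary σ H)
    (hs : ∀ B ∈ Y, IsBlkElt σ H B.1 δ p n (x B) u (s B)) : ContinuousOn s Y := by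
  have hfin : FiniteDimensional F E := hq.finite
  have hbc := fun a : DD d p n => blk_contOn (H := H) (δ := δ) hσ Y x hxY a
  have hdet : ∀ B ∈ Y, (gram (F := F) σ H fun i => blk σ H B.1 δ p n (x B) (β i)).det ≠ 0 :=
    fun B hB => (formula β hq hH B (hblk B hB)).1
  refine unitary_contOn Y s fun y => ?_
  have hcrd := crd_contOn hσ Y (fun (B : Alt N E) i => blk σ H B.1 δ p n (x B) (β i))
    (fun i => hbc (β i)) hdet y
  have h1 := comb_contOn Y
    (fun (B : Alt N E) i => crd (F := F) σ H (fun i => blk σ H B.1 δ p n (x B) (β i)) y i)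
    (fun (B : Alt N E) i => blk σ H B.1 δ p n (x B) (β i))
    (fun (B : Alt N E) i => blk σ H B.1 δ p n (x B) (β i * u)) y hcrd (fun i => hbc (β i))
    (fun i => hbc (β i * u))
  refine h1.congr fun B hB => ?_
  exact (formula β hq hH B (hblk B hB)).2 u (s B) (hs B hB) y

end cont

end Sec

section main

open Sec

variable {F E : Type} [NontriviallyNormedField F] [ProperSpace F]
  [NontriviallyNormedField E] [NormedAlgebra F E] [IsUltrametricDist E] [ProperSpace E]
  {σ : E ≃ₐ[F] E} {δ : E} {d : F} {N : ℕ} {H : Matrix (Fin N) (Fin N) E}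

theorem dd_finite {F : Type} [Field F] {d : F} {p : F[X]} (hp : p ≠ 0) (n : ℕ) :
    Module.Finite F (DD d p n) := by
  have h1 : Module.Finite F (RR p n) := (AdjoinRoot.powerBasis (pow_ne_zero n hp)).finite
  exact Module.Finite.trans (RR p n) _

/-- T5 (Sect.lean): the continuous section through a block element, note 6449 (2.3). -/
theorem exists_section (hq : QuadDatum σ δ d) (hH : IsSkew σ H) (hσ : Continuous σ)
    (B₀ : Alt N E) (p : F[X]) (n : ℕ) (x₀ : Fin N → E) (hx : IsBlock σ H B₀.1 p n x₀)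
    (Z : Set (Alt N E)) (hZ : B₀ ∈ Z)
    (hrank : ∀ᶠ B in nhdsWithin B₀ Z,
      Module.finrank F (LinearMap.range (aeval (Alin σ H B.1) (p ^ n))) =
        Module.finrank F (LinearMap.range (aeval (Alin σ H B₀.1) (p ^ n))))
    (u : DD d p n) (hu : u * star u = 1) (hbdd : PowBdd F u) (g₀ : unitary σ H)
    (hg₀ : IsBlkElt σ H B₀.1 δ p n x₀ u g₀) :
    ∃ (V : Set (Alt N E)) (s : Alt N E → unitary σ H) (C : Subgroup (unitary σ H)),
      IsOpen V ∧ B₀ ∈ V ∧ ContinuousOn s (Z ∩ V) ∧ (∀ B ∈ Z ∩ V, ((s B : GL (Fin N) E) • B = B)) ∧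
      s B₀ = g₀ ∧ IsOpen (C : Set (unitary σ H)) ∧ IsCompact (C : Set (unitary σ H)) ∧
      g₀ ∈ C := by
  classical
  have hfin : FiniteDimensional F E := hq.finite
  have hDfin : Module.Finite F (DD d p n) := dd_finite hx.irr.ne_zero n
  obtain ⟨V₁, x, hV₁o, hV₁, hxc, hx0, hkill⟩ :=
    exists_kernel_vector (H := H) hσ (Module.finBasis F (Fin N → E)) B₀ (p ^ n) x₀ hx.kill
  -- the top
  obtain ⟨r, hr⟩ := hx.top
  have hxca : ContinuousAt x B₀ := hxc.continuousAt (hV₁o.mem_nhds hV₁)
  have htopc := top_contAt (H := H) hσ (r * p ^ (n - 1)) x B₀ hxca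
  have htop : ∀ᶠ B : Alt N E in 𝓝 B₀,
      sk σ H (aeval (Alin σ H B.1) (r * p ^ (n - 1)) (x B)) (x B) ≠ 0 := by
    refine htopc.eventually_ne ?_
    rw [hx0]
    exact hr
  have hall := ((hV₁o.eventually_mem hV₁).and (eventually_nhdsWithin_iff.1 hrank)).and htop
  obtain ⟨V, hVsub, hVo, hV0⟩ := mem_nhds_iff.1 hall
  have hblk : ∀ B ∈ Z ∩ V, IsBlock σ H B.1 p n (x B) := by
    rintro B ⟨hBZ, hBV⟩
    obtain ⟨⟨h1, h2⟩, h3⟩ := hVsub hBV
    exact ⟨hx.irr, hx.pos, hkill B h1 (h2 hBZ).le, r, h3⟩
  have hex : ∀ B : Alt N E, ∃ g : unitary σ H, B ∈ Z ∩ V →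
      IsBlkElt σ H B.1 δ p n (x B) u g := by
    intro B
    by_cases hB : B ∈ Z ∩ V
    · obtain ⟨g, hg⟩ := blkElt_exists hq hH B (hblk B hB) u hu
      exact ⟨g, fun _ => hg⟩
    · exact ⟨1, fun h => absurd h hB⟩
  choose s hs using hex
  obtain ⟨C, hCo, hCc, hgC⟩ := SpW.exists_compactOpen g₀
    (powers_bdd hq hH B₀ hx (Module.finBasis F (DD d p n)) u hu hbdd g₀ hg₀)
  refine ⟨V, s, C, hVo, hV0, ?_, ?_, ?_, hCo, hCc, hgC⟩
  · exact section_continuous hq hH hσ (Module.finBasis F (DD d p n)) (Z ∩ V) x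
      (hxc.mono fun B hB => (hVsub hB.2).1.1) hblk u s hs
  · intro B hB
    exact blkElt_fix hq hH B (hblk B hB) u (s B) (hs B hB)
  · have h1 := hs B₀ ⟨hZ, hV0⟩
    rw [hx0] at h1
    exact blkElt_unique hq hH B₀ hx u (s B₀) g₀ h1 hg₀

end main

end SpW
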