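import Pool.Agent.Work.MP_3615d2_al.SchPair
import Pool.Agent.Work.MP_3615d2_al.WeilDual
import Pool.Agent.Work.MP_3615d2_al.AltVanish
import Pool.Agent.Work.MP_3615d2_al.Jop
import Pool.Agent.Work.MP_3615d2_al.Sect
import Pool.Agent.Work.MP_3615d2_al.BlkExist
import Pool.Agent.Work.MP_3615d2_al.LocH3

/-!
MP_3615d2_al: Theorem A from the vanishing for every block.
-/

open Set Topology Polynomial

namespace SpW

section alg

variable {F E : Type} [Field F] [Field E] [Algebra F E] {σ : E ≃ₐ[F] E} {δ : E} {d : F}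

/-- `F[t]/p` does not contain a square root of `d` when `deg p` is odd. -/
theorem no_root_of_odd (hq : QuadDatum σ δ d) {p : F[X]} (hp : Irreducible p)
    (hodd : Odd p.natDegree) :
    ¬ ∃ z : AdjoinRoot p, z * z = algebraMap F (AdjoinRoot p) d := by
  have : Fact (Irreducible p) := ⟨hp⟩
  rintro ⟨z, hz⟩
  have hfr : Module.finrank F (AdjoinRoot p) = p.natDegree :=
    (AdjoinRoot.powerBasis hp.ne_zero).finrank
  have h1 := congrArg (Algebra.norm F) hz
  rw [map_mul, Algebra.norm_algebraMap, hfr] at h1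
  obtain ⟨k, hk⟩ := hodd
  have hd := hq.d_ne
  apply hq.nonsq (Algebra.norm F z / d ^ k)
  rw [div_pow, div_eq_iff (pow_ne_zero 2 (pow_ne_zero k hd)), sq, h1, hk]
  ring

end alg

section main

variable {F E : Type} [NontriviallyNormedField F] [IsUltrametricDist F] [ProperSpace F]
  [NontriviallyNormedField E] [NormedAlgebra F E] [IsUltrametricDist E] [ProperSpace E]
  {σ : E ≃ₐ[F] E} {δ : E} {d : F}

/-- The block used in the proof: `n` odd, `K = F[t]/p` not containing `E`. -/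
theorem exists_good_block {m : ℕ} {H : Matrix (Fin (2 * m)) (Fin (2 * m)) E}
    (hq : QuadDatum σ δ d) (hH : IsSkew σ H) (B : Alt (2 * m) E)
    (hcase : Odd m ∨ ¬ ∃ Y : Submodule E (Fin (2 * m) → E), Module.finrank E Y = m ∧
      ∀ y ∈ Y, ∀ z ∈ Y, sk σ H y z = 0) :
    ∃ (p : F[X]) (n : ℕ) (x : Fin (2 * m) → E), p.Monic ∧ IsBlock σ H B.1 p n x ∧
      Odd n ∧ (¬ ∃ z : AdjoinRoot p, z * z = algebraMap F (AdjoinRoot p) d) ∧
      ∃ z : AdjoinRoot p, z ≠ 0 ∧ ¬ ∃ y : E, Algebra.norm F y = Algebra.norm F z := by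
  rcases hcase with hm | hns
  · obtain ⟨p, n, x, hp, hx, hodd⟩ := exists_odd_block hm hq hH B
    rw [Nat.odd_mul] at hodd
    have h1 := no_root_of_odd hq hx.irr hodd.2
    exact ⟨p, n, x, hp, hx, hodd.1, h1, exists_root_norm_not_norm hq p hx.irr h1⟩
  · obtain ⟨p, n, x, hp, hx, hodd, h1⟩ := exists_block_nonsplit hq hH B hns
    exact ⟨p, n, x, hp, hx, hodd, h1, exists_root_norm_not_norm hq p hx.irr h1⟩

/-- No invariant functional on `Sch (Alt (2m) E) S`, from the vanishing at every block. -/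
theorem alt_vanish {m : ℕ} {H : Matrix (Fin (2 * m)) (Fin (2 * m)) E}
    (hq : QuadDatum σ δ d) (hH : IsSkew σ H)
    (hcase : Odd m ∨ ¬ ∃ Y : Submodule E (Fin (2 * m) → E), Module.finrank E Y = m ∧
      ∀ y ∈ Y, ∀ z ∈ Y, sk σ H y z = 0)
    {S : Type} [AddCommGroup S] [Module ℂ S] (om : unitary σ H →* Module.End ℂ S)
    (hom : IsSmoothRep om)
    (hkill : ∀ (B : Alt (2 * m) E) (p : F[X]) (n : ℕ) (x : Fin (2 * m) → E), p.Monic →
      IsBlock σ H B.1 p n x → Odd n →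
      (¬ ∃ z : AdjoinRoot p, z * z = algebraMap F (AdjoinRoot p) d) →
      (∃ z : AdjoinRoot p, z ≠ 0 ∧ ¬ ∃ y : E, Algebra.norm F y = Algebra.norm F z) →
      ∀ m' : S →ₗ[ℂ] ℂ, (∀ (u : DD d p n) (g : unitary σ H), u * star u = 1 → PowBdd F u →
        IsBlkElt σ H B.1 δ p n x u g → ∀ v, m' (om g v) = m' v) → m' = 0)
    (L : Sch (Alt (2 * m) E) S →ₗ[ℂ] ℂ)
    (hL : ∀ (g : unitary σ H) (f f' : Sch (Alt (2 * m) E) S),
      (∀ B, (f' : Alt (2 * m) E → S) B = om g ((f : Alt (2 * m) E → S) (g⁻¹ • B))) →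
        L f' = L f) : L = 0 := by
  refine alt_vanish_of hq om hom (fun g B x => J_equiv hq hH g B x) ?_ ?_ L hL
  · intro B
    obtain ⟨p, n, x, hp, hx, hn, hK, hN⟩ := exists_good_block hq hH B hcase
    exact ⟨p, n, x, hp, hx, fun m' hm' => hkill B p n x hp hx hn hK hN m' hm'⟩
  · intro B₀ p n x₀ hx Z hZ hrank u hu hbdd g₀ hg₀
    exact exists_section hq hH (sig_continuous hq) B₀ p n x₀ hx Z hZ hrank u hu hbdd g₀ hg₀

/-- The smooth dual separates points. -/
theorem hDual_separates [MeasurableSpace E] [BorelSpace E] {N : ℕ}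
    {H : Matrix (Fin N) (Fin N) E} {ψ : AddChar F Circle} {μ : Eˣ →* ℂˣ} {S : Type}
    [AddCommGroup S] [Module ℂ S] {ρ : (Fin N → E) → Module.End ℂ S}
    {ω : unitary σ H →* Module.End ℂ S} (hW : IsWeil σ H ψ μ ρ ω) (hq : QuadDatum σ δ d)
    (hH : IsSkew σ H) (hψ : Continuous ψ) (hψ1 : ψ ≠ 1) {v : S}
    (hv : ∀ ξ : hDual ρ, ξ.1 v = 0) : v = 0 := by
  let V : Submodule ℂ S :=
    { carrier := {v | ∀ ξ : hDual ρ, ξ.1 v = 0}
      add_mem' := by
        intro a b ha hb ξ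
        rw [map_add, ha ξ, hb ξ, add_zero]
      zero_mem' := by
        intro ξ
        rw [map_zero]
      smul_mem' := by
        intro c a ha ξ
        rw [map_smul, ha ξ, smul_zero] }
  have hV : ∀ w, ∀ v ∈ V, ρ w v ∈ V := by
    intro w v hv ξ
    have h1 := hv (rhoD hW hq hH hψ (-w) ξ)
    rw [rhoD_apply, neg_neg] at h1
    exact h1
  rcases hW.rho_irr V hV with h | h
  · have : v ∈ V := hv
    rw [h] at this
    exact (Submodule.mem_bot ℂ).1 this
  · exfalso
    have := hDual_nontrivial hW hq hH hψ hψ1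
    obtain ⟨ξ, hξ⟩ := exists_ne (0 : hDual ρ)
    apply hξ
    refine hDual_ext fun x => ?_
    have hx : x ∈ V := by rw [h]; trivial
    exact hx ξ

end main

end SpW
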