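import Pool.Agent.Work.MP_3615d2_al.Quad

/-!
MP_3615d2_al, block We, W5: the operators attached to the elements `g` of `U(X)` with `g - 1`
invertible extend to a representation of `U(X)`.
-/

open MeasureTheory Polynomial
open scoped NNReal

namespace SpW

/-! ### Extension of a partial homomorphism -/

/-- A function which is multiplicative on a generic subset `R` of a group `G` extends to a
homomorphism. -/
theorem ext_hom {G M : Type*} [Group G] [Monoid M] (R : Set G) (f : G → M)
    (hmul : ∀ g g', g ∈ R → g' ∈ R → g * g' ∈ R → f g * f g' = f (g * g'))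
    (hu : ∀ g ∈ R, IsUnit (f g))
    (hR : ∀ s : Finset G, ∃ h ∈ R, ∀ g ∈ s, g * h ∈ R) :
    ∃ Φ : G →* M, ∀ g h, h ∈ R → g * h ∈ R → Φ g * f h = f (g * h) := by
  classical
  have hc : ∀ g : G, ∃ m : M, ∀ h, h ∈ R → g * h ∈ R → m * f h = f (g * h) := by
    intro g
    obtain ⟨h, hh, hgh⟩ := hR {g}
    have hgh' := hgh g (by simp)
    obtain ⟨u, hu1⟩ := hu h hh
    refine ⟨f (g * h) * ↑u⁻¹, fun h' hh' hgh2 => ?_⟩
    obtain ⟨k, hk, hk2⟩ := hR {g, h⁻¹, h'⁻¹}
    have k1 := hk2 g (by simp)
    have k2 := hk2 h⁻¹ (by simp)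
    have k3 := hk2 h'⁻¹ (by simp)
    have e1 : f h * f (h⁻¹ * k) = f k := by
      rw [hmul _ _ hh k2 (by simpa using hk)]; simp
    have e2 : f (g * h) * f (h⁻¹ * k) = f (g * k) := by
      rw [hmul _ _ hgh' k2 (by simpa [mul_assoc] using k1)]; simp [mul_assoc]
    have e3 : f h' * f (h'⁻¹ * k) = f k := by
      rw [hmul _ _ hh' k3 (by simpa using hk)]; simp
    have e4 : f (g * h') * f (h'⁻¹ * k) = f (g * k) := by
      rw [hmul _ _ hgh2 k3 (by simpa [mul_assoc] using k1)]; simp [mul_assoc]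
    have e5 : f (g * h) * ↑u⁻¹ * f k = f (g * k) := by
      rw [← e1, ← hu1, ← mul_assoc, mul_assoc (f (g * h)), Units.inv_mul, mul_one, e2]
    refine (hu _ k3).mul_right_cancel ?_
    rw [mul_assoc, e3, e4, e5]
  choose Φ hΦ using hc
  refine ⟨⟨⟨Φ, ?_⟩, ?_⟩, hΦ⟩
  · obtain ⟨h, hh, -⟩ := hR ∅
    refine (hu h hh).mul_right_cancel ?_
    rw [hΦ 1 h hh (by simpa using hh), one_mul, one_mul]
  · intro a b
    show Φ (a * b) = Φ a * Φ b
    obtain ⟨h, hh, h2⟩ := hR {b, a * b}
    have h3 := h2 b (by simp)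
    have h4 := h2 (a * b) (by simp)
    refine (hu h hh).mul_right_cancel ?_
    have h5 : a * (b * h) ∈ R := by rwa [← mul_assoc]
    rw [mul_assoc (Φ a), hΦ b h hh h3, hΦ a (b * h) h3 h5, hΦ _ h hh h4, mul_assoc]

/-! ### The regular set of `U(X)` -/

section reg

variable {F E : Type} [Field F] [Field E] [Algebra F E] {σ : E ≃ₐ[F] E} {δ : E} {d : F} {N : ℕ}
  {H : Matrix (Fin N) (Fin N) E}

/-- The regular set of `U(X)`: `g - 1` is invertible. -/
def regU (σ : E ≃ₐ[F] E) {N : ℕ} (H : Matrix (Fin N) (Fin N) E) : Set (unitary σ H) :=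
  {g | (umat g - 1).det ≠ 0}

theorem sk_smul_smul (a b : E) (x y : Fin N → E) :
    sk σ H (a • x) (b • y) = a * σ b * sk σ H x y := by
  unfold sk
  rw [Finset.mul_sum]
  refine Finset.sum_congr rfl fun i _ => ?_
  rw [Finset.mul_sum]
  refine Finset.sum_congr rfl fun j _ => ?_
  simp only [Pi.smul_apply, smul_eq_mul, map_mul]
  ring

/-- The scalar `u` with `u σ(u) = 1` as an element of `U(X)`. -/
theorem exists_scalar (u : E) (hu : u * σ u = 1) :
    ∃ z : unitary σ H, umat z = u • (1 : Matrix (Fin N) (Fin N) E) := by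
  have hu2 : σ u * u = 1 := by rw [mul_comm]; exact hu
  let z0 : GL (Fin N) E :=
    ⟨u • 1, σ u • 1, by rw [smul_mul_smul_comm, hu]; simp, by rw [smul_mul_smul_comm, hu2]; simp⟩
  refine ⟨⟨z0, ?_⟩, rfl⟩
  intro x y
  show sk σ H ((u • (1 : Matrix (Fin N) (Fin N) E)).mulVec x)
    ((u • (1 : Matrix (Fin N) (Fin N) E)).mulVec y) = _
  rw [Matrix.smul_mulVec, Matrix.smul_mulVec, Matrix.one_mulVec, Matrix.one_mulVec,
    sk_smul_smul, hu, one_mul]

theorem finite_bad (A : Matrix (Fin N) (Fin N) E) : {u : E | (u • A - 1).det = 0}.Finite := by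
  classical
  have h0 : A.charpolyRev ≠ 0 := by
    intro h
    have := Matrix.eval_charpolyRev (M := A)
    rw [h] at this
    simp at this
  refine ((A.charpolyRev.roots.toFinset.finite_toSet)).subset ?_
  intro u hu
  rw [Finset.mem_coe, Multiset.mem_toFinset, Polynomial.mem_roots h0, Polynomial.IsRoot.def]
  have hu' : (u • A - 1).det = 0 := hu
  have h1 : eval u A.charpolyRev = (1 - u • A).det := by
    unfold Matrix.charpolyRev
    rw [← Polynomial.coe_evalRingHom, RingHom.map_det]
    congr 1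
    ext i j
    simp [Matrix.one_apply, apply_ite]
    exact mul_comm _ _
  rw [h1, ← neg_sub, Matrix.det_neg, hu', mul_zero]

/-- For finitely many elements `g` of `U(X)` there is `h` in `U(X)` such that `h` and all `g h`
are regular: a scalar. -/
theorem exists_regular [Infinite F] (hq : QuadDatum σ δ d) (s : Finset (unitary σ H)) :
    ∃ h ∈ regU σ H, ∀ g ∈ s, g * h ∈ regU σ H := by
  classical
  have hδ := hq.ne
  have h2 := hq.two_E
  have hn : ∀ t : F, algebraMap F E t * δ - 1 ≠ 0 := by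
    intro t ht
    by_cases h0 : t = 0
    · subst h0; simp at ht
    · refine hq.notMem t⁻¹ ?_
      have h3 : algebraMap F E t ≠ 0 := (_root_.map_ne_zero _).2 h0
      rw [map_inv₀]
      field_simp
      linear_combination -ht
  have hn2 : ∀ t : F, algebraMap F E t * δ + 1 ≠ 0 := by
    intro t ht
    have := hn (-t)
    apply this
    rw [map_neg]
    linear_combination -ht
  set U : F → E := fun t => (algebraMap F E t * δ + 1) / (algebraMap F E t * δ - 1) with hU
  have hUi : Function.Injective U := by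
    intro t t' h
    have h3 : (algebraMap F E t * δ + 1) / (algebraMap F E t * δ - 1) =
      (algebraMap F E t' * δ + 1) / (algebraMap F E t' * δ - 1) := h
    rw [div_eq_div_iff (hn t) (hn t')] at h3
    have h4 : 2 * (δ * (algebraMap F E t' - algebraMap F E t)) = 0 := by linear_combination h3
    have h5 := (mul_eq_zero.1 h4).resolve_left h2
    have h6 := (mul_eq_zero.1 h5).resolve_left hδ
    exact ((algebraMap F E).injective (sub_eq_zero.1 h6)).symm
  have hUs : ∀ t, U t * σ (U t) = 1 := by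
    intro t
    have h3 : σ (algebraMap F E t * δ + 1) = -(algebraMap F E t * δ - 1) := by
      rw [map_add, map_mul, AlgEquiv.commutes, hq.sig, map_one]; ring
    have h4 : σ (algebraMap F E t * δ - 1) = -(algebraMap F E t * δ + 1) := by
      rw [map_sub, map_mul, AlgEquiv.commutes, hq.sig, map_one]; ring
    rw [hU]
    simp only [map_div₀, h3, h4]
    have h5 := hn t
    have h6 := hn2 t
    rw [neg_div_neg_eq, div_mul_div_comm, mul_comm, div_self (mul_ne_zero h5 h6)]
  have hbad : (⋃ g ∈ (insert 1 s : Finset (unitary σ H)),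
      {u : E | (u • umat g - 1).det = 0}).Finite :=
    (Finset.finite_toSet _).biUnion fun g _ => finite_bad _
  have hinf : (Set.range U).Infinite := Set.infinite_range_of_injective hUi
  obtain ⟨u, ⟨t, rfl⟩, hu⟩ := (hinf.diff hbad).nonempty
  obtain ⟨z, hz⟩ := exists_scalar (H := H) (U t) (hUs t)
  have key : ∀ g ∈ (insert 1 s : Finset (unitary σ H)), g * z ∈ regU σ H := by
    intro g hg h0
    apply hu
    simp only [Set.mem_iUnion]
    refine ⟨g, hg, ?_⟩
    show (U t • umat g - 1).det = 0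
    have h3 : umat (g * z) = U t • umat g := by
      show ((g : GL (Fin N) E) : Matrix (Fin N) (Fin N) E) *
        ((z : GL (Fin N) E) : Matrix (Fin N) (Fin N) E) = _
      have : ((z : GL (Fin N) E) : Matrix (Fin N) (Fin N) E) = U t • 1 := hz
      rw [this, Matrix.mul_smul, Matrix.mul_one]
    rw [← h3]
    exact h0
  refine ⟨z, ?_, fun g hg => key g (Finset.mem_insert_of_mem hg)⟩
  have := key 1 (Finset.mem_insert_self _ _)
  rwa [one_mul] at this

end reg

/-! ### The extension to `U(X)` -/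

section ext

variable {F E : Type} [NontriviallyNormedField F] [NontriviallyNormedField E] [NormedAlgebra F E]
  [ProperSpace E] [MeasurableSpace E] [BorelSpace E] {σ : E ≃ₐ[F] E} {δ : E} {d : F} {N : ℕ}
  {H : Matrix (Fin N) (Fin N) E}

theorem isOpen_regU : IsOpen (regU σ H) := by
  have hc : Continuous fun g : unitary σ H => (umat g - 1).det := by
    refine Continuous.matrix_det (Continuous.sub ?_ continuous_const)
    exact Units.continuous_val.comp continuous_subtype_val
  exact isOpen_ne_fun hc continuous_const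

/-- W5: operators `f g` for regular `g`, intertwining, multiplicative, locally constant and
normalised, extend to the Weil representation. -/
theorem weil_of_reg (hq : QuadDatum σ δ d) {ψ : AddChar F Circle} {μ : Eˣ →* ℂˣ}
    {S : Type} [AddCommGroup S] [Module ℂ S] [Nontrivial S]
    {ρ : (Fin N → E) → Module.End ℂ S}
    (rho_mul : ∀ w w', ρ w * ρ w' =
      ((ψ ((2 : F)⁻¹ * sympl F σ H w w') : Circle) : ℂ) • ρ (w + w'))
    (rho_smooth : ∀ v, ∀ᶠ w in nhds (0 : Fin N → E), ρ w v = v)
    (rho_irr : ∀ T : Submodule ℂ S, (∀ w, ∀ v ∈ T, ρ w v ∈ T) → T = ⊥ ∨ T = ⊤)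
    (f : unitary σ H → Module.End ℂ S)
    (f_rho : ∀ g : unitary σ H, (umat g - 1).det ≠ 0 → ∀ w,
      f g * ρ w = ρ ((umat g).mulVec w) * f g)
    (f_mul : ∀ g g' : unitary σ H, (umat g - 1).det ≠ 0 → (umat g' - 1).det ≠ 0 →
      (umat (g * g') - 1).det ≠ 0 → f g * f g' = f (g * g'))
    (f_ne : ∀ g : unitary σ H, (umat g - 1).det ≠ 0 → f g ≠ 0)
    (f_loc : ∀ g₀ : unitary σ H, (umat g₀ - 1).det ≠ 0 → ∀ v, ∀ᶠ g in nhds g₀, f g v = f g₀ v)
    (f_norm : ∃ κ : ℂ, ∀ (g : unitary σ H) (d : Eˣ), (d : E) = (umat g - 1).det →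
      ∀ (v : S) (ξ : S →ₗ[ℂ] ℂ), ∀ᶠ r : ℝ in Filter.atTop,
      ξ (f g v) = κ * ((μ d : ℂˣ) : ℂ) * (((absE d) ^ (-(1 / 2) : ℝ) : ℝ) : ℂ) *
        ∫ w in Metric.closedBall (0 : Fin N → E) r,
          ((ψ ((4 : F)⁻¹ * sympl F σ H ((cayley (umat g)).mulVec w) w) : Circle) : ℂ)
            * ξ (ρ w v) ∂(Measure.addHaar)) :
    ∃ ω : unitary σ H →* Module.End ℂ S, IsWeil σ H ψ μ ρ ω := by
  have hunit : ∀ g ∈ regU σ H, IsUnit (f g) := by
    intro g hg
    rw [Module.End.isUnit_iff]
    have hne := f_ne g hg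
    have hint : ∀ w v, f g (ρ w v) = ρ ((umat g).mulVec w) (f g v) := fun w v =>
      LinearMap.congr_fun (f_rho g hg w) v
    constructor
    · rw [← LinearMap.ker_eq_bot]
      rcases rho_irr (LinearMap.ker (f g)) (fun w v hv => by
        rw [LinearMap.mem_ker] at hv ⊢
        rw [hint, hv, map_zero]) with h | h
      · exact h
      · exact absurd (LinearMap.ker_eq_top.1 h) hne
    · rw [← LinearMap.range_eq_top]
      rcases rho_irr (LinearMap.range (f g)) (fun w v hv => by
        obtain ⟨x, rfl⟩ := hv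
        refine ⟨ρ ((umat g⁻¹).mulVec w) x, ?_⟩
        rw [hint, Matrix.mulVec_mulVec]
        congr 2
        have : umat g * umat g⁻¹ = 1 := by
          show ((g : GL (Fin N) E) : Matrix (Fin N) (Fin N) E) *
            (((g : GL (Fin N) E)⁻¹ : GL (Fin N) E) : Matrix (Fin N) (Fin N) E) = 1
          rw [← Units.val_mul, mul_inv_cancel, Units.val_one]
        rw [this, Matrix.one_mulVec]) with h | h
      · exact absurd (LinearMap.range_eq_bot.1 h) hne
      · exact h
  obtain ⟨Φ, hΦ⟩ := ext_hom (regU σ H) f (fun g g' h1 h2 h3 => f_mul g g' h1 h2 h3) hunit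
    (fun s => exists_regular hq s)
  have hΦr : ∀ g ∈ regU σ H, Φ g = f g := by
    intro g hg
    obtain ⟨h, hh, h2⟩ := exists_regular (H := H) hq {g}
    have h3 := h2 g (by simp)
    refine (hunit h hh).mul_right_cancel ?_
    rw [hΦ g h hh h3, f_mul g h hg hh h3]
  refine ⟨Φ, inferInstance, rho_mul, rho_smooth, rho_irr, ?_, ?_, ?_⟩
  · intro v
    obtain ⟨h, hh, -⟩ := exists_regular (H := H) hq ∅
    obtain ⟨v', rfl⟩ := ((Module.End.isUnit_iff _).1 (hunit h hh)).2 v
    have hc : Filter.Tendsto (fun g : unitary σ H => g * h) (nhds 1) (nhds h) := by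
      have : Continuous fun g : unitary σ H => g * h := continuous_mul_const h
      have h3 := this.tendsto 1
      rwa [one_mul] at h3
    filter_upwards [hc.eventually (f_loc h hh v'), hc.eventually (isOpen_regU.mem_nhds hh)]
      with g hg1 hg2
    rw [← Module.End.mul_apply, hΦ g h hh hg2, hg1]
  · intro g w
    obtain ⟨h, hh, h2⟩ := exists_regular (H := H) hq {g}
    have h3 := h2 g (by simp)
    refine (hunit h hh).mul_right_cancel ?_
    have e1 : w = (umat h).mulVec ((umat h⁻¹).mulVec w) := by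
      have : umat h * umat h⁻¹ = 1 := by
        show ((h : GL (Fin N) E) : Matrix (Fin N) (Fin N) E) *
          (((h : GL (Fin N) E)⁻¹ : GL (Fin N) E) : Matrix (Fin N) (Fin N) E) = 1
        rw [← Units.val_mul, mul_inv_cancel, Units.val_one]
      rw [Matrix.mulVec_mulVec, this, Matrix.one_mulVec]
    set w' := (umat h⁻¹).mulVec w with hw'
    rw [mul_assoc, mul_assoc, hΦ g h hh h3]
    conv_lhs => rw [e1]
    rw [← f_rho h hh w', ← mul_assoc, hΦ g h hh h3, f_rho (g * h) h3 w']
    congr 2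
    have e2 : umat (g * h) = umat g * umat h := rfl
    rw [e2, ← Matrix.mulVec_mulVec, ← e1]
  · obtain ⟨κ, hκ⟩ := f_norm
    refine ⟨κ, fun g d hd v ξ => ?_⟩
    have hg : g ∈ regU σ H := by
      show (umat g - 1).det ≠ 0
      rw [← hd]
      exact d.ne_zero
    rw [hΦr g hg]
    exact hκ g d hd v ξ

end ext

end SpW
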