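import Pool.Agent.Work.MP_3615d2_al.Mod

/-!
MP_3615d2_al, A11 (part 2): `∫ min(1, |x|^-2) dx < ∞` over a nonarchimedean local field.
-/

open MeasureTheory Measure
open scoped NNReal ENNReal Pointwise

namespace SpW

variable {F : Type} [NontriviallyNormedField F] [IsUltrametricDist F] [ProperSpace F]
  [MeasurableSpace F] [BorelSpace F]

theorem lint_fin (μ : Measure F) [μ.IsAddHaarMeasure] :
    ∫⁻ x : F, min 1 (((md x : ℝ≥0∞)⁻¹) ^ 2) ∂μ < ∞ := by
  obtain ⟨t, ht0, ht1⟩ := NormedField.exists_norm_lt_one F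
  have ht : t ≠ 0 := norm_pos_iff.1 ht0
  set q : ℝ≥0∞ := ((md t : ℝ≥0) : ℝ≥0∞) with hq
  have hq1 : q < 1 := by
    rw [hq]
    exact_mod_cast md_lt_one ht1
  have hq0 : q ≠ 0 := by
    rw [hq]
    exact_mod_cast (md_pos ht).ne'
  have hqt : q ≠ ∞ := hq1.ne_top
  set A : ℕ → Set F := fun n => Metric.closedBall (0 : F) ‖(t⁻¹) ^ n‖ with hA
  have hA0 : μ (A 0) ≠ ∞ := (isCompact_closedBall _ _).measure_lt_top.ne
  have hAm : ∀ n, MeasurableSet (A n) := fun n => Metric.isClosed_closedBall.measurableSet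
  have hAn : ∀ n, μ (A n) = (q⁻¹) ^ n * μ (A 0) := by
    intro n
    have h1 : A n = (fun y => (t⁻¹) ^ n * y) '' (A 0) := by
      ext z
      simp only [hA, pow_zero, norm_one, mem_closedBall_zero_iff, Set.mem_image]
      constructor
      · intro hz
        refine ⟨t ^ n * z, ?_, ?_⟩
        · rw [norm_mul]
          calc ‖t ^ n‖ * ‖z‖ ≤ ‖t ^ n‖ * ‖(t⁻¹) ^ n‖ :=
                mul_le_mul_of_nonneg_left hz (norm_nonneg _)
            _ = 1 := by
                rw [← norm_mul, ← mul_pow, mul_inv_cancel₀ ht, one_pow, norm_one]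
        · rw [← mul_assoc, ← mul_pow, inv_mul_cancel₀ ht, one_pow, one_mul]
      · rintro ⟨y, hy, rfl⟩
        rw [norm_mul]
        exact mul_le_of_le_one_right (norm_nonneg _) hy
    rw [h1, md_image μ (pow_ne_zero n (inv_ne_zero ht)), md_pow, md_inv]
    congr 1
    push_cast
    rw [ENNReal.coe_inv (md_pos ht).ne']
  have hbound : ∀ x : F, min 1 (((md x : ℝ≥0∞)⁻¹) ^ 2) ≤
      (A 0).indicator (fun _ => (1 : ℝ≥0∞)) x +
        ∑' n : ℕ, (A (n + 1)).indicator (fun _ => q ^ (2 * n)) x := by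
    intro x
    by_cases hx : x ∈ A 0
    · rw [Set.indicator_of_mem hx]
      exact (min_le_left _ _).trans le_self_add
    · have hex : ∃ n, x ∈ A n := by
        have h1 : 1 < ‖t⁻¹‖ := by
          rw [norm_inv]
          exact (one_lt_inv₀ ht0).2 ht1
        obtain ⟨n, hn⟩ := pow_unbounded_of_one_lt ‖x‖ h1
        refine ⟨n, ?_⟩
        rw [hA]
        show x ∈ Metric.closedBall (0 : F) ‖(t⁻¹) ^ n‖
        rw [mem_closedBall_zero_iff, norm_pow]
        exact hn.le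
      classical
      have h2 := Nat.find_spec hex
      have h3 : Nat.find hex ≠ 0 := by
        intro h
        rw [h] at h2
        exact hx h2
      obtain ⟨n, hn⟩ := Nat.exists_eq_succ_of_ne_zero h3
      have h4 : x ∉ A n := Nat.find_min hex (by omega)
      rw [hn] at h2
      have h5 : ((md x : ℝ≥0∞)⁻¹) ^ 2 ≤ q ^ (2 * n) := by
        have h6 : ‖(t⁻¹) ^ n‖ ≤ ‖x‖ := by
          rw [hA] at h4
          have h7 : ¬ ‖x‖ ≤ ‖(t⁻¹) ^ n‖ := by
            intro h
            exact h4 (mem_closedBall_zero_iff.2 h)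
          linarith [not_le.1 h7]
        have h7 := md_mono h6
        rw [md_pow, md_inv] at h7
        have h8 : (q⁻¹) ^ n ≤ (md x : ℝ≥0∞) := by
          rw [hq, ← ENNReal.coe_inv (md_pos ht).ne']
          exact_mod_cast h7
        have h9 : (md x : ℝ≥0∞)⁻¹ ≤ q ^ n := by
          rw [ENNReal.inv_le_iff_inv_le, ENNReal.inv_pow]
          exact h8
        calc ((md x : ℝ≥0∞)⁻¹) ^ 2 ≤ (q ^ n) ^ 2 := pow_le_pow_left' h9 2
          _ = q ^ (2 * n) := by rw [← pow_mul, mul_comm]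
      calc min 1 (((md x : ℝ≥0∞)⁻¹) ^ 2) ≤ q ^ (2 * n) := (min_le_right _ _).trans h5
        _ = (A (n + 1)).indicator (fun _ => q ^ (2 * n)) x := by
            rw [Set.indicator_of_mem h2]
        _ ≤ ∑' n : ℕ, (A (n + 1)).indicator (fun _ => q ^ (2 * n)) x :=
            ENNReal.le_tsum n
        _ ≤ _ := le_add_self
  calc ∫⁻ x : F, min 1 (((md x : ℝ≥0∞)⁻¹) ^ 2) ∂μ
      ≤ ∫⁻ x : F, ((A 0).indicator (fun _ => (1 : ℝ≥0∞)) x +
        ∑' n : ℕ, (A (n + 1)).indicator (fun _ => q ^ (2 * n)) x) ∂μ := lintegral_mono hbound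
    _ = μ (A 0) + ∑' n : ℕ, q ^ (2 * n) * μ (A (n + 1)) := by
        rw [lintegral_add_left (measurable_const.indicator (hAm 0)),
          lintegral_tsum (fun n => (measurable_const.indicator (hAm (n + 1))).aemeasurable)]
        congr 1
        · rw [lintegral_indicator_const (hAm 0), one_mul]
        · congr 1
          ext n
          rw [lintegral_indicator_const (hAm (n + 1))]
    _ = μ (A 0) + (q⁻¹ * μ (A 0)) * ∑' n : ℕ, q ^ n := by
        congr 1
        rw [← ENNReal.tsum_mul_left]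
        congr 1
        ext n
        rw [hAn (n + 1), pow_succ]
        have h1 : q ^ (2 * n) = q ^ n * q ^ n := by rw [← pow_add]; congr 1; omega
        have h2 : q ^ n * (q⁻¹) ^ n = 1 := by
          rw [← mul_pow, ENNReal.mul_inv_cancel hq0 hqt, one_pow]
        rw [h1]
        calc q ^ n * q ^ n * ((q⁻¹) ^ n * q⁻¹ * μ (A 0)) =
            (q ^ n * (q⁻¹) ^ n) * (q⁻¹ * μ (A 0) * q ^ n) := by ring
          _ = q⁻¹ * μ (A 0) * q ^ n := by rw [h2, one_mul]
    _ < ∞ := by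
        rw [ENNReal.tsum_geometric]
        apply ENNReal.add_lt_top.2 ⟨hA0.lt_top, ?_⟩
        apply ENNReal.mul_lt_top (ENNReal.mul_lt_top (ENNReal.inv_lt_top.2 (pos_iff_ne_zero.2 hq0)) hA0.lt_top)
        rw [ENNReal.inv_lt_top]
        exact tsub_pos_of_lt hq1

/-- A measurable function bounded by `C` and by `C |x|^-2` has finite integral. -/
theorem lint_fin_of_le (μ : Measure F) [μ.IsAddHaarMeasure] (f : F → ℝ≥0∞) (C : ℝ≥0)
    (h1 : ∀ x, f x ≤ C) (h2 : ∀ x, f x ≤ C * ((md x : ℝ≥0∞)⁻¹) ^ 2) :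
    ∫⁻ x : F, f x ∂μ < ∞ := by
  have h3 : ∀ x, f x ≤ C * min 1 (((md x : ℝ≥0∞)⁻¹) ^ 2) := by
    intro x
    rcases le_total 1 (((md x : ℝ≥0∞)⁻¹) ^ 2) with h | h
    · rw [min_eq_left h, mul_one]
      exact h1 x
    · rw [min_eq_right h]
      exact h2 x
  calc ∫⁻ x : F, f x ∂μ ≤ ∫⁻ x : F, C * min 1 (((md x : ℝ≥0∞)⁻¹) ^ 2) ∂μ := lintegral_mono h3
    _ = C * ∫⁻ x : F, min 1 (((md x : ℝ≥0∞)⁻¹) ^ 2) ∂μ :=
        lintegral_const_mul' _ _ ENNReal.coe_ne_top
    _ < ∞ := ENNReal.mul_lt_top ENNReal.coe_lt_top (lint_fin μ)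

end SpW
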