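import Pool.Agent.Work.MP_3615d2_al.DefsB
import Pool.Agent.Work.MP_3615d2_al.GK
import Pool.Agent.Work.MP_3615d2_al.DualDefs

/-!
MP_3615d2_al: the operator attached to an element of `V ⊗ V` by an invariant pairing.
-/

open MeasureTheory Matrix Filter Topology
open scoped NNReal TensorProduct

namespace SpW

section

variable {E : Type} [NontriviallyNormedField E] {m : ℕ} {V : Type} [AddCommGroup V] [Module ℂ V]
  {π : GL (Fin m) E →* Module.End ℂ V}

/-- The operator `u ↦ l(u, w) v` of `v ⊗ w`. -/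
noncomputable def opT (l : V →ₗ[ℂ] V →ₗ[ℂ] ℂ) : V ⊗[ℂ] V →ₗ[ℂ] Module.End ℂ V :=
  TensorProduct.lift (LinearMap.mk₂ ℂ (fun v w => ((l.flip w).smulRight v : V →ₗ[ℂ] V))
    (fun v v' w => by ext u; simp)
    (fun c v w => by
      ext u
      exact smul_comm (l u w) c v)
    (fun v w w' => by ext u; simp [add_smul])
    (fun c v w => by ext u; simp [mul_smul]))

theorem opT_tmul (l : V →ₗ[ℂ] V →ₗ[ℂ] ℂ) (v w u : V) : opT l (v ⊗ₜ[ℂ] w) u = l u w • v := rfl

theorem opT_flip_inj (hirr : IsIrrRep π) {l : V →ₗ[ℂ] V →ₗ[ℂ] ℂ} (hl : l ≠ 0)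
    (hlG : ∀ g v w, l (π g v) (π (trGL g⁻¹) w) = l v w) {w : V} (hw : ∀ u, l u w = 0) : w = 0 := by
  let T : Submodule ℂ V :=
    { carrier := {w | ∀ u, l u w = 0}
      add_mem' := fun {a b} ha hb u => by rw [map_add, ha u, hb u, add_zero]
      zero_mem' := fun u => map_zero _
      smul_mem' := fun c a ha u => by rw [map_smul, ha u, smul_zero] }
  have hT : ∀ g, ∀ v ∈ T, π g v ∈ T := by
    intro g v hv u
    have h1 := hlG (trGL g)⁻¹ (π (trGL g) u) v
    rw [inv_inv, trGL_trGL, ← Module.End.mul_apply, ← map_mul, inv_mul_cancel, map_one,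
      Module.End.one_apply] at h1
    rw [h1]
    exact hv _
  rcases hirr.irr T hT with h | h
  · have : w ∈ T := hw
    rw [h] at this
    exact this
  · exfalso
    apply hl
    ext u v
    have : v ∈ T := by rw [h]; exact Submodule.mem_top
    exact this u

theorem opT_inj (hirr : IsIrrRep π) {l : V →ₗ[ℂ] V →ₗ[ℂ] ℂ} (hl : l ≠ 0)
    (hlG : ∀ g v w, l (π g v) (π (trGL g⁻¹) w) = l v w) : Function.Injective (opT l) := by
  rw [injective_iff_map_eq_zero]
  intro κ hκ
  set b := Module.Basis.ofVectorSpace ℂ V with hb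
  obtain ⟨c, rfl⟩ := TensorProduct.eq_repr_basis_left b κ
  have h1 : ∀ i, c i = 0 := by
    intro i
    refine opT_flip_inj hirr hl hlG fun u => ?_
    have h2 : opT l (c.sum fun i n => b i ⊗ₜ[ℂ] n) u = 0 := by rw [hκ]; rfl
    rw [Finsupp.sum, map_sum, LinearMap.sum_apply] at h2
    simp only [opT_tmul] at h2
    have h3 := (linearIndependent_iff'.1 b.linearIndependent) c.support (fun i => l u (c i)) h2
    by_cases hi : i ∈ c.support
    · exact h3 i hi
    · rw [Finsupp.notMem_support_iff.1 hi, map_zero]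
  have h2 : c = 0 := Finsupp.ext h1
  rw [h2, Finsupp.sum_zero_index]

theorem opT_equiv {l : V →ₗ[ℂ] V →ₗ[ℂ] ℂ} (hlG : ∀ g v w, l (π g v) (π (trGL g⁻¹) w) = l v w)
    (a d : GL (Fin m) E) (κ : V ⊗[ℂ] V) (u : V) :
    opT l (TensorProduct.map (π a) (π d) κ) u = π a (opT l κ (π (trGL d) u)) := by
  induction κ using TensorProduct.induction_on with
  | zero => simp
  | tmul v w =>
    have h1 := hlG (trGL d)⁻¹ (π (trGL d) u) w
    rw [inv_inv, trGL_trGL, ← Module.End.mul_apply, ← map_mul, inv_mul_cancel, map_one,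
      Module.End.one_apply] at h1
    rw [TensorProduct.map_tmul, opT_tmul, opT_tmul, h1, map_smul]
  | add x y hx hy => rw [map_add, map_add, LinearMap.add_apply, hx, hy, map_add,
      LinearMap.add_apply, map_add]

theorem opT_surj (hadm : ∀ K : Subgroup (GL (Fin m) E), IsOpen (K : Set (GL (Fin m) E)) →
      ∃ S : Finset V, ∀ v, (∀ k ∈ K, π k v = v) → v ∈ Submodule.span ℂ (S : Set V))
    {l : V →ₗ[ℂ] V →ₗ[ℂ] ℂ} (hsurj : ∀ ξ : V →ₗ[ℂ] ℂ, ξ ∈ gDual π → ∃ w, ξ = l.flip w)
    (A : V →ₗ[ℂ] V) (hA : ∀ᶠ k in 𝓝 (1 : GL (Fin m) E), ∀ v, π k (A v) = A v)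
    (hA' : ∀ᶠ k in 𝓝 (1 : GL (Fin m) E), ∀ v, A (π k v) = A v) : ∃ κ, opT l κ = A := by
  let K : Subgroup (GL (Fin m) E) :=
    { carrier := {k | ∀ v, π k (A v) = A v}
      mul_mem' := fun {a b} ha hb v => by
        rw [map_mul, Module.End.mul_apply, hb v, ha v]
      one_mem' := fun v => by rw [map_one, Module.End.one_apply]
      inv_mem' := fun {a} ha v => by
        have h := congrArg (π a⁻¹) (ha v)
        rw [← Module.End.mul_apply, ← map_mul, inv_mul_cancel, map_one, Module.End.one_apply] at h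
        exact h.symm }
  have hK : IsOpen (K : Set (GL (Fin m) E)) := K.isOpen_of_mem_nhds (g := 1) hA
  obtain ⟨S, hS⟩ := hadm K hK
  have hAS : ∀ v, A v ∈ Submodule.span ℂ (S : Set V) := fun v => hS _ fun k hk => hk v
  set W := Submodule.span ℂ (S : Set V) with hW
  have hfin : FiniteDimensional ℂ W := FiniteDimensional.span_finset ℂ S
  set b := Module.finBasis ℂ W with hb
  set A' : V →ₗ[ℂ] W := A.codRestrict W hAS with hA'def
  have h1 : ∀ j, ∃ w, (b.coord j).comp A' = l.flip w := by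
    intro j
    refine hsurj _ ?_
    filter_upwards [hA'] with k hk v
    have : A' (π k v) = A' v := Subtype.ext (hk v)
    rw [LinearMap.comp_apply, LinearMap.comp_apply, this]
  choose w hw using h1
  refine ⟨∑ j, (b j : V) ⊗ₜ[ℂ] w j, ?_⟩
  ext u
  rw [map_sum, LinearMap.sum_apply]
  have h2 : ∀ j, opT l ((b j : V) ⊗ₜ[ℂ] w j) u = b.coord j (A' u) • (b j : V) := by
    intro j
    rw [opT_tmul]
    have h3 : l u (w j) = b.coord j (A' u) := by
      have := LinearMap.congr_fun (hw j) u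
      exact this.symm
    rw [h3]
  simp only [h2]
  have h4 := congrArg (Subtype.val) (b.sum_repr (A' u))
  rw [Submodule.coe_sum] at h4
  exact h4

end

end SpW
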