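import Pool.Agent.Work.MP_3615d2_al.WeGb
import Pool.Agent.Work.MP_3615d2_al.HermClass
import Pool.Agent.Work.MP_3615d2_al.ModDet

/-!
MP_3615d2_al, W3 (part 3): Gauss integrals of Hermitian forms over `E^N`.
-/

open MeasureTheory Measure Filter Topology
open scoped NNReal ENNReal Matrix

namespace SpW.We

set_option linter.unusedSectionVars false

section diag

variable {F E : Type} [NontriviallyNormedField F] [IsUltrametricDist F] [ProperSpace F]
  [NontriviallyNormedField E] [NormedAlgebra F E] [IsUltrametricDist E] [ProperSpace E]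
  {σ : E ≃ₐ[F] E} {δ : E} {d : F} {N : ℕ}

theorem isSkew_smul (hq : QuadDatum σ δ d) {H' : Matrix (Fin N) (Fin N) E}
    (hH : ∀ i j, H' j i = σ (H' i j)) (hdet : H'.det ≠ 0) : IsSkew σ (δ • H') where
  skew i j := by
    rw [Matrix.smul_apply, Matrix.smul_apply, smul_eq_mul, smul_eq_mul, map_mul, hq.sig, hH i j]
    ring
  det_ne := by
    rw [Matrix.det_smul]
    exact mul_ne_zero (pow_ne_zero _ hq.ne) hdet

/-- Diagonalisation of Hermitian matrices. -/
theorem herm_diag (hq : QuadDatum σ δ d) {H' : Matrix (Fin N) (Fin N) E}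
    (hH : ∀ i j, H' j i = σ (H' i j)) (hdet : H'.det ≠ 0) :
    ∃ (aw : Fin N → F) (g : GL (Fin N) E), (∀ i, aw i ≠ 0) ∧
      (g : Matrix (Fin N) (Fin N) E)ᵀ * H' * (g : Matrix (Fin N) (Fin N) E).map σ =
        Matrix.diagonal fun i => algebraMap F E (aw i) := by
  cases N with
  | zero => exact ⟨fun _ => 1, 1, fun i => i.elim0, by ext i; exact i.elim0⟩
  | succ n =>
    have hrep : ∀ a b c : F, a ≠ 0 → b ≠ 0 → c ≠ 0 →
        ∃ x y : E, a * Algebra.norm F x + b * Algebra.norm F y = c :=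
      fun a b c ha hb hc => HermC.exists_rep hq ha hb hc
    obtain ⟨a, ha, hI⟩ := HermC.exists_dg hq hrep (isSkew_smul hq hH hdet)
    rw [HermC.isom_iff] at hI
    obtain ⟨g, hg⟩ := hI
    refine ⟨fun i => if i = Fin.last n then a else 1, g, ?_, ?_⟩
    · intro i
      show (if i = Fin.last n then a else 1) ≠ 0
      split_ifs
      · exact ha
      · exact one_ne_zero
    · rw [Matrix.mul_smul, Matrix.smul_mul] at hg
      ext i j
      have h1 := congrFun (congrFun hg i) j
      rw [Matrix.smul_apply, smul_eq_mul, HermC.dg] at h1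
      apply mul_left_cancel₀ hq.ne
      rw [← h1]
      by_cases hij : i = j
      · subst hij
        rw [Matrix.diagonal_apply_eq, Matrix.diagonal_apply_eq, mul_comm]
      · rw [Matrix.diagonal_apply_ne _ hij, Matrix.diagonal_apply_ne _ hij, mul_zero]

theorem sk_diagonal (hq : QuadDatum σ δ d) (aw : Fin N → F) (u : Fin N → E) :
    sk σ (Matrix.diagonal fun i => algebraMap F E (aw i)) u u =
      algebraMap F E (∑ i, aw i * Algebra.norm F (u i)) := by
  rw [_root_.map_sum]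
  unfold sk
  refine Finset.sum_congr rfl fun i _ => ?_
  rw [Finset.sum_eq_single i]
  · rw [Matrix.diagonal_apply_eq, map_mul, hq.norm_eq]
    ring
  · intro j _ hj
    rw [Matrix.diagonal_apply_ne _ (Ne.symm hj), mul_zero, zero_mul]
  · intro h
    exact absurd (Finset.mem_univ i) h

theorem om_prod {om : F → ℂ} (hom : OmChar F E om) {ι : Type} (s : Finset ι) (aw : ι → F)
    (h : ∀ i, aw i ≠ 0) : ∏ i ∈ s, om (aw i) = om (∏ i ∈ s, aw i) := by
  classical
  induction s using Finset.induction_on with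
  | empty => rw [Finset.prod_empty, Finset.prod_empty, om_one hom]
  | insert i s hi ih =>
    rw [Finset.prod_insert hi, Finset.prod_insert hi, ih,
      hom.mul _ _ (h i) (Finset.prod_ne_zero_iff.2 fun j _ => h j)]

theorem md_prod {ι : Type} (s : Finset ι) (aw : ι → F) :
    ∏ i ∈ s, md (aw i) = md (∏ i ∈ s, aw i) := by
  classical
  borelize F
  induction s using Finset.induction_on with
  | empty => rw [Finset.prod_empty, Finset.prod_empty, md_one]
  | insert i s hi ih => rw [Finset.prod_insert hi, Finset.prod_insert hi, ih, md_mul]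

/-- The polar form of `2⁻¹ sk(w, w)`. -/
noncomputable def pf (F : Type) {E : Type} [NontriviallyNormedField F]
    [NontriviallyNormedField E] [NormedAlgebra F E] (σ : E ≃ₐ[F] E) {N : ℕ}
    (H' : Matrix (Fin N) (Fin N) E) :
    (Fin N → E) →ₗ[F] (Fin N → E) →ₗ[F] F :=
  LinearMap.mk₂ F (fun x y => (2 : F)⁻¹ * Algebra.trace F E (sk σ H' x y))
    (fun x y z => by
      rw [← mul_add, ← map_add]
      congr 2
      simp only [sk, Pi.add_apply, add_mul, Finset.sum_add_distrib])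
    (fun c x y => by
      have h1 : sk σ H' (c • x) y = c • sk σ H' x y := by
        simp only [sk, Pi.smul_apply, smul_mul_assoc, Finset.smul_sum]
      rw [h1, map_smul]
      simp only [smul_eq_mul]
      ring)
    (fun x y z => by
      rw [← mul_add, ← map_add]
      congr 2
      simp only [sk, Pi.add_apply, map_add, mul_add, Finset.sum_add_distrib])
    (fun c x y => by
      have h1 : sk σ H' x (c • y) = c • sk σ H' x y := by
        simp only [sk, Pi.smul_apply, map_smul, mul_smul_comm, Finset.smul_sum]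
      rw [h1, map_smul]
      simp only [smul_eq_mul]
      ring)

theorem isQd_herm (hq : QuadDatum σ δ d) {H' : Matrix (Fin N) (Fin N) E}
    (hH : ∀ i j, H' j i = σ (H' i j)) (hdet : H'.det ≠ 0) {q : (Fin N → E) → F}
    (hqq : ∀ w, algebraMap F E (q w) = sk σ H' w w) :
    IsQd (fun w => (2 : F)⁻¹ * q w) (pf F σ H') where
  cont := by
    have h1 : Continuous fun w => algebraMap F E (q w) := by
      have h2 : (fun w => algebraMap F E (q w)) = fun w => sk σ H' w w := funext hqq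
      rw [h2]
      have := sg_cont hq
      unfold sk
      fun_prop
    have h3 : Continuous q := (algebraMap_isometry F E).isEmbedding.continuous_iff.2 h1
    exact continuous_const.mul h3
  zero := by
    have h1 : algebraMap F E (q 0) = 0 := by
      rw [hqq]
      simp [sk]
    show (2 : F)⁻¹ * q 0 = 0
    rw [(map_eq_zero _).1 h1, mul_zero]
  add w x := by
    have hsk : ∀ x y, sk σ H' y x = σ (sk σ H' x y) := by
      intro x y
      simp only [sk, _root_.map_sum, map_mul]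
      rw [Finset.sum_comm]
      refine Finset.sum_congr rfl fun i _ => ?_
      refine Finset.sum_congr rfl fun j _ => ?_
      rw [hH i j, sig_sig hq]
      ring
    have h1 : q (w + x) = q w + Algebra.trace F E (sk σ H' w x) + q x := by
      apply (algebraMap F E).injective
      rw [map_add, map_add, hqq, hqq, hqq, hq.trace_eq, ← hsk]
      simp only [sk, Pi.add_apply, map_add, add_mul, mul_add, Finset.sum_add_distrib]
      ring
    show (2 : F)⁻¹ * q (w + x) = (2 : F)⁻¹ * q w + (2 : F)⁻¹ * Algebra.trace F E (sk σ H' w x) +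
      (2 : F)⁻¹ * q x
    rw [h1]
    ring
  nondeg w hw := by
    apply (HermC.sf_of_isSkew hq (isSkew_smul hq hH hdet)).nd
    intro x
    have h0 : sk σ (δ • H') w x = δ * sk σ H' w x := by
      simp only [sk, Matrix.smul_apply, smul_eq_mul, Finset.mul_sum]
      refine Finset.sum_congr rfl fun i _ => ?_
      refine Finset.sum_congr rfl fun j _ => ?_
      ring
    by_contra hne
    rw [h0] at hne
    have hne' : sk σ H' w x ≠ 0 := right_ne_zero_of_mul hne
    -- `c` with `σ c * sk w x = 1`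
    have h2 := hw ((σ (sk σ H' w x)⁻¹) • x)
    have h3 : sk σ H' w ((σ (sk σ H' w x)⁻¹) • x) = 1 := by
      have h4 : sk σ H' w ((σ (sk σ H' w x)⁻¹) • x) =
          σ (σ (sk σ H' w x)⁻¹) * sk σ H' w x := by
        simp only [sk, Pi.smul_apply, smul_eq_mul, map_mul, Finset.mul_sum]
        refine Finset.sum_congr rfl fun i _ => ?_
        refine Finset.sum_congr rfl fun j _ => ?_
        ring
      rw [h4, sig_sig hq, inv_mul_cancel₀ hne']
    have h5 : (2 : F)⁻¹ * Algebra.trace F E (sk σ H' w ((σ (sk σ H' w x)⁻¹) • x)) = 0 := h2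
    rw [h3] at h5
    have h6 : Algebra.trace F E (1 : E) = 2 := by
      apply (algebraMap F E).injective
      rw [hq.trace_eq, map_one, map_ofNat]
      norm_num
    rw [h6, inv_mul_cancel₀ hq.two] at h5
    exact one_ne_zero h5

variable [MeasurableSpace E] [BorelSpace E]

/-- Integrals over boxes are products. -/
theorem box_prod (μ : Measure E) [μ.IsAddHaarMeasure] (ψ : AddChar F Circle) (b : Fin N → F)
    {R : ℝ} (hR : 0 ≤ R) :
    ∫ u in Metric.closedBall (0 : Fin N → E) R,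
      ((ψ (∑ i, b i * Algebra.norm F (u i)) : Circle) : ℂ) ∂(Measure.pi fun _ : Fin N => μ) =
      ∏ i, ∫ x in Metric.closedBall (0 : E) R, ((ψ (b i * Algebra.norm F x) : Circle) : ℂ) ∂μ := by
  have h1 : Metric.closedBall (0 : Fin N → E) R =
      Set.univ.pi fun _ : Fin N => Metric.closedBall (0 : E) R := by
    rw [closedBall_pi _ hR]
    rfl
  rw [h1, Measure.restrict_pi_pi, ← integral_fintype_prod_eq_prod
    (fun (i : Fin N) (x : E) => ((ψ (b i * Algebra.norm F x) : Circle) : ℂ))]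
  apply integral_congr_ae
  refine Eventually.of_forall fun u => ?_
  show ((ψ (∑ i, b i * Algebra.norm F (u i)) : Circle) : ℂ) =
    ∏ i, ((ψ (b i * Algebra.norm F (u i)) : Circle) : ℂ)
  have h2 : ∀ s : Finset (Fin N), ((ψ (∑ i ∈ s, b i * Algebra.norm F (u i)) : Circle) : ℂ) =
      ∏ i ∈ s, ((ψ (b i * Algebra.norm F (u i)) : Circle) : ℂ) := by
    intro s
    induction s using Finset.induction_on with
    | empty => rw [Finset.sum_empty, Finset.prod_empty, AddChar.map_zero_eq_one, Circle.coe_one]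
    | insert i s hi ih =>
      rw [Finset.sum_insert hi, Finset.prod_insert hi, AddChar.map_add_eq_mul, Circle.coe_mul, ih]
  exact h2 _

/-- Gauss integrals of Hermitian forms. -/
theorem gauss_herm (hq : QuadDatum σ δ d) {om : F → ℂ} (hom : OmChar F E om)
    {ψ : AddChar F Circle} (hψ : Continuous ψ) (hψ1 : ψ ≠ 1) (N : ℕ) :
    ∃ G₀ : ℂ, G₀ ≠ 0 ∧ ∀ H' : Matrix (Fin N) (Fin N) E, (∀ i j, H' j i = σ (H' i j)) →
      ∀ t : F, t ≠ 0 → algebraMap F E t = H'.det → ∀ q : (Fin N → E) → F,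
      (∀ w, algebraMap F E (q w) = sk σ H' w w) →
      ∀ᶠ r : ℝ in atTop, ∫ w in Metric.closedBall (0 : Fin N → E) r,
        ((ψ ((2 : F)⁻¹ * q w) : Circle) : ℂ) ∂(addHaar : Measure (Fin N → E)) =
          G₀ * om t * (((md t : ℝ≥0) : ℝ) : ℂ)⁻¹ := by
  borelize F
  have hfin := hq.finite
  set μ : Measure E := addHaar with hμ
  obtain ⟨g₀, hg₀, h1⟩ := gauss_E hq hom hψ hψ1 μ
  set lam : Measure (Fin N → E) := addHaar with hlam
  set nu : Measure (Fin N → E) := Measure.pi fun _ : Fin N => μ with hnu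
  have hsc : lam = addHaarScalarFactor lam nu • nu := isAddLeftInvariant_eq_smul lam nu
  have hsc0 : 0 < addHaarScalarFactor lam nu :=
    addHaarScalarFactor_pos_of_isAddHaarMeasure lam nu
  set c : ℝ≥0 := addHaarScalarFactor lam nu with hc
  have h2 : om (2 : F)⁻¹ ≠ 0 := by
    intro h
    have := om_sq hq hom (2 : F)⁻¹ (inv_ne_zero hq.two)
    rw [h, mul_zero] at this
    exact zero_ne_one this
  have h3 : (((md (2 : F)⁻¹ : ℝ≥0) : ℝ) : ℂ) ≠ 0 := by
    rw [Complex.ofReal_ne_zero, NNReal.coe_ne_zero]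
    exact (md_pos (inv_ne_zero hq.two)).ne'
  refine ⟨((c : ℝ) : ℂ) * (g₀ * om (2 : F)⁻¹ * (((md (2 : F)⁻¹ : ℝ≥0) : ℝ) : ℂ)⁻¹) ^ N, ?_, ?_⟩
  · refine mul_ne_zero ?_ (pow_ne_zero _ (mul_ne_zero (mul_ne_zero hg₀ h2) (inv_ne_zero h3)))
    rw [Complex.ofReal_ne_zero, NNReal.coe_ne_zero]
    exact hsc0.ne'
  intro H' hH t ht htd q hqq
  have hdet : H'.det ≠ 0 := by
    rw [← htd]
    exact (_root_.map_ne_zero _).2 ht
  obtain ⟨aw, g, haw, hg⟩ := herm_diag hq hH hdet
  set P : Matrix (Fin N) (Fin N) E := (g : Matrix (Fin N) (Fin N) E) with hP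
  have hPd : P.det ≠ 0 := ((Matrix.isUnit_iff_isUnit_det _).1 g.isUnit).ne_zero
  -- determinants
  have hprod : ∏ i, aw i = t * Algebra.norm F P.det := by
    apply (algebraMap F E).injective
    have h4 := congrArg Matrix.det hg
    rw [HermC.det_gram hq, Matrix.det_diagonal, ← htd] at h4
    rw [_root_.map_prod, ← h4, map_mul]
    ring
  -- the linear automorphism
  set T : (Fin N → E) ≃ₗ[E] (Fin N → E) := glv N E g with hT
  have hTa : ∀ u, T u = P.mulVec u := fun u => glv_apply g u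
  have hTd : LinearMap.det (T : (Fin N → E) →ₗ[E] (Fin N → E)) = P.det := by
    have h5 : (T : (Fin N → E) →ₗ[E] (Fin N → E)) = Matrix.toLin' P := by
      ext u
      rfl
    rw [h5, LinearMap.det_toLin']
  have hqT : ∀ u, q (T u) = ∑ i, aw i * Algebra.norm F (u i) := by
    intro u
    apply (algebraMap F E).injective
    rw [hqq, hTa, HermC.sk_gram, hg, sk_diagonal hq]
  -- the quadratic function `2⁻¹ q (T u)`
  set Hd : Matrix (Fin N) (Fin N) E := Matrix.diagonal fun i => algebraMap F E (aw i) with hHd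
  have hHd1 : ∀ i j, Hd j i = σ (Hd i j) := by
    intro i j
    by_cases hij : i = j
    · subst hij
      rw [hHd, Matrix.diagonal_apply_eq, AlgEquiv.commutes]
    · rw [hHd, Matrix.diagonal_apply_ne _ hij, Matrix.diagonal_apply_ne _ (Ne.symm hij), map_zero]
  have hHd2 : Hd.det ≠ 0 := by
    rw [hHd, Matrix.det_diagonal, Finset.prod_ne_zero_iff]
    intro i _
    exact (_root_.map_ne_zero _).2 (haw i)
  have hqd := isQd_herm hq hHd1 hHd2 (q := fun u => q (T u)) (fun u => by
    rw [hqT, hHd, sk_diagonal hq])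
  obtain ⟨ε, hε, R₁, hR₁, hst⟩ := gauss_stab nu hqd hψ hψ1
  -- continuity of `T`
  have hTc : Continuous T := T.toLinearMap.continuous_of_finiteDimensional
  obtain ⟨C, hC⟩ : ∃ C : ℝ, ∀ u, ‖T u‖ ≤ C * ‖u‖ := by
    refine ⟨‖(LinearMap.toContinuousLinearMap T.toLinearMap)‖, fun u => ?_⟩
    exact (LinearMap.toContinuousLinearMap T.toLinearMap).le_opNorm u
  have e1 : ∀ᶠ r : ℝ in atTop, |C| * R₁ ≤ r := eventually_ge_atTop _
  have e2 : ∀ᶠ r : ℝ in atTop, |C| * ε ≤ r := eventually_ge_atTop _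
  filter_upwards [e1, e2] with r hr1 hr2
  -- change of variables
  have s1 : ∫ w in Metric.closedBall (0 : Fin N → E) r,
      ((ψ ((2 : F)⁻¹ * q w) : Circle) : ℂ) ∂lam =
      (((md P.det : ℝ≥0) : ℝ) : ℂ) * ∫ u in T ⁻¹' Metric.closedBall (0 : Fin N → E) r,
        ((ψ ((2 : F)⁻¹ * q (T u)) : Circle) : ℂ) ∂lam := by
    rw [← integral_indicator Metric.isClosed_closedBall.measurableSet,
      ← integral_indicator (hTc.measurable Metric.isClosed_closedBall.measurableSet)]
    have h6 := integral_linearEquiv lam T ((Metric.closedBall (0 : Fin N → E) r).indicator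
      fun w => ((ψ ((2 : F)⁻¹ * q w) : Circle) : ℂ))
    have h7 : ∀ u, (Metric.closedBall (0 : Fin N → E) r).indicator
        (fun w => ((ψ ((2 : F)⁻¹ * q w) : Circle) : ℂ)) (T u) =
        (T ⁻¹' Metric.closedBall (0 : Fin N → E) r).indicator
          (fun u => ((ψ ((2 : F)⁻¹ * q (T u)) : Circle) : ℂ)) u := fun u => rfl
    rw [integral_congr_ae (Eventually.of_forall h7), hTd] at h6
    rw [h6, ← mul_assoc, mul_inv_cancel₀, one_mul]
    rw [Complex.ofReal_ne_zero, NNReal.coe_ne_zero]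
    exact (md_pos hPd).ne'
  have s2 : ∫ u in T ⁻¹' Metric.closedBall (0 : Fin N → E) r,
      ((ψ ((2 : F)⁻¹ * q (T u)) : Circle) : ℂ) ∂lam =
      ((c : ℝ) : ℂ) * ∫ u in T ⁻¹' Metric.closedBall (0 : Fin N → E) r,
        ((ψ ((2 : F)⁻¹ * q (T u)) : Circle) : ℂ) ∂nu := by
    rw [hsc, Measure.restrict_smul, integral_smul_nnreal_measure, NNReal.smul_def]
    simp
  have s3 := hst (T ⁻¹' Metric.closedBall (0 : Fin N → E) r)
    (hTc.measurable Metric.isClosed_closedBall.measurableSet) (by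
      have h8 : IsCompact (T ⁻¹' Metric.closedBall (0 : Fin N → E) r) :=
        T.toContinuousLinearEquiv.toHomeomorph.isCompact_preimage.2 (isCompact_closedBall 0 r)
      exact h8.isBounded) (by
      intro w x hx
      rw [Set.mem_preimage, Set.mem_preimage, map_add, mem_closedBall_zero_iff,
        mem_closedBall_zero_iff]
      refine LemI.ball_add_iff le_rfl ?_
      calc ‖T x‖ ≤ C * ‖x‖ := hC x
        _ ≤ |C| * ‖x‖ := mul_le_mul_of_nonneg_right (le_abs_self C) (norm_nonneg _)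
        _ ≤ |C| * ε := mul_le_mul_of_nonneg_left hx (abs_nonneg C)
        _ ≤ r := hr2) (by
      intro u hu
      rw [mem_closedBall_zero_iff] at hu
      rw [Set.mem_preimage, mem_closedBall_zero_iff]
      calc ‖T u‖ ≤ C * ‖u‖ := hC u
        _ ≤ |C| * ‖u‖ := mul_le_mul_of_nonneg_right (le_abs_self C) (norm_nonneg _)
        _ ≤ |C| * R₁ := mul_le_mul_of_nonneg_left hu (abs_nonneg C)
        _ ≤ r := hr1)
  -- a large box
  have h9 : ∀ i : Fin N, ∀ᶠ R : ℝ in atTop,
      ∫ x in Metric.closedBall (0 : E) R,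
        ((ψ ((2 : F)⁻¹ * aw i * Algebra.norm F x) : Circle) : ℂ) ∂μ =
        g₀ * om ((2 : F)⁻¹ * aw i) * (((md ((2 : F)⁻¹ * aw i) : ℝ≥0) : ℝ) : ℂ)⁻¹ := fun i =>
    h1 _ (mul_ne_zero (inv_ne_zero hq.two) (haw i))
  obtain ⟨R, hR9, hR1, hR0⟩ := ((eventually_all.2 h9).and ((eventually_ge_atTop R₁).and
    (eventually_ge_atTop (0 : ℝ)))).exists
  have s4 := hst (Metric.closedBall (0 : Fin N → E) R)
    Metric.isClosed_closedBall.measurableSet Metric.isBounded_closedBall (by
      intro w x hx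
      rw [mem_closedBall_zero_iff, mem_closedBall_zero_iff]
      exact LemI.ball_add_iff (hR₁.trans hR1) hx) (Metric.closedBall_subset_closedBall hR1)
  have s5 : ∫ u in Metric.closedBall (0 : Fin N → E) R,
      ((ψ ((2 : F)⁻¹ * q (T u)) : Circle) : ℂ) ∂nu =
      ∏ i, (g₀ * om ((2 : F)⁻¹ * aw i) * (((md ((2 : F)⁻¹ * aw i) : ℝ≥0) : ℝ) : ℂ)⁻¹) := by
    have h10 := box_prod μ ψ (fun i => (2 : F)⁻¹ * aw i) hR0
    simp only [hR9] at h10
    rw [← h10]
    apply integral_congr_ae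
    refine Eventually.of_forall fun u => ?_
    show ((ψ ((2 : F)⁻¹ * q (T u)) : Circle) : ℂ) = _
    rw [hqT, Finset.mul_sum]
    simp only [mul_assoc]
  rw [s1, s2, s3, ← s4, s5]
  have hw1 : ∀ i, om ((2 : F)⁻¹ * aw i) = om (2 : F)⁻¹ * om (aw i) := fun i =>
    hom.mul _ _ (inv_ne_zero hq.two) (haw i)
  have hw2 : ∀ i, (((md ((2 : F)⁻¹ * aw i) : ℝ≥0) : ℝ) : ℂ)⁻¹ =
      (((md (2 : F)⁻¹ : ℝ≥0) : ℝ) : ℂ)⁻¹ * (((md (aw i) : ℝ≥0) : ℝ) : ℂ)⁻¹ := by
    intro i
    rw [md_mul, NNReal.coe_mul, Complex.ofReal_mul, mul_inv]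
  have hw3 : ∏ i, (g₀ * om ((2 : F)⁻¹ * aw i) *
      (((md ((2 : F)⁻¹ * aw i) : ℝ≥0) : ℝ) : ℂ)⁻¹) =
      (g₀ * om (2 : F)⁻¹ * (((md (2 : F)⁻¹ : ℝ≥0) : ℝ) : ℂ)⁻¹) ^ N *
        (∏ i, om (aw i)) * ∏ i, (((md (aw i) : ℝ≥0) : ℝ) : ℂ)⁻¹ := by
    have h11 : ((g₀ * om (2 : F)⁻¹ * (((md (2 : F)⁻¹ : ℝ≥0) : ℝ) : ℂ)⁻¹) ^ N : ℂ) =
        ∏ _i : Fin N, (g₀ * om (2 : F)⁻¹ * (((md (2 : F)⁻¹ : ℝ≥0) : ℝ) : ℂ)⁻¹) := by
      rw [Finset.prod_const, Finset.card_univ, Fintype.card_fin]
    rw [h11, ← Finset.prod_mul_distrib, ← Finset.prod_mul_distrib]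
    refine Finset.prod_congr rfl fun i _ => ?_
    rw [hw1, hw2]
    ring
  have hw4 : ∏ i, (((md (aw i) : ℝ≥0) : ℝ) : ℂ)⁻¹ = (((md (∏ i, aw i) : ℝ≥0) : ℝ) : ℂ)⁻¹ := by
    rw [← md_prod, NNReal.coe_prod, Complex.ofReal_prod, Finset.prod_inv_distrib]
  have hw5 : md (∏ i, aw i) = md t * md P.det := by
    rw [hprod, md_mul, md_nm hq]
  rw [hw3, om_prod hom _ _ haw, hw4, hw5, hprod, om_mul_norm hom ht hPd, NNReal.coe_mul,
    Complex.ofReal_mul]
  have hm1 : (((md P.det : ℝ≥0) : ℝ) : ℂ) ≠ 0 := by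
    rw [Complex.ofReal_ne_zero, NNReal.coe_ne_zero]
    exact (md_pos hPd).ne'
  field_simp

end diag

end SpW.We
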