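import Pool.Agent.Work.MP_3615d2_al.HeisDual
import Pool.Agent.Work.MP_3615d2_al.HeisBasis
import Pool.Agent.Work.MP_3615d2_al.Bridge

/-!
MP_3615d2_al: existence of the smooth irreducible representation of the Heisenberg group
(Schrodinger model on locally constant functions with compact support).
-/

open scoped Matrix
open Filter Topology

namespace Pool.Agent.SpehH

section unif

variable {X S : Type} [TopologicalSpace X] [AddCommGroup X] [IsTopologicalAddGroup X]
  [AddCommGroup S] [Module ℂ S]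

/-- Locally constant functions with compact support are uniformly locally constant. -/
theorem sch_unif {φ : X → S} (hφ : φ ∈ SpW.Sch X S) :
    ∀ᶠ a in 𝓝 (0 : X), ∀ x, φ (x + a) = φ x := by
  obtain ⟨h1, K, hK, h2⟩ := hφ
  have h3 : ∀ᶠ a in 𝓝 (0 : X), ∀ x ∈ K, φ (x + a) = φ x := by
    refine hK.eventually_forall_of_forall_eventually fun x _ => ?_
    have e1 : ContinuousAt (fun z : X × X => z.2 + z.1) (0, x) := by fun_prop
    have e2 := h1.eventually_eq (x + 0)
    have e3 : ∀ᶠ z in 𝓝 ((0 : X), x), φ (z.2 + z.1) = φ (x + 0) := e1.eventually e2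
    have e5 : ContinuousAt (fun z : X × X => z.2) (0, x) := continuous_snd.continuousAt
    have e4 : ∀ᶠ z in 𝓝 ((0 : X), x), φ z.2 = φ x := e5.eventually (h1.eventually_eq x)
    filter_upwards [e3, e4] with z hz hz'
    rw [hz, hz', add_zero]
  have h4 : ∀ᶠ a in 𝓝 (0 : X), ∀ x ∈ K, φ (x + -a) = φ x := by
    have : Tendsto (fun a : X => -a) (𝓝 0) (𝓝 0) := by
      simpa using (continuous_neg (G := X)).tendsto 0
    exact this.eventually h3
  filter_upwards [h3, h4] with a ha ha' x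
  by_cases hx : x ∈ K
  · exact ha x hx
  · rw [h2 x hx]
    by_contra h5
    have h6 : x + a ∈ K := by
      by_contra h6
      exact h5 (h2 _ h6)
    have h7 := ha' _ h6
    rw [add_neg_cancel_right, h2 x hx] at h7
    exact h5 h7.symm

end unif

section schro

variable {F : Type} [NontriviallyNormedField F] [IsUltrametricDist F] {ψ : AddChar F Circle}
  {n : ℕ}

theorem psi_locConst (hψ : Continuous ψ) : IsLocallyConstant fun x : F => ((ψ x : Circle) : ℂ) := by
  obtain ⟨δ, hδ, h⟩ := exists_ball_eq_one hψ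
  rw [IsLocallyConstant.iff_eventually_eq]
  intro x
  filter_upwards [Metric.ball_mem_nhds x hδ] with y hy
  have h1 : ψ y = ψ (y - x) * ψ x := by rw [← AddChar.map_add_eq_mul, sub_add_cancel]
  rw [h1, h (y - x) (by rwa [Metric.mem_ball, dist_eq_norm] at hy), one_mul]

theorem schOp_mem (hψ : Continuous ψ) (a b : Fin n → F) {φ : (Fin n → F) → ℂ}
    (hφ : φ ∈ SpW.Sch (Fin n → F) ℂ) :
    (fun x => ((ψ (b ⬝ᵥ x + (a ⬝ᵥ b) / 2) : Circle) : ℂ) * φ (x + a)) ∈
      SpW.Sch (Fin n → F) ℂ := by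
  obtain ⟨h1, K, hK, h2⟩ := hφ
  refine ⟨?_, (fun x => x + (-a)) '' K, hK.image (by fun_prop), fun x hx => ?_⟩
  · refine IsLocallyConstant.mul ?_ (h1.comp_continuous (by fun_prop))
    exact (psi_locConst hψ).comp_continuous
      (f := fun x : Fin n → F => b ⬝ᵥ x + (a ⬝ᵥ b) / 2) (by
        unfold dotProduct
        fun_prop)
  · show ((ψ (b ⬝ᵥ x + (a ⬝ᵥ b) / 2) : Circle) : ℂ) * φ (x + a) = 0
    rw [h2 (x + a) fun h => hx ⟨x + a, h, add_neg_cancel_right x a⟩, mul_zero]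

/-- The operators of the Schrodinger model. -/
noncomputable def schOp (hψ : Continuous ψ) (a b : Fin n → F) :
    Module.End ℂ (SpW.Sch (Fin n → F) ℂ) where
  toFun φ := ⟨_, schOp_mem hψ a b φ.2⟩
  map_add' φ φ' := by
    apply Subtype.ext
    funext x
    exact mul_add _ _ _
  map_smul' c φ := by
    apply Subtype.ext
    funext x
    exact mul_left_comm _ _ _

theorem schOp_apply (hψ : Continuous ψ) (a b : Fin n → F) (φ : SpW.Sch (Fin n → F) ℂ)
    (x : Fin n → F) : (schOp hψ a b φ : (Fin n → F) → ℂ) x =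
      ((ψ (b ⬝ᵥ x + (a ⬝ᵥ b) / 2) : Circle) : ℂ) * (φ : (Fin n → F) → ℂ) (x + a) := rfl

theorem schOp_zero (hψ : Continuous ψ) : schOp (n := n) hψ 0 0 = 1 := by
  ext φ x
  rw [schOp_apply]
  simp

theorem schOp_mul (hψ : Continuous ψ) (h2 : (2 : F) ≠ 0) (a b a' b' : Fin n → F) :
    schOp hψ a b * schOp hψ a' b' =
      ((ψ ((a ⬝ᵥ b' - b ⬝ᵥ a') / 2) : Circle) : ℂ) • schOp hψ (a + a') (b + b') := by
  ext φ x
  show ((ψ _ : Circle) : ℂ) * (((ψ _ : Circle) : ℂ) * (φ : (Fin n → F) → ℂ) (x + a + a')) =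
    ((ψ _ : Circle) : ℂ) * (((ψ _ : Circle) : ℂ) * (φ : (Fin n → F) → ℂ) (x + (a + a')))
  rw [← mul_assoc, ← mul_assoc, ← add_assoc, ← Circle.coe_mul, ← Circle.coe_mul,
    ← AddChar.map_add_eq_mul, ← AddChar.map_add_eq_mul]
  have e0 : b ⬝ᵥ x + (a ⬝ᵥ b) / 2 + (b' ⬝ᵥ (x + a) + (a' ⬝ᵥ b') / 2) =
      (a ⬝ᵥ b' - b ⬝ᵥ a') / 2 + ((b + b') ⬝ᵥ x + ((a + a') ⬝ᵥ (b + b')) / 2) := by
    simp only [dotProduct_add, add_dotProduct]
    have e1 : b' ⬝ᵥ a = a ⬝ᵥ b' := dotProduct_comm _ _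
    have e2 : b ⬝ᵥ a' = a' ⬝ᵥ b := dotProduct_comm _ _
    rw [e1, e2]
    field_simp
    ring
  rw [e0]

theorem schOp_eventually (hψ : Continuous ψ) (φ : SpW.Sch (Fin n → F) ℂ) :
    ∀ᶠ p : (Fin n → F) × (Fin n → F) in 𝓝 0, schOp hψ p.1 p.2 φ = φ := by
  obtain ⟨h1, K, hK, h2⟩ := φ.2
  have e1 : ∀ᶠ p : (Fin n → F) × (Fin n → F) in 𝓝 0, ∀ x,
      (φ : (Fin n → F) → ℂ) (x + p.1) = (φ : (Fin n → F) → ℂ) x := by
    have h3 : Tendsto (fun p : (Fin n → F) × (Fin n → F) => p.1) (𝓝 0) (𝓝 0) :=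
      continuous_fst.tendsto 0
    exact h3.eventually (sch_unif φ.2)
  obtain ⟨δ, hδ, h⟩ := exists_ball_eq_one hψ
  have e2 : ∀ᶠ p : (Fin n → F) × (Fin n → F) in 𝓝 0, ∀ x ∈ K,
      ‖p.2 ⬝ᵥ x + (p.1 ⬝ᵥ p.2) / 2‖ < δ := by
    refine hK.eventually_forall_of_forall_eventually fun x _ => ?_
    have h3 : Continuous fun z : ((Fin n → F) × (Fin n → F)) × (Fin n → F) =>
        ‖z.1.2 ⬝ᵥ z.2 + (z.1.1 ⬝ᵥ z.1.2) / 2‖ := by
      unfold dotProduct
      fun_prop
    have h4 : ‖((0 : (Fin n → F) × (Fin n → F)), x).1.2 ⬝ᵥ x +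
        (((0 : (Fin n → F) × (Fin n → F)), x).1.1 ⬝ᵥ
          ((0 : (Fin n → F) × (Fin n → F)), x).1.2) / 2‖ < δ := by
      simpa using hδ
    exact h3.continuousAt.eventually (gt_mem_nhds h4)
  filter_upwards [e1, e2] with p hp hp'
  apply Subtype.ext
  funext x
  rw [schOp_apply, hp]
  by_cases hx : x ∈ K
  · rw [h _ (hp' x hx)]
    simp
  · rw [h2 x hx, mul_zero]

variable {W : Type*} [AddCommGroup W] [Module F W] {B : LinearMap.BilinForm F W}
  {Y₁ Y : Submodule F W} {e f : Fin n → W} {I₁ I : Set (Fin n)} {c t : F}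

/-- The Schrodinger model. -/
noncomputable def schRho (hψ : Continuous ψ) (B : LinearMap.BilinForm F W) (e f : Fin n → W)
    (w : W) : Module.End ℂ (SpW.Sch (Fin n → F) ℂ) :=
  schOp hψ (fun i => B w (f i)) fun i => -B w (e i)

theorem sb_form (sb : IsSB B Y₁ Y e f I₁ I) (hB : B.IsAlt) (w w' : W) :
    B w w' = (fun i => B w (f i)) ⬝ᵥ (fun i => -B w' (e i)) -
      (fun i => -B w (e i)) ⬝ᵥ (fun i => B w' (f i)) := by
  have h1 := sb.expand w
  conv_lhs => rw [h1]
  simp only [map_sub, map_sum, map_smul, LinearMap.sub_apply, LinearMap.sum_apply,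
    LinearMap.smul_apply, smul_eq_mul, dotProduct]
  rw [sub_eq_sub_iff_sub_eq_sub, ← Finset.sum_sub_distrib, ← Finset.sum_sub_distrib]
  refine Finset.sum_congr rfl fun i _ => ?_
  have h2 := hB.neg_eq w' (e i)
  have h3 := hB.neg_eq w' (f i)
  rw [← h2, ← h3]
  ring

theorem schRho_isHeis (hψ : Continuous ψ) (h2 : (2 : F) ≠ 0) (hB : B.IsAlt)
    (sb : IsSB B Y₁ Y e f I₁ I) : IsHeis ψ B (schRho hψ B e f) := by
  refine ⟨?_, fun w w' => ?_, fun φ w => ?_⟩
  · have h3 : (fun i => B (0 : W) (f i)) = (0 : Fin n → F) := by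
      funext i
      simp
    have h4 : (fun i => -B (0 : W) (e i)) = (0 : Fin n → F) := by
      funext i
      simp
    rw [schRho, h3, h4, schOp_zero]
  · rw [schRho, schRho, schOp_mul hψ h2, ← sb_form sb hB]
    congr 2
    · funext i
      simp
    · funext i
      simp only [Pi.add_apply, map_add, LinearMap.add_apply]
      ring
  · obtain ⟨u, hu⟩ : ∃ u : Fin n → F, u = fun i => B w (f i) := ⟨_, rfl⟩
    obtain ⟨v, hv⟩ : ∃ v : Fin n → F, v = fun i => -B w (e i) := ⟨_, rfl⟩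
    have h3 : Tendsto (fun a : F => ((a • u, a • v) : (Fin n → F) × (Fin n → F))) (𝓝 0)
        (𝓝 0) := by
      have h4 : Continuous (fun a : F => ((a • u, a • v) : (Fin n → F) × (Fin n → F))) := by
        fun_prop
      have h5 := h4.tendsto 0
      simp only [zero_smul] at h5
      exact h5
    obtain ⟨ε, hε, h4⟩ := (Metric.nhds_basis_closedBall.eventually_iff).1
      (h3.eventually (schOp_eventually hψ φ))
    refine ⟨ε, hε, fun a ha => ?_⟩
    have h5 := h4 (x := a) (by rwa [mem_closedBall_zero_iff])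
    have h6 : (fun i => B (a • w) (f i)) = a • u := by
      rw [hu]
      funext i
      simp
    have h7 : (fun i => -B (a • w) (e i)) = a • v := by
      rw [hv]
      funext i
      simp
    rw [schRho, h6, h7]
    exact h5

theorem schRho_lc_e (hψ : Continuous ψ) (sb : IsSB B Y₁ Y e f I₁ I) (a : Fin n → F) :
    schRho hψ B e f (lc e a) = schOp hψ a 0 := by
  rw [schRho]
  congr 1
  · funext i
    exact sb.lc_e_f' a i
  · funext i
    rw [sb.lc_e_e', neg_zero]
    rfl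

theorem schRho_lc_f (hψ : Continuous ψ) (hB : B.IsAlt) (sb : IsSB B Y₁ Y e f I₁ I)
    (b : Fin n → F) : schRho hψ B e f (lc f b) = schOp hψ 0 b := by
  rw [schRho]
  congr 1
  · funext i
    rw [sb.lc_f_f']
    rfl
  · funext i
    rw [sb.lc_f_e' hB, neg_neg]

open Classical in
/-- The indicator function of the unit ball. -/
noncomputable def schBall (F : Type) [NontriviallyNormedField F] [IsUltrametricDist F]
    [ProperSpace F] (n : ℕ) : SpW.Sch (Fin n → F) ℂ :=
  ⟨fun x => if ‖x‖ ≤ 1 then 1 else 0, by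
    have hC : IsCompact (Metric.closedBall (0 : Fin n → F) 1) := isCompact_closedBall _ _
    have hO : IsOpen (Metric.closedBall (0 : Fin n → F) 1) :=
      IsUltrametricDist.isOpen_closedBall _ one_ne_zero
    have hO' : IsOpen (Metric.closedBall (0 : Fin n → F) 1)ᶜ := hC.isClosed.isOpen_compl
    refine ⟨?_, _, hC, fun x hx => if_neg ?_⟩
    · rw [IsLocallyConstant.iff_eventually_eq]
      intro x
      by_cases hx : ‖x‖ ≤ 1
      · filter_upwards [hO.mem_nhds (by rwa [mem_closedBall_zero_iff])] with y hy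
        rw [if_pos hx, if_pos (by rwa [mem_closedBall_zero_iff] at hy)]
      · filter_upwards [hO'.mem_nhds (by rwa [Set.mem_compl_iff, mem_closedBall_zero_iff])] with y hy
        rw [if_neg hx, if_neg (by rwa [Set.mem_compl_iff, mem_closedBall_zero_iff] at hy)]
    · rwa [mem_closedBall_zero_iff] at hx⟩

theorem schBall_of_le [ProperSpace F] {x : Fin n → F} (hx : ‖x‖ ≤ 1) :
    (schBall F n : (Fin n → F) → ℂ) x = 1 := if_pos hx

theorem schBall_of_not [ProperSpace F] {x : Fin n → F} (hx : ¬ ‖x‖ ≤ 1) :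
    (schBall F n : (Fin n → F) → ℂ) x = 0 := if_neg hx

theorem schRho_isIrr [ProperSpace F] (hψ : Continuous ψ) (hψ1 : ψ ≠ 1) (h2 : (2 : F) ≠ 0)
    (hB : B.IsAlt) (sb : IsSB B Y₁ Y e f I₁ I) : IsIrr (schRho hψ B e f) := by
  obtain ⟨c, hc⟩ := exists_cond hψ hψ1
  have hcn : 0 < ‖c‖ := norm_pos_iff.2 hc.1
  have hN : Nontrivial (SpW.Sch (Fin n → F) ℂ) := by
    refine ⟨schBall F n, 0, fun h => ?_⟩
    have h1 := congrFun (congrArg Subtype.val h) 0
    rw [schBall_of_le (by simp)] at h1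
    exact one_ne_zero h1
  refine irr_of_one hψ hc hB h2 (schRho_isHeis hψ h2 hB sb) hN sb (t := 1) one_ne_zero
    (v0 := schBall F n) fun φ hφ => ⟨(φ : (Fin n → F) → ℂ) 0, ?_⟩
  obtain ⟨h3, h4⟩ := hφ
  apply Subtype.ext
  funext x
  show (φ : (Fin n → F) → ℂ) x = (φ : (Fin n → F) → ℂ) 0 * (schBall F n : (Fin n → F) → ℂ) x
  by_cases hx : ‖x‖ ≤ 1
  · rw [schBall_of_le hx, mul_one]
    have h5 := h3 x (by rwa [norm_one])
    rw [schRho_lc_e hψ sb] at h5
    have h6 := congrFun (congrArg Subtype.val h5) 0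
    rw [schOp_apply] at h6
    simpa using h6
  · rw [schBall_of_not hx, mul_zero]
    by_contra h5
    apply hx
    have h6 : ‖x‖ * ‖c‖ ≤ ‖c‖ := by
      rw [← cond_iff_pi hc hc.1]
      intro b hb
      have h7 := h4 b (by rwa [norm_one, mul_one])
      rw [schRho_lc_f hψ hB sb] at h7
      have h8 := congrFun (congrArg Subtype.val h7) x
      rw [schOp_apply] at h8
      simp only [zero_dotProduct, zero_div, add_zero] at h8
      have h9 : ((ψ (b ⬝ᵥ x) : Circle) : ℂ) = 1 := by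
        apply mul_right_cancel₀ h5
        rw [one_mul]
        exact h8
      rw [dotProduct_comm]
      exact Circle.ext h9
    exact le_of_mul_le_mul_right (by rwa [one_mul]) hcn

/-- **Existence of the Heisenberg representation.** -/
theorem exists_heis [ProperSpace F] [FiniteDimensional F W] (hψ : Continuous ψ) (hψ1 : ψ ≠ 1)
    (h2 : (2 : F) ≠ 0) (hB : B.IsAlt) (hn : B.Nondegenerate) :
    ∃ (S : Type) (_ : AddCommGroup S) (_ : Module ℂ S) (ρ : W → Module.End ℂ S),
      IsHeis ψ B ρ ∧ IsIrr ρ := by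
  obtain ⟨n, e, f, I₁, I, sb⟩ := exists_sb hB hn h2 (Y₁ := ⊥) (Y := ⊥) le_rfl (by
    intro y hy y' _
    rw [(Submodule.mem_bot F).1 hy, map_zero, LinearMap.zero_apply])
  exact ⟨_, _, _, schRho hψ B e f, schRho_isHeis hψ h2 hB sb, schRho_isIrr hψ hψ1 h2 hB sb⟩

end schro

end Pool.Agent.SpehH

namespace SpW

section weil

variable {F E : Type} [NontriviallyNormedField F] [NontriviallyNormedField E] [NormedAlgebra F E]
  {σ : E ≃ₐ[F] E} {δ : E} {d : F} {N : ℕ} {H : Matrix (Fin N) (Fin N) E}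
  {ψ : AddChar F Circle}

/-- The Heisenberg representation of a skew-Hermitian space, in the form used in `IsWeil`. -/
theorem exists_weil_rho [IsUltrametricDist F] [ProperSpace F] [ProperSpace E]
    (hq : QuadDatum σ δ d) (hH : IsSkew σ H) (hψ : Continuous ψ) (hψ1 : ψ ≠ 1) :
    ∃ (S : Type) (_ : AddCommGroup S) (_ : Module ℂ S) (ρ : (Fin N → E) → Module.End ℂ S),
      Nontrivial S ∧
      (∀ w w', ρ w * ρ w' = ((ψ ((2 : F)⁻¹ * sympl F σ H w w') : Circle) : ℂ) • ρ (w + w')) ∧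
      (∀ v, ∀ᶠ w in nhds (0 : Fin N → E), ρ w v = v) ∧
      ∀ T : Submodule ℂ S, (∀ w, ∀ v ∈ T, ρ w v ∈ T) → T = ⊥ ∨ T = ⊤ := by
  have iE : FiniteDimensional F E := hq.finite
  obtain ⟨n, e, f, I₁, I, sb⟩ := Pool.Agent.SpehH.exists_sb (symplB_alt hq hH)
    (symplB_nondeg hq hH) hq.two (Y₁ := ⊥) (Y := ⊥) le_rfl (by
    intro y hy y' _
    rw [(Submodule.mem_bot F).1 hy, map_zero, LinearMap.zero_apply])
  have h1 := Pool.Agent.SpehH.schRho_isHeis hψ hq.two (symplB_alt hq hH) sb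
  have h2 := Pool.Agent.SpehH.schRho_isIrr hψ hψ1 hq.two (symplB_alt hq hH) sb
  refine ⟨_, _, _, Pool.Agent.SpehH.schRho hψ (symplB F σ H) e f, h2.1, fun w w' => ?_, fun φ => ?_,
    h2.2⟩
  · rw [h1.mul, symplB_apply, div_eq_inv_mul]
  · have h3 : Continuous fun w : Fin N → E => (((fun i => symplB F σ H w (f i)),
        (fun i => -symplB F σ H w (e i))) : (Fin n → F) × (Fin n → F)) := by
      have h4 : ∀ y : Fin N → E, Continuous fun w : Fin N → E => symplB F σ H w y := fun y =>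
        (sympl_continuous hq).comp (continuous_id.prodMk continuous_const)
      exact (continuous_pi fun i => h4 _).prodMk (continuous_pi fun i => (h4 _).neg)
    have h5 := h3.tendsto 0
    have h6 : (((fun i => symplB F σ H 0 (f i)), (fun i => -symplB F σ H 0 (e i))) :
        (Fin n → F) × (Fin n → F)) = 0 := by
      simp only [map_zero, LinearMap.zero_apply, neg_zero]
      rfl
    rw [h6] at h5
    exact h5.eventually (Pool.Agent.SpehH.schOp_eventually hψ φ)

end weil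

end SpW
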