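import Pool.Agent.Work.MP_3615d2_al.Defs

/-!
MP_3615d2_al, block We: the operators attached to a matrix (in the application: a Cayley transform).
-/

namespace SpW

/-- `T` is the stable integral `∫ ψ(⟨c w, w⟩/4) ρ(w) dw` over balls (the integral in the
normalisation of the Weil representation). -/
def IsOpT {F E : Type} [NontriviallyNormedField F] [NontriviallyNormedField E] [NormedAlgebra F E]
    [ProperSpace E] [MeasurableSpace E] [BorelSpace E] (ψ : AddChar F Circle) (σ : E ≃ₐ[F] E)
    {N : ℕ} (H c : Matrix (Fin N) (Fin N) E) {S : Type} [AddCommGroup S] [Module ℂ S]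
    (ρ : (Fin N → E) → Module.End ℂ S) (T : Module.End ℂ S) : Prop :=
  ∀ (v : S) (ξ : S →ₗ[ℂ] ℂ), ∀ᶠ r : ℝ in Filter.atTop,
    ξ (T v) = ∫ w in Metric.closedBall (0 : Fin N → E) r,
      ((ψ ((4 : F)⁻¹ * sympl F σ H (c.mulVec w) w) : Circle) : ℂ) * ξ (ρ w v)
        ∂(MeasureTheory.Measure.addHaar)

end SpW
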