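import Pool.Agent.Work.MP_3615d2_al.WeInv
import Pool.Agent.Work.MP_3615d2_al.WeDef
import Pool.Agent.Work.MP_3615d2_al.DualNorm

/-!
MP_3615d2_al, existence of the Weil representation: the operators `T_c` for the Cayley transform
`c` of a regular element of the unitary group.
-/

open MeasureTheory Metric Set
open scoped NNReal

namespace SpW

section weop

variable {F E : Type} [NontriviallyNormedField F] [IsUltrametricDist F] [ProperSpace F]
  [NontriviallyNormedField E] [NormedAlgebra F E] [IsUltrametricDist E]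
  [ProperSpace E] [MeasurableSpace E] [BorelSpace E]
  {σ : E ≃ₐ[F] E} {δ : E} {d : F} {N : ℕ} {H : Matrix (Fin N) (Fin N) E}
  {ψ : AddChar F Circle} {S : Type} [AddCommGroup S] [Module ℂ S]
  {ρ : (Fin N → E) → Module.End ℂ S}

/-- A matrix as an `F`-linear map. -/
noncomputable def mulL (F : Type) {E : Type} [Field F] [Field E] [Algebra F E] {N : ℕ}
    (c : Matrix (Fin N) (Fin N) E) : (Fin N → E) →ₗ[F] (Fin N → E) where
  toFun x := c.mulVec x
  map_add' x y := Matrix.mulVec_add _ _ _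
  map_smul' a x := mulVec_fsmul _ _ _

theorem mulL_apply (F : Type) {E : Type} [Field F] [Field E] [Algebra F E] {N : ℕ}
    (c : Matrix (Fin N) (Fin N) E) (x : Fin N → E) : mulL F c x = c.mulVec x := rfl

theorem IsOpT.unique {c : Matrix (Fin N) (Fin N) E} {T T' : Module.End ℂ S}
    (h : IsOpT ψ σ H c ρ T) (h' : IsOpT ψ σ H c ρ T') : T = T' := by
  ext v
  rw [← sub_eq_zero]
  refine (Module.forall_dual_apply_eq_zero_iff ℂ _).1 fun ξ => ?_
  obtain ⟨r, h1, h2⟩ := ((h v ξ).and (h' v ξ)).exists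
  rw [map_sub, h1, h2, sub_self]

theorem IsOpT.of_isT {c : Matrix (Fin N) (Fin N) E} {T : Module.End ℂ S}
    (h : LemI.IsT (Measure.addHaar : Measure (Fin N → E)) ψ (symplB F σ H) ρ (mulL F c) T) :
    IsOpT ψ σ H c ρ T := by
  intro v ξ
  obtain ⟨R₁, hR⟩ := h v
  filter_upwards [Filter.eventually_ge_atTop R₁] with r hr
  exact (hR ξ r hr).symm

/-- The Heisenberg relations for `ρ`. -/
def HeisMul (ψ : AddChar F Circle) (σ : E ≃ₐ[F] E) {N : ℕ} (H : Matrix (Fin N) (Fin N) E)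
    (ρ : (Fin N → E) → Module.End ℂ S) : Prop :=
  ∀ w w', ρ w * ρ w' = ((ψ ((2 : F)⁻¹ * sympl F σ H w w') : Circle) : ℂ) • ρ (w + w')

omit [IsUltrametricDist F] [ProperSpace F] [IsUltrametricDist E] [ProperSpace E]
  [MeasurableSpace E] [BorelSpace E] in
theorem cay_symm (hq : QuadDatum σ δ d) (hH : IsSkew σ H) {g : unitary σ H}
    (hu : IsUnit (umat g - 1)) (w w' : Fin N → E) :
    symplB F σ H (mulL F (cayley (umat g)) w) w' = symplB F σ H (mulL F (cayley (umat g)) w') w := by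
  rw [symplB_apply, symplB_apply, mulL_apply, mulL_apply, sympl_eq, cayley_adj hu, map_neg,
    ← sympl_eq, sympl_swap hq hH _ w, neg_neg]

omit [IsUltrametricDist F] [ProperSpace F] [IsUltrametricDist E] [ProperSpace E]
  [MeasurableSpace E] [BorelSpace E] in
theorem cay_one (hq : QuadDatum σ δ d) {g : unitary σ H}
    (hu : IsUnit (umat g - 1)) (w : Fin N → E)
    (hw : mulL F (cayley (umat g)) w = w) : w = 0 := by
  have h4 : (cayley (umat g) - 1).mulVec w = 0 := by
    rw [Matrix.sub_mulVec, Matrix.one_mulVec, sub_eq_zero]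
    exact hw
  have h5 : (cayley (umat g) - 1) * (umat g - 1) = (2 : E) • (1 : Matrix (Fin N) (Fin N) E) := by
    rw [Matrix.sub_mul, cayley_mul hu, one_mul, two_smul]
    abel
  have h6 : (umat g - 1) * (cayley (umat g) - 1) = (2 : E) • (1 : Matrix (Fin N) (Fin N) E) := by
    have h7 : (cayley (umat g) - 1) * ((2 : E)⁻¹ • (umat g - 1)) = 1 := by
      rw [Matrix.mul_smul, h5, smul_smul, inv_mul_cancel₀ hq.two_E, one_smul]
    have h8 := mul_eq_one_comm.1 h7
    rw [Matrix.smul_mul] at h8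
    have h8' := congrArg (fun M => (2 : E) • M) h8
    simp only [smul_smul, mul_inv_cancel₀ hq.two_E, one_smul] at h8'
    exact h8'
  have h9 : ((umat g - 1) * (cayley (umat g) - 1)).mulVec w =
      ((2 : E) • (1 : Matrix (Fin N) (Fin N) E)).mulVec w := by rw [h6]
  rw [← Matrix.mulVec_mulVec, h4, Matrix.mulVec_zero, Matrix.smul_mulVec,
    Matrix.one_mulVec] at h9
  exact (smul_eq_zero.1 h9.symm).resolve_left hq.two_E

theorem exists_isT (hq : QuadDatum σ δ d) (hH : IsSkew σ H) (hψ : Continuous ψ) (hψ1 : ψ ≠ 1)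
    (hρ : HeisMul ψ σ H ρ) (hv : ∀ v, ∀ᶠ w in nhds (0 : Fin N → E), ρ w v = v)
    {g : unitary σ H} (hu : IsUnit (umat g - 1)) :
    ∃ T : Module.End ℂ S, LemI.IsT (Measure.addHaar : Measure (Fin N → E)) ψ (symplB F σ H) ρ
      (mulL F (cayley (umat g))) T := by
  have hfd := hq.finite
  exact LemI.exists_T _ hψ hψ1 hq.two (fun w hw => sympl_nondeg hq hH hw) hρ
    (cay_symm hq hH hu) (cay_one hq hu) hv

theorem IsOpT.isT (hq : QuadDatum σ δ d) (hH : IsSkew σ H) (hψ : Continuous ψ) (hψ1 : ψ ≠ 1)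
    (hρ : HeisMul ψ σ H ρ) (hv : ∀ v, ∀ᶠ w in nhds (0 : Fin N → E), ρ w v = v)
    {g : unitary σ H} (hu : IsUnit (umat g - 1)) {T : Module.End ℂ S}
    (h : IsOpT ψ σ H (cayley (umat g)) ρ T) :
    LemI.IsT (Measure.addHaar : Measure (Fin N → E)) ψ (symplB F σ H) ρ
      (mulL F (cayley (umat g))) T := by
  obtain ⟨T', hT'⟩ := exists_isT hq hH hψ hψ1 hρ hv hu
  rwa [h.unique (IsOpT.of_isT hT')]

/-- Existence of the operator of a regular element. -/
theorem exists_opT (hq : QuadDatum σ δ d) (hH : IsSkew σ H) (hψ : Continuous ψ) (hψ1 : ψ ≠ 1)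
    (hρ : HeisMul ψ σ H ρ) (hv : ∀ v, ∀ᶠ w in nhds (0 : Fin N → E), ρ w v = v)
    {g : unitary σ H} (hu : IsUnit (umat g - 1)) :
    ∃ T : Module.End ℂ S, IsOpT ψ σ H (cayley (umat g)) ρ T := by
  obtain ⟨T', hT'⟩ := exists_isT hq hH hψ hψ1 hρ hv hu
  exact ⟨T', IsOpT.of_isT hT'⟩

/-- The intertwining property. -/
theorem opT_rho (hq : QuadDatum σ δ d) (hH : IsSkew σ H) (hψ : Continuous ψ) (hψ1 : ψ ≠ 1)
    (hρ : HeisMul ψ σ H ρ) (hv : ∀ v, ∀ᶠ w in nhds (0 : Fin N → E), ρ w v = v)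
    {g : unitary σ H} (hu : IsUnit (umat g - 1)) {T : Module.End ℂ S}
    (h : IsOpT ψ σ H (cayley (umat g)) ρ T) (w : Fin N → E) :
    T * ρ w = ρ ((umat g).mulVec w) * T := by
  have hfd := hq.finite
  have hT := h.isT hq hH hψ hψ1 hρ hv hu
  have hs : ∃ z', w = (umat g - 1).mulVec z' := by
    refine ⟨(umat g - 1)⁻¹.mulVec w, ?_⟩
    rw [Matrix.mulVec_mulVec, Matrix.mul_nonsing_inv _ ((Matrix.isUnit_iff_isUnit_det _).1 hu),
      Matrix.one_mulVec]
  obtain ⟨z, hz⟩ := hs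
  have hc1 : ∀ z' : Fin N → E, (cayley (umat g)).mulVec ((umat g - 1).mulVec z') =
      (umat g + 1).mulVec z' := by
    intro z'
    rw [Matrix.mulVec_mulVec, cayley_mul hu]
  have hgw : (umat g).mulVec w = (umat g - 1).mulVec ((umat g).mulVec z) := by
    rw [hz, Matrix.mulVec_mulVec, Matrix.mulVec_mulVec, Matrix.mul_sub, Matrix.sub_mul, mul_one,
      one_mul]
  have hcgw : (cayley (umat g)).mulVec ((umat g).mulVec w) =
      (umat g).mulVec ((cayley (umat g)).mulVec w) := by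
    rw [hgw, hc1, hz, hc1, Matrix.mulVec_mulVec, Matrix.mulVec_mulVec, Matrix.mul_add,
      Matrix.add_mul, mul_one, one_mul]
  ext v
  rw [Module.End.mul_apply, Module.End.mul_apply]
  have hρ' : ∀ w w', ρ w * ρ w' =
    ((ψ ((2 : F)⁻¹ * symplB F σ H w w') : Circle) : ℂ) • ρ (w + w') := hρ
  refine hT.rho _ hq.two hρ' (cay_symm hq hH hu) (fun w => sympl_self hq hH w) ?_ ?_ v
  · rw [mulL_apply, mulL_apply, hcgw, hz, hc1, Matrix.add_mulVec, Matrix.sub_mulVec,
      Matrix.one_mulVec, Matrix.mulVec_add, Matrix.mulVec_sub]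
    abel
  · rw [mulL_apply, mulL_apply, symplB_apply, symplB_apply, hcgw, sympl_eq, sympl_eq, sk_unitary]

/-- `T_c T_{-c}` is a nonzero scalar. -/
theorem opT_inv (hq : QuadDatum σ δ d) (hH : IsSkew σ H) (hψ : Continuous ψ) (hψ1 : ψ ≠ 1)
    (hρ : HeisMul ψ σ H ρ) (hv : ∀ v, ∀ᶠ w in nhds (0 : Fin N → E), ρ w v = v)
    {g : unitary σ H} (hu : IsUnit (umat g - 1)) (hu' : IsUnit (umat g⁻¹ - 1))
    {T T' : Module.End ℂ S} (h : IsOpT ψ σ H (cayley (umat g)) ρ T)
    (h' : IsOpT ψ σ H (cayley (umat g⁻¹)) ρ T') :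
    ∃ C : ℂ, C ≠ 0 ∧ T * T' = C • (1 : Module.End ℂ S) := by
  have hfd := hq.finite
  have hT := h.isT hq hH hψ hψ1 hρ hv hu
  have hT' := h'.isT hq hH hψ hψ1 hρ hv hu'
  have e : mulL F (cayley (umat g⁻¹)) = -mulL F (cayley (umat g)) := by
    rw [cayley_inv hu hu']
    refine LinearMap.ext fun x => ?_
    rw [LinearMap.neg_apply, mulL_apply, mulL_apply, Matrix.neg_mulVec]
  rw [e] at hT'
  have hρ' : ∀ w w', ρ w * ρ w' =
    ((ψ ((2 : F)⁻¹ * symplB F σ H w w') : Circle) : ℂ) • ρ (w + w') := hρ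
  exact hT.inv _ hψ hψ1 hq.two (fun w hw => sympl_nondeg hq hH hw) hρ' (cay_symm hq hH hu)
    (fun w => sympl_self hq hH w) (cay_one hq hu) hv hT'

omit [IsUltrametricDist F] [ProperSpace F] [IsUltrametricDist E] [ProperSpace E]
  [MeasurableSpace E] [BorelSpace E] in
theorem umat_cont : Continuous fun g : unitary σ H => umat g :=
  Units.continuous_val.comp continuous_subtype_val

omit [IsUltrametricDist F] [ProperSpace F] [IsUltrametricDist E] [ProperSpace E]
  [MeasurableSpace E] [BorelSpace E] in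
theorem reg_nhds {g₀ : unitary σ H} (hu : IsUnit (umat g₀ - 1)) :
    ∀ᶠ g in nhds g₀, IsUnit (umat g - 1) := by
  have h1 : Continuous fun g : unitary σ H => (umat g - 1).det :=
    (umat_cont.sub continuous_const).matrix_det
  have h2 : (umat g₀ - 1).det ≠ 0 := by
    rw [← isUnit_iff_ne_zero]
    exact (Matrix.isUnit_iff_isUnit_det _).1 hu
  filter_upwards [h1.continuousAt.eventually_ne h2] with g hg
  rw [Matrix.isUnit_iff_isUnit_det]
  exact isUnit_iff_ne_zero.2 hg

omit [IsUltrametricDist F] [ProperSpace F] [IsUltrametricDist E] [ProperSpace E]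
  [MeasurableSpace E] [BorelSpace E] in
theorem cay_contAt {g₀ : unitary σ H} (hu : IsUnit (umat g₀ - 1)) :
    ContinuousAt (fun g : unitary σ H => cayley (umat g)) g₀ := by
  have h2 : (umat g₀ - 1).det ≠ 0 := by
    rw [← isUnit_iff_ne_zero]
    exact (Matrix.isUnit_iff_isUnit_det _).1 hu
  have h3 : ContinuousAt (Inv.inv : Matrix (Fin N) (Fin N) E → Matrix (Fin N) (Fin N) E)
      (umat g₀ - 1) := by
    refine continuousAt_matrix_inv _ ?_
    rw [Ring.inverse_eq_inv']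
    exact continuousAt_inv₀ h2
  have h4 : ContinuousAt (fun g : unitary σ H => (umat g - 1)⁻¹) g₀ := by
    have h5 : ContinuousAt (fun g : unitary σ H => umat g - 1) g₀ :=
      (umat_cont.sub continuous_const).continuousAt
    exact ContinuousAt.comp (g := Inv.inv) h3 h5
  unfold cayley
  have h6 : ContinuousAt (fun g : unitary σ H => umat g + 1) g₀ :=
    (umat_cont.add continuous_const).continuousAt
  exact h6.mul h4

omit [IsUltrametricDist F] [ProperSpace F] [IsUltrametricDist E] [ProperSpace E]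
  [MeasurableSpace E] [BorelSpace E] in
theorem mulVec_small (M : Matrix (Fin N) (Fin N) E) {η : ℝ} (hη : 0 < η)
    (hM : ∀ i j, ‖M i j‖ ≤ η / (N + 1)) (w : Fin N → E) : ‖M.mulVec w‖ ≤ η * ‖w‖ := by
  refine (pi_norm_le_iff_of_nonneg (by positivity)).2 fun i => ?_
  unfold Matrix.mulVec dotProduct
  have h1 : ∀ j ∈ Finset.univ, ‖M i j * w j‖ ≤ η / (N + 1) * ‖w‖ := by
    intro j _
    rw [norm_mul]
    exact mul_le_mul (hM i j) (norm_le_pi_norm w j) (norm_nonneg _) (by positivity)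
  refine (norm_sum_le _ _).trans ((Finset.sum_le_sum h1).trans ?_)
  rw [Finset.sum_const, Finset.card_univ, Fintype.card_fin, nsmul_eq_mul, ← mul_assoc]
  refine mul_le_mul_of_nonneg_right ?_ (norm_nonneg _)
  have h2 : (0 : ℝ) < N + 1 := by positivity
  rw [mul_div_assoc', div_le_iff₀ h2]
  nlinarith

/-- Local constancy of `g ↦ T_g v` on the regular set. -/
theorem opT_near (hq : QuadDatum σ δ d) (hH : IsSkew σ H) (hψ : Continuous ψ) (hψ1 : ψ ≠ 1)
    (hρ : HeisMul ψ σ H ρ) (hv : ∀ v, ∀ᶠ w in nhds (0 : Fin N → E), ρ w v = v)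
    {g₀ : unitary σ H} (hu : IsUnit (umat g₀ - 1)) {T₀ : Module.End ℂ S}
    (h₀ : IsOpT ψ σ H (cayley (umat g₀)) ρ T₀) (v : S) :
    ∀ᶠ g in nhds g₀, ∀ T : Module.End ℂ S, IsOpT ψ σ H (cayley (umat g)) ρ T → T v = T₀ v := by
  have hfd := hq.finite
  have hρ' : ∀ w w', ρ w * ρ w' =
    ((ψ ((2 : F)⁻¹ * symplB F σ H w w') : Circle) : ℂ) • ρ (w + w') := hρ
  obtain ⟨v1, R₁, η, hη, hT⟩ := LemI.exists_Tv (Measure.addHaar : Measure (Fin N → E)) hψ hψ1
    hq.two (fun w hw => sympl_nondeg hq hH hw) hρ' (cay_symm hq hH hu) (cay_one hq hu) (hv v)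
  have key : ∀ g : unitary σ H, IsUnit (umat g - 1) →
      (∀ w : Fin N → E, ‖mulL F (cayley (umat g)) w - mulL F (cayley (umat g₀)) w‖ ≤ η * ‖w‖) →
      ∀ T : Module.End ℂ S, IsOpT ψ σ H (cayley (umat g)) ρ T → T v = v1 := by
    intro g hg hgw T h
    rw [← sub_eq_zero]
    refine (Module.forall_dual_apply_eq_zero_iff ℂ _).1 fun ξ => ?_
    obtain ⟨r, h1, h2⟩ := ((h v ξ).and (Filter.eventually_ge_atTop R₁)).exists
    rw [map_sub, h1, sub_eq_zero]
    exact hT _ (cay_symm hq hH hg) hgw ξ r h2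
  have h1 : T₀ v = v1 := key g₀ hu (fun w => by rw [sub_self, norm_zero]; positivity) T₀ h₀
  have h2 : ∀ᶠ g in nhds g₀, ∀ i j, ‖cayley (umat g) i j - cayley (umat g₀) i j‖ ≤ η / (N + 1) := by
    refine Filter.eventually_all.2 fun i => Filter.eventually_all.2 fun j => ?_
    have h3 : ContinuousAt (fun g : unitary σ H => ‖cayley (umat g) i j - cayley (umat g₀) i j‖)
        g₀ := by
      have h4 : ContinuousAt (fun g : unitary σ H => cayley (umat g) i j) g₀ :=
        ((continuous_apply j).continuousAt.comp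
          ((continuous_apply i).continuousAt.comp (cay_contAt hu)))
      exact (h4.sub continuousAt_const).norm
    have h5 : ‖cayley (umat g₀) i j - cayley (umat g₀) i j‖ < η / (N + 1) := by
      rw [sub_self, norm_zero]
      positivity
    exact (h3.eventually_lt continuousAt_const h5).mono fun _ h => h.le
  filter_upwards [reg_nhds hu, h2] with g hg hg2 T hT'
  rw [h1]
  refine key g hg (fun w => ?_) T hT'
  rw [mulL_apply, mulL_apply, ← Matrix.sub_mulVec]
  exact mulVec_small _ hη (fun i j => hg2 i j) w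

end weop

end SpW
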