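import Pool.Agent.Work.MP_3615d2_al.WeC
import Pool.Agent.Work.MP_3615d2_al.WeSch
import Pool.Agent.Work.MP_3615d2_al.WeGauss
import Pool.Agent.Work.MP_3615d2_al.WeFac
import Pool.Agent.Work.MP_3615d2_al.WeT

/-!
MP_3615d2_al, block We: existence of the Weil representation in the normalisation of `IsWeil`.
-/

set_option linter.unusedSectionVars false

open MeasureTheory Metric Set
open scoped NNReal

namespace SpW

section

variable {F E : Type} [NontriviallyNormedField F] [IsUltrametricDist F] [ProperSpace F]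
  [NontriviallyNormedField E] [NormedAlgebra F E] [IsUltrametricDist E] [ProperSpace E]
  [MeasurableSpace E] [BorelSpace E]
  {σ : E ≃ₐ[F] E} {δ : E} {d : F} {N : ℕ} {H : Matrix (Fin N) (Fin N) E}
  {ψ : AddChar F Circle} {μ : Eˣ →* ℂˣ}

theorem omF_char (hμ : ConjSymplectic F μ) (hq : QuadDatum σ δ d) : OmChar F E (omF F μ) := by
  have hfin := hq.finite
  refine ⟨fun y hy => ?_, fun x hx h => omF_nonnorm hμ hx h, fun x y hx hy => omF_mul μ hx hy,
    omF_cont hμ⟩
  exact omF_norm hμ (by rwa [Ne, Algebra.norm_eq_zero_iff]) ⟨y, rfl⟩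

section asm

variable {S : Type} [AddCommGroup S] [Module ℂ S] {ρ : (Fin N → E) → Module.End ℂ S}

/-- **The Weil representation exists**, on a given smooth irreducible representation of the
Heisenberg group. -/
theorem exists_om (hq : QuadDatum σ δ d) (hH : IsSkew σ H) (hψ : Continuous ψ) (hψ1 : ψ ≠ 1)
    (hμ : ConjSymplectic F μ) [Nontrivial S]
    (rho_mul : ∀ w w', ρ w * ρ w' = ((ψ ((2 : F)⁻¹ * sympl F σ H w w') : Circle) : ℂ) • ρ (w + w'))
    (rho_smooth : ∀ v, ∀ᶠ w in nhds (0 : Fin N → E), ρ w v = v)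
    (rho_irr : ∀ T : Submodule ℂ S, (∀ w, ∀ v ∈ T, ρ w v ∈ T) → T = ⊥ ∨ T = ⊤) :
    ∃ ω : unitary σ H →* Module.End ℂ S, IsWeil σ H ψ μ ρ ω := by
  classical
  obtain ⟨G0, hG0, hG⟩ := We.gauss_herm hq (omF_char hμ hq) hψ hψ1 N
  obtain ⟨κ, hκ, hmul⟩ := weil_kappa hq hH hψ hψ1 rho_mul rho_smooth μ
    ⟨G0, hG0, fun H' h1 h2 t ht q hq' => hG H' h1 t (by
      rintro rfl
      rw [map_zero] at ht
      exact h2 ht.symm) ht q hq'⟩
  have hunit : ∀ g : unitary σ H, (umat g - 1).det ≠ 0 → IsUnit (umat g - 1) := fun g hg =>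
    (Matrix.isUnit_iff_isUnit_det _).2 (isUnit_iff_ne_zero.2 hg)
  have hTex : ∀ g : unitary σ H, ∃ T : Module.End ℂ S, (umat g - 1).det ≠ 0 →
      IsOpT ψ σ H (cayley (umat g)) ρ T := by
    intro g
    by_cases hg : (umat g - 1).det ≠ 0
    · obtain ⟨T, hT⟩ := exists_opT hq hH hψ hψ1 rho_mul rho_smooth (hunit g hg)
      exact ⟨T, fun _ => hT⟩
    · exact ⟨0, fun h => absurd h hg⟩
  choose T hT using hTex
  -- the operators on the regular set
  let f : unitary σ H → Module.End ℂ S := fun g =>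
    if h : (umat g - 1).det ≠ 0 then (κ * aE μ (Units.mk0 _ h)) • T g else 0
  have hf : ∀ (g : unitary σ H) (u : Eˣ), (u : E) = (umat g - 1).det →
      f g = (κ * aE μ u) • T g := by
    intro g u hu
    have h : (umat g - 1).det ≠ 0 := by
      rw [← hu]
      exact u.ne_zero
    have h1 : Units.mk0 _ h = u := Units.ext hu.symm
    show (if h : (umat g - 1).det ≠ 0 then (κ * aE μ (Units.mk0 _ h)) • T g else 0) = _
    rw [dif_pos h, h1]
  refine weil_of_reg (N := N) (H := H) hq rho_mul rho_smooth rho_irr f ?_ ?_ ?_ ?_ ?_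
  · intro g hg w
    rw [hf g (Units.mk0 _ hg) rfl, smul_mul_assoc,
      opT_rho hq hH hψ hψ1 rho_mul rho_smooth (hunit g hg) (hT g hg) w, mul_smul_comm]
  · intro g g' hg hg' hg''
    rw [hf g (Units.mk0 _ hg) rfl, hf g' (Units.mk0 _ hg') rfl, hf (g * g') (Units.mk0 _ hg'') rfl]
    exact hmul g g' _ _ _ rfl rfl rfl _ _ _ (hT g hg) (hT g' hg') (hT _ hg'')
  · intro g hg
    rw [hf g (Units.mk0 _ hg) rfl]
    refine smul_ne_zero (mul_ne_zero hκ (aE_ne μ _)) ?_
    intro h0
    have hg' : (umat g⁻¹ - 1).det ≠ 0 := by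
      have e1 : umat g * umat g⁻¹ = 1 := by
        show ((g : GL (Fin N) E) : Matrix (Fin N) (Fin N) E) *
          ((g⁻¹ : unitary σ H) : GL (Fin N) E) = 1
        rw [← Units.val_mul, ← Subgroup.coe_mul, mul_inv_cancel, Subgroup.coe_one, Units.val_one]
      have e2 : umat g * (umat g⁻¹ - 1) = -(umat g - 1) := by
        rw [Matrix.mul_sub, e1, mul_one, neg_sub]
      intro e3
      have e4 := congrArg Matrix.det e2
      rw [Matrix.det_mul, e3, mul_zero, Matrix.det_neg] at e4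
      rcases mul_eq_zero.1 e4.symm with e5 | e5
      · exact absurd e5 (pow_ne_zero _ (neg_ne_zero.2 one_ne_zero))
      · exact hg e5
    obtain ⟨C, hC, hC'⟩ := opT_inv hq hH hψ hψ1 rho_mul rho_smooth (hunit g hg) (hunit _ hg')
      (hT g hg) (hT _ hg')
    rw [h0, zero_mul] at hC'
    obtain ⟨v, hv⟩ := exists_ne (0 : S)
    have e6 := LinearMap.congr_fun hC' v
    rw [LinearMap.zero_apply, LinearMap.smul_apply, Module.End.one_apply] at e6
    exact smul_ne_zero hC hv e6.symm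
  · intro g₀ hg₀ v
    have h1 := opT_near hq hH hψ hψ1 rho_mul rho_smooth (hunit g₀ hg₀) (hT g₀ hg₀) v
    have h2 := fac_loc hμ.cont g₀ (Units.mk0 _ hg₀) rfl
    have h3 : ∀ᶠ g : unitary σ H in nhds g₀, (umat g - 1).det ≠ 0 := by
      have hc : Continuous fun g : unitary σ H => (umat g - 1).det := by
        refine Continuous.matrix_det (Continuous.sub ?_ continuous_const)
        exact Units.continuous_val.comp continuous_subtype_val
      exact (hc.tendsto g₀).eventually_ne hg₀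
    filter_upwards [h1, h2, h3] with g k1 k2 k3
    rw [hf g (Units.mk0 _ k3) rfl, hf g₀ (Units.mk0 _ hg₀) rfl, LinearMap.smul_apply,
      LinearMap.smul_apply, k1 (T g) (hT g k3)]
    obtain ⟨k4, k5⟩ := k2 (Units.mk0 _ k3) rfl
    rw [aE, aE, k4, k5]
  · refine ⟨κ, fun g u hu v ξ => ?_⟩
    have h : (umat g - 1).det ≠ 0 := by
      rw [← hu]
      exact u.ne_zero
    filter_upwards [hT g h v ξ] with r hr
    rw [hf g u hu, LinearMap.smul_apply, map_smul, smul_eq_mul, hr, aE, ← mul_assoc]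

end asm

/-- **The Weil representation exists**: for every conjugate-symplectic character `μ` and every
nontrivial continuous additive character `ψ` there are `ρ`, `ω` with `IsWeil`. -/
theorem weil_exists (hq : QuadDatum σ δ d) (hH : IsSkew σ H) (hψ : Continuous ψ) (hψ1 : ψ ≠ 1)
    (hμ : ConjSymplectic F μ) :
    ∃ (S : Type) (_ : AddCommGroup S) (_ : Module ℂ S) (ρ : (Fin N → E) → Module.End ℂ S)
      (ω : unitary σ H →* Module.End ℂ S), IsWeil σ H ψ μ ρ ω := by
  obtain ⟨S, i1, i2, ρ, h1, h2, h3, h4⟩ := exists_weil_rho (H := H) hq hH hψ hψ1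
  obtain ⟨ω, hω⟩ := exists_om (μ := μ) hq hH hψ hψ1 hμ h2 h3 h4
  exact ⟨S, i1, i2, ρ, ω, hω⟩

end

end SpW
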