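import Pool.Agent.Work.MP_3615d2_al.DefsB

/-!
MP_3615d2_al, Theorem B, R4c: the exterior tensor product of two irreducible representations is
irreducible if Schur's lemma holds for the first of them; irreducibility of `rho π s`.
-/

open MeasureTheory Matrix Filter Topology
open scoped NNReal TensorProduct

namespace SpW

section abs

variable {G H V W : Type} [Group G] [Group H] [AddCommGroup V] [Module ℂ V] [AddCommGroup W]
  [Module ℂ W]

/-- The span of an orbit of a nonzero vector is everything. -/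
theorem irr_of_mem {π : G →* Module.End ℂ V} (hirr : IsIrrRep π) {v : V} (hv : v ≠ 0)
    (T : Submodule ℂ V) (hT : ∀ g, ∀ x ∈ T, π g x ∈ T) (hvT : v ∈ T) : T = ⊤ := by
  rcases hirr.irr T hT with h | h
  · rw [h, Submodule.mem_bot] at hvT
    exact absurd hvT hv
  · exact h

/-- If every linear relation between the translates of `v` holds for those of `w`, then `w` is a
multiple of `v`. -/
theorem schur_rel {π : G →* Module.End ℂ V} (hirr : IsIrrRep π)
    (schur : ∀ T : Module.End ℂ V, (∀ g v, T (π g v) = π g (T v)) → ∃ c : ℂ, ∀ v, T v = c • v)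
    {v w : V} (hv : v ≠ 0)
    (h : ∀ f : G →₀ ℂ, Finsupp.linearCombination ℂ (fun g => π g v) f = 0 →
      Finsupp.linearCombination ℂ (fun g => π g w) f = 0) : ∃ c : ℂ, w = c • v := by
  classical
  have hact : ∀ (g : G) (x : V) (f : G →₀ ℂ),
      π g (Finsupp.linearCombination ℂ (fun k => π k x) f) =
        Finsupp.linearCombination ℂ (fun k => π k x) (f.mapDomain (fun k => g * k)) := by
    intro g x f
    rw [Finsupp.linearCombination_mapDomain, Finsupp.linearCombination_apply,
      Finsupp.linearCombination_apply, Finsupp.sum, Finsupp.sum, map_sum]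
    refine Finset.sum_congr rfl fun k _ => ?_
    rw [map_smul, Function.comp_apply, map_mul, Module.End.mul_apply]
  have hsurj : Function.Surjective (Finsupp.linearCombination ℂ (fun g => π g v)) := by
    rw [← LinearMap.range_eq_top]
    refine irr_of_mem hirr hv _ ?_ ?_
    · rintro g x ⟨f, rfl⟩
      exact ⟨f.mapDomain (fun k => g * k), (hact g v f).symm⟩
    · refine ⟨Finsupp.single 1 1, ?_⟩
      rw [Finsupp.linearCombination_single, one_smul, map_one, Module.End.one_apply]
  have hker : LinearMap.ker (Finsupp.linearCombination ℂ (fun g => π g v)) ≤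
      LinearMap.ker (Finsupp.linearCombination ℂ (fun g => π g w)) := by
    intro f hf
    rw [LinearMap.mem_ker] at hf ⊢
    exact h f hf
  obtain ⟨T, hT⟩ : ∃ T : Module.End ℂ V, ∀ f, T (Finsupp.linearCombination ℂ (fun g => π g v) f) =
      Finsupp.linearCombination ℂ (fun g => π g w) f := by
    let e := (Finsupp.linearCombination ℂ (fun g => π g v)).quotKerEquivOfSurjective hsurj
    refine ⟨((LinearMap.ker (Finsupp.linearCombination ℂ (fun g => π g v))).liftQ _ hker) ∘ₗ
      e.symm.toLinearMap, fun f => ?_⟩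
    have h1 : e.symm (Finsupp.linearCombination ℂ (fun g => π g v) f) =
        Submodule.Quotient.mk f := by
      rw [LinearEquiv.symm_apply_eq]
      rfl
    rw [LinearMap.comp_apply, LinearEquiv.coe_coe, h1]
    rfl
  have hcomm : ∀ g x, T (π g x) = π g (T x) := by
    intro g x
    obtain ⟨f, rfl⟩ := hsurj x
    rw [hact, hT, hT, hact]
  obtain ⟨c, hc⟩ := schur T hcomm
  refine ⟨c, ?_⟩
  have h1 := hT (Finsupp.single 1 1)
  rw [Finsupp.linearCombination_single, Finsupp.linearCombination_single, one_smul, one_smul,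
    map_one, Module.End.one_apply, Module.End.one_apply] at h1
  rw [← h1, hc]

/-- The coordinates of a translate. -/
theorem coord_map {ι : Type} [DecidableEq ι] (b : Module.Basis ι ℂ W) (a : Module.End ℂ V)
    (x : V ⊗[ℂ] W) (i : ι) :
    TensorProduct.equivFinsuppOfBasisRight b (TensorProduct.map a LinearMap.id x) i =
      a (TensorProduct.equivFinsuppOfBasisRight b x i) := by
  induction x using TensorProduct.induction_on with
  | zero => simp
  | tmul v w =>
    rw [TensorProduct.map_tmul, TensorProduct.equivFinsuppOfBasisRight_apply_tmul_apply,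
      TensorProduct.equivFinsuppOfBasisRight_apply_tmul_apply, map_smul, LinearMap.id_apply]
  | add x y hx hy =>
    rw [map_add, map_add, Finsupp.add_apply, hx, hy, map_add, Finsupp.add_apply, map_add]

/-- A nonzero stable subspace contains a nonzero pure tensor. -/
theorem exists_pure {π : G →* Module.End ℂ V} (hirr : IsIrrRep π)
    (schur : ∀ T : Module.End ℂ V, (∀ g v, T (π g v) = π g (T v)) → ∃ c : ℂ, ∀ v, T v = c • v)
    (S : Submodule ℂ (V ⊗[ℂ] W))
    (hS : ∀ g, ∀ x ∈ S, TensorProduct.map (π g) LinearMap.id x ∈ S) (hne : S ≠ ⊥) :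
    ∃ (v : V) (w : W), v ≠ 0 ∧ w ≠ 0 ∧ v ⊗ₜ[ℂ] w ∈ S := by
  classical
  obtain ⟨ι, b⟩ : ∃ (ι : Type), Nonempty (Module.Basis ι ℂ W) :=
    ⟨_, ⟨Module.Free.chooseBasis ℂ W⟩⟩
  obtain ⟨b⟩ := b
  set φ := TensorProduct.equivFinsuppOfBasisRight (M := V) b with hφ
  -- minimal support
  obtain ⟨x₀, hx₀S, hx₀⟩ := (Submodule.ne_bot_iff _).1 hne
  have hex : ∃ n : ℕ, ∃ x ∈ S, x ≠ 0 ∧ (φ x).support.card = n := ⟨_, x₀, hx₀S, hx₀, rfl⟩
  obtain ⟨x, hxS, hx, hcard⟩ := Nat.find_spec hex
  have hmin : ∀ y ∈ S, (φ y).support.card < (φ x).support.card → y = 0 := by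
    intro y hy hlt
    by_contra hy0
    rw [hcard] at hlt
    exact Nat.find_min hex hlt ⟨y, hy, hy0, rfl⟩
  have hφx : φ x ≠ 0 := fun h => hx ((LinearEquiv.map_eq_zero_iff φ).1 h)
  obtain ⟨i₀, hi₀⟩ := Finsupp.ne_iff.1 hφx
  rw [Finsupp.zero_apply] at hi₀
  -- the action of the group algebra
  have hA : ∀ f : G →₀ ℂ, TensorProduct.map (Finsupp.linearCombination ℂ (fun g => π g) f)
      LinearMap.id x ∈ S := by
    intro f
    induction f using Finsupp.induction_linear with
    | zero => simp
    | add f g hf hg =>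
      rw [map_add, TensorProduct.map_add_left, LinearMap.add_apply]
      exact S.add_mem hf hg
    | single g c =>
      rw [Finsupp.linearCombination_single, TensorProduct.map_smul_left, LinearMap.smul_apply]
      exact S.smul_mem _ (hS g x hxS)
  have hlin : ∀ (f : G →₀ ℂ) (v : V), (Finsupp.linearCombination ℂ (fun g => π g) f) v =
      Finsupp.linearCombination ℂ (fun g => π g v) f := by
    intro f v
    rw [Finsupp.linearCombination_apply, Finsupp.linearCombination_apply, Finsupp.sum,
      Finsupp.sum, LinearMap.sum_apply]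
    rfl
  have hmul : ∀ i, ∃ c : ℂ, φ x i = c • φ x i₀ := by
    intro i
    refine schur_rel hirr schur hi₀ fun f hf => ?_
    have h0 : TensorProduct.map (Finsupp.linearCombination ℂ (fun g => π g) f)
        LinearMap.id x = 0 := by
      refine hmin _ (hA f) ?_
      refine Finset.card_lt_card ?_
      rw [Finset.ssubset_iff_subset_ne]
      refine ⟨fun j hj => ?_, fun he => ?_⟩
      · rw [Finsupp.mem_support_iff] at hj ⊢
        intro h
        apply hj
        rw [hφ, coord_map, ← hφ, h, map_zero]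
      · have : i₀ ∈ (φ x).support := Finsupp.mem_support_iff.2 hi₀
        rw [← he, Finsupp.mem_support_iff, hφ, coord_map, ← hφ, hlin, hf] at this
        exact this rfl
    have h1 : φ (TensorProduct.map (Finsupp.linearCombination ℂ (fun g => π g) f)
        LinearMap.id x) i = 0 := by rw [h0, map_zero, Finsupp.zero_apply]
    rwa [hφ, coord_map, ← hφ, hlin] at h1
  choose c hc using hmul
  have hx' : x = φ x i₀ ⊗ₜ[ℂ] ∑ i ∈ (φ x).support, c i • b i := by
    have h1 : φ.symm (φ x) = x := φ.symm_apply_apply x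
    rw [hφ, TensorProduct.equivFinsuppOfBasisRight_symm_apply, ← hφ] at h1
    rw [TensorProduct.tmul_sum]
    refine h1.symm.trans (Finset.sum_congr rfl fun i _ => ?_)
    show φ x i ⊗ₜ[ℂ] b i = φ x i₀ ⊗ₜ[ℂ] (c i • b i)
    rw [hc i, TensorProduct.smul_tmul]
  refine ⟨φ x i₀, ∑ i ∈ (φ x).support, c i • b i, hi₀, ?_, hx' ▸ hxS⟩
  intro h
  rw [h, TensorProduct.tmul_zero] at hx'
  exact hx hx'

/-- **The exterior tensor product of irreducible representations is irreducible** if Schur's lemma
holds for the first factor. -/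
theorem tens_irr {π : G →* Module.End ℂ V} {τ : H →* Module.End ℂ W} (hπ : IsIrrRep π)
    (hτ : IsIrrRep τ)
    (schur : ∀ T : Module.End ℂ V, (∀ g v, T (π g v) = π g (T v)) → ∃ c : ℂ, ∀ v, T v = c • v)
    (S : Submodule ℂ (V ⊗[ℂ] W))
    (hS : ∀ g h, ∀ x ∈ S, TensorProduct.map (π g) (τ h) x ∈ S) : S = ⊥ ∨ S = ⊤ := by
  by_cases hne : S = ⊥
  · exact Or.inl hne
  right
  have hS1 : ∀ g, ∀ x ∈ S, TensorProduct.map (π g) LinearMap.id x ∈ S := by
    intro g x hx
    have h1 := hS g 1 x hx
    rwa [map_one] at h1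
  have hS2 : ∀ h, ∀ x ∈ S, TensorProduct.map LinearMap.id (τ h) x ∈ S := by
    intro h x hx
    have h1 := hS 1 h x hx
    rwa [map_one] at h1
  obtain ⟨v, w, hv, hw, hvw⟩ := exists_pure hπ schur S hS1 hne
  have h1 : S.comap ((TensorProduct.mk ℂ V W).flip w) = ⊤ :=
    irr_of_mem hπ hv _ (fun g x hx => hS1 g _ hx) hvw
  have h2 : ∀ v', S.comap (TensorProduct.mk ℂ V W v') = ⊤ := by
    intro v'
    have hv' : v' ∈ S.comap ((TensorProduct.mk ℂ V W).flip w) := by
      rw [h1]
      exact Submodule.mem_top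
    exact irr_of_mem hτ hw _ (fun g x hx => hS2 g _ hx) hv'
  rw [eq_top_iff, ← TensorProduct.span_tmul_eq_top, Submodule.span_le]
  rintro _ ⟨v', w', rfl⟩
  have h3 : w' ∈ S.comap (TensorProduct.mk ℂ V W v') := by
    rw [h2 v']
    exact Submodule.mem_top
  exact h3

end abs

section rho

variable {E : Type} [NontriviallyNormedField E] [ProperSpace E] [MeasurableSpace E] [BorelSpace E]
  {m : ℕ} {V : Type} [AddCommGroup V] [Module ℂ V]

/-- `rho π s` is irreducible if Schur's lemma holds for the irreducible representation `π`. -/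
theorem rho_irr_of_schur {π : GL (Fin m) E →* Module.End ℂ V} (hirr : IsIrrRep π)
    (schur : ∀ T : Module.End ℂ V, (∀ g v, T (π g v) = π g (T v)) → ∃ c : ℂ, ∀ v, T v = c • v)
    (s : ℝ) : IsIrrRep (rho π s) := by
  have := hirr.nontrivial
  refine ⟨inferInstance, fun T hT => tens_irr hirr hirr schur T fun g h x hx => ?_⟩
  have h1 := hT (g, h) x hx
  have hpos : (0 : ℝ) < ad g ^ s * ad h ^ (-s) :=
    mul_pos (Real.rpow_pos_of_pos (ad_pos g) _) (Real.rpow_pos_of_pos (ad_pos h) _)
  have hne : ((ad g ^ s * ad h ^ (-s) : ℝ) : ℂ) ≠ 0 := Complex.ofReal_ne_zero.2 hpos.ne'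
  have h2 : ((ad g ^ s * ad h ^ (-s) : ℝ) : ℂ)⁻¹ • (rho π s (g, h) x) =
      TensorProduct.map (π g) (π h) x := by
    show ((ad g ^ s * ad h ^ (-s) : ℝ) : ℂ)⁻¹ •
      (((ad g ^ s * ad h ^ (-s) : ℝ) : ℂ) • (TensorProduct.map (π g) (π h) x)) = _
    rw [smul_smul, inv_mul_cancel₀ hne, one_smul]
  rw [← h2]
  exact T.smul_mem _ h1

end rho

end SpW
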