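import Pool.Agent.Work.MP_3615d2_al.BlkRR

/-!
# Norm one elements of a division block have bounded powers
-/

set_option linter.unusedSectionVars false

open scoped Quaternion
open QuaternionAlgebra Polynomial

namespace SpW.Blk

section bdd

variable {F : Type} [NontriviallyNormedField F]

/-- The level sets of an anisotropic quadratic map are bounded. -/
theorem bdd_of_aniso [ProperSpace F] {D K : Type} [AddCommGroup D] [Module F D]
    [FiniteDimensional F D] [AddCommGroup K] [Module F K] [FiniteDimensional F K]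
    (b : D →ₗ[F] D →ₗ[F] K) (hb : ∀ x, b x x = 0 → x = 0) (k : K) (l : D →ₗ[F] F) :
    ∃ C : ℝ, ∀ x, b x x = k → ‖l x‖ ≤ C := by
  classical
  have : CompleteSpace F := inferInstance
  let m := Module.finrank F D
  let r := Module.finrank F K
  let e : D ≃ₗ[F] (Fin m → F) := (Module.finBasis F D).equivFun
  let eK : K ≃ₗ[F] (Fin r → F) := (Module.finBasis F K).equivFun
  let B1 : (Fin m → F) →ₗ[F] (Fin m → F) →ₗ[F] (Fin r → F) :=
    (b.compl₁₂ e.symm.toLinearMap e.symm.toLinearMap).compr₂ eK.toLinearMap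
  let B2 : (Fin m → F) →ₗ[F] ((Fin m → F) →L[F] (Fin r → F)) :=
    (LinearMap.toContinuousLinearMap (𝕜 := F) (E := Fin m → F) (F' := Fin r → F)).toLinearMap ∘ₗ B1
  have hB2 : Continuous B2 := B2.continuous_of_finiteDimensional
  let Φ : (Fin m → F) → (Fin r → F) := fun v => B2 v v
  have hΦ : ∀ v, Φ v = eK (b (e.symm v) (e.symm v)) := fun v => rfl
  have hΦc : Continuous Φ := hB2.clm_apply continuous_id
  obtain ⟨c, hc⟩ := NormedField.exists_one_lt_norm F
  let S : Set (Fin m → F) := {v | 1 / ‖c‖ ≤ ‖v‖ ∧ ‖v‖ ≤ 1}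
  have hS : IsCompact S := by
    have h1 : S = {v | 1 / ‖c‖ ≤ ‖v‖} ∩ Metric.closedBall 0 1 := by
      ext v
      simp [S]
    rw [h1]
    exact (isCompact_closedBall _ _).inter_left (isClosed_le continuous_const continuous_norm)
  have hresc : ∀ v : Fin m → F, v ≠ 0 → ∃ δ : F, δ ≠ 0 ∧ δ • v ∈ S := by
    intro v hv
    obtain ⟨δ, h1, h2, h3, _⟩ := rescale_to_shell hc one_pos hv
    exact ⟨δ, h1, h3, h2.le⟩
  let l' : (Fin m → F) →L[F] F := LinearMap.toContinuousLinearMap (l ∘ₗ e.symm.toLinearMap)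
  have hl' : ∀ x, l x = l' (e x) := by
    intro x
    simp [l']
  by_cases hne : S.Nonempty
  · obtain ⟨v₀, hv₀, hmin⟩ := hS.exists_isMinOn hne (hΦc.norm.continuousOn)
    have hm0 : 0 < ‖Φ v₀‖ := by
      rw [norm_pos_iff]
      intro h0
      rw [hΦ] at h0
      have h1 := hb _ (eK.map_eq_zero_iff.1 h0)
      have h2 : v₀ = 0 := e.symm.map_eq_zero_iff.1 h1
      have h3 := hv₀.1
      rw [h2, norm_zero] at h3
      have : 0 < 1 / ‖c‖ := by positivity
      linarith
    refine ⟨‖l'‖ * (1 + ‖eK k‖ / ‖Φ v₀‖), fun x hx => ?_⟩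
    rw [hl']
    refine (l'.le_opNorm _).trans (mul_le_mul_of_nonneg_left ?_ (norm_nonneg _))
    by_cases hx0 : e x = 0
    · rw [hx0, norm_zero]
      positivity
    obtain ⟨δ, hδ, hδS⟩ := hresc _ hx0
    have h1 : ‖Φ v₀‖ ≤ ‖δ‖ ^ 2 * ‖eK k‖ := by
      have h2 := hmin hδS
      simp only [Set.mem_ofPred_eq] at h2
      refine h2.trans (le_of_eq ?_)
      rw [hΦ, map_smul, map_smul, LinearMap.map_smul, LinearMap.smul_apply]
      rw [LinearEquiv.symm_apply_apply, hx, map_smul, map_smul, norm_smul, norm_smul]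
      ring
    have hδp : 0 < ‖δ‖ := norm_pos_iff.2 hδ
    have h3 : ‖δ‖ * ‖e x‖ ≤ 1 := by
      rw [← norm_smul]
      exact hδS.2
    -- `‖e x‖ ≤ 1 + ‖e x‖ ^ 2`
    have h4 : ‖e x‖ ^ 2 * ‖Φ v₀‖ ≤ ‖eK k‖ := by
      calc ‖e x‖ ^ 2 * ‖Φ v₀‖ ≤ ‖e x‖ ^ 2 * (‖δ‖ ^ 2 * ‖eK k‖) :=
            mul_le_mul_of_nonneg_left h1 (by positivity)
        _ = (‖δ‖ * ‖e x‖) ^ 2 * ‖eK k‖ := by ring
        _ ≤ 1 * ‖eK k‖ := by
            refine mul_le_mul_of_nonneg_right ?_ (norm_nonneg _)
            exact pow_le_one₀ (by positivity) h3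
        _ = ‖eK k‖ := one_mul _
    have h5 : ‖e x‖ ^ 2 ≤ ‖eK k‖ / ‖Φ v₀‖ := by
      rw [le_div_iff₀ hm0]
      exact h4
    nlinarith [sq_nonneg (‖e x‖ - 1), norm_nonneg (e x)]
  · refine ⟨0, fun x _ => ?_⟩
    have hx0 : e x = 0 := by
      by_contra hx0
      obtain ⟨δ, _, hδS⟩ := hresc _ hx0
      exact hne ⟨_, hδS⟩
    rw [hl', hx0, map_zero, norm_zero]

/-- The orbit of `v` under `T` is bounded. -/
def BO {V : Type} [AddCommGroup V] [Module F V] (T : V →ₗ[F] V) (v : V) : Prop :=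
  ∀ l : V →ₗ[F] F, ∃ C : ℝ, ∀ k : ℕ, ‖l ((T ^ k) v)‖ ≤ C

variable [IsUltrametricDist F]

theorem BO.add {V : Type} [AddCommGroup V] [Module F V] {T : V →ₗ[F] V} {v w : V} (hv : BO T v)
    (hw : BO T w) : BO T (v + w) := by
  intro l
  obtain ⟨C, hC⟩ := hv l
  obtain ⟨C', hC'⟩ := hw l
  refine ⟨max C C', fun k => ?_⟩
  rw [map_add, map_add]
  exact (IsUltrametricDist.norm_add_le_max _ _).trans (max_le_max (hC k) (hC' k))

/-- Extension step. -/
theorem BO.ext {V Q : Type} [AddCommGroup V] [Module F V] [FiniteDimensional F V]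
    [AddCommGroup Q] [Module F Q] {T : V →ₗ[F] V} {W : Submodule F V} (hW : ∀ w ∈ W, BO T w)
    {C₀ : Q →ₗ[F] Q} {x : Q} (hC : BO C₀ x) {σ : Q →ₗ[F] V}
    (hσ : ∀ y, T (σ y) - σ (C₀ y) ∈ W) : BO T (σ x) := by
  classical
  intro l
  let β : Q →ₗ[F] W := (T ∘ₗ σ - σ ∘ₗ C₀).codRestrict W (fun y => hσ y)
  have hβ : ∀ y, T (σ y) = σ (C₀ y) + (β y : V) := by
    intro y
    simp [β]
  let w := Module.finBasis F W
  have hexp : ∀ y, (β y : V) = ∑ j, (w.repr (β y) j) • ((w j : W) : V) := by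
    intro y
    have := w.sum_repr (β y)
    have h1 := congrArg (Submodule.subtype W) this
    rw [map_sum] at h1
    exact h1.symm
  let lam : Fin (Module.finrank F W) → (Q →ₗ[F] F) := fun j => w.coord j ∘ₗ β
  obtain ⟨C1, hC1⟩ := hC (l ∘ₗ σ)
  choose Cj hCj using fun j => hC (lam j)
  choose Dj hDj using fun j => hW (w j : V) (w j).2 l
  have hCj0 : ∀ j, 0 ≤ Cj j := fun j => (norm_nonneg _).trans (hCj j 0)
  have hDj0 : ∀ j, 0 ≤ Dj j := fun j => (norm_nonneg _).trans (hDj j 0)
  have hC10 : 0 ≤ C1 := (norm_nonneg _).trans (hC1 0)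
  set M : ℝ := C1 + ∑ j, Cj j * Dj j with hM
  have hsum0 : 0 ≤ ∑ j, Cj j * Dj j :=
    Finset.sum_nonneg fun j _ => mul_nonneg (hCj0 j) (hDj0 j)
  have hM0 : 0 ≤ M := add_nonneg hC10 hsum0
  have hterm : ∀ i m : ℕ, ‖l ((T ^ m) (β ((C₀ ^ i) x) : V))‖ ≤ M := by
    intro i m
    rw [hexp, map_sum, map_sum]
    refine IsUltrametricDist.norm_sum_le_of_forall_le_of_nonneg hM0 fun j _ => ?_
    rw [map_smul, map_smul, norm_smul]
    have h1 : ‖w.repr (β ((C₀ ^ i) x)) j‖ ≤ Cj j := hCj j i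
    calc _ ≤ Cj j * Dj j := mul_le_mul h1 (hDj j m) (norm_nonneg _) (hCj0 j)
      _ ≤ ∑ j, Cj j * Dj j :=
        Finset.single_le_sum (f := fun j => Cj j * Dj j)
          (fun j _ => mul_nonneg (hCj0 j) (hDj0 j)) (Finset.mem_univ j)
      _ ≤ M := by linarith
  have hpow : ∀ k : ℕ, (T ^ k) (σ x) = σ ((C₀ ^ k) x) +
      ∑ i ∈ Finset.range k, (T ^ (k - 1 - i)) (β ((C₀ ^ i) x) : V) := by
    intro k
    induction k with
    | zero => simp
    | succ k ih =>
      rw [pow_succ', Module.End.mul_apply, ih, map_add, hβ, map_sum, Finset.sum_range_succ,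
        pow_succ', Module.End.mul_apply]
      have h1 : ∀ i ∈ Finset.range k, T ((T ^ (k - 1 - i)) (β ((C₀ ^ i) x) : V)) =
          (T ^ (k + 1 - 1 - i)) (β ((C₀ ^ i) x) : V) := by
        intro i hi
        rw [← Module.End.mul_apply, ← pow_succ']
        congr 2
        have := Finset.mem_range.1 hi
        omega
      rw [Finset.sum_congr rfl h1]
      have h2 : (T ^ (k + 1 - 1 - k)) (β ((C₀ ^ k) x) : V) = (β ((C₀ ^ k) x) : V) := by
        simp
      rw [h2]
      abel
  refine ⟨M, fun k => ?_⟩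
  rw [hpow, map_add, map_sum]
  refine (IsUltrametricDist.norm_add_le_max _ _).trans (max_le ?_ ?_)
  · exact (hC1 k).trans (by linarith)
  · exact IsUltrametricDist.norm_sum_le_of_forall_le_of_nonneg hM0 fun i _ => hterm _ _

end bdd

section div

variable {F : Type} [NontriviallyNormedField F] [IsUltrametricDist F] [ProperSpace F]
  {p : F[X]} {n : ℕ}

/-- `D_K`. -/
abbrev DK (d : F) (p : F[X]) : Type :=
  ℍ[AdjoinRoot p, algebraMap F (AdjoinRoot p) d, AdjoinRoot.root p]

/-- The norm form as a bilinear map. -/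
noncomputable def nmB (d : F) (p : F[X]) : DK d p →ₗ[F] DK d p →ₗ[F] AdjoinRoot p :=
  LinearMap.mk₂ F (fun x y => (x * star y).re)
    (fun x x' y => by rw [add_mul, re_add])
    (fun c x y => by rw [smul_mul_assoc, re_smul])
    (fun x y y' => by rw [star_add, mul_add, re_add])
    (fun c x y => by rw [QuaternionAlgebra.star_smul', mul_smul_comm, re_smul])

theorem nmB_self (d : F) (p : F[X]) (x : DK d p) : nmB d p x x = nm x := rfl

/-- `redD` as a linear map. -/
noncomputable def redL (hn : 0 < n) (d : F) (p : F[X]) : DD d p n →ₗ[F] DK d p where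
  toFun := redD hn d
  map_add' _ _ :=
    QuaternionAlgebra.ext (map_add _ _ _) (map_add _ _ _) (map_add _ _ _) (map_add _ _ _)
  map_smul' _ _ :=
    QuaternionAlgebra.ext (map_smul _ _ _) (map_smul _ _ _) (map_smul _ _ _) (map_smul _ _ _)

theorem redD_mul (hn : 0 < n) {d : F} (x y : DD d p n) :
    redD hn d (x * y) = redD hn d x * redD hn d y := by
  ext <;> simp only [redD, re_mul, imI_mul, imJ_mul, imK_mul, map_add, map_sub, map_mul,
    AlgHom.commutes, red_root, map_zero]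

theorem redD_star (hn : 0 < n) {d : F} (x : DD d p n) :
    redD hn d (star x) = star (redD hn d x) := by
  refine QuaternionAlgebra.ext ?_ (map_neg _ _) (map_neg _ _) (map_neg _ _)
  show red p hn (x.re + 0 * x.imI) = red p hn x.re + 0 * red p hn x.imI
  rw [map_add, map_mul, map_zero]

theorem redL_surjective (hn : 0 < n) (d : F) : Function.Surjective (redL hn d p) := by
  intro x
  obtain ⟨a, ha⟩ := red_surjective hn x.re
  obtain ⟨b, hb⟩ := red_surjective hn x.imI
  obtain ⟨c, hc⟩ := red_surjective hn x.imJ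
  obtain ⟨e, he⟩ := red_surjective hn x.imK
  exact ⟨⟨a, b, c, e⟩, QuaternionAlgebra.ext ha hb hc he⟩

theorem bo_DK (hp : Irreducible p) {d : F}
    (hK : ¬ ∃ z : AdjoinRoot p, z * z = algebraMap F (AdjoinRoot p) d)
    (ht : ∀ z₀ z₁ : AdjoinRoot p,
        AdjoinRoot.root p ≠ z₀ ^ 2 - algebraMap F (AdjoinRoot p) d * z₁ ^ 2)
    {u : DK d p} (hu : nm u = 1) (x : DK d p) : BO (LinearMap.mulRight F u) x := by
  have : Fact (Irreducible p) := ⟨hp⟩
  have : FiniteDimensional F (AdjoinRoot p) := (AdjoinRoot.powerBasis hp.ne_zero).finite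
  intro l
  obtain ⟨C, hC⟩ := bdd_of_aniso (nmB d p) (fun x hx => div_K hK ht hx) (nm x) l
  refine ⟨C, fun k => hC _ ?_⟩
  rw [nmB_self, LinearMap.pow_mulRight, LinearMap.mulRight_apply, nm_mul]
  have : nm (u ^ k) = 1 := by
    induction k with
    | zero => rw [pow_zero, nm_one]
    | succ k ih => rw [pow_succ, nm_mul, ih, hu, one_mul]
  rw [this, mul_one]

theorem bo_DD (hp : Irreducible p) (hn : 0 < n) {d : F}
    (hK : ¬ ∃ z : AdjoinRoot p, z * z = algebraMap F (AdjoinRoot p) d)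
    (ht : ∀ z₀ z₁ : AdjoinRoot p,
        AdjoinRoot.root p ≠ z₀ ^ 2 - algebraMap F (AdjoinRoot p) d * z₁ ^ 2)
    {u : DD d p n} (hu : u * star u = 1) (x : DD d p n) : BO (LinearMap.mulRight F u) x := by
  have := finite_RR (n := n) hp
  have hnu : nm (redD hn d u) = 1 := by
    rw [nm_redD]
    have : nm u = 1 := by
      have h1 := nm_mul u (star u)
      show (u * star u).re = 1
      rw [hu, re_one]
    rw [this, map_one]
  obtain ⟨lift, hlift⟩ := (redL hn d p).exists_rightInverse_of_surjective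
    (LinearMap.range_eq_top.2 (redL_surjective hn d))
  have hlift' : ∀ y, redD hn d (lift y) = y := fun y => LinearMap.congr_fun hlift y
  set π : RR p n := AdjoinRoot.mk (p ^ n) p with hπ
  let W : ℕ → Submodule F (DD d p n) := fun j =>
    { carrier := {v | ∃ a : DD d p n, π ^ j • a = v}
      add_mem' := by
        rintro _ _ ⟨a, rfl⟩ ⟨b, rfl⟩
        exact ⟨a + b, smul_add _ _ _⟩
      zero_mem' := ⟨0, smul_zero _⟩
      smul_mem' := by
        rintro c _ ⟨a, rfl⟩
        exact ⟨c • a, smul_comm _ _ _⟩ }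
  have key : ∀ i, i ≤ n → ∀ v ∈ W (n - i), BO (LinearMap.mulRight F u) v := by
    intro i
    induction i with
    | zero =>
      rintro _ _ ⟨a, rfl⟩ l
      refine ⟨0, fun k => ?_⟩
      rw [Nat.sub_zero, hπ, mk_pow_eq_zero, zero_smul, map_zero, map_zero, norm_zero]
    | succ i ih =>
      rintro hi _ ⟨a, rfl⟩
      have hj : n - i = n - (i + 1) + 1 := by omega
      set j := n - (i + 1) with hjdef
      rw [hj] at ih
      have ih := ih (by omega)
      obtain ⟨b, hb⟩ := redD_eq_zero hn (x := a - lift (redD hn d a)) (by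
        have h1 : redD hn d (a - lift (redD hn d a)) =
            redD hn d a - redD hn d (lift (redD hn d a)) := map_sub (redL hn d p) _ _
        rw [h1, hlift', sub_self])
      have hdec : π ^ j • a = π ^ j • lift (redD hn d a) + π ^ (j + 1) • b := by
        rw [pow_succ, ← smul_smul, hπ, ← hb, ← smul_add, add_sub_cancel]
      rw [hdec]
      refine BO.add ?_ (ih _ ⟨b, rfl⟩)
      let σ : DK d p →ₗ[F] DD d p n :=
        { toFun := fun y => π ^ j • lift y
          map_add' := fun y y' => by rw [map_add, smul_add]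
          map_smul' := fun c y => by rw [map_smul, smul_comm, RingHom.id_apply] }
      refine BO.ext (W := W (j + 1)) ih (bo_DK hp hK ht hnu (redD hn d a)) (σ := σ) ?_
      intro y
      have h2 : redD hn d (lift y * u - lift (y * redD hn d u)) = 0 := by
        have h1 : redD hn d (lift y * u - lift (y * redD hn d u)) =
            redD hn d (lift y * u) - redD hn d (lift (y * redD hn d u)) :=
          map_sub (redL hn d p) _ _
        rw [h1, redD_mul, hlift', hlift', sub_self]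
      obtain ⟨b', hb'⟩ := redD_eq_zero hn h2
      refine ⟨b', ?_⟩
      show π ^ (j + 1) • b' = (π ^ j • lift y) * u - π ^ j • lift (y * redD hn d u)
      rw [smul_mul_assoc, ← smul_sub, hb', smul_smul, ← pow_succ]
  have := key n le_rfl x
  rw [Nat.sub_self] at this
  exact this ⟨x, by rw [pow_zero, one_smul]⟩

/-- **Norm one elements of a division block have bounded powers.** -/
theorem powBdd_div (hp : Irreducible p) (hn : 0 < n) {d : F}
    (hK : ¬ ∃ z : AdjoinRoot p, z * z = algebraMap F (AdjoinRoot p) d)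
    (ht : ∀ z₀ z₁ : AdjoinRoot p,
        AdjoinRoot.root p ≠ z₀ ^ 2 - algebraMap F (AdjoinRoot p) d * z₁ ^ 2)
    {u : DD d p n} (hu : u * star u = 1) : PowBdd F u := by
  intro l
  have hu' : star u * star (star u) = 1 := by
    rw [star_star, star_mul_smul, ← mul_star_smul, hu]
  obtain ⟨C, hC⟩ := bo_DD hp hn hK ht hu 1 l
  obtain ⟨C', hC'⟩ := bo_DD hp hn hK ht hu' 1 l
  refine ⟨max C C', fun k => ⟨?_, ?_⟩⟩
  · have := hC k
    rw [LinearMap.pow_mulRight, LinearMap.mulRight_apply, one_mul] at this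
    exact this.trans (le_max_left _ _)
  · have := hC' k
    rw [LinearMap.pow_mulRight, LinearMap.mulRight_apply, one_mul] at this
    exact this.trans (le_max_right _ _)

end div

end SpW.Blk
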