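import Pool.Agent.Work.MP_3615d2_al.GgBase

/-!
MP_3615d2_al: functionals on `Sch X S` from pairings.
-/

open Set

namespace SpW

section pair

variable {X S : Type} [TopologicalSpace X] [AddCommGroup S] [Module ℂ S]

/-- A locally constant function with compact support has finite range. -/
private theorem Sch.finite_range (f : Sch X S) : (Set.range (f : X → S)).Finite := by
  obtain ⟨K, hK, hf⟩ := f.2.2
  let _ : TopologicalSpace S := ⊥
  have : DiscreteTopology S := ⟨rfl⟩
  have h1 : ((f : X → S) '' K).Finite := (hK.image f.2.1.continuous).finite_of_discrete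
  refine (h1.union (finite_singleton (0 : S))).subset ?_
  rintro _ ⟨x, rfl⟩
  by_cases hx : x ∈ K
  · exact Or.inl ⟨x, hx, rfl⟩
  · exact Or.inr (hf x hx)

/-- Composition with a linear map of the values. -/
noncomputable def Sch.mapV {S' : Type} [AddCommGroup S'] [Module ℂ S'] (l : S →ₗ[ℂ] S') :
    Sch X S →ₗ[ℂ] Sch X S' where
  toFun f := ⟨fun x => l ((f : X → S) x), f.2.1.comp l, by
    obtain ⟨K, hK, hf⟩ := f.2.2
    exact ⟨K, hK, fun x hx => by
      show l ((f : X → S) x) = 0
      rw [hf x hx, map_zero]⟩⟩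
  map_add' f g := Sch.ext' fun x => map_add l _ _
  map_smul' c f := Sch.ext' fun x => map_smul l _ _

theorem Sch.mapV_apply {S' : Type} [AddCommGroup S'] [Module ℂ S'] (l : S →ₗ[ℂ] S') (f : Sch X S)
    (x : X) : (Sch.mapV l f : X → S') x = l ((f : X → S) x) := rfl

/-- `f ⊗ s`. -/
noncomputable def Sch.tmul (f : Sch X ℂ) (s : S) : Sch X S :=
  Sch.mapV ((LinearMap.id (R := ℂ) (M := ℂ)).smulRight s) f

theorem Sch.tmul_apply (f : Sch X ℂ) (s : S) (x : X) :
    (Sch.tmul f s : X → S) x = (f : X → ℂ) x • s := rfl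

/-- Every element of `Sch X S` is a finite sum of pure tensors. -/
theorem Sch.exists_sum {ι : Type} (b : Module.Basis ι ℂ S) (f : Sch X S) :
    {i | Sch.mapV (b.coord i) f ≠ 0}.Finite ∧ ∀ s : Finset ι,
      (∀ i, Sch.mapV (b.coord i) f ≠ 0 → i ∈ s) →
        f = ∑ i ∈ s, Sch.tmul (Sch.mapV (b.coord i) f) (b i) := by
  classical
  have hfin : {i | Sch.mapV (b.coord i) f ≠ 0}.Finite := by
    refine (Set.Finite.biUnion (Sch.finite_range f) (t := fun v => ((b.repr v).support : Set ι))
      (fun v _ => Finset.finite_toSet _)).subset ?_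
    intro i hi
    rw [mem_setOf_eq] at hi
    by_contra hn
    apply hi
    apply Sch.ext'
    intro x
    rw [Sch.mapV_apply]
    by_contra hx
    apply hn
    rw [mem_iUnion₂]
    refine ⟨(f : X → S) x, mem_range_self x, ?_⟩
    rw [Finset.mem_coe, Finsupp.mem_support_iff]
    exact hx
  refine ⟨hfin, fun s hs => ?_⟩
  apply Sch.ext'
  intro x
  have h1 : ((∑ i ∈ s, Sch.tmul (Sch.mapV (b.coord i) f) (b i) : Sch X S) : X → S) x =
      ∑ i ∈ s, (b.repr ((f : X → S) x) i) • b i := by
    rw [Submodule.coe_sum, Finset.sum_apply]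
    rfl
  rw [h1]
  conv_lhs => rw [← b.linearCombination_repr ((f : X → S) x), Finsupp.linearCombination_apply,
    Finsupp.sum]
  refine Finset.sum_subset ?_ ?_
  · intro i hi
    apply hs
    intro h0
    rw [Finsupp.mem_support_iff] at hi
    apply hi
    have := congrArg (fun g : Sch X ℂ => (g : X → ℂ) x) h0
    exact this
  · intro i _ hi
    rw [Finsupp.notMem_support_iff] at hi
    rw [hi, zero_smul]

/-- The functional on `Sch X S` with `L (f ⊗ s) = A f s`. -/
theorem exists_functional_of_pairing (A : Sch X ℂ →ₗ[ℂ] S →ₗ[ℂ] ℂ) :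
    ∃ L : Sch X S →ₗ[ℂ] ℂ, ∀ f s, L (Sch.tmul f s) = A f s := by
  classical
  let b := Module.Basis.ofVectorSpace ℂ S
  let Φ : Sch X S →ₗ[ℂ] (_ →₀ Sch X ℂ) :=
    { toFun := fun f => Finsupp.ofSupportFinite (fun i => Sch.mapV (b.coord i) f)
        (Sch.exists_sum b f).1
      map_add' := fun f g => by
        ext1 i
        simp [Finsupp.ofSupportFinite_coe]
      map_smul' := fun c f => by
        ext1 i
        simp [Finsupp.ofSupportFinite_coe] }
  have hΦ : ∀ f i, Φ f i = Sch.mapV (b.coord i) f := fun f i => rfl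
  refine ⟨(Finsupp.lsum ℂ fun i => A.flip (b i)).comp Φ, fun f s => ?_⟩
  have h1 : ∀ i, Φ (Sch.tmul f s) i = (b.repr s i) • f := by
    intro i
    rw [hΦ]
    apply Sch.ext'
    intro x
    rw [Sch.mapV_apply, Sch.tmul_apply, map_smul]
    show (f : X → ℂ) x * b.repr s i = b.repr s i * (f : X → ℂ) x
    ring
  have h2 : (Φ (Sch.tmul f s)).support ⊆ (b.repr s).support := by
    intro i hi
    rw [Finsupp.mem_support_iff] at hi ⊢
    intro h0
    apply hi
    rw [h1, h0, zero_smul]
  rw [LinearMap.comp_apply, Finsupp.lsum_apply, Finsupp.sum,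
    Finset.sum_subset h2 (fun i _ hi => by
      rw [Finsupp.notMem_support_iff] at hi
      rw [hi, map_zero])]
  have h3 : A f s = ∑ i ∈ (b.repr s).support, A f (b.repr s i • b i) := by
    conv_lhs => rw [← b.linearCombination_repr s, Finsupp.linearCombination_apply, Finsupp.sum,
      map_sum]
  rw [h3]
  refine Finset.sum_congr rfl fun i _ => ?_
  rw [h1]
  simp

/-- Invariance may be checked on pure tensors. -/
theorem functional_ext {L L' : Sch X S →ₗ[ℂ] ℂ}
    (h : ∀ (f : Sch X ℂ) (s : S), L (Sch.tmul f s) = L' (Sch.tmul f s)) : L = L' := by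
  classical
  let b := Module.Basis.ofVectorSpace ℂ S
  ext f
  obtain ⟨hfin, hsum⟩ := Sch.exists_sum b f
  rw [hsum hfin.toFinset (fun i hi => by rw [Set.Finite.mem_toFinset]; exact hi), map_sum, map_sum]
  exact Finset.sum_congr rfl fun i _ => h _ _

end pair

end SpW
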