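import Pool.Agent.Work.MP_3615d2_al.DivRed
import Pool.Agent.Work.MP_3615d2_al.Blk

/-!
# Split block: no invariant functional (note 6449, section 4)

`t = N(b)`, `b = b₀ + b₁ i`; with `g = b⁻¹ j`, `g ^ 2 = 1`, `e = (1 + g) / 2` one has
`D = E e ⊕ E ē`, and `a = X(a) e + Y(a) ē`.
-/

set_option linter.unusedSectionVars false

open scoped Quaternion
open QuaternionAlgebra

namespace SpW.Blk

section coord

variable {F R : Type} [Field F] [CommRing R] [Algebra F R] {d t : R} {s : R →ₗ[F] F} {π : R}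
  {n : ℕ}

/-- The component `X`. -/
def XX (b₀ b₁ : R) (a : ℍ[R, d, t]) : R × R :=
  (a.re + (a.imJ * b₀ + d * a.imK * b₁), a.imI + (a.imJ * b₁ + a.imK * b₀))

theorem XX_add (b₀ b₁ : R) (a a' : ℍ[R, d, t]) : XX b₀ b₁ (a + a') = XX b₀ b₁ a + XX b₀ b₁ a' := by
  ext <;> simp [XX] <;> ring

theorem XX_smul (b₀ b₁ : R) (r : R) (a : ℍ[R, d, t]) : XX b₀ b₁ (r • a) = r • XX b₀ b₁ a := by
  ext <;> simp [XX] <;> ring

theorem XX_zero (b₀ b₁ : R) : XX b₀ b₁ (0 : ℍ[R, d, t]) = 0 := by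
  ext <;> simp [XX]

theorem XX_smulF (b₀ b₁ : R) (r : F) (a : ℍ[R, d, t]) : XX b₀ b₁ (r • a) = r • XX b₀ b₁ a := by
  rw [← algebraMap_smul R r a, XX_smul, algebraMap_smul]

/-- The form in the coordinates `X`, `Y`. -/
theorem frm_XX {b₀ b₁ : R} (hb : t = b₀ ^ 2 - d * b₁ ^ 2) (a a' : ℍ[R, d, t]) :
    frm s a a' = s (d * ((XX b₀ b₁ a).2 * (XX (-b₀) (-b₁) a').1 - (XX b₀ b₁ a).1 *
      (XX (-b₀) (-b₁) a').2 + (XX (-b₀) (-b₁) a).2 * (XX b₀ b₁ a').1 -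
      (XX (-b₀) (-b₁) a).1 * (XX b₀ b₁ a').2)) := by
  subst hb
  rw [frm_apply]
  congr 1
  simp only [XX]
  ring

/-- The nilpotent element `w = t i (1 - g)`. -/
def ww (d t b₀ b₁ : R) : ℍ[R, d, t] := ⟨0, t, d * b₁, -b₀⟩

theorem ww_sq {b₀ b₁ : R} (hb : t = b₀ ^ 2 - d * b₁ ^ 2) :
    ww d t b₀ b₁ * ww d t b₀ b₁ = 0 := by
  subst hb
  ext <;> simp [ww] <;> ring

theorem star_ww (b₀ b₁ : R) : star (ww d t b₀ b₁) = - ww d t b₀ b₁ := by
  ext <;> simp [ww]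

theorem XX_mul_ww {b₀ b₁ : R} (hb : t = b₀ ^ 2 - d * b₁ ^ 2) (a : ℍ[R, d, t]) :
    XX b₀ b₁ (a * ww d t b₀ b₁) = 0 := by
  subst hb
  ext <;> simp only [ww, XX, re_mul, imI_mul, imJ_mul, imK_mul, Prod.fst_zero, Prod.snd_zero] <;>
    ring

theorem YY_mul_ww {b₀ b₁ : R} (hb : t = b₀ ^ 2 - d * b₁ ^ 2) (a : ℍ[R, d, t]) :
    XX (-b₀) (-b₁) (a * ww d t b₀ b₁) =
      (2 * t * d * (XX b₀ b₁ a).2, 2 * t * (XX b₀ b₁ a).1) := by
  subst hb
  ext <;> simp only [ww, XX, re_mul, imI_mul, imJ_mul, imK_mul] <;> ring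

/-- The value of the form. -/
theorem frm_mul_ww {b₀ b₁ : R} (hb : t = b₀ ^ 2 - d * b₁ ^ 2) (a : ℍ[R, d, t]) :
    frm s (a * ww d t b₀ b₁) a =
      s (2 * t * d * ((XX b₀ b₁ a).1 ^ 2 - d * (XX b₀ b₁ a).2 ^ 2)) := by
  rw [frm_XX hb, XX_mul_ww hb, YY_mul_ww hb]
  congr 1
  simp only [Prod.fst_zero, Prod.snd_zero]
  ring

/-- The element `τ` of the torus, `τ = ω + κ (b₀ j - b₁ k)`. -/
def tt (d t b₀ b₁ ω κ : R) : ℍ[R, d, t] := ⟨ω, 0, κ * b₀, -(κ * b₁)⟩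

theorem XX_mul_tt {b₀ b₁ : R} (hb : t = b₀ ^ 2 - d * b₁ ^ 2) (ω κ : R) (a : ℍ[R, d, t]) :
    XX b₀ b₁ (a * tt d t b₀ b₁ ω κ) = (ω + κ * t) • XX b₀ b₁ a := by
  subst hb
  ext <;> simp only [tt, XX, re_mul, imI_mul, imJ_mul, imK_mul, Prod.smul_fst, Prod.smul_snd,
    smul_eq_mul] <;> ring

theorem star_tt (b₀ b₁ ω κ : R) : star (tt d t b₀ b₁ ω κ) = tt d t b₀ b₁ ω (-κ) := by
  ext <;> simp [tt]

theorem tt_mul {b₀ b₁ : R} (hb : t = b₀ ^ 2 - d * b₁ ^ 2) (ω κ ω' κ' : R) :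
    tt d t b₀ b₁ ω κ * tt d t b₀ b₁ ω' κ' =
      tt d t b₀ b₁ (ω * ω' + κ * κ' * t ^ 2) (ω * κ' + κ * ω') := by
  subst hb
  ext <;> simp only [tt, re_mul, imI_mul, imJ_mul, imK_mul] <;> ring

theorem tt_one (b₀ b₁ : R) : tt d t b₀ b₁ 1 0 = 1 := by
  ext <;> simp [tt]

theorem nm_tt {b₀ b₁ : R} (hb : t = b₀ ^ 2 - d * b₁ ^ 2) (ω κ : R) :
    nm (tt d t b₀ b₁ ω κ) = ω ^ 2 - (κ * t) ^ 2 := by
  subst hb
  rw [nm_apply]
  simp only [tt]
  ring

/-- Surjectivity of the coordinates. -/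
theorem exists_XX {b₀ b₁ : R} (hb : t = b₀ ^ 2 - d * b₁ ^ 2) (h2 : IsUnit (2 : R))
    (ht : IsUnit t) (x y : R × R) :
    ∃ a : ℍ[R, d, t], XX b₀ b₁ a = x ∧ XX (-b₀) (-b₁) a = y := by
  obtain ⟨τ, hτ⟩ := h2
  obtain ⟨θ, hθ⟩ := ht
  have e1 : ((τ⁻¹ : Rˣ) : R) * 2 = 1 := by rw [← hτ]; simp
  have e2 : ((θ⁻¹ : Rˣ) : R) * t = 1 := by rw [← hθ]; simp
  set h := ((τ⁻¹ : Rˣ) : R)
  set ti := ((θ⁻¹ : Rˣ) : R)
  refine ⟨⟨h * (x.1 + y.1), h * (x.2 + y.2),
    ti * h * (b₀ * (x.1 - y.1) - d * b₁ * (x.2 - y.2)),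
    ti * h * (b₀ * (x.2 - y.2) - b₁ * (x.1 - y.1))⟩, ?_, ?_⟩
  · rw [hb] at e2
    ext
    · simp only [XX]
      linear_combination h * (x.1 - y.1) * e2 + x.1 * e1
    · simp only [XX]
      linear_combination h * (x.2 - y.2) * e2 + x.2 * e1
  · rw [hb] at e2
    ext
    · simp only [XX]
      linear_combination - h * (x.1 - y.1) * e2 + y.1 * e1
    · simp only [XX]
      linear_combination - h * (x.2 - y.2) * e2 + y.2 * e1

end coord

section main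

variable {F R V S : Type} [Field F] [CommRing R] [Algebra F R] [AddCommGroup V] [Module F V]
  [AddCommGroup S] [Module ℂ S] {d t : R} {s : R →ₗ[F] F} {π : R} {n : ℕ}

/-- The submodule `ι (D ē)`. -/
noncomputable def half (ι : ℍ[R, d, t] →ₗ[F] V) (b₀ b₁ : R) : Submodule F V where
  carrier := {v | ∃ a, XX b₀ b₁ a = 0 ∧ ι a = v}
  add_mem' := by
    rintro _ _ ⟨a, ha, rfl⟩ ⟨b, hb, rfl⟩
    exact ⟨a + b, by rw [XX_add, ha, hb, add_zero], map_add _ _ _⟩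
  zero_mem' := ⟨0, XX_zero _ _, map_zero _⟩
  smul_mem' := by
    rintro c _ ⟨a, ha, rfl⟩
    exact ⟨c • a, by rw [XX_smulF, ha, smul_zero], map_smul _ _ _⟩

/-- The functional is invariant under `ρ (ι (π ^ l D ē))`. -/
theorem Chain.split_half [FiniteDimensional F R] (h : Chain F R s π n) (hF2 : (2 : F) ≠ 0)
    (h2 : IsUnit (2 : R)) (hd : IsUnit d) (ht : IsUnit t)
    (hE : ∀ x : R × R, ¬ IsUnit (x.1 ^ 2 - d * x.2 ^ 2) → ∃ y : R × R, x = π • y)
    {b₀ b₁ : R} (hb : t = b₀ ^ 2 - d * b₁ ^ 2)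
    {B : V →ₗ[F] V →ₗ[F] F} (halt : ∀ w w', B w w' = - B w' w) {ψ : AddChar F Circle}
    (hψ : ψ ≠ 1) {ρ : V → Module.End ℂ S} (hρ0 : ρ 0 = 1) {μ' : S →ₗ[ℂ] ℂ}
    {UU : Set ((V ≃ₗ[F] V) × (S ≃ₗ[ℂ] S))} (hLV : LV B ψ ρ μ' UU) {ι : ℍ[R, d, t] →ₗ[F] V}
    (hι : ∀ x y, B (ι x) (ι y) = frm s x y)
    (hU1 : ∀ r : R, ∃ p ∈ UU, IsAct B ι (1 + r • ww d t b₀ b₁) p.1)
    {α ω κ : R} {α₀ : F} (hα : α = algebraMap F R α₀) (hα1 : α₀ ^ 2 ≠ 1)
    (hα2 : α = ω + κ * t) (hα3 : (ω + κ * t) * (ω - κ * t) = 1)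
    (hU2 : ∃ p ∈ UU, IsAct B ι (tt d t b₀ b₁ ω κ) p.1) {l : ℕ} (hn : n = 2 * l + 1) :
    ∀ a : ℍ[R, d, t], XX b₀ b₁ a = 0 → ∀ v, μ' (ρ (ι (π ^ l • a)) v) = μ' v := by
  intro a₀ ha₀ v₀
  let Z : Submodule F V :=
    { carrier := {w | ∀ a, XX b₀ b₁ a = 0 → B w (ι (π ^ l • a)) = 0}
      add_mem' := by
        intro w w' hw hw' y hy
        rw [map_add, LinearMap.add_apply, hw y hy, hw' y hy, add_zero]
      zero_mem' := by
        intro y _
        simp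
      smul_mem' := by
        intro c w hw y hy
        rw [map_smul, LinearMap.smul_apply, hw y hy, smul_zero] }
  have hXpow : ∀ (k : ℕ) (a : ℍ[R, d, t]), XX b₀ b₁ a = 0 → XX b₀ b₁ (π ^ k • a) = 0 := by
    intro k a ha
    rw [XX_smul, ha, smul_zero]
  refine hLV ⊥ (half ι b₀ b₁) Z bot_le ?_ ?_ ?_ ?_ _ ⟨π ^ l • a₀, hXpow _ _ ha₀, rfl⟩ ?_ v₀
  · rintro _ ⟨a, ha, rfl⟩ _ ⟨b, hb', rfl⟩
    rw [hι, frm_XX hb, ha, hb']
    simp
  · intro w hw a ha
    exact hw _ ⟨π ^ l • a, hXpow _ _ ha, rfl⟩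
  · rintro y hy v
    rw [Submodule.mem_bot] at hy
    rw [hy, hρ0, Module.End.one_apply]
  · intro ξ _ hξ2
    obtain ⟨a, ha⟩ := exists_dec h h2 hd ht hι ξ
    have hBa : ∀ b, B ξ (ι b) = frm s a b := by
      intro b
      have := ha b
      rw [map_sub, sub_eq_zero, hι] at this
      rw [halt, this, frm_neg_symm, neg_neg]
    have hX : π ^ l • XX b₀ b₁ a ≠ 0 := by
      intro h0
      apply hξ2
      intro b hb'
      rw [hBa, frm_XX hb]
      simp only [XX_smul, hb', smul_zero]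
      have e1 : π ^ l * (XX b₀ b₁ a).1 = 0 := congrArg Prod.fst h0
      have e2 : π ^ l * (XX b₀ b₁ a).2 = 0 := congrArg Prod.snd h0
      rw [← map_zero s]
      congr 1
      simp only [Prod.smul_fst, Prod.smul_snd, smul_eq_mul, Prod.fst_zero, Prod.snd_zero]
      linear_combination d * (XX (-b₀) (-b₁) b).1 * e2 - d * (XX (-b₀) (-b₁) b).2 * e1
    have hX0 : XX b₀ b₁ a ≠ 0 := by
      intro h0
      rw [h0, smul_zero] at hX
      exact hX rfl
    obtain ⟨m, x, hmx, hxnd⟩ := h.exists_pow_smul hX0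
    have hm : m + l < n := by
      by_contra hc
      push Not at hc
      apply hX
      rw [hmx, smul_smul, ← pow_add, add_comm, h.pow_eq_zero.2 hc, zero_smul]
    have hNu : IsUnit (x.1 ^ 2 - d * x.2 ^ 2) := by
      by_contra hc
      obtain ⟨y, hy⟩ := hE x hc
      exact hxnd y hy
    have hN : (XX b₀ b₁ a).1 ^ 2 - d * (XX b₀ b₁ a).2 ^ 2 = π ^ (2 * m) *
        (x.1 ^ 2 - d * x.2 ^ 2) := by
      rw [hmx]
      simp only [Prod.smul_fst, Prod.smul_snd, smul_eq_mul]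
      ring
    have hA : 2 * t * d * ((XX b₀ b₁ a).1 ^ 2 - d * (XX b₀ b₁ a).2 ^ 2) ≠ 0 := by
      intro h0
      rw [hN, show 2 * t * d * (π ^ (2 * m) * (x.1 ^ 2 - d * x.2 ^ 2)) =
        π ^ (2 * m) * ((2 * t * d) * (x.1 ^ 2 - d * x.2 ^ 2)) by ring] at h0
      exact h.unit_smul_ne (((h2.mul ht).mul hd).mul hNu) (by omega) h0
    obtain ⟨r₀, hr₀⟩ := h.exists_s_ne hA
    obtain ⟨x₀, hx₀⟩ : ∃ x₀, ψ x₀ ≠ 1 := by
      by_contra hcc
      push Not at hcc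
      exact hψ (by ext x; simp [hcc x])
    set D := s (2 * t * d * ((XX b₀ b₁ a).1 ^ 2 - d * (XX b₀ b₁ a).2 ^ 2) * r₀) with hD
    let f : F := 2 * x₀ / ((α₀ ^ 2 - 1) * D)
    have hα1' : α₀ ^ 2 - 1 ≠ 0 := sub_ne_zero.2 hα1
    let r : R := algebraMap F R f * r₀
    obtain ⟨p, hp, hpa⟩ := hU1 r
    obtain ⟨q, hq, hqa⟩ := hU2
    have hαu : (ω - κ * t) * (ω + κ * t) = 1 := by rw [mul_comm]; exact hα3
    have hpd : ∀ {w : V} {c : ℍ[R, d, t]}, (∀ b, B (ι b) (w - ι c) = 0) →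
        p.1 w - w = ι (r • (c * ww d t b₀ b₁)) := by
      intro w c hc
      rw [act_sub hpa hc, add_sub_cancel_left, mul_smul_comm]
    refine ⟨p, hp, q, hq, ?_, ?_, ?_, ?_, ?_, ?_⟩
    · intro y hy
      rw [Submodule.mem_bot] at hy ⊢
      rw [hy, map_zero]
    · intro w _
      obtain ⟨c, hc⟩ := exists_dec h h2 hd ht hι w
      rw [hpd hc]
      exact ⟨_, by rw [XX_smul, XX_mul_ww hb, smul_zero], rfl⟩
    · intro w hw
      obtain ⟨c, hc⟩ := exists_dec h h2 hd ht hι w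
      rw [hpd hc, Submodule.mem_bot]
      have hBc : ∀ b, B w (ι b) = frm s c b := by
        intro b
        have := hc b
        rw [map_sub, sub_eq_zero, hι] at this
        rw [halt, this, frm_neg_symm, neg_neg]
      have hXc : XX b₀ b₁ c = 0 := by
        have k1 : d * (XX b₀ b₁ c).2 = 0 := h.nondeg _ fun b => by
          obtain ⟨a', ha'1, ha'2⟩ := exists_XX hb h2 ht (0 : R × R) (b, 0)
          have := hw _ ⟨a', ha'1, rfl⟩
          rw [hBc, frm_XX hb, ha'1, ha'2] at this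
          rw [← this]
          congr 1
          simp only [Prod.fst_zero, Prod.snd_zero]
          ring
        have k2 : d * (XX b₀ b₁ c).1 = 0 := h.nondeg _ fun b => by
          obtain ⟨a', ha'1, ha'2⟩ := exists_XX hb h2 ht (0 : R × R) (0, -b)
          have := hw _ ⟨a', ha'1, rfl⟩
          rw [hBc, frm_XX hb, ha'1, ha'2] at this
          rw [← this]
          congr 1
          simp only [Prod.fst_zero, Prod.snd_zero]
          ring
        ext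
        · exact (hd.mul_right_eq_zero).1 k2
        · exact (hd.mul_right_eq_zero).1 k1
      have h0 : c * ww d t b₀ b₁ = 0 := by
        refine h.frm_nondeg h2 hd ht fun y => ?_
        rw [frm_XX hb, XX_mul_ww hb, YY_mul_ww hb, hXc]
        simp
      rw [h0, smul_zero, map_zero]
    · apply le_antisymm
      · rintro _ ⟨_, ⟨c, hc, rfl⟩, rfl⟩
        exact ⟨c * tt d t b₀ b₁ ω κ, by rw [XX_mul_tt hb, hc, smul_zero],
          by rw [LinearEquiv.coe_coe, hqa.1]⟩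
      · rintro _ ⟨c, hc, rfl⟩
        refine ⟨_, ⟨c * tt d t b₀ b₁ ω (-κ), by rw [XX_mul_tt hb, hc, smul_zero], rfl⟩, ?_⟩
        rw [LinearEquiv.coe_coe, hqa.1, mul_assoc, tt_mul hb]
        have e1 : ω * ω + -κ * κ * t ^ 2 = 1 := by linear_combination hα3
        have e2 : ω * κ + -κ * ω = 0 := by ring
        rw [e1, e2, tt_one, mul_one]
    · rw [Submodule.map_bot]
    · have hval : ∀ {w : V} {c : ℍ[R, d, t]}, (∀ b, B (ι b) (w - ι c) = 0) →
          B (p.1 w - w) w =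
            s (2 * t * d * ((XX b₀ b₁ c).1 ^ 2 - d * (XX b₀ b₁ c).2 ^ 2) * r) := by
        intro w c hc
        rw [hpd hc]
        have h1 : B (ι (r • (c * ww d t b₀ b₁))) w = B (ι (r • (c * ww d t b₀ b₁))) (ι c) := by
          have := hc (r • (c * ww d t b₀ b₁))
          rw [map_sub, sub_eq_zero] at this
          exact this
        rw [h1, hι, frm_XX hb]
        simp only [XX_smul, XX_mul_ww hb, YY_mul_ww hb]
        congr 1
        simp only [Prod.smul_fst, Prod.smul_snd, smul_eq_mul, Prod.fst_zero, Prod.snd_zero]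
        ring
      have ea : B (p.1 ξ - ξ) ξ = f * D := by
        rw [hval ha, hD, ← smul_eq_mul f, ← map_smul]
        congr 1
        rw [Algebra.smul_def]
        simp only [r]
        ring
      have eb : B (p.1 (q.1 ξ) - q.1 ξ) (q.1 ξ) = α₀ ^ 2 * (f * D) := by
        rw [hval (act_dec hqa ha), hD, ← smul_eq_mul f, ← map_smul, ← smul_eq_mul (α₀ ^ 2),
          ← map_smul, XX_mul_tt hb, ← hα2, hα]
        congr 1
        simp only [r, Prod.smul_fst, Prod.smul_snd, smul_eq_mul]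
        rw [Algebra.smul_def, Algebra.smul_def, map_pow]
        ring
      rw [ea, eb]
      intro heq
      apply hx₀
      have e8 : x₀ = α₀ ^ 2 * (f * D) / 2 - f * D / 2 := by
        have e10 : D ≠ 0 := hr₀
        simp only [f]
        field_simp
      rw [e8, AddChar.map_sub_eq_div, heq, div_self']
  · intro z hz _
    rw [halt, hz _ ha₀, neg_zero]

end main

section kill

variable {F R V S : Type} [NontriviallyNormedField F] [IsUltrametricDist F] [CommRing R]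
  [Algebra F R] [AddCommGroup V] [Module F V]
  [AddCommGroup S] [Module ℂ S] {d t : R} {s : R →ₗ[F] F} {π : R} {n : ℕ}

theorem norm_natCast_le (k : ℕ) : ‖(k : F)‖ ≤ 1 := by
  induction k with
  | zero => simp
  | succ k ih =>
    rw [Nat.cast_succ]
    exact (IsUltrametricDist.norm_add_le_max _ _).trans (max_le ih (by simp))

theorem powBdd_ww {b₀ b₁ : R} (hb : t = b₀ ^ 2 - d * b₁ ^ 2) (r : R) :
    PowBdd F (1 + r • ww d t b₀ b₁) := by
  have hpow : ∀ (r : R) (k : ℕ), (1 + r • ww d t b₀ b₁) ^ k = 1 + ((k : F)) • (r • ww d t b₀ b₁) := by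
    intro r k
    induction k with
    | zero => simp
    | succ k ih =>
      rw [pow_succ, ih, Nat.cast_succ, add_smul, one_smul, mul_add, mul_one, add_mul, one_mul]
      simp only [smul_mul_assoc, mul_smul_comm, ww_sq hb, smul_zero, add_zero]
      abel
  intro l
  refine ⟨max ‖l 1‖ ‖l (r • ww d t b₀ b₁)‖, fun k => ⟨?_, ?_⟩⟩
  · rw [hpow, map_add, map_smul, smul_eq_mul]
    refine (IsUltrametricDist.norm_add_le_max _ _).trans (max_le_max le_rfl ?_)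
    rw [norm_mul]
    exact mul_le_of_le_one_left (norm_nonneg _) (norm_natCast_le k)
  · have hst : star (1 + r • ww d t b₀ b₁) = 1 + (-r) • ww d t b₀ b₁ := by
      rw [star_add, star_one, QuaternionAlgebra.star_smul, star_ww, smul_neg, neg_smul]
    rw [hst, hpow, map_add, map_smul, smul_eq_mul]
    refine (IsUltrametricDist.norm_add_le_max _ _).trans (max_le_max le_rfl ?_)
    rw [norm_mul, neg_smul, map_neg, norm_neg]
    exact mul_le_of_le_one_left (norm_nonneg _) (norm_natCast_le k)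

theorem ww_mul_star {b₀ b₁ : R} (hb : t = b₀ ^ 2 - d * b₁ ^ 2) (r : R) :
    (1 + r • ww d t b₀ b₁) * star (1 + r • ww d t b₀ b₁) = 1 := by
  rw [star_add, star_one, QuaternionAlgebra.star_smul, star_ww, smul_neg, mul_add, mul_one, add_mul,
    one_mul, mul_neg]
  simp only [smul_mul_assoc, mul_smul_comm, ww_sq hb, smul_zero]
  simp

/-- Powers of the element of the torus. -/
theorem tt_pow {b₀ b₁ : R} (hb : t = b₀ ^ 2 - d * b₁ ^ 2) {h ti : R} (e1 : h * 2 = 1)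
    (e2 : ti * t = 1) (x y : R) (k : ℕ) :
    (tt d t b₀ b₁ (h * (x + y)) (ti * h * (x - y))) ^ k =
      tt d t b₀ b₁ (h * (x ^ k + y ^ k)) (ti * h * (x ^ k - y ^ k)) := by
  induction k with
  | zero =>
    rw [pow_zero, pow_zero, pow_zero, sub_self, mul_zero, one_add_one_eq_two, e1, tt_one]
  | succ k ih =>
    rw [pow_succ, ih, tt_mul hb]
    have h4 : h * h * 4 = 1 := by linear_combination (h * 2 + 1) * e1
    have h5 : h * h * 2 = h := by linear_combination h * e1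
    congr 1
    · linear_combination h * h * (x ^ k - y ^ k) * (x - y) * (ti * t + 1) * e2 +
        (x * x ^ k + y * y ^ k) * h5
    · linear_combination ti * (x * x ^ k - y * y ^ k) * h5

theorem powBdd_tt {b₀ b₁ : R} (hb : t = b₀ ^ 2 - d * b₁ ^ 2) {h ti : R} (e1 : h * 2 = 1)
    (e2 : ti * t = 1) {α β : F} (hα : ‖α‖ = 1) (hβ : ‖β‖ = 1) :
    PowBdd F (tt d t b₀ b₁ (h * (algebraMap F R α + algebraMap F R β))
      (ti * h * (algebraMap F R α - algebraMap F R β))) := by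
  have hlin : ∀ (x y : F), tt d t b₀ b₁ (h * (algebraMap F R x + algebraMap F R y))
      (ti * h * (algebraMap F R x - algebraMap F R y)) =
      x • tt d t b₀ b₁ h (ti * h) + y • tt d t b₀ b₁ h (-(ti * h)) := by
    intro x y
    ext <;> simp only [tt, re_add, imI_add, imJ_add, imK_add, re_smul, imI_smul, imJ_smul,
      imK_smul] <;> simp only [Algebra.smul_def] <;> ring
  have hst : ∀ x y : F, star (tt d t b₀ b₁ (h * (algebraMap F R x + algebraMap F R y))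
      (ti * h * (algebraMap F R x - algebraMap F R y))) =
      tt d t b₀ b₁ (h * (algebraMap F R y + algebraMap F R x))
      (ti * h * (algebraMap F R y - algebraMap F R x)) := by
    intro x y
    rw [star_tt]
    congr 1 <;> ring
  intro l
  refine ⟨max ‖l (tt d t b₀ b₁ h (ti * h))‖ ‖l (tt d t b₀ b₁ h (-(ti * h)))‖, fun k => ⟨?_, ?_⟩⟩
  · rw [tt_pow hb e1 e2, ← map_pow, ← map_pow, hlin, map_add, map_smul, map_smul]
    refine (IsUltrametricDist.norm_add_le_max _ _).trans (max_le_max ?_ ?_)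
    · rw [norm_smul, norm_pow, hα, one_pow, one_mul]
    · rw [norm_smul, norm_pow, hβ, one_pow, one_mul]
  · rw [hst, tt_pow hb e1 e2, ← map_pow, ← map_pow, hlin, map_add, map_smul, map_smul]
    refine (IsUltrametricDist.norm_add_le_max _ _).trans (max_le_max ?_ ?_)
    · rw [norm_smul, norm_pow, hβ, one_pow, one_mul]
    · rw [norm_smul, norm_pow, hα, one_pow, one_mul]

/-- **Split block**: there is no invariant functional. -/
theorem Chain.split_kill [FiniteDimensional F R] (h : Chain F R s π n) (hF2 : (2 : F) ≠ 0)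
    (hd : IsUnit d) (ht : IsUnit t)
    (hE : ∀ x : R × R, ¬ IsUnit (x.1 ^ 2 - d * x.2 ^ 2) → ∃ y : R × R, x = π • y)
    {b₀ b₁ : R} (hb : t = b₀ ^ 2 - d * b₁ ^ 2)
    {B : V →ₗ[F] V →ₗ[F] F} (halt : ∀ w w', B w w' = - B w' w) {ψ : AddChar F Circle}
    (hψ : ψ ≠ 1) {ρ : V → Module.End ℂ S} (hρ0 : ρ 0 = 1)
    (hρ : ∀ w w', ρ w * ρ w' = ((ψ (B w w' / 2) : Circle) : ℂ) • ρ (w + w')) {μ' : S →ₗ[ℂ] ℂ}
    {UU : Set ((V ≃ₗ[F] V) × (S ≃ₗ[ℂ] S))} (hLV : LV B ψ ρ μ' UU) {ι : ℍ[R, d, t] →ₗ[F] V}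
    (hι : ∀ x y, B (ι x) (ι y) = frm s x y)
    (hU : ∀ u : ℍ[R, d, t], u * star u = 1 → PowBdd F u → ∃ p ∈ UU, IsAct B ι u p.1)
    {l : ℕ} (hn : n = 2 * l + 1) : μ' = 0 := by
  have h2 : IsUnit (2 : R) := by
    have : (2 : R) = algebraMap F R 2 := (map_ofNat (algebraMap F R) 2).symm
    rw [this]
    exact (IsUnit.mk0 _ hF2).map _
  obtain ⟨τ, hτ⟩ := h2
  have e1 : ((τ⁻¹ : Rˣ) : R) * 2 = 1 := by rw [← hτ]; simp
  have h2 : IsUnit (2 : R) := ⟨τ, hτ⟩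
  obtain ⟨θ, hθ⟩ := ht
  have e2 : ((θ⁻¹ : Rˣ) : R) * t = 1 := by rw [← hθ]; simp
  have ht : IsUnit t := ⟨θ, hθ⟩
  set hh := ((τ⁻¹ : Rˣ) : R)
  set ti := ((θ⁻¹ : Rˣ) : R)
  -- the unit `α`
  obtain ⟨ϖ, hϖ0, hϖ1⟩ := NormedField.exists_norm_lt F (show 0 < min 1 ‖(2 : F)‖ from
    lt_min one_pos (norm_pos_iff.2 hF2))
  have hϖne : ϖ ≠ 0 := norm_pos_iff.1 hϖ0
  have hα : ‖1 + ϖ‖ = 1 := by
    have : ‖(1 : F)‖ ≠ ‖ϖ‖ := by
      rw [norm_one]
      exact (lt_of_lt_of_le hϖ1 (min_le_left _ _)).ne'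
    rw [IsUltrametricDist.norm_add_eq_max_of_norm_ne_norm this, norm_one]
    exact max_eq_left (lt_of_lt_of_le hϖ1 (min_le_left _ _)).le
  have hα0 : (1 + ϖ) ≠ 0 := by
    intro h0
    rw [h0, norm_zero] at hα
    exact one_ne_zero hα.symm
  have hα1 : (1 + ϖ) ^ 2 ≠ 1 := by
    intro h0
    have h3 : ϖ * (2 + ϖ) = 0 := by linear_combination h0
    rcases mul_eq_zero.1 h3 with h4 | h4
    · exact hϖne h4
    · have h5 : ϖ = -2 := by linear_combination h4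
      have h6 := lt_of_lt_of_le hϖ1 (min_le_right _ _)
      rw [h5, norm_neg] at h6
      exact lt_irrefl _ h6
  set α₀ : F := 1 + ϖ
  have hβ : ‖α₀⁻¹‖ = 1 := by rw [norm_inv, hα, inv_one]
  have hβ1 : (α₀⁻¹) ^ 2 ≠ 1 := by
    intro h0
    rw [inv_pow, inv_eq_one] at h0
    exact hα1 h0
  have hab : algebraMap F R α₀ * algebraMap F R α₀⁻¹ = 1 := by
    rw [← map_mul, mul_inv_cancel₀ hα0, map_one]
  have hb' : t = (-b₀) ^ 2 - d * (-b₁) ^ 2 := by rw [hb]; ring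
  have hκt : ∀ x y : R, hh * (x + y) + ti * hh * (x - y) * t = x := by
    intro x y
    linear_combination hh * (x - y) * e2 + x * e1
  have hκt' : ∀ x y : R, hh * (x + y) - ti * hh * (x - y) * t = y := by
    intro x y
    linear_combination - hh * (x - y) * e2 + y * e1
  have hstar : ∀ c₀ c₁ : R, t = c₀ ^ 2 - d * c₁ ^ 2 → ∀ x y : R, x * y = 1 →
      tt d t c₀ c₁ (hh * (x + y)) (ti * hh * (x - y)) *
        star (tt d t c₀ c₁ (hh * (x + y)) (ti * hh * (x - y))) = 1 := by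
    intro c₀ c₁ hc x y hxy
    rw [mul_star_smul, nm_tt hc]
    have : (hh * (x + y)) ^ 2 - (ti * hh * (x - y) * t) ^ 2 = 1 := by
      have h3 := hκt x y
      have h4 := hκt' x y
      linear_combination (hh * (x + y) - ti * hh * (x - y) * t) * h3 + x * h4 + hxy
    rw [this, one_smul]
  have main : ∀ c₀ c₁ : R, t = c₀ ^ 2 - d * c₁ ^ 2 → ∀ a : ℍ[R, d, t], XX c₀ c₁ a = 0 →
      ∀ v, μ' (ρ (ι (π ^ l • a)) v) = μ' v := by
    intro c₀ c₁ hc
    refine h.split_half hF2 h2 hd ht hE hc halt hψ hρ0 hLV hι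
      (fun r => hU _ (ww_mul_star hc r) (powBdd_ww hc r)) (α := algebraMap F R α₀) rfl hα1
      (hκt (algebraMap F R α₀) (algebraMap F R α₀⁻¹)).symm ?_ ?_ hn
    · rw [hκt, hκt', hab]
    · exact hU _ (hstar c₀ c₁ hc _ _ hab) (powBdd_tt hc e1 e2 hα hβ)
  -- the contradiction
  have hne : π ^ (2 * l) * (2 * d) ≠ 0 := by
    refine h.unit_smul_ne ?_ (by omega)
    exact h2.mul hd
  obtain ⟨r₀, hr₀⟩ := h.exists_s_ne hne
  obtain ⟨a, ha1, ha2⟩ := exists_XX hb h2 ht (0 : R × R) (2 * r₀, 0)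
  obtain ⟨a', ha'1, ha'2⟩ := exists_XX hb h2 ht ((0, 1) : R × R) 0
  obtain ⟨x₀, hx₀⟩ : ∃ x₀, ψ x₀ ≠ 1 := by
    by_contra hcc
    push Not at hcc
    exact hψ (by ext x; simp [hcc x])
  have hval : B (ι (π ^ l • a')) (ι (π ^ l • a)) = s (π ^ (2 * l) * (2 * d) * r₀) := by
    rw [hι, frm_XX hb]
    simp only [XX_smul, ha1, ha2, ha'1, ha'2]
    congr 1
    simp only [Prod.smul_fst, Prod.smul_snd, smul_eq_mul, Prod.fst_zero, Prod.snd_zero]
    ring
  set A := s (π ^ (2 * l) * (2 * d) * r₀)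
  refine zero_of_noncomm hρ halt (w := (x₀ / A) • ι (π ^ l • a')) (w' := ι (π ^ l • a)) hF2 ?_
    (main b₀ b₁ hb a ha1) ?_
  · intro v
    rw [← map_smul, smul_comm]
    refine main _ _ hb' _ ?_ v
    rw [XX_smulF, ha'2, smul_zero]
  · rw [map_smul, LinearMap.smul_apply, hval, smul_eq_mul, div_mul_cancel₀ _ hr₀]
    exact hx₀

end kill

end SpW.Blk
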