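import Pool.Agent.Work.MP_3615d2_al.Blk

/-!
MP_3615d2_al: the module `md` of a local field, the quadratic character `om`, and the
identity `(*)` of note 6449, (5.2), on `D_K = L + L J`.
-/

open MeasureTheory Measure
open scoped NNReal

namespace SpW

section

variable {F : Type} [NontriviallyNormedField F] [ProperSpace F]

open scoped Classical in
/-- The module (normalised absolute value): the factor by which multiplication by `x` scales
Haar measure, and `0` for `x = 0`. -/
noncomputable def md (x : F) : ℝ≥0 :=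
  if hx : x = 0 then 0 else distribHaarChar F (Units.mk0 x hx)

end

section

variable {K L : Type} [NontriviallyNormedField K] [NontriviallyNormedField L] [NormedAlgebra K L]

/-- `om` is the quadratic character of `K^×` attached to `L/K` (no condition on `om 0`). -/
structure OmChar (K L : Type) [NontriviallyNormedField K] [NontriviallyNormedField L]
    [NormedAlgebra K L] (om : K → ℂ) : Prop where
  norm : ∀ y : L, y ≠ 0 → om (Algebra.norm K y) = 1
  nonnorm : ∀ x : K, x ≠ 0 → (¬ ∃ y : L, Algebra.norm K y = x) → om x = -1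
  mul : ∀ x y : K, x ≠ 0 → y ≠ 0 → om (x * y) = om x * om y
  cont : ContinuousOn om {0}ᶜ

/-- `c^2 = d y^2 + t₀ N(b)` for `c = y δ + b J`, `δ^2 = d`, `J^2 = t₀`. -/
noncomputable def csq (d t₀ : K) (y : K) (b : L) : K :=
  d * y ^ 2 + t₀ * Algebra.norm K b

/-- `Trd(c w̄ δ w)` for `c = y δ + b J`, `w = a₁ + a₂ J`, `J x = σ(x) J`. -/
noncomputable def trdc (sg : L ≃ₐ[K] L) (δ : L) (d t₀ : K) (y : K) (b : L) (a : L × L) : K :=
  2 * d * y * (Algebra.norm K a.1 + t₀ * Algebra.norm K a.2)
    - 2 * t₀ * Algebra.trace K L (δ * b * a.1 * sg a.2)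

/-- The identity `(*)`: for all `c = y δ + b J` in `D^0`,
`∫_D ψ(Trd(c w̄ δ w)) φ(w) dw = k om(1-c^2) / |1-c^2|`. -/
def StarHyp [ProperSpace K] [MeasurableSpace L] (sg : L ≃ₐ[K] L) (δ : L) (d t₀ : K)
    (ψ : AddChar K Circle) (om : K → ℂ) (φ : L × L → ℂ) (k : ℂ) (ν : Measure (L × L)) : Prop :=
  ∀ (y : K) (b : L),
    ∫ a : L × L, ((ψ (trdc sg δ d t₀ y b a) : Circle) : ℂ) * φ a ∂ν =
      k * om (1 - csq d t₀ y b) * (((md (1 - csq d t₀ y b) : ℝ≥0) : ℝ) : ℂ)⁻¹

end

end SpW
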