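import Pool.Agent.Work.MP_3615d2_al.Carr
import Pool.Agent.Work.MP_3615d2_al.StarForm
import Pool.Agent.Work.MP_3615d2_al.IntegFin

/-!
MP_3615d2_al: from the identity (5.2) on `D_R` to the identity `StarHyp` on `L × L`, and the
conclusion `k = 0`.
-/

open MeasureTheory Measure Filter Topology
open scoped NNReal Quaternion

namespace SpW

section alg

variable {F R : Type} [Field F] [CommRing R] [Algebra F R] {K : Type} [Field K] [Algebra F K]
  {d : F} {t : R} {L : Type} [Field L] [Algebra K L]
  [Fact (∀ r : K, r ^ 2 ≠ algebraMap F K d + 0 * r)]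

/-- the vector `a₁ + a₂ J` -/
def jvec (sec : K → R) (d : F) (t : R) (e : QuadraticAlgebra K (algebraMap F K d) 0 ≃ₐ[K] L)
    (a : L × L) : ℍ[R,algebraMap F R d,0,t] :=
  ⟨sec (e.symm a.1).re, sec (e.symm a.1).im, sec (e.symm a.2).re, sec (e.symm a.2).im⟩

/-- the vector `y δ + b J` -/
def cvec (sec : K → R) (d : F) (t : R) (e : QuadraticAlgebra K (algebraMap F K d) 0 ≃ₐ[K] L)
    (y : K) (b : L) : ℍ[R,algebraMap F R d,0,t] :=
  ⟨0, sec y, sec (e.symm b).re, sec (e.symm b).im⟩

variable (red : R →ₐ[F] K) (sec : K → R) (hsec : ∀ x, red (sec x) = x)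
  (e : QuadraticAlgebra K (algebraMap F K d) 0 ≃ₐ[K] L)

include hsec

theorem red_cc (y : K) (b : L) :
    red ((cvec sec d t e y b * cvec sec d t e y b).re) =
      algebraMap F K d * y ^ 2 + red t * Algebra.norm K b := by
  have h1 : Algebra.norm K b = (e.symm b).re * (e.symm b).re -
      algebraMap F K d * ((e.symm b).im * (e.symm b).im) := by
    rw [← norm_L e, e.apply_symm_apply]
  rw [h1]
  simp only [cvec, QuaternionAlgebra.re_mul, map_sub, map_add, map_mul, hsec, AlgHom.commutes,
    map_zero]
  ring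

end alg

section alg2

variable {F R : Type} [Field F] [CommRing R] [Algebra F R] {K : Type} [NontriviallyNormedField K]
  [Algebra F K] {d : F} {t : R} {L : Type} [NontriviallyNormedField L] [NormedAlgebra K L]
  [Fact (∀ r : K, r ^ 2 ≠ algebraMap F K d + 0 * r)]
  (red : R →ₐ[F] K) (sec : K → R) (hsec : ∀ x, red (sec x) = x)
  (e : QuadraticAlgebra K (algebraMap F K d) 0 ≃ₐ[K] L)

include hsec

theorem red_trd (h2 : (2 : K) ≠ 0) (y : K) (b : L) (a : L × L) :
    red (2 * (cvec sec d t e y b * (star (jvec sec d t e a) * qi (algebraMap F R d) t *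
      jvec sec d t e a)).re) =
      trdc (sgL e) (delL e) (algebraMap F K d) (red t) y b a := by
  have h1 : ∀ b : L, Algebra.norm K b = (e.symm b).re * (e.symm b).re -
      algebraMap F K d * ((e.symm b).im * (e.symm b).im) := by
    intro b
    rw [← norm_L e, e.apply_symm_apply]
  have h3 : delL e * b * a.1 * sgL e a.2 = e (⟨0, 1⟩ * e.symm b * e.symm a.1 *
      qconj (algebraMap F K d) (e.symm a.2)) := by
    simp only [map_mul, e.apply_symm_apply]
    rfl
  unfold trdc
  rw [h3, trace_L h2 e, h1, h1]
  simp only [cvec, jvec, qi, QuaternionAlgebra.re_mul, QuaternionAlgebra.imI_mul,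
    QuaternionAlgebra.imJ_mul, QuaternionAlgebra.imK_mul, QuaternionAlgebra.re_star,
    QuaternionAlgebra.imI_star, QuaternionAlgebra.imJ_star, QuaternionAlgebra.imK_star,
    map_sub, map_add, map_mul, map_neg, hsec, AlgHom.commutes, map_zero, map_one, map_ofNat,
    qconj, QuadraticAlgebra.re_mul, QuadraticAlgebra.im_mul, AlgEquiv.coe_mk, Equiv.coe_fn_mk]
  ring

end alg2

section kill

variable {F : Type} [NontriviallyNormedField F] [IsUltrametricDist F] [ProperSpace F]
  {E : Type} [NontriviallyNormedField E] [NormedAlgebra F E] {σ : E ≃ₐ[F] E} {δ : E} {d : F}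
  {R : Type} [CommRing R] [Algebra F R] [Module.Finite F R] {t : R}
  {K : Type} [NontriviallyNormedField K] [IsUltrametricDist K] [ProperSpace K] [NormedAlgebra F K]
  [FiniteDimensional F K] [MeasurableSpace K] [BorelSpace K]
  {L : Type} [NontriviallyNormedField L] [IsUltrametricDist L] [ProperSpace L] [NormedAlgebra K L]
  [NormedSpace F L] [IsScalarTower F K L] [MeasurableSpace L] [BorelSpace L]

/-- The coordinates `L × L` of `D_R / π D_R`. -/
noncomputable def jlin [Fact (∀ r : K, r ^ 2 ≠ algebraMap F K d + 0 * r)] (sec : K →ₗ[F] R)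
    (t : R) (e : QuadraticAlgebra K (algebraMap F K d) 0 ≃ₐ[K] L) :
    (L × L) →ₗ[F] ℍ[R,algebraMap F R d,0,t] where
  toFun a := jvec sec d t e a
  map_add' a b := by
    ext <;> simp [jvec]
  map_smul' c a := by
    have h : ∀ y : L, e.symm (c • y) = c • e.symm y := by
      intro y
      rw [← algebraMap_smul K c y, map_smul, algebraMap_smul]
    ext <;> simp [jvec, h]

theorem jlin_coord [Fact (∀ r : K, r ^ 2 ≠ algebraMap F K d + 0 * r)] (sec : K →ₗ[F] R)
    (t : R) (e : QuadraticAlgebra K (algebraMap F K d) 0 ≃ₐ[K] L) (π : R) (red : R →ₐ[F] K)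
    (hsec : ∀ x, red (sec x) = x) (hker : ∀ x, red x = 0 → ∃ b, x = π * b) (hred : red π = 0) :
    IsCoord π (jlin sec t e) := by
  constructor
  · intro a b hab
    have h1 : ∀ (x : K) (r : R), sec x = π * r → x = 0 := by
      intro x r h
      rw [← hsec x, h, map_mul, hred, zero_mul]
    have e1 : sec (e.symm a.1).re = π * b.re := congrArg (fun z => z.re) hab
    have e2 : sec (e.symm a.1).im = π * b.imI := congrArg (fun z => z.imI) hab
    have e3 : sec (e.symm a.2).re = π * b.imJ := congrArg (fun z => z.imJ) hab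
    have e4 : sec (e.symm a.2).im = π * b.imK := congrArg (fun z => z.imK) hab
    have e5 : e.symm a.1 = 0 := by
      ext
      · exact h1 _ _ e1
      · exact h1 _ _ e2
    have e6 : e.symm a.2 = 0 := by
      ext
      · exact h1 _ _ e3
      · exact h1 _ _ e4
    ext
    · exact (map_eq_zero_iff e.symm e.symm.injective).1 e5
    · exact (map_eq_zero_iff e.symm e.symm.injective).1 e6
  · intro a
    have h1 : ∀ r : R, ∃ b, r = sec (red r) + π * b := by
      intro r
      obtain ⟨b, hb⟩ := hker (r - sec (red r)) (by rw [map_sub, hsec, sub_self])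
      exact ⟨b, by rw [← hb]; ring⟩
    obtain ⟨b1, h1'⟩ := h1 a.re
    obtain ⟨b2, h2'⟩ := h1 a.imI
    obtain ⟨b3, h3'⟩ := h1 a.imJ
    obtain ⟨b4, h4'⟩ := h1 a.imK
    refine ⟨(e ⟨red a.re, red a.imI⟩, e ⟨red a.imJ, red a.imK⟩), ⟨b1, b2, b3, b4⟩, ?_⟩
    ext
    · simp [jlin, jvec, ← h1']
    · simp [jlin, jvec, ← h2']
    · simp [jlin, jvec, ← h3']
    · simp [jlin, jvec, ← h4']

theorem star_kill (hq : QuadDatum σ δ d) {μ : Eˣ →* ℂˣ} (hμ : ConjSymplectic F μ)
    [Fact (∀ r : K, r ^ 2 ≠ algebraMap F K d + 0 * r)]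
    (e : QuadraticAlgebra K (algebraMap F K d) 0 ≃ₐ[K] L)
    (hN : ∃ z : K, z ≠ 0 ∧ ¬ ∃ y : E, Algebra.norm F y = Algebra.norm F z)
    (ψ : AddChar F Circle) (hψ : Continuous ψ) (s : R →ₗ[F] F) (π : R) (l : ℕ)
    (hπ : π ^ (2 * l + 1) = 0) (red : R →ₐ[F] K) (hsurj : Function.Surjective red)
    (hker : ∀ x, red x = 0 → ∃ b, x = π * b) (hred : red π = 0)
    (ht : ¬ ∃ y : L, Algebra.norm K y = red t)
    (Φ : ℍ[R,algebraMap F R d,0,t] → ℂ) (k : ℂ)
    (hΦ : ∀ j : (L × L) →ₗ[F] ℍ[R,algebraMap F R d,0,t], IsCoord π j →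
      IsLocallyConstant (fun x => Φ (j x)) ∧ ∃ r : ℝ, ∀ x, Φ (j x) ≠ 0 → ‖x‖ ≤ r)
    (hform : StarForm s π l red ψ (omF F μ) Φ k) : k = 0 := by
  have h2K : (2 : K) ≠ 0 := by
    intro h
    apply hq.two
    have : algebraMap F K 2 = 0 := by rw [map_ofNat, h]
    exact (map_eq_zero _).1 this
  have hFL : FiniteDimensional F L := by
    have := (quadDatum_L h2K e).finite
    exact FiniteDimensional.trans F K L
  obtain ⟨sec, hsec'⟩ := LinearMap.exists_rightInverse_of_surjective red.toLinearMap
    (LinearMap.range_eq_top.2 hsurj)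
  have hsec : ∀ x, red (sec x) = x := fun x => LinearMap.congr_fun hsec' x
  let j := jlin (d := d) sec t e
  have hj : IsCoord π j := jlin_coord sec t e π red hsec hker hred
  let ν : Measure (L × L) := addHaar
  have : IsUltrametricDist (L × L) := ⟨fun x y z => by
    rw [Prod.dist_eq, Prod.dist_eq, Prod.dist_eq]
    refine max_le ?_ ?_
    · exact (dist_triangle_max x.1 y.1 z.1).trans
        (max_le_max (le_max_left _ _) (le_max_left _ _))
    · exact (dist_triangle_max x.2 y.2 z.2).trans
        (max_le_max (le_max_right _ _) (le_max_right _ _))⟩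
  obtain ⟨C, hC, hstar⟩ := hform (L × L) ν j hj
  obtain ⟨hlc, r₀, hr₀⟩ := hΦ j hj
  -- the character
  let f : K →ₗ[F] F :=
    { toFun := fun z => (4 : F)⁻¹ * s (π ^ (2 * l) * sec z)
      map_add' := fun x y => by rw [map_add, mul_add, map_add, mul_add]
      map_smul' := fun a x => by
        rw [LinearMap.map_smul, mul_smul_comm, LinearMap.map_smul, RingHom.id_apply,
          mul_smul_comm] }
  have hf : Continuous f := f.continuous_of_finiteDimensional
  let ψK : AddChar K Circle := ψ.compAddMonoidHom f.toAddMonoidHom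
  have hψK : Continuous ψK := hψ.comp hf
  have hfred : ∀ x : R, f (red x) = (4 : F)⁻¹ * s (π ^ (2 * l) * x) := by
    intro x
    obtain ⟨b, hb⟩ := hker (sec (red x) - x) (by rw [map_sub, hsec, sub_self])
    have h1 : sec (red x) = x + π * b := by rw [← hb]; ring
    show (4 : F)⁻¹ * s (π ^ (2 * l) * sec (red x)) = _
    rw [h1, mul_add, ← mul_assoc, ← pow_succ, hπ, zero_mul, add_zero]
  have key : C * k = 0 := by
    have ht0 : red t ≠ 0 := by
      intro h0
      have := (quadDatum_L h2K e).finite
      exact ht ⟨0, by rw [h0, Algebra.norm_zero]⟩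
    refine star_zero (quadDatum_L h2K e) ht0 ht (omChar hq hμ e hN) hψK ν
      (φ := fun x => Φ (j x)) ?_ ?_
    · refine hlc.continuous.integrable_of_hasCompactSupport ?_
      refine HasCompactSupport.intro (isCompact_closedBall (0 : L × L) r₀) ?_
      intro x hx
      by_contra hne
      exact hx (mem_closedBall_zero_iff.2 (hr₀ x hne))
    · intro y b
      have hc0 : (cvec sec d t e y b).re = 0 := rfl
      obtain ⟨r, hr1, hr2⟩ := ((hstar _ hc0).and (eventually_ge_atTop r₀)).exists
      have h1 : red (1 - (cvec sec d t e y b * cvec sec d t e y b).re) =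
          1 - csq (algebraMap F K d) (red t) y b := by
        rw [map_sub, map_one, red_cc red sec hsec e]
        rfl
      rw [h1] at hr1
      have h2 : ∀ x : L × L, (4 : F)⁻¹ * s (2 * (qi (algebraMap F R d) t * (π ^ l •
          (j x * cvec sec d t e y b)) * star (π ^ l • j x)).re) =
          f (trdc (sgL e) (delL e) (algebraMap F K d) (red t) y b x) := by
        intro x
        rw [← red_trd red sec hsec e h2K y b x, hfred]
        congr 2
        have h3 : (qi (algebraMap F R d) t * (π ^ l • (j x * cvec sec d t e y b)) *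
            star (π ^ l • j x)).re = π ^ (2 * l) * (cvec sec d t e y b * (star (j x) *
              qi (algebraMap F R d) t * j x)).re := by
          have h4 : qi (algebraMap F R d) t * (π ^ l • (j x * cvec sec d t e y b)) *
            star (π ^ l • j x) = (π ^ (2 * l)) • (qi (algebraMap F R d) t *
              (j x * cvec sec d t e y b) * star (j x)) := by
            rw [QuaternionAlgebra.star_smul]
            simp only [mul_smul_comm, smul_mul_assoc, smul_smul]
            rw [← pow_add, two_mul]
          rw [h4, QuaternionAlgebra.re_smul, smul_eq_mul]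
          congr 1
          rw [re_mul_comm, ← mul_assoc, ← mul_assoc, re_mul_comm]
        rw [h3]
        show _ = π ^ (2 * l) * (2 * (cvec sec d t e y b * (star (j x) *
              qi (algebraMap F R d) t * j x)).re)
        ring
      have h5 : ∫ x in Metric.closedBall (0 : L × L) r,
          ((ψ ((4 : F)⁻¹ * s (2 * (qi (algebraMap F R d) t * (π ^ l •
          (j x * cvec sec d t e y b)) * star (π ^ l • j x)).re)) :
          Circle) : ℂ) * Φ (j x) ∂ν = ∫ x : L × L,
          ((ψK (trdc (sgL e) (delL e) (algebraMap F K d) (red t) y b x) : Circle) : ℂ) *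
            Φ (j x) ∂ν := by
        rw [setIntegral_eq_integral_of_forall_compl_eq_zero]
        · refine integral_congr_ae (Eventually.of_forall fun x => ?_)
          simp only [h2]
          rfl
        · intro x hx
          by_contra hne
          apply hx
          rw [mem_closedBall_zero_iff]
          exact (hr₀ x (right_ne_zero_of_mul hne)).trans hr2
      rw [← h5, hr1, ← md_norm (F := F)]
  exact (mul_eq_zero.1 key).resolve_left hC

end kill

end SpW
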