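import Pool.Agent.Work.MP_3615d2_al.DefsB
import Pool.Agent.Work.MP_3615d2_al.HermClass

/-!
MP_3615d2_al: the definitions used in the statement of the result.

`E / F` quadratic extension of nonarchimedean local fields of characteristic different from 2,
`σ` the nontrivial automorphism, `X = E^N` with the skew-Hermitian form `sk σ H`.
-/

open MeasureTheory Filter Topology
open scoped TensorProduct

namespace SpS

section abstract_groups

variable {G M V W : Type} [Group G] [AddCommGroup V] [Module ℂ V] [AddCommGroup W] [Module ℂ W]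

/-- All coinvariants of `π` for the subset `N` vanish: the vectors `π(u) v - v`, `u ∈ N`, span
`V`. -/
def CoinvZero (N : Set G) (π : G →* Module.End ℂ V) : Prop :=
  Submodule.span ℂ {x | ∃ u ∈ N, ∃ v, x = π u v - v} = ⊤

/-- The elements `z t` act by scalars `χ t` of absolute value `1`. -/
def UnitScalars {Z : Type} (z : Z → G) (π : G →* Module.End ℂ V) : Prop :=
  ∃ χ : Z → ℂ, (∀ t, ‖χ t‖ = 1) ∧ ∀ t v, π (z t) v = χ t • v

/-- `f` belongs to the representation of `G` induced from `ρ`: `f(pg) = ρ(t) f(g)` if `R p t`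
(`t` is the image of `p ∈ P` in the Levi quotient), and `f` is right smooth. -/
structure IsInd [TopologicalSpace G] (R : G → M → Prop) (ρ : M → W → W) (f : G → W) : Prop where
  left : ∀ p t, R p t → ∀ g, f (p * g) = ρ t (f g)
  right : ∀ᶠ k in 𝓝 (1 : G), ∀ g, f (g * k) = f g

/-- `q` presents `τ` as a quotient of the space `I` of functions on `G` (with right
translations): it is additive, homogeneous and equivariant on `I`, and `q(I)` is everything. -/
structure IsQuot (I : (G → W) → Prop) (τ : G →* Module.End ℂ V) (q : (G → W) → V) : Prop where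
  add : ∀ f f', I f → I f' → q (f + f') = q f + q f'
  smul : ∀ (c : ℂ) f, I f → q (c • f) = c • q f
  trans : ∀ g f, I f → q (fun x => f (x * g)) = τ g (q f)
  surj : ∀ v, ∃ f, I f ∧ q f = v

/-- The operator `a(x)^s a(y)^{-s} π(x) ⊗ π(y)` of `V ⊗ V`. -/
noncomputable def twT (a : G → ℝ) (s : ℝ) (π : G →* Module.End ℂ V) (p : G × G) (w : V ⊗[ℂ] V) :
    V ⊗[ℂ] V :=
  ((a p.1 ^ s * a p.2 ^ (-s) : ℝ) : ℂ) • TensorProduct.map (π p.1) (π p.2) w

end abstract_groups

section heis

variable {F X S : Type} [Field F] [AddCommGroup S] [Module ℂ S]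

/-- `ρ` is the irreducible smooth representation with central character `ψ` of the Heisenberg
group of the symplectic space `(X, B)`: `ρ(w) ρ(w') = ψ(B(w,w')/2) ρ(w+w')`. -/
structure IsHeis [AddCommGroup X] [TopologicalSpace X] (ψ : F → ℂ) (B : X → X → F)
    (ρ : X → Module.End ℂ S) : Prop where
  nonzero : ∃ v : S, v ≠ 0
  mul : ∀ w w' v, ρ w (ρ w' v) = ψ (2⁻¹ * B w w') • ρ (w + w') v
  smooth : ∀ v, ∀ᶠ w in 𝓝 (0 : X), ρ w v = v
  irr : ∀ T : Submodule ℂ S, (∀ w, ∀ v ∈ T, ρ w v ∈ T) → T = ⊥ ∨ T = ⊤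

/-- `ω(g) v = κ a(g) ∫_X ψ(B(c(g)w,w)/4) ρ(w) v dw`, `a(g) = μ(D(g)) |D(g)|^{-1/2}`, whenever
`D(g) ≠ 0`: the integral is the eventually constant value of the integrals over large balls. -/
def CayleyFormula {U E : Type} [Zero E] [PseudoMetricSpace X] [Zero X] [MeasurableSpace X]
    (vol : Measure X) (ψ : F → ℂ) (B : X → X → F) (c : U → X → X) (D : U → E) (μ : E → ℂ)
    (ab : E → ℝ) (ρ : X → Module.End ℂ S) (ω : U → Module.End ℂ S) : Prop :=
  ∃ κ : ℂ, ∀ g, D g ≠ 0 → ∀ (v : S) (ξ : S →ₗ[ℂ] ℂ), ∀ᶠ r : ℝ in atTop,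
    ξ (ω g v) = κ * μ (D g) * ((ab (D g) ^ (-(1 / 2) : ℝ) : ℝ) : ℂ) *
      ∫ w in Metric.closedBall (0 : X) r, ψ (4⁻¹ * B (c g w) w) * ξ (ρ w v) ∂vol

end heis

/-- `μ` is conjugate-symplectic: a continuous character of `E^×` whose restriction to `F^×` is
the quadratic character of `E/F` (`1` on norms, `-1` on the other elements). -/
structure ConjSympl (F : Type) {E : Type} [Field F] [Field E] [Algebra F E] [TopologicalSpace E]
    (μ : E → ℂ) : Prop where
  mul : ∀ x y, μ (x * y) = μ x * μ y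
  cont : ∀ x, x ≠ 0 → ContinuousAt μ x
  norm : ∀ x : F, x ≠ 0 → (∃ y : E, Algebra.norm F y = x) → μ (algebraMap F E x) = 1
  nonnorm : ∀ x : F, (¬ ∃ y : E, Algebra.norm F y = x) → μ (algebraMap F E x) = -1

/-- The isometry group `U(X)` of the form `sk σ H` on `X = E^N`. -/
def U {E : Type} [Field E] (σ : E → E) {N : ℕ} (H : Matrix (Fin N) (Fin N) E) :
    Subgroup (GL (Fin N) E) :=
  Subgroup.closure {g | ∀ x y : Fin N → E, SpW.sk σ H (g.1.mulVec x) (g.1.mulVec y) =
    SpW.sk σ H x y}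

/-- The matrix of an element of `U(X)`. -/
def mt {E : Type} [Field E] {σ : E → E} {N : ℕ} {H : Matrix (Fin N) (Fin N) E} (g : U σ H) :
    Matrix (Fin N) (Fin N) E := g.1.1

/-- The standard unipotent radical `N_k`: unipotent matrices whose nontrivial entries are at
`(i, j)` with `i < k ≤ j`. -/
def Nrad (E : Type) [Field E] (n k : ℕ) : Set (GL (Fin n) E) :=
  {u | ∀ i j : Fin n, ¬ (i.1 < k ∧ k ≤ j.1) → u.1 i j = (1 : Matrix (Fin n) (Fin n) E) i j}

/-- `π` is supercuspidal: all coinvariants for the unipotent radicals of the proper standard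
maximal parabolic subgroups vanish. -/
def IsCusp {E : Type} [Field E] {n : ℕ} {V : Type} [AddCommGroup V] [Module ℂ V]
    (π : GL (Fin n) E →* Module.End ℂ V) : Prop :=
  ∀ k, 0 < k → k < n → CoinvZero (Nrad E n k) π

/-- `p = (a b; 0 d)`, `t = (a, d)`. -/
def IsPar {E : Type} [Field E] {m : ℕ} (p : GL (Fin (2 * m)) E) (t : GL (Fin m) E × GL (Fin m) E) :
    Prop := ∃ b, p.1 = SpW.bm t.1.1 b 0 t.2.1

section local_field

variable {F E : Type} [NontriviallyNormedField F] [NontriviallyNormedField E] [NormedAlgebra F E]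
  [ProperSpace E] [MeasurableSpace E] [BorelSpace E]

/-- The normalised absolute value of `E`: the volume of `d O_E` divided by the volume of
`O_E`. -/
noncomputable def nab (d : E) : ℝ :=
  ((Measure.addHaar : Measure E) (Metric.closedBall 0 ‖d‖)).toReal /
    ((Measure.addHaar : Measure E) (Metric.closedBall 0 1)).toReal

/-- `(ρ, ω)` is the Weil representation `ω_{X,ψ,μ}` of `U(X)`: `ρ` is the irreducible smooth
representation of the Heisenberg group of `(X, Tr_{E/F} h)` with central character `ψ`, and `ω` is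
the extension of `ρ` to `U(X)` attached to the conjugate-symplectic character `μ`, normalised by
`ω(g) v = κ μ(det(g-1)) |det(g-1)|^{-1/2} ∫_X ψ(⟨c(g)w,w⟩/4) ρ(w) v dw`,
`c(g) = (g+1)(g-1)^{-1}`, for `g` in `U(X)` with `g - 1` invertible. -/
structure IsWeil (σ : E → E) {N : ℕ} (H : Matrix (Fin N) (Fin N) E) (ψ : F → ℂ) (μ : E → ℂ)
    {S : Type} [AddCommGroup S] [Module ℂ S] (ρ : (Fin N → E) → Module.End ℂ S)
    (ω : U σ H →* Module.End ℂ S) : Prop where
  heis : IsHeis ψ (fun x y => Algebra.trace F E (SpW.sk σ H x y)) ρ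
  smooth : SpW.IsSmoothRep ω
  intertwine : ∀ g w v, ω g (ρ w v) = ρ ((mt g).mulVec w) (ω g v)
  normalised : CayleyFormula Measure.addHaar ψ (fun x y => Algebra.trace F E (SpW.sk σ H x y))
    (fun g => ((mt g + 1) * (mt g - 1)⁻¹).mulVec) (fun g => (mt g - 1).det) μ nab ρ ω

/-- `q` presents `τ` as a quotient of the normalised parabolically induced representation
`πν^{1/2} × πν^{-1/2}` of `GL_{2m}(E)` (`δ_P^{1/2} = |det a|^{m/2} |det d|^{-m/2}`). -/
def IsSpehQuot {m : ℕ} {V W : Type} [AddCommGroup V] [Module ℂ V] [AddCommGroup W] [Module ℂ W]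
    (π : GL (Fin m) E →* Module.End ℂ V) (τ : GL (Fin (2 * m)) E →* Module.End ℂ W)
    (q : (GL (Fin (2 * m)) E → V ⊗[ℂ] V) → W) : Prop :=
  IsQuot (IsInd IsPar (twT (fun g => nab g.1.det) (1 / 2 + m / 2) π)) τ q

end local_field

end SpS
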