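import Pool.Agent.Work.MP_3615d2_al.ThmA
import Pool.Agent.Work.MP_3615d2_al.MainB
import Pool.Agent.Work.MP_3615d2_al.StmtDefs

/-!
MP_3615d2_al: the definitions of the statement and those of the proof.
-/

open MeasureTheory Filter Topology Matrix
open scoped TensorProduct NNReal Pointwise

namespace SpS

section nab

variable {E : Type} [NontriviallyNormedField E] [ProperSpace E] [MeasurableSpace E] [BorelSpace E]

theorem absE_eq_nab (d : Eˣ) : SpW.absE d = nab (d : E) := by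
  set ν : Measure E := Measure.addHaar
  have h1 : d • (Metric.closedBall (0 : E) 1) = Metric.closedBall (0 : E) ‖(d : E)‖ := by
    ext x
    constructor
    · rintro ⟨y, hy, rfl⟩
      rw [mem_closedBall_zero_iff] at hy ⊢
      show ‖(d : E) * y‖ ≤ _
      rw [norm_mul]
      exact mul_le_of_le_one_right (norm_nonneg _) hy
    · intro hx
      rw [mem_closedBall_zero_iff] at hx
      refine ⟨(d : E)⁻¹ * x, ?_, ?_⟩
      · rw [mem_closedBall_zero_iff, norm_mul, norm_inv]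
        exact inv_mul_le_one_of_le₀ hx (norm_nonneg _)
      · show (d : E) * ((d : E)⁻¹ * x) = x
        rw [mul_inv_cancel_left₀ d.ne_zero]
  have h2 := distribHaarChar_mul ν d (Metric.closedBall (0 : E) 1)
  rw [h1] at h2
  have h3 : ν (Metric.closedBall (0 : E) 1) ≠ 0 :=
    (Metric.measure_closedBall_pos ν 0 one_pos).ne'
  have h4 : ν (Metric.closedBall (0 : E) 1) ≠ ⊤ :=
    (isCompact_closedBall (0 : E) 1).measure_lt_top.ne
  unfold SpW.absE nab
  rw [eq_div_iff (ENNReal.toReal_ne_zero.2 ⟨h3, h4⟩), ← h2, ENNReal.toReal_mul]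
  rfl

end nab

section grp

variable {F E : Type} [Field F] [Field E] [Algebra F E]

theorem U_eq (σ : E ≃ₐ[F] E) {N : ℕ} (H : Matrix (Fin N) (Fin N) E) :
    U σ H = SpW.unitary σ H := by
  apply le_antisymm
  · exact (Subgroup.closure_le _).2 fun g hg => hg
  · exact fun g hg => Subgroup.subset_closure hg

/-- `ω` on the group `SpW.unitary`. -/
def omU (σ : E ≃ₐ[F] E) {N : ℕ} (H : Matrix (Fin N) (Fin N) E) {S : Type} [AddCommGroup S]
    [Module ℂ S] (ω : U σ H →* Module.End ℂ S) : SpW.unitary σ H →* Module.End ℂ S :=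
  ω.comp (Subgroup.inclusion (U_eq σ H).ge)

end grp

section conj

variable {F E : Type} [NontriviallyNormedField F] [NontriviallyNormedField E] [NormedAlgebra F E]

theorem ConjSympl.one {μ : E → ℂ} (h : ConjSympl F μ) : μ 1 = 1 := by
  have := h.norm 1 one_ne_zero ⟨1, by simp⟩
  simpa using this

/-- The homomorphism `E^× → ℂ^×`. -/
def muU {μ : E → ℂ} (h : ConjSympl F μ) : Eˣ →* ℂˣ :=
  Units.map (⟨⟨μ, h.one⟩, h.mul⟩ : E →* ℂ)

theorem muU_val {μ : E → ℂ} (h : ConjSympl F μ) (x : Eˣ) : ((muU h x : ℂˣ) : ℂ) = μ x := rfl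

theorem conj_of {μ : E → ℂ} (h : ConjSympl F μ) : SpW.ConjSymplectic F (muU h) := by
  have hc : Continuous fun x : Eˣ => μ (x : E) := by
    rw [continuous_iff_continuousAt]
    intro x
    exact ContinuousAt.comp (h.cont _ x.ne_zero) Units.continuous_val.continuousAt
  refine ⟨?_, ?_, ?_⟩
  · rw [Units.continuous_iff]
    refine ⟨hc, ?_⟩
    have h1 : (fun x : Eˣ => (((muU h x)⁻¹ : ℂˣ) : ℂ)) = fun x : Eˣ => (μ (x : E))⁻¹ := by
      funext x
      rw [Units.val_inv_eq_inv_val, muU_val]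
    show Continuous (fun x : Eˣ => (((muU h x)⁻¹ : ℂˣ) : ℂ))
    rw [h1]
    refine hc.inv₀ fun x hx => ?_
    exact (muU h x).ne_zero (by rw [muU_val]; exact hx)
  · intro x hx
    apply Units.ext
    exact h.norm x x.ne_zero hx
  · intro x hx
    apply Units.ext
    exact h.nonnorm x hx

end conj

section main

variable {F E : Type} [NontriviallyNormedField F] [NontriviallyNormedField E] [NormedAlgebra F E]
  [ProperSpace E] [MeasurableSpace E] [BorelSpace E]

theorem weil_of {σ : E ≃ₐ[F] E} {N : ℕ} {H : Matrix (Fin N) (Fin N) E} {ψ : AddChar F Circle}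
    {μ : E → ℂ} (hμ : ConjSympl F μ) {S : Type} [AddCommGroup S] [Module ℂ S]
    {ρ : (Fin N → E) → Module.End ℂ S} {ω : U σ H →* Module.End ℂ S}
    (h : IsWeil σ H (fun x => ψ x) μ ρ ω) :
    SpW.IsWeil σ H ψ (muU hμ) ρ (omU σ H ω) where
  nontrivial := by
    obtain ⟨v, hv⟩ := h.heis.nonzero
    exact ⟨v, 0, hv⟩
  rho_mul w w' := by
    apply LinearMap.ext
    intro v
    exact h.heis.mul w w' v
  rho_smooth := h.heis.smooth
  rho_irr := h.heis.irr
  om_smooth v := by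
    have h1 : Tendsto (fun g : SpW.unitary σ H => Subgroup.inclusion (U_eq σ H).ge g)
        (𝓝 1) (𝓝 1) := by
      have h2 : Continuous fun g : SpW.unitary σ H => Subgroup.inclusion (U_eq σ H).ge g :=
        Continuous.subtype_mk continuous_subtype_val _
      have h3 := h2.tendsto 1
      rwa [map_one] at h3
    exact h1.eventually (h.smooth v)
  om_rho g w := by
    apply LinearMap.ext
    intro v
    exact h.intertwine _ w v
  normalised := by
    obtain ⟨κ, hκ⟩ := h.normalised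
    refine ⟨κ, fun g d hd v ξ => ?_⟩
    have h1 := hκ (Subgroup.inclusion (U_eq σ H).ge g) (by
      show (SpW.umat g - 1).det ≠ 0
      rw [← hd]
      exact d.ne_zero) v ξ
    filter_upwards [h1] with r hr
    have h2 : (mt (Subgroup.inclusion (U_eq σ H).ge g) - 1).det = (d : E) := hd.symm
    rw [h2] at hr
    rw [absE_eq_nab, muU_val]
    exact hr

theorem cusp_of {m : ℕ} {V : Type} [AddCommGroup V] [Module ℂ V]
    {π : GL (Fin m) E →* Module.End ℂ V} (h : IsCusp π) : SpW.IsCusp π := by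
  intro k hk hk'
  refine Eq.trans ?_ (h k hk hk')
  unfold SpW.cvN
  refine congrArg _ ?_
  ext x
  constructor
  · rintro ⟨u, hu, v, _, rfl⟩
    exact ⟨u, hu, v, rfl⟩
  · rintro ⟨u, hu, v, rfl⟩
    exact ⟨u, hu, v, Submodule.mem_top, rfl⟩

theorem rho_eq {m : ℕ} {V : Type} [AddCommGroup V] [Module ℂ V]
    (π : GL (Fin m) E →* Module.End ℂ V) (t : GL (Fin m) E × GL (Fin m) E) (w : V ⊗[ℂ] V) :
    twT (fun g => nab g.1.det) (1 / 2 + m / 2) π t w = SpW.rho π (((m : ℝ) + 1) / 2) t w := by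
  have h1 : ∀ g : GL (Fin m) E, nab g.1.det = SpW.ad g := by
    intro g
    unfold SpW.ad
    rw [absE_eq_nab]
    rfl
  have h2 : (1 / 2 + (m : ℝ) / 2) = ((m : ℝ) + 1) / 2 := by ring
  unfold twT
  simp only [h1, h2]
  rfl

theorem isInd_iff {m : ℕ} {V : Type} [AddCommGroup V] [Module ℂ V]
    (π : GL (Fin m) E →* Module.End ℂ V) (f : GL (Fin (2 * m)) E → V ⊗[ℂ] V) :
    IsInd IsPar (twT (fun g => nab g.1.det) (1 / 2 + m / 2) π) f ↔
      f ∈ SpW.Ind (SpW.rho π (((m : ℝ) + 1) / 2)) := by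
  constructor
  · rintro ⟨h1, h2⟩
    refine ⟨fun a d b g => ?_, h2⟩
    rw [h1 (SpW.pel a d b) (a, d) ⟨b, rfl⟩ g, rho_eq]
  · rintro ⟨h1, h2⟩
    refine ⟨fun p t hp g => ?_, h2⟩
    obtain ⟨b, hb⟩ := hp
    have h3 : p = SpW.pel t.1 t.2 b := Units.ext hb
    rw [h3, h1, rho_eq]

/-- The quotient map on the induced representation. -/
def qU {m : ℕ} {V W : Type} [AddCommGroup V] [Module ℂ V] [AddCommGroup W] [Module ℂ W]
    {π : GL (Fin m) E →* Module.End ℂ V} {τ : GL (Fin (2 * m)) E →* Module.End ℂ W}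
    {q : (GL (Fin (2 * m)) E → V ⊗[ℂ] V) → W} (h : IsSpehQuot π τ q) :
    SpW.Ind (SpW.rho π (((m : ℝ) + 1) / 2)) →ₗ[ℂ] W where
  toFun f := q f
  map_add' f f' := h.add _ _ ((isInd_iff π _).2 f.2) ((isInd_iff π _).2 f'.2)
  map_smul' c f := h.smul c _ ((isInd_iff π _).2 f.2)

theorem qU_surj {m : ℕ} {V W : Type} [AddCommGroup V] [Module ℂ V] [AddCommGroup W] [Module ℂ W]
    {π : GL (Fin m) E →* Module.End ℂ V} {τ : GL (Fin (2 * m)) E →* Module.End ℂ W}
    {q : (GL (Fin (2 * m)) E → V ⊗[ℂ] V) → W} (h : IsSpehQuot π τ q) :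
    Function.Surjective (qU h) := by
  intro v
  obtain ⟨f, hf, hfv⟩ := h.surj v
  exact ⟨⟨f, (isInd_iff π f).1 hf⟩, hfv⟩

theorem qU_equiv {m : ℕ} {V W : Type} [AddCommGroup V] [Module ℂ V] [AddCommGroup W] [Module ℂ W]
    {π : GL (Fin m) E →* Module.End ℂ V} {τ : GL (Fin (2 * m)) E →* Module.End ℂ W}
    {q : (GL (Fin (2 * m)) E → V ⊗[ℂ] V) → W} (h : IsSpehQuot π τ q)
    (g : GL (Fin (2 * m)) E) (f : SpW.Ind (SpW.rho π (((m : ℝ) + 1) / 2))) :
    qU h (SpW.indAct (SpW.rho π (((m : ℝ) + 1) / 2)) g f) = τ g (qU h f) :=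
  h.trans g _ ((isInd_iff π _).2 f.2)

end main

end SpS
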