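import Pool.Agent.Work.MP_3615d2_al.Blk

/-!
MP_3615d2_al: statements of the modules of Theorem A.  NEVER import this file.
-/

open Polynomial MeasureTheory
open scoped Quaternion

namespace SpW.Tasks

/-- T1 (Quad.lean). -/
theorem quadDatum_exists : QuadDatumExists := sorry

section linalg

variable {F E : Type} [Field F] [Field E] [Algebra F E] {σ : E ≃ₐ[F] E} {δ : E} {d : F} {N : ℕ}
  {H B : Matrix (Fin N) (Fin N) E}

/-! T2 (Jop.lean) -/

theorem sig_sig (hq : QuadDatum σ δ d) (x : E) : σ (σ x) = x := sorry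

theorem J_smul (c : E) (x : Fin N → E) : Jlin σ H B (c • x) = σ c • Jlin σ H B x := sorry

theorem J_form (hq : QuadDatum σ δ d) (hH : IsSkew σ H) (x y : Fin N → E) :
    sk σ H x (Jlin σ H B y) = x ⬝ᵥ B.mulVec y := sorry

theorem J_adj (hq : QuadDatum σ δ d) (hH : IsSkew σ H) (hB : B.transpose = -B) (x y : Fin N → E) :
    sk σ H x (Jlin σ H B y) = σ (sk σ H (Jlin σ H B x) y) := sorry

theorem A_mulVec (hq : QuadDatum σ δ d) (y : Fin N → E) :
    Alin σ H B y = (Amat σ H B).mulVec y := sorry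

theorem A_adj (hq : QuadDatum σ δ d) (hH : IsSkew σ H) (hB : B.transpose = -B) (x y : Fin N → E) :
    sk σ H (Alin σ H B x) y = sk σ H x (Alin σ H B y) := sorry

/-- `h(x, J f(A) x) = 0` for all polynomials `f`. -/
theorem J_poly_self (hq : QuadDatum σ δ d) (hH : IsSkew σ H) (hB : B.transpose = -B) (f : F[X])
    (x : Fin N → E) : sk σ H x (Jlin σ H B (aeval (Alin σ H B) f x)) = 0 := sorry

theorem J_equiv (hq : QuadDatum σ δ d) (hH : IsSkew σ H) (g : unitary σ H) (B : Alt N E)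
    (x : Fin N → E) :
    Jlin σ H ((g : GL (Fin N) E) • B).1 ((umat g).mulVec x) =
      (umat g).mulVec (Jlin σ H B.1 x) := sorry

theorem charpoly_F (hq : QuadDatum σ δ d) (hH : IsSkew σ H) :
    ∃ P : F[X], (Amat σ H B).charpoly = P.map (algebraMap F E) := sorry

/-- `g ∈ U(X)` fixes `B` iff it commutes with `J_B`. -/
theorem fix_of_comm (hq : QuadDatum σ δ d) (hH : IsSkew σ H) (g : unitary σ H) (B : Alt N E)
    (h : ∀ x, Jlin σ H B.1 ((umat g).mulVec x) = (umat g).mulVec (Jlin σ H B.1 x)) :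
    (g : GL (Fin N) E) • B = B := sorry

/-! T4 (BlkExist.lean): note 6449, (2.1) and (2.2), odd case. -/

theorem exists_odd_block {m : ℕ} (hm : Odd m) {H : Matrix (Fin (2 * m)) (Fin (2 * m)) E}
    (hq : QuadDatum σ δ d) (hH : IsSkew σ H) (B : Alt (2 * m) E) :
    ∃ (p : F[X]) (n : ℕ) (x : Fin (2 * m) → E), p.Monic ∧ IsBlock σ H B.1 p n x ∧
      Odd (n * p.natDegree) := sorry

/-! T3 (BlkAlg.lean) -/

variable {p : F[X]} {n : ℕ} {x : Fin N → E}

theorem ract_mk (hx : aeval (Alin σ H B) (p ^ n) x = 0) (f : F[X]) :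
    ract σ H B p n x (AdjoinRoot.mk (p ^ n) f) = aeval (Alin σ H B) f x := sorry

/-- `blk` is `F`-linear (as a linear map), when `p(A)^n x = 0`. -/
theorem blk_lin (hq : QuadDatum σ δ d) (hx : aeval (Alin σ H B) (p ^ n) x = 0) :
    ∃ f : DD d p n →ₗ[F] (Fin N → E), ∀ a, f a = blk σ H B δ p n x a := sorry

theorem blk_inj (hq : QuadDatum σ δ d) (hH : IsSkew σ H) (hB : B.transpose = -B)
    (hx : IsBlock σ H B p n x) : Function.Injective (blk σ H B δ (d := d) p n x) := sorry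

theorem blk_E (hq : QuadDatum σ δ d) (hx : aeval (Alin σ H B) (p ^ n) x = 0) (a : DD d p n) :
    δ • blk σ H B δ p n x a = blk σ H B δ p n x (⟨0, 1, 0, 0⟩ * a) := sorry

theorem blk_J (hq : QuadDatum σ δ d) (hx : aeval (Alin σ H B) (p ^ n) x = 0) (a : DD d p n) :
    Jlin σ H B (blk σ H B δ p n x a) = blk σ H B δ p n x (⟨0, 0, 1, 0⟩ * a) := sorry

theorem blk_form (hq : QuadDatum σ δ d) (hH : IsSkew σ H) (hB : B.transpose = -B)
    (hx : IsBlock σ H B p n x) :
    ∃ s : RR p n →ₗ[F] F, (∀ r, (∀ r', s (r * r') = 0) → r = 0) ∧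
      (∃ r, s (r * AdjoinRoot.mk (p ^ n) p ^ (n - 1)) ≠ 0) ∧
      (∀ r, algebraMap F E (s r) * δ = sk σ H (ract σ H B p n x r) x) ∧
      ∀ a b : DD d p n, sympl F σ H (blk σ H B δ p n x a) (blk σ H B δ p n x b) =
        s (2 * ((⟨0, 1, 0, 0⟩ : DD d p n) * a * star b).re) := sorry

theorem blk_decomp (hq : QuadDatum σ δ d) (hH : IsSkew σ H) (hB : B.transpose = -B)
    (hx : IsBlock σ H B p n x) (y : Fin N → E) :
    ∃ (a : DD d p n) (z : Fin N → E), y = blk σ H B δ p n x a + z ∧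
      ∀ b : DD d p n, sk σ H (blk σ H B δ p n x b) z = 0 := sorry

theorem blkElt_exists (hq : QuadDatum σ δ d) (hH : IsSkew σ H) (B : Alt N E)
    (hx : IsBlock σ H B.1 p n x) (u : DD d p n) (hu : u * star u = 1) :
    ∃ g : unitary σ H, IsBlkElt σ H B.1 δ p n x u g := sorry

theorem blkElt_unique (hq : QuadDatum σ δ d) (hH : IsSkew σ H) (B : Alt N E)
    (hx : IsBlock σ H B.1 p n x) (u : DD d p n) (g g' : unitary σ H)
    (h : IsBlkElt σ H B.1 δ p n x u g) (h' : IsBlkElt σ H B.1 δ p n x u g') : g = g' := sorry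

theorem blkElt_fix (hq : QuadDatum σ δ d) (hH : IsSkew σ H) (B : Alt N E)
    (hx : IsBlock σ H B.1 p n x) (u : DD d p n) (g : unitary σ H)
    (h : IsBlkElt σ H B.1 δ p n x u g) : (g : GL (Fin N) E) • B = B := sorry

end linalg

section top

variable {F E : Type} [NontriviallyNormedField F] [IsUltrametricDist F] [ProperSpace F]
  [NontriviallyNormedField E] [NormedAlgebra F E] [IsUltrametricDist E] [ProperSpace E]
  {σ : E ≃ₐ[F] E} {δ : E} {d : F} {N : ℕ} {H : Matrix (Fin N) (Fin N) E}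

/-- T5 (Sect.lean): the continuous section through a block element, note 6449 (2.3).
`Z` is a set of forms containing `B₀` on which, near `B₀`, the rank of `p(A)^n` is constant. -/
theorem exists_section (hq : QuadDatum σ δ d) (hH : IsSkew σ H) (hσ : Continuous σ)
    (B₀ : Alt N E) (p : F[X]) (n : ℕ) (x₀ : Fin N → E) (hx : IsBlock σ H B₀.1 p n x₀)
    (Z : Set (Alt N E)) (hZ : B₀ ∈ Z)
    (hrank : ∀ᶠ B in nhdsWithin B₀ Z,
      Module.finrank F (LinearMap.range (aeval (Alin σ H B.1) (p ^ n))) =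
        Module.finrank F (LinearMap.range (aeval (Alin σ H B₀.1) (p ^ n))))
    (u : DD d p n) (hu : u * star u = 1) (hbdd : PowBdd F u) (g₀ : unitary σ H)
    (hg₀ : IsBlkElt σ H B₀.1 δ p n x₀ u g₀) :
    ∃ (V : Set (Alt N E)) (s : Alt N E → unitary σ H) (C : Subgroup (unitary σ H)),
      IsOpen V ∧ B₀ ∈ V ∧ ContinuousOn s (Z ∩ V) ∧ (∀ B ∈ Z ∩ V, ((s B : GL (Fin N) E) • B = B)) ∧
      s B₀ = g₀ ∧ IsOpen (C : Set (unitary σ H)) ∧ IsCompact (C : Set (unitary σ H)) ∧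
      g₀ ∈ C := sorry

/-- T5b: an element of `U(X)` with bounded powers lies in a compact open subgroup. -/
theorem exists_compactOpen (g : unitary σ H)
    (h : ∃ C : ℝ, ∀ (k : ℤ) (i j : Fin N), ‖umat (g ^ k) i j‖ ≤ C) :
    ∃ C : Subgroup (unitary σ H), IsOpen (C : Set (unitary σ H)) ∧
      IsCompact (C : Set (unitary σ H)) ∧ g ∈ C := sorry

end top

section kill

variable {F E : Type} [NontriviallyNormedField F] [IsUltrametricDist F] [ProperSpace F]
  [NontriviallyNormedField E] [NormedAlgebra F E] [IsUltrametricDist E] [ProperSpace E]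
  [MeasurableSpace E] [BorelSpace E]
  {σ : E ≃ₐ[F] E} {δ : E} {d : F} {N : ℕ} {H : Matrix (Fin N) (Fin N) E}
  {S : Type} [AddCommGroup S] [Module ℂ S]

/-- (C) of note 6449: sections 4 and 5 (A7 - A11). -/
theorem block_kill (hq : QuadDatum σ δ d) (hH : IsSkew σ H) (ψ : AddChar F Circle)
    (hψ : Continuous ψ) (hψ1 : ψ ≠ 1) (μ : Eˣ →* ℂˣ) (hμ : ConjSymplectic F μ)
    (hnn : ∃ x : F, x ≠ 0 ∧ ¬ ∃ y : E, Algebra.norm F y = x)
    (ρ : (Fin N → E) → Module.End ℂ S) (ω : unitary σ H →* Module.End ℂ S)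
    (hW : IsWeil σ H ψ μ ρ ω) (B : Alt N E) (p : F[X]) (hp : p.Monic) (n : ℕ) (x : Fin N → E)
    (hx : IsBlock σ H B.1 p n x) (hodd : Odd (n * p.natDegree)) (m' : S →ₗ[ℂ] ℂ)
    (hm : ∀ (u : DD d p n) (g : unitary σ H), u * star u = 1 → PowBdd F u →
      IsBlkElt σ H B.1 δ p n x u g → ∀ v, m' (ω g v) = m' v) : m' = 0 := sorry

end kill

end SpW.Tasks
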