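import Pool.Agent.Work.MP_3615d2_al.DefsB
import Pool.Agent.Work.MP_3615d2_al.BAlg
import Pool.Agent.Work.MP_3615d2_al.GK

/-!
MP_3615d2_al: statements of the modules of Theorem B.  NEVER import this file.
-/

open MeasureTheory Matrix Filter Topology
open scoped NNReal TensorProduct

namespace SpW.TasksB

/-! ### R1 (Coinv.lean, helper58) -/

section R1

variable {G V W : Type} [Group G] [TopologicalSpace G] [IsTopologicalGroup G] [AddCommGroup V]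
  [Module ℂ V] [AddCommGroup W] [Module ℂ W] {π : G →* Module.End ℂ V} {N : Subgroup G}

/-- R1a: exactness of the coinvariants. -/
theorem cvN_exact (hπ : IsSmoothRep π)
    (hN : ∃ C : ℕ → Subgroup G, Monotone C ∧ (∀ i, IsCompact (C i : Set G)) ∧
      ∀ n, n ∈ N ↔ ∃ i, n ∈ C i)
    {A B : Submodule ℂ V} (hAB : A ≤ B) (hA : ∀ n ∈ N, ∀ v ∈ A, π n v ∈ A)
    (hB : ∀ n ∈ N, ∀ v ∈ B, π n v ∈ B) : A ⊓ cvN π N B = cvN π N A := sorry

/-- R1b: coinvariants of quotients. -/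
theorem cvN_quo {A : Submodule ℂ V} (hA : IsStab π A) (B : Submodule ℂ V) :
    cvN (quoRep π A hA) N (B.map A.mkQ) = (cvN π N B).map A.mkQ := sorry

theorem cvN_sup (A B : Submodule ℂ V) : cvN π N (A ⊔ B) = cvN π N A ⊔ cvN π N B := sorry

theorem cvN_map {π' : G →* Module.End ℂ W} (T : V →ₗ[ℂ] W) (hT : ∀ g v, T (π g v) = π' g (T v))
    (A : Submodule ℂ V) : cvN π' N (A.map T) = (cvN π N A).map T := sorry

/-- R1c: stability under the normaliser. -/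
theorem cvN_stab {A : Submodule ℂ V} (p : G) (hp : ∀ n ∈ N, p * n * p⁻¹ ∈ N)
    (hA : ∀ v ∈ A, π p v ∈ A) : ∀ v ∈ cvN π N A, π p v ∈ cvN π N A := sorry

end R1

section R1'

variable {E : Type} [NontriviallyNormedField E] [IsUltrametricDist E] [ProperSpace E] {m : ℕ}
  {W A : Type} [AddCommGroup W] [Module ℂ W] [AddCommGroup A] [Module ℂ A]

/-- R1d: `Nk` is the increasing union of compact subgroups. -/
theorem Nk_union (n k : ℕ) : ∃ C : ℕ → Subgroup (GL (Fin n) E), Monotone C ∧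
    (∀ i, IsCompact (C i : Set (GL (Fin n) E))) ∧ ∀ u, u ∈ Nk n k E ↔ ∃ i, u ∈ C i := sorry

/-- R1e: `Nk (2m) m` consists of the `pel 1 1 b`. -/
theorem mem_Nk_mid (u : GL (Fin (2 * m)) E) : u ∈ Nk (2 * m) m E ↔ ∃ b, u = pel 1 1 b := sorry

theorem lowL_eq_zero (g : GL (Fin (2 * m)) E) :
    lowL (g : Matrix (Fin (2 * m)) (Fin (2 * m)) E) = 0 ↔ ∃ a d b, g = pel a d b := sorry

/-- R1f: Frobenius reciprocity. -/
theorem exists_frob (ρ : (GL (Fin m) E × GL (Fin m) E) →* Module.End ℂ W)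
    (πA : GL (Fin (2 * m)) E →* Module.End ℂ A) (hA : IsSmoothRep πA) (φ : A →ₗ[ℂ] W)
    (hφ : ∀ a d b v, φ (πA (pel a d b) v) = ρ (a, d) (φ v)) :
    ∃ F : A →ₗ[ℂ] Ind ρ, (∀ g v, F (πA g v) = indAct ρ g (F v)) ∧
      ∀ v, ((F v : Ind ρ) : GL (Fin (2 * m)) E → W) 1 = φ v := sorry

/-- R1g: an element of `Ind` whose translates vanish at `1` is zero. -/
theorem ind_ext_one (ρ : (GL (Fin m) E × GL (Fin m) E) →* Module.End ℂ W) (f : Ind ρ)
    (h : ∀ g, ((indAct ρ g f : Ind ρ) : GL (Fin (2 * m)) E → W) 1 = 0) : f = 0 := sorry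

/-- R1h: every vector of a smooth `ρ` is the value at `1` of an element of `Ind`. -/
theorem ind_ev_surj (ρ : (GL (Fin m) E × GL (Fin m) E) →* Module.End ℂ W) (hρ : IsSmoothRep ρ)
    (w : W) : ∃ f : Ind ρ, (f : GL (Fin (2 * m)) E → W) 1 = w := sorry

end R1'

/-! ### R4 (Adm.lean, helper40) -/

section R4

variable {E : Type} [NontriviallyNormedField E] [IsUltrametricDist E] [ProperSpace E]
  [MeasurableSpace E] [BorelSpace E] {m n : ℕ} {V : Type} [AddCommGroup V] [Module ℂ V]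

/-- R4a: cuspidal irreducible representations are admissible. -/
theorem cusp_adm {π : GL (Fin n) E →* Module.End ℂ V} (hπ : IsSmoothRep π) (hirr : IsIrrRep π)
    (hc : IsCusp π) (hu : UnitCentral π) (K : Subgroup (GL (Fin n) E))
    (hK : IsOpen (K : Set (GL (Fin n) E))) :
    ∃ S : Finset V, ∀ v, (∀ k ∈ K, π k v = v) → v ∈ Submodule.span ℂ (S : Set V) := sorry

/-- R4b: Schur's lemma. -/
theorem cusp_schur {π : GL (Fin n) E →* Module.End ℂ V} (hπ : IsSmoothRep π) (hirr : IsIrrRep π)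
    (hc : IsCusp π) (hu : UnitCentral π) (T : Module.End ℂ V) (hT : ∀ g v, T (π g v) = π g (T v)) :
    ∃ c : ℂ, ∀ v, T v = c • v := sorry

/-- R4c: `rho π s` is irreducible. -/
theorem rho_irr {π : GL (Fin m) E →* Module.End ℂ V} (hπ : IsSmoothRep π) (hirr : IsIrrRep π)
    (hc : IsCusp π) (hu : UnitCentral π) (s : ℝ) : IsIrrRep (rho π s) := sorry

/-- R4d. -/
theorem rho_smooth {π : GL (Fin m) E →* Module.End ℂ V} (hπ : IsSmoothRep π) (s : ℝ) :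
    IsSmoothRep (rho π s) := sorry

/-- R4e: the two cuspidality conditions. -/
theorem rho_cusp {π : GL (Fin m) E →* Module.End ℂ V} (hc : IsCusp π) (s : ℝ) (k : ℕ)
    (hk0 : 0 < k) (hk : k < m) : cvN (rho π s) ((Nk m k E).prod ⊥) ⊤ = ⊤ ∧
      cvN (rho π s) ((⊥ : Subgroup (GL (Fin m) E)).prod (Nk m k E)) ⊤ = ⊤ := sorry

/-- R4f: the centre of `GL_{2m}` acts on `Ind` by a unitary character. -/
theorem ind_unitCentral {W : Type} [AddCommGroup W] [Module ℂ W]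
    (ρ : (GL (Fin m) E × GL (Fin m) E) →* Module.End ℂ W) (χ : Eˣ → ℂ)
    (hχ : ∀ z w, ρ (Matrix.GeneralLinearGroup.scalar (Fin m) z,
      Matrix.GeneralLinearGroup.scalar (Fin m) z) w = χ z • w) (z : Eˣ) (f : Ind ρ) :
    indAct ρ (Matrix.GeneralLinearGroup.scalar (Fin (2 * m)) z) f = χ z • f := sorry

theorem rho_unitCentral {π : GL (Fin m) E →* Module.End ℂ V} (hu : UnitCentral π) (s : ℝ) :
    ∃ χ : Eˣ → ℂ, (∀ z, ‖χ z‖ = 1) ∧ ∀ z w, rho π s (Matrix.GeneralLinearGroup.scalar (Fin m) z,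
      Matrix.GeneralLinearGroup.scalar (Fin m) z) w = χ z • w := sorry

end R4

/-! ### R6 (helper50, helper78) -/

section R6

variable {E : Type} [NontriviallyNormedField E] [IsUltrametricDist E] [ProperSpace E]
  {m : ℕ} {W : Type} [AddCommGroup W] [Module ℂ W]

/-- R6a. -/
theorem ind_coinv_ne (ρ : (GL (Fin m) E × GL (Fin m) E) →* Module.End ℂ W) (hρ : IsSmoothRep ρ)
    (h1 : ∀ k, 0 < k → k < m → cvN ρ ((Nk m k E).prod ⊥) ⊤ = ⊤)
    (h2 : ∀ k, 0 < k → k < m →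
      cvN ρ ((⊥ : Subgroup (GL (Fin m) E)).prod (Nk m k E)) ⊤ = ⊤)
    {k : ℕ} (hk0 : 0 < k) (hk : k < 2 * m) (hkm : k ≠ m) :
    cvN (indAct ρ) (Nk (2 * m) k E) ⊤ = ⊤ := sorry

/-- R6b. -/
theorem ind_coinv_mid (ρ : (GL (Fin m) E × GL (Fin m) E) →* Module.End ℂ W) (hρ : IsSmoothRep ρ)
    (h1 : ∀ k, 0 < k → k < m → cvN ρ ((Nk m k E).prod ⊥) ⊤ = ⊤)
    (h2 : ∀ k, 0 < k → k < m →
      cvN ρ ((⊥ : Subgroup (GL (Fin m) E)).prod (Nk m k E)) ⊤ = ⊤)
    (f : Ind ρ) (hf : (f : GL (Fin (2 * m)) E → W) 1 = 0) :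
    ∃ f₀ : Ind ρ, f - f₀ ∈ cvN (indAct ρ) (Nk (2 * m) m E) ⊤ ∧
      ∀ g, (f₀ : GL (Fin (2 * m)) E → W) g ≠ 0 →
        IsUnit (lowL (g : Matrix (Fin (2 * m)) (Fin (2 * m)) E)).det := sorry

end R6

/-! ### R7 (helper15) -/

section R7

variable {E : Type} [NontriviallyNormedField E] [IsUltrametricDist E] [ProperSpace E]
  [MeasurableSpace E] [BorelSpace E] {m : ℕ} {V W : Type} [AddCommGroup V] [Module ℂ V]
  [AddCommGroup W] [Module ℂ W]

/-- R7a: the open cell. -/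
theorem open_cell (ρ : (GL (Fin m) E × GL (Fin m) E) →* Module.End ℂ W) (hρ : IsSmoothRep ρ) :
    ∃ κ : Ind ρ →ₗ[ℂ] W,
      (∀ (a d : GL (Fin m) E) (b : Matrix (Fin m) (Fin m) E) (f : Ind ρ),
        (∀ g, (f : GL (Fin (2 * m)) E → W) g ≠ 0 →
          IsUnit (lowL (g : Matrix (Fin (2 * m)) (Fin (2 * m)) E)).det) →
        κ (indAct ρ (pel a d b) f) =
          ((ad a ^ (m : ℝ) * ad d ^ (-(m : ℝ)) : ℝ) : ℂ) • ρ (d, a) (κ f)) ∧
      (∀ w, ∃ f : Ind ρ, (∀ g, (f : GL (Fin (2 * m)) E → W) g ≠ 0 →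
          IsUnit (lowL (g : Matrix (Fin (2 * m)) (Fin (2 * m)) E)).det) ∧ κ f = w) ∧
      ∀ f : Ind ρ, (∀ g, (f : GL (Fin (2 * m)) E → W) g ≠ 0 →
          IsUnit (lowL (g : Matrix (Fin (2 * m)) (Fin (2 * m)) E)).det) →
        (κ f = 0 ↔ f ∈ cvN (indAct ρ) (Nk (2 * m) m E) ⊤) := sorry

/-- R7b: the second projection of the coinvariants. -/
theorem exists_second {π : GL (Fin m) E →* Module.End ℂ V} (hm : 0 < m) (hπ : IsSmoothRep π)
    (hc : IsCusp π) (hu : UnitCentral π) {s : ℝ} (hs : s ≠ m / 2) :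
    ∃ e' : Ind (rho π s) →ₗ[ℂ] V ⊗[ℂ] V,
      (∀ a d b f, e' (indAct (rho π s) (pel a d b) f) = rho π (m - s) (a, d) (e' f)) ∧
      (∀ w w', ∃ f : Ind (rho π s), (f : GL (Fin (2 * m)) E → V ⊗[ℂ] V) 1 = w ∧ e' f = w') ∧
      ∀ f : Ind (rho π s), (f : GL (Fin (2 * m)) E → V ⊗[ℂ] V) 1 = 0 → e' f = 0 →
        f ∈ cvN (indAct (rho π s)) (Nk (2 * m) m E) ⊤ := sorry

/-- R7c: `absE` takes a value different from `1`, hence so does the scalar by which the central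
element `(z, 1)` of `M` acts on the two pieces. -/
theorem exists_split {π : GL (Fin m) E →* Module.End ℂ V} (hm : 0 < m) (hu : UnitCentral π)
    {s : ℝ} (hs : s ≠ m / 2) : ∃ (z : Eˣ) (c c' : ℂ), c ≠ c' ∧
      (∀ w, rho π s (Matrix.GeneralLinearGroup.scalar (Fin m) z, 1) w = c • w) ∧
      ∀ w, rho π (m - s) (Matrix.GeneralLinearGroup.scalar (Fin m) z, 1) w = c' • w := sorry

end R7

/-! ### R3 (helper25, with helper59's BForm) -/

section R3

variable {E : Type} [NontriviallyNormedField E] [IsUltrametricDist E] [ProperSpace E]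
  {m : ℕ} {W : Type} [AddCommGroup W] [Module ℂ W]

/-- R3: a subquotient of `Ind ρ` without coinvariants is zero. -/
theorem ind_noCusp (hm : 0 < m) (ρ : (GL (Fin m) E × GL (Fin m) E) →* Module.End ℂ W)
    (hρ : IsSmoothRep ρ)
    (h1 : ∀ k, 0 < k → k < m → cvN ρ ((Nk m k E).prod ⊥) ⊤ = ⊤)
    (h2 : ∀ k, 0 < k → k < m →
      cvN ρ ((⊥ : Subgroup (GL (Fin m) E)).prod (Nk m k E)) ⊤ = ⊤)
    (χ : Eˣ → ℂ) (hχ1 : ∀ z, ‖χ z‖ = 1)
    (hχ : ∀ z w, ρ (Matrix.GeneralLinearGroup.scalar (Fin m) z,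
      Matrix.GeneralLinearGroup.scalar (Fin m) z) w = χ z • w)
    {B C : Submodule ℂ (Ind ρ)} (hB : IsStab (indAct ρ) B) (hC : IsStab (indAct ρ) C)
    (hCB : C ≤ B) (h : B ≤ C ⊔ cvN (indAct ρ) (Nk (2 * m) m E) B) : B ≤ C := sorry

end R3

/-! ### R8, R9, R10 -/

section R8

variable {E : Type} [NontriviallyNormedField E] [IsUltrametricDist E] [ProperSpace E]
  [MeasurableSpace E] [BorelSpace E] {m : ℕ} {V : Type} [AddCommGroup V] [Module ℂ V]

/-- R9 (helper29, helper13): `π^τ ≅ π^∨`, `π^τ(g) = π(g^{-t})`. -/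
theorem exists_gk_pairing {π : GL (Fin m) E →* Module.End ℂ V} (hπ : IsSmoothRep π)
    (hirr : IsIrrRep π) (hc : IsCusp π) (hu : UnitCentral π) :
    ∃ l : V →ₗ[ℂ] V →ₗ[ℂ] ℂ, l ≠ 0 ∧ ∀ g v w, l (π g v) (π (trGL g⁻¹) w) = l v w := sorry

/-- R9b: a smooth functional comes from the pairing. -/
theorem gk_pairing_surj {π : GL (Fin m) E →* Module.End ℂ V} (hπ : IsSmoothRep π)
    (hirr : IsIrrRep π) (hc : IsCusp π) (hu : UnitCentral π) (l : V →ₗ[ℂ] V →ₗ[ℂ] ℂ) (hl : l ≠ 0)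
    (hlG : ∀ g v w, l (π g v) (π (trGL g⁻¹) w) = l v w) (ξ : V →ₗ[ℂ] ℂ) (hξ : ξ ∈ gDual π) :
    ∃ w, ξ = l.flip w := sorry

/-- R8 (helper12): (4a), `m` odd. -/
theorem alt_hom_zero (hm : Odd m) (h2 : (2 : E) ≠ 0) {π : GL (Fin m) E →* Module.End ℂ V}
    (hπ : IsSmoothRep π) (hirr : IsIrrRep π) (hc : IsCusp π) (hu : UnitCentral π)
    (φ : Sch (Alt (2 * m) E) ℂ →ₗ[ℂ] V ⊗[ℂ] V)
    (hφ : ∀ a d b f f', IsTransl (pel a d b) f f' →
      φ f' = rho π (((m : ℝ) + 1) / 2) (a, d) (φ f)) : φ = 0 := sorry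

/-- R10 (helper12): (4b). -/
theorem alt_hom_exists (hm : 0 < m) (h2 : (2 : E) ≠ 0) {π : GL (Fin m) E →* Module.End ℂ V}
    (hπ : IsSmoothRep π) (hirr : IsIrrRep π) (hc : IsCusp π) (hu : UnitCentral π) :
    ∃ φ : Sch (Alt (2 * m) E) ℂ →ₗ[ℂ] V ⊗[ℂ] V, φ ≠ 0 ∧
      ∀ a d b f f', IsTransl (pel a d b) f f' →
        φ f' = rho π (((m : ℝ) - 1) / 2) (a, d) (φ f) := sorry

end R8

/-! ### FINAL (helper28) -/

section final

variable {E : Type} [NontriviallyNormedField E] [IsUltrametricDist E] [ProperSpace E]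
  [MeasurableSpace E] [BorelSpace E] {m : ℕ} {V W : Type} [AddCommGroup V] [Module ℂ V]
  [AddCommGroup W] [Module ℂ W]

/-- **Theorem B**: every irreducible quotient of `Ind(|det|^{1/2} π ⊗ |det|^{-1/2} π)` (normalised)
is a quotient of the space of locally constant compactly supported functions on the space of
nondegenerate alternating forms. -/
theorem theoremB (hm : Odd m) (h2 : (2 : E) ≠ 0) {π : GL (Fin m) E →* Module.End ℂ V}
    (hπ : IsSmoothRep π) (hirr : IsIrrRep π) (hc : IsCusp π) (hu : UnitCentral π)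
    {σ : GL (Fin (2 * m)) E →* Module.End ℂ W} (hσ : IsIrrRep σ)
    (q : Ind (rho π (((m : ℝ) + 1) / 2)) →ₗ[ℂ] W) (hq : Function.Surjective q)
    (hqG : ∀ g f, q (indAct (rho π (((m : ℝ) + 1) / 2)) g f) = σ g (q f)) :
    ∃ e : Sch (Alt (2 * m) E) ℂ →ₗ[ℂ] W, Function.Surjective e ∧
      ∀ g f f', IsTransl g f f' → e f' = σ g (e f) := sorry

end final

end SpW.TasksB
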