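import Pool.Agent.Work.MP_3615d2_al.ThmA1
import Pool.Agent.Work.MP_3615d2_al.A9

/-!
MP_3615d2_al: Theorem A.
-/

open Set Topology Polynomial

namespace SpW

section main

variable {F E : Type} [NontriviallyNormedField F] [IsUltrametricDist F] [ProperSpace F]
  [NontriviallyNormedField E] [NormedAlgebra F E] [IsUltrametricDist E] [ProperSpace E]
  [MeasurableSpace E] [BorelSpace E] {σ : E ≃ₐ[F] E}

/-- **Theorem A.** `V` a quotient of `C_c^∞` of the space of nondegenerate alternating forms on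
`X = E^{2m}`, `m` odd or `X` without an isotropic subspace of dimension `m`: there is no nonzero
`U(X)`-map from `V` to the Weil representation. -/
theorem thmA {m : ℕ} {H : Matrix (Fin (2 * m)) (Fin (2 * m)) E}
    (h2 : (2 : F) ≠ 0) (hrank : Module.finrank F E = 2) (hσ : ∃ x, σ x ≠ x) (hH : IsSkew σ H)
    (hcase : Odd m ∨ ¬ ∃ Y : Submodule E (Fin (2 * m) → E), Module.finrank E Y = m ∧
      ∀ y ∈ Y, ∀ z ∈ Y, sk σ H y z = 0)
    {ψ : AddChar F Circle} (hψ : Continuous ψ) (hψ1 : ψ ≠ 1) {μ : Eˣ →* ℂˣ}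
    (hμ : ConjSymplectic F μ) {S : Type} [AddCommGroup S] [Module ℂ S]
    {ρ : (Fin (2 * m) → E) → Module.End ℂ S} {ω : unitary σ H →* Module.End ℂ S}
    (hW : IsWeil σ H ψ μ ρ ω)
    {V : Type} [AddCommGroup V] [Module ℂ V] (π : GL (Fin (2 * m)) E →* Module.End ℂ V)
    (e : Sch (Alt (2 * m) E) ℂ →ₗ[ℂ] V) (he : Function.Surjective e)
    (hequiv : ∀ (g : GL (Fin (2 * m)) E) (f f' : Sch (Alt (2 * m) E) ℂ),
      (∀ B, (f' : Alt (2 * m) E → ℂ) B = (f : Alt (2 * m) E → ℂ) (g⁻¹ • B)) → e f' = π g (e f))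
    (T : V →ₗ[ℂ] S) (hT : ∀ (u : unitary σ H) (v : V), T (π u v) = ω u (T v)) : T = 0 := by
  obtain ⟨δ, d, hq⟩ := quadDatum_exists F E σ h2 hrank hσ
  refine thmA_of hq hH hcase hψ hψ1 hμ hW ?_ π e he hequiv T hT
  intro B p n x _ hx hn hK _ m' hm
  have hψ' : Continuous (ψ⁻¹ : AddChar F Circle) := continuous_inv_char hψ
  exact block_kill hq hH (conjSymplectic_inv hμ) hψ' (inv_char_ne hψ1)
    (weil_dual hW hq hH hψ hψ1 hμ) B hx hn hK hm

end main

end SpW
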