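import Pool.Agent.Work.MP_3615d2_al.ThmA0

/-!
MP_3615d2_al: Theorem A, from the vanishing for every block.
-/

open Set Topology Polynomial

namespace SpW

section main

variable {F E : Type} [NontriviallyNormedField F] [IsUltrametricDist F] [ProperSpace F]
  [NontriviallyNormedField E] [NormedAlgebra F E] [IsUltrametricDist E] [ProperSpace E]
  [MeasurableSpace E] [BorelSpace E] {σ : E ≃ₐ[F] E} {δ : E} {d : F}

theorem thmA_of {m : ℕ} {H : Matrix (Fin (2 * m)) (Fin (2 * m)) E}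
    (hq : QuadDatum σ δ d) (hH : IsSkew σ H)
    (hcase : Odd m ∨ ¬ ∃ Y : Submodule E (Fin (2 * m) → E), Module.finrank E Y = m ∧
      ∀ y ∈ Y, ∀ z ∈ Y, sk σ H y z = 0)
    {ψ : AddChar F Circle} (hψ : Continuous ψ) (hψ1 : ψ ≠ 1) {μ : Eˣ →* ℂˣ}
    (hμ : ConjSymplectic F μ) {S : Type} [AddCommGroup S] [Module ℂ S]
    {ρ : (Fin (2 * m) → E) → Module.End ℂ S} {ω : unitary σ H →* Module.End ℂ S}
    (hW : IsWeil σ H ψ μ ρ ω)
    (hkill : ∀ (B : Alt (2 * m) E) (p : F[X]) (n : ℕ) (x : Fin (2 * m) → E), p.Monic →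
      IsBlock σ H B.1 p n x → Odd n →
      (¬ ∃ z : AdjoinRoot p, z * z = algebraMap F (AdjoinRoot p) d) →
      (∃ z : AdjoinRoot p, z ≠ 0 ∧ ¬ ∃ y : E, Algebra.norm F y = Algebra.norm F z) →
      ∀ m' : hDual ρ →ₗ[ℂ] ℂ, (∀ (u : DD d p n) (g : unitary σ H), u * star u = 1 →
        PowBdd F u → IsBlkElt σ H B.1 δ p n x u g → ∀ v, m' (omD hW g v) = m' v) → m' = 0)
    {V : Type} [AddCommGroup V] [Module ℂ V] (π : GL (Fin (2 * m)) E →* Module.End ℂ V)
    (e : Sch (Alt (2 * m) E) ℂ →ₗ[ℂ] V) (he : Function.Surjective e)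
    (hequiv : ∀ (g : GL (Fin (2 * m)) E) (f f' : Sch (Alt (2 * m) E) ℂ),
      (∀ B, (f' : Alt (2 * m) E → ℂ) B = (f : Alt (2 * m) E → ℂ) (g⁻¹ • B)) → e f' = π g (e f))
    (T : V →ₗ[ℂ] S) (hT : ∀ (u : unitary σ H) (v : V), T (π u v) = ω u (T v)) : T = 0 := by
  let A : Sch (Alt (2 * m) E) ℂ →ₗ[ℂ] hDual ρ →ₗ[ℂ] ℂ :=
    LinearMap.mk₂ ℂ (fun f ξ => ξ.1 (T (e f)))
      (fun f g ξ => by rw [map_add, map_add, map_add])
      (fun c f ξ => by rw [map_smul, map_smul, map_smul])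
      (fun f ξ η => rfl) (fun c f ξ => rfl)
  have hA : ∀ f ξ, A f ξ = ξ.1 (T (e f)) := fun f ξ => rfl
  obtain ⟨L, hL⟩ := exists_functional_of_pairing A
  have hcs : ContinuousSMul (unitary σ H) (Alt (2 * m) E) := inferInstance
  have hL0 : L = 0 := by
    refine alt_vanish hq hH hcase (omD hW) (omD_smooth hW hq hH hψ hψ1) hkill L ?_
    intro g f f' hff
    have h1 : L ∘ₗ (gact (omD hW) g) = L := by
      apply functional_ext
      intro f s
      have h2 : gact (omD hW) g (Sch.tmul f s) =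
          Sch.tmul (gact (1 : unitary σ H →* Module.End ℂ ℂ) g f) (omD hW g s) := by
        apply Sch.ext'
        intro x
        rw [gact_apply, Sch.tmul_apply, Sch.tmul_apply, gact_apply, map_smul]
        rfl
      have h3 : e (gact (1 : unitary σ H →* Module.End ℂ ℂ) g f) =
          π (g : GL (Fin (2 * m)) E) (e f) := by
        apply hequiv
        intro B
        rfl
      rw [LinearMap.comp_apply, h2, hL, hL, hA, hA, h3, hT, omD_apply]
      have h4 : ω g⁻¹ (ω g (T (e f))) = T (e f) := by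
        rw [← Module.End.mul_apply, ← map_mul, inv_mul_cancel, map_one, Module.End.one_apply]
      rw [h4]
    have h5 : f' = gact (omD hW) g f := Sch.ext' fun B => by rw [hff, gact_apply]
    rw [h5]
    exact congrArg (fun l : Sch (Alt (2 * m) E) (hDual ρ) →ₗ[ℂ] ℂ => l f) h1
  ext v
  obtain ⟨f, rfl⟩ := he v
  rw [LinearMap.zero_apply]
  apply hDual_separates hW hq hH hψ hψ1
  intro ξ
  rw [← hA, ← hL, hL0, LinearMap.zero_apply]

end main

end SpW
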