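import Pool.Agent.Work.MP_3615d2_al.DualDefs

/-!
MP_3615d2_al, Theorem B, module B5 (note 6471, Step 3): if a smooth representation `A` with a
unitary central character has a nonzero quotient `V` whose matrix coefficients have compact
support modulo the centre, then there is a nonzero equivariant map `V → A`.
-/

open Filter Topology MeasureTheory
open scoped ComplexConjugate

namespace SpW

/-! ## Sums over the cosets of an open subgroup -/

section qsum

variable {G : Type} [Group G]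

/-- the sum of a right `H`-invariant function over `G / H` -/
noncomputable def qsum (H : Subgroup G) {W : Type} [AddCommMonoid W] (F : G → W) : W :=
  ∑ᶠ x : G ⧸ H, F x.out

/-- `F` is right `H`-invariant -/
def RInv (H : Subgroup G) {W : Type} (F : G → W) : Prop := ∀ g, ∀ h ∈ H, F (g * h) = F g

theorem RInv.out {H : Subgroup G} {W : Type} {F : G → W} (hF : RInv H F) (g : G) :
    F ((g : G ⧸ H)).out = F g := by
  have h1 : ((g : G ⧸ H)).out⁻¹ * g ∈ H := QuotientGroup.eq.1 (Quotient.out_eq' (g : G ⧸ H))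
  have h2 := hF ((g : G ⧸ H)).out _ h1
  rw [mul_inv_cancel_left] at h2
  exact h2.symm

theorem qsum_mul_left {H : Subgroup G} {W : Type} [AddCommMonoid W] {F : G → W} (hF : RInv H F)
    (h : G) : qsum H (fun g => F (h * g)) = qsum H F := by
  unfold qsum
  have h0 := finsum_comp_equiv (MulAction.toPerm h : Equiv.Perm (G ⧸ H)) (f := fun x => F x.out)
  refine Eq.trans ?_ h0
  apply finsum_congr
  intro x
  have h1 : MulAction.toPerm h x = ((h * x.out : G) : G ⧸ H) := by
    conv_lhs => rw [← Quotient.out_eq' x]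
    rfl
  show F (h * x.out) = F ((MulAction.toPerm h : Equiv.Perm (G ⧸ H)) x).out
  rw [h1]
  exact (hF.out (h * x.out)).symm

theorem RInv.of_sup {K Z : Subgroup G} {W : Type} {F : G → W} (hK : RInv K F) (hZ : RInv Z F) :
    RInv (K ⊔ Z) F := by
  let S : Subgroup G :=
    { carrier := {h | ∀ g, F (g * h) = F g}
      mul_mem' := by
        intro a b ha hb g
        rw [← mul_assoc, hb, ha]
      one_mem' := by
        intro g
        rw [mul_one]
      inv_mem' := by
        intro a ha g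
        have := ha (g * a⁻¹)
        rw [inv_mul_cancel_right] at this
        exact this.symm }
  have h1 : K ⊔ Z ≤ S := sup_le (fun h hh g => hK g h hh) (fun h hh g => hZ g h hh)
  exact fun g h hh => h1 hh g

/-- `F` has compact support modulo `Z` -/
def CptMod [TopologicalSpace G] (Z : Subgroup G) {W : Type} [Zero W] (F : G → W) : Prop :=
  ∃ C : Set G, IsCompact C ∧ ∀ g, F g ≠ 0 → ∃ c ∈ C, ∃ z ∈ Z, g = c * z

theorem CptMod.finite [TopologicalSpace G] [IsTopologicalGroup G] {Z K : Subgroup G}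
    (hK : IsOpen (K : Set G)) {W : Type} [Zero W] {F : G → W} (hF : CptMod Z F) :
    (Function.support (fun x : G ⧸ (K ⊔ Z) => F x.out)).Finite := by
  obtain ⟨C, hC, h⟩ := hF
  have hH : IsOpen ((K ⊔ Z : Subgroup G) : Set G) := Subgroup.isOpen_mono le_sup_left hK
  have : DiscreteTopology (G ⧸ (K ⊔ Z)) := QuotientGroup.discreteTopology hH
  have h1 : (((↑) : G → G ⧸ (K ⊔ Z)) '' C).Finite :=
    (hC.image QuotientGroup.continuous_mk).finite_of_discrete
  refine h1.subset ?_
  intro x hx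
  obtain ⟨c, hc, z, hz, h2⟩ := h _ hx
  refine ⟨c, hc, ?_⟩
  rw [← Quotient.out_eq' x]
  show ((c : G) : G ⧸ (K ⊔ Z)) = (x.out : G)
  rw [h2]
  refine QuotientGroup.eq.2 ?_
  rw [inv_mul_cancel_left]
  exact (le_sup_right : Z ≤ K ⊔ Z) hz

theorem qsum_add {H : Subgroup G} {W : Type} [AddCommMonoid W] {F F' : G → W}
    (h : (Function.support (fun x : G ⧸ H => F x.out)).Finite)
    (h' : (Function.support (fun x : G ⧸ H => F' x.out)).Finite) :
    qsum H (fun g => F g + F' g) = qsum H F + qsum H F' :=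
  finsum_add_distrib h h'

theorem qsum_smul {H : Subgroup G} {W : Type} [AddCommGroup W] [Module ℂ W] (c : ℂ) (F : G → W) :
    qsum H (fun g => c • F g) = c • qsum H F := (smul_finsum c _).symm

theorem qsum_map {H : Subgroup G} {W W' : Type} [AddCommGroup W] [Module ℂ W] [AddCommGroup W']
    [Module ℂ W'] (T : W →ₗ[ℂ] W') (F : G → W)
    (h : (Function.support (fun x : G ⧸ H => F x.out)).Finite) :
    T (qsum H F) = qsum H (fun g => T (F g)) :=
  T.toAddMonoidHom.map_finsum h

theorem qsum_sq_pos {H : Subgroup G} {F : G → ℂ} (hF : RInv H F)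
    (h : (Function.support (fun x : G ⧸ H => F x.out)).Finite) {g₀ : G} (h0 : F g₀ ≠ 0) :
    qsum H (fun g => F g * conj (F g)) ≠ 0 := by
  have h1 : (Function.support (fun x : G ⧸ H => F x.out * conj (F x.out))).Finite := by
    refine h.subset ?_
    intro x hx hx0
    exact hx (by
      have hx1 : F x.out = 0 := hx0
      simp [hx1])
  have h2 : (qsum H (fun g => F g * conj (F g))).re =
      ∑ x ∈ h1.toFinset, Complex.normSq (F x.out) := by
    unfold qsum
    rw [finsum_eq_sum _ h1, Complex.re_sum]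
    apply Finset.sum_congr rfl
    intro x _
    rw [Complex.mul_conj, Complex.ofReal_re]
  intro h3
  rw [h3, Complex.zero_re] at h2
  have h4 : 0 < ∑ x ∈ h1.toFinset, Complex.normSq (F x.out) := by
    apply Finset.sum_pos'
    · intro x _
      exact Complex.normSq_nonneg _
    · refine ⟨(g₀ : G ⧸ H), ?_, ?_⟩
      · rw [Set.Finite.mem_toFinset]
        show F ((g₀ : G ⧸ H)).out * conj (F ((g₀ : G ⧸ H)).out) ≠ 0
        rw [hF.out]
        simpa using h0
      · rw [hF.out]
        exact Complex.normSq_pos.2 h0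
  linarith

end qsum

/-! ## Smooth functionals -/

section exi

variable {G : Type} [Group G] [TopologicalSpace G] [IsTopologicalGroup G]
  {V : Type} [AddCommGroup V] [Module ℂ V]

/-- there are enough smooth functionals -/
theorem exists_smooth_functional (hG : ∀ U ∈ 𝓝 (1 : G), ∃ K : Subgroup G,
      IsOpen (K : Set G) ∧ IsCompact (K : Set G) ∧ (K : Set G) ⊆ U)
    {π : G →* Module.End ℂ V} (hπ : IsSmoothRep π) {x : V} (hx : x ≠ 0) :
    ∃ f ∈ gDual π, f x ≠ 0 := by
  obtain ⟨K, hKo, hKc, hK⟩ := hG _ (hπ x)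
  have : CompactSpace K := isCompact_iff_compactSpace.1 hKc
  let _ : MeasurableSpace K := borel K
  have : BorelSpace K := ⟨rfl⟩
  let μ : Measure K := Measure.haar
  obtain ⟨f₀, hf₀⟩ : ∃ f₀ : V →ₗ[ℂ] ℂ, f₀ x ≠ 0 := by
    by_contra h
    push Not at h
    exact hx ((Module.forall_dual_apply_eq_zero_iff ℂ x).1 h)
  have hc : ∀ v, Continuous (fun k : K => f₀ (π (k : G)⁻¹ v)) := by
    intro v
    apply IsLocallyConstant.continuous
    rw [IsLocallyConstant.iff_eventually_eq]
    intro k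
    have h1 : ∀ᶠ g in 𝓝 (1 : G), π g v = v := hπ v
    have h2 : Tendsto (fun j : K => (j : G)⁻¹ * (k : G)) (𝓝 k) (𝓝 1) := by
      have : Continuous (fun j : K => (j : G)⁻¹ * (k : G)) := by fun_prop
      simpa using this.tendsto k
    have h3 : Tendsto (fun j : K => (k : G) * (j : G)⁻¹) (𝓝 k) (𝓝 1) := by
      have : Continuous (fun j : K => (k : G) * (j : G)⁻¹) := by fun_prop
      simpa using this.tendsto k
    filter_upwards [h3.eventually h1] with j hj
    have h4 : π (j : G)⁻¹ v = π (k : G)⁻¹ (π ((k : G) * (j : G)⁻¹) v) := by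
      rw [← Module.End.mul_apply, ← map_mul, inv_mul_cancel_left]
    rw [h4, hj]
  have hi : ∀ v, Integrable (fun k : K => f₀ (π (k : G)⁻¹ v)) μ := fun v =>
    (hc v).integrable_of_hasCompactSupport (HasCompactSupport.of_compactSpace _)
  let f : V →ₗ[ℂ] ℂ :=
    { toFun := fun v => ∫ k : K, f₀ (π (k : G)⁻¹ v) ∂μ
      map_add' := by
        intro a b
        simp only [map_add]
        exact integral_add (hi a) (hi b)
      map_smul' := by
        intro c a
        simp only [map_smul, RingHom.id_apply]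
        exact integral_smul c _ }
  refine ⟨f, ?_, ?_⟩
  · have h1 : ∀ᶠ g in 𝓝 (1 : G), g ∈ K := hKo.mem_nhds K.one_mem
    filter_upwards [h1] with g hg v
    show ∫ k : K, f₀ (π (k : G)⁻¹ (π g v)) ∂μ = ∫ k : K, f₀ (π (k : G)⁻¹ v) ∂μ
    rw [← integral_mul_left_eq_self (fun k : K => f₀ (π (k : G)⁻¹ v)) (⟨g, hg⟩⁻¹ : K)]
    congr 1
    ext k
    have : (((⟨g, hg⟩⁻¹ : K) * k : K) : G)⁻¹ = (k : G)⁻¹ * g := by simp
    rw [this, map_mul, Module.End.mul_apply]
  · have h1 : ∀ k : K, f₀ (π (k : G)⁻¹ x) = f₀ x := by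
      intro k
      have : π (k : G)⁻¹ x = x := hK (K.inv_mem k.2)
      rw [this]
    show ∫ k : K, f₀ (π (k : G)⁻¹ x) ∂μ ≠ 0
    simp only [h1, integral_const]
    rw [smul_ne_zero_iff]
    refine ⟨?_, hf₀⟩
    rw [Measure.real, ENNReal.toReal_ne_zero]
    exact ⟨isOpen_univ.measure_ne_zero μ Set.univ_nonempty, isCompact_univ.measure_ne_top⟩

end exi

/-! ## The unitarity trick -/

section unit

variable {G : Type} [Group G] [TopologicalSpace G] [IsTopologicalGroup G]
  {V : Type} [AddCommGroup V] [Module ℂ V]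

/-- (HC) the matrix coefficients of `π` have compact support modulo `Z` -/
def HasHC (Z : Subgroup G) (π : G →* Module.End ℂ V) : Prop :=
  ∀ (v : V), ∀ f ∈ gDual π, CptMod Z (fun g => f (π g v))

theorem HasHC.inv {Z : Subgroup G} (hZ : ∀ z ∈ Z, ∀ g, z * g = g * z) {π : G →* Module.End ℂ V}
    (h : HasHC Z π) (v : V) {f : V →ₗ[ℂ] ℂ} (hf : f ∈ gDual π) :
    CptMod Z (fun g => f (π g⁻¹ v)) := by
  obtain ⟨C, hC, h1⟩ := h v f hf
  refine ⟨C⁻¹, hC.inv, fun g hg => ?_⟩
  obtain ⟨c, hc, z, hz, h2⟩ := h1 g⁻¹ hg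
  refine ⟨c⁻¹, by simpa using hc, z⁻¹, Z.inv_mem hz, ?_⟩
  rw [← inv_inv g, h2, mul_inv_rev]
  exact hZ _ (Z.inv_mem hz) _

/-- the invariant form attached to a functional `f` -/
noncomputable def uform (H : Subgroup G) (π : G →* Module.End ℂ V) (f : V →ₗ[ℂ] ℂ) (a b : V) : ℂ :=
  qsum H (fun g => f (π g⁻¹ a) * conj (f (π g⁻¹ b)))

/-- **The unitarity trick** (note 6471, Step 3). -/
theorem exists_hom_of_hc (hG : ∀ U ∈ 𝓝 (1 : G), ∃ K : Subgroup G,
      IsOpen (K : Set G) ∧ IsCompact (K : Set G) ∧ (K : Set G) ⊆ U)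
    {Z : Subgroup G} (hZ : ∀ z ∈ Z, ∀ g, z * g = g * z)
    {A : Type} [AddCommGroup A] [Module ℂ A] {πA : G →* Module.End ℂ A} (hA : IsSmoothRep πA)
    (χ : G → ℂ) (hχ : ∀ z ∈ Z, ‖χ z‖ = 1) (hAZ : ∀ z ∈ Z, ∀ a, πA z a = χ z • a)
    {π : G →* Module.End ℂ V} [Nontrivial V] (q : A →ₗ[ℂ] V) (hq : Function.Surjective q)
    (hqG : ∀ g a, q (πA g a) = π g (q a)) (hHC : HasHC Z π) :
    ∃ Ψ : V →ₗ[ℂ] A, Ψ ≠ 0 ∧ ∀ g v, Ψ (π g v) = πA g (Ψ v) := by
  have hsm : IsSmoothRep π := by
    intro v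
    obtain ⟨a, rfl⟩ := hq v
    filter_upwards [hA a] with g hg
    rw [← hqG, hg]
  have hVZ : ∀ z ∈ Z, ∀ v, π z v = χ z • v := by
    intro z hz v
    obtain ⟨a, rfl⟩ := hq v
    rw [← hqG, hAZ z hz, map_smul]
  have hχ1 : ∀ z ∈ Z, ∀ v, π z⁻¹ v = (χ z)⁻¹ • v := by
    intro z hz v
    have h0 : χ z ≠ 0 := by
      intro h
      have := hχ z hz
      rw [h, norm_zero] at this
      exact zero_ne_one this
    have h1 : π z (π z⁻¹ v) = v := by
      rw [← Module.End.mul_apply, ← map_mul, mul_inv_cancel, map_one, Module.End.one_apply]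
    rw [hVZ z hz] at h1
    rw [eq_inv_smul_iff₀ h0]
    exact h1
  have hχ2 : ∀ z ∈ Z, (χ z)⁻¹ * conj (χ z)⁻¹ = 1 := by
    intro z hz
    rw [Complex.mul_conj, Complex.normSq_eq_norm_sq, norm_inv, hχ z hz]
    simp
  obtain ⟨x₀, hx₀⟩ := exists_ne (0 : V)
  obtain ⟨f, hf, hfx⟩ := exists_smooth_functional hG hsm hx₀
  obtain ⟨K₁, hK₁o, hK₁c, hK₁⟩ := hG _ (show {g : G | ∀ v, f (π g v) = f v} ∈ 𝓝 1 from hf)
  -- the form
  have mulinv : ∀ (g h : G) (v : V), π (g * h)⁻¹ v = π h⁻¹ (π g⁻¹ v) := by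
    intro g h v
    rw [mul_inv_rev, map_mul, Module.End.mul_apply]
  have rinv1 : ∀ a b : V, RInv (K₁ ⊔ Z) (fun g => f (π g⁻¹ a) * conj (f (π g⁻¹ b))) := by
    intro a b
    apply RInv.of_sup
    · intro g k hk
      have h1 : ∀ v, f (π k⁻¹ v) = f v := hK₁ (K₁.inv_mem hk)
      simp only [mulinv, h1]
    · intro g z hz
      simp only [mulinv, hχ1 z hz, map_smul, smul_eq_mul, map_mul]
      have h2 := hχ2 z hz
      calc (χ z)⁻¹ * f (π g⁻¹ a) * (conj (χ z)⁻¹ * conj (f (π g⁻¹ b)))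
          = ((χ z)⁻¹ * conj (χ z)⁻¹) * (f (π g⁻¹ a) * conj (f (π g⁻¹ b))) := by ring
        _ = _ := by rw [h2, one_mul]
  have fin1 : ∀ a b : V, (Function.support (fun x : G ⧸ (K₁ ⊔ Z) =>
      f (π x.out⁻¹ a) * conj (f (π x.out⁻¹ b)))).Finite := by
    intro a b
    have h1 := CptMod.finite hK₁o (hHC.inv hZ a hf)
    refine h1.subset ?_
    intro x hx hx0
    exact hx (by
      have hx1 : f (π x.out⁻¹ a) = 0 := hx0
      simp [hx1])
  let B : V → V → ℂ := uform (K₁ ⊔ Z) π f
  have hBG : ∀ g a b, B (π g a) (π g b) = B a b := by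
    intro g a b
    have h1 := qsum_mul_left (rinv1 a b) g⁻¹
    refine Eq.trans ?_ h1
    unfold B uform
    congr 1
    ext h
    have h2 : ∀ v, π h⁻¹ (π g v) = π (g⁻¹ * h)⁻¹ v := by
      intro v
      rw [mulinv, inv_inv]
    rw [h2, h2]
  have hBconj : ∀ a b, conj (B a b) = B b a := by
    intro a b
    unfold B uform qsum
    have h1 := (starRingEnd ℂ).toAddMonoidHom.map_finsum (fin1 a b)
    refine Eq.trans h1 ?_
    apply finsum_congr
    intro x
    show conj (f (π x.out⁻¹ a) * conj (f (π x.out⁻¹ b))) = _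
    rw [map_mul, Complex.conj_conj, mul_comm]
  have hBadd : ∀ a a' b, B (a + a') b = B a b + B a' b := by
    intro a a' b
    unfold B uform
    rw [← qsum_add (fin1 a b) (fin1 a' b)]
    congr 1
    ext g
    rw [map_add, map_add, add_mul]
  have hBsmul : ∀ (c : ℂ) a b, B (c • a) b = c * B a b := by
    intro c a b
    unfold B uform
    rw [← smul_eq_mul, ← qsum_smul]
    congr 1
    ext g
    rw [map_smul, map_smul, smul_eq_mul, smul_eq_mul, mul_assoc]
  have hBpos : ∀ a, (∃ g, f (π g a) ≠ 0) → B a a ≠ 0 := by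
    rintro a ⟨g, hg⟩
    -- reduce to the modulus function
    have h1 : (Function.support (fun x : G ⧸ (K₁ ⊔ Z) => ((‖f (π x.out⁻¹ a)‖ : ℝ) : ℂ))).Finite := by
      refine (CptMod.finite hK₁o (hHC.inv hZ a hf)).subset ?_
      intro x hx hx0
      exact hx (by
        have hx1 : f (π x.out⁻¹ a) = 0 := hx0
        simp [hx1])
    have h2 : RInv (K₁ ⊔ Z) (fun g => ((‖f (π g⁻¹ a)‖ : ℝ) : ℂ)) := by
      apply RInv.of_sup
      · intro g k hk
        have h1 : ∀ v, f (π k⁻¹ v) = f v := hK₁ (K₁.inv_mem hk)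
        simp only [mulinv, h1]
      · intro g z hz
        simp only [mulinv, hχ1 z hz, map_smul, smul_eq_mul, norm_mul, norm_inv, hχ z hz]
        simp
    have h3 := qsum_sq_pos h2 h1 (g₀ := g⁻¹) (by simpa using hg)
    convert h3 using 1
    unfold B uform
    congr 1
    ext g
    rw [Complex.conj_ofReal, Complex.mul_conj, Complex.normSq_eq_norm_sq, ← Complex.ofReal_mul]
    congr 1
    ring
  -- the functional `φ = B(., c')`
  let c' : V := x₀
  obtain ⟨v, hv⟩ := hq c'
  let φ : V →ₗ[ℂ] ℂ :=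
    { toFun := fun c => B c c'
      map_add' := fun a a' => hBadd a a' c'
      map_smul' := fun c a => hBsmul c a c' }
  have hφ : ∀ c, φ c = B c c' := fun _ => rfl
  obtain ⟨K₂, hK₂o, hK₂c, hK₂⟩ := hG _ (hA v)
  have hK₂' : ∀ k ∈ K₂, π k c' = c' := by
    intro k hk
    have h1 : πA k v = v := hK₂ hk
    rw [← hv, ← hqG, h1]
  have hφK : ∀ k ∈ K₂, ∀ c, φ (π k c) = φ c := by
    intro k hk c
    have h1 := hBG k c c'
    rw [hK₂' k hk] at h1
    exact h1
  have hφs : φ ∈ gDual π := by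
    have h1 : ∀ᶠ g in 𝓝 (1 : G), g ∈ K₂ := hK₂o.mem_nhds K₂.one_mem
    show ∀ᶠ g in 𝓝 (1 : G), ∀ v, φ (π g v) = φ v
    filter_upwards [h1] with g hg c
    exact hφK g hg c
  have rinv2 : ∀ c : V, RInv (K₂ ⊔ Z) (fun g => φ (π g⁻¹ c) • πA g v) := by
    intro c
    apply RInv.of_sup
    · intro g k hk
      have h1 : πA k v = v := hK₂ hk
      simp only [mulinv, hφK _ (K₂.inv_mem hk), map_mul, Module.End.mul_apply, h1]
    · intro g z hz
      have h0 : χ z ≠ 0 := by
        intro h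
        have := hχ z hz
        rw [h, norm_zero] at this
        exact zero_ne_one this
      simp only [mulinv, hχ1 z hz, map_smul, map_mul, Module.End.mul_apply, hAZ z hz]
      rw [smul_smul, smul_eq_mul]
      congr 1
      field_simp
  have fin2 : ∀ c : V, (Function.support (fun x : G ⧸ (K₂ ⊔ Z) => φ (π x.out⁻¹ c) •
      πA x.out v)).Finite := by
    intro c
    have h1 := CptMod.finite hK₂o (hHC.inv hZ c hφs)
    refine h1.subset ?_
    intro x hx hx0
    exact hx (by
      have hx1 : φ (π x.out⁻¹ c) = 0 := hx0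
      simp [hx1])
  let Ψ : V →ₗ[ℂ] A :=
    { toFun := fun c => qsum (K₂ ⊔ Z) (fun g => φ (π g⁻¹ c) • πA g v)
      map_add' := by
        intro a b
        rw [← qsum_add (fin2 a) (fin2 b)]
        congr 1
        ext g
        rw [map_add, map_add, add_smul]
      map_smul' := by
        intro c a
        rw [RingHom.id_apply, ← qsum_smul]
        congr 1
        ext g
        rw [map_smul, map_smul, smul_assoc] }
  refine ⟨Ψ, ?_, ?_⟩
  · intro h0
    have h1 : φ (q (Ψ c')) = 0 := by rw [h0]; simp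
    have h2 : φ (q (Ψ c')) = qsum (K₂ ⊔ Z) (fun g => φ (π g⁻¹ c') * conj (φ (π g⁻¹ c'))) := by
      have h3 := qsum_map (H := K₂ ⊔ Z) (φ ∘ₗ q) (fun g => φ (π g⁻¹ c') • πA g v) (fin2 c')
      refine Eq.trans h3 ?_
      congr 1
      ext g
      rw [LinearMap.comp_apply, map_smul, map_smul, smul_eq_mul, hqG, hv]
      congr 1
      have h4 := hBG g⁻¹ (π g c') c'
      have h5 : π g⁻¹ (π g c') = c' := by
        rw [← Module.End.mul_apply, ← map_mul, inv_mul_cancel, map_one, Module.End.one_apply]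
      rw [h5] at h4
      rw [hφ, hφ, hBconj, h4]
    have h6 : RInv (K₂ ⊔ Z) (fun g => ((‖φ (π g⁻¹ c')‖ : ℝ) : ℂ)) := by
      apply RInv.of_sup
      · intro g k hk
        simp only [mulinv, hφK _ (K₂.inv_mem hk)]
      · intro g z hz
        simp only [mulinv, hχ1 z hz, map_smul, smul_eq_mul, norm_mul, norm_inv, hχ z hz]
        simp
    have h7 : (Function.support (fun x : G ⧸ (K₂ ⊔ Z) =>
        ((‖φ (π x.out⁻¹ c')‖ : ℝ) : ℂ))).Finite := by
      refine (CptMod.finite hK₂o (hHC.inv hZ c' hφs)).subset ?_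
      intro x hx hx0
      exact hx (by
        have hx1 : φ (π x.out⁻¹ c') = 0 := hx0
        simp [hx1])
    have h8 : φ (π (1 : G)⁻¹ c') ≠ 0 := by
      rw [inv_one, map_one, Module.End.one_apply, hφ]
      exact hBpos c' ⟨1, by
        rw [map_one, Module.End.one_apply]
        exact hfx⟩
    have h9 := qsum_sq_pos h6 h7 (g₀ := 1) (by simpa using h8)
    apply h9
    rw [h2] at h1
    rw [← h1]
    congr 1
    ext g
    rw [Complex.conj_ofReal, Complex.mul_conj, Complex.normSq_eq_norm_sq, ← Complex.ofReal_mul]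
    congr 1
    ring
  · intro g c
    have h1 := qsum_mul_left (rinv2 (π g c)) g
    refine Eq.trans h1.symm ?_
    have h2 := qsum_map (H := K₂ ⊔ Z) (πA g) (fun g => φ (π g⁻¹ c) • πA g v) (fin2 c)
    refine Eq.trans ?_ h2.symm
    congr 1
    ext h
    have h3 : π (g * h)⁻¹ (π g c) = π h⁻¹ c := by
      rw [mulinv]
      congr 1
      rw [← Module.End.mul_apply, ← map_mul, inv_mul_cancel, map_one, Module.End.one_apply]
    rw [h3, map_smul, map_mul, Module.End.mul_apply]

end unit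

end SpW
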