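import Pool.Agent.Work.MP_3615d2_al.SchInt
import Pool.Agent.Work.MP_3615d2_al.GgBase
import Pool.Agent.Work.MP_3615d2_al.SchExt

/-!
MP_3615d2_al: a functional on `Sch X ℂ` extends to `Sch X V`, with values in `V`.
-/

open Filter Topology

namespace SpW

section

variable {X V : Type} [TopologicalSpace X] [AddCommGroup V] [Module ℂ V]

open Classical in
/-- The indicator of a fibre. -/
noncomputable def vchi (g : Sch X V) (s : V) : Sch X ℂ :=
  if hs : s = 0 then 0 else
    ind ((g : X → V) ⁻¹' {s}) ⟨g.2.1.isClosed_fiber s, g.2.1.isOpen_fiber s⟩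
      (sch_fiber_compact g.2 hs) 1

theorem vchi_self (g : Sch X V) {s : V} (hs : s ≠ 0) {x : X} (hx : (g : X → V) x = s) :
    (vchi g s : X → ℂ) x = 1 := by
  rw [vchi, dif_neg hs]
  exact ind_mem _ _ _ hx

theorem vchi_ne (g : Sch X V) {s : V} {x : X} (hx : (g : X → V) x ≠ s) :
    (vchi g s : X → ℂ) x = 0 := by
  rw [vchi]
  split_ifs with hs
  · rfl
  · exact ind_notMem _ _ _ hx

theorem schComp_eq_sum (ξ : V →ₗ[ℂ] ℂ) (g : Sch X V) :
    schComp ξ g = ∑ s ∈ (sch_finite g.2).toFinset, ξ s • vchi g s := by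
  refine Sch.ext' fun x => ?_
  have h1 : ((∑ s ∈ (sch_finite g.2).toFinset, ξ s • vchi g s : Sch X ℂ) : X → ℂ) x =
      ∑ s ∈ (sch_finite g.2).toFinset, ξ s * (vchi g s : X → ℂ) x := by
    rw [Submodule.coe_sum, Finset.sum_apply]
    rfl
  rw [h1, schComp_apply, Finset.sum_eq_single ((g : X → V) x)]
  · by_cases h0 : (g : X → V) x = 0
    · rw [h0, map_zero, zero_mul]
    · rw [vchi_self g h0 rfl, mul_one]
  · intro s _ hs
    rw [vchi_ne g hs.symm, mul_zero]
  · intro h
    exact absurd ((sch_finite g.2).mem_toFinset.2 ⟨x, rfl⟩) h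

/-- A functional on `Sch X ℂ` extends to the functions with values in `V`. -/
theorem exists_vint (J : Sch X ℂ →ₗ[ℂ] ℂ) : ∃ I : Sch X V →ₗ[ℂ] V,
    ∀ (ξ : V →ₗ[ℂ] ℂ) (g : Sch X V), ξ (I g) = J (schComp ξ g) := by
  have key : ∀ (ξ : V →ₗ[ℂ] ℂ) (g : Sch X V),
      ξ (∑ s ∈ (sch_finite g.2).toFinset, J (vchi g s) • s) = J (schComp ξ g) := by
    intro ξ g
    rw [schComp_eq_sum, map_sum, map_sum]
    refine Finset.sum_congr rfl fun s _ => ?_
    rw [map_smul, map_smul, smul_eq_mul, smul_eq_mul, mul_comm]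
  refine ⟨{ toFun := fun g => ∑ s ∈ (sch_finite g.2).toFinset, J (vchi g s) • s
            map_add' := fun g h => dual_ext fun ξ => ?_
            map_smul' := fun c g => dual_ext fun ξ => ?_ }, key⟩
  · rw [map_add, key, key, key, map_add, map_add]
  · rw [RingHom.id_apply, map_smul, key, key, map_smul, map_smul]

end

end SpW
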