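import Pool.Agent.Work.MP_3615d2_al.DualNorm
import Pool.Agent.Work.MP_3615d2_al.LemI
import Pool.Agent.Work.MP_3615d2_al.Carr
import Pool.Agent.Work.MP_3615d2_al.Integ1
import Pool.Agent.Work.MP_3615d2_al.WeDef

/-!
MP_3615d2_al: existence of the Weil representation, W4: composition of the operators attached to
the Cayley transforms.
-/

set_option linter.unusedSectionVars false

open MeasureTheory Metric Set
open scoped NNReal

namespace SpW

namespace WeC

section abs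

variable {F : Type} [NontriviallyNormedField F] [IsUltrametricDist F] [ProperSpace F]
  {X : Type} [NormedAddCommGroup X] [NormedSpace F X] [FiniteDimensional F X]
  [IsUltrametricDist X] [MeasurableSpace X] [BorelSpace X]
  {S : Type} [AddCommGroup S] [Module ℂ S]

theorem uprod (A B : Type) [NormedAddCommGroup A] [NormedAddCommGroup B]
    [IsUltrametricDist A] [IsUltrametricDist B] : IsUltrametricDist (A × B) := by
  refine ⟨fun x y z => ?_⟩
  rw [Prod.dist_eq, Prod.dist_eq, Prod.dist_eq]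
  refine max_le ?_ ?_
  · exact (dist_triangle_max x.1 y.1 z.1).trans (max_le_max (le_max_left _ _) (le_max_left _ _))
  · exact (dist_triangle_max x.2 y.2 z.2).trans (max_le_max (le_max_right _ _) (le_max_right _ _))

/-- `T` is the operator attached to `c`, abstract form. -/
def IsOp (ν : Measure X) (ψ : AddChar F Circle) (B : X →ₗ[F] X →ₗ[F] F) (c : X →ₗ[F] X)
    (ρ : X → Module.End ℂ S) (T : Module.End ℂ S) : Prop :=
  ∀ (v : S) (ξ : S →ₗ[ℂ] ℂ), ∀ᶠ r : ℝ in Filter.atTop,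
    ξ (T v) = ∫ w in closedBall (0 : X) r, ((ψ ((4 : F)⁻¹ * B (c w) w) : Circle) : ℂ) *
      ξ (ρ w v) ∂ν

theorem rho_add {ψ : AddChar F Circle} {B : X →ₗ[F] X →ₗ[F] F} {ρ : X → Module.End ℂ S}
    (hρ : ∀ w w', ρ w * ρ w' = ((ψ ((2 : F)⁻¹ * B w w') : Circle) : ℂ) • ρ (w + w'))
    (ξ : S →ₗ[ℂ] ℂ) (v : S) (w w' : X) :
    ξ (ρ (w + w') v) = ((ψ (-((2 : F)⁻¹ * B w w')) : Circle) : ℂ) * ξ (ρ w (ρ w' v)) := by
  have h3 := LinearMap.congr_fun (hρ w w') v
  rw [Module.End.mul_apply] at h3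
  rw [h3, LinearMap.smul_apply, map_smul, smul_eq_mul, ← mul_assoc, ← Circle.coe_mul,
    ← AddChar.map_add_eq_mul, neg_add_cancel, AddChar.map_zero_eq_one, Circle.coe_one, one_mul]

/-- The one variable integrand under a small translation. -/
theorem shift1 (h2 : (2 : F) ≠ 0) {ψ : AddChar F Circle} {B : X →ₗ[F] X →ₗ[F] F}
    (hB : ∀ x y, B y x = -B x y) {ρ : X → Module.End ℂ S}
    (hρ : ∀ w w', ρ w * ρ w' = ((ψ ((2 : F)⁻¹ * B w w') : Circle) : ℂ) • ρ (w + w'))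
    {c : X →ₗ[F] X} (hc : ∀ x y, B (c x) y = -B x (c y)) (ξ : S →ₗ[ℂ] ℂ) {v : S} (w : X) {x : X}
    (hx : ρ x v = v) (hx' : ψ ((4 : F)⁻¹ * B (c x) x) = 1) :
    ((ψ ((4 : F)⁻¹ * B (c (w + x)) (w + x)) : Circle) : ℂ) * ξ (ρ (w + x) v) =
      ((ψ ((2 : F)⁻¹ * B (c w - w) x) : Circle) : ℂ) *
        (((ψ ((4 : F)⁻¹ * B (c w) w) : Circle) : ℂ) * ξ (ρ w v)) := by
  rw [rho_add hρ, hx, ← mul_assoc, ← mul_assoc, ← Circle.coe_mul, ← Circle.coe_mul,
    ← AddChar.map_add_eq_mul, ← AddChar.map_add_eq_mul]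
  have h3 : (4 : F)⁻¹ * B (c (w + x)) (w + x) + -((2 : F)⁻¹ * B w x) =
      ((2 : F)⁻¹ * B (c w - w) x + (4 : F)⁻¹ * B (c w) w) + (4 : F)⁻¹ * B (c x) x := by
    have e1 : B (c x) w = B (c w) x := by rw [hc, hB (c w) x, neg_neg]
    have e4 : (4 : F) = 2 * 2 := by norm_num
    simp only [map_add, map_sub, LinearMap.add_apply, LinearMap.sub_apply]
    rw [e1, e4]
    field_simp
    ring
  rw [h3, AddChar.map_add_eq_mul _ (_ + _) _, hx', mul_one]

theorem exists_eps {ψ : AddChar F Circle} (hψ : Continuous ψ) (B : X →ₗ[F] X →ₗ[F] F)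
    {ρ : X → Module.End ℂ S} (hs : ∀ v, ∀ᶠ w in nhds (0 : X), ρ w v = v) (c : X →ₗ[F] X) (v : S) :
    ∃ ε > 0, ∀ x : X, ‖x‖ ≤ ε → ρ x v = v ∧ ψ ((4 : F)⁻¹ * B (c x) x) = 1 := by
  have h2 : Continuous fun x : X => (4 : F)⁻¹ * B (c x) x := by
    have h4 : Continuous fun x : X => (LinearMap.toContinuousLinearMap
        (LinearMap.toContinuousLinearMap.toLinearMap ∘ₗ (B ∘ₗ c)) x) x :=
      (LinearMap.toContinuousLinearMap
        (LinearMap.toContinuousLinearMap.toLinearMap ∘ₗ (B ∘ₗ c))).continuous.clm_apply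
        continuous_id
    exact continuous_const.mul h4
  have h3 := LemI.addChar_small hψ (h2.continuousAt (x := 0)) (by simp)
  obtain ⟨ε, hε, h⟩ := Metric.eventually_nhds_iff.1 ((hs v).and h3)
  refine ⟨ε / 2, by positivity, fun x hx => h ?_⟩
  rw [dist_zero_right]
  linarith

/-- The one variable integral stabilises uniformly in the functional. -/
theorem unif1 (ν : Measure X) [ν.IsAddHaarMeasure] (h2 : (2 : F) ≠ 0) {ψ : AddChar F Circle}
    (hψ : Continuous ψ) (hψ1 : ψ ≠ 1) {B : X →ₗ[F] X →ₗ[F] F}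
    (hB : ∀ x y, B y x = -B x y) (hnd : ∀ w, (∀ x, B w x = 0) → w = 0) {ρ : X → Module.End ℂ S}
    (hρ : ∀ w w', ρ w * ρ w' = ((ψ ((2 : F)⁻¹ * B w w') : Circle) : ℂ) • ρ (w + w'))
    (hs : ∀ v, ∀ᶠ w in nhds (0 : X), ρ w v = v)
    {c : X →ₗ[F] X} (hc : ∀ x y, B (c x) y = -B x (c y)) (hc1 : ∀ x, c x = x → x = 0) (v : S) :
    ∃ R₁ : ℝ, ∀ (ξ : S →ₗ[ℂ] ℂ) (r : ℝ), R₁ ≤ r →
      ∫ w in closedBall (0 : X) r, ((ψ ((4 : F)⁻¹ * B (c w) w) : Circle) : ℂ) * ξ (ρ w v) ∂ν =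
      ∫ w in closedBall (0 : X) R₁, ((ψ ((4 : F)⁻¹ * B (c w) w) : Circle) : ℂ) *
        ξ (ρ w v) ∂ν := by
  obtain ⟨ε, hε, hε1⟩ := exists_eps hψ B hs c v
  let θ : X →ₗ[F] X →ₗ[F] F := (2 : F)⁻¹ • (B ∘ₗ (c - LinearMap.id))
  have hθ : ∀ w x, θ w x = (2 : F)⁻¹ * B (c w - w) x := fun w x => rfl
  obtain ⟨R₀, hR₀⟩ := LemI.detect hψ hψ1 θ (fun w hw => by
    refine hc1 w (sub_eq_zero.1 (hnd _ fun x => ?_))
    have h1 := hw x
    rw [hθ, mul_eq_zero] at h1
    exact h1.resolve_left (inv_ne_zero h2)) hε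
  refine ⟨max R₀ ε, fun ξ r hr => ?_⟩
  have hf : ∀ w x, ‖x‖ ≤ ε →
      (fun w : X => ((ψ ((4 : F)⁻¹ * B (c w) w) : Circle) : ℂ) * ξ (ρ w v)) (w + x) =
      ((ψ (θ w x) : Circle) : ℂ) *
        (fun w : X => ((ψ ((4 : F)⁻¹ * B (c w) w) : Circle) : ℂ) * ξ (ρ w v)) w := by
    intro w x hx
    exact shift1 h2 hB hρ hc ξ w (hε1 x hx).1 (hε1 x hx).2
  exact LemI.stab_eq ν hψ hε (LemI.cont_of_char hψ hε θ hf) θ hf (le_max_right _ _)
    (fun w hw => hR₀ w ((le_max_left _ _).trans_lt hw)) isClosed_closedBall.measurableSet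
    isBounded_closedBall (fun w x hx => by
      rw [mem_closedBall_zero_iff, mem_closedBall_zero_iff]
      exact LemI.ball_add_iff ((le_max_right _ _).trans hr) hx) (closedBall_subset_closedBall hr)

theorem IsOp.unif {ν : Measure X} [ν.IsAddHaarMeasure] (h2 : (2 : F) ≠ 0) {ψ : AddChar F Circle}
    (hψ : Continuous ψ) (hψ1 : ψ ≠ 1) {B : X →ₗ[F] X →ₗ[F] F}
    (hB : ∀ x y, B y x = -B x y) (hnd : ∀ w, (∀ x, B w x = 0) → w = 0) {ρ : X → Module.End ℂ S}
    (hρ : ∀ w w', ρ w * ρ w' = ((ψ ((2 : F)⁻¹ * B w w') : Circle) : ℂ) • ρ (w + w'))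
    (hs : ∀ v, ∀ᶠ w in nhds (0 : X), ρ w v = v)
    {c : X →ₗ[F] X} (hc : ∀ x y, B (c x) y = -B x (c y)) (hc1 : ∀ x, c x = x → x = 0)
    {T : Module.End ℂ S} (hT : IsOp ν ψ B c ρ T) (v : S) :
    ∃ R₁ : ℝ, ∀ (ξ : S →ₗ[ℂ] ℂ) (r : ℝ), R₁ ≤ r →
      ∫ w in closedBall (0 : X) r, ((ψ ((4 : F)⁻¹ * B (c w) w) : Circle) : ℂ) *
        ξ (ρ w v) ∂ν = ξ (T v) := by
  obtain ⟨R₁, hR₁⟩ := unif1 ν h2 hψ hψ1 hB hnd hρ hs hc hc1 v
  refine ⟨R₁, fun ξ r hr => ?_⟩
  obtain ⟨r', h1, h2⟩ := ((hT v ξ).and (Filter.eventually_ge_atTop R₁)).exists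
  rw [h1, hR₁ ξ r hr, hR₁ ξ r' h2]

/-- The linear map of the change of variables. -/
def chg (P : X →ₗ[F] X) : X × X →ₗ[F] X × X where
  toFun p := (p.1 - P (p.1 + p.2), p.1 + p.2)
  map_add' p q := by
    ext
    · simp only [Prod.fst_add, Prod.snd_add, map_add]
      abel
    · simp only [Prod.fst_add, Prod.snd_add]
      abel
  map_smul' a p := by
    ext
    · simp only [Prod.smul_fst, Prod.smul_snd, RingHom.id_apply, ← smul_add, map_smul, smul_sub]
    · simp only [Prod.smul_fst, Prod.smul_snd, RingHom.id_apply, ← smul_add]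

/-- The change of variables as a linear equivalence. -/
noncomputable def chgE (P : X →ₗ[F] X) : (X × X) ≃ₗ[F] (X × X) :=
  LinearEquiv.ofBijective (chg P) (by
    constructor
    · rintro ⟨a, b⟩ ⟨a', b'⟩ h
      have h1 : a + b = a' + b' := congrArg Prod.snd h
      have h2 : a - P (a + b) = a' - P (a' + b') := congrArg Prod.fst h
      rw [h1] at h2
      have h3 : a = a' := by simpa using h2
      rw [h3] at h1 ⊢
      rw [add_left_cancel h1]
    · rintro ⟨a, b⟩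
      refine ⟨(a + P b, b - (a + P b)), ?_⟩
      show (a + P b - P (a + P b + (b - (a + P b))), a + P b + (b - (a + P b))) = (a, b)
      rw [add_sub_cancel, add_sub_cancel_right])

theorem chg_mp (ν : Measure X) [ν.IsAddHaarMeasure] (P : X →ₗ[F] X) :
    MeasurePreserving (chgE P) (ν.prod ν) (ν.prod ν) := by
  have : ProperSpace X := FiniteDimensional.proper F X
  have hP : Continuous P := P.continuous_of_finiteDimensional
  have h1 : MeasurePreserving (fun z : X × X => (z.1, z.1 + z.2)) (ν.prod ν) (ν.prod ν) :=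
    measurePreserving_prod_add ν ν
  have h2 : MeasurePreserving (Prod.swap : X × X → X × X) (ν.prod ν) (ν.prod ν) :=
    Measure.measurePreserving_swap
  have h3 : MeasurePreserving (fun z : X × X => (z.1, z.2 - P z.1)) (ν.prod ν) (ν.prod ν) := by
    refine MeasurePreserving.skew_product (f := id) (g := fun a b => b - P a)
      (MeasurePreserving.id ν) ?_ ?_
    · have : Continuous (Function.uncurry fun (a b : X) => b - P a) := by
        show Continuous fun p : X × X => p.2 - P p.1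
        exact continuous_snd.sub (hP.comp continuous_fst)
      exact this.measurable
    · exact Filter.Eventually.of_forall fun a => (measurePreserving_sub_right ν (P a)).map_eq
  exact (h2.comp (h3.comp (h2.comp h1)))

/-- The bilinear form of the two variable integrand. -/
def th2 (B : X →ₗ[F] X →ₗ[F] F) (c c' : X →ₗ[F] X) : (X × X) →ₗ[F] (X × X) →ₗ[F] F :=
  LinearMap.mk₂ F (fun p q : X × X => (2 : F)⁻¹ * (B (c p.1 - p.1 - (p.2 + p.2)) q.1 +
      B (c' p.2 - p.2) q.2))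
    (fun p p' q => by
      simp only [Prod.fst_add, Prod.snd_add, map_add, map_sub, LinearMap.add_apply,
        LinearMap.sub_apply]
      ring)
    (fun a p q => by
      simp only [Prod.smul_fst, Prod.smul_snd, map_add, map_sub, map_smul, LinearMap.add_apply,
        LinearMap.sub_apply, LinearMap.smul_apply, smul_eq_mul]
      ring)
    (fun p q q' => by
      simp only [Prod.fst_add, Prod.snd_add, map_add]
      ring)
    (fun a p q => by
      simp only [Prod.smul_fst, Prod.smul_snd, map_smul, smul_eq_mul]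
      ring)

/-- The two variable integrand. -/
noncomputable def int2 (ψ : AddChar F Circle) (B : X →ₗ[F] X →ₗ[F] F) (c c' : X →ₗ[F] X)
    (ρ : X → Module.End ℂ S) (ξ : S →ₗ[ℂ] ℂ) (v : S) (p : X × X) : ℂ :=
  ((ψ ((4 : F)⁻¹ * B (c p.1) p.1) : Circle) : ℂ) *
    (((ψ ((4 : F)⁻¹ * B (c' p.2) p.2) : Circle) : ℂ) * (ξ ∘ₗ ρ p.1) (ρ p.2 v))

theorem int2_eq {ψ : AddChar F Circle} {B : X →ₗ[F] X →ₗ[F] F} {c c' : X →ₗ[F] X}
    {ρ : X → Module.End ℂ S}
    (hρ : ∀ w w', ρ w * ρ w' = ((ψ ((2 : F)⁻¹ * B w w') : Circle) : ℂ) • ρ (w + w'))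
    (ξ : S →ₗ[ℂ] ℂ) (v : S) (p : X × X) :
    int2 ψ B c c' ρ ξ v p = ((ψ ((4 : F)⁻¹ * B (c p.1) p.1 + (4 : F)⁻¹ * B (c' p.2) p.2 +
      (2 : F)⁻¹ * B p.1 p.2) : Circle) : ℂ) * ξ (ρ (p.1 + p.2) v) := by
  have h3 := LinearMap.congr_fun (hρ p.1 p.2) v
  rw [Module.End.mul_apply] at h3
  rw [int2, LinearMap.comp_apply, h3, LinearMap.smul_apply, map_smul, smul_eq_mul, ← mul_assoc,
    ← mul_assoc, ← Circle.coe_mul, ← Circle.coe_mul, ← AddChar.map_add_eq_mul,
    ← AddChar.map_add_eq_mul, add_assoc]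

theorem shift2 (h2 : (2 : F) ≠ 0) {ψ : AddChar F Circle} {B : X →ₗ[F] X →ₗ[F] F}
    (hB : ∀ x y, B y x = -B x y) {ρ : X → Module.End ℂ S}
    (hρ : ∀ w w', ρ w * ρ w' = ((ψ ((2 : F)⁻¹ * B w w') : Circle) : ℂ) • ρ (w + w'))
    {c c' : X →ₗ[F] X} (hc : ∀ x y, B (c x) y = -B x (c y)) (hc' : ∀ x y, B (c' x) y = -B x (c' y))
    (ξ : S →ₗ[ℂ] ℂ) {v : S} (p : X × X) {q : X × X} (hq : ρ (q.1 + q.2) v = v)
    (hq1 : ψ ((4 : F)⁻¹ * B (c q.1) q.1) = 1) (hq2 : ψ ((4 : F)⁻¹ * B (c' q.2) q.2) = 1)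
    (hq3 : ψ ((2 : F)⁻¹ * B q.1 q.2) = 1) :
    int2 ψ B c c' ρ ξ v (p + q) = ((ψ (th2 B c c' p q) : Circle) : ℂ) *
      int2 ψ B c c' ρ ξ v p := by
  rw [int2_eq hρ, int2_eq hρ]
  have e0 : (p + q).1 + (p + q).2 = (p.1 + p.2) + (q.1 + q.2) := by
    rw [Prod.fst_add, Prod.snd_add]
    abel
  rw [e0, rho_add hρ, hq, ← mul_assoc, ← mul_assoc, ← Circle.coe_mul, ← Circle.coe_mul,
    ← AddChar.map_add_eq_mul, ← AddChar.map_add_eq_mul]
  have h3 : (4 : F)⁻¹ * B (c (p + q).1) (p + q).1 + (4 : F)⁻¹ * B (c' (p + q).2) (p + q).2 +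
      (2 : F)⁻¹ * B (p + q).1 (p + q).2 + -((2 : F)⁻¹ * B (p.1 + p.2) (q.1 + q.2)) =
      (((th2 B c c' p q + ((4 : F)⁻¹ * B (c p.1) p.1 + (4 : F)⁻¹ * B (c' p.2) p.2 +
        (2 : F)⁻¹ * B p.1 p.2)) + (4 : F)⁻¹ * B (c q.1) q.1) + (4 : F)⁻¹ * B (c' q.2) q.2) +
        (2 : F)⁻¹ * B q.1 q.2 := by
    have e1 : B (c q.1) p.1 = B (c p.1) q.1 := by rw [hc, hB (c p.1) q.1, neg_neg]
    have e2 : B (c' q.2) p.2 = B (c' p.2) q.2 := by rw [hc', hB (c' p.2) q.2, neg_neg]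
    have e3 : B q.1 p.2 = -B p.2 q.1 := hB _ _
    have e4 : (4 : F) = 2 * 2 := by norm_num
    simp only [th2, LinearMap.mk₂_apply, Prod.fst_add, Prod.snd_add, map_add, map_sub,
      LinearMap.add_apply, LinearMap.sub_apply]
    rw [e1, e2, e3, e4]
    field_simp
    ring
  rw [h3, AddChar.map_add_eq_mul _ (_ + _) _, AddChar.map_add_eq_mul _ (_ + _) _,
    AddChar.map_add_eq_mul _ (_ + _) _, hq1, hq2, hq3, mul_one, mul_one, mul_one]

/-- The two variable integrand after the change of variables. -/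
theorem int2_chg (h2 : (2 : F) ≠ 0) {ψ : AddChar F Circle} {B : X →ₗ[F] X →ₗ[F] F}
    (hB : ∀ x y, B y x = -B x y) {ρ : X → Module.End ℂ S}
    (hρ : ∀ w w', ρ w * ρ w' = ((ψ ((2 : F)⁻¹ * B w w') : Circle) : ℂ) • ρ (w + w'))
    {c c' c'' P : X →ₗ[F] X} (hc : ∀ x y, B (c x) y = -B x (c y))
    (hc' : ∀ x y, B (c' x) y = -B x (c' y)) (hP : ∀ u, c (P u) + c' (P u) = c' u + u)
    (hc'' : ∀ u, c'' u = c' u - (c' (P u) - P u)) (ξ : S →ₗ[ℂ] ℂ) (v : S) (p : X × X) :
    int2 ψ B c c' ρ ξ v p =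
      (fun z : X × X => ((ψ ((4 : F)⁻¹ * B (c z.1 + c' z.1) z.1) : Circle) : ℂ) *
        (((ψ ((4 : F)⁻¹ * B (c'' z.2) z.2) : Circle) : ℂ) * ξ (ρ z.2 v))) (chgE P p) := by
  obtain ⟨w, w'⟩ := p
  show _ = ((ψ ((4 : F)⁻¹ * B (c (w - P (w + w')) + c' (w - P (w + w'))) (w - P (w + w'))) :
    Circle) : ℂ) * (((ψ ((4 : F)⁻¹ * B (c'' (w + w')) (w + w')) : Circle) : ℂ) *
      ξ (ρ (w + w') v))
  rw [int2_eq hρ, ← mul_assoc, ← Circle.coe_mul, ← AddChar.map_add_eq_mul]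
  obtain ⟨u, hu⟩ : ∃ u, u = w + w' := ⟨_, rfl⟩
  obtain ⟨y, hy⟩ : ∃ y, y = P u := ⟨_, rfl⟩
  have hw' : w' = u - w := by rw [hu]; abel
  rw [hc'', ← hu, ← hy, hw']
  have h3 := hP u
  rw [← hy] at h3
  have h4 : (4 : F)⁻¹ * B (c w) w + (4 : F)⁻¹ * B (c' (u - w)) (u - w) + (2 : F)⁻¹ * B w (u - w) =
      (4 : F)⁻¹ * B (c (w - y) + c' (w - y)) (w - y) +
        (4 : F)⁻¹ * B (c' u - (c' y - y)) u := by
    have h40 : (4 : F) ≠ 0 := by
      have : (4 : F) = 2 * 2 := by norm_num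
      rw [this]
      exact mul_ne_zero h2 h2
    have e5 : (2 : F)⁻¹ = 2 * (4 : F)⁻¹ := by
      field_simp
      norm_num
    have sy : ∀ a b, B (c a) b = B (c b) a := fun a b => by rw [hc, hB (c b) a, neg_neg]
    have sy' : ∀ a b, B (c' a) b = B (c' b) a := fun a b => by rw [hc', hB (c' b) a, neg_neg]
    have al : ∀ a, B a a = 0 := fun a => by
      have h5 := hB a a
      have h6 : (2 : F) * B a a = 0 := by linear_combination h5
      exact (mul_eq_zero.1 h6).resolve_left h2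
    have a1 : ∀ z, B (c y) z + B (c' y) z = B (c' u) z + B u z := fun z => by
      have h5 := congrArg (fun x => B x z) h3
      simpa only [map_add, LinearMap.add_apply] using h5
    have a2 := a1 w
    have a3 := a1 y
    have b1 := sy y w
    have b2 := sy' y w
    have b3 := sy' u w
    have b4 := sy' u y
    have b5 := hB u w
    have b6 := hB u y
    have b7 := al w
    simp only [map_add, map_sub, LinearMap.add_apply, LinearMap.sub_apply]
    rw [e5]
    linear_combination (4 : F)⁻¹ * (2 * a2 - a3 - b1 - b2 + b3 - b4 + 2 * b5 - b6 - 2 * b7)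
  rw [h4]

/-- **W4, composition, abstract form.** -/
theorem comp_abs (ν : Measure X) [ν.IsAddHaarMeasure] (h2 : (2 : F) ≠ 0) {ψ : AddChar F Circle}
    (hψ : Continuous ψ) (hψ1 : ψ ≠ 1) {B : X →ₗ[F] X →ₗ[F] F}
    (hB : ∀ x y, B y x = -B x y) (hnd : ∀ w, (∀ x, B w x = 0) → w = 0) {ρ : X → Module.End ℂ S}
    (hρ : ∀ w w', ρ w * ρ w' = ((ψ ((2 : F)⁻¹ * B w w') : Circle) : ℂ) • ρ (w + w'))
    (hs : ∀ v, ∀ᶠ w in nhds (0 : X), ρ w v = v)
    {c c' c'' P : X →ₗ[F] X} (hc : ∀ x y, B (c x) y = -B x (c y))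
    (hc' : ∀ x y, B (c' x) y = -B x (c' y)) (hc1 : ∀ x, c x = x → x = 0)
    (hc1' : ∀ x, c' x = x → x = 0) (hP : ∀ u, c (P u) + c' (P u) = c' u + u)
    (hc'' : ∀ u, c'' u = c' u - (c' (P u) - P u))
    {T T' T'' : Module.End ℂ S} (hT : IsOp ν ψ B c ρ T) (hT' : IsOp ν ψ B c' ρ T')
    (hT'' : IsOp ν ψ B c'' ρ T'') {G : ℂ}
    (hG : ∀ᶠ r : ℝ in Filter.atTop, ∫ w in closedBall (0 : X) r,
      ((ψ ((4 : F)⁻¹ * B (c w + c' w) w) : Circle) : ℂ) ∂ν = G) :
    T * T' = G • T'' := by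
  have iP : ProperSpace X := FiniteDimensional.proper F X
  have iU : IsUltrametricDist (X × X) := uprod X X
  have key : ∀ (v : S) (ξ : S →ₗ[ℂ] ℂ), ξ (T (T' v)) = G * ξ (T'' v) := by
    intro v ξ
    obtain ⟨ε₁, hε₁, hx₁⟩ := exists_eps hψ B hs c v
    obtain ⟨ε₂, hε₂, hx₂⟩ := exists_eps hψ B hs c' v
    obtain ⟨ε₃, hε₃, hx₃⟩ : ∃ ε > 0, ∀ q : X × X, ‖q‖ ≤ ε → ψ ((2 : F)⁻¹ * B q.1 q.2) = 1 := by
      have h3 : Continuous fun q : X × X => (2 : F)⁻¹ * B q.1 q.2 := by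
        have h4 : Continuous fun q : X × X => (LinearMap.toContinuousLinearMap
            (LinearMap.toContinuousLinearMap.toLinearMap ∘ₗ B) q.1) q.2 :=
          ((LinearMap.toContinuousLinearMap
            (LinearMap.toContinuousLinearMap.toLinearMap ∘ₗ B)).continuous.comp
            continuous_fst).clm_apply continuous_snd
        exact continuous_const.mul h4
      have h5 := LemI.addChar_small hψ (h3.continuousAt (x := 0)) (by simp)
      obtain ⟨ε, hε, h⟩ := Metric.eventually_nhds_iff.1 h5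
      refine ⟨ε / 2, by positivity, fun x hx => h ?_⟩
      rw [dist_zero_right]
      linarith
    obtain ⟨ε, hε⟩ : ∃ ε, ε = min ε₁ (min ε₂ ε₃) := ⟨_, rfl⟩
    have hε0 : 0 < ε := by rw [hε]; exact lt_min hε₁ (lt_min hε₂ hε₃)
    have hf : ∀ p q : X × X, ‖q‖ ≤ ε → int2 ψ B c c' ρ ξ v (p + q) =
        ((ψ (th2 B c c' p q) : Circle) : ℂ) * int2 ψ B c c' ρ ξ v p := by
      intro p q hq
      have q1 : ‖q‖ ≤ ε₁ := hq.trans (by rw [hε]; exact min_le_left _ _)
      have q2 : ‖q‖ ≤ ε₂ := hq.trans (by rw [hε]; exact (min_le_right _ _).trans (min_le_left _ _))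
      have q3 : ‖q‖ ≤ ε₃ := hq.trans (by rw [hε]; exact (min_le_right _ _).trans (min_le_right _ _))
      have n1 : ‖q.1‖ ≤ ‖q‖ := norm_fst_le q
      have n2 : ‖q.2‖ ≤ ‖q‖ := norm_snd_le q
      have n3 : ‖q.1 + q.2‖ ≤ ‖q‖ :=
        (IsUltrametricDist.norm_add_le_max q.1 q.2).trans (max_le n1 n2)
      exact shift2 h2 hB hρ hc hc' ξ p (hx₁ _ (n3.trans q1)).1 (hx₁ _ (n1.trans q1)).2
        (hx₂ _ (n2.trans q2)).2 (hx₃ _ q3)
    have hθ : ∀ p : X × X, (∀ q, th2 B c c' p q = 0) → p = 0 := by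
      intro p hp
      have e1 : p.2 = 0 := by
        refine hc1' _ (sub_eq_zero.1 (hnd _ fun x => ?_))
        have h3 := hp (0, x)
        rw [th2, LinearMap.mk₂_apply, map_zero, zero_add, mul_eq_zero] at h3
        exact h3.resolve_left (inv_ne_zero h2)
      have e2 : p.1 = 0 := by
        refine hc1 _ (sub_eq_zero.1 (hnd _ fun x => ?_))
        have h3 := hp (x, 0)
        rw [th2, LinearMap.mk₂_apply, map_zero, add_zero, mul_eq_zero, e1, add_zero,
          sub_zero] at h3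
        exact h3.resolve_left (inv_ne_zero h2)
      exact Prod.ext e2 e1
    obtain ⟨R₀, hR₀⟩ := LemI.detect hψ hψ1 (th2 B c c') hθ hε0
    obtain ⟨R₁, hR₁⟩ : ∃ R₁, R₁ = max R₀ ε := ⟨_, rfl⟩
    have hfc := LemI.cont_of_char hψ hε0 (th2 B c c') hf
    have hstab : ∀ A : Set (X × X), MeasurableSet A → Bornology.IsBounded A →
        (∀ w x, ‖x‖ ≤ ε → (w + x ∈ A ↔ w ∈ A)) → closedBall 0 R₁ ⊆ A →
        ∫ p in A, int2 ψ B c c' ρ ξ v p ∂(ν.prod ν) =
          ∫ p in closedBall 0 R₁, int2 ψ B c c' ρ ξ v p ∂(ν.prod ν) := by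
      intro A hAm hAb hAs hA
      exact LemI.stab_eq (ν.prod ν) hψ hε0 hfc (th2 B c c') hf (by rw [hR₁]; exact le_max_right _ _)
        (fun w hw => hR₀ w (lt_of_le_of_lt (by rw [hR₁]; exact le_max_left _ _) hw)) hAm hAb hAs hA
    -- first evaluation
    obtain ⟨R₂, hR₂⟩ := hT'.unif h2 hψ hψ1 hB hnd hρ hs hc' hc1' v
    have hε1 : ε ≤ R₁ := by rw [hR₁]; exact le_max_right _ _
    have ev1 : ξ (T (T' v)) = ∫ p in closedBall 0 R₁, int2 ψ B c c' ρ ξ v p ∂(ν.prod ν) := by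
      obtain ⟨r, hr1, hr2⟩ := ((hT (T' v) ξ).and (Filter.eventually_ge_atTop R₁)).exists
      obtain ⟨r', hr'⟩ : ∃ r', r' = max R₁ R₂ := ⟨_, rfl⟩
      have hr'1 : R₁ ≤ r' := by rw [hr']; exact le_max_left _ _
      have hr'2 : R₂ ≤ r' := by rw [hr']; exact le_max_right _ _
      rw [← hstab (closedBall 0 r ×ˢ closedBall 0 r')
        (isClosed_closedBall.measurableSet.prod isClosed_closedBall.measurableSet)
        (isBounded_closedBall.prod isBounded_closedBall) ?_ ?_, setIntegral_prod, hr1]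
      · refine setIntegral_congr_fun isClosed_closedBall.measurableSet fun w _ => ?_
        show _ = ∫ y in closedBall 0 r', int2 ψ B c c' ρ ξ v (w, y) ∂ν
        have h3 := hR₂ (ξ ∘ₗ ρ w) r' hr'2
        have h4 : ((ψ ((4 : F)⁻¹ * B (c w) w) : Circle) : ℂ) * ξ (ρ w (T' v)) =
            ((ψ ((4 : F)⁻¹ * B (c w) w) : Circle) : ℂ) * ∫ y in closedBall (0 : X) r',
              ((ψ ((4 : F)⁻¹ * B (c' y) y) : Circle) : ℂ) * (ξ ∘ₗ ρ w) (ρ y v) ∂ν :=
          congrArg (fun z => ((ψ ((4 : F)⁻¹ * B (c w) w) : Circle) : ℂ) * z) h3.symm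
        exact h4.trans (integral_const_mul _ _).symm
      · exact hfc.continuousOn.integrableOn_compact
          ((isCompact_closedBall _ _).prod (isCompact_closedBall _ _))
      · rintro ⟨a, b⟩ ⟨x, y⟩ hxy
        rw [Prod.norm_def, max_le_iff] at hxy
        simp only [Prod.mk_add_mk, mem_prod, mem_closedBall_zero_iff]
        rw [LemI.ball_add_iff (hε1.trans hr2) hxy.1, LemI.ball_add_iff (hε1.trans hr'1) hxy.2]
      · rintro ⟨a, b⟩ hab
        rw [mem_closedBall_zero_iff, Prod.norm_def, max_le_iff] at hab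
        simp only [mem_prod, mem_closedBall_zero_iff]
        exact ⟨hab.1.trans hr2, hab.2.trans hr'1⟩
    -- second evaluation
    have ev2 : G * ξ (T'' v) = ∫ p in closedBall 0 R₁, int2 ψ B c c' ρ ξ v p ∂(ν.prod ν) := by
      have hcont : Continuous (chgE P) :=
        (chgE P : X × X →ₗ[F] X × X).continuous_of_finiteDimensional
      have hconts : Continuous (chgE P).symm :=
        ((chgE P).symm : X × X →ₗ[F] X × X).continuous_of_finiteDimensional
      obtain ⟨M, hM0, hM⟩ : ∃ M : ℝ, 0 < M ∧ ∀ p : X × X, ‖chgE P p‖ ≤ M * ‖p‖ := by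
        obtain ⟨M, hM0, hM⟩ := (LinearMap.toContinuousLinearMap
          (chgE P : X × X →ₗ[F] X × X)).isBoundedLinearMap.bound
        exact ⟨M, hM0, hM⟩
      obtain ⟨R, hRG, hR⟩ := (hG.and (Filter.eventually_ge_atTop (M * R₁))).exists
      obtain ⟨s, hs1, hs2⟩ := ((hT'' v ξ).and (Filter.eventually_ge_atTop (M * R₁))).exists
      have hR1 : 0 < R₁ := lt_of_lt_of_le hε0 hε1
      rw [← hstab (chgE P ⁻¹' (closedBall 0 R ×ˢ closedBall 0 s)) ?_ ?_ ?_ ?_]
      · have e1 : ∀ p, int2 ψ B c c' ρ ξ v p =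
            (fun z : X × X => ((ψ ((4 : F)⁻¹ * B (c z.1 + c' z.1) z.1) : Circle) : ℂ) *
              (((ψ ((4 : F)⁻¹ * B (c'' z.2) z.2) : Circle) : ℂ) * ξ (ρ z.2 v))) (chgE P p) :=
          fun p => int2_chg h2 hB hρ hc hc' hP hc'' ξ v p
        have hemb : MeasurableEmbedding (chgE P) :=
          (Homeomorph.mk (chgE P).toEquiv hcont hconts).measurableEmbedding
        have h5 := (chg_mp ν P).setIntegral_preimage_emb hemb (fun z : X × X =>
            ((ψ ((4 : F)⁻¹ * B (c z.1 + c' z.1) z.1) : Circle) : ℂ) *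
              (((ψ ((4 : F)⁻¹ * B (c'' z.2) z.2) : Circle) : ℂ) * ξ (ρ z.2 v)))
          (closedBall 0 R ×ˢ closedBall 0 s)
        have h6 := setIntegral_prod_mul (μ := ν) (ν := ν)
            (fun z : X => ((ψ ((4 : F)⁻¹ * B (c z + c' z) z) : Circle) : ℂ))
            (fun z : X => ((ψ ((4 : F)⁻¹ * B (c'' z) z) : Circle) : ℂ) * ξ (ρ z v))
            (closedBall 0 R) (closedBall 0 s)
        have h7 : ∫ p in chgE P ⁻¹' (closedBall 0 R ×ˢ closedBall 0 s),
            int2 ψ B c c' ρ ξ v p ∂(ν.prod ν) = _ :=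
          integral_congr_ae (Filter.Eventually.of_forall fun p => e1 p)
        rw [hRG, ← hs1] at h6
        exact ((h7.trans h5).trans h6).symm
      · exact hcont.measurable
          (isClosed_closedBall.measurableSet.prod isClosed_closedBall.measurableSet)
      · have h3 : chgE P ⁻¹' (closedBall 0 R ×ˢ closedBall 0 s) =
            (chgE P).symm '' (closedBall 0 R ×ˢ closedBall 0 s) := by
          ext p
          constructor
          · intro hp
            exact ⟨chgE P p, hp, (chgE P).symm_apply_apply p⟩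
          · rintro ⟨q, hq, rfl⟩
            rw [mem_preimage, (chgE P).apply_symm_apply]
            exact hq
        rw [h3]
        exact (((isCompact_closedBall _ _).prod (isCompact_closedBall _ _)).image
          hconts).isBounded
      · intro p q hq
        have h3 : ‖chgE P q‖ ≤ M * R₁ := (hM q).trans
          (mul_le_mul_of_nonneg_left (hq.trans hε1) hM0.le)
        rw [Prod.norm_def, max_le_iff] at h3
        rw [mem_preimage, mem_preimage, map_add, mem_prod, mem_prod, Prod.fst_add, Prod.snd_add,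
          mem_closedBall_zero_iff, mem_closedBall_zero_iff, mem_closedBall_zero_iff,
          mem_closedBall_zero_iff, LemI.ball_add_iff hR h3.1, LemI.ball_add_iff hs2 h3.2]
      · intro p hp
        rw [mem_closedBall_zero_iff] at hp
        have h3 : ‖chgE P p‖ ≤ M * R₁ := (hM p).trans (mul_le_mul_of_nonneg_left hp hM0.le)
        rw [Prod.norm_def, max_le_iff] at h3
        rw [mem_preimage, mem_prod, mem_closedBall_zero_iff, mem_closedBall_zero_iff]
        exact ⟨h3.1.trans hR, h3.2.trans hs2⟩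
    rw [ev1, ev2]
  refine LinearMap.ext fun v => ?_
  have h3 := (Module.forall_dual_apply_eq_zero_iff ℂ (T (T' v) - G • T'' v)).1 fun ξ => by
    rw [map_sub, map_smul, smul_eq_mul, key v ξ, sub_self]
  rw [Module.End.mul_apply, LinearMap.smul_apply]
  exact sub_eq_zero.1 h3

end abs

section ring

variable {R : Type} [Ring R]

/-- The algebra of the Cayley transforms. -/
theorem ring_id {A B ai bi ei h : R} (ha : (A - 1) * ai = 1) (ha' : ai * (A - 1) = 1)
    (hb : (B - 1) * bi = 1) (hb' : bi * (B - 1) = 1) (he : (A * B - 1) * ei = 1)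
    (he' : ei * (A * B - 1) = 1) (hh : h * 2 = 1) (hc : ∀ x : R, h * x = x * h) :
    (A + 1) * ai + (B + 1) * bi = 2 * (ai * (A * B - 1) * bi) ∧
    ((A + 1) * ai + (B + 1) * bi) * (h * ((B - 1) * ei * (A - 1))) = 1 ∧
    (A * B + 1) * ei = (B + 1) * bi -
      (((B + 1) * bi) * (h * ((B - 1) * ei * (A - 1)) * ((B + 1) * bi + 1)) -
        (h * ((B - 1) * ei * (A - 1)) * ((B + 1) * bi + 1))) := by
  have c1 : (A + 1) * ai = 1 + 2 * ai := by
    have : A + 1 = (A - 1) + 2 := by rw [← one_add_one_eq_two]; abel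
    rw [this, add_mul, ha]
  have c2 : (B + 1) * bi = 1 + 2 * bi := by
    have : B + 1 = (B - 1) + 2 := by rw [← one_add_one_eq_two]; abel
    rw [this, add_mul, hb]
  have c3 : (A * B + 1) * ei = 1 + 2 * ei := by
    have : A * B + 1 = (A * B - 1) + 2 := by rw [← one_add_one_eq_two]; abel
    rw [this, add_mul, he]
  have e0 : A * B - 1 = (A - 1) * (B - 1) + (A - 1) + (B - 1) := by noncomm_ring
  have e1 : ai * (A * B - 1) * bi = 1 + bi + ai := by
    rw [e0]
    calc ai * ((A - 1) * (B - 1) + (A - 1) + (B - 1)) * bi =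
        (ai * (A - 1)) * ((B - 1) * bi) + (ai * (A - 1)) * bi + ai * ((B - 1) * bi) := by
          noncomm_ring
      _ = _ := by rw [ha', hb]; noncomm_ring
  have e2 : (A + 1) * ai + (B + 1) * bi = 2 * (ai * (A * B - 1) * bi) := by
    rw [c1, c2, e1]
    noncomm_ring
  have two_comm : ∀ x : R, (2 : R) * x = x * 2 := fun x => by noncomm_ring
  refine ⟨e2, ?_, ?_⟩
  · rw [e2]
    calc 2 * (ai * (A * B - 1) * bi) * (h * ((B - 1) * ei * (A - 1))) =
        (2 * h) * (ai * ((A * B - 1) * ((bi * (B - 1)) * ei)) * (A - 1)) := by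
          rw [mul_assoc, ← mul_assoc (ai * (A * B - 1) * bi) h, ← hc]
          noncomm_ring
      _ = 1 := by
          rw [hb', one_mul, he, mul_one, ha', mul_one, two_comm, hh]
  · rw [c3, c2]
    have h3 : h * ((B - 1) * ei * (A - 1)) * (1 + 2 * bi + 1) =
        (B - 1) * ei * (A - 1) * (1 + bi) := by
      have : (1 + 2 * bi + 1 : R) = 2 * (1 + bi) := by noncomm_ring
      rw [this, hc, mul_assoc, ← mul_assoc h 2, hh, one_mul]
    rw [h3]
    have h4 : (1 + 2 * bi) * ((B - 1) * ei * (A - 1) * (1 + bi)) -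
        (B - 1) * ei * (A - 1) * (1 + bi) = 2 * ((bi * (B - 1)) * ei * ((A - 1) * (1 + bi))) := by
      noncomm_ring
    rw [h4, hb', one_mul]
    have h5 : (A - 1) * (1 + bi) = ((A * B - 1) - (B - 1)) * bi := by
      have : (A - 1) * (1 + bi) = (A - 1) * ((B - 1) * bi) + (A - 1) * bi := by
        rw [hb]
        noncomm_ring
      rw [this]
      noncomm_ring
    rw [h5]
    have h6 : ei * (((A * B - 1) - (B - 1)) * bi) =
        (ei * (A * B - 1)) * bi - ei * ((B - 1) * bi) := by noncomm_ring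
    rw [h6, he', hb]
    noncomm_ring

end ring

end WeC

section conc

variable {F E : Type} [NontriviallyNormedField F] [IsUltrametricDist F] [ProperSpace F]
  [NontriviallyNormedField E] [NormedAlgebra F E] [IsUltrametricDist E] [ProperSpace E]
  [MeasurableSpace E] [BorelSpace E]
  {σ : E ≃ₐ[F] E} {δ : E} {d : F} {N : ℕ} {H : Matrix (Fin N) (Fin N) E}
  {S : Type} [AddCommGroup S] [Module ℂ S]
  {ψ : AddChar F Circle} {ρ : (Fin N → E) → Module.End ℂ S}

/-- The matrix `c + c'`. -/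
noncomputable def cmat {N : ℕ} (g g' : Matrix (Fin N) (Fin N) E) : Matrix (Fin N) (Fin N) E :=
  cayley g + cayley g'

/-- `F`-linear map of a matrix. -/
def mvF (F : Type) {E : Type} [Field F] [Field E] [Algebra F E] {N : ℕ}
    (c : Matrix (Fin N) (Fin N) E) : (Fin N → E) →ₗ[F] (Fin N → E) where
  toFun x := c.mulVec x
  map_add' _ _ := Matrix.mulVec_add _ _ _
  map_smul' _ _ := mulVec_fsmul _ _ _

theorem cayley_fix (hq : QuadDatum σ δ d) {g : unitary σ H} (hu : IsUnit (umat g - 1))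
    (x : Fin N → E) (hx : (cayley (umat g)).mulVec x = x) : x = 0 := by
  obtain ⟨y, rfl⟩ : ∃ y, x = (umat g - 1).mulVec y := by
    refine ⟨(umat g - 1)⁻¹.mulVec x, ?_⟩
    rw [Matrix.mulVec_mulVec, Matrix.mul_nonsing_inv _ ((Matrix.isUnit_iff_isUnit_det _).1 hu),
      Matrix.one_mulVec]
  rw [Matrix.mulVec_mulVec, cayley_mul hu, Matrix.add_mulVec, Matrix.sub_mulVec,
    Matrix.one_mulVec] at hx
  have h1 : (2 : E) • y = 0 := by
    rw [two_smul]
    have h2 := sub_eq_zero.2 hx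
    have h3 : (umat g).mulVec y + y - ((umat g).mulVec y - y) = y + y := by abel
    rwa [h3] at h2
  rw [(smul_eq_zero.1 h1).resolve_left hq.two_E, Matrix.mulVec_zero]

theorem cmat_ids (hq : QuadDatum σ δ d) {g g' : unitary σ H} (hu : IsUnit (umat g - 1))
    (hu' : IsUnit (umat g' - 1)) (hu'' : IsUnit (umat (g * g') - 1)) :
    (cmat (umat g) (umat g')).det * ((umat g - 1).det * (umat g' - 1).det) =
      2 ^ N * (umat (g * g') - 1).det ∧
    ∃ P : Matrix (Fin N) (Fin N) E, cmat (umat g) (umat g') * P = cayley (umat g') + 1 ∧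
      cayley (umat (g * g')) = cayley (umat g') - (cayley (umat g') * P - P) := by
  have hd := (Matrix.isUnit_iff_isUnit_det _).1 hu
  have hd' := (Matrix.isUnit_iff_isUnit_det _).1 hu'
  have hd'' := (Matrix.isUnit_iff_isUnit_det _).1 hu''
  have hm : umat (g * g') = umat g * umat g' := rfl
  rw [hm] at hd'' ⊢
  obtain ⟨h1, h2, h3⟩ := WeC.ring_id (A := umat g) (B := umat g') (ai := (umat g - 1)⁻¹)
    (bi := (umat g' - 1)⁻¹) (ei := (umat g * umat g' - 1)⁻¹)
    (h := (2 : E)⁻¹ • (1 : Matrix (Fin N) (Fin N) E))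
    (Matrix.mul_nonsing_inv _ hd) (Matrix.nonsing_inv_mul _ hd) (Matrix.mul_nonsing_inv _ hd')
    (Matrix.nonsing_inv_mul _ hd') (Matrix.mul_nonsing_inv _ hd'') (Matrix.nonsing_inv_mul _ hd'')
    (by
      rw [Matrix.smul_mul, one_mul]
      have : (2 : Matrix (Fin N) (Fin N) E) = (2 : E) • 1 := by
        rw [two_smul, one_add_one_eq_two]
      rw [this, smul_smul, inv_mul_cancel₀ hq.two_E, one_smul])
    (fun x => by rw [Matrix.smul_mul, Matrix.mul_smul, one_mul, mul_one])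
  refine ⟨?_, _, ?_, h3⟩
  · have h4 : cmat (umat g) (umat g') = 2 * ((umat g - 1)⁻¹ * (umat g * umat g' - 1) *
      (umat g' - 1)⁻¹) := h1
    have h5 : (2 : Matrix (Fin N) (Fin N) E) = (2 : E) • 1 := by
      rw [two_smul, one_add_one_eq_two]
    rw [h4, h5, Matrix.smul_mul, one_mul, Matrix.det_smul, Fintype.card_fin, Matrix.det_mul,
      Matrix.det_mul, Matrix.det_nonsing_inv, Matrix.det_nonsing_inv, Ring.inverse_eq_inv']
    have n1 := hd.ne_zero
    have n2 := hd'.ne_zero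
    field_simp
  · rw [← mul_assoc]
    show cmat (umat g) (umat g') * _ * _ = _
    have h6 : cmat (umat g) (umat g') * ((2 : E)⁻¹ • (1 : Matrix (Fin N) (Fin N) E) *
      ((umat g' - 1) * (umat g * umat g' - 1)⁻¹ * (umat g - 1))) = 1 := h2
    rw [h6, one_mul]
    rfl

/-- **W4a**: composition of the operators attached to the Cayley transforms. -/
theorem comp_T (hq : QuadDatum σ δ d) (hH : IsSkew σ H) (hψ : Continuous ψ) (hψ1 : ψ ≠ 1)
    (rho_mul : ∀ w w', ρ w * ρ w' = ((ψ ((2 : F)⁻¹ * sympl F σ H w w') : Circle) : ℂ) • ρ (w + w'))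
    (rho_smooth : ∀ v, ∀ᶠ w in nhds (0 : Fin N → E), ρ w v = v)
    {g g' : unitary σ H} (hu : IsUnit (umat g - 1))
    (hu' : IsUnit (umat g' - 1)) (hu'' : IsUnit (umat (g * g') - 1))
    {T T' T'' : Module.End ℂ S} (hT : IsOpT ψ σ H (cayley (umat g)) ρ T)
    (hT' : IsOpT ψ σ H (cayley (umat g')) ρ T') (hT'' : IsOpT ψ σ H (cayley (umat (g * g'))) ρ T'')
    {G : ℂ} (hG : ∀ᶠ r : ℝ in Filter.atTop, ∫ w in closedBall (0 : Fin N → E) r,
      ((ψ ((4 : F)⁻¹ * sympl F σ H ((cmat (umat g) (umat g')).mulVec w) w) : Circle) : ℂ)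
        ∂(Measure.addHaar) = G) : T * T' = G • T'' := by
  have iE : FiniteDimensional F E := hq.finite
  obtain ⟨-, P, hP, hc''⟩ := cmat_ids hq hu hu' hu''
  refine WeC.comp_abs (F := F) (X := Fin N → E) Measure.addHaar hq.two hψ hψ1
    (B := symplB F σ H) (fun x y => sympl_swap hq hH x y) (fun w hw => sympl_nondeg hq hH hw)
    rho_mul rho_smooth (c := mvF F (cayley (umat g))) (c' := mvF F (cayley (umat g')))
    (c'' := mvF F (cayley (umat (g * g')))) (P := mvF F P) ?_ ?_ (fun x => cayley_fix hq hu x)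
    (fun x => cayley_fix hq hu' x) ?_ ?_ hT hT' hT'' ?_
  · intro x y
    show sympl F σ H ((cayley (umat g)).mulVec x) y = - sympl F σ H x ((cayley (umat g)).mulVec y)
    rw [sympl_eq, cayley_adj hu, map_neg, ← sympl_eq]
  · intro x y
    show sympl F σ H ((cayley (umat g')).mulVec x) y =
      - sympl F σ H x ((cayley (umat g')).mulVec y)
    rw [sympl_eq, cayley_adj hu', map_neg, ← sympl_eq]
  · intro u
    show (cayley (umat g)).mulVec (P.mulVec u) + (cayley (umat g')).mulVec (P.mulVec u) =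
      (cayley (umat g')).mulVec u + u
    rw [← Matrix.add_mulVec, Matrix.mulVec_mulVec]
    have h1 : (cayley (umat g) + cayley (umat g')) * P = cayley (umat g') + 1 := hP
    rw [h1, Matrix.add_mulVec, Matrix.one_mulVec]
  · intro u
    show (cayley (umat (g * g'))).mulVec u = (cayley (umat g')).mulVec u -
      ((cayley (umat g')).mulVec (P.mulVec u) - P.mulVec u)
    rw [hc'', Matrix.sub_mulVec, Matrix.sub_mulVec, Matrix.mulVec_mulVec]
  · filter_upwards [hG] with r hr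
    rw [← hr]
    refine integral_congr_ae (Filter.Eventually.of_forall fun w => ?_)
    show ((ψ ((4 : F)⁻¹ * sympl F σ H ((cayley (umat g)).mulVec w + (cayley (umat g')).mulVec w) w) :
      Circle) : ℂ) = ((ψ ((4 : F)⁻¹ * sympl F σ H ((cmat (umat g) (umat g')).mulVec w) w) :
        Circle) : ℂ)
    rw [cmat, Matrix.add_mulVec]

/-- The scalar `μ(d) |d|^{-1/2}`. -/
noncomputable def aE (μ : Eˣ →* ℂˣ) (u : Eˣ) : ℂ :=
  ((μ u : ℂˣ) : ℂ) * (((absE u) ^ (-(1 / 2) : ℝ) : ℝ) : ℂ)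

theorem aE_abs_md (u : Eˣ) : absE u = ((md (u : E) : ℝ≥0) : ℝ) := by
  unfold absE
  rw [← md_units]

theorem aE_abs_pos (u : Eˣ) : 0 < absE u := by
  rw [aE_abs_md]
  exact_mod_cast md_pos u.ne_zero

theorem aE_abs_mul (u v : Eˣ) : absE (u * v) = absE u * absE v := by
  rw [aE_abs_md, aE_abs_md, aE_abs_md, Units.val_mul, md_mul, NNReal.coe_mul]

theorem aE_mul (μ : Eˣ →* ℂˣ) (u v : Eˣ) : aE μ (u * v) = aE μ u * aE μ v := by
  unfold aE
  rw [map_mul, Units.val_mul, aE_abs_mul, Real.mul_rpow (aE_abs_pos u).le (aE_abs_pos v).le,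
    Complex.ofReal_mul]
  ring

theorem aE_ne (μ : Eˣ →* ℂˣ) (u : Eˣ) : aE μ u ≠ 0 := by
  unfold aE
  refine mul_ne_zero (Units.ne_zero _) ?_
  exact_mod_cast (Real.rpow_pos_of_pos (aE_abs_pos u) _).ne'

theorem aE_alg (hq : QuadDatum σ δ d) (μ : Eˣ →* ℂˣ) (u : Eˣ) (t : F)
    (h : algebraMap F E t = u) :
    aE μ u = omF F μ t * (((md t : ℝ≥0) : ℝ) : ℂ)⁻¹ := by
  have ht : t ≠ 0 := by
    rintro rfl
    rw [map_zero] at h
    exact u.ne_zero h.symm
  rw [aE, omF_eq μ u h.symm, aE_abs_md, ← h, md_alg hq]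
  congr 1
  have h1 : (0 : ℝ) < ((md t : ℝ≥0) : ℝ) := by exact_mod_cast md_pos ht
  have h2 : ((((md t ^ 2 : ℝ≥0) : ℝ)) ^ (-(1 / 2) : ℝ) : ℝ) = (((md t : ℝ≥0) : ℝ))⁻¹ := by
    rw [NNReal.coe_pow, ← Real.rpow_natCast, ← Real.rpow_mul h1.le, ← Real.rpow_neg_one]
    norm_num
  rw [h2, Complex.ofReal_inv]

/-- The Hermitian matrix of `c + c'`. -/
theorem herm_cmat (hq : QuadDatum σ δ d) (hH : IsSkew σ H) {g g' : unitary σ H}
    (hu : IsUnit (umat g - 1)) (hu' : IsUnit (umat g' - 1)) :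
    (∀ x y, sk σ ((cmat (umat g) (umat g')).transpose * H) x y =
      sk σ H ((cmat (umat g) (umat g')).mulVec x) y) ∧
    (∀ x y, sk σ ((cmat (umat g) (umat g')).transpose * H) y x =
      σ (sk σ ((cmat (umat g) (umat g')).transpose * H) x y)) ∧
    ∀ i j, ((cmat (umat g) (umat g')).transpose * H) j i =
      σ (((cmat (umat g) (umat g')).transpose * H) i j) := by
  have h1 : ∀ x y, sk σ ((cmat (umat g) (umat g')).transpose * H) x y =
      sk σ H ((cmat (umat g) (umat g')).mulVec x) y := by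
    intro x y
    rw [sk_eq_dot, sk_eq_dot, ← Matrix.vecMul_vecMul, Matrix.vecMul_transpose]
  have h2 : ∀ x y, sk σ ((cmat (umat g) (umat g')).transpose * H) y x =
      σ (sk σ ((cmat (umat g) (umat g')).transpose * H) x y) := by
    intro x y
    rw [h1, h1, cmat, Matrix.add_mulVec, Matrix.add_mulVec, sk_add_left, sk_add_left,
      cayley_adj hu, cayley_adj hu', sk_swap hq hH _ y, sk_swap hq hH _ y, neg_neg, neg_neg,
      map_add]
  refine ⟨h1, h2, fun i j => ?_⟩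
  have h3 : ∀ i j, sk σ ((cmat (umat g) (umat g')).transpose * H) (Pi.single i 1)
      (Pi.single j 1) = ((cmat (umat g) (umat g')).transpose * H) i j := by
    intro i j
    have h4 : (fun k => σ ((Pi.single j (1 : E) : Fin N → E) k)) = Pi.single j 1 := by
      funext k
      by_cases hk : k = j
      · subst hk; simp
      · simp [Pi.single_eq_of_ne hk]
    rw [sk_eq_dot, h4, dotProduct_single, mul_one, Matrix.single_one_vecMul]
    rfl
  rw [← h3 j i, ← h3 i j, h2]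

/-- **W4b**: multiplicativity with the scalars. -/
theorem weil_kappa (hq : QuadDatum σ δ d) (hH : IsSkew σ H) (hψ : Continuous ψ) (hψ1 : ψ ≠ 1)
    (rho_mul : ∀ w w', ρ w * ρ w' = ((ψ ((2 : F)⁻¹ * sympl F σ H w w') : Circle) : ℂ) • ρ (w + w'))
    (rho_smooth : ∀ v, ∀ᶠ w in nhds (0 : Fin N → E), ρ w v = v) (μ : Eˣ →* ℂˣ)
    (hg : ∃ G0 : ℂ, G0 ≠ 0 ∧ ∀ H' : Matrix (Fin N) (Fin N) E, (∀ i j, H' j i = σ (H' i j)) →
      H'.det ≠ 0 → ∀ t : F, algebraMap F E t = H'.det → ∀ q : (Fin N → E) → F,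
      (∀ w, algebraMap F E (q w) = sk σ H' w w) → ∀ᶠ r : ℝ in Filter.atTop,
        ∫ w in closedBall (0 : Fin N → E) r, ((ψ ((2 : F)⁻¹ * q w) : Circle) : ℂ)
          ∂(Measure.addHaar) = G0 * omF F μ t * (((md t : ℝ≥0) : ℝ) : ℂ)⁻¹) :
    ∃ κ : ℂ, κ ≠ 0 ∧ ∀ (g g' : unitary σ H) (d d' d'' : Eˣ), (d : E) = (umat g - 1).det →
      (d' : E) = (umat g' - 1).det → (d'' : E) = (umat (g * g') - 1).det →
      ∀ T T' T'' : Module.End ℂ S, IsOpT ψ σ H (cayley (umat g)) ρ T →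
        IsOpT ψ σ H (cayley (umat g')) ρ T' → IsOpT ψ σ H (cayley (umat (g * g'))) ρ T'' →
        ((κ * aE μ d) • T) * ((κ * aE μ d') • T') = (κ * aE μ d'') • T'' := by
  obtain ⟨G0, hG0, hG⟩ := hg
  obtain ⟨h0, hh0⟩ : ∃ h0 : Eˣ, (h0 : E) = 2 ^ N * H.det :=
    ⟨Units.mk0 _ (mul_ne_zero (pow_ne_zero _ hq.two_E) hH.det_ne), rfl⟩
  refine ⟨(G0 * aE μ h0)⁻¹, inv_ne_zero (mul_ne_zero hG0 (aE_ne μ h0)), ?_⟩
  intro g g' d d' d'' hd hd' hd'' T T' T'' hT hT' hT''
  have hu : IsUnit (umat g - 1) := (Matrix.isUnit_iff_isUnit_det _).2 (by rw [← hd]; exact d.isUnit)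
  have hu' : IsUnit (umat g' - 1) :=
    (Matrix.isUnit_iff_isUnit_det _).2 (by rw [← hd']; exact d'.isUnit)
  have hu'' : IsUnit (umat (g * g') - 1) :=
    (Matrix.isUnit_iff_isUnit_det _).2 (by rw [← hd'']; exact d''.isUnit)
  obtain ⟨hdet, -⟩ := cmat_ids hq hu hu' hu''
  obtain ⟨m1, m2, m3⟩ := herm_cmat hq hH hu hu'
  set H' := (cmat (umat g) (umat g')).transpose * H with hH'
  -- the determinant as a unit
  obtain ⟨u, hu0⟩ : ∃ u : Eˣ, u = h0 * d'' * d⁻¹ * d'⁻¹ := ⟨_, rfl⟩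
  have hudet : (u : E) = H'.det := by
    have e1 : (d : E) ≠ 0 := d.ne_zero
    have e2 : (d' : E) ≠ 0 := d'.ne_zero
    have e3 : (cmat (umat g) (umat g')).det = 2 ^ N * d'' / (d * d') := by
      rw [eq_div_iff (mul_ne_zero e1 e2), hd, hd', hd'']
      exact hdet
    rw [hH', Matrix.det_mul, Matrix.det_transpose, e3, hu0]
    simp only [Units.val_mul, Units.val_inv_eq_inv_val, hh0]
    field_simp
  have hfix : σ H'.det = H'.det := by
    rw [← Matrix.det_transpose H']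
    have e4 : σ (H'.transpose).det = ((σ : E →+* E).mapMatrix H'.transpose).det :=
      RingHom.map_det (σ : E →+* E) H'.transpose
    have e5 : (σ : E →+* E).mapMatrix H'.transpose = H' := by
      ext i j
      exact (m3 j i).symm
    rw [e4, e5, Matrix.det_transpose]
  obtain ⟨t, ht⟩ := hq.mem_of_fix hfix
  have hq' : ∀ w, ∃ a : F, algebraMap F E a = sk σ H' w w := fun w =>
    hq.mem_of_fix (m2 w w).symm
  choose q hqq using hq'
  have hG' := hG H' m3 (by rw [← hudet]; exact u.ne_zero) t ht q hqq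
  have hGG : ∀ᶠ r : ℝ in Filter.atTop, ∫ w in closedBall (0 : Fin N → E) r,
      ((ψ ((4 : F)⁻¹ * sympl F σ H ((cmat (umat g) (umat g')).mulVec w) w) : Circle) : ℂ)
        ∂(Measure.addHaar) = G0 * aE μ u := by
    filter_upwards [hG'] with r hr
    rw [aE_alg hq μ u t (ht.trans hudet.symm), ← mul_assoc, ← hr]
    refine integral_congr_ae (Filter.Eventually.of_forall fun w => ?_)
    have e6 : (4 : F)⁻¹ * sympl F σ H ((cmat (umat g) (umat g')).mulVec w) w =
        (2 : F)⁻¹ * q w := by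
      have e7 : sympl F σ H ((cmat (umat g) (umat g')).mulVec w) w = 2 * q w := by
        apply (algebraMap F E).injective
        rw [sympl_eq, hq.trace_eq, ← m1, ← hqq, AlgEquiv.commutes, map_mul, map_ofNat]
        ring
      have e8 : (4 : F) = 2 * 2 := by norm_num
      have := hq.two
      rw [e7, e8]
      field_simp
    show ((ψ ((4 : F)⁻¹ * sympl F σ H ((cmat (umat g) (umat g')).mulVec w) w) : Circle) : ℂ) =
      ((ψ ((2 : F)⁻¹ * q w) : Circle) : ℂ)
    rw [e6]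
  have hcomp := comp_T hq hH hψ hψ1 rho_mul rho_smooth hu hu' hu'' hT hT' hT'' hGG
  have e9 : aE μ u * (aE μ d * aE μ d') = aE μ h0 * aE μ d'' := by
    rw [← aE_mul, ← aE_mul, ← aE_mul]
    congr 1
    rw [hu0]
    group
    simp [mul_comm, mul_left_comm]
  rw [smul_mul_smul_comm, hcomp, smul_smul]
  congr 1
  have n1 := aE_ne μ h0
  have e10 : (G0 * aE μ h0)⁻¹ * aE μ d * ((G0 * aE μ h0)⁻¹ * aE μ d') * (G0 * aE μ u) =
      (G0 * aE μ h0)⁻¹ * (G0 * aE μ h0)⁻¹ * G0 * (aE μ u * (aE μ d * aE μ d')) := by ring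
  rw [e10, e9]
  field_simp

end conc


end SpW
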