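import Pool.Agent.Work.MP_3615d2_al.LemI

/-!
MP_3615d2_al, W3 (part 1): Gauss integrals of quadratic functions: stabilisation, nonvanishing.
-/

set_option linter.unusedSectionVars false

open MeasureTheory Metric Set Pool.Agent.SpehH Filter
open scoped NNReal ENNReal Matrix

namespace SpW.We

variable {F : Type} [NontriviallyNormedField F] [ProperSpace F] [IsUltrametricDist F]
  {V : Type} [NormedAddCommGroup V] [NormedSpace F V] [FiniteDimensional F V]
  [IsUltrametricDist V] [MeasurableSpace V] [BorelSpace V]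

/-- `q` is quadratic with nondegenerate polar form `θ`. -/
structure IsQd (q : V → F) (θ : V →ₗ[F] V →ₗ[F] F) : Prop where
  cont : Continuous q
  zero : q 0 = 0
  add : ∀ w x, q (w + x) = q w + θ w x + q x
  nondeg : ∀ w, (∀ x, θ w x = 0) → w = 0

omit [ProperSpace F] [FiniteDimensional F V] [IsUltrametricDist V] [MeasurableSpace V]
  [BorelSpace V] in
theorem IsQd.small {q : V → F} {θ : V →ₗ[F] V →ₗ[F] F} (h : IsQd q θ) {ψ : AddChar F Circle}
    (hψ : Continuous ψ) : ∃ ε > 0, ∀ x, ‖x‖ ≤ ε → ψ (q x) = 1 := by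
  have h1 := LemI.addChar_small hψ (h.cont.continuousAt (x := 0)) h.zero
  obtain ⟨ε, hε, h2⟩ := Metric.eventually_nhds_iff.1 h1
  refine ⟨ε / 2, by positivity, fun x hx => h2 ?_⟩
  rw [dist_zero_right]
  linarith

/-- (G1) stabilisation. -/
theorem gauss_stab (μ : Measure V) [μ.IsAddHaarMeasure] {q : V → F} {θ : V →ₗ[F] V →ₗ[F] F}
    (h : IsQd q θ) {ψ : AddChar F Circle} (hψ : Continuous ψ) (hψ1 : ψ ≠ 1) :
    ∃ ε > 0, ∃ R₁ : ℝ, ε ≤ R₁ ∧ ∀ A : Set V, MeasurableSet A → Bornology.IsBounded A →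
      (∀ w x, ‖x‖ ≤ ε → (w + x ∈ A ↔ w ∈ A)) → closedBall 0 R₁ ⊆ A →
      ∫ w in A, ((ψ (q w) : Circle) : ℂ) ∂μ =
        ∫ w in closedBall 0 R₁, ((ψ (q w) : Circle) : ℂ) ∂μ := by
  obtain ⟨ε, hε, h1⟩ := h.small hψ
  obtain ⟨R₀, hR₀⟩ := LemI.detect hψ hψ1 θ h.nondeg hε
  refine ⟨ε, hε, max ε R₀, le_max_left _ _, fun A hA hb hs hc => ?_⟩
  refine LemI.stab_eq μ hψ hε (continuous_subtype_val.comp (hψ.comp h.cont)) θ ?_
    (le_max_left _ _) ?_ hA hb hs hc
  · intro w x hx
    show ((ψ (q (w + x)) : Circle) : ℂ) = _ * ((ψ (q w) : Circle) : ℂ)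
    rw [h.add, AddChar.map_add_eq_mul, AddChar.map_add_eq_mul, h1 x hx, mul_one, mul_comm,
      Circle.coe_mul]
  · intro w hw
    exact hR₀ w ((le_max_right _ _).trans_lt hw)

/-- (G1) for balls. -/
theorem gauss_ball (μ : Measure V) [μ.IsAddHaarMeasure] {q : V → F} {θ : V →ₗ[F] V →ₗ[F] F}
    (h : IsQd q θ) {ψ : AddChar F Circle} (hψ : Continuous ψ) (hψ1 : ψ ≠ 1) :
    ∃ R₁ : ℝ, ∀ r, R₁ ≤ r → ∫ w in closedBall 0 r, ((ψ (q w) : Circle) : ℂ) ∂μ =
      ∫ w in closedBall 0 R₁, ((ψ (q w) : Circle) : ℂ) ∂μ := by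
  obtain ⟨ε, hε, R₁, hR, h1⟩ := gauss_stab μ h hψ hψ1
  refine ⟨R₁, fun r hr => h1 _ isClosed_closedBall.measurableSet isBounded_closedBall ?_
    (closedBall_subset_closedBall hr)⟩
  intro w x hx
  rw [mem_closedBall_zero_iff, mem_closedBall_zero_iff, LemI.ball_add_iff (hR.trans hr) hx]

omit [ProperSpace F] [IsUltrametricDist F] [FiniteDimensional F V] [MeasurableSpace V]
  [BorelSpace V] [IsUltrametricDist V] in
theorem IsQd.symm' {q : V → F} {θ : V →ₗ[F] V →ₗ[F] F} (h : IsQd q θ) (w x : V) :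
    θ w x = θ x w := by
  have h1 := h.add w x
  have h2 := h.add x w
  rw [add_comm] at h2
  rw [h2] at h1
  linear_combination -h1

/-- (G2) nonvanishing. -/
theorem gauss_ne (μ : Measure V) [μ.IsAddHaarMeasure] {q : V → F} {θ : V →ₗ[F] V →ₗ[F] F}
    (h : IsQd q θ) {ψ : AddChar F Circle} (hψ : Continuous ψ) (hψ1 : ψ ≠ 1) :
    ∃ R₁ : ℝ, ∀ r, R₁ ≤ r → ∫ w in closedBall 0 r, ((ψ (q w) : Circle) : ℂ) ∂μ ≠ 0 := by
  have : ProperSpace V := FiniteDimensional.proper F V
  obtain ⟨ε, hε, h1⟩ := h.small hψ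
  obtain ⟨R₀, hR₀⟩ := LemI.detect hψ hψ1 θ h.nondeg one_pos
  obtain ⟨t, ht⟩ := NormedField.exists_lt_norm F (max 1 (R₀ / ε))
  have ht1 : 1 < ‖t‖ := (le_max_left _ _).trans_lt ht
  have ht2 : R₀ < ‖t‖ * ε := by
    have := (le_max_right _ _).trans_lt ht
    rwa [div_lt_iff₀ hε] at this
  refine ⟨max ‖t‖ 1, fun r hr hG => ?_⟩
  have hrt : ‖t‖ ≤ r := (le_max_left _ _).trans hr
  have hr1 : 1 ≤ r := (le_max_right _ _).trans hr
  have hr0 : 0 < r := by linarith
  set B : Set V := closedBall (0 : V) r with hB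
  have hBm : MeasurableSet B := isClosed_closedBall.measurableSet
  have hBt : μ B ≠ ∞ := (isCompact_closedBall 0 r).measure_lt_top.ne
  have hB0 : 0 < μ.real B := by
    rw [Measure.real, ENNReal.toReal_pos_iff]
    exact ⟨Metric.measure_closedBall_pos μ 0 hr0, hBt.lt_top⟩
  have hfin : IsFiniteMeasure (μ.restrict B) :=
    ⟨by rw [Measure.restrict_apply_univ]; exact hBt.lt_top⟩
  have hBadd : ∀ x y : V, y ∈ B → (x + y ∈ B ↔ x ∈ B) := by
    intro x y hy
    rw [hB, mem_closedBall_zero_iff] at hy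
    rw [hB, mem_closedBall_zero_iff, mem_closedBall_zero_iff, LemI.ball_add_iff le_rfl hy]
  -- the double integral
  set f : V → V → ℂ := fun x y => ((ψ (q x) : Circle) : ℂ) * ((ψ (θ x y) : Circle) : ℂ) with hf
  have hcf : Continuous (Function.uncurry f) := by
    have e1 : Continuous (fun p : V × V => ((ψ (q p.1) : Circle) : ℂ)) :=
      continuous_subtype_val.comp (hψ.comp (h.cont.comp continuous_fst))
    have e2 : Continuous (fun p : V × V => ((ψ (θ p.1 p.2) : Circle) : ℂ)) :=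
      continuous_subtype_val.comp (hψ.comp (LemI.bil_cont θ))
    exact e1.mul e2
  have hint : Integrable (Function.uncurry f) ((μ.restrict B).prod (μ.restrict B)) := by
    apply Integrable.mono (integrable_const (1 : ℂ)) hcf.aestronglyMeasurable
    refine Filter.Eventually.of_forall fun p => ?_
    simp only [Function.uncurry, hf, norm_mul, Circle.norm_coe, norm_one, mul_one, le_refl]
  have k1 : ∀ y ∈ B, ∫ x in B, f x y ∂μ =
      (starRingEnd ℂ) ((ψ (q y) : Circle) : ℂ) * ∫ x in B, ((ψ (q x) : Circle) : ℂ) ∂μ := by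
    intro y hy
    rw [← integral_indicator hBm, ← integral_indicator hBm,
      ← integral_add_right_eq_self (B.indicator fun x => ((ψ (q x) : Circle) : ℂ)) y,
      ← integral_const_mul]
    apply integral_congr_ae
    refine Filter.Eventually.of_forall fun x => ?_
    show B.indicator (fun x => f x y) x = (starRingEnd ℂ) ((ψ (q y) : Circle) : ℂ) *
      B.indicator (fun x => ((ψ (q x) : Circle) : ℂ)) (x + y)
    by_cases hx : x ∈ B
    · rw [indicator_of_mem hx, indicator_of_mem ((hBadd x y hy).2 hx), h.add,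
        AddChar.map_add_eq_mul, AddChar.map_add_eq_mul, Circle.coe_mul, Circle.coe_mul]
      have h3 : (starRingEnd ℂ) ((ψ (q y) : Circle) : ℂ) * ((ψ (q y) : Circle) : ℂ) = 1 := by
        rw [← Complex.normSq_eq_conj_mul_self, Circle.normSq_coe, Complex.ofReal_one]
      rw [hf]
      linear_combination (-((ψ (q x) : Circle) : ℂ) * ((ψ (θ x y) : Circle) : ℂ)) * h3
    · rw [indicator_of_notMem hx, indicator_of_notMem (fun hc => hx ((hBadd x y hy).1 hc)),
        mul_zero]
  have k2 : ∫ y in B, ∫ x in B, f x y ∂μ ∂μ = 0 := by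
    rw [setIntegral_congr_fun hBm k1, hG]
    simp
  rw [← integral_integral_swap hint] at k2
  have k3 : ∀ x ∈ B, ∫ y in B, f x y ∂μ =
      (({x : V | ∀ y ∈ B, ψ (θ x y) = 1}.indicator (fun _ => μ.real B) x : ℝ) : ℂ) := by
    intro x hx
    rw [hf]
    simp only
    rw [integral_const_mul]
    by_cases hc : ∀ y ∈ B, ψ (θ x y) = 1
    · rw [indicator_of_mem (show x ∈ {x : V | ∀ y ∈ B, ψ (θ x y) = 1} from hc)]
      have h4 : ‖x‖ ≤ ε := by
        by_contra hlt
        rw [not_le] at hlt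
        have h5 : R₀ < ‖t • x‖ := by
          rw [norm_smul]
          calc R₀ < ‖t‖ * ε := ht2
            _ ≤ ‖t‖ * ‖x‖ := mul_le_mul_of_nonneg_left hlt.le (norm_nonneg _)
        obtain ⟨y, hy, hy1⟩ := hR₀ _ h5
        apply hy1
        rw [map_smul, LinearMap.smul_apply, ← map_smul]
        apply hc
        rw [hB, mem_closedBall_zero_iff, norm_smul]
        calc ‖t‖ * ‖y‖ ≤ ‖t‖ * 1 := mul_le_mul_of_nonneg_left hy (norm_nonneg _)
          _ ≤ r := by rw [mul_one]; exact hrt
      rw [h1 x h4, Circle.coe_one, one_mul]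
      have h6 : ∫ y in B, ((ψ (θ x y) : Circle) : ℂ) ∂μ = ∫ y in B, (1 : ℂ) ∂μ :=
        setIntegral_congr_fun hBm fun y hy => by
          show ((ψ (θ x y) : Circle) : ℂ) = 1
          rw [hc y hy, Circle.coe_one]
      rw [h6, setIntegral_const]
      simp
    · rw [indicator_of_notMem (show x ∉ {x : V | ∀ y ∈ B, ψ (θ x y) = 1} from hc)]
      rw [not_forall] at hc
      obtain ⟨y0, hy0⟩ := hc
      rw [Classical.not_imp] at hy0
      rw [LemI.char_int μ (fun y => ψ (θ x y)) ?_ y0 (mem_closedBall_zero_iff.1 hy0.1) hy0.2,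
        mul_zero, Complex.ofReal_zero]
      intro a b _ _
      rw [map_add, AddChar.map_add_eq_mul]
  rw [setIntegral_congr_fun hBm k3, integral_complex_ofReal] at k2
  have k4 : ∫ x in B, {x : V | ∀ y ∈ B, ψ (θ x y) = 1}.indicator (fun _ => μ.real B) x ∂μ = 0 := by
    exact_mod_cast k2
  -- the set contains a ball around 0
  have hD : IsClosed {x : V | ∀ y ∈ B, ψ (θ x y) = 1} := by
    have h7 : {x : V | ∀ y ∈ B, ψ (θ x y) = 1} = ⋂ y ∈ B, {x : V | ψ (θ x y) = 1} := by
      ext x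
      simp
    rw [h7]
    refine isClosed_biInter fun y _ => isClosed_eq (hψ.comp ?_) continuous_const
    exact (LemI.bil_cont θ).comp (continuous_id.prodMk continuous_const)
  have e3 : ∀ᶠ x in nhds (0 : V), ∀ y ∈ B, ψ (θ x y) = 1 := by
    refine (isCompact_closedBall (0 : V) r).eventually_forall_of_forall_eventually ?_
    intro y _
    have hc : Continuous (fun p : V × V => θ p.1 p.2) := LemI.bil_cont θ
    exact LemI.addChar_small hψ hc.continuousAt (by simp)
  obtain ⟨η, hη, h8⟩ := Metric.eventually_nhds_iff_ball.1 e3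
  have h9 : μ.real (ball (0 : V) (min η r)) * μ.real B ≤
      ∫ x in B, {x : V | ∀ y ∈ B, ψ (θ x y) = 1}.indicator (fun _ => μ.real B) x ∂μ := by
    have h10 : ∫ x in ball (0 : V) (min η r), μ.real B ∂μ =
        μ.real (ball (0 : V) (min η r)) * μ.real B := by
      rw [setIntegral_const, smul_eq_mul]
    rw [← h10]
    have h11 : ∫ x in ball (0 : V) (min η r), μ.real B ∂μ =
        ∫ x in ball (0 : V) (min η r),
          {x : V | ∀ y ∈ B, ψ (θ x y) = 1}.indicator (fun _ => μ.real B) x ∂μ := by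
      refine setIntegral_congr_fun isOpen_ball.measurableSet fun x hx => ?_
      have : x ∈ {x : V | ∀ y ∈ B, ψ (θ x y) = 1} :=
        h8 x (ball_subset_ball (min_le_left _ _) hx)
      show μ.real B = _
      rw [indicator_of_mem this]
    rw [h11]
    refine setIntegral_mono_set ?_ ?_ ?_
    · exact ((integrable_const (μ.real B)).indicator hD.measurableSet)
    · refine Filter.Eventually.of_forall fun x => ?_
      exact indicator_nonneg (fun _ _ => hB0.le) x
    · refine Filter.Eventually.of_forall fun x hx => ?_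
      exact ball_subset_closedBall (ball_subset_ball (min_le_right _ _) hx)
  rw [k4] at h9
  have h12 : 0 < μ.real (ball (0 : V) (min η r)) := by
    rw [Measure.real, ENNReal.toReal_pos_iff]
    refine ⟨Metric.measure_ball_pos μ 0 (lt_min hη hr0), ?_⟩
    exact (measure_mono (ball_subset_closedBall.trans
      (closedBall_subset_closedBall (min_le_right _ _)))).trans_lt hBt.lt_top
  have := mul_pos h12 hB0
  linarith

end SpW.We
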