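import Pool.Agent.Work.MP_3615d2_al.Integ2
import Pool.Agent.Work.MP_3615d2_al.WeGa

/-!
MP_3615d2_al, W3 (part 2): the Gauss integral of `a N(x)` over balls of the quadratic extension is
`g om(a) / |a|` for large radii, with `g ≠ 0` independent of `a`.
-/

open MeasureTheory Measure Filter Topology
open scoped NNReal ENNReal Pointwise

namespace SpW.We

set_option linter.unusedSectionVars false

section quad

variable {K L : Type} [NontriviallyNormedField K] [IsUltrametricDist K] [ProperSpace K]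
  [NontriviallyNormedField L] [NormedAlgebra K L] [IsUltrametricDist L] [ProperSpace L]
  {sg : L ≃ₐ[K] L} {δ : L} {d : K}

/-- The range of the norm. -/
def Ns (K L : Type) [NontriviallyNormedField K] [NontriviallyNormedField L] [NormedAlgebra K L] :
    Set K := Set.range fun x : L => Algebra.norm K x

theorem Ns_closed (hq : QuadDatum sg δ d) : IsClosed (Ns K L) :=
  dist_range (fun x : L => Algebra.norm K x) (nm_cont hq) (norm_nm hq)

/-- The trace form `Tr(x σ(y))`. -/
noncomputable def tf (sg : L ≃ₐ[K] L) : L →ₗ[K] L →ₗ[K] K :=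
  LinearMap.mk₂ K (fun x y => Algebra.trace K L (x * sg y))
    (fun x y z => by rw [add_mul, map_add])
    (fun c x y => by rw [smul_mul_assoc, map_smul])
    (fun x y z => by rw [map_add, mul_add, map_add])
    (fun c x y => by rw [map_smul, mul_smul_comm, map_smul])

theorem isQd_nm (hq : QuadDatum sg δ d) : IsQd (fun x : L => Algebra.norm K x) (tf sg) where
  cont := nm_cont hq
  zero := nm_zero hq
  add w x := by
    apply (algebraMap K L).injective
    have h1 : algebraMap K L (tf sg w x) = w * sg x + sg (w * sg x) :=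
      hq.trace_eq (w * sg x)
    show algebraMap K L (Algebra.norm K (w + x)) =
      algebraMap K L (Algebra.norm K w + tf sg w x + Algebra.norm K x)
    rw [hq.norm_eq, map_add (algebraMap K L), map_add (algebraMap K L), h1, hq.norm_eq,
      hq.norm_eq, map_add sg, map_mul sg, sig_sig hq]
    ring
  nondeg w hw := by
    by_contra hne
    have h1 : algebraMap K L (tf sg w w) = w * sg w + sg (w * sg w) :=
      hq.trace_eq (w * sg w)
    rw [hw w, map_zero, map_mul, sig_sig hq, mul_comm (sg w) w, ← hq.norm_eq, ← map_add] at h1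
    have h2 : Algebra.norm K w + Algebra.norm K w = 0 :=
      (algebraMap K L).injective (by rw [← h1, map_zero])
    rw [← two_mul] at h2
    rcases mul_eq_zero.1 h2 with h3 | h3
    · exact hq.two h3
    · exact nm_ne hne h3

theorem om_one {om : K → ℂ} (hom : OmChar K L om) : om 1 = 1 := by
  have := hom.norm 1 one_ne_zero
  rwa [map_one] at this

/-- `N(O_L^×)` is a neighbourhood of `1`. -/
theorem sv_nhds (hq : QuadDatum sg δ d) {om : K → ℂ} (hom : OmChar K L om) :
    Sv L (1 : K) ∈ 𝓝 (1 : K) := by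
  borelize K
  have h1 : ContinuousAt om 1 :=
    hom.cont.continuousAt (isOpen_compl_singleton.mem_nhds (by simp))
  have h2 : ∀ᶠ x in 𝓝 (1 : K), om x ∈ Metric.ball (1 : ℂ) 1 := by
    refine h1.eventually (Metric.isOpen_ball.mem_nhds ?_)
    rw [om_one hom]
    exact Metric.mem_ball_self one_pos
  have h3 : ∀ᶠ x in 𝓝 (1 : K), x ∈ Metric.ball (1 : K) 1 := Metric.ball_mem_nhds _ one_pos
  filter_upwards [h2, h3] with x hx hx1
  rw [Metric.mem_ball, dist_eq_norm] at hx1
  have h4 := IsUltrametricDist.norm_add_eq_max_of_norm_ne_norm (x := x - 1) (y := 1)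
    (by rw [norm_one]; exact hx1.ne)
  rw [sub_add_cancel, norm_one, max_eq_right hx1.le] at h4
  have hx0 : x ≠ 0 := by
    rintro rfl
    rw [norm_zero] at h4
    exact zero_ne_one h4
  rcases om_val hq hom x hx0 with ⟨_, z, hz, h5⟩ | ⟨h5, _⟩
  · refine ⟨z, ?_, by rw [h5, one_mul]⟩
    rw [← md_nm hq, h5, md_eq_of_norm_eq (y := (1 : K)) (by rw [norm_one]; exact h4), md_one]
  · rw [h5, Metric.mem_ball, dist_eq_norm] at hx
    norm_num at hx

variable [MeasurableSpace K] [BorelSpace K] [MeasurableSpace L] [BorelSpace L]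

theorem sv_pos (hq : QuadDatum sg δ d) {om : K → ℂ} (hom : OmChar K L om) (ν : Measure K)
    [ν.IsAddHaarMeasure] : ν (Sv L (1 : K)) ≠ 0 :=
  (measure_pos_of_mem_nhds ν (sv_nhds hq hom)).ne'

theorem sv_top (hq : QuadDatum sg δ d) (ν : Measure K) [ν.IsAddHaarMeasure] :
    ν (Sv L (1 : K)) ≠ ∞ := by
  have h1 : Sv L (1 : K) = (fun z : L => Algebra.norm K z) '' {z : L | md z = 1} := by
    ext r
    constructor
    · rintro ⟨z, hz, rfl⟩
      exact ⟨z, hz, (one_mul _).symm⟩
    · rintro ⟨z, hz, rfl⟩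
      exact ⟨z, hz, (one_mul _).symm⟩
  rw [h1]
  exact (isCompact_sphere_md.image (nm_cont hq)).measure_lt_top.ne

theorem inner_push (hq : QuadDatum sg δ d) (μ : Measure L) [μ.IsAddHaarMeasure] {t : K}
    (ht : t ≠ 0) :
    ∫⁻ x : L, (md x : ℝ≥0∞)⁻¹ * (Sv L (1 : K)).indicator 1 ((Algebra.norm K x)⁻¹ * t) ∂μ =
      kp μ * (Ns K L).indicator 1 t := by
  by_cases h : t ∈ Ns K L
  · obtain ⟨y, rfl⟩ := h
    have hy : y ≠ 0 := by
      rintro rfl
      exact ht (nm_zero hq)
    have hy' : (md y : ℝ≥0∞) ≠ 0 := by exact_mod_cast (md_pos hy).ne'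
    rw [Set.indicator_of_mem (show Algebra.norm K y ∈ Ns K L from ⟨y, rfl⟩), Pi.one_apply,
      mul_one, lint_mul' μ hy]
    have h1 : ∀ u : L, (md (y * u) : ℝ≥0∞)⁻¹ *
        (Sv L (1 : K)).indicator 1 ((Algebra.norm K (y * u))⁻¹ * Algebra.norm K y) =
        (md y : ℝ≥0∞)⁻¹ * ({w : L | md w = 1}.indicator 1 u) := by
      intro u
      by_cases hu0 : u = 0
      · rw [hu0, mul_zero, nm_zero hq, inv_zero, zero_mul, Set.indicator_of_notMem,
          Set.indicator_of_notMem, mul_zero, mul_zero]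
        · intro hc
          have hc' : md (0 : L) = 1 := hc
          rw [md_zero] at hc'
          exact zero_ne_one hc'
        · rintro ⟨z, hz, h2⟩
          have hz0 : z ≠ 0 := by
            rintro rfl
            rw [md_zero] at hz
            exact zero_ne_one hz
          rw [one_mul] at h2
          exact nm_ne hz0 h2.symm
      have h3 : (Algebra.norm K (y * u))⁻¹ * Algebra.norm K y = (Algebra.norm K u)⁻¹ := by
        rw [map_mul]
        have := nm_ne (K := K) hy
        field_simp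
      rw [h3]
      by_cases hu : md u = 1
      · rw [Set.indicator_of_mem (show u ∈ {w : L | md w = 1} from hu),
          Set.indicator_of_mem (show _ ∈ Sv L (1 : K) from
            ⟨u⁻¹, by rw [md_inv, hu, inv_one], by
              rw [one_mul]
              exact inv_eq_of_mul_eq_one_right (nm_inv hu0)⟩), md_mul, hu, mul_one]
        rfl
      · rw [Set.indicator_of_notMem (show u ∉ {w : L | md w = 1} from hu),
          Set.indicator_of_notMem, mul_zero, mul_zero]
        rintro ⟨z, hz, h2⟩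
        apply hu
        rw [one_mul] at h2
        have h4 := congrArg md h2
        rw [md_inv, md_nm hq, md_nm hq, hz, inv_eq_one] at h4
        exact h4
    rw [lintegral_congr h1, lintegral_const_mul' _ _ (by
      rw [← ENNReal.coe_inv (md_pos hy).ne']
      exact ENNReal.coe_ne_top),
      lintegral_indicator_one (isCompact_sphere_md.isClosed.measurableSet), ← mul_assoc,
      ENNReal.mul_inv_cancel hy' ENNReal.coe_ne_top, one_mul, kp]
  · rw [Set.indicator_of_notMem h, mul_zero]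
    apply lintegral_eq_zero_of_ae_eq_zero
    filter_upwards [ae_ne_zero μ] with x hx
    show (md x : ℝ≥0∞)⁻¹ * (Sv L (1 : K)).indicator 1 ((Algebra.norm K x)⁻¹ * t) = 0
    rw [Set.indicator_of_notMem, mul_zero]
    rintro ⟨z, hz, h2⟩
    apply h
    refine ⟨x * z, ?_⟩
    show Algebra.norm K (x * z) = t
    rw [one_mul] at h2
    rw [map_mul, ← h2, mul_inv_cancel_left₀ (nm_ne hx)]

theorem ae_ne_zero' (ν : Measure K) [ν.IsAddHaarMeasure] : ∀ᵐ a : K ∂ν, a ≠ 0 := by
  rw [ae_iff]
  have h1 : {a : K | ¬ a ≠ 0} = {0} := by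
    ext a
    simp
  rw [h1]
  exact measure_singleton 0

/-- The image of the Haar measure of `L` under the norm. -/
theorem push (hq : QuadDatum sg δ d) (μ : Measure L) [μ.IsAddHaarMeasure]
    (ν : Measure K) [ν.IsAddHaarMeasure] {f : K → ℝ≥0∞} (hf : Measurable f) :
    ν (Sv L (1 : K)) * ∫⁻ x : L, f (Algebra.norm K x) ∂μ =
      kp μ * ∫⁻ t, (Ns K L).indicator 1 t * f t ∂ν := by
  have hnc := nm_cont hq
  have hSm : MeasurableSet (Sv L (1 : K)) := (Sv_closed hq (1 : K)).measurableSet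
  have hNm : MeasurableSet (Ns K L) := (Ns_closed hq).measurableSet
  have hIm : Measurable ((Sv L (1 : K)).indicator (1 : K → ℝ≥0∞)) :=
    measurable_one.indicator hSm
  have hm1 : Measurable (Function.uncurry fun (t : K) (x : L) =>
      (Sv L (1 : K)).indicator (1 : K → ℝ≥0∞) t * f (Algebra.norm K x * t)) := by
    apply Measurable.mul
    · exact hIm.comp measurable_fst
    · apply hf.comp
      exact (hnc.measurable.comp measurable_snd).mul measurable_fst
  have e1 : ν (Sv L (1 : K)) * ∫⁻ x : L, f (Algebra.norm K x) ∂μ =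
      ∫⁻ t : K, ∫⁻ x : L, (Sv L (1 : K)).indicator 1 t * f (Algebra.norm K x * t) ∂μ ∂ν := by
    have h1 : ∀ t : K, ∫⁻ x : L, (Sv L (1 : K)).indicator 1 t * f (Algebra.norm K x * t) ∂μ =
        (Sv L (1 : K)).indicator 1 t * ∫⁻ x : L, f (Algebra.norm K x) ∂μ := by
      intro t
      by_cases ht : t ∈ Sv L (1 : K)
      · rw [Set.indicator_of_mem ht, Pi.one_apply]
        simp only [one_mul]
        obtain ⟨z, hz, rfl⟩ := ht
        have hz0 : z ≠ 0 := by
          rintro rfl
          rw [md_zero] at hz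
          exact zero_ne_one hz
        rw [lint_mul' μ hz0 (fun x => f (Algebra.norm K x)), hz]
        simp only [ENNReal.coe_one, one_mul, map_mul]
        apply lintegral_congr
        intro x
        rw [mul_comm]
      · rw [Set.indicator_of_notMem ht]
        simp
    rw [lintegral_congr h1, lintegral_mul_const _ hIm, lintegral_indicator_one hSm]
  rw [e1, lintegral_lintegral_swap hm1.aemeasurable]
  have e2 : ∫⁻ x : L, ∫⁻ t : K, (Sv L (1 : K)).indicator 1 t * f (Algebra.norm K x * t) ∂ν ∂μ =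
      ∫⁻ x : L, ∫⁻ t : K, ((md x : ℝ≥0∞)⁻¹ *
        (Sv L (1 : K)).indicator 1 ((Algebra.norm K x)⁻¹ * t)) * f t ∂ν ∂μ := by
    apply lintegral_congr_ae
    filter_upwards [ae_ne_zero μ] with x hx
    have hN := nm_ne (K := K) hx
    have h2 := lint_mul ν hN (fun t =>
      (Sv L (1 : K)).indicator 1 ((Algebra.norm K x)⁻¹ * t) * f t)
    simp only [inv_mul_cancel_left₀ hN] at h2
    rw [h2, md_nm hq, ← lintegral_const_mul']
    · apply lintegral_congr
      intro t
      rw [mul_assoc]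
    · rw [← ENNReal.coe_inv (md_pos hx).ne']
      exact ENNReal.coe_ne_top
  have hm2 : Measurable (Function.uncurry fun (x : L) (t : K) => ((md x : ℝ≥0∞)⁻¹ *
      (Sv L (1 : K)).indicator (1 : K → ℝ≥0∞) ((Algebra.norm K x)⁻¹ * t)) * f t) := by
    apply Measurable.mul
    · apply Measurable.mul
      · exact (continuous_md.measurable.comp measurable_fst).coe_nnreal_ennreal.inv
      · apply hIm.comp
        exact ((hnc.measurable.comp measurable_fst).inv).mul measurable_snd
    · exact hf.comp measurable_snd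
  rw [e2, lintegral_lintegral_swap hm2.aemeasurable]
  have hm3 : Measurable fun t => (Ns K L).indicator (1 : K → ℝ≥0∞) t * f t :=
    (measurable_one.indicator hNm).mul hf
  rw [← lintegral_const_mul _ hm3]
  apply lintegral_congr_ae
  filter_upwards [ae_ne_zero' ν] with t ht
  have hm4 : Measurable fun x : L => (md x : ℝ≥0∞)⁻¹ *
      (Sv L (1 : K)).indicator (1 : K → ℝ≥0∞) ((Algebra.norm K x)⁻¹ * t) := by
    apply Measurable.mul
    · exact (continuous_md.measurable).coe_nnreal_ennreal.inv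
    · apply hIm.comp
      exact hnc.measurable.inv.mul measurable_const
  rw [lintegral_mul_const _ hm4, inner_push hq μ ht, mul_assoc]

theorem map_nm (hq : QuadDatum sg δ d) {om : K → ℂ} (hom : OmChar K L om) (μ : Measure L)
    [μ.IsAddHaarMeasure] (ν : Measure K) [ν.IsAddHaarMeasure] :
    μ.map (fun x : L => Algebra.norm K x) =
      ((ν (Sv L (1 : K)))⁻¹ * kp μ) • ν.restrict (Ns K L) := by
  ext s hs
  have hNm : MeasurableSet (Ns K L) := (Ns_closed hq).measurableSet
  have hp := sv_pos hq hom ν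
  have ht := sv_top hq ν
  have h1 := push hq μ ν (f := s.indicator 1) (measurable_one.indicator hs)
  have h2 : ∫⁻ x : L, s.indicator 1 (Algebra.norm K x) ∂μ =
      μ.map (fun x : L => Algebra.norm K x) s := by
    rw [← lintegral_map (measurable_one.indicator hs) (nm_cont hq).measurable,
      lintegral_indicator_one hs]
  have h3 : ∫⁻ t, (Ns K L).indicator 1 t * s.indicator 1 t ∂ν = ν.restrict (Ns K L) s := by
    rw [Measure.restrict_apply hs, ← lintegral_indicator_one (hs.inter hNm)]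
    apply lintegral_congr
    intro t
    by_cases h4 : t ∈ Ns K L <;> by_cases h5 : t ∈ s <;> simp [h4, h5]
  rw [h2, h3] at h1
  rw [Measure.smul_apply, smul_eq_mul, mul_assoc, ← h1, ← mul_assoc,
    ENNReal.inv_mul_cancel hp ht, one_mul]

theorem int_nm (hq : QuadDatum sg δ d) {om : K → ℂ} (hom : OmChar K L om) (μ : Measure L)
    [μ.IsAddHaarMeasure] (ν : Measure K) [ν.IsAddHaarMeasure] {r : ℝ} (hr : 0 ≤ r) {f : K → ℂ}
    (hf : Continuous f) :
    ∫ x in Metric.closedBall (0 : L) r, f (Algebra.norm K x) ∂μ =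
      ((((ν (Sv L (1 : K)))⁻¹ * kp μ).toReal : ℝ) : ℂ) *
        ∫ t in Metric.closedBall (0 : K) (r ^ 2) ∩ Ns K L, f t ∂ν := by
  have hs : MeasurableSet (Metric.closedBall (0 : K) (r ^ 2)) :=
    Metric.isClosed_closedBall.measurableSet
  have h1 : Metric.closedBall (0 : L) r =
      (fun x : L => Algebra.norm K x) ⁻¹' Metric.closedBall (0 : K) (r ^ 2) := by
    ext x
    rw [mem_closedBall_zero_iff, Set.mem_preimage, mem_closedBall_zero_iff, norm_nm hq]
    exact (pow_le_pow_iff_left₀ (norm_nonneg _) hr two_ne_zero).symm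
  rw [h1, ← setIntegral_map hs (f := f) hf.aestronglyMeasurable
    (nm_cont hq).measurable.aemeasurable, map_nm hq hom μ ν, Measure.restrict_smul,
    integral_smul_measure, Measure.restrict_restrict hs]
  exact (Complex.real_smul)

theorem mem_Ns_iff (hq : QuadDatum sg δ d) {om : K → ℂ} (hom : OmChar K L om) {x : K}
    (hx : x ≠ 0) : x ∈ Ns K L ↔ om x = 1 := by
  rcases om_val hq hom x hx with ⟨h, z, _, hz⟩ | ⟨h, hn⟩
  · exact ⟨fun _ => h, fun _ => ⟨z, hz⟩⟩
  · refine ⟨fun hc => absurd hc hn, fun hc => ?_⟩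
    rw [h] at hc
    norm_num at hc

theorem om_inv (hq : QuadDatum sg δ d) {om : K → ℂ} (hom : OmChar K L om) {x : K}
    (hx : x ≠ 0) : om x⁻¹ = om x := by
  have h1 : om x * om x⁻¹ = 1 := by
    rw [← hom.mul x x⁻¹ hx (inv_ne_zero hx), mul_inv_cancel₀ hx, om_one hom]
  calc om x⁻¹ = (om x * om x) * om x⁻¹ := by rw [om_sq hq hom x hx, one_mul]
    _ = om x * (om x * om x⁻¹) := by ring
    _ = om x := by rw [h1, mul_one]

theorem a_step (hq : QuadDatum sg δ d) {om : K → ℂ} (hom : OmChar K L om)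
    (ν : Measure K) [ν.IsAddHaarMeasure] {ψ : AddChar K Circle} (hψ : Continuous ψ) {a : K}
    (ha : a ≠ 0) {R : ℝ} {y0 : K} (hy0 : ‖y0‖ ≤ ‖a‖ * R) (hy1 : ψ y0 ≠ 1) :
    ∫ t in Metric.closedBall (0 : K) R ∩ Ns K L, ((ψ (a * t) : Circle) : ℂ) ∂ν =
      om a * (((md a : ℝ≥0) : ℝ) : ℂ)⁻¹ *
        ∫ t in Metric.closedBall (0 : K) (‖a‖ * R) ∩ Ns K L, ((ψ t : Circle) : ℂ) ∂ν := by
  have hNm : MeasurableSet (Ns K L) := (Ns_closed hq).measurableSet
  have hBm : ∀ R : ℝ, MeasurableSet (Metric.closedBall (0 : K) R) := fun R =>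
    Metric.isClosed_closedBall.measurableSet
  have hna : 0 < ‖a‖ := norm_pos_iff.2 ha
  set B := Metric.closedBall (0 : K) (‖a‖ * R) with hB
  set N' : Set K := (fun s => a⁻¹ * s) ⁻¹' Ns K L with hN'
  have hN'm : MeasurableSet N' := (measurable_const_mul a⁻¹) hNm
  have h1 : ∀ t, (Metric.closedBall (0 : K) R ∩ Ns K L).indicator
      (fun t => ((ψ (a * t) : Circle) : ℂ)) t =
      (B ∩ N').indicator (fun s => ((ψ s : Circle) : ℂ)) (a * t) := by
    intro t
    have h2 : a * t ∈ B ∩ N' ↔ t ∈ Metric.closedBall (0 : K) R ∩ Ns K L := by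
      rw [Set.mem_inter_iff, Set.mem_inter_iff, hB, mem_closedBall_zero_iff,
        mem_closedBall_zero_iff, norm_mul, mul_le_mul_iff_right₀ hna, hN', Set.mem_preimage,
        inv_mul_cancel_left₀ ha]
    by_cases h3 : t ∈ Metric.closedBall (0 : K) R ∩ Ns K L
    · rw [Set.indicator_of_mem h3, Set.indicator_of_mem (h2.2 h3)]
    · rw [Set.indicator_of_notMem h3, Set.indicator_of_notMem fun hc => h3 (h2.1 hc)]
  rw [← integral_indicator ((hBm R).inter hNm), integral_congr_ae (Eventually.of_forall h1),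
    int_mul ν ha, integral_indicator ((hBm _).inter hN'm)]
  have hcont : Continuous fun s : K => ((ψ s : Circle) : ℂ) := continuous_subtype_val.comp hψ
  have hint : IntegrableOn (fun s : K => ((ψ s : Circle) : ℂ)) B ν :=
    hcont.continuousOn.integrableOn_compact (isCompact_closedBall _ _)
  rcases om_val hq hom a ha with ⟨hoa, z, hz, hza⟩ | ⟨hoa, hn⟩
  · have h4 : N' = Ns K L := by
      ext s
      by_cases hs : s = 0
      · rw [hs, hN', Set.mem_preimage, mul_zero]
      · rw [hN', Set.mem_preimage, mem_Ns_iff hq hom (mul_ne_zero (inv_ne_zero ha) hs),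
          mem_Ns_iff hq hom hs, hom.mul _ _ (inv_ne_zero ha) hs, om_inv hq hom ha, hoa, one_mul]
    rw [h4, hoa, one_mul]
  · have h5 : ∫ s in B, ((ψ s : Circle) : ℂ) ∂ν = 0 := by
      refine LemI.char_int ν (fun s => ψ s) ?_ y0 hy0 hy1
      intro x y _ _
      exact AddChar.map_add_eq_mul ψ x y
    have h6 : ∫ s in B ∩ N', ((ψ s : Circle) : ℂ) ∂ν =
        ∫ s in B ∩ (Ns K L)ᶜ, ((ψ s : Circle) : ℂ) ∂ν := by
      apply setIntegral_congr_set
      filter_upwards [ae_ne_zero' ν] with s hs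
      have h7 : s ∈ N' ↔ s ∈ (Ns K L)ᶜ := by
        rw [Set.mem_compl_iff, hN', Set.mem_preimage,
          mem_Ns_iff hq hom (mul_ne_zero (inv_ne_zero ha) hs),
          mem_Ns_iff hq hom hs, hom.mul _ _ (inv_ne_zero ha) hs, om_inv hq hom ha, hoa]
        rcases om_val hq hom s hs with ⟨h8, _⟩ | ⟨h8, _⟩ <;> rw [h8] <;> norm_num
      exact propext (and_congr_right fun _ => h7)
    have h9 := setIntegral_union (f := fun s : K => ((ψ s : Circle) : ℂ)) (μ := ν)
      (s := B ∩ Ns K L) (t := B ∩ (Ns K L)ᶜ)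
      (by
        rw [Set.disjoint_left]
        rintro x ⟨_, hx⟩ ⟨_, hx'⟩
        exact hx' hx)
      ((hBm _).inter hNm.compl) (hint.mono_set Set.inter_subset_left)
      (hint.mono_set Set.inter_subset_left)
    rw [← Set.inter_union_distrib_left, Set.union_compl_self, Set.inter_univ, h5] at h9
    rw [h6, hoa]
    linear_combination (-((((md a : ℝ≥0) : ℝ) : ℂ)⁻¹)) * h9

/-- Gauss integrals over the quadratic extension. -/
theorem gauss_E (hq : QuadDatum sg δ d) {om : K → ℂ} (hom : OmChar K L om)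
    {ψ : AddChar K Circle} (hψ : Continuous ψ) (hψ1 : ψ ≠ 1) (μ : Measure L)
    [μ.IsAddHaarMeasure] :
    ∃ g : ℂ, g ≠ 0 ∧ ∀ a : K, a ≠ 0 → ∀ᶠ r : ℝ in atTop,
      ∫ x in Metric.closedBall (0 : L) r, ((ψ (a * Algebra.norm K x) : Circle) : ℂ) ∂μ =
        g * om a * (((md a : ℝ≥0) : ℝ) : ℂ)⁻¹ := by
  have hfin := hq.finite
  set ν : Measure K := addHaar with hν
  obtain ⟨R₁, h1⟩ := gauss_ball μ (isQd_nm hq) hψ hψ1
  obtain ⟨R₂, h2⟩ := gauss_ne μ (isQd_nm hq) hψ hψ1
  refine ⟨∫ x in Metric.closedBall (0 : L) R₁, ((ψ (Algebra.norm K x) : Circle) : ℂ) ∂μ, ?_,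
    fun a ha => ?_⟩
  · rw [← h1 (max R₁ R₂) (le_max_left _ _)]
    exact h2 _ (le_max_right _ _)
  have hna : 0 < ‖a‖ := norm_pos_iff.2 ha
  have hsa : 0 < Real.sqrt ‖a‖ := Real.sqrt_pos.2 hna
  obtain ⟨y0, hy0⟩ := (AddChar.ne_one_iff).1 hψ1
  have e1 : ∀ᶠ r : ℝ in atTop, R₁ ≤ Real.sqrt ‖a‖ * r :=
    (tendsto_id.const_mul_atTop hsa).eventually_ge_atTop R₁
  have e2 : ∀ᶠ r : ℝ in atTop, ‖y0‖ ≤ ‖a‖ * r ^ 2 :=
    ((tendsto_pow_atTop two_ne_zero).const_mul_atTop hna).eventually_ge_atTop _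
  filter_upwards [e1, e2, eventually_ge_atTop (0 : ℝ)] with r hr1 hr2 hr0
  have hc1 : Continuous fun t : K => ((ψ (a * t) : Circle) : ℂ) :=
    continuous_subtype_val.comp (hψ.comp (continuous_const.mul continuous_id))
  have hc2 : Continuous fun t : K => ((ψ t : Circle) : ℂ) := continuous_subtype_val.comp hψ
  have h3 := int_nm hq hom μ ν hr0 hc1
  have h4 := int_nm hq hom μ ν (mul_nonneg hsa.le hr0) hc2
  have h5 : (Real.sqrt ‖a‖ * r) ^ 2 = ‖a‖ * r ^ 2 := by
    rw [mul_pow, Real.sq_sqrt hna.le]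
  rw [h5] at h4
  rw [h3, a_step hq hom ν hψ ha hr2 hy0]
  have h6 := h1 _ hr1
  rw [h4] at h6
  rw [← h6]
  ring

end quad

end SpW.We
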