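import Pool.Agent.Work.MP_3615d2_al.WeTb

/-!
MP_3615d2_al, existence of the Weil representation: `T_c T_{-c}` is a nonzero scalar.
-/

open MeasureTheory Metric Set
open scoped NNReal ENNReal

namespace SpW.LemI

section

variable {F : Type} [NontriviallyNormedField F] [ProperSpace F] [IsUltrametricDist F]
    {Wp : Type} [NormedAddCommGroup Wp] [NormedSpace F Wp] [FiniteDimensional F Wp]
    [IsUltrametricDist Wp] [MeasurableSpace Wp] [BorelSpace Wp] (ν : Measure Wp)
    [ν.IsAddHaarMeasure] {S : Type} [AddCommGroup S] [Module ℂ S] {ψ : AddChar F Circle}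
    {B : Wp →ₗ[F] Wp →ₗ[F] F} {ρ : Wp → Module.End ℂ S} {c : Wp →ₗ[F] Wp} {v : S}

/-- The annihilator of the ball of radius `R` for the form `B((c - 1)s, z)/2`. -/
def setD (ψ : AddChar F Circle) (B : Wp →ₗ[F] Wp →ₗ[F] F) (c : Wp →ₗ[F] Wp) (R : ℝ) : Set Wp :=
  {s | ∀ z : Wp, ‖z‖ ≤ R → ψ ((2 : F)⁻¹ * B (c s - s) z) = 1}

theorem continuous_half (B : Wp →ₗ[F] Wp →ₗ[F] F) (c : Wp →ₗ[F] Wp) :
    Continuous fun p : Wp × Wp => (2 : F)⁻¹ * B (c p.1 - p.1) p.2 := by
  have h3 : Continuous fun p : Wp × Wp => B p.1 p.2 := B.toContinuousBilinearMap.continuous₂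
  have hc := c.continuous_of_finiteDimensional
  exact continuous_const.mul (h3.comp
    (((hc.comp continuous_fst).sub continuous_fst).prodMk continuous_snd))

theorem setD_closed (hψ : Continuous ψ) (R : ℝ) : IsClosed (setD ψ B c R) := by
  have h : setD ψ B c R = ⋂ z : Wp, ⋂ (_ : ‖z‖ ≤ R), {s | ψ ((2 : F)⁻¹ * B (c s - s) z) = 1} := by
    ext s
    simp [setD]
  rw [h]
  refine isClosed_iInter fun z => isClosed_iInter fun _ => ?_
  exact isClosed_eq (hψ.comp ((continuous_half B c).comp (continuous_id.prodMk continuous_const)))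
    continuous_const

theorem setD_nhds (hψ : Continuous ψ) (R : ℝ) : setD ψ B c R ∈ nhds (0 : Wp) := by
  have : ProperSpace Wp := FiniteDimensional.proper F Wp
  obtain ⟨δ, hδ, hδ1⟩ := Pool.Agent.SpehH.exists_ball_eq_one hψ
  have h1 : ∀ᶠ s in nhds (0 : Wp), ∀ z ∈ closedBall (0 : Wp) R,
      ‖(2 : F)⁻¹ * B (c s - s) z‖ < δ := by
    refine (isCompact_closedBall (0 : Wp) R).eventually_forall_of_forall_eventually fun z _ => ?_
    have h3 : ContinuousAt (fun p : Wp × Wp => ‖(2 : F)⁻¹ * B (c p.1 - p.1) p.2‖) (0, z) :=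
      (continuous_half B c).norm.continuousAt
    refine h3.eventually (gt_mem_nhds ?_)
    simpa using hδ
  filter_upwards [h1] with s hs z hz
  exact hδ1 _ (hs z (by rwa [mem_closedBall_zero_iff]))

theorem setD_small (hψ : Continuous ψ) (hψ1 : ψ ≠ 1) (h2 : (2 : F) ≠ 0)
    (hnd : ∀ w, (∀ x, B w x = 0) → w = 0) (hc₁ : ∀ w, c w = w → w = 0) {ε : ℝ} (hε : 0 < ε) :
    ∃ R₃ : ℝ, ∀ R, R₃ ≤ R → ∀ s ∈ setD ψ B c R, ‖s‖ ≤ ε := by
  let θ : Wp →ₗ[F] Wp →ₗ[F] F := (2 : F)⁻¹ • (B.comp (c - LinearMap.id))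
  have hθ : ∀ z x, θ z x = (2 : F)⁻¹ * B (c z - z) x := fun z x => rfl
  obtain ⟨R₀, hR₀⟩ := detect hψ hψ1 θ (fun w hw => by
    apply hc₁
    rw [← sub_eq_zero]
    refine hnd _ fun x => ?_
    have h1 := hw x
    rw [hθ, mul_eq_zero] at h1
    exact h1.resolve_left (inv_ne_zero h2)) one_pos
  obtain ⟨t, ht⟩ := NormedField.exists_lt_norm F (R₀ / ε)
  refine ⟨‖t‖, fun R hR s hs => ?_⟩
  by_contra hlt
  rw [not_le] at hlt
  have h1 : R₀ < ‖t • s‖ := by
    rw [norm_smul]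
    rw [div_lt_iff₀ hε] at ht
    calc R₀ < ‖t‖ * ε := ht
      _ ≤ ‖t‖ * ‖s‖ := by gcongr
  obtain ⟨x, hx, hx1⟩ := hR₀ _ h1
  apply hx1
  have h3 : θ (t • s) x = (2 : F)⁻¹ * B (c s - s) (t • x) := by
    rw [map_smul, LinearMap.smul_apply, hθ, map_smul]
    simp only [smul_eq_mul]
    ring
  rw [h3]
  refine hs _ ?_
  rw [norm_smul]
  calc ‖t‖ * ‖x‖ ≤ ‖t‖ * 1 := by gcongr
    _ ≤ R := by rwa [mul_one]

theorem half_int (hψ : Continuous ψ) (R : ℝ) (hR : 0 ≤ R) (s : Wp) [Decidable (s ∈ setD ψ B c R)] :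
    ∫ z in closedBall (0 : Wp) R, ((ψ (-((2 : F)⁻¹ * B (c s - s) z)) : Circle) : ℂ) ∂ν =
      if s ∈ setD ψ B c R then ((ν.real (closedBall (0 : Wp) R) : ℝ) : ℂ) else 0 := by
  split_ifs with h
  · have h1 : ∀ z ∈ closedBall (0 : Wp) R,
        ((ψ (-((2 : F)⁻¹ * B (c s - s) z)) : Circle) : ℂ) = 1 := by
      intro z hz
      rw [mem_closedBall_zero_iff] at hz
      rw [AddChar.map_neg_eq_inv, h z hz, inv_one, Circle.coe_one]
    rw [setIntegral_congr_fun isClosed_closedBall.measurableSet h1]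
    simp [Measure.real]
  · have h1 : ∃ z : Wp, ‖z‖ ≤ R ∧ ψ ((2 : F)⁻¹ * B (c s - s) z) ≠ 1 := by
      by_contra! h'
      exact h h'
    obtain ⟨z, hz, hz1⟩ := h1
    refine char_int ν (fun z => ψ (-((2 : F)⁻¹ * B (c s - s) z))) (fun x y _ _ => ?_) z hz ?_
    · rw [← AddChar.map_add_eq_mul]
      congr 1
      rw [map_add]
      ring
    · rw [AddChar.map_neg_eq_inv]
      exact fun h' => hz1 (inv_eq_one.1 h')

/-- The composition `T_c T_{-c}` on one vector. -/
theorem IsT.inv_aux (hψ : Continuous ψ) (hψ1 : ψ ≠ 1) (h2 : (2 : F) ≠ 0)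
    (hnd : ∀ w, (∀ x, B w x = 0) → w = 0)
    (hρ : ∀ w w', ρ w * ρ w' = ((ψ ((2 : F)⁻¹ * B w w') : Circle) : ℂ) • ρ (w + w'))
    (hc : ∀ w w', B (c w) w' = B (c w') w) (hB : ∀ w, B w w = 0)
    (hc₁ : ∀ w, c w = w → w = 0) (hv : ∀ v, ∀ᶠ w in nhds (0 : Wp), ρ w v = v)
    {T T' : Module.End ℂ S} (hT : IsT ν ψ B ρ c T) (hT' : IsT ν ψ B ρ (-c) T') (v : S) :
    ∃ R₀ : ℝ, ∀ R, R₀ ≤ R → T (T' v) = (((ν.real (closedBall (0 : Wp) R) *
      ν.real (setD ψ B c R ∩ closedBall (0 : Wp) R) : ℝ)) : ℂ) • v := by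
  classical
  have : ProperSpace Wp := FiniteDimensional.proper F Wp
  have h4 : (4 : F) ≠ 0 := by
    have : (4 : F) = 2 * 2 := by norm_num
    rw [this]
    exact mul_ne_zero h2 h2
  have hB2 : Continuous fun p : Wp × Wp => B p.1 p.2 := B.toContinuousBilinearMap.continuous₂
  have hcc := c.continuous_of_finiteDimensional
  obtain ⟨R₁, hR₁⟩ := hT (T' v)
  obtain ⟨R₂, hR₂⟩ := hT' v
  obtain ⟨ε, hε, hε1⟩ : ∃ ε > 0, ∀ x : Wp, ‖x‖ ≤ ε →
      ρ x v = v ∧ ψ ((4 : F)⁻¹ * B (c x) x) = 1 := by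
    have hq : Continuous fun x : Wp => (4 : F)⁻¹ * B (c x) x :=
      continuous_const.mul (hB2.comp (hcc.prodMk continuous_id))
    have hq1 := addChar_small hψ (hq.continuousAt (x := 0)) (by simp)
    obtain ⟨ε, hε, h⟩ := Metric.eventually_nhds_iff.1 ((hv v).and hq1)
    refine ⟨ε / 2, by positivity, fun x hx => h ?_⟩
    rw [dist_zero_right]
    linarith
  obtain ⟨R₃, hR₃⟩ := setD_small hψ hψ1 h2 hnd hc₁ (B := B) (c := c) hε
  refine ⟨max (max R₁ R₂) (max R₃ 0), fun R hR => ?_⟩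
  have r1 : R₁ ≤ R := ((le_max_left _ _).trans (le_max_left _ _)).trans hR
  have r2 : R₂ ≤ R := ((le_max_right _ _).trans (le_max_left _ _)).trans hR
  have r3 : R₃ ≤ R := ((le_max_left _ _).trans (le_max_right _ _)).trans hR
  have r4 : 0 ≤ R := ((le_max_right _ _).trans (le_max_right _ _)).trans hR
  rw [← sub_eq_zero]
  refine (Module.forall_dual_apply_eq_zero_iff ℂ _).1 fun ξ => ?_
  rw [map_sub, sub_eq_zero, ← hR₁ ξ R r1, map_smul, smul_eq_mul]
  -- the function of the difference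
  let L : Wp → ℂ := fun s => ((ψ ((4 : F)⁻¹ * B (c s) s) : Circle) : ℂ) * ξ (ρ s v)
  have hLc : Continuous L := by
    have e1 : Continuous fun z : Wp => (4 : F)⁻¹ * B (c z) z :=
      continuous_const.mul (hB2.comp (hcc.prodMk continuous_id))
    have e2 : IsLocallyConstant fun z => ρ z v := rho_locConst hψ h2 hρ (hv v)
    exact (continuous_subtype_val.comp (hψ.comp e1)).mul (e2.comp ξ).continuous
  let K : Wp → Wp → ℂ := fun w z =>
    ((ψ (-((2 : F)⁻¹ * B (c (w + z) - (w + z)) z)) : Circle) : ℂ) * L (w + z)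
  have hK : ∀ w z, ((ψ ((4 : F)⁻¹ * B (c w) w) : Circle) : ℂ) *
      (((ψ ((4 : F)⁻¹ * B ((-c) z) z) : Circle) : ℂ) * ξ (ρ w (ρ z v))) = K w z := by
    intro w z
    have h1 := LinearMap.congr_fun (hρ w z) v
    rw [Module.End.mul_apply, LinearMap.smul_apply] at h1
    rw [h1, map_smul, smul_eq_mul]
    show _ = ((ψ _ : Circle) : ℂ) * (((ψ _ : Circle) : ℂ) * ξ (ρ (w + z) v))
    rw [← mul_assoc, ← mul_assoc, ← mul_assoc, ← Circle.coe_mul, ← Circle.coe_mul,
      ← Circle.coe_mul, ← AddChar.map_add_eq_mul, ← AddChar.map_add_eq_mul,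
      ← AddChar.map_add_eq_mul]
    have e : (4 : F)⁻¹ * B (c w) w + (4 : F)⁻¹ * B ((-c) z) z + (2 : F)⁻¹ * B w z =
        -((2 : F)⁻¹ * B (c (w + z) - (w + z)) z) + (4 : F)⁻¹ * B (c (w + z)) (w + z) := by
      simp only [map_add, map_sub, LinearMap.add_apply, LinearMap.sub_apply, LinearMap.neg_apply,
        map_neg, hB]
      rw [hc z w]
      field_simp
      ring
    rw [e]
  have hKc : Continuous (Function.uncurry K) := by
    have e1 : Continuous fun p : Wp × Wp =>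
        -((2 : F)⁻¹ * B (c (p.1 + p.2) - (p.1 + p.2)) p.2) :=
      ((continuous_half B c).comp ((continuous_fst.add continuous_snd).prodMk
        continuous_snd)).neg
    exact (continuous_subtype_val.comp (hψ.comp e1)).mul
      (hLc.comp (continuous_fst.add continuous_snd))
  have hcomp := isCompact_closedBall (0 : Wp) R
  have hms : MeasurableSet (closedBall (0 : Wp) R) := isClosed_closedBall.measurableSet
  have hKi : Integrable (Function.uncurry K)
      ((ν.restrict (closedBall (0 : Wp) R)).prod (ν.restrict (closedBall (0 : Wp) R))) := by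
    rw [Measure.prod_restrict]
    exact hKc.continuousOn.integrableOn_compact (hcomp.prod hcomp)
  -- the second function
  let K' : Wp → Wp → ℂ := fun z s =>
    ((ψ (-((2 : F)⁻¹ * B (c s - s) z)) : Circle) : ℂ) * L s
  have hKc' : Continuous (Function.uncurry K') := by
    have e1 : Continuous fun p : Wp × Wp => -((2 : F)⁻¹ * B (c p.2 - p.2) p.1) :=
      ((continuous_half B c).comp (continuous_snd.prodMk continuous_fst)).neg
    exact (continuous_subtype_val.comp (hψ.comp e1)).mul (hLc.comp continuous_snd)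
  have hKi' : Integrable (Function.uncurry K')
      ((ν.restrict (closedBall (0 : Wp) R)).prod (ν.restrict (closedBall (0 : Wp) R))) := by
    rw [Measure.prod_restrict]
    exact hKc'.continuousOn.integrableOn_compact (hcomp.prod hcomp)
  calc ∫ w in closedBall (0 : Wp) R, ((ψ ((4 : F)⁻¹ * B (c w) w) : Circle) : ℂ) * ξ (ρ w (T' v)) ∂ν
      = ∫ w in closedBall (0 : Wp) R, ∫ z in closedBall (0 : Wp) R, K w z ∂ν ∂ν := by
        refine integral_congr_ae (Filter.Eventually.of_forall fun w => ?_)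
        have h1 := hR₂ (ξ.comp (ρ w)) R r2
        simp only [LinearMap.comp_apply] at h1
        simp only
        rw [← h1, ← integral_const_mul]
        exact integral_congr_ae (Filter.Eventually.of_forall fun z => hK w z)
    _ = ∫ z in closedBall (0 : Wp) R, ∫ w in closedBall (0 : Wp) R, K w z ∂ν ∂ν :=
        integral_integral_swap hKi
    _ = ∫ z in closedBall (0 : Wp) R, ∫ s in closedBall (0 : Wp) R, K' z s ∂ν ∂ν := by
        refine setIntegral_congr_fun hms fun z hz => ?_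
        rw [mem_closedBall_zero_iff] at hz
        rw [← int_ball_sub ν hz]
        refine integral_congr_ae (Filter.Eventually.of_forall fun s => ?_)
        simp only [K, K', sub_add_cancel]
    _ = ∫ s in closedBall (0 : Wp) R, ∫ z in closedBall (0 : Wp) R, K' z s ∂ν ∂ν :=
        integral_integral_swap hKi'
    _ = ∫ s in closedBall (0 : Wp) R, (setD ψ B c R ∩ closedBall (0 : Wp) R).indicator
          (fun _ => ((ν.real (closedBall (0 : Wp) R) : ℝ) : ℂ) * ξ v) s ∂ν := by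
        refine setIntegral_congr_fun hms fun s hs => ?_
        simp only [K']
        rw [integral_mul_const, half_int ν hψ R r4 s]
        by_cases h : s ∈ setD ψ B c R
        · rw [if_pos h, indicator_of_mem (show s ∈ setD ψ B c R ∩ closedBall (0 : Wp) R from
            ⟨h, hs⟩)]
          obtain ⟨h5, h6⟩ := hε1 s (hR₃ R r3 s h)
          simp only [L]
          rw [h5, h6, Circle.coe_one, one_mul]
        · rw [if_neg h, indicator_of_notMem (fun h' => h h'.1), zero_mul]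
    _ = _ := by
        rw [integral_indicator ((setD_closed hψ R).measurableSet.inter hms), setIntegral_const]
        have e1 : (ν.restrict (closedBall (0 : Wp) R)).real (setD ψ B c R ∩ closedBall (0 : Wp) R) =
            ν.real (setD ψ B c R ∩ closedBall (0 : Wp) R) := by
          rw [Measure.real, Measure.real, Measure.restrict_apply' hms, inter_assoc, inter_self]
        rw [e1, Complex.real_smul]
        push_cast
        ring

theorem inv_const_pos (hψ : Continuous ψ) {R : ℝ} (hR : 0 < R) :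
    0 < ν.real (closedBall (0 : Wp) R) * ν.real (setD ψ B c R ∩ closedBall (0 : Wp) R) := by
  have : ProperSpace Wp := FiniteDimensional.proper F Wp
  have hb : closedBall (0 : Wp) R ∈ nhds (0 : Wp) := closedBall_mem_nhds _ hR
  have h1 : 0 < ν (closedBall (0 : Wp) R) := Measure.measure_pos_of_mem_nhds ν hb
  have h2 : 0 < ν (setD ψ B c R ∩ closedBall (0 : Wp) R) :=
    Measure.measure_pos_of_mem_nhds ν (Filter.inter_mem (setD_nhds hψ R) hb)
  have h3 : ν (closedBall (0 : Wp) R) < ∞ := (isCompact_closedBall _ _).measure_lt_top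
  have h4 : ν (setD ψ B c R ∩ closedBall (0 : Wp) R) < ∞ :=
    lt_of_le_of_lt (measure_mono inter_subset_right) h3
  exact mul_pos (ENNReal.toReal_pos h1.ne' h3.ne) (ENNReal.toReal_pos h2.ne' h4.ne)

/-- `T_c T_{-c}` is a nonzero scalar. -/
theorem IsT.inv (hψ : Continuous ψ) (hψ1 : ψ ≠ 1) (h2 : (2 : F) ≠ 0)
    (hnd : ∀ w, (∀ x, B w x = 0) → w = 0)
    (hρ : ∀ w w', ρ w * ρ w' = ((ψ ((2 : F)⁻¹ * B w w') : Circle) : ℂ) • ρ (w + w'))
    (hc : ∀ w w', B (c w) w' = B (c w') w) (hB : ∀ w, B w w = 0)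
    (hc₁ : ∀ w, c w = w → w = 0) (hv : ∀ v, ∀ᶠ w in nhds (0 : Wp), ρ w v = v)
    {T T' : Module.End ℂ S} (hT : IsT ν ψ B ρ c T) (hT' : IsT ν ψ B ρ (-c) T') :
    ∃ C : ℂ, C ≠ 0 ∧ T * T' = C • (1 : Module.End ℂ S) := by
  by_cases hS : Subsingleton S
  · refine ⟨1, one_ne_zero, ?_⟩
    ext v
    exact Subsingleton.elim _ _
  rw [not_subsingleton_iff_nontrivial] at hS
  obtain ⟨v₀, hv₀⟩ := exists_ne (0 : S)
  obtain ⟨R₀, hR₀⟩ := hT.inv_aux ν hψ hψ1 h2 hnd hρ hc hB hc₁ hv hT' v₀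
  refine ⟨(((ν.real (closedBall (0 : Wp) (max R₀ 1)) *
      ν.real (setD ψ B c (max R₀ 1) ∩ closedBall (0 : Wp) (max R₀ 1)) : ℝ)) : ℂ), ?_, ?_⟩
  · have := inv_const_pos ν (B := B) (c := c) hψ (lt_of_lt_of_le one_pos (le_max_right R₀ 1))
    exact_mod_cast this.ne'
  · ext v
    obtain ⟨R₁, hR₁⟩ := hT.inv_aux ν hψ hψ1 h2 hnd hρ hc hB hc₁ hv hT' v
    have h3 := hR₀ (max (max R₀ 1) R₁) ((le_max_left _ _).trans (le_max_left _ _))
    have h4 := hR₀ (max R₀ 1) (le_max_left _ _)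
    have h5 := hR₁ (max (max R₀ 1) R₁) (le_max_right _ _)
    have h6 := smul_left_injective ℂ hv₀ (h3.symm.trans h4)
    rw [Module.End.mul_apply, h5, h6]
    rfl

end

end SpW.LemI
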