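import Pool.Agent.Work.MP_3615d2_al.Defs
import Pool.Agent.Work.MP_3615d2_al.LocH3

/-!
MP_3615d2_al, block We: existence of conjugate-symplectic characters.
-/

set_option linter.unusedSectionVars false

open Pool.Agent.LocNorm

namespace SpW

/-- Extension of homomorphisms to `ℂˣ`. -/
theorem exists_ext_units {A B : Type} [CommGroup A] [CommGroup B] (f : A →* B)
    (hf : Function.Injective f) (g : A →* ℂˣ) : ∃ h : B →* ℂˣ, ∀ a, h (f a) = g a := by
  have hsurj : ∀ n : ℤ, n ≠ 0 → Function.Surjective (fun z : Additive ℂˣ => n • z) := by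
    intro n hn z
    obtain ⟨w, hw⟩ : ∃ w : ℂˣ, w ^ n.natAbs = Additive.toMul z := by
      have hpos : 0 < n.natAbs := Int.natAbs_pos.2 hn
      obtain ⟨w, hw⟩ := IsAlgClosed.exists_pow_nat_eq ((Additive.toMul z : ℂˣ) : ℂ) hpos
      have hw0 : w ≠ 0 := by
        rintro rfl
        rw [zero_pow hpos.ne'] at hw
        exact (Additive.toMul z).ne_zero hw.symm
      exact ⟨Units.mk0 w hw0, Units.ext (by rw [Units.val_pow_eq_pow_val]; exact hw)⟩
    rcases Int.natAbs_eq n with h | h
    · refine ⟨Additive.ofMul w, ?_⟩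
      show n • Additive.ofMul w = z
      rw [h, ← ofMul_zpow, zpow_natCast, hw]
      rfl
    · refine ⟨Additive.ofMul w⁻¹, ?_⟩
      show n • Additive.ofMul w⁻¹ = z
      rw [h, ← ofMul_zpow, zpow_neg, zpow_natCast, inv_pow, inv_inv, hw]
      rfl
  have : DivisibleBy (Additive ℂˣ) ℤ := divisibleByOfSMulRightSurj _ _ fun {n} hn => hsurj n hn
  obtain ⟨h, hh⟩ := (Module.Baer.of_divisible (Additive ℂˣ)).extension_property_addMonoidHom
    (MonoidHom.toAdditive f) (fun a b hab => hf hab) (MonoidHom.toAdditive g)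
  refine ⟨MonoidHom.toAdditive.symm h, fun a => ?_⟩
  exact DFunLike.congr_fun hh (Additive.ofMul a)

section

variable {F E : Type} [NontriviallyNormedField F] [IsUltrametricDist F] [ProperSpace F]
  [NontriviallyNormedField E] [NormedAlgebra F E] [IsUltrametricDist E]
  {σ : E ≃ₐ[F] E} {δ : E} {d : F}

/-- Elements of `F` near `1` are norms. -/
theorem norm_near_one (hq : QuadDatum σ δ d) :
    ∃ s : ℝ, 0 < s ∧ s < 1 ∧ ∀ x : F, ‖x - 1‖ ≤ s → ∃ y : E, Algebra.norm F y = x := by
  obtain ⟨r, hr0, hr1, hrd⟩ := exists_r hq.two d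
  have h2 : 0 < ‖(2 : F)‖ := norm_pos_iff.2 hq.two
  refine ⟨‖(2 : F)‖ * r, by positivity, ?_, fun x hx => ?_⟩
  · have h3 : ‖(2 : F)‖ ≤ 1 := norm_two_le
    nlinarith
  · obtain ⟨z, -, hz⟩ := exists_norm_eq hq.two hr0 hr1 hrd hx
    exact (hq.isN_iff x).2 ⟨z.re, z.im, hz⟩

open scoped Classical in
/-- The quadratic character of `E/F`. -/
noncomputable def omU (hq : QuadDatum σ δ d) : Fˣ →* ℂˣ where
  toFun x := if ∃ y : E, Algebra.norm F y = (x : F) then 1 else -1
  map_one' := by
    rw [if_pos ⟨1, by simp⟩]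
  map_mul' a b := by
    have hfin := hq.finite
    have hinv : ∀ (y : E) (a : Fˣ), Algebra.norm F y = (a : F) →
        Algebra.norm F y⁻¹ = (a : F)⁻¹ := by
      intro y a hy
      rw [← hy]
      refine eq_inv_of_mul_eq_one_left ?_
      rw [← map_mul, inv_mul_cancel₀, map_one]
      rintro rfl
      rw [Algebra.norm_zero] at hy
      exact a.ne_zero hy.symm
    have hv : ((a * b : Fˣ) : F) = a * b := Units.val_mul a b
    rw [hv]
    by_cases ha : ∃ y : E, Algebra.norm F y = (a : F)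
    · by_cases hb : ∃ y : E, Algebra.norm F y = (b : F)
      · have hab : ∃ y : E, Algebra.norm F y = (a : F) * b := by
          obtain ⟨y, hy⟩ := ha
          obtain ⟨z, hz⟩ := hb
          exact ⟨y * z, by rw [map_mul, hy, hz]⟩
        rw [if_pos ha, if_pos hb, if_pos hab, mul_one]
      · have hab : ¬ ∃ y : E, Algebra.norm F y = (a : F) * b := by
          rintro ⟨z, hz⟩
          obtain ⟨y, hy⟩ := ha
          exact hb ⟨y⁻¹ * z, by rw [map_mul, hinv y a hy, hz, inv_mul_cancel_left₀ a.ne_zero]⟩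
        rw [if_pos ha, if_neg hb, if_neg hab, one_mul]
    · by_cases hb : ∃ y : E, Algebra.norm F y = (b : F)
      · have hab : ¬ ∃ y : E, Algebra.norm F y = (a : F) * b := by
          rintro ⟨z, hz⟩
          obtain ⟨y, hy⟩ := hb
          exact ha ⟨z * y⁻¹, by rw [map_mul, hinv y b hy, hz, mul_inv_cancel_right₀ b.ne_zero]⟩
        rw [if_neg ha, if_pos hb, if_neg hab, mul_one]
      · rw [if_neg ha, if_neg hb, if_pos (norm_mul_of_not_norm hq.two hq.rank _ _ a.ne_zero
          b.ne_zero ha hb), neg_mul_neg, one_mul]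

theorem omU_norm (hq : QuadDatum σ δ d) {x : Fˣ} (h : ∃ y : E, Algebra.norm F y = (x : F)) :
    omU hq x = 1 := by
  classical
  exact if_pos h

theorem omU_nonnorm (hq : QuadDatum σ δ d) {x : Fˣ} (h : ¬ ∃ y : E, Algebra.norm F y = (x : F)) :
    omU hq x = -1 := by
  classical
  exact if_neg h

/-- A small open subgroup of `Eˣ`. -/
def smallU (E : Type) [NontriviallyNormedField E] [IsUltrametricDist E] (s : ℝ) (hs : 0 < s)
    (hs1 : s < 1) : Subgroup Eˣ where
  carrier := {u | ‖(u : E) - 1‖ ≤ s}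
  one_mem' := by
    show ‖((1 : Eˣ) : E) - 1‖ ≤ s
    rw [Units.val_one, sub_self, norm_zero]
    exact hs.le
  mul_mem' := by
    intro a b ha hb
    have ha' : ‖(a : E) - 1‖ ≤ s := ha
    have hb' : ‖(b : E) - 1‖ ≤ s := hb
    show ‖((a * b : Eˣ) : E) - 1‖ ≤ s
    have e : ((a * b : Eˣ) : E) - 1 = ((a : E) - 1) * (b : E) + ((b : E) - 1) := by
      rw [Units.val_mul]
      ring
    have hb1 : ‖(b : E)‖ ≤ 1 := by
      have e2 : (b : E) = ((b : E) - 1) + 1 := by ring
      rw [e2]
      refine (IsUltrametricDist.norm_add_le_max _ _).trans (max_le (hb'.trans hs1.le) ?_)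
      rw [norm_one]
    rw [e]
    refine (IsUltrametricDist.norm_add_le_max _ _).trans (max_le ?_ hb')
    rw [norm_mul]
    nlinarith [norm_nonneg ((a : E) - 1), norm_nonneg (b : E)]
  inv_mem' := by
    intro a ha
    have ha' : ‖(a : E) - 1‖ ≤ s := ha
    show ‖((a⁻¹ : Eˣ) : E) - 1‖ ≤ s
    have h1 : ‖(a : E)‖ = 1 := by
      have h2 := IsUltrametricDist.norm_add_eq_max_of_norm_ne_norm (x := (a : E) - 1)
        (y := (1 : E)) (by rw [norm_one]; exact (ha'.trans_lt hs1).ne)
      rw [sub_add_cancel, norm_one, max_eq_right (ha'.trans hs1.le)] at h2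
      exact h2
    have e : ((a⁻¹ : Eˣ) : E) - 1 = -(((a : E) - 1) * (a : E)⁻¹) := by
      rw [Units.val_inv_eq_inv_val, sub_mul, mul_inv_cancel₀ a.ne_zero, one_mul, neg_sub]
    rw [e, norm_neg, norm_mul, norm_inv, h1, inv_one, mul_one]
    exact ha'

/-- **Conjugate-symplectic characters exist.** -/
theorem exists_conjSymplectic (hq : QuadDatum σ δ d) : ∃ μ : Eˣ →* ℂˣ, ConjSymplectic F μ := by
  obtain ⟨s, hs, hs1, hns⟩ := norm_near_one hq
  let U := smallU E s hs hs1
  let ι : Fˣ →* Eˣ := Units.map (algebraMap F E).toMonoidHom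
  let φ : Fˣ →* Eˣ ⧸ U := (QuotientGroup.mk' U).comp ι
  have hker : ∀ x ∈ φ.ker, omU hq x = 1 := by
    intro x hx
    have h1 : ι x ∈ U := (QuotientGroup.eq_one_iff _).1 hx
    have h2 : ‖(ι x : E) - 1‖ ≤ s := h1
    have h3 : (ι x : E) - 1 = algebraMap F E ((x : F) - 1) := by
      rw [map_sub, map_one]
      rfl
    rw [h3, norm_algebraMap'] at h2
    exact omU_norm hq (hns _ h2)
  obtain ⟨h, hh⟩ := exists_ext_units (A := Fˣ ⧸ φ.ker) (B := Eˣ ⧸ U) (QuotientGroup.kerLift φ)
    (QuotientGroup.kerLift_injective φ) (QuotientGroup.lift φ.ker (omU hq) hker)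
  have hval : ∀ x : Fˣ, (h.comp (QuotientGroup.mk' U)) (ι x) = omU hq x := by
    intro x
    exact hh (QuotientGroup.mk x)
  refine ⟨h.comp (QuotientGroup.mk' U), ?_, fun x hx => ?_, fun x hx => ?_⟩
  · refine continuous_of_continuousAt_one _ ?_
    have h1 : ∀ᶠ u : Eˣ in nhds 1, (h.comp (QuotientGroup.mk' U)) u = 1 := by
      have h2 : Filter.Tendsto (fun u : Eˣ => ‖(u : E) - 1‖) (nhds 1) (nhds 0) := by
        have h4 : Continuous fun u : Eˣ => ‖(u : E) - 1‖ :=
          (Units.continuous_val.sub continuous_const).norm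
        have h5 := h4.tendsto 1
        simpa using h5
      filter_upwards [(tendsto_order.1 h2).2 s hs] with u hu
      have h6 : u ∈ U := hu.le
      rw [MonoidHom.comp_apply, QuotientGroup.mk'_apply, (QuotientGroup.eq_one_iff u).2 h6,
        map_one]
    refine ContinuousAt.congr (continuousAt_const (y := (1 : ℂˣ))) ?_
    exact (h1.mono fun u hu => hu.symm)
  · show (h.comp (QuotientGroup.mk' U)) (ι x) = 1
    rw [hval, omU_norm hq hx]
  · show (h.comp (QuotientGroup.mk' U)) (ι x) = -1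
    rw [hval, omU_nonnorm hq hx]

end

end SpW
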