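import Pool.Agent.Work.MP_3615d2_al.WeMain
import Pool.Agent.Work.MP_3615d2_al.WeMu

/-!
MP_3615d2_al, block We: existence of additive characters; all the data exist.
-/

open MeasureTheory

namespace SpW

/-- A nontrivial additive group has a nontrivial character. -/
theorem exists_circle_char {A : Type} [AddCommGroup A] {a : A} (ha : a ≠ 0) :
    ∃ χ : AddChar A Circle, χ a ≠ 1 := by
  obtain ⟨c, hc⟩ := CharacterModule.exists_character_apply_ne_zero_of_ne_zero ha
  let f : AddCircle (1 : ℚ) →+ AddCircle (1 : ℝ) :=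
    QuotientAddGroup.map _ _ (Rat.castHom ℝ).toAddMonoidHom (by
      rintro x ⟨n, rfl⟩
      exact ⟨n, by simp⟩)
  have hf : Function.Injective f := by
    rw [injective_iff_map_eq_zero]
    intro x hx
    induction x using QuotientAddGroup.induction_on with
    | H q =>
      have h1 : ((q : ℝ) : AddCircle (1 : ℝ)) = 0 := hx
      rw [AddCircle.coe_eq_zero_iff] at h1
      obtain ⟨n, hn⟩ := h1
      have h2 : n • (1 : ℚ) = q := by
        have h3 : ((n • (1 : ℚ) : ℚ) : ℝ) = q := by
          rw [← hn]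
          simp
        exact_mod_cast h3
      exact (AddCircle.coe_eq_zero_iff (p := (1 : ℚ))).2 ⟨n, h2⟩
  refine ⟨⟨fun x => AddCircle.toCircle (f (c x)), by simp, fun x y => by
    rw [map_add, map_add, AddCircle.toCircle_add]⟩, fun h => hc ?_⟩
  have h1 : AddCircle.toCircle (f (c a)) = AddCircle.toCircle (0 : AddCircle (1 : ℝ)) := by
    rw [AddCircle.toCircle_zero]
    exact h
  have h2 := AddCircle.injective_toCircle one_ne_zero h1
  exact hf (h2.trans (map_zero f).symm)

/-- A nonarchimedean nontrivially normed field has a nontrivial continuous additive character. -/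
theorem exists_psi (F : Type) [NontriviallyNormedField F] [IsUltrametricDist F] :
    ∃ ψ : AddChar F Circle, Continuous ψ ∧ ψ ≠ 1 := by
  let B : AddSubgroup F :=
    { carrier := {x | ‖x‖ ≤ 1}
      zero_mem' := by simp
      add_mem' := fun {a b} ha hb => (IsUltrametricDist.norm_add_le_max a b).trans (max_le ha hb)
      neg_mem' := fun {a} ha => by
        show ‖-a‖ ≤ 1
        rw [norm_neg]
        exact ha }
  obtain ⟨a, ha⟩ := NormedField.exists_one_lt_norm F
  have haB : (QuotientAddGroup.mk a : F ⧸ B) ≠ 0 := by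
    intro h
    have h1 : a ∈ B := (QuotientAddGroup.eq_zero_iff a).1 h
    have h2 : ‖a‖ ≤ 1 := h1
    exact absurd h2 (not_le.2 ha)
  obtain ⟨χ, hχ⟩ := exists_circle_char haB
  let ψ : AddChar F Circle := χ.compAddMonoidHom (QuotientAddGroup.mk' B)
  have hψ : ∀ x : F, ψ x = χ (QuotientAddGroup.mk x) := fun x => rfl
  refine ⟨ψ, ?_, fun h => hχ ?_⟩
  · have hB : ∀ x : F, ‖x‖ ≤ 1 → ψ x = 1 := by
      intro x hx
      have h1 : (QuotientAddGroup.mk x : F ⧸ B) = 0 := (QuotientAddGroup.eq_zero_iff x).2 hx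
      rw [hψ, h1, AddChar.map_zero_eq_one]
    rw [continuous_iff_continuousAt]
    intro x
    refine ContinuousAt.congr (continuousAt_const (y := ψ x)) ?_
    filter_upwards [Metric.ball_mem_nhds x one_pos] with y hy
    rw [Metric.mem_ball, dist_eq_norm] at hy
    have h2 : y = x + (y - x) := by abel
    rw [h2, AddChar.map_add_eq_mul, hB _ hy.le, mul_one]
  · have h3 := DFunLike.congr_fun h a
    rw [hψ] at h3
    exact h3

section

variable {F E : Type} [NontriviallyNormedField F] [IsUltrametricDist F] [ProperSpace F]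
  [NontriviallyNormedField E] [NormedAlgebra F E] [IsUltrametricDist E] [ProperSpace E]
  [MeasurableSpace E] [BorelSpace E] {σ : E ≃ₐ[F] E} {N : ℕ} {H : Matrix (Fin N) (Fin N) E}

/-- **All the data of the theorems exist**, for every quadratic extension and every nondegenerate
skew-Hermitian matrix. -/
theorem weil_data_exist (h2 : (2 : F) ≠ 0) (hrank : Module.finrank F E = 2)
    (hσ : ∃ x, σ x ≠ x) (hH : IsSkew σ H) :
    ∃ (ψ : AddChar F Circle) (μ : Eˣ →* ℂˣ), Continuous ψ ∧ ψ ≠ 1 ∧ ConjSymplectic F μ ∧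
      ∃ (S : Type) (_ : AddCommGroup S) (_ : Module ℂ S) (ρ : (Fin N → E) → Module.End ℂ S)
        (ω : unitary σ H →* Module.End ℂ S), IsWeil σ H ψ μ ρ ω := by
  obtain ⟨δ, d, hq⟩ := quadDatum_exists F E σ h2 hrank hσ
  obtain ⟨ψ, hψ, hψ1⟩ := exists_psi F
  obtain ⟨μ, hμ⟩ := exists_conjSymplectic (E := E) hq
  exact ⟨ψ, μ, hψ, hψ1, hμ, weil_exists hq hH hψ hψ1 hμ⟩

end

end SpW
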