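import Pool.Agent.Work.MP_3615d2_al.A9V

/-!
MP_3615d2_al, existence of the Weil representation: the operators
`T_c v = ∫ ψ(⟨c z, z⟩/4) ρ(z) v dz`.
-/

open MeasureTheory Metric Set
open scoped NNReal ENNReal

namespace SpW.LemI

section

variable {F : Type} [NontriviallyNormedField F] [ProperSpace F] [IsUltrametricDist F]
    {Wp : Type} [NormedAddCommGroup Wp] [NormedSpace F Wp] [FiniteDimensional F Wp]
    [IsUltrametricDist Wp] [MeasurableSpace Wp] [BorelSpace Wp] (ν : Measure Wp)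
    [ν.IsAddHaarMeasure] {S : Type} [AddCommGroup S] [Module ℂ S] {ψ : AddChar F Circle}

omit [ProperSpace F] [IsUltrametricDist F] [FiniteDimensional F Wp] in
theorem int_ball_sub {x : Wp} {R : ℝ} (hx : ‖x‖ ≤ R) (g : Wp → ℂ) :
    ∫ z in closedBall (0 : Wp) R, g (z - x) ∂ν = ∫ z in closedBall (0 : Wp) R, g z ∂ν := by
  have h1 := (measurePreserving_sub_right ν x).setIntegral_preimage_emb
    (MeasurableEquiv.subRight x).measurableEmbedding g (closedBall (0 : Wp) R)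
  have h2 : (fun z : Wp => z - x) ⁻¹' closedBall (0 : Wp) R = closedBall (0 : Wp) R := by
    ext z
    rw [mem_preimage, mem_closedBall_zero_iff, mem_closedBall_zero_iff]
    constructor
    · intro h
      have h3 : z = (z - x) + x := by abel
      rw [h3]
      exact (IsUltrametricDist.norm_add_le_max _ _).trans (max_le h hx)
    · intro h
      rw [sub_eq_add_neg]
      exact (IsUltrametricDist.norm_add_le_max _ _).trans (max_le h (by rwa [norm_neg]))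
  rw [h2] at h1
  exact h1

section one

variable {B : Wp →ₗ[F] Wp →ₗ[F] F} {ρ : Wp → Module.End ℂ S} {c : Wp →ₗ[F] Wp} {v : S}

omit [ProperSpace F] [IsUltrametricDist F] [FiniteDimensional F Wp] [IsUltrametricDist Wp]
  [MeasurableSpace Wp] [BorelSpace Wp] in
theorem Tv_add (h2 : (2 : F) ≠ 0)
    (hρ : ∀ w w', ρ w * ρ w' = ((ψ ((2 : F)⁻¹ * B w w') : Circle) : ℂ) • ρ (w + w'))
    (hc : ∀ w w', B (c w) w' = B (c w') w) {z x : Wp} (h1 : ρ x v = v)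
    (h1' : ψ ((4 : F)⁻¹ * B (c x) x) = 1) :
    ((ψ ((4 : F)⁻¹ * B (c (z + x)) (z + x)) : Circle) : ℂ) • ρ (z + x) v =
      ((ψ ((2 : F)⁻¹ * B (c z - z) x) : Circle) : ℂ) •
        ((ψ ((4 : F)⁻¹ * B (c z) z) : Circle) : ℂ) • ρ z v := by
  have h4 : (4 : F) ≠ 0 := by
    have : (4 : F) = 2 * 2 := by norm_num
    rw [this]
    exact mul_ne_zero h2 h2
  have h3 := LinearMap.congr_fun (hρ z x) v
  rw [Module.End.mul_apply, h1, LinearMap.smul_apply] at h3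
  have e1 : (4 : F)⁻¹ * B (c (z + x)) (z + x) =
      (2 : F)⁻¹ * B (c z - z) x + (4 : F)⁻¹ * B (c z) z + (2 : F)⁻¹ * B z x +
        (4 : F)⁻¹ * B (c x) x := by
    rw [map_add c, map_add B, LinearMap.add_apply, map_add, map_add, hc x z, map_sub,
      LinearMap.sub_apply]
    field_simp
    ring
  rw [h3, e1, AddChar.map_add_eq_mul, h1', mul_one, AddChar.map_add_eq_mul,
    AddChar.map_add_eq_mul, Circle.coe_mul, Circle.coe_mul, smul_smul, smul_smul, mul_assoc]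

theorem Tv_stab (hψ : Continuous ψ) (h2 : (2 : F) ≠ 0)
    (hρ : ∀ w w', ρ w * ρ w' = ((ψ ((2 : F)⁻¹ * B w w') : Circle) : ℂ) • ρ (w + w'))
    (hc : ∀ w w', B (c w) w' = B (c w') w) {ε R₁ : ℝ} (hε : 0 < ε) (hR₁ : ε ≤ R₁)
    (hε1 : ∀ x : Wp, ‖x‖ ≤ ε → ρ x v = v)
    (hε2 : ∀ x : Wp, ‖x‖ ≤ ε → ψ ((4 : F)⁻¹ * B (c x) x) = 1)
    (hdet : ∀ w, R₁ < ‖w‖ → ∃ x, ‖x‖ ≤ ε ∧ ψ ((2 : F)⁻¹ * B (c w - w) x) ≠ 1) :
    IsLocallyConstant (fun z => ((ψ ((4 : F)⁻¹ * B (c z) z) : Circle) : ℂ) • ρ z v) ∧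
    ∀ (ξ : S →ₗ[ℂ] ℂ) (R : ℝ), R₁ ≤ R →
      ∫ z in Metric.closedBall (0 : Wp) R,
        ((ψ ((4 : F)⁻¹ * B (c z) z) : Circle) : ℂ) * ξ (ρ z v) ∂ν =
      ∫ z in Metric.closedBall (0 : Wp) R₁,
        ((ψ ((4 : F)⁻¹ * B (c z) z) : Circle) : ℂ) * ξ (ρ z v) ∂ν := by
  have : ProperSpace Wp := FiniteDimensional.proper F Wp
  let θ : Wp →ₗ[F] Wp →ₗ[F] F := (2 : F)⁻¹ • (B.comp (c - LinearMap.id))
  have hθ : ∀ z x, θ z x = (2 : F)⁻¹ * B (c z - z) x := fun z x => rfl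
  have hvec : ∀ z x, ‖x‖ ≤ ε →
      ((ψ ((4 : F)⁻¹ * B (c (z + x)) (z + x)) : Circle) : ℂ) • ρ (z + x) v =
      ((ψ (θ z x) : Circle) : ℂ) • ((ψ ((4 : F)⁻¹ * B (c z) z) : Circle) : ℂ) • ρ z v := by
    intro z x hx
    rw [hθ]
    exact Tv_add h2 hρ hc (hε1 x hx) (hε2 x hx)
  have hfχ : ∀ (ξ : S →ₗ[ℂ] ℂ) (z x : Wp), ‖x‖ ≤ ε →
      ((ψ ((4 : F)⁻¹ * B (c (z + x)) (z + x)) : Circle) : ℂ) * ξ (ρ (z + x) v) =
      ((ψ (θ z x) : Circle) : ℂ) *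
        (((ψ ((4 : F)⁻¹ * B (c z) z) : Circle) : ℂ) * ξ (ρ z v)) := by
    intro ξ z x hx
    have h3 := congrArg ξ (hvec z x hx)
    simpa only [map_smul, smul_eq_mul] using h3
  refine ⟨?_, fun ξ R hR => ?_⟩
  · rw [IsLocallyConstant.iff_eventually_eq]
    intro z
    have h1 : ContinuousAt (fun x : Wp => θ z (x - z)) z :=
      ((θ z).continuous_of_finiteDimensional.comp (continuous_sub_right z)).continuousAt
    have h3 := addChar_small hψ h1 (by simp)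
    have h4 : ∀ᶠ x in nhds z, ‖x - z‖ ≤ ε := by
      have : ContinuousAt (fun x : Wp => ‖x - z‖) z :=
        ((continuous_sub_right z).norm).continuousAt
      exact (this.eventually_lt continuousAt_const (by simpa using hε)).mono fun _ h => h.le
    filter_upwards [h3, h4] with x hx1 hx2
    have h5 := hvec z (x - z) hx2
    rw [add_sub_cancel, hx1, Circle.coe_one, one_smul] at h5
    exact h5
  · refine stab_eq ν hψ hε (cont_of_char hψ hε θ (hfχ ξ)) θ (hfχ ξ) hR₁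
      (fun w hw => hdet w hw) isClosed_closedBall.measurableSet
      isBounded_closedBall (fun w x hx => ?_) (closedBall_subset_closedBall hR)
    rw [mem_closedBall_zero_iff, mem_closedBall_zero_iff]
    exact ball_add_iff (hR₁.trans hR) hx

/-- The stable integral `T_c v`, uniformly for `c` near `c₀`. -/
theorem exists_Tv (hψ : Continuous ψ) (hψ1 : ψ ≠ 1) (h2 : (2 : F) ≠ 0)
    (hnd : ∀ w, (∀ x, B w x = 0) → w = 0)
    (hρ : ∀ w w', ρ w * ρ w' = ((ψ ((2 : F)⁻¹ * B w w') : Circle) : ℂ) • ρ (w + w'))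
    {c₀ : Wp →ₗ[F] Wp} (hc₀ : ∀ w w', B (c₀ w) w' = B (c₀ w') w)
    (hc₁ : ∀ w, c₀ w = w → w = 0) (hv : ∀ᶠ w in nhds (0 : Wp), ρ w v = v) :
    ∃ (v1 : S) (R₁ η : ℝ), 0 < η ∧ ∀ c : Wp →ₗ[F] Wp, (∀ w w', B (c w) w' = B (c w') w) →
      (∀ w, ‖c w - c₀ w‖ ≤ η * ‖w‖) → ∀ (ξ : S →ₗ[ℂ] ℂ) (R : ℝ), R₁ ≤ R →
      ∫ z in Metric.closedBall (0 : Wp) R,
        ((ψ ((4 : F)⁻¹ * B (c z) z) : Circle) : ℂ) * ξ (ρ z v) ∂ν = ξ v1 := by
  have : ProperSpace Wp := FiniteDimensional.proper F Wp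
  -- bounds
  obtain ⟨δ, hδ, hδ1⟩ := Pool.Agent.SpehH.exists_ball_eq_one hψ
  obtain ⟨Cb, hCb0, hCb⟩ : ∃ Cb : ℝ, 0 < Cb ∧ ∀ x y, ‖(4 : F)⁻¹ * B x y‖ ≤ Cb * ‖x‖ * ‖y‖ := by
    refine ⟨‖(4 : F)⁻¹‖ * ‖B.toContinuousBilinearMap‖ + 1, by positivity, fun x y => ?_⟩
    have h1 := B.toContinuousBilinearMap.le_opNorm₂ x y
    rw [LinearMap.toContinuousBilinearMap_apply] at h1
    rw [norm_mul]
    calc ‖(4 : F)⁻¹‖ * ‖B x y‖ ≤ ‖(4 : F)⁻¹‖ * (‖B.toContinuousBilinearMap‖ * ‖x‖ * ‖y‖) := by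
          gcongr
      _ = ‖(4 : F)⁻¹‖ * ‖B.toContinuousBilinearMap‖ * ‖x‖ * ‖y‖ := by ring
      _ ≤ _ := by gcongr; linarith
  obtain ⟨C₀, hC₀0, hC₀⟩ : ∃ C₀ : ℝ, 0 < C₀ ∧ ∀ x, ‖c₀ x‖ ≤ C₀ * ‖x‖ := by
    refine ⟨‖LinearMap.toContinuousLinearMap c₀‖ + 1, by positivity, fun x => ?_⟩
    have h1 := (LinearMap.toContinuousLinearMap c₀).le_opNorm x
    rw [LinearMap.coe_toContinuousLinearMap'] at h1
    refine h1.trans ?_
    gcongr
    linarith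
  obtain ⟨m, hm0, hm⟩ : ∃ m : ℝ, 0 < m ∧ ∀ w, m * ‖w‖ ≤ ‖c₀ w - w‖ := by
    have h1 : LinearMap.ker (c₀ - LinearMap.id) = ⊥ := by
      rw [LinearMap.ker_eq_bot']
      intro w hw
      exact hc₁ w (sub_eq_zero.1 hw)
    obtain ⟨K, hK0, hK⟩ := LinearMap.exists_antilipschitzWith _ h1
    refine ⟨(K : ℝ)⁻¹, by positivity, fun w => ?_⟩
    have h3 := hK.le_mul_dist w 0
    rw [dist_zero_right, map_zero, dist_zero_right] at h3
    rw [inv_mul_le_iff₀ (by exact_mod_cast hK0)]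
    exact h3
  obtain ⟨ε₁, hε₁, hε1⟩ : ∃ ε > 0, ∀ x : Wp, ‖x‖ ≤ ε → ρ x v = v := by
    obtain ⟨ε, hε, h⟩ := Metric.eventually_nhds_iff.1 hv
    refine ⟨ε / 2, by positivity, fun x hx => h ?_⟩
    rw [dist_zero_right]
    linarith
  -- the radius of smoothness
  obtain ⟨ε, hε, hεle, hε2⟩ : ∃ ε > 0, ε ≤ ε₁ ∧ Cb * (C₀ + 1) * ε * ε < δ := by
    have h1 : Filter.Tendsto (fun ε : ℝ => Cb * (C₀ + 1) * ε * ε) (nhds 0)
        (nhds (Cb * (C₀ + 1) * 0 * 0)) := by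
      have : Continuous fun ε : ℝ => Cb * (C₀ + 1) * ε * ε := by fun_prop
      exact this.tendsto 0
    rw [mul_zero] at h1
    have h3 := h1.eventually (gt_mem_nhds hδ)
    obtain ⟨r, hr, hr'⟩ := Metric.eventually_nhds_iff.1 h3
    refine ⟨min ε₁ (r / 2), lt_min hε₁ (by positivity), min_le_left _ _, hr' ?_⟩
    rw [dist_zero_right, Real.norm_eq_abs, abs_of_pos (lt_min hε₁ (by positivity))]
    exact lt_of_le_of_lt (min_le_right _ _) (by linarith)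
  -- detection
  obtain ⟨R₀, hR₀⟩ := detect hψ hψ1 ((2 : F)⁻¹ • B) (fun w hw => hnd _ fun x => by
    have h1 := hw x
    rw [LinearMap.smul_apply, LinearMap.smul_apply, smul_eq_mul, mul_eq_zero] at h1
    exact h1.resolve_left (inv_ne_zero h2)) hε
  set R₁ : ℝ := max (2 * R₀ / m) ε with hR₁
  have hR₁0 : 0 < R₁ := lt_of_lt_of_le hε (le_max_right _ _)
  -- the neighbourhood
  obtain ⟨η, hη, hη1, hηm, hη2⟩ : ∃ η : ℝ, 0 < η ∧ η ≤ 1 ∧ η ≤ m / 2 ∧ Cb * η * R₁ * R₁ < δ := by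
    refine ⟨min (min 1 (m / 2)) (δ / (2 * (Cb * R₁ * R₁))), ?_, ?_, ?_, ?_⟩
    · positivity
    · exact (min_le_left _ _).trans (min_le_left _ _)
    · exact (min_le_left _ _).trans (min_le_right _ _)
    · calc Cb * min (min 1 (m / 2)) (δ / (2 * (Cb * R₁ * R₁))) * R₁ * R₁
          ≤ Cb * (δ / (2 * (Cb * R₁ * R₁))) * R₁ * R₁ := by
            gcongr
            exact min_le_right _ _
        _ = δ / 2 := by
            field_simp
        _ < δ := by linarith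
  have key : ∀ c : Wp →ₗ[F] Wp, (∀ w w', B (c w) w' = B (c w') w) →
      (∀ w, ‖c w - c₀ w‖ ≤ η * ‖w‖) →
      (∀ x : Wp, ‖x‖ ≤ ε → ψ ((4 : F)⁻¹ * B (c x) x) = 1) ∧
      (∀ w, R₁ < ‖w‖ → ∃ x, ‖x‖ ≤ ε ∧ ψ ((2 : F)⁻¹ * B (c w - w) x) ≠ 1) := by
    intro c hc hcc
    refine ⟨fun x hx => hδ1 _ ?_, fun w hw => ?_⟩
    · refine lt_of_le_of_lt (hCb _ _) (lt_of_le_of_lt ?_ hε2)
      have h1 : ‖c x‖ ≤ (C₀ + 1) * ‖x‖ := by
        calc ‖c x‖ = ‖(c x - c₀ x) + c₀ x‖ := by rw [sub_add_cancel]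
          _ ≤ ‖c x - c₀ x‖ + ‖c₀ x‖ := norm_add_le _ _
          _ ≤ η * ‖x‖ + C₀ * ‖x‖ := add_le_add (hcc x) (hC₀ x)
          _ ≤ 1 * ‖x‖ + C₀ * ‖x‖ := by gcongr
          _ = _ := by ring
      calc Cb * ‖c x‖ * ‖x‖ ≤ Cb * ((C₀ + 1) * ‖x‖) * ‖x‖ := by gcongr
        _ ≤ Cb * ((C₀ + 1) * ε) * ε := by gcongr
        _ = _ := by ring
    · have h1 : m / 2 * ‖w‖ ≤ ‖c w - w‖ := by
        have h3 := hm w
        have h4 : ‖c₀ w - w‖ ≤ ‖c w - w‖ + ‖c w - c₀ w‖ := by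
          have h5 : c₀ w - w = (c w - w) - (c w - c₀ w) := by abel
          rw [h5]
          exact norm_sub_le _ _
        have h5 := hcc w
        have h6 : η * ‖w‖ ≤ m / 2 * ‖w‖ := by gcongr
        linarith
      have h3 : R₀ < ‖c w - w‖ := by
        refine lt_of_lt_of_le ?_ h1
        have h4 : 2 * R₀ / m < ‖w‖ := (le_max_left _ _).trans_lt hw
        rw [div_lt_iff₀ hm0] at h4
        linarith
      exact hR₀ _ h3
  have hself : ∀ w, ‖c₀ w - c₀ w‖ ≤ η * ‖w‖ := fun w => by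
    rw [sub_self, norm_zero]
    positivity
  obtain ⟨k1, k2⟩ := key c₀ hc₀ hself
  have hst₀ := Tv_stab ν hψ h2 hρ hc₀ hε (le_max_right _ _)
    (fun x hx => hε1 x (hx.trans hεle)) k1 k2
  obtain ⟨v1, hv1⟩ := exists_int_vec ν hst₀.1 (isCompact_closedBall (0 : Wp) R₁)
  refine ⟨v1, R₁, η, hη, fun c hc hcc ξ R hR => ?_⟩
  obtain ⟨k3, k4⟩ := key c hc hcc
  have hst := Tv_stab ν hψ h2 hρ hc hε (le_max_right _ _)
    (fun x hx => hε1 x (hx.trans hεle)) k3 k4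
  rw [hst.2 ξ R hR, ← hv1 ξ]
  refine setIntegral_congr_fun isClosed_closedBall.measurableSet fun z hz => ?_
  rw [mem_closedBall_zero_iff] at hz
  show ((ψ ((4 : F)⁻¹ * B (c z) z) : Circle) : ℂ) * ξ (ρ z v) =
    ξ (((ψ ((4 : F)⁻¹ * B (c₀ z) z) : Circle) : ℂ) • ρ z v)
  rw [map_smul, smul_eq_mul]
  congr 2
  have h3 : (4 : F)⁻¹ * B (c z) z = (4 : F)⁻¹ * B (c z - c₀ z) z + (4 : F)⁻¹ * B (c₀ z) z := by
    rw [map_sub, LinearMap.sub_apply]
    ring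
  rw [h3, AddChar.map_add_eq_mul, hδ1 _ ?_, one_mul]
  refine lt_of_le_of_lt (hCb _ _) (lt_of_le_of_lt ?_ hη2)
  calc Cb * ‖c z - c₀ z‖ * ‖z‖ ≤ Cb * (η * ‖z‖) * ‖z‖ := by gcongr; exact hcc z
    _ ≤ Cb * (η * R₁) * R₁ := by gcongr
    _ = _ := by ring

omit [MeasurableSpace Wp] [BorelSpace Wp] in
theorem rho_locConst (hψ : Continuous ψ) (h2 : (2 : F) ≠ 0)
    (hρ : ∀ w w', ρ w * ρ w' = ((ψ ((2 : F)⁻¹ * B w w') : Circle) : ℂ) • ρ (w + w'))
    (hv : ∀ᶠ w in nhds (0 : Wp), ρ w v = v) : IsLocallyConstant fun z => ρ z v := by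
  rw [IsLocallyConstant.iff_eventually_eq]
  intro z
  have h1 : ContinuousAt (fun x : Wp => (-(2 : F)⁻¹ • B z) (x - z)) z :=
    ((-(2 : F)⁻¹ • B z).continuous_of_finiteDimensional.comp
      (continuous_sub_right z)).continuousAt
  have h3 := addChar_small hψ h1 (by simp)
  have h4 : ∀ᶠ x in nhds z, ρ (x - z) v = v := by
    have h5 : Filter.Tendsto (fun x : Wp => x - z) (nhds z) (nhds 0) := by
      have := (continuous_sub_right z).tendsto z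
      rwa [sub_self] at this
    exact h5.eventually hv
  filter_upwards [h3, h4] with x hx1 hx2
  have h5 := LinearMap.congr_fun (hρ z (x - z)) v
  rw [Module.End.mul_apply, hx2, LinearMap.smul_apply, add_sub_cancel] at h5
  have h6 : ψ ((2 : F)⁻¹ * B z (x - z)) = 1 := by
    have h7 : (-(2 : F)⁻¹ • B z) (x - z) = -((2 : F)⁻¹ * B z (x - z)) := by
      simp
    rw [h7, AddChar.map_neg_eq_inv, inv_eq_one] at hx1
    exact hx1
  rw [h6, Circle.coe_one, one_smul] at h5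
  exact h5.symm

/-- `T` is the operator `v ↦ ∫ ψ(B(cz, z)/4) ρ(z) v dz`. -/
def IsT (ν : Measure Wp) (ψ : AddChar F Circle) (B : Wp →ₗ[F] Wp →ₗ[F] F)
    (ρ : Wp → Module.End ℂ S) (c : Wp →ₗ[F] Wp) (T : Module.End ℂ S) : Prop :=
  ∀ v, ∃ R₁ : ℝ, ∀ (ξ : S →ₗ[ℂ] ℂ) (R : ℝ), R₁ ≤ R →
    ∫ z in Metric.closedBall (0 : Wp) R,
      ((ψ ((4 : F)⁻¹ * B (c z) z) : Circle) : ℂ) * ξ (ρ z v) ∂ν = ξ (T v)

omit [ProperSpace F] [IsUltrametricDist F] [FiniteDimensional F Wp] [IsUltrametricDist Wp]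
  [BorelSpace Wp] [ν.IsAddHaarMeasure] in
theorem IsT.unique {T T' : Module.End ℂ S} (h : IsT ν ψ B ρ c T) (h' : IsT ν ψ B ρ c T') :
    T = T' := by
  ext v
  obtain ⟨R₁, hR⟩ := h v
  obtain ⟨R₁', hR'⟩ := h' v
  rw [← sub_eq_zero]
  refine (Module.forall_dual_apply_eq_zero_iff ℂ _).1 fun ξ => ?_
  rw [map_sub, ← hR ξ _ (le_max_left R₁ R₁'), ← hR' ξ _ (le_max_right R₁ R₁'), sub_self]

theorem exists_T (hψ : Continuous ψ) (hψ1 : ψ ≠ 1) (h2 : (2 : F) ≠ 0)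
    (hnd : ∀ w, (∀ x, B w x = 0) → w = 0)
    (hρ : ∀ w w', ρ w * ρ w' = ((ψ ((2 : F)⁻¹ * B w w') : Circle) : ℂ) • ρ (w + w'))
    (hc : ∀ w w', B (c w) w' = B (c w') w)
    (hc₁ : ∀ w, c w = w → w = 0) (hv : ∀ v, ∀ᶠ w in nhds (0 : Wp), ρ w v = v) :
    ∃ T : Module.End ℂ S, IsT ν ψ B ρ c T := by
  have h1 : ∀ v, ∃ (v1 : S) (R₁ : ℝ), ∀ (ξ : S →ₗ[ℂ] ℂ) (R : ℝ), R₁ ≤ R →
      ∫ z in Metric.closedBall (0 : Wp) R,
        ((ψ ((4 : F)⁻¹ * B (c z) z) : Circle) : ℂ) * ξ (ρ z v) ∂ν = ξ v1 := by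
    intro v
    obtain ⟨v1, R₁, η, hη, h⟩ := exists_Tv ν hψ hψ1 h2 hnd hρ hc hc₁ (hv v)
    exact ⟨v1, R₁, h c hc fun w => by rw [sub_self, norm_zero]; positivity⟩
  choose T R₁ hT using h1
  have hint : ∀ (ξ : S →ₗ[ℂ] ℂ) v R, Integrable (fun z =>
      ((ψ ((4 : F)⁻¹ * B (c z) z) : Circle) : ℂ) * ξ (ρ z v))
        (ν.restrict (Metric.closedBall (0 : Wp) R)) := by
    intro ξ v R
    have : ProperSpace Wp := FiniteDimensional.proper F Wp
    have hcont : Continuous fun z => ((ψ ((4 : F)⁻¹ * B (c z) z) : Circle) : ℂ) * ξ (ρ z v) := by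
      have e1 : Continuous fun z : Wp => (4 : F)⁻¹ * B (c z) z := by
        have h3 : Continuous fun p : Wp × Wp => B p.1 p.2 :=
          B.toContinuousBilinearMap.continuous₂
        exact continuous_const.mul (h3.comp
          ((c.continuous_of_finiteDimensional).prodMk continuous_id))
      have e2 : IsLocallyConstant fun z => ρ z v := rho_locConst hψ h2 hρ (hv v)
      exact (continuous_subtype_val.comp (hψ.comp e1)).mul (e2.comp ξ).continuous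
    exact (hcont.continuousOn.integrableOn_compact (isCompact_closedBall _ _))
  refine ⟨{ toFun := T, map_add' := fun v v' => ?_, map_smul' := fun a v => ?_ }, fun v =>
    ⟨R₁ v, hT v⟩⟩
  · rw [← sub_eq_zero]
    refine (Module.forall_dual_apply_eq_zero_iff ℂ _).1 fun ξ => ?_
    have hR : ∃ R, R₁ (v + v') ≤ R ∧ R₁ v ≤ R ∧ R₁ v' ≤ R :=
      ⟨max (R₁ (v + v')) (max (R₁ v) (R₁ v')), le_max_left _ _,
        (le_max_left _ _).trans (le_max_right _ _), (le_max_right _ _).trans (le_max_right _ _)⟩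
    obtain ⟨R, r1, r2, r3⟩ := hR
    rw [map_sub, map_add, ← hT _ ξ R r1, ← hT _ ξ R r2, ← hT _ ξ R r3,
      ← integral_add (hint ξ v R) (hint ξ v' R), sub_eq_zero]
    refine integral_congr_ae (Filter.Eventually.of_forall fun z => ?_)
    simp only [map_add]
    ring
  · rw [← sub_eq_zero]
    refine (Module.forall_dual_apply_eq_zero_iff ℂ _).1 fun ξ => ?_
    have hR : ∃ R, R₁ (a • v) ≤ R ∧ R₁ v ≤ R :=
      ⟨max (R₁ (a • v)) (R₁ v), le_max_left _ _, le_max_right _ _⟩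
    obtain ⟨R, r1, r2⟩ := hR
    rw [map_sub, RingHom.id_apply, map_smul, ← hT _ ξ R r1, ← hT _ ξ R r2, sub_eq_zero,
      smul_eq_mul, ← integral_const_mul]
    refine integral_congr_ae (Filter.Eventually.of_forall fun z => ?_)
    simp only [map_smul, smul_eq_mul]
    ring

omit [ProperSpace F] [IsUltrametricDist F] [FiniteDimensional F Wp] in
/-- The intertwining property of `T_c`. -/
theorem IsT.rho (h2 : (2 : F) ≠ 0)
    (hρ : ∀ w w', ρ w * ρ w' = ((ψ ((2 : F)⁻¹ * B w w') : Circle) : ℂ) • ρ (w + w'))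
    (hc : ∀ w w', B (c w) w' = B (c w') w) {T : Module.End ℂ S} (hT : IsT ν ψ B ρ c T)
    (hB : ∀ w, B w w = 0) {x y : Wp} (hxy : c x + x = c y - y) (hq : B (c x) x = B (c y) y)
    (v : S) : T (ρ x v) = ρ y (T v) := by
  have hBs : ∀ w w', B w w' = - B w' w := by
    intro w w'
    have h1 := hB (w + w')
    simp only [map_add, LinearMap.add_apply, hB, zero_add, add_zero] at h1
    exact eq_neg_of_add_eq_zero_right h1
  have h4 : (4 : F) ≠ 0 := by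
    have : (4 : F) = 2 * 2 := by norm_num
    rw [this]
    exact mul_ne_zero h2 h2
  obtain ⟨R₁, hR₁⟩ := hT (ρ x v)
  obtain ⟨R₂, hR₂⟩ := hT v
  rw [← sub_eq_zero]
  refine (Module.forall_dual_apply_eq_zero_iff ℂ _).1 fun ξ => ?_
  obtain ⟨R, r1, r2, r3, r4⟩ : ∃ R, R₁ ≤ R ∧ R₂ ≤ R ∧ ‖x‖ ≤ R ∧ ‖y‖ ≤ R :=
    ⟨max (max R₁ R₂) (max ‖x‖ ‖y‖), (le_max_left _ _).trans (le_max_left _ _),
      (le_max_right _ _).trans (le_max_left _ _), (le_max_left _ _).trans (le_max_right _ _),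
      (le_max_right _ _).trans (le_max_right _ _)⟩
  have k1 := hR₁ ξ R r1
  have k2 := hR₂ (ξ.comp (ρ y)) R r2
  rw [LinearMap.comp_apply] at k2
  rw [map_sub, ← k1, ← k2, ← int_ball_sub ν r3, ← int_ball_sub ν r4
    (fun z => ((ψ ((4 : F)⁻¹ * B (c z) z) : Circle) : ℂ) * (ξ.comp (ρ y)) (ρ z v)), sub_eq_zero]
  refine integral_congr_ae (Filter.Eventually.of_forall fun s => ?_)
  simp only [LinearMap.comp_apply]
  have e1 := LinearMap.congr_fun (hρ (s - x) x) v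
  have e2 := LinearMap.congr_fun (hρ y (s - y)) v
  rw [Module.End.mul_apply, LinearMap.smul_apply] at e1 e2
  rw [e1, e2, sub_add_cancel, add_sub_cancel, map_smul, map_smul, smul_eq_mul, smul_eq_mul,
    ← mul_assoc, ← mul_assoc, ← Circle.coe_mul, ← Circle.coe_mul, ← AddChar.map_add_eq_mul,
    ← AddChar.map_add_eq_mul]
  congr 3
  have e3 : B (c x) s + B x s = B (c y) s - B y s := by
    rw [← LinearMap.add_apply, ← map_add, hxy, map_sub, LinearMap.sub_apply]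
  have e4 : (4 : F)⁻¹ * B (c (s - x)) (s - x) + (2 : F)⁻¹ * B (s - x) x =
      (4 : F)⁻¹ * B (c s) s + (4 : F)⁻¹ * B (c x) x - (2 : F)⁻¹ * (B (c x) s + B x s) := by
    simp only [map_sub, LinearMap.sub_apply, hB, sub_zero]
    rw [hc s x, hBs s x]
    field_simp
    ring
  have e5 : (4 : F)⁻¹ * B (c (s - y)) (s - y) + (2 : F)⁻¹ * B y (s - y) =
      (4 : F)⁻¹ * B (c s) s + (4 : F)⁻¹ * B (c y) y - (2 : F)⁻¹ * (B (c y) s - B y s) := by
    simp only [map_sub, LinearMap.sub_apply, hB, sub_zero]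
    rw [hc s y]
    field_simp
    ring
  rw [e4, e5, e3, hq]

end one

end

end SpW.LemI
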