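import Pool.Agent.Work.MP_3615d2_al.WhitMain
import Pool.Agent.Work.MP_3615d2_al.Gauge
import Pool.Agent.Work.MP_3615d2_al.SchExt
import Pool.Agent.Work.MP_3615d2_al.BP

/-!
MP_3615d2_al, Theorem B: the strata `B|Y0 ≠ 0` do not contribute, for every `m`.

For `B` in `Alt` with `B|Y0 ≠ 0` let `q` be maximal with `B|⟨e_1, .., e_q⟩ = 0`.  A vector `x` of
`⟨e_1, .., e_q⟩` with `x_q ≠ 0` and `B(x, e_{q+1}) ≠ 0` gives a transvection
`1 + c B(., x) x` in `QU (2m) m`, with `ψ` of the sum of the entries `(i, i+1)` not equal to `1`.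
-/

open Matrix Filter Topology
open scoped TensorProduct

namespace SpW

section transv

variable {E : Type} [Field E] {N : ℕ}

theorem alt_dot_self (h2 : (2 : E) ≠ 0) (B : Alt N E) (x : Fin N → E) :
    (B.1 *ᵥ x) ⬝ᵥ x = 0 := by
  have h1 : (B.1 *ᵥ x) ⬝ᵥ x = - ((B.1 *ᵥ x) ⬝ᵥ x) := by
    conv_lhs => rw [dotProduct_comm, dotProduct_mulVec, ← mulVec_transpose, B.2.1, neg_mulVec,
      neg_dotProduct]
  have h3 : 2 * ((B.1 *ᵥ x) ⬝ᵥ x) = 0 := by linear_combination h1
  exact (mul_eq_zero.1 h3).resolve_left h2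

/-- The transvection `1 + c B(., x) x`. -/
def tv (h2 : (2 : E) ≠ 0) (c : E) (x : Fin N → E) (B : Alt N E) : GL (Fin N) E :=
  ro (c • x) (B.1 *ᵥ x) 1 (by
    rw [dotProduct_smul, alt_dot_self h2, smul_zero, add_zero, one_mul])

theorem tv_val (h2 : (2 : E) ≠ 0) (c : E) (x : Fin N → E) (B : Alt N E) :
    (tv h2 c x B : Matrix (Fin N) (Fin N) E) = 1 + c • vecMulVec x (B.1 *ᵥ x) := by
  unfold tv
  rw [ro_val, smul_vecMulVec]

theorem tv_inv_val (h2 : (2 : E) ≠ 0) (c : E) (x : Fin N → E) (B : Alt N E) :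
    (((tv h2 c x B)⁻¹ : GL (Fin N) E) : Matrix (Fin N) (Fin N) E) =
      1 + (-c) • vecMulVec x (B.1 *ᵥ x) := by
  unfold tv
  rw [ro_inv, smul_vecMulVec, one_smul, neg_smul, sub_eq_add_neg]

theorem tv_fix (h2 : (2 : E) ≠ 0) (c : E) (x : Fin N → E) (B : Alt N E) :
    tv h2 c x B • B = B := by
  apply Subtype.ext
  show (((tv h2 c x B)⁻¹ : GL (Fin N) E) : Matrix (Fin N) (Fin N) E).transpose * B.1 *
      (((tv h2 c x B)⁻¹ : GL (Fin N) E) : Matrix (Fin N) (Fin N) E) = B.1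
  rw [tv_inv_val]
  have h1 : (1 + (-c) • vecMulVec x (B.1 *ᵥ x)).transpose = 1 + (-c) • vecMulVec (B.1 *ᵥ x) x := by
    rw [transpose_add, transpose_one, transpose_smul, transpose_vecMulVec]
  have h3 : x ᵥ* B.1 = - (B.1 *ᵥ x) := by
    rw [← mulVec_transpose, B.2.1, neg_mulVec]
  have h4 : vecMulVec (B.1 *ᵥ x) x * B.1 = - vecMulVec (B.1 *ᵥ x) (B.1 *ᵥ x) := by
    rw [vecMulVec_mul, h3]
    ext i l
    simp [vecMulVec_apply]
  have h5 : B.1 * vecMulVec x (B.1 *ᵥ x) = vecMulVec (B.1 *ᵥ x) (B.1 *ᵥ x) := by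
    rw [mul_vecMulVec]
  have h6 : vecMulVec (B.1 *ᵥ x) (B.1 *ᵥ x) * vecMulVec x (B.1 *ᵥ x) = 0 := by
    rw [vecMulVec_mul_vecMulVec, alt_dot_self h2, zero_smul]
    ext i l
    simp [vecMulVec_apply]
  rw [h1, add_mul, one_mul, Matrix.smul_mul, h4, mul_add, mul_one, add_mul, Matrix.mul_smul, h5,
    smul_neg, neg_smul, neg_neg, Matrix.smul_mul, Matrix.mul_smul, h6, smul_zero, smul_zero,
    add_zero]
  abel

/-- `B` is not zero on the span of the first `k` basis vectors. -/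
def PN (k : ℕ) (B : Alt N E) : Prop := ∃ a b : Fin N, (a : ℕ) < k ∧ (b : ℕ) < k ∧ B.1 a b ≠ 0

theorem PN.mono {k l : ℕ} (h : k ≤ l) {B : Alt N E} (hB : PN k B) : PN l B := by
  obtain ⟨a, b, ha, hb, hab⟩ := hB
  exact ⟨a, b, ha.trans_le h, hb.trans_le h, hab⟩

/-- If `B` is zero on `⟨e_1, .., e_q⟩` and `x` is in it, `1 + z x ⊗ (B x)` is in `TU`. -/
theorem TU_tv {q k : ℕ} (hqk : q ≤ k) {B : Alt N E} (hB : ¬ PN q B) {x : Fin N → E}
    (hx : ∀ a : Fin N, q ≤ (a : ℕ) → x a = 0) (z : E) :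
    TU N k (1 + z • vecMulVec x (B.1 *ᵥ x)) ∧ ∀ b : Fin N, (b : ℕ) < q → (B.1 *ᵥ x) b = 0 := by
  have h1 : ∀ b : Fin N, (b : ℕ) < q → (B.1 *ᵥ x) b = 0 := by
    intro b hb
    show ∑ k, B.1 b k * x k = 0
    refine Finset.sum_eq_zero fun k _ => ?_
    by_cases hk : (k : ℕ) < q
    · have : B.1 b k = 0 := by
        by_contra h
        exact hB ⟨b, k, hb, hk, h⟩
      rw [this, zero_mul]
    · rw [hx k (not_lt.1 hk), mul_zero]
  refine ⟨?_, h1⟩
  intro a b hab
  rw [Matrix.add_apply, Matrix.smul_apply, vecMulVec_apply]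
  by_cases ha : (a : ℕ) < q
  · have hb : b ≤ a := by
      rcases hab with h | h
      · exact h
      · omega
    rw [h1 b (lt_of_le_of_lt (Fin.le_def.1 hb) ha), mul_zero, smul_zero, add_zero]
  · rw [hx a (not_lt.1 ha), zero_mul, smul_zero, add_zero]

/-- The value of `sdg` on the transvection. -/
theorem sdg_tv {q k : ℕ} (hq0 : 0 < q) (hqN : q < N) (hqk : q ≤ k) {B : Alt N E} (hB : ¬ PN q B)
    {x : Fin N → E} (hx : ∀ a : Fin N, q ≤ (a : ℕ) → x a = 0) (z : E) :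
    sdg k (1 + z • vecMulVec x (B.1 *ᵥ x)) =
      z * (x ⟨q - 1, by omega⟩ * (B.1 *ᵥ x) ⟨q, hqN⟩) := by
  obtain ⟨-, h1⟩ := TU_tv hqk hB hx z
  unfold sdg
  rw [Finset.sum_eq_single ⟨q - 1, by omega⟩]
  · rw [Finset.sum_eq_single ⟨q, hqN⟩]
    · rw [if_pos (by constructor <;> simp <;> omega), Matrix.add_apply, Matrix.smul_apply,
        vecMulVec_apply, Matrix.one_apply_ne, zero_add, smul_eq_mul]
      intro e
      have := congrArg Fin.val e
      simp at this
      omega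
    · intro l _ hl
      rw [if_neg]
      rintro ⟨h, -⟩
      apply hl
      apply Fin.ext
      simp at h ⊢
      omega
    · intro h
      exact absurd (Finset.mem_univ _) h
  · intro i _ hi
    refine Finset.sum_eq_zero fun l _ => ?_
    split_ifs with h
    · rw [Matrix.add_apply, Matrix.smul_apply, vecMulVec_apply, Matrix.one_apply_ne, zero_add]
      · by_cases hiq : (i : ℕ) < q
        · have hlq : (l : ℕ) < q := by
            have : (i : ℕ) ≠ q - 1 := fun e => hi (Fin.ext e)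
            omega
          rw [h1 l hlq, mul_zero, smul_zero]
        · rw [hx i (not_lt.1 hiq), zero_mul, smul_zero]
      · intro e
        rw [e] at h
        omega
    · rfl
  · intro h
    exact absurd (Finset.mem_univ _) h

end transv

section alt

variable {E : Type} [NontriviallyNormedField E] {m : ℕ}

theorem wsI_inl_val (i : Fin m) : ((sI m (Sum.inl i) : Fin (2 * m)) : ℕ) = i := by
  simp [sI]

theorem PN_iff (B : Alt (2 * m) E) : PN m B ↔ b11 B.1 ≠ 0 := by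
  constructor
  · rintro ⟨a, b, ha, hb, hab⟩ h0
    apply hab
    have h1 := congrFun (congrFun h0 ⟨a, ha⟩) ⟨b, hb⟩
    have ea : sI m (Sum.inl ⟨a, ha⟩) = a := Fin.ext (by rw [wsI_inl_val])
    have eb : sI m (Sum.inl ⟨b, hb⟩) = b := Fin.ext (by rw [wsI_inl_val])
    have h2 : b11 B.1 ⟨a, ha⟩ ⟨b, hb⟩ = B.1 a b := by
      show B.1 (sI m (Sum.inl ⟨a, ha⟩)) (sI m (Sum.inl ⟨b, hb⟩)) = B.1 a b
      rw [ea, eb]
    rw [← h2]
    exact h1
  · intro h
    by_contra hcon
    apply h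
    ext a b
    by_contra hab
    apply hcon
    refine ⟨sI m (Sum.inl a), sI m (Sum.inl b), ?_, ?_, hab⟩
    · rw [wsI_inl_val]; exact a.2
    · rw [wsI_inl_val]; exact b.2

/-- Elements of `QU (2m) m` are the `a y / 0 1` with `a` unitriangular. -/
theorem QU_pel (u : GL (Fin (2 * m)) E) (hu : u ∈ QU (2 * m) m E) :
    ∃ (a : GL (Fin m) E) (y : Matrix (Fin m) (Fin m) E), u = pel a 1 y ∧ a ∈ QU m (m - 1) E ∧
      sdg (m - 1) (u : Matrix (Fin (2 * m)) (Fin (2 * m)) E) =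
        sdg (m - 1) (a : Matrix (Fin m) (Fin m) E) := by
  have hlow : ∀ M : Matrix (Fin (2 * m)) (Fin (2 * m)) E, TU (2 * m) m M →
      b21 M = 0 ∧ b22 M = 1 ∧ TU m (m - 1) (b11 M) := by
    intro M hM
    have hr : ∀ i : Fin m, m ≤ ((sI m (Sum.inr i) : Fin (2 * m)) : ℕ) := by
      intro i
      simp [sI]
    refine ⟨?_, ?_, ?_⟩
    · ext i j
      show M (sI m (Sum.inr i)) (sI m (Sum.inl j)) = 0
      rw [hM _ _ (Or.inr (hr i)), Matrix.one_apply_ne]
      intro e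
      exact absurd ((sI m).injective e) (by simp)
    · ext i j
      show M (sI m (Sum.inr i)) (sI m (Sum.inr j)) = (1 : Matrix (Fin m) (Fin m) E) i j
      rw [hM _ _ (Or.inr (hr i))]
      by_cases hij : i = j
      · rw [hij, Matrix.one_apply_eq, Matrix.one_apply_eq]
      · rw [Matrix.one_apply_ne hij, Matrix.one_apply_ne]
        intro e
        exact hij (Sum.inr_injective ((sI m).injective e))
    · intro i l hil
      show M (sI m (Sum.inl i)) (sI m (Sum.inl l)) = (1 : Matrix (Fin m) (Fin m) E) i l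
      have hle : sI m (Sum.inl l) ≤ sI m (Sum.inl i) := by
        rw [Fin.le_def, wsI_inl_val, wsI_inl_val]
        rcases hil with h | h
        · exact Fin.le_def.1 h
        · have := i.2
          have := l.2
          omega
      rw [hM _ _ (Or.inl hle)]
      by_cases h : i = l
      · rw [h, Matrix.one_apply_eq, Matrix.one_apply_eq]
      · rw [Matrix.one_apply_ne h, Matrix.one_apply_ne]
        intro e
        exact h (Sum.inl_injective ((sI m).injective e))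
  obtain ⟨h1, h2, h3⟩ := hlow _ hu.1
  obtain ⟨h1', h2', h3'⟩ := hlow _ hu.2
  obtain ⟨a, d, y, rfl⟩ := eq_pel u h1 h1'
  have hd : d = 1 := by
    apply Units.ext
    rw [pel_val, b22_bm] at h2
    exact h2
  subst hd
  rw [pel_val, b11_bm] at h3
  rw [pel_inv, pel_val, b11_bm] at h3'
  refine ⟨a, y, rfl, ⟨h3, h3'⟩, ?_⟩
  -- the sums of the entries `(i, i+1)`
  unfold sdg
  have hre : ∀ f : Fin (2 * m) → E, ∑ i, f i = ∑ i : Fin m, f (sI m (Sum.inl i)) +
      ∑ i : Fin m, f (sI m (Sum.inr i)) := by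
    intro f
    rw [← (sI m).sum_comp, Fintype.sum_sum_type]
  rw [hre]
  have hz : ∑ i : Fin m, ∑ l : Fin (2 * m),
      (if ((sI m (Sum.inr i) : Fin (2 * m)) : ℕ) + 1 = (l : ℕ) ∧
        ((sI m (Sum.inr i) : Fin (2 * m)) : ℕ) < m - 1 then
        (pel a 1 y : Matrix (Fin (2 * m)) (Fin (2 * m)) E) (sI m (Sum.inr i)) l else 0) = 0 := by
    refine Finset.sum_eq_zero fun i _ => Finset.sum_eq_zero fun l _ => ?_
    rw [if_neg]
    rintro ⟨-, h⟩
    have : m ≤ ((sI m (Sum.inr i) : Fin (2 * m)) : ℕ) := by simp [sI]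
    omega
  rw [hz, add_zero]
  refine Finset.sum_congr rfl fun i _ => ?_
  rw [hre]
  have hz2 : ∑ l : Fin m, (if ((sI m (Sum.inl i) : Fin (2 * m)) : ℕ) + 1 =
        ((sI m (Sum.inr l) : Fin (2 * m)) : ℕ) ∧
        ((sI m (Sum.inl i) : Fin (2 * m)) : ℕ) < m - 1 then
        (pel a 1 y : Matrix (Fin (2 * m)) (Fin (2 * m)) E) (sI m (Sum.inl i)) (sI m (Sum.inr l))
          else 0) = 0 := by
    refine Finset.sum_eq_zero fun l _ => ?_
    rw [if_neg]
    rintro ⟨h, h'⟩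
    have : m ≤ ((sI m (Sum.inr l) : Fin (2 * m)) : ℕ) := by simp [sI]
    omega
  rw [hz2, add_zero]
  refine Finset.sum_congr rfl fun l _ => ?_
  rw [wsI_inl_val, wsI_inl_val]
  congr 1
  show (pel a 1 y : Matrix (Fin (2 * m)) (Fin (2 * m)) E) (sI m (Sum.inl i)) (sI m (Sum.inl l)) = _
  rw [pel_val]
  exact congrFun (congrFun (b11_bm (a : Matrix (Fin m) (Fin m) E) y 0 _) i) l

theorem b11_smul_iff (u : GL (Fin (2 * m)) E) (hu : u ∈ QU (2 * m) m E) (B : Alt (2 * m) E) :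
    b11 (u • B).1 = 0 ↔ b11 B.1 = 0 := by
  have key : ∀ u ∈ QU (2 * m) m E, ∀ B : Alt (2 * m) E, b11 B.1 = 0 → b11 (u • B).1 = 0 := by
    intro u hu B hB
    obtain ⟨a, y, h1, -⟩ := QU_pel u⁻¹ ((QU (2 * m) m E).inv_mem hu)
    have h2 : u = (pel a 1 y)⁻¹ := by rw [← h1, inv_inv]
    rw [h2, (pel_inv_smul a 1 y B).1, hB, mul_zero, zero_mul]
  constructor
  · intro h
    have h1 := key u⁻¹ ((QU (2 * m) m E).inv_mem hu) (u • B) h
    rwa [inv_smul_smul] at h1
  · exact key u hu B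

/-- The open set `B|Y0 ≠ 0`. -/
abbrev OA (m : ℕ) (E : Type) [NontriviallyNormedField E] : Type :=
  {B : Alt (2 * m) E // b11 B.1 ≠ 0}

instance oaAction : MulAction (QU (2 * m) m E) (OA m E) where
  smul u B := ⟨(u : GL (Fin (2 * m)) E) • B.1, fun h => B.2 ((b11_smul_iff u.1 u.2 B.1).1 h)⟩
  one_smul B := Subtype.ext (one_smul (GL (Fin (2 * m)) E) B.1)
  mul_smul a b B := Subtype.ext (mul_smul (a : GL (Fin (2 * m)) E) (b : GL (Fin (2 * m)) E) B.1)

theorem oa_smul_val (u : QU (2 * m) m E) (B : OA m E) :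
    (u • B).1 = (u : GL (Fin (2 * m)) E) • B.1 := rfl

instance oaCont : ContinuousSMul (QU (2 * m) m E) (OA m E) := by
  constructor
  refine Continuous.subtype_mk ?_ _
  exact (continuous_subtype_val.comp continuous_fst).smul
    (continuous_subtype_val.comp continuous_snd)

theorem isOpen_PN (k : ℕ) : IsOpen {B : Alt (2 * m) E | PN k B} := by
  have : {B : Alt (2 * m) E | PN k B} = ⋃ (a : Fin (2 * m)) (b : Fin (2 * m))
      (_ : (a : ℕ) < k ∧ (b : ℕ) < k), {B : Alt (2 * m) E | B.1 a b ≠ 0} := by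
    ext B
    simp only [Set.mem_iUnion]
    constructor
    · rintro ⟨a, b, ha, hb, hab⟩
      exact ⟨a, b, ⟨ha, hb⟩, hab⟩
    · rintro ⟨a, b, ⟨ha, hb⟩, hab⟩
      exact ⟨a, b, ha, hb, hab⟩
  rw [this]
  refine isOpen_iUnion fun a => isOpen_iUnion fun b => isOpen_iUnion fun _ => ?_
  exact isOpen_ne_fun ((continuous_subtype_val (p := fun B : Matrix (Fin (2 * m)) (Fin (2 * m)) E =>
    B.transpose = -B ∧ IsUnit B.det)).matrix_elem a b) continuous_const

theorem isOpen_OA : IsOpen {B : Alt (2 * m) E | b11 B.1 ≠ 0} := by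
  have : {B : Alt (2 * m) E | b11 B.1 ≠ 0} = {B : Alt (2 * m) E | PN m B} := by
    ext B
    exact (PN_iff B).symm
  rw [this]
  exact isOpen_PN m

/-- Number of `k ≤ m` with `B|⟨e_1, .., e_k⟩ ≠ 0`. -/
noncomputable def rO (B : OA m E) : ℕ := by
  classical
  exact ((Finset.range (m + 1)).filter fun k => PN k B.1).card

theorem rO_open (k : ℕ) : IsOpen {B : OA m E | k ≤ rO B} := by
  classical
  rw [isOpen_iff_mem_nhds]
  intro B hB
  have h1 : ∀ᶠ B' in 𝓝 B, ∀ i ∈ (Finset.range (m + 1)).filter fun k => PN k B.1, PN i B'.1 := by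
    rw [Finset.eventually_all]
    intro i hi
    have hi' := (Finset.mem_filter.1 hi).2
    exact ((isOpen_PN i).preimage continuous_subtype_val).mem_nhds hi'
  filter_upwards [h1] with B' hB'
  refine le_trans (show k ≤ rO B from hB) ?_
  unfold rO
  apply Finset.card_le_card
  intro i hi
  exact Finset.mem_filter.2 ⟨(Finset.mem_filter.1 hi).1, hB' i hi⟩

/-- If `B` has at most as many `k` as `B₀` then `B` vanishes where `B₀` does. -/
theorem rO_le {B B₀ : OA m E} (h : rO B ≤ rO B₀) {q : ℕ} (hq : q ≤ m) (hB₀ : ¬ PN q B₀.1) :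
    ¬ PN q B.1 := by
  classical
  intro hB
  unfold rO at h
  have h1 : (Finset.range (m + 1)).filter (fun k => PN k B₀.1) ⊆ Finset.Ioc q m := by
    intro k hk
    rw [Finset.mem_filter, Finset.mem_range] at hk
    rw [Finset.mem_Ioc]
    refine ⟨?_, by omega⟩
    by_contra hkq
    exact hB₀ (hk.2.mono (not_lt.1 hkq))
  have h2 : Finset.Icc q m ⊆ (Finset.range (m + 1)).filter (fun k => PN k B.1) := by
    intro k hk
    rw [Finset.mem_Icc] at hk
    rw [Finset.mem_filter, Finset.mem_range]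
    exact ⟨by omega, hB.mono hk.1⟩
  have h3 := Finset.card_le_card h1
  have h4 := Finset.card_le_card h2
  rw [Nat.card_Ioc] at h3
  rw [Nat.card_Icc] at h4
  omega

/-- The good index and vector. -/
theorem exists_good (h2 : (2 : E) ≠ 0) (B : OA m E) : ∃ (q : ℕ) (x : Fin (2 * m) → E), 0 < q ∧
    ∃ hq : q < m, ¬ PN q B.1 ∧ (∀ a : Fin (2 * m), q ≤ (a : ℕ) → x a = 0) ∧
      x ⟨q - 1, by omega⟩ = 1 ∧ (B.1.1 *ᵥ x) ⟨q, by omega⟩ ≠ 0 := by
  classical
  have hB : PN m B.1 := (PN_iff B.1).2 B.2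
  have hex : ∃ k, PN k B.1 := ⟨m, hB⟩
  set k := Nat.find hex with hk
  have hk1 : PN k B.1 := Nat.find_spec hex
  have hkm : k ≤ m := Nat.find_min' hex hB
  have hk0 : k ≠ 0 := by
    intro h
    obtain ⟨a, b, ha, -⟩ := hk1
    omega
  obtain ⟨q, hq⟩ := Nat.exists_eq_succ_of_ne_zero hk0
  have hnq : ¬ PN q B.1 := Nat.find_min hex (by omega)
  have hskew : ∀ a b, B.1.1 b a = - B.1.1 a b := fun a b => congrFun (congrFun B.1.2.1 a) b
  have hself : ∀ a, B.1.1 a a = 0 := by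
    intro a
    have h3 : 2 * B.1.1 a a = 0 := by linear_combination hskew a a
    exact (mul_eq_zero.1 h3).resolve_left h2
  have hqm : q < m := by omega
  -- `p < q` with `B(e_q, e_p) ≠ 0`
  obtain ⟨p, hpq, hp⟩ : ∃ p : Fin (2 * m), (p : ℕ) < q ∧ B.1.1 ⟨q, by omega⟩ p ≠ 0 := by
    obtain ⟨a, b, ha, hb, hab⟩ := hk1
    rw [hq] at ha hb
    by_cases haq : (a : ℕ) < q
    · have hbq : ¬ (b : ℕ) < q := fun h => hnq ⟨a, b, haq, h, hab⟩
      have eb : b = ⟨q, by omega⟩ := Fin.ext (by simp only; omega)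
      refine ⟨a, haq, ?_⟩
      rw [← eb, hskew a b]
      exact neg_ne_zero.2 hab
    · have ea : a = ⟨q, by omega⟩ := Fin.ext (by simp only; omega)
      refine ⟨b, ?_, ?_⟩
      · by_contra hbq
        have eb : b = ⟨q, by omega⟩ := Fin.ext (by simp only; omega)
        rw [ea, eb] at hab
        exact hab (hself _)
      · rw [← ea]
        exact hab
  have hq0 : 0 < q := by omega
  by_cases h1 : B.1.1 ⟨q, by omega⟩ ⟨q - 1, by omega⟩ = 0
  · refine ⟨q, Pi.single p 1 + Pi.single ⟨q - 1, by omega⟩ 1, hq0, hqm, hnq, ?_, ?_, ?_⟩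
    · intro a ha
      rw [Pi.add_apply, Pi.single_eq_of_ne, Pi.single_eq_of_ne, add_zero]
      · intro e
        rw [e] at ha
        simp only at ha
        omega
      · intro e
        rw [e] at ha
        omega
    · rw [Pi.add_apply, Pi.single_eq_same, Pi.single_eq_of_ne, zero_add]
      intro e
      rw [← e] at hp
      exact hp h1
    · rw [mulVec_add, Pi.add_apply, mulVec_single_one, mulVec_single_one]
      show B.1.1 ⟨q, _⟩ p + B.1.1 ⟨q, _⟩ ⟨q - 1, _⟩ ≠ 0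
      rw [h1, add_zero]
      exact hp
  · refine ⟨q, Pi.single ⟨q - 1, by omega⟩ 1, hq0, hqm, hnq, ?_, ?_, ?_⟩
    · intro a ha
      rw [Pi.single_eq_of_ne]
      intro e
      rw [e] at ha
      simp only at ha
      omega
    · rw [Pi.single_eq_same]
    · rw [mulVec_single_one]
      exact h1

end alt

end SpW
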