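import Pool.Agent.Work.MP_3615d2_al.HeisEigen

/-!
MP_3615d2_al: a smooth representation of a vector group over a local field, all of whose twisted
coinvariants are zero, is zero.
-/

open scoped Matrix
open Pool.Agent.SpehH

namespace SpW

section spec

variable {E : Type} [NontriviallyNormedField E] {S : Type} [AddCommGroup S] [Module ℂ S]
  {κ : Type} [Fintype κ]

/-- The span of the `π a w - θ_l(a) w`. -/
def thK (ψ : AddChar E Circle) (π : (κ → E) → Module.End ℂ S) (l : κ → E) : Submodule ℂ S :=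
  Submodule.span ℂ {x | ∃ (a : κ → E) (w : S), x = π a w - ((ψ (l ⬝ᵥ a) : Circle) : ℂ) • w}

/-- The span of the `π a w - θ_l(a) w`, `‖a‖ ≤ ‖t‖`. -/
def thKt (ψ : AddChar E Circle) (π : (κ → E) → Module.End ℂ S) (l : κ → E) (t : E) :
    Submodule ℂ S :=
  Submodule.span ℂ {x | ∃ (a : κ → E) (w : S), ‖a‖ ≤ ‖t‖ ∧
    x = π a w - ((ψ (l ⬝ᵥ a) : Circle) : ℂ) • w}

theorem thKt_mono {ψ : AddChar E Circle} {π : (κ → E) → Module.End ℂ S} {l : κ → E} {t t' : E}
    (h : ‖t‖ ≤ ‖t'‖) : thKt ψ π l t ≤ thKt ψ π l t' := by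
  apply Submodule.span_mono
  rintro x ⟨a, w, ha, rfl⟩
  exact ⟨a, w, ha.trans h, rfl⟩

theorem exists_large (r : ℝ) : ∃ t : E, t ≠ 0 ∧ r ≤ ‖t‖ := by
  obtain ⟨t, ht⟩ := NormedField.exists_lt_norm E (max r 0)
  refine ⟨t, ?_, (le_max_left _ _).trans ht.le⟩
  rw [← norm_pos_iff]
  exact lt_of_le_of_lt (le_max_right _ _) ht

theorem mem_thKt_of_mem {ψ : AddChar E Circle} {π : (κ → E) → Module.End ℂ S} {l : κ → E} {v : S}
    (hv : v ∈ thK ψ π l) : ∃ t : E, t ≠ 0 ∧ v ∈ thKt ψ π l t := by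
  induction hv using Submodule.span_induction with
  | mem x hx =>
    obtain ⟨a, w, rfl⟩ := hx
    obtain ⟨t, ht, hat⟩ := exists_large (E := E) ‖a‖
    exact ⟨t, ht, Submodule.subset_span ⟨a, w, hat, rfl⟩⟩
  | zero => exact ⟨1, one_ne_zero, Submodule.zero_mem _⟩
  | add x y _ _ hx hy =>
    obtain ⟨t, ht, hxt⟩ := hx
    obtain ⟨t', ht', hyt⟩ := hy
    rcases le_total ‖t‖ ‖t'‖ with h | h
    · exact ⟨t', ht', Submodule.add_mem _ (thKt_mono h hxt) hyt⟩
    · exact ⟨t, ht, Submodule.add_mem _ hxt (thKt_mono h hyt)⟩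
  | smul c x _ hx =>
    obtain ⟨t, ht, hxt⟩ := hx
    exact ⟨t, ht, Submodule.smul_mem _ _ hxt⟩

variable [IsUltrametricDist E] [ProperSpace E]

/-- An eigenvector of the lattice `‖a‖ ≤ ‖t‖` which is in the twisted kernel is zero. -/
theorem eigen_zero {ψ : AddChar E Circle} (hψ : Continuous ψ)
    {π : (κ → E) → Module.End ℂ S} (hadd : ∀ a a', π (a + a') = π a * π a')
    (hsm : ∀ v, ∃ s : E, s ≠ 0 ∧ ∀ a, ‖a‖ ≤ ‖s‖ → π a v = v) (l : κ → E) (t : E) (ht : t ≠ 0)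
    {x : S} (hx : x ∈ thKt ψ π l t)
    (heig : ∀ a, ‖a‖ ≤ ‖t‖ → π a x = ((ψ (l ⬝ᵥ a) : Circle) : ℂ) • x) : x = 0 := by
  classical
  have ht' := norm_pos_iff.2 ht
  set M := bal E κ ‖t‖ ht'.le with hM
  -- the operators
  have hsub : ∀ r : ℝ, 0 < r → ∃ N : AddSubgroup M, (∀ a : M, a ∈ N ↔ ‖(a : κ → E)‖ ≤ r) ∧
      Finite (M ⧸ N) := by
    intro r hr
    refine ⟨(bal E κ r hr.le).addSubgroupOf M, fun a => by
      rw [AddSubgroup.mem_addSubgroupOf]; exact Iff.rfl, ?_⟩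
    exact finite_bal _ _ hr fun a ha => by
      rw [AddSubgroup.mem_addSubgroupOf]; exact ha
  choose! N hN hfin using hsub
  have hft : ∀ r : ℝ, 0 < r → Fintype (M ⧸ N r) := fun r hr => by
    haveI := hfin r hr
    exact Fintype.ofFinite _
  have key : ∃ r₀ : ℝ, 0 < r₀ ∧ ∀ r (hr : 0 < r), r ≤ r₀ → ∑ q ∈ (hft r hr).elems,
      ((ψ (-(l ⬝ᵥ ((q.out : M) : κ → E))) : Circle) : ℂ) • π ((q.out : M) : κ → E) x = 0 := by
    clear heig
    induction hx using Submodule.span_induction with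
    | mem x hx =>
      obtain ⟨a, w, ha, rfl⟩ := hx
      obtain ⟨s, hs, hsw⟩ := hsm w
      obtain ⟨δ, hδ, hδ'⟩ := exists_ball_eq_one hψ
      have hl : 0 < ‖l‖ + 1 := by positivity
      refine ⟨min ‖s‖ (δ / (2 * (‖l‖ + 1))), by
        refine lt_min (norm_pos_iff.2 hs) (by positivity), ?_⟩
      intro r hr hr₀
      letI := hft r hr
      have h1 : ∀ b : M, ∀ n ∈ N r, ((ψ (-(l ⬝ᵥ ((b + n : M) : κ → E))) : Circle) : ℂ) •
          π ((b + n : M) : κ → E) w = ((ψ (-(l ⬝ᵥ (b : κ → E))) : Circle) : ℂ) •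
          π (b : κ → E) w := by
        intro b n hn
        have hn' := (hN r hr n).1 hn
        have e1 : π (n : κ → E) w = w := hsw _ (hn'.trans (hr₀.trans (min_le_left _ _)))
        have e2 : ψ (l ⬝ᵥ (n : κ → E)) = 1 := by
          apply hδ'
          have e3 : ‖l ⬝ᵥ (n : κ → E)‖ ≤ ‖l‖ * ‖(n : κ → E)‖ := by
            refine IsUltrametricDist.norm_sum_le_of_forall_le_of_nonneg (by positivity) fun i _ => ?_
            rw [norm_mul]
            exact mul_le_mul (norm_le_pi_norm l i) (norm_le_pi_norm _ i) (norm_nonneg _)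
              (norm_nonneg _)
          have e4 : ‖(n : κ → E)‖ ≤ δ / (2 * (‖l‖ + 1)) := hn'.trans (hr₀.trans (min_le_right _ _))
          have e5 : ‖l‖ * ‖(n : κ → E)‖ ≤ (‖l‖ + 1) * (δ / (2 * (‖l‖ + 1))) :=
            mul_le_mul (by linarith) e4 (norm_nonneg _) hl.le
          have e6 : (‖l‖ + 1) * (δ / (2 * (‖l‖ + 1))) = δ / 2 := by
            field_simp
          linarith
        rw [AddSubgroup.coe_add, dotProduct_add, hadd, Module.End.mul_apply, e1, neg_add,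
          AddChar.map_add_eq_mul, AddChar.map_neg_eq_inv ψ (l ⬝ᵥ (n : κ → E)), e2, inv_one, mul_one]
      have h2 := sumQ_shift (N r) (f := fun b : M => ((ψ (-(l ⬝ᵥ (b : κ → E))) : Circle) : ℂ) •
        π (b : κ → E) w) h1 ⟨a, ha⟩
      have h3 : ∑ q ∈ (hft r hr).elems, ((ψ (-(l ⬝ᵥ ((q.out : M) : κ → E))) : Circle) : ℂ) •
          π ((q.out : M) : κ → E) (π a w) =
          ((ψ (l ⬝ᵥ a) : Circle) : ℂ) • sumQ (N r) (fun b : M =>
            ((ψ (-(l ⬝ᵥ (((⟨a, ha⟩ : M) + b : M) : κ → E))) : Circle) : ℂ) •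
              π (((⟨a, ha⟩ : M) + b : M) : κ → E) w) := by
        unfold sumQ
        rw [Finset.smul_sum]
        refine Finset.sum_congr rfl fun q _ => ?_
        have e7 : (((⟨a, ha⟩ : M) + q.out : M) : κ → E) = ((q.out : M) : κ → E) + a := by
          rw [AddSubgroup.coe_add, add_comm]
        show _ = ((ψ (l ⬝ᵥ a) : Circle) : ℂ) •
          (((ψ (-(l ⬝ᵥ (((⟨a, ha⟩ : M) + q.out : M) : κ → E))) : Circle) : ℂ) •
            π (((⟨a, ha⟩ : M) + q.out : M) : κ → E) w)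
        rw [e7, hadd, Module.End.mul_apply, dotProduct_add, neg_add,
          AddChar.map_add_eq_mul, smul_smul, AddChar.map_neg_eq_inv ψ (l ⬝ᵥ a)]
        congr 1
        push_cast
        rw [mul_comm (((ψ (-(l ⬝ᵥ ((q.out : M) : κ → E))) : Circle) : ℂ)), mul_inv_cancel_left₀]
        exact Circle.coe_ne_zero _
      have h4 : ∑ q ∈ (hft r hr).elems, ((ψ (-(l ⬝ᵥ ((q.out : M) : κ → E))) : Circle) : ℂ) •
          π ((q.out : M) : κ → E) w = sumQ (N r) (fun b : M =>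
            ((ψ (-(l ⬝ᵥ (b : κ → E))) : Circle) : ℂ) • π (b : κ → E) w) := rfl
      simp only [map_sub, map_smul, smul_sub, Finset.sum_sub_distrib]
      rw [h3, h2, ← h4, Finset.smul_sum]
      rw [sub_eq_zero]
      refine Finset.sum_congr rfl fun q _ => ?_
      rw [smul_comm]
    | zero => exact ⟨1, one_pos, fun r hr _ => by simp⟩
    | add x y _ _ hx hy =>
      obtain ⟨r₁, h₁, hx⟩ := hx
      obtain ⟨r₂, h₂, hy⟩ := hy
      refine ⟨min r₁ r₂, lt_min h₁ h₂, fun r hr hr₀ => ?_⟩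
      simp only [map_add, smul_add, Finset.sum_add_distrib]
      rw [hx r hr (hr₀.trans (min_le_left _ _)), hy r hr (hr₀.trans (min_le_right _ _)), add_zero]
    | smul c x _ hx =>
      obtain ⟨r₁, h₁, hx⟩ := hx
      refine ⟨r₁, h₁, fun r hr hr₀ => ?_⟩
      have h2 : ∀ q ∈ (hft r hr).elems, ((ψ (-(l ⬝ᵥ ((q.out : M) : κ → E))) : Circle) : ℂ) •
          π ((q.out : M) : κ → E) (c • x) = c • (((ψ (-(l ⬝ᵥ ((q.out : M) : κ → E))) : Circle) : ℂ) •
          π ((q.out : M) : κ → E) x) := by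
        intro q _
        rw [map_smul, smul_comm]
      rw [Finset.sum_congr rfl h2, ← Finset.smul_sum, hx r hr hr₀, smul_zero]
  obtain ⟨r₀, hr₀, hkey⟩ := key
  have h1 := hkey r₀ hr₀ le_rfl
  have h2 : ∀ q ∈ (hft r₀ hr₀).elems, ((ψ (-(l ⬝ᵥ ((q.out : M) : κ → E))) : Circle) : ℂ) •
      π ((q.out : M) : κ → E) x = x := by
    intro q _
    rw [heig _ (q.out : M).2, smul_smul, AddChar.map_neg_eq_inv]
    push_cast
    rw [inv_mul_cancel₀ (Circle.coe_ne_zero _), one_smul]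
  rw [Finset.sum_congr rfl h2, Finset.sum_const] at h1
  have h3 : (hft r₀ hr₀).elems.card ≠ 0 := by
    letI := hft r₀ hr₀
    exact Fintype.card_ne_zero
  have h4 : ((hft r₀ hr₀).elems.card : ℂ) • x = 0 := by
    rw [Nat.cast_smul_eq_nsmul]
    exact h1
  rcases smul_eq_zero.1 h4 with h | h
  · exact absurd (Nat.cast_eq_zero.1 h) h3
  · exact h

theorem thKt_stable {ψ : AddChar E Circle} {π : (κ → E) → Module.End ℂ S}
    (hadd : ∀ a a', π (a + a') = π a * π a') (l : κ → E) (t : E) (b : κ → E) {x : S}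
    (hx : x ∈ thKt ψ π l t) : π b x ∈ thKt ψ π l t := by
  induction hx using Submodule.span_induction with
  | mem x hx =>
    obtain ⟨a, w, ha, rfl⟩ := hx
    apply Submodule.subset_span
    refine ⟨a, π b w, ha, ?_⟩
    rw [map_sub, map_smul, ← Module.End.mul_apply, ← hadd, add_comm b a, hadd,
      Module.End.mul_apply]
  | zero => rw [map_zero]; exact Submodule.zero_mem _
  | add x y _ _ hx hy => rw [map_add]; exact Submodule.add_mem _ hx hy
  | smul c x _ hx => rw [map_smul]; exact Submodule.smul_mem _ _ hx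

theorem exists_theta {ψ : AddChar E Circle} (hψ : Continuous ψ) (hψ1 : ψ ≠ 1)
    {π : (κ → E) → Module.End ℂ S} (h0 : π 0 = 1) (hadd : ∀ a a', π (a + a') = π a * π a')
    (hsm : ∀ v, ∃ s : E, s ≠ 0 ∧ ∀ a, ‖a‖ ≤ ‖s‖ → π a v = v)
    (hall : ∀ l : κ → E, thK ψ π l = ⊤) (v : S) : v = 0 := by
  obtain ⟨c, hc⟩ := exists_cond hψ hψ1
  obtain ⟨s, hs, hsv⟩ := hsm v
  have hs' := norm_pos_iff.2 hs
  have hc' := norm_pos_iff.2 hc.1
  have hcp : IsCompact (Metric.closedBall (0 : κ → E) (‖c‖ / ‖s‖)) := isCompact_closedBall _ _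
  obtain ⟨t, ht, htv⟩ : ∃ t : E, t ≠ 0 ∧ ∀ l ∈ Metric.closedBall (0 : κ → E) (‖c‖ / ‖s‖),
      v ∈ thKt ψ π l t := by
    refine hcp.induction_on (p := fun A => ∃ t : E, t ≠ 0 ∧ ∀ l ∈ A, v ∈ thKt ψ π l t) ?_ ?_ ?_ ?_
    · exact ⟨1, one_ne_zero, fun l hl => absurd hl (Set.notMem_empty l)⟩
    · rintro A B hAB ⟨t, ht, h⟩
      exact ⟨t, ht, fun l hl => h l (hAB hl)⟩
    · rintro A B ⟨t, ht, h⟩ ⟨t', ht', h'⟩
      rcases le_total ‖t‖ ‖t'‖ with hle | hle
      · refine ⟨t', ht', ?_⟩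
        rintro l (hl | hl)
        · exact thKt_mono hle (h l hl)
        · exact h' l hl
      · refine ⟨t, ht, ?_⟩
        rintro l (hl | hl)
        · exact h l hl
        · exact thKt_mono hle (h' l hl)
    · intro l _
      have hv : v ∈ thK ψ π l := by rw [hall l]; trivial
      obtain ⟨t, ht, htv⟩ := mem_thKt_of_mem hv
      have ht' := norm_pos_iff.2 ht
      refine ⟨Metric.ball l (‖c‖ / ‖t‖),
        mem_nhdsWithin_of_mem_nhds (Metric.ball_mem_nhds _ (by positivity)), t, ht, ?_⟩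
      intro l' hl'
      have hle : ‖l' - l‖ * ‖t‖ ≤ ‖c‖ := by
        rw [Metric.mem_ball, dist_eq_norm, lt_div_iff₀ ht'] at hl'
        exact hl'.le
      have h1 := (cond_iff_pi hc ht (l' - l)).2 hle
      have h2 : thKt ψ π l t ≤ thKt ψ π l' t := by
        apply Submodule.span_mono
        rintro x ⟨a, w, ha, rfl⟩
        refine ⟨a, w, ha, ?_⟩
        have h3 := h1 a ha
        rw [sub_dotProduct, sub_eq_add_neg, AddChar.map_add_eq_mul, AddChar.map_neg_eq_inv] at h3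
        have h4 : ψ (l' ⬝ᵥ a) = ψ (l ⬝ᵥ a) := by
          rw [mul_inv_eq_one] at h3
          exact h3
        rw [h4]
      exact h2 htv
  have hmain := exists_eigen hψ hc h0 hadd hs ht hsv
  have hle : Submodule.span ℂ {x | x ∈ Submodule.span ℂ {z | ∃ a, ‖a‖ ≤ ‖t‖ ∧ z = π a v} ∧
      ∃ l : κ → E, ‖l‖ * ‖s‖ ≤ ‖c‖ ∧ ∀ a, ‖a‖ ≤ ‖t‖ →
        π a x = ((ψ (l ⬝ᵥ a) : Circle) : ℂ) • x} ≤ ⊥ := by
    apply Submodule.span_le.2
    rintro x ⟨hx, l, hl, heig⟩
    have hl' : l ∈ Metric.closedBall (0 : κ → E) (‖c‖ / ‖s‖) := by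
      rw [mem_closedBall_zero_iff, le_div_iff₀ hs']
      exact hl
    have hxK : x ∈ thKt ψ π l t := by
      have : Submodule.span ℂ {z | ∃ a, ‖a‖ ≤ ‖t‖ ∧ z = π a v} ≤ thKt ψ π l t := by
        apply Submodule.span_le.2
        rintro z ⟨a, _, rfl⟩
        exact thKt_stable hadd l t a (htv l hl')
      exact this hx
    exact eigen_zero hψ hadd hsm l t ht hxK heig
  exact (Submodule.mem_bot ℂ).1 (hle hmain)

end spec

end SpW
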