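import Pool.Agent.Work.MP_3615d2_al.WhitGrp
import Pool.Agent.Work.MP_3615d2_al.WhitSpec

/-!
MP_3615d2_al: cuspidal representations are generic: `K π ψ (n-1) ≠ ⊤`.
-/

open Matrix Filter Topology Pool.Agent.SpehH

namespace SpW

section whit

variable {E : Type} [NontriviallyNormedField E] {n : ℕ} {V : Type} [AddCommGroup V] [Module ℂ V]

/-- The twisted kernel of the group `QU n j`. -/
def KW (π : GL (Fin n) E →* Module.End ℂ V) (ψ : AddChar E Circle) (j : ℕ) : Submodule ℂ V :=
  Submodule.span ℂ {x | ∃ u ∈ QU n j E, ∃ v, x = π u v -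
    ((ψ (sdg j (u : Matrix (Fin n) (Fin n) E)) : Circle) : ℂ) • v}

theorem KW_conj (π : GL (Fin n) E →* Module.End ℂ V) (ψ : AddChar E Circle) (j : ℕ)
    (g : GL (Fin n) E) (hg : NB n j (g : Matrix (Fin n) (Fin n) E))
    (hg' : NB n j ((g⁻¹ : GL (Fin n) E) : Matrix (Fin n) (Fin n) E)) {x : V}
    (hx : x ∈ KW π ψ j) : π g x ∈ KW π ψ j := by
  induction hx using Submodule.span_induction with
  | mem x hx =>
    obtain ⟨u, hu, v, rfl⟩ := hx
    apply Submodule.subset_span
    have hgg : (g : Matrix (Fin n) (Fin n) E) * ((g⁻¹ : GL (Fin n) E) : Matrix (Fin n) (Fin n) E) =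
        1 := by rw [← Units.val_mul, mul_inv_cancel, Units.val_one]
    have h1 := hg.conj hg' hgg hu.1
    have h2 := hg.conj hg' hgg hu.2
    refine ⟨g * u * g⁻¹, ⟨?_, ?_⟩, π g v, ?_⟩
    · rw [Units.val_mul, Units.val_mul]
      exact h1.1
    · have : (g * u * g⁻¹)⁻¹ = g * u⁻¹ * g⁻¹ := by group
      rw [this, Units.val_mul, Units.val_mul]
      exact h2.1
    · have h3 : sdg j ((g * u * g⁻¹ : GL (Fin n) E) : Matrix (Fin n) (Fin n) E) =
          sdg j (u : Matrix (Fin n) (Fin n) E) := by
        rw [Units.val_mul, Units.val_mul]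
        exact h1.2
      rw [h3, map_sub, map_smul, ← Module.End.mul_apply, ← Module.End.mul_apply, ← map_mul,
        ← map_mul]
      congr 3
      group
  | zero => rw [map_zero]; exact Submodule.zero_mem _
  | add x y _ _ hx hy => rw [map_add]; exact Submodule.add_mem _ hx hy
  | smul c x _ hx => rw [map_smul]; exact Submodule.smul_mem _ _ hx

/-- Extension by zero of a row to the indices `≤ j`. -/
def ex (j : Fin n) (a : {l : Fin n // j < l} → E) : Fin n → E :=
  fun l => if h : j < l then a ⟨l, h⟩ else 0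

theorem ex_of_le (j : Fin n) (a : {l : Fin n // j < l} → E) {l : Fin n} (h : l ≤ j) :
    ex j a l = 0 := by
  unfold ex
  rw [dif_neg (not_lt.2 h)]

theorem ex_add (j : Fin n) (a b : {l : Fin n // j < l} → E) : ex j (a + b) = ex j a + ex j b := by
  funext l
  unfold ex
  by_cases h : j < l
  · simp [h]
  · simp [h]

theorem ex_zero (j : Fin n) : ex j (0 : {l : Fin n // j < l} → E) = 0 := by
  funext l
  unfold ex
  split_ifs <;> rfl

theorem ex_dot (j : Fin n) (a b : {l : Fin n // j < l} → E) : ex j a ⬝ᵥ ex j b = a ⬝ᵥ b := by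
  unfold dotProduct
  have h1 : ∀ l : Fin n, l ∉ Set.range (Subtype.val : {l : Fin n // j < l} → Fin n) →
      ex j a l * ex j b l = 0 := by
    intro l hl
    have : ¬ j < l := fun h => hl ⟨⟨l, h⟩, rfl⟩
    rw [ex_of_le j a (not_lt.1 this), zero_mul]
  symm
  refine Finset.sum_of_injOn (Subtype.val : {l : Fin n // j < l} → Fin n)
    Subtype.val_injective.injOn (fun _ _ => Finset.mem_coe.2 (Finset.mem_univ _)) ?_ ?_
  · intro l _ hl
    apply h1
    rintro ⟨k, hk⟩
    exact hl ⟨k, Finset.mem_coe.2 (Finset.mem_univ _), hk⟩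
  · intro k _
    unfold ex
    rw [dif_pos k.2, dif_pos k.2]

theorem ex_dot_single (j : Fin n) (a : {l : Fin n // j < l} → E) :
    ex j a ⬝ᵥ Pi.single j (1 : E) = 0 := by
  rw [dotProduct_single, ex_of_le j a le_rfl, zero_mul]

/-- The element `1 + e_j ⊗ a`. -/
def he (j : Fin n) (a : {l : Fin n // j < l} → E) : GL (Fin n) E :=
  ro (Pi.single j 1) (ex j a) 1 (by rw [ex_dot_single, add_zero, one_mul])

theorem he_val (j : Fin n) (a : {l : Fin n // j < l} → E) :
    (he j a : Matrix (Fin n) (Fin n) E) = 1 + vecMulVec (Pi.single j 1) (ex j a) := rfl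

theorem he_inv_val (j : Fin n) (a : {l : Fin n // j < l} → E) :
    (((he j a)⁻¹ : GL (Fin n) E) : Matrix (Fin n) (Fin n) E) =
      1 - vecMulVec (Pi.single j 1) (ex j a) := by
  unfold he
  rw [ro_inv, one_smul]

theorem he_add (j : Fin n) (a b : {l : Fin n // j < l} → E) : he j (a + b) = he j a * he j b := by
  apply Units.ext
  rw [Units.val_mul, he_val, he_val, he_val, mul_add, mul_one, add_mul, one_mul,
    vecMulVec_mul_vecMulVec, ex_dot_single, ex_add]
  ext i l
  simp [vecMulVec_apply, mul_add]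
  ring

theorem he_zero (j : Fin n) : he j (0 : {l : Fin n // j < l} → E) = 1 := by
  apply Units.ext
  rw [he_val, ex_zero, Units.val_one]
  ext i l
  simp [vecMulVec_apply]

theorem he_NB (j : Fin n) (a : {l : Fin n // j < l} → E) :
    NB n j (he j a : Matrix (Fin n) (Fin n) E) ∧
      NB n j (((he j a)⁻¹ : GL (Fin n) E) : Matrix (Fin n) (Fin n) E) := by
  have hc : ∀ i : Fin n, (i : ℕ) < j → (Pi.single j (1 : E) : Fin n → E) i = 0 := by
    intro i hi
    rw [Pi.single_eq_of_ne]
    intro e
    rw [e] at hi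
    omega
  have hr : ∀ i : Fin n, (i : ℕ) ≤ j → ex j a i = 0 := fun i hi =>
    ex_of_le j a (Fin.le_def.2 hi)
  constructor
  · have := NB.ro hc hr (1 : E)
    rwa [one_smul] at this
  · have := NB.ro hc hr (-1 : E)
    rw [neg_smul, one_smul, ← sub_eq_add_neg] at this
    rw [he_inv_val]
    exact this

theorem he_continuous (j : Fin n) :
    Continuous (fun a : {l : Fin n // j < l} → E => he j a) := by
  have hex : Continuous (fun a : {l : Fin n // j < l} → E => ex j a) := by
    refine continuous_pi fun l => ?_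
    unfold ex
    by_cases h : j < l
    · simp only [h, dite_true]
      exact continuous_apply _
    · simp only [h, dite_false]
      exact continuous_const
  have hvm : Continuous (fun a : {l : Fin n // j < l} → E =>
      vecMulVec (Pi.single j (1 : E)) (ex j a)) := by
    refine continuous_matrix fun i l => ?_
    simp only [vecMulVec_apply]
    exact continuous_const.mul ((continuous_apply l).comp hex)
  rw [Units.continuous_iff]
  constructor
  · have : (Units.val ∘ fun a : {l : Fin n // j < l} → E => he j a) =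
        fun a => 1 + vecMulVec (Pi.single j (1 : E)) (ex j a) := rfl
    rw [this]
    exact continuous_const.add hvm
  · have : (fun a : {l : Fin n // j < l} → E =>
        (((he j a)⁻¹ : GL (Fin n) E) : Matrix (Fin n) (Fin n) E)) =
        fun a => 1 - vecMulVec (Pi.single j (1 : E)) (ex j a) := by
      funext a
      exact he_inv_val j a
    rw [this]
    exact continuous_const.sub hvm

/-- Moving a nonzero vector supported on the indices `> j` to `e_q`. -/
theorem exists_move (j q : Fin n) (hq : (j : ℕ) < q) (L : Fin n → E) (hL : L ≠ 0)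
    (hLj : ∀ i, i ≤ j → L i = 0) :
    ∃ g : GL (Fin n) E, (∀ i l : Fin n, (i ≤ j ∨ l ≤ j) →
      (g : Matrix (Fin n) (Fin n) E) i l = (1 : Matrix (Fin n) (Fin n) E) i l) ∧
      (∀ i l : Fin n, (i ≤ j ∨ l ≤ j) →
      ((g⁻¹ : GL (Fin n) E) : Matrix (Fin n) (Fin n) E) i l =
        (1 : Matrix (Fin n) (Fin n) E) i l) ∧
      (g : Matrix (Fin n) (Fin n) E) *ᵥ L = Pi.single q 1 := by
  -- the condition on `g` is stable under products
  let BD : Matrix (Fin n) (Fin n) E → Prop := fun g => ∀ i l : Fin n, (i ≤ j ∨ l ≤ j) →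
    g i l = (1 : Matrix (Fin n) (Fin n) E) i l
  have hmul : ∀ A B : Matrix (Fin n) (Fin n) E, BD A → BD B → BD (A * B) := by
    intro A B hA hB i l hil
    rw [Matrix.mul_apply]
    rcases hil with h | h
    · rw [Finset.sum_eq_single i]
      · rw [hA i i (Or.inl h), Matrix.one_apply_eq, one_mul, hB i l (Or.inl h)]
      · intro k _ hk
        rw [hA i k (Or.inl h), Matrix.one_apply_ne (Ne.symm hk), zero_mul]
      · intro h'
        exact absurd (Finset.mem_univ _) h'
    · rw [Finset.sum_eq_single l]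
      · rw [hB l l (Or.inr h), Matrix.one_apply_eq, mul_one, hA i l (Or.inr h)]
      · intro k _ hk
        rw [hB k l (Or.inr h), Matrix.one_apply_ne hk, mul_zero]
      · intro h'
        exact absurd (Finset.mem_univ _) h'
  have hro : ∀ (c r : Fin n → E) (z : E), (∀ i, i ≤ j → c i = 0) → (∀ i, i ≤ j → r i = 0) →
      BD (1 + z • vecMulVec c r) := by
    intro c r z hc hr i l hil
    rw [Matrix.add_apply, Matrix.smul_apply, vecMulVec_apply]
    rcases hil with h | h
    · rw [hc i h, zero_mul, smul_zero, add_zero]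
    · rw [hr l h, mul_zero, smul_zero, add_zero]
  -- first case: `L q ≠ 0`
  have case1 : ∀ L : Fin n → E, L q ≠ 0 → (∀ i, i ≤ j → L i = 0) →
      ∃ g : GL (Fin n) E, BD g ∧ BD ((g⁻¹ : GL (Fin n) E) : Matrix (Fin n) (Fin n) E) ∧
        (g : Matrix (Fin n) (Fin n) E) *ᵥ L = Pi.single q 1 := by
    intro L hLq hLj
    have hdot : (Pi.single q (1 : E) : Fin n → E) ⬝ᵥ (L - Pi.single q 1) = L q - 1 := by
      rw [single_dotProduct]
      simp
    have hcond : (L q)⁻¹ * (1 + (Pi.single q (1 : E) : Fin n → E) ⬝ᵥ (L - Pi.single q 1)) = 1 := by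
      rw [hdot, add_sub_cancel, inv_mul_cancel₀ hLq]
    let g₂ : GL (Fin n) E := ro (L - Pi.single q 1) (Pi.single q 1) (L q)⁻¹ hcond
    have hc : ∀ i, i ≤ j → (L - Pi.single q (1 : E) : Fin n → E) i = 0 := by
      intro i hi
      rw [Pi.sub_apply, hLj i hi, Pi.single_eq_of_ne, sub_zero]
      intro e
      rw [e, Fin.le_def] at hi
      omega
    have hr : ∀ i, i ≤ j → (Pi.single q (1 : E) : Fin n → E) i = 0 := by
      intro i hi
      rw [Pi.single_eq_of_ne]
      intro e
      rw [e, Fin.le_def] at hi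
      omega
    have h1 : (g₂ : Matrix (Fin n) (Fin n) E) *ᵥ Pi.single q 1 = L := by
      show (1 + vecMulVec (L - Pi.single q 1) (Pi.single q 1)) *ᵥ Pi.single q 1 = L
      rw [add_mulVec, one_mulVec, vecMulVec_mulVec, single_dotProduct, Pi.single_eq_same]
      funext i
      simp
    refine ⟨g₂⁻¹, ?_, ?_, ?_⟩
    · have := hro _ _ (-(L q)⁻¹) hc hr
      rw [neg_smul, ← sub_eq_add_neg] at this
      exact this
    · have := hro _ _ 1 hc hr
      rw [one_smul] at this
      rw [inv_inv]
      exact this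
    · rw [← h1, mulVec_mulVec, ← Units.val_mul, inv_mul_cancel, Units.val_one, one_mulVec]
  by_cases hLq : L q = 0
  · obtain ⟨k, hk⟩ : ∃ k, L k ≠ 0 := by
      by_contra h
      push Not at h
      exact hL (funext h)
    have hkq : k ≠ q := by
      rintro rfl
      exact hk hLq
    have hkj : ¬ k ≤ j := fun h => hk (hLj k h)
    have hdot : (Pi.single k (1 : E) : Fin n → E) ⬝ᵥ (Pi.single q (1 : E) : Fin n → E) = 0 := by
      rw [single_dotProduct, Pi.single_eq_of_ne hkq, mul_zero]
    let t₁ : GL (Fin n) E := ro (Pi.single q 1) (Pi.single k 1) 1 (by rw [hdot, add_zero, one_mul])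
    have hc : ∀ i, i ≤ j → (Pi.single q (1 : E) : Fin n → E) i = 0 := by
      intro i hi
      rw [Pi.single_eq_of_ne]
      intro e
      rw [e, Fin.le_def] at hi
      omega
    have hr : ∀ i, i ≤ j → (Pi.single k (1 : E) : Fin n → E) i = 0 := by
      intro i hi
      rw [Pi.single_eq_of_ne]
      rintro rfl
      exact hkj hi
    have h1 : (t₁ : Matrix (Fin n) (Fin n) E) *ᵥ L = L + L k • Pi.single q 1 := by
      show (1 + vecMulVec (Pi.single q 1) (Pi.single k 1)) *ᵥ L = _
      rw [add_mulVec, one_mulVec, vecMulVec_mulVec, single_dotProduct]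
      funext i
      simp [mul_comm]
    obtain ⟨g, hg1, hg2, hg3⟩ := case1 ((t₁ : Matrix (Fin n) (Fin n) E) *ᵥ L)
      (by rw [h1]; simpa [hLq] using hk)
      (by
        intro i hi
        rw [h1, Pi.add_apply, hLj i hi, Pi.smul_apply, hc i hi, smul_zero, add_zero])
    refine ⟨g * t₁, ?_, ?_, ?_⟩
    · rw [Units.val_mul]
      refine hmul _ _ hg1 ?_
      have := hro _ _ 1 hc hr
      rw [one_smul] at this
      exact this
    · rw [_root_.mul_inv_rev, Units.val_mul]
      refine hmul _ _ ?_ hg2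
      have := hro _ _ (-1) hc hr
      rw [neg_smul, one_smul, ← sub_eq_add_neg] at this
      have h2 : ((t₁⁻¹ : GL (Fin n) E) : Matrix (Fin n) (Fin n) E) =
          1 - (1 : E) • vecMulVec (Pi.single q 1) (Pi.single k 1) := rfl
      rw [h2, one_smul]
      exact this
    · rw [Units.val_mul, ← mulVec_mulVec, hg3]
  · exact case1 L hLq hLj

end whit

end SpW
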