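import Pool.Agent.Work.MP_3615d2_al.DefsB

/-!
MP_3615d2_al: upper unitriangular matrices with the rows `≥ j` trivial; rank one perturbations.
-/

open Matrix

namespace SpW

section tu

variable {E : Type} [Field E] {n : ℕ}

/-- Upper unitriangular with the rows `≥ j` trivial. -/
def TU (n j : ℕ) {E : Type} [Field E] (M : Matrix (Fin n) (Fin n) E) : Prop :=
  ∀ i l : Fin n, (l ≤ i ∨ j ≤ (i : ℕ)) → M i l = (1 : Matrix (Fin n) (Fin n) E) i l

theorem TU.one (n j : ℕ) : TU n j (1 : Matrix (Fin n) (Fin n) E) := fun _ _ _ => rfl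

theorem TU.mul {j : ℕ} {A B : Matrix (Fin n) (Fin n) E} (hA : TU n j A) (hB : TU n j B) :
    TU n j (A * B) := by
  intro i l hil
  rw [Matrix.mul_apply, Finset.sum_eq_single i]
  · rw [hA i i (Or.inl le_rfl), hB i l hil, Matrix.one_apply_eq, one_mul]
  · intro k _ hk
    by_cases hj : j ≤ (i : ℕ)
    · rw [hA i k (Or.inr hj), Matrix.one_apply_ne (Ne.symm hk), zero_mul]
    · have hli : l ≤ i := by
        rcases hil with h | h
        · exact h
        · exact absurd h hj
      rcases lt_or_gt_of_ne hk with h | h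
      · rw [hA i k (Or.inl h.le), Matrix.one_apply_ne (Ne.symm hk), zero_mul]
      · rw [hB k l (Or.inl (hli.trans h.le)), Matrix.one_apply_ne (by
          intro e; exact absurd (e ▸ h) (not_lt.2 hli)), mul_zero]
  · intro h
    exact absurd (Finset.mem_univ _) h

/-- The sum of the entries `(i, i+1)`, `i < j`. -/
def sdg (j : ℕ) (M : Matrix (Fin n) (Fin n) E) : E :=
  ∑ i : Fin n, ∑ l : Fin n, if (i : ℕ) + 1 = (l : ℕ) ∧ (i : ℕ) < j then M i l else 0

theorem sdg_one (j : ℕ) : sdg j (1 : Matrix (Fin n) (Fin n) E) = 0 := by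
  unfold sdg
  refine Finset.sum_eq_zero fun i _ => Finset.sum_eq_zero fun l _ => ?_
  split_ifs with h
  · rw [Matrix.one_apply_ne]
    intro e
    rw [e] at h
    omega
  · rfl

theorem sdg_mul {j k : ℕ} {A B : Matrix (Fin n) (Fin n) E} (hA : TU n k A) (hB : TU n k B) :
    sdg j (A * B) = sdg j A + sdg j B := by
  unfold sdg
  rw [← Finset.sum_add_distrib]
  refine Finset.sum_congr rfl fun i _ => ?_
  rw [← Finset.sum_add_distrib]
  refine Finset.sum_congr rfl fun l _ => ?_
  split_ifs with h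
  · have hil : i ≠ l := by
      intro e
      rw [e] at h
      omega
    rw [Matrix.mul_apply]
    have h1 : ∀ m ∈ Finset.univ, m ≠ i ∧ m ≠ l → A i m * B m l = 0 := by
      intro m _ hm
      rcases lt_trichotomy m i with h2 | h2 | h2
      · rw [hA i m (Or.inl h2.le), Matrix.one_apply_ne (Ne.symm hm.1), zero_mul]
      · exact absurd h2 hm.1
      · have h3 : l ≤ m := by
          rw [Fin.le_def]
          have := Fin.lt_def.1 h2
          omega
        rw [hB m l (Or.inl h3), Matrix.one_apply_ne hm.2, mul_zero]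
    rw [← Finset.sum_subset (Finset.subset_univ {i, l}) (fun m _ hm => h1 m (Finset.mem_univ _) (by
      rw [Finset.mem_insert, Finset.mem_singleton, not_or] at hm
      exact hm)), Finset.sum_pair hil, hA i i (Or.inl le_rfl), hB l l (Or.inl le_rfl),
      Matrix.one_apply_eq, Matrix.one_apply_eq, one_mul, mul_one, add_comm]
  · rw [add_zero]

/-- The group of upper unitriangular matrices with the rows `≥ j` trivial. -/
def QU (n j : ℕ) (E : Type) [Field E] : Subgroup (GL (Fin n) E) where
  carrier := {u | TU n j (u : Matrix (Fin n) (Fin n) E) ∧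
    TU n j ((u⁻¹ : GL (Fin n) E) : Matrix (Fin n) (Fin n) E)}
  mul_mem' := by
    rintro a b ⟨ha, ha'⟩ ⟨hb, hb'⟩
    refine ⟨?_, ?_⟩
    · rw [Units.val_mul]
      exact ha.mul hb
    · rw [_root_.mul_inv_rev, Units.val_mul]
      exact hb'.mul ha'
  one_mem' := by
    refine ⟨TU.one n j, ?_⟩
    rw [inv_one]
    exact TU.one n j
  inv_mem' := by
    rintro a ⟨ha, ha'⟩
    refine ⟨ha', ?_⟩
    rw [inv_inv]
    exact ha

theorem mem_QU {j : ℕ} {u : GL (Fin n) E} : u ∈ QU n j E ↔
    TU n j (u : Matrix (Fin n) (Fin n) E) ∧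
      TU n j ((u⁻¹ : GL (Fin n) E) : Matrix (Fin n) (Fin n) E) := Iff.rfl

/-- `1 + c ⊗ r`. -/
def ro (c r : Fin n → E) (a : E) (h : a * (1 + r ⬝ᵥ c) = 1) : GL (Fin n) E where
  val := 1 + vecMulVec c r
  inv := 1 - a • vecMulVec c r
  val_inv := by
    have h1 : vecMulVec c r * vecMulVec c r = (r ⬝ᵥ c) • vecMulVec c r := by
      rw [vecMulVec_mul_vecMulVec]
      ext i l
      simp [vecMulVec_apply, mul_comm, mul_left_comm]
    rw [mul_sub, mul_one, Matrix.mul_smul, add_mul, one_mul, h1, smul_add, smul_smul]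
    have h2 : a • vecMulVec c r + (a * r ⬝ᵥ c) • vecMulVec c r = vecMulVec c r := by
      rw [← add_smul, ← mul_one_add, h, one_smul]
    rw [h2, add_sub_cancel_right]
  inv_val := by
    have h1 : vecMulVec c r * vecMulVec c r = (r ⬝ᵥ c) • vecMulVec c r := by
      rw [vecMulVec_mul_vecMulVec]
      ext i l
      simp [vecMulVec_apply, mul_comm, mul_left_comm]
    rw [mul_add, mul_one, sub_mul, one_mul, Matrix.smul_mul, h1, smul_smul]
    have h2 : a • vecMulVec c r + (a * r ⬝ᵥ c) • vecMulVec c r = vecMulVec c r := by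
      rw [← add_smul, ← mul_one_add, h, one_smul]
    have h3 : vecMulVec c r - (a * r ⬝ᵥ c) • vecMulVec c r = a • vecMulVec c r := by
      rw [sub_eq_iff_eq_add, h2]
    rw [h3, sub_add_cancel]

theorem ro_val (c r : Fin n → E) (a : E) (h : a * (1 + r ⬝ᵥ c) = 1) :
    (ro c r a h : Matrix (Fin n) (Fin n) E) = 1 + vecMulVec c r := rfl

theorem ro_inv (c r : Fin n → E) (a : E) (h : a * (1 + r ⬝ᵥ c) = 1) :
    (((ro c r a h)⁻¹ : GL (Fin n) E) : Matrix (Fin n) (Fin n) E) = 1 - a • vecMulVec c r := rfl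

/-- The rows `< j` and the columns `≤ j` are trivial. -/
def NB (n j : ℕ) {E : Type} [Field E] (M : Matrix (Fin n) (Fin n) E) : Prop :=
  ∀ i l : Fin n, ((i : ℕ) < j ∨ (l : ℕ) ≤ j) → M i l = (1 : Matrix (Fin n) (Fin n) E) i l

theorem NB.ro {j : ℕ} {c r : Fin n → E} (hc : ∀ i : Fin n, (i : ℕ) < j → c i = 0)
    (hr : ∀ i : Fin n, (i : ℕ) ≤ j → r i = 0) (z : E) :
    NB n j (1 + z • vecMulVec c r) := by
  intro i l hil
  rw [Matrix.add_apply, Matrix.smul_apply, vecMulVec_apply]
  rcases hil with h | h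
  · rw [hc i h, zero_mul, smul_zero, add_zero]
  · rw [hr l h, mul_zero, smul_zero, add_zero]

theorem NB.mul {j : ℕ} {A B : Matrix (Fin n) (Fin n) E} (hA : NB n j A) (hB : NB n j B) :
    NB n j (A * B) := by
  intro i l hil
  rw [Matrix.mul_apply]
  rcases hil with h | h
  · rw [Finset.sum_eq_single i]
    · rw [hA i i (Or.inl h), Matrix.one_apply_eq, one_mul, hB i l (Or.inl h)]
    · intro k _ hk
      rw [hA i k (Or.inl h), Matrix.one_apply_ne (Ne.symm hk), zero_mul]
    · intro h'
      exact absurd (Finset.mem_univ _) h'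
  · rw [Finset.sum_eq_single l]
    · rw [hB l l (Or.inr h), Matrix.one_apply_eq, mul_one, hA i l (Or.inr h)]
    · intro k _ hk
      rw [hB k l (Or.inr h), Matrix.one_apply_ne hk, mul_zero]
    · intro h'
      exact absurd (Finset.mem_univ _) h'

/-- Conjugation of `TU` matrices by `NB` matrices. -/
theorem NB.conj {j : ℕ} {g g' u : Matrix (Fin n) (Fin n) E} (hg : NB n j g) (hg' : NB n j g')
    (hgg : g * g' = 1) (hu : TU n j u) :
    TU n j (g * u * g') ∧ sdg j (g * u * g') = sdg j u := by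
  -- rows `< j` of `g u`
  have h1 : ∀ i : Fin n, (i : ℕ) < j → ∀ l, (g * u) i l = u i l := by
    intro i hi l
    rw [Matrix.mul_apply, Finset.sum_eq_single i]
    · rw [hg i i (Or.inl hi), Matrix.one_apply_eq, one_mul]
    · intro k _ hk
      rw [hg i k (Or.inl hi), Matrix.one_apply_ne (Ne.symm hk), zero_mul]
    · intro h'
      exact absurd (Finset.mem_univ _) h'
  -- columns `≤ j`
  have h2 : ∀ l : Fin n, (l : ℕ) ≤ j → ∀ M : Matrix (Fin n) (Fin n) E, ∀ i,
      (M * g') i l = M i l := by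
    intro l hl M i
    rw [Matrix.mul_apply, Finset.sum_eq_single l]
    · rw [hg' l l (Or.inr hl), Matrix.one_apply_eq, mul_one]
    · intro k _ hk
      rw [hg' k l (Or.inr hl), Matrix.one_apply_ne hk, mul_zero]
    · intro h'
      exact absurd (Finset.mem_univ _) h'
  -- rows `≥ j` of `g u`
  have h3 : ∀ i : Fin n, j ≤ (i : ℕ) → ∀ l, (g * u) i l = g i l := by
    intro i hi l
    rw [Matrix.mul_apply, Finset.sum_eq_single l]
    · rw [hu l l (Or.inl le_rfl), Matrix.one_apply_eq, mul_one]
    · intro k _ hk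
      by_cases hkj : (k : ℕ) < j
      · have : i ≠ k := by
          intro e
          rw [e] at hi
          omega
        rw [hg i k (Or.inr hkj.le), Matrix.one_apply_ne this, zero_mul]
      · rw [hu k l (Or.inr (not_lt.1 hkj)), Matrix.one_apply_ne hk, mul_zero]
    · intro h'
      exact absurd (Finset.mem_univ _) h'
  constructor
  · intro i l hil
    by_cases hi : (i : ℕ) < j
    · have hli : l ≤ i := by
        rcases hil with h | h
        · exact h
        · omega
      have hlj : (l : ℕ) ≤ j := by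
        have := Fin.le_def.1 hli
        omega
      rw [h2 l hlj, h1 i hi, hu i l (Or.inl hli)]
    · have h4 : (g * u * g') i l = (g * g') i l := by
        rw [Matrix.mul_apply, Matrix.mul_apply]
        exact Finset.sum_congr rfl fun k _ => by rw [h3 i (not_lt.1 hi)]
      rw [h4, hgg]
  · unfold sdg
    refine Finset.sum_congr rfl fun i _ => Finset.sum_congr rfl fun l _ => ?_
    split_ifs with h
    · rw [h2 l (by omega), h1 i h.2]
    · rfl

end tu

end SpW
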