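import Pool.Agent.Work.MP_3615d2_al.WhitEx

/-!
MP_3615d2_al: cuspidal representations of `GL_n(E)` are generic: `KW π ψ (n-1) ≠ ⊤`.
-/

open Matrix Filter Topology Pool.Agent.SpehH

namespace SpW

section step

variable {E : Type} [Field E] {n : ℕ}

theorem TU.mono {j k : ℕ} (h : j ≤ k) {M : Matrix (Fin n) (Fin n) E} (hM : TU n j M) :
    TU n k M := by
  intro i l hil
  rcases hil with h1 | h1
  · exact hM i l (Or.inl h1)
  · exact hM i l (Or.inr (h.trans h1))

theorem TU.lower {j : ℕ} (hj : j < n) {M : Matrix (Fin n) (Fin n) E} (hM : TU n (j + 1) M)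
    (hrow : ∀ l, M ⟨j, hj⟩ l = (1 : Matrix (Fin n) (Fin n) E) ⟨j, hj⟩ l) : TU n j M := by
  intro i l hil
  rcases hil with h1 | h1
  · exact hM i l (Or.inl h1)
  · rcases Nat.eq_or_lt_of_le h1 with h2 | h2
    · have : i = ⟨j, hj⟩ := Fin.ext h2.symm
      rw [this]
      exact hrow l
    · exact hM i l (Or.inr h2)

theorem row_inv {A B : Matrix (Fin n) (Fin n) E} (hAB : A * B = 1) (i : Fin n)
    (hrow : ∀ l, A i l = (1 : Matrix (Fin n) (Fin n) E) i l) (l : Fin n) :
    B i l = (1 : Matrix (Fin n) (Fin n) E) i l := by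
  have h1 := congrFun (congrFun hAB i) l
  rw [Matrix.mul_apply, Finset.sum_eq_single i] at h1
  · rwa [hrow i, Matrix.one_apply_eq, one_mul] at h1
  · intro k _ hk
    rw [hrow k, Matrix.one_apply_ne (Ne.symm hk), zero_mul]
  · intro h
    exact absurd (Finset.mem_univ _) h

theorem sdg_succ {j : ℕ} (hj : j + 1 < n) (M : Matrix (Fin n) (Fin n) E) :
    sdg (j + 1) M = sdg j M + M ⟨j, by omega⟩ ⟨j + 1, hj⟩ := by
  unfold sdg
  have h1 : ∀ i l : Fin n, (if (i : ℕ) + 1 = (l : ℕ) ∧ (i : ℕ) < j + 1 then M i l else 0) =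
      (if (i : ℕ) + 1 = (l : ℕ) ∧ (i : ℕ) < j then M i l else 0) +
        (if i = ⟨j, by omega⟩ then (if l = ⟨j + 1, hj⟩ then M i l else 0) else 0) := by
    intro i l
    by_cases hi : i = ⟨j, by omega⟩
    · subst hi
      by_cases hl : l = ⟨j + 1, hj⟩
      · subst hl
        simp
      · have : ¬ (j + 1 = (l : ℕ)) := fun e => hl (Fin.ext e.symm)
        simp [this, hl]
    · have h2 : (i : ℕ) ≠ j := fun e => hi (Fin.ext e)
      have h3 : ((i : ℕ) + 1 = (l : ℕ) ∧ (i : ℕ) < j + 1) ↔
          ((i : ℕ) + 1 = (l : ℕ) ∧ (i : ℕ) < j) := by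
        constructor
        · rintro ⟨a, b⟩
          exact ⟨a, by omega⟩
        · rintro ⟨a, b⟩
          exact ⟨a, by omega⟩
      simp only [h3, hi, if_false, add_zero]
  simp only [h1, Finset.sum_add_distrib]
  congr 1
  rw [Finset.sum_eq_single ⟨j, by omega⟩]
  · simp
  · intro i _ hi
    simp [hi]
  · intro h
    exact absurd (Finset.mem_univ _) h

end step

section whit

variable {E : Type} [NontriviallyNormedField E] {n : ℕ} {V : Type} [AddCommGroup V] [Module ℂ V]

theorem he_QU (j : Fin n) (a : {l : Fin n // j < l} → E) : he j a ∈ QU n (j + 1) E := by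
  have h1 : ∀ z : E, TU n ((j : ℕ) + 1) (1 + z • vecMulVec (Pi.single j (1 : E)) (ex j a)) := by
    intro z i l hil
    rw [Matrix.add_apply, Matrix.smul_apply, vecMulVec_apply]
    by_cases hi : i = j
    · subst hi
      have : l ≤ i := by
        rcases hil with h | h
        · exact h
        · omega
      rw [ex_of_le i a this, mul_zero, smul_zero, add_zero]
    · rw [Pi.single_eq_of_ne hi, zero_mul, smul_zero, add_zero]
  refine ⟨?_, ?_⟩
  · have := h1 1
    rwa [one_smul] at this
  · have := h1 (-1)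
    rw [neg_smul, one_smul, ← sub_eq_add_neg] at this
    rw [he_inv_val]
    exact this

/-- Factorisation of an element of `QU (j+1)`. -/
theorem QU_factor (j : Fin n) (u : GL (Fin n) E) (hu : u ∈ QU n (j + 1) E) :
    u * (he j (fun l => (u : Matrix (Fin n) (Fin n) E) j l.1))⁻¹ ∈ QU n j E := by
  set a : {l : Fin n // j < l} → E := fun l => (u : Matrix (Fin n) (Fin n) E) j l.1 with ha
  have hmem : u * (he j a)⁻¹ ∈ QU n (j + 1) E :=
    (QU n (j + 1) E).mul_mem hu ((QU n (j + 1) E).inv_mem (he_QU j a))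
  have hrow : ∀ l, ((u * (he j a)⁻¹ : GL (Fin n) E) : Matrix (Fin n) (Fin n) E) j l =
      (1 : Matrix (Fin n) (Fin n) E) j l := by
    intro l
    rw [Units.val_mul, he_inv_val, mul_sub, mul_one, Matrix.sub_apply, mul_vecMulVec,
      vecMulVec_apply]
    have h1 : ((u : Matrix (Fin n) (Fin n) E) *ᵥ Pi.single j 1) j = 1 := by
      rw [mulVec_single_one]
      show (u : Matrix (Fin n) (Fin n) E) j j = 1
      rw [hu.1 j j (Or.inl le_rfl), Matrix.one_apply_eq]
    rw [h1, one_mul]
    by_cases hl : j < l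
    · have : ex j a l = (u : Matrix (Fin n) (Fin n) E) j l := by
        unfold ex
        rw [dif_pos hl]
      rw [this, sub_self, Matrix.one_apply_ne hl.ne]
    · rw [ex_of_le j a (not_lt.1 hl), sub_zero, hu.1 j l (Or.inl (not_lt.1 hl))]
  refine ⟨hmem.1.lower j.2 hrow, hmem.2.lower j.2 ?_⟩
  apply row_inv _ _ hrow
  rw [← Units.val_mul, mul_inv_cancel, Units.val_one]

theorem Nk_le_QU (k : ℕ) : Nk n k E ≤ QU n k E := by
  intro u hu
  have h1 : ∀ w ∈ Nk n k E, TU n k (w : Matrix (Fin n) (Fin n) E) := by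
    intro w hw i l hil
    apply hw
    rintro ⟨h2, h3⟩
    rcases hil with h | h
    · have := Fin.le_def.1 h
      omega
    · omega
  exact ⟨h1 u hu, h1 _ ((Nk n k E).inv_mem hu)⟩

/-- The generators of `KW (j+1)` in terms of `KW j` and the `he`. -/
theorem KW_gen (π : GL (Fin n) E →* Module.End ℂ V) (ψ : AddChar E Circle) (j : Fin n)
    (hj : (j : ℕ) + 1 < n) (u : GL (Fin n) E) (hu : u ∈ QU n (j + 1) E) (v : V) :
    ∃ (a : {l : Fin n // j < l} → E) (z : ℂ) (y : V), y ∈ KW π ψ j ∧
      π u v - ((ψ (sdg (j + 1) (u : Matrix (Fin n) (Fin n) E)) : Circle) : ℂ) • v =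
        y + z • (π (he j a) v - ((ψ (ex j a ⟨j + 1, hj⟩) : Circle) : ℂ) • v) := by
  set a : {l : Fin n // j < l} → E := fun l => (u : Matrix (Fin n) (Fin n) E) j l.1 with ha
  have hmem := QU_factor j u hu
  set u' := u * (he j a)⁻¹ with hu'
  have huu : u = u' * he j a := by rw [hu', inv_mul_cancel_right]
  have hs : sdg ((j : ℕ) + 1) (u : Matrix (Fin n) (Fin n) E) =
      sdg j (u' : Matrix (Fin n) (Fin n) E) + ex j a ⟨j + 1, hj⟩ := by
    rw [huu, Units.val_mul, sdg_mul (k := (j : ℕ) + 1) (hmem.1.mono (Nat.le_succ _)) (he_QU j a).1,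
      sdg_succ hj, sdg_succ hj]
    have h1 : (u' : Matrix (Fin n) (Fin n) E) ⟨j, by omega⟩ ⟨j + 1, hj⟩ = 0 := by
      rw [hmem.1 _ _ (Or.inr le_rfl), Matrix.one_apply_ne]
      intro e
      have := congrArg Fin.val e
      simp at this
    have h2 : sdg (j : ℕ) (he j a : Matrix (Fin n) (Fin n) E) = 0 := by
      unfold sdg
      refine Finset.sum_eq_zero fun i _ => Finset.sum_eq_zero fun l _ => ?_
      split_ifs with h
      · rw [(he_NB j a).1 i l (Or.inl h.2), Matrix.one_apply_ne]
        intro e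
        rw [e] at h
        omega
      · rfl
    have h3 : (he j a : Matrix (Fin n) (Fin n) E) ⟨j, by omega⟩ ⟨j + 1, hj⟩ =
        ex j a ⟨j + 1, hj⟩ := by
      rw [he_val, Matrix.add_apply, vecMulVec_apply]
      have e1 : (⟨(j : ℕ), by omega⟩ : Fin n) = j := rfl
      rw [e1, Pi.single_eq_same, one_mul, Matrix.one_apply_ne, zero_add]
      intro e
      have := congrArg Fin.val e
      simp at this
    rw [h1, h2, h3, add_zero, zero_add]
  refine ⟨a, ((ψ (sdg j (u' : Matrix (Fin n) (Fin n) E)) : Circle) : ℂ),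
    π u' (π (he j a) v) - ((ψ (sdg j (u' : Matrix (Fin n) (Fin n) E)) : Circle) : ℂ) •
      π (he j a) v, Submodule.subset_span ⟨u', hmem, π (he j a) v, rfl⟩, ?_⟩
  have e1 : π u v = π u' (π (he j a) v) := by
    conv_lhs => rw [huu, map_mul]
    rfl
  have e2 : ((ψ (sdg ((j : ℕ) + 1) (u : Matrix (Fin n) (Fin n) E)) : Circle) : ℂ) =
      ((ψ (sdg j (u' : Matrix (Fin n) (Fin n) E)) : Circle) : ℂ) *
        ((ψ (ex j a ⟨j + 1, hj⟩) : Circle) : ℂ) := by
    rw [hs, AddChar.map_add_eq_mul, Circle.coe_mul]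
  rw [e1, e2, smul_sub, mul_smul]
  abel

/-- conjugation of `he` by `g`. -/
theorem he_conj (j : Fin n) (a : {l : Fin n // j < l} → E) (g : GL (Fin n) E)
    (hg : ∀ i l : Fin n, (i ≤ j ∨ l ≤ j) →
      (g : Matrix (Fin n) (Fin n) E) i l = (1 : Matrix (Fin n) (Fin n) E) i l) :
    he j a * g = g * he j (fun l => (ex j a ᵥ* (g : Matrix (Fin n) (Fin n) E)) l.1) ∧
      ex j (fun l => (ex j a ᵥ* (g : Matrix (Fin n) (Fin n) E)) l.1) =
        ex j a ᵥ* (g : Matrix (Fin n) (Fin n) E) := by
  have h1 : ex j (fun l => (ex j a ᵥ* (g : Matrix (Fin n) (Fin n) E)) l.1) =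
        ex j a ᵥ* (g : Matrix (Fin n) (Fin n) E) := by
    funext l
    by_cases hl : j < l
    · unfold ex
      rw [dif_pos hl]
    · rw [ex_of_le _ _ (not_lt.1 hl)]
      symm
      show ∑ k, ex j a k * (g : Matrix (Fin n) (Fin n) E) k l = 0
      refine Finset.sum_eq_zero fun k _ => ?_
      rw [hg k l (Or.inr (not_lt.1 hl))]
      by_cases hkl : k = l
      · rw [hkl, ex_of_le j a (not_lt.1 hl), zero_mul]
      · rw [Matrix.one_apply_ne hkl, mul_zero]
  refine ⟨?_, h1⟩
  apply Units.ext
  rw [Units.val_mul, Units.val_mul, he_val, he_val, h1, add_mul, one_mul, mul_add, mul_one]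
  congr 1
  rw [mul_vecMulVec, vecMulVec_mul]
  congr 1
  rw [mulVec_single_one]
  funext i
  show _ = (g : Matrix (Fin n) (Fin n) E) i j
  rw [hg i j (Or.inr le_rfl)]
  by_cases hij : i = j
  · rw [hij, Pi.single_eq_same, Matrix.one_apply_eq]
  · rw [Pi.single_eq_of_ne hij, Matrix.one_apply_ne hij]

variable [IsUltrametricDist E] [ProperSpace E]

/-- One step. -/
theorem KW_step (π : GL (Fin n) E →* Module.End ℂ V) (hπ : IsSmoothRep π)
    (hcusp : IsCusp π) {ψ : AddChar E Circle} (hψ : Continuous ψ) (hψ1 : ψ ≠ 1)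
    (j : Fin n) (hj : (j : ℕ) + 1 < n) (hK : KW π ψ j ≠ ⊤) : KW π ψ (j + 1) ≠ ⊤ := by
  intro htop
  set K := KW π ψ (j : ℕ) with hKdef
  have hst : ∀ a : {l : Fin n // j < l} → E, K ≤ K.comap (π (he j a)) := fun a x hx =>
    KW_conj π ψ j (he j a) (he_NB j a).1 (he_NB j a).2 hx
  let ϖ : ({l : Fin n // j < l} → E) → Module.End ℂ (V ⧸ K) := fun a =>
    K.mapQ K (π (he j a)) (hst a)
  have hϖ : ∀ a v, ϖ a (K.mkQ v) = K.mkQ (π (he j a) v) := fun a v => rfl
  have h0 : ϖ 0 = 1 := by
    apply LinearMap.ext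
    intro y
    obtain ⟨v, rfl⟩ := K.mkQ_surjective y
    rw [hϖ, he_zero, map_one]
    rfl
  have hadd : ∀ a a', ϖ (a + a') = ϖ a * ϖ a' := by
    intro a a'
    apply LinearMap.ext
    intro y
    obtain ⟨v, rfl⟩ := K.mkQ_surjective y
    rw [hϖ, he_add, map_mul]
    rfl
  have hsm : ∀ y, ∃ s : E, s ≠ 0 ∧ ∀ a, ‖a‖ ≤ ‖s‖ → ϖ a y = y := by
    intro y
    obtain ⟨v, rfl⟩ := K.mkQ_surjective y
    have hc := (he_continuous (E := E) j).tendsto 0
    rw [he_zero] at hc
    obtain ⟨r, hr, hr'⟩ := Metric.eventually_nhds_iff.1 (hc.eventually (hπ v))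
    obtain ⟨s, hs, hsr⟩ := NormedField.exists_norm_lt E hr
    refine ⟨s, norm_pos_iff.1 hs, fun a ha => ?_⟩
    rw [hϖ, hr' (by rw [dist_zero_right]; exact lt_of_le_of_lt ha hsr)]
  -- all twisted kernels are everything
  have hall : ∀ l : {l : Fin n // j < l} → E, thK ψ ϖ l = ⊤ := by
    intro l
    set T := (thK ψ ϖ l).comap K.mkQ with hT
    suffices hTt : T = ⊤ by
      rw [eq_top_iff]
      intro y _
      obtain ⟨v, rfl⟩ := K.mkQ_surjective y
      have : v ∈ T := by rw [hTt]; trivial
      exact this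
    have hKT : K ≤ T := by
      intro x hx
      show K.mkQ x ∈ thK ψ ϖ l
      have : K.mkQ x = 0 := by
        rw [Submodule.mkQ_apply, Submodule.Quotient.mk_eq_zero]
        exact hx
      rw [this]
      exact Submodule.zero_mem _
    have hheT : ∀ a v, π (he j a) v - ((ψ (l ⬝ᵥ a) : Circle) : ℂ) • v ∈ T := by
      intro a v
      show K.mkQ (π (he j a) v - ((ψ (l ⬝ᵥ a) : Circle) : ℂ) • v) ∈ thK ψ ϖ l
      rw [map_sub, map_smul, ← hϖ]
      exact Submodule.subset_span ⟨a, K.mkQ v, rfl⟩
    by_cases hl : l = 0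
    · -- cuspidality
      rw [eq_top_iff, ← hcusp ((j : ℕ) + 1) (Nat.succ_pos _) hj]
      apply Submodule.span_le.2
      rintro x ⟨ν, hν, v, -, rfl⟩
      show π ν v - v ∈ T
      have hνQ : ν ∈ QU n ((j : ℕ) + 1) E := Nk_le_QU _ hν
      have hmem := QU_factor j ν hνQ
      set a : {l : Fin n // j < l} → E := fun l => (ν : Matrix (Fin n) (Fin n) E) j l.1 with ha
      set u' := ν * (he j a)⁻¹ with hu'
      have huu : ν = u' * he j a := by rw [hu', inv_mul_cancel_right]
      have hs : sdg (j : ℕ) (u' : Matrix (Fin n) (Fin n) E) = 0 := by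
        unfold sdg
        refine Finset.sum_eq_zero fun i _ => Finset.sum_eq_zero fun k _ => ?_
        split_ifs with h
        · have h1 : (u' : Matrix (Fin n) (Fin n) E) i k = (ν : Matrix (Fin n) (Fin n) E) i k := by
            rw [hu', Units.val_mul, Matrix.mul_apply, Finset.sum_eq_single k]
            · rw [(he_NB j a).2 k k (Or.inr (by omega)), Matrix.one_apply_eq, mul_one]
            · intro m _ hm
              rw [(he_NB j a).2 m k (Or.inr (by omega)), Matrix.one_apply_ne hm, mul_zero]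
            · intro h'
              exact absurd (Finset.mem_univ _) h'
          rw [h1, hν i k (by omega), Matrix.one_apply_ne]
          intro e
          rw [e] at h
          omega
        · rfl
      have e1 : π ν v = π u' (π (he j a) v) := by
        conv_lhs => rw [huu, map_mul]
        rfl
      have h2 : π u' (π (he j a) v) - π (he j a) v ∈ K := by
        apply Submodule.subset_span
        refine ⟨u', hmem, π (he j a) v, ?_⟩
        rw [hs, AddChar.map_zero_eq_one, Circle.coe_one, one_smul]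
      have h3 := hheT a v
      rw [hl, zero_dotProduct, AddChar.map_zero_eq_one, Circle.coe_one, one_smul] at h3
      have h4 := T.add_mem (hKT h2) h3
      rw [e1]
      have e2 : π u' (π (he j a) v) - v =
          π u' (π (he j a) v) - π (he j a) v + (π (he j a) v - v) := by abel
      rw [e2]
      exact h4
    · -- a nontrivial character: conjugate
      have hL : ex j l ≠ 0 := by
        intro h
        apply hl
        funext k
        have := congrFun h k.1
        unfold ex at this
        rw [dif_pos k.2] at this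
        exact this
      obtain ⟨g, hg1, hg2, hg3⟩ := exists_move j ⟨(j : ℕ) + 1, hj⟩ (Nat.lt_succ_self _) (ex j l) hL
        (fun i hi => ex_of_le j l hi)
      have hNB : ∀ M : Matrix (Fin n) (Fin n) E, (∀ i l : Fin n, (i ≤ j ∨ l ≤ j) →
          M i l = (1 : Matrix (Fin n) (Fin n) E) i l) → NB n j M := by
        intro M hM i k hik
        apply hM
        rcases hik with h | h
        · exact Or.inl (Fin.le_def.2 h.le)
        · exact Or.inr (Fin.le_def.2 h)
      have hsub : ∀ x ∈ KW π ψ ((j : ℕ) + 1), π g⁻¹ x ∈ T := by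
        intro x hx
        induction hx using Submodule.span_induction with
        | mem x hx =>
          obtain ⟨u, hu, v, rfl⟩ := hx
          obtain ⟨a, z, y, hy, hyz⟩ := KW_gen π ψ j hj u hu v
          rw [hyz, map_add, map_smul]
          refine T.add_mem (hKT ?_) (T.smul_mem _ ?_)
          · refine KW_conj π ψ j g⁻¹ (hNB _ hg2) ?_ hy
            rw [inv_inv]
            exact hNB _ hg1
          · obtain ⟨hc1, hc2⟩ := he_conj j a g hg1
            set a' : {l : Fin n // j < l} → E :=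
              fun l => (ex j a ᵥ* (g : Matrix (Fin n) (Fin n) E)) l.1 with ha'
            have h5 := hheT a' (π g⁻¹ v)
            have h6 : π (he j a') (π g⁻¹ v) = π g⁻¹ (π (he j a) v) := by
              rw [← Module.End.mul_apply, ← Module.End.mul_apply, ← map_mul, ← map_mul]
              congr 2
              rw [eq_inv_mul_iff_mul_eq, ← mul_assoc, ← hc1, mul_inv_cancel_right]
            have h7 : l ⬝ᵥ a' = ex j a ⟨(j : ℕ) + 1, hj⟩ := by
              rw [← ex_dot j l a', hc2, dotProduct_comm, ← dotProduct_mulVec, hg3,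
                dotProduct_single, mul_one]
            rw [h6, h7] at h5
            rw [map_sub, map_smul]
            exact h5
        | zero => rw [map_zero]; exact Submodule.zero_mem _
        | add x y _ _ hx hy => rw [map_add]; exact Submodule.add_mem _ hx hy
        | smul c x _ hx => rw [map_smul]; exact Submodule.smul_mem _ _ hx
      rw [eq_top_iff]
      intro v _
      have h8 : π g v ∈ KW π ψ ((j : ℕ) + 1) := by rw [htop]; trivial
      have h9 := hsub _ h8
      rwa [← Module.End.mul_apply, ← map_mul, inv_mul_cancel, map_one] at h9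
  have hz := exists_theta hψ hψ1 h0 hadd hsm hall
  apply hK
  rw [eq_top_iff]
  intro v _
  have h1 := hz (K.mkQ v)
  rwa [Submodule.mkQ_apply, Submodule.Quotient.mk_eq_zero] at h1

/-- Cuspidal representations are generic. -/
theorem KW_ne_top (π : GL (Fin n) E →* Module.End ℂ V) (hπ : IsSmoothRep π)
    (hcusp : IsCusp π) [Nontrivial V] {ψ : AddChar E Circle} (hψ : Continuous ψ) (hψ1 : ψ ≠ 1)
    (j : ℕ) (hj : j < n) : KW π ψ j ≠ ⊤ := by
  induction j with
  | zero =>
    have h1 : KW π ψ 0 = ⊥ := by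
      rw [eq_bot_iff]
      apply Submodule.span_le.2
      rintro x ⟨u, hu, v, rfl⟩
      have h2 : u = 1 := by
        apply Units.ext
        ext i l
        rw [hu.1 i l (Or.inr (Nat.zero_le _)), Units.val_one]
      have h3 : sdg 0 (u : Matrix (Fin n) (Fin n) E) = 0 := by
        unfold sdg
        refine Finset.sum_eq_zero fun i _ => Finset.sum_eq_zero fun l _ => ?_
        simp
      show π u v - _ ∈ (⊥ : Submodule ℂ V)
      rw [h3, h2, map_one, AddChar.map_zero_eq_one, Circle.coe_one, one_smul]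
      simp
    rw [h1]
    exact bot_ne_top
  | succ j ih =>
    exact KW_step π hπ hcusp hψ hψ1 ⟨j, by omega⟩ hj (ih (by omega))

end whit

end SpW
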